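import Mathlib

/-!
# Short cuts for the instance search

Each of these instances is the one that Lean finds by itself (`inferInstance`). They are made
local instances in the modules of this folder and nowhere else.
-/

set_option autoImplicit false

open MeasureTheory
open scoped InnerProductSpace Topology BoundedContinuousFunction

namespace Pool.Agent.Helper23.FB.Inst

theorem rCharZero : CharZero ℝ := inferInstance
theorem rALM : AddLeftMono ℝ := inferInstance
theorem rARM : AddRightMono ℝ := inferInstance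
theorem rALSM : AddLeftStrictMono ℝ := inferInstance
theorem rARSM : AddRightStrictMono ℝ := inferInstance
theorem rARRLE : AddRightReflectLE ℝ := inferInstance
theorem rALRLE : AddLeftReflectLE ℝ := inferInstance
theorem rARRLT : AddRightReflectLT ℝ := inferInstance
theorem rALRLT : AddLeftReflectLT ℝ := inferInstance
theorem rPMRLT : PosMulReflectLT ℝ := inferInstance
theorem rMPRLT : MulPosReflectLT ℝ := inferInstance
theorem rPMM : PosMulMono ℝ := inferInstance
theorem rMPM : MulPosMono ℝ := inferInstance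
theorem rPMSM : PosMulStrictMono ℝ := inferInstance
theorem rMPSM : MulPosStrictMono ℝ := inferInstance
theorem rEAOL : ExistsAddOfLE ℝ := inferInstance
theorem rIOR : IsOrderedRing ℝ := inferInstance
theorem rISOR : IsStrictOrderedRing ℝ := inferInstance
theorem rFS : FaithfulSMul ℝ ℂ := inferInstance
theorem rcCharZero : CharZero ℂ := inferInstance
theorem rNZD : NoZeroDivisors ℝ := inferInstance
theorem rcNZD : NoZeroDivisors ℂ := inferInstance

noncomputable abbrev bSemiring : Semiring (ℝ →ᵇ ℂ) := inferInstance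
noncomputable abbrev bStar : Star (ℝ →ᵇ ℂ) := inferInstance
noncomputable abbrev bAlg : Algebra ℂ (ℝ →ᵇ ℂ) := inferInstance
noncomputable abbrev bSub : Sub (ℝ →ᵇ ℂ) := inferInstance
noncomputable abbrev bMul : Mul (ℝ →ᵇ ℂ) := inferInstance
noncomputable abbrev bAdd : Add (ℝ →ᵇ ℂ) := inferInstance

section One

variable {H : Type*} [NormedAddCommGroup H] [InnerProductSpace ℂ H]

noncomputable abbrev iRing : Ring (H →L[ℂ] H) := inferInstance
noncomputable abbrev iSemiring : Semiring (H →L[ℂ] H) := inferInstance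
noncomputable abbrev iAlgC : Algebra ℂ (H →L[ℂ] H) := inferInstance
noncomputable abbrev iSMulC : SMul ℂ (H →L[ℂ] H) := inferInstance
noncomputable abbrev iModC : Module ℂ (H →L[ℂ] H) := inferInstance
noncomputable abbrev iAlgR : Algebra ℝ (H →L[ℂ] H) := inferInstance
noncomputable abbrev iSMulR : SMul ℝ (H →L[ℂ] H) := inferInstance
noncomputable abbrev iModR : Module ℝ (H →L[ℂ] H) := inferInstance
noncomputable abbrev iMonoid : Monoid (H →L[ℂ] H) := inferInstance
noncomputable abbrev iSemigroup : Semigroup (H →L[ℂ] H) := inferInstance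
noncomputable abbrev iMulOneClass : MulOneClass (H →L[ℂ] H) := inferInstance
noncomputable abbrev iMul : Mul (H →L[ℂ] H) := inferInstance
noncomputable abbrev iAdd : Add (H →L[ℂ] H) := inferInstance
noncomputable abbrev iSub : Sub (H →L[ℂ] H) := inferInstance
noncomputable abbrev iNeg : Neg (H →L[ℂ] H) := inferInstance
noncomputable abbrev iAddCommMonoid : AddCommMonoid (H →L[ℂ] H) := inferInstance
noncomputable abbrev iAddCommGroup : AddCommGroup (H →L[ℂ] H) := inferInstance
noncomputable abbrev iAddGroup : AddGroup (H →L[ℂ] H) := inferInstance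
noncomputable abbrev iAddMonoid : AddMonoid (H →L[ℂ] H) := inferInstance
noncomputable abbrev iSMulZeroC : SMulZeroClass ℂ (H →L[ℂ] H) := inferInstance
noncomputable abbrev iMulActC : MulAction ℂ (H →L[ℂ] H) := inferInstance
noncomputable abbrev iDSMulC : DistribSMul ℂ (H →L[ℂ] H) := inferInstance
noncomputable abbrev iDSMulR : DistribSMul ℝ (H →L[ℂ] H) := inferInstance
noncomputable abbrev iSNAG : SeminormedAddGroup (H →L[ℂ] H) := inferInstance
noncomputable abbrev iSNACG : SeminormedAddCommGroup (H →L[ℂ] H) := inferInstance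
noncomputable abbrev iNorm : Norm (H →L[ℂ] H) := inferInstance
noncomputable abbrev iNSC' : NormedSpace ℂ (H →L[ℂ] H) := inferInstance
noncomputable abbrev iNSR' : NormedSpace ℝ (H →L[ℂ] H) := inferInstance
noncomputable abbrev iTop : TopologicalSpace (H →L[ℂ] H) := inferInstance
theorem iT2 : T2Space (H →L[ℂ] H) := inferInstance
theorem iTR : IsTopologicalRing (H →L[ℂ] H) := inferInstance
theorem iSCC : SMulCommClass ℂ (H →L[ℂ] H) (H →L[ℂ] H) := inferInstance
theorem iIST : IsScalarTower ℂ (H →L[ℂ] H) (H →L[ℂ] H) := inferInstance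
theorem iSCCR : SMulCommClass ℝ (H →L[ℂ] H) (H →L[ℂ] H) := inferInstance
theorem iISTR : IsScalarTower ℝ (H →L[ℂ] H) (H →L[ℂ] H) := inferInstance
theorem iZHC : ZeroHomClass (H →L[ℂ] H) H H := inferInstance
theorem iAHC : AddHomClass (H →L[ℂ] H) H H := inferInstance
theorem iAMHC : AddMonoidHomClass (H →L[ℂ] H) H H := inferInstance
theorem iMAHC : MulActionHomClass (H →L[ℂ] H) ℂ H H := inferInstance

noncomputable abbrev lTop : TopologicalSpace ↥(Lp H 2 (volume : Measure ℝ)) := inferInstance
noncomputable abbrev lUnif : UniformSpace ↥(Lp H 2 (volume : Measure ℝ)) := inferInstance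
noncomputable abbrev lACM : AddCommMonoid ↥(Lp H 2 (volume : Measure ℝ)) := inferInstance
noncomputable abbrev lACG : AddCommGroup ↥(Lp H 2 (volume : Measure ℝ)) := inferInstance
noncomputable abbrev lSNAG : SeminormedAddGroup ↥(Lp H 2 (volume : Measure ℝ)) := inferInstance
noncomputable abbrev lSNACG :
    SeminormedAddCommGroup ↥(Lp H 2 (volume : Measure ℝ)) := inferInstance
noncomputable abbrev lNACG : NormedAddCommGroup ↥(Lp H 2 (volume : Measure ℝ)) := inferInstance
noncomputable abbrev lNorm : Norm ↥(Lp H 2 (volume : Measure ℝ)) := inferInstance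
noncomputable abbrev lIPS : InnerProductSpace ℂ ↥(Lp H 2 (volume : Measure ℝ)) := inferInstance
noncomputable abbrev lMod : Module ℂ ↥(Lp H 2 (volume : Measure ℝ)) := inferInstance
noncomputable abbrev lSMul : SMul ℂ ↥(Lp H 2 (volume : Measure ℝ)) := inferInstance
omit [InnerProductSpace ℂ H] in
theorem lT2 : T2Space ↥(Lp H 2 (volume : Measure ℝ)) := inferInstance

end One

section Complete

variable {H : Type*} [NormedAddCommGroup H] [InnerProductSpace ℂ H] [CompleteSpace H]

noncomputable abbrev iStar : Star (H →L[ℂ] H) := inferInstance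
noncomputable abbrev iStarMul : StarMul (H →L[ℂ] H) := inferInstance
noncomputable abbrev iStarAddMonoid : StarAddMonoid (H →L[ℂ] H) := inferInstance
noncomputable abbrev iStarRing : StarRing (H →L[ℂ] H) := inferInstance
theorem iNSC : NonnegSpectrumClass ℝ (H →L[ℂ] H) := inferInstance
theorem iSOR : StarOrderedRing (H →L[ℂ] H) := inferInstance
theorem iALM : AddLeftMono (H →L[ℂ] H) := inferInstance
theorem iARM : AddRightMono (H →L[ℂ] H) := inferInstance
theorem iCFC : ContinuousFunctionalCalculus ℝ (H →L[ℂ] H) IsSelfAdjoint := inferInstance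
theorem iNCFC : NonUnitalContinuousFunctionalCalculus ℝ (H →L[ℂ] H) IsSelfAdjoint := inferInstance
theorem iStarModR : StarModule ℝ (H →L[ℂ] H) := inferInstance
theorem iStarModC : StarModule ℂ (H →L[ℂ] H) := inferInstance

end Complete

section Two

variable {H K : Type*} [NormedAddCommGroup H] [InnerProductSpace ℂ H]
  [NormedAddCommGroup K] [InnerProductSpace ℂ K]

theorem eAMHC2 : AddMonoidHomClass (H →L[ℂ] K) H K := inferInstance
theorem eZHC2 : ZeroHomClass (H →L[ℂ] K) H K := inferInstance
theorem lAMHC :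
    AddMonoidHomClass (↥(Lp H 2 (volume : Measure ℝ)) →L[ℂ] ↥(Lp K 2 (volume : Measure ℝ))) ↥(Lp H 2 (volume : Measure ℝ)) ↥(Lp K 2 (volume : Measure ℝ)) :=
  inferInstance

variable [CompleteSpace H] [CompleteSpace K]

theorem eStar :
    StarHomClass ((H →L[ℂ] H) ≃⋆ₐ[ℂ] (K →L[ℂ] K)) (H →L[ℂ] H) (K →L[ℂ] K) := inferInstance
theorem eAdd :
    AddHomClass ((H →L[ℂ] H) ≃⋆ₐ[ℂ] (K →L[ℂ] K)) (H →L[ℂ] H) (K →L[ℂ] K) := inferInstance
theorem eMul :
    MulHomClass ((H →L[ℂ] H) ≃⋆ₐ[ℂ] (K →L[ℂ] K)) (H →L[ℂ] H) (K →L[ℂ] K) := inferInstance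
theorem eOne :
    OneHomClass ((H →L[ℂ] H) ≃⋆ₐ[ℂ] (K →L[ℂ] K)) (H →L[ℂ] H) (K →L[ℂ] K) := inferInstance
theorem eZero :
    ZeroHomClass ((H →L[ℂ] H) ≃⋆ₐ[ℂ] (K →L[ℂ] K)) (H →L[ℂ] H) (K →L[ℂ] K) := inferInstance
theorem eMulAction :
    MulActionHomClass ((H →L[ℂ] H) ≃⋆ₐ[ℂ] (K →L[ℂ] K)) ℂ (H →L[ℂ] H) (K →L[ℂ] K) := inferInstance

end Two

end Pool.Agent.Helper23.FB.Inst
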