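import Pool.Agent.Helper23.FB.Inst

/-!
Parts of Helper23.FA.L00_01, Helper23.FA.L00_18, Helper23.FA.L00_15, Helper23.FA.L00_19, Helper23.FA.L01_03, Helper23.FA.L01_08, Helper23.FA.L01_18, Helper23.FA.L02_02, Helper23.FA.L01_09
-/

attribute [local instance 5000]
  Pool.Agent.Helper23.FB.Inst.rCharZero Pool.Agent.Helper23.FB.Inst.rALM
  Pool.Agent.Helper23.FB.Inst.rARM Pool.Agent.Helper23.FB.Inst.rALSM
  Pool.Agent.Helper23.FB.Inst.rARSM Pool.Agent.Helper23.FB.Inst.rARRLE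
  Pool.Agent.Helper23.FB.Inst.rALRLE Pool.Agent.Helper23.FB.Inst.rARRLT
  Pool.Agent.Helper23.FB.Inst.rALRLT Pool.Agent.Helper23.FB.Inst.rPMRLT
  Pool.Agent.Helper23.FB.Inst.rMPRLT Pool.Agent.Helper23.FB.Inst.rPMM
  Pool.Agent.Helper23.FB.Inst.rMPM Pool.Agent.Helper23.FB.Inst.rPMSM
  Pool.Agent.Helper23.FB.Inst.rMPSM Pool.Agent.Helper23.FB.Inst.rEAOL
  Pool.Agent.Helper23.FB.Inst.rIOR Pool.Agent.Helper23.FB.Inst.rISOR
  Pool.Agent.Helper23.FB.Inst.rFS Pool.Agent.Helper23.FB.Inst.rcCharZero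
  Pool.Agent.Helper23.FB.Inst.rNZD Pool.Agent.Helper23.FB.Inst.rcNZD
  Pool.Agent.Helper23.FB.Inst.bSemiring Pool.Agent.Helper23.FB.Inst.bStar
  Pool.Agent.Helper23.FB.Inst.bAlg Pool.Agent.Helper23.FB.Inst.bSub
  Pool.Agent.Helper23.FB.Inst.bMul Pool.Agent.Helper23.FB.Inst.bAdd
  Pool.Agent.Helper23.FB.Inst.iRing Pool.Agent.Helper23.FB.Inst.iSemiring
  Pool.Agent.Helper23.FB.Inst.iAlgC Pool.Agent.Helper23.FB.Inst.iSMulC
  Pool.Agent.Helper23.FB.Inst.iModC Pool.Agent.Helper23.FB.Inst.iAlgR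
  Pool.Agent.Helper23.FB.Inst.iSMulR Pool.Agent.Helper23.FB.Inst.iModR
  Pool.Agent.Helper23.FB.Inst.iMonoid Pool.Agent.Helper23.FB.Inst.iSemigroup
  Pool.Agent.Helper23.FB.Inst.iMulOneClass Pool.Agent.Helper23.FB.Inst.iMul
  Pool.Agent.Helper23.FB.Inst.iAdd Pool.Agent.Helper23.FB.Inst.iSub
  Pool.Agent.Helper23.FB.Inst.iNeg Pool.Agent.Helper23.FB.Inst.iAddCommMonoid
  Pool.Agent.Helper23.FB.Inst.iAddCommGroup Pool.Agent.Helper23.FB.Inst.iAddGroup
  Pool.Agent.Helper23.FB.Inst.iAddMonoid Pool.Agent.Helper23.FB.Inst.iSMulZeroC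
  Pool.Agent.Helper23.FB.Inst.iMulActC Pool.Agent.Helper23.FB.Inst.iDSMulC
  Pool.Agent.Helper23.FB.Inst.iDSMulR Pool.Agent.Helper23.FB.Inst.iSNAG
  Pool.Agent.Helper23.FB.Inst.iSNACG Pool.Agent.Helper23.FB.Inst.iNorm
  Pool.Agent.Helper23.FB.Inst.iNSC' Pool.Agent.Helper23.FB.Inst.iNSR'
  Pool.Agent.Helper23.FB.Inst.iTop Pool.Agent.Helper23.FB.Inst.iT2 Pool.Agent.Helper23.FB.Inst.iTR
  Pool.Agent.Helper23.FB.Inst.iSCC Pool.Agent.Helper23.FB.Inst.iIST
  Pool.Agent.Helper23.FB.Inst.iSCCR Pool.Agent.Helper23.FB.Inst.iISTR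
  Pool.Agent.Helper23.FB.Inst.iZHC Pool.Agent.Helper23.FB.Inst.iAHC
  Pool.Agent.Helper23.FB.Inst.iAMHC Pool.Agent.Helper23.FB.Inst.iMAHC
  Pool.Agent.Helper23.FB.Inst.lTop Pool.Agent.Helper23.FB.Inst.lUnif
  Pool.Agent.Helper23.FB.Inst.lACM Pool.Agent.Helper23.FB.Inst.lACG
  Pool.Agent.Helper23.FB.Inst.lSNAG Pool.Agent.Helper23.FB.Inst.lSNACG
  Pool.Agent.Helper23.FB.Inst.lNACG Pool.Agent.Helper23.FB.Inst.lNorm
  Pool.Agent.Helper23.FB.Inst.lIPS Pool.Agent.Helper23.FB.Inst.lMod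
  Pool.Agent.Helper23.FB.Inst.lSMul Pool.Agent.Helper23.FB.Inst.lT2
  Pool.Agent.Helper23.FB.Inst.iStar Pool.Agent.Helper23.FB.Inst.iStarMul
  Pool.Agent.Helper23.FB.Inst.iStarAddMonoid Pool.Agent.Helper23.FB.Inst.iStarRing
  Pool.Agent.Helper23.FB.Inst.iNSC Pool.Agent.Helper23.FB.Inst.iSOR
  Pool.Agent.Helper23.FB.Inst.iALM Pool.Agent.Helper23.FB.Inst.iARM
  Pool.Agent.Helper23.FB.Inst.iCFC Pool.Agent.Helper23.FB.Inst.iNCFC
  Pool.Agent.Helper23.FB.Inst.iStarModR Pool.Agent.Helper23.FB.Inst.iStarModC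
  Pool.Agent.Helper23.FB.Inst.eStar Pool.Agent.Helper23.FB.Inst.eAdd
  Pool.Agent.Helper23.FB.Inst.eMul Pool.Agent.Helper23.FB.Inst.eOne
  Pool.Agent.Helper23.FB.Inst.eZero Pool.Agent.Helper23.FB.Inst.eMulAction
  Pool.Agent.Helper23.FB.Inst.eAMHC2 Pool.Agent.Helper23.FB.Inst.eZHC2
  Pool.Agent.Helper23.FB.Inst.lAMHC

namespace Pool.Agent.Helper23
end Pool.Agent.Helper23
namespace Pool.Agent.Helper23.RBF
end Pool.Agent.Helper23.RBF
namespace Pool.Agent.Helper95.TTC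
end Pool.Agent.Helper95.TTC

section

section

open scoped InnerProductSpace Topology BoundedContinuousFunction

open ContinuousLinearMap Filter MeasureTheory

namespace Pool.Agent.Helper23

variable {H : Type*} [NormedAddCommGroup H] [InnerProductSpace ℂ H] [CompleteSpace H]

/-- The pair `(R, D) = (P + Q, P - Q)` of Rieffel and van Daele for the vector `ξ` and the von
Neumann algebra `A`. In terms of the modular operator: `R = 2 (1 + Δ)⁻¹` and `D = J (R (2 - R))^½`.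
`D` is conjugate linear. -/
structure TTData (A : VonNeumannAlgebra H) (ξ : H) (R : H →L[ℂ] H) (D : H →L[ℝ] H) : Prop where
  R_star : star R = R
  R_nonneg : ∀ v : H, 0 ≤ (⟪v, R v⟫_ℂ).re
  R_le : ∀ v : H, (⟪v, R v⟫_ℂ).re ≤ 2 * ‖v‖ ^ 2
  R_inj : ∀ v : H, R v = 0 → v = 0
  R_inj' : ∀ v : H, R v = (2 : ℂ) • v → v = 0
  D_conj : ∀ (c : ℂ) (v : H), D (c • v) = (starRingEnd ℂ) c • D v
  D_symm : ∀ v w : H, ⟪v, D w⟫_ℂ = ⟪w, D v⟫_ℂ
  D_sq : ∀ v : H, D (D v) = R ((2 : ℂ) • v - R v)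
  D_R : ∀ v : H, D (R v) = (2 : ℂ) • D v - R (D v)
  D_mem : ∀ a ∈ A, D (a ξ) = (2 : ℂ) • (star a) ξ - R ((star a) ξ)
  D_comm : ∀ a ∈ A.commutant, D (a ξ) = R ((star a) ξ)

end Pool.Agent.Helper23

end

section

open scoped InnerProductSpace Topology BoundedContinuousFunction

open ContinuousLinearMap Filter

namespace Pool.Agent.Helper95.TTC

/-- the real interval `[0, 2]` inside `ℂ` -/
def sS : Set ℂ := Complex.ofReal '' Set.Icc 0 2

instance : CompactSpace sS :=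
  isCompact_iff_compactSpace.mp (isCompact_Icc.image Complex.continuous_ofReal)

lemma sS_cases (z : sS) : ∃ r : ℝ, 0 ≤ r ∧ r ≤ 2 ∧ (z : ℂ) = r := by
  obtain ⟨z, r, hr, rfl⟩ := z
  exact ⟨r, hr.1, hr.2, rfl⟩

variable {H : Type*} [NormedAddCommGroup H] [InnerProductSpace ℂ H] [CompleteSpace H]

lemma nonneg_of_re {T : H →L[ℂ] H} (hs : star T = T) (h0 : ∀ v : H, 0 ≤ (⟪v, T v⟫_ℂ).re) :
    0 ≤ T := by
  rw [ContinuousLinearMap.nonneg_iff_isPositive, ContinuousLinearMap.isPositive_def]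
  refine ⟨(ContinuousLinearMap.isSelfAdjoint_iff_isSymmetric).mp hs, ?_⟩
  intro x
  have h := h0 x
  have h' : ⟪T x, x⟫_ℂ = (starRingEnd ℂ) ⟪x, T x⟫_ℂ := (inner_conj_symm _ _).symm
  change 0 ≤ (⟪T x, x⟫_ℂ).re
  rw [h', Complex.conj_re]
  exact h

theorem spectrum_subset (R : H →L[ℂ] H) (hs : star R = R) (h0 : ∀ v : H, 0 ≤ (⟪v, R v⟫_ℂ).re)
    (h2 : ∀ v : H, (⟪v, R v⟫_ℂ).re ≤ 2 * ‖v‖ ^ 2) : spectrum ℂ R ⊆ sS := by
  intro z hz
  have hR : IsSelfAdjoint R := hs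
  have hzre : z = z.re := hR.mem_spectrum_eq_re hz
  have hR0 : 0 ≤ R := nonneg_of_re hs h0
  have hR2 : 0 ≤ (2 : ℂ) • (1 : H →L[ℂ] H) - R := by
    apply nonneg_of_re
    · rw [star_sub, star_smul, hs, star_one]; simp
    · intro v
      have h1 := h2 v
      rw [sub_apply, smul_apply, one_apply_eq_self, inner_sub_right, inner_smul_right,
        inner_self_eq_norm_sq_to_K, Complex.sub_re]
      have : ((2 : ℂ) * ((‖v‖ : ℂ)) ^ 2).re = 2 * ‖v‖ ^ 2 := by norm_cast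
      change 0 ≤ ((2 : ℂ) * ((‖v‖ : ℂ)) ^ 2).re - _
      rw [this]; (clear * - h1; linarith)
  have hz' : z.re ∈ spectrum ℝ R := by
    rw [← spectrum.algebraMap_mem_iff ℂ]
    change ((z.re : ℝ) : ℂ) ∈ _
    rw [← hzre]; exact hz
  have h3 : 0 ≤ z.re := spectrum_nonneg_of_nonneg hR0 hz'
  have h4 : 0 ≤ 2 - z.re := by
    have : 2 - z.re ∈ spectrum ℝ ((2 : ℂ) • (1 : H →L[ℂ] H) - R) := by
      have h5 : ((2 : ℂ) • (1 : H →L[ℂ] H) - R) = algebraMap ℝ (H →L[ℂ] H) 2 - R := by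
        congr 1
      rw [h5, ← spectrum.singleton_sub_eq]
      exact ⟨2, rfl, z.re, hz', rfl⟩
    exact spectrum_nonneg_of_nonneg hR2 this
  exact ⟨z.re, ⟨h3, by (clear * - h4; linarith)⟩, hzre.symm⟩

/-- the continuous functional calculus on `[0, 2]` -/
noncomputable def Phi (R : H →L[ℂ] H) (hR : IsStarNormal R) (hsp : spectrum ℂ R ⊆ sS) :
    C(sS, ℂ) →⋆ₐ[ℂ] (H →L[ℂ] H) :=
  (cfcHom hR : C(spectrum ℂ R, ℂ) →⋆ₐ[ℂ] (H →L[ℂ] H)).comp
    (ContinuousMap.compStarAlgHom' ℂ ℂ ⟨Set.inclusion hsp, continuous_inclusion hsp⟩)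

/-- the coordinate function -/
def zS : C(sS, ℂ) := ⟨Subtype.val, continuous_subtype_val⟩

section Phi

variable (R : H →L[ℂ] H) (hR : IsStarNormal R) (hsp : spectrum ℂ R ⊆ sS)

theorem Phi_z : Phi R hR hsp zS = R := cfcHom_id hR

theorem Phi_comm (hs : star R = R) (X : H →L[ℂ] H) (hX : X * R = R * X) (f : C(sS, ℂ)) :
    X * Phi R hR hsp f = Phi R hR hsp f * X := by
  have h1 : Commute R X := hX.symm
  have h2 : Commute (star R) X := by rw [hs]; exact h1
  exact (Commute.cfcHom hR h1 h2 _).eq.symm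

theorem Phi_norm (f : C(sS, ℂ)) : ‖Phi R hR hsp f‖ ≤ ‖f‖ :=
  NonUnitalStarAlgHom.norm_apply_le (Phi R hR hsp) f

theorem Phi_cont : Continuous (Phi R hR hsp) := by
  apply AddMonoidHomClass.continuous_of_bound (Phi R hR hsp) 1
  intro f
  rw [one_mul]
  exact Phi_norm R hR hsp f

/-- reflection `z ↦ 2 - z` -/
noncomputable def refl : C(sS, sS) where
  toFun z := ⟨2 - z, by
    obtain ⟨r, h0, h2, h⟩ := sS_cases z
    exact ⟨2 - r, ⟨by (clear * - h2; linarith), by linarith⟩, by rw [h]; push_cast; ring⟩⟩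
  continuous_toFun := by fun_prop

/-- the partner of a function -/
noncomputable def par (f : C(sS, ℂ)) : C(sS, ℂ) := star (f.comp refl)

lemma par_apply (f : C(sS, ℂ)) (z : sS) : par f z = star (f (refl z)) := rfl

lemma par_add (f g : C(sS, ℂ)) : par (f + g) = par f + par g := by
  ext z; simp [par_apply]

lemma par_mul (f g : C(sS, ℂ)) : par (f * g) = par f * par g := by
  ext z; simp [par_apply]

lemma par_cont : Continuous par := by
  unfold par
  fun_prop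

theorem Phi_D (D : H →L[ℝ] H) (hD : ∀ (c : ℂ) (v : H), D (c • v) = (starRingEnd ℂ) c • D v)
    (hDR : ∀ v : H, D (R v) = (2 : ℂ) • D v - R (D v)) (f : C(sS, ℂ)) :
    ∀ v, D (Phi R hR hsp f v) = Phi R hR hsp (par f) (D v) := by
  have hid : ∀ v, D (Phi R hR hsp zS v) = Phi R hR hsp (par zS) (D v) := by
    intro v
    have : par zS = (2 : ℂ) • (1 : C(sS, ℂ)) - zS := by
      ext z
      obtain ⟨r, h0, h2, h⟩ := sS_cases z
      simp [par_apply, zS, refl, h]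
    rw [this, map_sub, map_smul, map_one, Phi_z, hDR]
    simp
  induction f using ContinuousMap.induction_on_of_compact with
  | const r =>
    intro v
    have h1 : (ContinuousMap.const sS r : C(sS, ℂ)) = r • (1 : C(sS, ℂ)) := by ext; simp
    have h2 : par (ContinuousMap.const sS r : C(sS, ℂ)) = (starRingEnd ℂ r) • (1 : C(sS, ℂ)) := by
      ext; simp [par_apply]
    rw [h2, h1, map_smul, map_smul, map_one]
    simp [hD]
  | id => exact hid
  | star_id =>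
    have : star (ContinuousMap.restrict sS (ContinuousMap.id ℂ)) = zS := by
      ext z
      obtain ⟨r, h0, h2, h⟩ := sS_cases z
      simp [zS, h]
    rw [this]
    exact hid
  | add f g hf hg =>
    intro v
    rw [par_add, map_add, map_add, add_apply, add_apply, map_add, hf, hg]
  | mul f g hf hg =>
    intro v
    rw [par_mul, map_mul, map_mul]
    change D (Phi R hR hsp f (Phi R hR hsp g v)) = _
    rw [hf, hg]
    rfl
  | frequently f h =>
    have hcl : IsClosed {g : C(sS, ℂ) | ∀ v, D (Phi R hR hsp g v) = Phi R hR hsp (par g) (D v)} := by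
      simp only [Set.ofPred_forall]
      refine isClosed_iInter fun v => isClosed_eq ?_ ?_
      · exact D.continuous.comp ((ContinuousLinearMap.apply ℂ H v).continuous.comp
          (Phi_cont R hR hsp))
      · exact (ContinuousLinearMap.apply ℂ H (D v)).continuous.comp
          ((Phi_cont R hR hsp).comp par_cont)
    exact hcl.closure_subset (mem_closure_iff_frequently.mpr h)

/-- Norm comparison. -/
theorem Phi_le (f g : C(sS, ℂ)) (C : ℝ) (hC : 0 ≤ C) (hfg : ∀ z, ‖f z‖ ≤ C * ‖g z‖) (v : H) :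
    ‖Phi R hR hsp f v‖ ≤ C * ‖Phi R hR hsp g v‖ := by
  let h : C(sS, ℂ) := ⟨fun z => ((Real.sqrt (C ^ 2 * ‖g z‖ ^ 2 - ‖f z‖ ^ 2) : ℝ) : ℂ), by fun_prop⟩
  have hsum : star f * f + star h * h = ((C : ℂ) ^ 2) • (star g * g) := by
    ext z
    have hn : ∀ w : ℂ, star w * w = ((‖w‖ ^ 2 : ℝ) : ℂ) := by
      intro w
      rw [Complex.star_def, Complex.conj_mul']
      push_cast; rfl
    have h1 : 0 ≤ C ^ 2 * ‖g z‖ ^ 2 - ‖f z‖ ^ 2 := by
      have := hfg z
      have h3 := norm_nonneg (f z)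
      nlinarith [mul_nonneg hC (norm_nonneg (g z))]
    have h2 : ‖h z‖ ^ 2 = C ^ 2 * ‖g z‖ ^ 2 - ‖f z‖ ^ 2 := by
      change ‖((Real.sqrt (C ^ 2 * ‖g z‖ ^ 2 - ‖f z‖ ^ 2) : ℝ) : ℂ)‖ ^ 2 = _
      rw [Complex.norm_real, Real.norm_of_nonneg (Real.sqrt_nonneg _), Real.sq_sqrt h1]
    simp only [ContinuousMap.add_apply, ContinuousMap.mul_apply, ContinuousMap.star_apply,
      ContinuousMap.smul_apply, hn, h2, smul_eq_mul]
    push_cast
    ring
  have key : ‖Phi R hR hsp f v‖ ^ 2 + ‖Phi R hR hsp h v‖ ^ 2 = C ^ 2 * ‖Phi R hR hsp g v‖ ^ 2 := by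
    have hin : ∀ k : C(sS, ℂ), ⟪v, Phi R hR hsp (star k * k) v⟫_ℂ =
        ((‖Phi R hR hsp k v‖ ^ 2 : ℝ) : ℂ) := by
      intro k
      rw [map_mul, map_star]
      change ⟪v, (star (Phi R hR hsp k)) (Phi R hR hsp k v)⟫_ℂ = _
      rw [ContinuousLinearMap.star_eq_adjoint, ContinuousLinearMap.adjoint_inner_right,
        inner_self_eq_norm_sq_to_K]
      push_cast; rfl
    have h1 := congrArg (fun k => ⟪v, Phi R hR hsp k v⟫_ℂ) hsum
    simp only [map_add, map_smul, add_apply, smul_apply, inner_add_right, inner_smul_right] at h1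
    rw [hin, hin, hin] at h1
    exact_mod_cast h1
  have h5 : ‖Phi R hR hsp f v‖ ^ 2 ≤ (C * ‖Phi R hR hsp g v‖) ^ 2 := by
    rw [mul_pow, ← key]
    (clear * -; nlinarith [sq_nonneg ‖Phi R hR hsp h v‖])
  exact abs_le_of_sq_le_sq' h5 (by (clear * - hC; positivity)) |>.2

end Phi

end Pool.Agent.Helper95.TTC

end

section

open scoped InnerProductSpace Topology BoundedContinuousFunction

open ContinuousLinearMap Filter

namespace Pool.Agent.Helper95.TTC

lemma cont_aux (G : ℝ →ᵇ ℂ) :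
    Continuous (fun r : ℝ => ((r * (2 - r) : ℝ) : ℂ) * G (Real.log ((2 - r) / r))) := by
  rw [continuous_iff_continuousAt]
  intro r₀
  by_cases h0 : r₀ * (2 - r₀) = 0
  · have hv : ((r₀ * (2 - r₀) : ℝ) : ℂ) * G (Real.log ((2 - r₀) / r₀)) = 0 := by
      rw [h0]; simp
    change Tendsto _ _ (𝓝 (((r₀ * (2 - r₀) : ℝ) : ℂ) * G (Real.log ((2 - r₀) / r₀))))
    rw [hv]
    apply squeeze_zero_norm (a := fun r : ℝ => |r * (2 - r)| * ‖G‖)
    · intro r
      rw [norm_mul, Complex.norm_real, Real.norm_eq_abs]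
      exact mul_le_mul_of_nonneg_left (G.norm_coe_le_norm _) (abs_nonneg _)
    · have hc : Continuous (fun r : ℝ => |r * (2 - r)| * ‖G‖) := by fun_prop
      have := hc.tendsto r₀
      simpa [h0] using this
  · have h1 : r₀ ≠ 0 := by
      rintro rfl; simp at h0
    have h2 : 2 - r₀ ≠ 0 := by
      intro h; rw [h] at h0; simp at h0
    apply ContinuousAt.mul
    · fun_prop
    · apply (G.continuous.continuousAt).comp
      have h3 : ContinuousAt (fun r : ℝ => (2 - r) / r) r₀ :=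
        ContinuousAt.div (by fun_prop) (by fun_prop) h1
      exact h3.log (div_ne_zero h2 h1)

/-- the function `w(r) G(log ((2 - r) / r))`, `w(r) = r (2 - r)` -/
noncomputable def xG (G : ℝ →ᵇ ℂ) : C(sS, ℂ) :=
  ⟨fun z => (((z : ℂ).re * (2 - (z : ℂ).re) : ℝ) : ℂ) *
    G (Real.log ((2 - (z : ℂ).re) / (z : ℂ).re)), by
    exact (cont_aux G).comp (by fun_prop : Continuous fun z : sS => (z : ℂ).re)⟩

/-- the weight -/
noncomputable def wS : C(sS, ℂ) := zS * ((2 : ℂ) • 1 - zS)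

lemma xG_apply (G : ℝ →ᵇ ℂ) (z : sS) (r : ℝ) (h : (z : ℂ) = r) :
    xG G z = ((r * (2 - r) : ℝ) : ℂ) * G (Real.log ((2 - r) / r)) := by
  have : (z : ℂ).re = r := by rw [h]; simp
  change (((z : ℂ).re * (2 - (z : ℂ).re) : ℝ) : ℂ) *
    G (Real.log ((2 - (z : ℂ).re) / (z : ℂ).re)) = _
  rw [this]

lemma wS_apply (z : sS) (r : ℝ) (h : (z : ℂ) = r) : wS z = ((r * (2 - r) : ℝ) : ℂ) := by
  simp [wS, zS, h]

lemma zS_apply (z : sS) (r : ℝ) (h : (z : ℂ) = r) : zS z = (r : ℂ) := h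

lemma xG_add (G G' : ℝ →ᵇ ℂ) : xG (G + G') = xG G + xG G' := by
  ext z
  obtain ⟨r, h0, h2, h⟩ := sS_cases z
  rw [ContinuousMap.add_apply, xG_apply _ z r h, xG_apply _ z r h, xG_apply _ z r h]
  simp only [BoundedContinuousFunction.add_apply]
  ring

lemma xG_par (G G' : ℝ →ᵇ ℂ) (hG : ∀ ρ, G' ρ = (starRingEnd ℂ) (G (-ρ))) :
    par (xG G) = xG G' := by
  ext z
  obtain ⟨r, h0, h2, h⟩ := sS_cases z
  have h' : ((refl z : sS) : ℂ) = ((2 - r : ℝ) : ℂ) := by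
    change 2 - (z : ℂ) = _
    rw [h]; push_cast; ring
  rw [par_apply, xG_apply _ (refl z) _ h', xG_apply _ z r h, hG]
  have h3 : Real.log ((2 - (2 - r)) / (2 - r)) = -Real.log ((2 - r) / r) := by
    rw [← Real.log_inv, inv_div]
    congr 2
    ring
  rw [h3]
  simp only [star_mul', RCLike.star_def, Complex.conj_ofReal]
  congr 2
  ring

end Pool.Agent.Helper95.TTC

namespace Pool.Agent.Helper23

/-- the function `2 / (1 + e^ρ)` -/
noncomputable def FR : ℝ →ᵇ ℂ :=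
  BoundedContinuousFunction.ofNormedAddCommGroup (fun ρ : ℝ => ((2 / (1 + Real.exp ρ) : ℝ) : ℂ))
    (by
      refine Complex.continuous_ofReal.comp (Continuous.div (by fun_prop) (by fun_prop) ?_)
      intro ρ
      (clear * -; positivity)) 2 (by
      intro ρ
      rw [Complex.norm_real, Real.norm_of_nonneg (by positivity)]
      rw [div_le_iff₀ (by positivity)]
      (clear * -; nlinarith [Real.exp_pos ρ]))

end Pool.Agent.Helper23

namespace Pool.Agent.Helper95.TTC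

open Pool.Agent.Helper23

lemma xG_FR : xG FR = wS * zS := by
  ext z
  obtain ⟨r, h0, h2, h⟩ := sS_cases z
  rw [ContinuousMap.mul_apply, xG_apply _ z r h, wS_apply z r h, zS_apply z r h]
  change ((r * (2 - r) : ℝ) : ℂ) * (((2 / (1 + Real.exp (Real.log ((2 - r) / r))) : ℝ) : ℂ)) = _
  rcases eq_or_lt_of_le h0 with h0' | h0'
  · rw [← h0']; simp
  rcases eq_or_lt_of_le h2 with h2' | h2'
  · rw [h2']; simp
  rw [Real.exp_log (by apply div_pos <;> (clear * - h2' h0'; linarith)), ← Complex.ofReal_mul, ← Complex.ofReal_mul]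
  congr 1
  have : (2 : ℝ) / (1 + (2 - r) / r) = r := by
    field_simp
    ring
  rw [this]

variable {H : Type*} [NormedAddCommGroup H] [InnerProductSpace ℂ H] [CompleteSpace H]

/-- Continuity of the symbol in the topology of locally uniform bounded convergence. -/
lemma tendsto_xG (G : ℕ → (ℝ →ᵇ ℂ)) (G₀ : ℝ →ᵇ ℂ) (C : ℝ) (hC : ∀ n, ‖G n‖ ≤ C)
    (hG : ∀ L : ℝ, TendstoUniformlyOn (fun n ρ => G n ρ) (fun ρ => G₀ ρ) atTop (Set.Icc (-L) L)) :
    Tendsto (fun n => xG (G n)) atTop (𝓝 (xG G₀)) := by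
  rw [Metric.tendsto_atTop]
  intro ε hε
  have hC0 : 0 ≤ C := (norm_nonneg _).trans (hC 0)
  set B := C + ‖G₀‖ + 1 with hB
  have hBpos : 0 < B := by (clear * - hC0; positivity)
  set δ := ε / (2 * B) with hδ
  have hδpos : 0 < δ := by (clear * - hε hC0; positivity)
  set L := Real.log (4 / δ) with hL
  have hu := hG L
  rw [Metric.tendstoUniformlyOn_iff] at hu
  obtain ⟨N, hN⟩ := eventually_atTop.mp (hu (ε / 2) (by positivity))
  refine ⟨N, fun n hn => ?_⟩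
  rw [dist_eq_norm]
  refine lt_of_le_of_lt ((ContinuousMap.norm_le _ (C := ε / 2) (by positivity)).mpr ?_)
    (by (clear * - hε; linarith))
  intro z
  obtain ⟨r, h0, h2, h⟩ := sS_cases z
  rw [ContinuousMap.sub_apply, xG_apply _ z r h, xG_apply _ z r h, ← mul_sub, norm_mul,
    Complex.norm_real, Real.norm_of_nonneg (by (clear * - h0 h2; nlinarith))]
  by_cases hw : r * (2 - r) ≤ δ
  · have h1 : ‖(G n) (Real.log ((2 - r) / r)) - G₀ (Real.log ((2 - r) / r))‖ ≤ B := by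
      refine (norm_sub_le _ _).trans ?_
      have h3 := (G n).norm_coe_le_norm (Real.log ((2 - r) / r))
      have h4 := G₀.norm_coe_le_norm (Real.log ((2 - r) / r))
      have h5 := hC n
      (clear * - h3 h4 h5; linarith)
    calc r * (2 - r) * ‖(G n) (Real.log ((2 - r) / r)) - G₀ (Real.log ((2 - r) / r))‖
        ≤ δ * B := mul_le_mul hw h1 (norm_nonneg _) hδpos.le
      _ = ε / 2 := by rw [hδ]; field_simp
  · push Not at hw
    have hr0 : δ / 2 < r := by (clear * - hw h0; nlinarith)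
    have hr2 : δ / 2 < 2 - r := by (clear * - hw hδpos h2 h0; nlinarith)
    have hr0' : 0 < r := by (clear * - hδpos hr0; linarith)
    have hpos : 0 < (2 - r) / r := by apply div_pos <;> (clear * - hδpos hr2 hr0; linarith)
    have hmem : Real.log ((2 - r) / r) ∈ Set.Icc (-L) L := by
      constructor
      · rw [hL, ← Real.log_inv, inv_div]
        apply Real.log_le_log (by (clear * - hε hC0; positivity))
        rw [le_div_iff₀ hr0']
        (clear * - hr2 hδpos h2; nlinarith)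
      · rw [hL]
        apply Real.log_le_log hpos
        rw [div_le_div_iff₀ hr0' hδpos]
        (clear * - hr0 hδpos h0; nlinarith)
    have h1 := hN n hn _ hmem
    rw [dist_eq_norm, norm_sub_rev] at h1
    have hw1 : r * (2 - r) ≤ 1 := by (clear * -; nlinarith [sq_nonneg (r - 1)])
    calc r * (2 - r) * ‖(G n) (Real.log ((2 - r) / r)) - G₀ (Real.log ((2 - r) / r))‖
        ≤ 1 * (ε / 2) := mul_le_mul hw1 h1.le (norm_nonneg _) (by norm_num)
      _ = ε / 2 := one_mul _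

end Pool.Agent.Helper95.TTC

end

section

open scoped InnerProductSpace Topology BoundedContinuousFunction

open ContinuousLinearMap Filter MeasureTheory

namespace Pool.Agent.Helper23

variable {H : Type*} [NormedAddCommGroup H] [InnerProductSpace ℂ H] [CompleteSpace H]

/-- the function `e^{i t ρ}` -/
noncomputable def expB (t : ℝ) : ℝ →ᵇ ℂ :=
  BoundedContinuousFunction.ofNormedAddCommGroup
    (fun ρ : ℝ => Complex.exp ((t * ρ : ℝ) * Complex.I)) (by fun_prop) 1 (by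
      intro ρ
      rw [Complex.norm_exp_ofReal_mul_I])

/-- modular data of `(A, ξ)` with a bounded functional calculus of `log Δ`. -/
structure Modular (A : VonNeumannAlgebra H) (ξ : H) (R : H →L[ℂ] H) (D : H →L[ℝ] H)
    (Ψ : (ℝ →ᵇ ℂ) →⋆ₐ[ℂ] (H →L[ℂ] H)) : Prop where
  data : TTData A ξ R D
  psi_FR : Ψ FR = R
  psi_comm : ∀ X : H →L[ℂ] H, X * R = R * X → ∀ G, X * Ψ G = Ψ G * X
  psi_D : ∀ G G' : ℝ →ᵇ ℂ, (∀ ρ, G' ρ = (starRingEnd ℂ) (G (-ρ))) →
    ∀ v : H, D (Ψ G v) = Ψ G' (D v)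
  psi_cont : ∀ (G : ℕ → (ℝ →ᵇ ℂ)) (G₀ : ℝ →ᵇ ℂ) (C : ℝ), (∀ n, ‖G n‖ ≤ C) →
    (∀ L : ℝ, TendstoUniformlyOn (fun n ρ => G n ρ) (fun ρ => G₀ ρ) atTop (Set.Icc (-L) L)) →
    ∀ v : H, Tendsto (fun n => Ψ (G n) v) atTop (𝓝 (Ψ G₀ v))
  psi_xi : ∀ G : ℝ →ᵇ ℂ, Ψ G ξ = G 0 • ξ
  mem : ∀ (t : ℝ), ∀ a ∈ A, Ψ (expB t) * a * Ψ (expB (-t)) ∈ A

end Pool.Agent.Helper23

end

section

open scoped InnerProductSpace Topology BoundedContinuousFunction

open ContinuousLinearMap Filter MeasureTheory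

namespace Pool.Agent.Helper43.TTF

open Pool.Agent.Helper23

variable {H : Type*} [NormedAddCommGroup H] [InnerProductSpace ℂ H] [CompleteSpace H]

@[simp] lemma FR_apply (ρ : ℝ) : FR ρ = ((2 / (1 + Real.exp ρ) : ℝ) : ℂ) := rfl

end Pool.Agent.Helper43.TTF

end

section

open scoped InnerProductSpace Topology BoundedContinuousFunction FourierTransform ENNReal

open ContinuousLinearMap Filter MeasureTheory

set_option linter.unusedSectionVars false

namespace Pool.Agent.Helper23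

variable {H : Type*} [NormedAddCommGroup H] [InnerProductSpace ℂ H] [CompleteSpace H]

lemma expB_apply (t ρ : ℝ) : expB t ρ = Complex.exp ((t * ρ : ℝ) * Complex.I) := rfl

lemma expB_norm_apply (t ρ : ℝ) : ‖expB t ρ‖ = 1 := by
  rw [expB_apply, Complex.norm_exp_ofReal_mul_I]

lemma expB_norm (t : ℝ) : ‖expB t‖ ≤ 1 := by
  refine (BoundedContinuousFunction.norm_le zero_le_one).2 fun ρ => (expB_norm_apply t ρ).le

lemma expB_mul (s t : ℝ) : expB s * expB t = expB (s + t) := by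
  ext ρ
  rw [BoundedContinuousFunction.mul_apply, expB_apply, expB_apply, expB_apply, ← Complex.exp_add]
  congr 1
  push_cast
  ring

lemma expB_zero : expB 0 = 1 := by
  ext ρ
  rw [expB_apply]
  simp

lemma expB_star (t : ℝ) : star (expB t) = expB (-t) := by
  ext ρ
  rw [BoundedContinuousFunction.star_apply, expB_apply, expB_apply, Complex.star_def,
    ← Complex.exp_conj]
  congr 1
  simp

lemma expB_sub_le (s t ρ : ℝ) : ‖expB s ρ - expB t ρ‖ ≤ |s - t| * |ρ| := by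
  have h1 : expB s ρ - expB t ρ =
      Complex.exp ((t * ρ : ℝ) * Complex.I) * (Complex.exp (Complex.I * ((s - t) * ρ : ℝ)) - 1) := by
    rw [mul_sub, ← Complex.exp_add, expB_apply, expB_apply, mul_one]
    congr 2
    push_cast
    ring
  rw [h1, norm_mul, Complex.norm_exp_ofReal_mul_I, one_mul]
  refine (Real.norm_exp_I_mul_ofReal_sub_one_le).trans ?_
  rw [Real.norm_eq_abs, abs_mul]

/-- star homomorphisms as continuous linear maps -/
noncomputable def psiL (Ψ : (ℝ →ᵇ ℂ) →⋆ₐ[ℂ] (H →L[ℂ] H)) : (ℝ →ᵇ ℂ) →L[ℂ] (H →L[ℂ] H) :=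
  LinearMap.mkContinuous (Ψ : (ℝ →ᵇ ℂ) →ₗ[ℂ] (H →L[ℂ] H)) 1 (fun G => by
    rw [one_mul]
    exact NonUnitalStarAlgHom.norm_apply_le Ψ G)

lemma psi_mul_apply (Ψ : (ℝ →ᵇ ℂ) →⋆ₐ[ℂ] (H →L[ℂ] H)) (G K : ℝ →ᵇ ℂ) (v : H) :
    Ψ (G * K) v = Ψ G (Ψ K v) := by
  rw [map_mul]; rfl

lemma psi_expB_isom (Ψ : (ℝ →ᵇ ℂ) →⋆ₐ[ℂ] (H →L[ℂ] H)) (t : ℝ) :
    star (Ψ (expB t)) * Ψ (expB t) = 1 := by
  rw [← map_star, ← map_mul, expB_star, expB_mul, neg_add_cancel, expB_zero, map_one]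

namespace Modular

variable {A : VonNeumannAlgebra H} {ξ : H} {R : H →L[ℂ] H} {D : H →L[ℝ] H}
  {Ψ : (ℝ →ᵇ ℂ) →⋆ₐ[ℂ] (H →L[ℂ] H)} (h : Modular A ξ R D Ψ)

include h

lemma U_cont (v : H) : Continuous fun t : ℝ => Ψ (expB t) v := by
  rw [continuous_iff_seqContinuous]
  intro u t hu
  refine h.psi_cont (fun n => expB (u n)) (expB t) 1 (fun n => expB_norm _) (fun L => ?_) v
  rw [Metric.tendstoUniformlyOn_iff]
  intro ε hε
  have h1 : Tendsto (fun n => |u n - t| * |L|) atTop (𝓝 0) := by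
    have : Tendsto (fun n => |u n - t| * |L|) atTop (𝓝 (|t - t| * |L|)) :=
      ((hu.sub_const t).abs).mul_const _
    simpa using this
  filter_upwards [(h1.eventually (gt_mem_nhds hε))] with n hn ρ hρ
  rw [dist_comm, dist_eq_norm]
  refine (expB_sub_le _ _ _).trans_lt (lt_of_le_of_lt ?_ hn)
  refine mul_le_mul_of_nonneg_left ?_ (abs_nonneg _)
  exact (abs_le.2 hρ).trans (le_abs_self L)

end Modular

end Pool.Agent.Helper23

end

section

open scoped InnerProductSpace Topology BoundedContinuousFunction FourierTransform ENNReal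

open ContinuousLinearMap Filter MeasureTheory

set_option linter.unusedSectionVars false

namespace Pool.Agent.Helper23

variable {H : Type*} [NormedAddCommGroup H] [InnerProductSpace ℂ H] [CompleteSpace H]

/-- cut-off functions -/
noncomputable def cutB (n : ℕ) : ℝ →ᵇ ℂ :=
  BoundedContinuousFunction.ofNormedAddCommGroup
    (fun ρ : ℝ => ((max 0 (min 1 (n + 1 - |ρ|)) : ℝ) : ℂ)) (by fun_prop) 1 (by
      intro ρ
      rw [Complex.norm_real, Real.norm_of_nonneg (le_max_left _ _)]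
      exact max_le zero_le_one (min_le_left _ _))

lemma cutB_apply (n : ℕ) (ρ : ℝ) : cutB n ρ = ((max 0 (min 1 (n + 1 - |ρ|)) : ℝ) : ℂ) := rfl

lemma cutB_norm (n : ℕ) : ‖cutB n‖ ≤ 1 := by
  refine (BoundedContinuousFunction.norm_le zero_le_one).2 fun ρ => ?_
  rw [cutB_apply, Complex.norm_real, Real.norm_of_nonneg (le_max_left _ _)]
  exact max_le zero_le_one (min_le_left _ _)

lemma cutB_zero {n : ℕ} {ρ : ℝ} (h : (n : ℝ) + 1 ≤ |ρ|) : cutB n ρ = 0 := by
  rw [cutB_apply, max_eq_left ((min_le_right _ _).trans (by (clear * - h; linarith)))]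
  simp

lemma cutB_one {n : ℕ} {ρ : ℝ} (h : |ρ| ≤ n) : cutB n ρ = 1 := by
  rw [cutB_apply, min_eq_left (by (clear * - h; linarith)), max_eq_right zero_le_one]
  simp

lemma cutB_tendsto (L : ℝ) : TendstoUniformlyOn (fun n ρ => cutB n ρ)
    (fun ρ => (1 : ℝ →ᵇ ℂ) ρ) atTop (Set.Icc (-L) L) := by
  rw [Metric.tendstoUniformlyOn_iff]
  intro ε hε
  filter_upwards [eventually_ge_atTop ⌈L⌉₊] with n hn ρ hρ
  have h1 : |ρ| ≤ n := (abs_le.2 hρ).trans ((Nat.le_ceil L).trans (by exact_mod_cast hn))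
  rw [cutB_one h1, BoundedContinuousFunction.coe_one, Pi.one_apply, dist_self]
  exact hε

lemma expB_cut_cont (n : ℕ) : Continuous fun t : ℝ => expB t * cutB n := by
  have h : LipschitzWith (Real.toNNReal (n + 1)) fun t : ℝ => expB t * cutB n := by
    refine LipschitzWith.of_dist_le_mul fun s t => ?_
    rw [Real.coe_toNNReal _ (by (clear * -; positivity)), dist_eq_norm, Real.dist_eq,
      BoundedContinuousFunction.norm_le (by (clear * -; positivity))]
    intro ρ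
    have e1 : (expB s * cutB n - expB t * cutB n) ρ = (expB s ρ - expB t ρ) * cutB n ρ := by
      rw [BoundedContinuousFunction.sub_apply, BoundedContinuousFunction.mul_apply,
        BoundedContinuousFunction.mul_apply, sub_mul]
    rw [e1, norm_mul]
    by_cases hρ : (n : ℝ) + 1 ≤ |ρ|
    · rw [cutB_zero hρ, norm_zero, mul_zero]
      (clear * -; positivity)
    · push Not at hρ
      calc ‖expB s ρ - expB t ρ‖ * ‖cutB n ρ‖ ≤ (|s - t| * |ρ|) * 1 := by
            gcongr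
            · exact expB_sub_le s t ρ
            · exact ((cutB n).norm_coe_le_norm ρ).trans (cutB_norm n)
        _ ≤ (n + 1) * |s - t| := by
            (clear * - hρ; nlinarith [abs_nonneg (s - t)])
  exact h.continuous

namespace Modular

variable {A : VonNeumannAlgebra H} {ξ : H} {R : H →L[ℂ] H} {D : H →L[ℝ] H}
  {Ψ : (ℝ →ᵇ ℂ) →⋆ₐ[ℂ] (H →L[ℂ] H)} (h : Modular A ξ R D Ψ)

include h

/-- the Fourier integral formula for cut off vectors -/
lemma integral_cut {k : ℝ → ℂ} (hk : Integrable k) {K : ℝ →ᵇ ℂ}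
    (hK : ∀ ρ, K ρ = ∫ t, k t * expB (2 * Real.pi * t) ρ) (n : ℕ) (v w : H) :
    ∫ t, k t * ⟪v, Ψ (expB (2 * Real.pi * t)) (Ψ (cutB n) w)⟫_ℂ = ⟪v, Ψ K (Ψ (cutB n) w)⟫_ℂ := by
  set F : ℝ → (ℝ →ᵇ ℂ) := fun t => k t • (expB (2 * Real.pi * t) * cutB n) with hF
  have hFi : Integrable F := by
    refine hk.smul_bdd (C := 1) ?_ ?_
    · exact ((expB_cut_cont n).comp (by fun_prop : Continuous fun t : ℝ => 2 * Real.pi * t)
        ).aestronglyMeasurable
    · refine Eventually.of_forall fun t => ?_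
      refine (norm_mul_le _ _).trans ?_
      calc ‖expB (2 * Real.pi * t)‖ * ‖cutB n‖ ≤ 1 * 1 :=
            mul_le_mul (expB_norm _) (cutB_norm n) (norm_nonneg _) zero_le_one
        _ = 1 := one_mul 1
  have hint : ∫ t, F t = K * cutB n := by
    ext ρ
    have h1 := (BoundedContinuousFunction.evalCLM ℂ ρ : (ℝ →ᵇ ℂ) →L[ℂ] ℂ).integral_comp_comm hFi
    change ∫ t, (F t) ρ = (∫ t, F t) ρ at h1
    rw [← h1, BoundedContinuousFunction.mul_apply, hK, ← integral_mul_const]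
    refine integral_congr_ae (Eventually.of_forall fun t => ?_)
    simp only [hF, BoundedContinuousFunction.smul_apply, BoundedContinuousFunction.mul_apply,
      smul_eq_mul]
    ring
  set Λ : (ℝ →ᵇ ℂ) →L[ℂ] ℂ := (innerSL ℂ v).comp ((ContinuousLinearMap.apply ℂ H w).comp (psiL Ψ))
    with hΛ
  have hΛa : ∀ G, Λ G = ⟪v, Ψ G w⟫_ℂ := fun G => rfl
  have h2 := Λ.integral_comp_comm hFi
  rw [hint, hΛa, psi_mul_apply] at h2
  rw [← h2]
  refine integral_congr_ae (Eventually.of_forall fun t => ?_)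
  simp only [hF, map_smul, smul_eq_mul]
  rw [hΛa, psi_mul_apply]

end Modular

end Pool.Agent.Helper23

end

section

open scoped InnerProductSpace Topology BoundedContinuousFunction

open ContinuousLinearMap Filter MeasureTheory

namespace Pool.Agent.Helper70.U8

open Pool.Agent.Helper23

variable {H : Type*} [NormedAddCommGroup H] [InnerProductSpace ℂ H] [CompleteSpace H]

variable {A : VonNeumannAlgebra H} {ξ : H} {R : H →L[ℂ] H} {D : H →L[ℝ] H}
  {Ψ : (ℝ →ᵇ ℂ) →⋆ₐ[ℂ] (H →L[ℂ] H)}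

/-- the unitary group -/
noncomputable def U (Ψ : (ℝ →ᵇ ℂ) →⋆ₐ[ℂ] (H →L[ℂ] H)) (t : ℝ) : H →L[ℂ] H :=
  Ψ (expB (2 * Real.pi * t))

/-- the inverse of the unitary group -/
noncomputable def V (Ψ : (ℝ →ᵇ ℂ) →⋆ₐ[ℂ] (H →L[ℂ] H)) (t : ℝ) : H →L[ℂ] H :=
  Ψ (expB (-(2 * Real.pi * t)))

lemma U_cont (h : Modular A ξ R D Ψ) (v : H) : Continuous fun t => U Ψ t v :=
  (h.U_cont v).comp (by fun_prop : Continuous fun t : ℝ => 2 * Real.pi * t)

lemma V_cont (h : Modular A ξ R D Ψ) (v : H) : Continuous fun t => V Ψ t v :=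
  (h.U_cont v).comp (by fun_prop : Continuous fun t : ℝ => -(2 * Real.pi * t))

/-- the real Gaussian -/
noncomputable def ga (ε t : ℝ) : ℝ :=
  (√(Real.pi / (Real.pi ^ 2 / ε)))⁻¹ * Real.exp (-(Real.pi ^ 2 / ε) * t ^ 2)

lemma ga_nonneg (ε t : ℝ) : 0 ≤ ga ε t := by
  unfold ga
  (clear * -; positivity)

lemma ga_int {ε : ℝ} (hε : 0 < ε) : Integrable (ga ε) :=
  (integrable_exp_neg_mul_sq (by (clear * - hε; positivity) : 0 < Real.pi ^ 2 / ε)).const_mul _

/-- the kernels -/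
noncomputable def kg (ε κ t : ℝ) : ℂ :=
  (ga ε t : ℂ) * (Complex.exp ((-(Real.pi * κ / ε * t) : ℝ) * Complex.I) *
    (Real.exp (κ ^ 2 / (4 * ε)) : ℝ))

lemma kg_norm (ε κ t : ℝ) : ‖kg ε κ t‖ = ga ε t * Real.exp (κ ^ 2 / (4 * ε)) := by
  unfold kg
  rw [norm_mul, norm_mul, Complex.norm_real, Complex.norm_real, Complex.norm_exp_ofReal_mul_I,
    one_mul, Real.norm_of_nonneg (ga_nonneg _ _), Real.norm_of_nonneg (Real.exp_pos _).le]

lemma kg_cont (ε κ : ℝ) : Continuous (kg ε κ) := by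
  unfold kg ga
  fun_prop

lemma kg_int {ε : ℝ} (hε : 0 < ε) (κ : ℝ) : Integrable (kg ε κ) := by
  refine Integrable.mono' ((ga_int hε).mul_const (Real.exp (κ ^ 2 / (4 * ε))))
    (kg_cont ε κ).aestronglyMeasurable (Eventually.of_forall fun t => ?_)
  rw [kg_norm]

lemma kg_fourier {ε : ℝ} (hε : 0 < ε) (κ ρ : ℝ) :
    ((Real.exp (-(ε * ρ ^ 2) + κ * ρ) : ℝ) : ℂ) =
      ∫ t, kg ε κ t * expB (2 * Real.pi * t) ρ := by
  have hpi : (Real.pi : ℂ) ≠ 0 := by exact_mod_cast Real.pi_ne_zero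
  have hε' : (ε : ℂ) ≠ 0 := by exact_mod_cast hε.ne'
  have hb : (-((Real.pi : ℂ) ^ 2 / ε)).re < 0 := by
    have : (-((Real.pi : ℂ) ^ 2 / ε)) = ((-(Real.pi ^ 2 / ε) : ℝ) : ℂ) := by push_cast; ring
    rw [this, Complex.ofReal_re]
    have : 0 < Real.pi ^ 2 / ε := by positivity
    (clear * - this; linarith)
  have hq := integral_cexp_quadratic hb
    (-(Real.pi * κ / ε) * Complex.I + 2 * Real.pi * ρ * Complex.I) ((κ : ℂ) ^ 2 / (4 * ε))
  have h1 : (fun t : ℝ => kg ε κ t * expB (2 * Real.pi * t) ρ) = fun t : ℝ =>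
      ((√(Real.pi / (Real.pi ^ 2 / ε)))⁻¹ : ℂ) * Complex.exp (-((Real.pi : ℂ) ^ 2 / ε) * t ^ 2 +
        (-(Real.pi * κ / ε) * Complex.I + 2 * Real.pi * ρ * Complex.I) * t +
        (κ : ℂ) ^ 2 / (4 * ε)) := by
    funext t
    rw [expB_apply, kg, ga]
    push_cast
    rw [Complex.exp_add, Complex.exp_add]
    have h2 : (-((Real.pi : ℂ) * κ / ε) * Complex.I + 2 * Real.pi * ρ * Complex.I) * t =
        -(Real.pi * κ / ε * t) * Complex.I + 2 * Real.pi * t * ρ * Complex.I := by ring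
    rw [h2, Complex.exp_add]
    ring
  rw [h1, integral_const_mul, hq]
  have h3 : ((Real.pi : ℂ) / - -((Real.pi : ℂ) ^ 2 / ε)) ^ (1 / 2 : ℂ) =
      ((√(Real.pi / (Real.pi ^ 2 / ε)) : ℝ) : ℂ) := by
    rw [Real.sqrt_eq_rpow, Complex.ofReal_cpow (by positivity), neg_neg]
    push_cast
    rfl
  rw [h3, ← mul_assoc]
  have h4 : ((√(Real.pi / (Real.pi ^ 2 / ε)) : ℝ) : ℂ) ≠ 0 := by
    have : 0 < Real.pi / (Real.pi ^ 2 / ε) := by positivity
    exact_mod_cast (Real.sqrt_pos.2 this).ne'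
  rw [inv_mul_cancel₀ h4, one_mul, Complex.ofReal_exp]
  congr 1
  push_cast
  have h5 : (-((Real.pi : ℂ) * κ / ε) * Complex.I + 2 * Real.pi * ρ * Complex.I) ^ 2 =
      -(-((Real.pi : ℂ) * κ / ε) + 2 * Real.pi * ρ) ^ 2 := by
    rw [← add_mul, mul_pow, Complex.I_sq]
    ring
  rw [h5]
  field_simp
  ring

/-- the Gaussian -/
noncomputable def GB (ε : ℝ) (hε : 0 < ε) (κ : ℝ) : ℝ →ᵇ ℂ :=
  BoundedContinuousFunction.ofNormedAddCommGroup
    (fun ρ : ℝ => ((Real.exp (-(ε * ρ ^ 2) + κ * ρ) : ℝ) : ℂ)) (by fun_prop)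
    (Real.exp (κ ^ 2 / (4 * ε))) (by
      intro ρ
      rw [Complex.norm_real, Real.norm_of_nonneg (Real.exp_pos _).le, Real.exp_le_exp]
      rw [le_div_iff₀ (by positivity)]
      (clear * -; nlinarith [sq_nonneg (2 * ε * ρ - κ)]))

lemma GB_apply {ε : ℝ} (hε : 0 < ε) (κ ρ : ℝ) :
    GB ε hε κ ρ = ((Real.exp (-(ε * ρ ^ 2) + κ * ρ) : ℝ) : ℂ) := rfl

end Pool.Agent.Helper70.U8

end

section

open scoped InnerProductSpace Topology BoundedContinuousFunction

open ContinuousLinearMap Filter MeasureTheory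

namespace Pool.Agent.Helper23

variable {H : Type*} [NormedAddCommGroup H] [InnerProductSpace ℂ H] [CompleteSpace H]

variable {M N : VonNeumannAlgebra H} {ξ : H} {E : (H →L[ℂ] H) → (H →L[ℂ] H)}

namespace U14

/-- the field `t ↦ U_{2πt} a U_{-2πt}` -/
noncomputable def fld (Ψ : (ℝ →ᵇ ℂ) →⋆ₐ[ℂ] (H →L[ℂ] H)) (a : H →L[ℂ] H) (t : ℝ) : H →L[ℂ] H :=
  Ψ (expB (2 * Real.pi * t)) * a * Ψ (expB (-(2 * Real.pi * t)))

lemma fld_smul (Ψ : (ℝ →ᵇ ℂ) →⋆ₐ[ℂ] (H →L[ℂ] H)) (c : ℂ) (a : H →L[ℂ] H) :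
    fld Ψ (c • a) = fun t => c • fld Ψ a t := by
  funext t
  simp only [fld, mul_smul_comm, smul_mul_assoc]

end U14

end Pool.Agent.Helper23

end

section

open scoped InnerProductSpace Topology BoundedContinuousFunction FourierTransform ENNReal

open ContinuousLinearMap Filter MeasureTheory

set_option linter.unusedSectionVars false

namespace Pool.Agent.Helper23

variable {H : Type*} [NormedAddCommGroup H] [InnerProductSpace ℂ H] [CompleteSpace H]

lemma FR_apply (ρ : ℝ) : FR ρ = ((2 / (1 + Real.exp ρ) : ℝ) : ℂ) := rfl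

end Pool.Agent.Helper23

end

end

section

section

open scoped InnerProductSpace Topology BoundedContinuousFunction

open ContinuousLinearMap Filter MeasureTheory

namespace Pool.Agent.Helper43.TTF

open Pool.Agent.Helper23

variable {H : Type*} [NormedAddCommGroup H] [InnerProductSpace ℂ H] [CompleteSpace H]

section

variable {R : H →L[ℂ] H} {D : H →L[ℝ] H} {Ψ : (ℝ →ᵇ ℂ) →⋆ₐ[ℂ] (H →L[ℂ] H)}

lemma psi_two (Ψ : (ℝ →ᵇ ℂ) →⋆ₐ[ℂ] (H →L[ℂ] H)) : Ψ 2 = (2 : ℂ) • (1 : H →L[ℂ] H) := by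
  have h : (2 : ℝ →ᵇ ℂ) = (2 : ℂ) • (1 : ℝ →ᵇ ℂ) := by
    rw [two_smul, one_add_one_eq_two]
  rw [h, map_smul, map_one]

end

end Pool.Agent.Helper43.TTF

end

section

open scoped InnerProductSpace Topology BoundedContinuousFunction

open ContinuousLinearMap Filter MeasureTheory

namespace Pool.Agent.Helper43.TTF

open Pool.Agent.Helper23

variable {H : Type*} [NormedAddCommGroup H] [InnerProductSpace ℂ H] [CompleteSpace H]

variable {A : VonNeumannAlgebra H} {ξ : H}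

variable {R : H →L[ℂ] H} {D : H →L[ℝ] H} {Ψ : (ℝ →ᵇ ℂ) →⋆ₐ[ℂ] (H →L[ℂ] H)}

lemma psi_mul_apply (Ψ : (ℝ →ᵇ ℂ) →⋆ₐ[ℂ] (H →L[ℂ] H)) (F G : ℝ →ᵇ ℂ) (v : H) :
    Ψ (F * G) v = Ψ F (Ψ G v) := by
  rw [map_mul, mul_apply_eq_comp]

end Pool.Agent.Helper43.TTF

end

end

section

section

open scoped InnerProductSpace Topology BoundedContinuousFunction

open ContinuousLinearMap Filter MeasureTheory

namespace Pool.Agent.Helper43.TTF

open Pool.Agent.Helper23

variable {H : Type*} [NormedAddCommGroup H] [InnerProductSpace ℂ H] [CompleteSpace H]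

/-- the function `1 / cosh (ρ / 2)` -/
noncomputable def FT : ℝ →ᵇ ℂ :=
  BoundedContinuousFunction.ofNormedAddCommGroup
    (fun ρ : ℝ => (((Real.cosh (ρ / 2))⁻¹ : ℝ) : ℂ))
    (by
      refine Complex.continuous_ofReal.comp (Continuous.inv₀ (by fun_prop) ?_)
      intro ρ
      exact (Real.cosh_pos _).ne') 1 (by
      intro ρ
      rw [Complex.norm_real, Real.norm_of_nonneg (by positivity [Real.cosh_pos (ρ / 2)])]
      exact inv_le_one_of_one_le₀ (Real.one_le_cosh _))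

@[simp] lemma FT_apply (ρ : ℝ) : FT ρ = (((Real.cosh (ρ / 2))⁻¹ : ℝ) : ℂ) := rfl

lemma FT_star : star FT = FT := by
  ext ρ
  rw [BoundedContinuousFunction.star_apply, FT_apply]
  exact Complex.conj_ofReal _

end Pool.Agent.Helper43.TTF

end

section

open scoped InnerProductSpace Topology BoundedContinuousFunction

open ContinuousLinearMap Filter MeasureTheory

namespace Pool.Agent.Helper43.TTF

open Pool.Agent.Helper23

variable {H : Type*} [NormedAddCommGroup H] [InnerProductSpace ℂ H] [CompleteSpace H]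

/-- properties of the modular conjugation `J` -/
structure JD (D : H →L[ℝ] H) (Ψ : (ℝ →ᵇ ℂ) →⋆ₐ[ℂ] (H →L[ℂ] H)) (J : H →L[ℝ] H) : Prop where
  J_T : ∀ v, J (Ψ FT v) = D v
  T_J : ∀ v, Ψ FT (J v) = D v
  J_J : ∀ v, J (J v) = v
  J_conj : ∀ (c : ℂ) (v : H), J (c • v) = (starRingEnd ℂ) c • J v
  J_norm : ∀ v, ‖J v‖ = ‖v‖

end Pool.Agent.Helper43.TTF

end

end

section

section

open scoped InnerProductSpace Topology BoundedContinuousFunction

open ContinuousLinearMap Filter MeasureTheory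

namespace Pool.Agent.Helper43.TTF

open Pool.Agent.Helper23

variable {H : Type*} [NormedAddCommGroup H] [InnerProductSpace ℂ H] [CompleteSpace H]

lemma cosh_half (ρ : ℝ) : Real.cosh (ρ / 2) = (1 + Real.exp ρ) / (2 * Real.exp (ρ / 2)) := by
  rw [Real.cosh_eq, Real.exp_neg]
  have h1 : Real.exp ρ = Real.exp (ρ / 2) * Real.exp (ρ / 2) := by
    rw [← Real.exp_add]; ring_nf
  rw [h1]
  have : (0 : ℝ) < Real.exp (ρ / 2) := Real.exp_pos _
  field_simp
  ring

end Pool.Agent.Helper43.TTF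

end

end

section

section

open scoped InnerProductSpace Topology BoundedContinuousFunction

open ContinuousLinearMap Filter MeasureTheory

namespace Pool.Agent.Helper43.TTF

open Pool.Agent.Helper23

variable {H : Type*} [NormedAddCommGroup H] [InnerProductSpace ℂ H] [CompleteSpace H]

/-- the functional calculus part of the modular data -/
structure FC (R : H →L[ℂ] H) (D : H →L[ℝ] H) (Ψ : (ℝ →ᵇ ℂ) →⋆ₐ[ℂ] (H →L[ℂ] H)) : Prop where
  psi_FR : Ψ FR = R
  psi_comm : ∀ X : H →L[ℂ] H, X * R = R * X → ∀ G, X * Ψ G = Ψ G * X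
  psi_D : ∀ G G' : ℝ →ᵇ ℂ, (∀ ρ, G' ρ = (starRingEnd ℂ) (G (-ρ))) →
    ∀ v : H, D (Ψ G v) = Ψ G' (D v)
  psi_cont : ∀ (G : ℕ → (ℝ →ᵇ ℂ)) (G₀ : ℝ →ᵇ ℂ) (C : ℝ), (∀ n, ‖G n‖ ≤ C) →
    (∀ L : ℝ, TendstoUniformlyOn (fun n ρ => G n ρ) (fun ρ => G₀ ρ) atTop (Set.Icc (-L) L)) →
    ∀ v : H, Tendsto (fun n => Ψ (G n) v) atTop (𝓝 (Ψ G₀ v))

@[simp] lemma expB_apply (t ρ : ℝ) : expB t ρ = Complex.exp ((t * ρ : ℝ) * Complex.I) := rfl

end Pool.Agent.Helper43.TTF

end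

end

section

section

open scoped InnerProductSpace Topology BoundedContinuousFunction

open ContinuousLinearMap Filter

namespace Pool.Agent.Helper95.TTC

lemma xG_le (G : ℝ →ᵇ ℂ) (z : sS) : ‖xG G z‖ ≤ ‖G‖ * ‖wS z‖ := by
  obtain ⟨r, h0, h2, h⟩ := sS_cases z
  rw [xG_apply G z r h, wS_apply z r h, norm_mul, mul_comm ‖G‖]
  exact mul_le_mul_of_nonneg_left (G.norm_coe_le_norm _) (norm_nonneg _)

lemma xG_mul (G G' : ℝ →ᵇ ℂ) : xG G * xG G' = wS * xG (G * G') := by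
  ext z
  obtain ⟨r, h0, h2, h⟩ := sS_cases z
  rw [ContinuousMap.mul_apply, ContinuousMap.mul_apply, xG_apply _ z r h, xG_apply _ z r h,
    xG_apply _ z r h, wS_apply z r h]
  simp only [BoundedContinuousFunction.mul_apply]
  ring

lemma xG_alg (c : ℂ) : xG (algebraMap ℂ (ℝ →ᵇ ℂ) c) = c • wS := by
  ext z
  obtain ⟨r, h0, h2, h⟩ := sS_cases z
  rw [ContinuousMap.smul_apply, xG_apply _ z r h, wS_apply z r h, smul_eq_mul]
  simp [mul_comm]

lemma xG_star (G : ℝ →ᵇ ℂ) : star (xG G) = xG (star G) := by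
  ext z
  obtain ⟨r, h0, h2, h⟩ := sS_cases z
  rw [ContinuousMap.star_apply, xG_apply _ z r h, xG_apply _ z r h]
  simp

end Pool.Agent.Helper95.TTC

namespace Pool.Agent.Helper23

open Pool.Agent.Helper95.TTC

variable {H : Type*} [NormedAddCommGroup H] [InnerProductSpace ℂ H] [CompleteSpace H]

/-- MODULE TT-C: bounded functional calculus of `log Δ` where `R = 2 (1 + Δ)⁻¹` -/
theorem exists_fc (R : H →L[ℂ] H) (hs : star R = R) (h0 : ∀ v : H, 0 ≤ (⟪v, R v⟫_ℂ).re)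
    (h2 : ∀ v : H, (⟪v, R v⟫_ℂ).re ≤ 2 * ‖v‖ ^ 2) (hi : ∀ v : H, R v = 0 → v = 0)
    (hi' : ∀ v : H, R v = (2 : ℂ) • v → v = 0) :
    ∃ Ψ : (ℝ →ᵇ ℂ) →⋆ₐ[ℂ] (H →L[ℂ] H), Ψ FR = R ∧
      (∀ X : H →L[ℂ] H, X * R = R * X → ∀ G, X * Ψ G = Ψ G * X) ∧
      (∀ D : H →L[ℝ] H, (∀ (c : ℂ) (v : H), D (c • v) = (starRingEnd ℂ) c • D v) →
        (∀ v : H, D (R v) = (2 : ℂ) • D v - R (D v)) → ∀ G G' : ℝ →ᵇ ℂ,
        (∀ ρ, G' ρ = (starRingEnd ℂ) (G (-ρ))) → ∀ v : H, D (Ψ G v) = Ψ G' (D v)) ∧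
      (∀ (G : ℕ → (ℝ →ᵇ ℂ)) (G₀ : ℝ →ᵇ ℂ) (C : ℝ), (∀ n, ‖G n‖ ≤ C) →
        (∀ L : ℝ, TendstoUniformlyOn (fun n ρ => G n ρ) (fun ρ => G₀ ρ) atTop (Set.Icc (-L) L)) →
        ∀ v : H, Tendsto (fun n => Ψ (G n) v) atTop (𝓝 (Ψ G₀ v))) := by
  have hR : IsStarNormal R := (show IsSelfAdjoint R from hs).isStarNormal
  have hsp := spectrum_subset R hs h0 h2
  let Φ := Phi R hR hsp
  have hΦz : Φ zS = R := Phi_z R hR hsp
  let W : H →L[ℂ] H := Φ wS
  have hWdef : W = R * ((2 : ℂ) • 1 - R) := by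
    change Φ (zS * ((2 : ℂ) • 1 - zS)) = _
    rw [map_mul, map_sub, map_smul, map_one, hΦz]
  have hWinj : ∀ v, W v = 0 → v = 0 := by
    intro v hv
    rw [hWdef] at hv
    have h3 := hi _ hv
    apply hi'
    have h4 : (2 : ℂ) • v - R v = 0 := h3
    exact (sub_eq_zero.mp h4).symm
  have hWstar : star W = W := by
    change star (Φ wS) = Φ wS
    rw [← map_star]
    congr 1
    ext z
    obtain ⟨r, h0, h2, h⟩ := sS_cases z
    rw [ContinuousMap.star_apply, wS_apply z r h]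
    simp
  have hWdense : DenseRange W := by
    have h3 : (LinearMap.range (W : H →ₗ[ℂ] H))ᗮ = ⊥ := by
      rw [Submodule.eq_bot_iff]
      intro x hx
      apply hWinj
      rw [Submodule.mem_orthogonal] at hx
      have h4 := hx (W (W x)) ⟨W x, rfl⟩
      have h5 : ⟪W (W x), x⟫_ℂ = ⟪W x, W x⟫_ℂ := by
        conv_lhs => rw [← hWstar]
        rw [ContinuousLinearMap.star_eq_adjoint, ContinuousLinearMap.adjoint_inner_left,
          ← ContinuousLinearMap.star_eq_adjoint, hWstar]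
      rw [h5] at h4
      exact inner_self_eq_zero.mp h4
    have h4 := (Submodule.topologicalClosure_eq_top_iff).mpr h3
    rw [DenseRange, dense_iff_closure_eq]
    have h5 := congrArg (fun K : Submodule ℂ H => (K : Set H)) h4
    exact h5
  have huniq : ∀ A B : H →L[ℂ] H, (∀ v, A (W v) = B (W v)) → A = B := by
    intro A B h
    ext x
    exact congrFun (hWdense.equalizer A.continuous B.continuous (funext h)) x
  have hext : ∀ G : ℝ →ᵇ ℂ, ∃ z : H →L[ℂ] H, (∀ v, z (W v) = Φ (xG G) v) ∧ ‖z‖ ≤ ‖G‖ := by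
    intro G
    have h3 : ∀ v, ‖(Φ (xG G) : H →ₗ[ℂ] H) v‖ ≤ ‖G‖ * ‖(W : H →ₗ[ℂ] H) v‖ :=
      fun v => Phi_le R hR hsp (xG G) wS ‖G‖ (norm_nonneg _) (xG_le G) v
    exact ⟨(Φ (xG G) : H →ₗ[ℂ] H).extendOfNorm (W : H →ₗ[ℂ] H),
      fun v => LinearMap.extendOfNorm_eq hWdense ⟨_, h3⟩ v,
      LinearMap.opNorm_extendOfNorm_le hWdense (norm_nonneg _) h3⟩
  choose Ψ₀ hΨ hΨn using hext
  have hcommW : ∀ f : C(sS, ℂ), Φ f * W = W * Φ f := by
    intro f
    change Φ f * Φ wS = Φ wS * Φ f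
    rw [← map_mul, ← map_mul, mul_comm]
  have hΨW : ∀ G, Ψ₀ G * W = Φ (xG G) := fun G => by ext v; exact hΨ G v
  have hWΨ : ∀ G, W * Ψ₀ G = Φ (xG G) := by
    intro G
    apply huniq
    intro v
    change W (Ψ₀ G (W v)) = Φ (xG G) (W v)
    rw [hΨ]
    exact congrArg (fun T : H →L[ℂ] H => T v) (hcommW (xG G)).symm
  have hcancel : ∀ A B : H →L[ℂ] H, W * A = W * B → A = B := by
    intro A B h
    ext v
    have h3 : W (A v - B v) = 0 := by
      rw [map_sub]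
      exact sub_eq_zero.mpr (congrArg (fun T : H →L[ℂ] H => T v) h)
    exact sub_eq_zero.mp (hWinj _ h3)
  let Ψ : (ℝ →ᵇ ℂ) →⋆ₐ[ℂ] (H →L[ℂ] H) :=
    { toFun := Ψ₀
      map_one' := by
        apply hcancel
        rw [hWΨ, ← map_one (algebraMap ℂ (ℝ →ᵇ ℂ)), xG_alg, one_smul, mul_one]
      map_mul' := by
        intro G G'
        apply hcancel
        rw [hWΨ]
        apply hcancel
        calc W * Φ (xG (G * G')) = Φ (wS * xG (G * G')) := (map_mul Φ _ _).symm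
          _ = Φ (xG G * xG G') := by rw [xG_mul]
          _ = Φ (xG G) * Φ (xG G') := map_mul Φ _ _
          _ = (W * Ψ₀ G) * (W * Ψ₀ G') := by rw [hWΨ, hWΨ]
          _ = W * ((Ψ₀ G * W) * Ψ₀ G') := by simp only [mul_assoc]
          _ = W * ((W * Ψ₀ G) * Ψ₀ G') := by rw [hΨW, hWΨ]
          _ = W * (W * (Ψ₀ G * Ψ₀ G')) := by simp only [mul_assoc]
      map_zero' := by
        apply hcancel
        rw [hWΨ, ← map_zero (algebraMap ℂ (ℝ →ᵇ ℂ)), xG_alg, zero_smul, map_zero, mul_zero]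
      map_add' := by
        intro G G'
        apply hcancel
        rw [hWΨ, mul_add, hWΨ, hWΨ, xG_add, map_add]
      commutes' := by
        intro c
        apply hcancel
        rw [hWΨ, xG_alg, map_smul]
        change c • W = W * algebraMap ℂ _ c
        rw [← Algebra.commutes, Algebra.smul_def]
      map_star' := by
        intro G
        apply hcancel
        rw [hWΨ, ← xG_star, map_star, ← hΨW, star_mul, hWstar] }
  have hΨΨ : ∀ G, Ψ G = Ψ₀ G := fun G => rfl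
  refine ⟨Ψ, ?_, ?_, ?_, ?_⟩
  · rw [hΨΨ]
    apply hcancel
    rw [hWΨ, xG_FR, map_mul, hΦz]
  · intro X hX G
    rw [hΨΨ]
    have h3 : ∀ f : C(sS, ℂ), X * Φ f = Φ f * X := Phi_comm R hR hsp hs X hX
    have h4 : W * X = X * W := (h3 wS).symm
    apply hcancel
    rw [← mul_assoc, ← mul_assoc, hWΨ, h4, mul_assoc, hWΨ, h3]
  · intro D hD hDR G G' hGG' v
    rw [hΨΨ, hΨΨ]
    have hDf := Phi_D R hR hsp D hD hDR
    have hparw : par wS = wS := by
      have h3 := xG_par (1 : ℝ →ᵇ ℂ) 1 (by intro ρ; simp)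
      have h4 : xG (1 : ℝ →ᵇ ℂ) = wS := by
        rw [← map_one (algebraMap ℂ (ℝ →ᵇ ℂ)), xG_alg, one_smul]
      rwa [h4] at h3
    have hDW : ∀ u, D (W u) = W (D u) := by
      intro u
      have := hDf wS u
      rwa [hparw] at this
    have h3 : W (D (Ψ₀ G v) - Ψ₀ G' (D v)) = 0 := by
      rw [map_sub, ← hDW]
      have h4 : W (Ψ₀ G v) = Φ (xG G) v := congrArg (fun T : H →L[ℂ] H => T v) (hWΨ G)
      have h5 : W (Ψ₀ G' (D v)) = Φ (xG G') (D v) :=
        congrArg (fun T : H →L[ℂ] H => T (D v)) (hWΨ G')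
      rw [h4, h5, hDf, xG_par G G' hGG', sub_self]
    exact sub_eq_zero.mp (hWinj _ h3)
  · intro G G₀ C hC hG v
    have hC0 : 0 ≤ C := (norm_nonneg _).trans (hC 0)
    have hΦG : ∀ u, Tendsto (fun n => Φ (xG (G n)) u) atTop (𝓝 (Φ (xG G₀) u)) := by
      intro u
      have h3 := tendsto_xG G G₀ C hC hG
      exact ((ContinuousLinearMap.apply ℂ H u).continuous.tendsto _).comp
        (((Phi_cont R hR hsp).tendsto _).comp h3)
    rw [Metric.tendsto_atTop]
    intro ε hε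
    set B := C + ‖G₀‖ + 1 with hB
    have hBpos : 0 < B := by (clear * - hC0; positivity)
    obtain ⟨u, hu⟩ := hWdense.exists_dist_lt v (show 0 < ε / (3 * B) by (clear * - hε hC0; positivity))
    obtain ⟨N, hN⟩ := (Metric.tendsto_atTop.mp (hΦG u)) (ε / 3) (by positivity)
    refine ⟨N, fun n hn => ?_⟩
    have h3 := hN n hn
    rw [dist_eq_norm] at h3 hu ⊢
    have h4 : Ψ (G n) v - Ψ G₀ v = Ψ₀ (G n) (v - W u) + (Φ (xG (G n)) u - Φ (xG G₀) u) -
        Ψ₀ G₀ (v - W u) := by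
      rw [hΨΨ, hΨΨ, map_sub, map_sub, hΨ, hΨ]
      abel
    have hsm : ∀ K : ℝ →ᵇ ℂ, ‖K‖ ≤ B → ‖Ψ₀ K (v - W u)‖ ≤ ε / 3 := by
      intro K hK
      calc ‖Ψ₀ K (v - W u)‖ ≤ ‖Ψ₀ K‖ * ‖v - W u‖ := (Ψ₀ K).le_opNorm _
        _ ≤ B * (ε / (3 * B)) := mul_le_mul ((hΨn K).trans hK) hu.le (norm_nonneg _) hBpos.le
        _ = ε / 3 := by (clear * - hBpos hε; field_simp)
    have h5 := hsm (G n) (by have := hC n; have := norm_nonneg G₀; linarith)
    have h6 := hsm G₀ (by (clear * - hC0; linarith))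
    rw [h4]
    calc _ ≤ ‖Ψ₀ (G n) (v - W u) + (Φ (xG (G n)) u - Φ (xG G₀) u)‖ + ‖Ψ₀ G₀ (v - W u)‖ :=
          norm_sub_le _ _
      _ ≤ (‖Ψ₀ (G n) (v - W u)‖ + ‖Φ (xG (G n)) u - Φ (xG G₀) u‖) + ‖Ψ₀ G₀ (v - W u)‖ := by
          gcongr; exact norm_add_le _ _
      _ < ε := by (clear * - h3 h5 h6; linarith)

end Pool.Agent.Helper23

end

end

section

section

open scoped InnerProductSpace Topology BoundedContinuousFunction

open ContinuousLinearMap Filter MeasureTheory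

namespace Pool.Agent.Helper43.TTF

open Pool.Agent.Helper23

variable {H : Type*} [NormedAddCommGroup H] [InnerProductSpace ℂ H] [CompleteSpace H]

lemma FT_sq : FT * FT = FR * (2 - FR) := by
  ext ρ
  have h3 : (2 : ℝ →ᵇ ℂ) ρ = 2 := rfl
  rw [BoundedContinuousFunction.mul_apply, BoundedContinuousFunction.mul_apply,
    BoundedContinuousFunction.sub_apply, FT_apply, FR_apply, h3, cosh_half]
  have h1 : Real.exp ρ = Real.exp (ρ / 2) * Real.exp (ρ / 2) := by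
    rw [← Real.exp_add]; ring_nf
  have h2 : (0 : ℝ) < Real.exp (ρ / 2) := Real.exp_pos _
  have h4 : (0 : ℝ) < 1 + Real.exp ρ := by positivity
  have h5 : ((1 + Real.exp ρ) / (2 * Real.exp (ρ / 2)))⁻¹ * ((1 + Real.exp ρ) / (2 * Real.exp (ρ / 2)))⁻¹
      = 2 / (1 + Real.exp ρ) * (2 - 2 / (1 + Real.exp ρ)) := by
    rw [h1] at h4 ⊢
    field_simp
    ring
  rw [← Complex.ofReal_mul, h5]
  push_cast
  ring

end Pool.Agent.Helper43.TTF

end

end

section

section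

open scoped InnerProductSpace Topology BoundedContinuousFunction

open ContinuousLinearMap Filter MeasureTheory

namespace Pool.Agent.Helper43.TTF

open Pool.Agent.Helper23

variable {H : Type*} [NormedAddCommGroup H] [InnerProductSpace ℂ H] [CompleteSpace H]

variable {A : VonNeumannAlgebra H} {ξ : H}

variable {R : H →L[ℂ] H} {D : H →L[ℝ] H} {Ψ : (ℝ →ᵇ ℂ) →⋆ₐ[ℂ] (H →L[ℂ] H)}

lemma FC.T_sq (h : FC R D Ψ) (v : H) : Ψ FT (Ψ FT v) = R ((2 : ℂ) • v - R v) := by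
  rw [← psi_mul_apply, FT_sq, psi_mul_apply, map_sub, h.psi_FR, psi_two, sub_apply, smul_apply,
    one_apply_eq_self]

end Pool.Agent.Helper43.TTF

end

end

section

section

open scoped InnerProductSpace Topology ENNReal BoundedContinuousFunction

open ContinuousLinearMap Filter MeasureTheory

namespace Pool.Agent.Helper23.ED

open Pool.Agent.Helper23 Pool.Agent.Helper23.RBF

universe u

variable {H : Type*} [NormedAddCommGroup H] [InnerProductSpace ℂ H] [CompleteSpace H]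

namespace FcD

theorem FR_val (ρ : ℝ) : FR ρ = ((2 / (1 + Real.exp ρ) : ℝ) : ℂ) := rfl

end FcD

end Pool.Agent.Helper23.ED

end

end
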