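import Pool.Agent.Helper23.FB.Inst

/-!
Parts of Helper23.FA.L00_05, Helper23.FA.L00_04, Helper23.FA.L01_04, Helper23.FA.L01_01
-/

attribute [local instance 5000]
  Pool.Agent.Helper23.FB.Inst.rCharZero Pool.Agent.Helper23.FB.Inst.rALM
  Pool.Agent.Helper23.FB.Inst.rARM Pool.Agent.Helper23.FB.Inst.rALSM
  Pool.Agent.Helper23.FB.Inst.rARSM Pool.Agent.Helper23.FB.Inst.rARRLE
  Pool.Agent.Helper23.FB.Inst.rALRLE Pool.Agent.Helper23.FB.Inst.rARRLT
  Pool.Agent.Helper23.FB.Inst.rALRLT Pool.Agent.Helper23.FB.Inst.rPMRLT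
  Pool.Agent.Helper23.FB.Inst.rMPRLT Pool.Agent.Helper23.FB.Inst.rPMM
  Pool.Agent.Helper23.FB.Inst.rMPM Pool.Agent.Helper23.FB.Inst.rPMSM
  Pool.Agent.Helper23.FB.Inst.rMPSM Pool.Agent.Helper23.FB.Inst.rEAOL
  Pool.Agent.Helper23.FB.Inst.rIOR Pool.Agent.Helper23.FB.Inst.rISOR
  Pool.Agent.Helper23.FB.Inst.rFS Pool.Agent.Helper23.FB.Inst.rcCharZero
  Pool.Agent.Helper23.FB.Inst.rNZD Pool.Agent.Helper23.FB.Inst.rcNZD
  Pool.Agent.Helper23.FB.Inst.bSemiring Pool.Agent.Helper23.FB.Inst.bStar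
  Pool.Agent.Helper23.FB.Inst.bAlg Pool.Agent.Helper23.FB.Inst.bSub
  Pool.Agent.Helper23.FB.Inst.bMul Pool.Agent.Helper23.FB.Inst.bAdd
  Pool.Agent.Helper23.FB.Inst.iRing Pool.Agent.Helper23.FB.Inst.iSemiring
  Pool.Agent.Helper23.FB.Inst.iAlgC Pool.Agent.Helper23.FB.Inst.iSMulC
  Pool.Agent.Helper23.FB.Inst.iModC Pool.Agent.Helper23.FB.Inst.iAlgR
  Pool.Agent.Helper23.FB.Inst.iSMulR Pool.Agent.Helper23.FB.Inst.iModR
  Pool.Agent.Helper23.FB.Inst.iMonoid Pool.Agent.Helper23.FB.Inst.iSemigroup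
  Pool.Agent.Helper23.FB.Inst.iMulOneClass Pool.Agent.Helper23.FB.Inst.iMul
  Pool.Agent.Helper23.FB.Inst.iAdd Pool.Agent.Helper23.FB.Inst.iSub
  Pool.Agent.Helper23.FB.Inst.iNeg Pool.Agent.Helper23.FB.Inst.iAddCommMonoid
  Pool.Agent.Helper23.FB.Inst.iAddCommGroup Pool.Agent.Helper23.FB.Inst.iAddGroup
  Pool.Agent.Helper23.FB.Inst.iAddMonoid Pool.Agent.Helper23.FB.Inst.iSMulZeroC
  Pool.Agent.Helper23.FB.Inst.iMulActC Pool.Agent.Helper23.FB.Inst.iDSMulC
  Pool.Agent.Helper23.FB.Inst.iDSMulR Pool.Agent.Helper23.FB.Inst.iSNAG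
  Pool.Agent.Helper23.FB.Inst.iSNACG Pool.Agent.Helper23.FB.Inst.iNorm
  Pool.Agent.Helper23.FB.Inst.iNSC' Pool.Agent.Helper23.FB.Inst.iNSR'
  Pool.Agent.Helper23.FB.Inst.iTop Pool.Agent.Helper23.FB.Inst.iT2 Pool.Agent.Helper23.FB.Inst.iTR
  Pool.Agent.Helper23.FB.Inst.iSCC Pool.Agent.Helper23.FB.Inst.iIST
  Pool.Agent.Helper23.FB.Inst.iSCCR Pool.Agent.Helper23.FB.Inst.iISTR
  Pool.Agent.Helper23.FB.Inst.iZHC Pool.Agent.Helper23.FB.Inst.iAHC
  Pool.Agent.Helper23.FB.Inst.iAMHC Pool.Agent.Helper23.FB.Inst.iMAHC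
  Pool.Agent.Helper23.FB.Inst.lTop Pool.Agent.Helper23.FB.Inst.lUnif
  Pool.Agent.Helper23.FB.Inst.lACM Pool.Agent.Helper23.FB.Inst.lACG
  Pool.Agent.Helper23.FB.Inst.lSNAG Pool.Agent.Helper23.FB.Inst.lSNACG
  Pool.Agent.Helper23.FB.Inst.lNACG Pool.Agent.Helper23.FB.Inst.lNorm
  Pool.Agent.Helper23.FB.Inst.lIPS Pool.Agent.Helper23.FB.Inst.lMod
  Pool.Agent.Helper23.FB.Inst.lSMul Pool.Agent.Helper23.FB.Inst.lT2
  Pool.Agent.Helper23.FB.Inst.iStar Pool.Agent.Helper23.FB.Inst.iStarMul
  Pool.Agent.Helper23.FB.Inst.iStarAddMonoid Pool.Agent.Helper23.FB.Inst.iStarRing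
  Pool.Agent.Helper23.FB.Inst.iNSC Pool.Agent.Helper23.FB.Inst.iSOR
  Pool.Agent.Helper23.FB.Inst.iALM Pool.Agent.Helper23.FB.Inst.iARM
  Pool.Agent.Helper23.FB.Inst.iCFC Pool.Agent.Helper23.FB.Inst.iNCFC
  Pool.Agent.Helper23.FB.Inst.iStarModR Pool.Agent.Helper23.FB.Inst.iStarModC
  Pool.Agent.Helper23.FB.Inst.eStar Pool.Agent.Helper23.FB.Inst.eAdd
  Pool.Agent.Helper23.FB.Inst.eMul Pool.Agent.Helper23.FB.Inst.eOne
  Pool.Agent.Helper23.FB.Inst.eZero Pool.Agent.Helper23.FB.Inst.eMulAction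
  Pool.Agent.Helper23.FB.Inst.eAMHC2 Pool.Agent.Helper23.FB.Inst.eZHC2
  Pool.Agent.Helper23.FB.Inst.lAMHC

section

section

open scoped InnerProductSpace Topology BoundedContinuousFunction FourierTransform SchwartzMap

open ContinuousLinearMap Filter MeasureTheory

set_option linter.unusedSectionVars false

namespace Pool.Agent.Helper23

variable {G : Type*} [NormedAddCommGroup G] [InnerProductSpace ℂ G] [CompleteSpace G]

variable {G' : Type*} [NormedAddCommGroup G'] [InnerProductSpace ℂ G'] [CompleteSpace G']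

variable {H : Type*} [NormedAddCommGroup H] [InnerProductSpace ℂ H] [CompleteSpace H]

/-- the translate of a Schwartz function -/
noncomputable def trS (t : ℝ) (f : 𝓢(ℝ, G)) : 𝓢(ℝ, G) :=
  SchwartzMap.compCLMOfAntilipschitz ℂ (K := 1) (g := fun s : ℝ => s - t)
    (by fun_prop) (AntilipschitzWith.of_le_mul_dist fun x y => by
      rw [dist_sub_right, NNReal.coe_one, one_mul]) f

lemma trS_apply (t : ℝ) (f : 𝓢(ℝ, G)) (s : ℝ) : trS t f s = f (s - t) := rfl

end Pool.Agent.Helper23

end

end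

section

section

open scoped InnerProductSpace Topology ENNReal

open ContinuousLinearMap Filter MeasureTheory

set_option linter.unusedSectionVars false

set_option linter.unusedVariables false

namespace Pool.Agent.Helper23

/-- `L²(ℝ; G)` -/
noncomputable abbrev L2R (G : Type*) [NormedAddCommGroup G] := Lp G 2 (volume : Measure ℝ)

variable {G : Type*} [NormedAddCommGroup G] [InnerProductSpace ℂ G] [CompleteSpace G]

variable {G' : Type*} [NormedAddCommGroup G'] [InnerProductSpace ℂ G'] [CompleteSpace G']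

variable {G'' : Type*} [NormedAddCommGroup G''] [InnerProductSpace ℂ G''] [CompleteSpace G'']

/-- Fields of operators defining decomposable operators. -/
structure Dec (T : ℝ → G →L[ℂ] G') : Prop where
  meas : ∀ F : ℝ → G, AEStronglyMeasurable F volume →
    AEStronglyMeasurable (fun s => T s (F s)) volume
  bdd : ∃ C : ℝ, 0 ≤ C ∧ ∀ s, ‖T s‖ ≤ C

omit [CompleteSpace G] [CompleteSpace G'] in
lemma Dec.memLp {T : ℝ → G →L[ℂ] G'} (h : Dec T) (F : L2R G) :
    MemLp (fun s => T s (F s)) 2 volume := by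
  obtain ⟨C, hC0, hC⟩ := h.bdd
  refine MemLp.of_le_mul (c := C) (Lp.memLp F) (h.meas _ (Lp.aestronglyMeasurable F)) ?_
  exact Eventually.of_forall fun s => (T s).le_of_opNorm_le (hC s) _

omit [CompleteSpace G] [CompleteSpace G'] in
lemma Dec.norm_le {T : ℝ → G →L[ℂ] G'} (h : Dec T) {C : ℝ} (hC0 : 0 ≤ C) (hC : ∀ s, ‖T s‖ ≤ C)
    (F : L2R G) : ‖(h.memLp F).toLp _‖ ≤ C * ‖F‖ := by
  refine Lp.norm_le_mul_norm_of_ae_le_mul ?_
  filter_upwards [(h.memLp F).coeFn_toLp] with s hs
  rw [hs]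
  exact (T s).le_of_opNorm_le (hC s) _

open Classical in
/-- the decomposable operator -/
noncomputable def dec (T : ℝ → G →L[ℂ] G') : L2R G →L[ℂ] L2R G' :=
  if h : Dec T then
    LinearMap.mkContinuous
      { toFun := fun F => (h.memLp F).toLp _
        map_add' := by
          intro F F'
          ext1
          filter_upwards [(h.memLp (F + F')).coeFn_toLp, (h.memLp F).coeFn_toLp,
            (h.memLp F').coeFn_toLp, Lp.coeFn_add F F',
            Lp.coeFn_add ((h.memLp F).toLp _) ((h.memLp F').toLp _)] with s h1 h2 h3 h4 h5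
          rw [h1, h5, Pi.add_apply, h2, h3, h4, Pi.add_apply, map_add]
        map_smul' := by
          intro c F
          ext1
          filter_upwards [(h.memLp (c • F)).coeFn_toLp, (h.memLp F).coeFn_toLp,
            Lp.coeFn_smul c F, Lp.coeFn_smul c ((h.memLp F).toLp _)] with s h1 h2 h3 h4
          rw [h1, RingHom.id_apply, h4, Pi.smul_apply, h2, h3, Pi.smul_apply, map_smul] }
      h.bdd.choose (fun F => h.norm_le h.bdd.choose_spec.1 h.bdd.choose_spec.2 F)
  else 0

omit [CompleteSpace G] [CompleteSpace G'] in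
lemma dec_coe {T : ℝ → G →L[ℂ] G'} (h : Dec T) (F : L2R G) :
    dec T F =ᵐ[volume] fun s => T s (F s) := by
  have : dec T F = (h.memLp F).toLp _ := by
    rw [dec, dif_pos h]
    rfl
  rw [this]
  exact (h.memLp F).coeFn_toLp

omit [CompleteSpace G] [CompleteSpace G'] in
lemma dec_norm {T : ℝ → G →L[ℂ] G'} {C : ℝ} (hC0 : 0 ≤ C) (hC : ∀ s, ‖T s‖ ≤ C) :
    ‖dec T‖ ≤ C := by
  by_cases h : Dec T
  · refine ContinuousLinearMap.opNorm_le_bound _ hC0 fun F => ?_
    have : dec T F = (h.memLp F).toLp _ := by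
      rw [dec, dif_pos h]
      rfl
    rw [this]
    exact h.norm_le hC0 hC F
  · rw [dec, dif_neg h]
    exact (norm_zero (E := L2R G →L[ℂ] L2R G')).le.trans hC0

omit [CompleteSpace G] [CompleteSpace G'] in
lemma Dec.smul {T : ℝ → G →L[ℂ] G'} (c : ℂ) (h : Dec T) : Dec (fun s => c • T s) := by
  obtain ⟨C, hC0, hC⟩ := h.bdd
  refine ⟨fun F hF => (h.meas F hF).const_smul c, ‖c‖ * C, by (clear * - hC0; positivity), fun s => ?_⟩
  rw [norm_smul]
  gcongr
  exact hC s

/-- adjoint relation for decomposable operators -/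
lemma dec_adj {T : ℝ → G →L[ℂ] G'} {T' : ℝ → G' →L[ℂ] G} (h : Dec T) (h' : Dec T')
    (hadj : ∀ s x y, ⟪T' s x, y⟫_ℂ = ⟪x, T s y⟫_ℂ) (F : L2R G') (F' : L2R G) :
    ⟪dec T' F, F'⟫_ℂ = ⟪F, dec T F'⟫_ℂ := by
  rw [L2.inner_def, L2.inner_def]
  refine integral_congr_ae ?_
  filter_upwards [dec_coe h F', dec_coe h' F] with s h1 h2
  rw [h1, h2, hadj]

omit [CompleteSpace G] [CompleteSpace G'] in
lemma Dec.const (a : G →L[ℂ] G') : Dec (fun _ : ℝ => a) :=
  ⟨fun _ hF => a.continuous.comp_aestronglyMeasurable hF, ‖a‖, norm_nonneg _, fun _ => le_rfl⟩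

/-- bounded measurable functions -/
def BM (m : ℝ → ℂ) : Prop := Measurable m ∧ ∃ C : ℝ, 0 ≤ C ∧ ∀ s, ‖m s‖ ≤ C

omit [CompleteSpace G] in
lemma BM.dec {m : ℝ → ℂ} (h : BM m) : Dec (fun s => m s • (1 : G →L[ℂ] G)) := by
  obtain ⟨hm, C, hC0, hC⟩ := h
  refine ⟨fun F hF => (hm.aestronglyMeasurable).smul hF, C, hC0, fun s => ?_⟩
  refine ContinuousLinearMap.opNorm_le_bound _ hC0 fun v => ?_
  rw [smul_apply, one_apply_eq_self, norm_smul]
  gcongr
  exact hC s

variable (G) in
/-- multiplication operator -/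
noncomputable def mulOp (m : ℝ → ℂ) : L2R G →L[ℂ] L2R G := dec (fun s => m s • (1 : G →L[ℂ] G))

omit [CompleteSpace G] in
lemma mulOp_coe {m : ℝ → ℂ} (h : BM m) (F : L2R G) :
    mulOp G m F =ᵐ[volume] fun s => m s • F s := dec_coe h.dec F

/-- `lift a` acts by `a` pointwise. -/
noncomputable def lift (a : G →L[ℂ] G') : L2R G →L[ℂ] L2R G' := dec (fun _ => a)

omit [CompleteSpace G] [CompleteSpace G'] in
lemma lift_coe (a : G →L[ℂ] G') (F : L2R G) : lift a F =ᵐ[volume] fun s => a (F s) :=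
  dec_coe (Dec.const a) F

lemma lift_star (a : G →L[ℂ] G) : lift (star a) = star (lift a) := by
  rw [ContinuousLinearMap.star_eq_adjoint (lift a), ContinuousLinearMap.eq_adjoint_iff]
  intro x y
  refine dec_adj (Dec.const a) (Dec.const (star a)) (fun s x y => ?_) x y
  rw [ContinuousLinearMap.star_eq_adjoint, ContinuousLinearMap.adjoint_inner_left]

lemma mp_sub (t : ℝ) : MeasurePreserving (fun s : ℝ => s - t) volume volume :=
  measurePreserving_sub_right volume t

variable (G) in
/-- translation `(tr t F)(s) = F(s - t)` -/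
noncomputable def tr (t : ℝ) : L2R G →L[ℂ] L2R G :=
  (Lp.compMeasurePreservingₗᵢ ℂ (fun s : ℝ => s - t) (mp_sub t)).toContinuousLinearMap

omit [CompleteSpace G] [CompleteSpace G'] in
lemma mulOp_lift {m : ℝ → ℂ} (h : BM m) (a : G →L[ℂ] G') (F : L2R G) :
    mulOp G' m (lift a F) = lift a (mulOp G m F) := by
  ext1
  filter_upwards [mulOp_coe h (lift a F), lift_coe a F, lift_coe a (mulOp G m F),
    mulOp_coe h F] with s h1 h2 h3 h4
  rw [h1, h2, h3, h4, map_smul]

lemma BM.mul {m m' : ℝ → ℂ} (h : BM m) (h' : BM m') : BM (fun s => m s * m' s) := by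
  obtain ⟨hm, C, hC0, hC⟩ := h
  obtain ⟨hm', C', hC0', hC'⟩ := h'
  refine ⟨hm.mul hm', C * C', by (clear * - hC0 hC0'; positivity), fun s => ?_⟩
  rw [norm_mul]
  exact mul_le_mul (hC s) (hC' s) (norm_nonneg _) hC0

lemma BM.conj {m : ℝ → ℂ} (h : BM m) : BM (fun s => (starRingEnd ℂ) (m s)) := by
  obtain ⟨hm, C, hC0, hC⟩ := h
  refine ⟨Complex.continuous_conj.measurable.comp hm, C, hC0, fun s => ?_⟩
  rw [RCLike.norm_conj]; exact hC s

omit [CompleteSpace G] in
lemma mulOp_mulOp {m m' : ℝ → ℂ} (h : BM m) (h' : BM m') (F : L2R G) :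
    mulOp G m (mulOp G m' F) = mulOp G (fun s => m s * m' s) F := by
  ext1
  filter_upwards [mulOp_coe h (mulOp G m' F), mulOp_coe h' F, mulOp_coe (h.mul h') F]
    with s h1 h2 h3
  rw [h1, h2, h3, mul_smul]

lemma mulOp_adj {m : ℝ → ℂ} (h : BM m) (F F' : L2R G) :
    ⟪mulOp G (fun s => (starRingEnd ℂ) (m s)) F, F'⟫_ℂ = ⟪F, mulOp G m F'⟫_ℂ := by
  refine dec_adj h.dec h.conj.dec (fun s x y => ?_) F F'
  simp only [smul_apply, one_apply_eq_self, inner_smul_left, inner_smul_right,
    RingHomCompTriple.comp_apply, RingHom.id_apply]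

end Pool.Agent.Helper23

end

section

open scoped InnerProductSpace Topology ENNReal

open ContinuousLinearMap Filter MeasureTheory

set_option linter.unusedSectionVars false

set_option linter.unusedVariables false

namespace Pool.Agent.Helper23

variable {H : Type*} [NormedAddCommGroup H] [InnerProductSpace ℂ H] [CompleteSpace H]

/-- the map `f ↦ f ⊗ η` -/
noncomputable def axi (η : H) : L2R ℂ →L[ℂ] L2R H := lift (toSpanSingleton ℂ η)

/-- elementary tensors -/
noncomputable def ten (f : L2R ℂ) (η : H) : L2R H := axi η f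

lemma ten_coe (f : L2R ℂ) (η : H) : ten f η =ᵐ[volume] fun s => f s • η := by
  filter_upwards [lift_coe (toSpanSingleton ℂ η) f] with s hs
  change (lift (toSpanSingleton ℂ η) f) s = _
  rw [hs, toSpanSingleton_apply]

lemma ten_add_right (f : L2R ℂ) (η ζ : H) : ten f (η + ζ) = ten f η + ten f ζ := by
  ext1
  filter_upwards [ten_coe f η, ten_coe f ζ, ten_coe f (η + ζ),
    Lp.coeFn_add (ten f η) (ten f ζ)] with s h1 h2 h3 h4
  rw [h3, h4, Pi.add_apply, h1, h2, smul_add]

lemma ten_smul_right (c : ℂ) (f : L2R ℂ) (η : H) : ten f (c • η) = c • ten f η := by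
  ext1
  filter_upwards [ten_coe f η, ten_coe f (c • η), Lp.coeFn_smul c (ten f η)] with s h1 h2 h3
  rw [h2, h3, Pi.smul_apply, h1, smul_comm]

lemma inner_ten (f g : L2R ℂ) (η ζ : H) : ⟪ten f η, ten g ζ⟫_ℂ = ⟪f, g⟫_ℂ * ⟪η, ζ⟫_ℂ := by
  rw [L2.inner_def, L2.inner_def, ← integral_mul_const]
  refine integral_congr_ae ?_
  filter_upwards [ten_coe f η, ten_coe g ζ] with s h1 h2
  rw [h1, h2, inner_smul_left, inner_smul_right]
  simp only [RCLike.inner_apply]
  ring

lemma norm_ten (f : L2R ℂ) (η : H) : ‖ten f η‖ = ‖f‖ * ‖η‖ := by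
  have h := inner_ten f f η η
  simp only [inner_self_eq_norm_sq_to_K] at h
  have h2 : ‖ten f η‖ ^ 2 = (‖f‖ * ‖η‖) ^ 2 := by
    have h3 : ((‖ten f η‖ ^ 2 : ℝ) : ℂ) = (((‖f‖ * ‖η‖) ^ 2 : ℝ) : ℂ) := by
      push_cast
      rw [mul_pow]
      exact h
    exact Complex.ofReal_injective h3
  exact (pow_left_inj₀ (norm_nonneg _) (by (clear * -; positivity)) two_ne_zero).1 h2

/-- the map `η ↦ f ⊗ η` -/
noncomputable def iot (H : Type*) [NormedAddCommGroup H] [InnerProductSpace ℂ H] [CompleteSpace H]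
    (f : L2R ℂ) : H →L[ℂ] L2R H :=
  LinearMap.mkContinuous
    { toFun := fun η => ten f η
      map_add' := fun η ζ => ten_add_right f η ζ
      map_smul' := fun c η => ten_smul_right c f η } ‖f‖ (fun η => (norm_ten f η).le)

lemma iot_apply (f : L2R ℂ) (η : H) : iot H f η = ten f η := rfl

/-- slice of a vector -/
noncomputable def sl (f : L2R ℂ) : L2R H →L[ℂ] H := adjoint (iot H f)

lemma inner_sl (f : L2R ℂ) (F : L2R H) (η : H) : ⟪η, sl f F⟫_ℂ = ⟪ten f η, F⟫_ℂ := by
  rw [sl, adjoint_inner_right, iot_apply]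

lemma lift_ten (a : H →L[ℂ] H) (f : L2R ℂ) (η : H) : lift a (ten f η) = ten f (a η) := by
  ext1
  filter_upwards [lift_coe a (ten f η), ten_coe f η, ten_coe f (a η)] with s h1 h2 h3
  rw [h1, h2, h3, map_smul]

lemma mulOp_ten {m : ℝ → ℂ} (h : BM m) (f : L2R ℂ) (η : H) :
    mulOp H m (ten f η) = ten (mulOp ℂ m f) η := mulOp_lift h _ f

/-- elementary tensors are total -/
lemma eq_zero_of_ten {F : L2R H} (h : ∀ (f : L2R ℂ) (η : H), ⟪ten f η, F⟫_ℂ = 0) : F = 0 := by
  have h1 : ∀ F' : L2R H, ⟪F', F⟫_ℂ = 0 := by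
    refine Lp.induction (by norm_num) _ ?_ ?_ ?_
    · intro c s hs hμs
      have e1 : ((Lp.simpleFunc.indicatorConst 2 hs hμs.ne c : Lp.simpleFunc H 2 volume) :
          L2R H) = ten (indicatorConstLp 2 hs hμs.ne (1 : ℂ)) c := by
        rw [Lp.simpleFunc.coe_indicatorConst]
        ext1
        filter_upwards [ten_coe (indicatorConstLp 2 hs hμs.ne (1 : ℂ)) c,
          indicatorConstLp_coeFn (p := 2) (hs := hs) (hμs := hμs.ne) (c := (1 : ℂ)),
          indicatorConstLp_coeFn (p := 2) (hs := hs) (hμs := hμs.ne) (c := c)] with x h1 h2 h3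
        rw [h1, h2, h3]
        by_cases hx : x ∈ s
        · rw [Set.indicator_of_mem hx, Set.indicator_of_mem hx, one_smul]
        · rw [Set.indicator_of_notMem hx, Set.indicator_of_notMem hx, zero_smul]
      rw [e1]
      exact h _ _
    · intro f g hf hg _ h1 h2
      rw [inner_add_left, h1, h2, add_zero]
    · exact isClosed_eq (by fun_prop) continuous_const
  exact inner_self_eq_zero.1 (h1 F)

/-- slices of operators -/
noncomputable def slX (X : L2R H →L[ℂ] L2R H) (f g : L2R ℂ) : H →L[ℂ] H :=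
  (sl f).comp (X.comp (iot H g))

/-- The amplification of a von Neumann algebra. -/
noncomputable def amp (A : VonNeumannAlgebra H) : VonNeumannAlgebra (L2R H) where
  toStarSubalgebra := StarSubalgebra.centralizer ℂ (lift '' (A.commutant : Set (H →L[ℂ] H)))
  centralizer_centralizer' := by simp

end Pool.Agent.Helper23

end

section

open scoped InnerProductSpace Topology ENNReal

open ContinuousLinearMap Filter MeasureTheory

set_option linter.unusedSectionVars false

set_option linter.unusedVariables false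

namespace Pool.Agent.Helper23

/-- index set of a Hilbert basis of `L²(ℝ)` -/
noncomputable def hw : Set (L2R ℂ) := (exists_hilbertBasis ℂ (L2R ℂ)).choose

/-- a Hilbert basis of `L²(ℝ)` -/
noncomputable def hb : HilbertBasis hw ℂ (L2R ℂ) := (exists_hilbertBasis ℂ (L2R ℂ)).choose_spec.choose

/-- index set of the frame -/
abbrev JJ := ℤ × hw

/-- the cut off exponentials -/
noncomputable def dm (m : ℤ) (s : ℝ) : ℂ :=
  Set.indicator (Set.Ico (m : ℝ) (m + 1)) (fun s => ((Real.exp (s / 2) : ℝ) : ℂ)) s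

/-- the frame -/
noncomputable def gJ (j : JJ) : L2R ℂ := mulOp ℂ (dm j.1) (hb j.2)

section general

variable {E : Type*} [NormedAddCommGroup E] [InnerProductSpace ℂ E] [CompleteSpace E]

lemma norm_sq_lint {G : Type*} [NormedAddCommGroup G] [InnerProductSpace ℂ G] [CompleteSpace G]
    (F : L2R G) : ENNReal.ofReal (‖F‖ ^ 2) = ∫⁻ s, ENNReal.ofReal (‖F s‖ ^ 2) := by
  have h1 : ‖F‖ ^ 2 = ∫ s, ‖F s‖ ^ 2 := by
    have h2 : ((‖F‖ ^ 2 : ℝ) : ℂ) = ⟪F, F⟫_ℂ := by
      rw [inner_self_eq_norm_sq_to_K]; norm_cast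
    have h3 : ⟪F, F⟫_ℂ = ((∫ s, ‖F s‖ ^ 2 : ℝ) : ℂ) := by
      rw [L2.inner_def, ← integral_complex_ofReal]
      refine integral_congr_ae (Eventually.of_forall fun s => ?_)
      change ⟪F s, F s⟫_ℂ = _
      rw [inner_self_eq_norm_sq_to_K]; norm_cast
    rw [h3] at h2
    exact_mod_cast h2
  rw [h1]
  refine ofReal_integral_eq_lintegral_ofReal ?_ (Eventually.of_forall fun s => by (clear * -; positivity))
  exact (Lp.memLp F).integrable_norm_pow two_ne_zero

end general

section SS

variable {K : Type*} [NormedAddCommGroup K] [InnerProductSpace ℂ K] [CompleteSpace K]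

/-- the Hilbert-Schmidt type sum -/
noncomputable def SS (Θ : L2R ℂ →L[ℂ] K) : ℝ≥0∞ := ∑' j : JJ, ENNReal.ofReal (‖Θ (gJ j)‖ ^ 2)

end SS

end Pool.Agent.Helper23

end

section

open scoped InnerProductSpace Topology ENNReal

open ContinuousLinearMap Filter MeasureTheory

set_option linter.unusedSectionVars false

set_option linter.unusedVariables false

namespace Pool.Agent.Helper23

variable {H : Type*} [NormedAddCommGroup H] [InnerProductSpace ℂ H] [CompleteSpace H]

variable {M N : VonNeumannAlgebra H} {ξ : H} {E : (H →L[ℂ] H) → (H →L[ℂ] H)}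

/-- `SX ξ Y` is the value of the weight at `Y* Y`. -/
noncomputable def SX (ξ : H) (Y : L2R H →L[ℂ] L2R H) : ℝ≥0∞ := SS (Y.comp (axi ξ))

/-- unitaries preserving the weight -/
def GK (A : VonNeumannAlgebra H) (ξ : H) : Set (L2R H →L[ℂ] L2R H) :=
  {u | u ∈ amp A ∧ star u * u = 1 ∧ u * star u = 1 ∧ ∀ Y ∈ amp A, SX ξ (Y * u) = SX ξ Y}

end Pool.Agent.Helper23

end

section

open scoped InnerProductSpace Topology ENNReal

open ContinuousLinearMap Filter MeasureTheory

set_option linter.unusedSectionVars false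

set_option linter.unusedVariables false

namespace Pool.Agent.Helper23

variable {H : Type*} [NormedAddCommGroup H] [InnerProductSpace ℂ H] [CompleteSpace H]

variable {M N : VonNeumannAlgebra H} {ξ : H} {E : (H →L[ℂ] H) → (H →L[ℂ] H)}

/-- indicator functions -/
noncomputable def ind (I : Set ℝ) : ℝ → ℂ := I.indicator fun _ => 1

lemma ind_of_mem {I : Set ℝ} {s : ℝ} (h : s ∈ I) : ind I s = 1 := Set.indicator_of_mem h _

lemma ind_of_notMem {I : Set ℝ} {s : ℝ} (h : s ∉ I) : ind I s = 0 := Set.indicator_of_notMem h _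

lemma ind_bm {I : Set ℝ} (hI : MeasurableSet I) : BM (ind I) := by
  refine ⟨measurable_const.indicator hI, 1, zero_le_one, fun s => ?_⟩
  by_cases h : s ∈ I
  · rw [ind_of_mem h]; simp
  · rw [ind_of_notMem h]; simp

lemma ind_conj (I : Set ℝ) : (fun s => (starRingEnd ℂ) (ind I s)) = ind I := by
  funext s
  by_cases h : s ∈ I
  · rw [ind_of_mem h, map_one]
  · rw [ind_of_notMem h, map_zero]

lemma ind_sq (I : Set ℝ) : (fun s => ind I s * ind I s) = ind I := by
  funext s
  by_cases h : s ∈ I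
  · rw [ind_of_mem h, one_mul]
  · rw [ind_of_notMem h, zero_mul]

lemma mulOp_ind_mul {I J : Set ℝ} (hI : MeasurableSet I) (hJ : MeasurableSet J)
    (h : ∀ s, s ∈ I → s ∉ J) : mulOp H (ind I) * mulOp H (ind J) = 0 := by
  ext F : 1
  change mulOp H (ind I) (mulOp H (ind J) F) = 0
  rw [mulOp_mulOp (ind_bm hI) (ind_bm hJ)]
  ext1
  filter_upwards [mulOp_coe ((ind_bm hI).mul (ind_bm hJ)) F, Lp.coeFn_zero H 2 volume]
    with s h1 h2
  rw [h1, h2]
  by_cases hs : s ∈ I
  · rw [ind_of_notMem (h s hs), mul_zero, zero_smul]; rfl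
  · rw [ind_of_notMem hs, zero_mul, zero_smul]; rfl

end Pool.Agent.Helper23

end

section

open scoped InnerProductSpace Topology ENNReal

open ContinuousLinearMap Filter MeasureTheory

set_option linter.unusedSectionVars false

set_option linter.unusedVariables false

namespace Pool.Agent.Helper23

variable {H : Type*} [NormedAddCommGroup H] [InnerProductSpace ℂ H] [CompleteSpace H]

variable {M N : VonNeumannAlgebra H} {ξ : H} {E : (H →L[ℂ] H) → (H →L[ℂ] H)}

/-- The relative commutant of the centralizer of the weight in the amplification. -/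
def Rk (M N : VonNeumannAlgebra H) (ξ : H) : Set (L2R H →L[ℂ] L2R H) :=
  {X | X ∈ amp M ∧ ∀ u ∈ GK N ξ, u * X = X * u}

end Pool.Agent.Helper23

end

section

open scoped InnerProductSpace Topology BoundedContinuousFunction FourierTransform SchwartzMap

open ContinuousLinearMap Filter MeasureTheory

set_option linter.unusedSectionVars false

namespace Pool.Agent.Helper23

variable {G : Type*} [NormedAddCommGroup G] [InnerProductSpace ℂ G] [CompleteSpace G]

variable {G' : Type*} [NormedAddCommGroup G'] [InnerProductSpace ℂ G'] [CompleteSpace G']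

variable {H : Type*} [NormedAddCommGroup H] [InnerProductSpace ℂ H] [CompleteSpace H]

/-- two continuous maps on `L²(ℝ; G)` agreeing on Schwartz functions agree -/
lemma L2R_ext_schwartz {X : Type*} [TopologicalSpace X] [T2Space X] {φ ψ : L2R G → X}
    (hφ : Continuous φ) (hψ : Continuous ψ)
    (h : ∀ f : 𝓢(ℝ, G), φ (f.toLp 2) = ψ (f.toLp 2)) (F : L2R G) : φ F = ψ F := by
  refine DenseRange.induction_on (p := fun F => φ F = ψ F)
    (SchwartzMap.denseRange_toLpCLM (E := ℝ) (F := G) (p := 2) (μ := volume)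
      ENNReal.ofNat_ne_top) F (isClosed_eq hφ hψ) ?_
  intro f
  exact h f

lemma lift_toLp (a : G →L[ℂ] G') (f : 𝓢(ℝ, G)) :
    lift a (f.toLp 2) = (f.postcompCLM a).toLp 2 := by
  ext1
  filter_upwards [lift_coe a (f.toLp 2), f.coeFn_toLp 2, (f.postcompCLM a).coeFn_toLp 2]
    with s h1 h2 h3
  rw [h1, h2, h3, SchwartzMap.postcompCLM_apply]

end Pool.Agent.Helper23

end

section

open scoped InnerProductSpace Topology BoundedContinuousFunction FourierTransform ENNReal

open ContinuousLinearMap Filter MeasureTheory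

set_option linter.unusedSectionVars false

namespace Pool.Agent.Helper23

variable {H : Type*} [NormedAddCommGroup H] [InnerProductSpace ℂ H] [CompleteSpace H]

/-- the Fourier transform as a unitary -/
noncomputable def Fo (G : Type*) [NormedAddCommGroup G] [InnerProductSpace ℂ G] [CompleteSpace G] :
    L2R G ≃ₗᵢ[ℂ] L2R G := Lp.fourierTransformₗᵢ ℝ G

end Pool.Agent.Helper23

end

section

open scoped InnerProductSpace Topology BoundedContinuousFunction

open ContinuousLinearMap Filter MeasureTheory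

namespace Pool.Agent.Helper23

variable {H : Type*} [NormedAddCommGroup H] [InnerProductSpace ℂ H] [CompleteSpace H]

variable {M N : VonNeumannAlgebra H} {ξ : H} {E : (H →L[ℂ] H) → (H →L[ℂ] H)}

namespace U14

/-- strong convergence to zero of bounded sequences can be tested on elementary tensors -/
lemma tendsto_of_ten {D : ℕ → (L2R H →L[ℂ] L2R H)} {C : ℝ} (hC : ∀ n, ‖D n‖ ≤ C)
    (h : ∀ (f : L2R ℂ) (η : H), Tendsto (fun n => D n (ten f η)) atTop (𝓝 0)) (G : L2R H) :
    Tendsto (fun n => D n G) atTop (𝓝 0) := by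
  have hC0 : 0 ≤ C := (norm_nonneg _).trans (hC 0)
  set T : Submodule ℂ (L2R H) :=
    { carrier := {G | Tendsto (fun n => D n G) atTop (𝓝 0)}
      add_mem' := fun {a b} ha hb => by
        change Tendsto _ _ (𝓝 0)
        have := Tendsto.add ha hb
        rw [add_zero] at this
        refine this.congr fun i => ?_
        rw [map_add]
      zero_mem' := by
        change Tendsto _ _ (𝓝 0)
        simp only [map_zero]
        exact tendsto_const_nhds
      smul_mem' := fun c a ha => by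
        change Tendsto _ _ (𝓝 0)
        have := Tendsto.const_smul ha c
        rw [smul_zero] at this
        refine this.congr fun i => ?_
        rw [map_smul] } with hT
  have hcl : IsClosed (T : Set (L2R H)) := by
    rw [← closure_subset_iff_isClosed]
    intro G hG
    change Tendsto _ _ (𝓝 0)
    rw [Metric.tendsto_nhds]
    intro ε hε
    obtain ⟨G', hG', hGG⟩ := Metric.mem_closure_iff.1 hG (ε / (2 * (C + 1))) (by (clear * - hε hC0; positivity))
    have h3 := (Metric.tendsto_nhds.1 (show Tendsto (fun n => D n G') atTop (𝓝 0) from hG'))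
      (ε / 2) (by positivity)
    filter_upwards [h3] with i hi
    rw [dist_zero_right] at hi ⊢
    have e1 : D i G = D i (G - G') + D i G' := by rw [map_sub, sub_add_cancel]
    rw [e1]
    rw [dist_eq_norm] at hGG
    calc _ ≤ ‖D i (G - G')‖ + ‖D i G'‖ := norm_add_le _ _
      _ ≤ (C + 1) * ‖G - G'‖ + ‖D i G'‖ := by
          gcongr
          exact ContinuousLinearMap.le_of_opNorm_le _ ((hC i).trans (by (clear * -; linarith))) _
      _ < (C + 1) * (ε / (2 * (C + 1))) + ε / 2 := by gcongr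
      _ = ε := by field_simp; ring
  have h5 : T.topologicalClosure = ⊤ := by
    rw [Submodule.topologicalClosure_eq_top_iff, Submodule.eq_bot_iff]
    intro F hF
    exact eq_zero_of_ten fun f η => (Submodule.mem_orthogonal _ _).1 hF _ (h f η)
  have h6 : G ∈ T.topologicalClosure := by rw [h5]; trivial
  have h7 : G ∈ closure (T : Set (L2R H)) := h6
  exact hcl.closure_subset h7

end U14

end Pool.Agent.Helper23

end

section

open scoped InnerProductSpace Topology ENNReal

open ContinuousLinearMap Filter MeasureTheory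

set_option linter.unusedSectionVars false

set_option linter.unusedVariables false

namespace Pool.Agent.Helper23

variable {H : Type*} [NormedAddCommGroup H] [InnerProductSpace ℂ H] [CompleteSpace H]

variable {M N : VonNeumannAlgebra H} {ξ : H} {E : (H →L[ℂ] H) → (H →L[ℂ] H)}

namespace GKW

/-- the isometries `η ↦ h_k ⊗ η` -/
noncomputable def Vk (H : Type*) [NormedAddCommGroup H] [InnerProductSpace ℂ H] [CompleteSpace H]
    (k : hw) : H →ₗᵢ[ℂ] L2R H where
  toLinearMap := (iot H (hb k)).toLinearMap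
  norm_map' η := by
    change ‖ten (hb k) η‖ = ‖η‖
    rw [norm_ten, hb.orthonormal.1 k, one_mul]

lemma Vk_apply (k : hw) (η : H) : Vk H k η = ten (hb k) η := rfl

lemma Vk_ortho : OrthogonalFamily ℂ (fun _ : hw => H) (fun k => Vk H k) := by
  intro i j hij v w
  rw [Vk_apply, Vk_apply, inner_ten, hb.orthonormal.2 hij, zero_mul]

lemma Vk_total : ⊤ ≤ (⨆ i, LinearMap.range (Vk H i).toLinearMap).topologicalClosure := by
  rw [top_le_iff, Submodule.topologicalClosure_eq_top_iff, Submodule.eq_bot_iff]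
  intro F hF
  rw [Submodule.mem_orthogonal] at hF
  refine eq_zero_of_ten fun f η => ?_
  have h1 : (adjoint (axi η)) F = 0 := by
    have h2 : ∀ k : hw, ⟪hb k, (adjoint (axi η)) F⟫_ℂ = 0 := by
      intro k
      rw [adjoint_inner_right]
      refine hF _ ?_
      exact Submodule.mem_iSup_of_mem k ⟨η, rfl⟩
    refine hb.repr.injective ?_
    ext k
    rw [hb.repr_apply_apply, h2, map_zero]
    rfl
  have h3 : ⟪f, (adjoint (axi η)) F⟫_ℂ = ⟪ten f η, F⟫_ℂ := by
    rw [adjoint_inner_right]; rfl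
  rw [← h3, h1, inner_zero_right]

lemma hasSum_hb (F : L2R H) : HasSum (fun k : hw => ten (hb k) (sl (hb k) F)) F := by
  have hV : IsHilbertSum ℂ (fun _ : hw => H) (fun k => Vk H k) := IsHilbertSum.mk Vk_ortho Vk_total
  set w := hV.linearIsometryEquiv F with hwdef
  have h1 := hV.hasSum_linearIsometryEquiv_symm w
  rw [hwdef, LinearIsometryEquiv.symm_apply_apply, ← hwdef] at h1
  have h2 : ∀ k : hw, sl (hb k) F = w k := by
    intro k
    refine ext_inner_left ℂ fun η => ?_
    rw [inner_sl]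
    have h3 := (innerSL ℂ (ten (hb k) η)).hasSum h1
    have h5 : ∀ i : hw, i ≠ k → (innerSL ℂ (ten (hb k) η)) (Vk H i (w i)) = 0 := by
      intro i hi
      change ⟪ten (hb k) η, ten (hb i) (w i)⟫_ℂ = 0
      rw [inner_ten, hb.orthonormal.2 (Ne.symm hi), zero_mul]
    have h6 := hasSum_single (f := fun i : hw => (innerSL ℂ (ten (hb k) η)) (Vk H i (w i))) k h5
    have h7 : (innerSL ℂ (ten (hb k) η)) (Vk H k (w k)) = ⟪η, w k⟫_ℂ := by
      change ⟪ten (hb k) η, ten (hb k) (w k)⟫_ℂ = ⟪η, w k⟫_ℂ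
      rw [inner_ten, inner_self_eq_norm_sq_to_K, hb.orthonormal.1 k]
      simp
    have h8 := h3.unique h6
    rw [h7] at h8
    exact h8
  have h8 : (fun k : hw => ten (hb k) (sl (hb k) F)) = fun i => Vk H i (w i) := by
    funext k
    rw [h2]
    rfl
  rw [h8]
  exact h1

end GKW

end Pool.Agent.Helper23

end

section

open scoped InnerProductSpace Topology ENNReal

open ContinuousLinearMap Filter MeasureTheory

namespace Pool.Agent.Helper23

variable {H : Type*} [NormedAddCommGroup H] [InnerProductSpace ℂ H] [CompleteSpace H]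

variable {G : Type*} [NormedAddCommGroup G] [InnerProductSpace ℂ G] [CompleteSpace G]

variable {M N : VonNeumannAlgebra H} {ξ : H} {E : (H →L[ℂ] H) → (H →L[ℂ] H)}

/-- the windows -/
def win (t : ℝ) (i : ℤ) : Set ℝ := Set.Ico ((i : ℝ) * t) (((i : ℝ) + 1) * t)

lemma win_meas (t : ℝ) (i : ℤ) : MeasurableSet (win t i) := measurableSet_Ico

lemma win_unique {t : ℝ} (ht : 0 < t) {i j : ℤ} {s : ℝ} (hi : s ∈ win t i) (hj : s ∈ win t j) :
    i = j := by
  have h1 : (i : ℝ) < j + 1 := by
    have := lt_of_le_of_lt hi.1 hj.2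
    exact lt_of_mul_lt_mul_right this ht.le
  have h2 : (j : ℝ) < i + 1 := by
    have := lt_of_le_of_lt hj.1 hi.2
    exact lt_of_mul_lt_mul_right this ht.le
  have h3 : i < j + 1 := by exact_mod_cast h1
  have h4 : j < i + 1 := by exact_mod_cast h2
  omega

lemma mem_win_floor {t : ℝ} (ht : 0 < t) (s : ℝ) : s ∈ win t ⌊s / t⌋ := by
  constructor
  · have := Int.floor_le (s / t)
    rwa [le_div_iff₀ ht] at this
  · have := Int.lt_floor_add_one (s / t)
    rwa [div_lt_iff₀ ht] at this

lemma floor_mem {t : ℝ} (ht : 0 < t) {m : ℕ} {s : ℝ} (h : s ∈ Set.Ico (-(m * t)) (m * t)) :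
    ⌊s / t⌋ ∈ Finset.Ico (-(m : ℤ)) m := by
  rw [Finset.mem_Ico]
  constructor
  · rw [Int.le_floor, le_div_iff₀ ht]
    push_cast
    linarith [h.1]
  · rw [Int.floor_lt, div_lt_iff₀ ht]
    push_cast
    exact h.2

lemma indw_of_mem {t : ℝ} {i : ℤ} {s : ℝ} (h : s ∈ win t i) : ind (win t i) s = 1 := ind_of_mem h

lemma ind_norm_le (I : Set ℝ) (s : ℝ) : ‖ind I s‖ ≤ 1 := by
  by_cases h : s ∈ I
  · rw [ind_of_mem h]; simp
  · rw [ind_of_notMem h]; simp

omit [CompleteSpace G] in
lemma sum_win {t : ℝ} (ht : 0 < t) {m : ℕ} {V : L2R G}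
    (hV : ∀ᵐ s, s ∉ Set.Ico (-(m * t)) (m * t) → V s = 0) :
    ∑ i ∈ Finset.Ico (-(m : ℤ)) m, mulOp G (ind (win t i)) V = V := by
  classical
  ext1
  have h2 : ∀ᵐ s, ∀ i : ℤ, (mulOp G (ind (win t i)) V) s = ind (win t i) s • V s :=
    ae_all_iff.2 fun i => mulOp_coe (ind_bm (win_meas t i)) V
  have h3 : (∑ i ∈ Finset.Ico (-(m : ℤ)) m, mulOp G (ind (win t i)) V : L2R G) =ᵐ[volume]
      fun s => ∑ i ∈ Finset.Ico (-(m : ℤ)) m, (mulOp G (ind (win t i)) V) s := by
    have := Lp.coeFn_finsetSum (Finset.Ico (-(m : ℤ)) m) (fun i => mulOp G (ind (win t i)) V)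
    filter_upwards [this] with s hs
    rw [hs, Finset.sum_apply]
  filter_upwards [h2, h3, hV] with s e2 e3 e4
  rw [e3]
  by_cases hs : s ∈ Set.Ico (-(m * t)) (m * t)
  · rw [Finset.sum_eq_single_of_mem ⌊s / t⌋ (floor_mem ht hs)]
    · rw [e2, indw_of_mem (mem_win_floor ht s), one_smul]
    · intro j _ hj
      rw [e2, ind_of_notMem, zero_smul]
      intro hcon
      exact hj (win_unique ht hcon (mem_win_floor ht s))
  · rw [e4 hs]
    refine Finset.sum_eq_zero fun i _ => ?_
    rw [e2, e4 hs, smul_zero]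

lemma sl_mulOp' {m : ℝ → ℂ} (hm : BM m) (f : L2R ℂ) (F : L2R H) :
    sl (mulOp ℂ m f) F = sl f (mulOp H (fun s => (starRingEnd ℂ) (m s)) F) := by
  refine ext_inner_left ℂ fun η => ?_
  rw [inner_sl, inner_sl, ← mulOp_ten hm]
  have h1 := mulOp_adj hm.conj (ten f η) F
  simp only [Complex.conj_conj] at h1
  exact h1

end Pool.Agent.Helper23

end

section

open scoped InnerProductSpace Topology ENNReal

open ContinuousLinearMap Filter MeasureTheory

namespace Pool.Agent.Helper23

variable {H : Type*} [NormedAddCommGroup H] [InnerProductSpace ℂ H] [CompleteSpace H]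

variable {M N : VonNeumannAlgebra H} {ξ : H} {E : (H →L[ℂ] H) → (H →L[ℂ] H)}

/-- the slices -/
noncomputable def sa (u : L2R H →L[ℂ] L2R H) (t : ℝ) (g : L2R ℂ) (l : ℤ × hw × ℤ) : H →L[ℂ] H :=
  slX u (mulOp ℂ (ind (win t l.1)) (hb l.2.1)) (mulOp ℂ (ind (win t l.2.2)) g)

end Pool.Agent.Helper23

end

section

open scoped InnerProductSpace Topology ENNReal

open ContinuousLinearMap Filter MeasureTheory

namespace Pool.Agent.Helper23

variable {H : Type*} [NormedAddCommGroup H] [InnerProductSpace ℂ H] [CompleteSpace H]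

variable {M N : VonNeumannAlgebra H} {ξ : H} {E : (H →L[ℂ] H) → (H →L[ℂ] H)}

/-- the block diagonal operator -/
noncomputable def blk (t : ℝ) (A : Finset ℤ) (z : ℤ → H →L[ℂ] H) : L2R H →L[ℂ] L2R H :=
  ∑ i ∈ A, mulOp H (ind (win t i)) * lift (z i)

lemma blk_win {t : ℝ} (ht : 0 < t) {A : Finset ℤ} {z : ℤ → H →L[ℂ] H} {i : ℤ} (hi : i ∈ A)
    (F : L2R H) : mulOp H (ind (win t i)) (blk t A z F) =
      mulOp H (ind (win t i)) (lift (z i) F) := by
  rw [blk, sum_apply, map_sum, Finset.sum_eq_single_of_mem i hi]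
  · change mulOp H (ind (win t i)) (mulOp H (ind (win t i)) (lift (z i) F)) = _
    rw [mulOp_mulOp (ind_bm (win_meas t i)) (ind_bm (win_meas t i)), ind_sq]
  · intro j _ hj
    exact congrArg (fun T : L2R H →L[ℂ] L2R H => T (lift (z j) F))
      (mulOp_ind_mul (H := H) (win_meas t i) (win_meas t j)
        (fun s h1 h2 => hj (win_unique ht h2 h1)))

lemma blk_ten {t : ℝ} (A : Finset ℤ) (z : ℤ → H →L[ℂ] H) (g : L2R ℂ) (η : H) :
    blk t A z (ten g η) = ∑ j ∈ A, ten (mulOp ℂ (ind (win t j)) g) (z j η) := by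
  rw [blk, sum_apply]
  refine Finset.sum_congr rfl fun j _ => ?_
  change mulOp H (ind (win t j)) (lift (z j) (ten g η)) = _
  rw [lift_ten, mulOp_ten (ind_bm (win_meas t j))]

end Pool.Agent.Helper23

end

end

section

section

open scoped InnerProductSpace Topology ENNReal

open ContinuousLinearMap Filter MeasureTheory

set_option linter.unusedSectionVars false

set_option linter.unusedVariables false

namespace Pool.Agent.Helper23

variable {H : Type*} [NormedAddCommGroup H] [InnerProductSpace ℂ H] [CompleteSpace H]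

variable {A : VonNeumannAlgebra H}

/-- rank one type operators -/
noncomputable def rk (b : H →L[ℂ] H) (f g : L2R ℂ) : L2R H →L[ℂ] L2R H :=
  (iot H f).comp (b.comp (sl g))

end Pool.Agent.Helper23

end

section

open scoped InnerProductSpace Topology ENNReal

open ContinuousLinearMap Filter MeasureTheory

set_option linter.unusedSectionVars false

set_option linter.unusedVariables false

namespace Pool.Agent.Helper23

lemma dm_of_mem {m : ℤ} {s : ℝ} (h : s ∈ Set.Ico (m : ℝ) (m + 1)) :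
    dm m s = ((Real.exp (s / 2) : ℝ) : ℂ) := Set.indicator_of_mem h _

end Pool.Agent.Helper23

end

section

open scoped InnerProductSpace Topology ENNReal

open ContinuousLinearMap Filter MeasureTheory

set_option linter.unusedSectionVars false

set_option linter.unusedVariables false

namespace Pool.Agent.Helper23

variable {H : Type*} [NormedAddCommGroup H] [InnerProductSpace ℂ H] [CompleteSpace H]

variable {M N : VonNeumannAlgebra H} {ξ : H} {E : (H →L[ℂ] H) → (H →L[ℂ] H)}

namespace GKW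

/-- the finite rank projections -/
noncomputable def qs (t : Finset hw) : L2R ℂ →L[ℂ] L2R ℂ :=
  ∑ k ∈ t, (toSpanSingleton ℂ (hb k)).comp (innerSL ℂ (hb k))

end GKW

end Pool.Agent.Helper23

end

end

section

section

open scoped InnerProductSpace Topology ENNReal

open ContinuousLinearMap Filter MeasureTheory

set_option linter.unusedSectionVars false

set_option linter.unusedVariables false

namespace Pool.Agent.Helper23

variable {G : Type*} [NormedAddCommGroup G] [InnerProductSpace ℂ G] [CompleteSpace G]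

variable {G' : Type*} [NormedAddCommGroup G'] [InnerProductSpace ℂ G'] [CompleteSpace G']

variable {G'' : Type*} [NormedAddCommGroup G''] [InnerProductSpace ℂ G''] [CompleteSpace G'']

omit [CompleteSpace G] [CompleteSpace G'] in
lemma Dec.add {T T' : ℝ → G →L[ℂ] G'} (h : Dec T) (h' : Dec T') :
    Dec (fun s => T s + T' s) := by
  obtain ⟨C, hC0, hC⟩ := h.bdd
  obtain ⟨C', hC'0, hC'⟩ := h'.bdd
  exact ⟨fun F hF => (h.meas F hF).add (h'.meas F hF), C + C', by positivity, fun s =>
    (norm_add_le _ _).trans (add_le_add (hC s) (hC' s))⟩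

omit [CompleteSpace G] [CompleteSpace G'] in
lemma dec_add {T T' : ℝ → G →L[ℂ] G'} (h : Dec T) (h' : Dec T') :
    dec (fun s => T s + T' s) = dec T + dec T' := by
  ext F : 1
  ext1
  rw [add_apply]
  filter_upwards [dec_coe (h.add h') F, dec_coe h F, dec_coe h' F,
    Lp.coeFn_add (dec T F) (dec T' F)] with s h1 h2 h3 h4
  rw [h1, h4, Pi.add_apply, h2, h3]
  rfl

omit [CompleteSpace G] [CompleteSpace G'] in
lemma dec_smul {T : ℝ → G →L[ℂ] G'} (c : ℂ) (h : Dec T) :
    dec (fun s => c • T s) = c • dec T := by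
  ext F : 1
  ext1
  rw [smul_apply]
  filter_upwards [dec_coe (h.smul c) F, dec_coe h F, Lp.coeFn_smul c (dec T F)] with s h1 h2 h3
  rw [h1, h3, Pi.smul_apply, h2]
  rfl

/-- strongly continuous bounded fields -/
lemma Dec.of_cont {T : ℝ → G →L[ℂ] G'} {C : ℝ} (hC0 : 0 ≤ C) (hC : ∀ s, ‖T s‖ ≤ C)
    (hT : ∀ v, Continuous fun s => T s v) : Dec T := by
  refine ⟨fun F hF => ?_, C, hC0, hC⟩
  have h1 : Continuous (fun p : ℝ × G => T p.1 p.2) := by
    refine continuous_prod_of_continuous_lipschitzWith' (fun p : ℝ × G => T p.1 p.2) C.toNNReal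
      ?_ hT
    intro s
    refine LipschitzWith.of_dist_le_mul fun x y => ?_
    rw [dist_eq_norm, dist_eq_norm, ← map_sub, Real.coe_toNNReal _ hC0]
    exact (T s).le_of_opNorm_le (hC s) _
  exact h1.comp_aestronglyMeasurable
    ((continuous_id.aestronglyMeasurable (μ := volume)).prodMk hF)

omit [CompleteSpace G] in
lemma tr_coe (t : ℝ) (F : L2R G) : tr G t F =ᵐ[volume] fun s => F (s - t) :=
  Lp.coeFn_compMeasurePreserving F (mp_sub t)

/-- almost everywhere statements are translation invariant -/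
lemma ae_tr {p : ℝ → Prop} (t : ℝ) (h : ∀ᵐ s : ℝ, p s) : ∀ᵐ s : ℝ, p (s - t) :=
  (mp_sub t).quasiMeasurePreserving.ae h

end Pool.Agent.Helper23

end

section

open scoped InnerProductSpace Topology ENNReal

open ContinuousLinearMap Filter MeasureTheory

set_option linter.unusedSectionVars false

set_option linter.unusedVariables false

namespace Pool.Agent.Helper23

variable {H : Type*} [NormedAddCommGroup H] [InnerProductSpace ℂ H] [CompleteSpace H]

lemma mem_amp {A : VonNeumannAlgebra H} {X : L2R H →L[ℂ] L2R H} :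
    X ∈ amp A ↔ ∀ a ∈ A.commutant, lift a * X = X * lift a := by
  have h1 : X ∈ amp A ↔ X ∈ StarSubalgebra.centralizer ℂ
    (lift '' (A.commutant : Set (H →L[ℂ] H))) := Iff.rfl
  rw [h1, StarSubalgebra.mem_centralizer_iff]
  constructor
  · intro h a ha
    exact (h _ ⟨a, ha, rfl⟩).1
  · rintro h _ ⟨a, ha, rfl⟩
    exact ⟨h a ha, by rw [← lift_star]; exact h _ (star_mem ha)⟩

end Pool.Agent.Helper23

end

section

open scoped InnerProductSpace Topology BoundedContinuousFunction FourierTransform SchwartzMap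

open ContinuousLinearMap Filter MeasureTheory

set_option linter.unusedSectionVars false

namespace Pool.Agent.Helper23

variable {G : Type*} [NormedAddCommGroup G] [InnerProductSpace ℂ G] [CompleteSpace G]

variable {G' : Type*} [NormedAddCommGroup G'] [InnerProductSpace ℂ G'] [CompleteSpace G']

variable {H : Type*} [NormedAddCommGroup H] [InnerProductSpace ℂ H] [CompleteSpace H]

lemma tr_toLp (t : ℝ) (f : 𝓢(ℝ, G)) : tr G t (f.toLp 2) = (trS t f).toLp 2 := by
  have h0 : ∀ᵐ s : ℝ, f.toLp 2 (volume : Measure ℝ) (s - t) = f (s - t) :=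
    ae_tr (p := fun s => f.toLp 2 (volume : Measure ℝ) s = f s) t
      (f.coeFn_toLp 2 (volume : Measure ℝ))
  ext1
  filter_upwards [tr_coe t (f.toLp 2), h0, (trS t f).coeFn_toLp 2] with s h1 h2 h3
  rw [h1, h2, h3, trS_apply]

end Pool.Agent.Helper23

end

section

open scoped InnerProductSpace Topology BoundedContinuousFunction FourierTransform ENNReal

open ContinuousLinearMap Filter MeasureTheory

set_option linter.unusedSectionVars false

namespace Pool.Agent.Helper23

variable {H : Type*} [NormedAddCommGroup H] [InnerProductSpace ℂ H] [CompleteSpace H]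

/-- conjugation of a decomposable operator by the Fourier transform -/
noncomputable def fco (T : ℝ → H →L[ℂ] H) : L2R H →L[ℂ] L2R H :=
  ((Fo H).symm : L2R H →L[ℂ] L2R H).comp ((dec T).comp (Fo H : L2R H →L[ℂ] L2R H))

lemma fco_apply (T : ℝ → H →L[ℂ] H) (F : L2R H) : fco T F = (Fo H).symm (dec T (Fo H F)) := rfl

end Pool.Agent.Helper23

end

end
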