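import Pool.Agent.Helper23.FA.Defs
import Pool.Agent.Helper23.FB.Inst

/-!
Parts of Helper23.FA.L00_12, Helper23.FA.L00_17, Helper23.FA.L00_18, Helper23.FA.L00_19, Helper23.FA.L00_03, Helper23.FA.L01_16, Helper23.FA.L01_19, Helper23.FA.L01_05
-/

attribute [local instance 5000]
  Pool.Agent.Helper23.FB.Inst.rCharZero Pool.Agent.Helper23.FB.Inst.rALM
  Pool.Agent.Helper23.FB.Inst.rARM Pool.Agent.Helper23.FB.Inst.rALSM
  Pool.Agent.Helper23.FB.Inst.rARSM Pool.Agent.Helper23.FB.Inst.rARRLE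
  Pool.Agent.Helper23.FB.Inst.rALRLE Pool.Agent.Helper23.FB.Inst.rARRLT
  Pool.Agent.Helper23.FB.Inst.rALRLT Pool.Agent.Helper23.FB.Inst.rPMRLT
  Pool.Agent.Helper23.FB.Inst.rMPRLT Pool.Agent.Helper23.FB.Inst.rPMM
  Pool.Agent.Helper23.FB.Inst.rMPM Pool.Agent.Helper23.FB.Inst.rPMSM
  Pool.Agent.Helper23.FB.Inst.rMPSM Pool.Agent.Helper23.FB.Inst.rEAOL
  Pool.Agent.Helper23.FB.Inst.rIOR Pool.Agent.Helper23.FB.Inst.rISOR
  Pool.Agent.Helper23.FB.Inst.rFS Pool.Agent.Helper23.FB.Inst.rcCharZero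
  Pool.Agent.Helper23.FB.Inst.rNZD Pool.Agent.Helper23.FB.Inst.rcNZD
  Pool.Agent.Helper23.FB.Inst.bSemiring Pool.Agent.Helper23.FB.Inst.bStar
  Pool.Agent.Helper23.FB.Inst.bAlg Pool.Agent.Helper23.FB.Inst.bSub
  Pool.Agent.Helper23.FB.Inst.bMul Pool.Agent.Helper23.FB.Inst.bAdd
  Pool.Agent.Helper23.FB.Inst.iRing Pool.Agent.Helper23.FB.Inst.iSemiring
  Pool.Agent.Helper23.FB.Inst.iAlgC Pool.Agent.Helper23.FB.Inst.iSMulC
  Pool.Agent.Helper23.FB.Inst.iModC Pool.Agent.Helper23.FB.Inst.iAlgR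
  Pool.Agent.Helper23.FB.Inst.iSMulR Pool.Agent.Helper23.FB.Inst.iModR
  Pool.Agent.Helper23.FB.Inst.iMonoid Pool.Agent.Helper23.FB.Inst.iSemigroup
  Pool.Agent.Helper23.FB.Inst.iMulOneClass Pool.Agent.Helper23.FB.Inst.iMul
  Pool.Agent.Helper23.FB.Inst.iAdd Pool.Agent.Helper23.FB.Inst.iSub
  Pool.Agent.Helper23.FB.Inst.iNeg Pool.Agent.Helper23.FB.Inst.iAddCommMonoid
  Pool.Agent.Helper23.FB.Inst.iAddCommGroup Pool.Agent.Helper23.FB.Inst.iAddGroup
  Pool.Agent.Helper23.FB.Inst.iAddMonoid Pool.Agent.Helper23.FB.Inst.iSMulZeroC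
  Pool.Agent.Helper23.FB.Inst.iMulActC Pool.Agent.Helper23.FB.Inst.iDSMulC
  Pool.Agent.Helper23.FB.Inst.iDSMulR Pool.Agent.Helper23.FB.Inst.iSNAG
  Pool.Agent.Helper23.FB.Inst.iSNACG Pool.Agent.Helper23.FB.Inst.iNorm
  Pool.Agent.Helper23.FB.Inst.iNSC' Pool.Agent.Helper23.FB.Inst.iNSR'
  Pool.Agent.Helper23.FB.Inst.iTop Pool.Agent.Helper23.FB.Inst.iT2 Pool.Agent.Helper23.FB.Inst.iTR
  Pool.Agent.Helper23.FB.Inst.iSCC Pool.Agent.Helper23.FB.Inst.iIST
  Pool.Agent.Helper23.FB.Inst.iSCCR Pool.Agent.Helper23.FB.Inst.iISTR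
  Pool.Agent.Helper23.FB.Inst.iZHC Pool.Agent.Helper23.FB.Inst.iAHC
  Pool.Agent.Helper23.FB.Inst.iAMHC Pool.Agent.Helper23.FB.Inst.iMAHC
  Pool.Agent.Helper23.FB.Inst.lTop Pool.Agent.Helper23.FB.Inst.lUnif
  Pool.Agent.Helper23.FB.Inst.lACM Pool.Agent.Helper23.FB.Inst.lACG
  Pool.Agent.Helper23.FB.Inst.lSNAG Pool.Agent.Helper23.FB.Inst.lSNACG
  Pool.Agent.Helper23.FB.Inst.lNACG Pool.Agent.Helper23.FB.Inst.lNorm
  Pool.Agent.Helper23.FB.Inst.lIPS Pool.Agent.Helper23.FB.Inst.lMod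
  Pool.Agent.Helper23.FB.Inst.lSMul Pool.Agent.Helper23.FB.Inst.lT2
  Pool.Agent.Helper23.FB.Inst.iStar Pool.Agent.Helper23.FB.Inst.iStarMul
  Pool.Agent.Helper23.FB.Inst.iStarAddMonoid Pool.Agent.Helper23.FB.Inst.iStarRing
  Pool.Agent.Helper23.FB.Inst.iNSC Pool.Agent.Helper23.FB.Inst.iSOR
  Pool.Agent.Helper23.FB.Inst.iALM Pool.Agent.Helper23.FB.Inst.iARM
  Pool.Agent.Helper23.FB.Inst.iCFC Pool.Agent.Helper23.FB.Inst.iNCFC
  Pool.Agent.Helper23.FB.Inst.iStarModR Pool.Agent.Helper23.FB.Inst.iStarModC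
  Pool.Agent.Helper23.FB.Inst.eStar Pool.Agent.Helper23.FB.Inst.eAdd
  Pool.Agent.Helper23.FB.Inst.eMul Pool.Agent.Helper23.FB.Inst.eOne
  Pool.Agent.Helper23.FB.Inst.eZero Pool.Agent.Helper23.FB.Inst.eMulAction
  Pool.Agent.Helper23.FB.Inst.eAMHC2 Pool.Agent.Helper23.FB.Inst.eZHC2
  Pool.Agent.Helper23.FB.Inst.lAMHC

namespace Pool.Agent.Helper23
end Pool.Agent.Helper23
namespace Pool.Agent.Helper78.BC
end Pool.Agent.Helper78.BC
namespace Pool.Agent.Helper78.BC.Transport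
end Pool.Agent.Helper78.BC.Transport

section

section

open scoped InnerProductSpace Topology BoundedContinuousFunction FourierTransform ENNReal

open ContinuousLinearMap Filter MeasureTheory

set_option linter.unusedSectionVars false

namespace Pool.Agent.Helper23

variable {H : Type*} [NormedAddCommGroup H] [InnerProductSpace ℂ H] [CompleteSpace H]

/-- the multiplier `(2 - FR)⁻²` cut off at `-2m` -/
noncomputable def GB (m : ℕ) : ℝ →ᵇ ℂ :=
  BoundedContinuousFunction.ofNormedAddCommGroup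
    (fun ρ : ℝ => ((((1 + Real.exp (-(max ρ (-(2 * m))))) / 2) ^ 2 : ℝ) : ℂ)) (by fun_prop)
    (((1 + Real.exp (2 * m)) / 2) ^ 2) (by
      intro ρ
      rw [Complex.norm_real, Real.norm_of_nonneg (by positivity)]
      gcongr
      have := le_max_right ρ (-(2 * (m : ℝ)))
      linarith)

lemma GB_apply {m : ℕ} {ρ : ℝ} (h : -(2 * (m : ℝ)) ≤ ρ) :
    GB m ρ = ((((1 + Real.exp (-ρ)) / 2) ^ 2 : ℝ) : ℂ) := by
  change ((((1 + Real.exp (-(max ρ (-(2 * m))))) / 2) ^ 2 : ℝ) : ℂ) = _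
  rw [max_eq_left h]

end Pool.Agent.Helper23

end

section

open scoped InnerProductSpace Topology ENNReal BoundedContinuousFunction

open ContinuousLinearMap Filter MeasureTheory

namespace Pool.Agent.Helper23

universe u

variable {H : Type u} [NormedAddCommGroup H] [InnerProductSpace ℂ H] [CompleteSpace H]

namespace Sum

/-- the quadratic form `q(G) = re ⟨v, Ψ(G) v⟩` -/
noncomputable def q (Ψ : (ℝ →ᵇ ℂ) →⋆ₐ[ℂ] (H →L[ℂ] H)) (v : H) (G : ℝ →ᵇ ℂ) : ℝ :=
  (⟪v, Ψ G v⟫_ℂ).re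

variable (Ψ : (ℝ →ᵇ ℂ) →⋆ₐ[ℂ] (H →L[ℂ] H)) (v : H)

lemma q_star_mul (S : ℝ →ᵇ ℂ) : q Ψ v (star S * S) = ‖Ψ S v‖ ^ 2 := by
  unfold q
  rw [map_mul, map_star]
  change (⟪v, (star (Ψ S)) (Ψ S v)⟫_ℂ).re = _
  rw [star_eq_adjoint, adjoint_inner_right, inner_self_eq_norm_sq_to_K]
  norm_cast

lemma q_add (F G : ℝ →ᵇ ℂ) : q Ψ v (F + G) = q Ψ v F + q Ψ v G := by
  unfold q
  rw [map_add]
  change (⟪v, Ψ F v + Ψ G v⟫_ℂ).re = _
  rw [inner_add_right, Complex.add_re]

lemma q_sum {ι : Type*} (s : Finset ι) (G : ι → ℝ →ᵇ ℂ) :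
    q Ψ v (∑ j ∈ s, G j) = ∑ j ∈ s, q Ψ v (G j) := by
  classical
  induction s using Finset.induction_on with
  | empty => simp [q]
  | insert a s ha ih => rw [Finset.sum_insert ha, Finset.sum_insert ha, q_add, ih]

end Sum

end Pool.Agent.Helper23

end

section

open scoped InnerProductSpace Topology BoundedContinuousFunction

open ContinuousLinearMap Filter

namespace Pool.Agent.Helper78.BC

variable {H : Type*} [NormedAddCommGroup H] [InnerProductSpace ℂ H] [CompleteSpace H]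

namespace PsiZero

/-- the clamp function -/
noncomputable def cl (t : ℝ) : ℝ := max 0 (min 1 t)

lemma cl_cont : Continuous cl := by unfold cl; fun_prop

lemma cl_zero {t : ℝ} (h : t ≤ 0) : cl t = 0 := by
  unfold cl
  rw [max_eq_left ((min_le_right _ _).trans h)]

lemma cl_one {t : ℝ} (h : 1 ≤ t) : cl t = 1 := by
  unfold cl
  rw [min_eq_left h, max_eq_right zero_le_one]

lemma cl_mono {s t : ℝ} (h : s ≤ t) : cl s ≤ cl t :=
  max_le_max le_rfl (min_le_min le_rfl h)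

lemma cl_nonneg (t : ℝ) : 0 ≤ cl t := le_max_left _ _

lemma cl_le (t : ℝ) : cl t ≤ 1 := max_le zero_le_one (min_le_left _ _)

/-- the tent function -/
noncomputable def tn (a w : ℝ) (k : ℕ) (ρ : ℝ) : ℝ :=
  cl ((ρ - a) / w - k + 1) - cl ((ρ - a) / w - k)

lemma tn_nonneg (a w : ℝ) (k : ℕ) (ρ : ℝ) : 0 ≤ tn a w k ρ :=
  sub_nonneg.2 (cl_mono (by (clear * -; linarith)))

lemma tn_le (a w : ℝ) (k : ℕ) (ρ : ℝ) : tn a w k ρ ≤ 1 := by
  unfold tn
  linarith [cl_le ((ρ - a) / w - k + 1), cl_nonneg ((ρ - a) / w - k)]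

lemma tn_zero {a w : ℝ} (hw : 0 < w) {k : ℕ} {ρ : ℝ} (h : w < |ρ - (a + k * w)|) :
    tn a w k ρ = 0 := by
  unfold tn
  have e : (ρ - a) / w - k = (ρ - (a + k * w)) / w := by field_simp; ring
  rw [e]
  rcases lt_abs.1 h with h1 | h1
  · have h2 : 1 < (ρ - (a + k * w)) / w := (one_lt_div hw).2 h1
    rw [cl_one (by (clear * - h2; linarith)), cl_one h2.le, sub_self]
  · have h2 : (ρ - (a + k * w)) / w < -1 := by
      rw [div_lt_iff₀ hw]; (clear * - h1; linarith)
    rw [cl_zero (by (clear * - h2; linarith)), cl_zero (by (clear * - h2; linarith)), sub_self]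

lemma tn_sum {a w : ℝ} (hw : 0 < w) (m : ℕ) {ρ : ℝ} (h1 : a ≤ ρ) (h2 : ρ ≤ a + m * w) :
    ∑ k ∈ Finset.range (m + 1), tn a w k ρ = 1 := by
  have h := Finset.sum_range_sub' (fun k : ℕ => cl ((ρ - a) / w - k + 1)) (m + 1)
  have e : ∀ k : ℕ, cl ((ρ - a) / w - k + 1) - cl ((ρ - a) / w - ((k + 1 : ℕ) : ℝ) + 1) =
      tn a w k ρ := by
    intro k
    unfold tn
    congr 2
    push_cast
    ring
  simp only [e] at h
  rw [h, cl_one, cl_zero, sub_zero]
  · have : (ρ - a) / w ≤ m := by rw [div_le_iff₀ hw]; (clear * - h2; linarith)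
    push_cast
    (clear * - this; linarith)
  · have : 0 ≤ (ρ - a) / w := div_nonneg (by (clear * - h1; linarith)) hw.le
    push_cast
    (clear * - this; linarith)

lemma tn_cont (a w : ℝ) (k : ℕ) : Continuous (tn a w k) := by
  have h1 : Continuous fun ρ : ℝ => (ρ - a) / w - k + 1 := by fun_prop
  have h2 : Continuous fun ρ : ℝ => (ρ - a) / w - k := by fun_prop
  exact (cl_cont.comp h1).sub (cl_cont.comp h2)

/-- the square root of the tent -/
noncomputable def fB (a w : ℝ) (k : ℕ) : ℝ →ᵇ ℂ :=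
  BoundedContinuousFunction.ofNormedAddCommGroup
    (fun ρ : ℝ => ((Real.sqrt (tn a w k ρ) : ℝ) : ℂ))
    (Complex.continuous_ofReal.comp (Real.continuous_sqrt.comp (tn_cont a w k))) 1 (by
      intro ρ
      rw [Complex.norm_real, Real.norm_of_nonneg (Real.sqrt_nonneg _)]
      exact Real.sqrt_le_one.2 (tn_le _ _ _ _))

lemma fB_apply (a w : ℝ) (k : ℕ) (ρ : ℝ) : fB a w k ρ = ((Real.sqrt (tn a w k ρ) : ℝ) : ℂ) := rfl

/-- the exponential on the support of the window, truncated -/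
noncomputable def eB (q : ℝ) (hq : 0 ≤ q) : ℝ →ᵇ ℂ :=
  BoundedContinuousFunction.ofNormedAddCommGroup
    (fun ρ : ℝ => ((min q (Real.exp (-ρ / 2)) : ℝ) : ℂ)) (by fun_prop) q (by
      intro ρ
      rw [Complex.norm_real, Real.norm_of_nonneg (le_min hq (Real.exp_pos _).le)]
      exact min_le_left _ _)

lemma eB_apply (q : ℝ) (hq : 0 ≤ q) (ρ : ℝ) :
    eB q hq ρ = ((min q (Real.exp (-ρ / 2)) : ℝ) : ℂ) := rfl

lemma eB_norm (q : ℝ) (hq : 0 ≤ q) : ‖eB q hq‖ ≤ q :=
  BoundedContinuousFunction.norm_ofNormedAddCommGroup_le _ hq _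

lemma psi_le (Ψ : (ℝ →ᵇ ℂ) →⋆ₐ[ℂ] (H →L[ℂ] H)) (G : ℝ →ᵇ ℂ) (v : H) :
    ‖Ψ G v‖ ≤ ‖G‖ * ‖v‖ :=
  ((Ψ G).le_opNorm v).trans (mul_le_mul_of_nonneg_right
    (NonUnitalStarAlgHom.norm_apply_le Ψ G) (norm_nonneg _))

lemma exp_lip {x y : ℝ} (hx : 0 ≤ x) (hy : 0 ≤ y) :
    |Real.exp (-x / 2) - Real.exp (-y / 2)| ≤ |x - y| / 2 := by
  wlog h : x ≤ y generalizing x y
  · rw [abs_sub_comm, abs_sub_comm x y]
    exact this hy hx (le_of_not_ge h)
  have h1 : Real.exp (-y / 2) ≤ Real.exp (-x / 2) := Real.exp_le_exp.2 (by linarith)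
  rw [abs_of_nonneg (sub_nonneg.2 h1), abs_of_nonpos (by (clear * - h; linarith))]
  have h2 : Real.exp (-y / 2) = Real.exp (-x / 2) * Real.exp (-(y - x) / 2) := by
    rw [← Real.exp_add]; congr 1; ring
  have h3 := Real.add_one_le_exp (-(y - x) / 2)
  have h4 : Real.exp (-x / 2) ≤ 1 := Real.exp_le_one_iff.2 (by (clear * - hx; linarith))
  have h5 := Real.exp_pos (-x / 2)
  rw [h2]
  (clear * - h h4 h3 h5; nlinarith)

/-- one window -/
lemma window {Ψ : (ℝ →ᵇ ℂ) →⋆ₐ[ℂ] (H →L[ℂ] H)} {C : ℝ} (hC : 0 ≤ C) {ζ : H} {z : ℝ → H}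
    (h1 : z 1 = ζ) (hn : ∀ l : ℝ, 0 < l → l ≤ 1 → ‖z l‖ ≤ ‖ζ‖)
    (hp : ∀ l m : ℝ, 0 < l → l ≤ 1 → 0 < m → m ≤ 1 → ∀ G G' : ℝ →ᵇ ℂ, HasCompactSupport G →
      (∀ ρ, (G ρ).im = 0) → (∀ ρ, G' ρ = ((Real.exp (ρ / 2) : ℝ) : ℂ) * G ρ) → ∀ s : ℝ,
      (∀ ρ, ‖G ρ‖ * |Real.sqrt l * Real.exp (ρ / 2) - Real.sqrt m| ≤ s) →
      ‖Ψ G (z l) - Ψ G' (z m)‖ ≤ C * s)
    {c κ w : ℝ} (hc : 0 < c) (hκ : 2 * c ≤ κ) (hw : 0 < w) (hwc : w ≤ c) {F : ℝ →ᵇ ℂ}
    {f : ℝ → ℝ} (hF : ∀ ρ, F ρ = f ρ) (hf0 : ∀ ρ, 0 ≤ f ρ) (hf1 : ∀ ρ, f ρ ≤ 1)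
    (hfw : ∀ ρ, w < |ρ - κ| → f ρ = 0) :
    ‖Ψ F ζ‖ ≤ C * w / (2 * (1 - Real.exp (-c / 2))) := by
  set q := Real.exp (-c / 2) with hq
  have hq0 : 0 < q := Real.exp_pos _
  have hq1 : q < 1 := by rw [hq, Real.exp_lt_one_iff]; (clear * - hc; linarith)
  set u : ℕ → ℝ := fun n => ‖Ψ F (z (Real.exp (-(n * κ))))‖ with hu
  have hκ0 : 0 < κ := by (clear * - hc hκ; linarith)
  have hl : ∀ n : ℕ, 0 < Real.exp (-(n * κ)) ∧ Real.exp (-(n * κ)) ≤ 1 := fun n =>
    ⟨Real.exp_pos _, Real.exp_le_one_iff.2 (by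
      have : (0 : ℝ) ≤ n := Nat.cast_nonneg n
      (clear * - hc hκ; nlinarith))⟩
  have hsupp : ∀ ρ, f ρ ≠ 0 → κ - w ≤ ρ ∧ ρ ≤ κ + w := by
    intro ρ h
    have h2 : |ρ - κ| ≤ w := by
      by_contra hcon
      exact h (hfw ρ (not_le.1 hcon))
    rw [abs_le] at h2
    exact ⟨by (clear * - h2; linarith [h2.1]), by linarith [h2.2]⟩
  have hsqrt : ∀ n : ℕ, Real.sqrt (Real.exp (-(n * κ))) = Real.exp (-(n * κ) / 2) := by
    intro n
    rw [← Real.exp_half]
  have hmulF : ∀ ρ, (eB q hq0.le * F) ρ = ((Real.exp (-ρ / 2) * f ρ : ℝ) : ℂ) := by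
    intro ρ
    rw [BoundedContinuousFunction.mul_apply, eB_apply, hF]
    by_cases h : f ρ = 0
    · rw [h]; simp
    · have h2 := (hsupp ρ h).1
      have h3 : Real.exp (-ρ / 2) ≤ q := Real.exp_le_exp.2 (by (clear * - hκ hwc h2; linarith))
      rw [min_eq_right h3]
      push_cast
      rfl
  have hrec : ∀ n : ℕ, u n ≤ q * u (n + 1) + C * w / 2 := by
    intro n
    have h2 := hp (Real.exp (-((n + 1 : ℕ) * κ))) (Real.exp (-(n * κ))) (hl _).1 (hl _).2
      (hl _).1 (hl _).2 (eB q hq0.le * F) F (by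
        refine HasCompactSupport.of_support_subset_isCompact (isCompact_Icc (a := κ - w)
          (b := κ + w)) fun ρ hρ => ?_
        rw [Function.mem_support, hmulF] at hρ
        refine hsupp ρ fun h0 => hρ ?_
        rw [h0, mul_zero, Complex.ofReal_zero]) (fun ρ => by
        rw [hmulF, Complex.ofReal_im]) (fun ρ => by
        rw [hmulF, hF, ← Complex.ofReal_mul, ← mul_assoc, ← Real.exp_add]
        have : ρ / 2 + -ρ / 2 = 0 := by ring
        rw [this, Real.exp_zero, one_mul]) (w / 2) (by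
        intro ρ
        rw [hmulF, Complex.norm_real, Real.norm_of_nonneg
          (mul_nonneg (Real.exp_pos _).le (hf0 ρ)), hsqrt, hsqrt]
        by_cases h : f ρ = 0
        · rw [h, mul_zero, zero_mul]; (clear * - hw; positivity)
        · have h2 := hsupp ρ h
          have e1 : Real.exp (-((n + 1 : ℕ) * κ) / 2) * Real.exp (ρ / 2) -
              Real.exp (-(n * κ) / 2) =
              Real.exp (-(n * κ) / 2) * Real.exp (ρ / 2) *
                (Real.exp (-κ / 2) - Real.exp (-ρ / 2)) := by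
            rw [mul_sub, ← Real.exp_add, ← Real.exp_add, ← Real.exp_add, ← Real.exp_add]
            congr 1
            · congr 1; push_cast; ring
            · congr 1; ring
          rw [e1, abs_mul, abs_mul, abs_of_pos (Real.exp_pos _), abs_of_pos (Real.exp_pos _)]
          have h3 := exp_lip (x := κ) (y := ρ) hκ0.le (by (clear * - hc hκ hwc h2; linarith))
          have h4 : |κ - ρ| ≤ w := abs_le.2 ⟨by (clear * - h2; linarith), by (clear * - h2; linarith)⟩
          have h5 : Real.exp (-(n * κ) / 2) ≤ 1 := Real.exp_le_one_iff.2 (by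
            have : (0 : ℝ) ≤ n := Nat.cast_nonneg n
            nlinarith)
          have e2 : Real.exp (-ρ / 2) * f ρ * (Real.exp (-(n * κ) / 2) * Real.exp (ρ / 2) *
              |Real.exp (-κ / 2) - Real.exp (-ρ / 2)|) =
              (Real.exp (-ρ / 2) * Real.exp (ρ / 2)) * (f ρ * Real.exp (-(n * κ) / 2)) *
                |Real.exp (-κ / 2) - Real.exp (-ρ / 2)| := by ring
          have e3 : Real.exp (-ρ / 2) * Real.exp (ρ / 2) = 1 := by
            rw [← Real.exp_add]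
            have : -ρ / 2 + ρ / 2 = 0 := by ring
            rw [this, Real.exp_zero]
          rw [e2, e3, one_mul]
          have h6 : f ρ * Real.exp (-(n * κ) / 2) ≤ 1 := by
            have := mul_le_mul (hf1 ρ) h5 (Real.exp_pos _).le zero_le_one
            (clear * - this; linarith)
          calc f ρ * Real.exp (-(n * κ) / 2) * |Real.exp (-κ / 2) - Real.exp (-ρ / 2)| ≤
                1 * |Real.exp (-κ / 2) - Real.exp (-ρ / 2)| :=
                mul_le_mul_of_nonneg_right h6 (abs_nonneg _)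
            _ ≤ w / 2 := by (clear * - h3 h4; linarith))
    have h3 : ‖Ψ (eB q hq0.le * F) (z (Real.exp (-((n + 1 : ℕ) * κ))))‖ ≤ q * u (n + 1) := by
      rw [map_mul]
      change ‖Ψ (eB q hq0.le) (Ψ F (z (Real.exp (-((n + 1 : ℕ) * κ)))))‖ ≤ _
      exact (psi_le Ψ _ _).trans (mul_le_mul_of_nonneg_right (eB_norm q hq0.le) (norm_nonneg _))
    have h4 : u n ≤ ‖Ψ (eB q hq0.le * F) (z (Real.exp (-((n + 1 : ℕ) * κ))))‖ +
        ‖Ψ (eB q hq0.le * F) (z (Real.exp (-((n + 1 : ℕ) * κ)))) -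
          Ψ F (z (Real.exp (-(n * κ))))‖ := norm_le_norm_add_norm_sub _ _
    (clear * - h2 h3 h4; linarith)
  have hall : ∀ n : ℕ, u 0 ≤ q ^ n * u n + C * w / 2 * ((1 - q ^ n) / (1 - q)) := by
    intro n
    induction n with
    | zero => simp
    | succ n ih =>
      have h2 := mul_le_mul_of_nonneg_left (hrec n) (pow_nonneg hq0.le n)
      have e : (1 - q ^ (n + 1)) / (1 - q) = (1 - q ^ n) / (1 - q) + q ^ n := by
        have : (1 : ℝ) - q ≠ 0 := by (clear * - hq1; linarith)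
        field_simp
        ring
      rw [e, pow_succ]
      (clear * - ih h2; nlinarith)
  have hub : ∀ n, u n ≤ ‖F‖ * ‖ζ‖ := fun n =>
    (psi_le Ψ F _).trans (mul_le_mul_of_nonneg_left (hn _ (hl n).1 (hl n).2) (norm_nonneg _))
  have hlim : Tendsto (fun n : ℕ => q ^ n * (‖F‖ * ‖ζ‖) + C * w / 2 * ((1 - q ^ n) / (1 - q)))
      atTop (𝓝 (0 * (‖F‖ * ‖ζ‖) + C * w / 2 * ((1 - 0) / (1 - q)))) := by
    have h2 := tendsto_pow_atTop_nhds_zero_of_lt_one hq0.le hq1
    exact (h2.mul_const _).add (((h2.const_sub 1).div_const _).const_mul _)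
  have h0 : u 0 ≤ 0 * (‖F‖ * ‖ζ‖) + C * w / 2 * ((1 - 0) / (1 - q)) := by
    refine ge_of_tendsto' hlim fun n => (hall n).trans ?_
    have := mul_le_mul_of_nonneg_left (hub n) (pow_nonneg hq0.le n)
    (clear * - this; linarith)
  have e0 : u 0 = ‖Ψ F ζ‖ := by
    simp only [hu, Nat.cast_zero, zero_mul, neg_zero, Real.exp_zero, h1]
  rw [← e0]
  refine h0.trans (le_of_eq ?_)
  have : (1 : ℝ) - q ≠ 0 := by (clear * - hq1; linarith)
  field_simp
  ring

end PsiZero

open PsiZero Pool.Agent.Helper23 in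
theorem psi_zero {Ψ : (ℝ →ᵇ ℂ) →⋆ₐ[ℂ] (H →L[ℂ] H)} {C : ℝ} (hC : 0 ≤ C) {ζ : H} {z : ℝ → H}
    (h1 : z 1 = ζ) (hn : ∀ l : ℝ, 0 < l → l ≤ 1 → ‖z l‖ ≤ ‖ζ‖)
    (hc : ∀ l m : ℝ, 0 < l → l ≤ 1 → 0 < m → m ≤ 1 →
      ‖z l - z m‖ ≤ C * |Real.sqrt l - Real.sqrt m|)
    (hp : ∀ l m : ℝ, 0 < l → l ≤ 1 → 0 < m → m ≤ 1 → ∀ G G' : ℝ →ᵇ ℂ, HasCompactSupport G →
      (∀ ρ, (G ρ).im = 0) → (∀ ρ, G' ρ = ((Real.exp (ρ / 2) : ℝ) : ℂ) * G ρ) → ∀ s : ℝ,
      (∀ ρ, ‖G ρ‖ * |Real.sqrt l * Real.exp (ρ / 2) - Real.sqrt m| ≤ s) →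
      ‖Ψ G (z l) - Ψ G' (z m)‖ ≤ C * s)
    {a b : ℝ} (ha : 0 < a) (hab : a < b) {G : ℝ →ᵇ ℂ}
    (hG : ∀ ρ, ρ ∉ Set.Icc a b → G ρ = 0) : Ψ G ζ = 0 := by
  set c := a / 2 with hcdef
  have hc0 : 0 < c := by (clear * - ha; positivity)
  set B := C / (2 * (1 - Real.exp (-c / 2))) with hB
  have hq1 : Real.exp (-c / 2) < 1 := by rw [Real.exp_lt_one_iff]; (clear * - hc0; linarith)
  have hB0 : 0 ≤ B := div_nonneg hC (by (clear * - hq1; linarith))
  have main : ∀ m : ℕ, 1 ≤ m → (b - a) / m ≤ c →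
      ‖Ψ G ζ‖ ^ 2 ≤ (m + 1) * (‖G‖ * (B * ((b - a) / m))) ^ 2 := by
    intro m hm hwc
    have hm0 : (0 : ℝ) < m := by exact_mod_cast hm
    set w := (b - a) / m with hw
    have hw0 : 0 < w := div_pos (by (clear * - hab; linarith)) hm0
    have hbw : a + m * w = b := by rw [hw]; field_simp; ring
    have e1 : star G * G = ∑ k ∈ Finset.range (m + 1), star (G * fB a w k) * (G * fB a w k) := by
      ext ρ
      rw [BoundedContinuousFunction.coe_sum, Finset.sum_apply,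
        BoundedContinuousFunction.mul_apply, BoundedContinuousFunction.star_apply]
      have e2 : ∀ k ∈ Finset.range (m + 1), (star (G * fB a w k) * (G * fB a w k)) ρ =
          (star (G ρ) * G ρ) * ((tn a w k ρ : ℝ) : ℂ) := by
        intro k _
        rw [BoundedContinuousFunction.mul_apply, BoundedContinuousFunction.star_apply,
          BoundedContinuousFunction.mul_apply, fB_apply, star_mul, Complex.star_def,
          Complex.conj_ofReal]
        have h2 : ((tn a w k ρ : ℝ) : ℂ) = ((Real.sqrt (tn a w k ρ) : ℝ) : ℂ) *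
            ((Real.sqrt (tn a w k ρ) : ℝ) : ℂ) := by
          rw [← Complex.ofReal_mul, Real.mul_self_sqrt (tn_nonneg _ _ _ _)]
        rw [h2]
        ring
      rw [Finset.sum_congr rfl e2, ← Finset.mul_sum, ← Complex.ofReal_sum]
      by_cases hρ : ρ ∈ Set.Icc a b
      · rw [tn_sum hw0 m hρ.1 (by rw [hbw]; exact hρ.2), Complex.ofReal_one, mul_one]
      · rw [hG ρ hρ, mul_zero, zero_mul]
    rw [← Sum.q_star_mul, e1, Sum.q_sum]
    have h2 : ∀ k ∈ Finset.range (m + 1), Sum.q Ψ ζ (star (G * fB a w k) * (G * fB a w k)) ≤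
        (‖G‖ * (B * w)) ^ 2 := by
      intro k _
      rw [Sum.q_star_mul]
      refine pow_le_pow_left₀ (norm_nonneg _) ?_ 2
      rw [map_mul]
      change ‖Ψ G (Ψ (fB a w k) ζ)‖ ≤ _
      refine (psi_le Ψ _ _).trans (mul_le_mul_of_nonneg_left ?_ (norm_nonneg _))
      have h3 := window hC h1 hn hp (c := c) (κ := a + k * w) (w := w) hc0
        (by have : (0 : ℝ) ≤ k * w := by (clear * - hab hm; positivity)
            rw [hcdef]; (clear * - this; linarith)) hw0 hwc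
        (F := fB a w k) (f := fun ρ => Real.sqrt (tn a w k ρ)) (fun ρ => rfl)
        (fun ρ => Real.sqrt_nonneg _) (fun ρ => Real.sqrt_le_one.2 (tn_le _ _ _ _))
        (fun ρ hρ => by
          change Real.sqrt (tn a w k ρ) = 0
          rw [tn_zero hw0 hρ, Real.sqrt_zero])
      refine h3.trans (le_of_eq ?_)
      rw [hB]
      ring
    refine (Finset.sum_le_sum h2).trans (le_of_eq ?_)
    rw [Finset.sum_const, Finset.card_range, nsmul_eq_mul]
    push_cast
    ring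
  have hlim : Tendsto (fun m : ℕ => ((m : ℝ) + 1) * (‖G‖ * (B * ((b - a) / m))) ^ 2) atTop
      (𝓝 0) := by
    have e : ∀ m : ℕ, 1 ≤ m → ((m : ℝ) + 1) * (‖G‖ * (B * ((b - a) / m))) ^ 2 =
        (‖G‖ * (B * (b - a))) ^ 2 * ((1 : ℝ) / m + ((1 : ℝ) / m) * ((1 : ℝ) / m)) := by
      intro m hm
      have hm0 : (0 : ℝ) < m := by exact_mod_cast hm
      (clear * - hm; field_simp)
    have h2 : Tendsto (fun m : ℕ => (‖G‖ * (B * (b - a))) ^ 2 *
        ((1 : ℝ) / m + ((1 : ℝ) / m) * ((1 : ℝ) / m))) atTop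
        (𝓝 ((‖G‖ * (B * (b - a))) ^ 2 * (0 + 0 * 0))) := by
      have h3 := tendsto_one_div_atTop_nhds_zero_nat (𝕜 := ℝ)
      exact (h3.add (h3.mul h3)).const_mul _
    rw [mul_zero, add_zero, mul_zero] at h2
    refine h2.congr' ?_
    filter_upwards [eventually_ge_atTop 1] with m hm
    exact (e m hm).symm
  have hev : ∀ᶠ m : ℕ in atTop, (b - a) / m ≤ c := by
    have h2 : Tendsto (fun m : ℕ => (b - a) * ((1 : ℝ) / m)) atTop (𝓝 ((b - a) * 0)) :=
      (tendsto_one_div_atTop_nhds_zero_nat (𝕜 := ℝ)).const_mul _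
    rw [mul_zero] at h2
    filter_upwards [h2.eventually (gt_mem_nhds hc0)] with m hm
    have : (b - a) / m = (b - a) * ((1 : ℝ) / m) := by ring
    rw [this]
    exact hm.le
  have h3 : ‖Ψ G ζ‖ ^ 2 ≤ 0 := by
    refine ge_of_tendsto hlim ?_
    filter_upwards [hev, eventually_ge_atTop 1] with m hm1 hm2
    exact main m hm2 hm1
  have h4 : ‖Ψ G ζ‖ = 0 := by
    have := sq_nonneg ‖Ψ G ζ‖
    exact pow_eq_zero_iff (two_ne_zero) |>.1 (le_antisymm h3 this)
  exact norm_eq_zero.1 h4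

end Pool.Agent.Helper78.BC

end

section

open scoped InnerProductSpace Topology

open ContinuousLinearMap Filter

namespace Pool.Agent.Helper88.CS

open Pool.Agent.Helper23

universe u

variable {H : Type u} [NormedAddCommGroup H] [InnerProductSpace ℂ H] [CompleteSpace H]

/-- the direct sum of `m` copies of `H` -/
abbrev HS (H : Type u) [NormedAddCommGroup H] (m : ℕ) : Type u := PiLp 2 (fun _ : Fin m => H)

/-- the operator `x ⊕ ... ⊕ x` -/
noncomputable def diag (m : ℕ) (x : H →L[ℂ] H) : HS H m →L[ℂ] HS H m :=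
  (PiLp.continuousLinearEquiv 2 ℂ (fun _ : Fin m => H)).symm.toContinuousLinearMap ∘L
    (ContinuousLinearMap.pi fun i => x ∘L ContinuousLinearMap.proj i) ∘L
      (PiLp.continuousLinearEquiv 2 ℂ (fun _ : Fin m => H)).toContinuousLinearMap

theorem diag_apply (m : ℕ) (x : H →L[ℂ] H) (F : HS H m) (i : Fin m) : diag m x F i = x (F i) := by
  rfl

theorem inner_diag (m : ℕ) (x : H →L[ℂ] H) (F G : HS H m) :
    ⟪F, diag m x G⟫_ℂ = ∑ i, ⟪F i, x (G i)⟫_ℂ := by
  rw [PiLp.inner_apply]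
  rfl

theorem diag_mul (m : ℕ) (x y : H →L[ℂ] H) : diag m (x * y) = diag m x * diag m y := by
  ext F i
  rfl

theorem diag_add (m : ℕ) (x y : H →L[ℂ] H) : diag m (x + y) = diag m x + diag m y := by
  ext F i
  rfl

theorem diag_smul (m : ℕ) (c : ℂ) (x : H →L[ℂ] H) : diag m (c • x) = c • diag m x := by
  ext F i
  rfl

theorem diag_star (m : ℕ) (x : H →L[ℂ] H) : diag m (star x) = star (diag m x) := by
  refine ContinuousLinearMap.ext fun F => ext_inner_left ℂ fun G => ?_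
  rw [ContinuousLinearMap.star_eq_adjoint (diag m x), ContinuousLinearMap.adjoint_inner_right,
    PiLp.inner_apply, PiLp.inner_apply]
  refine Finset.sum_congr rfl fun i _ => ?_
  rw [diag_apply, diag_apply, ContinuousLinearMap.star_eq_adjoint,
    ContinuousLinearMap.adjoint_inner_right]

theorem diag_one (m : ℕ) : diag m (1 : H →L[ℂ] H) = 1 := by
  ext F i
  rfl

theorem diag_norm_le (m : ℕ) (x : H →L[ℂ] H) : ‖diag m x‖ ≤ ‖x‖ := by
  refine ContinuousLinearMap.opNorm_le_bound _ (norm_nonneg _) fun F => ?_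
  rw [PiLp.norm_eq_of_L2, PiLp.norm_eq_of_L2]
  rw [← Real.sqrt_sq (norm_nonneg x), ← Real.sqrt_mul (sq_nonneg _)]
  refine Real.sqrt_le_sqrt ?_
  rw [Finset.mul_sum]
  refine Finset.sum_le_sum fun i _ => ?_
  rw [diag_apply, ← mul_pow]
  exact pow_le_pow_left₀ (norm_nonneg _) (x.le_opNorm _) 2

/-- the amplification of `N` -/
noncomputable def amp (m : ℕ) (N : VonNeumannAlgebra H) : VonNeumannAlgebra (HS H m) where
  toStarSubalgebra := StarSubalgebra.centralizer ℂ {T | ∀ x ∈ N, T * diag m x = diag m x * T}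
  centralizer_centralizer' := Set.centralizer_centralizer_centralizer _

namespace AmpAAux

/-- inclusion of the summand `i` -/
noncomputable def inj (m : ℕ) (i : Fin m) : H →L[ℂ] HS H m :=
  (PiLp.continuousLinearEquiv 2 ℂ (fun _ : Fin m => H)).symm.toContinuousLinearMap ∘L
    (ContinuousLinearMap.single ℂ (fun _ : Fin m => H) i)

/-- projection to the summand `i` -/
noncomputable def prj (m : ℕ) (i : Fin m) : HS H m →L[ℂ] H :=
  (ContinuousLinearMap.proj i) ∘L
      (PiLp.continuousLinearEquiv 2 ℂ (fun _ : Fin m => H)).toContinuousLinearMap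

theorem inj_apply (m : ℕ) (i j : Fin m) (v : H) :
    inj m i v j = if j = i then v else 0 := by
  show (Pi.single i v : Fin m → H) j = _
  rw [Pi.single_apply]

theorem prj_apply (m : ℕ) (i : Fin m) (F : HS H m) : prj m i F = F i := rfl

theorem sum_app (m : ℕ) (f : Fin m → HS H m) (j : Fin m) : (∑ i, f i) j = ∑ i, f i j := by
  rw [WithLp.ofLp_sum, Finset.sum_apply]

theorem sum_inj (m : ℕ) (F : HS H m) : F = ∑ i, inj m i (F i) := by
  ext j
  rw [sum_app]
  simp [inj_apply]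

end AmpAAux

open AmpAAux in
theorem mem_amp {m : ℕ} (hm : 0 < m) (N : VonNeumannAlgebra H) {T : HS H m →L[ℂ] HS H m} :
    T ∈ amp m N ↔ ∃ x ∈ N, diag m x = T := by
  have hmem : T ∈ amp m N ↔ ∀ g : HS H m →L[ℂ] HS H m,
      (∀ x ∈ N, g * diag m x = diag m x * g) → g * T = T * g ∧ star g * T = T * star g := by
    change T ∈ StarSubalgebra.centralizer ℂ _ ↔ _
    rw [StarSubalgebra.mem_centralizer_iff]
    rfl
  rw [hmem]
  constructor
  · intro h
    let i0 : Fin m := ⟨0, hm⟩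
    let t : H →L[ℂ] H := prj m i0 ∘L T ∘L inj m i0
    have hE : ∀ i j : Fin m, (inj m i ∘L prj m j) * T = T * (inj m i ∘L prj m j) := by
      intro i j
      refine (h _ fun x _ => ?_).1
      refine ContinuousLinearMap.ext fun F => ?_
      ext k
      show (inj m i (x (F j))) k = x ((inj m i (F j)) k)
      rw [inj_apply, inj_apply]
      split_ifs
      · rfl
      · rw [map_zero]
    have hT : diag m t = T := by
      refine ContinuousLinearMap.ext fun F => ?_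
      ext k
      have h1 : ∀ j : Fin m, T (inj m j (F j)) = inj m j (t (F j)) := by
        intro j
        have h2 := congrArg (fun S : HS H m →L[ℂ] HS H m => S (inj m i0 (F j))) (hE j i0)
        have h3 : (inj m j) (prj m i0 (T (inj m i0 (F j)))) =
            T (inj m j (prj m i0 (inj m i0 (F j)))) := h2
        have h4 : prj m i0 (inj m i0 (F j)) = F j := by
          rw [prj_apply, inj_apply, if_pos rfl]
        rw [h4] at h3
        rw [← h3]
        rfl
      rw [diag_apply]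
      conv_rhs => rw [sum_inj m F, map_sum, sum_app]
      simp only [h1, inj_apply]
      simp
    refine ⟨t, ?_, hT⟩
    rw [← N.commutant_commutant, VonNeumannAlgebra.mem_commutant_iff]
    intro y hy
    rw [VonNeumannAlgebra.mem_commutant_iff] at hy
    have h5 := (h (diag m y) fun x hx => by rw [← diag_mul, ← diag_mul, hy x hx]).1
    refine ContinuousLinearMap.ext fun v => ?_
    have h6 := congrArg (fun S : HS H m →L[ℂ] HS H m => S (inj m i0 v) i0) h5
    have h7 : y (T (inj m i0 v) i0) = T (diag m y (inj m i0 v)) i0 := h6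
    have h8 : diag m y (inj m i0 v) = inj m i0 (y v) := by
      ext k
      rw [diag_apply, inj_apply, inj_apply]
      split_ifs
      · rfl
      · rw [map_zero]
    rw [h8] at h7
    exact h7
  · rintro ⟨x, hx, rfl⟩ g hg
    refine ⟨hg x hx, ?_⟩
    have h1 := congrArg star (hg (star x) (star_mem hx))
    rw [star_mul, star_mul, ← diag_star, star_star] at h1
    exact h1.symm

end Pool.Agent.Helper88.CS

end

section

open scoped InnerProductSpace Topology

open ContinuousLinearMap Filter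

namespace Pool.Agent.Helper88.CS

open Pool.Agent.Helper23

universe u

variable {H : Type u} [NormedAddCommGroup H] [InnerProductSpace ℂ H] [CompleteSpace H]

namespace RealAux

open Pool.Agent.Helper78.BC Pool.Agent.Helper78.BC.Transport

lemma norm_le_diag {m : ℕ} (hm : 0 < m) (x : H →L[ℂ] H) : ‖x‖ ≤ ‖diag m x‖ := by
  refine opNorm_le_bound _ (norm_nonneg _) fun h => ?_
  set i0 : Fin m := ⟨0, hm⟩
  set G : HS H m := PiLp.single 2 i0 h with hG
  have h1 : ‖G‖ = ‖h‖ := by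
    rw [hG]
    exact PiLp.norm_single 2 (fun _ : Fin m => H) i0 h
  have h2 : ‖x h‖ ≤ ‖diag m x G‖ := by
    have h3 := PiLp.norm_apply_le (diag m x G) i0
    rw [diag_apply] at h3
    have h4 : G i0 = h := by
      rw [hG]
      simp
    rwa [h4] at h3
  calc ‖x h‖ ≤ ‖diag m x G‖ := h2
    _ ≤ ‖diag m x‖ * ‖G‖ := (diag m x).le_opNorm G
    _ = ‖diag m x‖ * ‖h‖ := by rw [h1]

lemma diag_zero (m : ℕ) : diag m (0 : H →L[ℂ] H) = 0 := by
  have h := diag_smul m (0 : ℂ) (0 : H →L[ℂ] H)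
  rw [zero_smul ℂ (0 : H →L[ℂ] H)] at h
  exact h.trans (ContinuousLinearMap.ext fun G => by
    rw [smul_apply, zero_smul, zero_apply])

lemma diag_inj {m : ℕ} (hm : 0 < m) {x y : H →L[ℂ] H} (h : diag m x = diag m y) : x = y := by
  have h1 : diag m (x - y) = 0 := by
    rw [sub_eq_add_neg, diag_add, ← neg_one_smul ℂ y, diag_smul, h]
    exact (congrArg (diag m y + ·) (neg_one_smul ℂ (diag m y))).trans (add_neg_cancel _)
  have h2 := norm_le_diag hm (x - y)
  rw [h1, norm_zero] at h2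
  exact sub_eq_zero.1 (norm_le_zero_iff.1 h2)

/-- the sequence of the components of a vector -/
noncomputable def comp {m : ℕ} (G : HS H m) (n : ℕ) : H := if h : n < m then G ⟨n, h⟩ else 0

omit [InnerProductSpace ℂ H] [CompleteSpace H] in
lemma comp_fin {m : ℕ} (G : HS H m) (i : Fin m) : comp G i = G i := by
  unfold comp
  rw [dif_pos i.2]

omit [InnerProductSpace ℂ H] [CompleteSpace H] in
lemma comp_ge {m : ℕ} (G : HS H m) {n : ℕ} (h : m ≤ n) : comp G n = 0 := by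
  unfold comp
  rw [dif_neg (not_lt.2 h)]

lemma tsum_comp {E : Type*} [AddCommMonoid E] [TopologicalSpace E] {m : ℕ}
    (f : ℕ → E) (hf : ∀ n, m ≤ n → f n = 0) : ∑' n, f n = ∑ i : Fin m, f i := by
  rw [tsum_eq_sum (s := Finset.range m) (fun n hn => hf n (by simpa using hn))]
  exact Finset.sum_range f

lemma st_comp {m : ℕ} (G : HS H m) (x : H →L[ℂ] H) : st (comp G) x = ⟪G, diag m x G⟫_ℂ := by
  unfold st
  rw [tsum_comp (m := m) _ (fun n hn => by rw [comp_ge G hn, inner_zero_left]), inner_diag]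
  exact Finset.sum_congr rfl fun i _ => by rw [comp_fin]

omit [InnerProductSpace ℂ H] [CompleteSpace H] in
lemma sum_comp {m : ℕ} (G : HS H m) : ∑' n, ‖comp G n‖ ^ 2 = ‖G‖ ^ 2 := by
  rw [tsum_comp (m := m) _ (fun n hn => by rw [comp_ge G hn, norm_zero]; norm_num),
    PiLp.norm_sq_eq_of_L2]
  exact Finset.sum_congr rfl fun i _ => by rw [comp_fin]

omit [InnerProductSpace ℂ H] [CompleteSpace H] in
lemma summable_comp {m : ℕ} (G : HS H m) : Summable (fun n => ‖comp G n‖ ^ 2) := by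
  refine summable_of_ne_finset_zero (s := Finset.range m) fun n hn => ?_
  rw [comp_ge G (by simpa using hn), norm_zero]
  norm_num

end RealAux

end Pool.Agent.Helper88.CS

end

section

open scoped InnerProductSpace Topology

open ContinuousLinearMap Filter

namespace Pool.Agent.Helper88.CS

open Pool.Agent.Helper23

universe u

variable {H : Type u} [NormedAddCommGroup H] [InnerProductSpace ℂ H] [CompleteSpace H]

namespace FinalAux

theorem sq_of_inner {L : Type*} [NormedAddCommGroup L] [InnerProductSpace ℂ L]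
    {v : L} {r : ℝ} (h : ⟪v, v⟫_ℂ = (r : ℂ)) : ‖v‖ ^ 2 = r := by
  have h1 : RCLike.re ⟪v, v⟫_ℂ = ‖v‖ ^ 2 := inner_self_eq_norm_sq v
  rw [h] at h1
  rw [← h1]
  exact Complex.ofReal_re r

/-- the functional `s² (⟪η, · η⟫ + ⟪η', · η'⟫) + t² ⟪ξ, · ξ⟫` -/
noncomputable def fn (s t : ℝ) (η η' ξ : H) (z : H →L[ℂ] H) : ℂ :=
  ((s ^ 2 : ℝ) : ℂ) * (⟪η, z η⟫_ℂ + ⟪η', z η'⟫_ℂ) + ((t ^ 2 : ℝ) : ℂ) * ⟪ξ, z ξ⟫_ℂ

theorem fn_zero (s t : ℝ) (η η' ξ : H) : fn s t η η' ξ 0 = 0 := by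
  simp [fn]

theorem fn_one {s t : ℝ} {η η' ξ : H} (hξ : ‖ξ‖ = 1) (h1 : ‖η‖ ^ 2 + ‖η'‖ ^ 2 = 1) :
    fn s t η η' ξ 1 = ((s ^ 2 + t ^ 2 : ℝ) : ℂ) := by
  unfold fn
  simp only [ContinuousLinearMap.one_apply]
  rw [inner_self_eq_norm_sq_to_K, inner_self_eq_norm_sq_to_K, inner_self_eq_norm_sq_to_K, hξ]
  have h2 : (((‖η‖ ^ 2 + ‖η'‖ ^ 2 : ℝ)) : ℂ) = 1 := by rw [h1]; simp
  push_cast at h2 ⊢
  simp only [Complex.coe_algebraMap] at *
  rw [h2]
  simp

theorem inner_smul_self (c : ℝ) (v : H) (x a : H →L[ℂ] H) :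
    ⟪(c : ℂ) • a v, x ((c : ℂ) • a v)⟫_ℂ = ((c ^ 2 : ℝ) : ℂ) * ⟪v, (star a * x * a) v⟫_ℂ := by
  rw [map_smul, inner_smul_left, inner_smul_right, Complex.conj_ofReal]
  have h : ⟪v, (star a * x * a) v⟫_ℂ = ⟪a v, x (a v)⟫_ℂ := by
    show ⟪v, (star a) (x (a v))⟫_ℂ = _
    rw [star_eq_adjoint, adjoint_inner_right]
  rw [h]
  push_cast
  ring

/-- the vector of `H⁶` -/
noncomputable def vec (s t : ℝ) (a b : H →L[ℂ] H) (η η' ζ ζ' ξ : H) : HS H 6 :=
  WithLp.toLp 2 ![(s : ℂ) • a η, (s : ℂ) • a η', (t : ℂ) • a ξ, (s : ℂ) • b ζ, (s : ℂ) • b ζ',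
    (t : ℂ) • b ξ]

theorem vec_sum (s t : ℝ) (a b : H →L[ℂ] H) (η η' ζ ζ' ξ : H) (x : H →L[ℂ] H) :
    ∑ i, ⟪vec s t a b η η' ζ ζ' ξ i, x (vec s t a b η η' ζ ζ' ξ i)⟫_ℂ =
      fn s t η η' ξ (star a * x * a) + fn s t ζ ζ' ξ (star b * x * b) := by
  have h : ∀ i, vec s t a b η η' ζ ζ' ξ i = (![(s : ℂ) • a η, (s : ℂ) • a η', (t : ℂ) • a ξ,
    (s : ℂ) • b ζ, (s : ℂ) • b ζ', (t : ℂ) • b ξ] : Fin 6 → H) i := fun i => rfl
  simp only [h]
  rw [Fin.sum_univ_six]
  simp only [Matrix.cons_val]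
  rw [inner_smul_self, inner_smul_self, inner_smul_self, inner_smul_self, inner_smul_self,
    inner_smul_self]
  unfold fn
  ring

theorem vec_norm {s t : ℝ} (hst : s ^ 2 + t ^ 2 = 1 / 2) {a b : H →L[ℂ] H}
    (ha : star a * a = 1) (hb : star b * b = 1) {η η' ζ ζ' ξ : H} (hξ : ‖ξ‖ = 1)
    (h1 : ‖η‖ ^ 2 + ‖η'‖ ^ 2 = 1) (h2 : ‖ζ‖ ^ 2 + ‖ζ'‖ ^ 2 = 1) :
    ‖vec s t a b η η' ζ ζ' ξ‖ = 1 := by
  have h := vec_sum s t a b η η' ζ ζ' ξ 1
  rw [mul_one, mul_one, ha, hb, fn_one hξ h1, fn_one hξ h2, hst] at h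
  simp only [ContinuousLinearMap.one_apply] at h
  have h3 : ⟪vec s t a b η η' ζ ζ' ξ, vec s t a b η η' ζ ζ' ξ⟫_ℂ = 1 := by
    rw [PiLp.inner_apply, h]
    push_cast
    norm_num
  have h4 : ‖vec s t a b η η' ζ ζ' ξ‖ ^ 2 = 1 := sq_of_inner (by rw [h3, Complex.ofReal_one])
  exact (pow_eq_one_iff_of_nonneg (norm_nonneg _) two_ne_zero).1 h4

theorem vec_sep (N : VonNeumannAlgebra H) {s t : ℝ} (ht : t ≠ 0) {a b : H →L[ℂ] H}
    (ha : a ∈ N) (hb : b ∈ N) (hab : a * star a + b * star b = 1) {η η' ζ ζ' ξ : H}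
    (hsep : ∀ x ∈ N, x ξ = 0 → x = 0) (x : H →L[ℂ] H) (hx : x ∈ N)
    (h : ∀ i, x (vec s t a b η η' ζ ζ' ξ i) = 0) : x = 0 := by
  have ht' : (t : ℂ) ≠ 0 := by exact_mod_cast ht
  have h2 : x ((t : ℂ) • a ξ) = 0 := h 2
  have h5 : x ((t : ℂ) • b ξ) = 0 := h 5
  rw [map_smul, smul_eq_zero] at h2 h5
  have h3 : x * a = 0 := hsep _ (mul_mem hx ha) (h2.resolve_left ht')
  have h6 : x * b = 0 := hsep _ (mul_mem hx hb) (h5.resolve_left ht')
  calc x = x * (a * star a + b * star b) := by rw [hab, mul_one]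
    _ = x * a * star a + x * b * star b := by rw [mul_add, mul_assoc, mul_assoc]
    _ = 0 := by rw [h3, h6, zero_mul, zero_mul, add_zero]

end FinalAux

end Pool.Agent.Helper88.CS

end

end

section

section

open scoped InnerProductSpace Topology

open ContinuousLinearMap Filter

namespace Pool.Agent.Helper23

variable {H : Type*} [NormedAddCommGroup H] [InnerProductSpace ℂ H] [CompleteSpace H]

variable {K : Type*} [NormedAddCommGroup K] [InnerProductSpace ℂ K] [CompleteSpace K]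

/-- the von Neumann algebra generated by a set -/
noncomputable def genVN (S : Set (K →L[ℂ] K)) : VonNeumannAlgebra K where
  toStarSubalgebra := StarSubalgebra.centralizer ℂ
    ((StarSubalgebra.centralizer ℂ S : StarSubalgebra ℂ (K →L[ℂ] K)) : Set (K →L[ℂ] K))
  centralizer_centralizer' := by simp

end Pool.Agent.Helper23

end

section

open scoped InnerProductSpace Topology

open ContinuousLinearMap Filter

namespace Pool.Agent.Helper23

universe u

variable {H : Type u} [NormedAddCommGroup H] [InnerProductSpace ℂ H] [CompleteSpace H]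

variable {L : Type u} [NormedAddCommGroup L] [InnerProductSpace ℂ L] [CompleteSpace L]

variable {K : Type u} [NormedAddCommGroup K] [InnerProductSpace ℂ K] [CompleteSpace K]

variable {M N A : VonNeumannAlgebra H} {ξ : H} {E : (H →L[ℂ] H) → (H →L[ℂ] H)}

section genVN

lemma oc_mem_genVN {S : Set (K →L[ℂ] K)} {T : K →L[ℂ] K} :
    T ∈ genVN S ↔ ∀ r : K →L[ℂ] K, (∀ s ∈ S, s * r = r * s ∧ star s * r = r * star s) →
      r * T = T * r := by
  have h0 : T ∈ genVN S ↔ T ∈ StarSubalgebra.centralizer ℂ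
    ((StarSubalgebra.centralizer ℂ S : StarSubalgebra ℂ (K →L[ℂ] K)) : Set (K →L[ℂ] K)) := Iff.rfl
  rw [h0, StarSubalgebra.mem_centralizer_iff]
  constructor
  · intro h r hr
    exact (h r ((StarSubalgebra.mem_centralizer_iff ℂ).2 hr)).1
  · intro h r hr
    refine ⟨h r ((StarSubalgebra.mem_centralizer_iff ℂ).1 hr), h (star r) ?_⟩
    exact (StarSubalgebra.mem_centralizer_iff ℂ).1 (star_mem hr)

lemma oc_genVN_mono {S S' : Set (K →L[ℂ] K)} (h : S ⊆ S') {T : K →L[ℂ] K} (hT : T ∈ genVN S) :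
    T ∈ genVN S' := by
  rw [oc_mem_genVN] at hT ⊢
  exact fun r hr => hT r fun s hs => hr s (h hs)

lemma oc_sub_genVN {S : Set (K →L[ℂ] K)} {T : K →L[ℂ] K} (hT : T ∈ S) : T ∈ genVN S := by
  rw [oc_mem_genVN]
  exact fun r hr => (hr T hT).1.symm

end genVN

end Pool.Agent.Helper23

end

section

open scoped InnerProductSpace Topology

open ContinuousLinearMap Filter

namespace Pool.Agent.Helper23

universe u

variable {H : Type u} [NormedAddCommGroup H] [InnerProductSpace ℂ H] [CompleteSpace H]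

variable {K : Type u} [NormedAddCommGroup K] [InnerProductSpace ℂ K] [CompleteSpace K]

variable {A : VonNeumannAlgebra H} {P : Set (ℕ → H →L[ℂ] H)} {ξ : H} {ζ : K}
  {rep : (ℕ → H →L[ℂ] H) → (K →L[ℂ] K)}

lemma subset_genVN (S : Set (K →L[ℂ] K)) {T : K →L[ℂ] K} (hT : T ∈ S) : T ∈ genVN S := by
  change T ∈ StarSubalgebra.centralizer ℂ
    ((StarSubalgebra.centralizer ℂ S : StarSubalgebra ℂ (K →L[ℂ] K)) : Set (K →L[ℂ] K))
  rw [StarSubalgebra.mem_centralizer_iff]
  intro g hg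
  have h1 := (StarSubalgebra.mem_centralizer_iff ℂ).1 hg T hT
  refine ⟨h1.1.symm, ?_⟩
  have h2 := congrArg star h1.2
  rw [star_mul, star_mul, star_star] at h2
  exact h2

end Pool.Agent.Helper23

end

end

section

section

open scoped InnerProductSpace Topology

open ContinuousLinearMap Filter

namespace Pool.Agent.Helper23

universe u

/-- truncation of a vector -/
theorem hup_exists_trunc {H : Type*} [NormedAddCommGroup H] [InnerProductSpace ℂ H] (x : H) {r : ℝ}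
    (hr : 0 ≤ r) : ∃ y : H, ‖y‖ ≤ r ∧ ‖x - y‖ ≤ |‖x‖ - r| := by
  by_cases h : ‖x‖ ≤ r
  · exact ⟨x, h, by rw [sub_self, norm_zero]; (clear * -; positivity)⟩
  · push Not at h
    have hx : 0 < ‖x‖ := hr.trans_lt h
    have hq : r / ‖x‖ ≤ 1 := (div_le_one hx).2 h.le
    have hq0 : 0 ≤ r / ‖x‖ := by (clear * - hr hx; positivity)
    refine ⟨((r / ‖x‖ : ℝ) : ℂ) • x, ?_, ?_⟩
    · rw [norm_smul, Complex.norm_real, Real.norm_of_nonneg hq0, div_mul_cancel₀ _ hx.ne']
    · have e : x - ((r / ‖x‖ : ℝ) : ℂ) • x = ((1 - r / ‖x‖ : ℝ) : ℂ) • x := by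
        rw [Complex.ofReal_sub, Complex.ofReal_one, sub_smul, one_smul]
      rw [e, norm_smul, Complex.norm_real, Real.norm_of_nonneg (by (clear * - hq; linarith)), sub_mul, one_mul,
        div_mul_cancel₀ _ hx.ne']
      exact le_abs_self _

end Pool.Agent.Helper23

end

end

section

section

open scoped InnerProductSpace Topology ENNReal

open ContinuousLinearMap Filter MeasureTheory

namespace Pool.Agent.Helper23

variable {H : Type*} [NormedAddCommGroup H] [InnerProductSpace ℂ H] [CompleteSpace H]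

lemma last_le {κ g m n : ℝ} (hκ : 0 ≤ κ) (hn : 0 < n) (h : 192 * g * m ≤ n) :
    (2 * m) * (96 * g * κ / n) ≤ κ := by
  rw [← mul_div_assoc, div_le_iff₀ hn]
  have := mul_le_mul_of_nonneg_left h hκ
  linarith

end Pool.Agent.Helper23

end

end

section

section

open scoped InnerProductSpace Topology

open ContinuousLinearMap Filter

namespace Pool.Agent.Helper23

variable {H : Type*} [NormedAddCommGroup H] [InnerProductSpace ℂ H] [CompleteSpace H]

variable {K : Type*} [NormedAddCommGroup K] [InnerProductSpace ℂ K] [CompleteSpace K]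

/-- the ultrafilter -/
noncomputable def UU : Ultrafilter ℕ := Filter.hyperfilter ℕ

/-- bounded sequences -/
def Bdd {G : Type*} [NormedAddCommGroup G] (x : ℕ → G) : Prop := ∃ C : ℝ, ∀ n, ‖x n‖ ≤ C

/-- `K` is the ultrapower of the Hilbert space `H`; `mk x` is the class of a bounded sequence. -/
structure HUP (mk : (ℕ → H) → K) : Prop where
  add : ∀ x y : ℕ → H, Bdd x → Bdd y → mk (fun n => x n + y n) = mk x + mk y
  smul : ∀ (c : ℂ) (x : ℕ → H), Bdd x → mk (fun n => c • x n) = c • mk x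
  inner : ∀ x y : ℕ → H, Bdd x → Bdd y →
    Tendsto (fun n => ⟪x n, y n⟫_ℂ) (UU : Filter ℕ) (𝓝 ⟪mk x, mk y⟫_ℂ)
  surj : ∀ v : K, ∃ x : ℕ → H, (∀ n, ‖x n‖ ≤ ‖v‖) ∧ mk x = v

/-- bounded sequences `x` in `M` such that `x ξ` is uniformly close to bounded sequences `r ξ`
with `r` in the commutant of `M` -/
def AppR (M : VonNeumannAlgebra H) (ξ : H) : Set (ℕ → H →L[ℂ] H) :=
  {x | (∀ n, x n ∈ M) ∧ Bdd x ∧ ∀ ε : ℝ, 0 < ε → ∃ r : ℕ → H →L[ℂ] H,
    (∀ n, r n ∈ M.commutant) ∧ Bdd r ∧ ∀ᶠ n in (UU : Filter ℕ), ‖x n ξ - r n ξ‖ ≤ ε}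

/-- the sequences defining the elements of the (Ocneanu) ultrapower of `M` -/
def AppS (M : VonNeumannAlgebra H) (ξ : H) : Set (ℕ → H →L[ℂ] H) :=
  {x | x ∈ AppR M ξ ∧ (fun n => star (x n)) ∈ AppR M ξ}

end Pool.Agent.Helper23

end

section

open scoped InnerProductSpace Topology

open ContinuousLinearMap Filter

namespace Pool.Agent.Helper23

variable {H : Type*} [NormedAddCommGroup H] [InnerProductSpace ℂ H] [CompleteSpace H]

variable {K : Type*} [NormedAddCommGroup K] [InnerProductSpace ℂ K] [CompleteSpace K]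

/-- `P` is an algebra of bounded sequences in `A`, closed in the sense of `closed`, and `rep` is
a representation of `P` with `‖rep x ζ‖ = lim ‖x n ξ‖`. -/
structure SeqRep (A : VonNeumannAlgebra H) (P : Set (ℕ → H →L[ℂ] H)) (ξ : H) (ζ : K)
    (rep : (ℕ → H →L[ℂ] H) → (K →L[ℂ] K)) : Prop where
  memA : ∀ x ∈ P, ∀ n, x n ∈ A
  bdd : ∀ x ∈ P, Bdd x
  add : ∀ x ∈ P, ∀ y ∈ P, (fun n => x n + y n) ∈ P ∧ rep (fun n => x n + y n) = rep x + rep y
  smul : ∀ c : ℂ, ∀ x ∈ P, (fun n => c • x n) ∈ P ∧ rep (fun n => c • x n) = c • rep x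
  mul : ∀ x ∈ P, ∀ y ∈ P, (fun n => x n * y n) ∈ P ∧ rep (fun n => x n * y n) = rep x * rep y
  star_mem : ∀ x ∈ P, (fun n => star (x n)) ∈ P ∧ rep (fun n => star (x n)) = star (rep x)
  one : (fun _ => (1 : H →L[ℂ] H)) ∈ P ∧ rep (fun _ => 1) = 1
  norm : ∀ x ∈ P, Tendsto (fun n => ‖x n ξ‖) (UU : Filter ℕ) (𝓝 ‖rep x ζ‖)
  opNorm : ∀ x ∈ P, ∀ C : ℝ, (∀ n, ‖x n‖ ≤ C) → ‖rep x‖ ≤ C
  closed : ∀ x : ℕ → H →L[ℂ] H, (∀ n, x n ∈ A) → Bdd x →
    (∀ ε : ℝ, 0 < ε → ∃ y ∈ P, ∀ᶠ n in (UU : Filter ℕ), ‖x n ξ - y n ξ‖ ≤ ε ∧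
      ‖(star (x n)) ξ - (star (y n)) ξ‖ ≤ ε) → x ∈ P

end Pool.Agent.Helper23

end

section

open scoped InnerProductSpace Topology

open ContinuousLinearMap Filter

namespace Pool.Agent.Helper23

universe u

variable {H : Type u} [NormedAddCommGroup H] [InnerProductSpace ℂ H] [CompleteSpace H]

variable {M N : VonNeumannAlgebra H} {ξ : H} {E : (H →L[ℂ] H) → (H →L[ℂ] H)}

section U2

lemma U2.bdd_nonneg {G : Type*} [NormedAddCommGroup G] {x : ℕ → G} (h : Bdd x) :
    ∃ C : ℝ, 0 ≤ C ∧ ∀ n, ‖x n‖ ≤ C := by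
  obtain ⟨C, hC⟩ := h
  exact ⟨C, (norm_nonneg _).trans (hC 0), hC⟩

theorem AppR_add {x y : ℕ → H →L[ℂ] H} (hx : x ∈ AppR M ξ) (hy : y ∈ AppR M ξ) :
    (fun n => x n + y n) ∈ AppR M ξ := by
  obtain ⟨hxM, ⟨C, hC⟩, hx⟩ := hx
  obtain ⟨hyM, ⟨D, hD⟩, hy⟩ := hy
  refine ⟨fun n => add_mem (hxM n) (hyM n), ⟨C + D, fun n => ?_⟩, fun ε hε => ?_⟩
  · exact (norm_add_le _ _).trans (add_le_add (hC n) (hD n))
  · obtain ⟨r, hr, ⟨A, hA⟩, h1⟩ := hx (ε / 2) (by (clear * - hε; positivity))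
    obtain ⟨s, hs, ⟨B, hB⟩, h2⟩ := hy (ε / 2) (by (clear * - hε; positivity))
    refine ⟨fun n => r n + s n, fun n => add_mem (hr n) (hs n),
      ⟨A + B, fun n => (norm_add_le _ _).trans (add_le_add (hA n) (hB n))⟩, ?_⟩
    filter_upwards [h1, h2] with n h3 h4
    have e1 : (x n + y n) ξ - (r n + s n) ξ = (x n ξ - r n ξ) + (y n ξ - s n ξ) := by
      rw [add_apply, add_apply]; abel
    rw [e1]
    linarith [norm_add_le (x n ξ - r n ξ) (y n ξ - s n ξ)]

end U2

end Pool.Agent.Helper23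

end

section

open scoped InnerProductSpace Topology

open ContinuousLinearMap Filter

namespace Pool.Agent.Helper23

universe u

section lims

theorem UU_neBot : (UU : Filter ℕ).NeBot := UU.neBot

end lims

section bdd

variable {G : Type*} [NormedAddCommGroup G]

theorem Bdd.add {x y : ℕ → G} (hx : Bdd x) (hy : Bdd y) : Bdd (fun n => x n + y n) := by
  obtain ⟨C, hC⟩ := hx
  obtain ⟨D, hD⟩ := hy
  exact ⟨C + D, fun n => (norm_add_le _ _).trans (add_le_add (hC n) (hD n))⟩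

theorem Bdd.sub {x y : ℕ → G} (hx : Bdd x) (hy : Bdd y) : Bdd (fun n => x n - y n) := by
  obtain ⟨C, hC⟩ := hx
  obtain ⟨D, hD⟩ := hy
  exact ⟨C + D, fun n => (norm_sub_le _ _).trans (add_le_add (hC n) (hD n))⟩

theorem Bdd.smul {𝕜 : Type*} [NormedField 𝕜] [NormedSpace 𝕜 G] (c : 𝕜) {x : ℕ → G} (hx : Bdd x) :
    Bdd (fun n => c • x n) := by
  obtain ⟨C, hC⟩ := hx
  exact ⟨‖c‖ * C, fun n => by
    rw [norm_smul]; exact mul_le_mul_of_nonneg_left (hC n) (norm_nonneg _)⟩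

theorem Bdd.app {H : Type*} [NormedAddCommGroup H] [InnerProductSpace ℂ H] {a : ℕ → H →L[ℂ] H}
    {x : ℕ → H} (ha : Bdd a) (hx : Bdd x) : Bdd (fun n => a n (x n)) := by
  obtain ⟨C, hC⟩ := ha
  obtain ⟨D, hD⟩ := hx
  refine ⟨C * D, fun n => ((a n).le_opNorm _).trans ?_⟩
  exact mul_le_mul (hC n) (hD n) (norm_nonneg _) ((norm_nonneg _).trans (hC n))

end bdd

section BSeq

variable (H : Type u) [NormedAddCommGroup H] [InnerProductSpace ℂ H]

variable {H}

theorem norm_tendsto_of_inner {H K : Type*} [NormedAddCommGroup H] [InnerProductSpace ℂ H]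
    [SeminormedAddCommGroup K] [InnerProductSpace ℂ K] {x : ℕ → H} {v : K}
    (h : Tendsto (fun n => ⟪x n, x n⟫_ℂ) (UU : Filter ℕ) (𝓝 ⟪v, v⟫_ℂ)) :
    Tendsto (fun n => ‖x n‖) (UU : Filter ℕ) (𝓝 ‖v‖) := by
  have h1 := (Complex.continuous_re.tendsto _).comp h
  have h2 := (Real.continuous_sqrt.tendsto _).comp h1
  have e1 : Real.sqrt (Complex.re ⟪v, v⟫_ℂ) = ‖v‖ := (norm_eq_sqrt_re_inner (𝕜 := ℂ) v).symm
  rw [e1] at h2
  refine h2.congr fun n => ?_
  exact (norm_eq_sqrt_re_inner (𝕜 := ℂ) (x n)).symm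

end BSeq

variable {H : Type u} [NormedAddCommGroup H] [InnerProductSpace ℂ H] [CompleteSpace H]

variable {K : Type u} [NormedAddCommGroup K] [InnerProductSpace ℂ K] [CompleteSpace K]

namespace HUP

variable {mk : (ℕ → H) → K} (h : HUP mk)

include h

theorem norm_tendsto {x : ℕ → H} (hx : Bdd x) :
    Tendsto (fun n => ‖x n‖) (UU : Filter ℕ) (𝓝 ‖mk x‖) :=
  norm_tendsto_of_inner (h.inner x x hx hx)

theorem mk_sub {x y : ℕ → H} (hx : Bdd x) (hy : Bdd y) :
    mk (fun n => x n - y n) = mk x - mk y := by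
  have h1 := h.smul (-1) y hy
  have h2 := h.add x (fun n => (-1 : ℂ) • y n) hx (hy.smul _)
  rw [h1] at h2
  simp only [neg_smul, one_smul, ← sub_eq_add_neg] at h2
  exact h2

theorem mk_eq {x y : ℕ → H} (hx : Bdd x) (hy : Bdd y) :
    mk x = mk y ↔ Tendsto (fun n => ‖x n - y n‖) (UU : Filter ℕ) (𝓝 0) := by
  have := UU_neBot
  have h1 := h.norm_tendsto (hx.sub hy)
  rw [h.mk_sub hx hy] at h1
  constructor
  · intro h2
    rw [h2, sub_self, norm_zero] at h1
    exact h1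
  · intro h2
    have := tendsto_nhds_unique h1 h2
    rwa [norm_eq_zero, sub_eq_zero] at this

/-- the class of `a x` depends only on the class of `x` -/
theorem mk_app_eq {a : ℕ → H →L[ℂ] H} (ha : Bdd a) {x y : ℕ → H} (hx : Bdd x) (hy : Bdd y)
    (hxy : mk x = mk y) : mk (fun n => a n (x n)) = mk (fun n => a n (y n)) := by
  rw [h.mk_eq (ha.app hx) (ha.app hy)]
  rw [h.mk_eq hx hy] at hxy
  obtain ⟨C, hC⟩ := ha
  have h2 := hxy.const_mul C
  rw [mul_zero] at h2
  refine squeeze_zero (fun n => norm_nonneg _) (fun n => ?_) h2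
  rw [← map_sub]
  exact ((a n).le_opNorm _).trans (mul_le_mul_of_nonneg_right (hC n) (norm_nonneg _))

/-- norm bound -/
theorem norm_mk_le {x : ℕ → H} {C : ℝ} (hx : ∀ n, ‖x n‖ ≤ C) : ‖mk x‖ ≤ C := by
  have := UU_neBot
  exact le_of_tendsto (h.norm_tendsto ⟨C, hx⟩) (Filter.Eventually.of_forall hx)

theorem exists_op {a : ℕ → H →L[ℂ] H} (ha : Bdd a) :
    ∃ T : K →L[ℂ] K, ∀ x, Bdd x → T (mk x) = mk (fun n => a n (x n)) := by
  obtain ⟨C, hC⟩ := id ha
  have hC0 : 0 ≤ C := (norm_nonneg _).trans (hC 0)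
  choose s hs1 hs2 using h.surj
  have hsb : ∀ v, Bdd (s v) := fun v => ⟨_, hs1 v⟩
  have key : ∀ x, Bdd x → mk (fun n => a n (s (mk x) n)) = mk (fun n => a n (x n)) :=
    fun x hx => h.mk_app_eq ha (hsb _) hx (hs2 _)
  let L : K →ₗ[ℂ] K :=
    { toFun := fun v => mk (fun n => a n (s v n))
      map_add' := fun v w => by
        have e1 : mk (fun n => s v n + s w n) = v + w := by
          rw [h.add _ _ (hsb v) (hsb w), hs2, hs2]
        have e2 := key _ ((hsb v).add (hsb w))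
        rw [e1] at e2
        rw [e2, ← h.add _ _ (ha.app (hsb v)) (ha.app (hsb w))]
        simp only [map_add]
      map_smul' := fun c v => by
        have e1 : mk (fun n => c • s v n) = c • v := by
          rw [h.smul _ _ (hsb v), hs2]
        have e2 := key _ ((hsb v).smul c)
        rw [e1] at e2
        rw [e2, RingHom.id_apply, ← h.smul _ _ (ha.app (hsb v))]
        simp only [map_smul] }
  refine ⟨L.mkContinuous C fun v => ?_, fun x hx => key x hx⟩
  exact h.norm_mk_le fun n => ((a n).le_opNorm _).trans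
    (mul_le_mul (hC n) (hs1 v n) (norm_nonneg _) hC0)

end HUP

end Pool.Agent.Helper23

end

section

open scoped InnerProductSpace Topology

open ContinuousLinearMap Filter

namespace Pool.Agent.Helper23

universe u

variable {H : Type u} [NormedAddCommGroup H] [InnerProductSpace ℂ H] [CompleteSpace H]

variable {L : Type u} [NormedAddCommGroup L] [InnerProductSpace ℂ L] [CompleteSpace L]

variable {K : Type u} [NormedAddCommGroup K] [InnerProductSpace ℂ K] [CompleteSpace K]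

variable {M N A : VonNeumannAlgebra H} {ξ : H} {E : (H →L[ℂ] H) → (H →L[ℂ] H)}

section AppS

lemma ocS_add {x y : ℕ → H →L[ℂ] H} (hx : x ∈ AppS M ξ) (hy : y ∈ AppS M ξ) :
    (fun n => x n + y n) ∈ AppS M ξ := by
  refine ⟨AppR_add hx.1 hy.1, ?_⟩
  have h := AppR_add hx.2 hy.2
  have e : (fun n => star (x n) + star (y n)) = fun n => star (x n + y n) := by
    funext n; rw [star_add]
  rwa [e] at h

lemma ocS_bdd {x : ℕ → H →L[ℂ] H} (hx : x ∈ AppS M ξ) : Bdd x := hx.1.2.1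

lemma ocB_const {G : Type*} [NormedAddCommGroup G] (v : G) : Bdd (fun _ : ℕ => v) :=
  ⟨‖v‖, fun _ => le_rfl⟩

lemma ocB_app {x : ℕ → H →L[ℂ] H} (hx : Bdd x) (v : H) : Bdd (fun n => x n v) :=
  hx.app (ocB_const v)

end AppS

/-- the space of the ultrapower -/
def Vs (M : VonNeumannAlgebra H) (ξ : H) (mk : (ℕ → H) → L) : Submodule ℂ L :=
  (Submodule.span ℂ {v | ∃ x ∈ AppS M ξ, v = mk fun n => x n ξ}).topologicalClosure

namespace HUP

variable {mk : (ℕ → H) → L} (h : HUP mk)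

lemma mem_Vs {x : ℕ → H →L[ℂ] H} (hx : x ∈ AppS M ξ) : (mk fun n => x n ξ) ∈ Vs M ξ mk :=
  Submodule.le_topologicalClosure _ (Submodule.subset_span ⟨x, hx, rfl⟩)

end HUP

end Pool.Agent.Helper23

end

section

open scoped InnerProductSpace Topology

open ContinuousLinearMap Filter

namespace Pool.Agent.Helper23

universe u

variable {H : Type u} [NormedAddCommGroup H] [InnerProductSpace ℂ H] [CompleteSpace H]

variable {K : Type u} [NormedAddCommGroup K] [InnerProductSpace ℂ K] [CompleteSpace K]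

variable {A : VonNeumannAlgebra H} {P : Set (ℕ → H →L[ℂ] H)} {ξ : H} {ζ : K}
  {rep : (ℕ → H →L[ℂ] H) → (K →L[ℂ] K)}

namespace SeqRep

lemma pow_mem (h : SeqRep A P ξ ζ rep) {x : ℕ → H →L[ℂ] H} (hx : x ∈ P) (k : ℕ) :
    (fun n => x n ^ k) ∈ P ∧ rep (fun n => x n ^ k) = rep x ^ k := by
  induction k with
  | zero => simpa using h.one
  | succ k ih =>
    have h1 := h.mul _ ih.1 x hx
    rw [ih.2] at h1
    simpa [pow_succ] using h1

lemma aeval_mem (h : SeqRep A P ξ ζ rep) {x : ℕ → H →L[ℂ] H} (hx : x ∈ P) (p : Polynomial ℂ) :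
    (fun n => Polynomial.aeval (x n) p) ∈ P ∧
      rep (fun n => Polynomial.aeval (x n) p) = Polynomial.aeval (rep x) p := by
  induction p using Polynomial.induction_on' with
  | add p q hp hq =>
    have h1 := h.add _ hp.1 _ hq.1
    rw [hp.2, hq.2] at h1
    simpa using h1
  | monomial k a =>
    have h1 := h.pow_mem hx k
    have h2 := h.smul a _ h1.1
    rw [h1.2] at h2
    simpa [Polynomial.aeval_monomial, Algebra.smul_def] using h2

lemma sub_mem (h : SeqRep A P ξ ζ rep) {x y : ℕ → H →L[ℂ] H} (hx : x ∈ P) (hy : y ∈ P) :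
    (fun n => x n - y n) ∈ P ∧ rep (fun n => x n - y n) = rep x - rep y := by
  have h1 := h.smul (-1) y hy
  have h2 := h.add x hx _ h1.1
  rw [h1.2] at h2
  have e : (fun n => x n + (-1 : ℂ) • y n) = fun n => x n - y n := by
    funext n; rw [neg_one_smul, sub_eq_add_neg]
  rw [e, neg_one_smul, ← sub_eq_add_neg] at h2
  exact h2

end SeqRep

/-- the image of a representation of sequences as a star subalgebra -/
noncomputable def SeqRep.alg (h : SeqRep A P ξ ζ rep) : StarSubalgebra ℂ (K →L[ℂ] K) where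
  carrier := rep '' P
  mul_mem' := by
    rintro _ _ ⟨x, hx, rfl⟩ ⟨y, hy, rfl⟩
    exact ⟨_, (h.mul x hx y hy).1, (h.mul x hx y hy).2⟩
  one_mem' := ⟨_, h.one.1, h.one.2⟩
  add_mem' := by
    rintro _ _ ⟨x, hx, rfl⟩ ⟨y, hy, rfl⟩
    exact ⟨_, (h.add x hx y hy).1, (h.add x hx y hy).2⟩
  zero_mem' := ⟨_, (h.smul 0 _ h.one.1).1, by rw [(h.smul 0 _ h.one.1).2, zero_smul]⟩
  algebraMap_mem' := fun c => ⟨_, (h.smul c _ h.one.1).1, by
    rw [(h.smul c _ h.one.1).2, h.one.2, Algebra.algebraMap_eq_smul_one]⟩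
  star_mem' := by
    rintro _ ⟨x, hx, rfl⟩
    exact ⟨_, (h.star_mem x hx).1, (h.star_mem x hx).2⟩

end Pool.Agent.Helper23

end

section

open scoped InnerProductSpace Topology

open ContinuousLinearMap Filter

namespace Pool.Agent.Helper23

universe u

variable {H : Type u} [NormedAddCommGroup H] [InnerProductSpace ℂ H] [CompleteSpace H]

variable {K : Type u} [NormedAddCommGroup K] [InnerProductSpace ℂ K] [CompleteSpace K]

variable {M N : VonNeumannAlgebra H} {ξ : H} {E : (H →L[ℂ] H) → (H →L[ℂ] H)}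

namespace U10

lemma eventually_ge (k : ℕ) : ∀ᶠ n in (UU : Filter ℕ), k ≤ n := by
  have h1 : (UU : Filter ℕ) ≤ atTop := by
    rw [← Nat.cofinite_eq_atTop]
    exact Filter.hyperfilter_le_cofinite
  exact h1 (eventually_ge_atTop k)

/-- diagonalisation along the ultrafilter -/
lemma exists_diag {P : ℕ → ℕ → Prop} (h : ∀ k, ∀ᶠ n in (UU : Filter ℕ), P k n) :
    ∃ k : ℕ → ℕ, (∀ᶠ n in (UU : Filter ℕ), P (k n) n) ∧
      ∀ m, ∀ᶠ n in (UU : Filter ℕ), m ≤ k n := by
  classical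
  refine ⟨fun n => Nat.findGreatest (fun k => P k n) n, ?_, fun m => ?_⟩
  · filter_upwards [h 0] with n hn
    exact Nat.findGreatest_spec (P := fun k => P k n) (Nat.zero_le n) hn
  · filter_upwards [h m, eventually_ge m] with n hn hm
    exact Nat.le_findGreatest (P := fun k => P k n) hm hn

lemma not_eventually {p : ℕ → Prop} (h : ¬ ∀ᶠ n in (UU : Filter ℕ), p n) :
    ∀ᶠ n in (UU : Filter ℕ), ¬ p n := Ultrafilter.eventually_not.2 h

lemma appS_add {x y : ℕ → H →L[ℂ] H} (hx : x ∈ AppS M ξ) (hy : y ∈ AppS M ξ) :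
    (fun n => x n + y n) ∈ AppS M ξ := by
  refine ⟨AppR_add hx.1 hy.1, ?_⟩
  have := AppR_add hx.2 hy.2
  simpa only [star_add] using this

end U10

end Pool.Agent.Helper23

end

section

open scoped InnerProductSpace Topology BoundedContinuousFunction

open ContinuousLinearMap Filter

namespace Pool.Agent.Helper23

universe u

variable {H : Type u} [NormedAddCommGroup H] [InnerProductSpace ℂ H] [CompleteSpace H]

variable {K : Type u} [NormedAddCommGroup K] [InnerProductSpace ℂ K] [CompleteSpace K]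

variable {M N : VonNeumannAlgebra H} {ξ : H} {E : (H →L[ℂ] H) → (H →L[ℂ] H)}

lemma U11.AppS_add {x y : ℕ → H →L[ℂ] H} (hx : x ∈ AppS M ξ) (hy : y ∈ AppS M ξ) :
    (fun n => x n + y n) ∈ AppS M ξ := by
  refine ⟨AppR_add hx.1 hy.1, ?_⟩
  have h := AppR_add hx.2 hy.2
  have e : (fun n => star (x n + y n)) = fun n => star (x n) + star (y n) := by
    funext n; rw [star_add]
  rw [e]
  exact h

end Pool.Agent.Helper23

end

section

open scoped InnerProductSpace Topology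

open ContinuousLinearMap Filter

namespace Pool.Agent.Helper23

universe u

variable {H : Type u} [NormedAddCommGroup H] [InnerProductSpace ℂ H] [CompleteSpace H]

variable {K : Type u} [NormedAddCommGroup K] [InnerProductSpace ℂ K] [CompleteSpace K]

variable {M N : VonNeumannAlgebra H} {ξ : H} {E : (H →L[ℂ] H) → (H →L[ℂ] H)}

lemma u12_AppS_add {x y : ℕ → H →L[ℂ] H} (hx : x ∈ AppS M ξ) (hy : y ∈ AppS M ξ) :
    (fun n => x n + y n) ∈ AppS M ξ := by
  refine ⟨AppR_add hx.1 hy.1, ?_⟩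
  have := AppR_add hx.2 hy.2
  simpa only [star_add] using this

lemma u12_UU_le : (UU : Filter ℕ) ≤ atTop := by
  rw [← Nat.cofinite_eq_atTop]
  exact Filter.hyperfilter_le_cofinite

end Pool.Agent.Helper23

end

end

section

section

open scoped InnerProductSpace Topology

open ContinuousLinearMap Filter

namespace Pool.Agent.Helper23

universe u

section lims

/-- bounded sequences of scalars converge along the ultrafilter -/
theorem exists_ulim {f : ℕ → ℂ} (hf : Bdd f) : ∃ c : ℂ, Tendsto f (UU : Filter ℕ) (𝓝 c) := by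
  obtain ⟨C, hC⟩ := hf
  obtain ⟨c, -, hc⟩ := (isCompact_closedBall (0 : ℂ) C).ultrafilter_le_nhds (UU.map f) (by
    rw [Ultrafilter.coe_map, le_principal_iff, mem_map]
    exact Filter.univ_mem' fun n => by simpa using hC n)
  exact ⟨c, hc⟩

open Classical in
/-- the limit along the ultrafilter -/
noncomputable def ulim (f : ℕ → ℂ) : ℂ :=
  if h : ∃ c : ℂ, Tendsto f (UU : Filter ℕ) (𝓝 c) then h.choose else 0

theorem tendsto_ulim {f : ℕ → ℂ} (hf : Bdd f) : Tendsto f (UU : Filter ℕ) (𝓝 (ulim f)) := by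
  unfold ulim
  rw [dif_pos (exists_ulim hf)]
  exact (exists_ulim hf).choose_spec

theorem ulim_eq {f : ℕ → ℂ} {c : ℂ} (h : Tendsto f (UU : Filter ℕ) (𝓝 c)) : ulim f = c := by
  have := UU_neBot
  have h1 : ∃ c : ℂ, Tendsto f (UU : Filter ℕ) (𝓝 c) := ⟨c, h⟩
  unfold ulim
  rw [dif_pos h1]
  exact tendsto_nhds_unique h1.choose_spec h

end lims

section bdd

variable {G : Type*} [NormedAddCommGroup G]

theorem Bdd.zero : Bdd (fun _ : ℕ => (0 : G)) := ⟨0, fun n => by simp⟩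

theorem Bdd.inner {H : Type*} [NormedAddCommGroup H] [InnerProductSpace ℂ H] {x y : ℕ → H}
    (hx : Bdd x) (hy : Bdd y) : Bdd (fun n => ⟪x n, y n⟫_ℂ) := by
  obtain ⟨C, hC⟩ := hx
  obtain ⟨D, hD⟩ := hy
  refine ⟨C * D, fun n => (norm_inner_le_norm _ _).trans ?_⟩
  exact mul_le_mul (hC n) (hD n) (norm_nonneg _) ((norm_nonneg _).trans (hC n))

end bdd

section BSeq

variable (H : Type u) [NormedAddCommGroup H] [InnerProductSpace ℂ H]

/-- the bounded sequences as a submodule -/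
def bsub : Submodule ℂ (ℕ → H) where
  carrier := {x | Bdd x}
  add_mem' := fun hx hy => hx.add hy
  zero_mem' := Bdd.zero
  smul_mem' := fun c _ hx => hx.smul c

/-- the bounded sequences, to be given the seminorm of the ultrapower -/
def BSeq : Type u := bsub H

noncomputable instance : AddCommGroup (BSeq H) := inferInstanceAs (AddCommGroup (bsub H))

noncomputable instance : Module ℂ (BSeq H) := inferInstanceAs (Module ℂ (bsub H))

variable {H}

/-- the underlying sequence -/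
def BSeq.v (x : BSeq H) : ℕ → H := Subtype.val (p := fun x => x ∈ bsub H) x

theorem BSeq.bdd (x : BSeq H) : Bdd x.v := Subtype.prop (p := fun x => x ∈ bsub H) x

/-- the element given by a bounded sequence -/
def BSeq.of (x : ℕ → H) (hx : Bdd x) : BSeq H := (⟨x, hx⟩ : bsub H)

theorem BSeq.add_v (x y : BSeq H) (n : ℕ) : (x + y).v n = x.v n + y.v n := rfl

theorem BSeq.sub_v (x y : BSeq H) (n : ℕ) : (x - y).v n = x.v n - y.v n := rfl

theorem BSeq.smul_v (c : ℂ) (x : BSeq H) (n : ℕ) : (c • x).v n = c • x.v n := rfl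

theorem BSeq.tendsto_inner (x y : BSeq H) :
    Tendsto (fun n => ⟪x.v n, y.v n⟫_ℂ) (UU : Filter ℕ) (𝓝 (ulim fun n => ⟪x.v n, y.v n⟫_ℂ)) :=
  tendsto_ulim (x.bdd.inner y.bdd)

/-- the semi-inner product -/
@[instance_reducible] noncomputable def bcore : PreInnerProductSpace.Core ℂ (BSeq H) where
  inner x y := ulim fun n => ⟪x.v n, y.v n⟫_ℂ
  conj_inner_symm x y := by
    refine (ulim_eq ?_).symm
    refine ((Complex.continuous_conj.tendsto _).comp (BSeq.tendsto_inner y x)).congr fun n => ?_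
    exact inner_conj_symm _ _
  re_inner_nonneg x := by
    have := UU_neBot
    refine ge_of_tendsto ((Complex.continuous_re.tendsto _).comp (BSeq.tendsto_inner x x)) ?_
    exact Filter.Eventually.of_forall fun n => inner_self_nonneg (𝕜 := ℂ) (x := x.v n)
  add_left x y z := by
    refine ulim_eq ?_
    refine ((BSeq.tendsto_inner x z).add (BSeq.tendsto_inner y z)).congr fun n => ?_
    rw [BSeq.add_v, inner_add_left]
  smul_left x y r := by
    refine ulim_eq ?_
    refine ((BSeq.tendsto_inner x y).const_mul _).congr fun n => ?_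
    rw [BSeq.smul_v, inner_smul_left]

noncomputable instance : SeminormedAddCommGroup (BSeq H) :=
  @InnerProductSpace.Core.toSeminormedAddCommGroup ℂ (BSeq H) _ _ _ bcore

noncomputable instance : InnerProductSpace ℂ (BSeq H) := InnerProductSpace.ofCore bcore

theorem BSeq.inner_tendsto (x y : BSeq H) :
    Tendsto (fun n => ⟪x.v n, y.v n⟫_ℂ) (UU : Filter ℕ) (𝓝 ⟪x, y⟫_ℂ) :=
  BSeq.tendsto_inner x y

theorem BSeq.norm_tendsto (x : BSeq H) : Tendsto (fun n => ‖x.v n‖) (UU : Filter ℕ) (𝓝 ‖x‖) :=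
  norm_tendsto_of_inner (BSeq.inner_tendsto x x)

theorem UU_le_atTop : (UU : Filter ℕ) ≤ atTop := by
  unfold UU
  rw [← Nat.cofinite_eq_atTop]
  exact hyperfilter_le_cofinite

instance : CompleteSpace (BSeq H) := by
  have := UU_neBot
  refine Metric.complete_of_convergent_controlled_sequences (fun N => (1 / 2) ^ N) (by simp) ?_
  intro z hz
  -- closeness of consecutive terms
  let P : ℕ → ℕ → Prop := fun n k => ∀ j < k, ‖(z j).v n - (z (j + 1)).v n‖ < (1 / 2) ^ j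
  classical
  let κ : ℕ → ℕ := fun n => Nat.findGreatest (P n) n
  have hκ : ∀ n, P n (κ n) := fun n =>
    Nat.findGreatest_spec (P := P n) (Nat.zero_le n) (fun j hj => absurd hj (Nat.not_lt_zero _))
  have hgeo : ∀ n k d, (∀ j < k + d, ‖(z j).v n - (z (j + 1)).v n‖ < (1 / 2 : ℝ) ^ j) →
      ‖(z k).v n - (z (k + d)).v n‖ ≤ 2 * (1 / 2) ^ k - 2 * (1 / 2) ^ (k + d) := by
    intro n k d
    induction d with
    | zero => intro _; simp
    | succ d ih =>
      intro h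
      have h1 := ih fun j hj => h j (by omega)
      have h2 := (h (k + d) (by omega)).le
      calc ‖(z k).v n - (z (k + (d + 1))).v n‖
          ≤ ‖(z k).v n - (z (k + d)).v n‖ + ‖(z (k + d)).v n - (z (k + d + 1)).v n‖ :=
            norm_sub_le_norm_sub_add_norm_sub _ _ _
        _ ≤ _ := by
            rw [show k + (d + 1) = k + d + 1 by ring, pow_succ (1 / 2 : ℝ) (k + d)]
            linarith
  have hclose : ∀ n k, k ≤ κ n → ‖(z k).v n - (z (κ n)).v n‖ ≤ 2 * (1 / 2) ^ k := by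
    intro n k hk
    obtain ⟨d, hd⟩ := Nat.exists_eq_add_of_le hk
    have h1 := hgeo n k d (by rw [← hd]; exact hκ n)
    rw [← hd] at h1
    have : (0 : ℝ) ≤ 2 * (1 / 2) ^ κ n := by positivity
    (clear * - h1 this; linarith)
  have hbdd : Bdd (fun n => (z (κ n)).v n) := by
    obtain ⟨C, hC⟩ := (z 0).bdd
    refine ⟨C + 2, fun n => ?_⟩
    have h1 := hclose n 0 (Nat.zero_le _)
    have h2 := hC n
    have h3 : ‖(z (κ n)).v n‖ ≤ ‖(z 0).v n‖ + ‖(z 0).v n - (z (κ n)).v n‖ := by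
      have := norm_sub_le ((z 0).v n) ((z 0).v n - (z (κ n)).v n)
      rwa [sub_sub_cancel] at this
    simp only [pow_zero, mul_one] at h1
    linarith
  refine ⟨BSeq.of _ hbdd, ?_⟩
  rw [tendsto_iff_dist_tendsto_zero]
  have hle : ∀ k, dist (z k) (BSeq.of _ hbdd) ≤ 2 * (1 / 2) ^ k := by
    intro k
    rw [dist_eq_norm]
    refine le_of_tendsto (BSeq.norm_tendsto _) ?_
    have hj : ∀ j, ∀ᶠ n in (UU : Filter ℕ), ‖(z j).v n - (z (j + 1)).v n‖ < (1 / 2 : ℝ) ^ j := by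
      intro j
      have h1 := BSeq.norm_tendsto (z j - z (j + 1))
      have h2 := hz j j (j + 1) le_rfl (by omega)
      rw [dist_eq_norm] at h2
      exact h1.eventually_lt_const h2
    have hall : ∀ᶠ n in (UU : Filter ℕ), ∀ j ∈ Finset.range k,
        ‖(z j).v n - (z (j + 1)).v n‖ < (1 / 2 : ℝ) ^ j :=
      (Filter.eventually_all_finset _).2 fun j _ => hj j
    have hge : ∀ᶠ n in (UU : Filter ℕ), k ≤ n := UU_le_atTop (eventually_ge_atTop k)
    filter_upwards [hall, hge] with n h1 h2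
    have h3 : k ≤ κ n := Nat.le_findGreatest h2 fun j hj => h1 j (Finset.mem_range.2 hj)
    rw [BSeq.sub_v]
    exact hclose n k h3
  refine squeeze_zero (fun _ => dist_nonneg) hle ?_
  have := (tendsto_pow_atTop_nhds_zero_of_lt_one (r := (1 / 2 : ℝ)) (by norm_num)
    (by norm_num)).const_mul 2
  simpa using this

end BSeq

open Classical in
/-- the class of a sequence -/
noncomputable def bmk (H : Type u) [NormedAddCommGroup H] [InnerProductSpace ℂ H] (x : ℕ → H) :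
    SeparationQuotient (BSeq H) :=
  if h : Bdd x then SeparationQuotient.mk (BSeq.of x h) else 0

theorem bmk_of {H : Type u} [NormedAddCommGroup H] [InnerProductSpace ℂ H] {x : ℕ → H}
    (h : Bdd x) : bmk H x = SeparationQuotient.mk (BSeq.of x h) := by
  unfold bmk; rw [dif_pos h]

theorem exists_HUP (H : Type u) [NormedAddCommGroup H] [InnerProductSpace ℂ H] [CompleteSpace H] :
    ∃ (K : Type u) (_ : NormedAddCommGroup K) (_ : InnerProductSpace ℂ K) (_ : CompleteSpace K)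
      (mk : (ℕ → H) → K), HUP mk := by
  refine ⟨SeparationQuotient (BSeq H), inferInstance, inferInstance, inferInstance, bmk H, ?_⟩
  have hin : ∀ x y : ℕ → H, Bdd x → Bdd y →
      Tendsto (fun n => ⟪x n, y n⟫_ℂ) (UU : Filter ℕ) (𝓝 ⟪bmk H x, bmk H y⟫_ℂ) := by
    intro x y hx hy
    rw [bmk_of hx, bmk_of hy, SeparationQuotient.inner_mk_mk]
    exact BSeq.inner_tendsto (BSeq.of x hx) (BSeq.of y hy)
  refine ⟨?_, ?_, hin, ?_⟩
  · intro x y hx hy
    rw [bmk_of (hx.add hy), bmk_of hx, bmk_of hy, ← SeparationQuotient.mk_add]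
    rfl
  · intro c x hx
    rw [bmk_of (hx.smul c), bmk_of hx, ← SeparationQuotient.mk_smul]
    rfl
  · intro v
    obtain ⟨z, rfl⟩ := SeparationQuotient.surjective_mk v
    have hz : Tendsto (fun n => ‖z.v n‖) (UU : Filter ℕ) (𝓝 ‖SeparationQuotient.mk z‖) := by
      rw [SeparationQuotient.norm_mk]; exact BSeq.norm_tendsto z
    choose y hy1 hy2 using fun n =>
      hup_exists_trunc (z.v n) (norm_nonneg (SeparationQuotient.mk z : SeparationQuotient (BSeq H)))
    have hyb : Bdd y := ⟨_, hy1⟩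
    refine ⟨y, hy1, ?_⟩
    rw [bmk_of hyb, eq_comm, ← sub_eq_zero, ← norm_eq_zero, ← SeparationQuotient.mk_sub,
      SeparationQuotient.norm_mk]
    have := UU_neBot
    refine tendsto_nhds_unique (BSeq.norm_tendsto (z - BSeq.of y hyb)) ?_
    refine squeeze_zero (fun n => norm_nonneg _) (fun n => hy2 n) ?_
    have := (hz.sub_const ‖SeparationQuotient.mk z‖).abs
    simpa using this

end Pool.Agent.Helper23

end

end

section

section

open scoped InnerProductSpace Topology BoundedContinuousFunction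

open ContinuousLinearMap Filter

namespace Pool.Agent.Helper23

universe u

variable {H : Type u} [NormedAddCommGroup H] [InnerProductSpace ℂ H] [CompleteSpace H]

variable {K : Type u} [NormedAddCommGroup K] [InnerProductSpace ℂ K] [CompleteSpace K]

variable {M N : VonNeumannAlgebra H} {ξ : H} {E : (H →L[ℂ] H) → (H →L[ℂ] H)}

theorem AppS_star {x : ℕ → H →L[ℂ] H} (hx : x ∈ AppS M ξ) :
    (fun n => star (x n)) ∈ AppS M ξ := by
  refine ⟨hx.2, ?_⟩
  simpa only [star_star] using hx.1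

theorem AppS_add {x y : ℕ → H →L[ℂ] H} (hx : x ∈ AppS M ξ) (hy : y ∈ AppS M ξ) :
    (fun n => x n + y n) ∈ AppS M ξ := by
  refine ⟨AppR_add hx.1 hy.1, ?_⟩
  have := AppR_add hx.2 hy.2
  simpa only [star_add] using this

end Pool.Agent.Helper23

end

end

section

section

open scoped InnerProductSpace Topology

open ContinuousLinearMap Filter

namespace Pool.Agent.Helper23

variable {H : Type*} [NormedAddCommGroup H] [InnerProductSpace ℂ H] [CompleteSpace H]

variable {K : Type*} [NormedAddCommGroup K] [InnerProductSpace ℂ K] [CompleteSpace K]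

/-- the operator on the ultrapower given by a bounded sequence of operators -/
noncomputable def opU (mk : (ℕ → H) → K) (a : ℕ → H →L[ℂ] H) : K →L[ℂ] K :=
  open Classical in
  if h : ∃ T : K →L[ℂ] K, ∀ x, Bdd x → T (mk x) = mk (fun n => a n (x n)) then h.choose else 0

end Pool.Agent.Helper23

end

section

open scoped InnerProductSpace Topology

open ContinuousLinearMap Filter

namespace Pool.Agent.Helper23

universe u

variable {H : Type u} [NormedAddCommGroup H] [InnerProductSpace ℂ H] [CompleteSpace H]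

variable {M N : VonNeumannAlgebra H} {ξ : H} {E : (H →L[ℂ] H) → (H →L[ℂ] H)}

section U2

/-- closedness -/
theorem AppR_limit {x : ℕ → H →L[ℂ] H} (hx : ∀ n, x n ∈ M) (hb : Bdd x)
    (h : ∀ ε : ℝ, 0 < ε → ∃ y ∈ AppR M ξ, ∀ᶠ n in (UU : Filter ℕ), ‖x n ξ - y n ξ‖ ≤ ε) :
    x ∈ AppR M ξ := by
  refine ⟨hx, hb, fun ε hε => ?_⟩
  obtain ⟨y, ⟨-, -, hy⟩, h1⟩ := h (ε / 2) (by (clear * - hε; positivity))
  obtain ⟨r, hr, hrB, h2⟩ := hy (ε / 2) (by (clear * - hε; positivity))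
  refine ⟨r, hr, hrB, ?_⟩
  filter_upwards [h1, h2] with n h3 h4
  have e1 : x n ξ - r n ξ = (x n ξ - y n ξ) + (y n ξ - r n ξ) := by abel
  rw [e1]
  linarith [norm_add_le (x n ξ - y n ξ) (y n ξ - r n ξ)]

end U2

end Pool.Agent.Helper23

end

section

open scoped InnerProductSpace Topology

open ContinuousLinearMap Filter

namespace Pool.Agent.Helper23

universe u

variable {H : Type u} [NormedAddCommGroup H] [InnerProductSpace ℂ H] [CompleteSpace H]

variable {K : Type u} [NormedAddCommGroup K] [InnerProductSpace ℂ K] [CompleteSpace K]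

namespace HUP

variable {mk : (ℕ → H) → K} (h : HUP mk)

include h

theorem opU_mk {a : ℕ → H →L[ℂ] H} (ha : Bdd a) {x : ℕ → H} (hx : Bdd x) :
    opU mk a (mk x) = mk (fun n => a n (x n)) := by
  unfold opU
  rw [dif_pos (h.exists_op ha)]
  exact (h.exists_op ha).choose_spec x hx

theorem opU_norm {a : ℕ → H →L[ℂ] H} {C : ℝ} (ha : ∀ n, ‖a n‖ ≤ C) : ‖opU mk a‖ ≤ C := by
  have hC0 : 0 ≤ C := (norm_nonneg _).trans (ha 0)
  refine ContinuousLinearMap.opNorm_le_bound _ hC0 fun v => ?_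
  obtain ⟨x, hx, rfl⟩ := h.surj v
  rw [h.opU_mk ⟨C, ha⟩ ⟨_, hx⟩]
  exact h.norm_mk_le fun n => ((a n).le_opNorm _).trans
    (mul_le_mul (ha n) (hx n) (norm_nonneg _) hC0)

theorem opU_add {a b : ℕ → H →L[ℂ] H} (ha : Bdd a) (hb : Bdd b) :
    opU mk (fun n => a n + b n) = opU mk a + opU mk b := by
  ext v
  obtain ⟨x, hx, rfl⟩ := h.surj v
  have hx : Bdd x := ⟨_, hx⟩
  rw [_root_.add_apply, h.opU_mk (ha.add hb) hx, h.opU_mk ha hx, h.opU_mk hb hx,
    ← h.add _ _ (ha.app hx) (hb.app hx)]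
  rfl

theorem opU_smul (c : ℂ) {a : ℕ → H →L[ℂ] H} (ha : Bdd a) :
    opU mk (fun n => c • a n) = c • opU mk a := by
  ext v
  obtain ⟨x, hx, rfl⟩ := h.surj v
  have hx : Bdd x := ⟨_, hx⟩
  rw [_root_.smul_apply, h.opU_mk (ha.smul c) hx, h.opU_mk ha hx,
    ← h.smul _ _ (ha.app hx)]
  rfl

theorem bdd_mul {a b : ℕ → H →L[ℂ] H} (ha : Bdd a) (hb : Bdd b) : Bdd (fun n => a n * b n) := by
  obtain ⟨C, hC⟩ := ha
  obtain ⟨D, hD⟩ := hb
  exact ⟨C * D, fun n => (norm_mul_le _ _).trans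
    (mul_le_mul (hC n) (hD n) (norm_nonneg _) ((norm_nonneg _).trans (hC n)))⟩

theorem opU_mul {a b : ℕ → H →L[ℂ] H} (ha : Bdd a) (hb : Bdd b) :
    opU mk (fun n => a n * b n) = opU mk a * opU mk b := by
  ext v
  obtain ⟨x, hx, rfl⟩ := h.surj v
  have hx : Bdd x := ⟨_, hx⟩
  rw [mul_apply_eq_comp, h.opU_mk (h.bdd_mul ha hb) hx, h.opU_mk hb hx,
    h.opU_mk ha (hb.app hx)]
  rfl

theorem opU_star {a : ℕ → H →L[ℂ] H} (ha : Bdd a) :
    opU mk (fun n => star (a n)) = star (opU mk a) := by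
  have := UU_neBot
  have ha' : Bdd (fun n => star (a n)) := by
    obtain ⟨C, hC⟩ := ha
    exact ⟨C, fun n => by rw [norm_star]; exact hC n⟩
  refine ContinuousLinearMap.ext fun v => ?_
  refine ext_inner_right ℂ fun w => ?_
  obtain ⟨x, hx, rfl⟩ := h.surj v
  obtain ⟨y, hy, rfl⟩ := h.surj w
  have hx : Bdd x := ⟨_, hx⟩
  have hy : Bdd y := ⟨_, hy⟩
  rw [ContinuousLinearMap.star_eq_adjoint, ContinuousLinearMap.adjoint_inner_left,
    h.opU_mk ha' hx, h.opU_mk ha hy]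
  refine tendsto_nhds_unique (h.inner _ _ (ha'.app hx) hy) ?_
  refine (h.inner _ _ hx (ha.app hy)).congr fun n => ?_
  rw [ContinuousLinearMap.star_eq_adjoint, ContinuousLinearMap.adjoint_inner_left]

theorem opU_one : opU mk (fun _ => (1 : H →L[ℂ] H)) = 1 := by
  ext v
  obtain ⟨x, hx, rfl⟩ := h.surj v
  rw [h.opU_mk ⟨‖(1 : H →L[ℂ] H)‖, fun _ => le_rfl⟩ ⟨_, hx⟩]
  rfl

end HUP

end Pool.Agent.Helper23

end

section

open scoped InnerProductSpace Topology

open ContinuousLinearMap Filter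

namespace Pool.Agent.Helper23

universe u

variable {H : Type u} [NormedAddCommGroup H] [InnerProductSpace ℂ H] [CompleteSpace H]

variable {L : Type u} [NormedAddCommGroup L] [InnerProductSpace ℂ L] [CompleteSpace L]

variable {K : Type u} [NormedAddCommGroup K] [InnerProductSpace ℂ K] [CompleteSpace K]

variable {M N A : VonNeumannAlgebra H} {ξ : H} {E : (H →L[ℂ] H) → (H →L[ℂ] H)}

section AppS

lemma ocS_star {x : ℕ → H →L[ℂ] H} (hx : x ∈ AppS M ξ) : (fun n => star (x n)) ∈ AppS M ξ :=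
  ⟨hx.2, by simpa using hx.1⟩

lemma ocS_mem {x : ℕ → H →L[ℂ] H} (hx : x ∈ AppS M ξ) (n : ℕ) : x n ∈ M := hx.1.1 n

end AppS

instance (M : VonNeumannAlgebra H) (ξ : H) (mk : (ℕ → H) → L) : CompleteSpace (Vs M ξ mk) :=
  (Submodule.isClosed_topologicalClosure _).completeSpace_coe

/-- the representation on the space of the ultrapower -/
noncomputable def rp (M : VonNeumannAlgebra H) (ξ : H) (mk : (ℕ → H) → L)
    (x : ℕ → H →L[ℂ] H) : Vs M ξ mk →L[ℂ] Vs M ξ mk :=
  ((Vs M ξ mk).orthogonalProjectionOnto).comp ((opU mk x).comp (Vs M ξ mk).subtypeL)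

namespace HUP

variable {mk : (ℕ → H) → L} (h : HUP mk)

include h

lemma rp_norm {x : ℕ → H →L[ℂ] H} {C : ℝ} (hC : ∀ n, ‖x n‖ ≤ C) : ‖rp M ξ mk x‖ ≤ C := by
  have hC0 : 0 ≤ C := (norm_nonneg _).trans (hC 0)
  refine ContinuousLinearMap.opNorm_le_bound _ hC0 fun v => ?_
  change ‖(Vs M ξ mk).orthogonalProjectionOnto (opU mk x (v : L))‖ ≤ _
  refine (Submodule.norm_orthogonalProjectionOnto_apply_le _ _).trans ?_
  exact (opU mk x).le_of_opNorm_le (h.opU_norm hC) _

end HUP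

end Pool.Agent.Helper23

end

section

open scoped InnerProductSpace Topology

open ContinuousLinearMap Filter

namespace Pool.Agent.Helper23

universe u

variable {H : Type u} [NormedAddCommGroup H] [InnerProductSpace ℂ H] [CompleteSpace H]

variable {L : Type u} [NormedAddCommGroup L] [InnerProductSpace ℂ L] [CompleteSpace L]

variable {M N A : VonNeumannAlgebra H} {ξ : H} {E : (H →L[ℂ] H) → (H →L[ℂ] H)}

/-- the algebra generated by the sequences with values in `A` -/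
noncomputable def Mt (M : VonNeumannAlgebra H) (ξ : H) (mk : (ℕ → H) → L)
    (A : VonNeumannAlgebra H) : VonNeumannAlgebra (Vs M ξ mk) :=
  genVN (rp M ξ mk '' {x | x ∈ AppS M ξ ∧ ∀ n, x n ∈ A})

/-- the expectation on the ultrapower -/
noncomputable def Et (M : VonNeumannAlgebra H) (E : (H →L[ℂ] H) → (H →L[ℂ] H)) (ξ : H)
    (mk : (ℕ → H) → L) (T : Vs M ξ mk →L[ℂ] Vs M ξ mk) : Vs M ξ mk →L[ℂ] Vs M ξ mk :=
  open Classical in
  if h : ∃ x ∈ AppS M ξ, rp M ξ mk x = T then rp M ξ mk (fun n => E (h.choose n)) else 0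

end Pool.Agent.Helper23

end

end
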