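import Pool.Agent.Helper23.FB.Inst

/-!
Parts of Helper23.FA.L00_16, Helper23.FA.L00_13, Helper23.FA.L00_18, Helper23.FA.L00_14, Helper23.FA.L00_09
-/

attribute [local instance 5000]
  Pool.Agent.Helper23.FB.Inst.rCharZero Pool.Agent.Helper23.FB.Inst.rALM
  Pool.Agent.Helper23.FB.Inst.rARM Pool.Agent.Helper23.FB.Inst.rALSM
  Pool.Agent.Helper23.FB.Inst.rARSM Pool.Agent.Helper23.FB.Inst.rARRLE
  Pool.Agent.Helper23.FB.Inst.rALRLE Pool.Agent.Helper23.FB.Inst.rARRLT
  Pool.Agent.Helper23.FB.Inst.rALRLT Pool.Agent.Helper23.FB.Inst.rPMRLT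
  Pool.Agent.Helper23.FB.Inst.rMPRLT Pool.Agent.Helper23.FB.Inst.rPMM
  Pool.Agent.Helper23.FB.Inst.rMPM Pool.Agent.Helper23.FB.Inst.rPMSM
  Pool.Agent.Helper23.FB.Inst.rMPSM Pool.Agent.Helper23.FB.Inst.rEAOL
  Pool.Agent.Helper23.FB.Inst.rIOR Pool.Agent.Helper23.FB.Inst.rISOR
  Pool.Agent.Helper23.FB.Inst.rFS Pool.Agent.Helper23.FB.Inst.rcCharZero
  Pool.Agent.Helper23.FB.Inst.rNZD Pool.Agent.Helper23.FB.Inst.rcNZD
  Pool.Agent.Helper23.FB.Inst.bSemiring Pool.Agent.Helper23.FB.Inst.bStar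
  Pool.Agent.Helper23.FB.Inst.bAlg Pool.Agent.Helper23.FB.Inst.bSub
  Pool.Agent.Helper23.FB.Inst.bMul Pool.Agent.Helper23.FB.Inst.bAdd
  Pool.Agent.Helper23.FB.Inst.iRing Pool.Agent.Helper23.FB.Inst.iSemiring
  Pool.Agent.Helper23.FB.Inst.iAlgC Pool.Agent.Helper23.FB.Inst.iSMulC
  Pool.Agent.Helper23.FB.Inst.iModC Pool.Agent.Helper23.FB.Inst.iAlgR
  Pool.Agent.Helper23.FB.Inst.iSMulR Pool.Agent.Helper23.FB.Inst.iModR
  Pool.Agent.Helper23.FB.Inst.iMonoid Pool.Agent.Helper23.FB.Inst.iSemigroup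
  Pool.Agent.Helper23.FB.Inst.iMulOneClass Pool.Agent.Helper23.FB.Inst.iMul
  Pool.Agent.Helper23.FB.Inst.iAdd Pool.Agent.Helper23.FB.Inst.iSub
  Pool.Agent.Helper23.FB.Inst.iNeg Pool.Agent.Helper23.FB.Inst.iAddCommMonoid
  Pool.Agent.Helper23.FB.Inst.iAddCommGroup Pool.Agent.Helper23.FB.Inst.iAddGroup
  Pool.Agent.Helper23.FB.Inst.iAddMonoid Pool.Agent.Helper23.FB.Inst.iSMulZeroC
  Pool.Agent.Helper23.FB.Inst.iMulActC Pool.Agent.Helper23.FB.Inst.iDSMulC
  Pool.Agent.Helper23.FB.Inst.iDSMulR Pool.Agent.Helper23.FB.Inst.iSNAG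
  Pool.Agent.Helper23.FB.Inst.iSNACG Pool.Agent.Helper23.FB.Inst.iNorm
  Pool.Agent.Helper23.FB.Inst.iNSC' Pool.Agent.Helper23.FB.Inst.iNSR'
  Pool.Agent.Helper23.FB.Inst.iTop Pool.Agent.Helper23.FB.Inst.iT2 Pool.Agent.Helper23.FB.Inst.iTR
  Pool.Agent.Helper23.FB.Inst.iSCC Pool.Agent.Helper23.FB.Inst.iIST
  Pool.Agent.Helper23.FB.Inst.iSCCR Pool.Agent.Helper23.FB.Inst.iISTR
  Pool.Agent.Helper23.FB.Inst.iZHC Pool.Agent.Helper23.FB.Inst.iAHC
  Pool.Agent.Helper23.FB.Inst.iAMHC Pool.Agent.Helper23.FB.Inst.iMAHC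
  Pool.Agent.Helper23.FB.Inst.lTop Pool.Agent.Helper23.FB.Inst.lUnif
  Pool.Agent.Helper23.FB.Inst.lACM Pool.Agent.Helper23.FB.Inst.lACG
  Pool.Agent.Helper23.FB.Inst.lSNAG Pool.Agent.Helper23.FB.Inst.lSNACG
  Pool.Agent.Helper23.FB.Inst.lNACG Pool.Agent.Helper23.FB.Inst.lNorm
  Pool.Agent.Helper23.FB.Inst.lIPS Pool.Agent.Helper23.FB.Inst.lMod
  Pool.Agent.Helper23.FB.Inst.lSMul Pool.Agent.Helper23.FB.Inst.lT2
  Pool.Agent.Helper23.FB.Inst.iStar Pool.Agent.Helper23.FB.Inst.iStarMul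
  Pool.Agent.Helper23.FB.Inst.iStarAddMonoid Pool.Agent.Helper23.FB.Inst.iStarRing
  Pool.Agent.Helper23.FB.Inst.iNSC Pool.Agent.Helper23.FB.Inst.iSOR
  Pool.Agent.Helper23.FB.Inst.iALM Pool.Agent.Helper23.FB.Inst.iARM
  Pool.Agent.Helper23.FB.Inst.iCFC Pool.Agent.Helper23.FB.Inst.iNCFC
  Pool.Agent.Helper23.FB.Inst.iStarModR Pool.Agent.Helper23.FB.Inst.iStarModC
  Pool.Agent.Helper23.FB.Inst.eStar Pool.Agent.Helper23.FB.Inst.eAdd
  Pool.Agent.Helper23.FB.Inst.eMul Pool.Agent.Helper23.FB.Inst.eOne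
  Pool.Agent.Helper23.FB.Inst.eZero Pool.Agent.Helper23.FB.Inst.eMulAction
  Pool.Agent.Helper23.FB.Inst.eAMHC2 Pool.Agent.Helper23.FB.Inst.eZHC2
  Pool.Agent.Helper23.FB.Inst.lAMHC

namespace Pool.Agent.Helper23
end Pool.Agent.Helper23
namespace Pool.Agent.Helper23.ED.FdA
end Pool.Agent.Helper23.ED.FdA
namespace Pool.Agent.Helper23.RBF
end Pool.Agent.Helper23.RBF

section

section

set_option autoImplicit false

open Filter MeasureTheory Topology

namespace Pool.Agent.Helper5.TTD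

lemma norm_sinh_ge (z : ℂ) : |Real.sinh z.re| ≤ ‖Complex.sinh z‖ := by
  have h1 : ‖Complex.sinh z‖ = ‖Complex.exp z - Complex.exp (-z)‖ / 2 := by
    rw [Complex.sinh, norm_div]; norm_num
  have h2 : |‖Complex.exp z‖ - ‖Complex.exp (-z)‖| ≤ ‖Complex.exp z - Complex.exp (-z)‖ :=
    abs_norm_sub_norm_le _ _
  rw [Complex.norm_exp, Complex.norm_exp, Complex.neg_re] at h2
  rw [h1, Real.sinh_eq, abs_div]
  have : |(2 : ℝ)| = 2 := by norm_num
  rw [this]
  (clear * - h2; linarith)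

lemma sinh_ne_zero {z : ℂ} (hz : z ≠ 0) (him : |z.im| ≤ 1 / 2) :
    Complex.sinh (Real.pi * z) ≠ 0 := by
  intro h
  by_cases hre : z.re = 0
  · have hzi : z = z.im * Complex.I := by
      apply Complex.ext <;> simp [hre]
    rw [hzi, ← mul_assoc, ← Complex.ofReal_mul, Complex.sinh_mul_I, ← Complex.ofReal_sin] at h
    have hs : Real.sin (Real.pi * z.im) = 0 := by
      rcases mul_eq_zero.1 h with h | h
      · exact_mod_cast h
      · exact absurd h Complex.I_ne_zero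
    have hne : z.im ≠ 0 := by
      intro h0
      apply hz
      rw [hzi, h0]; simp
    have h3 : -Real.pi < Real.pi * z.im := by
      have := (abs_le.1 him).1
      (clear * - this; nlinarith [Real.pi_pos])
    have h4 : Real.pi * z.im < Real.pi := by
      have := (abs_le.1 him).2
      (clear * - this; nlinarith [Real.pi_pos])
    rw [Real.sin_eq_zero_iff_of_lt_of_lt h3 h4] at hs
    rcases mul_eq_zero.1 hs with h5 | h5
    · exact Real.pi_ne_zero h5
    · exact hne h5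
  · have h1 := norm_sinh_ge (Real.pi * z)
    rw [h, norm_zero] at h1
    have h2 : Real.sinh ((Real.pi * z : ℂ).re) = 0 := abs_eq_zero.1 (le_antisymm h1 (abs_nonneg _))
    rw [Real.sinh_eq_zero] at h2
    simp at h2
    exact hre h2

lemma cosh_ge_pos {x : ℝ} (hx : 0 ≤ x) : 1 + x ^ 2 / 2 ≤ Real.cosh x := by
  have h1 : Real.cosh x = 1 + 2 * Real.sinh (x / 2) ^ 2 := by
    have := Real.cosh_two_mul (x / 2)
    rw [mul_div_cancel₀ x two_ne_zero] at this
    rw [this, Real.cosh_sq]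
    ring
  have h2 : x / 2 ≤ Real.sinh (x / 2) := Real.self_le_sinh_iff.2 (by (clear * - hx; linarith))
  nlinarith

lemma cosh_ge (x : ℝ) : 1 + x ^ 2 / 2 ≤ Real.cosh x := by
  have := cosh_ge_pos (abs_nonneg x)
  rwa [sq_abs, Real.cosh_abs] at this

lemma inv_cosh_le (t : ℝ) : (Real.cosh (Real.pi * t))⁻¹ ≤ (1 + t ^ 2)⁻¹ := by
  have h1 := cosh_ge (Real.pi * t)
  have h2 : 1 + t ^ 2 ≤ Real.cosh (Real.pi * t) := by
    have h3 : (2 : ℝ) ≤ Real.pi ^ 2 := by (clear * -; nlinarith [Real.pi_gt_three])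
    have h4 : 2 * t ^ 2 ≤ Real.pi ^ 2 * t ^ 2 := by
      apply mul_le_mul_of_nonneg_right h3 (sq_nonneg t)
    (clear * - h1 h4; nlinarith)
  exact inv_anti₀ (by (clear * -; positivity)) h2

lemma continuous_inv_cosh : Continuous fun t : ℝ => (Real.cosh (Real.pi * t))⁻¹ := by
  apply Continuous.inv₀
  · fun_prop
  · intro t; exact (Real.cosh_pos _).ne'

lemma integrable_inv_cosh : Integrable fun t : ℝ => (Real.cosh (Real.pi * t))⁻¹ := by
  refine Integrable.mono' integrable_inv_one_add_sq continuous_inv_cosh.aestronglyMeasurable ?_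
  filter_upwards with t
  rw [Real.norm_of_nonneg (inv_nonneg.2 (Real.cosh_pos _).le)]
  exact inv_cosh_le t

lemma integral_inv_cosh : ∫ t : ℝ, (Real.cosh (Real.pi * t))⁻¹ = 1 := by
  have hd : ∀ t : ℝ, HasDerivAt (fun t : ℝ => Real.arctan (Real.sinh (Real.pi * t)) / Real.pi)
      ((Real.cosh (Real.pi * t))⁻¹) t := by
    intro t
    have h1 : HasDerivAt (fun t : ℝ => Real.pi * t) Real.pi t := by
      simpa using (hasDerivAt_id t).const_mul Real.pi
    have h2 := ((Real.hasDerivAt_arctan _).comp t ((Real.hasDerivAt_sinh _).comp t h1)).div_const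
      Real.pi
    refine HasDerivAt.congr_deriv (f := fun t : ℝ => Real.arctan (Real.sinh (Real.pi * t)) / Real.pi)
      h2 ?_
    have hc : Real.cosh (Real.pi * t) ≠ 0 := (Real.cosh_pos _).ne'
    have hs : 1 + Real.sinh (Real.pi * t) ^ 2 = Real.cosh (Real.pi * t) ^ 2 := by
      rw [Real.cosh_sq]; ring
    change 1 / (1 + Real.sinh (Real.pi * t) ^ 2) * (Real.cosh (Real.pi * t) * Real.pi) / Real.pi =
      (Real.cosh (Real.pi * t))⁻¹
    rw [hs]
    have := Real.pi_ne_zero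
    field_simp
  have hsinh_top : Tendsto Real.sinh atTop atTop := by
    refine tendsto_atTop_mono' _ ?_ tendsto_id
    filter_upwards [eventually_ge_atTop (0 : ℝ)] with x hx
    exact Real.self_le_sinh_iff.2 hx
  have hsinh_bot : Tendsto Real.sinh atBot atBot := by
    refine tendsto_atBot_mono' _ ?_ tendsto_id
    filter_upwards [eventually_le_atBot (0 : ℝ)] with x hx
    have := Real.self_le_sinh_iff.2 (neg_nonneg.2 hx)
    rw [Real.sinh_neg] at this
    simp only [id]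
    (clear * - this; linarith)
  have htop : Tendsto (fun t : ℝ => Real.arctan (Real.sinh (Real.pi * t)) / Real.pi) atTop
      (𝓝 (Real.pi / 2 / Real.pi)) := by
    apply Tendsto.div_const
    have h1 : Tendsto Real.arctan atTop (𝓝 (Real.pi / 2)) :=
      Real.tendsto_arctan_atTop.mono_right nhdsWithin_le_nhds
    exact h1.comp (hsinh_top.comp (tendsto_id.const_mul_atTop Real.pi_pos))
  have hbot : Tendsto (fun t : ℝ => Real.arctan (Real.sinh (Real.pi * t)) / Real.pi) atBot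
      (𝓝 (-(Real.pi / 2) / Real.pi)) := by
    apply Tendsto.div_const
    have h1 : Tendsto Real.arctan atBot (𝓝 (-(Real.pi / 2))) :=
      Real.tendsto_arctan_atBot.mono_right nhdsWithin_le_nhds
    exact h1.comp (hsinh_bot.comp (tendsto_id.const_mul_atBot Real.pi_pos))
  rw [integral_of_hasDerivAt_of_tendsto hd integrable_inv_cosh hbot htop]
  have := Real.pi_ne_zero
  field_simp
  norm_num

/-- The case of `β = 0` after absorbing the exponential. -/
lemma strip_aux (F : ℂ → ℂ) (hF : Differentiable ℂ F) (C : ℝ)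
    (hC : ∀ z : ℂ, |z.im| ≤ 1 / 2 → ‖F z‖ ≤ C) :
    ∫ t : ℝ, (((Real.cosh (Real.pi * t))⁻¹ : ℝ) : ℂ) *
      (F (t - Complex.I / 2) + F (t + Complex.I / 2)) = 2 * F 0 := by
  have hC0 : 0 ≤ C := (norm_nonneg _).trans (hC 0 (by norm_num))
  let S : ℂ → ℂ := fun z => Complex.sinh (Real.pi * z)
  have hS : Differentiable ℂ S := by
    intro z
    exact (Complex.differentiable_sinh _).comp z (by fun_prop)
  have hS0 : S 0 = 0 := by simp [S]
  have hSd : deriv S 0 = Real.pi := by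
    have h1 : HasDerivAt (fun z : ℂ => (Real.pi : ℂ) * z) (Real.pi : ℂ) 0 := by
      simpa using (hasDerivAt_id (0 : ℂ)).const_mul (Real.pi : ℂ)
    have h2 := (Complex.hasDerivAt_sinh ((Real.pi : ℂ) * 0)).comp (0 : ℂ) h1
    have h3 : HasDerivAt S (Complex.cosh ((Real.pi : ℂ) * 0) * Real.pi) 0 := h2
    rw [h3.deriv]
    simp
  have hdF : Differentiable ℂ (dslope F 0) := by
    have := (Complex.differentiableOn_dslope (c := (0 : ℂ)) (s := Set.univ) univ_mem).2
      hF.differentiableOn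
    exact differentiableOn_univ.1 this
  have hdS : Differentiable ℂ (dslope S 0) := by
    have := (Complex.differentiableOn_dslope (c := (0 : ℂ)) (s := Set.univ) univ_mem).2
      hS.differentiableOn
    exact differentiableOn_univ.1 this
  have hne : ∀ z : ℂ, |z.im| ≤ 1 / 2 → dslope S 0 z ≠ 0 := by
    intro z hz
    by_cases h0 : z = 0
    · rw [h0, dslope_same, hSd]
      exact_mod_cast Real.pi_ne_zero
    · rw [dslope_of_ne _ h0, slope_def_field, hS0, sub_zero, sub_zero]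
      exact div_ne_zero (sinh_ne_zero h0 hz) h0
  let G : ℂ → ℂ := fun z => dslope F 0 z / dslope S 0 z
  have hG : ∀ z : ℂ, z ≠ 0 → G z = (F z - F 0) / S z := by
    intro z hz
    simp only [G]
    rw [dslope_of_ne _ hz, dslope_of_ne _ hz, slope_def_field, slope_def_field, hS0, sub_zero,
      sub_zero, div_div_div_cancel_right₀ hz]
  have hGb : ∀ z : ℂ, |z.im| ≤ 1 / 2 → z.re ≠ 0 →
      ‖G z‖ ≤ 2 * C / Real.sinh (Real.pi * |z.re|) := by
    intro z hz hre
    have hz0 : z ≠ 0 := by rintro rfl; simp at hre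
    rw [hG z hz0, norm_div]
    have h1 : Real.sinh (Real.pi * |z.re|) ≤ ‖S z‖ := by
      have := norm_sinh_ge (Real.pi * z)
      rw [show ((Real.pi : ℂ) * z).re = Real.pi * z.re by simp] at this
      have h2 : |Real.sinh (Real.pi * z.re)| = Real.sinh (Real.pi * |z.re|) := by
        rw [Real.abs_sinh, abs_mul, abs_of_pos Real.pi_pos]
      rw [h2] at this
      exact this
    have h3 : 0 < Real.sinh (Real.pi * |z.re|) :=
      Real.sinh_pos_iff.2 (mul_pos Real.pi_pos (abs_pos.2 hre))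
    have h4 : ‖F z - F 0‖ ≤ 2 * C := by
      have := norm_sub_le (F z) (F 0)
      have h5 := hC z hz
      have h6 := hC 0 (by norm_num)
      (clear * - this h5 h6; linarith)
    exact div_le_div₀ (by (clear * - hC0; positivity)) h4 h3 h1
  -- values on the horizontal lines
  have hminus : ∀ t : ℝ, G (t - Complex.I / 2) =
      Complex.I * ((((Real.cosh (Real.pi * t))⁻¹ : ℝ) : ℂ) * (F (t - Complex.I / 2) - F 0)) := by
    intro t
    rw [hG _ (by
      intro h
      have := congrArg Complex.im h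
      simp at this)]
    have h1 : S (t - Complex.I / 2) = -Complex.I * Complex.cosh (Real.pi * t) := by
      simp only [S]
      rw [mul_sub, Complex.sinh_sub, show (Real.pi : ℂ) * (Complex.I / 2) =
        (Real.pi / 2 : ℂ) * Complex.I by ring, Complex.cosh_mul_I, Complex.sinh_mul_I,
        Complex.cos_pi_div_two, Complex.sin_pi_div_two]
      ring
    rw [h1]
    push_cast
    have hc : Complex.cosh (Real.pi * t) ≠ 0 := by
      have := (Real.cosh_pos (Real.pi * t)).ne'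
      exact_mod_cast this
    field_simp
    ring_nf
    simp
  have hplus : ∀ t : ℝ, G (t + Complex.I / 2) =
      -(Complex.I * ((((Real.cosh (Real.pi * t))⁻¹ : ℝ) : ℂ) *
        (F (t + Complex.I / 2) - F 0))) := by
    intro t
    rw [hG _ (by
      intro h
      have := congrArg Complex.im h
      simp at this)]
    have h1 : S (t + Complex.I / 2) = Complex.I * Complex.cosh (Real.pi * t) := by
      simp only [S]
      rw [mul_add, Complex.sinh_add, show (Real.pi : ℂ) * (Complex.I / 2) =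
        (Real.pi / 2 : ℂ) * Complex.I by ring, Complex.cosh_mul_I, Complex.sinh_mul_I,
        Complex.cos_pi_div_two, Complex.sin_pi_div_two]
      ring
    rw [h1]
    push_cast
    have hc : Complex.cosh (Real.pi * t) ≠ 0 := by
      have := (Real.cosh_pos (Real.pi * t)).ne'
      exact_mod_cast this
    field_simp
    ring_nf
    simp
    ring
  have hrect : ∀ L : ℝ, 0 < L →
      (∫ x in (-L)..L, G (x - Complex.I / 2)) - (∫ x in (-L)..L, G (x + Complex.I / 2)) +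
      Complex.I • (∫ y in (-(1 / 2 : ℝ))..(1 / 2), G (L + y * Complex.I)) -
      Complex.I • (∫ y in (-(1 / 2 : ℝ))..(1 / 2), G ((-L : ℝ) + y * Complex.I)) = 0 := by
    intro L hL
    have h := Complex.integral_boundary_rect_eq_zero_of_differentiableOn G
      (⟨-L, -(1 / 2)⟩ : ℂ) (⟨L, 1 / 2⟩ : ℂ) (by
        intro z hz
        have hz2 := hz.2
        rw [Set.mem_preimage] at hz2
        rw [Set.uIcc_of_le (by norm_num : -(1 / 2 : ℝ) ≤ 1 / 2)] at hz2
        exact ((hdF z).div (hdS z) (hne z (abs_le.2 ⟨hz2.1, hz2.2⟩))).differentiableWithinAt)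
    simp only at h
    have e1 : ∀ x : ℝ, (x : ℂ) + ((-(1 / 2) : ℝ) : ℂ) * Complex.I = x - Complex.I / 2 := by
      intro x; push_cast; ring
    have e2 : ∀ x : ℝ, (x : ℂ) + ((1 / 2 : ℝ) : ℂ) * Complex.I = x + Complex.I / 2 := by
      intro x; push_cast; ring
    simp only [e1, e2] at h
    exact h
  have hint : ∀ φ : ℝ → ℂ, Continuous φ → (∀ t, ‖φ t‖ ≤ 2 * C) →
      Integrable fun t : ℝ => (((Real.cosh (Real.pi * t))⁻¹ : ℝ) : ℂ) * φ t := by
    intro φ hφ hb
    refine Integrable.mono' (integrable_inv_cosh.mul_const (2 * C)) ?_ ?_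
    · exact ((Complex.continuous_ofReal.comp continuous_inv_cosh).mul hφ).aestronglyMeasurable
    · filter_upwards with t
      rw [norm_mul, Complex.norm_real, Real.norm_of_nonneg (inv_nonneg.2 (Real.cosh_pos _).le)]
      exact mul_le_mul_of_nonneg_left (hb t) (inv_nonneg.2 (Real.cosh_pos _).le)
  have hFm : Continuous fun t : ℝ => F (t - Complex.I / 2) := hF.continuous.comp (by fun_prop)
  have hFp : Continuous fun t : ℝ => F (t + Complex.I / 2) := hF.continuous.comp (by fun_prop)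
  have hbm : ∀ t : ℝ, ‖F (t - Complex.I / 2)‖ ≤ C := fun t => hC _ (by simp)
  have hbp : ∀ t : ℝ, ‖F (t + Complex.I / 2)‖ ≤ C := fun t => hC _ (by simp)
  have hb0 : ‖F 0‖ ≤ C := hC 0 (by norm_num)
  have hIm := hint (fun t => F (t - Complex.I / 2) - F 0) (hFm.sub continuous_const) (fun t => by
    have := norm_sub_le (F (t - Complex.I / 2)) (F 0)
    linarith [hbm t])
  have hIp := hint (fun t => F (t + Complex.I / 2) - F 0) (hFp.sub continuous_const) (fun t => by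
    have := norm_sub_le (F (t + Complex.I / 2)) (F 0)
    linarith [hbp t])
  have hGm : Integrable fun t : ℝ => G (t - Complex.I / 2) := by
    simp only [hminus]
    exact hIm.const_mul _
  have hGp : Integrable fun t : ℝ => G (t + Complex.I / 2) := by
    simp only [hplus]
    exact (hIp.const_mul _).neg
  have hlm : Tendsto (fun L : ℝ => ∫ x in (-L)..L, G (x - Complex.I / 2)) atTop
      (𝓝 (∫ x : ℝ, G (x - Complex.I / 2))) :=
    intervalIntegral_tendsto_integral hGm tendsto_neg_atTop_atBot tendsto_id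
  have hlp : Tendsto (fun L : ℝ => ∫ x in (-L)..L, G (x + Complex.I / 2)) atTop
      (𝓝 (∫ x : ℝ, G (x + Complex.I / 2))) :=
    intervalIntegral_tendsto_integral hGp tendsto_neg_atTop_atBot tendsto_id
  have hsinh_top : Tendsto Real.sinh atTop atTop := by
    refine tendsto_atTop_mono' _ ?_ tendsto_id
    filter_upwards [eventually_ge_atTop (0 : ℝ)] with x hx
    exact Real.self_le_sinh_iff.2 hx
  have hlim0 : Tendsto (fun L : ℝ => 2 * C / Real.sinh (Real.pi * L)) atTop (𝓝 0) :=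
    Tendsto.div_atTop tendsto_const_nhds
      (hsinh_top.comp (tendsto_id.const_mul_atTop Real.pi_pos))
  have hv : ∀ s : ℝ → ℝ, (∀ L, 0 < L → |s L| = L) →
      Tendsto (fun L : ℝ => ∫ y in (-(1 / 2 : ℝ))..(1 / 2), G (s L + y * Complex.I)) atTop
      (𝓝 0) := by
    intro s hs
    apply squeeze_zero_norm' (a := fun L : ℝ => 2 * C / Real.sinh (Real.pi * L)) _ hlim0
    filter_upwards [eventually_gt_atTop (0 : ℝ)] with L hL
    have := intervalIntegral.norm_integral_le_of_norm_le_const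
      (a := -(1 / 2 : ℝ)) (b := 1 / 2) (f := fun y : ℝ => G (s L + y * Complex.I))
      (C := 2 * C / Real.sinh (Real.pi * L)) (by
        intro y hy
        rw [Set.uIoc_of_le (by norm_num)] at hy
        have h1 := hGb (s L + y * Complex.I) (by
          simp only [Complex.add_im, Complex.ofReal_im, Complex.mul_im, Complex.ofReal_re,
            Complex.I_im, Complex.I_re, mul_one, mul_zero, add_zero, zero_add]
          exact abs_le.2 ⟨hy.1.le, hy.2⟩) (by
          simp only [Complex.add_re, Complex.ofReal_re, Complex.mul_re, Complex.I_re, mul_zero,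
            Complex.ofReal_im, Complex.I_im, mul_one, sub_self, add_zero]
          intro h0
          have := hs L hL
          rw [h0, abs_zero] at this
          (clear * - hL this; linarith))
        have h2 : ((s L : ℂ) + y * Complex.I).re = s L := by simp
        rw [h2, hs L hL] at h1
        exact h1)
    rw [show |1 / 2 - -(1 / 2 : ℝ)| = 1 by norm_num, mul_one] at this
    exact this
  have hv1 := hv (fun L => L) (fun L hL => abs_of_pos hL)
  have hv2 := hv (fun L => -L) (fun L hL => by rw [abs_neg, abs_of_pos hL])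
  have hsum := (((hlm.sub hlp).add (hv1.const_smul Complex.I)).sub (hv2.const_smul Complex.I))
  have hzero : Tendsto (fun _ : ℝ => (0 : ℂ)) atTop (𝓝
      (((∫ x : ℝ, G (x - Complex.I / 2)) - (∫ x : ℝ, G (x + Complex.I / 2)) +
        Complex.I • (0 : ℂ)) - Complex.I • (0 : ℂ))) := by
    refine hsum.congr' ?_
    filter_upwards [eventually_gt_atTop (0 : ℝ)] with L hL
    exact hrect L hL
  have hAB := tendsto_nhds_unique hzero tendsto_const_nhds
  rw [smul_zero, add_zero, sub_zero] at hAB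
  have hA : ∫ x : ℝ, G (x - Complex.I / 2) = Complex.I *
      ∫ t : ℝ, (((Real.cosh (Real.pi * t))⁻¹ : ℝ) : ℂ) * (F (t - Complex.I / 2) - F 0) := by
    rw [← integral_const_mul]
    exact integral_congr_ae (by filter_upwards with t using hminus t)
  have hB : ∫ x : ℝ, G (x + Complex.I / 2) = -(Complex.I *
      ∫ t : ℝ, (((Real.cosh (Real.pi * t))⁻¹ : ℝ) : ℂ) * (F (t + Complex.I / 2) - F 0)) := by
    rw [← integral_const_mul, ← integral_neg]
    exact integral_congr_ae (by filter_upwards with t using hplus t)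
  rw [hA, hB, sub_neg_eq_add, ← mul_add] at hAB
  have hAB' := (mul_eq_zero.1 hAB).resolve_left Complex.I_ne_zero
  rw [← integral_add hIm hIp] at hAB'
  have hk : ∫ t : ℝ, (((Real.cosh (Real.pi * t))⁻¹ : ℝ) : ℂ) * (2 * F 0) = 2 * F 0 := by
    rw [integral_mul_const, integral_complex_ofReal, integral_inv_cosh]
    simp
  have hI0 : Integrable fun t : ℝ => (((Real.cosh (Real.pi * t))⁻¹ : ℝ) : ℂ) * (2 * F 0) :=
    hint (fun _ => 2 * F 0) continuous_const (fun t => by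
      rw [norm_mul]
      have : ‖(2 : ℂ)‖ = 2 := by norm_num
      rw [this]; (clear * - hb0; linarith))
  have hfin : ∫ t : ℝ, (((Real.cosh (Real.pi * t))⁻¹ : ℝ) : ℂ) *
      (F (t - Complex.I / 2) + F (t + Complex.I / 2)) =
      (∫ t : ℝ, ((((Real.cosh (Real.pi * t))⁻¹ : ℝ) : ℂ) * (F (t - Complex.I / 2) - F 0) +
        (((Real.cosh (Real.pi * t))⁻¹ : ℝ) : ℂ) * (F (t + Complex.I / 2) - F 0))) +
      ∫ t : ℝ, (((Real.cosh (Real.pi * t))⁻¹ : ℝ) : ℂ) * (2 * F 0) := by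
    have e := integral_add (hIm.add hIp) hI0
    simp only [Pi.add_apply] at e
    rw [← e]
    apply integral_congr_ae
    filter_upwards with t
    ring
  rw [hfin, hAB', hk, zero_add]

/-- MODULE TT-D -/
theorem strip_formula (c : ℂ → ℂ) (hc : Differentiable ℂ c) (C : ℝ)
    (hC : ∀ z : ℂ, |z.im| ≤ 1 / 2 → ‖c z‖ ≤ C) (β : ℝ) :
    c 0 = ∫ t : ℝ, (Complex.exp (Complex.I * β * t) / (2 * Real.cosh (Real.pi * t) : ℝ)) *
      (((Real.exp (β / 2) : ℝ) : ℂ) * c (t - Complex.I / 2) +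
        ((Real.exp (-β / 2) : ℝ) : ℂ) * c (t + Complex.I / 2)) := by
  have hC0 : 0 ≤ C := (norm_nonneg _).trans (hC 0 (by norm_num))
  have h := strip_aux (fun z => Complex.exp (Complex.I * β * z) * c z)
    (by
      intro z
      exact ((by fun_prop : DifferentiableAt ℂ (fun z => Complex.exp (Complex.I * β * z)) z)).mul
        (hc z)) (Real.exp (|β| / 2) * C) (by
      intro z hz
      rw [norm_mul]
      apply mul_le_mul _ (hC z hz) (norm_nonneg _) (Real.exp_nonneg _)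
      rw [Complex.norm_exp]
      apply Real.exp_le_exp.2
      have h1 : (Complex.I * β * z).re = -(β * z.im) := by
        simp [Complex.mul_re]
      rw [h1]
      calc -(β * z.im) ≤ |β * z.im| := neg_le_abs _
        _ = |β| * |z.im| := abs_mul _ _
        _ ≤ |β| * (1 / 2) := mul_le_mul_of_nonneg_left hz (abs_nonneg _)
        _ = |β| / 2 := by ring)
  simp only [mul_zero, Complex.exp_zero, one_mul] at h
  have h2 : ∫ t : ℝ, (Complex.exp (Complex.I * β * t) / (2 * Real.cosh (Real.pi * t) : ℝ)) *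
      (((Real.exp (β / 2) : ℝ) : ℂ) * c (t - Complex.I / 2) +
        ((Real.exp (-β / 2) : ℝ) : ℂ) * c (t + Complex.I / 2)) =
      (1 / 2 : ℂ) * ∫ t : ℝ, (((Real.cosh (Real.pi * t))⁻¹ : ℝ) : ℂ) *
      (Complex.exp (Complex.I * β * (t - Complex.I / 2)) * c (t - Complex.I / 2) +
        Complex.exp (Complex.I * β * (t + Complex.I / 2)) * c (t + Complex.I / 2)) := by
    rw [← integral_const_mul]
    apply integral_congr_ae
    filter_upwards with t
    have e1 : Complex.exp (Complex.I * β * (t - Complex.I / 2)) =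
        Complex.exp (Complex.I * β * t) * ((Real.exp (β / 2) : ℝ) : ℂ) := by
      rw [Complex.ofReal_exp, ← Complex.exp_add]
      congr 1
      push_cast
      linear_combination (-(β : ℂ) / 2) * Complex.I_sq
    have e2 : Complex.exp (Complex.I * β * (t + Complex.I / 2)) =
        Complex.exp (Complex.I * β * t) * ((Real.exp (-β / 2) : ℝ) : ℂ) := by
      rw [Complex.ofReal_exp, ← Complex.exp_add]
      congr 1
      push_cast
      linear_combination ((β : ℂ) / 2) * Complex.I_sq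
    rw [e1, e2]
    push_cast
    have hc : Complex.cosh (Real.pi * t) ≠ 0 := by
      have := (Real.cosh_pos (Real.pi * t)).ne'
      exact_mod_cast this
    (clear * -; field_simp)
  rw [h2, h]
  ring

end Pool.Agent.Helper5.TTD

end

section

open scoped InnerProductSpace Topology BoundedContinuousFunction FourierTransform

open ContinuousLinearMap Filter MeasureTheory

namespace Pool.Agent.Helper43.TTF

open Pool.Agent.Helper23

variable {H : Type*} [NormedAddCommGroup H] [InnerProductSpace ℂ H] [CompleteSpace H]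

variable {R : H →L[ℂ] H} {D : H →L[ℝ] H} {Ψ : (ℝ →ᵇ ℂ) →⋆ₐ[ℂ] (H →L[ℂ] H)} {J : H →L[ℝ] H}

lemma ker_int : Integrable (fun t : ℝ => (2 * Real.cosh (Real.pi * t))⁻¹) := by
  have h := Pool.Agent.Helper5.TTD.integrable_inv_cosh.const_mul (2⁻¹ : ℝ)
  refine h.congr (Eventually.of_forall fun t => ?_)
  change 2⁻¹ * (Real.cosh (Real.pi * t))⁻¹ = (2 * Real.cosh (Real.pi * t))⁻¹
  rw [mul_inv]

end Pool.Agent.Helper43.TTF

end

end

section

section

open scoped InnerProductSpace Topology ENNReal BoundedContinuousFunction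

open ContinuousLinearMap Filter MeasureTheory

namespace Pool.Agent.Helper23.ED

open Pool.Agent.Helper23 Pool.Agent.Helper23.RBF

universe u

section graph

variable {K : Type*} [NormedAddCommGroup K] [InnerProductSpace ℂ K] [CompleteSpace K]

variable {L : Type*} [NormedAddCommGroup L] [InnerProductSpace ℂ L] [CompleteSpace L]

/-- `(T η, S η)` is the projection of `(η, 0)` on the closure of `Γ`. -/
structure GT (Γ : Set (K × L)) (T : K →L[ℂ] K) (S : K →L[ℂ] L) : Prop where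
  mem : ∀ η, (T η, S η) ∈ closure Γ
  orth : ∀ p ∈ Γ, ∀ η, ⟪p.1, η⟫_ℂ = ⟪p.1, T η⟫_ℂ + ⟪p.2, S η⟫_ℂ

end graph

end Pool.Agent.Helper23.ED

end

section

open scoped InnerProductSpace Topology ENNReal BoundedContinuousFunction

open ContinuousLinearMap Filter MeasureTheory

namespace Pool.Agent.Helper23.ED

open Pool.Agent.Helper23 Pool.Agent.Helper23.RBF

universe u

variable {K : Type*} [NormedAddCommGroup K] [InnerProductSpace ℂ K] [CompleteSpace K]

variable {L : Type*} [NormedAddCommGroup L] [InnerProductSpace ℂ L] [CompleteSpace L]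

variable {Γ : Submodule ℂ (K × L)} {T : K →L[ℂ] K} {S : K →L[ℂ] L}

theorem GT.orth' (h : GT (Γ : Set (K × L)) T S) {p : K × L} (hp : p ∈ closure (Γ : Set (K × L)))
    (η : K) : ⟪p.1, η⟫_ℂ = ⟪p.1, T η⟫_ℂ + ⟪p.2, S η⟫_ℂ := by
  have hc : IsClosed {q : K × L | ⟪q.1, η⟫_ℂ = ⟪q.1, T η⟫_ℂ + ⟪q.2, S η⟫_ℂ} := by
    apply isClosed_eq
    · exact (continuous_fst.inner continuous_const)
    · exact (continuous_fst.inner continuous_const).add (continuous_snd.inner continuous_const)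
  exact closure_minimal (fun q hq => h.orth q hq η) hc hp

theorem GT.eq_of (h : GT (Γ : Set (K × L)) T S) {η : K} {p₀ : K × L}
    (hp₀ : p₀ ∈ closure (Γ : Set (K × L)))
    (ho : ∀ p ∈ Γ, ⟪p.1, η⟫_ℂ = ⟪p.1, p₀.1⟫_ℂ + ⟪p.2, p₀.2⟫_ℂ) : T η = p₀.1 ∧ S η = p₀.2 := by
  have hd : (T η - p₀.1, S η - p₀.2) ∈ closure (Γ : Set (K × L)) := by
    have h1 : (T η, S η) ∈ Γ.topologicalClosure := h.mem η
    have h2 : p₀ ∈ Γ.topologicalClosure := hp₀
    have h3 := Γ.topologicalClosure.sub_mem h1 h2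
    exact h3
  have hz : ∀ p : K × L, p ∈ closure (Γ : Set (K × L)) →
      ⟪p.1, T η - p₀.1⟫_ℂ + ⟪p.2, S η - p₀.2⟫_ℂ = 0 := by
    intro p hp
    have hc : IsClosed {q : K × L | ⟪q.1, T η - p₀.1⟫_ℂ + ⟪q.2, S η - p₀.2⟫_ℂ = 0} := by
      apply isClosed_eq
      · exact (continuous_fst.inner continuous_const).add (continuous_snd.inner continuous_const)
      · exact continuous_const
    refine closure_minimal (fun q hq => ?_) hc hp
    have h1 := h.orth q hq η
    have h2 := ho q hq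
    simp only [Set.mem_setOf_eq, inner_sub_right]
    linear_combination (-1 : ℂ) * h1 + h2
  have h0 := hz _ hd
  simp only [inner_self_eq_norm_sq_to_K] at h0
  have h1 : ((‖T η - p₀.1‖ ^ 2 + ‖S η - p₀.2‖ ^ 2 : ℝ) : ℂ) = 0 := by
    push_cast
    exact h0
  have h2 : ‖T η - p₀.1‖ ^ 2 + ‖S η - p₀.2‖ ^ 2 = 0 := by exact_mod_cast h1
  have h3 : ‖T η - p₀.1‖ = 0 := by
    have := sq_nonneg ‖T η - p₀.1‖
    have := sq_nonneg ‖S η - p₀.2‖
    exact pow_eq_zero_iff (two_ne_zero) |>.1 (by linarith)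
  have h4 : ‖S η - p₀.2‖ = 0 := by
    have := sq_nonneg ‖T η - p₀.1‖
    have := sq_nonneg ‖S η - p₀.2‖
    exact pow_eq_zero_iff (two_ne_zero) |>.1 (by linarith)
  exact ⟨sub_eq_zero.1 (norm_eq_zero.1 h3), sub_eq_zero.1 (norm_eq_zero.1 h4)⟩

theorem GT.S_inner (h : GT (Γ : Set (K × L)) T S) (η η' : K) :
    ⟪S η', S η⟫_ℂ = ⟪T η', η - T η⟫_ℂ := by
  have h1 := h.orth' (h.mem η') η
  simp only at h1
  rw [inner_sub_right, h1]
  ring

theorem GT.T_star (h : GT (Γ : Set (K × L)) T S) : star T = T := by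
  have key : ∀ a b : K, ⟪T a, b⟫_ℂ = ⟪a, T b⟫_ℂ := by
    intro a b
    have h1 := h.orth' (h.mem a) b
    have h2 := h.orth' (h.mem b) a
    simp only at h1 h2
    rw [h1, ← inner_conj_symm a (T b), h2, map_add, inner_conj_symm, inner_conj_symm]
  rw [ContinuousLinearMap.star_eq_adjoint]
  refine ContinuousLinearMap.ext fun v => ?_
  refine ext_inner_left ℂ fun w => ?_
  rw [ContinuousLinearMap.adjoint_inner_right, key]

theorem GrB_norm (h : GT (Γ : Set (K × L)) T S) (v : K) :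
    (⟪v, T v⟫_ℂ).re = ‖T v‖ ^ 2 + ‖S v‖ ^ 2 := by
  have h1 := h.orth' (h.mem v) v
  simp only at h1
  rw [← inner_conj_symm v (T v), h1, Complex.conj_re, Complex.add_re]
  rw [inner_self_eq_norm_sq_to_K, inner_self_eq_norm_sq_to_K]
  norm_cast

theorem GT.T_nonneg (h : GT (Γ : Set (K × L)) T S) (v : K) : 0 ≤ (⟪v, T v⟫_ℂ).re := by
  rw [GrB_norm h v]
  (clear * -; positivity)

theorem GT.T_le (h : GT (Γ : Set (K × L)) T S) (v : K) : (⟪v, T v⟫_ℂ).re ≤ ‖v‖ ^ 2 := by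
  have h1 := GrB_norm h v
  have h2 : (⟪v, T v⟫_ℂ).re ≤ ‖v‖ * ‖T v‖ :=
    (Complex.re_le_norm _).trans (norm_inner_le_norm _ _)
  have h3 := sq_nonneg ‖S v‖
  have h4 : ‖T v‖ ≤ ‖v‖ := by
    by_contra hcon
    push Not at hcon
    have h5 : 0 < ‖T v‖ := lt_of_le_of_lt (norm_nonneg _) hcon
    (clear * - h1 h2 hcon h5; nlinarith)
  have h5 : ‖v‖ * ‖T v‖ ≤ ‖v‖ * ‖v‖ := mul_le_mul_of_nonneg_left h4 (norm_nonneg _)
  calc (⟪v, T v⟫_ℂ).re ≤ ‖v‖ * ‖T v‖ := h2
    _ ≤ ‖v‖ * ‖v‖ := h5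
    _ = ‖v‖ ^ 2 := by ring

theorem GT.T_inj (h : GT (Γ : Set (K × L)) T S)
    (hd : ∀ η : K, (∀ p ∈ Γ, ⟪p.1, η⟫_ℂ = 0) → η = 0) (v : K) (hv : T v = 0) : v = 0 := by
  have h1 := GrB_norm h v
  rw [hv] at h1
  simp only [inner_zero_right, Complex.zero_re, norm_zero] at h1
  have h2 : S v = 0 := by
    have : ‖S v‖ ^ 2 = 0 := by (clear * - h1; nlinarith)
    exact norm_eq_zero.1 (pow_eq_zero_iff (two_ne_zero) |>.1 this)
  refine hd v fun p hp => ?_
  have h3 := h.orth p hp v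
  rw [h3, hv, h2, inner_zero_right, inner_zero_right, add_zero]

theorem GT.T_inj' (h : GT (Γ : Set (K × L)) T S)
    (hz : ∀ v : K, ((v, 0) : K × L) ∈ closure (Γ : Set (K × L)) → v = 0) (v : K)
    (hv : T v = v) : v = 0 := by
  have h1 := GrB_norm h v
  rw [hv] at h1
  have h0 : (⟪v, v⟫_ℂ).re = ‖v‖ ^ 2 := by
    rw [inner_self_eq_norm_sq_to_K]
    norm_cast
  have h2 : S v = 0 := by
    have : ‖S v‖ ^ 2 = 0 := by linarith
    exact norm_eq_zero.1 (pow_eq_zero_iff (two_ne_zero) |>.1 this)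
  apply hz
  have h3 := h.mem v
  rw [hv, h2] at h3
  exact h3

end Pool.Agent.Helper23.ED

end

section

open scoped InnerProductSpace Topology ENNReal BoundedContinuousFunction

open ContinuousLinearMap Filter MeasureTheory

namespace Pool.Agent.Helper23.ED

open Pool.Agent.Helper23 Pool.Agent.Helper23.RBF

universe u

variable {K : Type*} [NormedAddCommGroup K] [InnerProductSpace ℂ K] [CompleteSpace K]

variable {L : Type*} [NormedAddCommGroup L] [InnerProductSpace ℂ L] [CompleteSpace L]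

variable {Γ Γ₁ Γ₂ : Submodule ℂ (K × L)}

lemma GrD_closure {A B : Set (K × L)} (X : K →L[ℂ] K) (P : L →L[ℂ] L)
    (h : ∀ p ∈ A, ((X p.1, P p.2) : K × L) ∈ closure B) {p : K × L} (hp : p ∈ closure A) :
    ((X p.1, P p.2) : K × L) ∈ closure B := by
  have hc : Continuous fun p : K × L => ((X p.1, P p.2) : K × L) := by fun_prop
  exact closure_minimal (t := (fun p : K × L => ((X p.1, P p.2) : K × L)) ⁻¹' closure B)
    (fun p hp => h p hp) (isClosed_closure.preimage hc) hp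

lemma GrD_star_inner (A : K →L[ℂ] K) (x y : K) : ⟪(star A) x, y⟫_ℂ = ⟪x, A y⟫_ℂ := by
  rw [ContinuousLinearMap.star_eq_adjoint, ContinuousLinearMap.adjoint_inner_left]

theorem GT.rel {T : K →L[ℂ] K} {S : K →L[ℂ] L} (h : GT (Γ : Set (K × L)) T S)
    (X X' : K →L[ℂ] K) (P : L →L[ℂ] L)
    (hX : ∀ p ∈ Γ, ((X p.1, P p.2) : K × L) ∈ closure (Γ : Set (K × L)))
    (hX' : ∀ p ∈ Γ, (((star X') p.1, (star P) p.2) : K × L) ∈ closure (Γ : Set (K × L)))
    (v : K) : X (T v) - T (X (T v)) = T (X' (v - T v)) := by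
  have hT : ∀ x y : K, ⟪T x, y⟫_ℂ = ⟪x, T y⟫_ℂ := fun x y => by
    conv_lhs => rw [← h.T_star]
    exact GrD_star_inner T x y
  refine ext_inner_left ℂ fun η' => ?_
  have h1 := h.orth' (GrD_closure X P hX (h.mem v)) η'
  have h2 := h.orth' (GrD_closure (star X') (star P) hX' (h.mem η')) v
  simp only [GrD_star_inner] at h1 h2
  have h3 : ⟪T η', X' (v - T v)⟫_ℂ = ⟪S η', P (S v)⟫_ℂ := by
    rw [map_sub, inner_sub_right]
    linear_combination h2
  have h4 : ⟪X (T v), η' - T η'⟫_ℂ = ⟪P (S v), S η'⟫_ℂ := by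
    rw [inner_sub_right]
    linear_combination h1
  have h5 : ⟪η' - T η', X (T v)⟫_ℂ = ⟪S η', P (S v)⟫_ℂ := by
    rw [← inner_conj_symm, h4, inner_conj_symm]
  rw [← hT, h3, ← h5, inner_sub_left, inner_sub_right, hT]

theorem GT.scale {T₁ T₂ : K →L[ℂ] K} {S₁ S₂ : K →L[ℂ] L}
    (h₁ : GT (Γ₁ : Set (K × L)) T₁ S₁) (h₂ : GT (Γ₂ : Set (K × L)) T₂ S₂) {c : ℝ} (hc : 0 < c)
    (hΓ : ∀ v w, ((v, w) : K × L) ∈ Γ₁ ↔ ((v, (c : ℂ) • w) : K × L) ∈ Γ₂) (v : K) :
    T₂ (T₁ v + ((c ^ 2 : ℝ) : ℂ) • (v - T₁ v)) = T₁ v := by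
  have hc' : (c : ℂ) ≠ 0 := by exact_mod_cast hc.ne'
  have hmem : ((T₁ v, (c : ℂ) • S₁ v) : K × L) ∈ closure (Γ₂ : Set (K × L)) := by
    have := GrD_closure (A := (Γ₁ : Set (K × L))) (B := (Γ₂ : Set (K × L)))
      (ContinuousLinearMap.id ℂ K) ((c : ℂ) • ContinuousLinearMap.id ℂ L)
      (fun p hp => subset_closure ((hΓ p.1 p.2).1 hp)) (h₁.mem v)
    simpa using this
  refine (h₂.eq_of hmem fun p hp => ?_).1
  have hp' : ((p.1, (c : ℂ)⁻¹ • p.2) : K × L) ∈ Γ₁ := by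
    rw [hΓ, smul_smul, mul_inv_cancel₀ hc', one_smul]
    exact hp
  have ho := h₁.orth _ hp' v
  simp only [inner_smul_left, map_inv₀, Complex.conj_ofReal] at ho
  simp only [inner_add_right, inner_smul_right, inner_sub_right]
  have h6 : ⟪p.1, v⟫_ℂ - ⟪p.1, T₁ v⟫_ℂ = (c : ℂ)⁻¹ * ⟪p.2, S₁ v⟫_ℂ := by
    linear_combination ho
  rw [h6]
  push_cast
  field_simp

theorem GT.conj {T₁ T₂ : K →L[ℂ] K} {S₁ S₂ : K →L[ℂ] L}
    (h₁ : GT (Γ₁ : Set (K × L)) T₁ S₁) (h₂ : GT (Γ₂ : Set (K × L)) T₂ S₂)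
    {U : K →L[ℂ] K} (hU : star U * U = 1) (hU' : U * star U = 1)
    (hΓ : ∀ v w, ((v, w) : K × L) ∈ Γ₁ ↔ ((U v, w) : K × L) ∈ Γ₂) : T₂ = U * T₁ * star U := by
  have hUU : ∀ x, U ((star U) x) = x := fun x => by
    have := congrArg (fun A : K →L[ℂ] K => A x) hU'
    simpa using this
  ext η
  have hmem : ((U (T₁ ((star U) η)), S₁ ((star U) η)) : K × L) ∈ closure (Γ₂ : Set (K × L)) := by
    have := GrD_closure (A := (Γ₁ : Set (K × L))) (B := (Γ₂ : Set (K × L)))
      U (ContinuousLinearMap.id ℂ L)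
      (fun p hp => subset_closure ((hΓ p.1 p.2).1 hp)) (h₁.mem ((star U) η))
    simpa using this
  refine (h₂.eq_of hmem fun p hp => ?_).1
  have hp' : (((star U) p.1, p.2) : K × L) ∈ Γ₁ := by
    rw [hΓ, hUU]
    exact hp
  have ho := h₁.orth _ hp' ((star U) η)
  simp only [GrD_star_inner, hUU] at ho
  exact ho

end Pool.Agent.Helper23.ED

end

section

open scoped InnerProductSpace Topology ENNReal BoundedContinuousFunction

open ContinuousLinearMap Filter MeasureTheory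

namespace Pool.Agent.Helper23.ED

open Pool.Agent.Helper23 Pool.Agent.Helper23.RBF

universe u

variable {K : Type*} [NormedAddCommGroup K] [InnerProductSpace ℂ K] [CompleteSpace K]

variable {L : Type*} [NormedAddCommGroup L] [InnerProductSpace ℂ L] [CompleteSpace L]

theorem exists_GT (Γ : Submodule ℂ (K × L)) :
    ∃ (T : K →L[ℂ] K) (S : K →L[ℂ] L), GT (Γ : Set (K × L)) T S := by
  let e : WithLp 2 (K × L) ≃L[ℂ] K × L := WithLp.prodContinuousLinearEquiv 2 ℂ K L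
  let V : Submodule ℂ (WithLp 2 (K × L)) :=
    (Γ.comap (e : WithLp 2 (K × L) →L[ℂ] K × L).toLinearMap).topologicalClosure
  have hVc : CompleteSpace V := inferInstance
  let P : WithLp 2 (K × L) →L[ℂ] WithLp 2 (K × L) := V.starProjection
  let Q : K →L[ℂ] K × L := ((e : WithLp 2 (K × L) →L[ℂ] K × L) ∘L P ∘L
    (e.symm : K × L →L[ℂ] WithLp 2 (K × L))) ∘L ContinuousLinearMap.inl ℂ K L
  have hQ : ∀ η, Q η = e (P (e.symm (η, 0))) := fun η => rfl
  refine ⟨ContinuousLinearMap.fst ℂ K L ∘L Q, ContinuousLinearMap.snd ℂ K L ∘L Q, ?_, ?_⟩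
  · intro η
    have h1 : P (e.symm (η, 0)) ∈ V := Submodule.starProjection_apply_mem V _
    have h2 : P (e.symm (η, 0)) ∈ closure ((Γ.comap
        (e : WithLp 2 (K × L) →L[ℂ] K × L).toLinearMap : Submodule ℂ (WithLp 2 (K × L))) :
          Set (WithLp 2 (K × L))) := h1
    have h3 := map_mem_closure e.continuous h2 (t := (Γ : Set (K × L))) fun x hx => hx
    exact h3
  · intro p hp η
    have h1 : e.symm p ∈ V := Submodule.le_topologicalClosure _ (by
      show e (e.symm p) ∈ Γ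
      rw [e.apply_symm_apply]
      exact hp)
    have h2 : P (e.symm p) = e.symm p := Submodule.starProjection_eq_self_iff.2 h1
    have h3 : ⟪e.symm p, e.symm (η, 0)⟫_ℂ = ⟪e.symm p, P (e.symm (η, 0))⟫_ℂ := by
      conv_lhs => rw [← h2]
      exact Submodule.inner_starProjection_left_eq_right V _ _
    have h4 : ∀ x y : WithLp 2 (K × L), ⟪x, y⟫_ℂ = ⟪(e x).1, (e y).1⟫_ℂ + ⟪(e x).2, (e y).2⟫_ℂ :=
      fun x y => WithLp.prod_inner_apply x y
    rw [h4, h4, e.apply_symm_apply, e.apply_symm_apply] at h3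
    simpa [hQ] using h3

end Pool.Agent.Helper23.ED

end

section

open scoped InnerProductSpace Topology ENNReal BoundedContinuousFunction

open ContinuousLinearMap Filter MeasureTheory

namespace Pool.Agent.Helper23.ED

open Pool.Agent.Helper23 Pool.Agent.Helper23.RBF

universe u

variable {K : Type*} [NormedAddCommGroup K] [InnerProductSpace ℂ K] [CompleteSpace K]

variable {L₁ : Type*} [NormedAddCommGroup L₁] [InnerProductSpace ℂ L₁] [CompleteSpace L₁]

variable {L₂ : Type*} [NormedAddCommGroup L₂] [InnerProductSpace ℂ L₂] [CompleteSpace L₂]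

variable {Γ₁ : Submodule ℂ (K × L₁)} {Γ₂ : Submodule ℂ (K × L₂)}

lemma GrC_inner
    (hn : ∀ p ∈ Γ₁, ∀ q ∈ Γ₂, p.1 = q.1 → ‖p.2‖ = ‖q.2‖) {p p' : K × L₁} {q q' : K × L₂}
    (hp : p ∈ Γ₁) (hp' : p' ∈ Γ₁) (hq : q ∈ Γ₂) (hq' : q' ∈ Γ₂) (h : p.1 = q.1)
    (h' : p'.1 = q'.1) : ⟪p.2, p'.2⟫_ℂ = ⟪q.2, q'.2⟫_ℂ := by
  have e1 := hn _ (Γ₁.add_mem hp hp') _ (Γ₂.add_mem hq hq') (by simp [h, h'])
  have e2 := hn _ (Γ₁.sub_mem hp hp') _ (Γ₂.sub_mem hq hq') (by simp [h, h'])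
  have e3 := hn _ (Γ₁.add_mem hp (Γ₁.smul_mem Complex.I hp')) _
    (Γ₂.add_mem hq (Γ₂.smul_mem Complex.I hq')) (by simp [h, h'])
  have e4 := hn _ (Γ₁.sub_mem hp (Γ₁.smul_mem Complex.I hp')) _
    (Γ₂.sub_mem hq (Γ₂.smul_mem Complex.I hq')) (by simp [h, h'])
  simp only [Prod.snd_add, Prod.snd_sub, Prod.smul_snd] at e1 e2 e3 e4
  rw [inner_eq_sum_norm_sq_div_four (𝕜 := ℂ) p.2 p'.2,
    inner_eq_sum_norm_sq_div_four (𝕜 := ℂ) q.2 q'.2]
  simp only [RCLike.I_to_complex]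
  rw [e1, e2, e3, e4]

theorem T_unique {T₁ T₂ : K →L[ℂ] K} {S₁ : K →L[ℂ] L₁} {S₂ : K →L[ℂ] L₂}
    (h₁ : GT (Γ₁ : Set (K × L₁)) T₁ S₁) (h₂ : GT (Γ₂ : Set (K × L₂)) T₂ S₂)
    (hf : ∀ p ∈ Γ₁, ∃ q ∈ Γ₂, q.1 = p.1) (hf' : ∀ q ∈ Γ₂, ∃ p ∈ Γ₁, p.1 = q.1)
    (hn : ∀ p ∈ Γ₁, ∀ q ∈ Γ₂, p.1 = q.1 → ‖p.2‖ = ‖q.2‖) : T₁ = T₂ := by
  refine ContinuousLinearMap.ext fun η => ?_
  obtain ⟨p, hp, hlim⟩ := mem_closure_iff_seq_limit.1 (h₁.mem η)
  choose q hq hq1 using fun n => hf (p n) (hp n)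
  have hp1 : Tendsto (fun n => (p n).1) atTop (𝓝 (T₁ η)) :=
    (continuous_fst.tendsto _).comp hlim
  have hp2 : Tendsto (fun n => (p n).2) atTop (𝓝 (S₁ η)) :=
    (continuous_snd.tendsto _).comp hlim
  have hcau : CauchySeq fun n => (q n).2 := by
    have hc := hp2.cauchySeq
    rw [Metric.cauchySeq_iff] at hc ⊢
    intro ε hε
    obtain ⟨N, hN⟩ := hc ε hε
    refine ⟨N, fun m hm n hn' => ?_⟩
    have h3 := hN m hm n hn'
    have h4 := hn _ (Γ₁.sub_mem (hp m) (hp n)) _ (Γ₂.sub_mem (hq m) (hq n))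
      (by simp [hq1])
    rw [dist_eq_norm] at h3 ⊢
    simp only [Prod.snd_sub] at h4
    rw [← h4]
    exact h3
  obtain ⟨w, hw⟩ := cauchySeq_tendsto_of_complete hcau
  have hmem : ((T₁ η, w) : K × L₂) ∈ closure (Γ₂ : Set (K × L₂)) := by
    refine mem_closure_iff_seq_limit.2 ⟨q, hq, ?_⟩
    have h5 : Tendsto (fun n => (q n).1) atTop (𝓝 (T₁ η)) := by
      simp only [hq1]
      exact hp1
    exact h5.prodMk_nhds hw
  have hfin := h₂.eq_of (η := η) hmem (fun q' hq' => by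
    obtain ⟨p', hp', hpq⟩ := hf' q' hq'
    have ho := h₁.orth p' hp' η
    have l1 : Tendsto (fun n => ⟪p'.2, (p n).2⟫_ℂ) atTop (𝓝 ⟪p'.2, S₁ η⟫_ℂ) :=
      tendsto_const_nhds.inner hp2
    have l2 : Tendsto (fun n => ⟪q'.2, (q n).2⟫_ℂ) atTop (𝓝 ⟪q'.2, w⟫_ℂ) :=
      tendsto_const_nhds.inner hw
    have l3 : (fun n => ⟪q'.2, (q n).2⟫_ℂ) = fun n => ⟪p'.2, (p n).2⟫_ℂ := by
      funext n
      exact (GrC_inner hn hp' (hp n) hq' (hq n) hpq (hq1 n).symm).symm
    rw [l3] at l2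
    have l4 := tendsto_nhds_unique l1 l2
    rw [← hpq, ← l4]
    exact ho)
  exact hfin.1.symm

lemma GrC_dense {T : K →L[ℂ] K} {S₁ : K →L[ℂ] L₁}
    (h₁ : GT (Γ₁ : Set (K × L₁)) T S₁)
    (hc : ∀ w : L₁, ((0, w) : K × L₁) ∈ closure (Γ₁ : Set (K × L₁)) → w = 0)
    {p : K × L₁} (hp : p ∈ closure (Γ₁ : Set (K × L₁))) :
    p ∈ closure (Set.range fun η : K => ((T η, S₁ η) : K × L₁)) := by
  let e : WithLp 2 (K × L₁) ≃L[ℂ] K × L₁ := WithLp.prodContinuousLinearEquiv 2 ℂ K L₁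
  let f : K →ₗ[ℂ] K × L₁ := (T.prod S₁).toLinearMap
  let V : Submodule ℂ (WithLp 2 (K × L₁)) :=
    ((LinearMap.range f).comap
      (e : WithLp 2 (K × L₁) →L[ℂ] K × L₁).toLinearMap).topologicalClosure
  have hVc : CompleteSpace V := inferInstance
  let P : WithLp 2 (K × L₁) →L[ℂ] WithLp 2 (K × L₁) := V.starProjection
  have h4 : ∀ x y : WithLp 2 (K × L₁), ⟪x, y⟫_ℂ = ⟪(e x).1, (e y).1⟫_ℂ + ⟪(e x).2, (e y).2⟫_ℂ :=
    fun x y => WithLp.prod_inner_apply x y
  have hV : ∀ x ∈ V, e x ∈ closure (Set.range fun η : K => ((T η, S₁ η) : K × L₁)) := by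
    intro x hx
    have h2 : x ∈ closure (((LinearMap.range f).comap
        (e : WithLp 2 (K × L₁) →L[ℂ] K × L₁).toLinearMap : Submodule ℂ (WithLp 2 (K × L₁))) :
          Set (WithLp 2 (K × L₁))) := hx
    refine map_mem_closure e.continuous h2 fun x hx => ?_
    obtain ⟨η, hη⟩ := hx
    exact ⟨η, hη⟩
  have hsub : closure (Set.range fun η : K => ((T η, S₁ η) : K × L₁)) ⊆
      closure (Γ₁ : Set (K × L₁)) := by
    refine closure_minimal ?_ isClosed_closure
    rintro _ ⟨η, rfl⟩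
    exact h₁.mem η
  have hPm : P (e.symm p) ∈ V := Submodule.starProjection_apply_mem V _
  set b : WithLp 2 (K × L₁) := e.symm p - P (e.symm p) with hb
  have hbmem : e b ∈ closure (Γ₁ : Set (K × L₁)) := by
    have h5 : e b = p - e (P (e.symm p)) := by
      rw [hb, map_sub, e.apply_symm_apply]
    rw [h5]
    have h6 : p ∈ Γ₁.topologicalClosure := hp
    have h7 : e (P (e.symm p)) ∈ Γ₁.topologicalClosure := hsub (hV _ hPm)
    exact Γ₁.topologicalClosure.sub_mem h6 h7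
  have horth : ∀ η : K, ⟪(e b).1, T η⟫_ℂ + ⟪(e b).2, S₁ η⟫_ℂ = 0 := by
    intro η
    have h8 : e.symm (T η, S₁ η) ∈ V := Submodule.le_topologicalClosure _ (by
      show e (e.symm (T η, S₁ η)) ∈ LinearMap.range f
      rw [e.apply_symm_apply]
      exact ⟨η, rfl⟩)
    have h9 : ⟪e.symm (T η, S₁ η), b⟫_ℂ = 0 := by
      have h10 : b ∈ Vᗮ := by
        rw [hb]
        exact Submodule.sub_starProjection_mem_orthogonal _
      exact (Submodule.mem_orthogonal _ _).1 h10 _ h8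
    have h11 : ⟪b, e.symm (T η, S₁ η)⟫_ℂ = 0 := by
      rw [← inner_conj_symm, h9, map_zero]
    rw [h4, e.apply_symm_apply] at h11
    exact h11
  have hb1 : (e b).1 = 0 := by
    have h12 : ∀ η : K, ⟪(e b).1, η⟫_ℂ = 0 := fun η => by
      rw [h₁.orth' hbmem η]
      exact horth η
    exact inner_self_eq_zero.1 (h12 _)
  have hb2 : (e b).2 = 0 := by
    apply hc
    have h13 : e b = ((0, (e b).2) : K × L₁) := Prod.ext hb1 rfl
    rw [← h13]
    exact hbmem
  have hb0 : e b = 0 := Prod.ext hb1 hb2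
  have hpe : p = e (P (e.symm p)) := by
    have h5 : e b = p - e (P (e.symm p)) := by
      rw [hb, map_sub, e.apply_symm_apply]
    rw [hb0] at h5
    exact (sub_eq_zero.1 h5.symm)
  rw [hpe]
  exact hV _ hPm

theorem exists_of_T_eq {T : K →L[ℂ] K} {S₁ : K →L[ℂ] L₁} {S₂ : K →L[ℂ] L₂}
    (h₁ : GT (Γ₁ : Set (K × L₁)) T S₁) (h₂ : GT (Γ₂ : Set (K × L₂)) T S₂)
    (hc : ∀ w : L₁, ((0, w) : K × L₁) ∈ closure (Γ₁ : Set (K × L₁)) → w = 0)
    {p : K × L₁} (hp : p ∈ closure (Γ₁ : Set (K × L₁))) :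
    ∃ w : L₂, ((p.1, w) : K × L₂) ∈ closure (Γ₂ : Set (K × L₂)) ∧ ‖w‖ = ‖p.2‖ := by
  obtain ⟨x, hx, hlim⟩ := mem_closure_iff_seq_limit.1 (GrC_dense h₁ hc hp)
  choose η hη using hx
  simp only at hη
  have hnorm : ∀ v : K, ‖S₂ v‖ = ‖S₁ v‖ := by
    intro v
    have e1 := h₁.S_inner v v
    have e2 := h₂.S_inner v v
    rw [← e1, inner_self_eq_norm_sq_to_K, inner_self_eq_norm_sq_to_K] at e2
    have e3 : ‖S₂ v‖ ^ 2 = ‖S₁ v‖ ^ 2 := by exact_mod_cast e2
    exact (sq_eq_sq₀ (norm_nonneg _) (norm_nonneg _)).1 e3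
  have hx1 : Tendsto (fun n => T (η n)) atTop (𝓝 p.1) := by
    have := (continuous_fst.tendsto _).comp hlim
    refine this.congr fun n => ?_
    simp only [Function.comp, ← hη n]
  have hx2 : Tendsto (fun n => S₁ (η n)) atTop (𝓝 p.2) := by
    have := (continuous_snd.tendsto _).comp hlim
    refine this.congr fun n => ?_
    simp only [Function.comp, ← hη n]
  have hcau : CauchySeq fun n => S₂ (η n) := by
    have hc := hx2.cauchySeq
    rw [Metric.cauchySeq_iff] at hc ⊢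
    intro ε hε
    obtain ⟨N, hN⟩ := hc ε hε
    refine ⟨N, fun m hm n hn' => ?_⟩
    have h3 := hN m hm n hn'
    rw [dist_eq_norm, ← map_sub] at h3 ⊢
    rw [hnorm]
    exact h3
  obtain ⟨w, hw⟩ := cauchySeq_tendsto_of_complete hcau
  refine ⟨w, ?_, ?_⟩
  · have h5 : Tendsto (fun n => ((T (η n), S₂ (η n)) : K × L₂)) atTop (𝓝 (p.1, w)) :=
      hx1.prodMk_nhds hw
    have h6 : ∀ n, ((T (η n), S₂ (η n)) : K × L₂) ∈ closure (Γ₂ : Set (K × L₂)) :=
      fun n => h₂.mem (η n)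
    exact isClosed_closure.mem_of_tendsto h5 (Eventually.of_forall h6)
  · have l1 : Tendsto (fun n => ‖S₂ (η n)‖) atTop (𝓝 ‖w‖) := hw.norm
    have l2 : Tendsto (fun n => ‖S₁ (η n)‖) atTop (𝓝 ‖p.2‖) := hx2.norm
    simp only [hnorm] at l1
    exact tendsto_nhds_unique l1 l2

end Pool.Agent.Helper23.ED

end

end

section

section

open scoped InnerProductSpace Topology BoundedContinuousFunction FourierTransform SchwartzMap

open ContinuousLinearMap Filter MeasureTheory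

set_option linter.unusedSectionVars false

namespace Pool.Agent.Helper23

variable {G : Type*} [NormedAddCommGroup G] [InnerProductSpace ℂ G] [CompleteSpace G]

variable {G' : Type*} [NormedAddCommGroup G'] [InnerProductSpace ℂ G'] [CompleteSpace G']

variable {H : Type*} [NormedAddCommGroup H] [InnerProductSpace ℂ H] [CompleteSpace H]

lemma fourier_postcomp (a : G →L[ℂ] G') (f : 𝓢(ℝ, G)) :
    𝓕 (f.postcompCLM a) = (𝓕 f).postcompCLM a := by
  ext w
  rw [SchwartzMap.postcompCLM_apply, SchwartzMap.fourier_coe, SchwartzMap.fourier_coe,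
    Real.fourier_eq, Real.fourier_eq, ← ContinuousLinearMap.integral_comp_comm]
  · refine integral_congr_ae (Eventually.of_forall fun v => ?_)
    simp only [SchwartzMap.postcompCLM_apply]
    rw [Circle.smul_def, Circle.smul_def, map_smul]
  · rw [Real.fourierIntegral_convergent_iff]
    exact f.integrable

end Pool.Agent.Helper23

end

end

section

section

open scoped InnerProductSpace Topology ENNReal

open ContinuousLinearMap Filter MeasureTheory

set_option linter.unusedSectionVars false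

set_option linter.unusedVariables false

namespace Pool.Agent.Helper23

variable {H : Type*} [NormedAddCommGroup H] [InnerProductSpace ℂ H] [CompleteSpace H]

variable {M N : VonNeumannAlgebra H} {ξ : H} {E : (H →L[ℂ] H) → (H →L[ℂ] H)}

section general

variable {L : Type*} [NormedAddCommGroup L] [InnerProductSpace ℂ L] [CompleteSpace L]

lemma re_inner_nonneg {X : L →L[ℂ] L} (h0 : 0 ≤ X) (η : L) : 0 ≤ (⟪η, X η⟫_ℂ).re :=
  ((nonneg_iff_isPositive X).1 h0).re_inner_nonneg_right η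

lemma le_re_inner {X Y : L →L[ℂ] L} (h : X ≤ Y) (η : L) : (⟪η, X η⟫_ℂ).re ≤ (⟪η, Y η⟫_ℂ).re := by
  have h1 := re_inner_nonneg (sub_nonneg.2 h) η
  rw [sub_apply, inner_sub_right, Complex.sub_re] at h1
  (clear * - h1; linarith)

end general

end Pool.Agent.Helper23

end

section

open scoped InnerProductSpace Topology BoundedContinuousFunction CompactlySupported

open ContinuousLinearMap Filter MeasureTheory

namespace Pool.Agent.Helper88.CS

open Pool.Agent.Helper23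

variable {H : Type*} [NormedAddCommGroup H] [InnerProductSpace ℂ H] [CompleteSpace H]

variable {A : VonNeumannAlgebra H} {J : H →L[ℝ] H} {κ : H}

namespace Trick1Aux

/-- the cut function -/
noncomputable def sg (t s : ℝ) : ℝ := (if t < s then 1 else 0) - (if s < -t then 1 else 0)

/-- `min (a², b²)` if the signs agree -/
noncomputable def gp (a b : ℝ) : ℝ := if 0 < a * b then min (a ^ 2) (b ^ 2) else 0

/-- `min (a², b²)` if the signs are opposite -/
noncomputable def gm (a b : ℝ) : ℝ := if a * b < 0 then min (a ^ 2) (b ^ 2) else 0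

lemma gp_nonneg (a b : ℝ) : 0 ≤ gp a b := by unfold gp; split_ifs <;> (clear * -; positivity)

lemma gm_nonneg (a b : ℝ) : 0 ≤ gm a b := by unfold gm; split_ifs <;> (clear * -; positivity)

lemma gp_le (a b : ℝ) : gp a b ≤ a ^ 2 := by
  unfold gp; split_ifs
  · exact min_le_left _ _
  · positivity

lemma gm_le (a b : ℝ) : gm a b ≤ a ^ 2 := by
  unfold gm; split_ifs
  · exact min_le_left _ _
  · positivity

lemma gp_meas : Measurable (fun z : ℂ => gp z.re z.im) := by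
  unfold gp
  exact Measurable.ite (measurableSet_lt measurable_const (by fun_prop)) (by fun_prop)
    measurable_const

lemma gm_meas : Measurable (fun z : ℂ => gm z.re z.im) := by
  unfold gm
  exact Measurable.ite (measurableSet_lt (by fun_prop) measurable_const) (by fun_prop)
    measurable_const

/-- indicator of a proposition -/
noncomputable def ch (p : Prop) : ℝ := by classical exact if p then 1 else 0

lemma ch_true {p : Prop} (h : p) : ch p = 1 := by simp [ch, h]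

lemma ch_false {p : Prop} (h : ¬ p) : ch p = 0 := by simp [ch, h]

lemma sg_cases {t : ℝ} (ht : 0 < t) (s : ℝ) :
    (t < s ∧ sg t s = 1) ∨ (s < -t ∧ sg t s = -1) ∨ (-t ≤ s ∧ s ≤ t ∧ sg t s = 0) := by
  unfold sg
  by_cases h1 : t < s
  · left
    refine ⟨h1, ?_⟩
    rw [if_pos h1, if_neg (by linarith)]
    ring
  · by_cases h2 : s < -t
    · right; left
      refine ⟨h2, ?_⟩
      rw [if_neg h1, if_pos h2]
      ring
    · right; right
      refine ⟨by (clear * - h2; linarith), by (clear * - h1; linarith), ?_⟩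
      rw [if_neg h1, if_neg h2]
      ring

lemma sg_sq {t : ℝ} (ht : 0 < t) (a : ℝ) : sg t a ^ 2 = ch (t ^ 2 < a ^ 2) := by
  rcases sg_cases ht a with ⟨h, h'⟩ | ⟨h, h'⟩ | ⟨h1, h2, h'⟩
  · rw [h', ch_true (by (clear * - ht h; nlinarith))]; norm_num
  · rw [h', ch_true (by (clear * - ht h; nlinarith))]; norm_num
  · rw [h', ch_false (by (clear * - h1 h2; nlinarith))]; norm_num

lemma sg_diff {t : ℝ} (ht : 0 < t) (a b : ℝ) :
    (sg t a - sg t b) ^ 2 + 2 * ch (t ^ 2 < gp a b) =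
      ch (t ^ 2 < a ^ 2) + ch (t ^ 2 < b ^ 2) + 2 * ch (t ^ 2 < gm a b) := by
  have ht2 : 0 < t ^ 2 := by positivity
  rcases sg_cases ht a with ⟨h, h'⟩ | ⟨h, h'⟩ | ⟨h1, h2, h'⟩
  · have ha : t ^ 2 < a ^ 2 := by nlinarith
    rcases sg_cases ht b with ⟨k, k'⟩ | ⟨k, k'⟩ | ⟨k1, k2, k'⟩
    · have hb : t ^ 2 < b ^ 2 := by (clear * - ht k; nlinarith)
      have hab : 0 < a * b := mul_pos (by linarith) (by linarith)
      rw [h', k', ch_true ha, ch_true hb, ch_true (by unfold gp; rw [if_pos hab]; exact lt_min ha hb),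
        ch_false (by unfold gm; rw [if_neg (by (clear * - hab; linarith))]; (clear * - ht2; linarith))]
      norm_num
    · have hb : t ^ 2 < b ^ 2 := by (clear * - ht k; nlinarith)
      have hab : a * b < 0 := mul_neg_of_pos_of_neg (by linarith) (by (clear * - ht k; linarith))
      rw [h', k', ch_true ha, ch_true hb, ch_false (by unfold gp; rw [if_neg (by linarith)]; (clear * - ht2; linarith)),
        ch_true (by unfold gm; rw [if_pos hab]; exact lt_min ha hb)]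
      norm_num
    · have hb : ¬ t ^ 2 < b ^ 2 := by (clear * - k1 k2; nlinarith)
      have h5 : ¬ t ^ 2 < gp a b := by
        unfold gp; split_ifs
        · rw [lt_min_iff]; tauto
        · (clear * - ht2; linarith)
      have h6 : ¬ t ^ 2 < gm a b := by
        unfold gm; split_ifs
        · rw [lt_min_iff]; tauto
        · (clear * - ht2; linarith)
      rw [h', k', ch_true ha, ch_false hb, ch_false h5, ch_false h6]
      norm_num
  · have ha : t ^ 2 < a ^ 2 := by (clear * - ht h; nlinarith)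
    rcases sg_cases ht b with ⟨k, k'⟩ | ⟨k, k'⟩ | ⟨k1, k2, k'⟩
    · have hb : t ^ 2 < b ^ 2 := by (clear * - ht k; nlinarith)
      have hab : a * b < 0 := mul_neg_of_neg_of_pos (by linarith) (by linarith)
      rw [h', k', ch_true ha, ch_true hb, ch_false (by unfold gp; rw [if_neg (by linarith)]; (clear * - ht2; linarith)),
        ch_true (by unfold gm; rw [if_pos hab]; exact lt_min ha hb)]
      norm_num
    · have hb : t ^ 2 < b ^ 2 := by (clear * - ht k; nlinarith)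
      have hab : 0 < a * b := mul_pos_of_neg_of_neg (by linarith) (by (clear * - ht k; linarith))
      rw [h', k', ch_true ha, ch_true hb, ch_true (by unfold gp; rw [if_pos hab]; exact lt_min ha hb),
        ch_false (by unfold gm; rw [if_neg (by (clear * - hab; linarith))]; linarith)]
      norm_num
    · have hb : ¬ t ^ 2 < b ^ 2 := by (clear * - k1 k2; nlinarith)
      have h5 : ¬ t ^ 2 < gp a b := by
        unfold gp; split_ifs
        · rw [lt_min_iff]; tauto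
        · linarith
      have h6 : ¬ t ^ 2 < gm a b := by
        unfold gm; split_ifs
        · rw [lt_min_iff]; tauto
        · (clear * - ht2; linarith)
      rw [h', k', ch_true ha, ch_false hb, ch_false h5, ch_false h6]
      norm_num
  · have ha : ¬ t ^ 2 < a ^ 2 := by (clear * - h1 h2; nlinarith)
    have h5 : ¬ t ^ 2 < gp a b := by
      have := gp_le a b
      linarith
    have h6 : ¬ t ^ 2 < gm a b := by
      have := gm_le a b
      linarith
    rcases sg_cases ht b with ⟨k, k'⟩ | ⟨k, k'⟩ | ⟨k1, k2, k'⟩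
    · have hb : t ^ 2 < b ^ 2 := by (clear * - ht k; nlinarith)
      rw [h', k', ch_false ha, ch_true hb, ch_false h5, ch_false h6]
      norm_num
    · have hb : t ^ 2 < b ^ 2 := by (clear * - ht k; nlinarith)
      rw [h', k', ch_false ha, ch_true hb, ch_false h5, ch_false h6]
      norm_num
    · have hb : ¬ t ^ 2 < b ^ 2 := by (clear * - k1 k2; nlinarith)
      rw [h', k', ch_false ha, ch_false hb, ch_false h5, ch_false h6]
      norm_num

/-- the pointwise inequality -/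
lemma pointwise {δ : ℝ} (hδ : 0 < δ) (a b : ℝ) :
    a ^ 2 + b ^ 2 + 2 * gm a b - 2 * gp a b ≤ 1 / (2 * δ) * (a - b) ^ 2 + δ * (a ^ 2 + b ^ 2) := by
  have h1 : a ^ 2 + b ^ 2 + 2 * gm a b - 2 * gp a b ≤ |a - b| * (|a| + |b|) := by
    unfold gm gp
    rcases lt_trichotomy (a * b) 0 with h | h | h
    · rw [if_pos h, if_neg (by linarith)]
      have e1 : |a - b| = |a| + |b| := by
        rcases mul_neg_iff.1 h with ⟨h2, h3⟩ | ⟨h2, h3⟩
        · rw [abs_of_pos h2, abs_of_neg h3, abs_of_pos (by (clear * - h2 h3; linarith))]; ring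
        · rw [abs_of_neg h2, abs_of_pos h3, abs_of_neg (by linarith)]; ring
      rw [e1]
      have e2 : min (a ^ 2) (b ^ 2) ≤ |a| * |b| := by
        rcases le_total |a| |b| with h4 | h4
        · refine (min_le_left _ _).trans ?_
          rw [← sq_abs a]
          (clear * - h4; nlinarith [abs_nonneg a])
        · refine (min_le_right _ _).trans ?_
          rw [← sq_abs b]
          (clear * - h4; nlinarith [abs_nonneg b])
      (clear * - e2; nlinarith [sq_abs a, sq_abs b])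
    · rw [if_neg (by linarith), if_neg (by linarith)]
      rcases mul_eq_zero.1 h with h2 | h2
      · subst h2
        simp [sq]
      · subst h2
        simp [sq]
    · rw [if_neg (by linarith), if_pos h]
      rcases le_total |a| |b| with h4 | h4
      · have h5 : a ^ 2 ≤ b ^ 2 := sq_le_sq.2 h4
        rw [min_eq_left h5]
        have e1 : |a - b| = |b| - |a| := by
          rcases pos_and_pos_or_neg_and_neg_of_mul_pos h with ⟨h2, h3⟩ | ⟨h2, h3⟩
          · rw [abs_of_pos h2, abs_of_pos h3] at h4 ⊢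
            rw [abs_of_nonpos (by linarith)]; ring
          · rw [abs_of_neg h2, abs_of_neg h3] at h4 ⊢
            rw [abs_of_nonneg (by (clear * - h4; linarith))]; ring
        rw [e1]
        (clear * -; nlinarith [sq_abs a, sq_abs b])
      · have h5 : b ^ 2 ≤ a ^ 2 := sq_le_sq.2 h4
        rw [min_eq_right h5]
        have e1 : |a - b| = |a| - |b| := by
          rcases pos_and_pos_or_neg_and_neg_of_mul_pos h with ⟨h2, h3⟩ | ⟨h2, h3⟩
          · rw [abs_of_pos h2, abs_of_pos h3] at h4 ⊢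
            rw [abs_of_nonneg (by linarith)]
          · rw [abs_of_neg h2, abs_of_neg h3] at h4 ⊢
            rw [abs_of_nonpos (by (clear * - h4; linarith))]; ring
        rw [e1]
        (clear * -; nlinarith [sq_abs a, sq_abs b])
  have h2 : |a - b| * (|a| + |b|) ≤ 1 / (2 * δ) * (a - b) ^ 2 + δ / 2 * (|a| + |b|) ^ 2 := by
    rw [← sq_abs (a - b)]
    set x := |a - b|
    set y := |a| + |b|
    have h3 : 0 ≤ (x - δ * y) ^ 2 := sq_nonneg _
    have h4 : 1 / (2 * δ) * x ^ 2 + δ / 2 * y ^ 2 - x * y = 1 / (2 * δ) * (x - δ * y) ^ 2 := by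
      field_simp
      ring
    have h5 : 0 ≤ 1 / (2 * δ) * (x - δ * y) ^ 2 := by (clear * - hδ; positivity)
    (clear * - h4 h5; linarith)
  have h3 : (|a| + |b|) ^ 2 ≤ 2 * (a ^ 2 + b ^ 2) := by
    (clear * -; nlinarith [sq_abs a, sq_abs b, sq_nonneg (|a| - |b|)])
  have h4 : δ / 2 * (|a| + |b|) ^ 2 ≤ δ / 2 * (2 * (a ^ 2 + b ^ 2)) := by (clear * - h3 hδ; gcongr)
  linarith

lemma integral_ch {μ : Measure ℂ} [IsFiniteMeasure μ] {f : ℂ → ℝ} (hf : Measurable f) (u : ℝ) :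
    Integrable (fun z => ch (u < f z)) μ ∧ ∫ z, ch (u < f z) ∂μ = μ.real {z | u < f z} := by
  have hS : MeasurableSet {z | u < f z} := measurableSet_lt measurable_const hf
  have e : (fun z => ch (u < f z)) = ({z | u < f z} : Set ℂ).indicator (1 : ℂ → ℝ) := by
    funext z
    by_cases h : u < f z
    · rw [ch_true h, Set.indicator_of_mem (by exact h)]; rfl
    · rw [ch_false h, Set.indicator_of_notMem (by exact h)]
  rw [e]
  exact ⟨(integrable_const (1 : ℝ)).indicator hS, integral_indicator_one hS⟩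

end Trick1Aux

end Pool.Agent.Helper88.CS

end

section

open scoped InnerProductSpace Topology ENNReal BoundedContinuousFunction

open ContinuousLinearMap Filter MeasureTheory

namespace Pool.Agent.Helper23.ED

open Pool.Agent.Helper23 Pool.Agent.Helper23.RBF

universe u

section fd

variable {H : Type*} [NormedAddCommGroup H] [InnerProductSpace ℂ H] [CompleteSpace H]

/-- `x (1 + δ x)⁻¹` for positive `x` -/
noncomputable def fd (δ : ℝ) (x : H →L[ℂ] H) : H →L[ℂ] H :=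
  x * Ring.inverse (1 + (δ : ℂ) • x)

end fd

end Pool.Agent.Helper23.ED

end

section

open scoped InnerProductSpace Topology ENNReal BoundedContinuousFunction

open ContinuousLinearMap Filter MeasureTheory

namespace Pool.Agent.Helper23.ED

open Pool.Agent.Helper23 Pool.Agent.Helper23.RBF

universe u

variable {H : Type*} [NormedAddCommGroup H] [InnerProductSpace ℂ H] [CompleteSpace H]

namespace FdA

theorem isUnit_one_add {x : H →L[ℂ] H} (hx : 0 ≤ x) {δ : ℝ} (hδ : 0 < δ) :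
    IsUnit (1 + (δ : ℂ) • x) := by
  have h1 : IsStrictlyPositive (1 : H →L[ℂ] H) := IsStrictlyPositive.iff_of_unital.mpr
    ⟨zero_le_one, isUnit_one⟩
  have h2 : 0 ≤ (δ : ℂ) • x := by
    rw [nonneg_iff_isPositive] at hx ⊢
    exact hx.smul_of_nonneg (by exact_mod_cast hδ.le)
  exact CStarAlgebra.isUnit_of_le (1 : H →L[ℂ] H) (le_add_of_nonneg_right h2) h1

/-- the basic solution `w = (1 + δ x)⁻¹ v` -/
theorem exists_sol {x : H →L[ℂ] H} (hx : 0 ≤ x) {δ : ℝ} (hδ : 0 < δ) (v : H) :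
    ∃ w, v = w + (δ : ℂ) • x w ∧ fd δ x v = x w := by
  have hu := isUnit_one_add hx hδ
  refine ⟨Ring.inverse (1 + (δ : ℂ) • x) v, ?_, rfl⟩
  have h := Ring.mul_inverse_cancel _ hu
  have h2 := congrArg (fun T : H →L[ℂ] H => T v) h
  simpa using h2.symm

omit [CompleteSpace H] in
theorem inner_sa {x : H →L[ℂ] H} (hx : 0 ≤ x) (a b : H) : ⟪x a, b⟫_ℂ = ⟪a, x b⟫_ℂ :=
  ((nonneg_iff_isPositive x).1 hx).inner_left_eq_inner_right a b

omit [CompleteSpace H] in
theorem re_nonneg {x : H →L[ℂ] H} (hx : 0 ≤ x) (a : H) : 0 ≤ (⟪a, x a⟫_ℂ).re :=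
  ((nonneg_iff_isPositive x).1 hx).re_inner_nonneg_right a

omit [CompleteSpace H] in
theorem re_symm (a b : H) : (⟪a, b⟫_ℂ).re = (⟪b, a⟫_ℂ).re := by
  rw [← inner_conj_symm, Complex.conj_re]

omit [CompleteSpace H] in
theorem val_eq {x : H →L[ℂ] H} {δ : ℝ} {v w : H} (h1 : v = w + (δ : ℂ) • x w)
    (h2 : fd δ x v = x w) :
    (⟪v, fd δ x v⟫_ℂ).re = (⟪w, x w⟫_ℂ).re + δ * ‖x w‖ ^ 2 := by
  have e : (⟪x w, x w⟫_ℂ).re = ‖x w‖ ^ 2 := by
    rw [inner_self_eq_norm_sq_to_K]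
    norm_cast
  have e2 : (⟪v, fd δ x v⟫_ℂ).re = (⟪w + (δ : ℂ) • x w, x w⟫_ℂ).re := by
    rw [h2]
    exact congrArg (fun z => (⟪z, x w⟫_ℂ).re) h1
  rw [e2, inner_add_left, inner_smul_left, Complex.add_re, Complex.conj_ofReal,
    Complex.re_ofReal_mul, e]

theorem isSelfAdjoint_fd {x : H →L[ℂ] H} (hx : 0 ≤ x) {δ : ℝ} (hδ : 0 < δ) (a b : H) :
    ⟪fd δ x a, b⟫_ℂ = ⟪a, fd δ x b⟫_ℂ := by
  obtain ⟨w, h1, h2⟩ := exists_sol hx hδ a
  obtain ⟨w', h1', h2'⟩ := exists_sol hx hδ b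
  rw [h2, h2']
  have e1 : ⟪x w, b⟫_ℂ = ⟪x w, w'⟫_ℂ + (δ : ℂ) * ⟪x w, x w'⟫_ℂ := by
    rw [h1', inner_add_right, inner_smul_right]
  have e2 : ⟪a, x w'⟫_ℂ = ⟪w, x w'⟫_ℂ + (δ : ℂ) * ⟪x w, x w'⟫_ℂ := by
    rw [h1, inner_add_left, inner_smul_left, Complex.conj_ofReal]
  rw [e1, e2, inner_sa hx]

omit [CompleteSpace H] in
theorem le_of_re {S T : H →L[ℂ] H} (hS : ∀ a b, ⟪S a, b⟫_ℂ = ⟪a, S b⟫_ℂ)
    (hT : ∀ a b, ⟪T a, b⟫_ℂ = ⟪a, T b⟫_ℂ)
    (h : ∀ v, (⟪v, S v⟫_ℂ).re ≤ (⟪v, T v⟫_ℂ).re) : S ≤ T := by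
  rw [ContinuousLinearMap.le_def]
  refine ⟨?_, fun v => ?_⟩
  · intro a b
    have e1 : ((T - S : H →L[ℂ] H) : H →ₗ[ℂ] H) a = T a - S a := rfl
    have e2 : ((T - S : H →L[ℂ] H) : H →ₗ[ℂ] H) b = T b - S b := rfl
    rw [e1, e2, inner_sub_left, inner_sub_right, hS, hT]
  · have e1 : (T - S : H →L[ℂ] H).reApplyInnerSelf v = RCLike.re ⟪T v - S v, v⟫_ℂ := rfl
    rw [e1]
    have h1 := h v
    have e2 : RCLike.re ⟪T v - S v, v⟫_ℂ = (⟪v, T v⟫_ℂ).re - (⟪v, S v⟫_ℂ).re := by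
      rw [inner_sub_left, map_sub, hT, hS]
      rfl
    rw [e2]
    linarith

end FdA

open FdA

/-- the minimizer of the quadratic functional (it is `u₀ = (1 + δ x)⁻¹ v`) -/
theorem fd_exact {x : H →L[ℂ] H} (hx : 0 ≤ x) {δ : ℝ} (hδ : 0 < δ) (v : H) :
    ∃ u₀, ∀ u, δ⁻¹ * ‖v - u‖ ^ 2 + (⟪u, x u⟫_ℂ).re =
      (⟪v, fd δ x v⟫_ℂ).re + δ⁻¹ * ‖u - u₀‖ ^ 2 + (⟪u - u₀, x (u - u₀)⟫_ℂ).re := by
  obtain ⟨w, h1, h2⟩ := exists_sol hx hδ v
  refine ⟨w, fun u => ?_⟩
  rw [val_eq h1 h2]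
  obtain ⟨h, rfl⟩ : ∃ h, u = w + h := ⟨u - w, by abel⟩
  have e0 : w + h - w = h := by abel
  have e1 : v - (w + h) = (δ : ℂ) • x w - h := by
    rw [h1]
    abel
  have e2 : ‖(δ : ℂ) • x w - h‖ ^ 2 = δ ^ 2 * ‖x w‖ ^ 2 - 2 * (δ * (⟪x w, h⟫_ℂ).re) + ‖h‖ ^ 2 := by
    rw [norm_sub_sq (𝕜 := ℂ), norm_smul, inner_smul_left, Complex.conj_ofReal]
    have : RCLike.re ((δ : ℂ) * ⟪x w, h⟫_ℂ) = δ * (⟪x w, h⟫_ℂ).re := Complex.re_ofReal_mul _ _
    rw [this, Complex.norm_real, Real.norm_of_nonneg hδ.le, mul_pow]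
  have e3 : (⟪w + h, x (w + h)⟫_ℂ).re =
      (⟪w, x w⟫_ℂ).re + 2 * (⟪x w, h⟫_ℂ).re + (⟪h, x h⟫_ℂ).re := by
    rw [map_add, inner_add_left, inner_add_right, inner_add_right]
    simp only [Complex.add_re]
    have a1 : (⟪w, x h⟫_ℂ).re = (⟪x w, h⟫_ℂ).re := by rw [inner_sa hx]
    have a2 : (⟪h, x w⟫_ℂ).re = (⟪x w, h⟫_ℂ).re := re_symm _ _
    rw [a1, a2]
    ring
  rw [e0, e1, e2, e3]
  field_simp
  ring

theorem fd_var {x : H →L[ℂ] H} (hx : 0 ≤ x) {δ : ℝ} (hδ : 0 < δ) (v u : H) :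
    (⟪v, fd δ x v⟫_ℂ).re ≤ δ⁻¹ * ‖v - u‖ ^ 2 + (⟪u, x u⟫_ℂ).re := by
  obtain ⟨w, hw⟩ := fd_exact hx hδ v
  rw [hw u]
  have h1 : 0 ≤ δ⁻¹ * ‖u - w‖ ^ 2 := by (clear * - hδ; positivity)
  have h2 := re_nonneg hx (u - w)
  (clear * - h1 h2; linarith)

theorem fd_attain {x : H →L[ℂ] H} (hx : 0 ≤ x) {δ : ℝ} (hδ : 0 < δ) (v : H) :
    ∃ u, δ⁻¹ * ‖v - u‖ ^ 2 + (⟪u, x u⟫_ℂ).re = (⟪v, fd δ x v⟫_ℂ).re := by
  obtain ⟨w, hw⟩ := fd_exact hx hδ v
  refine ⟨w, ?_⟩
  rw [hw w]
  simp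

theorem fd_nonneg {x : H →L[ℂ] H} (hx : 0 ≤ x) {δ : ℝ} (hδ : 0 < δ) : 0 ≤ fd δ x := by
  refine le_of_re (fun a b => by simp) (isSelfAdjoint_fd hx hδ) fun v => ?_
  obtain ⟨u, hu⟩ := fd_attain hx hδ v
  rw [← hu]
  have h2 := re_nonneg hx u
  have h1 : 0 ≤ δ⁻¹ * ‖v - u‖ ^ 2 := by (clear * - hδ; positivity)
  simp only [zero_apply, inner_zero_right, Complex.zero_re]
  (clear * - h2 h1; linarith)

theorem fd_le {x : H →L[ℂ] H} (hx : 0 ≤ x) {δ : ℝ} (hδ : 0 < δ) : fd δ x ≤ x := by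
  refine le_of_re (isSelfAdjoint_fd hx hδ) (inner_sa hx) fun v => ?_
  have := fd_var hx hδ v v
  simpa using this

theorem fd_mono {x y : H →L[ℂ] H} (hx : 0 ≤ x) (hxy : x ≤ y) {δ : ℝ} (hδ : 0 < δ) :
    fd δ x ≤ fd δ y := by
  have hy := hx.trans hxy
  refine le_of_re (isSelfAdjoint_fd hx hδ) (isSelfAdjoint_fd hy hδ) fun v => ?_
  obtain ⟨u, hu⟩ := fd_attain hy hδ v
  have h1 := fd_var hx hδ v u
  have h2 := re_nonneg (sub_nonneg.2 hxy) u
  rw [sub_apply, inner_sub_right, Complex.sub_re] at h2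
  linarith

theorem fd_anti {x : H →L[ℂ] H} (hx : 0 ≤ x) {δ δ' : ℝ} (hδ : 0 < δ) (h : δ ≤ δ') :
    fd δ' x ≤ fd δ x := by
  have hδ' := hδ.trans_le h
  refine le_of_re (isSelfAdjoint_fd hx hδ') (isSelfAdjoint_fd hx hδ) fun v => ?_
  obtain ⟨u, hu⟩ := fd_attain hx hδ v
  have h1 := fd_var hx hδ' v u
  have h2 : δ'⁻¹ * ‖v - u‖ ^ 2 ≤ δ⁻¹ * ‖v - u‖ ^ 2 :=
    mul_le_mul_of_nonneg_right (inv_anti₀ hδ h) (by (clear * -; positivity))
  (clear * - hu h1 h2; linarith)

theorem fd_mem {N : VonNeumannAlgebra H} {x : H →L[ℂ] H} (hN : x ∈ N) (hx : 0 ≤ x) {δ : ℝ}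
    (hδ : 0 < δ) : fd δ x ∈ N := by
  have hu := isUnit_one_add hx hδ
  set A : H →L[ℂ] H := 1 + (δ : ℂ) • x with hA
  have hAinv : Ring.inverse A ∈ N := by
    rw [← VonNeumannAlgebra.commutant_commutant N, VonNeumannAlgebra.mem_commutant_iff]
    intro z hz
    have hzx : x * z = z * x := (VonNeumannAlgebra.mem_commutant_iff.1 hz) x hN
    have hzA : A * z = z * A := by
      rw [hA, add_mul, mul_add, one_mul, mul_one, smul_mul_assoc, mul_smul_comm, hzx]
    have i1 := Ring.mul_inverse_cancel _ hu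
    have i2 := Ring.inverse_mul_cancel _ hu
    calc z * Ring.inverse A = Ring.inverse A * A * z * Ring.inverse A := by rw [i2, one_mul]
      _ = Ring.inverse A * (z * (A * Ring.inverse A)) := by
          rw [mul_assoc (Ring.inverse A) A z, hzA]
          simp only [mul_assoc]
      _ = Ring.inverse A * z := by rw [i1, mul_one]
  exact mul_mem hN hAinv

theorem fd_lub {x : H →L[ℂ] H} (hx : 0 ≤ x) (v : H) :
    IsLUB (Set.range fun n : ℕ => (⟪v, fd (1 / ((n : ℝ) + 1)) x v⟫_ℂ).re) (⟪v, x v⟫_ℂ).re := by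
  constructor
  · rintro _ ⟨n, rfl⟩
    have hδ : (0 : ℝ) < 1 / ((n : ℝ) + 1) := by (clear * -; positivity)
    have := fd_var hx hδ v v
    simpa using this
  · intro b hb
    have key : ∀ n : ℕ, (⟪v, x v⟫_ℂ).re ≤ b + (1 / ((n : ℝ) + 1)) * ‖x v‖ ^ 2 := by
      intro n
      set δ : ℝ := 1 / ((n : ℝ) + 1) with hδd
      have hδ : 0 < δ := by (clear * -; positivity)
      have hbn : (⟪v, fd δ x v⟫_ℂ).re ≤ b := hb ⟨n, rfl⟩
      obtain ⟨w, h1, h2⟩ := exists_sol hx hδ v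
      have e1 : ‖x w‖ ^ 2 ≤ ‖x v‖ ^ 2 := by
        have a1 : x v = x w + (δ : ℂ) • x (x w) := by
          conv_lhs => rw [h1]
          rw [map_add, map_smul]
        rw [a1, norm_add_sq (𝕜 := ℂ), inner_smul_right]
        have a2 : RCLike.re ((δ : ℂ) * ⟪x w, x (x w)⟫_ℂ) = δ * (⟪x w, x (x w)⟫_ℂ).re :=
          Complex.re_ofReal_mul _ _
        rw [a2]
        have a3 := re_nonneg hx (x w)
        have a4 : 0 ≤ δ * (⟪x w, x (x w)⟫_ℂ).re := mul_nonneg hδ.le a3
        have a5 : 0 ≤ ‖(δ : ℂ) • x (x w)‖ ^ 2 := by (clear * -; positivity)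
        (clear * - a4 a5; linarith)
      have e2 : (⟪v, x v⟫_ℂ).re = (⟪v, fd δ x v⟫_ℂ).re + δ * (⟪x v, x w⟫_ℂ).re := by
        have b1 : x v = x w + (δ : ℂ) • x (x w) := by
          conv_lhs => rw [h1]
          rw [map_add, map_smul]
        have b2 : ⟪v, x v⟫_ℂ = ⟪v, x w⟫_ℂ + (δ : ℂ) * ⟪v, x (x w)⟫_ℂ := by
          conv_lhs => rw [b1]
          rw [inner_add_right, inner_smul_right]
        rw [b2, h2, Complex.add_re, Complex.re_ofReal_mul, ← inner_sa hx v (x w)]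
      have e3 : (⟪x v, x w⟫_ℂ).re ≤ ‖x v‖ * ‖x w‖ :=
        (Complex.re_le_norm _).trans (norm_inner_le_norm _ _)
      have e4 : ‖x v‖ * ‖x w‖ ≤ ‖x v‖ ^ 2 := by
        have : ‖x w‖ ≤ ‖x v‖ := by
          exact (pow_le_pow_iff_left₀ (norm_nonneg _) (norm_nonneg _) two_ne_zero).1 e1
        rw [sq]
        exact mul_le_mul_of_nonneg_left this (norm_nonneg _)
      rw [e2]
      have e5 : δ * (⟪x v, x w⟫_ℂ).re ≤ δ * ‖x v‖ ^ 2 :=
        mul_le_mul_of_nonneg_left (e3.trans e4) hδ.le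
      (clear * - hbn e5; linarith)
    have hlim : Tendsto (fun n : ℕ => b + (1 / ((n : ℝ) + 1)) * ‖x v‖ ^ 2) atTop (𝓝 b) := by
      have h1 := (tendsto_one_div_add_atTop_nhds_zero_nat (𝕜 := ℝ)).mul_const (‖x v‖ ^ 2)
      have h2 := h1.const_add b
      simpa using h2
    exact ge_of_tendsto' hlim key

end Pool.Agent.Helper23.ED

end

section

open scoped InnerProductSpace Topology ENNReal BoundedContinuousFunction

open ContinuousLinearMap Filter MeasureTheory

namespace Pool.Agent.Helper23.ED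

open Pool.Agent.Helper23 Pool.Agent.Helper23.RBF

universe u

variable {H : Type*} [NormedAddCommGroup H] [InnerProductSpace ℂ H] [CompleteSpace H]

theorem fd_min {w : ℕ → H →L[ℂ] H} (hw : ∀ n, 0 ≤ w n) (hm : Monotone w) {δ : ℝ} (hδ : 0 < δ)
    (v : H) : ∃ u, BddAbove (Set.range fun n => (⟪u, w n u⟫_ℂ).re) ∧
      δ⁻¹ * ‖v - u‖ ^ 2 + ⨆ n, (⟪u, w n u⟫_ℂ).re ≤ ⨆ n, (⟪v, fd δ (w n) v⟫_ℂ).re := by
  have hδi : 0 < δ⁻¹ := inv_pos.2 hδ
  choose u hu using fun n => fd_exact (hw n) hδ v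
  set f : ℕ → ℝ := fun n => (⟪v, fd δ (w n) v⟫_ℂ).re with hf
  have hfb : ∀ n, f n ≤ δ⁻¹ * ‖v‖ ^ 2 := by
    intro n
    have := fd_var (hw n) hδ v 0
    simpa using this
  have hfB : BddAbove (Set.range f) := ⟨_, by rintro _ ⟨n, rfl⟩; exact hfb n⟩
  have hat : ∀ n, δ⁻¹ * ‖v - u n‖ ^ 2 + (⟪u n, w n (u n)⟫_ℂ).re = f n := by
    intro n
    have := hu n (u n)
    simpa using this
  have hmid : ∀ m n, m ≤ n → f m + δ⁻¹ * ‖u n - u m‖ ^ 2 ≤
      δ⁻¹ * ‖v - u n‖ ^ 2 + (⟪u n, w m (u n)⟫_ℂ).re := by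
    intro m n _
    have h1 := hu m (u n)
    have h2 := re_inner_nonneg (hw m) (u n - u m)
    (clear * - h1 h2; linarith)
  have hmid2 : ∀ m n, m ≤ n →
      δ⁻¹ * ‖v - u n‖ ^ 2 + (⟪u n, w m (u n)⟫_ℂ).re ≤ f n := by
    intro m n hmn
    have h1 := hat n
    have h2 := le_re_inner (hm hmn) (u n)
    (clear * - h1 h2; linarith)
  have hfm : Monotone f := by
    intro m n hmn
    have h1 := hmid m n hmn
    have h2 := hmid2 m n hmn
    have h3 : 0 ≤ δ⁻¹ * ‖u n - u m‖ ^ 2 := by (clear * - hδ; positivity)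
    (clear * - h1 h2 h3; linarith)
  have hft : Tendsto f atTop (𝓝 (⨆ n, f n)) := tendsto_atTop_ciSup hfm hfB
  have hcau : CauchySeq u := by
    rw [Metric.cauchySeq_iff']
    intro ε hε
    have h1 := hft.cauchySeq
    rw [Metric.cauchySeq_iff'] at h1
    obtain ⟨N, hN⟩ := h1 (δ⁻¹ * ε ^ 2) (by (clear * - hδ hε; positivity))
    refine ⟨N, fun n hn => ?_⟩
    have h2 := hN n hn
    rw [Real.dist_eq, abs_lt] at h2
    have h3 := hmid N n hn
    have h4 := hmid2 N n hn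
    rw [dist_eq_norm]
    have h5 : δ⁻¹ * ‖u n - u N‖ ^ 2 < δ⁻¹ * ε ^ 2 := by (clear * - h2 h3 h4; linarith [h2.2])
    have h6 : ‖u n - u N‖ ^ 2 < ε ^ 2 := lt_of_mul_lt_mul_left h5 hδi.le
    exact lt_of_pow_lt_pow_left₀ 2 hε.le h6
  obtain ⟨u₀, hu₀⟩ := cauchySeq_tendsto_of_complete hcau
  have hkey : ∀ m, δ⁻¹ * ‖v - u₀‖ ^ 2 + (⟪u₀, w m u₀⟫_ℂ).re ≤ ⨆ n, f n := by
    intro m
    have h1 : Tendsto (fun n => δ⁻¹ * ‖v - u n‖ ^ 2 + (⟪u n, w m (u n)⟫_ℂ).re) atTop
        (𝓝 (δ⁻¹ * ‖v - u₀‖ ^ 2 + (⟪u₀, w m u₀⟫_ℂ).re)) := by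
      refine Tendsto.add ?_ ?_
      · exact (((tendsto_const_nhds.sub hu₀).norm).pow 2).const_mul _
      · exact (Complex.continuous_re.tendsto _).comp
          (hu₀.inner (((w m).continuous.tendsto u₀).comp hu₀))
    refine le_of_tendsto_of_tendsto h1 hft ?_
    filter_upwards [eventually_ge_atTop m] with n hn
    exact hmid2 m n hn
  refine ⟨u₀, ⟨(⨆ n, f n) - δ⁻¹ * ‖v - u₀‖ ^ 2, ?_⟩, ?_⟩
  · rintro _ ⟨m, rfl⟩
    have := hkey m
    change (⟪u₀, w m u₀⟫_ℂ).re ≤ _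
    linarith
  · have h1 : ⨆ n, (⟪u₀, w n u₀⟫_ℂ).re ≤ (⨆ n, f n) - δ⁻¹ * ‖v - u₀‖ ^ 2 :=
      ciSup_le fun m => by
        have := hkey m
        linarith
    linarith

end Pool.Agent.Helper23.ED

end

end

section

section

open scoped InnerProductSpace Topology BoundedContinuousFunction

open ContinuousLinearMap Filter MeasureTheory

namespace Pool.Agent.Helper88.CS

open Pool.Agent.Helper23

variable {H : Type*} [NormedAddCommGroup H] [InnerProductSpace ℂ H] [CompleteSpace H]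

variable {A : VonNeumannAlgebra H} {ξ : H} {J : H →L[ℝ] H}
  {Ψ : (ℝ →ᵇ ℂ) →⋆ₐ[ℂ] (H →L[ℂ] H)} {R : H →L[ℂ] H} {D : H →L[ℝ] H}

namespace SuppAAux

/-- the ramp `0` up to `x`, `1` from `x + η / 2` on -/
noncomputable def ra (η x ρ : ℝ) : ℝ := min 1 (max 0 (2 / η * (ρ - x)))

theorem ra_cont (η x : ℝ) : Continuous (ra η x) := by
  unfold ra
  fun_prop

theorem ra_nonneg (η x ρ : ℝ) : 0 ≤ ra η x ρ := le_min zero_le_one (le_max_left _ _)

theorem ra_le (η x ρ : ℝ) : ra η x ρ ≤ 1 := min_le_left _ _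

theorem ra_zero {η x ρ : ℝ} (hη : 0 < η) (h : ρ ≤ x) : ra η x ρ = 0 := by
  unfold ra
  have h1 : 2 / η * (ρ - x) ≤ 0 :=
    mul_nonpos_of_nonneg_of_nonpos (by (clear * - hη; positivity)) (by (clear * - h; linarith))
  rw [max_eq_left h1]
  exact min_eq_right zero_le_one

theorem ra_one {η x ρ : ℝ} (hη : 0 < η) (h : x + η / 2 ≤ ρ) : ra η x ρ = 1 := by
  unfold ra
  have h1 : 1 ≤ 2 / η * (ρ - x) := by
    rw [div_mul_eq_mul_div, le_div_iff₀ hη]
    linarith
  exact min_eq_left (h1.trans (le_max_right _ _))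

noncomputable def Ra (η x : ℝ) : ℝ →ᵇ ℂ :=
  BoundedContinuousFunction.ofNormedAddCommGroup (fun ρ : ℝ => ((ra η x ρ : ℝ) : ℂ))
    (Complex.continuous_ofReal.comp (ra_cont η x)) 1 (fun ρ => by
      rw [Complex.norm_real, Real.norm_of_nonneg (ra_nonneg η x ρ)]
      exact ra_le η x ρ)

theorem Ra_apply (η x ρ : ℝ) : Ra η x ρ = ((ra η x ρ : ℝ) : ℂ) := rfl

theorem norm_Ra_le (η x : ℝ) : ‖Ra η x‖ ≤ 1 :=
  BoundedContinuousFunction.norm_ofNormedAddCommGroup_le _ zero_le_one _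

/-- ramps moving to the right tend to `0` -/
theorem Ra_right {η : ℝ} (hη : 0 < η) (x L : ℝ) :
    TendstoUniformlyOn (fun (n : ℕ) ρ => Ra η (x + n * (η / 2)) ρ)
      (fun ρ => (0 : ℝ →ᵇ ℂ) ρ) atTop (Set.Icc (-L) L) := by
  rw [Metric.tendstoUniformlyOn_iff]
  intro ε hε
  obtain ⟨N, hN⟩ := exists_nat_ge ((L - x) / (η / 2))
  filter_upwards [eventually_ge_atTop N] with n hn ρ hρ
  have h1 : (N : ℝ) ≤ n := by exact_mod_cast hn
  have h2 : (L - x) / (η / 2) ≤ n := hN.trans h1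
  rw [div_le_iff₀ (by (clear * - hη; positivity))] at h2
  rw [Ra_apply, ra_zero hη (by (clear * - h2 hρ; linarith [hρ.2]))]
  simpa using hε

/-- ramps moving to the left tend to `1` -/
theorem Ra_left {η : ℝ} (hη : 0 < η) (L : ℝ) :
    TendstoUniformlyOn (fun (n : ℕ) ρ => Ra η (-(n : ℝ)) ρ)
      (fun ρ => (1 : ℝ →ᵇ ℂ) ρ) atTop (Set.Icc (-L) L) := by
  rw [Metric.tendstoUniformlyOn_iff]
  intro ε hε
  obtain ⟨N, hN⟩ := exists_nat_ge (L + η / 2)
  filter_upwards [eventually_ge_atTop N] with n hn ρ hρ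
  have h1 : (N : ℝ) ≤ n := by exact_mod_cast hn
  rw [Ra_apply, ra_one hη (by linarith [hρ.1])]
  simpa using hε

end SuppAAux

namespace SuppAAux

/-- the clamp -/
noncomputable def cl (η ρ : ℝ) : ℝ := max (-η) (min η ρ)

theorem cl_bound {η : ℝ} (hη : 0 < η) (ρ : ℝ) :
    ‖((1 - Real.exp (cl η ρ / 2) : ℝ) : ℂ)‖ ≤ Real.exp (η / 2) - 1 := by
  have h1 : -η ≤ cl η ρ := le_max_left _ _
  have h2 : cl η ρ ≤ η := max_le (by linarith) (min_le_left _ _)
  have h3 : Real.exp (cl η ρ / 2) ≤ Real.exp (η / 2) := Real.exp_le_exp.2 (by (clear * - h2; linarith))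
  have h4 : Real.exp (-(η / 2)) ≤ Real.exp (cl η ρ / 2) := Real.exp_le_exp.2 (by (clear * - h1; linarith))
  have h5 : 2 ≤ Real.exp (η / 2) + Real.exp (-(η / 2)) := by
    have h6 := Real.exp_pos (η / 2)
    have h7 : Real.exp (η / 2) * Real.exp (-(η / 2)) = 1 := by
      rw [← Real.exp_add, add_neg_cancel, Real.exp_zero]
    have h8 := Real.exp_pos (-(η / 2))
    (clear * - h7 h6 h8; nlinarith [sq_nonneg (Real.exp (η / 2) - Real.exp (-(η / 2)))])
  rw [Complex.norm_real, Real.norm_eq_abs, abs_le]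
  constructor <;> (clear * - h3 h4 h5; linarith)

noncomputable def Cl (η : ℝ) (hη : 0 < η) : ℝ →ᵇ ℂ :=
  BoundedContinuousFunction.ofNormedAddCommGroup
    (fun ρ : ℝ => ((1 - Real.exp (cl η ρ / 2) : ℝ) : ℂ))
    (Complex.continuous_ofReal.comp (by unfold cl; fun_prop)) (Real.exp (η / 2) - 1)
    (cl_bound hη)

theorem Cl_apply {η : ℝ} (hη : 0 < η) (ρ : ℝ) :
    Cl η hη ρ = ((1 - Real.exp (cl η ρ / 2) : ℝ) : ℂ) := rfl

theorem norm_Cl_le {η : ℝ} (hη : 0 < η) : ‖Cl η hη‖ ≤ Real.exp (η / 2) - 1 :=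
  BoundedContinuousFunction.norm_ofNormedAddCommGroup_le _
    (sub_nonneg.2 (Real.one_le_exp (by linarith))) _

end SuppAAux

end Pool.Agent.Helper88.CS

end

end
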