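import Pool.Agent.Helper23.FB.Inst
import Pool.Agent.Helper23.RBFDefs

/-!
Parts of Helper23.FA.L00_16, Helper23.FA.L00_02, Helper23.FA.L00_17, Helper23.FA.L00_18, Helper23.FA.L00_11, Helper23.FA.L00_15, Helper23.FA.L01_07, Helper23.FA.L00_14
-/

attribute [local instance 5000]
  Pool.Agent.Helper23.FB.Inst.rCharZero Pool.Agent.Helper23.FB.Inst.rALM
  Pool.Agent.Helper23.FB.Inst.rARM Pool.Agent.Helper23.FB.Inst.rALSM
  Pool.Agent.Helper23.FB.Inst.rARSM Pool.Agent.Helper23.FB.Inst.rARRLE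
  Pool.Agent.Helper23.FB.Inst.rALRLE Pool.Agent.Helper23.FB.Inst.rARRLT
  Pool.Agent.Helper23.FB.Inst.rALRLT Pool.Agent.Helper23.FB.Inst.rPMRLT
  Pool.Agent.Helper23.FB.Inst.rMPRLT Pool.Agent.Helper23.FB.Inst.rPMM
  Pool.Agent.Helper23.FB.Inst.rMPM Pool.Agent.Helper23.FB.Inst.rPMSM
  Pool.Agent.Helper23.FB.Inst.rMPSM Pool.Agent.Helper23.FB.Inst.rEAOL
  Pool.Agent.Helper23.FB.Inst.rIOR Pool.Agent.Helper23.FB.Inst.rISOR
  Pool.Agent.Helper23.FB.Inst.rFS Pool.Agent.Helper23.FB.Inst.rcCharZero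
  Pool.Agent.Helper23.FB.Inst.rNZD Pool.Agent.Helper23.FB.Inst.rcNZD
  Pool.Agent.Helper23.FB.Inst.bSemiring Pool.Agent.Helper23.FB.Inst.bStar
  Pool.Agent.Helper23.FB.Inst.bAlg Pool.Agent.Helper23.FB.Inst.bSub
  Pool.Agent.Helper23.FB.Inst.bMul Pool.Agent.Helper23.FB.Inst.bAdd
  Pool.Agent.Helper23.FB.Inst.iRing Pool.Agent.Helper23.FB.Inst.iSemiring
  Pool.Agent.Helper23.FB.Inst.iAlgC Pool.Agent.Helper23.FB.Inst.iSMulC
  Pool.Agent.Helper23.FB.Inst.iModC Pool.Agent.Helper23.FB.Inst.iAlgR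
  Pool.Agent.Helper23.FB.Inst.iSMulR Pool.Agent.Helper23.FB.Inst.iModR
  Pool.Agent.Helper23.FB.Inst.iMonoid Pool.Agent.Helper23.FB.Inst.iSemigroup
  Pool.Agent.Helper23.FB.Inst.iMulOneClass Pool.Agent.Helper23.FB.Inst.iMul
  Pool.Agent.Helper23.FB.Inst.iAdd Pool.Agent.Helper23.FB.Inst.iSub
  Pool.Agent.Helper23.FB.Inst.iNeg Pool.Agent.Helper23.FB.Inst.iAddCommMonoid
  Pool.Agent.Helper23.FB.Inst.iAddCommGroup Pool.Agent.Helper23.FB.Inst.iAddGroup
  Pool.Agent.Helper23.FB.Inst.iAddMonoid Pool.Agent.Helper23.FB.Inst.iSMulZeroC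
  Pool.Agent.Helper23.FB.Inst.iMulActC Pool.Agent.Helper23.FB.Inst.iDSMulC
  Pool.Agent.Helper23.FB.Inst.iDSMulR Pool.Agent.Helper23.FB.Inst.iSNAG
  Pool.Agent.Helper23.FB.Inst.iSNACG Pool.Agent.Helper23.FB.Inst.iNorm
  Pool.Agent.Helper23.FB.Inst.iNSC' Pool.Agent.Helper23.FB.Inst.iNSR'
  Pool.Agent.Helper23.FB.Inst.iTop Pool.Agent.Helper23.FB.Inst.iT2 Pool.Agent.Helper23.FB.Inst.iTR
  Pool.Agent.Helper23.FB.Inst.iSCC Pool.Agent.Helper23.FB.Inst.iIST
  Pool.Agent.Helper23.FB.Inst.iSCCR Pool.Agent.Helper23.FB.Inst.iISTR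
  Pool.Agent.Helper23.FB.Inst.iZHC Pool.Agent.Helper23.FB.Inst.iAHC
  Pool.Agent.Helper23.FB.Inst.iAMHC Pool.Agent.Helper23.FB.Inst.iMAHC
  Pool.Agent.Helper23.FB.Inst.lTop Pool.Agent.Helper23.FB.Inst.lUnif
  Pool.Agent.Helper23.FB.Inst.lACM Pool.Agent.Helper23.FB.Inst.lACG
  Pool.Agent.Helper23.FB.Inst.lSNAG Pool.Agent.Helper23.FB.Inst.lSNACG
  Pool.Agent.Helper23.FB.Inst.lNACG Pool.Agent.Helper23.FB.Inst.lNorm
  Pool.Agent.Helper23.FB.Inst.lIPS Pool.Agent.Helper23.FB.Inst.lMod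
  Pool.Agent.Helper23.FB.Inst.lSMul Pool.Agent.Helper23.FB.Inst.lT2
  Pool.Agent.Helper23.FB.Inst.iStar Pool.Agent.Helper23.FB.Inst.iStarMul
  Pool.Agent.Helper23.FB.Inst.iStarAddMonoid Pool.Agent.Helper23.FB.Inst.iStarRing
  Pool.Agent.Helper23.FB.Inst.iNSC Pool.Agent.Helper23.FB.Inst.iSOR
  Pool.Agent.Helper23.FB.Inst.iALM Pool.Agent.Helper23.FB.Inst.iARM
  Pool.Agent.Helper23.FB.Inst.iCFC Pool.Agent.Helper23.FB.Inst.iNCFC
  Pool.Agent.Helper23.FB.Inst.iStarModR Pool.Agent.Helper23.FB.Inst.iStarModC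
  Pool.Agent.Helper23.FB.Inst.eStar Pool.Agent.Helper23.FB.Inst.eAdd
  Pool.Agent.Helper23.FB.Inst.eMul Pool.Agent.Helper23.FB.Inst.eOne
  Pool.Agent.Helper23.FB.Inst.eZero Pool.Agent.Helper23.FB.Inst.eMulAction
  Pool.Agent.Helper23.FB.Inst.eAMHC2 Pool.Agent.Helper23.FB.Inst.eZHC2
  Pool.Agent.Helper23.FB.Inst.lAMHC

namespace Pool.Agent.Helper23
end Pool.Agent.Helper23
namespace Pool.Agent.Helper23.RBF
end Pool.Agent.Helper23.RBF

section

section

open scoped InnerProductSpace Topology BoundedContinuousFunction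

open ContinuousLinearMap Filter

namespace Pool.Agent.Helper78.BC

variable {H : Type*} [NormedAddCommGroup H] [InnerProductSpace ℂ H] [CompleteSpace H]

variable {A : VonNeumannAlgebra H} {ξ : H} {J : H →L[ℝ] H}
  {Ψ : (ℝ →ᵇ ℂ) →⋆ₐ[ℂ] (H →L[ℂ] H)}

namespace LevAux

lemma inner_iso {S : H →L[ℂ] H} (hS : star S * S = 1) (v w : H) : ⟪S v, S w⟫_ℂ = ⟪v, w⟫_ℂ := by
  have h1 : (star S) (S w) = w := by
    have := congrArg (fun T : H →L[ℂ] H => T w) hS
    simpa using this
  have h2 : ⟪v, (star S) (S w)⟫_ℂ = ⟪S v, S w⟫_ℂ := by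
    rw [star_eq_adjoint, adjoint_inner_right]
  rw [← h2, h1]

lemma norm_iso {S : H →L[ℂ] H} (hS : star S * S = 1) (v : H) : ‖S v‖ = ‖v‖ := by
  have h1 := inner_iso hS v v
  rw [inner_self_eq_norm_sq_to_K, inner_self_eq_norm_sq_to_K] at h1
  have h2 : ‖S v‖ ^ 2 = ‖v‖ ^ 2 := by exact_mod_cast h1
  exact (pow_left_inj₀ (norm_nonneg _) (norm_nonneg _) two_ne_zero).1 h2

lemma norm_star_le {S : H →L[ℂ] H} (hS : star S * S = 1) (v : H) : ‖(star S) v‖ ≤ ‖v‖ := by
  have h1 : ‖star S‖ ≤ 1 := by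
    rw [norm_star]
    refine opNorm_le_bound _ zero_le_one fun v => ?_
    rw [norm_iso hS, one_mul]
  calc ‖(star S) v‖ ≤ ‖star S‖ * ‖v‖ := le_opNorm _ _
    _ ≤ 1 * ‖v‖ := by (clear * - h1; gcongr)
    _ = ‖v‖ := one_mul _

end LevAux

end Pool.Agent.Helper78.BC

end

section

open scoped InnerProductSpace Topology BoundedContinuousFunction

open ContinuousLinearMap Filter MeasureTheory

namespace Pool.Agent.Helper88.CS

open Pool.Agent.Helper23

variable {H : Type*} [NormedAddCommGroup H] [InnerProductSpace ℂ H] [CompleteSpace H]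

namespace SumsAux

lemma inner_star (T : H →L[ℂ] H) (x y : H) : ⟪T x, y⟫_ℂ = ⟪x, (star T) y⟫_ℂ := by
  rw [star_eq_adjoint]; exact (adjoint_inner_right T x y).symm

/-- the orthogonality of the ranges -/
lemma inner_zero {w : ℕ → H →L[ℂ] H} (h1 : ∀ m n, m ≠ n → star (w m) * w n = 0)
    {m n : ℕ} (hmn : m ≠ n) (x y : H) : ⟪w m x, w n y⟫_ℂ = 0 := by
  rw [inner_star]
  have : (star (w m)) (w n y) = (star (w m) * w n) y := rfl
  rw [this, h1 m n hmn]
  simp

lemma norm_sq_sum {w : ℕ → H →L[ℂ] H} (h1 : ∀ m n, m ≠ n → star (w m) * w n = 0)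
    (F : Finset ℕ) (x : H) : ‖∑ n ∈ F, w n x‖ ^ 2 = ∑ n ∈ F, ‖w n x‖ ^ 2 := by
  classical
  induction F using Finset.induction_on with
  | empty => simp
  | insert a s ha ih =>
    rw [Finset.sum_insert ha, Finset.sum_insert ha, ← ih]
    have h0 : ⟪w a x, ∑ n ∈ s, w n x⟫_ℂ = 0 := by
      rw [inner_sum]
      refine Finset.sum_eq_zero fun n hn => inner_zero h1 ?_ x x
      rintro rfl
      exact ha hn
    have h2 := norm_add_sq (𝕜 := ℂ) (w a x) (∑ n ∈ s, w n x)
    rw [h0] at h2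
    simpa using h2

lemma sum_sq_le {w : ℕ → H →L[ℂ] H} (hw : ∀ n, w n * star (w n) * w n = w n)
    (h2 : ∀ m n, m ≠ n → w m * star (w n) = 0)
    (F : Finset ℕ) (x : H) : ∑ n ∈ F, ‖w n x‖ ^ 2 ≤ ‖x‖ ^ 2 := by
  classical
  set P : H →L[ℂ] H := ∑ n ∈ F, star (w n) * w n with hP
  have hstar : star P = P := by
    rw [hP, star_sum]
    refine Finset.sum_congr rfl fun n _ => ?_
    rw [star_mul, star_star]
  have hidem : P * P = P := by
    rw [hP, Finset.sum_mul]
    refine Finset.sum_congr rfl fun n hn => ?_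
    rw [Finset.mul_sum, Finset.sum_eq_single n]
    · rw [show star (w n) * w n * (star (w n) * w n) = star (w n) * (w n * star (w n) * w n) by
        simp only [mul_assoc], hw n]
    · intro m _ hm
      rw [show star (w n) * w n * (star (w m) * w m) = star (w n) * (w n * star (w m)) * w m by
        simp only [mul_assoc], h2 n m (Ne.symm hm)]
      simp
    · intro h; exact absurd hn h
  have e1 : (∑ n ∈ F, ‖w n x‖ ^ 2 : ℝ) = RCLike.re ⟪x, P x⟫_ℂ := by
    rw [hP]
    simp only [sum_apply, inner_sum, map_sum]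
    refine Finset.sum_congr rfl fun n _ => ?_
    have : (star (w n) * w n) x = (star (w n)) (w n x) := rfl
    rw [this, ← inner_star, inner_self_eq_norm_sq]
  have e2 : RCLike.re ⟪x, P x⟫_ℂ = ‖P x‖ ^ 2 := by
    have : ⟪P x, P x⟫_ℂ = ⟪x, P x⟫_ℂ := by
      rw [inner_star, hstar]
      have : P (P x) = (P * P) x := rfl
      rw [this, hidem]
    rw [← this, inner_self_eq_norm_sq]
  have e3 : ‖P x‖ ^ 2 ≤ ‖x‖ * ‖P x‖ := by
    rw [← e2]
    exact (RCLike.re_le_norm _).trans (norm_inner_le_norm _ _)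
  rw [e1, e2]
  have e4 : ‖P x‖ ≤ ‖x‖ := by
    by_cases h0 : ‖P x‖ = 0
    · rw [h0]; exact norm_nonneg x
    · have : 0 < ‖P x‖ := lt_of_le_of_ne (norm_nonneg _) (Ne.symm h0)
      (clear * - e3 this; nlinarith)
  exact pow_le_pow_left₀ (norm_nonneg _) e4 2

lemma norm_sum_le' {w : ℕ → H →L[ℂ] H} (hw : ∀ n, w n * star (w n) * w n = w n)
    (h1 : ∀ m n, m ≠ n → star (w m) * w n = 0) (h2 : ∀ m n, m ≠ n → w m * star (w n) = 0)
    (F : Finset ℕ) (x : H) : ‖∑ n ∈ F, w n x‖ ≤ ‖x‖ := by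
  have h := sum_sq_le hw h2 F x
  rw [← norm_sq_sum h1 F x] at h
  exact (pow_le_pow_iff_left₀ (norm_nonneg _) (norm_nonneg _) two_ne_zero).1 h

lemma summable_app {w : ℕ → H →L[ℂ] H} (hw : ∀ n, w n * star (w n) * w n = w n)
    (h1 : ∀ m n, m ≠ n → star (w m) * w n = 0) (h2 : ∀ m n, m ≠ n → w m * star (w n) = 0)
    (x : H) : Summable (fun n => w n x) := by
  have hs : Summable (fun n => ‖w n x‖ ^ 2) :=
    summable_of_sum_le (fun n => by positivity) (fun F => sum_sq_le hw h2 F x)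
  rw [summable_iff_vanishing_norm]
  intro ε hε
  obtain ⟨s, hs'⟩ := summable_iff_vanishing_norm.1 hs (ε ^ 2) (by (clear * - hε; positivity))
  refine ⟨s, fun t ht => ?_⟩
  have h3 := hs' t ht
  rw [← norm_sq_sum h1 t x, Real.norm_of_nonneg (by (clear * -; positivity))] at h3
  exact (pow_lt_pow_iff_left₀ (norm_nonneg _) hε.le two_ne_zero).1 h3

lemma exists_lim {w : ℕ → H →L[ℂ] H} (hw : ∀ n, w n * star (w n) * w n = w n)
    (h1 : ∀ m n, m ≠ n → star (w m) * w n = 0) (h2 : ∀ m n, m ≠ n → w m * star (w n) = 0) :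
    ∃ v : H →L[ℂ] H, ∀ x, HasSum (fun n => w n x) (v x) := by
  have hsum := summable_app hw h1 h2
  refine ⟨LinearMap.mkContinuous
    { toFun := fun x => ∑' n, w n x
      map_add' := fun x y => ?_
      map_smul' := fun c x => ?_ } 1 fun x => ?_, fun x => ?_⟩
  · rw [← (hsum x).tsum_add (hsum y)]
    exact tsum_congr fun n => map_add _ _ _
  · rw [RingHom.id_apply, ← (hsum x).tsum_const_smul]
    exact tsum_congr fun n => map_smul _ _ _
  · rw [one_mul]
    refine le_of_tendsto (hsum x).hasSum.norm (Eventually.of_forall fun F => ?_)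
    exact norm_sum_le' hw h1 h2 F x
  · exact (hsum x).hasSum

end SumsAux

end Pool.Agent.Helper88.CS

end

section

open scoped InnerProductSpace Topology ENNReal BoundedContinuousFunction

open ContinuousLinearMap Filter MeasureTheory

namespace Pool.Agent.Helper23.ED

open Pool.Agent.Helper23 Pool.Agent.Helper23.RBF

universe u

variable {K : Type*} [NormedAddCommGroup K] [InnerProductSpace ℂ K] [CompleteSpace K]

variable {A : VonNeumannAlgebra K} {κ : K} {R : K →L[ℂ] K} {D : K →L[ℝ] K}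
  {Ψ : (ℝ →ᵇ ℂ) →⋆ₐ[ℂ] (K →L[ℂ] K)}

/-- the Fourier transform of the Gaussian -/
noncomputable def GZ (m : ℝ) (hm : 0 < m) (z : ℂ) : ℝ →ᵇ ℂ :=
  BoundedContinuousFunction.ofNormedAddCommGroup
    (fun ρ : ℝ => ((Real.sqrt (Real.pi / m) : ℝ) : ℂ) *
      Complex.exp (Complex.I * z * ρ - (ρ : ℂ) ^ 2 / (4 * m))) (by fun_prop)
    (Real.sqrt (Real.pi / m) * Real.exp (m * z.im ^ 2)) (by
      intro ρ
      rw [norm_mul, Complex.norm_real, Real.norm_of_nonneg (Real.sqrt_nonneg _),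
        Complex.norm_exp]
      refine mul_le_mul_of_nonneg_left (Real.exp_le_exp.2 ?_) (Real.sqrt_nonneg _)
      have h1 : (Complex.I * z * ρ - (ρ : ℂ) ^ 2 / (4 * m)).re = -(z.im * ρ) - ρ ^ 2 / (4 * m) := by
        have h2 : (ρ : ℂ) ^ 2 / (4 * m) = ((ρ ^ 2 / (4 * m) : ℝ) : ℂ) := by push_cast; ring
        rw [h2, Complex.sub_re, Complex.ofReal_re]
        simp [Complex.mul_re]
      rw [h1]
      have h3 : m * z.im ^ 2 - (-(z.im * ρ) - ρ ^ 2 / (4 * m)) =
          (2 * m * z.im + ρ) ^ 2 / (4 * m) := by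
        field_simp
        ring
      have h4 : 0 ≤ (2 * m * z.im + ρ) ^ 2 / (4 * m) := by (clear * - hm; positivity)
      (clear * - h3 h4; linarith))

end Pool.Agent.Helper23.ED

end

end

section

section

open scoped InnerProductSpace

open ContinuousLinearMap

namespace Pool.Agent.Helper23

variable {H : Type*} [NormedAddCommGroup H] [InnerProductSpace ℂ H] [CompleteSpace H]

variable {M N : VonNeumannAlgebra H} {ξ : H} {E : (H →L[ℂ] H) → (H →L[ℂ] H)}

section Density

variable {ι : Type*} [Fintype ι] [DecidableEq ι]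

/-- Diagonal amplification. -/
noncomputable def diag (ι : Type*) [Fintype ι] (a : H →L[ℂ] H) :
    PiLp 2 (fun _ : ι => H) →L[ℂ] PiLp 2 (fun _ : ι => H) :=
  ((PiLp.continuousLinearEquiv 2 ℂ (fun _ : ι => H)).symm : _ →L[ℂ] _).comp
    (ContinuousLinearMap.pi fun i => a.comp (PiLp.proj 2 (fun _ : ι => H) i))

omit [CompleteSpace H] [DecidableEq ι] in
lemma diag_apply (a : H →L[ℂ] H) (x : PiLp 2 (fun _ : ι => H)) (i : ι) :
    diag ι a x i = a (x i) := rfl

end Density

end Pool.Agent.Helper23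

end

section

open scoped InnerProductSpace

open ContinuousLinearMap Filter

namespace Pool.Agent.Helper23

variable {H : Type*} [NormedAddCommGroup H] [InnerProductSpace ℂ H] [CompleteSpace H]

variable {M N : VonNeumannAlgebra H} {ξ : H} {E : (H →L[ℂ] H) → (H →L[ℂ] H)}

/-- an element of minimal norm of a closed convex hull is fixed by the isometries preserving
the generating set. -/
lemma exists_fixed_min {G : Type*} [NormedAddCommGroup G] [InnerProductSpace ℂ G]
    [CompleteSpace G] (S0 : Set G) (hne : S0.Nonempty) :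
    ∃ η ∈ closure (convexHull ℝ S0), ∀ T : G →L[ℂ] G, (∀ w ∈ S0, T w ∈ S0) →
      (∀ w, ‖T w‖ = ‖w‖) → T η = η := by
  let _ : InnerProductSpace ℝ G := InnerProductSpace.rclikeToReal ℂ G
  set K := closure (convexHull ℝ S0) with hK
  have hKconv : Convex ℝ K := (convex_convexHull ℝ S0).closure
  have hKne : K.Nonempty := by
    obtain ⟨v, hv⟩ := hne
    exact ⟨v, subset_closure (subset_convexHull ℝ S0 hv)⟩
  have hKcomp : IsComplete K := isClosed_closure.isComplete
  obtain ⟨η, hηK, hη⟩ := exists_norm_eq_iInf_of_complete_convex hKne hKcomp hKconv (0 : G)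
  have hmin : ∀ w ∈ K, ‖η‖ ≤ ‖w‖ := by
    intro w hw
    have h1 : ‖(0 : G) - η‖ ≤ ‖(0 : G) - w‖ := by
      rw [hη]
      refine ciInf_le_of_le ⟨0, ?_⟩ (⟨w, hw⟩ : K) le_rfl
      rintro _ ⟨v, rfl⟩
      exact norm_nonneg _
    simpa using h1
  have huniq : ∀ w ∈ K, ‖w‖ = ‖η‖ → w = η := by
    intro w hw hwn
    have hmid : (1 / 2 : ℝ) • w + (1 / 2 : ℝ) • η ∈ K :=
      hKconv hw hηK (by norm_num) (by norm_num) (by norm_num)
    have h1 := hmin _ hmid
    have h2 := parallelogram_law_with_norm ℝ w η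
    have h3 : ‖(1 / 2 : ℝ) • w + (1 / 2 : ℝ) • η‖ = (1 / 2) * ‖w + η‖ := by
      rw [← smul_add, norm_smul]
      norm_num
    rw [h3] at h1
    rw [hwn] at h2
    have h4 : ‖w - η‖ * ‖w - η‖ ≤ 0 := by
      have h5 : 2 * ‖η‖ ≤ ‖w + η‖ := by (clear * - h1; linarith)
      have h6 : (2 * ‖η‖) * (2 * ‖η‖) ≤ ‖w + η‖ * ‖w + η‖ :=
        mul_self_le_mul_self (by (clear * -; positivity)) h5
      (clear * - h2 h6; nlinarith)
    have h5 : ‖w - η‖ = 0 := by
      by_contra hne
      have : 0 < ‖w - η‖ := lt_of_le_of_ne (norm_nonneg _) (Ne.symm hne)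
      (clear * - h4 this; nlinarith)
    exact sub_eq_zero.1 (norm_eq_zero.1 h5)
  refine ⟨η, hηK, fun T hTG hTn => ?_⟩
  have hTK : ∀ w ∈ K, T w ∈ K := by
    have h1 : convexHull ℝ S0 ⊆ T ⁻¹' K := by
      refine convexHull_min (fun w hw => subset_closure (subset_convexHull ℝ S0 (hTG w hw))) ?_
      exact hKconv.linear_preimage (T.restrictScalars ℝ : G →ₗ[ℝ] G)
    exact fun w hw => closure_minimal h1 (isClosed_closure.preimage T.continuous) hw
  exact huniq _ (hTK η hηK) (hTn η)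

end Pool.Agent.Helper23

end

end

section

section

open scoped InnerProductSpace Topology BoundedContinuousFunction

open ContinuousLinearMap Filter

namespace Pool.Agent.Helper78.BC

variable {H : Type*} [NormedAddCommGroup H] [InnerProductSpace ℂ H] [CompleteSpace H]

/-- unitaries of `A` -/
def Un (A : VonNeumannAlgebra H) (u : H →L[ℂ] H) : Prop :=
  u ∈ A ∧ star u * u = 1 ∧ u * star u = 1

end Pool.Agent.Helper78.BC

end

section

open scoped InnerProductSpace Topology BoundedContinuousFunction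

open ContinuousLinearMap Filter

namespace Pool.Agent.Helper78.BC

variable {H : Type*} [NormedAddCommGroup H] [InnerProductSpace ℂ H] [CompleteSpace H]

variable {A : VonNeumannAlgebra H} {ξ : H} {J : H →L[ℝ] H}
  {Ψ : (ℝ →ᵇ ℂ) →⋆ₐ[ℂ] (H →L[ℂ] H)}

namespace Lip2

lemma un_star {u : H →L[ℂ] H} (hu : Un A u) : Un A (star u) :=
  ⟨star_mem hu.1, by rw [star_star]; exact hu.2.2, by rw [star_star]; exact hu.2.1⟩

lemma un_one : Un A (1 : H →L[ℂ] H) := ⟨one_mem A, by simp, by simp⟩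

lemma un_mul {u w : H →L[ℂ] H} (hu : Un A u) (hw : Un A w) : Un A (u * w) := by
  refine ⟨mul_mem hu.1 hw.1, ?_, ?_⟩
  · rw [star_mul, mul_assoc, ← mul_assoc (star u), hu.2.1, one_mul, hw.2.1]
  · rw [star_mul, mul_assoc, ← mul_assoc w, hw.2.2, one_mul, hu.2.2]

lemma un_norm {u : H →L[ℂ] H} (hu : Un A u) (v : H) : ‖u v‖ = ‖v‖ := by
  have h1 : ⟪u v, u v⟫_ℂ = ⟪v, v⟫_ℂ := by
    rw [← ContinuousLinearMap.adjoint_inner_right, ← ContinuousLinearMap.star_eq_adjoint]
    have : (star u) (u v) = v := by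
      have := congrArg (fun T : H →L[ℂ] H => T v) hu.2.1
      exact this
    rw [this]
  rw [inner_self_eq_norm_sq_to_K, inner_self_eq_norm_sq_to_K] at h1
  have h2 : ‖u v‖ ^ 2 = ‖v‖ ^ 2 := by exact_mod_cast h1
  exact (sq_eq_sq₀ (norm_nonneg _) (norm_nonneg _)).1 h2

end Lip2

end Pool.Agent.Helper78.BC

end

section

open scoped InnerProductSpace Topology BoundedContinuousFunction

open ContinuousLinearMap Filter MeasureTheory

namespace Pool.Agent.Helper23

variable {H : Type*} [NormedAddCommGroup H] [InnerProductSpace ℂ H] [CompleteSpace H]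

namespace TTA

set_option linter.unusedSectionVars false

/-- real part of the inner product -/
noncomputable def rho (v w : H) : ℝ := (⟪v, w⟫_ℂ).re

lemma rho_comm (v w : H) : rho v w = rho w v := by
  unfold rho
  rw [← inner_conj_symm, Complex.conj_re]

lemma rho_add_right (v w z : H) : rho v (w + z) = rho v w + rho v z := by
  unfold rho; rw [inner_add_right, Complex.add_re]

lemma rho_sub_right (v w z : H) : rho v (w - z) = rho v w - rho v z := by
  unfold rho; rw [inner_sub_right, Complex.sub_re]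

lemma rho_add_left (v w z : H) : rho (v + w) z = rho v z + rho w z := by
  unfold rho; rw [inner_add_left, Complex.add_re]

lemma rho_sub_left (v w z : H) : rho (v - w) z = rho v z - rho w z := by
  unfold rho; rw [inner_sub_left, Complex.sub_re]

lemma rho_neg_left (v w : H) : rho (-v) w = - rho v w := by
  unfold rho; rw [inner_neg_left, Complex.neg_re]

lemma rho_neg_right (v w : H) : rho v (-w) = - rho v w := by
  unfold rho; rw [inner_neg_right, Complex.neg_re]

lemma rho_I_right (v w : H) : rho v (Complex.I • w) = - (⟪v, w⟫_ℂ).im := by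
  unfold rho; rw [inner_smul_right]; simp

lemma rho_I_left (v w : H) : rho (Complex.I • v) w = (⟪v, w⟫_ℂ).im := by
  unfold rho; rw [inner_smul_left]; simp

lemma rho_I_I (v w : H) : rho (Complex.I • v) w = - rho v (Complex.I • w) := by
  rw [rho_I_left, rho_I_right]; ring

lemma rho_self (v : H) : rho v v = ‖v‖ ^ 2 := by
  unfold rho
  rw [inner_self_eq_norm_sq_to_K]
  norm_cast

lemma inner_ext_rho {v w v' w' : H} (h1 : rho v w = rho v' w')
    (h2 : (⟪v, w⟫_ℂ).im = (⟪v', w'⟫_ℂ).im) : ⟪v, w⟫_ℂ = ⟪v', w'⟫_ℂ := Complex.ext h1 h2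

variable (A : VonNeumannAlgebra H) (ξ : H)

/-- the real inner product -/
noncomputable abbrev rips : InnerProductSpace ℝ H := InnerProductSpace.complexToReal

attribute [local instance] rips

lemma smul_split (c : ℂ) (v : H) : c • v = c.re • v + c.im • (Complex.I • v) := by
  conv_lhs => rw [← Complex.re_add_im c]
  rw [add_smul, mul_smul, Complex.coe_smul, Complex.coe_smul]

lemma inner_zero_of {v w : H} (h1 : rho v w = 0) (h2 : rho v (Complex.I • w) = 0) :
    ⟪v, w⟫_ℂ = 0 := by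
  apply Complex.ext
  · exact h1
  · rw [rho_I_right] at h2
    simpa using h2

lemma zero_of_dense {V : Set H} (hV : Dense V) {v : H} (h : ∀ w ∈ V, ⟪w, v⟫_ℂ = 0) : v = 0 := by
  have hcl : IsClosed {w : H | ⟪w, v⟫_ℂ = 0} :=
    isClosed_eq (continuous_id.inner continuous_const) continuous_const
  have h1 : ⟪v, v⟫_ℂ = 0 := closure_minimal (fun w hw => h w hw) hcl (hV v)
  exact inner_self_eq_zero.1 h1

end TTA

end Pool.Agent.Helper23

end

section

open scoped InnerProductSpace ComplexOrder ComplexStarModule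

open ContinuousLinearMap

namespace Pool.Agent.Helper23

variable {H : Type*} [NormedAddCommGroup H] [InnerProductSpace ℂ H] [CompleteSpace H]

section Abstract

variable {A : Type*} [CStarAlgebra A]

/-- complexification of a real-linear functional on the self-adjoint part -/
noncomputable def cplx (κ : selfAdjoint A →ₗ[ℝ] ℝ) : A →ₗ[ℂ] ℂ where
  toFun x := (κ (ℜ x) : ℂ) + Complex.I * (κ (ℑ x) : ℂ)
  map_add' x y := by
    simp only [map_add]
    push_cast
    ring
  map_smul' c x := by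
    simp only [realPart_smul, imaginaryPart_smul, map_sub, map_add, map_smul, smul_eq_mul,
      RingHom.id_apply]
    apply Complex.ext
    · simp
    · simp

lemma cplx_apply (κ : selfAdjoint A →ₗ[ℝ] ℝ) (x : A) :
    cplx κ x = (κ (ℜ x) : ℂ) + Complex.I * (κ (ℑ x) : ℂ) := rfl

lemma cplx_sa (κ : selfAdjoint A →ₗ[ℝ] ℝ) (x : selfAdjoint A) :
    cplx κ (x : A) = (κ x : ℂ) := by
  rw [cplx_apply, selfAdjoint.imaginaryPart_coe]
  have h : ℜ (x : A) = x := by
    apply Subtype.ext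
    exact x.property.coe_realPart
  rw [h, map_zero]
  simp

end Abstract

end Pool.Agent.Helper23

end

section

open scoped InnerProductSpace

open ContinuousLinearMap Filter

namespace Pool.Agent.Helper23

variable {H : Type*} [NormedAddCommGroup H] [InnerProductSpace ℂ H] [CompleteSpace H]

variable {M N : VonNeumannAlgebra H} {ξ : H} {E : (H →L[ℂ] H) → (H →L[ℂ] H)}

/-- `C' = σ_{-i}(C)`: `φ(C z) = φ(z C')` for all `z` in `N`. -/
def Partner (N : VonNeumannAlgebra H) (ξ : H) (C C' : H →L[ℂ] H) : Prop :=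
  C ∈ N ∧ C' ∈ N ∧ ∀ z ∈ N, ⟪ξ, C (z ξ)⟫_ℂ = ⟪ξ, z (C' ξ)⟫_ℂ

/-- quantitative almost commutation of `y` with partner pairs -/
def LB (N : VonNeumannAlgebra H) (ξ : H) (y : H →L[ℂ] H) (κ K : ℝ) : Prop :=
  ∀ C C', Partner N ξ C C' →
    ‖(y * C - C * y) ξ‖ ^ 2 ≤ κ * ‖C ξ‖ ^ 2 + K * ‖(C' - C) ξ‖ ^ 2

lemma Partner.zero : Partner N ξ 0 0 := ⟨zero_mem N, zero_mem N, fun _ _ => by simp⟩

lemma Partner.one : Partner N ξ 1 1 := ⟨one_mem N, one_mem N, fun z _ => rfl⟩

lemma Partner.add {C C' D D' : H →L[ℂ] H} (h : Partner N ξ C C') (k : Partner N ξ D D') :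
    Partner N ξ (C + D) (C' + D') :=
  ⟨add_mem h.1 k.1, add_mem h.2.1 k.2.1, fun z hz => by
    rw [add_apply, add_apply, inner_add_right, map_add, inner_add_right, h.2.2 z hz,
      k.2.2 z hz]⟩

lemma Partner.sub {C C' D D' : H →L[ℂ] H} (h : Partner N ξ C C') (k : Partner N ξ D D') :
    Partner N ξ (C - D) (C' - D') :=
  ⟨sub_mem h.1 k.1, sub_mem h.2.1 k.2.1, fun z hz => by
    rw [sub_apply, sub_apply, inner_sub_right, map_sub, inner_sub_right, h.2.2 z hz,
      k.2.2 z hz]⟩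

lemma Partner.mul {C C' D D' : H →L[ℂ] H} (h : Partner N ξ C C') (k : Partner N ξ D D') :
    Partner N ξ (C * D) (C' * D') :=
  ⟨mul_mem h.1 k.1, mul_mem h.2.1 k.2.1, fun z hz => by
    have h1 := h.2.2 (D * z) (mul_mem k.1 hz)
    have h2 := k.2.2 (z * C') (mul_mem hz h.2.1)
    change ⟪ξ, C ((D * z) ξ)⟫_ℂ = ⟪ξ, (z * C') (D' ξ)⟫_ℂ
    rw [h1, ← h2]
    rfl⟩

end Pool.Agent.Helper23

end

section

open scoped InnerProductSpace Topology BoundedContinuousFunction

open ContinuousLinearMap Filter MeasureTheory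

namespace Pool.Agent.Helper88.CS

open Pool.Agent.Helper23

variable {H : Type*} [NormedAddCommGroup H] [InnerProductSpace ℂ H] [CompleteSpace H]

variable {A : VonNeumannAlgebra H} {ξ : H}

namespace EquivAux

/-- orthogonality of the shifted projections -/
theorem shift_ortho {q w : H →L[ℂ] H} (hq : star q = q) (h1 : star w * w = 1)
    (h2 : q * w = 0) (m n : ℕ) (hmn : m ≠ n) :
    (w ^ m * q * star w ^ m) * (w ^ n * q * star w ^ n) = 0 := by
  have hws : ∀ k : ℕ, star w ^ k * w ^ k = 1 := by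
    intro k
    induction k with
    | zero => simp
    | succ k ih =>
      rw [pow_succ (star w) k, pow_succ' w k]
      calc star w ^ k * star w * (w * w ^ k) = star w ^ k * (star w * w) * w ^ k := by
            simp only [mul_assoc]
        _ = 1 := by rw [h1, mul_one, ih]
  have h3 : star w * q = 0 := by
    have := congrArg star h2
    simpa [hq] using this
  rcases lt_or_gt_of_ne hmn with h | h
  · obtain ⟨k, rfl⟩ := Nat.exists_eq_add_of_lt h
    have e1 : w ^ (m + k + 1) = w ^ m * (w * w ^ k) := by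
      rw [← pow_succ', ← pow_add]; ring_nf
    calc (w ^ m * q * star w ^ m) * (w ^ (m + k + 1) * q * star w ^ (m + k + 1))
        = w ^ m * q * (star w ^ m * w ^ m) * w * w ^ k * q * star w ^ (m + k + 1) := by
          rw [e1]; simp only [mul_assoc]
      _ = w ^ m * (q * w) * w ^ k * q * star w ^ (m + k + 1) := by
          rw [hws]; simp only [mul_assoc, one_mul, mul_one]
      _ = 0 := by rw [h2]; simp
  · obtain ⟨k, rfl⟩ := Nat.exists_eq_add_of_lt h
    have e1 : star w ^ (n + k + 1) = star w ^ k * star w * star w ^ n := by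
      rw [← pow_succ, ← pow_add]; ring_nf
    calc (w ^ (n + k + 1) * q * star w ^ (n + k + 1)) * (w ^ n * q * star w ^ n)
        = w ^ (n + k + 1) * q * star w ^ k * star w * (star w ^ n * w ^ n) * q * star w ^ n := by
          rw [e1]; simp only [mul_assoc]
      _ = w ^ (n + k + 1) * q * star w ^ k * (star w * q) * star w ^ n := by
          rw [hws]; simp only [mul_assoc, one_mul, mul_one]
      _ = 0 := by rw [h3]; simp

end EquivAux

end Pool.Agent.Helper88.CS

end

section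

open scoped InnerProductSpace Topology ENNReal BoundedContinuousFunction

open ContinuousLinearMap Filter MeasureTheory

namespace Pool.Agent.Helper23.ED

open Pool.Agent.Helper23 Pool.Agent.Helper23.RBF

universe u

variable {H : Type u} [NormedAddCommGroup H] [InnerProductSpace ℂ H] [CompleteSpace H]

variable {K : Type u} [NormedAddCommGroup K] [InnerProductSpace ℂ K] [CompleteSpace K]

variable {L : Type u} [NormedAddCommGroup L] [InnerProductSpace ℂ L] [CompleteSpace L]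

variable {N : VonNeumannAlgebra H} {ψ : (H →L[ℂ] H) → ℝ≥0∞} {ξ : H} {i : K →L[ℂ] H} {κ : K}
  {Λ : (H →L[ℂ] H) → L} {ρ : (H →L[ℂ] H) → (L →L[ℂ] L)}

/-- two positive contractions with the same scaled transform are equal -/
lemma NgE_eq {T T₁ T₂ : K →L[ℂ] K} (h0 : star T = T) (h1 : star T₁ = T₁)
    (h2 : star T₂ = T₂) (hp : ∀ v : K, 0 ≤ (⟪v, T v⟫_ℂ).re)
    (hq : ∀ v : K, (⟪v, T v⟫_ℂ).re ≤ ‖v‖ ^ 2) {l : ℝ} (hl : 0 < l)
    (h : ∀ v, T₁ (T v + (l : ℂ) • (v - T v)) = T₂ (T v + (l : ℂ) • (v - T v))) : T₁ = T₂ := by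
  have hs : ∀ (A : K →L[ℂ] K), star A = A → ∀ x y, ⟪A x, y⟫_ℂ = ⟪x, A y⟫_ℂ := by
    intro A hA x y
    conv_lhs => rw [← hA]
    rw [ContinuousLinearMap.star_eq_adjoint, ContinuousLinearMap.adjoint_inner_left]
  set X : K →L[ℂ] K := T + (l : ℂ) • (1 - T) with hX
  have hXv : ∀ v, X v = T v + (l : ℂ) • (v - T v) := fun v => rfl
  have hXs : star X = X := by
    rw [hX, star_add, star_smul, star_sub, star_one, h0]
    simp
  have hinj : ∀ y, X y = 0 → y = 0 := by
    intro y hy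
    have e1 : (⟪y, X y⟫_ℂ).re = 0 := by rw [hy, inner_zero_right, Complex.zero_re]
    rw [hXv, inner_add_right, inner_smul_right, inner_sub_right, Complex.add_re,
      Complex.re_ofReal_mul, Complex.sub_re] at e1
    have e2 : (⟪y, y⟫_ℂ).re = ‖y‖ ^ 2 := by
      rw [inner_self_eq_norm_sq_to_K]
      norm_cast
    rw [e2] at e1
    have e3 := hp y
    have e4 := hq y
    have e5 : 0 ≤ l * (‖y‖ ^ 2 - (⟪y, T y⟫_ℂ).re) := mul_nonneg hl.le (by (clear * - e4; linarith))
    have e6 : (⟪y, T y⟫_ℂ).re = 0 := by linarith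
    have e7 : l * ‖y‖ ^ 2 = 0 := by rw [e6] at e1; (clear * - e1; linarith)
    rcases mul_eq_zero.1 e7 with h8 | h8
    · exact (hl.ne' h8).elim
    · exact norm_eq_zero.1 (pow_eq_zero_iff two_ne_zero |>.1 h8)
  ext w
  rw [← sub_eq_zero]
  apply hinj
  refine ext_inner_right ℂ fun v => ?_
  rw [hs X hXs, inner_sub_left, hs T₁ h1, hs T₂ h2, hXv, h v, sub_self, inner_zero_left]

end Pool.Agent.Helper23.ED

end

section

open scoped InnerProductSpace Topology ENNReal BoundedContinuousFunction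

open ContinuousLinearMap Filter MeasureTheory

namespace Pool.Agent.Helper23.ED

open Pool.Agent.Helper23 Pool.Agent.Helper23.RBF

universe u

open TopologicalSpace

variable {H : Type*} [NormedAddCommGroup H] [InnerProductSpace ℂ H] [CompleteSpace H]

variable {N : VonNeumannAlgebra H} {ξ : H} {W : ℝ → H →L[ℂ] H}

/-- weak operator ultralimits of contractions -/
lemma slB_ulim {ι : Type*} (F : Ultrafilter ι) {x : ι → H →L[ℂ] H}
    (hx : ∀ i, ‖x i‖ ≤ 1) : ∃ X : H →L[ℂ] H, ‖X‖ ≤ 1 ∧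
      ∀ w v, Tendsto (fun i => ⟪w, x i v⟫_ℂ) (F : Filter ι) (𝓝 ⟪w, X v⟫_ℂ) := by
  have hb : ∀ w v i, ‖⟪w, x i v⟫_ℂ‖ ≤ ‖w‖ * ‖v‖ := by
    intro w v i
    refine (norm_inner_le_norm _ _).trans ?_
    refine mul_le_mul_of_nonneg_left ?_ (norm_nonneg _)
    refine ((x i).le_opNorm v).trans ?_
    have := mul_le_mul_of_nonneg_right (hx i) (norm_nonneg v)
    rwa [one_mul] at this
  have hL : ∀ w v, ∃ l : ℂ, ‖l‖ ≤ ‖w‖ * ‖v‖ ∧
      Tendsto (fun i => ⟪w, x i v⟫_ℂ) (F : Filter ι) (𝓝 l) := by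
    intro w v
    obtain ⟨l, hl, hl'⟩ := (isCompact_closedBall (0 : ℂ) (‖w‖ * ‖v‖)).ultrafilter_le_nhds
      (F.map fun i => ⟪w, x i v⟫_ℂ) (by
        rw [le_principal_iff]
        refine Filter.mem_map.2 (Filter.univ_mem' fun i => ?_)
        rw [Set.mem_preimage, mem_closedBall_zero_iff]
        exact hb w v i)
    exact ⟨l, mem_closedBall_zero_iff.1 hl, hl'⟩
  choose L hLn hLt using hL
  have huniq : ∀ w v l, Tendsto (fun i => ⟪w, x i v⟫_ℂ) (F : Filter ι) (𝓝 l) → L w v = l :=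
    fun w v l h => tendsto_nhds_unique (hLt w v) h
  set B : H →ₗ⋆[ℂ] H →ₗ[ℂ] ℂ := LinearMap.mk₂'ₛₗ (starRingEnd ℂ) (RingHom.id ℂ) L
    (by
      intro w w' v
      refine huniq _ _ _ ?_
      have := (hLt w v).add (hLt w' v)
      refine this.congr fun i => ?_
      rw [inner_add_left])
    (by
      intro c w v
      refine huniq _ _ _ ?_
      have := (hLt w v).const_mul ((starRingEnd ℂ) c)
      refine this.congr fun i => ?_
      rw [inner_smul_left])
    (by
      intro w v v'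
      refine huniq _ _ _ ?_
      have := (hLt w v).add (hLt w v')
      refine this.congr fun i => ?_
      rw [map_add, inner_add_right])
    (by
      intro c w v
      refine huniq _ _ _ ?_
      have := (hLt w v).const_mul c
      refine this.congr fun i => ?_
      rw [map_smul, inner_smul_right]) with hB
  have hB' : ∀ w v, B w v = L w v := fun w v => rfl
  set B' : H →L⋆[ℂ] H →L[ℂ] ℂ := B.mkContinuous₂ 1 (fun w v => by
    rw [hB', one_mul]; exact hLn w v) with hB'd
  have hBa : ∀ w v, B' w v = L w v := fun w v => rfl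
  set Y : H →L[ℂ] H := InnerProductSpace.continuousLinearMapOfBilin B' with hY
  have hYa : ∀ w v, ⟪Y w, v⟫_ℂ = L w v := fun w v => by
    rw [hY, InnerProductSpace.continuousLinearMapOfBilin_apply, hBa]
  have hYn : ‖Y‖ ≤ 1 := by
    refine ContinuousLinearMap.opNorm_le_bound _ zero_le_one fun w => ?_
    have h1 : ‖⟪Y w, Y w⟫_ℂ‖ ≤ ‖w‖ * ‖Y w‖ := by
      rw [hYa]; exact hLn _ _
    rw [inner_self_eq_norm_sq_to_K, norm_pow, RCLike.norm_ofReal, abs_norm, sq] at h1
    rw [one_mul]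
    by_cases h0 : ‖Y w‖ = 0
    · rw [h0]; exact norm_nonneg _
    · have hpos : 0 < ‖Y w‖ := lt_of_le_of_ne (norm_nonneg _) (Ne.symm h0)
      exact le_of_mul_le_mul_right h1 hpos
  refine ⟨ContinuousLinearMap.adjoint Y, ?_, ?_⟩
  · rw [LinearIsometryEquiv.norm_map]
    exact hYn
  · intro w v
    rw [ContinuousLinearMap.adjoint_inner_right, hYa]
    exact hLt w v

end Pool.Agent.Helper23.ED

end

end

section

section

open scoped InnerProductSpace

open ContinuousLinearMap Filter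

namespace Pool.Agent.Helper23

variable {H : Type*} [NormedAddCommGroup H] [InnerProductSpace ℂ H] [CompleteSpace H]

variable {M N : VonNeumannAlgebra H} {ξ : H} {E : (H →L[ℂ] H) → (H →L[ℂ] H)}

lemma exists_sqrt_abs {A : Type*} [CStarAlgebra A] {x : A} (hx : IsSelfAdjoint x)
    (hx1 : ‖x‖ ≤ 1) : ∃ a k : A, star a = a ∧ star k = k ∧ a * a = 1 - x ∧
      (1 + a) * k = 1 ∧ k * (1 + a) = 1 := by
  let _ : PartialOrder A := CStarAlgebra.spectralOrder _
  let _ : StarOrderedRing A := CStarAlgebra.spectralOrderedRing _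
  have hp : 0 ≤ 1 - x := by
    rw [sub_nonneg]
    have h1 := IsSelfAdjoint.le_algebraMap_norm_self hx
    have h2 : algebraMap ℝ A ‖x‖ ≤ algebraMap ℝ A 1 := algebraMap_mono A hx1
    rw [map_one] at h2
    exact h1.trans h2
  set a := CFC.sqrt (1 - x) with ha
  have ha0 : 0 ≤ a := CFC.sqrt_nonneg _
  have hsa : star a = a := IsSelfAdjoint.of_nonneg ha0
  have hunit : IsUnit (1 + a) := by
    by_contra hcon
    have h1 : (-1 : ℝ) ∈ spectrum ℝ a := by
      rw [spectrum.mem_iff]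
      intro h
      apply hcon
      have h2 : algebraMap ℝ A (-1) - a = -(1 + a) := by
        rw [map_neg, map_one]; abel
      rw [h2] at h
      exact (IsUnit.neg_iff _).1 h
    have h2 := spectrum_nonneg_of_nonneg ha0 h1
    linarith
  obtain ⟨u, hu⟩ := hunit
  refine ⟨a, ((u⁻¹ : Aˣ) : A), hsa, ?_, CFC.sqrt_mul_sqrt_self _ hp, ?_, ?_⟩
  · have h1 : star (1 + a) = 1 + a := by rw [star_add, star_one, hsa]
    have h2 : star ((u⁻¹ : Aˣ) : A) * (1 + a) = 1 := by
      have h3 : (1 + a) * ((u⁻¹ : Aˣ) : A) = 1 := by rw [← hu]; exact Units.mul_inv u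
      have := congrArg star h3
      rwa [star_mul, star_one, h1] at this
    calc star ((u⁻¹ : Aˣ) : A) = star ((u⁻¹ : Aˣ) : A) * ((1 + a) * ((u⁻¹ : Aˣ) : A)) := by
          rw [← hu, Units.mul_inv, mul_one]
      _ = ((u⁻¹ : Aˣ) : A) := by rw [← mul_assoc, h2, one_mul]
  · rw [← hu]; exact Units.mul_inv u
  · rw [← hu]; exact Units.inv_mul u

end Pool.Agent.Helper23

end

section

open scoped InnerProductSpace Topology ENNReal

open ContinuousLinearMap Filter MeasureTheory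

set_option linter.unusedSectionVars false

set_option linter.unusedVariables false

namespace Pool.Agent.Helper23

variable {H : Type*} [NormedAddCommGroup H] [InnerProductSpace ℂ H] [CompleteSpace H]

variable {M N : VonNeumannAlgebra H} {ξ : H} {E : (H →L[ℂ] H) → (H →L[ℂ] H)}

open RBF

/-- the relative commutant as a von Neumann algebra -/
noncomputable def Calg (M N : VonNeumannAlgebra H) (ψ : (H →L[ℂ] H) → ℝ≥0∞) :
    VonNeumannAlgebra H where
  toStarSubalgebra := StarSubalgebra.centralizer ℂ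
    ((M.commutant : Set (H →L[ℂ] H)) ∪ {u | ScalingUnitary N ψ 1 u})
  centralizer_centralizer' := by simp

end Pool.Agent.Helper23

end

section

open scoped InnerProductSpace Topology

open ContinuousLinearMap Filter

namespace Pool.Agent.Helper23

universe u

variable {H : Type u} [NormedAddCommGroup H] [InnerProductSpace ℂ H] [CompleteSpace H]

variable {M N : VonNeumannAlgebra H} {ξ : H} {E : (H →L[ℂ] H) → (H →L[ℂ] H)}

/-- the sequence of radii -/
noncomputable def avd (n : ℕ) : ℝ := (1 / 2 : ℝ) ^ n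

lemma avd_pos (n : ℕ) : 0 < avd n := by unfold avd; (clear * -; positivity)

lemma avd_anti {n k : ℕ} (h : n ≤ k) : avd k ≤ avd n :=
  pow_le_pow_of_le_one (by norm_num) (by norm_num) h

lemma avd_tendsto : Tendsto avd atTop (𝓝 0) :=
  tendsto_pow_atTop_nhds_zero_of_lt_one (by norm_num) (by norm_num)

lemma avd_succ (n : ℕ) : avd (n + 1) + avd (n + 1) = avd n := by
  unfold avd; rw [pow_succ]; ring

end Pool.Agent.Helper23

end

section

open scoped InnerProductSpace Topology BoundedContinuousFunction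

open ContinuousLinearMap Filter MeasureTheory

namespace Pool.Agent.Helper88.CS

open Pool.Agent.Helper23

variable {H : Type*} [NormedAddCommGroup H] [InnerProductSpace ℂ H] [CompleteSpace H]

variable {A : VonNeumannAlgebra H} {ξ : H} {J : H →L[ℝ] H}
  {Ψ : (ℝ →ᵇ ℂ) →⋆ₐ[ℂ] (H →L[ℂ] H)} {R : H →L[ℂ] H} {D : H →L[ℝ] H}

namespace SuppBAux

omit [CompleteSpace H] in
theorem cont_apply' {X : Type*} [TopologicalSpace X] {T : X → H →L[ℂ] H}
    (hT : ∀ t v, ‖T t v‖ ≤ ‖v‖) (hc : ∀ v, Continuous fun t => T t v) {f : X → H}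
    (hf : Continuous f) : Continuous fun t => T t (f t) := by
  rw [continuous_iff_continuousAt]
  intro t₀
  rw [ContinuousAt, tendsto_iff_norm_sub_tendsto_zero]
  have h1 : Tendsto (fun t => ‖f t - f t₀‖ + ‖T t (f t₀) - T t₀ (f t₀)‖) (𝓝 t₀) (𝓝 0) := by
    have e1 := tendsto_iff_norm_sub_tendsto_zero.1 (hf.tendsto t₀)
    have e2 := tendsto_iff_norm_sub_tendsto_zero.1 ((hc (f t₀)).tendsto t₀)
    simpa using e1.add e2
  refine squeeze_zero (fun _ => norm_nonneg _) (fun t => ?_) h1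
  have h2 : T t (f t) - T t₀ (f t₀) = T t (f t - f t₀) + (T t (f t₀) - T t₀ (f t₀)) := by
    rw [map_sub]; abel
  rw [h2]
  refine (norm_add_le _ _).trans ?_
  gcongr
  exact hT _ _

end SuppBAux

end Pool.Agent.Helper88.CS

end

section

open scoped InnerProductSpace Topology BoundedContinuousFunction

open ContinuousLinearMap Filter MeasureTheory

namespace Pool.Agent.Helper88.CS

open Pool.Agent.Helper23

variable {H : Type*} [NormedAddCommGroup H] [InnerProductSpace ℂ H] [CompleteSpace H]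

variable {A : VonNeumannAlgebra H} {ξ : H} {J : H →L[ℝ] H}
  {Ψ : (ℝ →ᵇ ℂ) →⋆ₐ[ℂ] (H →L[ℂ] H)} {R : H →L[ℂ] H} {D : H →L[ℝ] H}

namespace CornerSpecAux

/-- the regularized inverse of a continuous function -/
theorem exists_inv (f : ℝ → ℂ) (hf : Continuous f) {m : ℝ} (hm : 0 < m) :
    ∃ p : ℝ →ᵇ ℂ, ∀ ρ, m ≤ ‖f ρ‖ → f ρ * p ρ = 1 := by
  have hpos : ∀ ρ, 0 < max (‖f ρ‖ ^ 2) (m ^ 2) := fun ρ =>
    lt_max_of_lt_right (by positivity)
  have hc : Continuous fun ρ : ℝ =>
      (starRingEnd ℂ) (f ρ) / (((max (‖f ρ‖ ^ 2) (m ^ 2) : ℝ)) : ℂ) := by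
    refine Continuous.div (Complex.continuous_conj.comp hf)
      (Complex.continuous_ofReal.comp (by fun_prop)) fun ρ => ?_
    exact_mod_cast (hpos ρ).ne'
  have hb : ∀ ρ : ℝ,
      ‖(starRingEnd ℂ) (f ρ) / (((max (‖f ρ‖ ^ 2) (m ^ 2) : ℝ)) : ℂ)‖ ≤ 1 / m := by
    intro ρ
    rw [norm_div, RCLike.norm_conj, Complex.norm_real, Real.norm_of_nonneg (hpos ρ).le,
      div_le_div_iff₀ (hpos ρ) hm, one_mul]
    rcases le_or_gt m ‖f ρ‖ with h | h
    · refine le_trans ?_ (le_max_left _ _)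
      (clear * - hm h; nlinarith [norm_nonneg (f ρ)])
    · refine le_trans ?_ (le_max_right _ _)
      (clear * - hm h; nlinarith [norm_nonneg (f ρ)])
  refine ⟨BoundedContinuousFunction.ofNormedAddCommGroup _ hc (1 / m) hb, fun ρ hρ => ?_⟩
  change f ρ * ((starRingEnd ℂ) (f ρ) / (((max (‖f ρ‖ ^ 2) (m ^ 2) : ℝ)) : ℂ)) = 1
  have h1 : m ^ 2 ≤ ‖f ρ‖ ^ 2 := by
    have := hm.le
    gcongr
  rw [max_eq_left h1, ← mul_div_assoc, Complex.mul_conj, Complex.normSq_eq_norm_sq, div_self]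
  have h2 : (0 : ℝ) < ‖f ρ‖ ^ 2 := lt_of_lt_of_le (by positivity) h1
  exact_mod_cast h2.ne'

end CornerSpecAux

end Pool.Agent.Helper88.CS

end

section

open scoped InnerProductSpace Topology BoundedContinuousFunction

open ContinuousLinearMap Filter MeasureTheory

namespace Pool.Agent.Helper88.CS

open Pool.Agent.Helper23

variable {H : Type*} [NormedAddCommGroup H] [InnerProductSpace ℂ H] [CompleteSpace H]

variable {A : VonNeumannAlgebra H} {J : H →L[ℝ] H} {κ : H}

namespace Trick2Aux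

/-- the arithmetic of the constants -/
theorem arith {a b S t δ : ℝ} (ha : 0 ≤ a) (hb : 0 ≤ b) (hS : 0 < S) (ht : 0 ≤ t)
    (hδ1 : δ ≤ 1 / 100) (hS2 : S ^ 2 = a ^ 2 + b ^ 2) (hab : b ≤ a + t)
    (htS : 2 * t ^ 2 ≤ 32 * δ * S ^ 2) (hδ : 0 < δ) : t ^ 2 ≤ 100 * δ * a ^ 2 := by
  have h1 : t ≤ 4 / 10 * S := by
    have h2 : t ^ 2 ≤ (4 / 10 * S) ^ 2 := by (clear * - htS hδ1; nlinarith [sq_nonneg S])
    exact abs_le_of_sq_le_sq' h2 (by (clear * - hS; positivity)) |>.2
  have h3 : S ≤ 5 / 2 * a := by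
    by_contra hcon
    push Not at hcon
    have h4 : a ≤ 2 / 5 * S := by (clear * - hcon; linarith)
    have h5 : b ≤ 4 / 5 * S := by (clear * - hab h1 hcon; linarith)
    have h6 : a ^ 2 ≤ (2 / 5 * S) ^ 2 := pow_le_pow_left₀ ha h4 2
    have h7 : b ^ 2 ≤ (4 / 5 * S) ^ 2 := pow_le_pow_left₀ hb h5 2
    (clear * - hS2 h6 h7 hS; nlinarith [sq_pos_of_pos hS])
  have h8 : S ^ 2 ≤ (5 / 2 * a) ^ 2 := pow_le_pow_left₀ hS.le h3 2
  (clear * - htS hδ h8; nlinarith)

end Trick2Aux

end Pool.Agent.Helper88.CS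

end

section

open scoped InnerProductSpace Topology ENNReal BoundedContinuousFunction

open ContinuousLinearMap Filter MeasureTheory

namespace Pool.Agent.Helper23.ED

open Pool.Agent.Helper23 Pool.Agent.Helper23.RBF

universe u

variable {H : Type u} [NormedAddCommGroup H] [InnerProductSpace ℂ H] [CompleteSpace H]

variable {K : Type u} [NormedAddCommGroup K] [InnerProductSpace ℂ K] [CompleteSpace K]

variable {L : Type u} [NormedAddCommGroup L] [InnerProductSpace ℂ L] [CompleteSpace L]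

variable {N : VonNeumannAlgebra H} {ψ : (H →L[ℂ] H) → ℝ≥0∞} {ξ : H} {i : K →L[ℂ] H} {κ : K}
  {Λ : (H →L[ℂ] H) → L} {ρ : (H →L[ℂ] H) → (L →L[ℂ] L)}

namespace WtD

/-- weighted increments -/
noncomputable def inc (b : ℕ → H →L[ℂ] H) (k j : ℕ) : H →L[ℂ] H :=
  ((((2 : ℝ) ^ (k + j + 1) : ℝ)) : ℂ) •
    ((b (k + j + 1) - b (k + j)) * star (b (k + j + 1) - b (k + j)))

/-- the increasing sequence of the graph argument -/
noncomputable def wseq (b : ℕ → H →L[ℂ] H) (k n : ℕ) : H →L[ℂ] H :=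
  ∑ j ∈ Finset.range n, inc b k j

lemma wseq_succ (b : ℕ → H →L[ℂ] H) (k n : ℕ) : wseq b k (n + 1) = wseq b k n + inc b k n :=
  Finset.sum_range_succ _ _

lemma inc_nonneg (b : ℕ → H →L[ℂ] H) (k j : ℕ) : 0 ≤ inc b k j := by
  rw [nonneg_iff_isPositive]
  have h1 : (0 : H →L[ℂ] H) ≤ (b (k + j + 1) - b (k + j)) * star (b (k + j + 1) - b (k + j)) :=
    mul_star_self_nonneg _
  rw [nonneg_iff_isPositive] at h1
  refine h1.smul_of_nonneg ?_
  have : (0 : ℝ) ≤ 2 ^ (k + j + 1) := by positivity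
  exact_mod_cast this

lemma wseq_nonneg (b : ℕ → H →L[ℂ] H) (k n : ℕ) : 0 ≤ wseq b k n :=
  Finset.sum_nonneg fun j _ => inc_nonneg b k j

lemma wseq_mono (b : ℕ → H →L[ℂ] H) (k : ℕ) : Monotone (wseq b k) := by
  refine monotone_nat_of_le_succ fun n => ?_
  rw [wseq_succ]
  exact le_add_of_nonneg_right (inc_nonneg b k n)

end WtD

end Pool.Agent.Helper23.ED

end

section

open scoped InnerProductSpace Topology ENNReal BoundedContinuousFunction

open ContinuousLinearMap Filter MeasureTheory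

namespace Pool.Agent.Helper23.ED

open Pool.Agent.Helper23 Pool.Agent.Helper23.RBF

universe u

open TopologicalSpace

variable {H : Type*} [NormedAddCommGroup H] [InnerProductSpace ℂ H] [CompleteSpace H]

variable {N : VonNeumannAlgebra H} {ξ : H} {W : ℝ → H →L[ℂ] H}

namespace WuA

/-- a von Neumann algebra from a set of operators: its commutant -/
noncomputable def cvn (S : Set (H →L[ℂ] H)) : VonNeumannAlgebra H where
  toStarSubalgebra := StarSubalgebra.centralizer ℂ S
  centralizer_centralizer' := by simp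

lemma mem_cvn {S : Set (H →L[ℂ] H)} {x : H →L[ℂ] H} :
    x ∈ cvn S ↔ ∀ g ∈ S, g * x = x * g ∧ star g * x = x * star g := by
  have h1 : x ∈ cvn S ↔ x ∈ StarSubalgebra.centralizer ℂ S := Iff.rfl
  rw [h1, StarSubalgebra.mem_centralizer_iff]

end WuA

end Pool.Agent.Helper23.ED

end

end

section

section

open scoped InnerProductSpace ComplexOrder ComplexStarModule

open ContinuousLinearMap

namespace Pool.Agent.Helper23

variable {H : Type*} [NormedAddCommGroup H] [InnerProductSpace ℂ H] [CompleteSpace H]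

lemma exists_ext' {F K L : Type*} [AddCommGroup F] [Module ℂ F] [NormedAddCommGroup K]
    [NormedSpace ℂ K] [NormedAddCommGroup L] [NormedSpace ℂ L] [CompleteSpace L]
    (f : F →ₗ[ℂ] L) (e : F →ₗ[ℂ] K) (hd : DenseRange e)
    {C : ℝ} (hC : 0 ≤ C) (h : ∀ t, ‖f t‖ ≤ C * ‖e t‖) :
    ∃ z : K →L[ℂ] L, (∀ t, z (e t) = f t) ∧ ‖z‖ ≤ C :=
  ⟨f.extendOfNorm e, fun t => LinearMap.extendOfNorm_eq hd ⟨C, h⟩ t,
    LinearMap.opNorm_extendOfNorm_le hd hC h⟩

end Pool.Agent.Helper23

end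

section

open scoped InnerProductSpace ComplexOrder ComplexStarModule

open ContinuousLinearMap

namespace Pool.Agent.Helper23

variable {H : Type*} [NormedAddCommGroup H] [InnerProductSpace ℂ H] [CompleteSpace H]

section Abstract

variable {A : Type*} [CStarAlgebra A]

/-- evaluation as a linear map -/
noncomputable def evR (ρ : A →⋆ₐ[ℂ] (H →L[ℂ] H)) (ξ : H) : A →ₗ[ℂ] H where
  toFun x := ρ x ξ
  map_add' x y := by
    rw [map_add, add_apply]
  map_smul' c x := by
    rw [map_smul, smul_apply]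
    rfl

variable [PartialOrder A] [StarOrderedRing A]

/-- The extension of `[x] ↦ ρ(x) ζ` to the GNS space of a functional dominating the vector
functional of `ζ`. -/
lemma exists_gns_op (ρ : A →⋆ₐ[ℂ] (H →L[ℂ] H)) (ζ : H) (χ : A →ₚ[ℂ] ℂ)
    (h : ∀ x : A, ‖ρ x ζ‖ ^ 2 ≤ (χ (star x * x)).re) :
    ∃ T : χ.GNS →L[ℂ] H, (∀ x : A, T ((χ.toPreGNS x : χ.PreGNS) : χ.GNS) = ρ x ζ) ∧
      ‖T‖ ≤ 1 ∧ ∀ a : A, ∀ v : χ.GNS, T (χ.gnsStarAlgHom a v) = ρ a (T v) := by
  let e : A →ₗ[ℂ] χ.GNS :=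
    (UniformSpace.Completion.toComplL (𝕜 := ℂ) (E := χ.PreGNS)).toLinearMap ∘ₗ
      χ.toPreGNS.toLinearMap
  have he : ∀ x, e x = ((χ.toPreGNS x : χ.PreGNS) : χ.GNS) := fun x => rfl
  have hd : DenseRange e := by
    have h1 : DenseRange ((↑) : χ.PreGNS → χ.GNS) := UniformSpace.Completion.denseRange_coe
    have h2 : Set.range e = Set.range ((↑) : χ.PreGNS → χ.GNS) := by
      ext v
      constructor
      · rintro ⟨x, rfl⟩
        exact ⟨χ.toPreGNS x, rfl⟩
      · rintro ⟨x, rfl⟩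
        exact ⟨χ.ofPreGNS x, rfl⟩
    rw [DenseRange, h2]
    exact h1
  have hbound : ∀ x : A, ‖evR ρ ζ x‖ ≤ 1 * ‖e x‖ := by
    intro x
    rw [one_mul, he, UniformSpace.Completion.norm_coe]
    refine (pow_le_pow_iff_left₀ (norm_nonneg _) (norm_nonneg _) two_ne_zero).1 ?_
    have h1 := χ.preGNS_norm_sq (χ.toPreGNS x)
    rw [PositiveLinearMap.ofPreGNS_toPreGNS] at h1
    have h2 : ‖χ.toPreGNS x‖ ^ 2 = (χ (star x * x)).re := by
      rw [← h1]
      norm_cast
    rw [h2]
    exact h x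
  obtain ⟨T, hT, hT1⟩ := exists_ext' (evR ρ ζ) e hd zero_le_one hbound
  refine ⟨T, hT, hT1, fun a v => ?_⟩
  have hcl : IsClosed {v : χ.GNS | T (χ.gnsStarAlgHom a v) = ρ a (T v)} :=
    isClosed_eq (T.continuous.comp (χ.gnsStarAlgHom a).continuous)
      ((ρ a).continuous.comp T.continuous)
  have hsub : Set.range e ⊆ {v : χ.GNS | T (χ.gnsStarAlgHom a v) = ρ a (T v)} := by
    rintro _ ⟨x, rfl⟩
    change T (χ.gnsStarAlgHom a (e x)) = ρ a (T (e x))
    have h3 : χ.gnsStarAlgHom a (e x) = e (a * x) := by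
      rw [he, he]
      change χ.gnsNonUnitalStarAlgHom a _ = _
      rw [PositiveLinearMap.gnsNonUnitalStarAlgHom_apply_coe]
      rfl
    rw [h3, hT, hT]
    change ρ (a * x) ζ = ρ a (ρ x ζ)
    rw [map_mul]
    rfl
  exact closure_minimal hsub hcl (hd v)

end Abstract

end Pool.Agent.Helper23

end

end

section

section

open scoped InnerProductSpace Topology BoundedContinuousFunction

open ContinuousLinearMap Filter MeasureTheory

namespace Pool.Agent.Helper43.TTF

open Pool.Agent.Helper23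

variable {H : Type*} [NormedAddCommGroup H] [InnerProductSpace ℂ H] [CompleteSpace H]

/-- composition with `ρ ↦ -ρ` -/
noncomputable def refl : (ℝ →ᵇ ℂ) →⋆ₐ[ℂ] (ℝ →ᵇ ℂ) where
  toFun G := G.compContinuous ⟨fun ρ => -ρ, continuous_neg⟩
  map_one' := by ext; simp
  map_mul' _ _ := by ext; simp
  map_zero' := by ext; simp
  map_add' _ _ := by ext; simp
  commutes' _ := by ext; simp
  map_star' _ := by ext; simp

@[simp] lemma refl_apply (G : ℝ →ᵇ ℂ) (ρ : ℝ) : refl G ρ = G (-ρ) := rfl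

lemma refl_norm (G : ℝ →ᵇ ℂ) : ‖refl G‖ ≤ ‖G‖ := by
  rw [BoundedContinuousFunction.norm_le (norm_nonneg _)]
  intro ρ
  exact G.norm_coe_le_norm _

end Pool.Agent.Helper43.TTF

end

end

section

section

open scoped InnerProductSpace

open ContinuousLinearMap

namespace Pool.Agent.Helper23

variable {H : Type*} [NormedAddCommGroup H] [InnerProductSpace ℂ H] [CompleteSpace H]

variable {M N : VonNeumannAlgebra H} {ξ : H} {E : (H →L[ℂ] H) → (H →L[ℂ] H)}

section Density

variable {ι : Type*} [Fintype ι] [DecidableEq ι]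

/-- coordinate embedding -/
noncomputable def sing (ι : Type*) [Fintype ι] [DecidableEq ι] (j : ι) :
    H →L[ℂ] PiLp 2 (fun _ : ι => H) :=
  ((PiLp.continuousLinearEquiv 2 ℂ (fun _ : ι => H)).symm : _ →L[ℂ] _).comp
    (ContinuousLinearMap.single ℂ (fun _ : ι => H) j)

omit [CompleteSpace H] in
lemma sing_apply (j : ι) (h : H) (i : ι) :
    sing ι j h i = if i = j then h else 0 := by
  change (Pi.single j h : ι → H) i = _
  rw [Pi.single_apply]

omit [CompleteSpace H] in
lemma diag_sing (a : H →L[ℂ] H) (j : ι) (h : H) : diag ι a (sing ι j h) = sing ι j (a h) := by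
  ext i
  rw [diag_apply, sing_apply, sing_apply]
  split_ifs <;> simp

omit [CompleteSpace H] in
lemma sum_sing (x : PiLp 2 (fun _ : ι => H)) : x = ∑ j, sing ι j (x j) := by
  ext i
  have h1 : (∑ j, sing ι j (x j)) i = ∑ j, (sing ι j (x j)) i := by
    have := map_sum (PiLp.proj (𝕜 := ℂ) 2 (fun _ : ι => H) i) (fun j => sing ι j (x j)) Finset.univ
    exact this
  rw [h1]
  simp only [sing_apply]
  rw [Finset.sum_ite_eq]
  simp

end Density

end Pool.Agent.Helper23

end

end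

section

section

open scoped InnerProductSpace Topology ENNReal

open ContinuousLinearMap Filter MeasureTheory

set_option linter.unusedSectionVars false

set_option linter.unusedVariables false

namespace Pool.Agent.Helper23

section CSB

variable {H : Type*} [NormedAddCommGroup H] [InnerProductSpace ℂ H] [CompleteSpace H]

variable {K : Type*} [NormedAddCommGroup K] [InnerProductSpace ℂ K] [CompleteSpace K]

/-- Cantor-Bernstein for isometries intertwining families of operators. -/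
theorem csb (I : H →L[ℂ] K) (J : K →L[ℂ] H) (hI : ∀ x y, ⟪I x, I y⟫_ℂ = ⟪x, y⟫_ℂ)
    (hJ : ∀ x y, ⟪J x, J y⟫_ℂ = ⟪x, y⟫_ℂ) :
    ∃ W : H ≃ₗᵢ[ℂ] K, ∀ (a : H →L[ℂ] H) (b : K →L[ℂ] K),
      (∀ x, I (a x) = b (I x)) → (∀ x, J (b x) = a (J x)) →
      (∀ x, I (star a x) = star b (I x)) → (∀ x, J (star b x) = star a (J x)) →
      ∀ x, W (a x) = b (W x) := by
  have hII : ∀ x, (adjoint I) (I x) = x := fun x =>
    ext_inner_left ℂ fun y => by rw [adjoint_inner_right, hI]
  have hJJ : ∀ x, (adjoint J) (J x) = x := fun x =>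
    ext_inner_left ℂ fun y => by rw [adjoint_inner_right, hJ]
  set A : H →L[ℂ] H := J.comp I with hA
  have hAx : ∀ x, A x = J (I x) := fun _ => rfl
  set T : Set H := {x | ∃ (n : ℕ) (ζ : H), (∀ k, ⟪ζ, J k⟫_ℂ = 0) ∧ x = (A ^ n) ζ} with hT
  set V : Submodule ℂ H := (Submodule.span ℂ T).topologicalClosure with hV
  have hVc : IsClosed (V : Set H) := Submodule.isClosed_topologicalClosure _
  have : CompleteSpace V := hVc.completeSpace_coe
  have hTV : ∀ x ∈ T, x ∈ V := fun x hx =>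
    Submodule.le_topologicalClosure _ (Submodule.subset_span hx)
  -- induction principle
  have hind : ∀ (p : H → Prop), IsClosed {x | p x} → p 0 → (∀ x y, p x → p y → p (x + y)) →
      (∀ (c : ℂ) x, p x → p (c • x)) → (∀ x ∈ T, p x) → ∀ x ∈ V, p x := by
    intro p hcl h0 hadd hsmul hT x hx
    have hsub : (Submodule.span ℂ T : Set H) ⊆ {x | p x} := by
      intro x hx
      exact Submodule.span_induction (p := fun x _ => p x) hT h0
        (fun x y _ _ => hadd x y) (fun c x _ => hsmul c x) hx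
    exact closure_minimal hsub hcl hx
  set P : H →L[ℂ] H := V.starProjection with hP
  have hPmem : ∀ x, P x ∈ V := fun x => Submodule.starProjection_apply_mem _ x
  have hPfix : ∀ x ∈ V, P x = x := fun x hx => Submodule.starProjection_eq_self_iff.2 hx
  have hPsa : ∀ x y, ⟪P x, y⟫_ℂ = ⟪x, P y⟫_ℂ := fun x y =>
    Submodule.inner_starProjection_left_eq_right _ x y
  have hPo : ∀ v ∈ V, ∀ x, ⟪v, x - P x⟫_ℂ = 0 := by
    intro v hv x
    rw [inner_sub_right, ← hPsa, hPfix v hv, sub_self]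
  -- `A V ⊆ V`
  have hAV : ∀ x ∈ V, A x ∈ V := by
    refine hind (fun x => A x ∈ V) (hVc.preimage A.continuous) ?_ ?_ ?_ ?_
    · rw [map_zero]; exact V.zero_mem
    · intro x y hx hy; rw [map_add]; exact V.add_mem hx hy
    · intro c x hx; rw [map_smul]; exact V.smul_mem c hx
    · rintro _ ⟨n, ζ, hζ, rfl⟩
      refine hTV _ ⟨n + 1, ζ, hζ, ?_⟩
      rw [pow_succ']
      rfl
  -- complement
  have hcomp : ∀ x, (∀ v ∈ V, ⟪v, x⟫_ℂ = 0) → J ((adjoint J) x) = x := by
    intro x hx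
    have h1 : ∀ k, ⟪x - J ((adjoint J) x), J k⟫_ℂ = 0 := by
      intro k
      rw [inner_sub_left, hJ, adjoint_inner_left, sub_self]
    have h2 : x - J ((adjoint J) x) ∈ V := hTV _ ⟨0, _, h1, by simp⟩
    have h3 : ⟪x - J ((adjoint J) x), x - J ((adjoint J) x)⟫_ℂ = 0 := by
      rw [inner_sub_right, hx _ h2, h1, sub_zero]
    exact (sub_eq_zero.1 (inner_self_eq_zero.1 h3)).symm
  set W : H →L[ℂ] K := I.comp P + (adjoint J).comp (1 - P) with hW
  have hWx : ∀ x, W x = I (P x) + (adjoint J) (x - P x) := fun _ => rfl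
  have hcross : ∀ x y, ⟪I (P x), (adjoint J) (y - P y)⟫_ℂ = 0 := by
    intro x y
    rw [adjoint_inner_right, ← hAx, hPo _ (hAV _ (hPmem x))]
  have hWW : ∀ x y, ⟪W x, W y⟫_ℂ = ⟪x, y⟫_ℂ := by
    intro x y
    rw [hWx, hWx, inner_add_left, inner_add_right, inner_add_right, hI, hcross]
    have h1 : ⟪(adjoint J) (x - P x), I (P y)⟫_ℂ = 0 := by
      rw [← inner_conj_symm, hcross, map_zero]
    have h2 : ⟪(adjoint J) (x - P x), (adjoint J) (y - P y)⟫_ℂ = ⟪x - P x, y - P y⟫_ℂ := by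
      rw [adjoint_inner_left, hcomp (y - P y) (fun v hv => hPo v hv y)]
    have h3 : ⟪P x, y - P y⟫_ℂ = 0 := hPo _ (hPmem x) y
    have h4 : ⟪x - P x, P y⟫_ℂ = 0 := by
      rw [← inner_conj_symm, hPo _ (hPmem y) x, map_zero]
    rw [h1, h2]
    have h5 : ⟪x, y⟫_ℂ = ⟪P x + (x - P x), P y + (y - P y)⟫_ℂ := by
      rw [add_sub_cancel, add_sub_cancel]
    rw [h5, inner_add_left, inner_add_right, inner_add_right, h3, h4]
  have hsurj : ∀ k, W (P ((adjoint I) k) + (J k - P (J k))) = k := by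
    intro k
    have h1 : P (J k) = J (I (P ((adjoint I) k))) := by
      have hmem : J (I (P ((adjoint I) k))) ∈ V := hAV _ (hPmem _)
      have ho : ∀ v ∈ V, ⟪v, J k - J (I (P ((adjoint I) k)))⟫_ℂ = 0 := by
        refine hind _ (isClosed_eq (by fun_prop) (by fun_prop)) (inner_zero_left _) ?_ ?_ ?_
        · intro x y hx hy; rw [inner_add_left, hx, hy, add_zero]
        · intro c x hx; rw [inner_smul_left, hx, mul_zero]
        · rintro _ ⟨n, ζ, hζ, rfl⟩
          rw [← map_sub]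
          cases n with
          | zero => rw [pow_zero, one_apply_eq_self, hζ]
          | succ n =>
            have e1 : (A ^ (n + 1)) ζ = J (I ((A ^ n) ζ)) := by rw [pow_succ']; rfl
            rw [e1, hJ, inner_sub_right, hI, ← adjoint_inner_right, ← inner_sub_right]
            exact hPo _ (hTV _ ⟨n, ζ, hζ, rfl⟩) _
      have h2 : P (J k - J (I (P ((adjoint I) k)))) = 0 := by
        rw [← inner_self_eq_zero (𝕜 := ℂ), hPsa, hPfix _ (hPmem _), ← inner_conj_symm,
          ho _ (hPmem _), map_zero]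
      rw [map_sub, sub_eq_zero, hPfix _ hmem] at h2
      exact h2
    have hp1 : P (P ((adjoint I) k) + (J k - P (J k))) = P ((adjoint I) k) := by
      rw [map_add, map_sub, hPfix _ (hPmem _), hPfix _ (hPmem _), sub_self, add_zero]
    rw [hWx, hp1, add_sub_cancel_left, map_sub, hJJ, h1, hJJ, add_sub_cancel]
  let Wl : H →ₗᵢ[ℂ] K := ⟨W.toLinearMap, fun x => by
    have h1 := hWW x x
    rw [inner_self_eq_norm_sq_to_K, inner_self_eq_norm_sq_to_K] at h1
    have h2 : ‖W x‖ ^ 2 = ‖x‖ ^ 2 := by exact_mod_cast h1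
    exact (pow_left_inj₀ (norm_nonneg _) (norm_nonneg _) two_ne_zero).1 h2⟩
  refine ⟨LinearIsometryEquiv.ofSurjective Wl fun k => ⟨_, hsurj k⟩, ?_⟩
  intro a b h1 h2 h3 h4 x
  have hstab : ∀ (a : H →L[ℂ] H) (b : K →L[ℂ] K), (∀ x, I (a x) = b (I x)) →
      (∀ x, J (b x) = a (J x)) → (∀ x, J (star b x) = star a (J x)) → ∀ x ∈ V, a x ∈ V := by
    intro a b h1 h2 h4
    refine hind (fun x => a x ∈ V) (hVc.preimage a.continuous) ?_ ?_ ?_ ?_
    · rw [map_zero]; exact V.zero_mem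
    · intro x y hx hy; rw [map_add]; exact V.add_mem hx hy
    · intro c x hx; rw [map_smul]; exact V.smul_mem c hx
    · rintro _ ⟨n, ζ, hζ, rfl⟩
      refine hTV _ ⟨n, a ζ, fun k => ?_, ?_⟩
      · rw [← star_star a, ContinuousLinearMap.star_eq_adjoint (star a), adjoint_inner_left,
          ← h4, hζ]
      · induction n with
        | zero => rfl
        | succ n ih =>
          have e1 : ∀ z, (A ^ (n + 1)) z = J (I ((A ^ n) z)) := fun z => by
            rw [pow_succ']; rfl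
          rw [e1, e1, ← ih, h1, h2]
  have hPa : P (a x) = a (P x) := by
    have e1 : ∀ v ∈ V, ⟪v, a x - a (P x)⟫_ℂ = 0 := by
      intro v hv
      rw [← map_sub, ← adjoint_inner_left, ← ContinuousLinearMap.star_eq_adjoint]
      refine hPo _ (hstab (star a) (star b) h3 h4 ?_ v hv) x
      intro y
      rw [star_star, star_star]; exact h2 y
    have e2 : a (P x) ∈ V := hstab a b h1 h2 h4 _ (hPmem x)
    have h2 : P (a x - a (P x)) = 0 := by
      rw [← inner_self_eq_zero (𝕜 := ℂ), hPsa, hPfix _ (hPmem _), ← inner_conj_symm,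
        e1 _ (hPmem _), map_zero]
    rw [map_sub, sub_eq_zero, hPfix _ e2] at h2
    exact h2
  change W (a x) = b (W x)
  rw [hWx, hWx, hPa, h1, map_add]
  congr 1
  refine ext_inner_left ℂ fun k => ?_
  rw [adjoint_inner_right, ← map_sub]
  have e1 : ⟪k, b ((adjoint J) (x - P x))⟫_ℂ = ⟪J (star b k), x - P x⟫_ℂ := by
    rw [← adjoint_inner_right, ContinuousLinearMap.star_eq_adjoint b, adjoint_inner_left]
  rw [e1, h4, ContinuousLinearMap.star_eq_adjoint a, adjoint_inner_left]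

end CSB

end Pool.Agent.Helper23

end

end
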