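import Pool.Agent.Helper23.FB.Inst
import Pool.Agent.Helper23.RBFDefs

/-!
Parts of Helper23.FA.L00_16, Helper23.FA.L00_02, Helper23.FA.L00_05, Helper23.FA.L00_06, Helper23.FA.L00_13, Helper23.FA.L00_17, Helper23.FA.L00_18, Helper23.FA.L00_08, Helper23.FA.L00_11, Helper23.FA.L00_15, Helper23.FA.L00_19, Helper23.FA.L00_04, Helper23.FA.L00_10, Helper23.FA.L01_04, Helper23.FA.L01_19, Helper23.FA.L00_09
-/

attribute [local instance 5000]
  Pool.Agent.Helper23.FB.Inst.rCharZero Pool.Agent.Helper23.FB.Inst.rALM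
  Pool.Agent.Helper23.FB.Inst.rARM Pool.Agent.Helper23.FB.Inst.rALSM
  Pool.Agent.Helper23.FB.Inst.rARSM Pool.Agent.Helper23.FB.Inst.rARRLE
  Pool.Agent.Helper23.FB.Inst.rALRLE Pool.Agent.Helper23.FB.Inst.rARRLT
  Pool.Agent.Helper23.FB.Inst.rALRLT Pool.Agent.Helper23.FB.Inst.rPMRLT
  Pool.Agent.Helper23.FB.Inst.rMPRLT Pool.Agent.Helper23.FB.Inst.rPMM
  Pool.Agent.Helper23.FB.Inst.rMPM Pool.Agent.Helper23.FB.Inst.rPMSM
  Pool.Agent.Helper23.FB.Inst.rMPSM Pool.Agent.Helper23.FB.Inst.rEAOL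
  Pool.Agent.Helper23.FB.Inst.rIOR Pool.Agent.Helper23.FB.Inst.rISOR
  Pool.Agent.Helper23.FB.Inst.rFS Pool.Agent.Helper23.FB.Inst.rcCharZero
  Pool.Agent.Helper23.FB.Inst.rNZD Pool.Agent.Helper23.FB.Inst.rcNZD
  Pool.Agent.Helper23.FB.Inst.bSemiring Pool.Agent.Helper23.FB.Inst.bStar
  Pool.Agent.Helper23.FB.Inst.bAlg Pool.Agent.Helper23.FB.Inst.bSub
  Pool.Agent.Helper23.FB.Inst.bMul Pool.Agent.Helper23.FB.Inst.bAdd
  Pool.Agent.Helper23.FB.Inst.iRing Pool.Agent.Helper23.FB.Inst.iSemiring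
  Pool.Agent.Helper23.FB.Inst.iAlgC Pool.Agent.Helper23.FB.Inst.iSMulC
  Pool.Agent.Helper23.FB.Inst.iModC Pool.Agent.Helper23.FB.Inst.iAlgR
  Pool.Agent.Helper23.FB.Inst.iSMulR Pool.Agent.Helper23.FB.Inst.iModR
  Pool.Agent.Helper23.FB.Inst.iMonoid Pool.Agent.Helper23.FB.Inst.iSemigroup
  Pool.Agent.Helper23.FB.Inst.iMulOneClass Pool.Agent.Helper23.FB.Inst.iMul
  Pool.Agent.Helper23.FB.Inst.iAdd Pool.Agent.Helper23.FB.Inst.iSub
  Pool.Agent.Helper23.FB.Inst.iNeg Pool.Agent.Helper23.FB.Inst.iAddCommMonoid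
  Pool.Agent.Helper23.FB.Inst.iAddCommGroup Pool.Agent.Helper23.FB.Inst.iAddGroup
  Pool.Agent.Helper23.FB.Inst.iAddMonoid Pool.Agent.Helper23.FB.Inst.iSMulZeroC
  Pool.Agent.Helper23.FB.Inst.iMulActC Pool.Agent.Helper23.FB.Inst.iDSMulC
  Pool.Agent.Helper23.FB.Inst.iDSMulR Pool.Agent.Helper23.FB.Inst.iSNAG
  Pool.Agent.Helper23.FB.Inst.iSNACG Pool.Agent.Helper23.FB.Inst.iNorm
  Pool.Agent.Helper23.FB.Inst.iNSC' Pool.Agent.Helper23.FB.Inst.iNSR'
  Pool.Agent.Helper23.FB.Inst.iTop Pool.Agent.Helper23.FB.Inst.iT2 Pool.Agent.Helper23.FB.Inst.iTR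
  Pool.Agent.Helper23.FB.Inst.iSCC Pool.Agent.Helper23.FB.Inst.iIST
  Pool.Agent.Helper23.FB.Inst.iSCCR Pool.Agent.Helper23.FB.Inst.iISTR
  Pool.Agent.Helper23.FB.Inst.iZHC Pool.Agent.Helper23.FB.Inst.iAHC
  Pool.Agent.Helper23.FB.Inst.iAMHC Pool.Agent.Helper23.FB.Inst.iMAHC
  Pool.Agent.Helper23.FB.Inst.lTop Pool.Agent.Helper23.FB.Inst.lUnif
  Pool.Agent.Helper23.FB.Inst.lACM Pool.Agent.Helper23.FB.Inst.lACG
  Pool.Agent.Helper23.FB.Inst.lSNAG Pool.Agent.Helper23.FB.Inst.lSNACG
  Pool.Agent.Helper23.FB.Inst.lNACG Pool.Agent.Helper23.FB.Inst.lNorm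
  Pool.Agent.Helper23.FB.Inst.lIPS Pool.Agent.Helper23.FB.Inst.lMod
  Pool.Agent.Helper23.FB.Inst.lSMul Pool.Agent.Helper23.FB.Inst.lT2
  Pool.Agent.Helper23.FB.Inst.iStar Pool.Agent.Helper23.FB.Inst.iStarMul
  Pool.Agent.Helper23.FB.Inst.iStarAddMonoid Pool.Agent.Helper23.FB.Inst.iStarRing
  Pool.Agent.Helper23.FB.Inst.iNSC Pool.Agent.Helper23.FB.Inst.iSOR
  Pool.Agent.Helper23.FB.Inst.iALM Pool.Agent.Helper23.FB.Inst.iARM
  Pool.Agent.Helper23.FB.Inst.iCFC Pool.Agent.Helper23.FB.Inst.iNCFC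
  Pool.Agent.Helper23.FB.Inst.iStarModR Pool.Agent.Helper23.FB.Inst.iStarModC
  Pool.Agent.Helper23.FB.Inst.eStar Pool.Agent.Helper23.FB.Inst.eAdd
  Pool.Agent.Helper23.FB.Inst.eMul Pool.Agent.Helper23.FB.Inst.eOne
  Pool.Agent.Helper23.FB.Inst.eZero Pool.Agent.Helper23.FB.Inst.eMulAction
  Pool.Agent.Helper23.FB.Inst.eAMHC2 Pool.Agent.Helper23.FB.Inst.eZHC2
  Pool.Agent.Helper23.FB.Inst.lAMHC

namespace Pool.Agent.Helper23
end Pool.Agent.Helper23
namespace Pool.Agent.Helper23.RBF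
end Pool.Agent.Helper23.RBF
namespace Pool.Agent.Helper43.TTF
end Pool.Agent.Helper43.TTF
namespace Pool.Agent.Helper88.CS.ExhAux
end Pool.Agent.Helper88.CS.ExhAux
namespace Pool.Agent.Helper88.CS.InftyAux
end Pool.Agent.Helper88.CS.InftyAux

section

section

open scoped InnerProductSpace Topology BoundedContinuousFunction

open ContinuousLinearMap Filter MeasureTheory

namespace Pool.Agent.Helper88.CS

open Pool.Agent.Helper23

variable {H : Type*} [NormedAddCommGroup H] [InnerProductSpace ℂ H] [CompleteSpace H]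

theorem exists_max {α : Type*} [Preorder α] (m : α → ℝ) {C : ℝ} (hC : ∀ a, m a ≤ C)
    (hm : Monotone m) (hseq : ∀ s : ℕ → α, Monotone s → ∃ b, ∀ n, s n ≤ b) (a : α) :
    ∃ b, a ≤ b ∧ ∀ c, b ≤ c → m c = m b := by
  have key : ∀ x : α, ∃ y, x ≤ y ∧ ∀ c, x ≤ c → (m x + m c) / 2 ≤ m y := by
    intro x
    by_contra hcon
    push Not at hcon
    have hb : BddAbove (m '' Set.Ici x) := ⟨C, by rintro _ ⟨c, _, rfl⟩; exact hC c⟩
    have hne : (m '' Set.Ici x).Nonempty := ⟨m x, x, le_refl x, rfl⟩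
    obtain ⟨c₀, hc₀, h₀⟩ := hcon x (le_refl x)
    have h1 : m x < m c₀ := by linarith
    have h2 : m c₀ ≤ sSup (m '' Set.Ici x) := le_csSup hb ⟨c₀, hc₀, rfl⟩
    obtain ⟨_, ⟨y, hy, rfl⟩, h3⟩ := exists_lt_of_lt_csSup hne
      (show (m x + sSup (m '' Set.Ici x)) / 2 < sSup (m '' Set.Ici x) by (clear * - h₀ h2; linarith))
    obtain ⟨c, hc, h4⟩ := hcon y hy
    have h5 : m c ≤ sSup (m '' Set.Ici x) := le_csSup hb ⟨c, hc, rfl⟩
    (clear * - h3 h4 h5; linarith)
  choose f hf hf2 using key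
  let s : ℕ → α := fun n => f^[n] a
  have hs : ∀ n, s (n + 1) = f (s n) := fun n => Function.iterate_succ_apply' f n a
  have hmono : Monotone s := monotone_nat_of_le_succ fun n => by rw [hs]; exact hf _
  obtain ⟨b, hb⟩ := hseq s hmono
  refine ⟨b, hb 0, fun c hc => le_antisymm ?_ (hm hc)⟩
  have h1 : ∀ n, m c - m (s n) ≤ (m c - m a) * (1 / 2) ^ n := by
    intro n
    induction n with
    | zero => simp [s]
    | succ n ih =>
      have := hf2 (s n) c ((hb n).trans hc)
      rw [hs, pow_succ]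
      linarith
  have h2 : ∀ n, m c - m b ≤ (m c - m a) * (1 / 2) ^ n := fun n => by
    have := hm (hb n)
    linarith [h1 n]
  have h3 : Filter.Tendsto (fun n : ℕ => (m c - m a) * (1 / 2 : ℝ) ^ n) Filter.atTop (nhds 0) := by
    have := (tendsto_pow_atTop_nhds_zero_of_lt_one (r := (1 / 2 : ℝ)) (by norm_num)
      (by norm_num)).const_mul (m c - m a)
    simpa using this
  have := ge_of_tendsto' h3 h2
  linarith

end Pool.Agent.Helper88.CS

end

end

section

section

open scoped InnerProductSpace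

open ContinuousLinearMap

namespace Pool.Agent.Helper23

variable {H : Type*} [NormedAddCommGroup H] [InnerProductSpace ℂ H] [CompleteSpace H]

variable {M N : VonNeumannAlgebra H} {ξ : H} {E : (H →L[ℂ] H) → (H →L[ℂ] H)}

lemma norm_sq_of_inner {x : H} {r : ℝ} (h : ⟪x, x⟫_ℂ = (r : ℂ)) : ‖x‖ ^ 2 = r := by
  rw [inner_self_eq_norm_sq_to_K] at h
  have h2 : ((‖x‖ ^ 2 : ℝ) : ℂ) = (r : ℂ) := by
    push_cast
    exact h
  exact Complex.ofReal_injective h2

end Pool.Agent.Helper23

end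

end

section

section

open scoped InnerProductSpace Topology ENNReal BoundedContinuousFunction

open ContinuousLinearMap Filter MeasureTheory

namespace Pool.Agent.Helper23

variable {H : Type*} [NormedAddCommGroup H] [InnerProductSpace ℂ H] [CompleteSpace H]

variable {M N : VonNeumannAlgebra H} {ξ : H} {E : (H →L[ℂ] H) → (H →L[ℂ] H)}

open RBF

/-- two isometries with orthogonal ranges -/
def TwoIsom (N : VonNeumannAlgebra H) : Prop :=
  ∃ v ∈ N, ∃ w ∈ N, star v * v = 1 ∧ star w * w = 1 ∧ star v * w = 0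

end Pool.Agent.Helper23

end

end

section

section

open scoped InnerProductSpace Topology BoundedContinuousFunction

open ContinuousLinearMap Filter MeasureTheory

namespace Pool.Agent.Helper88.CS

open Pool.Agent.Helper23

variable {H : Type*} [NormedAddCommGroup H] [InnerProductSpace ℂ H] [CompleteSpace H]

variable {A : VonNeumannAlgebra H} {ξ : H} {J : H →L[ℝ] H}
  {Ψ : (ℝ →ᵇ ℂ) →⋆ₐ[ℂ] (H →L[ℂ] H)} {R : H →L[ℂ] H} {D : H →L[ℝ] H}

namespace CornerSpecAux

theorem psiv (Ψ : (ℝ →ᵇ ℂ) →⋆ₐ[ℂ] (H →L[ℂ] H)) (G : ℝ →ᵇ ℂ) (v : H) :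
    ‖Ψ G v‖ ≤ ‖G‖ * ‖v‖ :=
  ((Ψ G).le_opNorm v).trans (mul_le_mul_of_nonneg_right
    (NonUnitalStarAlgHom.norm_apply_le Ψ G) (norm_nonneg _))

end CornerSpecAux

end Pool.Agent.Helper88.CS

end

end

section

section

open scoped InnerProductSpace Topology BoundedContinuousFunction

open ContinuousLinearMap Filter MeasureTheory

namespace Pool.Agent.Helper88.CS

open Pool.Agent.Helper23

variable {H : Type*} [NormedAddCommGroup H] [InnerProductSpace ℂ H] [CompleteSpace H]

variable {A : VonNeumannAlgebra H} {ξ : H} {J : H →L[ℝ] H}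
  {Ψ : (ℝ →ᵇ ℂ) →⋆ₐ[ℂ] (H →L[ℂ] H)} {R : H →L[ℂ] H} {D : H →L[ℝ] H}

/-- the vector `u* ξ u` -/
noncomputable def kap (J : H →L[ℝ] H) (ξ : H) (u : H →L[ℂ] H) : H := (star u) (J ((star u) ξ))

end Pool.Agent.Helper88.CS

end

end

section

section

open scoped InnerProductSpace Topology ENNReal

open ContinuousLinearMap Filter MeasureTheory

set_option linter.unusedSectionVars false

set_option linter.unusedVariables false

namespace Pool.Agent.Helper23

/-- the function `(1 + s²)⁻¹` -/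
noncomputable def w0 (s : ℝ) : ℂ := (((1 + s ^ 2)⁻¹ : ℝ) : ℂ)

lemma w0_ne (s : ℝ) : w0 s ≠ 0 := by
  have : (0 : ℝ) < 1 + s ^ 2 := by (clear * -; positivity)
  exact Complex.ofReal_ne_zero.2 (inv_ne_zero this.ne')

lemma w0_cont : Continuous w0 := by
  refine Complex.continuous_ofReal.comp ?_
  exact (by fun_prop : Continuous fun s : ℝ => 1 + s ^ 2).inv₀ fun s => by positivity

lemma w0_norm (s : ℝ) : ‖w0 s‖ = (1 + s ^ 2)⁻¹ := by
  rw [w0, Complex.norm_real, Real.norm_of_nonneg (by (clear * -; positivity))]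

lemma w0_memLp : MemLp w0 2 volume := by
  rw [memLp_two_iff_integrable_sq_norm w0_cont.aestronglyMeasurable]
  refine Integrable.mono integrable_inv_one_add_sq ?_ (Eventually.of_forall fun s => ?_)
  · exact (w0_cont.norm.pow 2).aestronglyMeasurable
  · rw [w0_norm, Real.norm_of_nonneg (by (clear * -; positivity)), Real.norm_of_nonneg (by positivity)]
    have h1 : (1 + s ^ 2)⁻¹ ≤ 1 := inv_le_one_of_one_le₀ (by (clear * -; nlinarith [sq_nonneg s]))
    have h2 : (0 : ℝ) ≤ (1 + s ^ 2)⁻¹ := by positivity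
    nlinarith

end Pool.Agent.Helper23

end

section

open scoped InnerProductSpace Topology BoundedContinuousFunction

open ContinuousLinearMap Filter MeasureTheory

namespace Pool.Agent.Helper88.CS

open Pool.Agent.Helper23

variable {H : Type*} [NormedAddCommGroup H] [InnerProductSpace ℂ H] [CompleteSpace H]

variable {A : VonNeumannAlgebra H} {ξ : H} {J : H →L[ℝ] H}
  {Ψ : (ℝ →ᵇ ℂ) →⋆ₐ[ℂ] (H →L[ℂ] H)} {R : H →L[ℂ] H} {D : H →L[ℝ] H}

namespace CornerSpecAux

theorem norm_proj_le {q : H →L[ℂ] H} (h1 : star q = q) (h2 : q * q = q) (v : H) :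
    ‖q v‖ ≤ ‖v‖ := by
  have h3 : ⟪q v, q v⟫_ℂ = ⟪v, q v⟫_ℂ := by
    have h4 : ⟪q v, q v⟫_ℂ = ⟪v, (star q) (q v)⟫_ℂ := by
      rw [ContinuousLinearMap.star_eq_adjoint, ContinuousLinearMap.adjoint_inner_right]
    rw [h4, h1]
    have h5 : q (q v) = q v := congrArg (fun T : H →L[ℂ] H => T v) h2
    rw [h5]
  have h6 : ‖q v‖ * ‖q v‖ ≤ ‖v‖ * ‖q v‖ := by
    calc ‖q v‖ * ‖q v‖ = ‖⟪q v, q v⟫_ℂ‖ := by
          rw [inner_self_eq_norm_sq_to_K, norm_pow, RCLike.norm_ofReal, abs_norm, sq]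
      _ = ‖⟪v, q v⟫_ℂ‖ := by rw [h3]
      _ ≤ ‖v‖ * ‖q v‖ := norm_inner_le_norm _ _
  rcases (norm_nonneg (q v)).eq_or_lt with h0 | h0
  · rw [← h0]
    exact norm_nonneg _
  · exact le_of_mul_le_mul_right h6 h0

end CornerSpecAux

end Pool.Agent.Helper88.CS

end

end

section

section

open scoped InnerProductSpace Topology BoundedContinuousFunction

open ContinuousLinearMap Filter

namespace Pool.Agent.Helper78.BC

variable {H : Type*} [NormedAddCommGroup H] [InnerProductSpace ℂ H] [CompleteSpace H]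

variable {A : VonNeumannAlgebra H} {ξ : H} {J : H →L[ℝ] H}
  {Ψ : (ℝ →ᵇ ℂ) →⋆ₐ[ℂ] (H →L[ℂ] H)}

namespace Lip1

theorem inner_star (y : H →L[ℂ] H) (v w : H) : ⟪(star y) v, w⟫_ℂ = ⟪v, y w⟫_ℂ := by
  rw [ContinuousLinearMap.star_eq_adjoint, ContinuousLinearMap.adjoint_inner_left]

theorem norm_le_one {u : H →L[ℂ] H} (hu : star u * u = 1) : ‖u‖ ≤ 1 := by
  have h1 : ‖u‖ * ‖u‖ ≤ 1 := by
    rw [← CStarRing.norm_star_mul_self, hu]
    exact ContinuousLinearMap.norm_id_le
  (clear * - h1; nlinarith [norm_nonneg u])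

end Lip1

end Pool.Agent.Helper78.BC

end

section

open scoped InnerProductSpace Topology BoundedContinuousFunction

open ContinuousLinearMap Filter

namespace Pool.Agent.Helper78.BC

variable {H : Type*} [NormedAddCommGroup H] [InnerProductSpace ℂ H] [CompleteSpace H]

variable {A : VonNeumannAlgebra H} {ξ : H} {J : H →L[ℝ] H}
  {Ψ : (ℝ →ᵇ ℂ) →⋆ₐ[ℂ] (H →L[ℂ] H)}

namespace PS

omit [CompleteSpace H] in
/-- nearest point in a closed convex cone -/
lemma cone_proj (K : Set H) (hK : IsComplete K) (h0 : (0 : H) ∈ K)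
    (hadd : ∀ v ∈ K, ∀ w ∈ K, v + w ∈ K)
    (hsm : ∀ t : ℝ, 0 ≤ t → ∀ v ∈ K, (t : ℂ) • v ∈ K) (d : H) :
    ∃ p ∈ K, (∀ q ∈ K, 0 ≤ (⟪p - d, q⟫_ℂ).re) ∧ (⟪p - d, p⟫_ℂ).re = 0 := by
  let _ : InnerProductSpace ℝ H := InnerProductSpace.rclikeToReal ℂ H
  have hsm' : ∀ t : ℝ, 0 ≤ t → ∀ v ∈ K, t • v ∈ K := by
    intro t ht v hv
    have := hsm t ht v hv
    have h2 : (t : ℂ) • v = t • v := by
      exact (RCLike.real_smul_eq_coe_smul (K := ℂ) t v).symm
    rw [← h2]; exact this
  have hconv : Convex ℝ K := by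
    intro v hv w hw s t hs ht hst
    exact hadd _ (hsm' s hs v hv) _ (hsm' t ht w hw)
  obtain ⟨p, hp, hmin⟩ := exists_norm_eq_iInf_of_complete_convex ⟨0, h0⟩ hK hconv d
  have h1 := (norm_eq_iInf_iff_real_inner_le_zero hconv hp).1 hmin
  have h2 : ∀ q ∈ K, (⟪d - p, q - p⟫_ℂ).re ≤ 0 := by
    intro q hq
    have := h1 q hq
    exact this
  have h3 := h2 0 h0
  have h4 := h2 (p + p) (hadd p hp p hp)
  rw [zero_sub, inner_neg_right] at h3
  rw [add_sub_cancel_right] at h4
  rw [Complex.neg_re] at h3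
  have h5 : (⟪d - p, p⟫_ℂ).re = 0 := le_antisymm h4 (by linarith)
  have h6 : p - d = -(d - p) := by abel
  refine ⟨p, hp, ?_, ?_⟩
  · intro q hq
    have := h2 q hq
    rw [inner_sub_right, Complex.sub_re, h5] at this
    rw [h6, inner_neg_left, Complex.neg_re]
    (clear * - this; linarith)
  · rw [h6, inner_neg_left, Complex.neg_re, h5, neg_zero]

end PS

end Pool.Agent.Helper78.BC

end

section

open scoped InnerProductSpace Topology BoundedContinuousFunction

open ContinuousLinearMap Filter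

namespace Pool.Agent.Helper78.BC

variable {H : Type*} [NormedAddCommGroup H] [InnerProductSpace ℂ H] [CompleteSpace H]

variable {A : VonNeumannAlgebra H} {ξ : H} {J : H →L[ℝ] H}
  {Ψ : (ℝ →ᵇ ℂ) →⋆ₐ[ℂ] (H →L[ℂ] H)}

namespace LevAux

lemma inner_orth {S T : H →L[ℂ] H} (h : star S * T = 0) (v w : H) : ⟪S v, T w⟫_ℂ = 0 := by
  have h1 : (star S) (T w) = 0 := by
    have := congrArg (fun T : H →L[ℂ] H => T w) h
    simpa using this
  have h2 : ⟪v, (star S) (T w)⟫_ℂ = ⟪S v, T w⟫_ℂ := by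
    rw [star_eq_adjoint, adjoint_inner_right]
  rw [← h2, h1, inner_zero_right]

end LevAux

end Pool.Agent.Helper78.BC

end

section

open scoped InnerProductSpace Topology BoundedContinuousFunction

open ContinuousLinearMap Filter

namespace Pool.Agent.Helper78.BC

variable {H : Type*} [NormedAddCommGroup H] [InnerProductSpace ℂ H] [CompleteSpace H]

variable {A : VonNeumannAlgebra H} {ξ : H} {J : H →L[ℝ] H}
  {Ψ : (ℝ →ᵇ ℂ) →⋆ₐ[ℂ] (H →L[ℂ] H)}

namespace FamPsi

/-- `Ψ` is a contraction. -/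
lemma norm_psi_le (Ψ : (ℝ →ᵇ ℂ) →⋆ₐ[ℂ] (H →L[ℂ] H)) (F : ℝ →ᵇ ℂ) : ‖Ψ F‖ ≤ ‖F‖ := by
  exact NonUnitalStarAlgHom.norm_apply_le Ψ F

end FamPsi

end Pool.Agent.Helper78.BC

end

section

open scoped InnerProductSpace

open ContinuousLinearMap

namespace Pool.Agent.Helper72

open Pool.Agent.Helper23

variable {H : Type*} [NormedAddCommGroup H] [InnerProductSpace ℂ H] [CompleteSpace H]

lemma arith {p q m α β : ℝ} (hpq : m ^ 2 < 4 * p * q) (hq : 0 < q)
    (h : p * α ^ 2 + q * β ^ 2 ≤ m * (α * β)) : α = 0 := by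
  have h1 : (4 * p * q - m ^ 2) * α ^ 2 ≤ 0 := by
    nlinarith [sq_nonneg (2 * q * β - m * α), mul_le_mul_of_nonneg_left h (by (clear * - hq; positivity) :
      (0 : ℝ) ≤ 4 * q)]
  have h2 : α ^ 2 ≤ 0 := by
    by_contra h3
    push Not at h3
    have := mul_pos (sub_pos.2 hpq) h3
    linarith
  exact pow_eq_zero_iff (two_ne_zero) |>.1 (le_antisymm h2 (sq_nonneg _))

end Pool.Agent.Helper72

end

section

open scoped InnerProductSpace BoundedContinuousFunction

open ContinuousLinearMap Filter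

namespace Pool.Agent.Helper23

variable {H : Type*} [NormedAddCommGroup H] [InnerProductSpace ℂ H] [CompleteSpace H]

variable {N : VonNeumannAlgebra H} {ξ : H}

omit [CompleteSpace H] in
/-- passing from the four sequences to the combination -/
lemma tendsto_of_four {x : H →L[ℂ] H} {a : ℕ → H →L[ℂ] H} {k : Fin 4 → ℂ}
    {b : Fin 4 → ℕ → (H →L[ℂ] H)} (hsum : ∀ n, a n = ∑ i, k i • b i n)
    (hi : ∀ i, Tendsto (fun n => x (b i n ξ) - b i n (x ξ)) atTop (nhds 0)) :
    Tendsto (fun n => x (a n ξ) - a n (x ξ)) atTop (nhds 0) := by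
  have hfin : Tendsto (fun n => ∑ i, k i • (x (b i n ξ) - b i n (x ξ))) atTop
      (nhds (∑ i, k i • (0 : H))) :=
    tendsto_finsetSum _ fun i _ => (hi i).const_smul (k i)
  simp only [smul_zero, Finset.sum_const_zero] at hfin
  refine hfin.congr fun n => ?_
  rw [hsum n, sum_apply, sum_apply, map_sum, ← Finset.sum_sub_distrib]
  refine Finset.sum_congr rfl fun i _ => ?_
  rw [smul_apply, smul_apply, map_smul, smul_sub]

end Pool.Agent.Helper23

end

section

open scoped InnerProductSpace Topology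

open ContinuousLinearMap Filter

namespace Pool.Agent.Helper23

universe u

variable {H : Type u} [NormedAddCommGroup H] [InnerProductSpace ℂ H] [CompleteSpace H]
  {N : VonNeumannAlgebra H} {ξ : H}

theorem inner_star_mul_self (p : H →L[ℂ] H) (ξ : H) :
    ⟪ξ, (star p * p) ξ⟫_ℂ = ((‖p ξ‖ ^ 2 : ℝ) : ℂ) := by
  have a1 : ⟪ξ, (star p * p) ξ⟫_ℂ = ⟪p ξ, p ξ⟫_ℂ := by
    rw [ContinuousLinearMap.star_eq_adjoint]
    exact ContinuousLinearMap.adjoint_inner_right p ξ (p ξ)
  rw [a1, inner_self_eq_norm_sq_to_K]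
  norm_cast

theorem norm_isom_apply {p : H →L[ℂ] H} (hp : star p * p = 1) (x : H) : ‖p x‖ = ‖x‖ := by
  have h := inner_star_mul_self p x
  rw [hp] at h
  have h1 : ⟪x, (1 : H →L[ℂ] H) x⟫_ℂ = ((‖x‖ ^ 2 : ℝ) : ℂ) := by
    have : (1 : H →L[ℂ] H) x = x := rfl
    rw [this, inner_self_eq_norm_sq_to_K]
    norm_cast
  rw [h1] at h
  have h2 : ‖p x‖ ^ 2 = ‖x‖ ^ 2 := by exact_mod_cast h.symm
  exact (pow_left_inj₀ (norm_nonneg _) (norm_nonneg _) two_ne_zero).1 h2

end Pool.Agent.Helper23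

end

section

open scoped InnerProductSpace Topology ENNReal

open ContinuousLinearMap Filter MeasureTheory

set_option linter.unusedSectionVars false

set_option linter.unusedVariables false

namespace Pool.Agent.Helper23

variable {H : Type*} [NormedAddCommGroup H] [InnerProductSpace ℂ H] [CompleteSpace H]

variable {M N : VonNeumannAlgebra H} {ξ : H} {E : (H →L[ℂ] H) → (H →L[ℂ] H)}

/-- the isometries `v ^ n w` -/
lemma pow_isom {v w : H →L[ℂ] H} (hv : star v * v = 1) (hw : star w * w = 1)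
    (hvw : star v * w = 0) :
    (∀ n : ℕ, star (v ^ n * w) * (v ^ n * w) = 1) ∧
      ∀ m n : ℕ, m ≠ n → star (v ^ m * w) * (v ^ n * w) = 0 := by
  have hwv : star w * v = 0 := by
    have := congrArg star hvw
    rwa [star_mul, star_star, star_zero] at this
  have hpow : ∀ n : ℕ, star (v ^ n) * v ^ n = 1 := by
    intro n
    induction n with
    | zero => simp
    | succ n ih =>
      rw [pow_succ', star_mul, mul_assoc, ← mul_assoc (star v), hv, one_mul, ih]
  have hlt : ∀ m n : ℕ, m < n → star (v ^ m * w) * (v ^ n * w) = 0 := by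
    intro m n hmn
    obtain ⟨k, rfl⟩ := Nat.exists_eq_add_of_lt hmn
    have e1 : v ^ (m + k + 1) = v ^ m * (v * v ^ k) := by
      rw [← pow_succ', ← pow_add, add_assoc]
    rw [e1, star_mul, mul_assoc (star w), mul_assoc (v ^ m), ← mul_assoc (star (v ^ m)), hpow,
      one_mul, mul_assoc v, ← mul_assoc (star w), hwv, zero_mul]
  refine ⟨fun n => ?_, fun m n hmn => ?_⟩
  · rw [star_mul, mul_assoc, ← mul_assoc (star (v ^ n)), hpow, one_mul, hw]
  · rcases lt_or_gt_of_ne hmn with h | h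
    · exact hlt m n h
    · have := congrArg star (hlt n m h)
      rwa [star_mul, star_star, star_zero] at this

end Pool.Agent.Helper23

end

section

open scoped InnerProductSpace Topology ENNReal

open ContinuousLinearMap Filter MeasureTheory

set_option linter.unusedSectionVars false

set_option linter.unusedVariables false

namespace Pool.Agent.Helper23

variable {H : Type*} [NormedAddCommGroup H] [InnerProductSpace ℂ H] [CompleteSpace H]

variable {M N : VonNeumannAlgebra H} {ξ : H} {E : (H →L[ℂ] H) → (H →L[ℂ] H)}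

open RBF

lemma scaling_star {A : VonNeumannAlgebra H} {ψ : (H →L[ℂ] H) → ℝ≥0∞} {u : H →L[ℂ] H}
    (h : ScalingUnitary A ψ 1 u) : ScalingUnitary A ψ 1 (star u) := by
  refine ⟨star_mem h.1, by rw [star_star]; exact h.2.2.1, by rw [star_star]; exact h.2.1,
    fun x hx hx0 => ?_⟩
  have hpos : 0 ≤ u * x * star u := by
    have := star_left_conjugate_nonneg hx0 (star u)
    rwa [star_star] at this
  have h1 := h.2.2.2 (u * x * star u) (mul_mem (mul_mem h.1 hx) (star_mem h.1)) hpos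
  have h2 : star u * (u * x * star u) * u = x := by
    rw [← mul_assoc, ← mul_assoc, h.2.1, one_mul, mul_assoc, h.2.1, mul_one]
  rw [h2, ENNReal.ofReal_one, one_mul] at h1
  rw [star_star, ENNReal.ofReal_one, one_mul, h1]

end Pool.Agent.Helper23

end

section

open scoped InnerProductSpace Topology BoundedContinuousFunction

open ContinuousLinearMap Filter

namespace Pool.Agent.Helper23

universe u

variable {K : Type u} [NormedAddCommGroup K] [InnerProductSpace ℂ K] [CompleteSpace K]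

/-- the inverse of `2 t / (1 + t ^ 2)` on `[-1, 1]` -/
noncomputable def kapg (s : ℝ) : ℝ := s / (1 + Real.sqrt (1 - s ^ 2))

lemma kapg_pos (s : ℝ) : 0 < 1 + Real.sqrt (1 - s ^ 2) := by (clear * -; positivity)

lemma kapg_cont : Continuous kapg := by
  unfold kapg
  exact continuous_id.div (by fun_prop) fun s => (kapg_pos s).ne'

lemma kapg_spec {s : ℝ} (hs : |s| ≤ 1) : 2 * kapg s = s * (1 + kapg s ^ 2) := by
  have h1 : Real.sqrt (1 - s ^ 2) ^ 2 = 1 - s ^ 2 :=
    Real.sq_sqrt (by have := (sq_le_one_iff_abs_le_one s).2 hs; linarith)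
  have h2 := (kapg_pos s).ne'
  unfold kapg
  set c := Real.sqrt (1 - s ^ 2)
  have h3 : s ^ 2 = 1 - c ^ 2 := by rw [h1]; ring
  field_simp
  linear_combination (-s) * h3

end Pool.Agent.Helper23

end

section

open scoped InnerProductSpace Topology BoundedContinuousFunction

open ContinuousLinearMap Filter MeasureTheory

namespace Pool.Agent.Helper88.CS

open Pool.Agent.Helper23

variable {H : Type*} [NormedAddCommGroup H] [InnerProductSpace ℂ H] [CompleteSpace H]

variable {A : VonNeumannAlgebra H} {ξ : H}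

namespace EquivAux

/-- the shifted projections are projections -/
theorem shift_proj {q w : H →L[ℂ] H} (hq : star q = q) (hq2 : q * q = q) (h1 : star w * w = 1)
    (n : ℕ) : star (w ^ n * q * star w ^ n) = w ^ n * q * star w ^ n ∧
      (w ^ n * q * star w ^ n) * (w ^ n * q * star w ^ n) = w ^ n * q * star w ^ n := by
  have hws : ∀ k : ℕ, star w ^ k * w ^ k = 1 := by
    intro k
    induction k with
    | zero => simp
    | succ k ih =>
      rw [pow_succ (star w) k, pow_succ' w k]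
      calc star w ^ k * star w * (w * w ^ k) = star w ^ k * (star w * w) * w ^ k := by
            simp only [mul_assoc]
        _ = 1 := by rw [h1, mul_one, ih]
  constructor
  · rw [star_mul, star_mul, star_pow, star_pow, star_star, hq, mul_assoc]
  · calc (w ^ n * q * star w ^ n) * (w ^ n * q * star w ^ n)
        = w ^ n * q * (star w ^ n * w ^ n) * q * star w ^ n := by simp only [mul_assoc]
      _ = w ^ n * (q * q) * star w ^ n := by rw [hws]; simp only [mul_assoc, mul_one, one_mul]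
      _ = _ := by rw [hq2]

end EquivAux

end Pool.Agent.Helper88.CS

end

section

open scoped InnerProductSpace Topology BoundedContinuousFunction

open ContinuousLinearMap Filter MeasureTheory

namespace Pool.Agent.Helper88.CS

open Pool.Agent.Helper23

variable {H : Type*} [NormedAddCommGroup H] [InnerProductSpace ℂ H] [CompleteSpace H]

variable {A : VonNeumannAlgebra H} {ξ : H} {J : H →L[ℝ] H}
  {Ψ : (ℝ →ᵇ ℂ) →⋆ₐ[ℂ] (H →L[ℂ] H)} {R : H →L[ℂ] H} {D : H →L[ℝ] H}

namespace CornerSpecAux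

/-- multiplication of a compactly supported function by a continuous function -/
theorem exists_mul (f : ℝ → ℂ) (hf : Continuous f) (G : ℝ →ᵇ ℂ) (hG : HasCompactSupport G) :
    ∃ F : ℝ →ᵇ ℂ, (∀ ρ, F ρ = f ρ * G ρ) ∧ HasCompactSupport F := by
  have hc : Continuous fun ρ : ℝ => f ρ * G ρ := by fun_prop
  have hs : HasCompactSupport fun ρ : ℝ => f ρ * G ρ := hG.mul_left
  obtain ⟨C, hC⟩ := hs.exists_bound_of_continuous hc
  exact ⟨BoundedContinuousFunction.ofNormedAddCommGroup _ hc C hC, fun ρ => rfl, hs⟩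

theorem norm_iso {u : H →L[ℂ] H} (h1 : star u * u = 1) (v : H) : ‖u v‖ = ‖v‖ := by
  have h3 : ⟪u v, u v⟫_ℂ = ⟪v, v⟫_ℂ := by
    have h4 : ⟪u v, u v⟫_ℂ = ⟪v, (star u) (u v)⟫_ℂ := by
      rw [ContinuousLinearMap.star_eq_adjoint, ContinuousLinearMap.adjoint_inner_right]
    rw [h4]
    have h5 : (star u) (u v) = v := congrArg (fun T : H →L[ℂ] H => T v) h1
    rw [h5]
  rw [inner_self_eq_norm_sq_to_K, inner_self_eq_norm_sq_to_K] at h3
  have h6 : ‖u v‖ ^ 2 = ‖v‖ ^ 2 := by exact_mod_cast h3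
  exact (sq_eq_sq₀ (norm_nonneg _) (norm_nonneg _)).1 h6

end CornerSpecAux

end Pool.Agent.Helper88.CS

end

section

open scoped InnerProductSpace Topology BoundedContinuousFunction

open ContinuousLinearMap Filter MeasureTheory

namespace Pool.Agent.Helper88.CS

open Pool.Agent.Helper23

variable {H : Type*} [NormedAddCommGroup H] [InnerProductSpace ℂ H] [CompleteSpace H]

variable {A : VonNeumannAlgebra H} {ξ : H} {J : H →L[ℝ] H}
  {Ψ : (ℝ →ᵇ ℂ) →⋆ₐ[ℂ] (H →L[ℂ] H)} {R : H →L[ℂ] H} {D : H →L[ℝ] H}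

namespace CornerAux

lemma norm_isom {u : H →L[ℂ] H} (h1 : star u * u = 1) (v : H) : ‖u v‖ = ‖v‖ := by
  have h4 : (⟪u v, u v⟫_ℂ) = ⟪v, v⟫_ℂ := by
    have h5 : ⟪u v, u v⟫_ℂ = ⟪(star u) (u v), v⟫_ℂ := by
      rw [star_eq_adjoint, adjoint_inner_left]
    rw [h5]
    show ⟪(star u * u) v, v⟫_ℂ = _
    rw [h1]; rfl
  rw [inner_self_eq_norm_sq_to_K, inner_self_eq_norm_sq_to_K] at h4
  have h6 : ‖u v‖ ^ 2 = ‖v‖ ^ 2 := by exact_mod_cast h4
  exact (sq_eq_sq₀ (norm_nonneg _) (norm_nonneg _)).1 h6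

end CornerAux

end Pool.Agent.Helper88.CS

end

section

open scoped InnerProductSpace Topology

open ContinuousLinearMap Filter

namespace Pool.Agent.Helper88.CS

open Pool.Agent.Helper23

universe u

variable {H : Type u} [NormedAddCommGroup H] [InnerProductSpace ℂ H] [CompleteSpace H]

namespace FinalAux

theorem norm_iso {a : H →L[ℂ] H} (h : star a * a = 1) (v : H) : ‖a v‖ = ‖v‖ := by
  have h1 : ⟪a v, a v⟫_ℂ = ⟪v, v⟫_ℂ := by
    have h2 : ⟪v, (star a) (a v)⟫_ℂ = ⟪a v, a v⟫_ℂ := by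
      rw [star_eq_adjoint, adjoint_inner_right]
    rw [← h2]
    have h3 : (star a) (a v) = v := congrArg (fun T : H →L[ℂ] H => T v) h
    rw [h3]
  rw [inner_self_eq_norm_sq_to_K, inner_self_eq_norm_sq_to_K] at h1
  have h4 : ‖a v‖ ^ 2 = ‖v‖ ^ 2 := by exact_mod_cast h1
  exact (sq_eq_sq₀ (norm_nonneg _) (norm_nonneg _)).1 h4

theorem op_le_one {a : H →L[ℂ] H} (h : star a * a = 1) : ‖a‖ ≤ 1 :=
  ContinuousLinearMap.opNorm_le_bound _ zero_le_one fun v => by rw [norm_iso h, one_mul]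

theorem st_le {η η' : H} (h1 : ‖η‖ ^ 2 + ‖η'‖ ^ 2 = 1) (z : H →L[ℂ] H) :
    ‖⟪η, z η⟫_ℂ + ⟪η', z η'⟫_ℂ‖ ≤ ‖z‖ := by
  have h : ∀ v : H, ‖⟪v, z v⟫_ℂ‖ ≤ ‖z‖ * ‖v‖ ^ 2 := by
    intro v
    refine (norm_inner_le_norm _ _).trans ?_
    have := mul_le_mul_of_nonneg_left (z.le_opNorm v) (norm_nonneg v)
    (clear * - this; nlinarith)
  refine (norm_add_le _ _).trans ((add_le_add (h η) (h η')).trans ?_)
  rw [← mul_add, h1, mul_one]

end FinalAux

end Pool.Agent.Helper88.CS

end

section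

open scoped InnerProductSpace Topology ENNReal BoundedContinuousFunction

open ContinuousLinearMap Filter MeasureTheory

namespace Pool.Agent.Helper23.ED

open Pool.Agent.Helper23 Pool.Agent.Helper23.RBF

universe u

section fc

variable {H : Type*} [NormedAddCommGroup H] [InnerProductSpace ℂ H] [CompleteSpace H]

/-- the translate `ρ ↦ G (ρ + c)` -/
noncomputable def shiftB (c : ℝ) (G : ℝ →ᵇ ℂ) : ℝ →ᵇ ℂ :=
  G.compContinuous ⟨fun ρ : ℝ => ρ + c, by fun_prop⟩

@[simp] lemma shiftB_apply (c : ℝ) (G : ℝ →ᵇ ℂ) (ρ : ℝ) : shiftB c G ρ = G (ρ + c) := rfl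

end fc

end Pool.Agent.Helper23.ED

end

section

open scoped InnerProductSpace Topology ENNReal BoundedContinuousFunction

open ContinuousLinearMap Filter MeasureTheory

namespace Pool.Agent.Helper23.ED

open Pool.Agent.Helper23 Pool.Agent.Helper23.RBF

universe u

variable {H : Type u} [NormedAddCommGroup H] [InnerProductSpace ℂ H] [CompleteSpace H]

variable {K : Type u} [NormedAddCommGroup K] [InnerProductSpace ℂ K] [CompleteSpace K]

variable {M N : VonNeumannAlgebra H} {E : (H →L[ℂ] H) → (H →L[ℂ] H)} {ξ : H}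
  {i : K →L[ℂ] H} {κ : K}

namespace CoC

lemma norm_le_one {T : H →L[ℂ] H} (h : star T * T = 1) (v : H) : ‖T v‖ ≤ ‖v‖ := by
  have h1 : ⟪T v, T v⟫_ℂ = ⟪v, v⟫_ℂ := by
    have h2 : (star T) (T v) = v := congrArg (fun U : H →L[ℂ] H => U v) h
    rw [← adjoint_inner_right, ← ContinuousLinearMap.star_eq_adjoint, h2]
  rw [inner_self_eq_norm_sq_to_K, inner_self_eq_norm_sq_to_K] at h1
  have h2 : ‖T v‖ ^ 2 = ‖v‖ ^ 2 := by exact_mod_cast h1
  exact ((sq_eq_sq₀ (norm_nonneg _) (norm_nonneg _)).1 h2).le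

end CoC

end Pool.Agent.Helper23.ED

end

section

open scoped InnerProductSpace Topology ENNReal BoundedContinuousFunction

open ContinuousLinearMap Filter MeasureTheory

namespace Pool.Agent.Helper23.ED

open Pool.Agent.Helper23 Pool.Agent.Helper23.RBF

universe u

variable {H : Type u} [NormedAddCommGroup H] [InnerProductSpace ℂ H] [CompleteSpace H]

variable {N : VonNeumannAlgebra H} {ψ : (H →L[ℂ] H) → ℝ≥0∞}

namespace WtC

lemma selfAdj {x : H →L[ℂ] H} (hx : 0 ≤ x) : IsSelfAdjoint x :=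
  ((nonneg_iff_isPositive x).1 hx).isSelfAdjoint

lemma le_of_re {x y : H →L[ℂ] H} (hx : 0 ≤ x) (hy : 0 ≤ y)
    (h : ∀ v, (⟪v, x v⟫_ℂ).re ≤ (⟪v, y v⟫_ℂ).re) : x ≤ y := by
  rw [ContinuousLinearMap.le_def, isPositive_def']
  refine ⟨(selfAdj hy).sub (selfAdj hx), fun v => ?_⟩
  have h1 : ((y - x).reApplyInnerSelf v) = (⟪v, (y - x) v⟫_ℂ).re := by
    rw [reApplyInnerSelf_apply]
    exact inner_re_symm (𝕜 := ℂ) _ _
  rw [h1, sub_apply, inner_sub_right, Complex.sub_re]
  (clear * - h; linarith [h v])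

end WtC

end Pool.Agent.Helper23.ED

end

section

open scoped InnerProductSpace Topology ENNReal BoundedContinuousFunction

open ContinuousLinearMap Filter MeasureTheory

namespace Pool.Agent.Helper23.ED

open Pool.Agent.Helper23 Pool.Agent.Helper23.RBF

universe u

variable {H : Type u} [NormedAddCommGroup H] [InnerProductSpace ℂ H] [CompleteSpace H]

variable {K : Type u} [NormedAddCommGroup K] [InnerProductSpace ℂ K] [CompleteSpace K]

variable {L : Type u} [NormedAddCommGroup L] [InnerProductSpace ℂ L] [CompleteSpace L]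

variable {N : VonNeumannAlgebra H} {ψ : (H →L[ℂ] H) → ℝ≥0∞} {ξ : H} {i : K →L[ℂ] H} {κ : K}
  {Λ : (H →L[ℂ] H) → L} {ρ : (H →L[ℂ] H) → (L →L[ℂ] L)}

namespace WtD

lemma tele (b : ℕ → H →L[ℂ] H) (k n : ℕ) (v : H) :
    ‖star (b (k + n) - b k) v‖ ≤
      ∑ j ∈ Finset.range n, ‖star (b (k + j + 1) - b (k + j)) v‖ := by
  induction n with
  | zero => simp
  | succ n ih =>
    rw [Finset.sum_range_succ]
    have h1 : star (b (k + (n + 1)) - b k) v =
        star (b (k + n) - b k) v + star (b (k + n + 1) - b (k + n)) v := by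
      rw [← add_apply, ← star_add]
      congr 2
      rw [← add_assoc]
      abel
    rw [h1]
    exact (norm_add_le _ _).trans (add_le_add ih le_rfl)

end WtD

end Pool.Agent.Helper23.ED

end

section

open scoped InnerProductSpace Topology ENNReal BoundedContinuousFunction

open ContinuousLinearMap Filter MeasureTheory

namespace Pool.Agent.Helper23.ED

open Pool.Agent.Helper23 Pool.Agent.Helper23.RBF

universe u

variable {H : Type u} [NormedAddCommGroup H] [InnerProductSpace ℂ H] [CompleteSpace H]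

variable {K : Type u} [NormedAddCommGroup K] [InnerProductSpace ℂ K] [CompleteSpace K]

variable {L : Type u} [NormedAddCommGroup L] [InnerProductSpace ℂ L] [CompleteSpace L]

variable {N : VonNeumannAlgebra H} {ψ : (H →L[ℂ] H) → ℝ≥0∞} {ξ : H} {i : K →L[ℂ] H} {κ : K}
  {Λ : (H →L[ℂ] H) → L} {ρ : (H →L[ℂ] H) → (L →L[ℂ] L)}

namespace WtE

lemma geo (k n : ℕ) : ∑ j ∈ Finset.Ico k n, 2 * (1 / 4 : ℝ) ^ j ≤ 3 * (1 / 4 : ℝ) ^ k := by
  by_cases hk : k ≤ n
  · have h : ∑ j ∈ Finset.Ico k n, 2 * (1 / 4 : ℝ) ^ j =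
        8 / 3 * ((1 / 4 : ℝ) ^ k - (1 / 4) ^ n) := by
      induction n, hk using Nat.le_induction with
      | base => simp
      | succ m hm ih =>
        rw [Finset.sum_Ico_succ_top hm, ih, pow_succ]
        ring
    rw [h]
    have h1 : (0 : ℝ) ≤ (1 / 4) ^ n := by positivity
    have h2 : (0 : ℝ) ≤ (1 / 4) ^ k := by positivity
    (clear * - h1 h2; linarith)
  · rw [Finset.Ico_eq_empty (by omega)]
    simp

end WtE

end Pool.Agent.Helper23.ED

end

section

open scoped InnerProductSpace Topology ENNReal BoundedContinuousFunction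

open ContinuousLinearMap Filter MeasureTheory

namespace Pool.Agent.Helper23.ED

open Pool.Agent.Helper23 Pool.Agent.Helper23.RBF

universe u

variable {H : Type*} [NormedAddCommGroup H] [InnerProductSpace ℂ H] [CompleteSpace H]

namespace FcD

/-- translation as a star homomorphism -/
noncomputable def shiftHom (c : ℝ) : (ℝ →ᵇ ℂ) →⋆ₐ[ℂ] (ℝ →ᵇ ℂ) where
  toFun := shiftB c
  map_one' := by
    ext ρ
    rfl
  map_mul' G G' := by
    ext ρ
    rfl
  map_zero' := by
    ext ρ
    rfl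
  map_add' G G' := by
    ext ρ
    rfl
  commutes' z := by
    ext ρ
    rfl
  map_star' G := by
    ext ρ
    rfl

theorem norm_shiftB_le (c : ℝ) (G : ℝ →ᵇ ℂ) : ‖shiftB c G‖ ≤ ‖G‖ := by
  refine (BoundedContinuousFunction.norm_le (norm_nonneg G)).2 fun ρ => ?_
  rw [shiftB_apply]
  exact G.norm_coe_le_norm _

end FcD

end Pool.Agent.Helper23.ED

end

section

open scoped InnerProductSpace Topology ENNReal BoundedContinuousFunction

open ContinuousLinearMap Filter MeasureTheory

namespace Pool.Agent.Helper23.ED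

open Pool.Agent.Helper23 Pool.Agent.Helper23.RBF

universe u

open TopologicalSpace

variable {H : Type*} [NormedAddCommGroup H] [InnerProductSpace ℂ H] [CompleteSpace H]

variable {N : VonNeumannAlgebra H} {ξ : H} {W : ℝ → H →L[ℂ] H}

omit [CompleteSpace H] in
/-- countability of a Hilbert basis -/
lemma slB_countable [SeparableSpace H] {ι : Type*} (b : HilbertBasis ι ℂ H) :
    Countable ι := by
  refine Pairwise.countable_of_isOpen_disjoint
    (s := fun i : ι => Metric.ball (b i : H) (1 / 2)) ?_ (fun i => Metric.isOpen_ball)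
    (fun i => ⟨b i, Metric.mem_ball_self (by norm_num)⟩)
  intro i j hij
  refine Set.disjoint_left.2 fun x hx hy => ?_
  rw [Metric.mem_ball] at hx hy
  have h1 : dist (b i : H) (b j) < 1 := by
    calc dist (b i : H) (b j) ≤ dist (b i : H) x + dist x (b j) := dist_triangle _ _ _
      _ = dist x (b i : H) + dist x (b j) := by rw [dist_comm]
      _ < 1 := by linarith
  have h2 : ‖(b i : H) - b j‖ ^ 2 = 2 := by
    have h4 := @norm_sub_sq ℂ H _ _ _ (b i) (b j)
    rw [b.orthonormal.2 hij, b.orthonormal.1 i, b.orthonormal.1 j] at h4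
    rw [h4]
    simp
    norm_num
  rw [dist_eq_norm] at h1
  (clear * - h1 h2; nlinarith [norm_nonneg ((b i : H) - b j)])

end Pool.Agent.Helper23.ED

end

end

section

section

open scoped InnerProductSpace Topology BoundedContinuousFunction

open ContinuousLinearMap Filter

namespace Pool.Agent.Helper78.BC

variable {H : Type*} [NormedAddCommGroup H] [InnerProductSpace ℂ H] [CompleteSpace H]

/-- `x` asymptotically commutes with all asymptotically centralizing sequences -/
def Bic (A : VonNeumannAlgebra H) (ξ : H) (x : H →L[ℂ] H) : Prop :=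
  x ∈ A ∧ ∀ a, Pool.Agent.Helper23.RBF.AsympEigen A ξ 1 a → ∀ η : H,
    Tendsto (fun n => (x * a n - a n * x) η) atTop (𝓝 0)

end Pool.Agent.Helper78.BC

end

section

open scoped InnerProductSpace Topology ENNReal BoundedContinuousFunction

open ContinuousLinearMap Filter MeasureTheory

namespace Pool.Agent.Helper23.ED

open Pool.Agent.Helper23 Pool.Agent.Helper23.RBF

universe u

variable {K : Type*} [NormedAddCommGroup K] [InnerProductSpace ℂ K] [CompleteSpace K]

variable {U : ℝ → K →L[ℂ] K}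

namespace SmD

open Pool.Agent.Helper43.TTF

lemma one_bcf' (ρ : ℝ) : (1 : ℝ →ᵇ ℂ) ρ = 1 := rfl

end SmD

end Pool.Agent.Helper23.ED

end

end

section

section

open scoped InnerProductSpace Topology BoundedContinuousFunction

open ContinuousLinearMap Filter MeasureTheory

namespace Pool.Agent.Helper88.CS

open Pool.Agent.Helper23

variable {H : Type*} [NormedAddCommGroup H] [InnerProductSpace ℂ H] [CompleteSpace H]

/-- the spectral measure of `v` is supported in `[a, b]` -/
def Supp (Ψ : (ℝ →ᵇ ℂ) →⋆ₐ[ℂ] (H →L[ℂ] H)) (v : H) (a b : ℝ) : Prop :=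
  ∀ G : ℝ →ᵇ ℂ, (∀ ρ ∈ Set.Icc a b, G ρ = 0) → Ψ G v = 0

end Pool.Agent.Helper88.CS

end

section

open scoped InnerProductSpace Topology BoundedContinuousFunction

open ContinuousLinearMap Filter MeasureTheory

namespace Pool.Agent.Helper88.CS

open Pool.Agent.Helper23

variable {H : Type*} [NormedAddCommGroup H] [InnerProductSpace ℂ H] [CompleteSpace H]

variable {A : VonNeumannAlgebra H} {ξ : H} {J : H →L[ℝ] H}
  {Ψ : (ℝ →ᵇ ℂ) →⋆ₐ[ℂ] (H →L[ℂ] H)} {R : H →L[ℂ] H} {D : H →L[ℝ] H}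

theorem Supp.mono {v : H} {a b a' b' : ℝ} (h : Supp Ψ v a b) (ha : a' ≤ a) (hb : b ≤ b') :
    Supp Ψ v a' b' :=
  fun G hG => h G fun ρ hρ => hG ρ ⟨ha.trans hρ.1, hρ.2.trans hb⟩

end Pool.Agent.Helper88.CS

end

section

open scoped InnerProductSpace Topology ENNReal BoundedContinuousFunction

open ContinuousLinearMap Filter MeasureTheory

namespace Pool.Agent.Helper23.ED

open Pool.Agent.Helper23 Pool.Agent.Helper23.RBF

universe u

variable {H : Type u} [NormedAddCommGroup H] [InnerProductSpace ℂ H] [CompleteSpace H]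

variable {K : Type u} [NormedAddCommGroup K] [InnerProductSpace ℂ K] [CompleteSpace K]

variable {L : Type u} [NormedAddCommGroup L] [InnerProductSpace ℂ L] [CompleteSpace L]

variable {N : VonNeumannAlgebra H} {ψ : (H →L[ℂ] H) → ℝ≥0∞} {ξ : H} {i : K →L[ℂ] H} {κ : K}
  {Λ : (H →L[ℂ] H) → L} {ρ : (H →L[ℂ] H) → (L →L[ℂ] L)}

omit [CompleteSpace K] [CompleteSpace L] in
lemma NgE_closure {A B : Set (K × L)} (X : K →L[ℂ] K) (P : L →L[ℂ] L)
    (h : ∀ p ∈ A, ((X p.1, P p.2) : K × L) ∈ closure B) {p : K × L} (hp : p ∈ closure A) :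
    ((X p.1, P p.2) : K × L) ∈ closure B := by
  have hc : Continuous fun p : K × L => ((X p.1, P p.2) : K × L) := by fun_prop
  exact closure_minimal (t := (fun p : K × L => ((X p.1, P p.2) : K × L)) ⁻¹' closure B)
    (fun p hp => h p hp) (isClosed_closure.preimage hc) hp

end Pool.Agent.Helper23.ED

end

end

section

section

open scoped InnerProductSpace Topology BoundedContinuousFunction

open ContinuousLinearMap Filter MeasureTheory

namespace Pool.Agent.Helper43.TTF

open Pool.Agent.Helper23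

variable {H : Type*} [NormedAddCommGroup H] [InnerProductSpace ℂ H] [CompleteSpace H]

lemma one_bcf (ρ : ℝ) : (1 : ℝ →ᵇ ℂ) ρ = 1 := rfl

end Pool.Agent.Helper43.TTF

end

section

open scoped InnerProductSpace Topology BoundedContinuousFunction ComplexOrder

open ContinuousLinearMap Filter

namespace Pool.Agent.Helper23

variable {H : Type*} [NormedAddCommGroup H] [InnerProductSpace ℂ H] [CompleteSpace H]

variable {M N : VonNeumannAlgebra H} {ξ : H} {E : (H →L[ℂ] H) → (H →L[ℂ] H)}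

/-- a self-adjoint element of norm at most one is at most `1`; square root of the difference. -/
lemma exists_sqrt_one_sub {A : Type*} [CStarAlgebra A] {α : A} (hα : IsSelfAdjoint α)
    (h1 : ‖α‖ ≤ 1) : ∃ b : A, 1 - α = star b * b := by
  let _ : PartialOrder A := CStarAlgebra.spectralOrder _
  let _ : StarOrderedRing A := CStarAlgebra.spectralOrderedRing _
  refine CStarAlgebra.nonneg_iff_eq_star_mul_self.1 ?_
  rw [sub_nonneg]
  refine (IsSelfAdjoint.le_algebraMap_norm_self (a := α) hα).trans ?_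
  rw [Algebra.algebraMap_eq_smul_one]
  calc ‖α‖ • (1 : A) ≤ (1 : ℝ) • (1 : A) := smul_le_smul_of_nonneg_right h1 zero_le_one
    _ = 1 := one_smul _ _

end Pool.Agent.Helper23

end

end

section

section

open scoped InnerProductSpace Topology BoundedContinuousFunction

open ContinuousLinearMap Filter

namespace Pool.Agent.Helper78.BC

variable {H : Type*} [NormedAddCommGroup H] [InnerProductSpace ℂ H] [CompleteSpace H]

variable {A : VonNeumannAlgebra H} {ξ : H} {J : H →L[ℝ] H}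
  {Ψ : (ℝ →ᵇ ℂ) →⋆ₐ[ℂ] (H →L[ℂ] H)}

namespace Fam

theorem coiso_apply {v : H →L[ℂ] H} (hv : v * star v = 1) (x : H) : v ((star v) x) = x := by
  have := congrArg (fun T : H →L[ℂ] H => T x) hv
  simpa using this

end Fam

end Pool.Agent.Helper78.BC

end

section

open scoped InnerProductSpace

open ContinuousLinearMap

namespace Pool.Agent.Helper72

open Pool.Agent.Helper23

variable {H : Type*} [NormedAddCommGroup H] [InnerProductSpace ℂ H] [CompleteSpace H]

omit [CompleteSpace H] in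
lemma inner_re_nonneg_of_nonneg {T : H →L[ℂ] H} (hT : 0 ≤ T) (v : H) : 0 ≤ (⟪v, T v⟫_ℂ).re :=
  ((ContinuousLinearMap.nonneg_iff_isPositive T).1 hT).re_inner_nonneg_right v

end Pool.Agent.Helper72

end

section

open scoped InnerProductSpace Topology BoundedContinuousFunction FourierTransform

open ContinuousLinearMap Filter MeasureTheory

namespace Pool.Agent.Helper43.TTF

open Pool.Agent.Helper23

variable {H : Type*} [NormedAddCommGroup H] [InnerProductSpace ℂ H] [CompleteSpace H]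

variable {R : H →L[ℂ] H} {D : H →L[ℝ] H} {Ψ : (ℝ →ᵇ ℂ) →⋆ₐ[ℂ] (H →L[ℂ] H)} {J : H →L[ℝ] H}

lemma exp_sub (a b : ℝ) : ‖Complex.exp (a * Complex.I) - Complex.exp (b * Complex.I)‖ ≤ |a - b| := by
  have h1 : Complex.exp (a * Complex.I) - Complex.exp (b * Complex.I) =
      Complex.exp (b * Complex.I) * (Complex.exp (Complex.I * ((a - b : ℝ) : ℂ)) - 1) := by
    rw [mul_sub, ← Complex.exp_add, mul_one]
    congr 2
    push_cast
    ring
  rw [h1, norm_mul, Complex.norm_exp_ofReal_mul_I, one_mul]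
  exact Real.norm_exp_I_mul_ofReal_sub_one_le

end Pool.Agent.Helper43.TTF

end

section

open scoped InnerProductSpace TensorProduct

open ContinuousLinearMap

namespace Pool.Agent.Helper23

variable {H : Type*} [NormedAddCommGroup H] [InnerProductSpace ℂ H] [CompleteSpace H]

variable {M N : VonNeumannAlgebra H} {ξ : H} {E : (H →L[ℂ] H) → (H →L[ℂ] H)}

lemma exists_ext {F : Type*} [AddCommGroup F] [Module ℂ F] (f e : F →ₗ[ℂ] H) (hd : DenseRange e)
    {C : ℝ} (hC : 0 ≤ C) (h : ∀ t, ‖f t‖ ≤ C * ‖e t‖) :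
    ∃ z : H →L[ℂ] H, (∀ t, z (e t) = f t) ∧ ‖z‖ ≤ C :=
  ⟨f.extendOfNorm e, fun t => LinearMap.extendOfNorm_eq hd ⟨C, h⟩ t,
    LinearMap.opNorm_extendOfNorm_le hd hC h⟩

lemma exists_ext_monoid {F : Type*} [AddCommMonoid F] [Module ℂ F] (f e : F →ₗ[ℂ] H)
    (hd : DenseRange e) {C : ℝ} (hC : 0 ≤ C) (h : ∀ t, ‖f t‖ ≤ C * ‖e t‖) :
    ∃ z : H →L[ℂ] H, (∀ t, z (e t) = f t) ∧ ‖z‖ ≤ C := by
  let _ : AddCommGroup F := Module.addCommMonoidToAddCommGroup ℂ
  exact exists_ext f e hd hC h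

end Pool.Agent.Helper23

end

section

open scoped InnerProductSpace

open ContinuousLinearMap

namespace Pool.Agent.Helper23

variable {H : Type*} [NormedAddCommGroup H] [InnerProductSpace ℂ H] [CompleteSpace H]

variable {M N : VonNeumannAlgebra H} {ξ : H} {E : (H →L[ℂ] H) → (H →L[ℂ] H)}

/-- evaluation at `ξ` -/
def evξ (ξ : H) : (H →L[ℂ] H) →ₗ[ℂ] H where
  toFun a := a ξ
  map_add' _ _ := rfl
  map_smul' _ _ := rfl

end Pool.Agent.Helper23

end

section

open scoped InnerProductSpace Topology ENNReal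

open ContinuousLinearMap Filter MeasureTheory

set_option linter.unusedSectionVars false

set_option linter.unusedVariables false

namespace Pool.Agent.Helper23

section general

variable {E : Type*} [NormedAddCommGroup E] [InnerProductSpace ℂ E] [CompleteSpace E]

lemma parseval_enn {ι : Type*} (b : HilbertBasis ι ℂ E) (x : E) :
    ∑' i, ENNReal.ofReal (‖⟪b i, x⟫_ℂ‖ ^ 2) = ENNReal.ofReal (‖x‖ ^ 2) := by
  have h := b.hasSum_inner_mul_inner x x
  have h1 : ∀ i, ⟪x, b i⟫_ℂ * ⟪b i, x⟫_ℂ = ((‖⟪b i, x⟫_ℂ‖ ^ 2 : ℝ) : ℂ) := by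
    intro i
    rw [← inner_conj_symm x (b i), RCLike.conj_mul]
    norm_cast
  simp only [h1] at h
  have h2 : ⟪x, x⟫_ℂ = ((‖x‖ ^ 2 : ℝ) : ℂ) := by
    rw [inner_self_eq_norm_sq_to_K]; norm_cast
  rw [h2] at h
  have h3 : HasSum (fun i => ‖⟪b i, x⟫_ℂ‖ ^ 2) (‖x‖ ^ 2) := by
    exact_mod_cast h
  rw [← h3.tsum_eq, ENNReal.ofReal_tsum_of_nonneg (fun _ => by (clear * -; positivity)) h3.summable]

end general

end Pool.Agent.Helper23

end

section

open scoped InnerProductSpace Topology BoundedContinuousFunction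

open ContinuousLinearMap Filter MeasureTheory

namespace Pool.Agent.Helper70.U8

open Pool.Agent.Helper23

variable {H : Type*} [NormedAddCommGroup H] [InnerProductSpace ℂ H] [CompleteSpace H]

variable {A : VonNeumannAlgebra H} {ξ : H} {R : H →L[ℂ] H} {D : H →L[ℝ] H}
  {Ψ : (ℝ →ᵇ ℂ) →⋆ₐ[ℂ] (H →L[ℂ] H)}

lemma cont_apply {T : ℝ → H →L[ℂ] H} (hT : ∀ t v, ‖T t v‖ ≤ ‖v‖)
    (hc : ∀ v, Continuous fun t => T t v) {f : ℝ → H} (hf : Continuous f) :
    Continuous fun t => T t (f t) := by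
  rw [continuous_iff_continuousAt]
  intro t₀
  rw [ContinuousAt, tendsto_iff_norm_sub_tendsto_zero]
  have h1 : Tendsto (fun t => ‖f t - f t₀‖ + ‖T t (f t₀) - T t₀ (f t₀)‖) (𝓝 t₀) (𝓝 0) := by
    have e1 := tendsto_iff_norm_sub_tendsto_zero.1 (hf.tendsto t₀)
    have e2 := tendsto_iff_norm_sub_tendsto_zero.1 ((hc (f t₀)).tendsto t₀)
    simpa using e1.add e2
  refine squeeze_zero (fun _ => norm_nonneg _) (fun t => ?_) h1
  have h2 : T t (f t) - T t₀ (f t₀) = T t (f t - f t₀) + (T t (f t₀) - T t₀ (f t₀)) := by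
    rw [map_sub]; abel
  rw [h2]
  refine (norm_add_le _ _).trans ?_
  gcongr
  exact hT _ _

end Pool.Agent.Helper70.U8

end

section

open scoped InnerProductSpace Topology

open ContinuousLinearMap Filter

namespace Pool.Agent.Helper23

variable {H : Type*} [NormedAddCommGroup H] [InnerProductSpace ℂ H] [CompleteSpace H]

variable {K : Type*} [NormedAddCommGroup K] [InnerProductSpace ℂ K] [CompleteSpace K]

/-- the compression of an operator on the ultrapower to `H` -/
noncomputable def ccU (M : VonNeumannAlgebra H) (ξ : H) (rep : (ℕ → H →L[ℂ] H) → (K →L[ℂ] K))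
    (ζ : K) (T : K →L[ℂ] K) : H →L[ℂ] H :=
  open Classical in
  if h : ∃ y ∈ M, ∀ a ∈ M, ∀ b ∈ M,
    ⟪a ξ, y (b ξ)⟫_ℂ = ⟪rep (fun _ => a) ζ, T (rep (fun _ => b) ζ)⟫_ℂ then h.choose else 0

end Pool.Agent.Helper23

end

section

open scoped InnerProductSpace Topology BoundedContinuousFunction FourierTransform ENNReal

open ContinuousLinearMap Filter MeasureTheory

set_option linter.unusedSectionVars false

namespace Pool.Agent.Helper23

variable {H : Type*} [NormedAddCommGroup H] [InnerProductSpace ℂ H] [CompleteSpace H]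

/-- reflection of a bounded continuous function, with complex conjugation -/
noncomputable def refl (G : ℝ →ᵇ ℂ) : ℝ →ᵇ ℂ :=
  star (G.compContinuous ⟨fun ρ : ℝ => -ρ, continuous_neg⟩)

lemma refl_apply (G : ℝ →ᵇ ℂ) (ρ : ℝ) : refl G ρ = (starRingEnd ℂ) (G (-ρ)) := rfl

end Pool.Agent.Helper23

end

section

open scoped InnerProductSpace Topology ENNReal

open ContinuousLinearMap Filter MeasureTheory

set_option linter.unusedSectionVars false

set_option linter.unusedVariables false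

namespace Pool.Agent.Helper23

variable {H : Type*} [NormedAddCommGroup H] [InnerProductSpace ℂ H] [CompleteSpace H]

variable {M N : VonNeumannAlgebra H} {ξ : H} {E : (H →L[ℂ] H) → (H →L[ℂ] H)}

namespace GKW

/-- the inverse cut off exponentials -/
noncomputable def dmi (m : ℤ) (s : ℝ) : ℂ :=
  Set.indicator (Set.Ico (m : ℝ) (m + 1)) (fun s => ((Real.exp (-s / 2) : ℝ) : ℂ)) s

lemma dmi_of_mem {m : ℤ} {s : ℝ} (h : s ∈ Set.Ico (m : ℝ) (m + 1)) :
    dmi m s = ((Real.exp (-s / 2) : ℝ) : ℂ) := Set.indicator_of_mem h _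

lemma dmi_of_notMem {m : ℤ} {s : ℝ} (h : s ∉ Set.Ico (m : ℝ) (m + 1)) : dmi m s = 0 :=
  Set.indicator_of_notMem h _

/-- a bound for the intervals -/
noncomputable def bd (n : ℕ) (m : ℤ) : ℕ := max n (m.natAbs + 1)

lemma Ico_sub (n : ℕ) (m : ℤ) {s : ℝ} (h : s ∈ Set.Ico (m : ℝ) (m + 1)) :
    s ∈ Set.Ico (-((bd n m : ℕ) : ℝ)) (bd n m : ℕ) := by
  have h1 : m.natAbs + 1 ≤ bd n m := le_max_right _ _
  have h2 : (m.natAbs : ℤ) + 1 ≤ (bd n m : ℕ) := by exact_mod_cast h1
  have h3 : m ≤ m.natAbs := Int.le_natAbs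
  have h4 : -m ≤ m.natAbs := by omega
  have h5 : (m : ℝ) + 1 ≤ (bd n m : ℕ) := by
    have : m + 1 ≤ (bd n m : ℕ) := by omega
    exact_mod_cast this
  have h6 : -((bd n m : ℕ) : ℝ) ≤ m := by
    have : -((bd n m : ℕ) : ℤ) ≤ m := by omega
    exact_mod_cast this
  exact ⟨h6.trans h.1, lt_of_lt_of_le h.2 h5⟩

/-- `e^{s/2}` and `e^{-s/2}` on `[-n,n)` -/
noncomputable def hs (σ : ℝ) (n : ℕ) (s : ℝ) : ℂ :=
  Set.indicator (Set.Ico (-(n : ℝ)) n) (fun s => ((Real.exp (σ * s / 2) : ℝ) : ℂ)) s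

lemma hs_of_mem {σ : ℝ} {n : ℕ} {s : ℝ} (h : s ∈ Set.Ico (-(n : ℝ)) n) :
    hs σ n s = ((Real.exp (σ * s / 2) : ℝ) : ℂ) := Set.indicator_of_mem h _

lemma hs_of_notMem {σ : ℝ} {n : ℕ} {s : ℝ} (h : s ∉ Set.Ico (-(n : ℝ)) n) :
    hs σ n s = 0 := Set.indicator_of_notMem h _

lemma hs_conj (σ : ℝ) (n : ℕ) : (fun s => (starRingEnd ℂ) (hs σ n s)) = hs σ n := by
  funext s
  by_cases h : s ∈ Set.Ico (-(n : ℝ)) n
  · rw [hs_of_mem h, Complex.conj_ofReal]
  · rw [hs_of_notMem h, map_zero]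

end GKW

end Pool.Agent.Helper23

end

section

open scoped InnerProductSpace Topology

open ContinuousLinearMap Filter

namespace Pool.Agent.Helper23

universe u

variable {H : Type u} [NormedAddCommGroup H] [InnerProductSpace ℂ H] [CompleteSpace H]
  {N : VonNeumannAlgebra H} {ξ : H}

/-- Type III₁ in the form of Connes and Størmer: `N` is properly infinite, and any two normal
states of `N` (given here by pairs of vectors) are approximately unitarily equivalent. -/
def TypeIIIOne (N : VonNeumannAlgebra H) : Prop :=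
  (∃ v ∈ N, ∃ w ∈ N, star v * v = 1 ∧ star w * w = 1 ∧ star v * w = 0) ∧
  ∀ η η' ζ ζ' : H, ‖η‖ ^ 2 + ‖η'‖ ^ 2 = 1 → ‖ζ‖ ^ 2 + ‖ζ'‖ ^ 2 = 1 → ∀ ε : ℝ, 0 < ε →
    ∃ u ∈ N, star u * u = 1 ∧ u * star u = 1 ∧ ∀ x ∈ N,
      ‖⟪u η, x (u η)⟫_ℂ + ⟪u η', x (u η')⟫_ℂ - (⟪ζ, x ζ⟫_ℂ + ⟪ζ', x ζ'⟫_ℂ)‖ ≤ ε * ‖x‖

theorem inner_conj_aux (p q x : H →L[ℂ] H) (c : ℝ) (ξ : H) :
    ⟪p ((c : ℂ) • q ξ), x (p ((c : ℂ) • q ξ))⟫_ℂ =
      ((c ^ 2 : ℝ) : ℂ) * ⟪ξ, (star (p * q) * x * (p * q)) ξ⟫_ℂ := by
  have h : ⟪ξ, (star (p * q) * x * (p * q)) ξ⟫_ℂ = ⟪p (q ξ), x (p (q ξ))⟫_ℂ := by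
    rw [ContinuousLinearMap.star_eq_adjoint]
    exact ContinuousLinearMap.adjoint_inner_right (p * q) ξ (x ((p * q) ξ))
  rw [h]
  simp only [map_smul, inner_smul_left, inner_smul_right, Complex.conj_ofReal]
  push_cast
  ring

section algebra

variable {A : Type*} [Ring A] [StarRing A] {u v w : A}

theorem iii_e1 (hu : star u * u = 1) (hwv : star w * v = 0) (z : A) :
    star (u * v) * (z * (u * (v * star w) * star u)) * (u * v) = 0 := by
  have : star (u * v) * (z * (u * (v * star w) * star u)) * (u * v) =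
      star (u * v) * z * u * v * (star w * ((star u * u) * v)) := by noncomm_ring
  rw [this, hu, one_mul, hwv, mul_zero]

theorem iii_e3 (hu : star u * u = 1) (hvv : star v * v = 1) (z : A) :
    star (u * v) * ((u * (v * star w) * star u) * z) * (u * v) =
      star w * (star u * (z * (u * v))) := by
  have : star (u * v) * ((u * (v * star w) * star u) * z) * (u * v) =
      star v * (star u * u) * v * (star w * (star u * (z * (u * v)))) := by
    rw [star_mul]; noncomm_ring
  rw [this, hu, mul_one, hvv, one_mul]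

theorem iii_e4 (hu : star u * u = 1) (hwv : star w * v = 0) (z : A) :
    star (u * w) * ((u * (v * star w) * star u) * z) * (u * w) = 0 := by
  have : star (u * w) * ((u * (v * star w) * star u) * z) * (u * w) =
      star w * (star u * u) * v * (star w * (star u * (z * (u * w)))) := by
    rw [star_mul]; noncomm_ring
  rw [this, hu, mul_one, hwv, zero_mul]

theorem iii_ss (hu : star u * u = 1) (hvv : star v * v = 1) :
    star (u * (v * star w) * star u) * (u * (v * star w) * star u) =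
      u * w * (star w * star u) := by
  have : star (u * (v * star w) * star u) * (u * (v * star w) * star u) =
      u * w * (star v * ((star u * u) * v)) * (star w * star u) := by
    simp only [star_mul, star_star]; noncomm_ring
  rw [this, hu, one_mul, hvv, mul_one]

theorem iii_e5 (hu : star u * u = 1) (hwv : star w * v = 0) :
    star (u * v) * (u * w * (star w * star u)) * (u * v) = 0 := by
  have : star (u * v) * (u * w * (star w * star u)) * (u * v) =
      star (u * v) * u * w * (star w * ((star u * u) * v)) := by noncomm_ring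
  rw [this, hu, one_mul, hwv, mul_zero]

theorem iii_e6 (hu : star u * u = 1) (hww : star w * w = 1) :
    star (u * w) * (u * w * (star w * star u)) * (u * w) = 1 := by
  have : star (u * w) * (u * w * (star w * star u)) * (u * w) =
      (star w * (star u * u) * w) * (star w * ((star u * u) * w)) := by
    rw [star_mul]; noncomm_ring
  rw [this, hu, one_mul, mul_one, hww, one_mul]

end algebra

end Pool.Agent.Helper23

end

section

open scoped InnerProductSpace Topology ENNReal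

open ContinuousLinearMap Filter MeasureTheory

namespace Pool.Agent.Helper23

variable {H : Type*} [NormedAddCommGroup H] [InnerProductSpace ℂ H] [CompleteSpace H]

variable {G : Type*} [NormedAddCommGroup G] [InnerProductSpace ℂ G] [CompleteSpace G]

variable {M N : VonNeumannAlgebra H} {ξ : H} {E : (H →L[ℂ] H) → (H →L[ℂ] H)}

/-- truncated inverse exponential -/
noncomputable def hi (n : ℕ) (s : ℝ) : ℂ :=
  Set.indicator (Set.Ico (-(n : ℝ)) n) (fun s => ((Real.exp (-s) : ℝ) : ℂ)) s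

lemma hi_of_mem {n : ℕ} {s : ℝ} (h : s ∈ Set.Ico (-(n : ℝ)) n) :
    hi n s = ((Real.exp (-s) : ℝ) : ℂ) := Set.indicator_of_mem h _

end Pool.Agent.Helper23

end

section

open scoped InnerProductSpace Topology

open ContinuousLinearMap Filter

namespace Pool.Agent.Helper23

variable {H : Type*} [NormedAddCommGroup H] [InnerProductSpace ℂ H] [CompleteSpace H]

variable {M N : VonNeumannAlgebra H} {ξ : H} {E : (H →L[ℂ] H) → (H →L[ℂ] H)}

omit [CompleteSpace H] in
/-- expansion of a squared norm of a difference -/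
lemma norm_sub_sq_re (a b : H) : ‖a - b‖ ^ 2 = ‖a‖ ^ 2 - 2 * (⟪a, b⟫_ℂ).re + ‖b‖ ^ 2 := by
  have h := norm_sub_sq (𝕜 := ℂ) a b
  exact h

end Pool.Agent.Helper23

end

section

open scoped InnerProductSpace Topology ENNReal

open ContinuousLinearMap Filter MeasureTheory

namespace Pool.Agent.Helper23

variable {H : Type*} [NormedAddCommGroup H] [InnerProductSpace ℂ H] [CompleteSpace H]

lemma two_sq {G : Type*} [SeminormedAddCommGroup G] (a b : G) :
    ‖a + b‖ ^ 2 ≤ 2 * ‖a‖ ^ 2 + 2 * ‖b‖ ^ 2 := by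
  have := norm_add_le a b
  (clear * - this; nlinarith [norm_nonneg (a + b), sq_nonneg (‖a‖ - ‖b‖)])

lemma sqrt_add_sqrt_sq {κ : ℝ} (hκ : 0 ≤ κ) :
    (Real.sqrt κ + Real.sqrt (2 * κ)) ^ 2 ≤ 6 * κ := by
  have a1 := Real.sq_sqrt hκ
  have a2 := Real.sq_sqrt (show 0 ≤ 2 * κ by (clear * - hκ; positivity))
  nlinarith [sq_nonneg (Real.sqrt κ - Real.sqrt (2 * κ))]

lemma fin_le {a b c d e g κ q : ℝ} (h1 : a ≤ b + c) (h2 : b ≤ d + κ) (h3 : c ≤ κ)
    (h4 : d ≤ 2 * q + 2 * (4 * e)) (h5 : q ≤ κ) (h6 : e ≤ 6 * κ * g) :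
    a ≤ (4 + 48 * g) * κ := by
  linarith

end Pool.Agent.Helper23

end

section

open scoped InnerProductSpace Topology ENNReal

open ContinuousLinearMap Filter MeasureTheory

set_option linter.unusedSectionVars false

set_option linter.unusedVariables false

namespace Pool.Agent.Helper23

variable {H : Type*} [NormedAddCommGroup H] [InnerProductSpace ℂ H] [CompleteSpace H]

variable {M N : VonNeumannAlgebra H} {ξ : H} {E : (H →L[ℂ] H) → (H →L[ℂ] H)}

lemma isLUB_ofReal {ι : Type*} {g : ι → ℝ} {S : Set ℝ} {a : ℝ} (hS : ∀ r, r ∈ S ↔ ∃ i, r = g i)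
    (h : IsLUB S a) : ENNReal.ofReal a = ⨆ i, ENNReal.ofReal (g i) := by
  refine le_antisymm ?_ (iSup_le fun i => ENNReal.ofReal_le_ofReal (h.1 ((hS _).2 ⟨i, rfl⟩)))
  refine le_of_forall_lt fun c hc => ?_
  have hc' : c ≠ ⊤ := (lt_of_lt_of_le hc le_top).ne
  rw [ENNReal.lt_ofReal_iff_toReal_lt hc'] at hc
  obtain ⟨r, hr, hcr⟩ := (lt_isLUB_iff h).1 hc
  obtain ⟨i, rfl⟩ := (hS r).1 hr
  refine lt_of_lt_of_le ((ENNReal.lt_ofReal_iff_toReal_lt hc').2 hcr) (le_iSup
    (fun i => ENNReal.ofReal (g i)) i)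

lemma tsum_iSup_directed {ι J : Type*} {f : J → ι → ℝ≥0∞}
    (hf : ∀ i k, ∃ l, ∀ a, f a i ≤ f a l ∧ f a k ≤ f a l) :
    ∑' a, ⨆ i, f a i = ⨆ i, ∑' a, f a i := by
  rw [ENNReal.tsum_eq_iSup_sum]
  simp only [ENNReal.tsum_eq_iSup_sum]
  rw [iSup_comm]
  refine iSup_congr fun s => ?_
  exact ENNReal.finsetSum_iSup hf

end Pool.Agent.Helper23

end

section

open scoped InnerProductSpace Topology BoundedContinuousFunction

open ContinuousLinearMap Filter

namespace Pool.Agent.Helper78.BC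

variable {H : Type*} [NormedAddCommGroup H] [InnerProductSpace ℂ H] [CompleteSpace H]

variable {A : VonNeumannAlgebra H} {ξ : H} {J : H →L[ℝ] H}
  {Ψ : (ℝ →ᵇ ℂ) →⋆ₐ[ℂ] (H →L[ℂ] H)}

namespace NoProj

lemma opnorm_proj {p : H →L[ℂ] H} (hpp : p * p = p) (hps : star p = p) : ‖p‖ ≤ 1 := by
  have h1 : ‖star p * p‖ = ‖p‖ * ‖p‖ := CStarRing.norm_star_mul_self
  rw [hps, hpp] at h1
  by_contra hcon
  push Not at hcon
  (clear * - h1 hcon; nlinarith)

end NoProj

end Pool.Agent.Helper78.BC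

end

section

open scoped InnerProductSpace Topology BoundedContinuousFunction

open ContinuousLinearMap Filter

namespace Pool.Agent.Helper23

universe u

variable {H : Type u} [NormedAddCommGroup H] [InnerProductSpace ℂ H] [CompleteSpace H]

variable {K : Type u} [NormedAddCommGroup K] [InnerProductSpace ℂ K] [CompleteSpace K]

variable {M N : VonNeumannAlgebra H} {ξ : H} {E : (H →L[ℂ] H) → (H →L[ℂ] H)}

section aux

set_option linter.unusedSectionVars false

/-- operators with equal matrix coefficients are equal -/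
lemma U11.op_ext_inner {x y : H →L[ℂ] H} (h : ∀ v w : H, ⟪v, x w⟫_ℂ = ⟪v, y w⟫_ℂ) : x = y := by
  ext w
  exact ext_inner_left ℂ fun v => h v w

lemma U11.norm_le_of_weak {ι : Type*} {F : Filter ι} [F.NeBot] {x : ι → H} {y : H} {ε : ℝ}
    (h : ∀ v : H, Tendsto (fun i => ⟪v, x i⟫_ℂ) F (𝓝 ⟪v, y⟫_ℂ))
    (hx : ∀ᶠ i in F, ‖x i‖ ≤ ε) : ‖y‖ ≤ ε := by
  have h1 : ‖⟪y, y⟫_ℂ‖ ≤ ‖y‖ * ε := by
    refine le_of_tendsto (h y).norm (hx.mono fun i hi => ?_)
    exact (norm_inner_le_norm _ _).trans (mul_le_mul_of_nonneg_left hi (norm_nonneg _))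
  rw [inner_self_eq_norm_sq_to_K, norm_pow] at h1
  have h2 : ‖((‖y‖ : ℝ) : ℂ)‖ = ‖y‖ := by rw [Complex.norm_real, norm_norm]
  change ‖((‖y‖ : ℝ) : ℂ)‖ ^ 2 ≤ _ at h1
  rw [h2] at h1
  obtain ⟨i, hi⟩ := hx.exists
  have hε : 0 ≤ ε := (norm_nonneg _).trans hi
  by_cases h0 : ‖y‖ = 0
  · rw [h0]; exact hε
  · have : 0 < ‖y‖ := lt_of_le_of_ne (norm_nonneg _) (Ne.symm h0)
    (clear * - h1 this; nlinarith)

end aux

end Pool.Agent.Helper23

end

section

open scoped InnerProductSpace Topology BoundedContinuousFunction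

open ContinuousLinearMap Filter MeasureTheory

namespace Pool.Agent.Helper88.CS

open Pool.Agent.Helper23

variable {H : Type*} [NormedAddCommGroup H] [InnerProductSpace ℂ H] [CompleteSpace H]

namespace SumsAux

lemma star_inner (T : H →L[ℂ] H) (x y : H) : ⟪(star T) x, y⟫_ℂ = ⟪x, T y⟫_ℂ := by
  rw [star_eq_adjoint]; exact adjoint_inner_left T y x

end SumsAux

end Pool.Agent.Helper88.CS

end

section

open scoped InnerProductSpace Topology BoundedContinuousFunction

open ContinuousLinearMap Filter MeasureTheory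

namespace Pool.Agent.Helper88.CS

open Pool.Agent.Helper23

variable {H : Type*} [NormedAddCommGroup H] [InnerProductSpace ℂ H] [CompleteSpace H]

variable {A : VonNeumannAlgebra H} {ξ : H} {J : H →L[ℝ] H}
  {Ψ : (ℝ →ᵇ ℂ) →⋆ₐ[ℂ] (H →L[ℂ] H)} {R : H →L[ℂ] H} {D : H →L[ℝ] H}

namespace CornerSpecAux

theorem psi_mul' (Ψ : (ℝ →ᵇ ℂ) →⋆ₐ[ℂ] (H →L[ℂ] H)) (G G' : ℝ →ᵇ ℂ) (v : H) :
    Ψ (G * G') v = Ψ G (Ψ G' v) := by
  rw [map_mul]
  rfl

end CornerSpecAux

end Pool.Agent.Helper88.CS

end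

section

open scoped InnerProductSpace Topology BoundedContinuousFunction CompactlySupported

open ContinuousLinearMap Filter MeasureTheory

namespace Pool.Agent.Helper88.CS

open Pool.Agent.Helper23

variable {H : Type*} [NormedAddCommGroup H] [InnerProductSpace ℂ H] [CompleteSpace H]

variable {A : VonNeumannAlgebra H} {J : H →L[ℝ] H} {κ : H}

namespace Trick1Aux

lemma integral_comb {μ : Measure ℂ} {f g h k : ℂ → ℝ} (hf : Integrable f μ) (hg : Integrable g μ)
    (hh : Integrable h μ) (hk : Integrable k μ) :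
    ∫ z, (f z + g z + 2 * h z - 2 * k z) ∂μ =
      ∫ z, f z ∂μ + ∫ z, g z ∂μ + 2 * ∫ z, h z ∂μ - 2 * ∫ z, k z ∂μ := by
  have e1 : Integrable (fun z => f z + g z) μ := hf.add hg
  have e2 : Integrable (fun z => 2 * h z) μ := hh.const_mul 2
  have e3 : Integrable (fun z => f z + g z + 2 * h z) μ := e1.add e2
  have e4 : Integrable (fun z => 2 * k z) μ := hk.const_mul 2
  rw [integral_sub e3 e4, integral_add e1 e2, integral_add hf hg, integral_const_mul,
    integral_const_mul]

end Trick1Aux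

end Pool.Agent.Helper88.CS

end

section

open scoped InnerProductSpace Topology BoundedContinuousFunction

open ContinuousLinearMap Filter MeasureTheory

namespace Pool.Agent.Helper88.CS

open Pool.Agent.Helper23

variable {H : Type*} [NormedAddCommGroup H] [InnerProductSpace ℂ H] [CompleteSpace H]

variable {A : VonNeumannAlgebra H} {ξ : H} {J : H →L[ℝ] H}
  {Ψ : (ℝ →ᵇ ℂ) →⋆ₐ[ℂ] (H →L[ℂ] H)} {R : H →L[ℂ] H} {D : H →L[ℝ] H}

namespace FullAux

open ExhAux InftyAux

omit [CompleteSpace H] in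
lemma apply_mul (a b : H →L[ℂ] H) (x : H) : (a * b) x = a (b x) := rfl

lemma pyth {p : H →L[ℂ] H} (hp : star p = p) (hp2 : p * p = p) (x : H) :
    ‖x - p x‖ ^ 2 = ‖x‖ ^ 2 - ‖p x‖ ^ 2 := by
  have h0 : ⟪p x, x - p x⟫_ℂ = 0 := by
    have h1 : ⟪p x, p x⟫_ℂ = ⟪p x, x⟫_ℂ := by
      have : ⟪p x, p x⟫_ℂ = ⟪(star p) (p x), x⟫_ℂ := by
        rw [ContinuousLinearMap.star_eq_adjoint, ContinuousLinearMap.adjoint_inner_left]
      rw [this, hp]
      have : p (p x) = (p * p) x := rfl
      rw [this, hp2]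
    rw [inner_sub_right, h1, sub_self]
  have h2 : ‖p x + (x - p x)‖ ^ 2 = ‖p x‖ ^ 2 + ‖x - p x‖ ^ 2 := by
    have := norm_add_sq (𝕜 := ℂ) (p x) (x - p x)
    rw [h0] at this
    simpa using this
  have h3 : p x + (x - p x) = x := by abel
  rw [h3] at h2
  (clear * - h2; linarith)

lemma proj_pi {p : H →L[ℂ] H} (hp : star p = p) (hp2 : p * p = p) : p * star p * p = p := by
  rw [hp, hp2, hp2]

end FullAux

end Pool.Agent.Helper88.CS

end

section

open scoped InnerProductSpace Topology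

open ContinuousLinearMap Filter

namespace Pool.Agent.Helper88.CS

open Pool.Agent.Helper23

universe u

variable {H : Type u} [NormedAddCommGroup H] [InnerProductSpace ℂ H] [CompleteSpace H]

namespace FinalAux

theorem adj {L : Type*} [NormedAddCommGroup L] [InnerProductSpace ℂ L] [CompleteSpace L]
    (T : L →L[ℂ] L) (v w : L) : ⟪v, (star T) w⟫_ℂ = ⟪T v, w⟫_ℂ := by
  rw [star_eq_adjoint, adjoint_inner_right]

theorem adj_sa {L : Type*} [NormedAddCommGroup L] [InnerProductSpace ℂ L] [CompleteSpace L]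
    {T : L →L[ℂ] L} (hT : star T = T) (v w : L) : ⟪v, T w⟫_ℂ = ⟪T v, w⟫_ℂ := by
  conv_lhs => rw [← hT]
  exact adj T v w

end FinalAux

end Pool.Agent.Helper88.CS

end

section

open scoped InnerProductSpace Topology ENNReal BoundedContinuousFunction

open ContinuousLinearMap Filter MeasureTheory

namespace Pool.Agent.Helper23.ED

open Pool.Agent.Helper23 Pool.Agent.Helper23.RBF

universe u

variable {K : Type*} [NormedAddCommGroup K] [InnerProductSpace ℂ K] [CompleteSpace K]

variable {U : ℝ → K →L[ℂ] K}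

namespace SmD

open Pool.Agent.Helper43.TTF

lemma one_add_exp_ne (ρ : ℝ) : (1 + Complex.exp (ρ : ℂ)) ≠ 0 := by
  have h : (0 : ℝ) < 1 + Real.exp ρ := by (clear * -; positivity)
  have h2 : ((1 + Real.exp ρ : ℝ) : ℂ) ≠ 0 := by exact_mod_cast h.ne'
  push_cast at h2
  exact h2

end SmD

end Pool.Agent.Helper23.ED

end

section

open scoped InnerProductSpace Topology ENNReal BoundedContinuousFunction

open ContinuousLinearMap Filter MeasureTheory

namespace Pool.Agent.Helper23.ED

open Pool.Agent.Helper23 Pool.Agent.Helper23.RBF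

universe u

variable {H : Type u} [NormedAddCommGroup H] [InnerProductSpace ℂ H] [CompleteSpace H]

variable {N : VonNeumannAlgebra H} {ψ : (H →L[ℂ] H) → ℝ≥0∞}

namespace WtC

lemma star_mul_nonneg (y : H →L[ℂ] H) : 0 ≤ star y * y := star_mul_self_nonneg y

/-- normality for increasing sequences -/
lemma psi_sup (hψ : IsNSFWeight N ψ) {g : ℕ → H →L[ℂ] H} {B : H →L[ℂ] H} (hg : ∀ n, g n ∈ N)
    (hg0 : ∀ n, 0 ≤ g n) (hm : Monotone g) (hB : B ∈ N)
    (hl : ∀ v, IsLUB (Set.range fun n => (⟪v, g n v⟫_ℂ).re) (⟪v, B v⟫_ℂ).re) :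
    ψ B = ⨆ n, ψ (g n) := by
  have h1 := hψ.normal (Set.range g) B ⟨g 0, 0, rfl⟩ hm.directed_le.directedOn_range
    (by rintro _ ⟨n, rfl⟩; exact ⟨hg n, hg0 n⟩) hB (fun η => by
      have h2 : {r : ℝ | ∃ d ∈ Set.range g, r = (⟪η, d η⟫_ℂ).re} =
          Set.range fun n => (⟪η, g n η⟫_ℂ).re := by
        ext t
        constructor
        · rintro ⟨_, ⟨n, rfl⟩, rfl⟩
          exact ⟨n, rfl⟩
        · rintro ⟨n, rfl⟩
          exact ⟨_, ⟨n, rfl⟩, rfl⟩
      rw [h2]
      exact hl η)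
  rw [h1, iSup_range]

end WtC

end Pool.Agent.Helper23.ED

end

section

open scoped InnerProductSpace Topology ENNReal BoundedContinuousFunction

open ContinuousLinearMap Filter MeasureTheory

namespace Pool.Agent.Helper23.ED

open Pool.Agent.Helper23 Pool.Agent.Helper23.RBF

universe u

variable {H : Type u} [NormedAddCommGroup H] [InnerProductSpace ℂ H] [CompleteSpace H]

variable {K : Type u} [NormedAddCommGroup K] [InnerProductSpace ℂ K] [CompleteSpace K]

variable {L : Type u} [NormedAddCommGroup L] [InnerProductSpace ℂ L] [CompleteSpace L]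

variable {N : VonNeumannAlgebra H} {ψ : (H →L[ℂ] H) → ℝ≥0∞} {ξ : H} {i : K →L[ℂ] H} {κ : K}
  {Λ : (H →L[ℂ] H) → L} {ρ : (H →L[ℂ] H) → (L →L[ℂ] L)}

namespace WtD

lemma base_mem {b : ℕ → H →L[ℂ] H} (hb : ∀ j, b j ∈ N) (j : ℕ) :
    (b (j + 1) - b j) * star (b (j + 1) - b j) ∈ N :=
  mul_mem (sub_mem (hb _) (hb _)) (star_mem (sub_mem (hb _) (hb _)))

end WtD

end Pool.Agent.Helper23.ED

end

section

open scoped InnerProductSpace Topology ENNReal BoundedContinuousFunction

open ContinuousLinearMap Filter MeasureTheory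

namespace Pool.Agent.Helper23.ED

open Pool.Agent.Helper23 Pool.Agent.Helper23.RBF

universe u

variable {H : Type u} [NormedAddCommGroup H] [InnerProductSpace ℂ H] [CompleteSpace H]

variable {K : Type u} [NormedAddCommGroup K] [InnerProductSpace ℂ K] [CompleteSpace K]

variable {L : Type u} [NormedAddCommGroup L] [InnerProductSpace ℂ L] [CompleteSpace L]

variable {N : VonNeumannAlgebra H} {ψ : (H →L[ℂ] H) → ℝ≥0∞} {ξ : H} {i : K →L[ℂ] H} {κ : K}
  {Λ : (H →L[ℂ] H) → L} {ρ : (H →L[ℂ] H) → (L →L[ℂ] L)}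

namespace WtE

lemma le_of_re {x y : H →L[ℂ] H} (hx : 0 ≤ x) (hy : 0 ≤ y)
    (h : ∀ v, (⟪v, x v⟫_ℂ).re ≤ (⟪v, y v⟫_ℂ).re) : x ≤ y := by
  rw [ContinuousLinearMap.le_def]
  have hx' := (ContinuousLinearMap.nonneg_iff_isPositive _).1 hx
  have hy' := (ContinuousLinearMap.nonneg_iff_isPositive _).1 hy
  have hs : IsSelfAdjoint (y - x) := hy'.isSelfAdjoint.sub hx'.isSelfAdjoint
  rw [ContinuousLinearMap.isPositive_def']
  refine ⟨hs, fun v => ?_⟩
  rw [ContinuousLinearMap.reApplyInnerSelf_apply]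
  have h1 := h v
  rw [sub_apply, inner_sub_left, map_sub]
  have e : ∀ z : H →L[ℂ] H, RCLike.re ⟪z v, v⟫_ℂ = (⟪v, z v⟫_ℂ).re := fun z =>
    inner_re_symm (𝕜 := ℂ) _ _
  rw [e, e]
  (clear * - h1; linarith)

end WtE

end Pool.Agent.Helper23.ED

end

section

open scoped InnerProductSpace Topology ENNReal BoundedContinuousFunction

open ContinuousLinearMap Filter MeasureTheory

namespace Pool.Agent.Helper23.ED

open Pool.Agent.Helper23 Pool.Agent.Helper23.RBF

universe u

open TopologicalSpace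

variable {H : Type*} [NormedAddCommGroup H] [InnerProductSpace ℂ H] [CompleteSpace H]

variable {N : VonNeumannAlgebra H} {ξ : H} {W : ℝ → H →L[ℂ] H}

namespace SlC

theorem norm_le_one {u : H →L[ℂ] H} (hu : star u * u = 1) : ‖u‖ ≤ 1 := by
  refine ContinuousLinearMap.opNorm_le_bound _ zero_le_one fun v => ?_
  have h1 : ‖u v‖ ^ 2 = ‖v‖ ^ 2 := by
    have h2 : ⟪u v, u v⟫_ℂ = ⟪v, v⟫_ℂ := by
      rw [← ContinuousLinearMap.adjoint_inner_right, ← ContinuousLinearMap.star_eq_adjoint]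
      congr 1
      exact congrArg (fun T : H →L[ℂ] H => T v) hu
    rw [inner_self_eq_norm_sq_to_K, inner_self_eq_norm_sq_to_K] at h2
    exact_mod_cast h2
  rw [one_mul]
  exact (sq_eq_sq₀ (norm_nonneg _) (norm_nonneg _)).1 h1 |>.le

end SlC

end Pool.Agent.Helper23.ED

end

section

open scoped InnerProductSpace Topology ENNReal BoundedContinuousFunction

open ContinuousLinearMap Filter MeasureTheory

namespace Pool.Agent.Helper23.ED

open Pool.Agent.Helper23 Pool.Agent.Helper23.RBF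

universe u

open TopologicalSpace

variable {H : Type*} [NormedAddCommGroup H] [InnerProductSpace ℂ H] [CompleteSpace H]

variable {N : VonNeumannAlgebra H} {ξ : H} {W : ℝ → H →L[ℂ] H}

namespace WuA

lemma norm_le_one {s : H →L[ℂ] H} (h : star s * s = 1) : ‖s‖ ≤ 1 := by
  have h1 : ‖s‖ * ‖s‖ ≤ 1 := by
    rw [← CStarRing.norm_star_mul_self, h]
    exact ContinuousLinearMap.norm_id_le
  (clear * - h1; nlinarith [norm_nonneg s])

end WuA

end Pool.Agent.Helper23.ED

end

section

open scoped InnerProductSpace Topology ENNReal BoundedContinuousFunction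

open ContinuousLinearMap Filter MeasureTheory

namespace Pool.Agent.Helper23.ED

open Pool.Agent.Helper23 Pool.Agent.Helper23.RBF

universe u

open TopologicalSpace

variable {H : Type*} [NormedAddCommGroup H] [InnerProductSpace ℂ H] [CompleteSpace H]

variable {N : VonNeumannAlgebra H} {ξ : H} {V c : ℝ → H →L[ℂ] H} {ψ : (H →L[ℂ] H) → ℝ≥0∞}

namespace WuB

/-- joint continuity of the product of two bounded strongly continuous fields -/
lemma cont_comp {S T : ℝ → H →L[ℂ] H} (hS1 : ∀ t, ‖S t‖ ≤ 1)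
    (hS : ∀ v, Continuous fun t => S t v) (hT : ∀ v, Continuous fun t => T t v) (v : H) :
    Continuous fun t => S t (T t v) := by
  have h1 : Continuous (fun p : ℝ × H => S p.1 p.2) := by
    refine continuous_prod_of_continuous_lipschitzWith' (fun p : ℝ × H => S p.1 p.2) 1 ?_ hS
    intro s
    refine LipschitzWith.of_dist_le_mul fun x y => ?_
    rw [dist_eq_norm, dist_eq_norm, ← map_sub, NNReal.coe_one]
    exact (S s).le_of_opNorm_le (hS1 s) _
  exact h1.comp (continuous_id.prodMk (hT v))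

end WuB

end Pool.Agent.Helper23.ED

end

end

section

section

open scoped InnerProductSpace Topology ENNReal

open ContinuousLinearMap Filter MeasureTheory

set_option linter.unusedSectionVars false

set_option linter.unusedVariables false

namespace Pool.Agent.Helper23

variable {H : Type*} [NormedAddCommGroup H] [InnerProductSpace ℂ H] [CompleteSpace H]

variable {M N : VonNeumannAlgebra H} {ξ : H} {E : (H →L[ℂ] H) → (H →L[ℂ] H)}

/-- cut off exponential on `[-n, n)` -/
noncomputable def he (n : ℕ) (s : ℝ) : ℂ :=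
  Set.indicator (Set.Ico (-(n : ℝ)) n) (fun s => ((Real.exp s : ℝ) : ℂ)) s

end Pool.Agent.Helper23

end

end

section

section

open scoped InnerProductSpace Topology ENNReal

open ContinuousLinearMap Filter MeasureTheory

set_option linter.unusedSectionVars false

set_option linter.unusedVariables false

namespace Pool.Agent.Helper23

variable {H : Type*} [NormedAddCommGroup H] [InnerProductSpace ℂ H] [CompleteSpace H]

variable {M N : VonNeumannAlgebra H} {ξ : H} {E : (H →L[ℂ] H) → (H →L[ℂ] H)}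

lemma two_mul_ofReal (x : ℝ) : 2 * ENNReal.ofReal x = ENNReal.ofReal (2 * x) := by
  rw [ENNReal.ofReal_mul (by norm_num)]
  norm_num

end Pool.Agent.Helper23

end

end

section

section

open scoped InnerProductSpace Topology ENNReal

open ContinuousLinearMap Filter MeasureTheory Polynomial

set_option linter.unusedSectionVars false

set_option linter.unusedVariables false

namespace Pool.Agent.Helper23

variable {H : Type*} [NormedAddCommGroup H] [InnerProductSpace ℂ H] [CompleteSpace H]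

variable {M N : VonNeumannAlgebra H} {ξ : H} {E : (H →L[ℂ] H) → (H →L[ℂ] H)}

lemma he_of_mem {n : ℕ} {s : ℝ} (h : s ∈ Set.Ico (-(n : ℝ)) n) :
    he n s = ((Real.exp s : ℝ) : ℂ) := Set.indicator_of_mem h _

end Pool.Agent.Helper23

end

section

open scoped InnerProductSpace Topology ENNReal

open ContinuousLinearMap Filter MeasureTheory

set_option linter.unusedSectionVars false

set_option linter.unusedVariables false

namespace Pool.Agent.Helper23

variable {H : Type*} [NormedAddCommGroup H] [InnerProductSpace ℂ H] [CompleteSpace H]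

variable {M N : VonNeumannAlgebra H} {ξ : H} {E : (H →L[ℂ] H) → (H →L[ℂ] H)}

namespace GKW

lemma he_conj (n : ℕ) : (fun s => (starRingEnd ℂ) (he n s)) = he n := by
  funext s
  by_cases h : s ∈ Set.Ico (-(n : ℝ)) n
  · rw [he, Set.indicator_of_mem h, Complex.conj_ofReal]
  · rw [he, Set.indicator_of_notMem h, map_zero]

end GKW

end Pool.Agent.Helper23

end

end

section

section

open scoped InnerProductSpace Topology BoundedContinuousFunction FourierTransform ENNReal

open ContinuousLinearMap Filter MeasureTheory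

set_option linter.unusedSectionVars false

namespace Pool.Agent.Helper23

variable {H : Type*} [NormedAddCommGroup H] [InnerProductSpace ℂ H] [CompleteSpace H]

lemma he_of_notMem {m : ℕ} {s : ℝ} (h : s ∉ Set.Ico (-(m : ℝ)) m) :
    he m s = 0 := Set.indicator_of_notMem h _

end Pool.Agent.Helper23

end

end

section

section

open scoped InnerProductSpace Topology BoundedContinuousFunction CompactlySupported

open ContinuousLinearMap Filter MeasureTheory

namespace Pool.Agent.Helper88.CS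

open Pool.Agent.Helper23

variable {H : Type*} [NormedAddCommGroup H] [InnerProductSpace ℂ H] [CompleteSpace H]

variable {A : VonNeumannAlgebra H} {J : H →L[ℝ] H} {κ : H}

namespace Trick1Aux

lemma meas_layer {μ : Measure ℂ} (f : ℂ → ℝ) : Measurable (fun u : ℝ => μ {z | u < f z}) := by
  apply Antitone.measurable
  intro u v huv
  apply measure_mono
  intro z hz
  exact huv.trans_lt hz

/-- the integrated inequality -/
lemma layer {μ : Measure ℂ} [IsFiniteMeasure μ] {al be ga gb : ℂ → ℝ} {c : ℝ} (hc : 0 ≤ c)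
    (h1 : Integrable al μ) (h2 : Integrable be μ) (h3 : Integrable ga μ) (h4 : Integrable gb μ)
    (n1 : ∀ z, 0 ≤ al z) (n2 : ∀ z, 0 ≤ be z) (n3 : ∀ z, 0 ≤ ga z) (n4 : ∀ z, 0 ≤ gb z)
    (h : ∀ u : ℝ, 0 < u → c * μ.real {z | u < al z} + 2 * μ.real {z | u < ga z} ≤
      μ.real {z | u < al z} + μ.real {z | u < be z} + 2 * μ.real {z | u < gb z}) :
    c * ∫ z, al z ∂μ + 2 * ∫ z, ga z ∂μ ≤ ∫ z, al z ∂μ + ∫ z, be z ∂μ + 2 * ∫ z, gb z ∂μ := by
  have key : ∀ u : ℝ, 0 < u → ENNReal.ofReal c * μ {z | u < al z} + 2 * μ {z | u < ga z} ≤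
      μ {z | u < al z} + μ {z | u < be z} + 2 * μ {z | u < gb z} := by
    intro u hu
    have f1 : ∀ s : Set ℂ, μ s ≠ ⊤ := fun s => measure_ne_top μ s
    have f2 : ∀ s : Set ℂ, ENNReal.ofReal (μ.real s) = μ s := fun s =>
      ENNReal.ofReal_toReal (f1 s)
    have h5 := ENNReal.ofReal_le_ofReal (h u hu)
    rw [ENNReal.ofReal_add (by (clear * - hc; positivity)) (by (clear * -; positivity)),
      ENNReal.ofReal_add (by (clear * -; positivity)) (by (clear * -; positivity)),
      ENNReal.ofReal_add (by positivity) (by (clear * -; positivity)),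
      ENNReal.ofReal_mul hc, ENNReal.ofReal_mul (by norm_num), ENNReal.ofReal_mul (by norm_num),
      f2, f2, f2, f2] at h5
    simpa using h5
  have key2 : ∫⁻ u in Set.Ioi (0 : ℝ), (ENNReal.ofReal c * μ {z | u < al z} +
        2 * μ {z | u < ga z}) ≤
      ∫⁻ u in Set.Ioi (0 : ℝ), (μ {z | u < al z} + μ {z | u < be z} + 2 * μ {z | u < gb z}) := by
    apply lintegral_mono_ae
    filter_upwards [ae_restrict_mem measurableSet_Ioi] with u hu
    exact key u hu
  rw [lintegral_add_left ((meas_layer al).const_mul _),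
    lintegral_add_left (f := fun u => μ {z | u < al z} + μ {z | u < be z})
      ((meas_layer al).add (meas_layer be)),
    lintegral_add_left (meas_layer al), lintegral_const_mul _ (meas_layer al),
    lintegral_const_mul _ (meas_layer ga), lintegral_const_mul _ (meas_layer gb)] at key2
  have L : ∀ f : ℂ → ℝ, Integrable f μ → (∀ z, 0 ≤ f z) →
      ∫⁻ u in Set.Ioi (0 : ℝ), μ {z | u < f z} = ENNReal.ofReal (∫ z, f z ∂μ) := by
    intro f hf hf0
    rw [← lintegral_eq_lintegral_meas_lt μ (Filter.Eventually.of_forall hf0) hf.aemeasurable,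
      ← ofReal_integral_eq_lintegral_ofReal hf (Filter.Eventually.of_forall hf0)]
  rw [L al h1 n1, L be h2 n2, L ga h3 n3, L gb h4 n4] at key2
  have i1 : 0 ≤ ∫ z, al z ∂μ := integral_nonneg n1
  have i2 : 0 ≤ ∫ z, be z ∂μ := integral_nonneg n2
  have i3 : 0 ≤ ∫ z, ga z ∂μ := integral_nonneg n3
  have i4 : 0 ≤ ∫ z, gb z ∂μ := integral_nonneg n4
  have e2 : (2 : ENNReal) = ENNReal.ofReal 2 := by simp
  rw [e2, ← ENNReal.ofReal_mul hc, ← ENNReal.ofReal_mul (by norm_num),
    ← ENNReal.ofReal_mul (by norm_num), ← ENNReal.ofReal_add (by (clear * - hc i1; positivity)) (by (clear * - i3; positivity)),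
    ← ENNReal.ofReal_add (by (clear * - i1; positivity)) (by (clear * - i2; positivity)),
    ← ENNReal.ofReal_add (by (clear * - i1 i2; positivity)) (by (clear * - i4; positivity)),
    ENNReal.ofReal_le_ofReal_iff (by (clear * - i1 i2 i4; positivity))] at key2
  exact key2

end Trick1Aux

end Pool.Agent.Helper88.CS

end

end
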