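import Pool.Agent.Helper23.FB.Inst

/-!
Parts of Helper23.FA.L00_02, Helper23.FA.L00_11, Helper23.FA.L01_07, Helper23.FA.L01_13, Helper23.FA.L00_03, Helper23.FA.L01_00, Helper23.FA.L01_11
-/

attribute [local instance 5000]
  Pool.Agent.Helper23.FB.Inst.rCharZero Pool.Agent.Helper23.FB.Inst.rALM
  Pool.Agent.Helper23.FB.Inst.rARM Pool.Agent.Helper23.FB.Inst.rALSM
  Pool.Agent.Helper23.FB.Inst.rARSM Pool.Agent.Helper23.FB.Inst.rARRLE
  Pool.Agent.Helper23.FB.Inst.rALRLE Pool.Agent.Helper23.FB.Inst.rARRLT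
  Pool.Agent.Helper23.FB.Inst.rALRLT Pool.Agent.Helper23.FB.Inst.rPMRLT
  Pool.Agent.Helper23.FB.Inst.rMPRLT Pool.Agent.Helper23.FB.Inst.rPMM
  Pool.Agent.Helper23.FB.Inst.rMPM Pool.Agent.Helper23.FB.Inst.rPMSM
  Pool.Agent.Helper23.FB.Inst.rMPSM Pool.Agent.Helper23.FB.Inst.rEAOL
  Pool.Agent.Helper23.FB.Inst.rIOR Pool.Agent.Helper23.FB.Inst.rISOR
  Pool.Agent.Helper23.FB.Inst.rFS Pool.Agent.Helper23.FB.Inst.rcCharZero
  Pool.Agent.Helper23.FB.Inst.rNZD Pool.Agent.Helper23.FB.Inst.rcNZD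
  Pool.Agent.Helper23.FB.Inst.bSemiring Pool.Agent.Helper23.FB.Inst.bStar
  Pool.Agent.Helper23.FB.Inst.bAlg Pool.Agent.Helper23.FB.Inst.bSub
  Pool.Agent.Helper23.FB.Inst.bMul Pool.Agent.Helper23.FB.Inst.bAdd
  Pool.Agent.Helper23.FB.Inst.iRing Pool.Agent.Helper23.FB.Inst.iSemiring
  Pool.Agent.Helper23.FB.Inst.iAlgC Pool.Agent.Helper23.FB.Inst.iSMulC
  Pool.Agent.Helper23.FB.Inst.iModC Pool.Agent.Helper23.FB.Inst.iAlgR
  Pool.Agent.Helper23.FB.Inst.iSMulR Pool.Agent.Helper23.FB.Inst.iModR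
  Pool.Agent.Helper23.FB.Inst.iMonoid Pool.Agent.Helper23.FB.Inst.iSemigroup
  Pool.Agent.Helper23.FB.Inst.iMulOneClass Pool.Agent.Helper23.FB.Inst.iMul
  Pool.Agent.Helper23.FB.Inst.iAdd Pool.Agent.Helper23.FB.Inst.iSub
  Pool.Agent.Helper23.FB.Inst.iNeg Pool.Agent.Helper23.FB.Inst.iAddCommMonoid
  Pool.Agent.Helper23.FB.Inst.iAddCommGroup Pool.Agent.Helper23.FB.Inst.iAddGroup
  Pool.Agent.Helper23.FB.Inst.iAddMonoid Pool.Agent.Helper23.FB.Inst.iSMulZeroC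
  Pool.Agent.Helper23.FB.Inst.iMulActC Pool.Agent.Helper23.FB.Inst.iDSMulC
  Pool.Agent.Helper23.FB.Inst.iDSMulR Pool.Agent.Helper23.FB.Inst.iSNAG
  Pool.Agent.Helper23.FB.Inst.iSNACG Pool.Agent.Helper23.FB.Inst.iNorm
  Pool.Agent.Helper23.FB.Inst.iNSC' Pool.Agent.Helper23.FB.Inst.iNSR'
  Pool.Agent.Helper23.FB.Inst.iTop Pool.Agent.Helper23.FB.Inst.iT2 Pool.Agent.Helper23.FB.Inst.iTR
  Pool.Agent.Helper23.FB.Inst.iSCC Pool.Agent.Helper23.FB.Inst.iIST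
  Pool.Agent.Helper23.FB.Inst.iSCCR Pool.Agent.Helper23.FB.Inst.iISTR
  Pool.Agent.Helper23.FB.Inst.iZHC Pool.Agent.Helper23.FB.Inst.iAHC
  Pool.Agent.Helper23.FB.Inst.iAMHC Pool.Agent.Helper23.FB.Inst.iMAHC
  Pool.Agent.Helper23.FB.Inst.lTop Pool.Agent.Helper23.FB.Inst.lUnif
  Pool.Agent.Helper23.FB.Inst.lACM Pool.Agent.Helper23.FB.Inst.lACG
  Pool.Agent.Helper23.FB.Inst.lSNAG Pool.Agent.Helper23.FB.Inst.lSNACG
  Pool.Agent.Helper23.FB.Inst.lNACG Pool.Agent.Helper23.FB.Inst.lNorm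
  Pool.Agent.Helper23.FB.Inst.lIPS Pool.Agent.Helper23.FB.Inst.lMod
  Pool.Agent.Helper23.FB.Inst.lSMul Pool.Agent.Helper23.FB.Inst.lT2
  Pool.Agent.Helper23.FB.Inst.iStar Pool.Agent.Helper23.FB.Inst.iStarMul
  Pool.Agent.Helper23.FB.Inst.iStarAddMonoid Pool.Agent.Helper23.FB.Inst.iStarRing
  Pool.Agent.Helper23.FB.Inst.iNSC Pool.Agent.Helper23.FB.Inst.iSOR
  Pool.Agent.Helper23.FB.Inst.iALM Pool.Agent.Helper23.FB.Inst.iARM
  Pool.Agent.Helper23.FB.Inst.iCFC Pool.Agent.Helper23.FB.Inst.iNCFC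
  Pool.Agent.Helper23.FB.Inst.iStarModR Pool.Agent.Helper23.FB.Inst.iStarModC
  Pool.Agent.Helper23.FB.Inst.eStar Pool.Agent.Helper23.FB.Inst.eAdd
  Pool.Agent.Helper23.FB.Inst.eMul Pool.Agent.Helper23.FB.Inst.eOne
  Pool.Agent.Helper23.FB.Inst.eZero Pool.Agent.Helper23.FB.Inst.eMulAction
  Pool.Agent.Helper23.FB.Inst.eAMHC2 Pool.Agent.Helper23.FB.Inst.eZHC2
  Pool.Agent.Helper23.FB.Inst.lAMHC

namespace Pool.Agent.Helper23
end Pool.Agent.Helper23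

section

section

open scoped InnerProductSpace

open ContinuousLinearMap

namespace Pool.Agent.Helper23

variable {H : Type*} [NormedAddCommGroup H] [InnerProductSpace ℂ H] [CompleteSpace H]

lemma mem_comm_iff {A : VonNeumannAlgebra H} {z : H →L[ℂ] H} :
    z ∈ A.commutant ↔ ∀ g ∈ A, g * z = z * g := VonNeumannAlgebra.mem_commutant_iff

lemma mem_iff_commutes {A : VonNeumannAlgebra H} {z : H →L[ℂ] H} :
    z ∈ A ↔ ∀ g ∈ A.commutant, g * z = z * g := by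
  conv_lhs => rw [← A.commutant_commutant]
  exact mem_comm_iff

lemma commute_apply {A : VonNeumannAlgebra H} {a y : H →L[ℂ] H} (ha : a ∈ A)
    (hy : y ∈ A.commutant) (η : H) : a (y η) = y (a η) := by
  have := mem_comm_iff.1 hy a ha
  exact congrArg (fun T : H →L[ℂ] H => T η) this

/-- The orbit of a vector under a von Neumann algebra, as a submodule. -/
def orb (A : VonNeumannAlgebra H) (ξ : H) : Submodule ℂ H where
  carrier := {x | ∃ a ∈ A, a ξ = x}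
  add_mem' := by
    rintro _ _ ⟨a, ha, rfl⟩ ⟨b, hb, rfl⟩
    exact ⟨a + b, add_mem ha hb, rfl⟩
  zero_mem' := ⟨0, zero_mem A, rfl⟩
  smul_mem' := by
    rintro c _ ⟨a, ha, rfl⟩
    exact ⟨c • a, A.toStarSubalgebra.smul_mem ha c, rfl⟩

lemma smul_mem' {A : VonNeumannAlgebra H} {a : H →L[ℂ] H} (c : ℂ) (ha : a ∈ A) : c • a ∈ A :=
  A.toStarSubalgebra.smul_mem ha c

/-- evaluation at a vector as a linear map on the algebra. -/
def evL (A : VonNeumannAlgebra H) (ξ : H) : A.toStarSubalgebra →ₗ[ℂ] H where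
  toFun a := (a : H →L[ℂ] H) ξ
  map_add' _ _ := rfl
  map_smul' _ _ := rfl

/-- A vector `η` dominated by `ξ` along `A` comes from an operator of the commutant. -/
theorem exists_op (A : VonNeumannAlgebra H) {ξ η : H} {C : ℝ} (hC : 0 ≤ C)
    (hd : Dense (orb A ξ : Set H)) (hb : ∀ a ∈ A, ‖a η‖ ≤ C * ‖a ξ‖) :
    ∃ y ∈ A.commutant, (∀ a ∈ A, y (a ξ) = a η) ∧ ‖y‖ ≤ C := by
  have hdr : DenseRange (evL A ξ) := by
    have : Set.range (evL A ξ) = (orb A ξ : Set H) := by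
      ext x
      constructor
      · rintro ⟨a, rfl⟩
        exact ⟨a, a.2, rfl⟩
      · rintro ⟨a, ha, rfl⟩
        exact ⟨⟨a, ha⟩, rfl⟩
    rw [DenseRange, this]
    exact hd
  have hnorm : ∀ a : A.toStarSubalgebra, ‖evL A η a‖ ≤ C * ‖evL A ξ a‖ := fun a => hb a a.2
  set y := (evL A η).extendOfNorm (evL A ξ) with hy
  have hyeq : ∀ a ∈ A, y (a ξ) = a η := fun a ha =>
    LinearMap.extendOfNorm_eq hdr ⟨C, hnorm⟩ ⟨a, ha⟩
  refine ⟨y, ?_, hyeq, LinearMap.opNorm_extendOfNorm_le hdr hC hnorm⟩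
  rw [mem_comm_iff]
  intro g hg
  apply ContinuousLinearMap.ext
  have hcl : IsClosed {x : H | (g * y) x = (y * g) x} :=
    isClosed_eq (g * y).continuous (y * g).continuous
  have hsub : (orb A ξ : Set H) ⊆ {x : H | (g * y) x = (y * g) x} := by
    rintro _ ⟨a, ha, rfl⟩
    change g (y (a ξ)) = y (g (a ξ))
    rw [hyeq a ha]
    have := hyeq (g * a) (mul_mem hg ha)
    exact this.symm
  intro x
  have := closure_minimal hsub hcl
  exact this (hd x)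

/-- The projection onto the closure of an orbit lies in the commutant. -/
lemma proj_orb_mem (A : VonNeumannAlgebra H) (ξ : H) :
    (orb A ξ).topologicalClosure.starProjection ∈ A.commutant := by
  have hsp : IsStarProjection (orb A ξ).topologicalClosure.starProjection :=
    isStarProjection_starProjection
  rw [VonNeumannAlgebra.IsStarProjection.mem_iff hsp]
  intro y hy
  rw [VonNeumannAlgebra.commutant_commutant] at hy
  rw [Submodule.range_starProjection]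
  rw [Module.End.mem_invtSubmodule]
  intro x hx
  rw [Submodule.mem_comap]
  have h1 : (orb A ξ : Set H) ⊆ y ⁻¹' ((orb A ξ).topologicalClosure : Set H) := by
    rintro _ ⟨a, ha, rfl⟩
    exact Submodule.le_topologicalClosure _ ⟨y * a, mul_mem hy ha, rfl⟩
  have h2 : closure (orb A ξ : Set H) ⊆ y ⁻¹' ((orb A ξ).topologicalClosure : Set H) :=
    closure_minimal h1 ((Submodule.isClosed_topologicalClosure _).preimage y.continuous)
  exact h2 hx

end Pool.Agent.Helper23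

end

section

open scoped InnerProductSpace

open ContinuousLinearMap

namespace Pool.Agent.Helper23

variable {H : Type*} [NormedAddCommGroup H] [InnerProductSpace ℂ H] [CompleteSpace H]

lemma inner_star_left (a : H →L[ℂ] H) (x y : H) : ⟪(star a) x, y⟫_ℂ = ⟪x, a y⟫_ℂ := by
  rw [ContinuousLinearMap.star_eq_adjoint, ContinuousLinearMap.adjoint_inner_left]

lemma inner_star_right (a : H →L[ℂ] H) (x y : H) : ⟪x, (star a) y⟫_ℂ = ⟪a x, y⟫_ℂ := by
  rw [ContinuousLinearMap.star_eq_adjoint, ContinuousLinearMap.adjoint_inner_right]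

lemma norm_sq_apply (a : H →L[ℂ] H) (x : H) : ((‖a x‖ ^ 2 : ℝ) : ℂ) = ⟪x, (star a) (a x)⟫_ℂ := by
  rw [inner_star_right, inner_self_eq_norm_sq_to_K]
  norm_cast

/-- The eigenoperators with eigenvalue `γ` of the vector state given by `ξ` on `N`:
`a ∈ N` with `φ(x a) = γ φ(a x)` for all `x ∈ N`, where `φ(x) = ⟪ξ, x ξ⟫`. -/
def eig (N : VonNeumannAlgebra H) (ξ : H) (γ : ℝ) : Submodule ℂ (H →L[ℂ] H) where
  carrier := {a | a ∈ N ∧ ∀ x ∈ N, ⟪ξ, x (a ξ)⟫_ℂ = γ * ⟪ξ, a (x ξ)⟫_ℂ}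
  add_mem' := by
    rintro a b ⟨ha, ha'⟩ ⟨hb, hb'⟩
    refine ⟨add_mem ha hb, fun x hx => ?_⟩
    simp only [add_apply, map_add, inner_add_right, ha' x hx, hb' x hx]
    ring
  zero_mem' := ⟨zero_mem N, fun x _ => by simp⟩
  smul_mem' := by
    rintro c a ⟨ha, ha'⟩
    refine ⟨smul_mem' c ha, fun x hx => ?_⟩
    simp only [FunLike.coe_smul, Pi.smul_apply, map_smul, inner_smul_right, ha' x hx]
    ring

variable {M N : VonNeumannAlgebra H} {ξ : H} {E : (H →L[ℂ] H) → (H →L[ℂ] H)}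

lemma eig_star {γ : ℝ} (hγ : γ ≠ 0) {a : H →L[ℂ] H} (ha : a ∈ eig N ξ γ) :
    star a ∈ eig N ξ γ⁻¹ := by
  refine ⟨star_mem ha.1, fun x hx => ?_⟩
  have h := ha.2 (star x) (star_mem hx)
  -- h : ⟪ξ, x* a ξ⟫ = γ ⟪ξ, a x* ξ⟫
  rw [inner_star_right] at h
  have h2 : ⟪ξ, a ((star x) ξ)⟫_ℂ = ⟪(star a) ξ, (star x) ξ⟫_ℂ := by rw [inner_star_left]
  rw [h2, inner_star_right] at h
  -- h : ⟪x ξ, a ξ⟫ = γ ⟪x a* ξ, ξ⟫
  have h3 : ⟪ξ, (star a) (x ξ)⟫_ℂ = ⟪a ξ, x ξ⟫_ℂ := inner_star_right _ _ _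
  rw [h3, ← inner_conj_symm, ← inner_conj_symm (a ξ), h]
  have hγ' : (γ : ℂ) ≠ 0 := by exact_mod_cast hγ
  simp only [map_mul, Complex.conj_ofReal, inner_conj_symm]
  push_cast
  field_simp

lemma eig_mul {γ δ : ℝ} {a b : H →L[ℂ] H} (ha : a ∈ eig N ξ γ) (hb : b ∈ eig N ξ δ) :
    a * b ∈ eig N ξ (γ * δ) := by
  refine ⟨mul_mem ha.1 hb.1, fun x hx => ?_⟩
  have h1 := hb.2 (x * a) (mul_mem hx ha.1)
  have h2 := ha.2 (b * x) (mul_mem hb.1 hx)
  change ⟪ξ, x (a (b ξ))⟫_ℂ = _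
  change ⟪ξ, x (a (b ξ))⟫_ℂ = δ * ⟪ξ, b (x (a ξ))⟫_ℂ at h1
  change ⟪ξ, b (x (a ξ))⟫_ℂ = γ * ⟪ξ, a (b (x ξ))⟫_ℂ at h2
  rw [h1, h2]
  change _ = _ * ⟪ξ, a (b (x ξ))⟫_ℂ
  push_cast
  ring

lemma one_mem_eig : (1 : H →L[ℂ] H) ∈ eig N ξ 1 := by
  refine ⟨one_mem N, fun x _ => ?_⟩
  simp

lemma algebraMap_mem_eig (c : ℂ) : algebraMap ℂ (H →L[ℂ] H) c ∈ eig N ξ 1 := by
  rw [Algebra.algebraMap_eq_smul_one]
  exact Submodule.smul_mem _ _ one_mem_eig

/-- The centralizer `N_φ` of the state, as a star subalgebra. -/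
def cent (N : VonNeumannAlgebra H) (ξ : H) : StarSubalgebra ℂ (H →L[ℂ] H) where
  carrier := eig N ξ 1
  mul_mem' := by
    intro a b ha hb
    have := eig_mul ha hb
    rwa [mul_one] at this
  add_mem' := fun ha hb => add_mem ha hb
  algebraMap_mem' := algebraMap_mem_eig
  star_mem' := by
    intro a ha
    have := eig_star one_ne_zero ha
    rwa [inv_one] at this

lemma vN_isClosed (A : VonNeumannAlgebra H) : IsClosed (A : Set (H →L[ℂ] H)) := by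
  rw [← A.commutant_commutant, VonNeumannAlgebra.coe_commutant]
  exact Set.isClosed_centralizer _

lemma eig_isClosed (γ : ℝ) : IsClosed (eig N ξ γ : Set (H →L[ℂ] H)) := by
  have : (eig N ξ γ : Set (H →L[ℂ] H)) = (N : Set (H →L[ℂ] H)) ∩
      ⋂ x ∈ N, {a : H →L[ℂ] H | ⟪ξ, x (a ξ)⟫_ℂ = γ * ⟪ξ, a (x ξ)⟫_ℂ} := by
    ext a
    simp only [Set.mem_inter_iff, Set.mem_iInter]
    rfl
  rw [this]
  refine (vN_isClosed N).inter (isClosed_biInter fun x _ => isClosed_eq ?_ ?_)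
  · fun_prop
  · fun_prop

instance instClosedCent : IsClosed (cent N ξ : Set (H →L[ℂ] H)) := eig_isClosed 1

/-- The basic setting: an inclusion `N ⊆ M` with conditional expectation `E`, represented so that
the state `φ ∘ E` is the vector state of a cyclic and separating unit vector `ξ` for `M`. -/
structure Setting (M N : VonNeumannAlgebra H) (E : (H →L[ℂ] H) → (H →L[ℂ] H)) (ξ : H) :
    Prop where
  le : ∀ x ∈ N, x ∈ M
  norm_one : ‖ξ‖ = 1
  cyc : Dense (orb M ξ : Set H)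
  sep : ∀ a ∈ M, a ξ = 0 → a = 0
  E_mem : ∀ x ∈ M, E x ∈ N
  E_bimod : ∀ a ∈ N, ∀ b ∈ N, ∀ x ∈ M, E (a * x * b) = a * E x * b
  E_fix : ∀ x ∈ N, E x = x
  E_state : ∀ x ∈ M, ⟪ξ, E x ξ⟫_ℂ = ⟪ξ, x ξ⟫_ℂ

namespace Setting

variable (S : Setting M N E ξ)

include S

/-- Eigenoperators satisfy the eigenrelation against all of `M`. -/
lemma eigM {γ : ℝ} {a : H →L[ℂ] H} (ha : a ∈ eig N ξ γ) {x : H →L[ℂ] H} (hx : x ∈ M) :
    ⟪ξ, x (a ξ)⟫_ℂ = γ * ⟪ξ, a (x ξ)⟫_ℂ := by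
  have h1 := S.E_state (1 * x * a) (mul_mem (mul_mem (one_mem M) hx) (S.le a ha.1))
  rw [S.E_bimod _ (one_mem N) _ ha.1 _ hx] at h1
  have h2 := S.E_state (a * x * 1) (mul_mem (mul_mem (S.le a ha.1) hx) (one_mem M))
  rw [S.E_bimod _ ha.1 _ (one_mem N) _ hx] at h2
  have h3 := ha.2 (E x) (S.E_mem x hx)
  simp only [one_mul, mul_one] at h1 h2
  change ⟪ξ, E x (a ξ)⟫_ℂ = ⟪ξ, x (a ξ)⟫_ℂ at h1
  change ⟪ξ, a (E x ξ)⟫_ℂ = ⟪ξ, a (x ξ)⟫_ℂ at h2
  rw [← h1, h3, h2]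

/-- unitaries of the centralizer act isometrically from the right -/
lemma norm_right_unitary {u y : H →L[ℂ] H} (hu : u ∈ eig N ξ 1) (hu' : u * star u = 1)
    (hy : y ∈ M) : ‖y (u ξ)‖ = ‖y ξ‖ := by
  have h := S.eigM hu (x := star u * (star y * y))
    (mul_mem (star_mem (S.le u hu.1)) (mul_mem (star_mem hy) hy))
  change ⟪ξ, (star u) ((star y) (y (u ξ)))⟫_ℂ = _ * ⟪ξ, (u * star u) ((star y) (y ξ))⟫_ℂ at h
  rw [hu', inner_star_right, inner_star_right] at h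
  simp only [Complex.ofReal_one, one_mul, one_apply_eq_self] at h
  rw [inner_star_right, inner_self_eq_norm_sq_to_K, inner_self_eq_norm_sq_to_K] at h
  have h2 : ‖y (u ξ)‖ ^ 2 = ‖y ξ‖ ^ 2 := by exact_mod_cast h
  exact (pow_left_inj₀ (norm_nonneg _) (norm_nonneg _) two_ne_zero).1 h2

lemma norm_right_cent {c y : H →L[ℂ] H} (hc : c ∈ eig N ξ 1) (hy : y ∈ M) :
    ‖y (c ξ)‖ ≤ 2 * ‖c‖ * ‖y ξ‖ := by
  obtain ⟨u, k, hk, hkn⟩ := CStarAlgebra.exists_sum_four_unitary (⟨c, hc⟩ : cent N ξ)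
  have hc' : c = ∑ i, k i • ((u i : cent N ξ) : H →L[ℂ] H) := by
    have := congrArg (fun z : cent N ξ => (z : H →L[ℂ] H)) hk
    simpa using this
  have hnorm : ∀ i, ‖y (((u i : cent N ξ) : H →L[ℂ] H) ξ)‖ = ‖y ξ‖ := by
    intro i
    refine S.norm_right_unitary (u i : cent N ξ).2 ?_ hy
    have := Unitary.mul_star_self_of_mem (u i).2
    exact congrArg (fun z : cent N ξ => (z : H →L[ℂ] H)) this
  have e1 : y (c ξ) = ∑ i, k i • y (((u i : cent N ξ) : H →L[ℂ] H) ξ) := by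
    rw [hc']
    simp only [sum_apply, FunLike.coe_smul, Pi.smul_apply, map_sum, map_smul]
  have hkn' : ∀ i, ‖k i‖ ≤ ‖c‖ / 2 := hkn
  calc ‖y (c ξ)‖ ≤ ∑ i, ‖k i • y (((u i : cent N ξ) : H →L[ℂ] H) ξ)‖ := by
        rw [e1]; exact norm_sum_le _ _
    _ ≤ ∑ _i : Fin 4, ‖c‖ / 2 * ‖y ξ‖ := by
        refine Finset.sum_le_sum fun i _ => ?_
        rw [norm_smul, hnorm]
        gcongr
        exact hkn' i
    _ = 2 * ‖c‖ * ‖y ξ‖ := by
        simp only [Finset.sum_const, Finset.card_univ, Fintype.card_fin, nsmul_eq_mul]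
        push_cast
        ring

lemma norm_right_eig_sq {γ : ℝ} {a y : H →L[ℂ] H} (ha : a ∈ eig N ξ γ) (hy : y ∈ M) :
    ((‖y (a ξ)‖ ^ 2 : ℝ) : ℂ) = γ * ⟪y ((a * star a) ξ), y ξ⟫_ℂ := by
  have h := S.eigM ha (x := star a * (star y * y))
    (mul_mem (star_mem (S.le a ha.1)) (mul_mem (star_mem hy) hy))
  change ⟪ξ, (star a) ((star y) (y (a ξ)))⟫_ℂ = _ * ⟪ξ, (a * star a) ((star y) (y ξ))⟫_ℂ at h
  rw [inner_star_right, inner_star_right, inner_self_eq_norm_sq_to_K] at h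
  have h3 : ⟪ξ, (a * star a) ((star y) (y ξ))⟫_ℂ = ⟪y ((a * star a) ξ), y ξ⟫_ℂ := by
    rw [← inner_star_left, star_mul, star_star, inner_star_right]
  rw [h3] at h
  push_cast
  exact h

end Setting

end Pool.Agent.Helper23

end

section

open scoped InnerProductSpace TensorProduct

open ContinuousLinearMap

namespace Pool.Agent.Helper23

variable {H : Type*} [NormedAddCommGroup H] [InnerProductSpace ℂ H] [CompleteSpace H]

variable {M N : VonNeumannAlgebra H} {ξ : H} {E : (H →L[ℂ] H) → (H →L[ℂ] H)}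

instance instClosedVN (A : VonNeumannAlgebra H) :
    IsClosed (A.toStarSubalgebra : Set (H →L[ℂ] H)) := vN_isClosed A

end Pool.Agent.Helper23

end

section

open scoped InnerProductSpace

open ContinuousLinearMap Filter

namespace Pool.Agent.Helper23

variable {H : Type*} [NormedAddCommGroup H] [InnerProductSpace ℂ H] [CompleteSpace H]

variable {M N : VonNeumannAlgebra H} {ξ : H} {E : (H →L[ℂ] H) → (H →L[ℂ] H)}

/-- unitaries of the centralizer -/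
def Ucent (N : VonNeumannAlgebra H) (ξ : H) : Set (H →L[ℂ] H) :=
  {u | u ∈ eig N ξ 1 ∧ star u * u = 1 ∧ u * star u = 1}

lemma eig_mul_one {a b : H →L[ℂ] H} (ha : a ∈ eig N ξ 1) (hb : b ∈ eig N ξ 1) :
    a * b ∈ eig N ξ 1 := by
  have := eig_mul ha hb
  rwa [mul_one] at this

end Pool.Agent.Helper23

end

end

section

section

open scoped InnerProductSpace ComplexOrder ComplexStarModule

open ContinuousLinearMap

namespace Pool.Agent.Helper23

variable {H : Type*} [NormedAddCommGroup H] [InnerProductSpace ℂ H] [CompleteSpace H]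

section Abstract

variable {A : Type*} [CStarAlgebra A]

/-- vector functional as a linear map -/
noncomputable def vecL (ρ : A →⋆ₐ[ℂ] (H →L[ℂ] H)) (ξ : H) : A →ₗ[ℂ] ℂ where
  toFun x := ⟪ξ, ρ x ξ⟫_ℂ
  map_add' x y := by
    rw [map_add, add_apply, inner_add_right]
  map_smul' c x := by
    rw [map_smul, smul_apply, inner_smul_right]
    rfl

end Abstract

end Pool.Agent.Helper23

end

end

section

section

open scoped InnerProductSpace

open ContinuousLinearMap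

namespace Pool.Agent.Helper72

open Pool.Agent.Helper23

variable {H : Type*} [NormedAddCommGroup H] [InnerProductSpace ℂ H] [CompleteSpace H]

lemma inner_sa {S : H →L[ℂ] H} (hS : star S = S) (v w : H) : ⟪S v, w⟫_ℂ = ⟪v, S w⟫_ℂ := by
  conv_rhs => rw [← hS]
  rw [inner_star_right]

end Pool.Agent.Helper72

end

end

section

section

open scoped InnerProductSpace ComplexOrder ComplexStarModule

open ContinuousLinearMap

namespace Pool.Agent.Helper23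

variable {H : Type*} [NormedAddCommGroup H] [InnerProductSpace ℂ H] [CompleteSpace H]

section Abstract

variable {A : Type*} [CStarAlgebra A]

lemma vecL_star_mul (ρ : A →⋆ₐ[ℂ] (H →L[ℂ] H)) (ξ : H) (x : A) :
    vecL ρ ξ (star x * x) = ((‖ρ x ξ‖ ^ 2 : ℝ) : ℂ) := by
  change ⟪ξ, ρ (star x * x) ξ⟫_ℂ = _
  rw [map_mul, map_star]
  change ⟪ξ, (star (ρ x)) (ρ x ξ)⟫_ℂ = _
  rw [← norm_sq_apply]

end Abstract

end Pool.Agent.Helper23

end

end

section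

section

open scoped InnerProductSpace

open ContinuousLinearMap

namespace Pool.Agent.Helper23

variable {H : Type*} [NormedAddCommGroup H] [InnerProductSpace ℂ H] [CompleteSpace H]

variable {M N : VonNeumannAlgebra H} {ξ : H} {E : (H →L[ℂ] H) → (H →L[ℂ] H)}

/-- `a φ - l φ a` has norm at most `δ` -/
def Defect (N : VonNeumannAlgebra H) (ξ : H) (l δ : ℝ) (a : H →L[ℂ] H) : Prop :=
  ∀ z ∈ N, ‖⟪ξ, z (a ξ)⟫_ℂ - l * ⟪ξ, a (z ξ)⟫_ℂ‖ ≤ δ * ‖z‖

end Pool.Agent.Helper23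

end

section

open scoped InnerProductSpace BoundedContinuousFunction

open ContinuousLinearMap Filter

namespace Pool.Agent.Helper23

variable {H : Type*} [NormedAddCommGroup H] [InnerProductSpace ℂ H] [CompleteSpace H]

variable {M N : VonNeumannAlgebra H} {ξ : H} {E : (H →L[ℂ] H) → (H →L[ℂ] H)}

lemma Defect.mono {l δ δ' : ℝ} {a : H →L[ℂ] H} (h : Defect N ξ l δ a) (hδ : δ ≤ δ') :
    Defect N ξ l δ' a := fun z hz =>
  (h z hz).trans (mul_le_mul_of_nonneg_right hδ (norm_nonneg _))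

lemma Defect.add {l δ δ' : ℝ} {a b : H →L[ℂ] H} (h : Defect N ξ l δ a)
    (h' : Defect N ξ l δ' b) : Defect N ξ l (δ + δ') (a + b) := by
  intro z hz
  have e : ⟪ξ, z ((a + b) ξ)⟫_ℂ - l * ⟪ξ, (a + b) (z ξ)⟫_ℂ =
      (⟪ξ, z (a ξ)⟫_ℂ - l * ⟪ξ, a (z ξ)⟫_ℂ) + (⟪ξ, z (b ξ)⟫_ℂ - l * ⟪ξ, b (z ξ)⟫_ℂ) := by
    rw [add_apply, add_apply, map_add, inner_add_right, inner_add_right]
    ring
  rw [e, add_mul]
  exact (norm_add_le _ _).trans (add_le_add (h z hz) (h' z hz))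

lemma Defect.smul {l δ : ℝ} {a : H →L[ℂ] H} (c : ℂ) (h : Defect N ξ l δ a) :
    Defect N ξ l (‖c‖ * δ) (c • a) := by
  intro z hz
  have e : ⟪ξ, z ((c • a) ξ)⟫_ℂ - l * ⟪ξ, (c • a) (z ξ)⟫_ℂ =
      c * (⟪ξ, z (a ξ)⟫_ℂ - l * ⟪ξ, a (z ξ)⟫_ℂ) := by
    rw [smul_apply, smul_apply, map_smul, inner_smul_right, inner_smul_right]
    ring
  rw [e, norm_mul, mul_assoc]
  exact mul_le_mul_of_nonneg_left (h z hz) (norm_nonneg _)

lemma Defect.mul {l l' δ δ' : ℝ} {a b : H →L[ℂ] H} (ha : a ∈ N) (hb : b ∈ N)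
    (h : Defect N ξ l δ a) (h' : Defect N ξ l' δ' b) (hδ : 0 ≤ δ) (hδ' : 0 ≤ δ') :
    Defect N ξ (l * l') (δ' * ‖a‖ + |l'| * (δ * ‖b‖)) (a * b) := by
  intro z hz
  have e : ⟪ξ, z ((a * b) ξ)⟫_ℂ - (l * l' : ℝ) * ⟪ξ, (a * b) (z ξ)⟫_ℂ =
      (⟪ξ, (z * a) (b ξ)⟫_ℂ - l' * ⟪ξ, b ((z * a) ξ)⟫_ℂ) +
        l' * (⟪ξ, (b * z) (a ξ)⟫_ℂ - l * ⟪ξ, a ((b * z) ξ)⟫_ℂ) := by
    change ⟪ξ, z (a (b ξ))⟫_ℂ - (l * l' : ℝ) * ⟪ξ, a (b (z ξ))⟫_ℂ =
      (⟪ξ, z (a (b ξ))⟫_ℂ - l' * ⟪ξ, b (z (a ξ))⟫_ℂ) +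
        l' * (⟪ξ, b (z (a ξ))⟫_ℂ - l * ⟪ξ, a (b (z ξ))⟫_ℂ)
    push_cast
    ring
  rw [e]
  have h1 := h' (z * a) (mul_mem hz ha)
  have h2 := h (b * z) (mul_mem hb hz)
  calc _ ≤ ‖⟪ξ, (z * a) (b ξ)⟫_ℂ - l' * ⟪ξ, b ((z * a) ξ)⟫_ℂ‖ +
        ‖(l' : ℂ) * (⟪ξ, (b * z) (a ξ)⟫_ℂ - l * ⟪ξ, a ((b * z) ξ)⟫_ℂ)‖ := norm_add_le _ _
    _ ≤ δ' * (‖z‖ * ‖a‖) + |l'| * (δ * (‖b‖ * ‖z‖)) := by
        rw [norm_mul, Complex.norm_real, Real.norm_eq_abs]
        gcongr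
        · exact h1.trans (mul_le_mul_of_nonneg_left (norm_mul_le _ _) hδ')
        · exact h2.trans (mul_le_mul_of_nonneg_left (norm_mul_le _ _) hδ)
    _ = _ := by ring

lemma Defect.one {δ : ℝ} (hδ : 0 ≤ δ) : Defect N ξ 1 δ (1 : H →L[ℂ] H) := by
  intro z _
  simp only [one_apply_eq_self, Complex.ofReal_one, one_mul, sub_self, norm_zero]
  (clear * - hδ; positivity)

/-- Sequences with `‖a_n φ - l φ a_n‖ → 0` -/
def Dseq (N : VonNeumannAlgebra H) (ξ : H) (l : ℝ) (a : ℕ → H →L[ℂ] H) : Prop :=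
  ∀ ε : ℝ, 0 < ε → ∀ᶠ n in atTop, Defect N ξ l ε (a n)

lemma Dseq.mul {l l' : ℝ} {a b : ℕ → H →L[ℂ] H} (ha : ∀ n, a n ∈ N) (hb : ∀ n, b n ∈ N)
    {C : ℝ} (hC : ∀ n, ‖a n‖ ≤ C) (hC' : ∀ n, ‖b n‖ ≤ C)
    (h : Dseq N ξ l a) (h' : Dseq N ξ l' b) : Dseq N ξ (l * l') (fun n => a n * b n) := by
  intro ε hε
  have hC0 : 0 ≤ C := (norm_nonneg _).trans (hC 0)
  set t := ε / (C + |l'| * C + 1) with ht
  have hden : 0 < C + |l'| * C + 1 := by (clear * - hC0; positivity)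
  have htpos : 0 < t := div_pos hε hden
  filter_upwards [h t htpos, h' t htpos] with n h1 h2
  refine (h1.mul (ha n) (hb n) h2 htpos.le htpos.le).mono ?_
  have e1 : t * ‖a n‖ + |l'| * (t * ‖b n‖) ≤ t * C + |l'| * (t * C) := by
    gcongr
    · exact hC n
    · exact hC' n
  have e2 : t * C + |l'| * (t * C) ≤ t * (C + |l'| * C + 1) := by (clear * - htpos; nlinarith)
  have e3 : t * (C + |l'| * C + 1) = ε := by rw [ht]; field_simp
  (clear * - htpos e1 e3; linarith)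

end Pool.Agent.Helper23

end

end

section

section

open scoped InnerProductSpace BoundedContinuousFunction

open ContinuousLinearMap Filter

namespace Pool.Agent.Helper23

variable {H : Type*} [NormedAddCommGroup H] [InnerProductSpace ℂ H] [CompleteSpace H]

variable {M N : VonNeumannAlgebra H} {ξ : H} {E : (H →L[ℂ] H) → (H →L[ℂ] H)}

lemma Defect.star {l δ : ℝ} (hl : 0 < l) {a : H →L[ℂ] H} (h : Defect N ξ l δ a) :
    Defect N ξ l⁻¹ (l⁻¹ * δ) (star a) := by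
  intro z hz
  have h1 := h (Star.star z) (star_mem hz)
  have e1 : ⟪ξ, z ((Star.star a) ξ)⟫_ℂ = (starRingEnd ℂ) ⟪ξ, a ((Star.star z) ξ)⟫_ℂ := by
    rw [inner_conj_symm, ← inner_star_right, ← inner_star_left z]
  have e2 : ⟪ξ, (Star.star a) (z ξ)⟫_ℂ = (starRingEnd ℂ) ⟪ξ, (Star.star z) (a ξ)⟫_ℂ := by
    rw [inner_conj_symm, inner_star_left z, inner_star_right]
  have e : ⟪ξ, z ((Star.star a) ξ)⟫_ℂ - (l⁻¹ : ℝ) * ⟪ξ, (Star.star a) (z ξ)⟫_ℂ =
      -((l⁻¹ : ℝ) : ℂ) * (starRingEnd ℂ) (⟪ξ, (Star.star z) (a ξ)⟫_ℂ -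
        l * ⟪ξ, a ((Star.star z) ξ)⟫_ℂ) := by
    rw [e1, e2, map_sub, map_mul, Complex.conj_ofReal]
    have hl' : (l : ℂ) ≠ 0 := by exact_mod_cast hl.ne'
    push_cast
    field_simp
    ring
  rw [e, norm_mul, norm_neg, Complex.norm_real, Real.norm_of_nonneg (inv_pos.2 hl).le,
    RCLike.norm_conj, mul_assoc]
  rw [norm_star] at h1
  exact mul_le_mul_of_nonneg_left h1 (inv_pos.2 hl).le

lemma Dseq.star {l : ℝ} (hl : 0 < l) {a : ℕ → H →L[ℂ] H} (h : Dseq N ξ l a) :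
    Dseq N ξ l⁻¹ (fun n => star (a n)) := by
  intro ε hε
  filter_upwards [h (l * ε) (by (clear * - hl hε; positivity))] with n hn
  have := hn.star hl
  rwa [← mul_assoc, inv_mul_cancel₀ hl.ne', one_mul] at this

section ACalgebra

/-- The algebra of almost centralizing bounded sequences. -/
noncomputable def ACalg (N : VonNeumannAlgebra H) (ξ : H) :
    StarSubalgebra ℂ (ℕ →ᵇ N.toStarSubalgebra) where
  carrier := {a | Dseq N ξ 1 (fun n => ((a n : N.toStarSubalgebra) : H →L[ℂ] H))}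
  mul_mem' := by
    intro a b ha hb
    have h1 := Dseq.mul (N := N) (ξ := ξ) (C := ‖a‖ + ‖b‖)
      (fun n => (a n).2) (fun n => (b n).2)
      (fun n => (a.norm_coe_le_norm n).trans (by linarith [norm_nonneg b]))
      (fun n => (b.norm_coe_le_norm n).trans (by (clear * -; linarith [norm_nonneg a]))) ha hb
    rw [one_mul] at h1
    exact h1
  add_mem' := by
    intro a b ha hb ε hε
    filter_upwards [ha (ε / 2) (by positivity), hb (ε / 2) (by positivity)] with n h1 h2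
    have := h1.add h2
    rwa [add_halves] at this
  algebraMap_mem' := by
    intro c ε hε
    refine Filter.Eventually.of_forall fun n => ?_
    change Defect N ξ 1 ε (c • (1 : H →L[ℂ] H))
    have h2 := (Defect.one (N := N) (ξ := ξ) (δ := 0) le_rfl).smul c
    rw [mul_zero] at h2
    exact h2.mono hε.le
  star_mem' := by
    intro a ha
    have h1 := Dseq.star one_pos ha
    rw [inv_one] at h1
    exact h1

end ACalgebra

end Pool.Agent.Helper23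

end

end

section

section

open scoped InnerProductSpace Topology BoundedContinuousFunction FourierTransform ENNReal

open ContinuousLinearMap Filter MeasureTheory

set_option linter.unusedSectionVars false

namespace Pool.Agent.Helper23

variable {H : Type*} [NormedAddCommGroup H] [InnerProductSpace ℂ H] [CompleteSpace H]

variable {M N : VonNeumannAlgebra H} {ξ : H} {E : (H →L[ℂ] H) → (H →L[ℂ] H)}

/-- the negative part of a self-adjoint element of a von Neumann algebra -/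
lemma exists_negPart (A : VonNeumannAlgebra H) {b : H →L[ℂ] H} (hb : b ∈ A)
    (hbs : IsSelfAdjoint b) : ∃ n ∈ A, ∃ s : H →L[ℂ] H, star s * s = n ∧ b * n = -(n * n) ∧
      (n = 0 → ∀ v : H, 0 ≤ (⟪v, b v⟫_ℂ).re) := by
  have : IsClosed (A : Set (H →L[ℂ] H)) := vN_isClosed A
  have : IsClosed (A.toStarSubalgebra : Set (H →L[ℂ] H)) := vN_isClosed A
  have h1 : b⁻ ∈ A.toStarSubalgebra := by
    rw [CFC.negPart_def]
    exact cfcₙ_mem (s := A.toStarSubalgebra) _ hb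
  have h2 := CFC.posPart_sub_negPart b hbs
  refine ⟨b⁻, h1, CFC.sqrt b⁻, ?_, ?_, ?_⟩
  · rw [(IsSelfAdjoint.of_nonneg (CFC.sqrt_nonneg b⁻)).star_eq]
    exact CFC.sqrt_mul_sqrt_self b⁻ (CFC.negPart_nonneg b)
  · nth_rw 1 [← h2]
    rw [sub_mul, CFC.posPart_mul_negPart, zero_sub]
  · intro h0 v
    have h3 : b = b⁺ := by
      nth_rw 1 [← h2]
      rw [h0, sub_zero]
    rw [h3]
    exact ((nonneg_iff_isPositive _).1 (CFC.posPart_nonneg b)).re_inner_nonneg_right v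

end Pool.Agent.Helper23

end

end
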