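import Pool.Agent.Helper23.FB.Inst

/-!
Parts of Helper23.FA.L00_16, Helper23.FA.L00_17, Helper23.FA.L00_18, Helper23.FA.L00_00, Helper23.FA.L00_11, Helper23.FA.L00_19, Helper23.FA.L01_13, Helper23.FA.L01_18
-/

attribute [local instance 5000]
  Pool.Agent.Helper23.FB.Inst.rCharZero Pool.Agent.Helper23.FB.Inst.rALM
  Pool.Agent.Helper23.FB.Inst.rARM Pool.Agent.Helper23.FB.Inst.rALSM
  Pool.Agent.Helper23.FB.Inst.rARSM Pool.Agent.Helper23.FB.Inst.rARRLE
  Pool.Agent.Helper23.FB.Inst.rALRLE Pool.Agent.Helper23.FB.Inst.rARRLT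
  Pool.Agent.Helper23.FB.Inst.rALRLT Pool.Agent.Helper23.FB.Inst.rPMRLT
  Pool.Agent.Helper23.FB.Inst.rMPRLT Pool.Agent.Helper23.FB.Inst.rPMM
  Pool.Agent.Helper23.FB.Inst.rMPM Pool.Agent.Helper23.FB.Inst.rPMSM
  Pool.Agent.Helper23.FB.Inst.rMPSM Pool.Agent.Helper23.FB.Inst.rEAOL
  Pool.Agent.Helper23.FB.Inst.rIOR Pool.Agent.Helper23.FB.Inst.rISOR
  Pool.Agent.Helper23.FB.Inst.rFS Pool.Agent.Helper23.FB.Inst.rcCharZero
  Pool.Agent.Helper23.FB.Inst.rNZD Pool.Agent.Helper23.FB.Inst.rcNZD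
  Pool.Agent.Helper23.FB.Inst.bSemiring Pool.Agent.Helper23.FB.Inst.bStar
  Pool.Agent.Helper23.FB.Inst.bAlg Pool.Agent.Helper23.FB.Inst.bSub
  Pool.Agent.Helper23.FB.Inst.bMul Pool.Agent.Helper23.FB.Inst.bAdd
  Pool.Agent.Helper23.FB.Inst.iRing Pool.Agent.Helper23.FB.Inst.iSemiring
  Pool.Agent.Helper23.FB.Inst.iAlgC Pool.Agent.Helper23.FB.Inst.iSMulC
  Pool.Agent.Helper23.FB.Inst.iModC Pool.Agent.Helper23.FB.Inst.iAlgR
  Pool.Agent.Helper23.FB.Inst.iSMulR Pool.Agent.Helper23.FB.Inst.iModR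
  Pool.Agent.Helper23.FB.Inst.iMonoid Pool.Agent.Helper23.FB.Inst.iSemigroup
  Pool.Agent.Helper23.FB.Inst.iMulOneClass Pool.Agent.Helper23.FB.Inst.iMul
  Pool.Agent.Helper23.FB.Inst.iAdd Pool.Agent.Helper23.FB.Inst.iSub
  Pool.Agent.Helper23.FB.Inst.iNeg Pool.Agent.Helper23.FB.Inst.iAddCommMonoid
  Pool.Agent.Helper23.FB.Inst.iAddCommGroup Pool.Agent.Helper23.FB.Inst.iAddGroup
  Pool.Agent.Helper23.FB.Inst.iAddMonoid Pool.Agent.Helper23.FB.Inst.iSMulZeroC
  Pool.Agent.Helper23.FB.Inst.iMulActC Pool.Agent.Helper23.FB.Inst.iDSMulC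
  Pool.Agent.Helper23.FB.Inst.iDSMulR Pool.Agent.Helper23.FB.Inst.iSNAG
  Pool.Agent.Helper23.FB.Inst.iSNACG Pool.Agent.Helper23.FB.Inst.iNorm
  Pool.Agent.Helper23.FB.Inst.iNSC' Pool.Agent.Helper23.FB.Inst.iNSR'
  Pool.Agent.Helper23.FB.Inst.iTop Pool.Agent.Helper23.FB.Inst.iT2 Pool.Agent.Helper23.FB.Inst.iTR
  Pool.Agent.Helper23.FB.Inst.iSCC Pool.Agent.Helper23.FB.Inst.iIST
  Pool.Agent.Helper23.FB.Inst.iSCCR Pool.Agent.Helper23.FB.Inst.iISTR
  Pool.Agent.Helper23.FB.Inst.iZHC Pool.Agent.Helper23.FB.Inst.iAHC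
  Pool.Agent.Helper23.FB.Inst.iAMHC Pool.Agent.Helper23.FB.Inst.iMAHC
  Pool.Agent.Helper23.FB.Inst.lTop Pool.Agent.Helper23.FB.Inst.lUnif
  Pool.Agent.Helper23.FB.Inst.lACM Pool.Agent.Helper23.FB.Inst.lACG
  Pool.Agent.Helper23.FB.Inst.lSNAG Pool.Agent.Helper23.FB.Inst.lSNACG
  Pool.Agent.Helper23.FB.Inst.lNACG Pool.Agent.Helper23.FB.Inst.lNorm
  Pool.Agent.Helper23.FB.Inst.lIPS Pool.Agent.Helper23.FB.Inst.lMod
  Pool.Agent.Helper23.FB.Inst.lSMul Pool.Agent.Helper23.FB.Inst.lT2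
  Pool.Agent.Helper23.FB.Inst.iStar Pool.Agent.Helper23.FB.Inst.iStarMul
  Pool.Agent.Helper23.FB.Inst.iStarAddMonoid Pool.Agent.Helper23.FB.Inst.iStarRing
  Pool.Agent.Helper23.FB.Inst.iNSC Pool.Agent.Helper23.FB.Inst.iSOR
  Pool.Agent.Helper23.FB.Inst.iALM Pool.Agent.Helper23.FB.Inst.iARM
  Pool.Agent.Helper23.FB.Inst.iCFC Pool.Agent.Helper23.FB.Inst.iNCFC
  Pool.Agent.Helper23.FB.Inst.iStarModR Pool.Agent.Helper23.FB.Inst.iStarModC
  Pool.Agent.Helper23.FB.Inst.eStar Pool.Agent.Helper23.FB.Inst.eAdd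
  Pool.Agent.Helper23.FB.Inst.eMul Pool.Agent.Helper23.FB.Inst.eOne
  Pool.Agent.Helper23.FB.Inst.eZero Pool.Agent.Helper23.FB.Inst.eMulAction
  Pool.Agent.Helper23.FB.Inst.eAMHC2 Pool.Agent.Helper23.FB.Inst.eZHC2
  Pool.Agent.Helper23.FB.Inst.lAMHC

namespace Pool.Agent.Helper23
end Pool.Agent.Helper23
namespace Pool.Agent.Helper23.TTA
end Pool.Agent.Helper23.TTA
namespace Pool.Agent.Helper43.TTF
end Pool.Agent.Helper43.TTF
namespace Pool.Agent.Helper70.U8
end Pool.Agent.Helper70.U8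
namespace Pool.Agent.Helper88.CS.ExhAux
end Pool.Agent.Helper88.CS.ExhAux
namespace Pool.Agent.Helper88.CS.InftyAux
end Pool.Agent.Helper88.CS.InftyAux

section

section

open scoped InnerProductSpace Topology BoundedContinuousFunction

open ContinuousLinearMap Filter MeasureTheory

namespace Pool.Agent.Helper88.CS

open Pool.Agent.Helper23

variable {H : Type*} [NormedAddCommGroup H] [InnerProductSpace ℂ H] [CompleteSpace H]

/-- projections of `A` -/
def IsP (A : VonNeumannAlgebra H) (e : H →L[ℂ] H) : Prop := e ∈ A ∧ star e = e ∧ e * e = e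

/-- a factor all of whose nonzero projections are infinite -/
structure FInf (A : VonNeumannAlgebra H) : Prop where
  factor : ∀ z ∈ A, z ∈ A.commutant → ∃ c : ℂ, z = c • (1 : H →L[ℂ] H)
  infinite : ∀ e, IsP A e → e ≠ 0 → ∃ v ∈ A, star v * v = e ∧ e * v = v ∧ v * star v ≠ e

/-- `l` is in the spectrum of the modular operator of the vector `ζ`, i.e. for each `ε > 0` there
is `a ∈ A` with `‖a ζ‖ = 1` and `‖(Δ - l) a ζ‖ ≤ ε`; here `⟪x* ζ, Δ a ζ⟫ = ⟪a* ζ, x ζ⟫`. -/
def SpecAt (A : VonNeumannAlgebra H) (ζ : H) (l : ℝ) : Prop := ∀ ε : ℝ, 0 < ε → ∃ a ∈ A,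
  ‖a ζ‖ = 1 ∧ ∀ x ∈ A, ‖⟪(star a) ζ, x ζ⟫_ℂ - (l : ℂ) * ⟪(star x) ζ, a ζ⟫_ℂ‖ ≤ ε * ‖(star x) ζ‖

/-- type III factor, `S(A) = [0, ∞)`, vector form -/
structure III1V (A : VonNeumannAlgebra H) : Prop extends FInf A where
  spec : ∀ ζ : H, ‖ζ‖ = 1 → (∀ a ∈ A, a ζ = 0 → a = 0) → ∀ l : ℝ, 0 < l → SpecAt A ζ l

end Pool.Agent.Helper88.CS

end

section

open scoped InnerProductSpace Topology BoundedContinuousFunction

open ContinuousLinearMap Filter MeasureTheory

namespace Pool.Agent.Helper88.CS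

open Pool.Agent.Helper23

variable {H : Type*} [NormedAddCommGroup H] [InnerProductSpace ℂ H] [CompleteSpace H]

variable {A : VonNeumannAlgebra H} {ξ : H}

namespace InftyAux

theorem eq_zero_of_star_mul {a : H →L[ℂ] H} (h : star a * a = 0) : a = 0 :=
  CStarRing.star_mul_self_eq_zero_iff a |>.1 h

theorem eq_zero_of_mul_star {a : H →L[ℂ] H} (h : a * star a = 0) : a = 0 :=
  CStarRing.mul_star_self_eq_zero_iff a |>.1 h

/-- `v e = v` if `v* v = e` is a projection -/
theorem mul_eq {v e : H →L[ℂ] H} (he1 : star e = e) (he2 : e * e = e) (hv : star v * v = e) :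
    v * e = v := by
  have h : star (v * e - v) * (v * e - v) = 0 := by
    rw [star_sub, star_mul, he1]
    calc (e * star v - star v) * (v * e - v)
        = e * (star v * v) * e - e * (star v * v) - (star v * v) * e + star v * v := by noncomm_ring
      _ = 0 := by rw [hv]; simp only [he2]; abel
  exact sub_eq_zero.1 (eq_zero_of_star_mul h)

end InftyAux

open InftyAux

/-- an infinite projection contains a sequence of orthogonal equivalent nonzero projections -/
theorem exists_seq (hA : FInf A) {e : H →L[ℂ] H} (he : IsP A e) (he0 : e ≠ 0) :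
    ∃ p : ℕ → H →L[ℂ] H, ∃ x : ℕ → H →L[ℂ] H, (∀ n, IsP A (p n) ∧ p n ≠ 0 ∧ e * p n = p n) ∧
      (∀ m n, m ≠ n → p m * p n = 0) ∧
      ∀ n, x n ∈ A ∧ star (x n) * x n = p 0 ∧ x n * star (x n) = p n := by
  obtain ⟨v, hvA, hv1, hv2, hv3⟩ := hA.infinite e he he0
  obtain ⟨heA, he1, he2⟩ := he
  have hve : v * e = v := mul_eq he1 he2 hv1
  have hev : e * star v = star v := by
    have := congrArg star hve
    rwa [star_mul, he1] at this
  have hve' : star v * e = star v := by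
    have := congrArg star hv2
    rwa [star_mul, he1] at this
  set d : H →L[ℂ] H := e - v * star v with hd
  have hdA : d ∈ A := sub_mem heA (mul_mem hvA (star_mem hvA))
  have hd0 : d ≠ 0 := fun h => hv3 (sub_eq_zero.1 h).symm
  have hd1 : star d = d := by rw [hd, star_sub, star_mul, star_star, he1]
  have hvd : star v * d = 0 := by
    rw [hd, mul_sub, hve', ← mul_assoc, hv1, hev, sub_self]
  have hed : e * d = d := by
    rw [hd, mul_sub, he2, ← mul_assoc, hv2]
  have hde : d * e = d := by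
    have := congrArg star hed
    rwa [star_mul, he1, hd1] at this
  have hdd : d * d = d := by
    have h1 : d * v = 0 := by
      have := congrArg star hvd
      rwa [star_mul, star_star, hd1, star_zero] at this
    calc d * d = d * e - d * v * star v := by rw [hd]; noncomm_ring
      _ = d := by rw [hde, h1, zero_mul, sub_zero]
  let y : ℕ → H →L[ℂ] H := fun n => v ^ n * d
  have hy0 : y 0 = d := by simp [y]
  have hyS : ∀ n, y (n + 1) = v * y n := fun n => by
    simp only [y, pow_succ', mul_assoc]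
  have hyA : ∀ n, y n ∈ A := fun n => mul_mem (pow_mem hvA n) hdA
  have hey : ∀ n, e * y n = y n := by
    intro n
    cases n with
    | zero => rw [hy0, hed]
    | succ n => rw [hyS, ← mul_assoc, hv2]
  have hyd : ∀ n, y n * d = y n := fun n => by
    simp only [y, mul_assoc, hdd]
  have hort : ∀ m n, star (y m) * y n = if m = n then d else 0 := by
    intro m
    induction m with
    | zero =>
      intro n
      cases n with
      | zero => rw [hy0, hd1, hdd]; simp
      | succ n =>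
        rw [hy0, hyS, ← mul_assoc]
        have : star d * v = 0 := by
          have := congrArg star hvd
          rwa [star_mul, star_star, star_zero] at this
        rw [this, zero_mul]; simp
    | succ m ih =>
      intro n
      cases n with
      | zero =>
        rw [hyS, hy0, star_mul, mul_assoc, hvd, mul_zero]; simp
      | succ n =>
        rw [hyS, hyS, star_mul, mul_assoc, ← mul_assoc (star v) v, hv1, hey, ih]
        simp
  refine ⟨fun n => y n * star (y n), y, fun n => ⟨⟨?_, ?_, ?_⟩, ?_, ?_⟩, ?_, fun n => ⟨?_, ?_, ?_⟩⟩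
  · exact mul_mem (hyA n) (star_mem (hyA n))
  · rw [star_mul, star_star]
  · calc y n * star (y n) * (y n * star (y n)) = y n * (star (y n) * y n) * star (y n) := by
          noncomm_ring
      _ = y n * star (y n) := by rw [hort, if_pos rfl, hyd]
  · intro h
    have h1 := eq_zero_of_mul_star h
    have h2 := hort n n
    rw [h1, mul_zero, if_pos rfl] at h2
    exact hd0 h2.symm
  · show e * (y n * star (y n)) = y n * star (y n)
    rw [← mul_assoc, hey]
  · intro m n hmn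
    show y m * star (y m) * (y n * star (y n)) = 0
    calc y m * star (y m) * (y n * star (y n)) = y m * (star (y m) * y n) * star (y n) := by
          noncomm_ring
      _ = 0 := by rw [hort, if_neg hmn, mul_zero, zero_mul]
  · exact hyA n
  · show star (y n) * y n = y 0 * star (y 0)
    rw [hort, if_pos rfl, hy0, hd1, hdd]
  · rfl

end Pool.Agent.Helper88.CS

end

end

section

section

open scoped InnerProductSpace Topology BoundedContinuousFunction

open ContinuousLinearMap Filter MeasureTheory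

namespace Pool.Agent.Helper88.CS

open Pool.Agent.Helper23

variable {H : Type*} [NormedAddCommGroup H] [InnerProductSpace ℂ H] [CompleteSpace H]

variable {A : VonNeumannAlgebra H} {ξ : H} {J : H →L[ℝ] H}

namespace StepAux

lemma pyth {p : H →L[ℂ] H} (hp : star p = p) (hpp : p * p = p) (η : H) :
    ‖η‖ ^ 2 = ‖p η‖ ^ 2 + ‖η - p η‖ ^ 2 := by
  have h0 : ⟪p η, η - p η⟫_ℂ = 0 := by
    have : ⟪p η, η - p η⟫_ℂ = ⟪η, p (η - p η)⟫_ℂ := by
      have h2 := ContinuousLinearMap.adjoint_inner_left p (η - p η) η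
      rw [← ContinuousLinearMap.star_eq_adjoint, hp] at h2
      exact h2
    rw [this, map_sub, ← mul_apply_eq_comp, hpp, sub_self, inner_zero_right]
  have h1 : ‖p η + (η - p η)‖ ^ 2 = ‖p η‖ ^ 2 + ‖η - p η‖ ^ 2 := by
    have := norm_add_pow_two (𝕜 := ℂ) (p η) (η - p η)
    rw [this, h0]
    simp
  rwa [add_sub_cancel] at h1

lemma pyth_l {p : H →L[ℂ] H} (hp : star p = p) (hpp : p * p = p) {η α β : H}
    (h1 : p η = α) (h2 : η = α + β) : ‖η‖ ^ 2 = ‖α‖ ^ 2 + ‖β‖ ^ 2 := by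
  have := pyth hp hpp η
  rw [h1] at this
  rw [this, show η - α = β by rw [h2]; abel]

end StepAux

end Pool.Agent.Helper88.CS

end

end

section

section

open scoped InnerProductSpace Topology BoundedContinuousFunction

open ContinuousLinearMap Filter MeasureTheory

namespace Pool.Agent.Helper88.CS

open Pool.Agent.Helper23

variable {H : Type*} [NormedAddCommGroup H] [InnerProductSpace ℂ H] [CompleteSpace H]

variable {A : VonNeumannAlgebra H} {ξ : H} {J : H →L[ℝ] H}

namespace StepAux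

lemma norm_l {v : H →L[ℂ] H} (hv : v * star v * v = v) (η : H) :
    ‖v η‖ ^ 2 = ‖(star v * v) η‖ ^ 2 := by
  have h1 : ⟪v η, v η⟫_ℂ = ⟪(star v * v) η, (star v * v) η⟫_ℂ := by
    have e1 : ⟪(star v * v) η, (star v * v) η⟫_ℂ = ⟪v η, v ((star v * v) η)⟫_ℂ := by
      rw [mul_apply_eq_comp, ContinuousLinearMap.star_eq_adjoint,
        ContinuousLinearMap.adjoint_inner_left]
    rw [e1, ← mul_apply_eq_comp, ← mul_assoc, hv]
  rw [inner_self_eq_norm_sq_to_K, inner_self_eq_norm_sq_to_K] at h1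
  exact_mod_cast h1

end StepAux

end Pool.Agent.Helper88.CS

end

end

section

section

open scoped InnerProductSpace Topology BoundedContinuousFunction

open ContinuousLinearMap Filter MeasureTheory

namespace Pool.Agent.Helper88.CS

open Pool.Agent.Helper23

variable {H : Type*} [NormedAddCommGroup H] [InnerProductSpace ℂ H] [CompleteSpace H]

/-- the bare conjugation: `J A J = A'` -/
structure Conj (A : VonNeumannAlgebra H) (J : H →L[ℝ] H) : Prop where
  J_J : ∀ v, J (J v) = v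
  J_conj : ∀ (c : ℂ) (v : H), J (c • v) = (starRingEnd ℂ) c • J v
  J_norm : ∀ v, ‖J v‖ = ‖v‖
  J_inner : ∀ v w, ⟪J v, J w⟫_ℂ = ⟪w, v⟫_ℂ
  J_comm : ∀ a ∈ A, ∀ y ∈ A, ∀ v, J (a (J (y v))) = y (J (a (J v)))
  J_mem : ∀ b ∈ A.commutant, ∃ a ∈ A, ∀ v, b v = J (a (J v))

end Pool.Agent.Helper88.CS

end

section

open scoped InnerProductSpace Topology BoundedContinuousFunction CompactlySupported

open ContinuousLinearMap Filter MeasureTheory

namespace Pool.Agent.Helper88.CS

open Pool.Agent.Helper23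

variable {H : Type*} [NormedAddCommGroup H] [InnerProductSpace ℂ H] [CompleteSpace H]

variable {A : VonNeumannAlgebra H} {J : H →L[ℝ] H} {κ : H}

namespace Trick1Aux

lemma J_left (hJ : Conj A J) (v w : H) : ⟪J v, w⟫_ℂ = ⟪J w, v⟫_ℂ := by
  have h := hJ.J_inner v (J w)
  rw [hJ.J_J] at h
  exact h

/-- `v ↦ J (a (J v))` -/
noncomputable def cj (hJ : Conj A J) (a : H →L[ℂ] H) : H →L[ℂ] H :=
  LinearMap.mkContinuous
    { toFun := fun v => J (a (J v))
      map_add' := by intro v w; simp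
      map_smul' := by
        intro c v
        rw [hJ.J_conj, map_smul, hJ.J_conj]
        simp }
    ‖a‖ (by
      intro v
      change ‖J (a (J v))‖ ≤ _
      rw [hJ.J_norm]
      exact (a.le_opNorm _).trans (by rw [hJ.J_norm]))

lemma cj_apply (hJ : Conj A J) (a : H →L[ℂ] H) (v : H) : cj hJ a v = J (a (J v)) := rfl

lemma norm_cj_le (hJ : Conj A J) (a : H →L[ℂ] H) : ‖cj hJ a‖ ≤ ‖a‖ :=
  LinearMap.mkContinuous_norm_le _ (norm_nonneg _) _

/-- the conjugation as a real star homomorphism -/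
noncomputable def cjH (hJ : Conj A J) : (H →L[ℂ] H) →⋆ₐ[ℝ] (H →L[ℂ] H) where
  toFun := cj hJ
  map_one' := by ext v; simp [cj_apply, hJ.J_J]
  map_mul' a b := by ext v; simp [cj_apply, hJ.J_J]
  map_zero' := by ext v; simp [cj_apply]
  map_add' a b := by ext v; simp [cj_apply]
  commutes' r := by
    ext v
    simp [cj_apply, Algebra.algebraMap_eq_smul_one, hJ.J_J]
  map_star' a := by
    ext v
    apply ext_inner_right ℂ
    intro w
    rw [cj_apply, ContinuousLinearMap.star_eq_adjoint, ContinuousLinearMap.star_eq_adjoint,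
      ContinuousLinearMap.adjoint_inner_left, cj_apply, J_left hJ,
      ContinuousLinearMap.adjoint_inner_right]
    have h := hJ.J_inner (J (a (J w))) v
    rw [hJ.J_J] at h
    exact h

lemma cjH_apply (hJ : Conj A J) (a : H →L[ℂ] H) (v : H) : cjH hJ a v = J (a (J v)) := rfl

lemma continuous_cjH (hJ : Conj A J) : Continuous (cjH hJ) :=
  AddMonoidHomClass.continuous_of_bound (cjH hJ) 1 (fun a => by
    rw [one_mul]; exact norm_cj_le hJ a)

lemma cfc_cj (hJ : Conj A J) {X : H →L[ℂ] H} (hX : star X = X) {g : ℝ → ℝ} (hg : Continuous g) :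
    cfc g (cjH hJ X) = cjH hJ (cfc g X) := by
  have hsX : IsSelfAdjoint X := hX
  have hsY : IsSelfAdjoint (cjH hJ X) := by
    change star (cjH hJ X) = cjH hJ X
    rw [← map_star, hX]
  exact (StarAlgHomClass.map_cfc (S := ℝ) (cjH hJ) g X (by fun_prop) (continuous_cjH hJ) hsX
    hsY).symm

end Trick1Aux

end Pool.Agent.Helper88.CS

end

end

section

section

open scoped InnerProductSpace Topology BoundedContinuousFunction

open ContinuousLinearMap Filter

namespace Pool.Agent.Helper78.BC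

variable {H : Type*} [NormedAddCommGroup H] [InnerProductSpace ℂ H] [CompleteSpace H]

/-- right multiplication `η y = J y* J η` -/
noncomputable def rm (J : H →L[ℝ] H) (y : H →L[ℂ] H) (η : H) : H := J ((star y) (J η))

/-- the commutator `[y, η] = y η - η y` -/
noncomputable def cm (J : H →L[ℝ] H) (y : H →L[ℂ] H) (η : H) : H := y η - rm J y η

/-- `v` is a coisometry of `A` with `v ξ ≈ √l ξ v` up to `ε` -/
def Lev (A : VonNeumannAlgebra H) (ξ : H) (J : H →L[ℝ] H) (l ε : ℝ) (v : H →L[ℂ] H) : Prop :=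
  v ∈ A ∧ v * star v = 1 ∧ ‖v ξ - ((Real.sqrt l : ℝ) : ℂ) • rm J v ξ‖ ≤ ε

/-- the natural family of a Lipschitz vector `ζ`; `z l` belongs to the functional `l φ` -/
structure LevFam (A : VonNeumannAlgebra H) (ξ : H) (J : H →L[ℝ] H) (C : ℝ) (ζ : H)
    (z : ℝ → H) : Prop where
  one : z 1 = ζ
  norm : ∀ l : ℝ, 0 < l → l ≤ 1 → ‖z l‖ ≤ ‖ζ‖
  rel : ∀ l m : ℝ, 0 < l → l ≤ 1 → 0 < m → m ≤ 1 → ∀ y ∈ A,
    ‖y (z l) - rm J y (z m)‖ ≤
      C * ‖((Real.sqrt l : ℝ) : ℂ) • y ξ - ((Real.sqrt m : ℝ) : ℂ) • rm J y ξ‖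

end Pool.Agent.Helper78.BC

end

section

open scoped InnerProductSpace Topology BoundedContinuousFunction

open ContinuousLinearMap Filter

namespace Pool.Agent.Helper78.BC

variable {H : Type*} [NormedAddCommGroup H] [InnerProductSpace ℂ H] [CompleteSpace H]

variable {A : VonNeumannAlgebra H} {ξ : H} {J : H →L[ℝ] H}
  {Ψ : (ℝ →ᵇ ℂ) →⋆ₐ[ℂ] (H →L[ℂ] H)}

namespace Lip2

lemma cm_add (u : H →L[ℂ] H) (v w : H) : cm J u (v + w) = cm J u v + cm J u w := by
  simp only [cm, rm, map_add]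
  abel

end Lip2

end Pool.Agent.Helper78.BC

end

section

open scoped InnerProductSpace Topology BoundedContinuousFunction

open ContinuousLinearMap Filter

namespace Pool.Agent.Helper78.BC

variable {H : Type*} [NormedAddCommGroup H] [InnerProductSpace ℂ H] [CompleteSpace H]

variable {A : VonNeumannAlgebra H} {ξ : H} {J : H →L[ℝ] H}
  {Ψ : (ℝ →ᵇ ℂ) →⋆ₐ[ℂ] (H →L[ℂ] H)}

namespace LipAll

/-- `cm` is complex linear in the operator: additivity -/
theorem cm_add (J : H →L[ℝ] H) (x y : H →L[ℂ] H) (v : H) :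
    cm J (x + y) v = cm J x v + cm J y v := by
  simp only [cm, rm, star_add, add_apply, map_add]
  abel

/-- `cm` is complex linear in the operator: homogeneity -/
theorem cm_smul (hJ : ∀ (c : ℂ) (v : H), J (c • v) = (starRingEnd ℂ) c • J v)
    (c : ℂ) (y : H →L[ℂ] H) (v : H) : cm J (c • y) v = c • cm J y v := by
  simp only [cm, rm, star_smul, smul_apply, hJ, smul_sub]
  simp

/-- the derivative at `0` of the commutator with `exp (t x)` -/
theorem hasDerivAt_cm (x : H →L[ℂ] H) (v : H) :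
    HasDerivAt (fun t : ℝ => cm J (NormedSpace.exp (t • x)) v) (cm J x v) 0 := by
  have key : ∀ (z : H →L[ℂ] H) (w : H),
      HasDerivAt (fun t : ℝ => (NormedSpace.exp (t • z)) w) (z w) 0 := by
    intro z w
    have h1 := hasDerivAt_exp_smul_const (𝕂 := ℝ) z 0
    rw [zero_smul, NormedSpace.exp_zero, one_mul] at h1
    have h2 := (((ContinuousLinearMap.apply ℂ H w).restrictScalars ℝ).hasFDerivAt
      (x := NormedSpace.exp ((0 : ℝ) • z))).comp_hasDerivAt (0 : ℝ) h1
    exact h2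
  have h1 := key x v
  have h2 := key (star x) (J v)
  have h3 := (J.hasFDerivAt (x := (NormedSpace.exp ((0 : ℝ) • star x)) (J v))).comp_hasDerivAt
    (0 : ℝ) h2
  have h4 := h1.sub h3
  refine h4.congr_of_eventuallyEq (Eventually.of_forall fun t => ?_)
  show NormedSpace.exp (t • x) v - J ((star (NormedSpace.exp (t • x))) (J v)) = _
  rw [NormedSpace.star_exp, star_smul, star_trivial]
  rfl

end LipAll

end Pool.Agent.Helper78.BC

end

section

open scoped InnerProductSpace Topology BoundedContinuousFunction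

open ContinuousLinearMap Filter MeasureTheory

namespace Pool.Agent.Helper88.CS

open Pool.Agent.Helper23

open Pool.Agent.Helper78.BC (rm)

variable {H : Type*} [NormedAddCommGroup H] [InnerProductSpace ℂ H] [CompleteSpace H]

/-- the potential -/
noncomputable def Phi (J : H →L[ℝ] H) (ξ : H) (e f v : H →L[ℂ] H) : ℝ :=
  ‖v (rm J (star v * v) ξ) - (v * star v) (rm J v ξ)‖ ^ 2 +
    4 * ‖(star v * v) (rm J (e - star v * v) ξ)‖ ^ 2 +
    4 * ‖(f - v * star v) (rm J (v * star v) ξ)‖ ^ 2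

end Pool.Agent.Helper88.CS

end

section

open scoped InnerProductSpace Topology BoundedContinuousFunction

open ContinuousLinearMap Filter MeasureTheory

namespace Pool.Agent.Helper88.CS

open Pool.Agent.Helper23

open Pool.Agent.Helper78.BC (rm)

variable {H : Type*} [NormedAddCommGroup H] [InnerProductSpace ℂ H] [CompleteSpace H]

variable {A : VonNeumannAlgebra H} {ξ : H} {J : H →L[ℝ] H}

namespace StepAux

lemma rm_add (J : H →L[ℝ] H) (y z : H →L[ℂ] H) (η : H) :
    rm J (y + z) η = rm J y η + rm J z η := by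
  simp only [rm, star_add, add_apply, map_add]

lemma rm_vadd (J : H →L[ℝ] H) (y : H →L[ℂ] H) (η ζ : H) :
    rm J y (η + ζ) = rm J y η + rm J y ζ := by
  simp only [rm, map_add]

lemma rm_vsub (J : H →L[ℝ] H) (y : H →L[ℂ] H) (η ζ : H) :
    rm J y (η - ζ) = rm J y η - rm J y ζ := by
  simp only [rm, map_sub]

lemma rm_zero (J : H →L[ℝ] H) (η : H) : rm J 0 η = 0 := by
  simp only [rm, star_zero, zero_apply, map_zero]

end StepAux

end Pool.Agent.Helper88.CS

end

section

open scoped InnerProductSpace Topology BoundedContinuousFunction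

open ContinuousLinearMap Filter MeasureTheory

namespace Pool.Agent.Helper88.CS

open Pool.Agent.Helper23

open Pool.Agent.Helper78.BC (rm)

variable {H : Type*} [NormedAddCommGroup H] [InnerProductSpace ℂ H] [CompleteSpace H]

variable {A : VonNeumannAlgebra H} {ξ : H} {J : H →L[ℝ] H}
  {Ψ : (ℝ →ᵇ ℂ) →⋆ₐ[ℂ] (H →L[ℂ] H)} {R : H →L[ℂ] H} {D : H →L[ℝ] H}

namespace ExhAux

/-- the restriction order of partial isometries -/
def Le (v w : H →L[ℂ] H) : Prop := w * (star v * v) = v ∧ (v * star v) * w = v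

lemma star_pi {v : H →L[ℂ] H} (hv : v * star v * v = v) : star v * v * star v = star v := by
  have := congrArg star hv
  simpa [star_mul, mul_assoc] using this

lemma ss {v : H →L[ℂ] H} (hv : v * star v * v = v) : star v * (v * star v) = star v := by
  rw [← mul_assoc]; exact star_pi hv

lemma Le.refl {v : H →L[ℂ] H} (hv : v * star v * v = v) : Le v v :=
  ⟨by rw [← mul_assoc]; exact hv, hv⟩

lemma Le.star_mul_right {v w : H →L[ℂ] H} (hv : v * star v * v = v) (h : Le v w) :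
    star v * w = star v * v := by
  have h1 : star v * ((v * star v) * w) = star v * v := by rw [h.2]
  rwa [← mul_assoc, ss hv] at h1

lemma Le.mul_star_left {v w : H →L[ℂ] H} (hv : v * star v * v = v) (h : Le v w) :
    w * star v = v * star v := by
  have h1 : (w * (star v * v)) * star v = v * star v := by rw [h.1]
  rwa [mul_assoc, star_pi hv] at h1

lemma Le.star_mul_left {v w : H →L[ℂ] H} (hv : v * star v * v = v) (h : Le v w) :
    star w * v = star v * v := by
  have := congrArg star (h.star_mul_right hv)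
  simpa [star_mul] using this

lemma Le.mul_star_right {v w : H →L[ℂ] H} (hv : v * star v * v = v) (h : Le v w) :
    v * star w = v * star v := by
  have := congrArg star (h.mul_star_left hv)
  simpa [star_mul] using this

lemma Le.trans {u v w : H →L[ℂ] H} (hu : u * star u * u = u) (hv : v * star v * v = v)
    (h : Le u v) (h' : Le v w) : Le u w := by
  have e1 : (star v * v) * (star u * u) = star u * u := by
    have : v * (star u * u) = u := h.1
    rw [mul_assoc, this, h.star_mul_left hu]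
  have e2 : (u * star u) * (v * star v) = u * star u := by
    rw [← mul_assoc, h.2, h.mul_star_right hu]
  constructor
  · calc w * (star u * u) = w * ((star v * v) * (star u * u)) := by rw [e1]
      _ = (w * (star v * v)) * (star u * u) := by rw [mul_assoc w]
      _ = v * (star u * u) := by rw [h'.1]
      _ = u := h.1
  · calc (u * star u) * w = ((u * star u) * (v * star v)) * w := by rw [e2]
      _ = (u * star u) * ((v * star v) * w) := by rw [mul_assoc]
      _ = (u * star u) * v := by rw [h'.2]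
      _ = u := h.2

lemma norm_proj_le {p : H →L[ℂ] H} (hp : star p = p) (hp2 : p * p = p) (x : H) :
    ‖p x‖ ≤ ‖x‖ := by
  have h1 : ⟪p x, p x⟫_ℂ = ⟪x, p x⟫_ℂ := by
    have : ⟪p x, p x⟫_ℂ = ⟪x, (star p) (p x)⟫_ℂ := by
      rw [ContinuousLinearMap.star_eq_adjoint, ContinuousLinearMap.adjoint_inner_right]
    rw [this, hp]
    have : p (p x) = (p * p) x := rfl
    rw [this, hp2]
  have h2 : ‖p x‖ ^ 2 = ‖⟪p x, p x⟫_ℂ‖ := by
    rw [inner_self_eq_norm_sq_to_K]
    simp
  have h3 : ‖p x‖ ^ 2 ≤ ‖x‖ * ‖p x‖ := by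
    rw [h2, h1]
    exact norm_inner_le_norm _ _
  by_contra hc
  push Not at hc
  have : 0 < ‖p x‖ := lt_of_le_of_lt (norm_nonneg _) hc
  (clear * - h3 hc this; nlinarith)

lemma norm_pi_le {v : H →L[ℂ] H} (hv : v * star v * v = v) (x : H) : ‖v x‖ ≤ ‖x‖ := by
  have hp : star (star v * v) = star v * v := by simp [star_mul]
  have hp2 : (star v * v) * (star v * v) = star v * v := by
    rw [mul_assoc, ← mul_assoc v, hv]
  have h1 : ‖v x‖ ^ 2 = ‖⟪x, (star v * v) x⟫_ℂ‖ := by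
    have : ⟪x, (star v * v) x⟫_ℂ = ⟪v x, v x⟫_ℂ := by
      rw [show (star v * v) x = star v (v x) from rfl, ContinuousLinearMap.star_eq_adjoint,
        ContinuousLinearMap.adjoint_inner_right]
    rw [this, inner_self_eq_norm_sq_to_K]
    simp
  have h2 : ‖v x‖ ^ 2 ≤ ‖x‖ ^ 2 := by
    rw [h1]
    refine (norm_inner_le_norm _ _).trans ?_
    have := norm_proj_le hp hp2 x
    (clear * - this; nlinarith [norm_nonneg x])
  exact le_of_sq_le_sq h2 (norm_nonneg _)
where
  le_of_sq_le_sq {a b : ℝ} (h : a ^ 2 ≤ b ^ 2) (hb : 0 ≤ b) : a ≤ b := by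
    by_contra hc
    push Not at hc
    (clear * - h hb hc; nlinarith)

lemma q_proj {v : H →L[ℂ] H} (hv : v * star v * v = v) :
    star (v * star v) = v * star v ∧ (v * star v) * (v * star v) = v * star v := by
  refine ⟨by simp [star_mul], ?_⟩
  rw [← mul_assoc, hv]

lemma Le.norm_le {v w : H →L[ℂ] H} (hv : v * star v * v = v) (h : Le v w) (x : H) :
    ‖v x‖ ≤ ‖w x‖ := by
  have : v x = (v * star v) (w x) := by
    conv_lhs => rw [← h.2]
    rfl
  rw [this]
  exact norm_proj_le (q_proj hv).1 (q_proj hv).2 _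

/-- the difference -/
lemma Le.diff {v w : H →L[ℂ] H} (hv : v * star v * v = v) (hw : w * star w * w = w)
    (h : Le v w) :
    star (w - v) * (w - v) = star w * w - star v * v ∧
      (w - v) * star (w - v) = w * star w - v * star v ∧
      (w - v) * star (w - v) * (w - v) = w - v := by
  have a1 := h.star_mul_right hv
  have a2 := h.mul_star_left hv
  have a3 := h.star_mul_left hv
  have a4 := h.mul_star_right hv
  have b1 : star (w - v) * (w - v) = star w * w - star v * v := by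
    rw [star_sub, sub_mul, mul_sub, mul_sub, a1, a3]; abel
  have b2 : (w - v) * star (w - v) = w * star w - v * star v := by
    rw [star_sub, sub_mul, mul_sub, mul_sub, a2, a4]; abel
  refine ⟨b1, b2, ?_⟩
  rw [b2, sub_mul, mul_sub, mul_sub, hw, hv]
  have c1 : w * star w * v = v := by
    rw [mul_assoc, a3]; exact h.1
  have c2 : v * star v * w = v := h.2
  rw [c1, c2]; abel

/-- admissible partial isometries -/
def Adm (A : VonNeumannAlgebra H) (ξ : H) (J : H →L[ℝ] H) (e f : H →L[ℂ] H) (δ : ℝ) :=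
  {v : H →L[ℂ] H // v ∈ A ∧ v * star v * v = v ∧ f * v = v ∧ v * e = v ∧
    Phi J ξ e f v ≤ δ * ‖v ξ‖ ^ 2}

instance (A : VonNeumannAlgebra H) (ξ : H) (J : H →L[ℝ] H) (e f : H →L[ℂ] H) (δ : ℝ) :
    Preorder (Adm A ξ J e f δ) where
  le a b := Le a.1 b.1
  le_refl a := Le.refl a.2.2.1
  le_trans a b c h h' := Le.trans a.2.2.1 b.2.2.1 h h'

end ExhAux

end Pool.Agent.Helper88.CS

end

section

open scoped InnerProductSpace Topology BoundedContinuousFunction

open ContinuousLinearMap Filter MeasureTheory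

namespace Pool.Agent.Helper88.CS

open Pool.Agent.Helper23

open Pool.Agent.Helper78.BC (rm)

variable {H : Type*} [NormedAddCommGroup H] [InnerProductSpace ℂ H] [CompleteSpace H]

variable {A : VonNeumannAlgebra H} {ξ : H} {J : H →L[ℝ] H}
  {Ψ : (ℝ →ᵇ ℂ) →⋆ₐ[ℂ] (H →L[ℂ] H)} {R : H →L[ℂ] H} {D : H →L[ℝ] H}

namespace FullAux

open ExhAux InftyAux

lemma rm_sub (b : H →L[ℂ] H) (v w : H) : rm J b (v - w) = rm J b v - rm J b w := by
  simp [rm]

lemma rm_add_left (b c : H →L[ℂ] H) (v : H) : rm J (b + c) v = rm J b v + rm J c v := by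
  simp [rm]

end FullAux

end Pool.Agent.Helper88.CS

end

end

section

section

open scoped InnerProductSpace Topology

open ContinuousLinearMap Filter

namespace Pool.Agent.Helper23

universe u

variable {H : Type u} [NormedAddCommGroup H] [InnerProductSpace ℂ H] [CompleteSpace H]
  {N : VonNeumannAlgebra H} {ξ : H}

section algebra

variable {A : Type*} [Ring A] [StarRing A] {u v w : A}

theorem iii_e2 (hu : star u * u = 1) (hww : star w * w = 1) (z : A) :
    star (u * w) * (z * (u * (v * star w) * star u)) * (u * w) =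
      star w * (star u * (z * (u * v))) := by
  have : star (u * w) * (z * (u * (v * star w) * star u)) * (u * w) =
      star (u * w) * z * u * v * (star w * ((star u * u) * w)) := by noncomm_ring
  rw [this, hu, one_mul, hww, mul_one, star_mul]
  noncomm_ring

end algebra

end Pool.Agent.Helper23

end

end

section

section

open scoped InnerProductSpace Topology BoundedContinuousFunction

open ContinuousLinearMap Filter MeasureTheory

namespace Pool.Agent.Helper88.CS

open Pool.Agent.Helper23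

open Pool.Agent.Helper78.BC (rm)

variable {H : Type*} [NormedAddCommGroup H] [InnerProductSpace ℂ H] [CompleteSpace H]

variable {A : VonNeumannAlgebra H} {ξ : H} {J : H →L[ℝ] H}

namespace StepAux

lemma rm_mul (hJ : Conj A J) (y z : H →L[ℂ] H) (η : H) :
    rm J z (rm J y η) = rm J (y * z) η := by
  simp only [rm, hJ.J_J, star_mul, mul_apply_eq_comp]

lemma rm_comm (hJ : Conj A J) {x y : H →L[ℂ] H} (hx : x ∈ A) (hy : y ∈ A) (η : H) :
    x (rm J y η) = rm J y (x η) := by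
  have h := hJ.J_comm (star y) (star_mem hy) x hx η
  simp only [rm]
  exact h.symm

lemma norm_r (hJ : Conj A J) {w : H →L[ℂ] H} (hw : w * star w * w = w) (η : H) :
    ‖rm J w η‖ ^ 2 = ‖rm J (w * star w) η‖ ^ 2 := by
  have hw' : star w * star (star w) * star w = star w := by
    conv_rhs => rw [← hw]
    simp only [star_mul, star_star, mul_assoc]
  simp only [rm, hJ.J_norm]
  rw [norm_l hw' (J η)]
  simp only [star_star, star_mul]

lemma pyth_r (hJ : Conj A J) {p : H →L[ℂ] H} (hp : star p = p) (hpp : p * p = p) {η α β : H}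
    (h1 : rm J p η = α) (h2 : η = α + β) : ‖η‖ ^ 2 = ‖α‖ ^ 2 + ‖β‖ ^ 2 := by
  have := pyth hp hpp (J η)
  rw [hJ.J_norm, ← hJ.J_norm (p (J η)), ← hJ.J_norm (J η - p (J η)), map_sub, hJ.J_J] at this
  have h3 : J (p (J η)) = α := by
    rw [← h1, rm, hp]
  rw [h3] at this
  rw [this, show η - α = β by rw [h2]; abel]

lemma swap (hJ : Conj A J) (hξ : J ξ = ξ) {x y : H →L[ℂ] H} (hx : x ∈ A) (hy : y ∈ A) :
    ‖x (rm J y ξ)‖ ^ 2 = ‖(star y) (rm J (star x) ξ)‖ ^ 2 := by
  have h : J (x (rm J y ξ)) = (star y) (rm J (star x) ξ) := by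
    rw [rm_comm hJ (star_mem hy) (star_mem hx)]
    simp only [rm, hξ, star_star]
  rw [← hJ.J_norm, h]

end StepAux

open StepAux in
theorem phi_step (hJ : Conj A J) (hξ : J ξ = ξ) {e f v w : H →L[ℂ] H} (he : IsP A e)
    (hf : IsP A f) (hef : e + f = 1) (hv : v ∈ A) (hv1 : v * star v * v = v) (hfv : f * v = v)
    (hve : v * e = v) (hw : w ∈ A) (hw1 : w * star w * w = w)
    (hfw : (f - v * star v) * w = w) (hwe : w * (e - star v * v) = w) :
    Phi J ξ e f (v + w) ≤ Phi J ξ e f v +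
      4 * ‖w (rm J (e - star v * v) ξ) - (f - v * star v) (rm J w ξ)‖ ^ 2 := by
  obtain ⟨heA, hes, hee⟩ := he
  obtain ⟨hfA, hfs, hff⟩ := hf
  -- the blocks
  obtain ⟨s0, hs0⟩ : ∃ s0, s0 = star v * v := ⟨_, rfl⟩
  obtain ⟨r0, hr0⟩ : ∃ r0, r0 = v * star v := ⟨_, rfl⟩
  obtain ⟨s1, hs1⟩ : ∃ s1, s1 = star w * w := ⟨_, rfl⟩
  obtain ⟨r1, hr1⟩ : ∃ r1, r1 = w * star w := ⟨_, rfl⟩
  have s0A : s0 ∈ A := hs0 ▸ mul_mem (star_mem hv) hv
  have r0A : r0 ∈ A := hr0 ▸ mul_mem hv (star_mem hv)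
  have s1A : s1 ∈ A := hs1 ▸ mul_mem (star_mem hw) hw
  have r1A : r1 ∈ A := hr1 ▸ mul_mem hw (star_mem hw)
  have s0s : star s0 = s0 := by rw [hs0]; simp
  have r0s : star r0 = r0 := by rw [hr0]; simp
  have s1s : star s1 = s1 := by rw [hs1]; simp
  have r1s : star r1 = r1 := by rw [hr1]; simp
  have r0v : r0 * v = v := by rw [hr0]; exact hv1
  have vs0 : v * s0 = v := by rw [hs0, ← mul_assoc]; exact hv1
  have r1w : r1 * w = w := by rw [hr1]; exact hw1
  have ws1 : w * s1 = w := by rw [hs1, ← mul_assoc]; exact hw1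
  have s0s0 : s0 * s0 = s0 := by
    nth_rewrite 1 [hs0]; rw [mul_assoc, vs0, ← hs0]
  have r0r0 : r0 * r0 = r0 := by
    nth_rewrite 2 [hr0]; rw [← mul_assoc, r0v, ← hr0]
  have s1s1 : s1 * s1 = s1 := by
    nth_rewrite 1 [hs1]; rw [mul_assoc, ws1, ← hs1]
  have r1r1 : r1 * r1 = r1 := by
    nth_rewrite 2 [hr1]; rw [← mul_assoc, r1w, ← hr1]
  have s0e : s0 * e = s0 := by rw [hs0, mul_assoc, hve]
  have es0 : e * s0 = s0 := by
    have := congrArg star s0e
    rwa [star_mul, s0s, hes] at this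
  have fr0 : f * r0 = r0 := by rw [hr0, ← mul_assoc, hfv]
  have r0f : r0 * f = r0 := by
    have := congrArg star fr0
    rwa [star_mul, r0s, hfs] at this
  rw [← hs0] at hwe
  rw [← hr0] at hfw
  have ws0 : w * s0 = 0 := by
    rw [← hwe, mul_assoc, sub_mul, es0, s0s0, sub_self, mul_zero]
  have r0w : r0 * w = 0 := by
    rw [← hfw, ← mul_assoc, mul_sub, r0f, r0r0, sub_self, zero_mul]
  have s1s0 : s1 * s0 = 0 := by rw [hs1, mul_assoc, ws0, mul_zero]
  have s0s1 : s0 * s1 = 0 := by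
    have := congrArg star s1s0
    rwa [star_mul, s0s, s1s, star_zero] at this
  have r0r1 : r0 * r1 = 0 := by rw [hr1, ← mul_assoc, r0w, zero_mul]
  have r1r0 : r1 * r0 = 0 := by
    have := congrArg star r0r1
    rwa [star_mul, r0s, r1s, star_zero] at this
  have vs1 : v * s1 = 0 := by rw [← vs0, mul_assoc, s0s1, mul_zero]
  have r1v : r1 * v = 0 := by rw [← r0v, ← mul_assoc, r1r0, zero_mul]
  have we : w * e = w := by
    have : w * (e - s0) = w * e - w * s0 := mul_sub _ _ _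
    rw [ws0, sub_zero] at this
    rw [← this, hwe]
  have fw : f * w = w := by
    have : (f - r0) * w = f * w - r0 * w := sub_mul _ _ _
    rw [r0w, sub_zero] at this
    rw [← this, hfw]
  have s1e : s1 * e = s1 := by rw [hs1, mul_assoc, we]
  have es1 : e * s1 = s1 := by
    have := congrArg star s1e
    rwa [star_mul, s1s, hes] at this
  have fr1 : f * r1 = r1 := by rw [hr1, ← mul_assoc, fw]
  have r1f : r1 * f = r1 := by
    have := congrArg star fr1
    rwa [star_mul, r1s, hfs] at this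
  have svw : star v * w = 0 := by
    have h1 : star v * r0 = star v := by
      have := congrArg star r0v
      rwa [star_mul, r0s] at this
    rw [← h1, mul_assoc, r0w, mul_zero]
  have swv : star w * v = 0 := by
    have := congrArg star svw
    rwa [star_mul, star_star, star_zero] at this
  have wsv : w * star v = 0 := by
    have h1 : s0 * star v = star v := by
      have := congrArg star vs0
      rwa [star_mul, s0s] at this
    rw [← h1, ← mul_assoc, ws0, zero_mul]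
  have vsw : v * star w = 0 := by
    have := congrArg star wsv
    rwa [star_mul, star_star, star_zero] at this
  have hS : star (v + w) * (v + w) = s0 + s1 := by
    rw [star_add, add_mul, mul_add, mul_add, svw, swv, ← hs0, ← hs1]; abel
  have hR : (v + w) * star (v + w) = r0 + r1 := by
    rw [star_add, add_mul, mul_add, mul_add, vsw, wsv, ← hr0, ← hr1]; abel
  -- calculus of `x ξ y`
  have key : ∀ (p x : H →L[ℂ] H) (η : H), p (x η) = (p * x) η := fun _ _ _ => rfl
  have kr : ∀ {q x : H →L[ℂ] H} (y : H →L[ℂ] H), q ∈ A → x ∈ A →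
      rm J q (x (rm J y ξ)) = x (rm J (y * q) ξ) := by
    intro q x y hq hx
    rw [← rm_comm hJ hx hq, rm_mul hJ]
  have fA0 : f - r0 ∈ A := sub_mem hfA r0A
  obtain ⟨g, hg⟩ : ∃ g, g = e - (s0 + s1) := ⟨_, rfl⟩
  obtain ⟨k, hk⟩ : ∃ k, k = f - (r0 + r1) := ⟨_, rfl⟩
  have kA : k ∈ A := hk ▸ sub_mem hfA (add_mem r0A r1A)
  have gA : g ∈ A := hg ▸ sub_mem heA (add_mem s0A s1A)
  have eg : e - s0 = s1 + g := by rw [hg]; abel
  have fk : f - r0 = r1 + k := by rw [hk]; abel
  have gs1 : g * s1 = 0 := by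
    rw [hg, sub_mul, add_mul, es1, s0s1, s1s1]; abel
  have r1k : r1 * k = 0 := by
    rw [hk, mul_sub, mul_add, r1f, r1r0, r1r1]; abel
  -- first term
  obtain ⟨α0, hα0⟩ : ∃ α0, α0 = v (rm J s0 ξ) - r0 (rm J v ξ) := ⟨_, rfl⟩
  obtain ⟨α1, hα1⟩ : ∃ α1, α1 = v (rm J s1 ξ) - r0 (rm J w ξ) := ⟨_, rfl⟩
  obtain ⟨β0, hβ0⟩ : ∃ β0, β0 = w (rm J s0 ξ) - r1 (rm J v ξ) := ⟨_, rfl⟩
  obtain ⟨β1, hβ1⟩ : ∃ β1, β1 = w (rm J s1 ξ) - r1 (rm J w ξ) := ⟨_, rfl⟩
  have t1 : ‖(v + w) (rm J (s0 + s1) ξ) - (r0 + r1) (rm J (v + w) ξ)‖ ^ 2 =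
      ‖α0 + α1‖ ^ 2 + ‖β0 + β1‖ ^ 2 := by
    refine pyth_l r0s r0r0 (α := α0 + α1) (β := β0 + β1) ?_ ?_
    · rw [map_sub, key, key, mul_add, mul_add, r0v, r0w, r0r0, r0r1, add_zero, add_zero,
        rm_add, rm_add, map_add, map_add, hα0, hα1]
      abel
    · rw [hα0, hα1, hβ0, hβ1, rm_add, rm_add]
      simp only [add_apply, map_add]
      abel
  have t2 : ‖α0 + α1‖ ^ 2 = ‖α0‖ ^ 2 + ‖α1‖ ^ 2 := by
    refine pyth_r hJ s0s s0s0 (α := α0) (β := α1) ?_ rfl
    rw [rm_vadd, hα0, hα1, rm_vsub, rm_vsub, kr _ s0A hv, kr _ s0A r0A, kr _ s0A hv,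
      kr _ s0A r0A, s0s0, vs0, s1s0, ws0]
    simp only [rm_zero, map_zero, sub_zero, add_zero]
  have t3 : ‖β0 + β1‖ ^ 2 = ‖β0‖ ^ 2 + ‖β1‖ ^ 2 := by
    refine pyth_r hJ s0s s0s0 (α := β0) (β := β1) ?_ rfl
    rw [rm_vadd, hβ0, hβ1, rm_vsub, rm_vsub, kr _ s0A hw, kr _ s0A r1A, kr _ s0A hw,
      kr _ s0A r1A, s0s0, vs0, s1s0, ws0]
    simp only [rm_zero, map_zero, sub_zero, add_zero]
  -- second term
  have t4 : ‖(s0 + s1) (rm J (e - (s0 + s1)) ξ)‖ ^ 2 =
      ‖s0 (rm J g ξ)‖ ^ 2 + ‖s1 (rm J g ξ)‖ ^ 2 := by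
    rw [← hg]
    refine pyth_l s0s s0s0 ?_ (add_apply _ _ _)
    rw [key, mul_add, s0s0, s0s1, add_zero]
  have t5 : ‖s0 (rm J (e - s0) ξ)‖ ^ 2 = ‖s0 (rm J s1 ξ)‖ ^ 2 + ‖s0 (rm J g ξ)‖ ^ 2 := by
    refine pyth_r hJ s1s s1s1 (α := s0 (rm J s1 ξ)) (β := s0 (rm J g ξ)) ?_ ?_
    · rw [kr _ s1A s0A, eg, add_mul, s1s1, gs1, add_zero]
    · rw [eg, rm_add, map_add]
  -- third term
  have t6 : ‖(f - (r0 + r1)) (rm J (r0 + r1) ξ)‖ ^ 2 =
      ‖k (rm J r0 ξ)‖ ^ 2 + ‖k (rm J r1 ξ)‖ ^ 2 := by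
    rw [← hk]
    refine pyth_r hJ r0s r0r0 (α := k (rm J r0 ξ)) (β := k (rm J r1 ξ)) ?_ ?_
    · rw [kr _ r0A kA, add_mul, r0r0, r1r0, add_zero]
    · rw [rm_add, map_add]
  have t7 : ‖(f - r0) (rm J r0 ξ)‖ ^ 2 = ‖r1 (rm J r0 ξ)‖ ^ 2 + ‖k (rm J r0 ξ)‖ ^ 2 := by
    refine pyth_l r1s r1r1 (α := r1 (rm J r0 ξ)) (β := k (rm J r0 ξ)) ?_ ?_
    · rw [key, fk, mul_add, r1r1, r1k, add_zero]
    · rw [fk, add_apply]
  -- the cross terms
  have nr : ∀ {x y : H →L[ℂ] H}, x ∈ A → y ∈ A → y * star y * y = y → y * star y ∈ A →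
      ‖x (rm J y ξ)‖ ^ 2 = ‖x (rm J (y * star y) ξ)‖ ^ 2 := by
    intro x y hx hy h1 h2
    rw [rm_comm hJ hx hy, rm_comm hJ hx h2, norm_r hJ h1]
  have c1 : ‖v (rm J s1 ξ)‖ ^ 2 = ‖s0 (rm J s1 ξ)‖ ^ 2 := by rw [norm_l hv1, ← hs0]
  have c2 : ‖r0 (rm J w ξ)‖ ^ 2 = ‖r1 (rm J r0 ξ)‖ ^ 2 := by
    rw [nr r0A hw hw1 (hr1 ▸ r1A), ← hr1, swap hJ hξ r0A r1A, r0s, r1s]
  have c3 : ‖w (rm J s0 ξ)‖ ^ 2 = ‖s0 (rm J s1 ξ)‖ ^ 2 := by
    rw [norm_l hw1, ← hs1, swap hJ hξ s1A s0A, s0s, s1s]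
  have c4 : ‖r1 (rm J v ξ)‖ ^ 2 = ‖r1 (rm J r0 ξ)‖ ^ 2 := by
    rw [nr r1A hv hv1 (hr0 ▸ r0A), ← hr0]
  have nsub : ∀ x y : H, ‖x - y‖ ^ 2 ≤ 2 * ‖x‖ ^ 2 + 2 * ‖y‖ ^ 2 := by
    intro x y
    have h1 := norm_sub_le x y
    have h2 := norm_nonneg (x - y)
    (clear * - h1 h2; nlinarith [sq_nonneg (‖x‖ - ‖y‖), norm_nonneg x, norm_nonneg y])
  have b1 := nsub (v (rm J s1 ξ)) (r0 (rm J w ξ))
  have b2 := nsub (w (rm J s0 ξ)) (r1 (rm J v ξ))
  rw [c1, c2, ← hα1] at b1
  rw [c3, c4, ← hβ0] at b2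
  -- the defect
  have d1 : ‖w (rm J (e - s0) ξ) - (f - r0) (rm J w ξ)‖ ^ 2 =
      ‖w (rm J (e - s0) ξ) - r1 (rm J w ξ)‖ ^ 2 + ‖-(k (rm J w ξ))‖ ^ 2 := by
    refine pyth_l r1s r1r1 ?_ ?_
    · rw [map_sub, key, key, r1w, fk, mul_add, r1r1, r1k, add_zero]
    · rw [fk, add_apply]; abel
  have d2 : ‖-(k (rm J w ξ))‖ ^ 2 = ‖k (rm J r1 ξ)‖ ^ 2 := by
    rw [norm_neg, nr kA hw hw1 (hr1 ▸ r1A), ← hr1]
  have d3 : ‖w (rm J (e - s0) ξ) - r1 (rm J w ξ)‖ ^ 2 = ‖β1‖ ^ 2 + ‖w (rm J g ξ)‖ ^ 2 := by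
    refine pyth_r hJ s1s s1s1 (α := β1) (β := w (rm J g ξ)) ?_ ?_
    · rw [rm_vsub, kr _ s1A hw, kr _ s1A r1A, eg, add_mul, s1s1, gs1, add_zero, ws1, hβ1]
    · rw [hβ1, eg, rm_add, map_add]; abel
  have d4 : ‖w (rm J g ξ)‖ ^ 2 = ‖s1 (rm J g ξ)‖ ^ 2 := by rw [norm_l hw1, ← hs1]
  unfold Phi
  rw [hS, hR, ← hs0, ← hr0, t1, t2, t3, t4, t6, d1, d2, d3, d4, t5, t7, ← hα0]
  have p1 := sq_nonneg ‖β1‖
  have p2 := sq_nonneg ‖s1 (rm J g ξ)‖
  have p3 := sq_nonneg ‖k (rm J r1 ξ)‖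
  linarith

end Pool.Agent.Helper88.CS

end

end

section

section

open scoped InnerProductSpace Topology BoundedContinuousFunction

open ContinuousLinearMap Filter MeasureTheory

namespace Pool.Agent.Helper88.CS

open Pool.Agent.Helper23

open Pool.Agent.Helper78.BC (rm)

variable {H : Type*} [NormedAddCommGroup H] [InnerProductSpace ℂ H] [CompleteSpace H]

variable {A : VonNeumannAlgebra H} {J : H →L[ℝ] H}

namespace JUniqAux

open Pool.Agent.Helper43.TTF Pool.Agent.Helper23.TTA Pool.Agent.Helper70.U8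

variable {κ : H}

/-- the operator `J x J` for a bare conjugation -/
noncomputable def cj (hJ : Conj A J) (x : H →L[ℂ] H) : H →L[ℂ] H :=
  LinearMap.mkContinuous
    { toFun := fun v => J (x (J v))
      map_add' := by intro v w; simp only [map_add]
      map_smul' := by
        intro c v
        rw [hJ.J_conj, map_smul, hJ.J_conj, Complex.conj_conj, RingHom.id_apply] } ‖x‖
    (by
      intro v
      change ‖J (x (J v))‖ ≤ _
      rw [hJ.J_norm]
      refine (x.le_opNorm _).trans ?_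
      rw [hJ.J_norm])

lemma cj_apply (hJ : Conj A J) (x : H →L[ℂ] H) (v : H) : cj hJ x v = J (x (J v)) := rfl

lemma inner_J (hJ : Conj A J) (v w : H) : ⟪J v, w⟫_ℂ = ⟪J w, v⟫_ℂ := by
  have h := hJ.J_inner v (J w)
  rwa [hJ.J_J] at h

lemma cj_mem (hJ : Conj A J) {a : H →L[ℂ] H} (ha : a ∈ A) : cj hJ a ∈ A.commutant := by
  rw [VonNeumannAlgebra.mem_commutant_iff]
  intro y hy
  apply ContinuousLinearMap.ext
  intro v
  rw [mul_apply_eq_comp, mul_apply_eq_comp, cj_apply, cj_apply, hJ.J_comm a ha y hy]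

end JUniqAux

end Pool.Agent.Helper88.CS

end

end
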