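import Pool.Agent.Helper23.FB.Inst

/-!
Parts of Helper23.FA.L00_18, Helper23.FA.L00_00, Helper23.FA.L00_15, Helper23.FA.L00_19, Helper23.FA.L00_07, Helper23.FA.L01_16, Helper23.FA.L01_18, Helper23.FA.L01_14, Helper23.FA.L01_19, Helper23.FA.L01_05
-/

attribute [local instance 5000]
  Pool.Agent.Helper23.FB.Inst.rCharZero Pool.Agent.Helper23.FB.Inst.rALM
  Pool.Agent.Helper23.FB.Inst.rARM Pool.Agent.Helper23.FB.Inst.rALSM
  Pool.Agent.Helper23.FB.Inst.rARSM Pool.Agent.Helper23.FB.Inst.rARRLE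
  Pool.Agent.Helper23.FB.Inst.rALRLE Pool.Agent.Helper23.FB.Inst.rARRLT
  Pool.Agent.Helper23.FB.Inst.rALRLT Pool.Agent.Helper23.FB.Inst.rPMRLT
  Pool.Agent.Helper23.FB.Inst.rMPRLT Pool.Agent.Helper23.FB.Inst.rPMM
  Pool.Agent.Helper23.FB.Inst.rMPM Pool.Agent.Helper23.FB.Inst.rPMSM
  Pool.Agent.Helper23.FB.Inst.rMPSM Pool.Agent.Helper23.FB.Inst.rEAOL
  Pool.Agent.Helper23.FB.Inst.rIOR Pool.Agent.Helper23.FB.Inst.rISOR
  Pool.Agent.Helper23.FB.Inst.rFS Pool.Agent.Helper23.FB.Inst.rcCharZero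
  Pool.Agent.Helper23.FB.Inst.rNZD Pool.Agent.Helper23.FB.Inst.rcNZD
  Pool.Agent.Helper23.FB.Inst.bSemiring Pool.Agent.Helper23.FB.Inst.bStar
  Pool.Agent.Helper23.FB.Inst.bAlg Pool.Agent.Helper23.FB.Inst.bSub
  Pool.Agent.Helper23.FB.Inst.bMul Pool.Agent.Helper23.FB.Inst.bAdd
  Pool.Agent.Helper23.FB.Inst.iRing Pool.Agent.Helper23.FB.Inst.iSemiring
  Pool.Agent.Helper23.FB.Inst.iAlgC Pool.Agent.Helper23.FB.Inst.iSMulC
  Pool.Agent.Helper23.FB.Inst.iModC Pool.Agent.Helper23.FB.Inst.iAlgR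
  Pool.Agent.Helper23.FB.Inst.iSMulR Pool.Agent.Helper23.FB.Inst.iModR
  Pool.Agent.Helper23.FB.Inst.iMonoid Pool.Agent.Helper23.FB.Inst.iSemigroup
  Pool.Agent.Helper23.FB.Inst.iMulOneClass Pool.Agent.Helper23.FB.Inst.iMul
  Pool.Agent.Helper23.FB.Inst.iAdd Pool.Agent.Helper23.FB.Inst.iSub
  Pool.Agent.Helper23.FB.Inst.iNeg Pool.Agent.Helper23.FB.Inst.iAddCommMonoid
  Pool.Agent.Helper23.FB.Inst.iAddCommGroup Pool.Agent.Helper23.FB.Inst.iAddGroup
  Pool.Agent.Helper23.FB.Inst.iAddMonoid Pool.Agent.Helper23.FB.Inst.iSMulZeroC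
  Pool.Agent.Helper23.FB.Inst.iMulActC Pool.Agent.Helper23.FB.Inst.iDSMulC
  Pool.Agent.Helper23.FB.Inst.iDSMulR Pool.Agent.Helper23.FB.Inst.iSNAG
  Pool.Agent.Helper23.FB.Inst.iSNACG Pool.Agent.Helper23.FB.Inst.iNorm
  Pool.Agent.Helper23.FB.Inst.iNSC' Pool.Agent.Helper23.FB.Inst.iNSR'
  Pool.Agent.Helper23.FB.Inst.iTop Pool.Agent.Helper23.FB.Inst.iT2 Pool.Agent.Helper23.FB.Inst.iTR
  Pool.Agent.Helper23.FB.Inst.iSCC Pool.Agent.Helper23.FB.Inst.iIST
  Pool.Agent.Helper23.FB.Inst.iSCCR Pool.Agent.Helper23.FB.Inst.iISTR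
  Pool.Agent.Helper23.FB.Inst.iZHC Pool.Agent.Helper23.FB.Inst.iAHC
  Pool.Agent.Helper23.FB.Inst.iAMHC Pool.Agent.Helper23.FB.Inst.iMAHC
  Pool.Agent.Helper23.FB.Inst.lTop Pool.Agent.Helper23.FB.Inst.lUnif
  Pool.Agent.Helper23.FB.Inst.lACM Pool.Agent.Helper23.FB.Inst.lACG
  Pool.Agent.Helper23.FB.Inst.lSNAG Pool.Agent.Helper23.FB.Inst.lSNACG
  Pool.Agent.Helper23.FB.Inst.lNACG Pool.Agent.Helper23.FB.Inst.lNorm
  Pool.Agent.Helper23.FB.Inst.lIPS Pool.Agent.Helper23.FB.Inst.lMod
  Pool.Agent.Helper23.FB.Inst.lSMul Pool.Agent.Helper23.FB.Inst.lT2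
  Pool.Agent.Helper23.FB.Inst.iStar Pool.Agent.Helper23.FB.Inst.iStarMul
  Pool.Agent.Helper23.FB.Inst.iStarAddMonoid Pool.Agent.Helper23.FB.Inst.iStarRing
  Pool.Agent.Helper23.FB.Inst.iNSC Pool.Agent.Helper23.FB.Inst.iSOR
  Pool.Agent.Helper23.FB.Inst.iALM Pool.Agent.Helper23.FB.Inst.iARM
  Pool.Agent.Helper23.FB.Inst.iCFC Pool.Agent.Helper23.FB.Inst.iNCFC
  Pool.Agent.Helper23.FB.Inst.iStarModR Pool.Agent.Helper23.FB.Inst.iStarModC
  Pool.Agent.Helper23.FB.Inst.eStar Pool.Agent.Helper23.FB.Inst.eAdd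
  Pool.Agent.Helper23.FB.Inst.eMul Pool.Agent.Helper23.FB.Inst.eOne
  Pool.Agent.Helper23.FB.Inst.eZero Pool.Agent.Helper23.FB.Inst.eMulAction
  Pool.Agent.Helper23.FB.Inst.eAMHC2 Pool.Agent.Helper23.FB.Inst.eZHC2
  Pool.Agent.Helper23.FB.Inst.lAMHC

namespace Pool.Agent.Helper23
end Pool.Agent.Helper23
namespace Pool.Agent.Helper23.RBF
end Pool.Agent.Helper23.RBF
namespace Pool.Agent.Helper88.CS.PolarAux
end Pool.Agent.Helper88.CS.PolarAux

section

section

open scoped InnerProductSpace Topology BoundedContinuousFunction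

open ContinuousLinearMap Filter MeasureTheory

namespace Pool.Agent.Helper88.CS

open Pool.Agent.Helper23

variable {H : Type*} [NormedAddCommGroup H] [InnerProductSpace ℂ H] [CompleteSpace H]

variable {A : VonNeumannAlgebra H} {ξ : H} {J : H →L[ℝ] H}
  {Ψ : (ℝ →ᵇ ℂ) →⋆ₐ[ℂ] (H →L[ℂ] H)} {R : H →L[ℂ] H} {D : H →L[ℝ] H}

namespace ExhAux

lemma tendsto_apply {T : ℕ → H →L[ℂ] H} {S : H →L[ℂ] H} (hT : ∀ n x, ‖T n x‖ ≤ ‖x‖)
    (h : ∀ x, Tendsto (fun n => T n x) atTop (𝓝 (S x))) {x : ℕ → H} {y : H}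
    (hx : Tendsto x atTop (𝓝 y)) : Tendsto (fun n => T n (x n)) atTop (𝓝 (S y)) := by
  have h1 : Tendsto (fun n => T n (x n - y)) atTop (𝓝 0) := by
    rw [tendsto_zero_iff_norm_tendsto_zero]
    have h2 : Tendsto (fun n => ‖x n - y‖) atTop (𝓝 0) := by
      have := (hx.sub_const y).norm
      simpa using this
    exact squeeze_zero (fun n => norm_nonneg _) (fun n => hT n _) h2
  have h3 := h1.add (h y)
  simp only [zero_add] at h3
  refine h3.congr fun n => ?_
  rw [map_sub]; abel

end ExhAux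

end Pool.Agent.Helper88.CS

end

end

section

section

open scoped InnerProductSpace Topology BoundedContinuousFunction

open ContinuousLinearMap Filter MeasureTheory

namespace Pool.Agent.Helper88.CS

open Pool.Agent.Helper23

set_option linter.unusedSectionVars false

set_option linter.unusedVariables false

variable {H : Type*} [NormedAddCommGroup H] [InnerProductSpace ℂ H] [CompleteSpace H]

variable {A : VonNeumannAlgebra H}

/-- the projection onto the closure of the range of `a` -/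
noncomputable def rp (a : H →L[ℂ] H) : H →L[ℂ] H :=
  (LinearMap.range (a : H →ₗ[ℂ] H)).topologicalClosure.starProjection

namespace PolarAux

theorem apply_mem (a : H →L[ℂ] H) (v : H) :
    a v ∈ (LinearMap.range (a : H →ₗ[ℂ] H)).topologicalClosure :=
  Submodule.le_topologicalClosure _ ⟨v, rfl⟩

theorem rp_closed (a : H →L[ℂ] H) {s : Set H} (hs : IsClosed s) (h : ∀ v, a v ∈ s) (v : H) :
    rp a v ∈ s := by
  have h1 : ((LinearMap.range (a : H →ₗ[ℂ] H)) : Set H) ⊆ s := by
    rintro _ ⟨w, rfl⟩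
    exact h w
  have h2 : rp a v ∈ (LinearMap.range (a : H →ₗ[ℂ] H)).topologicalClosure :=
    Submodule.starProjection_apply_mem _ v
  exact closure_minimal h1 hs h2

theorem rp_star (a : H →L[ℂ] H) : star (rp a) = rp a :=
  (isStarProjection_starProjection (U := (LinearMap.range (a : H →ₗ[ℂ] H)).topologicalClosure)).2

theorem rp_rp (a : H →L[ℂ] H) : rp a * rp a = rp a :=
  (isStarProjection_starProjection (U := (LinearMap.range (a : H →ₗ[ℂ] H)).topologicalClosure)).1

end PolarAux

open PolarAux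

theorem rp_mul (a : H →L[ℂ] H) : rp a * a = a := by
  ext v
  exact Submodule.starProjection_eq_self_iff.2 (apply_mem a v)

theorem mul_rp_star (a : H →L[ℂ] H) : a * rp (star a) = a := by
  have h := congrArg star (rp_mul (star a))
  rwa [star_mul, star_star, rp_star] at h

/-- `rp a` is the smallest projection `e` with `e a = a` -/
theorem mul_rp {a b : H →L[ℂ] H} (h : b * a = a) : b * rp a = rp a := by
  ext v
  exact rp_closed a (s := {y | b y = y}) (isClosed_eq b.continuous continuous_id)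
    (fun w => congrArg (fun T : H →L[ℂ] H => T w) h) v

theorem zero_mul_rp {a b : H →L[ℂ] H} (h : b * a = 0) : b * rp a = 0 := by
  ext v
  exact rp_closed a (s := {y | b y = 0}) (isClosed_eq b.continuous continuous_const)
    (fun w => congrArg (fun T : H →L[ℂ] H => T w) h) v

end Pool.Agent.Helper88.CS

end

section

open scoped InnerProductSpace Topology BoundedContinuousFunction CompactlySupported

open ContinuousLinearMap Filter MeasureTheory

namespace Pool.Agent.Helper88.CS

open Pool.Agent.Helper23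

variable {H : Type*} [NormedAddCommGroup H] [InnerProductSpace ℂ H] [CompleteSpace H]

variable {A : VonNeumannAlgebra H} {J : H →L[ℝ] H} {κ : H}

namespace Trick1Aux

lemma inner_star_mul (T : H →L[ℂ] H) (v : H) :
    inner ℂ v ((star T * T) v) = ((‖T v‖ ^ 2 : ℝ) : ℂ) := by
  rw [mul_apply_eq_comp, ContinuousLinearMap.star_eq_adjoint,
    ContinuousLinearMap.adjoint_inner_right, inner_self_eq_norm_sq_to_K]
  norm_cast

/-- a real function as a complex function -/
noncomputable def emb {K : Type*} [TopologicalSpace K] (f : C(K, ℝ)) : C(K, ℂ) :=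
  ⟨fun x => ((f x : ℝ) : ℂ), by fun_prop⟩

lemma emb_add {K : Type*} [TopologicalSpace K] (f g : C(K, ℝ)) :
    emb (f + g) = emb f + emb g := by ext x; simp [emb]

lemma emb_mul {K : Type*} [TopologicalSpace K] (f g : C(K, ℝ)) :
    emb (f * g) = emb f * emb g := by ext x; simp [emb]

lemma emb_smul {K : Type*} [TopologicalSpace K] (c : ℝ) (f : C(K, ℝ)) :
    emb (c • f) = (c : ℂ) • emb f := by ext x; simp [emb]

lemma star_emb {K : Type*} [TopologicalSpace K] (f : C(K, ℝ)) : star (emb f) = emb f := by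
  ext x; simp [emb]

lemma inner_cfcHom_mul (T : H →L[ℂ] H) (hT : IsStarNormal T) (v : H)
    (h : C(spectrum ℂ T, ℝ)) :
    (inner ℂ v ((cfcHom (R := ℂ) (a := T) hT (emb (h * h))) v)).re =
      ‖cfcHom (R := ℂ) (a := T) hT (emb h) v‖ ^ 2 := by
  have : cfcHom (R := ℂ) (a := T) hT (emb (h * h)) =
      star (cfcHom (R := ℂ) (a := T) hT (emb h)) * (cfcHom (R := ℂ) (a := T) hT (emb h)) := by
    rw [← map_star, star_emb, emb_mul, map_mul]
  rw [this, inner_star_mul, Complex.ofReal_re]

/-- The positive functional `f ↦ ⟨v, f(T) v⟩`. -/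
noncomputable def Lam (T : H →L[ℂ] H) (hT : IsStarNormal T) (v : H) :
    C_c(spectrum ℂ T, ℝ) →ₚ[ℝ] ℝ where
  toFun f := (inner ℂ v ((cfcHom (R := ℂ) (a := T) hT) (emb f.toContinuousMap) v)).re
  map_add' f g := by
    have : (f + g).toContinuousMap = f.toContinuousMap + g.toContinuousMap := rfl
    rw [this, emb_add, map_add]
    simp
  map_smul' c f := by
    have : (c • f).toContinuousMap = c • f.toContinuousMap := rfl
    rw [this, emb_smul, map_smul]
    simp
  monotone' f g hfg := by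
    have h1 : ∃ h : C(spectrum ℂ T, ℝ), g.toContinuousMap = f.toContinuousMap + h * h := by
      refine ⟨⟨fun x => Real.sqrt (g x - f x), by fun_prop⟩, ?_⟩
      ext x
      have : f x ≤ g x := hfg x
      simp only [ContinuousMap.add_apply, ContinuousMap.mul_apply, ContinuousMap.coe_mk]
      rw [Real.mul_self_sqrt (by linarith)]
      change g x = f x + _
      ring
    obtain ⟨h, hh⟩ := h1
    have h2 : (inner ℂ v ((cfcHom (R := ℂ) (a := T) hT) (emb g.toContinuousMap) v)).re =
      (inner ℂ v ((cfcHom (R := ℂ) (a := T) hT) (emb f.toContinuousMap) v)).re +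
      ‖cfcHom (R := ℂ) (a := T) hT (emb h) v‖ ^ 2 := by
      rw [← inner_cfcHom_mul, hh, emb_add, map_add]
      simp
    change (inner ℂ v ((cfcHom (R := ℂ) (a := T) hT) (emb f.toContinuousMap) v)).re ≤
      (inner ℂ v ((cfcHom (R := ℂ) (a := T) hT) (emb g.toContinuousMap) v)).re
    rw [h2]
    have := sq_nonneg ‖cfcHom (R := ℂ) (a := T) hT (emb h) v‖
    (clear * - this; linarith)

instance compX (T : H →L[ℂ] H) : CompactSpace (spectrum ℂ T) :=
  isCompact_iff_compactSpace.mp (spectrum.isCompact T)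

/-- The spectral measure on the complex plane. -/
noncomputable def mu (T : H →L[ℂ] H) (hT : IsStarNormal T) (v : H) : Measure ℂ :=
  (RealRMK.rieszMeasure (Lam T hT v)).map Subtype.val

instance (T : H →L[ℂ] H) (hT : IsStarNormal T) (v : H) : IsFiniteMeasure (mu T hT v) := by
  unfold mu; infer_instance

/-- restriction of a continuous function to the spectrum -/
def res (T : H →L[ℂ] H) (F : ℂ → ℝ) (hF : Continuous F) : C(spectrum ℂ T, ℝ) :=
  ⟨fun x => F x.1, by fun_prop⟩

lemma integral_mu (T : H →L[ℂ] H) (hT : IsStarNormal T) (v : H) (F : ℂ → ℝ)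
    (hF : Continuous F) :
    ∫ x, F x ∂(mu T hT v) = (inner ℂ v (cfcHom (R := ℂ) (a := T) hT (emb (res T F hF)) v)).re := by
  unfold mu
  rw [integral_map (by fun_prop) hF.aestronglyMeasurable]
  exact RealRMK.integral_rieszMeasure (Lam T hT v)
    ⟨res T F hF, HasCompactSupport.of_compactSpace _⟩

lemma integrable_mu (T : H →L[ℂ] H) (hT : IsStarNormal T) (v : H) (F : ℂ → ℝ)
    (hF : Continuous F) : Integrable F (mu T hT v) := by
  unfold mu
  rw [integrable_map_measure hF.aestronglyMeasurable (by fun_prop)]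
  have hc : Continuous (F ∘ (Subtype.val : spectrum ℂ T → ℂ)) := by fun_prop
  exact hc.integrable_of_hasCompactSupport (HasCompactSupport.of_compactSpace _)

lemma integral_mu_sq (T : H →L[ℂ] H) (hT : IsStarNormal T) (v : H) (F : ℂ → ℝ)
    (hF : Continuous F) :
    ∫ x, F x ^ 2 ∂(mu T hT v) = ‖cfc (fun z => ((F z : ℝ) : ℂ)) T v‖ ^ 2 := by
  rw [integral_mu T hT v (fun x => F x ^ 2) (by fun_prop)]
  have h1 : res T (fun x => F x ^ 2) (by fun_prop) = res T F hF * res T F hF := by
    ext x; simp [res, sq]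
  rw [h1, inner_cfcHom_mul, cfc_apply (fun z => ((F z : ℝ) : ℂ)) T hT (by fun_prop)]
  rfl

/-- positive part of `s - t` -/
noncomputable def pt (t s : ℝ) : ℝ := max (s - t) 0

/-- positive part of `-s - t` -/
noncomputable def qt (t s : ℝ) : ℝ := max (-s - t) 0

lemma pt_cont (t : ℝ) : Continuous (pt t) := by unfold pt; fun_prop

lemma qt_cont (t : ℝ) : Continuous (qt t) := by unfold qt; fun_prop

lemma pt_nonneg (t s : ℝ) : 0 ≤ pt t s := le_max_right _ _

lemma qt_nonneg (t s : ℝ) : 0 ≤ qt t s := le_max_right _ _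

/-- `n s / (1 + n s)` -/
noncomputable def cn (n : ℕ) (s : ℝ) : ℝ := (n : ℝ) * s / (1 + n * s)

lemma cn_nonneg (n : ℕ) {s : ℝ} (hs : 0 ≤ s) : 0 ≤ cn n s := by
  unfold cn; (clear * - hs; positivity)

lemma cn_cont {p : ℝ → ℝ} (hp : Continuous p) (hp0 : ∀ s, 0 ≤ p s) (n : ℕ) :
    Continuous (fun s => cn n (p s)) := by
  unfold cn
  refine Continuous.div (by fun_prop) (by fun_prop) (fun s => ?_)
  have := mul_nonneg (Nat.cast_nonneg (α := ℝ) n) (hp0 s)
  (clear * - this; linarith)

/-- continuous approximations -/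
noncomputable def fn (t : ℝ) (n : ℕ) (s : ℝ) : ℝ := cn n (pt t s) - cn n (qt t s)

/-- the spectral symmetry -/
noncomputable def Ft (X : H →L[ℂ] H) (t : ℝ) : H →L[ℂ] H :=
  rp (cfc (pt t) X) - rp (cfc (qt t) X)

lemma pq_zero {t : ℝ} (ht : 0 ≤ t) (s : ℝ) : pt t s * qt t s = 0 := by
  unfold pt qt
  by_cases h : s ≤ t
  · rw [max_eq_right (by (clear * - h; linarith) : s - t ≤ 0), zero_mul]
  · rw [max_eq_right (by linarith : -s - t ≤ 0), mul_zero]

end Trick1Aux

end Pool.Agent.Helper88.CS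

end

end

section

section

open scoped InnerProductSpace Topology BoundedContinuousFunction

open ContinuousLinearMap Filter MeasureTheory

namespace Pool.Agent.Helper88.CS

open Pool.Agent.Helper23

variable {H : Type*} [NormedAddCommGroup H] [InnerProductSpace ℂ H] [CompleteSpace H]

namespace TripleAux

theorem shear : MeasurePreserving
    (fun z : ℝ × (ℝ × ℝ) => (z.1, ((z.2.1 - z.1, z.2.2 - z.1) : ℝ × ℝ)))
    ((volume : Measure ℝ).prod ((volume : Measure ℝ).prod (volume : Measure ℝ)))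
    ((volume : Measure ℝ).prod ((volume : Measure ℝ).prod (volume : Measure ℝ))) := by
  have h := MeasurePreserving.skew_product (μa := (volume : Measure ℝ)) (μb := (volume : Measure ℝ))
    (μc := (volume : Measure ℝ).prod (volume : Measure ℝ))
    (μd := (volume : Measure ℝ).prod (volume : Measure ℝ))
    (f := fun r : ℝ => r) (MeasurePreserving.id _)
    (g := fun r (q : ℝ × ℝ) => ((q.1 - r, q.2 - r) : ℝ × ℝ))
    (by
      show Measurable (fun z : ℝ × (ℝ × ℝ) => ((z.2.1 - z.1, z.2.2 - z.1) : ℝ × ℝ))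
      fun_prop)
    (Eventually.of_forall fun r => by
      have := (measurePreserving_sub_right (volume : Measure ℝ) r).prod
        (measurePreserving_sub_right (volume : Measure ℝ) r)
      exact this.map_eq)
  exact h

theorem integrable3 {h k l : ℝ → ℂ} (hh : Integrable h) (hk : Integrable k) (hl : Integrable l)
    {Φ : ℝ → ℝ → ℂ} (hΦ : Continuous fun p : ℝ × ℝ => Φ p.1 p.2) {C : ℝ}
    (hC : ∀ t s, ‖Φ t s‖ ≤ C) :
    Integrable (fun z : ℝ × (ℝ × ℝ) =>
      h z.1 * (k (z.2.1 - z.1) * (l (z.2.2 - z.1) * Φ z.2.1 z.2.2)))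
      ((volume : Measure ℝ).prod ((volume : Measure ℝ).prod (volume : Measure ℝ))) := by
  have h1 : Integrable (fun z : ℝ × (ℝ × ℝ) => h z.1 * (k z.2.1 * l z.2.2))
      ((volume : Measure ℝ).prod ((volume : Measure ℝ).prod (volume : Measure ℝ))) :=
    hh.mul_prod (hk.mul_prod hl)
  have h2 := (shear.integrable_comp h1.aestronglyMeasurable).2 h1
  have h3 := h2.mul_bdd (c := C) (g := fun z : ℝ × (ℝ × ℝ) => Φ z.2.1 z.2.2)
    (hΦ.comp continuous_snd).aestronglyMeasurable
    (Eventually.of_forall fun z => hC _ _)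
  refine h3.congr (Eventually.of_forall fun z => ?_)
  simp only [Function.comp]
  ring

theorem core {h k l : ℝ → ℂ} (hh : Integrable h) (hk : Integrable k) (hl : Integrable l)
    (hid : ∀ t s, ∫ r, h r * (k (t - r) * l (s - r)) = k t * l s)
    {Φ : ℝ → ℝ → ℂ} (hΦ : Continuous fun p : ℝ × ℝ => Φ p.1 p.2) {C : ℝ}
    (hC : ∀ t s, ‖Φ t s‖ ≤ C) :
    ∫ r, h r * ∫ t, k t * ∫ s, l s * Φ (t + r) (s + r) = ∫ t, k t * ∫ s, l s * Φ t s := by
  have hI := integrable3 hh hk hl hΦ hC
  -- integrability on the plane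
  have hP : ∀ r : ℝ, Integrable (fun q : ℝ × ℝ => k (q.1 - r) * (l (q.2 - r) * Φ q.1 q.2))
      ((volume : Measure ℝ).prod (volume : Measure ℝ)) := by
    intro r
    have h1 : Integrable (fun q : ℝ × ℝ => k (q.1 - r) * l (q.2 - r))
        ((volume : Measure ℝ).prod (volume : Measure ℝ)) :=
      (hk.comp_sub_right r).mul_prod (hl.comp_sub_right r)
    have h3 := h1.mul_bdd (c := C) (g := fun q : ℝ × ℝ => Φ q.1 q.2)
      hΦ.aestronglyMeasurable (Eventually.of_forall fun z => hC _ _)
    refine h3.congr (Eventually.of_forall fun z => ?_)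
    simp only
    ring
  have hprod : ∀ r : ℝ, ∫ q, k (q.1 - r) * (l (q.2 - r) * Φ q.1 q.2)
      ∂((volume : Measure ℝ).prod (volume : Measure ℝ)) =
      ∫ t, k (t - r) * ∫ s, l (s - r) * Φ t s := by
    intro r
    rw [integral_prod _ (hP r)]
    refine integral_congr_ae (Eventually.of_forall fun t => ?_)
    simp only
    exact integral_const_mul _ _
  have htr : ∀ r : ℝ, ∫ t, k t * ∫ s, l s * Φ (t + r) (s + r) =
      ∫ t, k (t - r) * ∫ s, l (s - r) * Φ t s := by
    intro r
    rw [← integral_add_right_eq_self (fun t => k (t - r) * ∫ s, l (s - r) * Φ t s) r]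
    refine integral_congr_ae (Eventually.of_forall fun t => ?_)
    simp only [add_sub_cancel_right]
    congr 1
    rw [← integral_add_right_eq_self (fun s => l (s - r) * Φ (t + r) s) r]
    simp only [add_sub_cancel_right]
  calc ∫ r, h r * ∫ t, k t * ∫ s, l s * Φ (t + r) (s + r)
      = ∫ r, ∫ q : ℝ × ℝ, h r * (k (q.1 - r) * (l (q.2 - r) * Φ q.1 q.2))
          ∂((volume : Measure ℝ).prod (volume : Measure ℝ)) := by
        refine integral_congr_ae (Eventually.of_forall fun r => ?_)
        simp only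
        rw [htr r, ← hprod r, integral_const_mul]
    _ = ∫ q : ℝ × ℝ, (∫ r, h r * (k (q.1 - r) * (l (q.2 - r) * Φ q.1 q.2)))
          ∂((volume : Measure ℝ).prod (volume : Measure ℝ)) :=
        integral_integral_swap hI
    _ = ∫ q : ℝ × ℝ, k (q.1 - 0) * (l (q.2 - 0) * Φ q.1 q.2)
          ∂((volume : Measure ℝ).prod (volume : Measure ℝ)) := by
        refine integral_congr_ae (Eventually.of_forall fun q => ?_)
        simp only [sub_zero]
        have h1 : ∀ r, h r * (k (q.1 - r) * (l (q.2 - r) * Φ q.1 q.2)) =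
            (h r * (k (q.1 - r) * l (q.2 - r))) * Φ q.1 q.2 := fun r => by ring
        simp only [h1]
        rw [integral_mul_const, hid]
        ring
    _ = ∫ t, k t * ∫ s, l s * Φ t s := by
        rw [hprod 0]
        simp only [sub_zero]

end TripleAux

end Pool.Agent.Helper88.CS

end

section

open scoped InnerProductSpace Topology BoundedContinuousFunction

open ContinuousLinearMap Filter MeasureTheory

namespace Pool.Agent.Helper88.CS

open Pool.Agent.Helper23

set_option linter.unusedSectionVars false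

set_option linter.unusedVariables false

variable {H : Type*} [NormedAddCommGroup H] [InnerProductSpace ℂ H] [CompleteSpace H]

variable {A : VonNeumannAlgebra H}

open PolarAux

namespace PolarAux

theorem abs_star' (a : H →L[ℂ] H) : star (CFC.abs a) = CFC.abs a :=
  (CFC.abs_nonneg a).star_eq

theorem norm_abs (a : H →L[ℂ] H) (w : H) : ‖(CFC.abs a) w‖ = ‖a w‖ := by
  have h1 : ⟪(CFC.abs a) w, (CFC.abs a) w⟫_ℂ = ⟪a w, a w⟫_ℂ := by
    have h2 : (CFC.abs a) ((CFC.abs a) w) = (star a) (a w) :=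
      congrArg (fun T : H →L[ℂ] H => T w) (CFC.abs_mul_abs a)
    have h3 : ⟪(star (CFC.abs a)) ((CFC.abs a) w), w⟫_ℂ = ⟪(star a) (a w), w⟫_ℂ := by
      rw [abs_star', h2]
    rwa [star_eq_adjoint, star_eq_adjoint, adjoint_inner_left, adjoint_inner_left] at h3
  rw [inner_self_eq_norm_sq_to_K, inner_self_eq_norm_sq_to_K] at h1
  have h4 : ‖(CFC.abs a) w‖ ^ 2 = ‖a w‖ ^ 2 := by exact_mod_cast h1
  exact (sq_eq_sq₀ (norm_nonneg _) (norm_nonneg _)).1 h4

end PolarAux

end Pool.Agent.Helper88.CS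

end

end

section

section

open scoped InnerProductSpace Topology ENNReal BoundedContinuousFunction

open ContinuousLinearMap Filter MeasureTheory

namespace Pool.Agent.Helper23.ED

open Pool.Agent.Helper23 Pool.Agent.Helper23.RBF

universe u

section fc

variable {H : Type*} [NormedAddCommGroup H] [InnerProductSpace ℂ H] [CompleteSpace H]

/-- the weight `x ↦ Σ ⟪ζ n, x ζ n⟫` -/
noncomputable def wt (ζ : ℕ → H) (x : H →L[ℂ] H) : ℝ≥0∞ :=
  ∑' n, ENNReal.ofReal (⟪ζ n, x (ζ n)⟫_ℂ).re

end fc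

end Pool.Agent.Helper23.ED

end

end

section

section

open scoped InnerProductSpace Topology BoundedContinuousFunction CompactlySupported

open ContinuousLinearMap Filter MeasureTheory

namespace Pool.Agent.Helper88.CS

open Pool.Agent.Helper23

variable {H : Type*} [NormedAddCommGroup H] [InnerProductSpace ℂ H] [CompleteSpace H]

variable {A : VonNeumannAlgebra H} {J : H →L[ℝ] H} {κ : H}

namespace Trick1Aux

lemma star_cfc (X : H →L[ℂ] H) (g : ℝ → ℝ) : star (cfc g X) = cfc g X :=
  IsSelfAdjoint.star_eq (cfc_predicate g X)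

end Trick1Aux

end Pool.Agent.Helper88.CS

end

end

section

section

open scoped InnerProductSpace Topology BoundedContinuousFunction

open ContinuousLinearMap Filter MeasureTheory

namespace Pool.Agent.Helper88.CS

open Pool.Agent.Helper23

set_option linter.unusedSectionVars false

set_option linter.unusedVariables false

variable {H : Type*} [NormedAddCommGroup H] [InnerProductSpace ℂ H] [CompleteSpace H]

variable {A : VonNeumannAlgebra H}

open PolarAux

namespace PolarAux

/-- the partial isometry part of the polar decomposition -/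
theorem exists_ext (a : H →L[ℂ] H) :
    ∃ v : H →L[ℂ] H, v * CFC.abs a = a ∧ v * rp (CFC.abs a) = v := by
  set p := CFC.abs a with hp
  set K := (LinearMap.range (p : H →ₗ[ℂ] H)).topologicalClosure with hK
  set f : H →ₗ[ℂ] K := LinearMap.codRestrict K (p : H →ₗ[ℂ] H) (fun w => apply_mem p w) with hf
  have hd : DenseRange f := by
    intro x
    have hx : (x : H) ∈ closure ((LinearMap.range (p : H →ₗ[ℂ] H)) : Set H) := x.2
    rw [Metric.mem_closure_iff] at hx
    rw [Metric.mem_closure_iff]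
    intro ε hε
    obtain ⟨_, ⟨w, rfl⟩, hw⟩ := hx ε hε
    exact ⟨f w, ⟨w, rfl⟩, hw⟩
  have hn : ∃ C, ∀ x, ‖(a : H →ₗ[ℂ] H) x‖ ≤ C * ‖f x‖ := by
    refine ⟨1, fun x => ?_⟩
    rw [one_mul]
    exact (norm_abs a x).ge
  set v0 := ((a : H →ₗ[ℂ] H)).extendOfNorm f with hv0
  have hv : ∀ w, v0 (f w) = a w := fun w => LinearMap.extendOfNorm_eq hd hn w
  refine ⟨v0.comp K.orthogonalProjectionOnto, ?_, ?_⟩
  · ext w
    change v0 (K.orthogonalProjectionOnto (p w)) = a w
    rw [← hv w]
    congr 1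
    exact Submodule.orthogonalProjectionOnto_mem_subspace_eq_self (f w)
  · ext w
    change v0 (K.orthogonalProjectionOnto (rp p w)) = v0 (K.orthogonalProjectionOnto w)
    congr 1
    exact Submodule.orthogonalProjectionOnto_mem_subspace_eq_self (K.orthogonalProjectionOnto w)

end PolarAux

end Pool.Agent.Helper88.CS

end

end

section

section

open scoped InnerProductSpace Topology BoundedContinuousFunction CompactlySupported

open ContinuousLinearMap Filter MeasureTheory

namespace Pool.Agent.Helper88.CS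

open Pool.Agent.Helper23

variable {H : Type*} [NormedAddCommGroup H] [InnerProductSpace ℂ H] [CompleteSpace H]

variable {A : VonNeumannAlgebra H} {J : H →L[ℝ] H} {κ : H}

namespace Trick1Aux

lemma cn_le_one (n : ℕ) {s : ℝ} (hs : 0 ≤ s) : cn n s ≤ 1 := by
  unfold cn
  have : 0 ≤ (n : ℝ) * s := by (clear * - hs; positivity)
  rw [div_le_one (by linarith)]
  (clear * -; linarith)

lemma cn_tendsto {s : ℝ} (hs : 0 < s) : Tendsto (fun n => cn n s) atTop (𝓝 1) := by
  have h1 : ∀ n : ℕ, cn n s = 1 - 1 / (1 + n * s) := by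
    intro n
    have : (0 : ℝ) < 1 + n * s := by (clear * - hs; positivity)
    unfold cn
    field_simp
    ring
  simp_rw [h1]
  have h2 : Tendsto (fun n : ℕ => 1 + (n : ℝ) * s) atTop atTop :=
    tendsto_atTop_add_const_left _ _ (tendsto_natCast_atTop_atTop.atTop_mul_const hs)
  have h3 : Tendsto (fun n : ℕ => 1 / (1 + (n : ℝ) * s)) atTop (𝓝 0) :=
    tendsto_const_nhds.div_atTop h2
  simpa using h3.const_sub 1

lemma cn_zero (n : ℕ) : cn n 0 = 0 := by simp [cn]

lemma abs_fn_le (t : ℝ) (n : ℕ) (s : ℝ) : |fn t n s| ≤ 1 := by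
  have h1 := cn_nonneg n (pt_nonneg t s)
  have h2 := cn_nonneg n (qt_nonneg t s)
  have h3 := cn_le_one n (pt_nonneg t s)
  have h4 := cn_le_one n (qt_nonneg t s)
  unfold fn
  rw [abs_le]
  constructor <;> linarith

end Trick1Aux

end Pool.Agent.Helper88.CS

end

end

section

section

open scoped InnerProductSpace Topology BoundedContinuousFunction CompactlySupported

open ContinuousLinearMap Filter MeasureTheory

namespace Pool.Agent.Helper88.CS

open Pool.Agent.Helper23

variable {H : Type*} [NormedAddCommGroup H] [InnerProductSpace ℂ H] [CompleteSpace H]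

variable {A : VonNeumannAlgebra H} {J : H →L[ℝ] H} {κ : H}

namespace Trick1Aux

lemma tendsto_rp {X : H →L[ℂ] H} (hX : star X = X) {p : ℝ → ℝ} (hp : Continuous p)
    (hp0 : ∀ s, 0 ≤ p s) (v : H) :
    Tendsto (fun n : ℕ => cfc (fun s => (n : ℝ) * p s / (1 + n * p s)) X v) atTop
      (𝓝 (rp (cfc p X) v)) := by
  have hsX : IsSelfAdjoint X := hX
  have hpos : ∀ n : ℕ, ∀ s, 0 < 1 + (n : ℝ) * p s := fun n s => by
    have := mul_nonneg (Nat.cast_nonneg (α := ℝ) n) (hp0 s)
    (clear * - this; linarith)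
  have hcont : ∀ n : ℕ, Continuous (fun s => (n : ℝ) * p s / (1 + n * p s)) := fun n =>
    Continuous.div (by fun_prop) (by fun_prop) (fun s => (hpos n s).ne')
  have hcont' : ∀ n : ℕ, Continuous (fun s => (n : ℝ) / (1 + n * p s)) := fun n =>
    Continuous.div (by fun_prop) (by fun_prop) (fun s => (hpos n s).ne')
  set P := cfc p X with hP
  set Pn : ℕ → (H →L[ℂ] H) := fun n => cfc (fun s => (n : ℝ) * p s / (1 + n * p s)) X with hPn
  have h1 : ∀ n, ‖Pn n‖ ≤ 1 := by
    intro n
    refine norm_cfc_le zero_le_one ?_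
    intro s _
    have h := hpos n s
    have h' := mul_nonneg (Nat.cast_nonneg (α := ℝ) n) (hp0 s)
    rw [Real.norm_eq_abs, abs_of_nonneg (div_nonneg h' h.le), div_le_one h]
    (clear * -; linarith)
  have h2 : ∀ n : ℕ, 0 < n → ‖Pn n * P - P‖ ≤ 1 / n := by
    intro n hn
    have hn' : (0 : ℝ) < n := by exact_mod_cast hn
    have e1 : Pn n * P - P = cfc (fun s => (n : ℝ) * p s / (1 + n * p s) * p s - p s) X := by
      rw [cfc_sub (fun s => (n : ℝ) * p s / (1 + n * p s) * p s) p X
        (((hcont n).mul hp).continuousOn) hp.continuousOn,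
        cfc_mul (fun s => (n : ℝ) * p s / (1 + n * p s)) p X (hcont n).continuousOn
          hp.continuousOn]
    rw [e1]
    refine norm_cfc_le (by (clear * - hn; positivity)) ?_
    intro s _
    have h := hpos n s
    have e2 : (n : ℝ) * p s / (1 + n * p s) * p s - p s = -(p s / (1 + n * p s)) := by
      field_simp
      ring
    rw [e2, norm_neg, Real.norm_eq_abs, abs_of_nonneg (div_nonneg (hp0 s) h.le),
      div_le_div_iff₀ h hn']
    (clear * - hp0; nlinarith [hp0 s])
  have h3 : ∀ n, Pn n * rp P = Pn n := by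
    intro n
    have e1 : Pn n = cfc (fun s => (n : ℝ) / (1 + n * p s)) X * P := by
      rw [hP, ← cfc_mul (fun s => (n : ℝ) / (1 + n * p s)) p X (hcont' n).continuousOn
          hp.continuousOn]
      simp only [hPn]
      congr 1
      funext s
      ring
    have e2 : P * rp P = P := by
      have := mul_rp_star P
      rwa [star_cfc] at this
    rw [e1, mul_assoc, e2]
  set w := rp P v with hw
  have h4 : ∀ n, Pn n v = Pn n w := by
    intro n
    conv_lhs => rw [← h3 n]
    rfl
  have h5 : w ∈ closure (Set.range P) := by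
    have h6 : w ∈ (LinearMap.range (P : H →ₗ[ℂ] H)).topologicalClosure :=
      Submodule.starProjection_apply_mem _ v
    exact h6
  change Tendsto (fun n => Pn n v) atTop (𝓝 w)
  rw [Metric.tendsto_atTop]
  intro ε hε
  obtain ⟨w', ⟨u, hu⟩, hw'⟩ := Metric.mem_closure_iff.1 h5 (ε / 4) (by (clear * - hε; positivity))
  obtain ⟨N, hN⟩ := exists_nat_gt (4 * ‖u‖ / ε)
  refine ⟨N + 1, fun n hn => ?_⟩
  have hn0 : 0 < n := by omega
  have hn1 : (0 : ℝ) < n := by exact_mod_cast hn0
  rw [dist_eq_norm] at hw' ⊢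
  change ‖Pn n v - w‖ < ε
  rw [h4]
  have e1 : Pn n w - w = Pn n (w - w') + (Pn n * P - P) u - (w - w') := by
    rw [map_sub, sub_apply, mul_apply_eq_comp, hu]
    abel
  have e2 : ‖Pn n (w - w')‖ ≤ ε / 4 := by
    refine ((Pn n).le_opNorm _).trans ?_
    calc ‖Pn n‖ * ‖w - w'‖ ≤ 1 * ‖w - w'‖ := by
          gcongr
          exact h1 n
      _ ≤ ε / 4 := by rw [one_mul]; exact hw'.le
  have e3 : ‖(Pn n * P - P) u‖ ≤ ε / 4 := by
    refine ((Pn n * P - P).le_opNorm _).trans ?_
    calc ‖Pn n * P - P‖ * ‖u‖ ≤ 1 / n * ‖u‖ := by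
          gcongr
          exact h2 n hn0
      _ ≤ ε / 4 := by
          have h6 : 4 * ‖u‖ / ε < n := hN.trans_le (by exact_mod_cast (by omega : N ≤ n))
          rw [div_lt_iff₀ hε] at h6
          rw [one_div, ← div_eq_inv_mul, div_le_iff₀ hn1]
          (clear * - h6; linarith)
  rw [e1]
  calc ‖Pn n (w - w') + (Pn n * P - P) u - (w - w')‖
      ≤ ‖Pn n (w - w') + (Pn n * P - P) u‖ + ‖w - w'‖ := norm_sub_le _ _
    _ ≤ ‖Pn n (w - w')‖ + ‖(Pn n * P - P) u‖ + ‖w - w'‖ := by
        gcongr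
        exact norm_add_le _ _
    _ < ε := by (clear * - hε hw' e2 e3; linarith)

lemma tendsto_Ft {X : H →L[ℂ] H} (hX : star X = X) (t : ℝ) (v : H) :
    Tendsto (fun n => cfc (fn t n) X v) atTop (𝓝 (Ft X t v)) := by
  have h1 := tendsto_rp hX (pt_cont t) (pt_nonneg t) v
  have h2 := tendsto_rp hX (qt_cont t) (qt_nonneg t) v
  have h3 := h1.sub h2
  refine h3.congr ?_
  intro n
  have e1 : cfc (fn t n) X = cfc (fun s => cn n (pt t s)) X - cfc (fun s => cn n (qt t s)) X :=
    cfc_sub _ _ _ (cn_cont (pt_cont t) (pt_nonneg t) n).continuousOn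
      (cn_cont (qt_cont t) (qt_nonneg t) n).continuousOn
  rw [e1]
  rfl

end Trick1Aux

end Pool.Agent.Helper88.CS

end

end

section

section

open scoped InnerProductSpace Topology BoundedContinuousFunction

open ContinuousLinearMap Filter MeasureTheory

namespace Pool.Agent.Helper88.CS

open Pool.Agent.Helper23

set_option linter.unusedSectionVars false

set_option linter.unusedVariables false

variable {H : Type*} [NormedAddCommGroup H] [InnerProductSpace ℂ H] [CompleteSpace H]

variable {A : VonNeumannAlgebra H}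

open PolarAux

namespace PolarAux

theorem eq_mul_rp {p s t : H →L[ℂ] H} (h : s * p = t * p) : s * rp p = t * rp p := by
  have h1 : (s - t) * p = 0 := by rw [sub_mul, h, sub_self]
  have h2 := zero_mul_rp h1
  rwa [sub_mul, sub_eq_zero] at h2

end PolarAux

end Pool.Agent.Helper88.CS

end

end

section

section

open scoped InnerProductSpace Topology BoundedContinuousFunction CompactlySupported

open ContinuousLinearMap Filter MeasureTheory

namespace Pool.Agent.Helper88.CS

open Pool.Agent.Helper23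

variable {H : Type*} [NormedAddCommGroup H] [InnerProductSpace ℂ H] [CompleteSpace H]

variable {A : VonNeumannAlgebra H} {J : H →L[ℝ] H} {κ : H}

namespace Trick1Aux

lemma fn_cont (t : ℝ) (n : ℕ) : Continuous (fn t n) :=
  (cn_cont (pt_cont t) (pt_nonneg t) n).sub (cn_cont (qt_cont t) (qt_nonneg t) n)

end Trick1Aux

end Pool.Agent.Helper88.CS

end

end
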