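import Pool.Agent.Helper23.FB.Inst
import Pool.Agent.Helper23.RBFDefs

/-!
Parts of Helper23.FA.L00_06, Helper23.FA.L00_17, Helper23.FA.L00_19, Helper23.FA.L01_11
-/

attribute [local instance 5000]
  Pool.Agent.Helper23.FB.Inst.rCharZero Pool.Agent.Helper23.FB.Inst.rALM
  Pool.Agent.Helper23.FB.Inst.rARM Pool.Agent.Helper23.FB.Inst.rALSM
  Pool.Agent.Helper23.FB.Inst.rARSM Pool.Agent.Helper23.FB.Inst.rARRLE
  Pool.Agent.Helper23.FB.Inst.rALRLE Pool.Agent.Helper23.FB.Inst.rARRLT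
  Pool.Agent.Helper23.FB.Inst.rALRLT Pool.Agent.Helper23.FB.Inst.rPMRLT
  Pool.Agent.Helper23.FB.Inst.rMPRLT Pool.Agent.Helper23.FB.Inst.rPMM
  Pool.Agent.Helper23.FB.Inst.rMPM Pool.Agent.Helper23.FB.Inst.rPMSM
  Pool.Agent.Helper23.FB.Inst.rMPSM Pool.Agent.Helper23.FB.Inst.rEAOL
  Pool.Agent.Helper23.FB.Inst.rIOR Pool.Agent.Helper23.FB.Inst.rISOR
  Pool.Agent.Helper23.FB.Inst.rFS Pool.Agent.Helper23.FB.Inst.rcCharZero
  Pool.Agent.Helper23.FB.Inst.rNZD Pool.Agent.Helper23.FB.Inst.rcNZD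
  Pool.Agent.Helper23.FB.Inst.bSemiring Pool.Agent.Helper23.FB.Inst.bStar
  Pool.Agent.Helper23.FB.Inst.bAlg Pool.Agent.Helper23.FB.Inst.bSub
  Pool.Agent.Helper23.FB.Inst.bMul Pool.Agent.Helper23.FB.Inst.bAdd
  Pool.Agent.Helper23.FB.Inst.iRing Pool.Agent.Helper23.FB.Inst.iSemiring
  Pool.Agent.Helper23.FB.Inst.iAlgC Pool.Agent.Helper23.FB.Inst.iSMulC
  Pool.Agent.Helper23.FB.Inst.iModC Pool.Agent.Helper23.FB.Inst.iAlgR
  Pool.Agent.Helper23.FB.Inst.iSMulR Pool.Agent.Helper23.FB.Inst.iModR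
  Pool.Agent.Helper23.FB.Inst.iMonoid Pool.Agent.Helper23.FB.Inst.iSemigroup
  Pool.Agent.Helper23.FB.Inst.iMulOneClass Pool.Agent.Helper23.FB.Inst.iMul
  Pool.Agent.Helper23.FB.Inst.iAdd Pool.Agent.Helper23.FB.Inst.iSub
  Pool.Agent.Helper23.FB.Inst.iNeg Pool.Agent.Helper23.FB.Inst.iAddCommMonoid
  Pool.Agent.Helper23.FB.Inst.iAddCommGroup Pool.Agent.Helper23.FB.Inst.iAddGroup
  Pool.Agent.Helper23.FB.Inst.iAddMonoid Pool.Agent.Helper23.FB.Inst.iSMulZeroC
  Pool.Agent.Helper23.FB.Inst.iMulActC Pool.Agent.Helper23.FB.Inst.iDSMulC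
  Pool.Agent.Helper23.FB.Inst.iDSMulR Pool.Agent.Helper23.FB.Inst.iSNAG
  Pool.Agent.Helper23.FB.Inst.iSNACG Pool.Agent.Helper23.FB.Inst.iNorm
  Pool.Agent.Helper23.FB.Inst.iNSC' Pool.Agent.Helper23.FB.Inst.iNSR'
  Pool.Agent.Helper23.FB.Inst.iTop Pool.Agent.Helper23.FB.Inst.iT2 Pool.Agent.Helper23.FB.Inst.iTR
  Pool.Agent.Helper23.FB.Inst.iSCC Pool.Agent.Helper23.FB.Inst.iIST
  Pool.Agent.Helper23.FB.Inst.iSCCR Pool.Agent.Helper23.FB.Inst.iISTR
  Pool.Agent.Helper23.FB.Inst.iZHC Pool.Agent.Helper23.FB.Inst.iAHC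
  Pool.Agent.Helper23.FB.Inst.iAMHC Pool.Agent.Helper23.FB.Inst.iMAHC
  Pool.Agent.Helper23.FB.Inst.lTop Pool.Agent.Helper23.FB.Inst.lUnif
  Pool.Agent.Helper23.FB.Inst.lACM Pool.Agent.Helper23.FB.Inst.lACG
  Pool.Agent.Helper23.FB.Inst.lSNAG Pool.Agent.Helper23.FB.Inst.lSNACG
  Pool.Agent.Helper23.FB.Inst.lNACG Pool.Agent.Helper23.FB.Inst.lNorm
  Pool.Agent.Helper23.FB.Inst.lIPS Pool.Agent.Helper23.FB.Inst.lMod
  Pool.Agent.Helper23.FB.Inst.lSMul Pool.Agent.Helper23.FB.Inst.lT2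
  Pool.Agent.Helper23.FB.Inst.iStar Pool.Agent.Helper23.FB.Inst.iStarMul
  Pool.Agent.Helper23.FB.Inst.iStarAddMonoid Pool.Agent.Helper23.FB.Inst.iStarRing
  Pool.Agent.Helper23.FB.Inst.iNSC Pool.Agent.Helper23.FB.Inst.iSOR
  Pool.Agent.Helper23.FB.Inst.iALM Pool.Agent.Helper23.FB.Inst.iARM
  Pool.Agent.Helper23.FB.Inst.iCFC Pool.Agent.Helper23.FB.Inst.iNCFC
  Pool.Agent.Helper23.FB.Inst.iStarModR Pool.Agent.Helper23.FB.Inst.iStarModC
  Pool.Agent.Helper23.FB.Inst.eStar Pool.Agent.Helper23.FB.Inst.eAdd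
  Pool.Agent.Helper23.FB.Inst.eMul Pool.Agent.Helper23.FB.Inst.eOne
  Pool.Agent.Helper23.FB.Inst.eZero Pool.Agent.Helper23.FB.Inst.eMulAction
  Pool.Agent.Helper23.FB.Inst.eAMHC2 Pool.Agent.Helper23.FB.Inst.eZHC2
  Pool.Agent.Helper23.FB.Inst.lAMHC

namespace Pool.Agent.Helper23
end Pool.Agent.Helper23
namespace Pool.Agent.Helper23.RBF
end Pool.Agent.Helper23.RBF
namespace Pool.Agent.Helper78.BC
end Pool.Agent.Helper78.BC
namespace Pool.Agent.Helper78.BC.Transport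
end Pool.Agent.Helper78.BC.Transport
namespace Pool.Agent.Helper88.CS.InftyAux
end Pool.Agent.Helper88.CS.InftyAux

section

section

open scoped InnerProductSpace Topology

open ContinuousLinearMap Filter

open Pool.Agent.Helper23 Pool.Agent.Helper23.RBF

namespace Pool.Agent.Helper78.BC

universe u

namespace Transport

variable {H : Type u} [NormedAddCommGroup H] [InnerProductSpace ℂ H] [CompleteSpace H]

variable {K : Type u} [NormedAddCommGroup K] [InnerProductSpace ℂ K] [CompleteSpace K]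

/-- The compression of an operator. -/
noncomputable def r (i : K →L[ℂ] H) (x : H →L[ℂ] H) : K →L[ℂ] K := adjoint i ∘L (x ∘L i)

/-- The hypotheses: `i` is an isometry onto the closure of `A ξ`. -/
structure Sub (A : VonNeumannAlgebra H) (ξ : H) (i : K →L[ℂ] H) (κ : K) : Prop where
  isom : ∀ k, adjoint i (i k) = k
  inv : ∀ x ∈ A, ∀ k, i (adjoint i (x (i k))) = x (i k)
  vec : i κ = ξ
  cyc : ∀ (k : K) (ε : ℝ), 0 < ε → ∃ a ∈ A, ‖a ξ - i k‖ < ε

variable {A : VonNeumannAlgebra H} {ξ : H} {i : K →L[ℂ] H} {κ : K}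

lemma r_apply (x : H →L[ℂ] H) (k : K) : r i x k = adjoint i (x (i k)) := rfl

lemma inner_i (k : K) (v : H) : ⟪i k, v⟫_ℂ = ⟪k, adjoint i v⟫_ℂ := (adjoint_inner_right i k v).symm

lemma inner_i' (k : K) (v : H) : ⟪v, i k⟫_ℂ = ⟪adjoint i v, k⟫_ℂ := (adjoint_inner_left i k v).symm

namespace Sub

variable (S : Sub A ξ i κ)

include S

lemma i_norm (k : K) : ‖i k‖ = ‖k‖ := by
  have h : ⟪i k, i k⟫_ℂ = ⟪k, k⟫_ℂ := by rw [inner_i, S.isom]
  rw [inner_self_eq_norm_sq_to_K, inner_self_eq_norm_sq_to_K] at h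
  have h2 : ‖i k‖ ^ 2 = ‖k‖ ^ 2 := by exact_mod_cast h
  exact (sq_eq_sq₀ (norm_nonneg _) (norm_nonneg _)).1 h2

lemma adj_norm (v : H) : ‖adjoint i v‖ ≤ ‖v‖ := by
  have h1 : ‖i‖ ≤ 1 := opNorm_le_bound _ zero_le_one fun k => by rw [S.i_norm, one_mul]
  have h2 := (adjoint i).le_opNorm v
  have h3 : ‖adjoint i‖ = ‖i‖ := LinearIsometryEquiv.norm_map adjoint i
  rw [h3] at h2
  exact h2.trans (mul_le_of_le_one_left (norm_nonneg v) h1)

lemma i_r {x : H →L[ℂ] H} (hx : x ∈ A) (k : K) : i (r i x k) = x (i k) := S.inv x hx k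

lemma i_inj {k k' : K} (h : i k = i k') : k = k' := by rw [← S.isom k, h, S.isom]

/-- the projection commutes with `A` -/
lemma proj_comm {x : H →L[ℂ] H} (hx : x ∈ A) (v : H) :
    x (i (adjoint i v)) = i (adjoint i (x v)) := by
  have h1 : ∀ k : K, ⟪i k, x (i (adjoint i v))⟫_ℂ = ⟪i k, x v⟫_ℂ := by
    intro k
    have e1 : ∀ w, ⟪i k, x w⟫_ℂ = ⟪(star x) (i k), w⟫_ℂ := fun w => by
      rw [ContinuousLinearMap.star_eq_adjoint, adjoint_inner_left]
    rw [e1, e1, ← S.inv (star x) (star_mem hx) k]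
    rw [inner_i (i := i), S.isom, inner_i (i := i)]
  have h2 : adjoint i (x (i (adjoint i v))) = adjoint i (x v) := by
    refine ext_inner_left ℂ fun k => ?_
    rw [← inner_i, ← inner_i]
    exact h1 k
  rw [← h2, S.inv x hx]

lemma r_mul {x : H →L[ℂ] H} {y : H →L[ℂ] H} (hx : x ∈ A) : r i x * r i y = r i (x * y) := by
  ext k
  change adjoint i (x (i (adjoint i (y (i k))))) = adjoint i (x (y (i k)))
  rw [S.proj_comm hx, S.isom]

lemma r_mul' {x : H →L[ℂ] H} {y : H →L[ℂ] H} (hy : y ∈ A) : r i x * r i y = r i (x * y) := by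
  ext k
  change adjoint i (x (i (adjoint i (y (i k))))) = adjoint i (x (y (i k)))
  rw [S.inv y hy]

omit S in
lemma r_star (x : H →L[ℂ] H) : star (r i x) = r i (star x) := by
  refine ContinuousLinearMap.ext fun k => ext_inner_left ℂ fun l => ?_
  rw [ContinuousLinearMap.star_eq_adjoint, adjoint_inner_right, r_apply, r_apply, ← inner_i,
    ContinuousLinearMap.star_eq_adjoint, adjoint_inner_right, ← inner_i']

lemma r_one : r i (1 : H →L[ℂ] H) = 1 := by
  ext k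
  change adjoint i (i k) = k
  exact S.isom k

lemma r_norm (x : H →L[ℂ] H) : ‖r i x‖ ≤ ‖x‖ := by
  refine opNorm_le_bound _ (norm_nonneg x) fun k => ?_
  rw [r_apply]
  refine (S.adj_norm _).trans ((x.le_opNorm _).trans ?_)
  rw [S.i_norm]

lemma r_inj (hsep : ∀ a ∈ A, a ξ = 0 → a = 0) {x y : H →L[ℂ] H} (hx : x ∈ A) (hy : y ∈ A)
    (h : r i x = r i y) : x = y := by
  have h1 : (x - y) ξ = 0 := by
    have h2 : i (r i x κ) = i (r i y κ) := by rw [h]
    rw [S.i_r hx, S.i_r hy, S.vec] at h2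
    rw [sub_apply, h2, sub_self]
  exact sub_eq_zero.1 (hsep _ (sub_mem hx hy) h1)

end Sub

/-- The von Neumann algebra generated by the compressions. -/
noncomputable def B (A : VonNeumannAlgebra H) (i : K →L[ℂ] H) : VonNeumannAlgebra K where
  toStarSubalgebra := StarSubalgebra.centralizer ℂ {c | ∀ x ∈ A, c * r i x = r i x * c}
  centralizer_centralizer' := Set.centralizer_centralizer_centralizer _

variable (S : Sub A ξ i κ)

include S

/-- inner products -/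
lemma inner_r {a : H →L[ℂ] H} (k l : K) : ⟪k, r i a l⟫_ℂ = ⟪i k, a (i l)⟫_ℂ := by
  have _ := S
  rw [r_apply, ← inner_i]

end Transport

end Pool.Agent.Helper78.BC

end

section

open scoped InnerProductSpace Topology

open ContinuousLinearMap Filter

namespace Pool.Agent.Helper88.CS

open Pool.Agent.Helper23

universe u

variable {H : Type u} [NormedAddCommGroup H] [InnerProductSpace ℂ H] [CompleteSpace H]

namespace RealAux

open Pool.Agent.Helper78.BC Pool.Agent.Helper78.BC.Transport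

lemma r_add {K : Type u} [NormedAddCommGroup K] [InnerProductSpace ℂ K] [CompleteSpace K]
    {L : Type u} [NormedAddCommGroup L] [InnerProductSpace ℂ L] [CompleteSpace L]
    (i : K →L[ℂ] L) (x y : L →L[ℂ] L) : r i (x + y) = r i x + r i y := by
  ext k
  change adjoint i (x (i k) + y (i k)) = adjoint i (x (i k)) + adjoint i (y (i k))
  rw [map_add]

lemma r_smul {K : Type u} [NormedAddCommGroup K] [InnerProductSpace ℂ K] [CompleteSpace K]
    {L : Type u} [NormedAddCommGroup L] [InnerProductSpace ℂ L] [CompleteSpace L]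
    (i : K →L[ℂ] L) (c : ℂ) (x : L →L[ℂ] L) : r i (c • x) = c • r i x := by
  ext k
  change adjoint i (c • x (i k)) = c • adjoint i (x (i k))
  rw [map_smul]

end RealAux

end Pool.Agent.Helper88.CS

end

section

open scoped InnerProductSpace Topology ENNReal BoundedContinuousFunction

open ContinuousLinearMap Filter MeasureTheory

namespace Pool.Agent.Helper23.ED

open Pool.Agent.Helper23 Pool.Agent.Helper23.RBF

open Pool.Agent.Helper78.BC.Transport (Sub r)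

universe u

section gns

variable {H : Type u} [NormedAddCommGroup H] [InnerProductSpace ℂ H] [CompleteSpace H]

variable {K : Type u} [NormedAddCommGroup K] [InnerProductSpace ℂ K] [CompleteSpace K]

variable {L : Type u} [NormedAddCommGroup L] [InnerProductSpace ℂ L] [CompleteSpace L]

/-- the domain `{a ∈ N | ψ(a a*) < ∞}` -/
def Dm (N : VonNeumannAlgebra H) (ψ : (H →L[ℂ] H) → ℝ≥0∞) : Set (H →L[ℂ] H) :=
  {a | a ∈ N ∧ ψ (a * star a) ≠ ⊤}

/-- the Hilbert space of the weight; `ρ p` is right multiplication by `p` -/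
structure Gns (N : VonNeumannAlgebra H) (ψ : (H →L[ℂ] H) → ℝ≥0∞) (Λ : (H →L[ℂ] H) → L)
    (ρ : (H →L[ℂ] H) → (L →L[ℂ] L)) : Prop where
  add : ∀ a ∈ Dm N ψ, ∀ b ∈ Dm N ψ, Λ (a + b) = Λ a + Λ b
  smul : ∀ (c : ℂ), ∀ a ∈ Dm N ψ, Λ (c • a) = c • Λ a
  norm : ∀ a ∈ Dm N ψ, ‖Λ a‖ ^ 2 = (ψ (a * star a)).toReal
  mul : ∀ p ∈ N, ∀ a ∈ Dm N ψ, ρ p (Λ a) = Λ (a * p)
  star : ∀ p ∈ N, star (ρ p) = ρ (star p)

/-- the pairs `(a ξ, Λ a)` -/
def Gp (N : VonNeumannAlgebra H) (ψ : (H →L[ℂ] H) → ℝ≥0∞) (ξ : H) (i : K →L[ℂ] H)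
    (Λ : (H →L[ℂ] H) → L) : Set (K × L) :=
  {p | ∃ a ∈ Dm N ψ, i p.1 = a ξ ∧ p.2 = Λ a}

end gns

end Pool.Agent.Helper23.ED

end

section

open scoped InnerProductSpace Topology ENNReal BoundedContinuousFunction

open ContinuousLinearMap Filter MeasureTheory

namespace Pool.Agent.Helper23.ED

open Pool.Agent.Helper23 Pool.Agent.Helper23.RBF

open Pool.Agent.Helper78.BC.Transport (Sub r)

universe u

variable {H : Type u} [NormedAddCommGroup H] [InnerProductSpace ℂ H] [CompleteSpace H]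

variable {N : VonNeumannAlgebra H} {ψ : (H →L[ℂ] H) → ℝ≥0∞}

theorem wt_mono (hψ : IsNSFWeight N ψ) {x y : H →L[ℂ] H} (hx : x ∈ N) (hy : y ∈ N)
    (h0 : 0 ≤ x) (h : x ≤ y) : ψ x ≤ ψ y := by
  have h1 := hψ.add x hx (y - x) (sub_mem hy hx) h0 (sub_nonneg.2 h)
  rw [add_sub_cancel] at h1
  rw [h1]
  exact le_self_add

theorem wt_zero (hψ : IsNSFWeight N ψ) : ψ 0 = 0 := by
  have h := hψ.smul 0 (zero_mem N) le_rfl 0 le_rfl
  rw [smul_zero, ENNReal.ofReal_zero, zero_mul] at h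
  exact h

theorem WtA_mem {a : H →L[ℂ] H} (ha : a ∈ N) : a * star a ∈ N :=
  mul_mem ha (star_mem ha)

theorem WtA_nonneg (a : H →L[ℂ] H) : 0 ≤ a * star a := mul_star_self_nonneg a

theorem Dm_add (hψ : IsNSFWeight N ψ) {a b : H →L[ℂ] H} (ha : a ∈ Dm N ψ) (hb : b ∈ Dm N ψ) :
    a + b ∈ Dm N ψ := by
  refine ⟨add_mem ha.1 hb.1, ?_⟩
  have hA := WtA_mem ha.1
  have hB := WtA_mem hb.1
  have hA0 := WtA_nonneg a
  have hB0 := WtA_nonneg b
  have hle : (a + b) * star (a + b) ≤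
      (a * star a + a * star a) + (b * star b + b * star b) := by
    rw [← sub_nonneg]
    have e : (a * star a + a * star a) + (b * star b + b * star b) - (a + b) * star (a + b) =
        (a - b) * star (a - b) := by
      rw [star_add, star_sub]
      noncomm_ring
    rw [e]
    exact WtA_nonneg _
  have h1 := wt_mono hψ (WtA_mem (add_mem ha.1 hb.1))
    (add_mem (add_mem hA hA) (add_mem hB hB)) (WtA_nonneg _) hle
  refine ne_top_of_le_ne_top ?_ h1
  rw [hψ.add _ (add_mem hA hA) _ (add_mem hB hB) (add_nonneg hA0 hA0) (add_nonneg hB0 hB0),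
    hψ.add _ hA _ hA hA0 hA0, hψ.add _ hB _ hB hB0 hB0]
  exact ENNReal.add_ne_top.2 ⟨ENNReal.add_ne_top.2 ⟨ha.2, ha.2⟩,
    ENNReal.add_ne_top.2 ⟨hb.2, hb.2⟩⟩

theorem Dm_smul (hψ : IsNSFWeight N ψ) (c : ℂ) {a : H →L[ℂ] H} (ha : a ∈ Dm N ψ) :
    c • a ∈ Dm N ψ := by
  refine ⟨N.toStarSubalgebra.smul_mem ha.1 c, ?_⟩
  have e : (c • a) * star (c • a) = ((‖c‖ ^ 2 : ℝ) : ℂ) • (a * star a) := by
    rw [star_smul, smul_mul_smul_comm]
    congr 1
    rw [Complex.star_def, Complex.mul_conj, Complex.normSq_eq_norm_sq]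
  rw [e, hψ.smul _ (WtA_mem ha.1) (WtA_nonneg a) _ (by (clear * -; positivity))]
  exact ENNReal.mul_ne_top ENNReal.ofReal_ne_top ha.2

theorem Dm_mul (hψ : IsNSFWeight N ψ) {a p : H →L[ℂ] H} (ha : a ∈ Dm N ψ) (hp : p ∈ N) :
    a * p ∈ Dm N ψ := by
  refine ⟨mul_mem ha.1 hp, ?_⟩
  have hle : (a * p) * star (a * p) ≤ ((‖p * star p‖ : ℝ) : ℂ) • (a * star a) := by
    have h := CStarAlgebra.star_right_conjugate_le_norm_smul (a := a) (b := p * star p)
      (IsSelfAdjoint.mul_star_self p)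
    have e1 : (a * p) * star (a * p) = a * (p * star p) * star a := by
      rw [star_mul]
      noncomm_ring
    rw [e1]
    refine h.trans (le_of_eq ?_)
    exact (Complex.coe_smul _ _).symm
  have hmem : ((‖p * star p‖ : ℝ) : ℂ) • (a * star a) ∈ N :=
    N.toStarSubalgebra.smul_mem (WtA_mem ha.1) _
  have h1 := wt_mono hψ (WtA_mem (mul_mem ha.1 hp)) hmem (WtA_nonneg _) hle
  refine ne_top_of_le_ne_top ?_ h1
  rw [hψ.smul _ (WtA_mem ha.1) (WtA_nonneg a) _ (norm_nonneg _)]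
  exact ENNReal.mul_ne_top ENNReal.ofReal_ne_top ha.2

end Pool.Agent.Helper23.ED

end

section

open scoped InnerProductSpace Topology ENNReal BoundedContinuousFunction

open ContinuousLinearMap Filter MeasureTheory

namespace Pool.Agent.Helper23.ED

open Pool.Agent.Helper23 Pool.Agent.Helper23.RBF

open Pool.Agent.Helper78.BC.Transport (Sub r)

universe u

variable {H : Type u} [NormedAddCommGroup H] [InnerProductSpace ℂ H] [CompleteSpace H]

variable {K : Type u} [NormedAddCommGroup K] [InnerProductSpace ℂ K] [CompleteSpace K]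

variable {L : Type u} [NormedAddCommGroup L] [InnerProductSpace ℂ L] [CompleteSpace L]

variable {N : VonNeumannAlgebra H} {ψ : (H →L[ℂ] H) → ℝ≥0∞} {ξ : H} {i : K →L[ℂ] H} {κ : K}
  {Λ : (H →L[ℂ] H) → L} {ρ : (H →L[ℂ] H) → (L →L[ℂ] L)}

namespace WtF

theorem Dm_zero (hψ : IsNSFWeight N ψ) : (0 : H →L[ℂ] H) ∈ Dm N ψ := by
  refine ⟨zero_mem N, ?_⟩
  rw [zero_mul, wt_zero hψ]
  exact ENNReal.zero_ne_top

theorem Lam_zero (hψ : IsNSFWeight N ψ) (hG : Gns N ψ Λ ρ) : Λ 0 = 0 := by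
  have h := hG.smul 0 0 (Dm_zero hψ)
  rwa [zero_smul, zero_smul] at h

end WtF

theorem Gp_sub (Sb : Sub N ξ i κ) (hψ : IsNSFWeight N ψ) (hG : Gns N ψ Λ ρ) :
    ∃ Γ : Submodule ℂ (K × L), (Γ : Set (K × L)) = Gp N ψ ξ i Λ := by
  refine ⟨{ carrier := Gp N ψ ξ i Λ, add_mem' := ?_, zero_mem' := ?_, smul_mem' := ?_ }, rfl⟩
  · rintro p q ⟨a, ha, h1, h2⟩ ⟨b, hb, h3, h4⟩
    refine ⟨a + b, Dm_add hψ ha hb, ?_, ?_⟩
    · rw [Prod.fst_add, map_add, h1, h3, add_apply]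
    · rw [Prod.snd_add, hG.add a ha b hb, h2, h4]
  · refine ⟨0, WtF.Dm_zero hψ, ?_, ?_⟩
    · rw [Prod.fst_zero, map_zero, zero_apply]
    · rw [Prod.snd_zero, WtF.Lam_zero hψ hG]
  · rintro c p ⟨a, ha, h1, h2⟩
    refine ⟨c • a, Dm_smul hψ c ha, ?_, ?_⟩
    · rw [Prod.smul_fst, map_smul, h1, smul_apply]
    · rw [Prod.smul_snd, hG.smul c a ha, h2]

end Pool.Agent.Helper23.ED

end

section

open scoped InnerProductSpace Topology ENNReal BoundedContinuousFunction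

open ContinuousLinearMap Filter MeasureTheory

namespace Pool.Agent.Helper23.ED

open Pool.Agent.Helper23 Pool.Agent.Helper23.RBF

open Pool.Agent.Helper78.BC.Transport (Sub r)

universe u

variable {H : Type u} [NormedAddCommGroup H] [InnerProductSpace ℂ H] [CompleteSpace H]

variable {K : Type u} [NormedAddCommGroup K] [InnerProductSpace ℂ K] [CompleteSpace K]

variable {M N : VonNeumannAlgebra H} {E : (H →L[ℂ] H) → (H →L[ℂ] H)} {ξ : H}
  {i : K →L[ℂ] H} {κ : K}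

namespace CoC

lemma r_smul (z : ℂ) (x : H →L[ℂ] H) : r i (z • x) = z • r i x := by
  ext k
  change adjoint i (z • x (i k)) = z • adjoint i (x (i k))
  rw [map_smul]

end CoC

end Pool.Agent.Helper23.ED

end

section

open scoped InnerProductSpace Topology ENNReal BoundedContinuousFunction

open ContinuousLinearMap Filter MeasureTheory

namespace Pool.Agent.Helper23.ED

open Pool.Agent.Helper23 Pool.Agent.Helper23.RBF

open Pool.Agent.Helper78.BC.Transport (Sub r)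

universe u

variable {H : Type u} [NormedAddCommGroup H] [InnerProductSpace ℂ H] [CompleteSpace H]

variable {K : Type u} [NormedAddCommGroup K] [InnerProductSpace ℂ K] [CompleteSpace K]

variable {L : Type u} [NormedAddCommGroup L] [InnerProductSpace ℂ L] [CompleteSpace L]

variable {N : VonNeumannAlgebra H} {ψ : (H →L[ℂ] H) → ℝ≥0∞} {ξ : H} {i : K →L[ℂ] H} {κ : K}
  {Λ : (H →L[ℂ] H) → L} {ρ : (H →L[ℂ] H) → (L →L[ℂ] L)}

namespace WtE

omit [CompleteSpace H] in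
lemma re_mono {x y : H →L[ℂ] H} (h : x ≤ y) (v : H) :
    (⟪v, x v⟫_ℂ).re ≤ (⟪v, y v⟫_ℂ).re := by
  have h1 := ((ContinuousLinearMap.le_def x y).1 h).re_inner_nonneg_right v
  rw [sub_apply, inner_sub_right, map_sub] at h1
  simp only [RCLike.re_to_complex] at h1
  (clear * - h1; linarith)

/-- the weighted sums -/
noncomputable def w (a : ℕ → H →L[ℂ] H) (k n : ℕ) : H →L[ℂ] H :=
  ∑ j ∈ Finset.Ico k n, (((2 : ℝ) ^ (j + 1) : ℝ) : ℂ) • (a j * star (a j))

open scoped ComplexOrder in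
lemma term_nonneg (a : ℕ → H →L[ℂ] H) (j : ℕ) :
    0 ≤ (((2 : ℝ) ^ (j + 1) : ℝ) : ℂ) • (a j * star (a j)) := by
  have h1 : 0 ≤ a j * star (a j) := mul_star_self_nonneg _
  have h2 : (0 : ℂ) ≤ (((2 : ℝ) ^ (j + 1) : ℝ) : ℂ) := by
    exact_mod_cast (by positivity : (0 : ℝ) ≤ 2 ^ (j + 1))
  exact smul_nonneg h2 h1

lemma w_nonneg (a : ℕ → H →L[ℂ] H) (k n : ℕ) : 0 ≤ w a k n :=
  Finset.sum_nonneg fun j _ => term_nonneg a j

lemma w_mem {a : ℕ → H →L[ℂ] H} (ha : ∀ j, a j ∈ N) (k n : ℕ) : w a k n ∈ N := by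
  refine sum_mem fun j _ => ?_
  exact N.toStarSubalgebra.smul_mem (mul_mem (ha j) (star_mem (ha j))) _

lemma w_mono (a : ℕ → H →L[ℂ] H) (k : ℕ) : Monotone (w a k) := by
  intro n m hnm
  exact Finset.sum_le_sum_of_subset_of_nonneg (Finset.Ico_subset_Ico_right hnm)
    fun j _ _ => term_nonneg a j

lemma w_anti (a : ℕ → H →L[ℂ] H) {k l : ℕ} (hkl : k ≤ l) (n : ℕ) : w a l n ≤ w a k n :=
  Finset.sum_le_sum_of_subset_of_nonneg (Finset.Ico_subset_Ico_left hkl)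
    fun j _ _ => term_nonneg a j

lemma w_psi (hψ : IsNSFWeight N ψ) (hG : Gns N ψ Λ ρ) {a : ℕ → H →L[ℂ] H}
    (ha : ∀ j, a j ∈ Dm N ψ) (hn : ∀ j, ‖Λ (a j)‖ ^ 2 ≤ (1 / 8 : ℝ) ^ j) (k n : ℕ) :
    ψ (w a k n) ≤ ENNReal.ofReal (∑ j ∈ Finset.Ico k n, 2 * (1 / 4 : ℝ) ^ j) := by
  have haN : ∀ j, a j ∈ N := fun j => (ha j).1
  induction n with
  | zero =>
    have : w a k 0 = 0 := by simp [w]
    rw [this, wt_zero hψ]
    exact bot_le
  | succ n ih =>
    by_cases hk : k ≤ n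
    · have e1 : w a k (n + 1) = w a k n +
          (((2 : ℝ) ^ (n + 1) : ℝ) : ℂ) • (a n * star (a n)) := by
        rw [w, Finset.sum_Ico_succ_top hk]
        rfl
      have h0 : 0 ≤ a n * star (a n) := mul_star_self_nonneg _
      have hm : a n * star (a n) ∈ N := mul_mem (haN n) (star_mem (haN n))
      rw [e1, hψ.add _ (w_mem haN k n) _ (N.toStarSubalgebra.smul_mem hm _) (w_nonneg a k n)
        (term_nonneg a n), hψ.smul _ hm h0 _ (by positivity), Finset.sum_Ico_succ_top hk,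
        ENNReal.ofReal_add (Finset.sum_nonneg fun j _ => by positivity) (by positivity)]
      refine add_le_add ih ?_
      have h1 : ψ (a n * star (a n)) = ENNReal.ofReal (‖Λ (a n)‖ ^ 2) := by
        rw [hG.norm _ (ha n), ENNReal.ofReal_toReal (ha n).2]
      rw [h1, ← ENNReal.ofReal_mul (by positivity)]
      refine ENNReal.ofReal_le_ofReal ?_
      calc (2 : ℝ) ^ (n + 1) * ‖Λ (a n)‖ ^ 2 ≤ 2 ^ (n + 1) * (1 / 8) ^ n := by
            gcongr
            exact hn n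
        _ = 2 * (1 / 4) ^ n := by
            rw [pow_succ]
            have : (2 : ℝ) ^ n * (1 / 8) ^ n = (1 / 4) ^ n := by
              rw [← mul_pow]; norm_num
            linear_combination 2 * this
    · have h1 : Finset.Ico k (n + 1) = ∅ := Finset.Ico_eq_empty (by omega)
      have : w a k (n + 1) = 0 := by simp [w, h1]
      rw [this, wt_zero hψ]
      exact bot_le

lemma term_le (a : ℕ → H →L[ℂ] H) {k j : ℕ} (hkj : k ≤ j) (u : H) :
    (2 : ℝ) ^ (j + 1) * ‖(star (a j)) u‖ ^ 2 ≤ (⟪u, w a k (j + 1) u⟫_ℂ).re := by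
  have h1 : (((2 : ℝ) ^ (j + 1) : ℝ) : ℂ) • (a j * star (a j)) ≤ w a k (j + 1) := by
    rw [w]
    exact Finset.single_le_sum (f := fun j => (((2 : ℝ) ^ (j + 1) : ℝ) : ℂ) • (a j * star (a j)))
      (fun j _ => term_nonneg a j) (Finset.mem_Ico.2 ⟨hkj, Nat.lt_succ_self j⟩)
  refine le_trans (le_of_eq ?_) (re_mono h1 u)
  have h2 : ⟪u, (a j * star (a j)) u⟫_ℂ = ((‖(star (a j)) u‖ ^ 2 : ℝ) : ℂ) := by
    change ⟪u, a j ((star (a j)) u)⟫_ℂ = _
    have h3 : ⟪u, a j ((star (a j)) u)⟫_ℂ = ⟪(star (a j)) u, (star (a j)) u⟫_ℂ := by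
      conv_rhs => rw [ContinuousLinearMap.star_eq_adjoint, adjoint_inner_left]
      rw [ContinuousLinearMap.star_eq_adjoint]
    rw [h3, inner_self_eq_norm_sq_to_K]
    simp
  rw [smul_apply, inner_smul_right, h2, ← Complex.ofReal_mul, Complex.ofReal_re]

end WtE

end Pool.Agent.Helper23.ED

end

section

open scoped InnerProductSpace Topology ENNReal BoundedContinuousFunction

open ContinuousLinearMap Filter MeasureTheory

namespace Pool.Agent.Helper23.ED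

open Pool.Agent.Helper23 Pool.Agent.Helper23.RBF

open Pool.Agent.Helper78.BC.Transport (Sub r)

universe u

variable {H : Type u} [NormedAddCommGroup H] [InnerProductSpace ℂ H] [CompleteSpace H]

variable {N : VonNeumannAlgebra H} {ψ : (H →L[ℂ] H) → ℝ≥0∞}

namespace WtB

/-- the squares -/
noncomputable def sq (a : H →L[ℂ] H) : H →L[ℂ] H := a * star a

theorem sq_nonneg' (a : H →L[ℂ] H) : 0 ≤ sq a := mul_star_self_nonneg a

theorem sq_mem {a : H →L[ℂ] H} (ha : a ∈ N) : sq a ∈ N := mul_mem ha (star_mem ha)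

/-- the square of the norm -/
noncomputable def q (ψ : (H →L[ℂ] H) → ℝ≥0∞) (a : H →L[ℂ] H) : ℝ := (ψ (sq a)).toReal

theorem q_nonneg (a : H →L[ℂ] H) : 0 ≤ q ψ a := ENNReal.toReal_nonneg

theorem psi_smul (hψ : IsNSFWeight N ψ) {a : H →L[ℂ] H} (ha : a ∈ Dm N ψ) {c : ℝ} (hc : 0 ≤ c) :
    (ψ ((c : ℂ) • sq a)).toReal = c * q ψ a := by
  rw [hψ.smul _ (sq_mem ha.1) (sq_nonneg' a) c hc, ENNReal.toReal_mul, ENNReal.toReal_ofReal hc]
  rfl

theorem sq_smul (c : ℂ) (a : H →L[ℂ] H) : sq (c • a) = ((‖c‖ ^ 2 : ℝ) : ℂ) • sq a := by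
  unfold sq
  rw [star_smul, smul_mul_smul_comm]
  congr 1
  rw [RCLike.star_def, Complex.mul_conj, Complex.normSq_eq_norm_sq]

theorem q_smul (hψ : IsNSFWeight N ψ) (c : ℂ) {a : H →L[ℂ] H} (ha : a ∈ Dm N ψ) :
    q ψ (c • a) = ‖c‖ ^ 2 * q ψ a := by
  unfold q
  rw [sq_smul]
  exact psi_smul hψ ha (by (clear * -; positivity))

theorem q_zero_iff (hψ : IsNSFWeight N ψ) {a : H →L[ℂ] H} (ha : a ∈ Dm N ψ) :
    q ψ a = 0 ↔ a = 0 := by
  constructor
  · intro h
    unfold q at h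
    rw [ENNReal.toReal_eq_zero_iff] at h
    rcases h with h | h
    · have h2 := hψ.faithful _ (sq_mem ha.1) (sq_nonneg' a) h
      exact (CStarRing.mul_star_self_eq_zero_iff a).mp h2
    · exact absurd h ha.2
  · rintro rfl
    unfold q sq
    rw [zero_mul, wt_zero hψ]
    rfl

theorem zero_mem' (hψ : IsNSFWeight N ψ) : (0 : H →L[ℂ] H) ∈ Dm N ψ := by
  refine ⟨zero_mem N, ?_⟩
  rw [zero_mul, wt_zero hψ]
  simp

/-- the norm -/
noncomputable def s (ψ : (H →L[ℂ] H) → ℝ≥0∞) (a : H →L[ℂ] H) : ℝ := √(q ψ a)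

/-- the domain as a submodule -/
noncomputable def DS (hψ : IsNSFWeight N ψ) : Submodule ℂ (H →L[ℂ] H) where
  carrier := Dm N ψ
  add_mem' ha hb := Dm_add hψ ha hb
  zero_mem' := zero_mem' hψ
  smul_mem' c _ ha := Dm_smul hψ c ha

/-- the domain with the norm of the weight -/
def WD (hψ : IsNSFWeight N ψ) : Type u := ↥(DS hψ)

noncomputable instance (hψ : IsNSFWeight N ψ) : AddCommGroup (WD hψ) :=
  inferInstanceAs (AddCommGroup ↥(DS hψ))

noncomputable instance (hψ : IsNSFWeight N ψ) : Module ℂ (WD hψ) :=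
  inferInstanceAs (Module ℂ ↥(DS hψ))

/-- the underlying operator -/
def op {hψ : IsNSFWeight N ψ} (a : WD hψ) : H →L[ℂ] H := (show ↥(DS hψ) from a).1

theorem op_mem {hψ : IsNSFWeight N ψ} (a : WD hψ) : op a ∈ Dm N ψ := (show ↥(DS hψ) from a).2

theorem op_ext {hψ : IsNSFWeight N ψ} {a b : WD hψ} (h : op a = op b) : a = b := Subtype.ext h

theorem op_add {hψ : IsNSFWeight N ψ} (a b : WD hψ) : op (a + b) = op a + op b := rfl

theorem op_sub {hψ : IsNSFWeight N ψ} (a b : WD hψ) : op (a - b) = op a - op b := rfl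

theorem op_zero {hψ : IsNSFWeight N ψ} : op (0 : WD hψ) = 0 := rfl

theorem op_smul {hψ : IsNSFWeight N ψ} (c : ℂ) (a : WD hψ) : op (c • a) = c • op a := rfl

/-- an element of the domain -/
def mk {hψ : IsNSFWeight N ψ} (a : H →L[ℂ] H) (ha : a ∈ Dm N ψ) : WD hψ :=
  (⟨a, ha⟩ : ↥(DS hψ))

theorem op_mk {hψ : IsNSFWeight N ψ} (a : H →L[ℂ] H) (ha : a ∈ Dm N ψ) :
    op (mk (hψ := hψ) a ha) = a := rfl

noncomputable instance (hψ : IsNSFWeight N ψ) : Norm (WD hψ) := ⟨fun a => s ψ (op a)⟩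

theorem norm_def {hψ : IsNSFWeight N ψ} (a : WD hψ) : ‖a‖ = s ψ (op a) := rfl

theorem norm_def' {hψ : IsNSFWeight N ψ} (a : WD hψ) : ‖a‖ = s ψ (op a) := rfl

theorem norm_sq' {hψ : IsNSFWeight N ψ} (a : WD hψ) : ‖a‖ ^ 2 = q ψ (op a) :=
  Real.sq_sqrt (q_nonneg _)

/-- right multiplication -/
noncomputable def Rl (hψ : IsNSFWeight N ψ) {p : H →L[ℂ] H} (hp : p ∈ N) : WD hψ →ₗ[ℂ] WD hψ where
  toFun a := mk (op a * p) (Dm_mul hψ (op_mem a) hp)
  map_add' a b := op_ext (by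
    rw [op_mk, op_add, op_add, op_mk, op_mk, add_mul])
  map_smul' c a := op_ext (by
    rw [op_mk, op_smul, RingHom.id_apply, op_smul, op_mk, smul_mul_assoc])

end WtB

end Pool.Agent.Helper23.ED

end

end

section

section

open scoped InnerProductSpace Topology BoundedContinuousFunction

open ContinuousLinearMap Filter MeasureTheory

namespace Pool.Agent.Helper43.TTF

open Pool.Agent.Helper23

variable {H : Type*} [NormedAddCommGroup H] [InnerProductSpace ℂ H] [CompleteSpace H]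

/-- `f = FR - 1`, real version -/
noncomputable def fr (ρ : ℝ) : ℝ := 2 / (1 + Real.exp ρ) - 1

lemma fr_cont : Continuous fr := by
  unfold fr
  refine Continuous.sub (Continuous.div (by fun_prop) (by fun_prop) ?_) continuous_const
  intro ρ
  positivity

lemma fr_anti {a b : ℝ} (h : a ≤ b) : fr b ≤ fr a := by
  unfold fr
  have h1 : Real.exp a ≤ Real.exp b := Real.exp_le_exp.2 h
  have h2 : 2 / (1 + Real.exp b) ≤ 2 / (1 + Real.exp a) := by
    apply div_le_div_of_nonneg_left (by norm_num) (by positivity)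
    (clear * - h1; linarith)
  (clear * - h2; linarith)

lemma fr_neg (a : ℝ) : fr (-a) = - fr a := by
  unfold fr
  rw [Real.exp_neg]
  have : (0 : ℝ) < Real.exp a := Real.exp_pos a
  field_simp
  ring

lemma fr_pos_lt {a : ℝ} (h : 0 < a) : fr a < 0 := by
  unfold fr
  have h1 : 1 < Real.exp a := by rw [← Real.exp_zero]; exact Real.exp_lt_exp.2 h
  rw [sub_neg, div_lt_one (by positivity)]
  linarith

lemma fr_sq_ge {δ ρ : ℝ} (hδ : 0 < δ) (h : δ ≤ |ρ|) : fr δ ^ 2 ≤ fr ρ ^ 2 := by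
  have h1 := fr_pos_lt hδ
  rcases le_abs.1 h with h2 | h2
  · have h3 := fr_anti h2
    (clear * - h1 h3; nlinarith)
  · have h3 := fr_anti h2
    rw [fr_neg] at h3
    (clear * - h1 h3; nlinarith)

lemma fr_abs_le (ρ : ℝ) : |fr ρ| ≤ 1 := by
  unfold fr
  have h0 : (0 : ℝ) < Real.exp ρ := Real.exp_pos ρ
  have h1 : 0 < 2 / (1 + Real.exp ρ) := by (clear * -; positivity)
  have h2 : 2 / (1 + Real.exp ρ) ≤ 2 := by
    rw [div_le_iff₀ (by positivity)]; nlinarith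
  rw [abs_le]
  constructor <;> linarith

/-- regularised inverse of `fr` -/
noncomputable def hB (n : ℕ) : ℝ →ᵇ ℂ :=
  BoundedContinuousFunction.ofNormedAddCommGroup
    (fun ρ : ℝ => ((fr ρ / (fr ρ ^ 2 + 1 / ((n : ℝ) + 1)) : ℝ) : ℂ))
    (by
      refine Complex.continuous_ofReal.comp (Continuous.div fr_cont
        ((fr_cont.pow 2).add continuous_const) ?_)
      intro ρ
      (clear * -; positivity)) ((n : ℝ) + 1) (by
      intro ρ
      rw [Complex.norm_real, Real.norm_eq_abs, abs_div,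
        abs_of_pos (a := fr ρ ^ 2 + 1 / ((n : ℝ) + 1)) (by (clear * -; positivity)), div_le_iff₀ (by positivity)]
      have h1 := fr_abs_le ρ
      have h2 : (0 : ℝ) < (n : ℝ) + 1 := by (clear * -; positivity)
      have h3 : ((n : ℝ) + 1) * (fr ρ ^ 2 + 1 / ((n : ℝ) + 1)) = ((n : ℝ) + 1) * fr ρ ^ 2 + 1 := by
        (clear * -; field_simp)
      rw [h3]
      have := sq_nonneg (fr ρ)
      (clear * - h1; nlinarith))

lemma hB_apply (n : ℕ) (ρ : ℝ) :
    hB n ρ = ((fr ρ / (fr ρ ^ 2 + 1 / ((n : ℝ) + 1)) : ℝ) : ℂ) := rfl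

end Pool.Agent.Helper43.TTF

end

section

open scoped InnerProductSpace Topology BoundedContinuousFunction

open ContinuousLinearMap Filter MeasureTheory

namespace Pool.Agent.Helper88.CS

open Pool.Agent.Helper23

variable {H : Type*} [NormedAddCommGroup H] [InnerProductSpace ℂ H] [CompleteSpace H]

variable {A : VonNeumannAlgebra H} {ξ : H}

open InftyAux

namespace InftyAux

/-- the candidates: partial isometries with initial projection below `r` and range below `p` -/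
def Cand (A : VonNeumannAlgebra H) (p r w : H →L[ℂ] H) : Prop :=
  w ∈ A ∧ w * star w * w = w ∧ w * r = w ∧ p * w = w

theorem cand_norm_le {p r w : H →L[ℂ] H} (h : Cand A p r w) (ξ : H) :
    ‖(star w * w) ξ‖ ≤ ‖ξ‖ := by
  have h1 : star (star w * w) * (star w * w) = star w * w := by
    rw [star_mul, star_star]
    calc star w * w * (star w * w) = star w * (w * star w * w) := by noncomm_ring
      _ = star w * w := by rw [h.2.1]
  have h2 : ‖star w * w‖ * ‖star w * w‖ = ‖star w * w‖ := by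
    rw [← CStarRing.norm_star_mul_self, h1]
  have h3 : ‖star w * w‖ ≤ 1 := by
    by_contra hc
    push Not at hc
    (clear * - h2 hc; nlinarith [norm_nonneg (star w * w)])
  calc ‖(star w * w) ξ‖ ≤ ‖star w * w‖ * ‖ξ‖ := (star w * w).le_opNorm ξ
    _ ≤ 1 * ‖ξ‖ := by (clear * - h3; gcongr)
    _ = ‖ξ‖ := one_mul _

theorem exists_best (A : VonNeumannAlgebra H) (ξ : H) (p r : H →L[ℂ] H) :
    ∃ w, Cand A p r w ∧ ∀ w', Cand A p r w' → ‖(star w' * w') ξ‖ ≤ 2 * ‖(star w * w) ξ‖ := by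
  have h0 : Cand A p r 0 := ⟨zero_mem A, by simp, by simp, by simp⟩
  let T : Set ℝ := {s | ∃ w, Cand A p r w ∧ s = ‖(star w * w) ξ‖}
  have hne : T.Nonempty := ⟨_, 0, h0, rfl⟩
  have hb : BddAbove T := ⟨‖ξ‖, by rintro s ⟨w, hw, rfl⟩; exact cand_norm_le hw ξ⟩
  by_cases hS : sSup T ≤ 0
  · refine ⟨0, h0, fun w' hw' => ?_⟩
    have h1 : ‖(star w' * w') ξ‖ ≤ sSup T := le_csSup hb ⟨w', hw', rfl⟩
    have h2 : 0 ≤ ‖(star (0 : H →L[ℂ] H) * 0) ξ‖ := norm_nonneg _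
    (clear * - hS h1 h2; linarith)
  · push Not at hS
    obtain ⟨s, ⟨w, hw, rfl⟩, hs⟩ := exists_lt_of_lt_csSup hne (show sSup T / 2 < sSup T by (clear * - hS; linarith))
    refine ⟨w, hw, fun w' hw' => ?_⟩
    have h1 : ‖(star w' * w') ξ‖ ≤ sSup T := le_csSup hb ⟨w', hw', rfl⟩
    (clear * - hs h1; linarith)

/-- the choice at stage `n` -/
noncomputable def ch (A : VonNeumannAlgebra H) (ξ : H) (p r : H →L[ℂ] H) : H →L[ℂ] H :=
  (exists_best A ξ p r).choose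

theorem ch_cand (A : VonNeumannAlgebra H) (ξ : H) (p r : H →L[ℂ] H) :
    Cand A p r (ch A ξ p r) := (exists_best A ξ p r).choose_spec.1

theorem ch_best (A : VonNeumannAlgebra H) (ξ : H) (p r : H →L[ℂ] H) {w' : H →L[ℂ] H}
    (h : Cand A p r w') :
    ‖(star w' * w') ξ‖ ≤ 2 * ‖(star (ch A ξ p r) * ch A ξ p r) ξ‖ :=
  (exists_best A ξ p r).choose_spec.2 w' h

/-- the remaining projections -/
noncomputable def rr (A : VonNeumannAlgebra H) (ξ : H) (p : ℕ → H →L[ℂ] H) : ℕ → H →L[ℂ] H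
  | 0 => 1
  | n + 1 => rr A ξ p n - star (ch A ξ (p n) (rr A ξ p n)) * ch A ξ (p n) (rr A ξ p n)

end InftyAux

end Pool.Agent.Helper88.CS

end

section

open scoped InnerProductSpace Topology

open ContinuousLinearMap Filter

namespace Pool.Agent.Helper88.CS

open Pool.Agent.Helper23

universe u

variable {H : Type u} [NormedAddCommGroup H] [InnerProductSpace ℂ H] [CompleteSpace H]

/-- `π` is a `*`-isomorphism of `N` onto `B` -/
structure IsoPi {K : Type u} [NormedAddCommGroup K] [InnerProductSpace ℂ K] [CompleteSpace K]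
    (N : VonNeumannAlgebra H) (B : VonNeumannAlgebra K)
    (π : (H →L[ℂ] H) → (K →L[ℂ] K)) : Prop where
  mem : ∀ x ∈ N, π x ∈ B
  surj : ∀ b ∈ B, ∃ x ∈ N, ‖x‖ ≤ ‖b‖ ∧ π x = b
  inj : ∀ x ∈ N, π x = 0 → x = 0
  add : ∀ x ∈ N, ∀ y ∈ N, π (x + y) = π x + π y
  mul : ∀ x ∈ N, ∀ y ∈ N, π (x * y) = π x * π y
  star : ∀ x ∈ N, π (star x) = star (π x)
  one : π 1 = 1
  smul : ∀ (c : ℂ), ∀ x ∈ N, π (c • x) = c • π x
  norm_le : ∀ x ∈ N, ‖π x‖ ≤ ‖x‖

end Pool.Agent.Helper88.CS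

end

section

open scoped InnerProductSpace Topology ENNReal BoundedContinuousFunction

open ContinuousLinearMap Filter MeasureTheory

namespace Pool.Agent.Helper23.ED

open Pool.Agent.Helper23 Pool.Agent.Helper23.RBF

universe u

variable {H : Type*} [NormedAddCommGroup H] [InnerProductSpace ℂ H] [CompleteSpace H]

variable {K : Type*} [NormedAddCommGroup K] [InnerProductSpace ℂ K] [CompleteSpace K]

namespace FcB

variable {R₁ : H →L[ℂ] H} {Ψ₁ : (ℝ →ᵇ ℂ) →⋆ₐ[ℂ] (H →L[ℂ] H)}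
  {R₂ : K →L[ℂ] K} {Ψ₂ : (ℝ →ᵇ ℂ) →⋆ₐ[ℂ] (K →L[ℂ] K)} {Y : H →L[ℂ] K}

/-- the real function `2 / (1 + e^ρ)` -/
noncomputable def w (ρ : ℝ) : ℝ := 2 / (1 + Real.exp ρ)

lemma w_pos (ρ : ℝ) : 0 < w ρ := by
  unfold w
  have := Real.exp_pos ρ
  (clear * -; positivity)

lemma w_lt (ρ : ℝ) : w ρ < 2 := by
  unfold w
  have := Real.exp_pos ρ
  rw [div_lt_iff₀ (by positivity)]
  (clear * - this; linarith)

lemma w_anti : Antitone w := by
  intro a b h
  unfold w
  have := Real.exp_pos a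
  have := Real.exp_le_exp.2 h
  gcongr

lemma log_w (ρ : ℝ) : Real.log ((2 - w ρ) / w ρ) = ρ := by
  have h : (2 - w ρ) / w ρ = Real.exp ρ := by
    have h0 := Real.exp_pos ρ
    have h1 : (1 + Real.exp ρ) ≠ 0 := by positivity
    unfold w
    field_simp
    ring
  rw [h, Real.log_exp]

/-- clamping to `[w L, w (-L)]` -/
noncomputable def cl (L x : ℝ) : ℝ := max (w L) (min (w (-L)) x)

lemma cl_pos (L x : ℝ) : 0 < cl L x := (w_pos L).trans_le (le_max_left _ _)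

lemma cl_lt (L x : ℝ) : cl L x < 2 :=
  max_lt (w_lt L) ((min_le_left _ _).trans_lt (w_lt (-L)))

lemma cl_cont (L : ℝ) : Continuous (cl L) := by
  unfold cl; fun_prop

lemma cut_eq {h : ℝ → ℝ} {L : ℝ} (hL : 0 ≤ L) (h0 : ∀ ρ, L ≤ |ρ| → h ρ = 0) (ρ : ℝ) :
    h (Real.log ((2 - cl L (w ρ)) / cl L (w ρ))) = h ρ := by
  rcases le_total |ρ| L with h1 | h1
  · rw [abs_le] at h1
    have e : cl L (w ρ) = w ρ := by
      unfold cl
      rw [min_eq_right (w_anti h1.1), max_eq_right (w_anti h1.2)]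
    rw [e, log_w]
  · rw [h0 ρ h1]
    rcases le_abs.1 h1 with h2 | h2
    · have e : cl L (w ρ) = w L := by
        unfold cl
        exact max_eq_left ((min_le_right _ _).trans (w_anti h2))
      rw [e, log_w]
      exact h0 L (le_abs_self L)
    · have h3 : w (-L) ≤ w ρ := w_anti (by (clear * - h2; linarith))
      have e : cl L (w ρ) = w (-L) := by
        unfold cl
        rw [min_eq_left h3]
        exact max_eq_right (w_anti (by linarith))
      rw [e, log_w]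
      exact h0 (-L) (by rw [abs_neg]; exact le_abs_self L)

end FcB

end Pool.Agent.Helper23.ED

end

end

section

section

open scoped InnerProductSpace Topology ENNReal BoundedContinuousFunction

open ContinuousLinearMap Filter MeasureTheory

namespace Pool.Agent.Helper23.ED

open Pool.Agent.Helper23 Pool.Agent.Helper23.RBF

universe u

variable {H : Type u} [NormedAddCommGroup H] [InnerProductSpace ℂ H] [CompleteSpace H]

variable {N : VonNeumannAlgebra H} {ψ : (H →L[ℂ] H) → ℝ≥0∞}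

namespace WtB

theorem norm_sqrt {r : ℝ} (hr : 0 ≤ r) : ‖((√r : ℝ) : ℂ)‖ ^ 2 = r := by
  rw [Complex.norm_real, Real.norm_eq_abs, sq_abs, Real.sq_sqrt hr]

end WtB

end Pool.Agent.Helper23.ED

end

end

section

section

open scoped InnerProductSpace Topology ENNReal BoundedContinuousFunction

open ContinuousLinearMap Filter MeasureTheory

namespace Pool.Agent.Helper23.ED

open Pool.Agent.Helper23 Pool.Agent.Helper23.RBF

open Pool.Agent.Helper78.BC.Transport (Sub r)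

universe u

variable {H : Type u} [NormedAddCommGroup H] [InnerProductSpace ℂ H] [CompleteSpace H]

variable {N : VonNeumannAlgebra H} {ψ : (H →L[ℂ] H) → ℝ≥0∞}

namespace WtB

theorem psi_add (hψ : IsNSFWeight N ψ) {a b : H →L[ℂ] H} (ha : a ∈ Dm N ψ) (hb : b ∈ Dm N ψ) :
    (ψ (sq a + sq b)).toReal = q ψ a + q ψ b := by
  rw [hψ.add _ (sq_mem ha.1) _ (sq_mem hb.1) (sq_nonneg' a) (sq_nonneg' b)]
  exact ENNReal.toReal_add ha.2 hb.2

/-- four squares -/
theorem q_four (hψ : IsNSFWeight N ψ) {a b c d : H →L[ℂ] H} (ha : a ∈ Dm N ψ) (hb : b ∈ Dm N ψ)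
    (hc : c ∈ Dm N ψ) (hd : d ∈ Dm N ψ) (h : sq a + sq b = sq c + sq d) :
    q ψ a + q ψ b = q ψ c + q ψ d := by
  rw [← psi_add hψ ha hb, ← psi_add hψ hc hd, h]

theorem q_par (hψ : IsNSFWeight N ψ) {a b : H →L[ℂ] H} (ha : a ∈ Dm N ψ) (hb : b ∈ Dm N ψ) :
    q ψ (a + b) + q ψ (a - b) = 2 * (q ψ a + q ψ b) := by
  have hn : -b ∈ Dm N ψ := by
    have := Dm_smul hψ (-1) hb
    rwa [neg_one_smul] at this
  have hs : a - b ∈ Dm N ψ := by
    rw [sub_eq_add_neg]; exact Dm_add hψ ha hn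
  have h1 : sq (a + b) + sq (a - b) = ((2 : ℝ) : ℂ) • (sq a + sq b) := by
    unfold sq
    rw [star_add, star_sub]
    push_cast
    rw [two_smul]
    noncomm_ring
  have h2 := psi_add hψ (Dm_add hψ ha hb) hs
  rw [← h2, h1, hψ.smul _ (add_mem (sq_mem ha.1) (sq_mem hb.1))
    (add_nonneg (sq_nonneg' a) (sq_nonneg' b)) 2 (by norm_num), ENNReal.toReal_mul,
    ENNReal.toReal_ofReal (by norm_num), psi_add hψ ha hb]

theorem q_tri (hψ : IsNSFWeight N ψ) {a b : H →L[ℂ] H} (ha : a ∈ Dm N ψ) (hb : b ∈ Dm N ψ)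
    {c : ℝ} (hc : 0 < c) :
    q ψ (a + b) ≤ (1 + c ^ 2) * q ψ a + (1 + (c⁻¹) ^ 2) * q ψ b := by
  have p1 : (0 : ℝ) ≤ 1 + c ^ 2 := by (clear * - hc; positivity)
  have p2 : (0 : ℝ) ≤ 1 + (c⁻¹) ^ 2 := by (clear * - hc; positivity)
  have h1 : sq (a + b) + sq ((c : ℂ) • a + (-(c⁻¹ : ℝ) : ℂ) • b) =
      sq (((√(1 + c ^ 2) : ℝ) : ℂ) • a) + sq (((√(1 + (c⁻¹) ^ 2) : ℝ) : ℂ) • b) := by
    rw [sq_smul, sq_smul, norm_sqrt p1, norm_sqrt p2]
    unfold sq
    have hcc : (c : ℂ) * (c⁻¹ : ℂ) = 1 := mul_inv_cancel₀ (by exact_mod_cast hc.ne')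
    simp only [star_add, star_smul, add_mul, mul_add, smul_mul_smul_comm, RCLike.star_def,
      Complex.conj_ofReal, map_neg]
    push_cast
    have e1 : (c : ℂ) * -(c : ℂ)⁻¹ = -1 := by rw [mul_neg, hcc]
    have e2 : -(c : ℂ)⁻¹ * (c : ℂ) = -1 := by rw [neg_mul, mul_comm, hcc]
    rw [e1, e2]
    module
  have hx : (c : ℂ) • a + (-(c⁻¹ : ℝ) : ℂ) • b ∈ Dm N ψ :=
    Dm_add hψ (Dm_smul hψ _ ha) (Dm_smul hψ _ hb)
  have h2 := q_four hψ (Dm_add hψ ha hb) hx (Dm_smul hψ _ ha) (Dm_smul hψ _ hb) h1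
  rw [q_smul hψ _ ha, q_smul hψ _ hb, norm_sqrt p1, norm_sqrt p2] at h2
  have := q_nonneg (ψ := ψ) ((c : ℂ) • a + (-(c⁻¹ : ℝ) : ℂ) • b)
  linarith

theorem s_tri (hψ : IsNSFWeight N ψ) {a b : H →L[ℂ] H} (ha : a ∈ Dm N ψ) (hb : b ∈ Dm N ψ) :
    s ψ (a + b) ≤ s ψ a + s ψ b := by
  rcases eq_or_lt_of_le (q_nonneg (ψ := ψ) a) with h | h
  · have h0 := (q_zero_iff hψ ha).mp h.symm
    subst h0
    rw [zero_add]
    have : 0 ≤ s ψ (0 : H →L[ℂ] H) := Real.sqrt_nonneg _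
    linarith
  rcases eq_or_lt_of_le (q_nonneg (ψ := ψ) b) with h' | h'
  · have h0 := (q_zero_iff hψ hb).mp h'.symm
    subst h0
    rw [add_zero]
    have : 0 ≤ s ψ (0 : H →L[ℂ] H) := Real.sqrt_nonneg _
    (clear * - this; linarith)
  have ha0 : 0 < s ψ a := Real.sqrt_pos.mpr h
  have hb0 : 0 < s ψ b := Real.sqrt_pos.mpr h'
  have ha2 : s ψ a ^ 2 = q ψ a := Real.sq_sqrt h.le
  have hb2 : s ψ b ^ 2 = q ψ b := Real.sq_sqrt h'.le
  have hc : 0 < √(s ψ b / s ψ a) := Real.sqrt_pos.mpr (div_pos hb0 ha0)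
  have h1 := q_tri hψ ha hb hc
  have h2 : √(s ψ b / s ψ a) ^ 2 = s ψ b / s ψ a := Real.sq_sqrt (div_pos hb0 ha0).le
  rw [inv_pow, h2, ← ha2, ← hb2] at h1
  have h3 : (1 + s ψ b / s ψ a) * s ψ a ^ 2 + (1 + (s ψ b / s ψ a)⁻¹) * s ψ b ^ 2 =
      (s ψ a + s ψ b) ^ 2 := by
    field_simp
    ring
  rw [h3] at h1
  unfold s at h1 ⊢
  exact Real.sqrt_le_iff.mpr ⟨by (clear * - h h'; positivity), h1⟩

theorem core (hψ : IsNSFWeight N ψ) : NormedSpace.Core ℂ (WD hψ) where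
  norm_nonneg a := Real.sqrt_nonneg _
  norm_smul c a := by
    rw [norm_def, norm_def, op_smul]
    unfold s
    rw [q_smul hψ c (op_mem a), Real.sqrt_mul (by (clear * -; positivity)), Real.sqrt_sq (norm_nonneg c)]
  norm_triangle a b := by
    rw [norm_def, norm_def, norm_def, op_add]
    exact s_tri hψ (op_mem a) (op_mem b)
  norm_eq_zero_iff a := by
    rw [norm_def]
    unfold s
    rw [Real.sqrt_eq_zero (q_nonneg _), q_zero_iff hψ (op_mem a)]
    constructor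
    · intro h
      exact op_ext (h.trans op_zero.symm)
    · rintro rfl
      rfl

noncomputable instance (hψ : IsNSFWeight N ψ) : NormedAddCommGroup (WD hψ) :=
  NormedAddCommGroup.ofCore (core hψ)

noncomputable instance (hψ : IsNSFWeight N ψ) : NormedSpace ℂ (WD hψ) :=
  NormedSpace.ofCore (core hψ)

noncomputable instance (hψ : IsNSFWeight N ψ) : InnerProductSpace ℂ (WD hψ) :=
  InnerProductSpace.ofNorm ℂ fun a b => by
    rw [← pow_two, ← pow_two, ← pow_two, ← pow_two, norm_sq', norm_sq', norm_sq', norm_sq',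
      op_add, op_sub]
    exact q_par hψ (op_mem a) (op_mem b)

theorem sq_mul_le (a p : H →L[ℂ] H) : sq (a * p) ≤ sq (((‖p‖ : ℝ) : ℂ) • a) := by
  have h1 : sq (a * p) = a * (p * star p) * star a := by
    unfold sq
    rw [star_mul]
    simp only [mul_assoc]
  have h2 : IsSelfAdjoint (p * star p) := IsSelfAdjoint.mul_star_self p
  have h3 := CStarAlgebra.star_right_conjugate_le_norm_smul (a := a) (b := p * star p) h2
  rw [h1, sq_smul]
  refine h3.trans (le_of_eq ?_)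
  rw [CStarRing.norm_self_mul_star, Complex.norm_real, norm_norm, Complex.coe_smul, ← pow_two]
  rfl

/-- the four squares of the polarization -/
theorem pol (hψ : IsNSFWeight N ψ) {p : H →L[ℂ] H} (hp : p ∈ N) (a b : WD hψ) :
    ‖Rl hψ hp a + b‖ ^ 2 - ‖Rl hψ hp a - b‖ ^ 2 =
      ‖a + Rl hψ (star_mem hp) b‖ ^ 2 - ‖a - Rl hψ (star_mem hp) b‖ ^ 2 := by
  rw [norm_sq', norm_sq', norm_sq', norm_sq']
  have h := q_four hψ (op_mem (Rl hψ hp a + b)) (op_mem (a - Rl hψ (star_mem hp) b))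
    (op_mem (a + Rl hψ (star_mem hp) b)) (op_mem (Rl hψ hp a - b)) (by
      rw [op_add, op_sub, op_add, op_sub]
      change sq (op a * p + op b) + sq (op a - op b * star p) =
        sq (op a + op b * star p) + sq (op a * p - op b)
      unfold sq
      simp only [star_add, star_sub, star_mul, star_star]
      noncomm_ring)
  (clear * - h; linarith)

theorem adj (hψ : IsNSFWeight N ψ) {p : H →L[ℂ] H} (hp : p ∈ N) (a b : WD hψ) :
    ⟪Rl hψ hp a, b⟫_ℂ = ⟪a, Rl hψ (star_mem hp) b⟫_ℂ := by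
  rw [inner_eq_sum_norm_sq_div_four, inner_eq_sum_norm_sq_div_four]
  have h1 := pol hψ hp a b
  have h2 := pol hψ hp a ((RCLike.I : ℂ) • b)
  rw [map_smul] at h2
  have h3 : (‖Rl hψ hp a + b‖ : ℂ) ^ 2 - (‖Rl hψ hp a - b‖ : ℂ) ^ 2 =
      (‖a + Rl hψ (star_mem hp) b‖ : ℂ) ^ 2 - (‖a - Rl hψ (star_mem hp) b‖ : ℂ) ^ 2 := by
    exact_mod_cast h1
  have h4 : (‖Rl hψ hp a + (RCLike.I : ℂ) • b‖ : ℂ) ^ 2 -
      (‖Rl hψ hp a - (RCLike.I : ℂ) • b‖ : ℂ) ^ 2 =
      (‖a + (RCLike.I : ℂ) • Rl hψ (star_mem hp) b‖ : ℂ) ^ 2 -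
        (‖a - (RCLike.I : ℂ) • Rl hψ (star_mem hp) b‖ : ℂ) ^ 2 := by
    exact_mod_cast h2
  simp only [Complex.coe_algebraMap] at *
  linear_combination h3 / 4 - (RCLike.I : ℂ) * h4 / 4

open UniformSpace in
/-- the embedding in the completion -/
noncomputable def em (hψ : IsNSFWeight N ψ) : WD hψ →L[ℂ] Completion (WD hψ) :=
  Completion.toComplL

end WtB

end Pool.Agent.Helper23.ED

end

end
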