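import Pool.Agent.Helper23.FB.Inst

/-!
Parts of Helper23.FA.L00_01, Helper23.FA.L00_08, Helper23.FA.L00_15, Helper23.FA.L00_19, Helper23.FA.L01_09
-/

attribute [local instance 5000]
  Pool.Agent.Helper23.FB.Inst.rCharZero Pool.Agent.Helper23.FB.Inst.rALM
  Pool.Agent.Helper23.FB.Inst.rARM Pool.Agent.Helper23.FB.Inst.rALSM
  Pool.Agent.Helper23.FB.Inst.rARSM Pool.Agent.Helper23.FB.Inst.rARRLE
  Pool.Agent.Helper23.FB.Inst.rALRLE Pool.Agent.Helper23.FB.Inst.rARRLT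
  Pool.Agent.Helper23.FB.Inst.rALRLT Pool.Agent.Helper23.FB.Inst.rPMRLT
  Pool.Agent.Helper23.FB.Inst.rMPRLT Pool.Agent.Helper23.FB.Inst.rPMM
  Pool.Agent.Helper23.FB.Inst.rMPM Pool.Agent.Helper23.FB.Inst.rPMSM
  Pool.Agent.Helper23.FB.Inst.rMPSM Pool.Agent.Helper23.FB.Inst.rEAOL
  Pool.Agent.Helper23.FB.Inst.rIOR Pool.Agent.Helper23.FB.Inst.rISOR
  Pool.Agent.Helper23.FB.Inst.rFS Pool.Agent.Helper23.FB.Inst.rcCharZero
  Pool.Agent.Helper23.FB.Inst.rNZD Pool.Agent.Helper23.FB.Inst.rcNZD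
  Pool.Agent.Helper23.FB.Inst.bSemiring Pool.Agent.Helper23.FB.Inst.bStar
  Pool.Agent.Helper23.FB.Inst.bAlg Pool.Agent.Helper23.FB.Inst.bSub
  Pool.Agent.Helper23.FB.Inst.bMul Pool.Agent.Helper23.FB.Inst.bAdd
  Pool.Agent.Helper23.FB.Inst.iRing Pool.Agent.Helper23.FB.Inst.iSemiring
  Pool.Agent.Helper23.FB.Inst.iAlgC Pool.Agent.Helper23.FB.Inst.iSMulC
  Pool.Agent.Helper23.FB.Inst.iModC Pool.Agent.Helper23.FB.Inst.iAlgR
  Pool.Agent.Helper23.FB.Inst.iSMulR Pool.Agent.Helper23.FB.Inst.iModR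
  Pool.Agent.Helper23.FB.Inst.iMonoid Pool.Agent.Helper23.FB.Inst.iSemigroup
  Pool.Agent.Helper23.FB.Inst.iMulOneClass Pool.Agent.Helper23.FB.Inst.iMul
  Pool.Agent.Helper23.FB.Inst.iAdd Pool.Agent.Helper23.FB.Inst.iSub
  Pool.Agent.Helper23.FB.Inst.iNeg Pool.Agent.Helper23.FB.Inst.iAddCommMonoid
  Pool.Agent.Helper23.FB.Inst.iAddCommGroup Pool.Agent.Helper23.FB.Inst.iAddGroup
  Pool.Agent.Helper23.FB.Inst.iAddMonoid Pool.Agent.Helper23.FB.Inst.iSMulZeroC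
  Pool.Agent.Helper23.FB.Inst.iMulActC Pool.Agent.Helper23.FB.Inst.iDSMulC
  Pool.Agent.Helper23.FB.Inst.iDSMulR Pool.Agent.Helper23.FB.Inst.iSNAG
  Pool.Agent.Helper23.FB.Inst.iSNACG Pool.Agent.Helper23.FB.Inst.iNorm
  Pool.Agent.Helper23.FB.Inst.iNSC' Pool.Agent.Helper23.FB.Inst.iNSR'
  Pool.Agent.Helper23.FB.Inst.iTop Pool.Agent.Helper23.FB.Inst.iT2 Pool.Agent.Helper23.FB.Inst.iTR
  Pool.Agent.Helper23.FB.Inst.iSCC Pool.Agent.Helper23.FB.Inst.iIST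
  Pool.Agent.Helper23.FB.Inst.iSCCR Pool.Agent.Helper23.FB.Inst.iISTR
  Pool.Agent.Helper23.FB.Inst.iZHC Pool.Agent.Helper23.FB.Inst.iAHC
  Pool.Agent.Helper23.FB.Inst.iAMHC Pool.Agent.Helper23.FB.Inst.iMAHC
  Pool.Agent.Helper23.FB.Inst.lTop Pool.Agent.Helper23.FB.Inst.lUnif
  Pool.Agent.Helper23.FB.Inst.lACM Pool.Agent.Helper23.FB.Inst.lACG
  Pool.Agent.Helper23.FB.Inst.lSNAG Pool.Agent.Helper23.FB.Inst.lSNACG
  Pool.Agent.Helper23.FB.Inst.lNACG Pool.Agent.Helper23.FB.Inst.lNorm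
  Pool.Agent.Helper23.FB.Inst.lIPS Pool.Agent.Helper23.FB.Inst.lMod
  Pool.Agent.Helper23.FB.Inst.lSMul Pool.Agent.Helper23.FB.Inst.lT2
  Pool.Agent.Helper23.FB.Inst.iStar Pool.Agent.Helper23.FB.Inst.iStarMul
  Pool.Agent.Helper23.FB.Inst.iStarAddMonoid Pool.Agent.Helper23.FB.Inst.iStarRing
  Pool.Agent.Helper23.FB.Inst.iNSC Pool.Agent.Helper23.FB.Inst.iSOR
  Pool.Agent.Helper23.FB.Inst.iALM Pool.Agent.Helper23.FB.Inst.iARM
  Pool.Agent.Helper23.FB.Inst.iCFC Pool.Agent.Helper23.FB.Inst.iNCFC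
  Pool.Agent.Helper23.FB.Inst.iStarModR Pool.Agent.Helper23.FB.Inst.iStarModC
  Pool.Agent.Helper23.FB.Inst.eStar Pool.Agent.Helper23.FB.Inst.eAdd
  Pool.Agent.Helper23.FB.Inst.eMul Pool.Agent.Helper23.FB.Inst.eOne
  Pool.Agent.Helper23.FB.Inst.eZero Pool.Agent.Helper23.FB.Inst.eMulAction
  Pool.Agent.Helper23.FB.Inst.eAMHC2 Pool.Agent.Helper23.FB.Inst.eZHC2
  Pool.Agent.Helper23.FB.Inst.lAMHC

namespace Pool.Agent.Helper23
end Pool.Agent.Helper23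
namespace Pool.Agent.Helper23.RBF
end Pool.Agent.Helper23.RBF
namespace Pool.Agent.Helper78.BC.FixAux
end Pool.Agent.Helper78.BC.FixAux

section

section

open scoped InnerProductSpace Topology BoundedContinuousFunction FourierTransform ENNReal

open ContinuousLinearMap Filter MeasureTheory

set_option linter.unusedSectionVars false

namespace Pool.Agent.Helper23

variable {H : Type*} [NormedAddCommGroup H] [InnerProductSpace ℂ H] [CompleteSpace H]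

lemma psi_norm_le (Ψ : (ℝ →ᵇ ℂ) →⋆ₐ[ℂ] (H →L[ℂ] H)) (G : ℝ →ᵇ ℂ) : ‖Ψ G‖ ≤ ‖G‖ :=
  NonUnitalStarAlgHom.norm_apply_le Ψ G

end Pool.Agent.Helper23

end

end

section

section

open scoped InnerProductSpace Topology BoundedContinuousFunction

open ContinuousLinearMap Filter

namespace Pool.Agent.Helper78.BC

variable {H : Type*} [NormedAddCommGroup H] [InnerProductSpace ℂ H] [CompleteSpace H]

/-- The standard form of `(A, ξ)`: `J` is the modular conjugation, `Ψ` the bounded functional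
calculus of `ρ = log Δ`. -/
structure Std (A : VonNeumannAlgebra H) (ξ : H) (J : H →L[ℝ] H)
    (Ψ : (ℝ →ᵇ ℂ) →⋆ₐ[ℂ] (H →L[ℂ] H)) : Prop where
  norm_one : ‖ξ‖ = 1
  cyc : ∀ v : H, ∀ ε : ℝ, 0 < ε → ∃ a ∈ A, ‖a ξ - v‖ < ε
  cyc' : ∀ v : H, ∀ ε : ℝ, 0 < ε → ∃ b ∈ A.commutant, ‖b ξ - v‖ < ε
  sep : ∀ a ∈ A, a ξ = 0 → a = 0
  J_J : ∀ v, J (J v) = v
  J_conj : ∀ (c : ℂ) (v : H), J (c • v) = (starRingEnd ℂ) c • J v
  J_norm : ∀ v, ‖J v‖ = ‖v‖
  J_inner : ∀ v w, ⟪J v, J w⟫_ℂ = ⟪w, v⟫_ℂ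
  J_xi : J ξ = ξ
  /-- `J a J` commutes with `A` -/
  J_comm : ∀ a ∈ A, ∀ y ∈ A, ∀ v, J (a (J (y v))) = y (J (a (J v)))
  /-- every element of the commutant is `J a J` with `a ∈ A` -/
  J_mem : ∀ b ∈ A.commutant, ∃ a ∈ A, ∀ v, b v = J (a (J v))
  /-- `⟪J a ξ, a* ξ⟫ = ⟪Δ^½ a* ξ, a* ξ⟫ ≥ 0` -/
  J_pos : ∀ a ∈ A, 0 ≤ (⟪J (a ξ), (star a) ξ⟫_ℂ).re
  /-- `J Ψ(G) = Ψ(G') J` with `G'(ρ) = conj G(-ρ)` -/
  psi_J : ∀ G G' : ℝ →ᵇ ℂ, (∀ ρ, G' ρ = (starRingEnd ℂ) (G (-ρ))) →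
    ∀ v : H, J (Ψ G v) = Ψ G' (J v)
  psi_cont : ∀ (G : ℕ → (ℝ →ᵇ ℂ)) (G₀ : ℝ →ᵇ ℂ) (C : ℝ), (∀ n, ‖G n‖ ≤ C) →
    (∀ L : ℝ, TendstoUniformlyOn (fun n ρ => G n ρ) (fun ρ => G₀ ρ) atTop (Set.Icc (-L) L)) →
    ∀ v : H, Tendsto (fun n => Ψ (G n) v) atTop (𝓝 (Ψ G₀ v))
  /-- `J a* ξ = Δ^½ a ξ` -/
  psi_half : ∀ G G' : ℝ →ᵇ ℂ, (∀ ρ, G' ρ = ((Real.exp (ρ / 2) : ℝ) : ℂ) * G ρ) →
    ∀ a ∈ A, Ψ G (J ((star a) ξ)) = Ψ G' (a ξ)
  /-- `A ξ` is a core for `Δ^½` -/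
  core : ∀ G G' : ℝ →ᵇ ℂ, HasCompactSupport G →
    (∀ ρ, G' ρ = ((Real.exp (ρ / 2) : ℝ) : ℂ) * G ρ) → ∀ (θ : H) (ε : ℝ), 0 < ε →
    ∃ b ∈ A, ‖b ξ - Ψ G θ‖ ≤ ε ∧ ‖J ((star b) ξ) - Ψ G' θ‖ ≤ ε

/-- finite sums of vectors `a J a ξ` -/
def P0 (A : VonNeumannAlgebra H) (ξ : H) (J : H →L[ℝ] H) : Set H :=
  {v | ∃ (n : ℕ) (a : Fin n → H →L[ℂ] H), (∀ i, a i ∈ A) ∧ v = ∑ i, (a i) (J ((a i) ξ))}

/-- the natural cone -/
def Pc (A : VonNeumannAlgebra H) (ξ : H) (J : H →L[ℝ] H) : Set H := closure (P0 A ξ J)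

/-- `ζ` is fixed by the modular group: `Ψ(G) ζ = G(0) ζ` -/
def Fixed (Ψ : (ℝ →ᵇ ℂ) →⋆ₐ[ℂ] (H →L[ℂ] H)) (ζ : H) : Prop := ∀ G : ℝ →ᵇ ℂ, Ψ G ζ = G 0 • ζ

end Pool.Agent.Helper78.BC

end

section

open scoped InnerProductSpace Topology BoundedContinuousFunction

open ContinuousLinearMap Filter

namespace Pool.Agent.Helper78.BC

variable {H : Type*} [NormedAddCommGroup H] [InnerProductSpace ℂ H] [CompleteSpace H]

variable {A : VonNeumannAlgebra H} {ξ : H} {J : H →L[ℝ] H}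
  {Ψ : (ℝ →ᵇ ℂ) →⋆ₐ[ℂ] (H →L[ℂ] H)}

namespace Lip2

/-- the complex linear operator `J y J` -/
noncomputable def jy (h : Std A ξ J Ψ) (y : H →L[ℂ] H) : H →L[ℂ] H :=
  LinearMap.mkContinuous
    { toFun := fun v => J (y (J v))
      map_add' := fun v w => by simp only [map_add]
      map_smul' := fun c v => by
        rw [h.J_conj, map_smul, h.J_conj]
        simp }
    ‖y‖ (fun v => by
      change ‖J (y (J v))‖ ≤ ‖y‖ * ‖v‖
      rw [h.J_norm]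
      calc ‖y (J v)‖ ≤ ‖y‖ * ‖J v‖ := y.le_opNorm _
        _ = ‖y‖ * ‖v‖ := by rw [h.J_norm])

lemma jy_apply (h : Std A ξ J Ψ) (y : H →L[ℂ] H) (v : H) : jy h y v = J (y (J v)) := rfl

/-- the operator `y J y J` -/
noncomputable def tt (h : Std A ξ J Ψ) (y : H →L[ℂ] H) : H →L[ℂ] H := y * jy h y

lemma tt_apply (h : Std A ξ J Ψ) (y : H →L[ℂ] H) (v : H) : tt h y v = y (J (y (J v))) := rfl

lemma jy_star (h : Std A ξ J Ψ) (y : H →L[ℂ] H) : star (jy h y) = jy h (star y) := by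
  rw [ContinuousLinearMap.star_eq_adjoint]
  refine (ContinuousLinearMap.eq_adjoint_iff _ _).2 (fun v w => ?_) |>.symm
  rw [jy_apply, jy_apply]
  have h1 : ⟪J ((star y) (J v)), w⟫_ℂ = ⟪J w, (star y) (J v)⟫_ℂ := by
    conv_lhs => rw [← h.J_J w]
    rw [h.J_inner]
  have h2 : ⟪v, J (y (J w))⟫_ℂ = ⟪y (J w), J v⟫_ℂ := by
    conv_lhs => rw [← h.J_J v]
    rw [h.J_inner]
  rw [h1, h2, ContinuousLinearMap.star_eq_adjoint, ContinuousLinearMap.adjoint_inner_right]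

lemma jy_comm (h : Std A ξ J Ψ) {a y : H →L[ℂ] H} (ha : a ∈ A) (hy : y ∈ A) :
    jy h a * y = y * jy h a := by
  ext v
  exact h.J_comm a ha y hy v

lemma tt_mul (h : Std A ξ J Ψ) {u w : H →L[ℂ] H} (hu : u ∈ A) (hw : w ∈ A) :
    tt h u * tt h w = tt h (u * w) := by
  ext v
  change u (J (u (J (w (J (w (J v))))))) = u (w (J (u (w (J v)))))
  rw [h.J_comm u hu w hw, h.J_J]

lemma tt_one (h : Std A ξ J Ψ) : tt h (1 : H →L[ℂ] H) = 1 := by
  ext v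
  change J (J v) = v
  exact h.J_J v

lemma tt_star (h : Std A ξ J Ψ) {u : H →L[ℂ] H} (hu : u ∈ A) :
    star (tt h u) = tt h (star u) := by
  rw [tt, star_mul, jy_star, tt]
  exact jy_comm h (star_mem hu) (star_mem hu)

end Lip2

end Pool.Agent.Helper78.BC

end

section

open scoped InnerProductSpace Topology BoundedContinuousFunction

open ContinuousLinearMap Filter

namespace Pool.Agent.Helper78.BC

variable {H : Type*} [NormedAddCommGroup H] [InnerProductSpace ℂ H] [CompleteSpace H]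

variable {A : VonNeumannAlgebra H} {ξ : H} {J : H →L[ℝ] H}
  {Ψ : (ℝ →ᵇ ℂ) →⋆ₐ[ℂ] (H →L[ℂ] H)}

namespace PS

lemma J_real (h : Std A ξ J Ψ) (t : ℝ) (v : H) : J ((t : ℂ) • v) = (t : ℂ) • J v := by
  rw [h.J_conj, Complex.conj_ofReal]

lemma inner_J (h : Std A ξ J Ψ) (v w : H) : ⟪v, J w⟫_ℂ = ⟪w, J v⟫_ℂ := by
  have := h.J_inner (J v) w
  rw [h.J_J] at this
  exact this

lemma pos0 (h : Std A ξ J Ψ) {a b : H →L[ℂ] H} (ha : a ∈ A) (hb : b ∈ A) :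
    0 ≤ (⟪a (J (a ξ)), b (J (b ξ))⟫_ℂ).re := by
  have hc : star b * a ∈ A := mul_mem (star_mem hb) ha
  have e1 : ⟪a (J (a ξ)), b (J (b ξ))⟫_ℂ = ⟪(star b * a) (J (a ξ)), J (b ξ)⟫_ℂ := by
    rw [ContinuousLinearMap.star_eq_adjoint]
    change _ = ⟪(adjoint b) (a (J (a ξ))), J (b ξ)⟫_ℂ
    rw [ContinuousLinearMap.adjoint_inner_left]
  have e2 : ⟪(star b * a) (J (a ξ)), J (b ξ)⟫_ℂ = ⟪b ξ, J ((star b * a) (J (a ξ)))⟫_ℂ :=
    inner_J h _ _
  have e3 : J ((star b * a) (J (a ξ))) = a (J ((star b * a) ξ)) := by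
    rw [h.J_comm _ hc _ ha ξ, h.J_xi]
  have e4 : ⟪b ξ, a (J ((star b * a) ξ))⟫_ℂ = ⟪(star (star b * a)) ξ, J ((star b * a) ξ)⟫_ℂ := by
    rw [star_mul, star_star, ContinuousLinearMap.star_eq_adjoint]
    change _ = ⟪(adjoint a) (b ξ), J ((adjoint b * a) ξ)⟫_ℂ
    rw [ContinuousLinearMap.adjoint_inner_left]
  rw [e1, e2, e3, e4]
  have e5 := h.J_pos _ hc
  rw [← inner_conj_symm, Complex.conj_re]
  exact e5

lemma P0_pos (h : Std A ξ J Ψ) {v w : H} (hv : v ∈ P0 A ξ J) (hw : w ∈ P0 A ξ J) :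
    0 ≤ (⟪v, w⟫_ℂ).re := by
  obtain ⟨n, a, ha, rfl⟩ := hv
  obtain ⟨m, b, hb, rfl⟩ := hw
  rw [sum_inner, Complex.re_sum]
  refine Finset.sum_nonneg fun i _ => ?_
  rw [inner_sum, Complex.re_sum]
  exact Finset.sum_nonneg fun j _ => pos0 h (ha i) (hb j)

lemma Pc_pos (h : Std A ξ J Ψ) {v w : H} (hv : v ∈ Pc A ξ J) (hw : w ∈ Pc A ξ J) :
    0 ≤ (⟪v, w⟫_ℂ).re := by
  have h1 : ∀ w ∈ P0 A ξ J, ∀ v ∈ Pc A ξ J, 0 ≤ (⟪v, w⟫_ℂ).re := by
    intro w hw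
    have hcl : IsClosed {v : H | 0 ≤ (⟪v, w⟫_ℂ).re} := by
      refine isClosed_le continuous_const ?_
      exact Complex.continuous_re.comp (continuous_id.inner continuous_const)
    have hsub : P0 A ξ J ⊆ {v : H | 0 ≤ (⟪v, w⟫_ℂ).re} := fun v hv => P0_pos h hv hw
    intro v hv
    exact closure_minimal hsub hcl hv
  have hcl : IsClosed {w : H | 0 ≤ (⟪v, w⟫_ℂ).re} := by
    refine isClosed_le continuous_const ?_
    exact Complex.continuous_re.comp (continuous_const.inner continuous_id)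
  have hsub : P0 A ξ J ⊆ {w : H | 0 ≤ (⟪v, w⟫_ℂ).re} := fun w hw => h1 w hw v hv
  exact closure_minimal hsub hcl hw

lemma P0_J (h : Std A ξ J Ψ) {v : H} (hv : v ∈ P0 A ξ J) : J v = v := by
  obtain ⟨n, a, ha, rfl⟩ := hv
  rw [map_sum]
  refine Finset.sum_congr rfl fun i _ => ?_
  rw [h.J_comm _ (ha i) _ (ha i) ξ, h.J_xi]

lemma Pc_J (h : Std A ξ J Ψ) {v : H} (hv : v ∈ Pc A ξ J) : J v = v := by
  have hcl : IsClosed {v : H | J v = v} := isClosed_eq J.continuous continuous_id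
  have hsub : P0 A ξ J ⊆ {v : H | J v = v} := fun v hv => P0_J h hv
  exact closure_minimal hsub hcl hv

lemma P0_zero : (0 : H) ∈ P0 A ξ J := ⟨0, fun i => i.elim0, fun i => i.elim0, by simp⟩

lemma P0_add {v w : H} (hv : v ∈ P0 A ξ J) (hw : w ∈ P0 A ξ J) : v + w ∈ P0 A ξ J := by
  obtain ⟨n, a, ha, rfl⟩ := hv
  obtain ⟨m, b, hb, rfl⟩ := hw
  refine ⟨n + m, Fin.append a b, ?_, ?_⟩
  · intro i
    refine Fin.addCases (fun i => ?_) (fun i => ?_) i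
    · rw [Fin.append_left]; exact ha i
    · rw [Fin.append_right]; exact hb i
  · rw [Fin.sum_univ_add]
    simp only [Fin.append_left, Fin.append_right]

lemma P0_inv (h : Std A ξ J Ψ) {a : H →L[ℂ] H} (ha : a ∈ A) {v : H} (hv : v ∈ P0 A ξ J) :
    a (J (a (J v))) ∈ P0 A ξ J := by
  obtain ⟨n, b, hb, rfl⟩ := hv
  refine ⟨n, fun i => a * b i, fun i => mul_mem ha (hb i), ?_⟩
  simp only [map_sum]
  refine Finset.sum_congr rfl fun i _ => ?_
  rw [h.J_comm _ ha _ (hb i) (J (b i ξ)), h.J_J]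
  rfl

lemma Pc_zero : (0 : H) ∈ Pc A ξ J := subset_closure P0_zero

lemma Pc_add {v w : H} (hv : v ∈ Pc A ξ J) (hw : w ∈ Pc A ξ J) : v + w ∈ Pc A ξ J :=
  map_mem_closure₂ continuous_add hv hw fun _ h1 _ h2 => P0_add h1 h2

lemma Pc_inv (h : Std A ξ J Ψ) {a : H →L[ℂ] H} (ha : a ∈ A) {v : H} (hv : v ∈ Pc A ξ J) :
    a (J (a (J v))) ∈ Pc A ξ J :=
  map_mem_closure (f := fun v : H => a (J (a (J v))))
    (a.continuous.comp (J.continuous.comp (a.continuous.comp J.continuous))) hv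
    fun _ h1 => P0_inv h ha h1

end PS

end Pool.Agent.Helper78.BC

end

section

open scoped InnerProductSpace Topology BoundedContinuousFunction

open ContinuousLinearMap Filter

namespace Pool.Agent.Helper78.BC

variable {H : Type*} [NormedAddCommGroup H] [InnerProductSpace ℂ H] [CompleteSpace H]

variable {A : VonNeumannAlgebra H} {ξ : H} {J : H →L[ℝ] H}
  {Ψ : (ℝ →ᵇ ℂ) →⋆ₐ[ℂ] (H →L[ℂ] H)}

namespace LevAux

lemma J_real (h : Std A ξ J Ψ) (t : ℝ) (v : H) : J ((t : ℂ) • v) = (t : ℂ) • J v := by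
  rw [h.J_conj, Complex.conj_ofReal]

/-- `⟪J S J v, x (J T J w)⟫ = ⟪v, x w⟫` resp. `0` -/
lemma inner_J (h : Std A ξ J Ψ) {S T x : H →L[ℂ] H} (hT : T ∈ A) (hx : x ∈ A)
    (v w : H) : ⟪J (S (J v)), x (J (T (J w)))⟫_ℂ = ⟪T (J (x w)), S (J v)⟫_ℂ := by
  rw [← h.J_comm T hT x hx w, h.J_inner]

lemma flip (h : Std A ξ J Ψ) {S : H →L[ℂ] H} (hS : S ∈ A) :
    S (J (S ξ)) = J (S (J (S ξ))) := by
  have h1 := h.J_comm S hS S hS ξ
  rw [h.J_xi] at h1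
  exact h1.symm

end LevAux

end Pool.Agent.Helper78.BC

end

section

open scoped InnerProductSpace Topology BoundedContinuousFunction

open ContinuousLinearMap Filter

namespace Pool.Agent.Helper78.BC

variable {H : Type*} [NormedAddCommGroup H] [InnerProductSpace ℂ H] [CompleteSpace H]

variable {A : VonNeumannAlgebra H} {ξ : H} {J : H →L[ℝ] H}
  {Ψ : (ℝ →ᵇ ℂ) →⋆ₐ[ℂ] (H →L[ℂ] H)}

namespace Fam

/-- `v ζ v*` -/
noncomputable def cj (J : H →L[ℝ] H) (v : H →L[ℂ] H) (ζ : H) : H := v (J (v (J ζ)))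

theorem norm_coiso {v : H →L[ℂ] H} (hv : v * star v = 1) : ‖v‖ ≤ 1 := by
  have h1 : ‖v * star v‖ = ‖v‖ * ‖v‖ := CStarRing.norm_self_mul_star
  rw [hv] at h1
  have h2 : ‖(1 : H →L[ℂ] H)‖ ≤ 1 := ContinuousLinearMap.norm_id_le
  (clear * - h1 h2; nlinarith [norm_nonneg v])

theorem app_le {v : H →L[ℂ] H} (hv : ‖v‖ ≤ 1) (x : H) : ‖v x‖ ≤ ‖x‖ := by
  have := v.le_of_opNorm_le hv x
  simpa using this

theorem norm_cj (h : Std A ξ J Ψ) {v : H →L[ℂ] H} (hv : v * star v = 1) (ζ : H) :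
    ‖cj J v ζ‖ ≤ ‖ζ‖ := by
  have h1 := norm_coiso hv
  calc ‖cj J v ζ‖ ≤ ‖J (v (J ζ))‖ := app_le h1 _
    _ = ‖v (J ζ)‖ := h.J_norm _
    _ ≤ ‖J ζ‖ := app_le h1 _
    _ = ‖ζ‖ := h.J_norm _

end Fam

end Pool.Agent.Helper78.BC

end

section

open scoped InnerProductSpace Topology BoundedContinuousFunction

open ContinuousLinearMap Filter

namespace Pool.Agent.Helper78.BC

namespace FixAux

/-- the real cut-off: `0` for `ρ ≤ 1/(n+1)` and for `ρ ≥ n+2`, `1` on `[2/(n+1), n+1]` -/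
noncomputable def kap (n : ℕ) (ρ : ℝ) : ℝ :=
  min 1 (max 0 (((n : ℝ) + 1) * ρ - 1)) * min 1 (max 0 ((n : ℝ) + 2 - ρ))

theorem kap_cont (n : ℕ) : Continuous (kap n) := by
  unfold kap
  fun_prop

theorem mm_nonneg (t : ℝ) : 0 ≤ min 1 (max 0 t) := le_min zero_le_one (le_max_left _ _)

theorem mm_le (t : ℝ) : min 1 (max 0 t) ≤ 1 := min_le_left _ _

theorem mm_zero {t : ℝ} (h : t ≤ 0) : min 1 (max 0 t) = 0 := by
  rw [max_eq_left h]
  exact min_eq_right zero_le_one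

theorem mm_one {t : ℝ} (h : 1 ≤ t) : min 1 (max 0 t) = 1 :=
  min_eq_left (h.trans (le_max_right _ _))

theorem kap_nonneg (n : ℕ) (ρ : ℝ) : 0 ≤ kap n ρ := mul_nonneg (mm_nonneg _) (mm_nonneg _)

theorem kap_le (n : ℕ) (ρ : ℝ) : kap n ρ ≤ 1 :=
  mul_le_one₀ (mm_le _) (mm_nonneg _) (mm_le _)

theorem kap_zero_left {n : ℕ} {ρ : ℝ} (h : ρ ≤ 1 / ((n : ℝ) + 1)) : kap n ρ = 0 := by
  unfold kap
  have hn : (0 : ℝ) < (n : ℝ) + 1 := by (clear * -; positivity)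
  rw [mm_zero, zero_mul]
  rw [le_div_iff₀ hn] at h
  (clear * - h; linarith)

theorem kap_zero_right {n : ℕ} {ρ : ℝ} (h : (n : ℝ) + 2 ≤ ρ) : kap n ρ = 0 := by
  unfold kap
  rw [mm_zero (t := (n : ℝ) + 2 - ρ) (by linarith), mul_zero]

theorem kap_one {n : ℕ} {ρ : ℝ} (h : 2 / ((n : ℝ) + 1) ≤ ρ) (h' : ρ ≤ (n : ℝ) + 1) :
    kap n ρ = 1 := by
  unfold kap
  have hn : (0 : ℝ) < (n : ℝ) + 1 := by (clear * -; positivity)
  rw [div_le_iff₀ hn] at h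
  rw [mm_one (by linarith), mm_one (by (clear * - h'; linarith)), one_mul]

/-- the cut-off on the right half line -/
noncomputable def Kp (n : ℕ) : ℝ →ᵇ ℂ :=
  BoundedContinuousFunction.ofNormedAddCommGroup (fun ρ : ℝ => ((kap n ρ : ℝ) : ℂ))
    (Complex.continuous_ofReal.comp (kap_cont n)) 1 (fun ρ => by
      rw [Complex.norm_real, Real.norm_of_nonneg (kap_nonneg n ρ)]
      exact kap_le n ρ)

/-- the cut-off on the left half line -/
noncomputable def Km (n : ℕ) : ℝ →ᵇ ℂ :=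
  BoundedContinuousFunction.ofNormedAddCommGroup (fun ρ : ℝ => ((kap n (-ρ) : ℝ) : ℂ))
    (Complex.continuous_ofReal.comp ((kap_cont n).comp continuous_neg)) 1 (fun ρ => by
      rw [Complex.norm_real, Real.norm_of_nonneg (kap_nonneg n (-ρ))]
      exact kap_le n (-ρ))

theorem Kp_apply (n : ℕ) (ρ : ℝ) : Kp n ρ = ((kap n ρ : ℝ) : ℂ) := rfl

theorem Km_apply (n : ℕ) (ρ : ℝ) : Km n ρ = ((kap n (-ρ) : ℝ) : ℂ) := rfl

theorem norm_Kp_le (n : ℕ) : ‖Kp n‖ ≤ 1 :=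
  BoundedContinuousFunction.norm_ofNormedAddCommGroup_le _ zero_le_one _

theorem norm_Km_le (n : ℕ) : ‖Km n‖ ≤ 1 :=
  BoundedContinuousFunction.norm_ofNormedAddCommGroup_le _ zero_le_one _

/-- reflection and conjugation of a bounded continuous function -/
noncomputable def refl (G : ℝ →ᵇ ℂ) : ℝ →ᵇ ℂ :=
  BoundedContinuousFunction.ofNormedAddCommGroup (fun ρ : ℝ => (starRingEnd ℂ) (G (-ρ)))
    (Complex.continuous_conj.comp (G.continuous.comp continuous_neg)) ‖G‖ (fun ρ => by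
      rw [RCLike.norm_conj]
      exact G.norm_coe_le_norm _)

theorem refl_apply (G : ℝ →ᵇ ℂ) (ρ : ℝ) : refl G ρ = (starRingEnd ℂ) (G (-ρ)) := rfl

/-- the plateau function: `1` on `[-n, n]`, `0` off `[-n-1, n+1]` -/
noncomputable def plat (n : ℕ) (ρ : ℝ) : ℝ := min 1 (max 0 ((n : ℝ) + 1 - |ρ|))

theorem plat_cont (n : ℕ) : Continuous (plat n) := by
  unfold plat
  fun_prop

noncomputable def Pl (n : ℕ) : ℝ →ᵇ ℂ :=
  BoundedContinuousFunction.ofNormedAddCommGroup (fun ρ : ℝ => ((plat n ρ : ℝ) : ℂ))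
    (Complex.continuous_ofReal.comp (plat_cont n)) 1 (fun ρ => by
      rw [Complex.norm_real, Real.norm_of_nonneg (show 0 ≤ plat n ρ from mm_nonneg _)]
      exact mm_le _)

theorem Pl_apply (n : ℕ) (ρ : ℝ) : Pl n ρ = ((plat n ρ : ℝ) : ℂ) := rfl

theorem norm_Pl_le (n : ℕ) : ‖Pl n‖ ≤ 1 :=
  BoundedContinuousFunction.norm_ofNormedAddCommGroup_le _ zero_le_one _

theorem exp_plat_le (n : ℕ) (ρ : ℝ) :
    ‖((Real.exp (ρ / 2) : ℝ) : ℂ) * ((plat n ρ : ℝ) : ℂ)‖ ≤ Real.exp (((n : ℝ) + 1) / 2) := by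
  rw [norm_mul, Complex.norm_real, Complex.norm_real, Real.norm_of_nonneg (Real.exp_pos _).le,
    Real.norm_of_nonneg (show 0 ≤ plat n ρ from mm_nonneg _)]
  rcases le_or_gt |ρ| ((n : ℝ) + 1) with h | h
  · have h1 : Real.exp (ρ / 2) ≤ Real.exp (((n : ℝ) + 1) / 2) :=
      Real.exp_le_exp.2 (by (clear * - h; linarith [le_abs_self ρ]))
    calc Real.exp (ρ / 2) * plat n ρ ≤ Real.exp (ρ / 2) * 1 :=
          mul_le_mul_of_nonneg_left (mm_le _) (Real.exp_pos _).le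
      _ ≤ _ := by rw [mul_one]; exact h1
  · rw [show plat n ρ = 0 from mm_zero (by linarith), mul_zero]
    exact (Real.exp_pos _).le

noncomputable def Pe (n : ℕ) : ℝ →ᵇ ℂ :=
  BoundedContinuousFunction.ofNormedAddCommGroup
    (fun ρ : ℝ => ((Real.exp (ρ / 2) : ℝ) : ℂ) * ((plat n ρ : ℝ) : ℂ))
    ((Complex.continuous_ofReal.comp (by fun_prop)).mul
      (Complex.continuous_ofReal.comp (plat_cont n))) (Real.exp (((n : ℝ) + 1) / 2))
    (exp_plat_le n)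

theorem Pe_apply (n : ℕ) (ρ : ℝ) :
    Pe n ρ = ((Real.exp (ρ / 2) : ℝ) : ℂ) * ((plat n ρ : ℝ) : ℂ) := rfl

theorem plat_one {n : ℕ} {ρ : ℝ} (h : |ρ| ≤ n) : plat n ρ = 1 := mm_one (by (clear * - h; linarith))

theorem Pe_zero (n : ℕ) : Pe n 0 = 1 := by
  rw [Pe_apply, plat_one (by rw [abs_zero]; exact Nat.cast_nonneg n)]
  simp

/-- `Pl n → 1` locally uniformly -/
theorem Pl_tendsto (L : ℝ) :
    TendstoUniformlyOn (fun n ρ => Pl n ρ) (fun ρ => (1 : ℝ →ᵇ ℂ) ρ) atTop (Set.Icc (-L) L) := by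
  rw [Metric.tendstoUniformlyOn_iff]
  intro ε hε
  obtain ⟨N, hN⟩ := exists_nat_ge L
  filter_upwards [eventually_ge_atTop N] with n hn ρ hρ
  have h1 : |ρ| ≤ (n : ℝ) := by
    have h2 : (N : ℝ) ≤ n := by exact_mod_cast hn
    rw [abs_le]
    constructor
    · (clear * - hN h2 hρ; linarith [hρ.1])
    · (clear * - hN h2 hρ; linarith [hρ.2])
  rw [Pl_apply, plat_one h1]
  simpa using hε

end FixAux

open FixAux

variable {H : Type*} [NormedAddCommGroup H] [InnerProductSpace ℂ H] [CompleteSpace H]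

variable {A : VonNeumannAlgebra H} {ξ : H} {J : H →L[ℝ] H}
  {Ψ : (ℝ →ᵇ ℂ) →⋆ₐ[ℂ] (H →L[ℂ] H)}

namespace FixAux

/-- functions vanishing at zero annihilate `ζ` -/
theorem psi_zero_of_zero (h : Std A ξ J Ψ) {ζ : H} (hJ : J ζ = ζ)
    (h0 : ∀ a b : ℝ, 0 < a → a < b → ∀ G : ℝ →ᵇ ℂ, (∀ ρ, ρ ∉ Set.Icc a b → G ρ = 0) →
      Ψ G ζ = 0) (G : ℝ →ᵇ ℂ) (hG : G 0 = 0) : Ψ G ζ = 0 := by
  have ha : ∀ n : ℕ, (0 : ℝ) < 1 / ((n : ℝ) + 1) := fun n => by (clear * -; positivity)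
  have hab : ∀ n : ℕ, 1 / ((n : ℝ) + 1) < (n : ℝ) + 2 := fun n => by
    have h1 : 1 / ((n : ℝ) + 1) ≤ 1 := by
      rw [div_le_one (by (clear * -; positivity))]
      (clear * -; linarith [Nat.cast_nonneg (α := ℝ) n])
    (clear * - h1; linarith [Nat.cast_nonneg (α := ℝ) n])
  have hp : ∀ n : ℕ, Ψ (G * Kp n) ζ = 0 := by
    intro n
    refine h0 _ _ (ha n) (hab n) _ fun ρ hρ => ?_
    rw [BoundedContinuousFunction.coe_mul, Pi.mul_apply, Kp_apply]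
    rw [Set.mem_Icc, not_and_or, not_le, not_le] at hρ
    rcases hρ with hρ | hρ
    · rw [kap_zero_left hρ.le, Complex.ofReal_zero, mul_zero]
    · rw [kap_zero_right hρ.le, Complex.ofReal_zero, mul_zero]
  have hm : ∀ n : ℕ, Ψ (G * Km n) ζ = 0 := by
    intro n
    have h1 := h.psi_J (G * Km n) (refl (G * Km n)) (fun ρ => rfl) ζ
    rw [hJ] at h1
    have h2 : Ψ (refl (G * Km n)) ζ = 0 := by
      refine h0 _ _ (ha n) (hab n) _ fun ρ hρ => ?_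
      rw [refl_apply, BoundedContinuousFunction.coe_mul, Pi.mul_apply, Km_apply, neg_neg]
      rw [Set.mem_Icc, not_and_or, not_le, not_le] at hρ
      rcases hρ with hρ | hρ
      · rw [kap_zero_left hρ.le, Complex.ofReal_zero, mul_zero, map_zero]
      · rw [kap_zero_right hρ.le, Complex.ofReal_zero, mul_zero, map_zero]
    rw [h2] at h1
    rw [← h.J_J (Ψ (G * Km n) ζ), h1, map_zero]
  have hlim := h.psi_cont (fun n => G * Kp n + G * Km n) G (2 * ‖G‖) ?_ ?_ ζ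
  · refine tendsto_nhds_unique hlim ?_
    have h1 : (fun n => Ψ (G * Kp n + G * Km n) ζ) = fun _ => (0 : H) := by
      funext n
      rw [map_add, ContinuousLinearMap.add_apply, hp n, hm n, add_zero]
    rw [h1]
    exact tendsto_const_nhds
  · intro n
    have h1 : ‖G * Kp n‖ ≤ ‖G‖ :=
      (norm_mul_le _ _).trans (mul_le_of_le_one_right (norm_nonneg _) (norm_Kp_le n))
    have h2 : ‖G * Km n‖ ≤ ‖G‖ :=
      (norm_mul_le _ _).trans (mul_le_of_le_one_right (norm_nonneg _) (norm_Km_le n))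
    have h3 := norm_add_le (G * Kp n) (G * Km n)
    linarith
  · intro L
    rw [Metric.tendstoUniformlyOn_iff]
    intro ε hε
    have hc0 : ContinuousAt (fun ρ : ℝ => G ρ) 0 := G.continuous.continuousAt
    obtain ⟨δ, hδ, hδε⟩ := Metric.continuousAt_iff.1 hc0 ε hε
    obtain ⟨N, hN⟩ := exists_nat_ge (max L (2 / δ))
    filter_upwards [eventually_ge_atTop N] with n hn ρ hρ
    have hnN : (N : ℝ) ≤ n := by exact_mod_cast hn
    have hL : L ≤ n := (le_max_left _ _).trans (hN.trans hnN)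
    have hd : 2 / ((n : ℝ) + 1) < δ := by
      have h1 : 2 / δ ≤ n := (le_max_right _ _).trans (hN.trans hnN)
      rw [div_le_iff₀ hδ] at h1
      rw [div_lt_iff₀ (by (clear * -; positivity))]
      (clear * - hδ h1; nlinarith)
    have hval : (G * Kp n + G * Km n) ρ =
        G ρ * (((kap n ρ + kap n (-ρ) : ℝ)) : ℂ) := by
      rw [BoundedContinuousFunction.coe_add, Pi.add_apply, BoundedContinuousFunction.coe_mul,
        BoundedContinuousFunction.coe_mul, Pi.mul_apply, Pi.mul_apply, Kp_apply, Km_apply,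
        Complex.ofReal_add, mul_add]
    rw [hval]
    have hpos : (0 : ℝ) < 1 / ((n : ℝ) + 1) := ha n
    rcases le_or_gt (2 / ((n : ℝ) + 1)) |ρ| with h1 | h1
    · have h2 : kap n ρ + kap n (-ρ) = 1 := by
        have h20 : (0 : ℝ) < 2 / ((n : ℝ) + 1) := by (clear * -; positivity)
        rcases le_total 0 ρ with h3 | h3
        · rw [abs_of_nonneg h3] at h1
          rw [kap_one h1 (by (clear * - hL hρ; linarith [hρ.2])), kap_zero_left (by (clear * - hpos h1 h20; linarith)), add_zero]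
        · rw [abs_of_nonpos h3] at h1
          rw [kap_one (ρ := -ρ) h1 (by (clear * - hL hρ; linarith [hρ.1])), kap_zero_left (by (clear * - hpos h1 h20; linarith)), zero_add]
      rw [h2, Complex.ofReal_one, mul_one, dist_self]
      exact hε
    · have h2 : dist (G ρ) (G 0) < ε := hδε (by
        rw [Real.dist_eq, sub_zero]
        exact h1.trans hd)
      rw [hG, dist_zero_right] at h2
      have h3 : 0 ≤ kap n ρ + kap n (-ρ) := add_nonneg (kap_nonneg _ _) (kap_nonneg _ _)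
      have h4 : kap n ρ + kap n (-ρ) ≤ 1 := by
        rcases le_total 0 ρ with h5 | h5
        · rw [kap_zero_left (n := n) (ρ := -ρ) (by (clear * - hpos h5; linarith)), add_zero]
          exact kap_le _ _
        · rw [kap_zero_left (n := n) (ρ := ρ) (by (clear * - hpos h5; linarith)), zero_add]
          exact kap_le _ _
      rw [dist_eq_norm]
      have h5 : G ρ - G ρ * (((kap n ρ + kap n (-ρ) : ℝ)) : ℂ) =
          G ρ * (((1 - (kap n ρ + kap n (-ρ)) : ℝ)) : ℂ) := by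
        rw [Complex.ofReal_sub, Complex.ofReal_one]
        ring
      rw [h5, norm_mul, Complex.norm_real, Real.norm_of_nonneg (by (clear * - h4; linarith))]
      calc ‖G ρ‖ * (1 - (kap n ρ + kap n (-ρ))) ≤ ‖G ρ‖ * 1 :=
            mul_le_mul_of_nonneg_left (by (clear * - h3; linarith)) (norm_nonneg _)
        _ < ε := by rw [mul_one]; exact h2

end FixAux

theorem fixed_of (h : Std A ξ J Ψ) {ζ : H} (hJ : J ζ = ζ)
    (h0 : ∀ a b : ℝ, 0 < a → a < b → ∀ G : ℝ →ᵇ ℂ, (∀ ρ, ρ ∉ Set.Icc a b → G ρ = 0) →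
      Ψ G ζ = 0) : Fixed Ψ ζ := by
  intro G
  have h1 := FixAux.psi_zero_of_zero h hJ h0 (G - G 0 • (1 : ℝ →ᵇ ℂ)) (by simp)
  rw [map_sub, map_smul, map_one, ContinuousLinearMap.sub_apply, ContinuousLinearMap.smul_apply,
    ContinuousLinearMap.one_apply, sub_eq_zero] at h1
  exact h1

/-- If `x ξ` is fixed then `x` commutes with `ξ`. -/
theorem J_of_fixed (h : Std A ξ J Ψ) {x : H →L[ℂ] H} (hx : x ∈ A) (hf : Fixed Ψ (x ξ)) :
    J ((star x) ξ) = x ξ := by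
  have h1 : ∀ n : ℕ, Ψ (Pl n) (J ((star x) ξ)) = x ξ := by
    intro n
    rw [h.psi_half (Pl n) (Pe n) (fun ρ => rfl) x hx, hf (Pe n), Pe_zero, one_smul]
  have h2 := h.psi_cont (fun n => Pl n) 1 1 norm_Pl_le Pl_tendsto (J ((star x) ξ))
  rw [map_one, ContinuousLinearMap.one_apply] at h2
  refine tendsto_nhds_unique h2 ?_
  simp only [h1]
  exact tendsto_const_nhds

end Pool.Agent.Helper78.BC

end

section

open scoped InnerProductSpace Topology BoundedContinuousFunction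

open ContinuousLinearMap Filter

namespace Pool.Agent.Helper78.BC

variable {H : Type*} [NormedAddCommGroup H] [InnerProductSpace ℂ H] [CompleteSpace H]

variable {A : VonNeumannAlgebra H} {ξ : H} {J : H →L[ℝ] H}
  {Ψ : (ℝ →ᵇ ℂ) →⋆ₐ[ℂ] (H →L[ℂ] H)}

namespace NoProj

lemma inner_star_left (s : H →L[ℂ] H) (v w : H) : ⟪(star s) v, w⟫_ℂ = ⟪v, s w⟫_ℂ := by
  rw [star_eq_adjoint, adjoint_inner_left]

lemma apply_of_mul_eq_one {s t : H →L[ℂ] H} (h : s * t = 1) (v : H) : s (t v) = v := by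
  have := congrArg (fun T : H →L[ℂ] H => T v) h
  simpa using this

lemma apply_of_mul_eq_zero {s t : H →L[ℂ] H} (h : s * t = 0) (v : H) : s (t v) = 0 := by
  have := congrArg (fun T : H →L[ℂ] H => T v) h
  simpa using this

lemma apply_of_mul_eq_self {p : H →L[ℂ] H} (h : p * p = p) (v : H) : p (p v) = p v := by
  have := congrArg (fun T : H →L[ℂ] H => T v) h
  simpa using this

lemma inner_iso {s : H →L[ℂ] H} (hs : star s * s = 1) (v w : H) : ⟪s v, s w⟫_ℂ = ⟪v, w⟫_ℂ := by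
  rw [← inner_star_left, apply_of_mul_eq_one hs]

lemma norm_iso {s : H →L[ℂ] H} (hs : star s * s = 1) (v : H) : ‖s v‖ = ‖v‖ := by
  have h1 := inner_iso hs v v
  rw [inner_self_eq_norm_sq_to_K, inner_self_eq_norm_sq_to_K] at h1
  have h2 : ‖s v‖ ^ 2 = ‖v‖ ^ 2 := by exact_mod_cast h1
  exact (sq_eq_sq₀ (norm_nonneg _) (norm_nonneg _)).1 h2

lemma opnorm_iso {s : H →L[ℂ] H} (hs : star s * s = 1) : ‖s‖ ≤ 1 :=
  opNorm_le_bound _ zero_le_one fun v => by rw [norm_iso hs, one_mul]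

lemma norm_le_of_le_one {s : H →L[ℂ] H} (hs : ‖s‖ ≤ 1) (v : H) : ‖s v‖ ≤ ‖v‖ := by
  calc ‖s v‖ ≤ ‖s‖ * ‖v‖ := s.le_opNorm v
    _ ≤ 1 * ‖v‖ := by (clear * - hs; gcongr)
    _ = ‖v‖ := one_mul _

lemma norm_jj (h : Std A ξ J Ψ) {s : H →L[ℂ] H} (hs : ‖s‖ ≤ 1) (v : H) :
    ‖J (s (J v))‖ ≤ ‖v‖ := by
  rw [h.J_norm]
  exact (norm_le_of_le_one hs _).trans (h.J_norm v).le

lemma inner_jj (h : Std A ξ J Ψ) {s : H →L[ℂ] H} (hs : star s * s = 1) (v w : H) :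
    ⟪J (s (J v)), J (s (J w))⟫_ℂ = ⟪v, w⟫_ℂ := by
  rw [h.J_inner, inner_iso hs, h.J_inner]

lemma norm_jj_iso (h : Std A ξ J Ψ) {s : H →L[ℂ] H} (hs : star s * s = 1) (v : H) :
    ‖J (s (J v))‖ = ‖v‖ := by
  rw [h.J_norm, norm_iso hs, h.J_norm]

lemma inner_jj_zero (h : Std A ξ J Ψ) {s t : H →L[ℂ] H} (hs : star t * s = 0) (v w : H) :
    ⟪J (s (J v)), J (t (J w))⟫_ℂ = 0 := by
  have h1 := inner_star_left (star t) (J w) (s (J v))
  rw [star_star] at h1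
  rw [h.J_inner, h1, apply_of_mul_eq_zero hs, inner_zero_right]

/-- `u p J u p ξ = (J u J) (u p ξ)` -/
lemma cone_eq (h : Std A ξ J Ψ) {u p : H →L[ℂ] H} (hu : u ∈ A) (hp : p ∈ A) (hpp : p * p = p)
    (hJ : J (p ξ) = p ξ) : u (p (J (u (p ξ)))) = J (u (J (u (p ξ)))) := by
  have h1 : p (J (u (p ξ))) = J (u (J (p ξ))) := by
    conv_lhs => rw [← hJ]
    rw [← h.J_comm u hu p hp, apply_of_mul_eq_self hpp]
  rw [h1, ← h.J_comm u hu u hu]

lemma inner_cone (h : Std A ξ J Ψ) {u x : H →L[ℂ] H} (hu : u ∈ A) (hx : x ∈ A)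
    (hs : star u * u = 1) (w : H) :
    ⟪J (u (J w)), x (J (u (J w)))⟫_ℂ = ⟪w, x w⟫_ℂ := by
  rw [← h.J_comm u hu x hx, inner_jj h hs]

lemma norm_sq_add (h : Std A ξ J Ψ) {p : H →L[ℂ] H} (hpp : p * p = p) (hps : star p = p) :
    ‖p ξ‖ ^ 2 + ‖(1 - p) ξ‖ ^ 2 = 1 := by
  have h1 : ⟪p ξ, (1 - p) ξ⟫_ℂ = 0 := by
    have h2 : ⟪p ξ, (1 - p) ξ⟫_ℂ = ⟪(star p) ξ, (1 - p) ξ⟫_ℂ := by rw [hps]
    rw [h2, inner_star_left]
    have h3 : p ((1 - p) ξ) = 0 := by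
      simp [sub_apply, apply_of_mul_eq_self hpp]
    rw [h3, inner_zero_right]
  have h4 := @norm_add_sq ℂ H _ _ _ (p ξ) ((1 - p) ξ)
  rw [h1] at h4
  have h5 : p ξ + (1 - p) ξ = ξ := by simp [sub_apply]
  rw [h5, h.norm_one, map_zero, mul_zero, add_zero, one_pow] at h4
  exact h4.symm

end NoProj

end Pool.Agent.Helper78.BC

end

section

open scoped InnerProductSpace Topology BoundedContinuousFunction

open ContinuousLinearMap Filter

open Pool.Agent.Helper23.RBF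

namespace Pool.Agent.Helper78.BC

universe u

variable {H : Type u} [NormedAddCommGroup H] [InnerProductSpace ℂ H] [CompleteSpace H]

section

variable {A : VonNeumannAlgebra H} {ξ : H} {J : H →L[ℝ] H}
  {Ψ : (ℝ →ᵇ ℂ) →⋆ₐ[ℂ] (H →L[ℂ] H)}

lemma Fixed.of_tendsto {η : H} (hη : ∀ r : ℝ, 0 < r → ∃ ζ, ‖ζ - η‖ ≤ r ∧ Fixed Ψ ζ) :
    Fixed Ψ η := by
  intro G
  have hcl : IsClosed {v : H | Ψ G v = G 0 • v} :=
    isClosed_eq (Ψ G).continuous (continuous_const_smul _)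
  refine hcl.closure_subset_iff.2 subset_rfl ?_
  rw [Metric.mem_closure_iff]
  intro ε hε
  obtain ⟨ζ, h1, h2⟩ := hη (ε / 2) (by (clear * - hε; positivity))
  refine ⟨ζ, h2 G, ?_⟩
  rw [dist_comm, dist_eq_norm]
  linarith

lemma Fixed.smul {v : H} (hv : Fixed Ψ v) (c : ℂ) : Fixed Ψ (c • v) := by
  intro G
  rw [map_smul, hv G, smul_comm]

lemma Fixed.add {v w : H} (hv : Fixed Ψ v) (hw : Fixed Ψ w) : Fixed Ψ (v + w) := by
  intro G
  rw [map_add, hv G, hw G, smul_add]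

end

end Pool.Agent.Helper78.BC

end

section

open scoped InnerProductSpace Topology BoundedContinuousFunction

open ContinuousLinearMap Filter MeasureTheory

namespace Pool.Agent.Helper88.CS

open Pool.Agent.Helper23

open Pool.Agent.Helper78.BC (Std Fixed)

variable {H : Type*} [NormedAddCommGroup H] [InnerProductSpace ℂ H] [CompleteSpace H]

variable {A : VonNeumannAlgebra H} {ξ : H} {J : H →L[ℝ] H}
  {Ψ : (ℝ →ᵇ ℂ) →⋆ₐ[ℂ] (H →L[ℂ] H)} {R : H →L[ℂ] H} {D : H →L[ℝ] H}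

namespace CentAux

open Pool.Agent.Helper78.BC (fixed_of J_of_fixed)

open Pool.Agent.Helper78.BC.FixAux (Pl Pl_apply plat plat_cont norm_Pl_le Pl_tendsto mm_zero mm_nonneg mm_le)

theorem Pl_supp (n : ℕ) : HasCompactSupport (Pl n : ℝ → ℂ) := by
  refine HasCompactSupport.intro (isCompact_Icc (a := -((n : ℝ) + 1)) (b := (n : ℝ) + 1)) ?_
  intro ρ hρ
  have h1 : (n : ℝ) + 1 ≤ |ρ| := by
    by_contra hh
    rw [not_le, abs_lt] at hh
    exact hρ ⟨hh.1.le, hh.2.le⟩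
  rw [Pl_apply]
  have h2 : plat n ρ = 0 := mm_zero (by linarith)
  rw [h2, Complex.ofReal_zero]

theorem Pl_lim (h : Std A ξ J Ψ) (v : H) : Tendsto (fun n => Ψ (Pl n) v) atTop (𝓝 v) := by
  have h2 := h.psi_cont (fun n => Pl n) 1 1 norm_Pl_le Pl_tendsto v
  rwa [map_one, ContinuousLinearMap.one_apply] at h2

theorem zero_of_Pl (h : Std A ξ J Ψ) {v : H} (hv : ∀ n, Ψ (Pl n) v = 0) : v = 0 := by
  refine tendsto_nhds_unique (Pl_lim h v) ?_
  simp only [hv]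
  exact tendsto_const_nhds

/-- division -/
theorem exists_div (F G : ℝ →ᵇ ℂ) (hG : HasCompactSupport (G : ℝ → ℂ))
    (hFG : ∀ ρ ∈ tsupport (G : ℝ → ℂ), F ρ ≠ 0) : ∃ G₁ : ℝ →ᵇ ℂ, G = G₁ * F := by
  have hc : Continuous fun ρ : ℝ => G ρ / F ρ := by
    rw [continuous_iff_continuousAt]
    intro ρ
    by_cases hρ : ρ ∈ tsupport (G : ℝ → ℂ)
    · exact G.continuous.continuousAt.div F.continuous.continuousAt (hFG ρ hρ)
    · have h1 : (fun ρ : ℝ => G ρ / F ρ) =ᶠ[𝓝 ρ] fun _ => (0 : ℂ) := by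
        have h2 := notMem_tsupport_iff_eventuallyEq.1 hρ
        filter_upwards [h2] with x hx
        rw [hx]
        simp
      exact continuousAt_const.congr h1.symm
  have hs : HasCompactSupport fun ρ : ℝ => G ρ / F ρ := by
    refine hG.mono ?_
    intro ρ hρ
    rw [Function.mem_support] at hρ ⊢
    intro h0
    exact hρ (by rw [h0, zero_div])
  obtain ⟨C, hC⟩ := hs.exists_bound_of_continuous hc
  refine ⟨BoundedContinuousFunction.ofNormedAddCommGroup _ hc C hC, ?_⟩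
  ext ρ
  rw [BoundedContinuousFunction.mul_apply]
  change G ρ = G ρ / F ρ * F ρ
  by_cases hρ : ρ ∈ tsupport (G : ℝ → ℂ)
  · rw [div_mul_cancel₀ _ (hFG ρ hρ)]
  · rw [image_eq_zero_of_notMem_tsupport hρ, zero_div, zero_mul]

theorem kill {v : H} {F G : ℝ →ᵇ ℂ} (hF : Ψ F v = 0) (hG : HasCompactSupport (G : ℝ → ℂ))
    (hFG : ∀ ρ ∈ tsupport (G : ℝ → ℂ), F ρ ≠ 0) : Ψ G v = 0 := by
  obtain ⟨G₁, hG₁⟩ := exists_div F G hG hFG
  rw [hG₁, map_mul, mul_apply_eq_comp, hF, map_zero]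

theorem inj_of_ne (h : Std A ξ J Ψ) {v : H} {F : ℝ →ᵇ ℂ} (hF : Ψ F v = 0)
    (hne : ∀ ρ, F ρ ≠ 0) : v = 0 :=
  zero_of_Pl h fun n => kill hF (Pl_supp n) fun ρ _ => hne ρ

end CentAux

end Pool.Agent.Helper88.CS

end

section

open scoped InnerProductSpace Topology BoundedContinuousFunction

open ContinuousLinearMap Filter MeasureTheory

namespace Pool.Agent.Helper88.CS

open Pool.Agent.Helper23

open Pool.Agent.Helper78.BC (Std Fixed)

variable {H : Type*} [NormedAddCommGroup H] [InnerProductSpace ℂ H] [CompleteSpace H]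

variable {A : VonNeumannAlgebra H} {ξ : H} {J : H →L[ℝ] H}
  {Ψ : (ℝ →ᵇ ℂ) →⋆ₐ[ℂ] (H →L[ℂ] H)} {R : H →L[ℂ] H} {D : H →L[ℝ] H}

namespace CornerSpecAux

open Pool.Agent.Helper78.BC.FixAux (Pl Pl_apply plat mm_zero norm_Pl_le Pl_tendsto)

theorem Pl_compact (n : ℕ) : HasCompactSupport (Pl n) := by
  refine HasCompactSupport.intro (isCompact_Icc (a := -((n : ℝ) + 1)) (b := (n : ℝ) + 1))
    fun ρ hρ => ?_
  have h1 : (n : ℝ) + 1 - |ρ| ≤ 0 := by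
    by_contra hh
    refine hρ ⟨?_, ?_⟩ <;> [have := neg_abs_le ρ; have := le_abs_self ρ] <;> (clear * - hh this; linarith)
  rw [Pl_apply, plat, mm_zero h1, Complex.ofReal_zero]

end CornerSpecAux

end Pool.Agent.Helper88.CS

end

section

open scoped InnerProductSpace Topology ENNReal BoundedContinuousFunction

open ContinuousLinearMap Filter MeasureTheory

namespace Pool.Agent.Helper23.ED

open Pool.Agent.Helper23 Pool.Agent.Helper23.RBF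

universe u

variable {H : Type*} [NormedAddCommGroup H] [InnerProductSpace ℂ H] [CompleteSpace H]

variable {K : Type*} [NormedAddCommGroup K] [InnerProductSpace ℂ K] [CompleteSpace K]

namespace FcB

/-- the functions whose operators are intertwined by `Y` -/
def A (Ψ₁ : (ℝ →ᵇ ℂ) →⋆ₐ[ℂ] (H →L[ℂ] H)) (Ψ₂ : (ℝ →ᵇ ℂ) →⋆ₐ[ℂ] (K →L[ℂ] K)) (Y : H →L[ℂ] K) :
    Set (ℝ →ᵇ ℂ) :=
  {G | ∀ v, Y (Ψ₁ G v) = Ψ₂ G (Y v)}

variable {R₁ : H →L[ℂ] H} {Ψ₁ : (ℝ →ᵇ ℂ) →⋆ₐ[ℂ] (H →L[ℂ] H)}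
  {R₂ : K →L[ℂ] K} {Ψ₂ : (ℝ →ᵇ ℂ) →⋆ₐ[ℂ] (K →L[ℂ] K)} {Y : H →L[ℂ] K}

lemma A_add {G G' : ℝ →ᵇ ℂ} (h : G ∈ A Ψ₁ Ψ₂ Y) (h' : G' ∈ A Ψ₁ Ψ₂ Y) : G + G' ∈ A Ψ₁ Ψ₂ Y := by
  intro v
  rw [map_add, map_add, ContinuousLinearMap.add_apply, ContinuousLinearMap.add_apply, map_add,
    h v, h' v]

lemma A_smul {G : ℝ →ᵇ ℂ} (c : ℂ) (h : G ∈ A Ψ₁ Ψ₂ Y) : c • G ∈ A Ψ₁ Ψ₂ Y := by
  intro v
  rw [map_smul, map_smul, ContinuousLinearMap.smul_apply, ContinuousLinearMap.smul_apply,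
    map_smul, h v]

lemma A_one : (1 : ℝ →ᵇ ℂ) ∈ A Ψ₁ Ψ₂ Y := by
  intro v
  rw [map_one, map_one]
  rfl

end FcB

end Pool.Agent.Helper23.ED

end

end

section

section

open scoped InnerProductSpace ComplexOrder ComplexStarModule

open ContinuousLinearMap

namespace Pool.Agent.Helper23

variable {H : Type*} [NormedAddCommGroup H] [InnerProductSpace ℂ H] [CompleteSpace H]

section Jordan

variable {A : Type*} [CStarAlgebra A] [PartialOrder A] [StarOrderedRing A]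

/-- A one-sided form of the Jordan decomposition. -/
theorem exists_jordan_one [Nontrivial A]
    (ψ : selfAdjoint A →ₗ[ℝ] ℝ) {δ : ℝ} (hδ : ∀ x : selfAdjoint A, 0 ≤ (x : A) → ψ x ≤ δ * ‖x‖)
    (hδ0 : 0 ≤ δ) :
    ∃ κ : selfAdjoint A →ₗ[ℝ] ℝ, (∀ x : selfAdjoint A, 0 ≤ (x : A) → 0 ≤ κ x) ∧
      (∀ x : selfAdjoint A, 0 ≤ (x : A) → ψ x ≤ κ x) ∧ κ 1 ≤ δ := by
  let V := selfAdjoint A
  let L : (V × ℝ) →ₗ[ℝ] (V × V) :=
    { toFun := fun p => (p.1 + p.2 • (1 : V), -p.1)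
      map_add' := by
        intro p q
        ext <;> simp [add_smul] <;> abel
      map_smul' := by
        intro c p
        ext <;> simp [smul_add, mul_smul] }
  have hLinj : Function.Injective L := by
    rw [← LinearMap.ker_eq_bot, LinearMap.ker_eq_bot']
    rintro ⟨x, t⟩ h
    have h1 : x + t • (1 : V) = 0 := congrArg Prod.fst h
    have h2 : -x = 0 := congrArg Prod.snd h
    have hx : x = 0 := neg_eq_zero.1 h2
    subst hx
    rw [zero_add] at h1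
    have h5 : (t • (1 : A)) = 0 := congrArg (fun v : V => (v : A)) h1
    have h4 : t = 0 := by
      rcases smul_eq_zero.1 h5 with h | h
      · exact h
      · exact absurd h one_ne_zero
    rw [h4]; rfl
  let e := LinearEquiv.ofInjective L hLinj
  let g₀ : (V × ℝ) →ₗ[ℝ] ℝ := ψ.comp (LinearMap.fst ℝ V ℝ) + δ • LinearMap.snd ℝ V ℝ
  have hg₀ : ∀ x t, g₀ (x, t) = ψ x + δ * t := by
    intro x t
    simp [g₀]
  let f : (V × V) →ₗ.[ℝ] ℝ := ⟨LinearMap.range L, g₀.comp e.symm.toLinearMap⟩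
  have hf : ∀ x t, f ⟨L (x, t), ⟨(x, t), rfl⟩⟩ = ψ x + δ * t := by
    intro x t
    have h1 : e (x, t) = ⟨L (x, t), ⟨(x, t), rfl⟩⟩ := by
      apply Subtype.ext
      exact LinearEquiv.ofInjective_apply (f := L) (h := hLinj) _
    change g₀ (e.symm ⟨L (x, t), ⟨(x, t), rfl⟩⟩) = _
    rw [← h1, LinearEquiv.symm_apply_apply, hg₀]
  let s : PointedCone ℝ (V × V) :=
    { carrier := {p | 0 ≤ (p.1 : A) ∧ 0 ≤ (p.2 : A)}
      add_mem' := by
        rintro p q ⟨h1, h2⟩ ⟨h3, h4⟩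
        exact ⟨add_nonneg h1 h3, add_nonneg h2 h4⟩
      zero_mem' := ⟨le_rfl, le_rfl⟩
      smul_mem' := by
        rintro c p ⟨h1, h2⟩
        exact ⟨smul_nonneg c.2 h1, smul_nonneg c.2 h2⟩ }
  have hs : ∀ p : V × V, p ∈ s ↔ 0 ≤ (p.1 : A) ∧ 0 ≤ (p.2 : A) := fun p => Iff.rfl
  have hnn : ∀ a : V, 0 ≤ ‖(a : A)‖ • (1 : A) + (a : A) := by
    intro a
    have h1 := IsSelfAdjoint.neg_algebraMap_norm_le_self (a := (a : A)) a.2
    have := add_le_add_left h1 (algebraMap ℝ A ‖(a : A)‖)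
    rw [Algebra.algebraMap_eq_smul_one] at this
    simpa [add_comm] using this
  obtain ⟨g, hgf, hgs⟩ := riesz_extension s f (by
    rintro ⟨_, ⟨⟨x, t⟩, rfl⟩⟩ hx
    rw [hf]
    obtain ⟨h1, h2⟩ := (hs _).1 hx
    change 0 ≤ (x : A) + t • (1 : A) at h1
    change 0 ≤ -(x : A) at h2
    have h0 := add_nonneg h1 h2
    rw [add_neg_cancel_comm] at h0
    have ht : 0 ≤ t := by
      by_contra hneg
      have h3 : t • (1 : A) ≤ 0 :=
        smul_nonpos_of_nonpos_of_nonneg (not_le.1 hneg).le zero_le_one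
      have h4 := le_antisymm h3 h0
      rcases smul_eq_zero.1 h4 with h | h
      · exact hneg h.ge
      · exact absurd h one_ne_zero
    have h5 : -(x : A) ≤ algebraMap ℝ A t := by
      rw [Algebra.algebraMap_eq_smul_one]
      have := add_le_add_left h1 (-(x : A))
      simpa [add_comm, add_assoc] using this
    have h6 : ‖-(x : A)‖ ≤ t :=
      (CStarAlgebra.norm_le_iff_le_algebraMap _ ht h2).2 h5
    have h9 := hδ (-x) h2
    have h10 : ‖(-x : V)‖ = ‖-(x : A)‖ := rfl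
    rw [h10, map_neg] at h9
    have h11 : δ * ‖-(x : A)‖ ≤ δ * t := mul_le_mul_of_nonneg_left h6 hδ0
    linarith) (by
    rintro ⟨a, b⟩
    refine ⟨⟨L (-(‖(b : A)‖ • (1 : V)), ‖(a : A)‖ + ‖(b : A)‖),
      ⟨(-(‖(b : A)‖ • (1 : V)), ‖(a : A)‖ + ‖(b : A)‖), rfl⟩⟩, (hs _).2 ⟨?_, ?_⟩⟩
    · change 0 ≤ -(‖(b : A)‖ • (1 : A)) + (‖(a : A)‖ + ‖(b : A)‖) • (1 : A) + (a : A)
      have h1 := hnn a
      have e1 : -(‖(b : A)‖ • (1 : A)) + (‖(a : A)‖ + ‖(b : A)‖) • (1 : A) + (a : A) =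
          ‖(a : A)‖ • (1 : A) + (a : A) := by
        rw [add_smul]; abel
      rw [e1]; exact h1
    · change 0 ≤ -(-(‖(b : A)‖ • (1 : A))) + (b : A)
      rw [neg_neg]
      exact hnn b)
  have hκpos : ∀ x : V, 0 ≤ (x : A) → 0 ≤ g (x, 0) := fun x hx => hgs _ ((hs _).2 ⟨hx, le_rfl⟩)
  have hκ2pos : ∀ x : V, 0 ≤ (x : A) → 0 ≤ g (0, x) := fun x hx => hgs _ ((hs _).2 ⟨le_rfl, hx⟩)
  have hdiff : ∀ x : V, g (x, 0) - g (0, x) = ψ x := by
    intro x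
    have h1 := hgf ⟨L (x, 0), ⟨(x, 0), rfl⟩⟩
    rw [hf] at h1
    have h2 : (L (x, 0) : V × V) = (x, 0) - (0, x) := by
      ext <;> simp [L]
    change g (L (x, 0)) = _ at h1
    rw [h2, map_sub] at h1
    linarith
  have hsum : g (1, 0) = δ := by
    have h1 := hgf ⟨L (0, 1), ⟨(0, 1), rfl⟩⟩
    rw [hf] at h1
    have h2 : (L (0, 1) : V × V) = (1, 0) := by
      ext <;> simp [L]
    change g (L (0, 1)) = _ at h1
    rw [h2, map_zero] at h1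
    linarith
  refine ⟨g.comp (LinearMap.inl ℝ V V), fun x hx => hκpos x hx, fun x hx => ?_, ?_⟩
  · have h1 := hdiff x
    have h2 := hκ2pos x hx
    change ψ x ≤ g (x, 0)
    linarith
  · change g (1, 0) ≤ δ
    exact hsum.le

end Jordan

end Pool.Agent.Helper23

end

end

section

section

open scoped InnerProductSpace Topology ENNReal

open ContinuousLinearMap Filter MeasureTheory

set_option linter.unusedSectionVars false

set_option linter.unusedVariables false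

namespace Pool.Agent.Helper23

variable {H : Type*} [NormedAddCommGroup H] [InnerProductSpace ℂ H] [CompleteSpace H]

variable {M N : VonNeumannAlgebra H} {ξ : H} {E : (H →L[ℂ] H) → (H →L[ℂ] H)}

namespace GKW

/-- sums of squares -/
lemma tsum_ofReal_of_hasSum {ι : Type*} {f : ι → ℝ} (hf : ∀ i, 0 ≤ f i) {A : ℂ}
    (h : HasSum (fun i => ((f i : ℝ) : ℂ)) A) :
    ∑' i, ENNReal.ofReal (f i) = ENNReal.ofReal A.re ∧ 0 ≤ A.re := by
  have h1 : HasSum f A.re := by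
    have := Complex.hasSum_re h
    simpa only [Complex.ofReal_re] using this
  refine ⟨?_, HasSum.nonneg hf h1⟩
  rw [← ENNReal.ofReal_tsum_of_nonneg hf h1.summable, h1.tsum_eq]

end GKW

end Pool.Agent.Helper23

end

end

section

section

open scoped InnerProductSpace Topology ENNReal BoundedContinuousFunction

open ContinuousLinearMap Filter MeasureTheory

namespace Pool.Agent.Helper23.ED

open Pool.Agent.Helper23 Pool.Agent.Helper23.RBF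

universe u

variable {H : Type*} [NormedAddCommGroup H] [InnerProductSpace ℂ H] [CompleteSpace H]

variable {K : Type*} [NormedAddCommGroup K] [InnerProductSpace ℂ K] [CompleteSpace K]

namespace FcB

variable {R₁ : H →L[ℂ] H} {Ψ₁ : (ℝ →ᵇ ℂ) →⋆ₐ[ℂ] (H →L[ℂ] H)}
  {R₂ : K →L[ℂ] K} {Ψ₂ : (ℝ →ᵇ ℂ) →⋆ₐ[ℂ] (K →L[ℂ] K)} {Y : H →L[ℂ] K}

lemma A_closed {G : ℝ →ᵇ ℂ} (h : ∀ ε > 0, ∃ P ∈ A Ψ₁ Ψ₂ Y, ‖G - P‖ ≤ ε) : G ∈ A Ψ₁ Ψ₂ Y := by
  intro v
  rw [← sub_eq_zero, ← norm_le_zero_iff]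
  refine le_of_forall_pos_le_add fun δ hδ => ?_
  set M : ℝ := ‖Y‖ * ‖v‖ + ‖Y v‖ + 1 with hM
  have hM0 : 0 < M := by (clear * -; positivity)
  obtain ⟨P, hP, hGP⟩ := h (δ / M) (by (clear * - hδ; positivity))
  have e1 : Y (Ψ₁ G v) - Ψ₂ G (Y v) = Y (Ψ₁ (G - P) v) - Ψ₂ (G - P) (Y v) := by
    rw [map_sub, map_sub, ContinuousLinearMap.sub_apply, ContinuousLinearMap.sub_apply, map_sub,
      hP v]
    abel
  have e2 : ‖Ψ₁ (G - P) v‖ ≤ δ / M * ‖v‖ :=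
    (Ψ₁ (G - P)).le_of_opNorm_le ((psi_norm_le Ψ₁ _).trans hGP) v
  have e3 : ‖Ψ₂ (G - P) (Y v)‖ ≤ δ / M * ‖Y v‖ :=
    (Ψ₂ (G - P)).le_of_opNorm_le ((psi_norm_le Ψ₂ _).trans hGP) (Y v)
  rw [e1, zero_add]
  calc ‖Y (Ψ₁ (G - P) v) - Ψ₂ (G - P) (Y v)‖
      ≤ ‖Y (Ψ₁ (G - P) v)‖ + ‖Ψ₂ (G - P) (Y v)‖ := norm_sub_le _ _
    _ ≤ ‖Y‖ * (δ / M * ‖v‖) + δ / M * ‖Y v‖ := by
        gcongr
        exact (Y.le_opNorm _).trans (by (clear * - e2; gcongr))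
    _ = δ / M * (‖Y‖ * ‖v‖ + ‖Y v‖) := by ring
    _ ≤ δ / M * M := by
        have : ‖Y‖ * ‖v‖ + ‖Y v‖ ≤ M := by rw [hM]; (clear * -; linarith)
        (clear * - this hδ; gcongr)
    _ = δ := by field_simp

end FcB

end Pool.Agent.Helper23.ED

end

end
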