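import Pool.Agent.Helper23.FB.Inst
import Pool.Agent.Helper23.RBFDefs

/-!
Parts of Helper23.FA.L00_05, Helper23.FA.L00_17, Helper23.FA.L00_18, Helper23.FA.L00_10, Helper23.FA.L01_17, Helper23.FA.L01_18, Helper23.FA.L01_15, Helper23.FA.L02_10
-/

attribute [local instance 5000]
  Pool.Agent.Helper23.FB.Inst.rCharZero Pool.Agent.Helper23.FB.Inst.rALM
  Pool.Agent.Helper23.FB.Inst.rARM Pool.Agent.Helper23.FB.Inst.rALSM
  Pool.Agent.Helper23.FB.Inst.rARSM Pool.Agent.Helper23.FB.Inst.rARRLE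
  Pool.Agent.Helper23.FB.Inst.rALRLE Pool.Agent.Helper23.FB.Inst.rARRLT
  Pool.Agent.Helper23.FB.Inst.rALRLT Pool.Agent.Helper23.FB.Inst.rPMRLT
  Pool.Agent.Helper23.FB.Inst.rMPRLT Pool.Agent.Helper23.FB.Inst.rPMM
  Pool.Agent.Helper23.FB.Inst.rMPM Pool.Agent.Helper23.FB.Inst.rPMSM
  Pool.Agent.Helper23.FB.Inst.rMPSM Pool.Agent.Helper23.FB.Inst.rEAOL
  Pool.Agent.Helper23.FB.Inst.rIOR Pool.Agent.Helper23.FB.Inst.rISOR
  Pool.Agent.Helper23.FB.Inst.rFS Pool.Agent.Helper23.FB.Inst.rcCharZero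
  Pool.Agent.Helper23.FB.Inst.rNZD Pool.Agent.Helper23.FB.Inst.rcNZD
  Pool.Agent.Helper23.FB.Inst.bSemiring Pool.Agent.Helper23.FB.Inst.bStar
  Pool.Agent.Helper23.FB.Inst.bAlg Pool.Agent.Helper23.FB.Inst.bSub
  Pool.Agent.Helper23.FB.Inst.bMul Pool.Agent.Helper23.FB.Inst.bAdd
  Pool.Agent.Helper23.FB.Inst.iRing Pool.Agent.Helper23.FB.Inst.iSemiring
  Pool.Agent.Helper23.FB.Inst.iAlgC Pool.Agent.Helper23.FB.Inst.iSMulC
  Pool.Agent.Helper23.FB.Inst.iModC Pool.Agent.Helper23.FB.Inst.iAlgR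
  Pool.Agent.Helper23.FB.Inst.iSMulR Pool.Agent.Helper23.FB.Inst.iModR
  Pool.Agent.Helper23.FB.Inst.iMonoid Pool.Agent.Helper23.FB.Inst.iSemigroup
  Pool.Agent.Helper23.FB.Inst.iMulOneClass Pool.Agent.Helper23.FB.Inst.iMul
  Pool.Agent.Helper23.FB.Inst.iAdd Pool.Agent.Helper23.FB.Inst.iSub
  Pool.Agent.Helper23.FB.Inst.iNeg Pool.Agent.Helper23.FB.Inst.iAddCommMonoid
  Pool.Agent.Helper23.FB.Inst.iAddCommGroup Pool.Agent.Helper23.FB.Inst.iAddGroup
  Pool.Agent.Helper23.FB.Inst.iAddMonoid Pool.Agent.Helper23.FB.Inst.iSMulZeroC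
  Pool.Agent.Helper23.FB.Inst.iMulActC Pool.Agent.Helper23.FB.Inst.iDSMulC
  Pool.Agent.Helper23.FB.Inst.iDSMulR Pool.Agent.Helper23.FB.Inst.iSNAG
  Pool.Agent.Helper23.FB.Inst.iSNACG Pool.Agent.Helper23.FB.Inst.iNorm
  Pool.Agent.Helper23.FB.Inst.iNSC' Pool.Agent.Helper23.FB.Inst.iNSR'
  Pool.Agent.Helper23.FB.Inst.iTop Pool.Agent.Helper23.FB.Inst.iT2 Pool.Agent.Helper23.FB.Inst.iTR
  Pool.Agent.Helper23.FB.Inst.iSCC Pool.Agent.Helper23.FB.Inst.iIST
  Pool.Agent.Helper23.FB.Inst.iSCCR Pool.Agent.Helper23.FB.Inst.iISTR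
  Pool.Agent.Helper23.FB.Inst.iZHC Pool.Agent.Helper23.FB.Inst.iAHC
  Pool.Agent.Helper23.FB.Inst.iAMHC Pool.Agent.Helper23.FB.Inst.iMAHC
  Pool.Agent.Helper23.FB.Inst.lTop Pool.Agent.Helper23.FB.Inst.lUnif
  Pool.Agent.Helper23.FB.Inst.lACM Pool.Agent.Helper23.FB.Inst.lACG
  Pool.Agent.Helper23.FB.Inst.lSNAG Pool.Agent.Helper23.FB.Inst.lSNACG
  Pool.Agent.Helper23.FB.Inst.lNACG Pool.Agent.Helper23.FB.Inst.lNorm
  Pool.Agent.Helper23.FB.Inst.lIPS Pool.Agent.Helper23.FB.Inst.lMod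
  Pool.Agent.Helper23.FB.Inst.lSMul Pool.Agent.Helper23.FB.Inst.lT2
  Pool.Agent.Helper23.FB.Inst.iStar Pool.Agent.Helper23.FB.Inst.iStarMul
  Pool.Agent.Helper23.FB.Inst.iStarAddMonoid Pool.Agent.Helper23.FB.Inst.iStarRing
  Pool.Agent.Helper23.FB.Inst.iNSC Pool.Agent.Helper23.FB.Inst.iSOR
  Pool.Agent.Helper23.FB.Inst.iALM Pool.Agent.Helper23.FB.Inst.iARM
  Pool.Agent.Helper23.FB.Inst.iCFC Pool.Agent.Helper23.FB.Inst.iNCFC
  Pool.Agent.Helper23.FB.Inst.iStarModR Pool.Agent.Helper23.FB.Inst.iStarModC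
  Pool.Agent.Helper23.FB.Inst.eStar Pool.Agent.Helper23.FB.Inst.eAdd
  Pool.Agent.Helper23.FB.Inst.eMul Pool.Agent.Helper23.FB.Inst.eOne
  Pool.Agent.Helper23.FB.Inst.eZero Pool.Agent.Helper23.FB.Inst.eMulAction
  Pool.Agent.Helper23.FB.Inst.eAMHC2 Pool.Agent.Helper23.FB.Inst.eZHC2
  Pool.Agent.Helper23.FB.Inst.lAMHC

namespace Pool.Agent.Helper23
end Pool.Agent.Helper23
namespace Pool.Agent.Helper23.ED.SmB
end Pool.Agent.Helper23.ED.SmB
namespace Pool.Agent.Helper23.RBF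
end Pool.Agent.Helper23.RBF
namespace Pool.Agent.Helper43.TTF
end Pool.Agent.Helper43.TTF

section

section

open scoped InnerProductSpace Topology BoundedContinuousFunction

open ContinuousLinearMap Filter MeasureTheory

namespace Pool.Agent.Helper43.TTF

open Pool.Agent.Helper23

variable {H : Type*} [NormedAddCommGroup H] [InnerProductSpace ℂ H] [CompleteSpace H]

lemma psi_norm (Ψ : (ℝ →ᵇ ℂ) →⋆ₐ[ℂ] (H →L[ℂ] H)) (G : ℝ →ᵇ ℂ) : ‖Ψ G‖ ≤ ‖G‖ :=
  NonUnitalStarAlgHom.norm_apply_le Ψ G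

lemma psi_norm_apply (Ψ : (ℝ →ᵇ ℂ) →⋆ₐ[ℂ] (H →L[ℂ] H)) (G : ℝ →ᵇ ℂ) (v : H) :
    ‖Ψ G v‖ ≤ ‖G‖ * ‖v‖ :=
  ((Ψ G).le_opNorm v).trans (by gcongr; exact psi_norm Ψ G)

/-- the homomorphism as a continuous linear map -/
noncomputable def psiL (Ψ : (ℝ →ᵇ ℂ) →⋆ₐ[ℂ] (H →L[ℂ] H)) : (ℝ →ᵇ ℂ) →L[ℂ] (H →L[ℂ] H) :=
  LinearMap.mkContinuous
    { toFun := fun G => Ψ G
      map_add' := fun _ _ => map_add Ψ _ _
      map_smul' := fun c G => map_smul Ψ c G } 1 (by
      intro G
      rw [one_mul]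
      exact psi_norm Ψ G)

/-- truncation of the identity function -/
noncomputable def gt (L : ℝ) (ρ : ℝ) : ℝ := max (-|L|) (min |L| ρ)

lemma gt_abs (L ρ : ℝ) : |gt L ρ| ≤ |L| := by
  unfold gt
  rw [abs_le]
  constructor
  · exact le_max_left _ _
  · refine max_le ?_ (min_le_left _ _)
    have := abs_nonneg L
    (clear * - this; linarith)

lemma gt_eq {L ρ : ℝ} (h : |ρ| ≤ L) : gt L ρ = ρ := by
  have hL : 0 ≤ L := (abs_nonneg ρ).trans h
  rw [abs_le] at h
  unfold gt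
  rw [abs_of_nonneg hL, min_eq_right h.2, max_eq_right h.1]

noncomputable def gB (L : ℝ) : ℝ →ᵇ ℂ :=
  BoundedContinuousFunction.ofNormedAddCommGroup (fun ρ : ℝ => ((gt L ρ : ℝ) : ℂ))
    (by unfold gt; fun_prop) |L| (by
      intro ρ
      rw [Complex.norm_real, Real.norm_eq_abs]
      exact gt_abs L ρ)

/-- evaluation at a point as a ring homomorphism -/
noncomputable def evR (ρ : ℝ) : (ℝ →ᵇ ℂ) →+* ℂ where
  toFun G := G ρ
  map_one' := rfl
  map_mul' _ _ := rfl
  map_zero' := rfl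
  map_add' _ _ := rfl

/-- `ρ ↦ exp (i z g(ρ))` -/
noncomputable def ez (L : ℝ) (z : ℂ) : ℝ →ᵇ ℂ := NormedSpace.exp (z • (Complex.I • gB L))

lemma ez_apply (L : ℝ) (z : ℂ) (ρ : ℝ) : ez L z ρ = Complex.exp (Complex.I * z * (gt L ρ : ℝ)) := by
  have hc : Continuous (evR ρ) := (BoundedContinuousFunction.evalCLM ℂ ρ).continuous
  have h := NormedSpace.map_exp (evR ρ) hc (z • (Complex.I • gB L))
  have h2 : (evR ρ) (z • (Complex.I • gB L)) = Complex.I * z * (gt L ρ : ℝ) := by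
    change z * (Complex.I * ((gt L ρ : ℝ) : ℂ)) = _
    ring
  rw [h2] at h
  rw [Complex.exp_eq_exp_ℂ]
  exact h

lemma ez_diff (L : ℝ) : Differentiable ℂ (ez L) := fun z =>
  (hasDerivAt_exp_smul_const (𝕂 := ℂ) (Complex.I • gB L) z).differentiableAt

lemma ez_norm (L : ℝ) (z : ℂ) : ‖ez L z‖ ≤ Real.exp (|z.im| * |L|) := by
  rw [BoundedContinuousFunction.norm_le (Real.exp_pos _).le]
  intro ρ
  rw [ez_apply, Complex.norm_exp]
  apply Real.exp_le_exp.2
  have h1 : (Complex.I * z * ((gt L ρ : ℝ) : ℂ)).re = - (z.im * gt L ρ) := by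
    simp [Complex.mul_re]
  rw [h1]
  have h2 := gt_abs L ρ
  calc -(z.im * gt L ρ) ≤ |z.im * gt L ρ| := neg_le_abs _
    _ = |z.im| * |gt L ρ| := abs_mul _ _
    _ ≤ |z.im| * |L| := by gcongr

lemma ez_zero (L : ℝ) : ez L 0 = 1 := by
  unfold ez
  rw [zero_smul, NormedSpace.exp_zero]

lemma ez_star (L : ℝ) (z : ℂ) : star (ez L z) = ez L (-(starRingEnd ℂ) z) := by
  ext ρ
  rw [BoundedContinuousFunction.star_apply, ez_apply, ez_apply, RCLike.star_def, ← Complex.exp_conj,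
    map_mul, map_mul, Complex.conj_ofReal, Complex.conj_I]
  congr 1
  ring

/-- the analytic function of the proof -/
noncomputable def cz (Ψ : (ℝ →ᵇ ℂ) →⋆ₐ[ℂ] (H →L[ℂ] H)) (L : ℝ) (x : H →L[ℂ] H) (v w : H) (z : ℂ) :
    ℂ := ⟪v, Ψ (ez L z) (x (Ψ (ez L (-z)) w))⟫_ℂ

lemma cz_zero (Ψ : (ℝ →ᵇ ℂ) →⋆ₐ[ℂ] (H →L[ℂ] H)) (L : ℝ) (x : H →L[ℂ] H) (v w : H) :
    cz Ψ L x v w 0 = ⟪v, x w⟫_ℂ := by
  unfold cz
  rw [neg_zero, ez_zero, map_one, one_apply_eq_self, one_apply_eq_self]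

lemma cz_diff (Ψ : (ℝ →ᵇ ℂ) →⋆ₐ[ℂ] (H →L[ℂ] H)) (L : ℝ) (x : H →L[ℂ] H) (v w : H) :
    Differentiable ℂ (cz Ψ L x v w) := by
  have h1 : Differentiable ℂ (fun z => psiL Ψ (ez L z)) :=
    (psiL Ψ).differentiable.comp (ez_diff L)
  have h2 : Differentiable ℂ (fun z => psiL Ψ (ez L (-z)) w) :=
    (h1.comp differentiable_neg).clm_apply (differentiable_const w)
  have h3 : Differentiable ℂ (fun z => psiL Ψ (ez L z) (x (psiL Ψ (ez L (-z)) w))) :=
    h1.clm_apply (x.differentiable.comp h2)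
  exact (innerSL ℂ v).differentiable.comp h3

lemma cz_bound (Ψ : (ℝ →ᵇ ℂ) →⋆ₐ[ℂ] (H →L[ℂ] H)) (L : ℝ) (x : H →L[ℂ] H) (v w : H) (z : ℂ)
    (hz : |z.im| ≤ 1 / 2) : ‖cz Ψ L x v w z‖ ≤
      ‖v‖ * (Real.exp (1 / 2 * |L|) * (‖x‖ * (Real.exp (1 / 2 * |L|) * ‖w‖))) := by
  have he : ∀ z : ℂ, |z.im| ≤ 1 / 2 → ‖ez L z‖ ≤ Real.exp (1 / 2 * |L|) := by
    intro z hz
    refine (ez_norm L z).trans (Real.exp_le_exp.2 ?_)
    gcongr
  unfold cz
  refine (norm_inner_le_norm _ _).trans ?_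
  gcongr
  refine (psi_norm_apply _ _ _).trans ?_
  gcongr
  · exact he z hz
  refine (x.le_opNorm _).trans ?_
  gcongr
  refine (psi_norm_apply _ _ _).trans ?_
  gcongr
  refine he _ ?_
  rw [Complex.neg_im, abs_neg]
  exact hz

end Pool.Agent.Helper43.TTF

end

section

open scoped InnerProductSpace Topology BoundedContinuousFunction

open ContinuousLinearMap Filter MeasureTheory

namespace Pool.Agent.Helper43.TTF

open Pool.Agent.Helper23

variable {H : Type*} [NormedAddCommGroup H] [InnerProductSpace ℂ H] [CompleteSpace H]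

/-- cut-off function -/
noncomputable def ct (n : ℕ) (ρ : ℝ) : ℝ := max 0 (min 1 ((n : ℝ) + 1 - |ρ|))

lemma ct_nonneg (n : ℕ) (ρ : ℝ) : 0 ≤ ct n ρ := le_max_left _ _

lemma ct_le (n : ℕ) (ρ : ℝ) : ct n ρ ≤ 1 := max_le zero_le_one (min_le_left _ _)

lemma ct_zero {n : ℕ} {ρ : ℝ} (h : (n : ℝ) + 1 ≤ |ρ|) : ct n ρ = 0 := by
  unfold ct
  apply max_eq_left
  refine (min_le_right _ _).trans ?_
  (clear * - h; linarith)

lemma ct_one {n : ℕ} {ρ : ℝ} (h : |ρ| ≤ n) : ct n ρ = 1 := by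
  unfold ct
  rw [min_eq_left (by linarith), max_eq_right zero_le_one]

lemma ct_cont (n : ℕ) : Continuous (ct n) := by
  unfold ct; fun_prop

noncomputable def ctB (n : ℕ) : ℝ →ᵇ ℂ :=
  BoundedContinuousFunction.ofNormedAddCommGroup (fun ρ : ℝ => ((ct n ρ : ℝ) : ℂ))
    (Complex.continuous_ofReal.comp (ct_cont n)) 1 (by
      intro ρ
      rw [Complex.norm_real, Real.norm_of_nonneg (ct_nonneg n ρ)]
      exact ct_le n ρ)

lemma ctB_apply (n : ℕ) (ρ : ℝ) : ctB n ρ = ((ct n ρ : ℝ) : ℂ) := rfl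

lemma ctB_norm (n : ℕ) : ‖ctB n‖ ≤ 1 :=
  BoundedContinuousFunction.norm_ofNormedAddCommGroup_le _ zero_le_one _

noncomputable def kB (n : ℕ) (t : ℝ) : ℝ →ᵇ ℂ :=
  BoundedContinuousFunction.ofNormedAddCommGroup
    (fun ρ : ℝ => ((ct n ρ * Real.cosh (ρ / 2) : ℝ) : ℂ) * Complex.exp ((t * ρ : ℝ) * Complex.I))
    (by
      have := ct_cont n
      fun_prop) (Real.cosh (((n : ℝ) + 1) / 2)) (by
      intro ρ
      rw [norm_mul, Complex.norm_exp_ofReal_mul_I, mul_one, Complex.norm_real, Real.norm_of_nonneg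
        (mul_nonneg (ct_nonneg n ρ) (Real.cosh_pos _).le)]
      rcases le_total ((n : ℝ) + 1) |ρ| with h | h
      · rw [ct_zero h, zero_mul]
        exact (Real.cosh_pos _).le
      · calc ct n ρ * Real.cosh (ρ / 2) ≤ 1 * Real.cosh (ρ / 2) := by
              gcongr
              exact ct_le n ρ
          _ ≤ Real.cosh (((n : ℝ) + 1) / 2) := by
              rw [one_mul, Real.cosh_le_cosh, abs_div, abs_div,
                abs_of_nonneg (a := (n : ℝ) + 1) (by (clear * -; positivity))]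
              gcongr)

lemma kB_apply (n : ℕ) (t : ℝ) (ρ : ℝ) : kB n t ρ =
    ((ct n ρ * Real.cosh (ρ / 2) : ℝ) : ℂ) * Complex.exp ((t * ρ : ℝ) * Complex.I) := rfl

variable {R : H →L[ℂ] H} {D : H →L[ℝ] H} {Ψ : (ℝ →ᵇ ℂ) →⋆ₐ[ℂ] (H →L[ℂ] H)} {J : H →L[ℝ] H}

/-- the kernel -/
noncomputable def ker (β t : ℝ) : ℂ :=
  Complex.exp (Complex.I * ((-β : ℝ) : ℂ) * t) / (2 * Real.cosh (Real.pi * t) : ℝ)

lemma ker_norm (β t : ℝ) : ‖ker β t‖ = (2 * Real.cosh (Real.pi * t))⁻¹ := by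
  unfold ker
  rw [norm_div, Complex.norm_real, Real.norm_of_nonneg (by positivity [Real.cosh_pos (Real.pi * t)])]
  have : Complex.I * ((-β : ℝ) : ℂ) * t = ((-β * t : ℝ) : ℂ) * Complex.I := by
    push_cast; ring
  rw [this, Complex.norm_exp_ofReal_mul_I, one_div]

lemma ker_cont (β : ℝ) : Continuous (ker β) := by
  unfold ker
  refine Continuous.div (by fun_prop) (by fun_prop) ?_
  intro t
  have := Real.cosh_pos (Real.pi * t)
  exact_mod_cast (by positivity : (2 * Real.cosh (Real.pi * t) : ℝ) ≠ 0)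

end Pool.Agent.Helper43.TTF

end

section

open scoped InnerProductSpace Topology BoundedContinuousFunction FourierTransform

open ContinuousLinearMap Filter MeasureTheory

namespace Pool.Agent.Helper43.TTF

open Pool.Agent.Helper23

variable {H : Type*} [NormedAddCommGroup H] [InnerProductSpace ℂ H] [CompleteSpace H]

variable {R : H →L[ℂ] H} {D : H →L[ℝ] H} {Ψ : (ℝ →ᵇ ℂ) →⋆ₐ[ℂ] (H →L[ℂ] H)} {J : H →L[ℝ] H}

/-- uniqueness of the Fourier transform -/
lemma eq_zero_of_fourier {F : ℝ → ℂ} (hc : Continuous F)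
    (hi : Integrable (fun t => ((2 * Real.cosh (Real.pi * t) : ℝ) : ℂ)⁻¹ * F t))
    (h0 : ∀ β : ℝ, ∫ t : ℝ, ker β t * F t = 0) (t : ℝ) : F t = 0 := by
  set g : ℝ → ℂ := fun t => ((2 * Real.cosh (Real.pi * t) : ℝ) : ℂ)⁻¹ * F t with hg
  have hne : ∀ t : ℝ, ((2 * Real.cosh (Real.pi * t) : ℝ) : ℂ) ≠ 0 := by
    intro t
    have := Real.cosh_pos (Real.pi * t)
    exact_mod_cast (by positivity : (2 * Real.cosh (Real.pi * t) : ℝ) ≠ 0)
  have hgc : Continuous g := by
    refine Continuous.mul (Continuous.inv₀ (by fun_prop) hne) hc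
  have hF : 𝓕 g = 0 := by
    funext b
    rw [Real.fourier_eq', Pi.zero_apply, ← h0 (2 * Real.pi * b)]
    congr 1
    funext t
    unfold ker
    simp only [smul_eq_mul, hg, div_eq_mul_inv]
    rw [← mul_assoc]
    congr 3
    simp only [RCLike.inner_apply, conj_trivial]
    push_cast
    ring
  have h1 := Continuous.fourierInv_fourier_eq hgc hi (by rw [hF]; exact integrable_zero _ _ _)
  rw [hF] at h1
  have h2 : g t = 0 := by
    rw [← h1]
    rw [Real.fourierInv_eq']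
    simp
  exact (mul_eq_zero.1 h2).resolve_left (inv_ne_zero (hne t))

end Pool.Agent.Helper43.TTF

end

section

open scoped InnerProductSpace Topology BoundedContinuousFunction FourierTransform SchwartzMap

open ContinuousLinearMap Filter MeasureTheory

set_option linter.unusedSectionVars false

namespace Pool.Agent.Helper23

variable {G : Type*} [NormedAddCommGroup G] [InnerProductSpace ℂ G] [CompleteSpace G]

variable {G' : Type*} [NormedAddCommGroup G'] [InnerProductSpace ℂ G'] [CompleteSpace G']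

variable {H : Type*} [NormedAddCommGroup H] [InnerProductSpace ℂ H] [CompleteSpace H]

/-- `s ↦ exp(-2 π i t s)` -/
noncomputable def chr (t : ℝ) (s : ℝ) : ℂ := Complex.exp (-(2 * Real.pi * t * s : ℝ) * Complex.I)

lemma chr_norm (t s : ℝ) : ‖chr t s‖ = 1 := by
  unfold chr
  rw [← Complex.ofReal_neg, Complex.norm_exp_ofReal_mul_I]

end Pool.Agent.Helper23

end

section

open scoped InnerProductSpace Topology ENNReal BoundedContinuousFunction

open ContinuousLinearMap Filter MeasureTheory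

namespace Pool.Agent.Helper23.ED

open Pool.Agent.Helper23 Pool.Agent.Helper23.RBF

universe u

section fc

variable {H : Type*} [NormedAddCommGroup H] [InnerProductSpace ℂ H] [CompleteSpace H]

/-- the phase `e^{i t c}` -/
noncomputable def ph (t c : ℝ) : ℂ := Complex.exp (((t * c : ℝ) : ℂ) * Complex.I)

end fc

section smear

variable {K : Type*} [NormedAddCommGroup K] [InnerProductSpace ℂ K] [CompleteSpace K]

/-- `∫ f(t) U_t Y U_{-t} dt` -/
noncomputable def smear (U : ℝ → K →L[ℂ] K) (f : ℝ → ℂ) (Y : K →L[ℂ] K) : K →L[ℂ] K :=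
  open Classical in
  if h : ∃ T : K →L[ℂ] K, ∀ v w, ⟪v, T w⟫_ℂ = ∫ t, f t * ⟪v, U t (Y (U (-t) w))⟫_ℂ
    then h.choose else 0

/-- the Gaussian `exp(-m (t - z)²)` -/
noncomputable def gau (m : ℝ) (z : ℂ) (t : ℝ) : ℂ := Complex.exp (-(m : ℂ) * ((t : ℂ) - z) ^ 2)

/-- a strongly continuous one-parameter unitary group -/
structure UG (U : ℝ → K →L[ℂ] K) : Prop where
  cont : ∀ v, Continuous fun t => U t v
  zero : U 0 = 1
  add : ∀ s t, U (s + t) = U s * U t
  star : ∀ t, star (U t) = U (-t)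

end smear

section amp

variable {H : Type*} [NormedAddCommGroup H] [InnerProductSpace ℂ H] [CompleteSpace H]

/-- the character `s ↦ e^{i a s}` -/
noncomputable def ems (a s : ℝ) : ℂ := ph a s

/-- the cocycle of a weight `ψ` on `N` with respect to the group `V` -/
structure Coc (N : VonNeumannAlgebra H) (V : ℝ → H →L[ℂ] H) (ψ : (H →L[ℂ] H) → ℝ≥0∞)
    (c : ℝ → H →L[ℂ] H) : Prop where
  mem : ∀ t, c t ∈ N
  unit : ∀ t, star (c t) * c t = 1 ∧ c t * star (c t) = 1
  cont : ∀ v, Continuous fun t => c t v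
  cocycle : ∀ s t, c (s + t) = c s * (V s * c t * V (-s))
  scal : ∀ u ∈ N, star u * u = 1 → u * star u = 1 → ∀ l : ℝ, 0 < l →
    (ScalingUnitary N ψ l u ↔ ∀ t, u * (c t * V t) = ph t (Real.log l) • (c t * V t * u))

end amp

end Pool.Agent.Helper23.ED

end

section

open scoped InnerProductSpace Topology ENNReal BoundedContinuousFunction

open ContinuousLinearMap Filter MeasureTheory

namespace Pool.Agent.Helper23.ED

open Pool.Agent.Helper23 Pool.Agent.Helper23.RBF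

universe u

variable {K : Type*} [NormedAddCommGroup K] [InnerProductSpace ℂ K] [CompleteSpace K]

variable {U : ℝ → K →L[ℂ] K} {f : ℝ → ℂ}

namespace SmA

lemma inner_U (hU : UG U) (t : ℝ) (v w : K) : ⟪U t v, w⟫_ℂ = ⟪v, U (-t) w⟫_ℂ := by
  rw [← hU.star t, ContinuousLinearMap.star_eq_adjoint, ContinuousLinearMap.adjoint_inner_right]

lemma inner_U' (hU : UG U) (t : ℝ) (v w : K) : ⟪v, U t w⟫_ℂ = ⟪U (-t) v, w⟫_ℂ := by
  rw [inner_U hU, neg_neg]

lemma neg_U (hU : UG U) (t : ℝ) (v : K) : U (-t) (U t v) = v := by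
  have h := hU.add (-t) t
  rw [neg_add_cancel, hU.zero] at h
  exact (congrArg (fun T : K →L[ℂ] K => T v) h).symm

lemma norm_U (hU : UG U) (t : ℝ) (v : K) : ‖U t v‖ = ‖v‖ := by
  have h : ‖U t v‖ ^ 2 = ‖v‖ ^ 2 := by
    have h1 : ⟪U t v, U t v⟫_ℂ = ⟪v, v⟫_ℂ := by
      rw [inner_U hU, neg_U hU]
    rw [inner_self_eq_norm_sq_to_K, inner_self_eq_norm_sq_to_K] at h1
    exact_mod_cast h1
  exact (sq_eq_sq₀ (norm_nonneg _) (norm_nonneg _)).1 h

lemma cont_conj (hU : UG U) (Y : K →L[ℂ] K) (w : K) :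
    Continuous fun t => U t (Y (U (-t) w)) := by
  have hg : Continuous fun t => Y (U (-t) w) := Y.continuous.comp ((hU.cont w).comp continuous_neg)
  rw [continuous_iff_continuousAt]
  intro t0
  have h1 : Tendsto (fun t => U t (Y (U (-t) w) - Y (U (-t0) w))) (𝓝 t0) (𝓝 0) := by
    rw [tendsto_zero_iff_norm_tendsto_zero]
    have h2 : Tendsto (fun t => ‖Y (U (-t) w) - Y (U (-t0) w)‖) (𝓝 t0) (𝓝 0) := by
      have := (hg.tendsto t0).sub_const (Y (U (-t0) w))
      rw [sub_self] at this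
      simpa using this.norm
    refine h2.congr fun t => ?_
    rw [norm_U hU]
  have h3 := h1.add ((hU.cont (Y (U (-t0) w))).tendsto t0)
  rw [zero_add] at h3
  refine h3.congr fun t => ?_
  rw [map_sub, sub_add_cancel]

lemma norm_conj (hU : UG U) (Y : K →L[ℂ] K) (t : ℝ) (w : K) :
    ‖U t (Y (U (-t) w))‖ ≤ ‖Y‖ * ‖w‖ := by
  rw [norm_U hU]
  exact (Y.le_opNorm _).trans (by rw [norm_U hU])

lemma integrable_conj (hU : UG U) (hf : Integrable f) (Y : K →L[ℂ] K) (w : K) :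
    Integrable fun t => f t • U t (Y (U (-t) w)) :=
  hf.smul_bdd (‖Y‖ * ‖w‖) (cont_conj hU Y w).aestronglyMeasurable
    (Eventually.of_forall fun t => norm_conj hU Y t w)

lemma norm_int (hU : UG U) (hf : Integrable f) (Y : K →L[ℂ] K) (w : K) :
    ‖∫ t, f t • U t (Y (U (-t) w))‖ ≤ (∫ t, ‖f t‖) * ‖Y‖ * ‖w‖ := by
  calc ‖∫ t, f t • U t (Y (U (-t) w))‖ ≤ ∫ t, ‖f t‖ * (‖Y‖ * ‖w‖) := by
        refine norm_integral_le_of_norm_le (hf.norm.mul_const _) (Eventually.of_forall fun t => ?_)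
        rw [norm_smul]
        exact mul_le_mul_of_nonneg_left (norm_conj hU Y t w) (norm_nonneg _)
    _ = (∫ t, ‖f t‖) * ‖Y‖ * ‖w‖ := by
        rw [integral_mul_const, mul_assoc]

lemma inner_int (hU : UG U) (hf : Integrable f) (Y : K →L[ℂ] K) (v w : K) :
    ⟪v, ∫ t, f t • U t (Y (U (-t) w))⟫_ℂ = ∫ t, f t * ⟪v, U t (Y (U (-t) w))⟫_ℂ := by
  rw [← integral_inner (integrable_conj hU hf Y w)]
  refine integral_congr_ae (Eventually.of_forall fun t => ?_)
  simp only [inner_smul_right]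

lemma exists_smear (hU : UG U) (hf : Integrable f) (Y : K →L[ℂ] K) :
    ∃ T : K →L[ℂ] K, ∀ v w, ⟪v, T w⟫_ℂ = ∫ t, f t * ⟪v, U t (Y (U (-t) w))⟫_ℂ := by
  refine ⟨LinearMap.mkContinuous
    { toFun := fun w => ∫ t, f t • U t (Y (U (-t) w))
      map_add' := fun w w' => ?_
      map_smul' := fun c w => ?_ } ((∫ t, ‖f t‖) * ‖Y‖) fun w => ?_, fun v w => ?_⟩
  · rw [← integral_add (integrable_conj hU hf Y w) (integrable_conj hU hf Y w')]
    refine integral_congr_ae (Eventually.of_forall fun t => ?_)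
    simp only [map_add, smul_add]
  · simp only [RingHom.id_apply]
    rw [← integral_smul]
    refine integral_congr_ae (Eventually.of_forall fun t => ?_)
    simp only [map_smul]
    rw [smul_comm]
  · exact norm_int hU hf Y w
  · exact inner_int hU hf Y v w

end SmA

theorem UG.norm (hU : UG U) (t : ℝ) (v : K) : ‖U t v‖ = ‖v‖ := SmA.norm_U hU t v

theorem smear_spec (hU : UG U) (hf : Integrable f) (Y : K →L[ℂ] K) (v w : K) :
    ⟪v, smear U f Y w⟫_ℂ = ∫ t, f t * ⟪v, U t (Y (U (-t) w))⟫_ℂ := by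
  have h := SmA.exists_smear hU hf Y
  rw [smear, dif_pos h]
  exact h.choose_spec v w

lemma SmA.smear_apply (hU : UG U) (hf : Integrable f) (Y : K →L[ℂ] K) (w : K) :
    smear U f Y w = ∫ t, f t • U t (Y (U (-t) w)) := by
  refine ext_inner_left ℂ fun v => ?_
  rw [smear_spec hU hf, SmA.inner_int hU hf]

theorem smear_norm (hU : UG U) (hf : Integrable f) (Y : K →L[ℂ] K) :
    ‖smear U f Y‖ ≤ (∫ t, ‖f t‖) * ‖Y‖ := by
  refine ContinuousLinearMap.opNorm_le_bound _
    (mul_nonneg (integral_nonneg fun t => norm_nonneg _) (norm_nonneg _)) fun w => ?_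
  rw [SmA.smear_apply hU hf]
  exact SmA.norm_int hU hf Y w

end Pool.Agent.Helper23.ED

end

section

open scoped InnerProductSpace Topology ENNReal BoundedContinuousFunction

open ContinuousLinearMap Filter MeasureTheory

namespace Pool.Agent.Helper23.ED

open Pool.Agent.Helper23 Pool.Agent.Helper23.RBF

universe u

variable {K : Type*} [NormedAddCommGroup K] [InnerProductSpace ℂ K] [CompleteSpace K]

variable {U : ℝ → K →L[ℂ] K}

namespace SmB

lemma norm_gau (m : ℝ) (z : ℂ) (t : ℝ) :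
    ‖gau m z t‖ = Real.exp (m * z.im ^ 2) * Real.exp (-m * (t - z.re) ^ 2) := by
  rw [gau, Complex.norm_exp, ← Real.exp_add]
  congr 1
  have : (-(m : ℂ) * ((t : ℂ) - z) ^ 2).re = -m * ((t - z.re) ^ 2 - z.im ^ 2) := by
    simp only [sq, Complex.neg_re, Complex.mul_re, Complex.sub_re, Complex.ofReal_re,
      Complex.ofReal_im, Complex.neg_im, Complex.sub_im]
    ring
  rw [this]
  ring

lemma cont_gau (m : ℝ) (z : ℂ) : Continuous (gau m z) := by
  unfold gau
  fun_prop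

lemma int_gauss {m : ℝ} (hm : 0 < m) (x : ℝ) :
    Integrable fun t : ℝ => Real.exp (-m * (t - x) ^ 2) :=
  (integrable_exp_neg_mul_sq hm).comp_sub_right x

/-- the derivative of the Gaussian in `z` -/
noncomputable def dgau (m : ℝ) (z : ℂ) (t : ℝ) : ℂ := 2 * (m : ℂ) * ((t : ℂ) - z) * gau m z t

lemma cont_dgau (m : ℝ) (z : ℂ) : Continuous (dgau m z) := by
  unfold dgau
  have := cont_gau m z
  fun_prop

lemma gau_add (m : ℝ) (z h : ℂ) (t : ℝ) :
    gau m (z + h) t = gau m z t * Complex.exp (2 * (m : ℂ) * ((t : ℂ) - z) * h - (m : ℂ) * h ^ 2) := by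
  rw [gau, gau, ← Complex.exp_add]
  congr 1
  ring

/-- the constant in the second order estimate -/
noncomputable def cst (m y : ℝ) : ℝ :=
  (m + 2 * m ^ 2) * Real.exp (m * y ^ 2 + (m + 1) * (2 * |y| + 1) + 2 * (m + 1) ^ 2 / m)

lemma bound_aux {m : ℝ} (hm : 0 < m) (z : ℂ) (t : ℝ) {q : ℝ} (hq : q = 2 * ‖(t : ℂ) - z‖ + 1) :
    ‖gau m z t‖ * (m + m ^ 2 * q ^ 2 * Real.exp (m * q))
      ≤ cst m z.im * Real.exp (-(m / 2) * (t - z.re) ^ 2) := by
  have hn : ‖(t : ℂ) - z‖ ≤ |t - z.re| + |z.im| := by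
    have := Complex.norm_le_abs_re_add_abs_im ((t : ℂ) - z)
    simpa using this
  have hq1 : 1 ≤ q := by have := norm_nonneg ((t : ℂ) - z); (clear * - hq this; linarith)
  have hq2 : q ≤ 2 * |t - z.re| + (2 * |z.im| + 1) := by (clear * - hq hn; linarith)
  have hqq : q ^ 2 ≤ 2 * Real.exp q := by
    have := Real.quadratic_le_exp_of_nonneg (x := q) (by (clear * - hq1; linarith))
    (clear * - hq1 this; nlinarith)
  have h1 : m + m ^ 2 * q ^ 2 * Real.exp (m * q) ≤ (m + 2 * m ^ 2) * Real.exp ((m + 1) * q) := by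
    have e1 : (1 : ℝ) ≤ Real.exp ((m + 1) * q) := Real.one_le_exp (by (clear * - hm hq1; positivity))
    have e2 : Real.exp ((m + 1) * q) = Real.exp (m * q) * Real.exp q := by
      rw [← Real.exp_add]; congr 1; ring
    have e3 : m ^ 2 * q ^ 2 * Real.exp (m * q) ≤ m ^ 2 * (2 * Real.exp q) * Real.exp (m * q) := by
      gcongr
    have e4 : m ≤ m * Real.exp ((m + 1) * q) := by (clear * - hm e1; nlinarith)
    have e5 : m ^ 2 * (2 * Real.exp q) * Real.exp (m * q) = 2 * m ^ 2 * Real.exp ((m + 1) * q) := by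
      rw [e2]; ring
    linarith
  have h2 : Real.exp ((m + 1) * q)
      ≤ Real.exp ((m + 1) * (2 * |t - z.re| + (2 * |z.im| + 1))) := by
    apply Real.exp_le_exp.mpr
    have : 0 < m + 1 := by (clear * - hm; linarith)
    (clear * - hq hn hm; nlinarith)
  have h3 : ‖gau m z t‖ * (m + m ^ 2 * q ^ 2 * Real.exp (m * q))
      ≤ (Real.exp (m * z.im ^ 2) * Real.exp (-m * (t - z.re) ^ 2)) *
        ((m + 2 * m ^ 2) * Real.exp ((m + 1) * (2 * |t - z.re| + (2 * |z.im| + 1)))) := by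
    rw [norm_gau]
    have : (m + 2 * m ^ 2) * Real.exp ((m + 1) * q) ≤
        (m + 2 * m ^ 2) * Real.exp ((m + 1) * (2 * |t - z.re| + (2 * |z.im| + 1))) := by
      (clear * - h2 hm; gcongr)
    have h4 := h1.trans this
    gcongr
  refine h3.trans ?_
  have key : m * z.im ^ 2 + -m * (t - z.re) ^ 2 + (m + 1) * (2 * |t - z.re| + (2 * |z.im| + 1))
      ≤ (m * z.im ^ 2 + (m + 1) * (2 * |z.im| + 1) + 2 * (m + 1) ^ 2 / m)
        + -(m / 2) * (t - z.re) ^ 2 := by
    have hs : (t - z.re) ^ 2 = |t - z.re| ^ 2 := (sq_abs _).symm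
    rw [hs]
    generalize |t - z.re| = s
    have : 0 ≤ (m / 2) * (s - 2 * (m + 1) / m) ^ 2 := by (clear * - hm; positivity)
    have e : (m / 2) * (s - 2 * (m + 1) / m) ^ 2
        = (m / 2) * s ^ 2 - 2 * (m + 1) * s + 2 * (m + 1) ^ 2 / m := by
      field_simp
      ring
    rw [e] at this
    (clear * - this; nlinarith)
  calc (Real.exp (m * z.im ^ 2) * Real.exp (-m * (t - z.re) ^ 2)) *
        ((m + 2 * m ^ 2) * Real.exp ((m + 1) * (2 * |t - z.re| + (2 * |z.im| + 1))))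
      = (m + 2 * m ^ 2) * Real.exp (m * z.im ^ 2 + -m * (t - z.re) ^ 2
          + (m + 1) * (2 * |t - z.re| + (2 * |z.im| + 1))) := by
        rw [Real.exp_add, Real.exp_add]; ring
    _ ≤ (m + 2 * m ^ 2) * Real.exp ((m * z.im ^ 2 + (m + 1) * (2 * |z.im| + 1)
          + 2 * (m + 1) ^ 2 / m) + -(m / 2) * (t - z.re) ^ 2) := by
        gcongr
    _ = cst m z.im * Real.exp (-(m / 2) * (t - z.re) ^ 2) := by
        rw [cst, Real.exp_add]; ring

lemma norm_exp_sub (u : ℂ) : ‖Complex.exp u - 1 - u‖ ≤ ‖u‖ ^ 2 * Real.exp ‖u‖ := by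
  have := Complex.norm_exp_sub_sum_le_norm_mul_exp u 2
  simpa [Finset.sum_range_succ, sub_sub] using this

lemma taylor {m : ℝ} (hm : 0 < m) (z h : ℂ) (hh : ‖h‖ ≤ 1) (t : ℝ) :
    ‖gau m (z + h) t - gau m z t - h * dgau m z t‖
      ≤ ‖h‖ ^ 2 * (cst m z.im * Real.exp (-(m / 2) * (t - z.re) ^ 2)) := by
  set q : ℝ := 2 * ‖(t : ℂ) - z‖ + 1 with hq
  set w : ℂ := 2 * (m : ℂ) * ((t : ℂ) - z) * h - (m : ℂ) * h ^ 2 with hw
  have hid : gau m (z + h) t - gau m z t - h * dgau m z t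
      = gau m z t * ((Complex.exp w - 1 - w) - (m : ℂ) * h ^ 2) := by
    rw [gau_add, dgau, hw]
    ring
  have hwn : ‖w‖ ≤ ‖h‖ * (m * q) := by
    calc ‖w‖ ≤ ‖2 * (m : ℂ) * ((t : ℂ) - z) * h‖ + ‖(m : ℂ) * h ^ 2‖ := norm_sub_le _ _
      _ = 2 * m * ‖(t : ℂ) - z‖ * ‖h‖ + m * ‖h‖ ^ 2 := by
          simp [abs_of_pos hm]
      _ ≤ ‖h‖ * (m * q) := by
          rw [hq]
          have : m * ‖h‖ ^ 2 ≤ m * ‖h‖ := by
            have := norm_nonneg h
            (clear * - hm this hh; nlinarith [mul_nonneg this (sub_nonneg.mpr hh)])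
          nlinarith
  have hq0 : 0 ≤ q := by (clear * -; positivity)
  have hwm : ‖w‖ ≤ m * q := by
    refine hwn.trans ?_
    have : 0 ≤ m * q := by (clear * - hm; positivity)
    (clear * - hh this; nlinarith)
  have h1 : ‖Complex.exp w - 1 - w‖ ≤ ‖h‖ ^ 2 * (m ^ 2 * q ^ 2 * Real.exp (m * q)) := by
    calc ‖Complex.exp w - 1 - w‖ ≤ ‖w‖ ^ 2 * Real.exp ‖w‖ := norm_exp_sub w
      _ ≤ (‖h‖ * (m * q)) ^ 2 * Real.exp (m * q) := by
          gcongr
      _ = ‖h‖ ^ 2 * (m ^ 2 * q ^ 2 * Real.exp (m * q)) := by ring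
  have h2 : ‖(Complex.exp w - 1 - w) - (m : ℂ) * h ^ 2‖
      ≤ ‖h‖ ^ 2 * (m + m ^ 2 * q ^ 2 * Real.exp (m * q)) := by
    calc ‖(Complex.exp w - 1 - w) - (m : ℂ) * h ^ 2‖
        ≤ ‖Complex.exp w - 1 - w‖ + ‖(m : ℂ) * h ^ 2‖ := norm_sub_le _ _
      _ ≤ ‖h‖ ^ 2 * (m ^ 2 * q ^ 2 * Real.exp (m * q)) + m * ‖h‖ ^ 2 := by
          gcongr
          simp [abs_of_pos hm]
      _ = ‖h‖ ^ 2 * (m + m ^ 2 * q ^ 2 * Real.exp (m * q)) := by ring
  rw [hid, norm_mul]
  calc ‖gau m z t‖ * ‖(Complex.exp w - 1 - w) - (m : ℂ) * h ^ 2‖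
      ≤ ‖gau m z t‖ * (‖h‖ ^ 2 * (m + m ^ 2 * q ^ 2 * Real.exp (m * q))) := by gcongr
    _ = ‖h‖ ^ 2 * (‖gau m z t‖ * (m + m ^ 2 * q ^ 2 * Real.exp (m * q))) := by ring
    _ ≤ ‖h‖ ^ 2 * (cst m z.im * Real.exp (-(m / 2) * (t - z.re) ^ 2)) :=
        mul_le_mul_of_nonneg_left (bound_aux hm z t hq) (by (clear * -; positivity))

lemma int_dgau {m : ℝ} (hm : 0 < m) (z : ℂ) : Integrable (dgau m z) := by
  have hi : Integrable fun t : ℝ => 4 * (m + 1) * (cst m z.im / m * Real.exp (-(m / 2) * (t - z.re) ^ 2)) := by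
    exact (((int_gauss (half_pos hm) z.re).const_mul _).const_mul _)
  refine hi.mono' (cont_dgau m z).aestronglyMeasurable (Eventually.of_forall fun t => ?_)
  have h1 := bound_aux hm z t rfl
  set q : ℝ := 2 * ‖(t : ℂ) - z‖ + 1 with hq
  have hq1 : 1 ≤ q := by have := norm_nonneg ((t : ℂ) - z); (clear * - this; linarith)
  have hg := norm_nonneg (gau m z t)
  have he : 1 ≤ Real.exp (m * q) := Real.one_le_exp (by (clear * - hm; positivity))
  have h2 : ‖dgau m z t‖ ≤ m * q * ‖gau m z t‖ := by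
    rw [dgau, norm_mul, norm_mul, norm_mul]
    have : ‖(2 : ℂ)‖ * ‖(m : ℂ)‖ * ‖(t : ℂ) - z‖ ≤ m * q := by
      simp only [Complex.norm_real, Real.norm_eq_abs, abs_of_pos hm, Complex.norm_ofNat]
      rw [hq]
      (clear * - hm; nlinarith)
    exact mul_le_mul_of_nonneg_right this hg
  have h3 : m * (m * q * ‖gau m z t‖) ≤ ‖gau m z t‖ * (m + m ^ 2 * q ^ 2 * Real.exp (m * q)) := by
    have : m ^ 2 * q ≤ m + m ^ 2 * q ^ 2 * Real.exp (m * q) := by
      have a1 : q ≤ q ^ 2 := by (clear * - hq1; nlinarith)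
      have a2 : q ^ 2 ≤ q ^ 2 * Real.exp (m * q) := by
        have : 0 ≤ q ^ 2 := by (clear * -; positivity)
        (clear * - he; nlinarith)
      have a3 : m ^ 2 * q ≤ m ^ 2 * (q ^ 2 * Real.exp (m * q)) := by
        gcongr
        exact a1.trans a2
      (clear * - hm a3; nlinarith)
    calc m * (m * q * ‖gau m z t‖) = ‖gau m z t‖ * (m ^ 2 * q) := by ring
      _ ≤ _ := by (clear * - this; gcongr)
  have h4 := h3.trans h1
  have h5 : m * q * ‖gau m z t‖ ≤ cst m z.im / m * Real.exp (-(m / 2) * (t - z.re) ^ 2) := by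
    rw [div_mul_eq_mul_div, le_div_iff₀ hm]
    (clear * - h1 h3; linarith)
  have h6 : 0 ≤ cst m z.im / m * Real.exp (-(m / 2) * (t - z.re) ^ 2) := by
    unfold cst
    positivity
  calc ‖dgau m z t‖ ≤ m * q * ‖gau m z t‖ := h2
    _ ≤ 1 * (cst m z.im / m * Real.exp (-(m / 2) * (t - z.re) ^ 2)) := by rw [one_mul]; exact h5
    _ ≤ _ := by
      apply mul_le_mul_of_nonneg_right _ h6
      (clear * - hm; nlinarith)

end SmB

open SmB

theorem gau_int {m : ℝ} (hm : 0 < m) (z : ℂ) : Integrable (gau m z) := by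
  have hi : Integrable fun t : ℝ => Real.exp (m * z.im ^ 2) * Real.exp (-m * (t - z.re) ^ 2) :=
    (int_gauss hm z.re).const_mul _
  refine hi.mono' (cont_gau m z).aestronglyMeasurable (Eventually.of_forall fun t => ?_)
  rw [norm_gau]

theorem gau_norm {m : ℝ} (hm : 0 < m) (z : ℂ) :
    ∫ t, ‖gau m z t‖ = Real.sqrt (Real.pi / m) * Real.exp (m * z.im ^ 2) := by
  simp_rw [norm_gau]
  rw [integral_const_mul, integral_sub_right_eq_self (fun t : ℝ => Real.exp (-m * t ^ 2)) z.re,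
    integral_gaussian, mul_comm]

namespace SmB

lemma mat_eq (hU : UG U) (Y : K →L[ℂ] K) (v w : K) (t : ℝ) :
    ⟪v, U t (Y (U (-t) w))⟫_ℂ = ⟪U (-t) v, Y (U (-t) w)⟫_ℂ := by
  rw [← hU.star t, ContinuousLinearMap.star_eq_adjoint, ContinuousLinearMap.adjoint_inner_left]

lemma int_mat (hU : UG U) {f : ℝ → ℂ} (hf : Integrable f) (Y : K →L[ℂ] K) (v w : K) :
    Integrable fun t => f t * ⟪v, U t (Y (U (-t) w))⟫_ℂ := by
  have hc : Continuous fun t : ℝ => ⟪v, U t (Y (U (-t) w))⟫_ℂ := by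
    simp_rw [mat_eq hU]
    have h1 : Continuous fun t : ℝ => U (-t) v := (hU.cont v).comp continuous_neg
    have h2 : Continuous fun t : ℝ => U (-t) w := (hU.cont w).comp continuous_neg
    exact h1.inner (Y.continuous.comp h2)
  have hb : ∀ t, ‖⟪v, U t (Y (U (-t) w))⟫_ℂ‖ ≤ ‖v‖ * (‖Y‖ * ‖w‖) := by
    intro t
    refine (norm_inner_le_norm _ _).trans ?_
    rw [hU.norm]
    gcongr
    refine (Y.le_opNorm _).trans ?_
    rw [hU.norm]
  refine (hf.norm.mul_const (‖v‖ * (‖Y‖ * ‖w‖))).mono'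
    (hf.1.mul hc.aestronglyMeasurable) (Eventually.of_forall fun t => ?_)
  rw [norm_mul]
  exact mul_le_mul_of_nonneg_left (hb t) (norm_nonneg _)

lemma smear_sub (hU : UG U) {f g : ℝ → ℂ} (hf : Integrable f) (hg : Integrable g)
    (Y : K →L[ℂ] K) : smear U (fun t => f t - g t) Y = smear U f Y - smear U g Y := by
  ext w
  refine ext_inner_left ℂ fun v => ?_
  have hfg : Integrable fun t => f t - g t := hf.sub hg
  rw [ContinuousLinearMap.sub_apply, inner_sub_right, smear_spec hU hfg, smear_spec hU hf,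
    smear_spec hU hg, ← integral_sub (int_mat hU hf Y v w) (int_mat hU hg Y v w)]
  refine integral_congr_ae (Eventually.of_forall fun t => ?_)
  simp only [sub_mul]

lemma smear_smul (hU : UG U) {f : ℝ → ℂ} (hf : Integrable f) (c : ℂ)
    (Y : K →L[ℂ] K) : smear U (fun t => c * f t) Y = c • smear U f Y := by
  ext w
  refine ext_inner_left ℂ fun v => ?_
  rw [ContinuousLinearMap.smul_apply, inner_smul_right, smear_spec hU (hf.const_mul c),
    smear_spec hU hf, ← integral_const_mul]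
  refine integral_congr_ae (Eventually.of_forall fun t => ?_)
  simp only [mul_assoc]

lemma smear_est (hU : UG U) {m : ℝ} (hm : 0 < m) (Y : K →L[ℂ] K) (z h : ℂ) (hh : ‖h‖ ≤ 1) :
    ‖smear U (gau m (z + h)) Y - smear U (gau m z) Y - h • smear U (dgau m z) Y‖
      ≤ ((cst m z.im * ∫ t : ℝ, Real.exp (-(m / 2) * (t - z.re) ^ 2)) * ‖Y‖) * ‖h‖ ^ 2 := by
  have i1 := gau_int hm (z + h)
  have i2 := gau_int hm z
  have i3 : Integrable fun t => h * dgau m z t := (int_dgau hm z).const_mul h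
  have i4 : Integrable fun t => gau m (z + h) t - gau m z t := i1.sub i2
  have e : smear U (gau m (z + h)) Y - smear U (gau m z) Y - h • smear U (dgau m z) Y
      = smear U (fun t => gau m (z + h) t - gau m z t - h * dgau m z t) Y := by
    rw [smear_sub hU i4 i3 Y, smear_smul hU (int_dgau hm z) h Y, smear_sub hU i1 i2 Y]
  rw [e]
  refine (smear_norm hU ((i1.sub i2).sub i3) Y).trans ?_
  have hI : ∫ t : ℝ, ‖gau m (z + h) t - gau m z t - h * dgau m z t‖
      ≤ ∫ t : ℝ, ‖h‖ ^ 2 * (cst m z.im * Real.exp (-(m / 2) * (t - z.re) ^ 2)) := by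
    refine integral_mono ((i1.sub i2).sub i3).norm
      (((int_gauss (half_pos hm) z.re).const_mul _).const_mul _) fun t => ?_
    exact taylor hm z h hh t
  rw [integral_const_mul, integral_const_mul] at hI
  calc (∫ t : ℝ, ‖gau m (z + h) t - gau m z t - h * dgau m z t‖) * ‖Y‖
      ≤ (‖h‖ ^ 2 * (cst m z.im * ∫ t : ℝ, Real.exp (-(m / 2) * (t - z.re) ^ 2))) * ‖Y‖ :=
        mul_le_mul_of_nonneg_right hI (norm_nonneg _)
    _ = _ := by ring

end SmB

/-- the smeared operators depend analytically on `z` -/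
theorem smear_diff (hU : UG U) {m : ℝ} (hm : 0 < m) (Y : K →L[ℂ] K) :
    Differentiable ℂ (fun z : ℂ => smear U (gau m z) Y) := by
  intro z
  have hd : HasDerivAt (fun z : ℂ => smear U (gau m z) Y) (smear U (dgau m z) Y) z := by
    rw [hasDerivAt_iff_isLittleO]
    refine Asymptotics.IsBigO.trans_isLittleO ?_
      (Asymptotics.isLittleO_pow_sub_sub z (m := 2) (by norm_num))
    refine Asymptotics.IsBigO.of_bound
      ((cst m z.im * ∫ t : ℝ, Real.exp (-(m / 2) * (t - z.re) ^ 2)) * ‖Y‖) ?_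
    filter_upwards [Metric.ball_mem_nhds z one_pos] with x hx
    have hx' : ‖x - z‖ ≤ 1 := by
      rw [← dist_eq_norm]
      exact (Metric.mem_ball.mp hx).le
    have := smear_est hU hm Y z (x - z) hx'
    rw [add_sub_cancel] at this
    simpa using this
  exact hd.differentiableAt

end Pool.Agent.Helper23.ED

end

section

open scoped InnerProductSpace Topology ENNReal BoundedContinuousFunction

open ContinuousLinearMap Filter MeasureTheory

namespace Pool.Agent.Helper23.ED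

open Pool.Agent.Helper23 Pool.Agent.Helper23.RBF

universe u

variable {K : Type*} [NormedAddCommGroup K] [InnerProductSpace ℂ K] [CompleteSpace K]

variable {U : ℝ → K →L[ℂ] K}

namespace SmD

open Pool.Agent.Helper43.TTF

/-- a bounded cut off version of `1 + e ^ (s ρ)` -/
noncomputable def E (n : ℕ) (s : ℝ) : ℝ →ᵇ ℂ :=
  BoundedContinuousFunction.ofNormedAddCommGroup
    (fun ρ : ℝ => ((ct n ρ * (1 + Real.exp (s * gt ((n : ℝ) + 1) ρ)) : ℝ) : ℂ))
    (by
      have h1 := ct_cont n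
      have h2 : Continuous (gt ((n : ℝ) + 1)) := by unfold gt; fun_prop
      fun_prop) (1 * (1 + Real.exp (|s| * |(n : ℝ) + 1|))) (by
      intro ρ
      rw [Complex.norm_real, Real.norm_eq_abs, abs_mul, abs_of_nonneg (ct_nonneg n ρ)]
      have h3 : s * gt ((n : ℝ) + 1) ρ ≤ |s| * |(n : ℝ) + 1| := by
        refine (le_abs_self _).trans ?_
        rw [abs_mul]
        exact mul_le_mul_of_nonneg_left (gt_abs _ _) (abs_nonneg _)
      have h4 : 0 < 1 + Real.exp (s * gt ((n : ℝ) + 1) ρ) := by positivity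
      rw [abs_of_pos h4]
      have h5 := Real.exp_le_exp.2 h3
      exact mul_le_mul (ct_le n ρ) (by linarith) h4.le zero_le_one)

lemma E_apply (n : ℕ) (s ρ : ℝ) : E n s ρ =
    ((ct n ρ * (1 + Real.exp (s * gt ((n : ℝ) + 1) ρ)) : ℝ) : ℂ) := rfl

variable {T : K →L[ℂ] K} {Ψ : (ℝ →ᵇ ℂ) →⋆ₐ[ℂ] (K →L[ℂ] K)}

/-- the operator valued function -/
noncomputable def g (U : ℝ → K →L[ℂ] K) (Ψ : (ℝ →ᵇ ℂ) →⋆ₐ[ℂ] (K →L[ℂ] K)) (m : ℝ)
    (Y : K →L[ℂ] K) (n : ℕ) (z : ℂ) : K →L[ℂ] K :=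
  Ψ (ctB n * ez ((n : ℝ) + 1) (-z)) * smear U (gau m z) Y * Ψ (ez ((n : ℝ) + 1) z * ctB n)

lemma g_bound (hU : UG U) (Ψ : (ℝ →ᵇ ℂ) →⋆ₐ[ℂ] (K →L[ℂ] K)) {m : ℝ} (hm : 0 < m)
    (Y : K →L[ℂ] K) (n : ℕ) : ∃ C : ℝ, ∀ z : ℂ, |z.im| ≤ 1 → ‖g U Ψ m Y n z‖ ≤ C := by
  refine ⟨Real.exp (1 * |(n : ℝ) + 1|) * ((Real.sqrt (Real.pi / m) * Real.exp (m * 1 ^ 2)) * ‖Y‖) *
    Real.exp (1 * |(n : ℝ) + 1|), fun z hz => ?_⟩
  have hez : ∀ z : ℂ, |z.im| ≤ 1 → ‖ez ((n : ℝ) + 1) z‖ ≤ Real.exp (1 * |(n : ℝ) + 1|) := by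
    intro z hz
    refine (ez_norm _ z).trans (Real.exp_le_exp.2 ?_)
    gcongr
  have hA : ‖Ψ (ctB n * ez ((n : ℝ) + 1) (-z))‖ ≤ Real.exp (1 * |(n : ℝ) + 1|) := by
    refine (psi_norm Ψ _).trans ((norm_mul_le _ _).trans ?_)
    have h1 := hez (-z) (by rwa [Complex.neg_im, abs_neg])
    calc ‖ctB n‖ * ‖ez ((n : ℝ) + 1) (-z)‖ ≤ 1 * Real.exp (1 * |(n : ℝ) + 1|) := by
          gcongr
          exact ctB_norm n
      _ = _ := one_mul _
  have hB : ‖Ψ (ez ((n : ℝ) + 1) z * ctB n)‖ ≤ Real.exp (1 * |(n : ℝ) + 1|) := by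
    refine (psi_norm Ψ _).trans ((norm_mul_le _ _).trans ?_)
    have h1 := hez z hz
    calc ‖ez ((n : ℝ) + 1) z‖ * ‖ctB n‖ ≤ Real.exp (1 * |(n : ℝ) + 1|) * 1 := by
          gcongr
          exact ctB_norm n
      _ = _ := mul_one _
  have hF : ‖smear U (gau m z) Y‖ ≤ (Real.sqrt (Real.pi / m) * Real.exp (m * 1 ^ 2)) * ‖Y‖ := by
    refine (smear_norm hU (gau_int hm z) Y).trans ?_
    rw [gau_norm hm]
    have h2 : z.im ^ 2 ≤ 1 ^ 2 := sq_le_sq' (neg_le_of_abs_le hz) (le_of_abs_le hz)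
    gcongr
  unfold g
  refine (norm_mul_le _ _).trans ?_
  refine mul_le_mul ((norm_mul_le _ _).trans ?_) hB (norm_nonneg _) (by (clear * - hm; positivity))
  exact mul_le_mul hA hF (norm_nonneg _) (by positivity)

end SmD

end Pool.Agent.Helper23.ED

end

section

open scoped InnerProductSpace Topology ENNReal BoundedContinuousFunction

open ContinuousLinearMap Filter MeasureTheory

namespace Pool.Agent.Helper23.ED

open Pool.Agent.Helper23 Pool.Agent.Helper23.RBF

universe u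

variable {H : Type*} [NormedAddCommGroup H] [InnerProductSpace ℂ H] [CompleteSpace H]

variable {K : Type*} [NormedAddCommGroup K] [InnerProductSpace ℂ K] [CompleteSpace K]

namespace FcC

open Pool.Agent.Helper43.TTF (psi_norm_apply)

theorem fact2pi : Fact (0 < 2 * Real.pi) := ⟨by positivity⟩

attribute [local instance] fact2pi

/-- the functions `G` with `Y Ψ₁(G) = Ψ₂(G) Y` -/
def S (Ψ₁ : (ℝ →ᵇ ℂ) →⋆ₐ[ℂ] (H →L[ℂ] H)) (Ψ₂ : (ℝ →ᵇ ℂ) →⋆ₐ[ℂ] (K →L[ℂ] K))
    (Y : H →L[ℂ] K) : Submodule ℂ (ℝ →ᵇ ℂ) where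
  carrier := {G | ∀ v, Y (Ψ₁ G v) = Ψ₂ G (Y v)}
  add_mem' := by
    intro a b ha hb v
    rw [map_add, map_add, add_apply, add_apply, map_add, ha v, hb v]
  zero_mem' := by
    intro v
    simp
  smul_mem' := by
    intro c G hG v
    rw [map_smul, map_smul, smul_apply, smul_apply, map_smul, hG v]

theorem mem_S {Ψ₁ : (ℝ →ᵇ ℂ) →⋆ₐ[ℂ] (H →L[ℂ] H)} {Ψ₂ : (ℝ →ᵇ ℂ) →⋆ₐ[ℂ] (K →L[ℂ] K)}
    {Y : H →L[ℂ] K} {G : ℝ →ᵇ ℂ} : G ∈ S Ψ₁ Ψ₂ Y ↔ ∀ v, Y (Ψ₁ G v) = Ψ₂ G (Y v) := Iff.rfl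

theorem cont_apply (Ψ : (ℝ →ᵇ ℂ) →⋆ₐ[ℂ] (H →L[ℂ] H)) (v : H) : Continuous fun G => Ψ G v := by
  let f : (ℝ →ᵇ ℂ) →ₗ[ℂ] H :=
    { toFun := fun G => Ψ G v
      map_add' := fun a b => by rw [map_add, add_apply]
      map_smul' := fun c a => by rw [map_smul, smul_apply]; rfl }
  have : Continuous f := (f.mkContinuous ‖v‖ fun G => by
    refine (psi_norm_apply Ψ G v).trans ?_
    rw [mul_comm]).continuous
  exact this

theorem isClosed_S (Ψ₁ : (ℝ →ᵇ ℂ) →⋆ₐ[ℂ] (H →L[ℂ] H)) (Ψ₂ : (ℝ →ᵇ ℂ) →⋆ₐ[ℂ] (K →L[ℂ] K))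
    (Y : H →L[ℂ] K) : IsClosed (S Ψ₁ Ψ₂ Y : Set (ℝ →ᵇ ℂ)) := by
  have h1 : (S Ψ₁ Ψ₂ Y : Set (ℝ →ᵇ ℂ)) = ⋂ v, {G | Y (Ψ₁ G v) = Ψ₂ G (Y v)} := by
    ext G
    simp [mem_S]
  rw [h1]
  exact isClosed_iInter fun v =>
    isClosed_eq (Y.continuous.comp (cont_apply Ψ₁ v)) (cont_apply Ψ₂ (Y v))

/-- pull back of a function on the circle -/
noncomputable def pull (c : ℝ) : C(AddCircle (2 * Real.pi), ℂ) →ₗ[ℂ] (ℝ →ᵇ ℂ) where
  toFun p := BoundedContinuousFunction.ofNormedAddCommGroup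
    (fun ρ : ℝ => p ((c * ρ : ℝ) : AddCircle (2 * Real.pi)))
    (p.continuous.comp ((AddCircle.continuous_mk' _).comp (by fun_prop))) ‖p‖
    (fun ρ => p.norm_coe_le_norm _)
  map_add' := fun p q => by ext; rfl
  map_smul' := fun a p => by ext; rfl

theorem pull_apply (c : ℝ) (p : C(AddCircle (2 * Real.pi), ℂ)) (ρ : ℝ) :
    pull c p ρ = p ((c * ρ : ℝ) : AddCircle (2 * Real.pi)) := rfl

theorem pull_cont (c : ℝ) : Continuous (pull c) := by
  have : Continuous ((pull c).mkContinuous 1 fun p => by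
    rw [one_mul]
    exact (BoundedContinuousFunction.norm_le (norm_nonneg _)).2 fun ρ => p.norm_coe_le_norm _) :=
      ContinuousLinearMap.continuous _
  exact this

end FcC

end Pool.Agent.Helper23.ED

end

section

open scoped InnerProductSpace Topology ENNReal BoundedContinuousFunction FourierTransform SchwartzMap

open ContinuousLinearMap Filter MeasureTheory

namespace Pool.Agent.Helper23.ED

open Pool.Agent.Helper23 Pool.Agent.Helper23.RBF

universe u

variable {H : Type*} [NormedAddCommGroup H] [InnerProductSpace ℂ H] [CompleteSpace H]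

variable {M N : VonNeumannAlgebra H} {ξ : H} {E : (H →L[ℂ] H) → (H →L[ℂ] H)}

namespace GgB

lemma ems_eq (a : ℝ) : ems a = chr (-(a / (2 * Real.pi))) := by
  funext s
  unfold ems ph chr
  congr 2
  have : (2 * Real.pi) ≠ 0 := by positivity
  rw [← Complex.ofReal_neg]
  congr 1
  (clear * -; field_simp)

end GgB

end Pool.Agent.Helper23.ED

end

section

open scoped InnerProductSpace Topology ENNReal BoundedContinuousFunction

open ContinuousLinearMap Filter MeasureTheory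

namespace Pool.Agent.Helper23.ED

open Pool.Agent.Helper23 Pool.Agent.Helper23.RBF

universe u

variable {H : Type*} [NormedAddCommGroup H] [InnerProductSpace ℂ H] [CompleteSpace H]

variable {A : VonNeumannAlgebra H} {ξ : H} {R : H →L[ℂ] H} {D : H →L[ℝ] H}
  {Ψ : (ℝ →ᵇ ℂ) →⋆ₐ[ℂ] (H →L[ℂ] H)}

namespace GgC

lemma inj_real {g : ℝ → ℝ} (hg : Integrable g) (h0 : ∀ a : ℝ, ∫ s, ems a s * (g s : ℂ) = 0) :
    g =ᵐ[volume] 0 := by
  have hmeas : AEMeasurable (fun s => ENNReal.ofReal (g s)) volume :=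
    hg.aestronglyMeasurable.aemeasurable.ennreal_ofReal
  have hmeas' : AEMeasurable (fun s => ENNReal.ofReal (-g s)) volume :=
    hg.neg.aestronglyMeasurable.aemeasurable.ennreal_ofReal
  have hμ : IsFiniteMeasure (volume.withDensity fun s => ENNReal.ofReal (g s)) :=
    isFiniteMeasure_withDensity_ofReal hg.2
  have hν : IsFiniteMeasure (volume.withDensity fun s => ENNReal.ofReal (-g s)) :=
    isFiniteMeasure_withDensity_ofReal hg.neg.2
  have key : ∀ t : ℝ, ∀ f : ℝ → ℝ, Integrable f →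
      charFun (volume.withDensity fun s => ENNReal.ofReal (f s)) t =
        ∫ s, ems t s * ((max (f s) 0 : ℝ) : ℂ) := by
    intro t f hf
    rw [charFun_apply_real, integral_withDensity_eq_integral_toReal_smul₀
      hf.aestronglyMeasurable.aemeasurable.ennreal_ofReal
      (Eventually.of_forall fun s => ENNReal.ofReal_lt_top)]
    refine integral_congr_ae (Eventually.of_forall fun s => ?_)
    simp only [ems, ph, ENNReal.toReal_ofReal', Complex.real_smul]
    push_cast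
    ring
  have hi : ∀ t : ℝ, ∀ f : ℝ → ℝ, Integrable f →
      Integrable fun s => ems t s * ((max (f s) 0 : ℝ) : ℂ) := by
    intro t f hf
    have h1 : Integrable fun s => ((max (f s) 0 : ℝ) : ℂ) := hf.pos_part.ofReal
    refine h1.bdd_mul (c := 1) ?_ (Eventually.of_forall fun s => ?_)
    · refine Continuous.aestronglyMeasurable ?_
      unfold ems ph
      fun_prop
    · unfold ems ph
      rw [Complex.norm_exp_ofReal_mul_I]
  have h1 : (volume.withDensity fun s => ENNReal.ofReal (g s)) =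
      (volume.withDensity fun s => ENNReal.ofReal (-g s)) := by
    apply Measure.ext_of_charFun
    ext t
    rw [key t g hg, key t (fun s => -g s) hg.neg, ← sub_eq_zero,
      ← integral_sub (hi t g hg) (hi t (fun s => -g s) hg.neg), ← h0 t]
    refine integral_congr_ae (Eventually.of_forall fun s => ?_)
    simp only []
    rw [← mul_sub, ← Complex.ofReal_sub]
    congr 2
    rcases le_total (g s) 0 with h | h
    · rw [max_eq_right h, max_eq_left (by linarith)]; ring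
    · rw [max_eq_left h, max_eq_right (by linarith)]; ring
  have h2 := (withDensity_eq_iff hmeas hmeas' ?_).1 h1
  · filter_upwards [h2] with s hs
    have hs' := congrArg ENNReal.toReal hs
    rw [ENNReal.toReal_ofReal', ENNReal.toReal_ofReal'] at hs'
    simp only [Pi.zero_apply]
    rcases le_total (g s) 0 with h | h
    · rw [max_eq_right h, max_eq_left (by (clear * - h; linarith))] at hs'; linarith
    · rw [max_eq_left h, max_eq_right (by (clear * - h; linarith))] at hs'; linarith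
  · exact (hg.lintegral_lt_top).ne

lemma ems_cont (a : ℝ) : Continuous (ems a) := by
  unfold ems ph
  fun_prop

lemma ems_norm (a s : ℝ) : ‖ems a s‖ = 1 := by
  unfold ems ph
  rw [Complex.norm_exp_ofReal_mul_I]

lemma ems_conj (a s : ℝ) : (starRingEnd ℂ) (ems a s) = ems (-a) s := by
  unfold ems ph
  rw [← Complex.exp_conj, map_mul, Complex.conj_I, Complex.conj_ofReal]
  congr 1
  push_cast
  ring

lemma inj_cplx {h : ℝ → ℂ} (hh : Integrable h) (h0 : ∀ a : ℝ, ∫ s, ems a s * h s = 0) :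
    h =ᵐ[volume] 0 := by
  have hi : ∀ a : ℝ, ∀ f : ℝ → ℂ, Integrable f → Integrable fun s => ems a s * f s := fun a f hf =>
    hf.bdd_mul (c := 1) (ems_cont a).aestronglyMeasurable
      (Eventually.of_forall fun s => (ems_norm a s).le)
  have hc : ∀ a : ℝ, ∫ s, ems a s * (starRingEnd ℂ) (h s) = 0 := by
    intro a
    have h1 := congrArg (starRingEnd ℂ) (h0 (-a))
    rw [← integral_conj, map_zero] at h1
    rw [← h1]
    refine integral_congr_ae (Eventually.of_forall fun s => ?_)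
    simp only [map_mul, ems_conj, neg_neg]
  have hhc : Integrable fun s => (starRingEnd ℂ) (h s) := by
    refine ⟨Complex.continuous_conj.comp_aestronglyMeasurable hh.1, ?_⟩
    refine hh.2.congr' ?_
    exact Eventually.of_forall fun s => by rw [RCLike.norm_conj]
  have hre : (fun s => (h s).re) =ᵐ[volume] 0 := by
    refine inj_real hh.re fun a => ?_
    have h1 : ∫ s, (ems a s * h s + ems a s * (starRingEnd ℂ) (h s)) = 0 := by
      rw [integral_add (hi a _ hh) (hi a _ hhc), h0, hc, add_zero]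
    have h2 : ∫ s, ems a s * ((h s).re : ℂ) =
        (1 / 2 : ℂ) * ∫ s, (ems a s * h s + ems a s * (starRingEnd ℂ) (h s)) := by
      rw [← integral_const_mul]
      refine integral_congr_ae (Eventually.of_forall fun s => ?_)
      simp only []
      rw [← mul_add, Complex.add_conj]
      push_cast
      ring
    rw [h1, mul_zero] at h2
    exact h2
  have him : (fun s => (h s).im) =ᵐ[volume] 0 := by
    refine inj_real hh.im fun a => ?_
    have h1 : ∫ s, (ems a s * h s - ems a s * (starRingEnd ℂ) (h s)) = 0 := by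
      rw [integral_sub (hi a _ hh) (hi a _ hhc), h0, hc, sub_zero]
    have h2 : ∫ s, ems a s * ((h s).im : ℂ) =
        (1 / (2 * Complex.I) : ℂ) *
          ∫ s, (ems a s * h s - ems a s * (starRingEnd ℂ) (h s)) := by
      rw [← integral_const_mul]
      refine integral_congr_ae (Eventually.of_forall fun s => ?_)
      simp only []
      rw [← mul_sub, Complex.sub_conj]
      push_cast
      have := Complex.I_ne_zero
      field_simp
    rw [h1, mul_zero] at h2
    exact h2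
  filter_upwards [hre, him] with s h1 h2
  exact Complex.ext h1 h2

end GgC

end Pool.Agent.Helper23.ED

end

section

open scoped InnerProductSpace Topology ENNReal BoundedContinuousFunction

open ContinuousLinearMap Filter MeasureTheory

namespace Pool.Agent.Helper23.ED

open Pool.Agent.Helper23 Pool.Agent.Helper23.RBF

universe u

variable {H : Type*} [NormedAddCommGroup H] [InnerProductSpace ℂ H] [CompleteSpace H]

variable {M N : VonNeumannAlgebra H} {ξ : H} {E : (H →L[ℂ] H) → (H →L[ℂ] H)}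

namespace MnA

omit [CompleteSpace H] in
lemma ph_zero_right (a : ℝ) : ph a 0 = 1 := by
  simp [ph]

end MnA

end Pool.Agent.Helper23.ED

end

section

open scoped InnerProductSpace Topology ENNReal BoundedContinuousFunction

open ContinuousLinearMap Filter MeasureTheory

namespace Pool.Agent.Helper23.ED

open Pool.Agent.Helper23 Pool.Agent.Helper23.RBF

universe u

open TopologicalSpace

variable {H : Type*} [NormedAddCommGroup H] [InnerProductSpace ℂ H] [CompleteSpace H]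

variable {N : VonNeumannAlgebra H} {ξ : H} {W : ℝ → H →L[ℂ] H}

namespace WuA

lemma ems_conj (a : ℝ) : (fun s => (starRingEnd ℂ) (ems a s)) = ems (-a) := by
  funext s
  unfold ems ph
  rw [← Complex.exp_conj, map_mul, Complex.conj_I, Complex.conj_ofReal]
  congr 1
  push_cast
  ring

end WuA

end Pool.Agent.Helper23.ED

end

section

open scoped InnerProductSpace Topology ENNReal BoundedContinuousFunction

open ContinuousLinearMap Filter MeasureTheory

namespace Pool.Agent.Helper23.ED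

open Pool.Agent.Helper23 Pool.Agent.Helper23.RBF

universe u

open TopologicalSpace

variable {H : Type*} [NormedAddCommGroup H] [InnerProductSpace ℂ H] [CompleteSpace H]

variable {N : VonNeumannAlgebra H} {ξ : H} {V c : ℝ → H →L[ℂ] H} {ψ : (H →L[ℂ] H) → ℝ≥0∞}

namespace WuB

lemma V_neg (hV : UG V) (t : ℝ) : V t * V (-t) = 1 := by
  rw [← hV.add, add_neg_cancel, hV.zero]

lemma V_neg' (hV : UG V) (t : ℝ) : V (-t) * V t = 1 := by
  rw [← hV.add, neg_add_cancel, hV.zero]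

lemma c_zero (hV : UG V) (hc : Coc N V ψ c) : c 0 = 1 := by
  have h1 := hc.cocycle 0 0
  rw [neg_zero, hV.zero, add_zero, one_mul, mul_one] at h1
  have h2 : star (c 0) * c 0 = star (c 0) * (c 0 * c 0) := by rw [← h1]
  rw [← mul_assoc, (hc.unit 0).1, one_mul] at h2
  exact h2.symm

end WuB

end Pool.Agent.Helper23.ED

end

end

section

section

open scoped InnerProductSpace Topology BoundedContinuousFunction

open ContinuousLinearMap Filter MeasureTheory

namespace Pool.Agent.Helper88.CS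

open Pool.Agent.Helper23

variable {H : Type*} [NormedAddCommGroup H] [InnerProductSpace ℂ H] [CompleteSpace H]

variable {A : VonNeumannAlgebra H} {ξ : H} {J : H →L[ℝ] H}
  {Ψ : (ℝ →ᵇ ℂ) →⋆ₐ[ℂ] (H →L[ℂ] H)} {R : H →L[ℂ] H} {D : H →L[ℝ] H}

namespace CornerAux

lemma norm_proj_le {s : H →L[ℂ] H} (h1 : star s = s) (h2 : s * s = s) (v : H) : ‖s v‖ ≤ ‖v‖ := by
  have h3 : ‖s v‖ ^ 2 ≤ ‖s v‖ * ‖v‖ := by
    have h4 : (⟪s v, s v⟫_ℂ) = ⟪s v, v⟫_ℂ := by
      have h5 : ⟪s v, s v⟫_ℂ = ⟪(star s) (s v), v⟫_ℂ := by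
        rw [star_eq_adjoint, adjoint_inner_left]
      rw [h5, h1]
      show ⟪(s * s) v, v⟫_ℂ = _
      rw [h2]
    have h6 : ((‖s v‖ : ℂ)) ^ 2 = ⟪s v, v⟫_ℂ := by
      rw [← h4, inner_self_eq_norm_sq_to_K]; rfl
    have h7 : ‖s v‖ ^ 2 = ‖⟪s v, v⟫_ℂ‖ := by
      rw [← h6, norm_pow, Complex.norm_real, norm_norm]
    rw [h7]
    exact norm_inner_le_norm _ _
  by_contra hc
  push Not at hc
  have h8 : 0 < ‖s v‖ := lt_of_le_of_lt (norm_nonneg _) hc
  (clear * - h3 hc h8; nlinarith)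

end CornerAux

end Pool.Agent.Helper88.CS

end

end

section

section

open scoped InnerProductSpace Topology ENNReal BoundedContinuousFunction

open ContinuousLinearMap Filter MeasureTheory

namespace Pool.Agent.Helper23.ED

open Pool.Agent.Helper23 Pool.Agent.Helper23.RBF

universe u

variable {K : Type*} [NormedAddCommGroup K] [InnerProductSpace ℂ K] [CompleteSpace K]

variable {U : ℝ → K →L[ℂ] K}

namespace SmE

lemma gauss_ne : (∫ u : ℝ, Complex.exp (-((u : ℂ) ^ 2))) ≠ 0 := by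
  have h1 : (∫ u : ℝ, Complex.exp (-((u : ℂ) ^ 2))) = ((∫ u : ℝ, Real.exp (-1 * u ^ 2) : ℝ) : ℂ) := by
    rw [← integral_complex_ofReal]
    refine integral_congr_ae (Eventually.of_forall fun u => ?_)
    simp only
    push_cast
    congr 1
    ring
  rw [h1, integral_gaussian]
  have h2 : Real.sqrt (Real.pi / 1) ≠ 0 := by
    rw [div_one]
    exact (Real.sqrt_pos.2 Real.pi_pos).ne'
  exact_mod_cast h2

end SmE

end Pool.Agent.Helper23.ED

end

end

section

section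

open scoped InnerProductSpace Topology ENNReal BoundedContinuousFunction

open ContinuousLinearMap Filter MeasureTheory

namespace Pool.Agent.Helper23.ED

open Pool.Agent.Helper23 Pool.Agent.Helper23.RBF

universe u

variable {H : Type*} [NormedAddCommGroup H] [InnerProductSpace ℂ H] [CompleteSpace H]

/-- bounded families have weak limits along ultrafilters -/
theorem SlA_ultra (F : Ultrafilter ℝ) (v : ℝ → H) {c : ℝ} (hv : ∀ s, ‖v s‖ ≤ c) :
    ∃ v₀ : H, ∀ w : H, Tendsto (fun s => ⟪w, v s⟫_ℂ) (F : Filter ℝ) (𝓝 ⟪w, v₀⟫_ℂ) := by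
  have hc : 0 ≤ c := (norm_nonneg _).trans (hv 0)
  have hex : ∀ w : H, ∃ l : ℂ, Tendsto (fun s => ⟪v s, w⟫_ℂ) (F : Filter ℝ) (𝓝 l) ∧
      ‖l‖ ≤ c * ‖w‖ := by
    intro w
    have hK : IsCompact (Metric.closedBall (0 : ℂ) (c * ‖w‖)) := isCompact_closedBall _ _
    obtain ⟨l, hl, hFl⟩ := hK.ultrafilter_le_nhds (F.map fun s => ⟪v s, w⟫_ℂ) (by
      rw [Ultrafilter.coe_map, le_principal_iff, mem_map]
      refine Filter.univ_mem' fun s => ?_
      rw [Set.mem_preimage, mem_closedBall_zero_iff]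
      exact (norm_inner_le_norm _ _).trans (mul_le_mul_of_nonneg_right (hv s) (norm_nonneg _)))
    exact ⟨l, hFl, mem_closedBall_zero_iff.1 hl⟩
  choose L hL hLn using hex
  have hadd : ∀ x y, L (x + y) = L x + L y := fun x y =>
    tendsto_nhds_unique (hL (x + y)) (by simpa only [inner_add_right] using (hL x).add (hL y))
  have hsmul : ∀ (a : ℂ) x, L (a • x) = a * L x := fun a x =>
    tendsto_nhds_unique (hL (a • x)) (by
      simpa only [inner_smul_right] using (hL x).const_mul a)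
  let L' : H →L[ℂ] ℂ := LinearMap.mkContinuous
    { toFun := L, map_add' := hadd, map_smul' := by simpa using hsmul } c hLn
  refine ⟨(InnerProductSpace.toDual ℂ H).symm L', fun w => ?_⟩
  have h1 : ⟪(InnerProductSpace.toDual ℂ H).symm L', w⟫_ℂ = L w :=
    InnerProductSpace.toDual_symm_apply
  have h2 : ⟪w, (InnerProductSpace.toDual ℂ H).symm L'⟫_ℂ = (starRingEnd ℂ) (L w) := by
    rw [← h1, inner_conj_symm]
  rw [h2]
  have h3 : (fun s => ⟪w, v s⟫_ℂ) = fun s => (starRingEnd ℂ) ⟪v s, w⟫_ℂ := by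
    funext s; rw [inner_conj_symm]
  rw [h3]
  exact (Complex.continuous_conj.tendsto _).comp (hL w)

/-- nearest points -/
theorem SlA_near {K : Set H} (hne : K.Nonempty) (hcv : Convex ℝ K) (hcl : IsClosed K)
    (x : H) : ∃ p ∈ K, (∀ v ∈ K, ‖x - p‖ ≤ ‖x - v‖) ∧
      ∀ v ∈ K, (⟪x - p, v - p⟫_ℂ).re ≤ 0 := by
  letI : InnerProductSpace ℝ H := InnerProductSpace.rclikeToReal ℂ H
  obtain ⟨p, hp, he⟩ := exists_norm_eq_iInf_of_complete_convex hne hcl.isComplete hcv x
  refine ⟨p, hp, fun v hv => ?_, fun v hv => ?_⟩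
  · rw [he]
    exact ciInf_le ⟨0, by rintro _ ⟨w, rfl⟩; exact norm_nonneg _⟩ (⟨v, hv⟩ : K)
  · exact (norm_eq_iInf_iff_real_inner_le_zero hcv hp).1 he v hv

theorem exists_sel {C : ℝ → Set H} (hne : ∀ s, (C s).Nonempty) (hcv : ∀ s, Convex ℝ (C s))
    (hcl : ∀ s, IsClosed (C s)) {r : ℝ} (hbd : ∀ s, ∀ v ∈ C s, ‖v‖ ≤ r)
    (hgr : ∀ (F : Ultrafilter ℝ) (s : ℝ), (F : Filter ℝ) ≤ 𝓝 s → ∀ (v : ℝ → H) (v₀ : H),
      (∀ s', v s' ∈ C s') →
      (∀ w : H, Tendsto (fun s' => ⟪w, v s'⟫_ℂ) (F : Filter ℝ) (𝓝 ⟪w, v₀⟫_ℂ)) → v₀ ∈ C s)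
    (η : H) : ∃ p : ℝ → H, (∀ s, p s ∈ C s) ∧ (∀ s, ∀ v ∈ C s, ‖p s - v‖ ≤ ‖η - v‖) ∧
      ∀ w : H, Measurable fun s => ⟪w, p s⟫_ℂ := by
  have hN := fun (s : ℝ) (x : H) => SlA_near (hne s) (hcv s) (hcl s) x
  choose P hPC hPd hPi using hN
  -- measurability of the distance
  have hdm : ∀ x : H, Measurable fun s => ‖x - P s x‖ := by
    intro x
    have hlsc : LowerSemicontinuous fun s => ‖x - P s x‖ := by
      rw [lowerSemicontinuous_iff_isClosed_preimage]
      intro α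
      rw [isClosed_iff_ultrafilter]
      intro s₀ F hF hmem
      obtain ⟨v₀, hv₀⟩ := SlA_ultra F (fun s => P s x) (fun s => hbd s _ (hPC s x))
      have hv₀C : v₀ ∈ C s₀ := hgr F s₀ hF _ v₀ (fun s' => hPC s' x) hv₀
      have h1 : Tendsto (fun s => (⟪x - v₀, x - P s x⟫_ℂ).re) (F : Filter ℝ)
          (𝓝 (⟪x - v₀, x - v₀⟫_ℂ).re) := by
        refine (Complex.continuous_re.tendsto _).comp ?_
        simp_rw [inner_sub_right]
        exact tendsto_const_nhds.sub (hv₀ _)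
      have h2 : ∀ᶠ s in (F : Filter ℝ), (⟪x - v₀, x - P s x⟫_ℂ).re ≤ ‖x - v₀‖ * α := by
        filter_upwards [hmem] with s hs
        refine (Complex.re_le_norm _).trans ((norm_inner_le_norm _ _).trans ?_)
        exact mul_le_mul_of_nonneg_left hs (norm_nonneg _)
      have h3 := le_of_tendsto h1 h2
      have h4 : (⟪x - v₀, x - v₀⟫_ℂ).re = ‖x - v₀‖ * ‖x - v₀‖ := by
        have := inner_self_eq_norm_mul_norm (𝕜 := ℂ) (x - v₀)
        simpa using this
      rw [h4] at h3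
      have h5 : ‖x - v₀‖ ≤ α := by
        rcases (norm_nonneg (x - v₀)).eq_or_lt with h0 | h0
        · obtain ⟨s, hs⟩ := (F.neBot.nonempty_of_mem hmem)
          rw [← h0]
          exact (norm_nonneg _).trans hs
        · exact le_of_mul_le_mul_left h3 h0
      exact (hPd s₀ x v₀ hv₀C).trans h5
    exact hlsc.measurable
  refine ⟨fun s => P s η, fun s => hPC s η, fun s v hv => ?_, ?_⟩
  · have h1 := hPi s η v hv
    have h2 : ‖η - v‖ ^ 2 = ‖η - P s η‖ ^ 2 - 2 * (⟪η - P s η, v - P s η⟫_ℂ).re +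
        ‖v - P s η‖ ^ 2 := by
      have := norm_sub_sq (𝕜 := ℂ) (η - P s η) (v - P s η)
      rw [sub_sub_sub_cancel_right] at this
      exact this
    have h3 : ‖P s η - v‖ ^ 2 ≤ ‖η - v‖ ^ 2 := by
      rw [norm_sub_rev (P s η) v, h2]
      nlinarith [sq_nonneg ‖η - P s η‖]
    exact le_of_sq_le_sq h3 (norm_nonneg _)
  · -- contraction
    have hcon : ∀ s x y, ‖P s x - P s y‖ ≤ ‖x - y‖ := by
      intro s x y
      have h1 := hPi s x (P s y) (hPC s y)
      have h2 := hPi s y (P s x) (hPC s x)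
      have h3 : (⟪x - y, P s x - P s y⟫_ℂ).re =
          ‖P s x - P s y‖ ^ 2 - (⟪x - P s x, P s y - P s x⟫_ℂ).re -
            (⟪y - P s y, P s x - P s y⟫_ℂ).re := by
        have h4 : x - y = (P s x - P s y) + (x - P s x) - (y - P s y) := by abel
        rw [h4, inner_sub_left, inner_add_left, Complex.sub_re, Complex.add_re]
        have h5 : (⟪P s x - P s y, P s x - P s y⟫_ℂ).re = ‖P s x - P s y‖ ^ 2 := by
          have := inner_self_eq_norm_sq (𝕜 := ℂ) (P s x - P s y)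
          simpa using this
        have h6 : ⟪x - P s x, P s y - P s x⟫_ℂ = -⟪x - P s x, P s x - P s y⟫_ℂ := by
          rw [← inner_neg_right, neg_sub]
        rw [h5, h6, Complex.neg_re]
        ring
      have h4 : (⟪x - y, P s x - P s y⟫_ℂ).re ≤ ‖x - y‖ * ‖P s x - P s y‖ :=
        (Complex.re_le_norm _).trans (norm_inner_le_norm _ _)
      by_contra hlt
      rw [not_le] at hlt
      (clear * - h1 h2 h3 h4 hlt; nlinarith [norm_nonneg (x - y), norm_nonneg (P s x - P s y)])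
    -- the derivative of the square of the distance
    have hup : ∀ s x h, ‖x + h - P s (x + h)‖ ^ 2 ≤
        ‖x - P s x‖ ^ 2 + 2 * (⟪h, x - P s x⟫_ℂ).re + ‖h‖ ^ 2 := by
      intro s x h
      have h1 := hPd s (x + h) (P s x) (hPC s x)
      have h2 : ‖x + h - P s x‖ ^ 2 = ‖h‖ ^ 2 + 2 * (⟪h, x - P s x⟫_ℂ).re +
          ‖x - P s x‖ ^ 2 := by
        have := norm_add_sq (𝕜 := ℂ) h (x - P s x)
        rw [show h + (x - P s x) = x + h - P s x by abel] at this
        exact this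
      have h3 : ‖x + h - P s (x + h)‖ ^ 2 ≤ ‖x + h - P s x‖ ^ 2 :=
        pow_le_pow_left₀ (norm_nonneg _) h1 2
      (clear * - h2 h3; linarith)
    have hlow : ∀ s x h, ‖x - P s x‖ ^ 2 + 2 * (⟪h, x - P s x⟫_ℂ).re - ‖h‖ ^ 2 ≤
        ‖x + h - P s (x + h)‖ ^ 2 := by
      intro s x h
      have h1 := hup s (x + h) (-h)
      rw [add_neg_cancel_right, inner_neg_left, Complex.neg_re, norm_neg] at h1
      have h2 : (⟪h, x + h - P s (x + h)⟫_ℂ).re = (⟪h, x - P s x⟫_ℂ).re + ‖h‖ ^ 2 +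
          (⟪h, P s x - P s (x + h)⟫_ℂ).re := by
        have h3 : x + h - P s (x + h) = (x - P s x) + h + (P s x - P s (x + h)) := by abel
        rw [h3, inner_add_right, inner_add_right, Complex.add_re, Complex.add_re]
        have h5 : (⟪h, h⟫_ℂ).re = ‖h‖ ^ 2 := by
          have := inner_self_eq_norm_sq (𝕜 := ℂ) h
          simpa using this
        rw [h5]
      have h4 : -(‖h‖ ^ 2) ≤ (⟪h, P s x - P s (x + h)⟫_ℂ).re := by
        have h5 : |(⟪h, P s x - P s (x + h)⟫_ℂ).re| ≤ ‖h‖ * ‖P s x - P s (x + h)‖ :=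
          (Complex.abs_re_le_norm _).trans (norm_inner_le_norm _ _)
        have h6 : ‖P s x - P s (x + h)‖ ≤ ‖h‖ := by
          have := hcon s x (x + h)
          rwa [sub_add_cancel_left, norm_neg] at this
        have h7 := (abs_le.1 h5).1
        (clear * - h7 h6; nlinarith [norm_nonneg h])
      linarith
    have hre : ∀ w : H, Measurable fun s => (⟪w, P s η⟫_ℂ).re := by
      intro w
      let q : ℕ → ℝ → ℝ := fun n s => ((n : ℝ) + 1) *
        (‖η + (((n : ℝ) + 1)⁻¹ : ℂ) • w - P s (η + (((n : ℝ) + 1)⁻¹ : ℂ) • w)‖ ^ 2 -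
          ‖η - P s η‖ ^ 2) / 2
      have hq : ∀ n, Measurable (q n) := fun n =>
        ((((hdm _).pow_const 2).sub ((hdm _).pow_const 2)).const_mul _).div_const _
      have hlim : ∀ s, Tendsto (fun n => q n s) atTop (𝓝 (⟪w, η - P s η⟫_ℂ).re) := by
        intro s
        rw [tendsto_iff_norm_sub_tendsto_zero]
        have hb : ∀ n : ℕ, ‖q n s - (⟪w, η - P s η⟫_ℂ).re‖ ≤ ‖w‖ ^ 2 / 2 * (1 / ((n : ℝ) + 1)) := by
          intro n
          have hn : (0 : ℝ) < (n : ℝ) + 1 := by (clear * -; positivity)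
          have h1 := hup s η ((((n : ℝ) + 1)⁻¹ : ℂ) • w)
          have h2 := hlow s η ((((n : ℝ) + 1)⁻¹ : ℂ) • w)
          have h3 : (⟪(((n : ℝ) + 1)⁻¹ : ℂ) • w, η - P s η⟫_ℂ).re =
              ((n : ℝ) + 1)⁻¹ * (⟪w, η - P s η⟫_ℂ).re := by
            rw [inner_smul_left]
            have h0 : (((n : ℝ) + 1)⁻¹ : ℂ) = ((((n : ℝ) + 1)⁻¹ : ℝ) : ℂ) := by push_cast; rfl
            rw [h0, Complex.conj_ofReal, Complex.re_ofReal_mul]
          have h4 : ‖(((n : ℝ) + 1)⁻¹ : ℂ) • w‖ = ((n : ℝ) + 1)⁻¹ * ‖w‖ := by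
            rw [norm_smul]
            congr 1
            have : (((n : ℝ) + 1)⁻¹ : ℂ) = ((((n : ℝ) + 1)⁻¹ : ℝ) : ℂ) := by push_cast; rfl
            rw [this, Complex.norm_real, Real.norm_eq_abs, abs_of_pos (inv_pos.2 hn)]
          rw [h3, h4] at h1 h2
          rw [Real.norm_eq_abs, abs_le]
          set D := ‖η + (((n : ℝ) + 1)⁻¹ : ℂ) • w - P s (η + (((n : ℝ) + 1)⁻¹ : ℂ) • w)‖ ^ 2
          set E := ‖η - P s η‖ ^ 2
          set I := (⟪w, η - P s η⟫_ℂ).re
          have hq' : q n s = ((n : ℝ) + 1) * (D - E) / 2 := rfl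
          rw [hq']
          have e1 : ((n : ℝ) + 1) * (((n : ℝ) + 1)⁻¹) = 1 := mul_inv_cancel₀ hn.ne'
          have e2 : ((n : ℝ) + 1) * ((((n : ℝ) + 1)⁻¹ * ‖w‖) ^ 2) = ‖w‖ ^ 2 * (1 / ((n : ℝ) + 1)) := by
            (clear * -; field_simp)
          have u1 : ((n : ℝ) + 1) * (D - E) ≤ 2 * I + ‖w‖ ^ 2 * (1 / ((n : ℝ) + 1)) := by
            have : ((n : ℝ) + 1) * (D - E) ≤ ((n : ℝ) + 1) *
                (2 * (((n : ℝ) + 1)⁻¹ * I) + (((n : ℝ) + 1)⁻¹ * ‖w‖) ^ 2) :=
              mul_le_mul_of_nonneg_left (by (clear * - h1; linarith)) hn.le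
            refine this.trans (le_of_eq ?_)
            rw [mul_add, e2]
            linear_combination (2 * I) * e1
          have u2 : 2 * I - ‖w‖ ^ 2 * (1 / ((n : ℝ) + 1)) ≤ ((n : ℝ) + 1) * (D - E) := by
            have : ((n : ℝ) + 1) * (2 * (((n : ℝ) + 1)⁻¹ * I) - (((n : ℝ) + 1)⁻¹ * ‖w‖) ^ 2) ≤
                ((n : ℝ) + 1) * (D - E) :=
              mul_le_mul_of_nonneg_left (by (clear * - h2; linarith)) hn.le
            refine le_trans (le_of_eq ?_) this
            rw [mul_sub, e2]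
            linear_combination (-2 * I) * e1
          constructor <;> (clear * - u2 u1; linarith)
        refine squeeze_zero (fun n => norm_nonneg _) hb ?_
        have := (tendsto_one_div_add_atTop_nhds_zero_nat (𝕜 := ℝ)).const_mul (‖w‖ ^ 2 / 2)
        simpa using this
      have hm : Measurable fun s => (⟪w, η - P s η⟫_ℂ).re :=
        measurable_of_tendsto_metrizable hq (tendsto_pi_nhds.2 hlim)
      have he : (fun s => (⟪w, P s η⟫_ℂ).re) =
          fun s => (⟪w, η⟫_ℂ).re - (⟪w, η - P s η⟫_ℂ).re := by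
        funext s
        rw [inner_sub_right, Complex.sub_re]
        ring
      rw [he]
      exact measurable_const.sub hm
    intro w
    refine measurable_of_re_im (hre w) ?_
    have him : (fun s => RCLike.im ⟪w, P s η⟫_ℂ) = fun s => (⟪Complex.I • w, P s η⟫_ℂ).re := by
      funext s
      rw [inner_smul_left, Complex.conj_I]
      simp
    rw [him]
    exact hre _

end Pool.Agent.Helper23.ED

end

end

section

section

open scoped InnerProductSpace Topology ENNReal BoundedContinuousFunction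

open ContinuousLinearMap Filter MeasureTheory

namespace Pool.Agent.Helper23.ED

open Pool.Agent.Helper23 Pool.Agent.Helper23.RBF

universe u

variable {K : Type*} [NormedAddCommGroup K] [InnerProductSpace ℂ K] [CompleteSpace K]

variable {U : ℝ → K →L[ℂ] K}

namespace SmE

/-- joint continuity for an isometric strongly continuous family -/
lemma cont_app (hU : UG U) {g : ℝ → K} (hg : Continuous g) :
    Continuous fun s => U s (g s) := by
  rw [continuous_iff_continuousAt]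
  intro s₀
  have h1 : Tendsto (fun s => U s (g s₀)) (𝓝 s₀) (𝓝 (U s₀ (g s₀))) := (hU.cont (g s₀)).continuousAt
  have h2 : Tendsto (fun s => U s (g s - g s₀)) (𝓝 s₀) (𝓝 0) := by
    rw [tendsto_zero_iff_norm_tendsto_zero]
    simp_rw [hU.norm]
    have h3 : Tendsto (fun s => g s - g s₀) (𝓝 s₀) (𝓝 (g s₀ - g s₀)) :=
      (hg.continuousAt).sub tendsto_const_nhds
    rw [sub_self] at h3
    exact tendsto_zero_iff_norm_tendsto_zero.1 h3
  have h4 := h2.add h1
  rw [zero_add] at h4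
  refine h4.congr fun s => ?_
  rw [← map_add, sub_add_cancel]

lemma cont_conj (hU : UG U) (Y : K →L[ℂ] K) (w : K) :
    Continuous fun s => U s (Y (U (-s) w)) :=
  cont_app hU (Y.continuous.comp ((hU.cont w).comp continuous_neg))

/-- Gaussian approximate identity -/
lemma approx {G : ℝ → ℂ} (hG : Continuous G) {C : ℝ} (hC : ∀ s, ‖G s‖ ≤ C) (x : ℝ) :
    Tendsto (fun n : ℕ => ((n : ℂ) + 1) * ∫ s, gau (((n : ℝ) + 1) ^ 2) x s * G s) atTop
      (𝓝 ((∫ u : ℝ, Complex.exp (-((u : ℂ) ^ 2))) * G x)) := by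
  have hF : ∀ n : ℕ, ((n : ℂ) + 1) * ∫ s, gau (((n : ℝ) + 1) ^ 2) x s * G s =
      ∫ u : ℝ, Complex.exp (-((u : ℂ) ^ 2)) * G (x + u / ((n : ℝ) + 1)) := by
    intro n
    have hn : (0 : ℝ) < (n : ℝ) + 1 := by (clear * -; positivity)
    set F : ℝ → ℂ := fun u => Complex.exp (-((u : ℂ) ^ 2)) * G (x + u / ((n : ℝ) + 1)) with hFd
    have h1 : ∫ s, gau (((n : ℝ) + 1) ^ 2) x s * G s = ∫ s, F (((n : ℝ) + 1) * (s - x)) := by
      refine integral_congr_ae (Eventually.of_forall fun s => ?_)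
      simp only [hFd, gau]
      have h2 : x + ((n : ℝ) + 1) * (s - x) / ((n : ℝ) + 1) = s := by
        field_simp
        ring
      rw [h2]
      congr 1
      congr 1
      push_cast
      ring
    have h3 : ∫ s, F (((n : ℝ) + 1) * (s - x)) = ∫ s, F (((n : ℝ) + 1) * s) :=
      integral_sub_right_eq_self (fun s => F (((n : ℝ) + 1) * s)) x
    have h4 := MeasureTheory.Measure.integral_comp_mul_left F ((n : ℝ) + 1)
    rw [h1, h3, h4, abs_of_pos (inv_pos.2 hn), Complex.real_smul, ← mul_assoc]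
    have h5 : ((n : ℂ) + 1) * (((((n : ℝ) + 1)⁻¹ : ℝ)) : ℂ) = 1 := by
      push_cast
      have h6 : ((n : ℂ) + 1) ≠ 0 := by exact_mod_cast hn.ne'
      exact mul_inv_cancel₀ h6
    rw [h5, one_mul]
  simp_rw [hF]
  have hlim : (∫ u : ℝ, Complex.exp (-((u : ℂ) ^ 2))) * G x =
      ∫ u : ℝ, Complex.exp (-((u : ℂ) ^ 2)) * G x := (integral_mul_const _ _).symm
  rw [hlim]
  have hint : Integrable (fun u : ℝ => Real.exp (-1 * u ^ 2)) := integrable_exp_neg_mul_sq one_pos
  refine tendsto_integral_of_dominated_convergence (fun u => Real.exp (-1 * u ^ 2) * C)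
    (fun n => ?_) (hint.mul_const C) (fun n => Eventually.of_forall fun u => ?_)
    (Eventually.of_forall fun u => ?_)
  · refine Continuous.aestronglyMeasurable ?_
    fun_prop
  · rw [norm_mul]
    have h1 : ‖Complex.exp (-((u : ℂ) ^ 2))‖ = Real.exp (-1 * u ^ 2) := by
      rw [Complex.norm_exp]
      congr 1
      rw [← Complex.ofReal_pow, Complex.neg_re, Complex.ofReal_re]
      ring
    rw [h1]
    exact mul_le_mul_of_nonneg_left (hC _) (Real.exp_pos _).le
  · refine tendsto_const_nhds.mul ?_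
    have h1 : Tendsto (fun n : ℕ => x + u / ((n : ℝ) + 1)) atTop (𝓝 (x + 0)) :=
      tendsto_const_nhds.add (tendsto_const_nhds.div_atTop
        (tendsto_atTop_add_const_right _ _ tendsto_natCast_atTop_atTop))
    rw [add_zero] at h1
    exact (hG.tendsto x).comp h1

lemma G_bound (hU : UG U) (Y : K →L[ℂ] K) (v w : K) (s : ℝ) :
    ‖⟪v, U s (Y (U (-s) w))⟫_ℂ‖ ≤ ‖v‖ * (‖Y‖ * ‖w‖) := by
  refine (norm_inner_le_norm _ _).trans ?_
  refine mul_le_mul_of_nonneg_left ?_ (norm_nonneg _)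
  rw [hU.norm]
  refine (Y.le_opNorm _).trans ?_
  rw [hU.norm]

end SmE

theorem unsmear (hU : UG U) {Y X X' : K →L[ℂ] K} {t : ℝ}
    (h : ∀ m : ℝ, 0 < m → X * smear U (gau m t) Y * X' = smear U (gau m 0) Y) :
    X * (U t * Y * U (-t)) * X' = Y := by
  refine ContinuousLinearMap.ext fun w => ?_
  refine ext_inner_left ℂ fun v => ?_
  have hG1 : Continuous fun s => ⟪star X v, U s (Y (U (-s) (X' w)))⟫_ℂ :=
    continuous_const.inner (SmE.cont_conj hU Y (X' w))
  have hG2 : Continuous fun s => ⟪v, U s (Y (U (-s) w))⟫_ℂ :=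
    continuous_const.inner (SmE.cont_conj hU Y w)
  have L1 := SmE.approx hG1 (SmE.G_bound hU Y (star X v) (X' w)) t
  have L2 := SmE.approx hG2 (SmE.G_bound hU Y v w) 0
  have key : ∀ n : ℕ, (∫ s, gau (((n : ℝ) + 1) ^ 2) t s * ⟪star X v, U s (Y (U (-s) (X' w)))⟫_ℂ) =
      ∫ s, gau (((n : ℝ) + 1) ^ 2) ((0 : ℝ) : ℂ) s * ⟪v, U s (Y (U (-s) w))⟫_ℂ := by
    intro n
    have hm : (0 : ℝ) < ((n : ℝ) + 1) ^ 2 := by (clear * -; positivity)
    rw [← smear_spec hU (gau_int hm _) Y (star X v) (X' w),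
      ← smear_spec hU (gau_int hm _) Y v w, Complex.ofReal_zero, ← h _ hm]
    rw [ContinuousLinearMap.star_eq_adjoint, ContinuousLinearMap.adjoint_inner_left]
    rfl
  have L3 := tendsto_nhds_unique (L1.congr fun n => by rw [key n]) L2
  have L4 := mul_left_cancel₀ SmE.gauss_ne L3
  rw [ContinuousLinearMap.star_eq_adjoint, ContinuousLinearMap.adjoint_inner_left] at L4
  have L5 : U 0 (Y (U (-0) w)) = Y w := by
    rw [neg_zero, hU.zero]
    rfl
  rw [L5] at L4
  exact L4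

end Pool.Agent.Helper23.ED

end

end

section

section

open scoped InnerProductSpace Topology ENNReal BoundedContinuousFunction

open ContinuousLinearMap Filter MeasureTheory

namespace Pool.Agent.Helper23.ED

open Pool.Agent.Helper23 Pool.Agent.Helper23.RBF

universe u

variable {K : Type*} [NormedAddCommGroup K] [InnerProductSpace ℂ K] [CompleteSpace K]

variable {U : ℝ → K →L[ℂ] K}

open SmB

theorem gau_conj (m : ℝ) (z : ℂ) (t : ℝ) :
    (starRingEnd ℂ) (gau m z t) = gau m ((starRingEnd ℂ) z) t := by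
  rw [gau, gau, ← Complex.exp_conj]
  simp

end Pool.Agent.Helper23.ED

end

end

section

section

open scoped InnerProductSpace Topology ENNReal BoundedContinuousFunction

open ContinuousLinearMap Filter MeasureTheory

namespace Pool.Agent.Helper23.ED

open Pool.Agent.Helper23 Pool.Agent.Helper23.RBF

universe u

variable {K : Type*} [NormedAddCommGroup K] [InnerProductSpace ℂ K] [CompleteSpace K]

variable {U : ℝ → K →L[ℂ] K} {f : ℝ → ℂ}

theorem smear_star (hU : UG U) (hf : Integrable f) (Y : K →L[ℂ] K) :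
    star (smear U f Y) = smear U (fun t => (starRingEnd ℂ) (f t)) (star Y) := by
  have hf' : Integrable fun t => (starRingEnd ℂ) (f t) :=
    Complex.conjCLE.toContinuousLinearMap.integrable_comp hf
  refine ContinuousLinearMap.ext fun w => ext_inner_left ℂ fun v => ?_
  rw [smear_spec hU hf', ContinuousLinearMap.star_eq_adjoint,
    ContinuousLinearMap.adjoint_inner_right, ← inner_conj_symm, smear_spec hU hf, ← integral_conj]
  refine integral_congr_ae (Eventually.of_forall fun t => ?_)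
  simp only [map_mul]
  rw [inner_conj_symm, SmA.inner_U hU, SmA.inner_U' hU t v, ContinuousLinearMap.star_eq_adjoint,
    ContinuousLinearMap.adjoint_inner_right]

end Pool.Agent.Helper23.ED

end

end

section

section

open scoped InnerProductSpace Topology ENNReal BoundedContinuousFunction

open ContinuousLinearMap Filter MeasureTheory

namespace Pool.Agent.Helper23.ED

open Pool.Agent.Helper23 Pool.Agent.Helper23.RBF

universe u

section amp

variable {H : Type*} [NormedAddCommGroup H] [InnerProductSpace ℂ H] [CompleteSpace H]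

/-- intertwiners of the group `W` with `e^{i t s} W` -/
def CS (N : VonNeumannAlgebra H) (W : ℝ → H →L[ℂ] H) (s : ℝ) : Set (H →L[ℂ] H) :=
  {x | x ∈ N ∧ ‖x‖ ≤ 1 ∧ ∀ t, x * W t = ph t s • (W t * x)}

end amp

end Pool.Agent.Helper23.ED

end

section

open scoped InnerProductSpace Topology ENNReal BoundedContinuousFunction

open ContinuousLinearMap Filter MeasureTheory

namespace Pool.Agent.Helper23.ED

open Pool.Agent.Helper23 Pool.Agent.Helper23.RBF

universe u

open TopologicalSpace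

variable {H : Type*} [NormedAddCommGroup H] [InnerProductSpace ℂ H] [CompleteSpace H]

variable {N : VonNeumannAlgebra H} {ξ : H} {W : ℝ → H →L[ℂ] H}

lemma slB_zero_mem (s : ℝ) : (0 : H →L[ℂ] H) ∈ CS N W s := by
  refine ⟨zero_mem N, ?_, fun t => ?_⟩
  · rw [norm_zero]; exact zero_le_one
  · rw [zero_mul, mul_zero, smul_zero]

end Pool.Agent.Helper23.ED

end

end
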