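import Pool.Agent.Helper23.FB.Inst

/-!
Parts of Helper23.FA.L00_16, Helper23.FA.L00_13, Helper23.FA.L00_17, Helper23.FA.L00_18, Helper23.FA.L00_10, Helper23.FA.L01_08
-/

attribute [local instance 5000]
  Pool.Agent.Helper23.FB.Inst.rCharZero Pool.Agent.Helper23.FB.Inst.rALM
  Pool.Agent.Helper23.FB.Inst.rARM Pool.Agent.Helper23.FB.Inst.rALSM
  Pool.Agent.Helper23.FB.Inst.rARSM Pool.Agent.Helper23.FB.Inst.rARRLE
  Pool.Agent.Helper23.FB.Inst.rALRLE Pool.Agent.Helper23.FB.Inst.rARRLT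
  Pool.Agent.Helper23.FB.Inst.rALRLT Pool.Agent.Helper23.FB.Inst.rPMRLT
  Pool.Agent.Helper23.FB.Inst.rMPRLT Pool.Agent.Helper23.FB.Inst.rPMM
  Pool.Agent.Helper23.FB.Inst.rMPM Pool.Agent.Helper23.FB.Inst.rPMSM
  Pool.Agent.Helper23.FB.Inst.rMPSM Pool.Agent.Helper23.FB.Inst.rEAOL
  Pool.Agent.Helper23.FB.Inst.rIOR Pool.Agent.Helper23.FB.Inst.rISOR
  Pool.Agent.Helper23.FB.Inst.rFS Pool.Agent.Helper23.FB.Inst.rcCharZero
  Pool.Agent.Helper23.FB.Inst.rNZD Pool.Agent.Helper23.FB.Inst.rcNZD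
  Pool.Agent.Helper23.FB.Inst.bSemiring Pool.Agent.Helper23.FB.Inst.bStar
  Pool.Agent.Helper23.FB.Inst.bAlg Pool.Agent.Helper23.FB.Inst.bSub
  Pool.Agent.Helper23.FB.Inst.bMul Pool.Agent.Helper23.FB.Inst.bAdd
  Pool.Agent.Helper23.FB.Inst.iRing Pool.Agent.Helper23.FB.Inst.iSemiring
  Pool.Agent.Helper23.FB.Inst.iAlgC Pool.Agent.Helper23.FB.Inst.iSMulC
  Pool.Agent.Helper23.FB.Inst.iModC Pool.Agent.Helper23.FB.Inst.iAlgR
  Pool.Agent.Helper23.FB.Inst.iSMulR Pool.Agent.Helper23.FB.Inst.iModR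
  Pool.Agent.Helper23.FB.Inst.iMonoid Pool.Agent.Helper23.FB.Inst.iSemigroup
  Pool.Agent.Helper23.FB.Inst.iMulOneClass Pool.Agent.Helper23.FB.Inst.iMul
  Pool.Agent.Helper23.FB.Inst.iAdd Pool.Agent.Helper23.FB.Inst.iSub
  Pool.Agent.Helper23.FB.Inst.iNeg Pool.Agent.Helper23.FB.Inst.iAddCommMonoid
  Pool.Agent.Helper23.FB.Inst.iAddCommGroup Pool.Agent.Helper23.FB.Inst.iAddGroup
  Pool.Agent.Helper23.FB.Inst.iAddMonoid Pool.Agent.Helper23.FB.Inst.iSMulZeroC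
  Pool.Agent.Helper23.FB.Inst.iMulActC Pool.Agent.Helper23.FB.Inst.iDSMulC
  Pool.Agent.Helper23.FB.Inst.iDSMulR Pool.Agent.Helper23.FB.Inst.iSNAG
  Pool.Agent.Helper23.FB.Inst.iSNACG Pool.Agent.Helper23.FB.Inst.iNorm
  Pool.Agent.Helper23.FB.Inst.iNSC' Pool.Agent.Helper23.FB.Inst.iNSR'
  Pool.Agent.Helper23.FB.Inst.iTop Pool.Agent.Helper23.FB.Inst.iT2 Pool.Agent.Helper23.FB.Inst.iTR
  Pool.Agent.Helper23.FB.Inst.iSCC Pool.Agent.Helper23.FB.Inst.iIST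
  Pool.Agent.Helper23.FB.Inst.iSCCR Pool.Agent.Helper23.FB.Inst.iISTR
  Pool.Agent.Helper23.FB.Inst.iZHC Pool.Agent.Helper23.FB.Inst.iAHC
  Pool.Agent.Helper23.FB.Inst.iAMHC Pool.Agent.Helper23.FB.Inst.iMAHC
  Pool.Agent.Helper23.FB.Inst.lTop Pool.Agent.Helper23.FB.Inst.lUnif
  Pool.Agent.Helper23.FB.Inst.lACM Pool.Agent.Helper23.FB.Inst.lACG
  Pool.Agent.Helper23.FB.Inst.lSNAG Pool.Agent.Helper23.FB.Inst.lSNACG
  Pool.Agent.Helper23.FB.Inst.lNACG Pool.Agent.Helper23.FB.Inst.lNorm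
  Pool.Agent.Helper23.FB.Inst.lIPS Pool.Agent.Helper23.FB.Inst.lMod
  Pool.Agent.Helper23.FB.Inst.lSMul Pool.Agent.Helper23.FB.Inst.lT2
  Pool.Agent.Helper23.FB.Inst.iStar Pool.Agent.Helper23.FB.Inst.iStarMul
  Pool.Agent.Helper23.FB.Inst.iStarAddMonoid Pool.Agent.Helper23.FB.Inst.iStarRing
  Pool.Agent.Helper23.FB.Inst.iNSC Pool.Agent.Helper23.FB.Inst.iSOR
  Pool.Agent.Helper23.FB.Inst.iALM Pool.Agent.Helper23.FB.Inst.iARM
  Pool.Agent.Helper23.FB.Inst.iCFC Pool.Agent.Helper23.FB.Inst.iNCFC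
  Pool.Agent.Helper23.FB.Inst.iStarModR Pool.Agent.Helper23.FB.Inst.iStarModC
  Pool.Agent.Helper23.FB.Inst.eStar Pool.Agent.Helper23.FB.Inst.eAdd
  Pool.Agent.Helper23.FB.Inst.eMul Pool.Agent.Helper23.FB.Inst.eOne
  Pool.Agent.Helper23.FB.Inst.eZero Pool.Agent.Helper23.FB.Inst.eMulAction
  Pool.Agent.Helper23.FB.Inst.eAMHC2 Pool.Agent.Helper23.FB.Inst.eZHC2
  Pool.Agent.Helper23.FB.Inst.lAMHC

namespace Pool.Agent.Helper23
end Pool.Agent.Helper23

section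

section

namespace Pool.Agent.Helper78.BC

theorem minimax {E : Type*} [AddCommGroup E] [Module ℝ E] {W : Set E} (hW : Convex ℝ W)
    (hne : W.Nonempty) {n : ℕ} (f : Fin n → E → ℝ) (hf : ∀ i, ConvexOn ℝ W (f i))
    (c : Fin n → ℝ)
    (h : ∀ t : Fin n → ℝ, (∀ i, 0 ≤ t i) → ∀ δ : ℝ, 0 < δ →
      ∃ ζ ∈ W, ∑ i, t i * f i ζ ≤ ∑ i, t i * (c i + δ)) :
    ∀ δ : ℝ, 0 < δ → ∃ ζ ∈ W, ∀ i, f i ζ ≤ c i + δ := by
  intro δ hδ
  by_contra hcon
  push Not at hcon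
  set U : Set (Fin n → ℝ) := {a | ∃ z ∈ W, ∀ i, f i z < a i} with hU
  have hUo : IsOpen U := by
    have : U = ⋃ z ∈ W, ⋂ i, {a : Fin n → ℝ | f i z < a i} := by
      ext a
      simp [hU]
    rw [this]
    exact isOpen_biUnion fun z _ => isOpen_iInter_of_finite fun i =>
      isOpen_lt continuous_const (continuous_apply i)
  have hUc : Convex ℝ U := by
    rintro a ⟨z, hz, hza⟩ b ⟨w, hw, hwb⟩ s t hs ht hst
    refine ⟨s • z + t • w, hW hz hw hs ht hst, fun i => ?_⟩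
    have h1 := (hf i).2 hz hw hs ht hst
    refine h1.trans_lt ?_
    simp only [Pi.add_apply, Pi.smul_apply, smul_eq_mul]
    rcases hs.eq_or_lt with h0 | h0
    · have ht1 : t = 1 := by linarith
      rw [← h0, ht1]
      (clear * - hwb; linarith [hwb i])
    · have h2 : s * f i z < s * a i := mul_lt_mul_of_pos_left (hza i) h0
      have h3 : t * f i w ≤ t * b i := mul_le_mul_of_nonneg_left (hwb i).le ht
      linarith
  have hx : (fun i => c i + δ) ∉ U := by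
    rintro ⟨z, hz, hzi⟩
    obtain ⟨i, hi⟩ := hcon z hz
    exact absurd (hzi i) (not_lt.2 hi.le)
  obtain ⟨g, hg⟩ := geometric_hahn_banach_open_point hUc hUo hx
  set e : Fin n → (Fin n → ℝ) := fun i => Pi.single i 1 with he
  have hsum : ∀ a : Fin n → ℝ, g a = ∑ i, a i * g (e i) := by
    intro a
    have h1 : a = ∑ i, a i • e i := by
      ext j
      simp [he, Finset.sum_apply, Pi.single_apply]
    conv_lhs => rw [h1]
    rw [map_sum]
    refine Finset.sum_congr rfl fun i _ => ?_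
    rw [map_smul, smul_eq_mul]
  obtain ⟨z0, hz0⟩ := hne
  have hup : ∀ a ∈ U, ∀ i, ∀ s : ℝ, 0 ≤ s → a + s • e i ∈ U := by
    rintro a ⟨z, hz, hza⟩ i s hs
    refine ⟨z, hz, fun j => ?_⟩
    have h1 : 0 ≤ s * e i j := by
      refine mul_nonneg hs ?_
      simp only [he, Pi.single_apply]
      split_ifs <;> norm_num
    simp only [Pi.add_apply, Pi.smul_apply, smul_eq_mul]
    (clear * - h1 hza; linarith [hza j])
  have hneg : ∀ i, g (e i) ≤ 0 := by
    intro i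
    by_contra hpos
    push Not at hpos
    have ha : (fun i => f i z0 + 1) ∈ U := ⟨z0, hz0, fun i => by linarith⟩
    set a : Fin n → ℝ := fun i => f i z0 + 1 with haa
    set M : ℝ := g (fun i => c i + δ) - g a with hM
    have hMpos : 0 < M := by
      have := hg a ha
      (clear * - this; linarith)
    have h1 := hg _ (hup a ha i (M / g (e i)) (by (clear * - hMpos hpos; positivity)))
    rw [map_add, map_smul, smul_eq_mul, div_mul_cancel₀ _ hpos.ne'] at h1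
    linarith
  obtain ⟨ζ, hζ, hle⟩ := h (fun i => - g (e i)) (fun i => by linarith [hneg i]) (δ / 2)
    (by linarith)
  have h2 := hg (fun i => f i ζ + δ / 4) ⟨ζ, hζ, fun i => by (clear * - hδ; linarith)⟩
  rw [hsum, hsum] at h2
  have h3 : ∑ i, (c i + δ) * g (e i) - ∑ i, (f i ζ + δ / 4) * g (e i) =
      (∑ i, -g (e i) * f i ζ - ∑ i, -g (e i) * (c i + δ / 2)) + ∑ i, (δ / 4) * g (e i) := by
    rw [← Finset.sum_sub_distrib, ← Finset.sum_sub_distrib, ← Finset.sum_add_distrib]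
    refine Finset.sum_congr rfl fun i _ => ?_
    ring
  have h4 : ∑ i, (δ / 4) * g (e i) ≤ 0 :=
    Finset.sum_nonpos fun i _ => mul_nonpos_of_nonneg_of_nonpos (by (clear * - hδ; linarith)) (hneg i)
  linarith

end Pool.Agent.Helper78.BC

end

end

section

section

namespace Pool.Agent.Helper78.BC

theorem fip {H : Type*} [NormedAddCommGroup H] [InnerProductSpace ℝ H] [CompleteSpace H]
    {ι : Type*} (F : ι → Set H) (hc : ∀ i, Convex ℝ (F i)) (hcl : ∀ i, IsClosed (F i))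
    (hb : ∀ i, Bornology.IsBounded (F i))
    (h : ∀ s : Finset ι, (⋂ i ∈ s, F i).Nonempty) : (⋂ i, F i).Nonempty := by
  classical
  rcases isEmpty_or_nonempty ι with hι | ⟨⟨i0⟩⟩
  · rw [Set.iInter_of_empty]
    exact ⟨0, trivial⟩
  have hconv : ∀ s : Finset ι, Convex ℝ (⋂ i ∈ s, F i) := fun s =>
    convex_iInter₂ fun i _ => hc i
  have hclos : ∀ s : Finset ι, IsClosed (⋂ i ∈ s, F i) := fun s =>
    isClosed_biInter fun i _ => hcl i
  have hex : ∀ s : Finset ι, ∃ v ∈ (⋂ i ∈ s, F i), ∀ w ∈ (⋂ i ∈ s, F i), ‖v‖ ≤ ‖w‖ := by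
    intro s
    obtain ⟨v, hv, hmin⟩ := exists_norm_eq_iInf_of_complete_convex (h s) (hclos s).isComplete
      (hconv s) (0 : H)
    refine ⟨v, hv, fun w hw => ?_⟩
    have h1 : (⨅ w : ((⋂ i ∈ s, F i : Set H)), ‖(0 : H) - w‖) ≤ ‖(0 : H) - w‖ :=
      ciInf_le ⟨0, by rintro _ ⟨y, rfl⟩; exact norm_nonneg _⟩ (⟨w, hw⟩ : ((⋂ i ∈ s, F i : Set H)))
    rw [← hmin, zero_sub, zero_sub, norm_neg, norm_neg] at h1
    exact h1
  choose m hm hmin using hex
  have hsub : ∀ s t : Finset ι, s ⊆ t → m t ∈ (⋂ i ∈ s, F i) := by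
    intro s t hst
    have := hm t
    rw [Set.mem_iInter₂] at this ⊢
    exact fun i hi => this i (hst hi)
  have hmono : Monotone fun s : Finset ι => ‖m s‖ ^ 2 := by
    intro s t hst
    have h1 := hmin s (m t) (hsub s t hst)
    show ‖m s‖ ^ 2 ≤ ‖m t‖ ^ 2
    (clear * - h1; gcongr)
  have hpar : ∀ s t : Finset ι, s ⊆ t → ‖m t - m s‖ ^ 2 ≤ 2 * (‖m t‖ ^ 2 - ‖m s‖ ^ 2) := by
    intro s t hst
    have hmid : (1 / 2 : ℝ) • m s + (1 / 2 : ℝ) • m t ∈ (⋂ i ∈ s, F i) :=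
      hconv s (hm s) (hsub s t hst) (by norm_num) (by norm_num) (by norm_num)
    have h1 := hmin s _ hmid
    rw [← smul_add, norm_smul] at h1
    have h2 : ‖(1 / 2 : ℝ)‖ = 1 / 2 := by norm_num
    rw [h2] at h1
    have h3 := parallelogram_law_with_norm ℝ (m t) (m s)
    have h4 : 2 * ‖m s‖ ≤ ‖m t + m s‖ := by rw [add_comm (m t)]; (clear * - h1; linarith)
    have h5 := norm_nonneg (m s)
    (clear * - h3 h4 h5; nlinarith [norm_nonneg (m t - m s), norm_nonneg (m t + m s)])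
  obtain ⟨R, hR⟩ := (hb i0).exists_norm_le
  have hbdd : BddAbove (Set.range fun s : Finset ι => ‖m s‖ ^ 2) := by
    refine ⟨R ^ 2, ?_⟩
    rintro _ ⟨s, rfl⟩
    have h1 : m (insert i0 s) ∈ F i0 := by
      have := hm (insert i0 s)
      rw [Set.mem_iInter₂] at this
      exact this i0 (Finset.mem_insert_self _ _)
    have h2 := hR _ h1
    have h3 : ‖m s‖ ^ 2 ≤ ‖m (insert i0 s)‖ ^ 2 := hmono (Finset.subset_insert _ _)
    have h4 : ‖m (insert i0 s)‖ ^ 2 ≤ R ^ 2 := by (clear * - h2; gcongr)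
    exact h3.trans h4
  have hcau : CauchySeq m := by
    rw [Metric.cauchySeq_iff']
    intro ε hε
    obtain ⟨s, hs⟩ := exists_lt_of_lt_ciSup
      (show (⨆ s : Finset ι, ‖m s‖ ^ 2) - ε ^ 2 / 4 < ⨆ s : Finset ι, ‖m s‖ ^ 2 by
        have := pow_pos hε 2
        linarith)
    refine ⟨s, fun t ht => ?_⟩
    rw [dist_eq_norm]
    have h1 := hpar s t ht
    have h2 : ‖m t‖ ^ 2 ≤ ⨆ s : Finset ι, ‖m s‖ ^ 2 := le_ciSup hbdd t
    have h3 : ‖m t - m s‖ ^ 2 < ε ^ 2 := by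
      have := pow_pos hε 2
      linarith
    exact lt_of_pow_lt_pow_left₀ 2 hε.le h3
  obtain ⟨v, hv⟩ := cauchySeq_tendsto_of_complete hcau
  refine ⟨v, Set.mem_iInter.2 fun i => ?_⟩
  refine (hcl i).mem_of_tendsto hv ?_
  filter_upwards [Filter.eventually_ge_atTop ({i} : Finset ι)] with s hs
  have := hm s
  rw [Set.mem_iInter₂] at this
  exact this i (hs (Finset.mem_singleton_self i))

end Pool.Agent.Helper78.BC

end

section

open scoped InnerProductSpace Topology BoundedContinuousFunction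

open ContinuousLinearMap Filter

namespace Pool.Agent.Helper23

universe u

variable {K : Type u} [NormedAddCommGroup K] [InnerProductSpace ℂ K] [CompleteSpace K]

/-- `f(B) = 2 B (1 + B²)⁻¹` -/
noncomputable def kap2 {G : Type*} [NormedAddCommGroup G] [InnerProductSpace ℂ G]
    [CompleteSpace G] (B : G →L[ℂ] G) : G →L[ℂ] G :=
  (2 : ℂ) • (B * Ring.inverse (1 + B * B))

section basic

variable {G : Type*} [NormedAddCommGroup G] [InnerProductSpace ℂ G] [CompleteSpace G]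

lemma kap_isUnit {B : G →L[ℂ] G} (hB : star B = B) : IsUnit (1 + B * B) := by
  have h1 : (-1 : ℝ) ∉ spectrum ℝ (star B * B) := fun h => by
    have := spectrum_star_mul_self_nonneg (b := B) _ h
    norm_num at this
  rw [spectrum.notMem_iff, hB] at h1
  have h2 := h1.neg
  have h3 : -((algebraMap ℝ (G →L[ℂ] G)) (-1) - B * B) = 1 + B * B := by
    rw [map_neg, map_one]; abel
  rwa [h3] at h2

/-- `w = (1 + B²)⁻¹ x` -/
lemma kap_inv_apply {B : G →L[ℂ] G} (hB : star B = B) (x : G) :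
    Ring.inverse (1 + B * B) x + B (B (Ring.inverse (1 + B * B) x)) = x := by
  have h := Ring.mul_inverse_cancel _ (kap_isUnit hB)
  have h2 := congrArg (fun T : G →L[ℂ] G => T x) h
  exact h2

lemma kap_sa {B : G →L[ℂ] G} (hB : star B = B) (x y : G) : ⟪B x, y⟫_ℂ = ⟪x, B y⟫_ℂ := by
  rw [← ContinuousLinearMap.adjoint_inner_left, ← ContinuousLinearMap.star_eq_adjoint, hB]

lemma kap_key {B : G →L[ℂ] G} (hB : star B = B) (w : G) :
    ‖w + B (B w)‖ ^ 2 = ‖w‖ ^ 2 + 2 * ‖B w‖ ^ 2 + ‖B (B w)‖ ^ 2 ∧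
    ‖w + B (B w)‖ ^ 2 = ‖w - B (B w)‖ ^ 2 + 4 * ‖B w‖ ^ 2 := by
  have h1 : RCLike.re ⟪w, B (B w)⟫_ℂ = ‖B w‖ ^ 2 := by
    rw [← kap_sa hB, inner_self_eq_norm_sq]
  have h2 := @norm_add_sq ℂ G _ _ _ w (B (B w))
  have h3 := @norm_sub_sq ℂ G _ _ _ w (B (B w))
  rw [h1] at h2 h3
  constructor
  · rw [h2]
  · rw [h2, h3]; ring

lemma kap_inv_norm {B : G →L[ℂ] G} (hB : star B = B) (x : G) :
    ‖Ring.inverse (1 + B * B) x‖ ≤ ‖x‖ := by
  have h := kap_inv_apply hB x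
  have h2 := (kap_key hB (Ring.inverse (1 + B * B) x)).1
  rw [h] at h2
  refine le_of_sq_le_sq ?_ (norm_nonneg _)
  (clear * - h2; nlinarith [sq_nonneg ‖B (Ring.inverse (1 + B * B) x)‖,
    sq_nonneg ‖B (B (Ring.inverse (1 + B * B) x))‖])

lemma kap2_apply (B : G →L[ℂ] G) (x : G) :
    kap2 B x = (2 : ℂ) • B (Ring.inverse (1 + B * B) x) := rfl

lemma kap2_apply_norm {B : G →L[ℂ] G} (hB : star B = B) (x : G) : ‖kap2 B x‖ ≤ ‖x‖ := by
  have h := kap_inv_apply hB x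
  have h2 := (kap_key hB (Ring.inverse (1 + B * B) x)).2
  rw [h] at h2
  rw [kap2_apply, norm_smul]
  refine le_of_sq_le_sq ?_ (norm_nonneg _)
  rw [h2, mul_pow]
  have h3 : ‖(2 : ℂ)‖ ^ 2 = 4 := by norm_num
  rw [h3]
  (clear * -; nlinarith [sq_nonneg ‖Ring.inverse (1 + B * B) x - B (B (Ring.inverse (1 + B * B) x))‖])

end basic

theorem kap2_norm {B : K →L[ℂ] K} (hB : star B = B) : ‖kap2 B‖ ≤ 1 :=
  ContinuousLinearMap.opNorm_le_bound _ zero_le_one fun x => by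
    rw [one_mul]; exact kap2_apply_norm hB x

section alg

variable {G : Type*} [NormedAddCommGroup G] [InnerProductSpace ℂ G] [CompleteSpace G]

/-- `B P - S Q = P (B - S) Q + P B (S - B) S Q` -/
lemma kap2_diff {B S : G →L[ℂ] G} (hB : star B = B) (hS : star S = S) (v : G) :
    ‖kap2 B v - kap2 S v‖ ≤ 2 * ‖(B - S) (Ring.inverse (1 + S * S) v)‖ +
      ‖(B - S) (kap2 S v)‖ := by
  set P := Ring.inverse (1 + B * B) with hP
  set Q := Ring.inverse (1 + S * S) with hQ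
  have h1 : P * (1 + B * B) = 1 := Ring.inverse_mul_cancel _ (kap_isUnit hB)
  have h2 : (1 + S * S) * Q = 1 := Ring.mul_inverse_cancel _ (kap_isUnit hS)
  have h1' : (1 + B * B) * P = 1 := Ring.mul_inverse_cancel _ (kap_isUnit hB)
  -- `P` commutes with `B`
  have hPB : P * B = B * P := by
    have e : (1 + B * B) * B = B * (1 + B * B) := by noncomm_ring
    calc P * B = P * B * ((1 + B * B) * P) := by rw [h1', mul_one]
      _ = P * (B * (1 + B * B)) * P := by noncomm_ring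
      _ = P * ((1 + B * B) * B) * P := by rw [e]
      _ = (P * (1 + B * B)) * B * P := by noncomm_ring
      _ = B * P := by rw [h1, one_mul]
  have key : B * P - S * Q = P * ((B - S) * Q) + (B * P) * ((S - B) * (S * Q)) := by
    have e1 : B * P = P * B * ((1 + S * S) * Q) := by rw [h2, mul_one, hPB]
    have e2 : S * Q = (P * (1 + B * B)) * (S * Q) := by rw [h1, one_mul]
    calc B * P - S * Q = P * B * ((1 + S * S) * Q) - (P * (1 + B * B)) * (S * Q) := by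
          rw [← e1, ← e2]
      _ = P * ((B - S) * Q) + (P * B) * ((S - B) * (S * Q)) := by noncomm_ring
      _ = _ := by rw [hPB]
  have hv : kap2 B v - kap2 S v = (2 : ℂ) • P ((B - S) (Q v)) -
      (2 : ℂ) • (B * P) ((B - S) ((S * Q) v)) := by
    have h3 := congrArg (fun T : G →L[ℂ] G => (2 : ℂ) • T v) key
    have h4 : kap2 B v - kap2 S v = (2 : ℂ) • (B * P - S * Q) v := by
      rw [kap2_apply, kap2_apply]
      change _ = (2 : ℂ) • (B (P v) - S (Q v))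
      rw [smul_sub]
    rw [h4]
    refine h3.trans ?_
    change (2 : ℂ) • (P ((B - S) (Q v)) + (B * P) ((S - B) ((S * Q) v))) = _
    have h5 : (S - B) ((S * Q) v) = -((B - S) ((S * Q) v)) := by
      change S _ - B _ = -(B _ - S _)
      abel
    rw [smul_add, h5, map_neg, smul_neg, ← sub_eq_add_neg]
  have hkS : kap2 S v = (2 : ℂ) • (S * Q) v := rfl
  have hkB : ∀ x, (2 : ℂ) • (B * P) x = kap2 B x := fun x => rfl
  rw [hv, hkB]
  refine (norm_sub_le _ _).trans (add_le_add ?_ ?_)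
  · rw [norm_smul]
    have : ‖(2 : ℂ)‖ = 2 := by norm_num
    rw [this]
    exact mul_le_mul_of_nonneg_left (kap_inv_norm hB _) (by norm_num)
  · refine (kap2_apply_norm hB _).trans ?_
    rw [hkS, map_smul, norm_smul]
    have : ‖(2 : ℂ)‖ = 2 := by norm_num
    rw [this]
    (clear * -; nlinarith [norm_nonneg ((B - S) ((S * Q) v))])

end alg

lemma spec_abs_le {G : Type*} [NormedAddCommGroup G] [InnerProductSpace ℂ G] [CompleteSpace G]
    {B : G →L[ℂ] G} {C : ℝ} (hC : ‖B‖ ≤ C) {s : ℝ} (hs : s ∈ spectrum ℝ B) : |s| ≤ C := by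
  have hG : Nontrivial G := by
    by_contra h
    rw [not_nontrivial_iff_subsingleton] at h
    have : Subsingleton (G →L[ℂ] G) := inferInstance
    rw [spectrum.of_subsingleton] at hs
    exact hs
  have h1 := spectrum.subset_closedBall_norm B hs
  rw [Metric.mem_closedBall, dist_zero_right, Real.norm_eq_abs] at h1
  exact h1.trans hC

/-- `f(B)` is a norm limit of polynomials in `B`, uniformly for `‖B‖ ≤ C` -/
theorem kap2_poly (C : ℝ) {ε : ℝ} (hε : 0 < ε) : ∃ p : Polynomial ℂ,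
    ∀ (G : Type u) [NormedAddCommGroup G] [InnerProductSpace ℂ G] [CompleteSpace G]
      (B : G →L[ℂ] G), star B = B → ‖B‖ ≤ C → ‖kap2 B - Polynomial.aeval B p‖ ≤ ε := by
  have hf : Continuous fun t : ℝ => 2 * t / (1 + t ^ 2) :=
    (by fun_prop : Continuous fun t : ℝ => 2 * t).div (by fun_prop) fun t => by (clear * -; positivity)
  obtain ⟨q, hq⟩ := exists_polynomial_near_of_continuousOn (-C) C _ hf.continuousOn ε hε
  refine ⟨q.map (algebraMap ℝ ℂ), ?_⟩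
  intro G _ _ _ B hB hBC
  have hBsa : IsSelfAdjoint B := hB
  have e1 : kap2 B = cfc (fun t : ℝ => 2 * t / (1 + t ^ 2)) B := by
    have h1 : cfc (fun t : ℝ => 2 * t / (1 + t ^ 2)) B * (1 + B * B) = (2 : ℂ) • B := by
      have e2 : (1 + B * B) = cfc (fun t : ℝ => 1 + t ^ 2) B := by
        rw [cfc_add B (fun _ => (1 : ℝ)) (fun t => t ^ 2) (by fun_prop) (by fun_prop),
          cfc_const_one ℝ B, cfc_pow_id B 2, pow_two]
      have e3 : (2 : ℂ) • B = cfc (fun t : ℝ => 2 * t) B := by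
        rw [cfc_const_mul (2 : ℝ) (fun t => t) B (by fun_prop), cfc_id' ℝ B]
        exact (two_smul ℂ B).trans (two_smul ℝ B).symm
      rw [e2, e3, ← cfc_mul _ _ B hf.continuousOn (by fun_prop)]
      refine cfc_congr fun t _ => ?_
      have : (1 + t ^ 2 : ℝ) ≠ 0 := by (clear * -; positivity)
      field_simp
    have h2 := Ring.mul_inverse_cancel _ (kap_isUnit hB)
    calc kap2 B = ((2 : ℂ) • B) * Ring.inverse (1 + B * B) := by
          rw [kap2, smul_mul_assoc]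
      _ = _ := by rw [← h1, mul_assoc, h2, mul_one]
  have e4 : Polynomial.aeval B (q.map (algebraMap ℝ ℂ)) = cfc q.eval B := by
    rw [Polynomial.aeval_map_algebraMap, cfc_polynomial q B]
  rw [e1, e4, ← cfc_sub _ _ B hf.continuousOn q.continuous.continuousOn]
  refine norm_cfc_le hε.le fun t ht => ?_
  have h5 := spec_abs_le hBC ht
  rw [Real.norm_eq_abs, abs_sub_comm]
  exact (hq t (abs_le.1 h5)).le

end Pool.Agent.Helper23

end

section

open scoped InnerProductSpace Topology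

open ContinuousLinearMap Filter

namespace Pool.Agent.Helper23

universe u

variable {H : Type u} [NormedAddCommGroup H] [InnerProductSpace ℂ H] [CompleteSpace H]

variable {K : Type u} [NormedAddCommGroup K] [InnerProductSpace ℂ K] [CompleteSpace K]

variable {A : VonNeumannAlgebra H} {P : Set (ℕ → H →L[ℂ] H)} {ξ : H} {ζ : K}
  {rep : (ℕ → H →L[ℂ] H) → (K →L[ℂ] K)}

lemma kap2_star {G : Type*} [NormedAddCommGroup G] [InnerProductSpace ℂ G]
    [CompleteSpace G] {B : G →L[ℂ] G} (hs : star B = B) : star (kap2 B) = kap2 B := by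
  have h2 : Commute B (1 + B * B) :=
    (Commute.one_right B).add_right ((Commute.refl B).mul_right (Commute.refl B))
  obtain ⟨u, hu⟩ := kap_isUnit hs
  have h3 : Commute B (Ring.inverse (1 + B * B)) := by
    rw [← hu, Ring.inverse_unit]
    rw [← hu] at h2
    exact h2.units_inv_right
  have h4 : star (Ring.inverse (1 + B * B)) = Ring.inverse (1 + B * B) := by
    rw [← Ring.inverse_star, star_add, star_one, star_mul, hs]
  rw [kap2, star_smul, star_mul, h4, hs, ← h3.eq]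
  congr 1
  exact Complex.conj_ofNat 2

end Pool.Agent.Helper23

end

end

section

section

open scoped InnerProductSpace Topology BoundedContinuousFunction

open ContinuousLinearMap Filter

namespace Pool.Agent.Helper23

universe u

variable {H : Type u} [NormedAddCommGroup H] [InnerProductSpace ℂ H] [CompleteSpace H]

variable {K : Type u} [NormedAddCommGroup K] [InnerProductSpace ℂ K] [CompleteSpace K]

variable {M N : VonNeumannAlgebra H} {ξ : H} {E : (H →L[ℂ] H) → (H →L[ℂ] H)}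

section aux

set_option linter.unusedSectionVars false

/-- weak convergence on dense sets of vectors and boundedness -/
lemma U11.weak_of_dense {ι : Type*} {F : Filter ι} {x : ι → H →L[ℂ] H} {C : ℝ} (hC : ∀ i, ‖x i‖ ≤ C)
    (y : H →L[ℂ] H) {D : Set H} (hD : Dense D)
    (h : ∀ v ∈ D, ∀ w ∈ D, Tendsto (fun i => ⟪v, x i w⟫_ℂ) F (𝓝 ⟪v, y w⟫_ℂ)) (v w : H) :
    Tendsto (fun i => ⟪v, x i w⟫_ℂ) F (𝓝 ⟪v, y w⟫_ℂ) := by
  rcases F.eq_or_neBot with hbot | hne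
  · rw [hbot]; exact Filter.tendsto_bot
  have hC0 : 0 ≤ C := by
    obtain ⟨i⟩ : Nonempty ι := Filter.nonempty_of_neBot F
    exact (norm_nonneg _).trans (hC i)
  -- first extend in `w`
  have h1 : ∀ v ∈ D, ∀ w : H, Tendsto (fun i => ⟪v, x i w⟫_ℂ) F (𝓝 ⟪v, y w⟫_ℂ) := by
    intro v hv w
    rw [Metric.tendsto_nhds]
    intro ε hε
    obtain ⟨w', hw'm, hw'⟩ := Metric.dense_iff.1 hD w (ε / (3 * ((‖v‖ + 1) * (C + ‖y‖ + 1))))
      (by (clear * - hε hC0; positivity))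
    rw [Metric.mem_ball, dist_eq_norm, norm_sub_rev] at hw'm
    filter_upwards [(Metric.tendsto_nhds.1 (h v hv w' hw')) (ε / 3) (by positivity)] with i hi
    rw [dist_eq_norm] at hi ⊢
    have e1 : ⟪v, x i w⟫_ℂ - ⟪v, y w⟫_ℂ = ⟪v, x i (w - w')⟫_ℂ - ⟪v, y (w - w')⟫_ℂ +
        (⟪v, x i w'⟫_ℂ - ⟪v, y w'⟫_ℂ) := by
      rw [map_sub, map_sub, inner_sub_right, inner_sub_right]; ring
    have hk : ‖v‖ * ((C + ‖y‖) * ‖w - w'‖) ≤ ε / 3 := by
      have h3 : ‖v‖ * ((C + ‖y‖) * ‖w - w'‖) ≤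
          ((‖v‖ + 1) * (C + ‖y‖ + 1)) * (ε / (3 * ((‖v‖ + 1) * (C + ‖y‖ + 1)))) := by
        rw [← mul_assoc]
        refine mul_le_mul (mul_le_mul ?_ ?_ ?_ ?_) hw'm.le (norm_nonneg _) ?_ <;>
          first | (clear * - hC0; positivity) | (clear * -; linarith)
      refine h3.trans (le_of_eq ?_)
      field_simp
    rw [e1]
    calc ‖⟪v, x i (w - w')⟫_ℂ - ⟪v, y (w - w')⟫_ℂ + (⟪v, x i w'⟫_ℂ - ⟪v, y w'⟫_ℂ)‖
        ≤ ‖⟪v, x i (w - w')⟫_ℂ‖ + ‖⟪v, y (w - w')⟫_ℂ‖ + ‖⟪v, x i w'⟫_ℂ - ⟪v, y w'⟫_ℂ‖ :=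
          (norm_add_le _ _).trans (add_le_add (norm_sub_le _ _) le_rfl)
      _ ≤ ‖v‖ * (C * ‖w - w'‖) + ‖v‖ * (‖y‖ * ‖w - w'‖) + ‖⟪v, x i w'⟫_ℂ - ⟪v, y w'⟫_ℂ‖ := by
          gcongr
          · exact (norm_inner_le_norm _ _).trans (by
              gcongr; exact (x i).le_of_opNorm_le (hC i) _)
          · exact (norm_inner_le_norm _ _).trans (by
              gcongr; exact y.le_opNorm _)
      _ = ‖v‖ * ((C + ‖y‖) * ‖w - w'‖) + ‖⟪v, x i w'⟫_ℂ - ⟪v, y w'⟫_ℂ‖ := by ring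
      _ < ε := by (clear * - hε hi hk; linarith)
  rw [Metric.tendsto_nhds]
  intro ε hε
  obtain ⟨v', hv'm, hv'⟩ := Metric.dense_iff.1 hD v (ε / (3 * ((‖w‖ + 1) * (C + ‖y‖ + 1))))
    (by (clear * - hε hC0; positivity))
  rw [Metric.mem_ball, dist_eq_norm, norm_sub_rev] at hv'm
  filter_upwards [(Metric.tendsto_nhds.1 (h1 v' hv' w)) (ε / 3) (by positivity)] with i hi
  rw [dist_eq_norm] at hi ⊢
  have e1 : ⟪v, x i w⟫_ℂ - ⟪v, y w⟫_ℂ = ⟪v - v', x i w⟫_ℂ - ⟪v - v', y w⟫_ℂ +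
      (⟪v', x i w⟫_ℂ - ⟪v', y w⟫_ℂ) := by
    rw [inner_sub_left, inner_sub_left]; ring
  have hk : ‖v - v'‖ * ((C + ‖y‖) * ‖w‖) ≤ ε / 3 := by
    have h3 : ‖v - v'‖ * ((C + ‖y‖) * ‖w‖) ≤
        (ε / (3 * ((‖w‖ + 1) * (C + ‖y‖ + 1)))) * ((C + ‖y‖ + 1) * (‖w‖ + 1)) := by
      refine mul_le_mul hv'm.le (mul_le_mul ?_ ?_ ?_ ?_) ?_ ?_ <;>
        first | (clear * - hC0 hε; positivity) | (clear * -; linarith)
    refine h3.trans (le_of_eq ?_)
    (clear * - hC0 hε; field_simp)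
  rw [e1]
  calc ‖⟪v - v', x i w⟫_ℂ - ⟪v - v', y w⟫_ℂ + (⟪v', x i w⟫_ℂ - ⟪v', y w⟫_ℂ)‖
      ≤ ‖⟪v - v', x i w⟫_ℂ‖ + ‖⟪v - v', y w⟫_ℂ‖ + ‖⟪v', x i w⟫_ℂ - ⟪v', y w⟫_ℂ‖ :=
        (norm_add_le _ _).trans (add_le_add (norm_sub_le _ _) le_rfl)
    _ ≤ ‖v - v'‖ * (C * ‖w‖) + ‖v - v'‖ * (‖y‖ * ‖w‖) + ‖⟪v', x i w⟫_ℂ - ⟪v', y w⟫_ℂ‖ := by
        gcongr
        · exact (norm_inner_le_norm _ _).trans (by
            gcongr; exact (x i).le_of_opNorm_le (hC i) _)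
        · exact (norm_inner_le_norm _ _).trans (by
            gcongr; exact y.le_opNorm _)
    _ = ‖v - v'‖ * ((C + ‖y‖) * ‖w‖) + ‖⟪v', x i w⟫_ℂ - ⟪v', y w⟫_ℂ‖ := by ring
    _ < ε := by (clear * - hε hi hk; linarith)

end aux

end Pool.Agent.Helper23

end

end

section

section

open scoped InnerProductSpace

open ContinuousLinearMap

namespace Pool.Agent.Helper78.BC

variable {H : Type*} [NormedAddCommGroup H] [InnerProductSpace ℂ H] [CompleteSpace H]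

omit [CompleteSpace H] in
theorem convexOn_move (a : H →L[ℂ] H) :
    ConvexOn ℝ Set.univ (fun ζ : H => ‖a ζ - ζ‖ ^ 2) := by
  have h1 : ConvexOn ℝ Set.univ (fun ζ : H => ‖a ζ - ζ‖) := by
    refine ⟨convex_univ, fun x _ y _ s t hs ht hst => ?_⟩
    have e : a (s • x + t • y) - (s • x + t • y) = s • (a x - x) + t • (a y - y) := by
      rw [map_add]
      have e1 : a (s • x) = s • a x := by
        rw [← Complex.coe_smul, map_smul, Complex.coe_smul]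
      have e2 : a (t • y) = t • a y := by
        rw [← Complex.coe_smul, map_smul, Complex.coe_smul]
      rw [e1, e2, smul_sub, smul_sub]
      abel
    simp only
    rw [e]
    refine (norm_add_le _ _).trans ?_
    rw [norm_smul, norm_smul, Real.norm_of_nonneg hs, Real.norm_of_nonneg ht, smul_eq_mul,
      smul_eq_mul]
  exact h1.pow (fun _ _ => norm_nonneg _) 2

end Pool.Agent.Helper78.BC

end

section

open scoped InnerProductSpace Topology BoundedContinuousFunction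

open ContinuousLinearMap Filter MeasureTheory

namespace Pool.Agent.Helper88.CS

open Pool.Agent.Helper23

variable {H : Type*} [NormedAddCommGroup H] [InnerProductSpace ℂ H] [CompleteSpace H]

variable {A : VonNeumannAlgebra H} {J : H →L[ℝ] H} {κ : H}

namespace Trick2Aux

theorem pyth {e f : H →L[ℂ] H} (hes : star e = e) (hef0 : e * f = 0) (v w : H) :
    ‖e v + f w‖ ^ 2 = ‖e v‖ ^ 2 + ‖f w‖ ^ 2 := by
  have h0 : ⟪e v, f w⟫_ℂ = 0 := by
    rw [← hes, ContinuousLinearMap.star_eq_adjoint, ContinuousLinearMap.adjoint_inner_left]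
    have : e (f w) = (e * f) w := rfl
    rw [this, hef0]
    simp
  have h := @norm_add_sq ℂ H _ _ _ (e v) (f w)
  rw [h, h0]
  simp

end Trick2Aux

end Pool.Agent.Helper88.CS

end

end

section

section

open scoped InnerProductSpace

open ContinuousLinearMap

namespace Pool.Agent.Helper78.BC

variable {H : Type*} [NormedAddCommGroup H] [InnerProductSpace ℂ H] [CompleteSpace H]

namespace Energy

open Finset

attribute [local instance] InnerProductSpace.complexToReal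

set_option linter.unusedSectionVars false

/-- The operator as a real linear endomorphism. -/
noncomputable def L (a : H →L[ℂ] H) : Module.End ℝ H := (a.restrictScalars ℝ : H →ₗ[ℝ] H)

@[simp] theorem L_apply (a : H →L[ℂ] H) (x : H) : L a x = a x := rfl

theorem L_mul (a b : H →L[ℂ] H) : L (a * b) = L a * L b := by
  ext x
  rfl

theorem L_one : L (1 : H →L[ℂ] H) = 1 := by
  ext x
  rfl

theorem inner_star (a : H →L[ℂ] H) (x y : H) : ⟪a x, y⟫_ℝ = ⟪x, (star a) y⟫_ℝ := by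
  have h : ⟪a x, y⟫_ℂ = ⟪x, (star a) y⟫_ℂ := by
    rw [star_eq_adjoint, adjoint_inner_right]
  exact congrArg Complex.re h

theorem norm_uni {a : H →L[ℂ] H} (h : star a * a = 1) (x : H) : ‖a x‖ = ‖x‖ := by
  have h1 : ⟪a x, a x⟫_ℝ = ⟪x, x⟫_ℝ := by
    rw [inner_star]
    have : (star a) (a x) = (star a * a) x := rfl
    rw [this, h]
    rfl
  rw [real_inner_self_eq_norm_sq, real_inner_self_eq_norm_sq] at h1
  exact (pow_left_inj₀ (norm_nonneg _) (norm_nonneg _) two_ne_zero).1 h1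

theorem norm_sub_sq' {a : H →L[ℂ] H} (h : star a * a = 1) (x : H) :
    ‖a x - x‖ ^ 2 = 2 * (‖x‖ ^ 2 - ⟪a x, x⟫_ℝ) := by
  rw [@norm_sub_sq_real, norm_uni h]
  ring

/-- The set of all averages of the operators. -/
def Av (S : Set (H →L[ℂ] H)) : Set (Module.End ℝ H) := convexHull ℝ (L '' S)

theorem L_mem_av {S : Set (H →L[ℂ] H)} {a : H →L[ℂ] H} (ha : a ∈ S) : L a ∈ Av S :=
  subset_convexHull ℝ _ ⟨a, ha, rfl⟩

theorem convex_av (S : Set (H →L[ℂ] H)) : Convex ℝ (Av S) := convex_convexHull ℝ _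

section Sets

variable {S : Set (H →L[ℂ] H)}

theorem one_mem_av (hone : 1 ∈ S) : (1 : Module.End ℝ H) ∈ Av S := by
  rw [← L_one]; exact L_mem_av hone

theorem L_mul_mem_av (hmul : ∀ a ∈ S, ∀ b ∈ S, a * b ∈ S) {a : H →L[ℂ] H} (ha : a ∈ S)
    {B : Module.End ℝ H} (hB : B ∈ Av S) : L a * B ∈ Av S := by
  have h : Av S ⊆ (LinearMap.mulLeft ℝ (L a)) ⁻¹' Av S := by
    refine convexHull_min ?_ ((convex_av S).linear_preimage _)
    rintro _ ⟨b, hb, rfl⟩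
    simp only [Set.mem_preimage, LinearMap.mulLeft_apply]
    rw [← L_mul]
    exact L_mem_av (hmul a ha b hb)
  exact h hB

theorem av_apply_mem {V : Set H} (hVc : Convex ℝ V) (hVi : ∀ a ∈ S, ∀ v ∈ V, a v ∈ V)
    {B : Module.End ℝ H} (hB : B ∈ Av S) {v : H} (hv : v ∈ V) : B v ∈ V := by
  have h : Av S ⊆ (LinearMap.applyₗ v : Module.End ℝ H →ₗ[ℝ] H) ⁻¹' V := by
    refine convexHull_min ?_ (hVc.linear_preimage _)
    rintro _ ⟨b, hb, rfl⟩
    exact hVi b hb v hv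
  exact h hB

variable {n : ℕ} {a : Fin n → H →L[ℂ] H} {w : Fin n → ℝ}

/-- The mixed operator. -/
noncomputable def T (a : Fin n → H →L[ℂ] H) (w : Fin n → ℝ) : Module.End ℝ H :=
  ∑ i, w i • ((1 / 2 : ℝ) • L (a i) + (1 / 2 : ℝ) • L (star (a i)))

theorem T_mul_mem_av (hmul : ∀ a ∈ S, ∀ b ∈ S, a * b ∈ S) (hstar : ∀ a ∈ S, star a ∈ S)
    (ha : ∀ i, a i ∈ S) (hw : ∀ i, 0 ≤ w i) (h1 : ∑ i, w i = 1) {B : Module.End ℝ H}
    (hB : B ∈ Av S) : T a w * B ∈ Av S := by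
  have h := (convex_av S).sum_mem (t := Finset.univ) (w := w)
    (z := fun i => ((1 / 2 : ℝ) • L (a i) + (1 / 2 : ℝ) • L (star (a i))) * B)
    (fun i _ => hw i) h1 (fun i _ => by
      rw [add_mul, smul_mul_assoc, smul_mul_assoc]
      exact convex_av S (L_mul_mem_av hmul (ha i) hB) (L_mul_mem_av hmul (hstar _ (ha i)) hB)
        (by norm_num) (by norm_num) (by norm_num))
  have e : T a w * B = ∑ i, w i • (((1 / 2 : ℝ) • L (a i) + (1 / 2 : ℝ) • L (star (a i))) * B) := by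
    rw [T, Finset.sum_mul]
    exact Finset.sum_congr rfl fun g _ => smul_mul_assoc _ _ _
  rw [e]
  exact h

theorem T_pow_mem_av (hone : 1 ∈ S) (hmul : ∀ a ∈ S, ∀ b ∈ S, a * b ∈ S)
    (hstar : ∀ a ∈ S, star a ∈ S) (ha : ∀ i, a i ∈ S) (hw : ∀ i, 0 ≤ w i)
    (h1 : ∑ i, w i = 1) (m : ℕ) : T a w ^ m ∈ Av S := by
  induction m with
  | zero => rw [pow_zero]; exact one_mem_av hone
  | succ m ih => rw [pow_succ']; exact T_mul_mem_av hmul hstar ha hw h1 ih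

theorem T_apply (x : H) :
    T a w x = ∑ i, w i • ((1 / 2 : ℝ) • a i x + (1 / 2 : ℝ) • (star (a i)) x) := by
  simp [T, LinearMap.sum_apply]

theorem T_symm (x y : H) : ⟪T a w x, y⟫_ℝ = ⟪x, T a w y⟫_ℝ := by
  rw [T_apply, T_apply, sum_inner, inner_sum]
  refine Finset.sum_congr rfl fun g _ => ?_
  rw [inner_smul_left, inner_smul_right, inner_add_left, inner_add_right, inner_smul_left,
    inner_smul_left, inner_smul_right, inner_smul_right, inner_star (a g) x y,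
    inner_star (star (a g)) x y, star_star]
  simp only [conj_trivial]
  ring

theorem T_sum (huni : ∀ i, star (a i) * a i = 1) (x : H) (h1 : ∑ i, w i = 1) :
    ∑ i, w i * ‖a i x - x‖ ^ 2 = 2 * (‖x‖ ^ 2 - ⟪T a w x, x⟫_ℝ) := by
  have h2 : ∀ i, w i * ‖a i x - x‖ ^ 2 = 2 * (w i * ‖x‖ ^ 2 -
      ⟪w i • ((1 / 2 : ℝ) • a i x + (1 / 2 : ℝ) • (star (a i)) x), x⟫_ℝ) := by
    intro i
    have h3 : ⟪(star (a i)) x, x⟫_ℝ = ⟪a i x, x⟫_ℝ := by
      rw [inner_star (star (a i)) x x, star_star, real_inner_comm]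
    rw [norm_sub_sq' (huni i), inner_smul_left, inner_add_left, inner_smul_left,
      inner_smul_left, h3]
    simp only [conj_trivial]
    ring
  rw [Finset.sum_congr rfl fun g _ => h2 g, ← Finset.mul_sum, Finset.sum_sub_distrib,
    ← Finset.sum_mul, h1, one_mul, T_apply, sum_inner]

theorem T_norm (huni : ∀ i, star (a i) * a i = 1) (huni' : ∀ i, a i * star (a i) = 1)
    (hw : ∀ i, 0 ≤ w i) (h1 : ∑ i, w i = 1) (x : H) : ‖T a w x‖ ≤ ‖x‖ := by
  rw [T_apply]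
  refine (norm_sum_le _ _).trans ?_
  have h : ∀ i ∈ (Finset.univ : Finset (Fin n)),
      ‖w i • ((1 / 2 : ℝ) • a i x + (1 / 2 : ℝ) • (star (a i)) x)‖ ≤ w i * ‖x‖ := by
    intro i _
    rw [norm_smul, Real.norm_of_nonneg (hw i)]
    refine mul_le_mul_of_nonneg_left ?_ (hw i)
    refine (norm_add_le _ _).trans ?_
    rw [norm_smul, norm_smul, norm_uni (huni i), norm_uni (a := star (a i))
      (by rw [star_star]; exact huni' i)]
    norm_num
    (clear * -; linarith)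
  refine (Finset.sum_le_sum h).trans ?_
  rw [← Finset.sum_mul, h1, one_mul]

end Sets

section Form

variable {A : Module.End ℝ H} (hs : ∀ x y, ⟪A x, y⟫_ℝ = ⟪x, A y⟫_ℝ) (hn : ∀ x, ‖A x‖ ≤ ‖x‖)

include hs hn

theorem pow_norm (k : ℕ) (x : H) : ‖(A ^ k) x‖ ≤ ‖x‖ := by
  induction k with
  | zero => simp
  | succ k ih => rw [pow_succ', Module.End.mul_apply]; exact (hn _).trans ih

theorem form_nonneg (x : H) : 0 ≤ ⟪x - A x, x⟫_ℝ := by
  rw [inner_sub_left, real_inner_self_eq_norm_sq]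
  have h := real_inner_le_norm (A x) x
  (clear * - h hn; nlinarith [hn x, norm_nonneg x, norm_nonneg (A x)])

theorem form_nonneg' (x : H) : 0 ≤ ⟪x + A x, x⟫_ℝ := by
  rw [inner_add_left, real_inner_self_eq_norm_sq]
  have h := neg_le_of_abs_le (abs_real_inner_le_norm (A x) x)
  nlinarith [hn x, norm_nonneg x, norm_nonneg (A x)]

theorem form_step (x : H) : ⟪A x - A (A x), A x⟫_ℝ ≤ ⟪x - A x, x⟫_ℝ := by
  have h := form_nonneg' hs hn (x - A x)
  have h2 : ⟪x - A x + A (x - A x), x - A x⟫_ℝ = ⟪x - A x, x⟫_ℝ - ⟪A x - A (A x), A x⟫_ℝ := by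
    rw [map_sub]
    have e1 : x - A x + (A x - A (A x)) = x - A (A x) := by abel
    rw [e1]
    simp only [inner_sub_left, inner_sub_right]
    have e2 : ⟪A (A x), x⟫_ℝ = ⟪A x, A x⟫_ℝ := hs _ _
    have e3 : ⟪x, A x⟫_ℝ = ⟪A x, x⟫_ℝ := (hs _ _).symm
    rw [e2, e3]
    ring
  linarith

theorem form_pow (k : ℕ) (x : H) :
    ⟪(A ^ k) x - A ((A ^ k) x), (A ^ k) x⟫_ℝ ≤ ⟪x - A x, x⟫_ℝ := by
  induction k with
  | zero => simp
  | succ k ih =>
    rw [pow_succ', Module.End.mul_apply]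
    exact (form_step hs hn _).trans ih

/-- Cauchy-Schwarz for the form of `1 - A`. -/
theorem form_cs (x y : H) :
    ⟪x - A x, y⟫_ℝ ≤ (⟪x - A x, x⟫_ℝ + ⟪y - A y, y⟫_ℝ) / 2 := by
  have h := form_nonneg hs hn (x - y)
  have h2 : ⟪x - y - A (x - y), x - y⟫_ℝ =
      ⟪x - A x, x⟫_ℝ + ⟪y - A y, y⟫_ℝ - 2 * ⟪x - A x, y⟫_ℝ := by
    rw [map_sub]
    simp only [inner_sub_left, inner_sub_right]
    have e1 : ⟪A y, x⟫_ℝ = ⟪A x, y⟫_ℝ := by rw [hs y x, real_inner_comm]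
    have e2 : ⟪y, x⟫_ℝ = ⟪x, y⟫_ℝ := real_inner_comm _ _
    rw [e1, e2]
    ring
  (clear * - h h2; linarith)

theorem one_sub_pow (m : ℕ) (x : H) :
    ⟪x - (A ^ m) x, x⟫_ℝ ≤ m * ⟪x - A x, x⟫_ℝ := by
  induction m with
  | zero => simp
  | succ m ih =>
    have e : x - (A ^ (m + 1)) x = (x - (A ^ m) x) + ((A ^ m) x - A ((A ^ m) x)) := by
      rw [pow_succ', Module.End.mul_apply]; abel
    rw [e, inner_add_left]
    have h1 := form_cs hs hn ((A ^ m) x) x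
    have h2 := form_pow hs hn m x
    push_cast
    linarith

end Form

theorem av_le {S : Set (H →L[ℂ] H)} (huni : ∀ a ∈ S, star a * a = 1) {ξ η : H} {ε C : ℝ}
    (hyp : ∀ a ∈ S, ‖a η - η‖ ^ 2 ≤ ε + C * ‖a ξ - ξ‖ ^ 2)
    {B : Module.End ℝ H} (hB : B ∈ Av S) :
    ‖B η - η‖ ^ 2 ≤ ε + 2 * C * ⟪ξ - B ξ, ξ⟫_ℝ := by
  have hconv : Convex ℝ {B : Module.End ℝ H | ‖B η - η‖ ^ 2 ≤ ε + 2 * C * ⟪ξ - B ξ, ξ⟫_ℝ} := by
    intro S hS S' hS' a b ha hb hab
    change ‖S η - η‖ ^ 2 ≤ ε + 2 * C * ⟪ξ - S ξ, ξ⟫_ℝ at hS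
    change ‖S' η - η‖ ^ 2 ≤ ε + 2 * C * ⟪ξ - S' ξ, ξ⟫_ℝ at hS'
    change ‖(a • S + b • S') η - η‖ ^ 2 ≤ ε + 2 * C * ⟪ξ - (a • S + b • S') ξ, ξ⟫_ℝ
    have e1 : (a • S + b • S') η - η = a • (S η - η) + b • (S' η - η) := by
      have : η = a • η + b • η := by rw [← add_smul, hab, one_smul]
      simp only [LinearMap.add_apply, LinearMap.smul_apply, smul_sub]
      nth_rewrite 3 [this]
      abel
    have e2 : ⟪ξ - (a • S + b • S') ξ, ξ⟫_ℝ =
        a * ⟪ξ - S ξ, ξ⟫_ℝ + b * ⟪ξ - S' ξ, ξ⟫_ℝ := by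
      simp only [LinearMap.add_apply, LinearMap.smul_apply, inner_sub_left, inner_add_left,
        inner_smul_left, conj_trivial]
      have : ⟪ξ, ξ⟫_ℝ = (a + b) * ⟪ξ, ξ⟫_ℝ := by rw [hab, one_mul]
      (clear * - this; linarith)
    have h1 : ‖a • (S η - η) + b • (S' η - η)‖ ^ 2 ≤ a * ‖S η - η‖ ^ 2 + b * ‖S' η - η‖ ^ 2 := by
      have h2 : ‖a • (S η - η) + b • (S' η - η)‖ ≤ a * ‖S η - η‖ + b * ‖S' η - η‖ := by
        refine (norm_add_le _ _).trans ?_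
        rw [norm_smul, norm_smul, Real.norm_of_nonneg ha, Real.norm_of_nonneg hb]
      have h3 : ‖a • (S η - η) + b • (S' η - η)‖ ^ 2 ≤ (a * ‖S η - η‖ + b * ‖S' η - η‖) ^ 2 :=
        pow_le_pow_left₀ (norm_nonneg _) h2 2
      refine h3.trans ?_
      have h4 : a = 1 - b := by (clear * - hab; linarith)
      subst h4
      (clear * - ha hb; nlinarith [mul_nonneg ha hb, sq_nonneg (‖S η - η‖ - ‖S' η - η‖),
        mul_nonneg (mul_nonneg ha hb) (sq_nonneg (‖S η - η‖ - ‖S' η - η‖))])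
    rw [e1, e2]
    have h5 : a * (ε + 2 * C * ⟪ξ - S ξ, ξ⟫_ℝ) + b * (ε + 2 * C * ⟪ξ - S' ξ, ξ⟫_ℝ) =
        ε + 2 * C * (a * ⟪ξ - S ξ, ξ⟫_ℝ + b * ⟪ξ - S' ξ, ξ⟫_ℝ) := by
      have : ε = (a + b) * ε := by rw [hab, one_mul]
      (clear * - this; linarith)
    rw [← h5]
    exact h1.trans (add_le_add (mul_le_mul_of_nonneg_left hS ha)
      (mul_le_mul_of_nonneg_left hS' hb))
  refine convexHull_min ?_ hconv hB
  rintro _ ⟨g, hg, rfl⟩
  change ‖g η - η‖ ^ 2 ≤ ε + 2 * C * ⟪ξ - g ξ, ξ⟫_ℝ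
  refine (hyp g hg).trans (le_of_eq ?_)
  rw [norm_sub_sq' (huni g hg) ξ, inner_sub_left, real_inner_self_eq_norm_sq]
  ring

/-- The averaged Lipschitz bound with a constant not depending on the weights. -/
theorem averaged {S : Set (H →L[ℂ] H)} (hone : 1 ∈ S) (hmul : ∀ a ∈ S, ∀ b ∈ S, a * b ∈ S)
    (hstar : ∀ a ∈ S, star a ∈ S) (huni : ∀ a ∈ S, star a * a = 1) {V : Set H}
    (hVc : Convex ℝ V) (hVi : ∀ a ∈ S, ∀ v ∈ V, a v ∈ V) {ξ η : H} (hη : η ∈ V)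
    {r C : ℝ} (hr : 0 < r) (hC : 0 < C)
    (hyp : ∀ a ∈ S, ‖a η - η‖ ^ 2 ≤ r ^ 2 / 2 + C * ‖a ξ - ξ‖ ^ 2)
    {k : ℕ} {a : Fin k → H →L[ℂ] H} {w : Fin k → ℝ} (ha : ∀ i, a i ∈ S)
    (hw : ∀ i, 0 ≤ w i) (h1 : ∑ i, w i = 1) {d : ℝ} (hd : 0 < d) :
    ∃ ζ ∈ V, ‖ζ - η‖ ≤ r ∧ ∑ i, w i * ‖a i ζ - ζ‖ ^ 2 ≤
      16 * ‖η‖ ^ 2 * C / r ^ 2 * (∑ i, w i * ‖a i ξ - ξ‖ ^ 2 + d) := by
  have huni1 : ∀ i, star (a i) * a i = 1 := fun i => huni _ (ha i)
  have huni2 : ∀ i, a i * star (a i) = 1 := fun i => by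
    have := huni _ (hstar _ (ha i))
    rwa [star_star] at this
  set E := ∑ i, w i * ‖a i ξ - ξ‖ ^ 2 with hE
  have hE0 : 0 ≤ E := Finset.sum_nonneg fun g _ => mul_nonneg (hw g) (by (clear * -; positivity))
  set τ := r ^ 2 / (2 * C) with hτ
  have hτ0 : 0 < τ := by (clear * - hr hC; positivity)
  have hsym := T_symm (a := a) (w := w)
  have hnorm := T_norm huni1 huni2 hw h1
  have hform : ∀ x : H, ∑ i, w i * ‖a i x - x‖ ^ 2 = 2 * ⟪x - T a w x, x⟫_ℝ := by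
    intro x
    rw [T_sum huni1 x h1, inner_sub_left, real_inner_self_eq_norm_sq]
  rcases le_or_gt (E + d) τ with hcase | hcase
  · -- long averages
    set n := ⌊τ / (E + d)⌋₊ with hn
    have hx1 : 1 ≤ τ / (E + d) := (one_le_div (by (clear * - hd hE0; linarith))).2 hcase
    have hn1 : 1 ≤ n := Nat.le_floor (by exact_mod_cast hx1)
    have hnle : (n : ℝ) ≤ τ / (E + d) := Nat.floor_le (by (clear * - hr hC hE0 hd; positivity))
    have hnlt : τ / (E + d) < n + 1 := Nat.lt_floor_add_one _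
    have hn0 : (0 : ℝ) < n := by exact_mod_cast hn1
    have hnge : τ / (E + d) ≤ 2 * n := by
      have : (1 : ℝ) ≤ n := by exact_mod_cast hn1
      (clear * - hnlt this; linarith)
    set ζ := (n : ℝ)⁻¹ • ∑ m ∈ range n, (T a w ^ m) η with hζ
    have hdist : ∀ m ∈ range n, ‖(T a w ^ m) η - η‖ ≤ r := by
      intro m hm
      have hm' : (m : ℝ) ≤ n := by exact_mod_cast (Finset.mem_range.1 hm).le
      have h2 := av_le huni hyp (T_pow_mem_av hone hmul hstar ha hw h1 m)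
      have h3 := one_sub_pow hsym hnorm m ξ
      have h4 := form_nonneg hsym hnorm ξ
      have h5 : 2 * ⟪ξ - T a w ξ, ξ⟫_ℝ = E := (hform ξ).symm
      have h6 : 2 * C * ⟪ξ - (T a w ^ m) ξ, ξ⟫_ℝ ≤ C * (n * E) := by
        have h7 : ⟪ξ - (T a w ^ m) ξ, ξ⟫_ℝ ≤ n * ⟪ξ - T a w ξ, ξ⟫_ℝ :=
          h3.trans (mul_le_mul_of_nonneg_right hm' h4)
        calc 2 * C * ⟪ξ - (T a w ^ m) ξ, ξ⟫_ℝ ≤ 2 * C * (n * ⟪ξ - T a w ξ, ξ⟫_ℝ) :=
              mul_le_mul_of_nonneg_left h7 (by positivity)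
          _ = C * (n * (2 * ⟪ξ - T a w ξ, ξ⟫_ℝ)) := by ring
          _ = C * (n * E) := by rw [h5]
      have h8 : C * (n * E) ≤ r ^ 2 / 2 := by
        have h9 : (n : ℝ) * E ≤ τ := by
          have := (le_div_iff₀ (by (clear * - hd hE0; linarith) : 0 < E + d)).1 hnle
          (clear * - this hd; nlinarith)
        calc C * (n * E) ≤ C * τ := mul_le_mul_of_nonneg_left h9 hC.le
          _ = r ^ 2 / 2 := by rw [hτ]; (clear * - hC hr; field_simp)
      have h10 : ‖(T a w ^ m) η - η‖ ^ 2 ≤ r ^ 2 := by (clear * - h2 h6 h8; linarith)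
      exact le_of_sq_le_sq h10 hr.le
    refine ⟨ζ, ?_, ?_, ?_⟩
    · have h2 := hVc.sum_mem (t := range n) (w := fun _ => (n : ℝ)⁻¹)
        (z := fun m => (T a w ^ m) η) (fun _ _ => by (clear * - hn1; positivity)) (by
          rw [Finset.sum_const, Finset.card_range, nsmul_eq_mul, mul_inv_cancel₀ hn0.ne'])
        (fun m _ => av_apply_mem hVc hVi (T_pow_mem_av hone hmul hstar ha hw h1 m) hη)
      rw [hζ, Finset.smul_sum]
      exact h2
    · have e : ζ - η = (n : ℝ)⁻¹ • ∑ m ∈ range n, ((T a w ^ m) η - η) := by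
        rw [Finset.sum_sub_distrib, smul_sub, ← hζ, Finset.sum_const, Finset.card_range,
          ← Nat.cast_smul_eq_nsmul ℝ, smul_smul, inv_mul_cancel₀ hn0.ne', one_smul]
      rw [e, norm_smul, norm_inv, Real.norm_of_nonneg hn0.le]
      have h2 : ‖∑ m ∈ range n, ((T a w ^ m) η - η)‖ ≤ n * r := by
        refine (norm_sum_le _ _).trans ((Finset.sum_le_sum hdist).trans ?_)
        simp
      calc (n : ℝ)⁻¹ * ‖∑ m ∈ range n, ((T a w ^ m) η - η)‖ ≤ (n : ℝ)⁻¹ * (n * r) :=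
            mul_le_mul_of_nonneg_left h2 (by (clear * - hn1; positivity))
        _ = r := by (clear * - hn1 hr; field_simp)
    · rw [hform ζ]
      have e : ζ - T a w ζ = (n : ℝ)⁻¹ • (η - (T a w ^ n) η) := by
        rw [hζ, map_smul, ← smul_sub, map_sum, ← Finset.sum_sub_distrib]
        congr 1
        have h3 := Finset.sum_range_sub' (fun m => (T a w ^ m) η) n
        simp only [pow_zero, Module.End.one_apply] at h3
        rw [← h3]
        refine Finset.sum_congr rfl fun m _ => ?_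
        rw [pow_succ', Module.End.mul_apply]
      have h2 : ‖ζ - T a w ζ‖ ≤ (n : ℝ)⁻¹ * (2 * ‖η‖) := by
        rw [e, norm_smul, norm_inv, Real.norm_of_nonneg hn0.le]
        refine mul_le_mul_of_nonneg_left ?_ (by (clear * - hn1; positivity))
        refine (norm_sub_le _ _).trans ?_
        have := pow_norm hsym hnorm n η
        (clear * - this; linarith)
      have h3 : ‖ζ‖ ≤ ‖η‖ := by
        rw [hζ, norm_smul, norm_inv, Real.norm_of_nonneg hn0.le]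
        have h4 : ‖∑ m ∈ range n, (T a w ^ m) η‖ ≤ n * ‖η‖ := by
          refine (norm_sum_le _ _).trans ((Finset.sum_le_sum fun m _ =>
            pow_norm hsym hnorm m η).trans ?_)
          simp
        calc (n : ℝ)⁻¹ * ‖∑ m ∈ range n, (T a w ^ m) η‖ ≤ (n : ℝ)⁻¹ * (n * ‖η‖) :=
              mul_le_mul_of_nonneg_left h4 (by (clear * - hn1; positivity))
          _ = ‖η‖ := by (clear * - hn1; field_simp)
      have h5 : ⟪ζ - T a w ζ, ζ⟫_ℝ ≤ (n : ℝ)⁻¹ * (2 * ‖η‖) * ‖η‖ :=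
        (real_inner_le_norm _ _).trans (mul_le_mul h2 h3 (norm_nonneg _) (by (clear * - hn1; positivity)))
      have h6 : (n : ℝ)⁻¹ ≤ 2 * (E + d) / τ := by
        rw [inv_le_comm₀ hn0 (by (clear * - hE0 hd hr hC; positivity))]
        rw [inv_div, div_le_iff₀ (by (clear * - hE0 hd; positivity))]
        have := (div_le_iff₀ (by (clear * - hd hE0; linarith) : 0 < E + d)).1 hnge
        (clear * - this; linarith)
      calc 2 * ⟪ζ - T a w ζ, ζ⟫_ℝ ≤ 2 * ((n : ℝ)⁻¹ * (2 * ‖η‖) * ‖η‖) := by (clear * - h5; linarith)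
        _ = 4 * ‖η‖ ^ 2 * (n : ℝ)⁻¹ := by ring
        _ ≤ 4 * ‖η‖ ^ 2 * (2 * (E + d) / τ) := mul_le_mul_of_nonneg_left h6 (by (clear * -; positivity))
        _ = 16 * ‖η‖ ^ 2 * C / r ^ 2 * (E + d) := by rw [hτ]; field_simp; ring
  · refine ⟨η, hη, by simpa using hr.le, ?_⟩
    have h2 : ∑ i, w i * ‖a i η - η‖ ^ 2 ≤ 4 * ‖η‖ ^ 2 := by
      have h3 : ∀ i ∈ (Finset.univ : Finset (Fin k)),
          w i * ‖a i η - η‖ ^ 2 ≤ w i * (4 * ‖η‖ ^ 2) := by
        intro i _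
        refine mul_le_mul_of_nonneg_left ?_ (hw i)
        have h4 : ‖a i η - η‖ ≤ 2 * ‖η‖ := by
          refine (norm_sub_le _ _).trans ?_
          rw [norm_uni (huni1 i)]; (clear * -; linarith)
        (clear * - h4; nlinarith [norm_nonneg (a i η - η), norm_nonneg η])
      refine (Finset.sum_le_sum h3).trans ?_
      rw [← Finset.sum_mul, h1, one_mul]
    refine h2.trans ?_
    have h5 : 1 ≤ (E + d) / τ := (one_le_div hτ0).2 hcase.le
    have h6 : 16 * ‖η‖ ^ 2 * C / r ^ 2 * (E + d) = 8 * ‖η‖ ^ 2 * ((E + d) / τ) := by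
      rw [hτ]; field_simp; ring
    rw [h6]
    (clear * - h5; nlinarith [sq_nonneg ‖η‖])

end Energy

/-- Energy estimate for finitely supported measures on a set `S` of unitaries. -/
theorem energy {S : Set (H →L[ℂ] H)} (hone : 1 ∈ S) (hmul : ∀ a ∈ S, ∀ b ∈ S, a * b ∈ S)
    (hstar : ∀ a ∈ S, star a ∈ S) (huni : ∀ a ∈ S, star a * a = 1) {V : Set H}
    (hVc : Convex ℝ V) (hVi : ∀ a ∈ S, ∀ v ∈ V, a v ∈ V) {ξ η : H} (hη : η ∈ V)
    (h : ∀ ε : ℝ, 0 < ε → ∃ C : ℝ, ∀ a ∈ S, ‖a η - η‖ ^ 2 ≤ ε + C * ‖a ξ - ξ‖ ^ 2)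
    {r : ℝ} (hr : 0 < r) :
    ∃ K : ℝ, 0 ≤ K ∧ ∀ (n : ℕ) (a : Fin n → H →L[ℂ] H), (∀ i, a i ∈ S) →
      ∀ t : Fin n → ℝ, (∀ i, 0 ≤ t i) → ∀ δ : ℝ, 0 < δ →
        ∃ ζ ∈ V, ‖ζ - η‖ ≤ r ∧
          ∑ i, t i * ‖a i ζ - ζ‖ ^ 2 ≤ ∑ i, t i * (K * ‖a i ξ - ξ‖ ^ 2 + δ) := by
  obtain ⟨C₀, hC₀⟩ := h (r ^ 2 / 2) (by positivity)
  set C := max C₀ 1 with hCdef
  have hC : 0 < C := lt_of_lt_of_le one_pos (le_max_right _ _)
  have hyp' : ∀ a ∈ S, ‖a η - η‖ ^ 2 ≤ r ^ 2 / 2 + C * ‖a ξ - ξ‖ ^ 2 := fun a ha =>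
    (hC₀ a ha).trans (by
      have := mul_le_mul_of_nonneg_right (le_max_left C₀ 1) (sq_nonneg ‖a ξ - ξ‖)
      linarith)
  set K := 16 * ‖η‖ ^ 2 * C / r ^ 2 with hK
  have hK0 : 0 ≤ K := by (clear * - hr; positivity)
  refine ⟨K, hK0, ?_⟩
  intro n a ha t ht δ hδ
  have hW0 : 0 ≤ ∑ i, t i := Finset.sum_nonneg fun i _ => ht i
  rcases eq_or_lt_of_le hW0 with h0 | hW
  · have h1 : ∀ i, t i = 0 := fun i =>
      (Finset.sum_eq_zero_iff_of_nonneg (fun i _ => ht i)).1 h0.symm i (Finset.mem_univ _)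
    exact ⟨η, hη, by simpa using hr.le, by simp [h1]⟩
  set W := ∑ i, t i with hWdef
  have hw1 : ∑ i, t i / W = 1 := by
    rw [← Finset.sum_div, ← hWdef, div_self hW.ne']
  obtain ⟨ζ, hζV, hζ1, hζ2⟩ := Energy.averaged hone hmul hstar huni hVc hVi hη hr hC hyp'
    (a := a) (w := fun i => t i / W) ha (fun i => div_nonneg (ht i) hW.le) hw1
    (d := δ / (K + 1)) (by (clear * - hδ hr; positivity))
  refine ⟨ζ, hζV, hζ1, ?_⟩
  rw [← hK] at hζ2
  have hs : ∀ F : Fin n → ℝ, ∑ i, t i * F i = W * ∑ i, t i / W * F i := by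
    intro F
    rw [Finset.mul_sum]
    refine Finset.sum_congr rfl fun i _ => ?_
    (clear * - hW; field_simp)
  have e2 : ∑ i, t i * (K * ‖a i ξ - ξ‖ ^ 2 + δ) =
      W * (K * ∑ i, t i / W * ‖a i ξ - ξ‖ ^ 2 + δ) := by
    rw [hs, Finset.mul_sum (a := K)]
    congr 1
    have : δ = ∑ i, t i / W * δ := by rw [← Finset.sum_mul, hw1, one_mul]
    conv_rhs => rw [this]
    rw [← Finset.sum_add_distrib]
    refine Finset.sum_congr rfl fun i _ => ?_
    ring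
  rw [hs, e2]
  refine mul_le_mul_of_nonneg_left (hζ2.trans ?_) hW.le
  have h3 : K * (δ / (K + 1)) ≤ δ := by
    have h4 : K * (δ / (K + 1)) = δ * (K / (K + 1)) := by ring
    rw [h4]
    have h5 : K / (K + 1) ≤ 1 := (div_le_one (by (clear * - hK0; linarith))).2 (by (clear * -; linarith))
    (clear * - hδ h5; nlinarith)
  rw [mul_add]
  (clear * - h3; linarith)

end Pool.Agent.Helper78.BC

end

end

section

section

open scoped InnerProductSpace

open ContinuousLinearMap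

namespace Pool.Agent.Helper78.BC

variable {H : Type*} [NormedAddCommGroup H] [InnerProductSpace ℂ H] [CompleteSpace H]

/-- A vector `η` that moves uniformly little when `ξ` moves little can be approximated by vectors
that move at most proportionally to `ξ`. -/
theorem lipschitz {S : Set (H →L[ℂ] H)} (hone : 1 ∈ S) (hmul : ∀ a ∈ S, ∀ b ∈ S, a * b ∈ S)
    (hstar : ∀ a ∈ S, star a ∈ S) (huni : ∀ a ∈ S, star a * a = 1) {V : Set H}
    (hVc : Convex ℝ V) (hVcl : IsClosed V) (hVi : ∀ a ∈ S, ∀ v ∈ V, a v ∈ V) {ξ η : H}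
    (hη : η ∈ V)
    (h : ∀ ε : ℝ, 0 < ε → ∃ C : ℝ, ∀ a ∈ S, ‖a η - η‖ ^ 2 ≤ ε + C * ‖a ξ - ξ‖ ^ 2)
    {r : ℝ} (hr : 0 < r) :
    ∃ ζ ∈ V, ‖ζ - η‖ ≤ r ∧ ∃ K : ℝ, 0 ≤ K ∧ ∀ a ∈ S, ‖a ζ - ζ‖ ≤ K * ‖a ξ - ξ‖ := by
  obtain ⟨K, hK, hen⟩ := energy hone hmul hstar huni hVc hVi hη h hr
  set W : Set H := V ∩ Metric.closedBall η r with hWdef
  have hWc : Convex ℝ W := hVc.inter (convex_closedBall η r)
  have hηW : η ∈ W := ⟨hη, Metric.mem_closedBall_self hr.le⟩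
  -- finitely many elements at once
  have hfin : ∀ (n : ℕ) (a : Fin n → H →L[ℂ] H), (∀ i, a i ∈ S) → ∀ δ : ℝ, 0 < δ →
      ∃ ζ ∈ W, ∀ i, ‖a i ζ - ζ‖ ^ 2 ≤ K * ‖a i ξ - ξ‖ ^ 2 + δ := by
    intro n a ha
    refine minimax hWc ⟨η, hηW⟩ (fun i ζ => ‖a i ζ - ζ‖ ^ 2)
      (fun i => (convexOn_move (a i)).subset (Set.subset_univ _) hWc)
      (fun i => K * ‖a i ξ - ξ‖ ^ 2) ?_
    intro t ht δ hδ
    obtain ⟨ζ, hζV, hζr, hζ⟩ := hen n a ha t ht δ hδ
    exact ⟨ζ, ⟨hζV, by rw [Metric.mem_closedBall, dist_eq_norm]; exact hζr⟩, hζ⟩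
  -- all elements at once
  let F : S × ℕ → Set H := fun i =>
    W ∩ {ζ | ‖i.1.1 ζ - ζ‖ ^ 2 ≤ K * ‖i.1.1 ξ - ξ‖ ^ 2 + 1 / ((i.2 : ℝ) + 1)}
  have hWcl : IsClosed W := hVcl.inter Metric.isClosed_closedBall
  have hF : (⋂ i, F i).Nonempty := by
    let _ : InnerProductSpace ℝ H := InnerProductSpace.rclikeToReal ℂ H
    refine fip F ?_ ?_ ?_ ?_
    · intro i
      refine hWc.inter ?_
      have := (convexOn_move (i.1.1)).convex_le
        (K * ‖i.1.1 ξ - ξ‖ ^ 2 + 1 / ((i.2 : ℝ) + 1))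
      simpa using this
    · intro i
      refine hWcl.inter ?_
      exact isClosed_le (by fun_prop) continuous_const
    · intro i
      exact (Metric.isBounded_closedBall (x := η) (r := r)).subset
        (Set.inter_subset_left.trans Set.inter_subset_right)
    · intro s
      set M : ℕ := s.sup (fun i => i.2) with hM
      obtain ⟨ζ, hζW, hζ⟩ := hfin s.card (fun j => (s.equivFin.symm j).1.1.1)
        (fun j => (s.equivFin.symm j).1.1.2) (1 / ((M : ℝ) + 1)) (by (clear * -; positivity))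
      refine ⟨ζ, ?_⟩
      rw [Set.mem_iInter₂]
      intro i hi
      refine ⟨hζW, ?_⟩
      have h1 := hζ (s.equivFin ⟨i, hi⟩)
      simp only [Equiv.symm_apply_apply] at h1
      refine h1.trans (add_le_add le_rfl ?_)
      have h2 : i.2 ≤ M := Finset.le_sup (f := fun i : S × ℕ => i.2) hi
      have h3 : (i.2 : ℝ) ≤ M := by exact_mod_cast h2
      exact one_div_le_one_div_of_le (by (clear * -; positivity)) (by (clear * - h3; linarith))
  obtain ⟨ζ, hζ⟩ := hF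
  rw [Set.mem_iInter] at hζ
  have h0 := (hζ (⟨1, hone⟩, 0)).1
  refine ⟨ζ, h0.1, by simpa [dist_eq_norm] using h0.2, Real.sqrt K, Real.sqrt_nonneg K, ?_⟩
  intro a ha
  have h1 : ‖a ζ - ζ‖ ^ 2 ≤ K * ‖a ξ - ξ‖ ^ 2 := by
    refine le_of_forall_pos_le_add fun ε hε => ?_
    obtain ⟨m, hm⟩ := exists_nat_one_div_lt hε
    have h2 : ‖a ζ - ζ‖ ^ 2 ≤ K * ‖a ξ - ξ‖ ^ 2 + 1 / ((m : ℝ) + 1) := (hζ (⟨a, ha⟩, m)).2
    (clear * - hm h2; linarith)
  have h2 : 0 ≤ Real.sqrt K * ‖a ξ - ξ‖ := by (clear * -; positivity)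
  refine abs_le_of_sq_le_sq' ?_ h2 |>.2
  rw [mul_pow, Real.sq_sqrt hK]
  exact h1

end Pool.Agent.Helper78.BC

end

end
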