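import Pool.Agent.Helper23.FB.Inst
import Pool.Agent.Helper23.RBFDefs

/-!
Parts of Helper23.FA.L00_16, Helper23.FA.L00_11, Helper23.FA.L00_07, Helper23.FA.L00_09
-/

attribute [local instance 5000]
  Pool.Agent.Helper23.FB.Inst.rCharZero Pool.Agent.Helper23.FB.Inst.rALM
  Pool.Agent.Helper23.FB.Inst.rARM Pool.Agent.Helper23.FB.Inst.rALSM
  Pool.Agent.Helper23.FB.Inst.rARSM Pool.Agent.Helper23.FB.Inst.rARRLE
  Pool.Agent.Helper23.FB.Inst.rALRLE Pool.Agent.Helper23.FB.Inst.rARRLT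
  Pool.Agent.Helper23.FB.Inst.rALRLT Pool.Agent.Helper23.FB.Inst.rPMRLT
  Pool.Agent.Helper23.FB.Inst.rMPRLT Pool.Agent.Helper23.FB.Inst.rPMM
  Pool.Agent.Helper23.FB.Inst.rMPM Pool.Agent.Helper23.FB.Inst.rPMSM
  Pool.Agent.Helper23.FB.Inst.rMPSM Pool.Agent.Helper23.FB.Inst.rEAOL
  Pool.Agent.Helper23.FB.Inst.rIOR Pool.Agent.Helper23.FB.Inst.rISOR
  Pool.Agent.Helper23.FB.Inst.rFS Pool.Agent.Helper23.FB.Inst.rcCharZero
  Pool.Agent.Helper23.FB.Inst.rNZD Pool.Agent.Helper23.FB.Inst.rcNZD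
  Pool.Agent.Helper23.FB.Inst.bSemiring Pool.Agent.Helper23.FB.Inst.bStar
  Pool.Agent.Helper23.FB.Inst.bAlg Pool.Agent.Helper23.FB.Inst.bSub
  Pool.Agent.Helper23.FB.Inst.bMul Pool.Agent.Helper23.FB.Inst.bAdd
  Pool.Agent.Helper23.FB.Inst.iRing Pool.Agent.Helper23.FB.Inst.iSemiring
  Pool.Agent.Helper23.FB.Inst.iAlgC Pool.Agent.Helper23.FB.Inst.iSMulC
  Pool.Agent.Helper23.FB.Inst.iModC Pool.Agent.Helper23.FB.Inst.iAlgR
  Pool.Agent.Helper23.FB.Inst.iSMulR Pool.Agent.Helper23.FB.Inst.iModR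
  Pool.Agent.Helper23.FB.Inst.iMonoid Pool.Agent.Helper23.FB.Inst.iSemigroup
  Pool.Agent.Helper23.FB.Inst.iMulOneClass Pool.Agent.Helper23.FB.Inst.iMul
  Pool.Agent.Helper23.FB.Inst.iAdd Pool.Agent.Helper23.FB.Inst.iSub
  Pool.Agent.Helper23.FB.Inst.iNeg Pool.Agent.Helper23.FB.Inst.iAddCommMonoid
  Pool.Agent.Helper23.FB.Inst.iAddCommGroup Pool.Agent.Helper23.FB.Inst.iAddGroup
  Pool.Agent.Helper23.FB.Inst.iAddMonoid Pool.Agent.Helper23.FB.Inst.iSMulZeroC
  Pool.Agent.Helper23.FB.Inst.iMulActC Pool.Agent.Helper23.FB.Inst.iDSMulC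
  Pool.Agent.Helper23.FB.Inst.iDSMulR Pool.Agent.Helper23.FB.Inst.iSNAG
  Pool.Agent.Helper23.FB.Inst.iSNACG Pool.Agent.Helper23.FB.Inst.iNorm
  Pool.Agent.Helper23.FB.Inst.iNSC' Pool.Agent.Helper23.FB.Inst.iNSR'
  Pool.Agent.Helper23.FB.Inst.iTop Pool.Agent.Helper23.FB.Inst.iT2 Pool.Agent.Helper23.FB.Inst.iTR
  Pool.Agent.Helper23.FB.Inst.iSCC Pool.Agent.Helper23.FB.Inst.iIST
  Pool.Agent.Helper23.FB.Inst.iSCCR Pool.Agent.Helper23.FB.Inst.iISTR
  Pool.Agent.Helper23.FB.Inst.iZHC Pool.Agent.Helper23.FB.Inst.iAHC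
  Pool.Agent.Helper23.FB.Inst.iAMHC Pool.Agent.Helper23.FB.Inst.iMAHC
  Pool.Agent.Helper23.FB.Inst.lTop Pool.Agent.Helper23.FB.Inst.lUnif
  Pool.Agent.Helper23.FB.Inst.lACM Pool.Agent.Helper23.FB.Inst.lACG
  Pool.Agent.Helper23.FB.Inst.lSNAG Pool.Agent.Helper23.FB.Inst.lSNACG
  Pool.Agent.Helper23.FB.Inst.lNACG Pool.Agent.Helper23.FB.Inst.lNorm
  Pool.Agent.Helper23.FB.Inst.lIPS Pool.Agent.Helper23.FB.Inst.lMod
  Pool.Agent.Helper23.FB.Inst.lSMul Pool.Agent.Helper23.FB.Inst.lT2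
  Pool.Agent.Helper23.FB.Inst.iStar Pool.Agent.Helper23.FB.Inst.iStarMul
  Pool.Agent.Helper23.FB.Inst.iStarAddMonoid Pool.Agent.Helper23.FB.Inst.iStarRing
  Pool.Agent.Helper23.FB.Inst.iNSC Pool.Agent.Helper23.FB.Inst.iSOR
  Pool.Agent.Helper23.FB.Inst.iALM Pool.Agent.Helper23.FB.Inst.iARM
  Pool.Agent.Helper23.FB.Inst.iCFC Pool.Agent.Helper23.FB.Inst.iNCFC
  Pool.Agent.Helper23.FB.Inst.iStarModR Pool.Agent.Helper23.FB.Inst.iStarModC
  Pool.Agent.Helper23.FB.Inst.eStar Pool.Agent.Helper23.FB.Inst.eAdd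
  Pool.Agent.Helper23.FB.Inst.eMul Pool.Agent.Helper23.FB.Inst.eOne
  Pool.Agent.Helper23.FB.Inst.eZero Pool.Agent.Helper23.FB.Inst.eMulAction
  Pool.Agent.Helper23.FB.Inst.eAMHC2 Pool.Agent.Helper23.FB.Inst.eZHC2
  Pool.Agent.Helper23.FB.Inst.lAMHC

namespace Pool.Agent.Helper23
end Pool.Agent.Helper23
namespace Pool.Agent.Helper23.RBF
end Pool.Agent.Helper23.RBF

section

section

open scoped InnerProductSpace Topology ENNReal BoundedContinuousFunction

open ContinuousLinearMap Filter MeasureTheory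

namespace Pool.Agent.Helper23.ED

open Pool.Agent.Helper23 Pool.Agent.Helper23.RBF

universe u

variable {H : Type*} [NormedAddCommGroup H] [InnerProductSpace ℂ H] [CompleteSpace H]

variable {K : Type*} [NormedAddCommGroup K] [InnerProductSpace ℂ K] [CompleteSpace K]

theorem exists_isom_of_inj (A : H →L[ℂ] K) (hA : ∀ v, A v = 0 → v = 0) :
    ∃ I : H →L[ℂ] K, (∀ x y, ⟪I x, I y⟫_ℂ = ⟪x, y⟫_ℂ) ∧
      ∀ (a : H →L[ℂ] H) (b : K →L[ℂ] K), (∀ x, A (a x) = b (A x)) →
        (∀ x, A ((star a) x) = (star b) (A x)) → ∀ x, I (a x) = b (I x) := by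
  set B : H →L[ℂ] H := (adjoint A).comp A with hB
  have hB0 : 0 ≤ B := by
    rw [ContinuousLinearMap.nonneg_iff_isPositive]
    exact ContinuousLinearMap.isPositive_adjoint_comp_self A
  set P : H →L[ℂ] H := CFC.sqrt B with hP
  have hP0 : 0 ≤ P := CFC.sqrt_nonneg B
  have hPP : P * P = B := CFC.sqrt_mul_sqrt_self B hB0
  have hPs : star P = P := hP0.star_eq
  have hPi : ∀ x y, ⟪P x, y⟫_ℂ = ⟪x, P y⟫_ℂ := by
    intro x y
    have h := adjoint_inner_left P y x
    rw [← star_eq_adjoint, hPs] at h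
    exact h
  have hin : ∀ x y, ⟪P x, P y⟫_ℂ = ⟪A x, A y⟫_ℂ := by
    intro x y
    have h1 : P (P y) = adjoint A (A y) := congrArg (fun T : H →L[ℂ] H => T y) hPP
    rw [hPi, h1, adjoint_inner_right]
  have hnorm : ∀ x, ‖P x‖ = ‖A x‖ := by
    intro x
    have h1 := hin x x
    rw [inner_self_eq_norm_sq_to_K, inner_self_eq_norm_sq_to_K] at h1
    have h4 : ‖P x‖ ^ 2 = ‖A x‖ ^ 2 := by exact_mod_cast h1
    exact (sq_eq_sq₀ (norm_nonneg _) (norm_nonneg _)).1 h4
  have hPinj : ∀ v, P v = 0 → v = 0 := by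
    intro v hv
    apply hA
    have := hnorm v
    rw [hv, norm_zero] at this
    exact norm_eq_zero.1 this.symm
  -- dense range
  have hd : DenseRange P := by
    have h1 : (LinearMap.range (P : H →ₗ[ℂ] H)).topologicalClosure = ⊤ := by
      rw [Submodule.topologicalClosure_eq_top_iff, Submodule.eq_bot_iff]
      intro y hy
      rw [Submodule.mem_orthogonal] at hy
      apply hPinj
      have h2 : ⟪P y, P y⟫_ℂ = 0 := by
        rw [← hPi]
        exact hy (P (P y)) ⟨P y, rfl⟩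
      exact inner_self_eq_zero.1 h2
    have h2 := Submodule.dense_iff_topologicalClosure_eq_top.2 h1
    exact h2
  have hd' : DenseRange (P : H →ₗ[ℂ] H) := hd
  have hC : ∀ x, ‖(A : H →ₗ[ℂ] K) x‖ ≤ 1 * ‖(P : H →ₗ[ℂ] H) x‖ := by
    intro x
    rw [one_mul]
    exact (hnorm x).ge
  refine ⟨(A : H →ₗ[ℂ] K).extendOfNorm (P : H →ₗ[ℂ] H), ?_, ?_⟩
  · set I := (A : H →ₗ[ℂ] K).extendOfNorm (P : H →ₗ[ℂ] H) with hI
    have hIP : ∀ x, I (P x) = A x := fun x => LinearMap.extendOfNorm_eq hd' ⟨1, hC⟩ x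
    intro x y
    have h1 : ∀ x y, ⟪I (P x), I y⟫_ℂ = ⟪P x, y⟫_ℂ := by
      intro x y
      refine hd.induction_on (p := fun y => ⟪I (P x), I y⟫_ℂ = ⟪P x, y⟫_ℂ) y ?_ ?_
      · exact isClosed_eq (by fun_prop) (by fun_prop)
      · intro z
        rw [hIP, hIP, hin]
    refine hd.induction_on (p := fun x => ⟪I x, I y⟫_ℂ = ⟪x, y⟫_ℂ) x ?_ ?_
    · exact isClosed_eq (by fun_prop) (by fun_prop)
    · intro z
      exact h1 z y
  · set I := (A : H →ₗ[ℂ] K).extendOfNorm (P : H →ₗ[ℂ] H) with hI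
    have hIP : ∀ x, I (P x) = A x := fun x => LinearMap.extendOfNorm_eq hd' ⟨1, hC⟩ x
    intro a b hab hab' x
    have hc : Commute B a := by
      change B * a = a * B
      ext v
      change (adjoint A) (A (a v)) = a ((adjoint A) (A v))
      refine ext_inner_left ℂ (fun y => ?_)
      rw [adjoint_inner_right, hab, ← adjoint_inner_left a, adjoint_inner_right,
        ← star_eq_adjoint a, hab', star_eq_adjoint, adjoint_inner_left]
    have hc' : Commute P a := Commute.cfcₙ_nnreal hc _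
    have hPa : ∀ v, P (a v) = a (P v) := fun v => congrArg (fun T : H →L[ℂ] H => T v) hc'.eq
    refine hd.induction_on (p := fun x => I (a x) = b (I x)) x ?_ ?_
    · exact isClosed_eq (by fun_prop) (by fun_prop)
    · intro z
      rw [← hPa, hIP, hIP, hab]

end Pool.Agent.Helper23.ED

end

end

section

section

open scoped InnerProductSpace Topology BoundedContinuousFunction

open ContinuousLinearMap Filter MeasureTheory

namespace Pool.Agent.Helper43.TTF

open Pool.Agent.Helper23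

variable {H : Type*} [NormedAddCommGroup H] [InnerProductSpace ℂ H] [CompleteSpace H]

lemma two_bcf (ρ : ℝ) : (2 : ℝ →ᵇ ℂ) ρ = 2 := rfl

end Pool.Agent.Helper43.TTF

end

end

section

section

open scoped InnerProductSpace Topology BoundedContinuousFunction CompactlySupported

open ContinuousLinearMap Filter MeasureTheory

namespace Pool.Agent.Helper88.CS

open Pool.Agent.Helper23

variable {H : Type*} [NormedAddCommGroup H] [InnerProductSpace ℂ H] [CompleteSpace H]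

variable {A : VonNeumannAlgebra H} {J : H →L[ℝ] H} {κ : H}

namespace Trick1Aux

section two

variable {X Y : H →L[ℂ] H} (hX : star X = X) (hY : star Y = Y) (hXY : X * Y = Y * X)

include hX hY hXY

lemma normal : IsStarNormal (X + Complex.I • Y) := by
  refine ⟨?_⟩
  have h1 : star (X + Complex.I • Y) = X - Complex.I • Y := by
    rw [star_add, star_smul, hX, hY]
    simp [sub_eq_add_neg]
  rw [h1, commute_iff_eq]
  simp only [sub_mul, mul_add, mul_sub, add_mul, smul_mul_assoc, mul_smul_comm, hXY, smul_add,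
    smul_sub]
  abel

lemma X_eq : cfc (fun z : ℂ => ((z.re : ℝ) : ℂ)) (X + Complex.I • Y) = X := by
  have hN := normal hX hY hXY
  have h1 : star (X + Complex.I • Y) = X - Complex.I • Y := by
    rw [star_add, star_smul, hX, hY]
    simp [sub_eq_add_neg]
  have h2 : (fun z : ℂ => ((z.re : ℝ) : ℂ)) = fun z : ℂ => (1 / 2 : ℂ) * (z + star z) := by
    funext z
    rw [Complex.re_eq_add_conj]
    simp only [Complex.star_def]
    ring
  have hN' : IsStarNormal (X + Complex.I • Y) := hN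
  rw [h2, cfc_const_mul (1 / 2 : ℂ) (fun z : ℂ => z + star z) (X + Complex.I • Y) (by fun_prop),
    cfc_add (a := X + Complex.I • Y) (fun z : ℂ => z) (fun z : ℂ => star z) (by fun_prop)
      (by fun_prop), cfc_id' ℂ (X + Complex.I • Y),
    cfc_star_id (R := ℂ) (a := X + Complex.I • Y) (ha := hN), h1]
  rw [show X + Complex.I • Y + (X - Complex.I • Y) = (2 : ℂ) • X by rw [two_smul]; abel, smul_smul]
  norm_num

lemma Y_eq : cfc (fun z : ℂ => ((z.im : ℝ) : ℂ)) (X + Complex.I • Y) = Y := by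
  have hN := normal hX hY hXY
  have h1 : star (X + Complex.I • Y) = X - Complex.I • Y := by
    rw [star_add, star_smul, hX, hY]
    simp [sub_eq_add_neg]
  have h2 : (fun z : ℂ => ((z.im : ℝ) : ℂ)) = fun z : ℂ => (-Complex.I / 2 : ℂ) * (z - star z) := by
    funext z
    rw [Complex.im_eq_sub_conj]
    simp only [Complex.star_def]
    field_simp
    ring_nf
    rw [Complex.I_sq]
    ring
  rw [h2, cfc_const_mul (-Complex.I / 2 : ℂ) (fun z : ℂ => z - star z) (X + Complex.I • Y)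
      (by fun_prop),
    cfc_sub (a := X + Complex.I • Y) (fun z : ℂ => z) (fun z : ℂ => star z) (by fun_prop)
      (by fun_prop), cfc_id' ℂ (X + Complex.I • Y),
    cfc_star_id (R := ℂ) (a := X + Complex.I • Y) (ha := hN), h1]
  rw [show X + Complex.I • Y - (X - Complex.I • Y) = (2 : ℂ) • Complex.I • Y by
    rw [two_smul]; abel, smul_smul, smul_smul]
  rw [show (-Complex.I / 2 * 2 * Complex.I : ℂ) = 1 by
    rw [show (-Complex.I / 2 * 2 * Complex.I : ℂ) = -(Complex.I * Complex.I) by ring,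
      Complex.I_mul_I]; ring, one_smul]

lemma cfc_X {g : ℝ → ℝ} (hg : Continuous g) :
    cfc (fun z : ℂ => ((g z.re : ℝ) : ℂ)) (X + Complex.I • Y) = cfc g X := by
  have hN := normal hX hY hXY
  have hsX : IsSelfAdjoint X := hX
  rw [cfc_real_eq_complex g hsX]
  conv_rhs => rw [← X_eq hX hY hXY]
  rw [← cfc_comp' (fun x : ℂ => ((g x.re : ℝ) : ℂ)) (fun z : ℂ => ((z.re : ℝ) : ℂ)) _
    (by fun_prop) (by fun_prop)]
  simp

lemma cfc_Y {g : ℝ → ℝ} (hg : Continuous g) :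
    cfc (fun z : ℂ => ((g z.im : ℝ) : ℂ)) (X + Complex.I • Y) = cfc g Y := by
  have hN := normal hX hY hXY
  have hsY : IsSelfAdjoint Y := hY
  rw [cfc_real_eq_complex g hsY]
  conv_rhs => rw [← Y_eq hX hY hXY]
  rw [← cfc_comp' (fun x : ℂ => ((g x.re : ℝ) : ℂ)) (fun z : ℂ => ((z.im : ℝ) : ℂ)) _
    (by fun_prop) (by fun_prop)]
  simp

end two

end Trick1Aux

end Pool.Agent.Helper88.CS

end

end

section

section

open scoped InnerProductSpace Topology ENNReal

open ContinuousLinearMap Filter MeasureTheory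

set_option linter.unusedSectionVars false

set_option linter.unusedVariables false

namespace Pool.Agent.Helper23

variable {H : Type*} [NormedAddCommGroup H] [InnerProductSpace ℂ H] [CompleteSpace H]

variable {M N : VonNeumannAlgebra H} {ξ : H} {E : (H →L[ℂ] H) → (H →L[ℂ] H)}

section transport

variable {K : Type*} [NormedAddCommGroup K] [InnerProductSpace ℂ K] [CompleteSpace K]

lemma conj_nonneg (W : H ≃ₗᵢ[ℂ] K) {x : H →L[ℂ] H} (hx : 0 ≤ x) : 0 ≤ W.conjStarAlgEquiv x :=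
  map_nonneg W.conjStarAlgEquiv hx

lemma conj_le (W : H ≃ₗᵢ[ℂ] K) {x y : H →L[ℂ] H} (hx : x ≤ y) :
    W.conjStarAlgEquiv x ≤ W.conjStarAlgEquiv y := by
  rw [← sub_nonneg, ← map_sub]
  exact conj_nonneg W (sub_nonneg.2 hx)

lemma conj_symm_nonneg (W : H ≃ₗᵢ[ℂ] K) {x : K →L[ℂ] K} (hx : 0 ≤ x) :
    0 ≤ W.conjStarAlgEquiv.symm x :=
  map_nonneg W.conjStarAlgEquiv.symm hx

lemma inner_conj (W : H ≃ₗᵢ[ℂ] K) (x : H →L[ℂ] H) (η : K) :
    ⟪η, W.conjStarAlgEquiv x η⟫_ℂ = ⟪W.symm η, x (W.symm η)⟫_ℂ := by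
  rw [LinearIsometryEquiv.conjStarAlgEquiv_apply_apply]
  have := W.inner_map_map (W.symm η) (x (W.symm η))
  rw [W.apply_symm_apply] at this
  exact this

open RBF

lemma transport_scaling {A : VonNeumannAlgebra H} {A' : VonNeumannAlgebra K} (W : H ≃ₗᵢ[ℂ] K)
    (hA : ∀ x, x ∈ A ↔ W.conjStarAlgEquiv x ∈ A') (ψ : (K →L[ℂ] K) → ℝ≥0∞) (l : ℝ)
    (u : H →L[ℂ] H) :
    ScalingUnitary A (fun x => ψ (W.conjStarAlgEquiv x)) l u ↔
      ScalingUnitary A' ψ l (W.conjStarAlgEquiv u) := by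
  have hinj : Function.Injective ⇑W.conjStarAlgEquiv := EquivLike.injective _
  have hone : W.conjStarAlgEquiv (1 : H →L[ℂ] H) = 1 := map_one _
  constructor
  · rintro ⟨h1, h2, h3, h4⟩
    refine ⟨(hA u).1 h1, ?_, ?_, fun X hX hX0 => ?_⟩
    · rw [← map_star, ← map_mul, h2, hone]
    · rw [← map_star, ← map_mul, h3, hone]
    · have e1 : W.conjStarAlgEquiv (W.conjStarAlgEquiv.symm X) = X :=
        W.conjStarAlgEquiv.apply_symm_apply X
      have h5 := h4 (W.conjStarAlgEquiv.symm X) ((hA _).2 (by rw [e1]; exact hX))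
        (conj_symm_nonneg W hX0)
      change ψ (W.conjStarAlgEquiv (star u * W.conjStarAlgEquiv.symm X * u)) =
        _ * ψ (W.conjStarAlgEquiv (W.conjStarAlgEquiv.symm X)) at h5
      rw [map_mul, map_mul, map_star, e1] at h5
      exact h5
  · rintro ⟨h1, h2, h3, h4⟩
    refine ⟨(hA u).2 h1, ?_, ?_, fun X hX hX0 => ?_⟩
    · apply hinj
      rw [map_mul, map_star, h2, hone]
    · apply hinj
      rw [map_mul, map_star, h3, hone]
    · have h5 := h4 _ ((hA X).1 hX) (conj_nonneg W hX0)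
      change ψ (W.conjStarAlgEquiv (star u * X * u)) = _
      rw [map_mul, map_mul, map_star]
      exact h5

theorem transport_dominant {A : VonNeumannAlgebra H} {A' : VonNeumannAlgebra K} (W : H ≃ₗᵢ[ℂ] K)
    (hA : ∀ x, x ∈ A ↔ W.conjStarAlgEquiv x ∈ A') {ψ : (K →L[ℂ] K) → ℝ≥0∞}
    (hψ : IsDominant A' ψ) : IsDominant A (fun x => ψ (W.conjStarAlgEquiv x)) where
  add x hx y hy hx0 hy0 := by
    rw [map_add]
    exact hψ.add _ ((hA x).1 hx) _ ((hA y).1 hy) (conj_nonneg W hx0) (conj_nonneg W hy0)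
  smul x hx hx0 c hc := by
    rw [map_smul]
    exact hψ.smul _ ((hA x).1 hx) (conj_nonneg W hx0) c hc
  faithful x hx hx0 h := by
    have := hψ.faithful _ ((hA x).1 hx) (conj_nonneg W hx0) h
    exact (map_eq_zero_iff W.conjStarAlgEquiv (EquivLike.injective _)).1 this
  normal D x hD hdir hDA hx hlub := by
    have h1 := hψ.normal (W.conjStarAlgEquiv '' D) (W.conjStarAlgEquiv x) (hD.image _) ?_ ?_
      ((hA x).1 hx) ?_
    · rw [h1, iSup_image]
    · rintro _ ⟨d, hd, rfl⟩ _ ⟨d', hd', rfl⟩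
      obtain ⟨e, he, h2, h3⟩ := hdir d hd d' hd'
      exact ⟨_, ⟨e, he, rfl⟩, conj_le W h2, conj_le W h3⟩
    · rintro _ ⟨d, hd, rfl⟩
      exact ⟨(hA d).1 (hDA d hd).1, conj_nonneg W (hDA d hd).2⟩
    · intro η
      rw [inner_conj]
      have h2 := hlub (W.symm η)
      have h3 : {r : ℝ | ∃ d ∈ W.conjStarAlgEquiv '' D, r = (⟪η, d η⟫_ℂ).re} =
          {r : ℝ | ∃ d ∈ D, r = (⟪W.symm η, d (W.symm η)⟫_ℂ).re} := by
        ext r
        constructor
        · rintro ⟨_, ⟨d, hd, rfl⟩, rfl⟩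
          exact ⟨d, hd, by rw [inner_conj]⟩
        · rintro ⟨d, hd, rfl⟩
          exact ⟨_, ⟨d, hd, rfl⟩, by rw [inner_conj]⟩
      rw [h3]
      exact h2
  semifinite η h := by
    have h1 : W η = 0 := by
      refine hψ.semifinite (W η) fun X hX hX0 hXt => ?_
      have e1 : W.conjStarAlgEquiv (W.conjStarAlgEquiv.symm X) = X :=
        W.conjStarAlgEquiv.apply_symm_apply X
      have h2 := h (W.conjStarAlgEquiv.symm X) ((hA _).2 (by rw [e1]; exact hX))
        (conj_symm_nonneg W hX0) (by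
          change ψ (W.conjStarAlgEquiv (W.conjStarAlgEquiv.symm X)) ≠ ⊤
          rw [e1]; exact hXt)
      rw [LinearIsometryEquiv.symm_conjStarAlgEquiv_apply_apply] at h2
      exact (map_eq_zero_iff W.symm W.symm.injective).1 h2
    exact (map_eq_zero_iff W W.injective).1 h1
  scale l hl := by
    obtain ⟨u, hu⟩ := hψ.scale l hl
    refine ⟨W.conjStarAlgEquiv.symm u, (transport_scaling W hA ψ l _).2 ?_⟩
    have e1 : W.conjStarAlgEquiv (W.conjStarAlgEquiv.symm u) = u :=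
      W.conjStarAlgEquiv.apply_symm_apply u
    rw [e1]; exact hu
  properlyInfinite := by
    obtain ⟨v, w, h1, h2, h3, h4⟩ := hψ.properlyInfinite
    have hinj : Function.Injective ⇑W.conjStarAlgEquiv := EquivLike.injective _
    have e1 : ∀ X, W.conjStarAlgEquiv (W.conjStarAlgEquiv.symm X) = X :=
      W.conjStarAlgEquiv.apply_symm_apply
    have hone : W.conjStarAlgEquiv (1 : H →L[ℂ] H) = 1 := map_one _
    refine ⟨W.conjStarAlgEquiv.symm v, W.conjStarAlgEquiv.symm w, ?_, ?_, ?_, fun T hT => ?_⟩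
    · apply hinj; rw [map_mul, map_star, e1, hone, h1]
    · apply hinj; rw [map_mul, map_star, e1, hone, h2]
    · apply hinj; rw [map_mul, map_star, e1, e1, map_zero, h3]
    · have h5 := h4 (W.conjStarAlgEquiv T) fun u hu => by
        have h6 := hT (W.conjStarAlgEquiv.symm u) ((transport_scaling W hA ψ 1 _).2 (by
          rw [e1]; exact hu))
        have h7 := congrArg W.conjStarAlgEquiv h6
        rwa [map_mul, map_mul, e1] at h7
      constructor
      · apply hinj; rw [map_mul, map_mul, e1]; exact h5.1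
      · apply hinj; rw [map_mul, map_mul, e1]; exact h5.2

end transport

end Pool.Agent.Helper23

end

end
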