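import Pool.Agent.Helper23.FB.L00_a0
import Pool.Agent.Helper23.FB.L00_a12
import Pool.Agent.Helper23.FB.L00_a13
import Pool.Agent.Helper23.FB.L00_a2
import Pool.Agent.Helper23.FB.L00_a6

/-!
Parts of Helper23.FA.L00_02, Helper23.FA.L01_03, Helper23.FA.L00_03, Helper23.FA.L01_06, Helper23.FA.L01_00, Helper23.FA.L01_11
-/

attribute [local instance 5000]
  Pool.Agent.Helper23.FB.Inst.rCharZero Pool.Agent.Helper23.FB.Inst.rALM
  Pool.Agent.Helper23.FB.Inst.rARM Pool.Agent.Helper23.FB.Inst.rALSM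
  Pool.Agent.Helper23.FB.Inst.rARSM Pool.Agent.Helper23.FB.Inst.rARRLE
  Pool.Agent.Helper23.FB.Inst.rALRLE Pool.Agent.Helper23.FB.Inst.rARRLT
  Pool.Agent.Helper23.FB.Inst.rALRLT Pool.Agent.Helper23.FB.Inst.rPMRLT
  Pool.Agent.Helper23.FB.Inst.rMPRLT Pool.Agent.Helper23.FB.Inst.rPMM
  Pool.Agent.Helper23.FB.Inst.rMPM Pool.Agent.Helper23.FB.Inst.rPMSM
  Pool.Agent.Helper23.FB.Inst.rMPSM Pool.Agent.Helper23.FB.Inst.rEAOL
  Pool.Agent.Helper23.FB.Inst.rIOR Pool.Agent.Helper23.FB.Inst.rISOR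
  Pool.Agent.Helper23.FB.Inst.rFS Pool.Agent.Helper23.FB.Inst.rcCharZero
  Pool.Agent.Helper23.FB.Inst.rNZD Pool.Agent.Helper23.FB.Inst.rcNZD
  Pool.Agent.Helper23.FB.Inst.bSemiring Pool.Agent.Helper23.FB.Inst.bStar
  Pool.Agent.Helper23.FB.Inst.bAlg Pool.Agent.Helper23.FB.Inst.bSub
  Pool.Agent.Helper23.FB.Inst.bMul Pool.Agent.Helper23.FB.Inst.bAdd
  Pool.Agent.Helper23.FB.Inst.iRing Pool.Agent.Helper23.FB.Inst.iSemiring
  Pool.Agent.Helper23.FB.Inst.iAlgC Pool.Agent.Helper23.FB.Inst.iSMulC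
  Pool.Agent.Helper23.FB.Inst.iModC Pool.Agent.Helper23.FB.Inst.iAlgR
  Pool.Agent.Helper23.FB.Inst.iSMulR Pool.Agent.Helper23.FB.Inst.iModR
  Pool.Agent.Helper23.FB.Inst.iMonoid Pool.Agent.Helper23.FB.Inst.iSemigroup
  Pool.Agent.Helper23.FB.Inst.iMulOneClass Pool.Agent.Helper23.FB.Inst.iMul
  Pool.Agent.Helper23.FB.Inst.iAdd Pool.Agent.Helper23.FB.Inst.iSub
  Pool.Agent.Helper23.FB.Inst.iNeg Pool.Agent.Helper23.FB.Inst.iAddCommMonoid
  Pool.Agent.Helper23.FB.Inst.iAddCommGroup Pool.Agent.Helper23.FB.Inst.iAddGroup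
  Pool.Agent.Helper23.FB.Inst.iAddMonoid Pool.Agent.Helper23.FB.Inst.iSMulZeroC
  Pool.Agent.Helper23.FB.Inst.iMulActC Pool.Agent.Helper23.FB.Inst.iDSMulC
  Pool.Agent.Helper23.FB.Inst.iDSMulR Pool.Agent.Helper23.FB.Inst.iSNAG
  Pool.Agent.Helper23.FB.Inst.iSNACG Pool.Agent.Helper23.FB.Inst.iNorm
  Pool.Agent.Helper23.FB.Inst.iNSC' Pool.Agent.Helper23.FB.Inst.iNSR'
  Pool.Agent.Helper23.FB.Inst.iTop Pool.Agent.Helper23.FB.Inst.iT2 Pool.Agent.Helper23.FB.Inst.iTR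
  Pool.Agent.Helper23.FB.Inst.iSCC Pool.Agent.Helper23.FB.Inst.iIST
  Pool.Agent.Helper23.FB.Inst.iSCCR Pool.Agent.Helper23.FB.Inst.iISTR
  Pool.Agent.Helper23.FB.Inst.iZHC Pool.Agent.Helper23.FB.Inst.iAHC
  Pool.Agent.Helper23.FB.Inst.iAMHC Pool.Agent.Helper23.FB.Inst.iMAHC
  Pool.Agent.Helper23.FB.Inst.lTop Pool.Agent.Helper23.FB.Inst.lUnif
  Pool.Agent.Helper23.FB.Inst.lACM Pool.Agent.Helper23.FB.Inst.lACG
  Pool.Agent.Helper23.FB.Inst.lSNAG Pool.Agent.Helper23.FB.Inst.lSNACG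
  Pool.Agent.Helper23.FB.Inst.lNACG Pool.Agent.Helper23.FB.Inst.lNorm
  Pool.Agent.Helper23.FB.Inst.lIPS Pool.Agent.Helper23.FB.Inst.lMod
  Pool.Agent.Helper23.FB.Inst.lSMul Pool.Agent.Helper23.FB.Inst.lT2
  Pool.Agent.Helper23.FB.Inst.iStar Pool.Agent.Helper23.FB.Inst.iStarMul
  Pool.Agent.Helper23.FB.Inst.iStarAddMonoid Pool.Agent.Helper23.FB.Inst.iStarRing
  Pool.Agent.Helper23.FB.Inst.iNSC Pool.Agent.Helper23.FB.Inst.iSOR
  Pool.Agent.Helper23.FB.Inst.iALM Pool.Agent.Helper23.FB.Inst.iARM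
  Pool.Agent.Helper23.FB.Inst.iCFC Pool.Agent.Helper23.FB.Inst.iNCFC
  Pool.Agent.Helper23.FB.Inst.iStarModR Pool.Agent.Helper23.FB.Inst.iStarModC
  Pool.Agent.Helper23.FB.Inst.eStar Pool.Agent.Helper23.FB.Inst.eAdd
  Pool.Agent.Helper23.FB.Inst.eMul Pool.Agent.Helper23.FB.Inst.eOne
  Pool.Agent.Helper23.FB.Inst.eZero Pool.Agent.Helper23.FB.Inst.eMulAction
  Pool.Agent.Helper23.FB.Inst.eAMHC2 Pool.Agent.Helper23.FB.Inst.eZHC2
  Pool.Agent.Helper23.FB.Inst.lAMHC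

namespace Pool.Agent.Helper23
end Pool.Agent.Helper23

section

section

open scoped InnerProductSpace

open ContinuousLinearMap

namespace Pool.Agent.Helper23

variable {H : Type*} [NormedAddCommGroup H] [InnerProductSpace ℂ H] [CompleteSpace H]

/-- A separating vector is cyclic for the commutant. -/
lemma dense_of_separating (A : VonNeumannAlgebra H) (ξ : H) (hs : ∀ a ∈ A, a ξ = 0 → a = 0) :
    Dense (orb A.commutant ξ : Set H) := by
  have hP := proj_orb_mem A.commutant ξ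
  rw [VonNeumannAlgebra.commutant_commutant] at hP
  set V := (orb A.commutant ξ).topologicalClosure
  have h1 : (1 - V.starProjection) ∈ A := sub_mem (one_mem A) hP
  have hξ : ξ ∈ V := Submodule.le_topologicalClosure _ ⟨1, one_mem _, rfl⟩
  have h2 : (1 - V.starProjection) ξ = 0 := by
    rw [sub_apply, one_apply_eq_self,
      Submodule.starProjection_eq_self_iff.2 hξ, sub_self]
  have h3 := hs _ h1 h2
  intro x
  have h4 : V.starProjection x = x := by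
    have := congrArg (fun T : H →L[ℂ] H => T x) h3
    simp only [sub_apply, one_apply_eq_self,
      zero_apply, sub_eq_zero] at this
    exact this.symm
  have h5 : x ∈ V := Submodule.starProjection_eq_self_iff.1 h4
  exact h5

/-- Completeness of balls: norm-bounded operators converging on a separating vector converge
to an operator of the algebra. -/
lemma exists_limit {ι : Type*} {l : Filter ι} [l.NeBot] (A : VonNeumannAlgebra H) {ξ η : H}
    (hd : Dense (orb A.commutant ξ : Set H)) {x : ι → H →L[ℂ] H} {C : ℝ} (hC0 : 0 ≤ C)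
    (hx : ∀ i, x i ∈ A) (hC : ∀ i, ‖x i‖ ≤ C)
    (h0 : Filter.Tendsto (fun i => x i ξ) l (nhds η)) :
    ∃ y ∈ A, y ξ = η ∧ ‖y‖ ≤ C := by
  obtain ⟨y, hy, hyeq, hyC⟩ := exists_op A.commutant (η := η) hC0 hd (by
    intro a ha
    have h1 : Filter.Tendsto (fun i => ‖a (x i ξ)‖) l (nhds ‖a η‖) :=
      ((a.continuous.tendsto η).comp h0).norm
    refine le_of_tendsto h1 (Filter.Eventually.of_forall fun i => ?_)
    rw [← commute_apply (hx i) ha]
    exact (x i).le_of_opNorm_le (hC i) _)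
  rw [VonNeumannAlgebra.commutant_commutant] at hy
  refine ⟨y, hy, ?_, hyC⟩
  have := hyeq 1 (one_mem _)
  simpa using this

/-- Two operators of an algebra that agree on a separating vector are equal. -/
lemma eq_of_dense (A : VonNeumannAlgebra H) {ξ : H}
    (hd : Dense (orb A.commutant ξ : Set H)) {x y : H →L[ℂ] H} (hx : x ∈ A) (hy : y ∈ A)
    (h : x ξ = y ξ) : x = y := by
  apply ContinuousLinearMap.ext
  intro ζ
  have hcl : IsClosed {z : H | x z = y z} := isClosed_eq x.continuous y.continuous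
  have hsub : (orb A.commutant ξ : Set H) ⊆ {z : H | x z = y z} := by
    rintro _ ⟨a, ha, rfl⟩
    change x (a ξ) = y (a ξ)
    rw [commute_apply hx ha, commute_apply hy ha, h]
  exact closure_minimal hsub hcl (hd ζ)

end Pool.Agent.Helper23

end

section

open scoped InnerProductSpace

open ContinuousLinearMap

namespace Pool.Agent.Helper23

variable {H : Type*} [NormedAddCommGroup H] [InnerProductSpace ℂ H] [CompleteSpace H]

variable {M N : VonNeumannAlgebra H} {ξ : H} {E : (H →L[ℂ] H) → (H →L[ℂ] H)}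

namespace Setting

variable (S : Setting M N E ξ)

include S

lemma dense_comm : Dense (orb M.commutant ξ : Set H) := dense_of_separating M ξ S.sep

lemma inner_self : ⟪ξ, ξ⟫_ℂ = 1 := by
  rw [inner_self_eq_norm_sq_to_K, S.norm_one]; simp

lemma E_inner {a b x : H →L[ℂ] H} (ha : a ∈ N) (hb : b ∈ N) (hx : x ∈ M) :
    ⟪a ξ, E x (b ξ)⟫_ℂ = ⟪a ξ, x (b ξ)⟫_ℂ := by
  have h := S.E_state (star a * x * b)
    (mul_mem (mul_mem (star_mem (S.le a ha)) hx) (S.le b hb))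
  rw [S.E_bimod _ (star_mem ha) _ hb _ hx] at h
  change ⟪ξ, (star a) (E x (b ξ))⟫_ℂ = ⟪ξ, (star a) (x (b ξ))⟫_ℂ at h
  rw [inner_star_right, inner_star_right] at h
  exact h

/-- Right multiplication by an eigenoperator is given by an operator of the commutant of `M`. -/
lemma exists_right {γ : ℝ} (hγ : 0 < γ) {a : H →L[ℂ] H} (ha : a ∈ eig N ξ γ) :
    ∃ a' ∈ M.commutant, ∀ y ∈ M, a' (y ξ) = y (a ξ) := by
  have hc : a * star a ∈ eig N ξ 1 := by
    have := eig_mul ha (eig_star hγ.ne' ha)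
    rwa [mul_inv_cancel₀ hγ.ne'] at this
  obtain ⟨a', h1, h2, -⟩ := exists_op M (ξ := ξ) (η := a ξ)
    (C := Real.sqrt (γ * (2 * ‖a * star a‖))) (Real.sqrt_nonneg _) S.cyc (by
      intro y hy
      have h := S.norm_right_eig_sq ha hy
      have h3 : ‖y (a ξ)‖ ^ 2 ≤ γ * (2 * ‖a * star a‖) * ‖y ξ‖ ^ 2 := by
        have h4 : ‖((‖y (a ξ)‖ ^ 2 : ℝ) : ℂ)‖ ≤ γ * (2 * ‖a * star a‖ * ‖y ξ‖ * ‖y ξ‖) := by
          rw [h, norm_mul, Complex.norm_real, Real.norm_of_nonneg hγ.le]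
          gcongr
          exact (norm_inner_le_norm _ _).trans
            (mul_le_mul_of_nonneg_right (S.norm_right_cent hc hy) (norm_nonneg _))
        rw [Complex.norm_real, Real.norm_of_nonneg (by (clear * -; positivity))] at h4
        (clear * - h4; linarith)
      rw [← Real.sqrt_sq (norm_nonneg (y ξ)), ← Real.sqrt_mul (by (clear * - hγ; positivity))]
      exact Real.le_sqrt_of_sq_le h3)
  exact ⟨a', h1, h2⟩

end Setting

end Pool.Agent.Helper23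

end

section

open scoped InnerProductSpace TensorProduct

open ContinuousLinearMap

namespace Pool.Agent.Helper23

variable {H : Type*} [NormedAddCommGroup H] [InnerProductSpace ℂ H] [CompleteSpace H]

variable {M N : VonNeumannAlgebra H} {ξ : H} {E : (H →L[ℂ] H) → (H →L[ℂ] H)}

/-- The relative commutant of the centralizer `N_φ` in `M`. -/
noncomputable def Qalg (M N : VonNeumannAlgebra H) (ξ : H) : VonNeumannAlgebra H where
  toStarSubalgebra := StarSubalgebra.centralizer ℂ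
    ((M.commutant : Set (H →L[ℂ] H)) ∪ (eig N ξ 1 : Set (H →L[ℂ] H)))
  centralizer_centralizer' := by simp

lemma mem_Qalg {y : H →L[ℂ] H} :
    y ∈ Qalg M N ξ ↔ y ∈ M ∧ ∀ a ∈ eig N ξ 1, a * y = y * a := by
  have h1 : y ∈ Qalg M N ξ ↔ y ∈ StarSubalgebra.centralizer ℂ
    ((M.commutant : Set (H →L[ℂ] H)) ∪ (eig N ξ 1 : Set (H →L[ℂ] H))) := Iff.rfl
  rw [h1, StarSubalgebra.mem_centralizer_iff]
  constructor
  · intro h
    refine ⟨mem_iff_commutes.2 fun g hg => (h g (Or.inl hg)).1, fun a ha => (h a (Or.inr ha)).1⟩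
  · rintro ⟨h2, h3⟩ g (hg | hg)
    · exact ⟨mem_iff_commutes.1 h2 g hg, mem_iff_commutes.1 h2 _ (star_mem hg)⟩
    · exact ⟨h3 g hg, h3 _ (by
        have := eig_star one_ne_zero hg
        rwa [inv_one] at this)⟩

/-- The centralizer of the state has trivial relative commutant in `N`. -/
def TrivialRelComm (N : VonNeumannAlgebra H) (ξ : H) : Prop :=
  ∀ x ∈ N, (∀ a ∈ eig N ξ 1, a * x = x * a) → ∃ c : ℂ, x = c • (1 : H →L[ℂ] H)

namespace Setting

variable (S : Setting M N E ξ) (hirr : TrivialRelComm N ξ)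

include S hirr

lemma E_Q {y : H →L[ℂ] H} (hy : y ∈ Qalg M N ξ) :
    E y = ⟪ξ, y ξ⟫_ℂ • (1 : H →L[ℂ] H) := by
  have hy' := mem_Qalg.1 hy
  obtain ⟨c, hc⟩ := hirr (E y) (S.E_mem y hy'.1) (by
    intro a ha
    have h1 := S.E_bimod a ha.1 1 (one_mem N) y hy'.1
    have h2 := S.E_bimod 1 (one_mem N) a ha.1 y hy'.1
    rw [mul_one, mul_one] at h1
    rw [one_mul, one_mul] at h2
    rw [← h1, ← h2, hy'.2 a ha])
  have h3 := S.E_state y hy'.1
  rw [hc] at h3 ⊢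
  rw [← h3, smul_apply, one_apply_eq_self, inner_smul_right, S.inner_self, mul_one]

/-- independence of `Q` and `N` (matrix coefficient form) -/
lemma inner_Q {y a b : H →L[ℂ] H} (hy : y ∈ Qalg M N ξ) (ha : a ∈ N) (hb : b ∈ N) :
    ⟪a ξ, y (b ξ)⟫_ℂ = ⟪ξ, y ξ⟫_ℂ * ⟪a ξ, b ξ⟫_ℂ := by
  rw [← S.E_inner ha hb (mem_Qalg.1 hy).1, S.E_Q hirr hy, smul_apply, one_apply_eq_self,
    inner_smul_right]

end Setting

end Pool.Agent.Helper23

end

section

open scoped InnerProductSpace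

open ContinuousLinearMap

namespace Pool.Agent.Helper23

variable {H : Type*} [NormedAddCommGroup H] [InnerProductSpace ℂ H] [CompleteSpace H]

variable {M N : VonNeumannAlgebra H} {ξ : H} {E : (H →L[ℂ] H) → (H →L[ℂ] H)}

/-- the set of eigenvalues -/
def Gam (N : VonNeumannAlgebra H) (ξ : H) : Set ℝ := {γ | 0 < γ ∧ ∃ a ∈ eig N ξ γ, a ≠ 0}

lemma norm_of_isom {u : H →L[ℂ] H} (hu : star u * u = 1) (v : H) : ‖u v‖ = ‖v‖ := by
  have h1 := norm_sq_apply u v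
  have h2 : (star u) (u v) = v := congrArg (fun T : H →L[ℂ] H => T v) hu
  rw [h2] at h1
  have h3 := norm_sq_of_inner h1.symm
  exact ((pow_left_inj₀ (norm_nonneg _) (norm_nonneg _) two_ne_zero).1 h3).symm

end Pool.Agent.Helper23

end

section

open scoped InnerProductSpace

open ContinuousLinearMap Filter

namespace Pool.Agent.Helper23

variable {H : Type*} [NormedAddCommGroup H] [InnerProductSpace ℂ H] [CompleteSpace H]

variable {M N : VonNeumannAlgebra H} {ξ : H} {E : (H →L[ℂ] H) → (H →L[ℂ] H)}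

/-- The setting with a state whose centralizer has trivial relative commutant, and with
dense eigenvalues. -/
structure AP (M N : VonNeumannAlgebra H) (E : (H →L[ℂ] H) → (H →L[ℂ] H)) (ξ : H) : Prop
    extends Setting M N E ξ where
  irr : TrivialRelComm N ξ
  dns : ∀ a b : ℝ, 0 < a → a < b → ∃ γ ∈ Gam N ξ, a < γ ∧ γ < b

end Pool.Agent.Helper23

end

section

open scoped InnerProductSpace

open ContinuousLinearMap Filter

namespace Pool.Agent.Helper23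

variable {H : Type*} [NormedAddCommGroup H] [InnerProductSpace ℂ H] [CompleteSpace H]

variable {M N : VonNeumannAlgebra H} {ξ : H} {E : (H →L[ℂ] H) → (H →L[ℂ] H)}

lemma one_mem_Ucent : (1 : H →L[ℂ] H) ∈ Ucent N ξ := ⟨one_mem_eig, by simp, by simp⟩

lemma Ucent_mul {u v : H →L[ℂ] H} (hu : u ∈ Ucent N ξ) (hv : v ∈ Ucent N ξ) :
    u * v ∈ Ucent N ξ := by
  refine ⟨eig_mul_one hu.1 hv.1, ?_, ?_⟩
  · rw [star_mul, mul_assoc, ← mul_assoc (star u), hu.2.1, one_mul, hv.2.1]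
  · rw [star_mul, mul_assoc, ← mul_assoc v, hv.2.2, one_mul, hu.2.2]

/-- operators commuting with the unitaries of the centralizer commute with the centralizer. -/
lemma commute_of_Ucent {x : H →L[ℂ] H} (h : ∀ u ∈ Ucent N ξ, u * x = x * u) {a : H →L[ℂ] H}
    (ha : a ∈ eig N ξ 1) : a * x = x * a := by
  obtain ⟨u, k, hk, -⟩ := CStarAlgebra.exists_sum_four_unitary (⟨a, ha⟩ : cent N ξ)
  have ha' : a = ∑ i, k i • ((u i : cent N ξ) : H →L[ℂ] H) := by
    have := congrArg (fun z : cent N ξ => (z : H →L[ℂ] H)) hk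
    simpa using this
  rw [ha', Finset.sum_mul, Finset.mul_sum]
  refine Finset.sum_congr rfl fun i _ => ?_
  rw [smul_mul_assoc, mul_smul_comm, h]
  refine ⟨(u i : cent N ξ).2, ?_, ?_⟩
  · have := Unitary.star_mul_self_of_mem (u i).2
    exact congrArg (fun z : cent N ξ => (z : H →L[ℂ] H)) this
  · have := Unitary.mul_star_self_of_mem (u i).2
    exact congrArg (fun z : cent N ξ => (z : H →L[ℂ] H)) this

namespace Setting

variable (S : Setting M N E ξ)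

include S

/-- the conjugation isometry -/
lemma exists_conj {u : H →L[ℂ] H} (hu : u ∈ Ucent N ξ) :
    ∃ T : H →L[ℂ] H, (∀ y ∈ M, T (y ξ) = (star u * y * u) ξ) ∧ ∀ ζ, ‖T ζ‖ = ‖ζ‖ := by
  obtain ⟨u', hu', h⟩ := S.exists_right one_pos hu.1
  refine ⟨star u * u', fun y hy => ?_, fun ζ => ?_⟩
  · change (star u) (u' (y ξ)) = (star u) (y (u ξ))
    rw [h y hy]
  · have hcl : IsClosed {ζ : H | ‖(star u * u') ζ‖ = ‖ζ‖} :=
      isClosed_eq (by fun_prop) (by fun_prop)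
    have hsub : (orb M ξ : Set H) ⊆ {ζ : H | ‖(star u * u') ζ‖ = ‖ζ‖} := by
      rintro _ ⟨y, hy, rfl⟩
      change ‖(star u) (u' (y ξ))‖ = ‖y ξ‖
      rw [norm_of_isom (by rw [star_star]; exact hu.2.2), h y hy,
        S.norm_right_unitary hu.1 hu.2.2 hy]
    exact closure_minimal hsub hcl (S.cyc ζ)

end Setting

lemma Ucent_conj_norm {u : H →L[ℂ] H} (hu : u ∈ Ucent N ξ) (x : H →L[ℂ] H) :
    ‖star u * x * u‖ ≤ ‖x‖ := by
  refine ContinuousLinearMap.opNorm_le_bound _ (norm_nonneg _) fun ζ => ?_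
  change ‖(star u) (x (u ζ))‖ ≤ _
  rw [norm_of_isom (by rw [star_star]; exact hu.2.2)]
  refine (x.le_opNorm _).trans ?_
  rw [norm_of_isom hu.2.1]

namespace Setting

variable (S : Setting M N E ξ)

include S

/-- simultaneous averaging of a finite family -/
theorem exists_hull {ι : Type*} [Fintype ι] (x : ι → H →L[ℂ] H) (hx : ∀ i, x i ∈ M) :
    ∃ y : ι → H →L[ℂ] H, (∀ i, y i ∈ Qalg M N ξ ∧ ‖y i‖ ≤ ‖x i‖ ∧
        ∀ q ∈ Qalg M N ξ, ⟪q ξ, y i ξ⟫_ℂ = ⟪q ξ, x i ξ⟫_ℂ) ∧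
      (WithLp.toLp 2 (fun i => y i ξ) : PiLp 2 (fun _ : ι => H)) ∈
        closure (convexHull ℝ {v : PiLp 2 (fun _ : ι => H) | ∃ u ∈ Ucent N ξ,
          v = WithLp.toLp 2 (fun i => (star u * x i * u) ξ)}) := by
  set G0 : Set (PiLp 2 (fun _ : ι => H)) := {v | ∃ u ∈ Ucent N ξ,
    v = WithLp.toLp 2 (fun i => (star u * x i * u) ξ)} with hG0
  have hG0ne : G0.Nonempty := ⟨_, 1, one_mem_Ucent, rfl⟩
  obtain ⟨η, hηK, hfix⟩ := exists_fixed_min G0 hG0ne
  set K := closure (convexHull ℝ G0) with hK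
  have hball : ∀ w ∈ K, ∀ i, ∃ y ∈ M, y ξ = w i ∧ ‖y‖ ≤ ‖x i‖ ∧
      ∀ q ∈ Qalg M N ξ, ⟪q ξ, w i⟫_ℂ = ⟪q ξ, x i ξ⟫_ℂ := by
    set Bl : Set (PiLp 2 (fun _ : ι => H)) := {w | ∀ i, ∃ y ∈ M, y ξ = w i ∧ ‖y‖ ≤ ‖x i‖ ∧
      ∀ q ∈ Qalg M N ξ, ⟪q ξ, w i⟫_ℂ = ⟪q ξ, x i ξ⟫_ℂ} with hBl
    have hBconv : Convex ℝ Bl := by
      intro w hw w' hw' s t hs ht hst i
      obtain ⟨y, hy, hyw, hyn, hyφ⟩ := hw i
      obtain ⟨y', hy', hyw', hyn', hyφ'⟩ := hw' i
      have e1 : (s • w + t • w') i = (s : ℂ) • w i + (t : ℂ) • w' i := by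
        rw [Complex.coe_smul, Complex.coe_smul]; rfl
      refine ⟨(s : ℂ) • y + (t : ℂ) • y', add_mem (smul_mem' _ hy) (smul_mem' _ hy'), ?_, ?_,
        fun q hq => ?_⟩
      · rw [e1, add_apply, smul_apply, smul_apply, hyw, hyw']
      · calc ‖(s : ℂ) • y + (t : ℂ) • y'‖ ≤ ‖(s : ℂ) • y‖ + ‖(t : ℂ) • y'‖ := norm_add_le _ _
          _ ≤ s * ‖x i‖ + t * ‖x i‖ := by
              rw [norm_smul, norm_smul, Complex.norm_real, Complex.norm_real,
                Real.norm_of_nonneg hs, Real.norm_of_nonneg ht]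
              (clear * - hyn hs hyn' ht; gcongr)
          _ = ‖x i‖ := by rw [← add_mul, hst, one_mul]
      · rw [e1, inner_add_right, inner_smul_right, inner_smul_right, hyφ q hq, hyφ' q hq,
          ← add_mul, ← Complex.ofReal_add, hst]
        simp
    have hBcl : IsClosed Bl := by
      rw [← isSeqClosed_iff_isClosed]
      intro f w hf hfw i
      choose y hy hyf hyn hyφ using fun n => hf n i
      have hproj : Tendsto (fun n => f n i) atTop (nhds (w i)) :=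
        ((PiLp.proj (𝕜 := ℂ) 2 (fun _ : ι => H) i).continuous.tendsto w).comp hfw
      have hyf' : Tendsto (fun n => y n ξ) atTop (nhds (w i)) :=
        hproj.congr fun n => (hyf n).symm
      obtain ⟨z, hz, hzw, hzn⟩ := exists_limit M S.dense_comm (norm_nonneg (x i)) hy hyn hyf'
      refine ⟨z, hz, hzw, hzn, fun q hq => ?_⟩
      have h1 : Tendsto (fun n => ⟪q ξ, f n i⟫_ℂ) atTop (nhds ⟪q ξ, w i⟫_ℂ) :=
        tendsto_const_nhds.inner hproj
      refine tendsto_nhds_unique h1 ?_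
      refine tendsto_const_nhds.congr fun n => ?_
      exact (hyφ n q hq).symm
    have hGB : G0 ⊆ Bl := by
      rintro _ ⟨u, hu, rfl⟩ i
      have huM : u ∈ M := S.le u hu.1.1
      refine ⟨star u * x i * u, mul_mem (mul_mem (star_mem huM) (hx i)) huM, rfl,
        Ucent_conj_norm hu (x i), fun q hq => ?_⟩
      change ⟪q ξ, (star u) (x i (u ξ))⟫_ℂ = _
      obtain ⟨u', hu', h⟩ := S.exists_right one_pos hu.1
      have huξ : u' ξ = u ξ := by
        have := h 1 (one_mem M)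
        simpa using this
      have hqM := (mem_Qalg.1 hq).1
      have e1 : u (q ξ) = u' (q ξ) := by
        have := congrArg (fun T : H →L[ℂ] H => T ξ) ((mem_Qalg.1 hq).2 u hu.1)
        change u (q ξ) = q (u ξ) at this
        rw [this, h q hqM]
      have e2 : x i (u ξ) = u' (x i ξ) := (h _ (hx i)).symm
      have hiso : ∀ ζ, ‖u' ζ‖ = ‖ζ‖ := by
        intro ζ
        have hcl : IsClosed {ζ : H | ‖u' ζ‖ = ‖ζ‖} := isClosed_eq (by fun_prop) (by fun_prop)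
        have hsub : (orb M ξ : Set H) ⊆ {ζ : H | ‖u' ζ‖ = ‖ζ‖} := by
          rintro _ ⟨y, hy, rfl⟩
          change ‖u' (y ξ)‖ = ‖y ξ‖
          rw [h y hy, S.norm_right_unitary hu.1 hu.2.2 hy]
        exact closure_minimal hsub hcl (S.cyc ζ)
      rw [inner_star_right, e1, e2]
      let L : H →ₗᵢ[ℂ] H := ⟨u'.toLinearMap, hiso⟩
      exact L.inner_map_map (q ξ) (x i ξ)
    have hKB : K ⊆ Bl := closure_minimal (convexHull_min hGB hBconv) hBcl
    exact fun w hw => hKB hw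
  choose y hy hyη hyn hyq using hball η hηK
  refine ⟨y, fun i => ⟨?_, hyn i, fun q hq => by rw [hyη]; exact hyq i q hq⟩, ?_⟩
  · rw [mem_Qalg]
    refine ⟨hy i, fun a ha => commute_of_Ucent (fun v hv => ?_) ha⟩
    obtain ⟨T, hT, hTn⟩ := S.exists_conj hv
    have h1 := hfix (diag ι T) (by
      rintro _ ⟨u, hu, rfl⟩
      refine ⟨u * v, Ucent_mul hu hv, ?_⟩
      ext j
      rw [diag_apply]
      have huM : u ∈ M := S.le u hu.1.1
      change T ((star u * x j * u) ξ) = _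
      rw [hT _ (mul_mem (mul_mem (star_mem huM) (hx j)) huM)]
      rw [star_mul]
      simp only [mul_assoc]) (by
      intro w
      rw [PiLp.norm_eq_of_L2, PiLp.norm_eq_of_L2]
      congr 1
      refine Finset.sum_congr rfl fun j _ => ?_
      rw [diag_apply, hTn])
    have h2 := congrArg (fun w : PiLp 2 (fun _ : ι => H) => w i) h1
    change diag ι T η i = η i at h2
    rw [diag_apply, ← hyη i, hT _ (hy i)] at h2
    have hvM : v ∈ M := S.le v hv.1.1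
    have h3 : star v * y i * v = y i := eq_of_dense M S.dense_comm
      (mul_mem (mul_mem (star_mem hvM) (hy i)) hvM) (hy i) h2
    calc v * y i = v * (star v * y i * v) := by rw [h3]
      _ = (v * star v) * y i * v := by simp only [mul_assoc]
      _ = y i * v := by rw [hv.2.2, one_mul]
  · have : (WithLp.toLp 2 (fun i => y i ξ) : PiLp 2 (fun _ : ι => H)) = η := by
      ext i
      exact hyη i
    rw [this]
    exact hηK

end Setting

open Classical in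
/-- the conditional expectation onto the relative commutant of the centralizer -/
noncomputable def EQ (M N : VonNeumannAlgebra H) (ξ : H) (x : H →L[ℂ] H) : H →L[ℂ] H :=
  if h : ∃ y ∈ Qalg M N ξ, ‖y‖ ≤ ‖x‖ ∧ ∀ q ∈ Qalg M N ξ, ⟪q ξ, y ξ⟫_ℂ = ⟪q ξ, x ξ⟫_ℂ
  then h.choose else 0

namespace Setting

variable (S : Setting M N E ξ)

include S

lemma EQ_spec {x : H →L[ℂ] H} (hx : x ∈ M) : EQ M N ξ x ∈ Qalg M N ξ ∧
    ‖EQ M N ξ x‖ ≤ ‖x‖ ∧ ∀ q ∈ Qalg M N ξ, ⟪q ξ, EQ M N ξ x ξ⟫_ℂ = ⟪q ξ, x ξ⟫_ℂ := by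
  have h : ∃ y ∈ Qalg M N ξ, ‖y‖ ≤ ‖x‖ ∧ ∀ q ∈ Qalg M N ξ, ⟪q ξ, y ξ⟫_ℂ = ⟪q ξ, x ξ⟫_ℂ := by
    obtain ⟨y, hy, -⟩ := S.exists_hull (ι := Unit) (fun _ => x) (fun _ => hx)
    exact ⟨y (), (hy ()).1, (hy ()).2.1, (hy ()).2.2⟩
  rw [EQ, dif_pos h]
  exact h.choose_spec

lemma EQ_mem {x : H →L[ℂ] H} (hx : x ∈ M) : EQ M N ξ x ∈ Qalg M N ξ := (S.EQ_spec hx).1

lemma EQ_inner {x q : H →L[ℂ] H} (hx : x ∈ M) (hq : q ∈ Qalg M N ξ) :
    ⟪q ξ, EQ M N ξ x ξ⟫_ℂ = ⟪q ξ, x ξ⟫_ℂ := (S.EQ_spec hx).2.2 q hq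

lemma EQ_unique {x y : H →L[ℂ] H} (hx : x ∈ M) (hy : y ∈ Qalg M N ξ)
    (h : ∀ q ∈ Qalg M N ξ, ⟪q ξ, y ξ⟫_ℂ = ⟪q ξ, x ξ⟫_ℂ) : EQ M N ξ x = y := by
  have hd : EQ M N ξ x - y ∈ Qalg M N ξ := sub_mem (S.EQ_mem hx) hy
  have h1 : ⟪(EQ M N ξ x - y) ξ, (EQ M N ξ x - y) ξ⟫_ℂ = 0 := by
    have e1 : (EQ M N ξ x - y) ξ = EQ M N ξ x ξ - y ξ := rfl
    conv_lhs => rw [show ⟪(EQ M N ξ x - y) ξ, (EQ M N ξ x - y) ξ⟫_ℂ =
      ⟪(EQ M N ξ x - y) ξ, EQ M N ξ x ξ - y ξ⟫_ℂ from rfl]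
    rw [inner_sub_right, S.EQ_inner hx hd, h _ hd, sub_self]
  exact sub_eq_zero.1 (S.sep _ (mem_Qalg.1 hd).1 (inner_self_eq_zero.1 h1))

end Setting

end Pool.Agent.Helper23

end

end

section

section

open scoped InnerProductSpace Topology BoundedContinuousFunction FourierTransform ENNReal

open ContinuousLinearMap Filter MeasureTheory

set_option linter.unusedSectionVars false

namespace Pool.Agent.Helper23

variable {H : Type*} [NormedAddCommGroup H] [InnerProductSpace ℂ H] [CompleteSpace H]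

lemma psi_expB_norm (Ψ : (ℝ →ᵇ ℂ) →⋆ₐ[ℂ] (H →L[ℂ] H)) (t : ℝ) (v : H) :
    ‖Ψ (expB t) v‖ = ‖v‖ := norm_of_isom (psi_expB_isom Ψ t) v

end Pool.Agent.Helper23

end

section

open scoped InnerProductSpace Topology BoundedContinuousFunction FourierTransform ENNReal

open ContinuousLinearMap Filter MeasureTheory

set_option linter.unusedSectionVars false

namespace Pool.Agent.Helper23

variable {H : Type*} [NormedAddCommGroup H] [InnerProductSpace ℂ H] [CompleteSpace H]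

namespace Modular

variable {A : VonNeumannAlgebra H} {ξ : H} {R : H →L[ℂ] H} {D : H →L[ℝ] H}
  {Ψ : (ℝ →ᵇ ℂ) →⋆ₐ[ℂ] (H →L[ℂ] H)} (h : Modular A ξ R D Ψ)

include h

/-- the Fourier integral formula -/
theorem integral_psi {k : ℝ → ℂ} (hk : Integrable k) {K : ℝ →ᵇ ℂ}
    (hK : ∀ ρ, K ρ = ∫ t, k t * expB (2 * Real.pi * t) ρ) (v w : H) :
    ∫ t, k t * ⟪v, Ψ (expB (2 * Real.pi * t)) w⟫_ℂ = ⟪v, Ψ K w⟫_ℂ := by
  have hlim : Tendsto (fun n : ℕ => Ψ (cutB n) w) atTop (𝓝 w) := by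
    have := h.psi_cont cutB 1 1 cutB_norm cutB_tendsto w
    rwa [map_one, one_apply_eq_self] at this
  have h1 : Tendsto (fun n : ℕ => ⟪v, Ψ K (Ψ (cutB n) w)⟫_ℂ) atTop (𝓝 ⟪v, Ψ K w⟫_ℂ) := by
    have hc : Continuous fun w : H => ⟪v, Ψ K w⟫_ℂ := by fun_prop
    exact (hc.tendsto w).comp hlim
  have hm : ∀ w : H, AEStronglyMeasurable
      (fun t : ℝ => k t * ⟪v, Ψ (expB (2 * Real.pi * t)) w⟫_ℂ) volume := by
    intro w
    refine hk.aestronglyMeasurable.mul ?_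
    exact ((continuous_const.inner (h.U_cont w)).comp
      (by fun_prop : Continuous fun t : ℝ => 2 * Real.pi * t)).aestronglyMeasurable
  have h2 : Tendsto (fun n : ℕ => ∫ t, k t * ⟪v, Ψ (expB (2 * Real.pi * t)) (Ψ (cutB n) w)⟫_ℂ)
      atTop (𝓝 (∫ t, k t * ⟪v, Ψ (expB (2 * Real.pi * t)) w⟫_ℂ)) := by
    refine tendsto_integral_of_dominated_convergence (fun t => ‖k t‖ * (‖v‖ * ‖w‖))
      (fun n => hm _) (hk.norm.mul_const _) (fun n => Eventually.of_forall fun t => ?_)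
      (Eventually.of_forall fun t => ?_)
    · rw [norm_mul]
      refine mul_le_mul_of_nonneg_left ?_ (norm_nonneg _)
      refine (norm_inner_le_norm _ _).trans ?_
      rw [psi_expB_norm]
      refine mul_le_mul_of_nonneg_left ?_ (norm_nonneg _)
      have := (Ψ (cutB n)).le_of_opNorm_le ((psi_norm_le Ψ _).trans (cutB_norm n)) w
      rwa [one_mul] at this
    · have hc : Continuous fun w : H => k t * ⟪v, Ψ (expB (2 * Real.pi * t)) w⟫_ℂ := by fun_prop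
      exact (hc.tendsto w).comp hlim
  refine tendsto_nhds_unique h2 ?_
  simp only [h.integral_cut hk hK]
  exact h1

end Modular

end Pool.Agent.Helper23

end

section

open scoped InnerProductSpace Topology BoundedContinuousFunction

open ContinuousLinearMap Filter MeasureTheory

namespace Pool.Agent.Helper70.U8

open Pool.Agent.Helper23

variable {H : Type*} [NormedAddCommGroup H] [InnerProductSpace ℂ H] [CompleteSpace H]

variable {A : VonNeumannAlgebra H} {ξ : H} {R : H →L[ℂ] H} {D : H →L[ℝ] H}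
  {Ψ : (ℝ →ᵇ ℂ) →⋆ₐ[ℂ] (H →L[ℂ] H)}

lemma V_norm (t : ℝ) (v : H) : ‖V Ψ t v‖ = ‖v‖ := psi_expB_norm Ψ _ v

end Pool.Agent.Helper70.U8

end

section

open scoped InnerProductSpace Topology BoundedContinuousFunction

open ContinuousLinearMap Filter MeasureTheory

namespace Pool.Agent.Helper88.CS

open Pool.Agent.Helper23

open Pool.Agent.Helper78.BC (Std Fixed)

variable {H : Type*} [NormedAddCommGroup H] [InnerProductSpace ℂ H] [CompleteSpace H]

variable {A : VonNeumannAlgebra H} {ξ : H} {J : H →L[ℝ] H}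
  {Ψ : (ℝ →ᵇ ℂ) →⋆ₐ[ℂ] (H →L[ℂ] H)} {R : H →L[ℂ] H} {D : H →L[ℝ] H}

namespace CentAux

open Pool.Agent.Helper78.BC (fixed_of J_of_fixed)

open Pool.Agent.Helper78.BC.FixAux (Pl Pl_apply plat plat_cont norm_Pl_le Pl_tendsto mm_zero mm_nonneg mm_le)

open Pool.Agent.Helper70.U8 (GB GB_apply kg kg_int kg_fourier)

/-- commutation with the Gaussians -/
theorem comm_GB (h : Modular A ξ R D Ψ) {e : H →L[ℂ] H}
    (hc : ∀ t : ℝ, e * Ψ (expB t) = Ψ (expB t) * e) {ε : ℝ} (hε : 0 < ε) (κ : ℝ) :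
    e * Ψ (GB ε hε κ) = Ψ (GB ε hε κ) * e := by
  ext w
  refine ext_inner_left ℂ fun v => ?_
  have hK : ∀ ρ, GB ε hε κ ρ = ∫ t, kg ε κ t * expB (2 * Real.pi * t) ρ := fun ρ => by
    rw [GB_apply]
    exact kg_fourier hε κ ρ
  rw [mul_apply_eq_comp, mul_apply_eq_comp, ← h.integral_psi (kg_int hε κ) hK v (e w),
    ← star_star e, inner_star_right, ← h.integral_psi (kg_int hε κ) hK (star e v) w]
  congr 1
  funext t
  have h1 := congrArg (fun T : H →L[ℂ] H => T w) (hc (2 * Real.pi * t))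
  simp only [mul_apply_eq_comp] at h1
  rw [star_star, ← h1, ← inner_star_right, star_star]

end CentAux

end Pool.Agent.Helper88.CS

end

end

section

section

open scoped InnerProductSpace Topology BoundedContinuousFunction

open ContinuousLinearMap Filter

namespace Pool.Agent.Helper23

variable {H : Type*} [NormedAddCommGroup H] [InnerProductSpace ℂ H] [CompleteSpace H]

variable {M N : VonNeumannAlgebra H} {ξ : H} {E : (H →L[ℂ] H) → (H →L[ℂ] H)}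

/-- bounded sequences in `N` with `‖a_n φ - l φ a_n‖ → 0` -/
def LamSeq (N : VonNeumannAlgebra H) (ξ : H) (l : ℝ) (a : ℕ → H →L[ℂ] H) : Prop :=
  (∀ n, a n ∈ N) ∧ (∃ C : ℝ, ∀ n, ‖a n‖ ≤ C) ∧ Dseq N ξ l a

/-- sequences of unitaries asymptotically commuting with the state -/
def ACU (N : VonNeumannAlgebra H) (ξ : H) (u : ℕ → H →L[ℂ] H) : Prop :=
  (∀ n, u n ∈ N) ∧ (∀ n, star (u n) * u n = 1) ∧ (∀ n, u n * star (u n) = 1) ∧ Dseq N ξ 1 u

/-- the relative bicentralizer -/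
def Bicent (M N : VonNeumannAlgebra H) (ξ : H) : Set (H →L[ℂ] H) :=
  {x | x ∈ M ∧ ∀ a, LamSeq N ξ 1 a → ∀ η,
    Tendsto (fun n => x (a n η) - a n (x η)) atTop (𝓝 0)}

end Pool.Agent.Helper23

end

section

open scoped InnerProductSpace Topology

open ContinuousLinearMap Filter

namespace Pool.Agent.Helper23

variable {H : Type*} [NormedAddCommGroup H] [InnerProductSpace ℂ H] [CompleteSpace H]

variable {K : Type*} [NormedAddCommGroup K] [InnerProductSpace ℂ K] [CompleteSpace K]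

/-- the relative bicentralizer flow -/
noncomputable def btU (M N : VonNeumannAlgebra H) (ξ : H) (l : ℝ) (x : H →L[ℂ] H) :
    H →L[ℂ] H :=
  open Classical in
  if h : ∃ y ∈ Bicent M N ξ, ∀ a, LamSeq N ξ l a →
    Tendsto (fun n => a n (x ξ) - y (a n ξ)) atTop (𝓝 0) then h.choose else 0

end Pool.Agent.Helper23

end

end

section

section

open scoped InnerProductSpace TensorProduct

open ContinuousLinearMap

namespace Pool.Agent.Helper23

variable {H : Type*} [NormedAddCommGroup H] [InnerProductSpace ℂ H] [CompleteSpace H]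

variable {M N : VonNeumannAlgebra H} {ξ : H} {E : (H →L[ℂ] H) → (H →L[ℂ] H)}

lemma star_mul_mem_eig_one {γ : ℝ} (hγ : γ ≠ 0) {a b : H →L[ℂ] H} (ha : a ∈ eig N ξ γ)
    (hb : b ∈ eig N ξ γ) : star a * b ∈ eig N ξ 1 := by
  have := eig_mul (eig_star hγ ha) hb
  rwa [inv_mul_cancel₀ hγ] at this

end Pool.Agent.Helper23

end

section

open scoped InnerProductSpace

open ContinuousLinearMap Filter

namespace Pool.Agent.Helper23

variable {H : Type*} [NormedAddCommGroup H] [InnerProductSpace ℂ H] [CompleteSpace H]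

variable {M N : VonNeumannAlgebra H} {ξ : H} {E : (H →L[ℂ] H) → (H →L[ℂ] H)}

lemma eig_mul_left {γ : ℝ} {a b : H →L[ℂ] H} (ha : a ∈ eig N ξ 1) (hb : b ∈ eig N ξ γ) :
    a * b ∈ eig N ξ γ := by
  have := eig_mul ha hb
  rwa [one_mul] at this

lemma eig_mul_right {γ : ℝ} {a b : H →L[ℂ] H} (ha : a ∈ eig N ξ γ) (hb : b ∈ eig N ξ 1) :
    a * b ∈ eig N ξ γ := by
  have := eig_mul ha hb
  rwa [mul_one] at this

namespace Setting

variable (S : Setting M N E ξ)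

include S

/-- The averaging inequality. -/
theorem avg_le {ι : Type*} [Fintype ι] {x : ι → H →L[ℂ] H} (hx : ∀ i, x i ∈ M)
    (w w' : ι → H) {c : ℝ}
    (h : ∀ u ∈ Ucent N ξ, c ≤ ∑ i, (⟪w i, (star u * x i * u) (w' i)⟫_ℂ).re) :
    c ≤ ∑ i, (⟪w i, EQ M N ξ (x i) (w' i)⟫_ℂ).re := by
  classical
  obtain ⟨y, hy, hyK⟩ := S.exists_hull x hx
  have hyE : ∀ i, y i = EQ M N ξ (x i) := fun i =>
    (S.EQ_unique (hx i) (hy i).1 (hy i).2.2).symm
  refine le_of_forall_pos_le_add fun ε hε => ?_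
  -- approximate the vectors `w' i`
  set C : ℝ := ∑ i, ‖w i‖ * ‖x i‖ with hC
  have hC0 : 0 ≤ C := Finset.sum_nonneg fun i _ => by (clear * -; positivity)
  have happ : ∀ i, ∃ m ∈ M.commutant, ‖w' i - m ξ‖ ≤ ε / (2 * (C + 1)) := by
    intro i
    obtain ⟨v, hv, hvw⟩ := Metric.dense_iff.1 S.dense_comm (w' i) (ε / (2 * (C + 1)))
      (by (clear * - hε; positivity))
    obtain ⟨m, hm, rfl⟩ := hvw
    refine ⟨m, hm, ?_⟩
    rw [Metric.mem_ball, dist_eq_norm, norm_sub_rev] at hv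
    exact hv.le
  choose m hm hmw using happ
  -- error estimate
  have herr : ∀ z : ι → H →L[ℂ] H, (∀ i, ‖z i‖ ≤ ‖x i‖) →
      |∑ i, (⟪w i, z i (w' i)⟫_ℂ).re - ∑ i, (⟪w i, z i (m i ξ)⟫_ℂ).re| ≤ ε / 2 := by
    intro z hz
    rw [← Finset.sum_sub_distrib]
    refine (Finset.abs_sum_le_sum_abs _ _).trans ?_
    have h1 : ∀ i ∈ Finset.univ, |(⟪w i, z i (w' i)⟫_ℂ).re - (⟪w i, z i (m i ξ)⟫_ℂ).re| ≤
        (‖w i‖ * ‖x i‖) * (ε / (2 * (C + 1))) := by
      intro i _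
      rw [← Complex.sub_re, ← inner_sub_right, ← map_sub]
      refine (Complex.abs_re_le_norm _).trans ((norm_inner_le_norm _ _).trans ?_)
      rw [mul_assoc]
      gcongr
      refine ((z i).le_opNorm _).trans ?_
      gcongr
      exacts [hz i, hmw i]
    refine (Finset.sum_le_sum h1).trans ?_
    rw [← Finset.sum_mul, ← hC]
    calc C * (ε / (2 * (C + 1))) ≤ (C + 1) * (ε / (2 * (C + 1))) := by gcongr; linarith
      _ = ε / 2 := by (clear * - hC0 hε; field_simp)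
  -- the functional on the hull
  have hfun : ∀ z : ι → H →L[ℂ] H, (∀ i, z i ∈ M) → ∑ i, (⟪w i, z i (m i ξ)⟫_ℂ).re =
      ∑ i, (⟪(star (m i)) (w i), z i ξ⟫_ℂ).re := by
    intro z hz
    refine Finset.sum_congr rfl fun i _ => ?_
    rw [commute_apply (hz i) (hm i), inner_star_left]
  set F : Set (PiLp 2 (fun _ : ι => H)) :=
    {v | c - ε / 2 ≤ ∑ i, (⟪(star (m i)) (w i), v i⟫_ℂ).re} with hF
  have hFcl : IsClosed F := by
    refine isClosed_le continuous_const ?_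
    refine continuous_finsetSum _ fun i _ => ?_
    refine Complex.continuous_re.comp (Continuous.inner continuous_const ?_)
    exact (PiLp.proj (𝕜 := ℂ) 2 (fun _ : ι => H) i).continuous
  have hFconv : Convex ℝ F := by
    intro v hv v' hv' s t hs ht hst
    have e1 : ∀ i, (s • v + t • v') i = (s : ℂ) • v i + (t : ℂ) • v' i := by
      intro i
      rw [Complex.coe_smul, Complex.coe_smul]; rfl
    change c - ε / 2 ≤ ∑ i, (⟪(star (m i)) (w i), (s • v + t • v') i⟫_ℂ).re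
    have e2 : ∑ i, (⟪(star (m i)) (w i), (s • v + t • v') i⟫_ℂ).re =
        s * ∑ i, (⟪(star (m i)) (w i), v i⟫_ℂ).re +
          t * ∑ i, (⟪(star (m i)) (w i), v' i⟫_ℂ).re := by
      rw [Finset.mul_sum, Finset.mul_sum, ← Finset.sum_add_distrib]
      refine Finset.sum_congr rfl fun i _ => ?_
      rw [e1, inner_add_right, inner_smul_right, inner_smul_right, Complex.add_re,
        Complex.re_ofReal_mul, Complex.re_ofReal_mul]
    rw [e2]
    calc c - ε / 2 = s * (c - ε / 2) + t * (c - ε / 2) := by rw [← add_mul, hst, one_mul]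
      _ ≤ _ := by
        gcongr
        exacts [hv, hv']
  have hFsub : {v : PiLp 2 (fun _ : ι => H) | ∃ u ∈ Ucent N ξ,
          v = WithLp.toLp 2 (fun i => (star u * x i * u) ξ)} ⊆ F := by
    rintro _ ⟨u, hu, rfl⟩
    have huM : u ∈ M := S.le u hu.1.1
    change c - ε / 2 ≤ ∑ i, (⟪(star (m i)) (w i), (star u * x i * u) ξ⟫_ℂ).re
    rw [← hfun (fun i => star u * x i * u)
      (fun i => mul_mem (mul_mem (star_mem huM) (hx i)) huM)]
    have h1 := herr (fun i => star u * x i * u) (fun i => Ucent_conj_norm hu (x i))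
    have h2 := h u hu
    have h3 := (abs_le.1 h1).2
    (clear * - h2 h3; linarith)
  have h1 : c - ε / 2 ≤ ∑ i, (⟪(star (m i)) (w i), y i ξ⟫_ℂ).re :=
    closure_minimal (convexHull_min hFsub hFconv) hFcl hyK
  rw [← hfun y (fun i => (mem_Qalg.1 (hy i).1).1)] at h1
  have h2 := (abs_le.1 (herr y (fun i => (hy i).2.1))).1
  simp only [hyE] at h1 h2
  (clear * - h1 h2; linarith)

end Setting

namespace AP

variable (S : AP M N E ξ)

include S

/-- the inner product of an element of `Q` and an element of `N` -/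
lemma inner_Q_N {q x : H →L[ℂ] H} (hq : q ∈ Qalg M N ξ) (hx : x ∈ N) :
    ⟪q ξ, x ξ⟫_ℂ = ⟪q ξ, ξ⟫_ℂ * ⟪ξ, x ξ⟫_ℂ := by
  have h1 := S.inner_Q S.irr hq hx (one_mem N)
  rw [one_apply_eq_self] at h1
  rw [← inner_conj_symm, h1, map_mul, inner_conj_symm, inner_conj_symm]

lemma EQ_N {x : H →L[ℂ] H} (hx : x ∈ N) : EQ M N ξ x = ⟪ξ, x ξ⟫_ℂ • (1 : H →L[ℂ] H) := by
  refine S.EQ_unique (S.le x hx) (smul_mem' _ (one_mem _)) fun q hq => ?_
  rw [S.inner_Q_N hq hx, smul_apply, one_apply_eq_self, inner_smul_right, mul_comm]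

/-- averaging inequality for elements of `N` -/
theorem avgN_le {ι : Type*} [Fintype ι] {x : ι → H →L[ℂ] H} (hx : ∀ i, x i ∈ N)
    (w w' : ι → H) {c : ℝ}
    (h : ∀ u ∈ Ucent N ξ, c ≤ ∑ i, (⟪w i, (star u * x i * u) (w' i)⟫_ℂ).re) :
    c ≤ ∑ i, (⟪ξ, x i ξ⟫_ℂ * ⟪w i, w' i⟫_ℂ).re := by
  have h1 := S.avg_le (fun i => S.le _ (hx i)) w w' h
  refine h1.trans_eq (Finset.sum_congr rfl fun i _ => ?_)
  rw [S.EQ_N (hx i), smul_apply, one_apply_eq_self, inner_smul_right]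

/-- functional version -/
theorem exists_avg {x : H →L[ℂ] H} (hx : x ∈ N) (w : H) {c : ℝ}
    (hc : c < (⟪w, ⟪ξ, x ξ⟫_ℂ • ξ⟫_ℂ).re) :
    ∃ u ∈ Ucent N ξ, c < (⟪w, (star u * x * u) ξ⟫_ℂ).re := by
  by_contra hcon
  push Not at hcon
  have h1 := S.avgN_le (ι := Unit) (x := fun _ => x) (fun _ => hx) (fun _ => -w) (fun _ => ξ)
    (c := -c) (fun u hu => by
      have := hcon u hu
      simp only [Finset.univ_unique, Finset.sum_singleton, inner_neg_left, Complex.neg_re]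
      (clear * - this; linarith))
  simp only [Finset.univ_unique, Finset.sum_singleton, inner_neg_left, mul_neg,
    Complex.neg_re] at h1
  rw [inner_smul_right] at hc
  (clear * - hc h1; linarith)

end AP

end Pool.Agent.Helper23

end

section

open scoped InnerProductSpace

open ContinuousLinearMap Filter

namespace Pool.Agent.Helper23

variable {H : Type*} [NormedAddCommGroup H] [InnerProductSpace ℂ H] [CompleteSpace H]

variable {M N : VonNeumannAlgebra H} {ξ : H} {E : (H →L[ℂ] H) → (H →L[ℂ] H)}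

lemma exists_sqrt {γ : ℝ} (hγ : γ ≠ 0) {v : H →L[ℂ] H} (hv : v ∈ eig N ξ γ) (hv1 : ‖v‖ ≤ 1) :
    ∃ a ∈ eig N ξ 1, ∃ k ∈ eig N ξ 1, star a = a ∧ star k = k ∧ a * a = 1 - star v * v ∧
      (1 + a) * k = 1 ∧ k * (1 + a) = 1 := by
  have hx : star v * v ∈ eig N ξ 1 := star_mul_mem_eig_one hγ hv hv
  obtain ⟨a, k, h1, h2, h3, h4, h5⟩ := exists_sqrt_abs (A := cent N ξ)
    (x := ⟨star v * v, hx⟩) (by
      rw [IsSelfAdjoint]
      apply Subtype.ext
      change star (star v * v) = star v * v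
      rw [star_mul, star_star]) (by
      change ‖star v * v‖ ≤ 1
      rw [CStarRing.norm_star_mul_self]
      nlinarith [norm_nonneg v])
  have hc : ∀ {x y : cent N ξ}, x = y → (x : H →L[ℂ] H) = y := fun h => by rw [h]
  exact ⟨a, a.2, k, k.2, hc h1, hc h2, hc h3, hc h4, hc h5⟩

namespace AP

variable (S : AP M N E ξ)

include S

/-- two-sided averaging: there is a rotated copy of `w₀` not orthogonal to the corners. -/
lemma exists_rot {γ : ℝ} (hγ : 0 < γ) {w₀ : H →L[ℂ] H} (hw₀ : w₀ ∈ eig N ξ γ) (hw1 : ‖w₀‖ ≤ 1)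
    {a b : H →L[ℂ] H} (ha : a ∈ eig N ξ 1) (hb : b ∈ eig N ξ 1) (ha0 : a ≠ 0) (hb0 : b ≠ 0)
    (hw0 : w₀ ≠ 0) :
    ∃ w ∈ eig N ξ γ, ‖w‖ ≤ 1 ∧
      ‖(b * w * a) ξ‖ ^ 2 ≥ (1 / 4) * (‖b ξ‖ ^ 2 * ‖w₀ ξ‖ ^ 2 * ‖a ξ‖ ^ 2) := by
  have hne : ∀ {c : H →L[ℂ] H}, c ∈ N → c ≠ 0 → 0 < ‖c ξ‖ := by
    intro c hc hc0
    exact norm_pos_iff.2 fun h => hc0 (S.sep c (S.le c hc) h)
  have ha' := hne ha.1 ha0
  have hb' := hne hb.1 hb0
  have hw' := hne hw₀.1 hw0
  -- first average: rotate star w₀ * w₀ on the right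
  have hφ : ∀ c : H →L[ℂ] H, ⟪ξ, (star c * c) ξ⟫_ℂ = ((‖c ξ‖ ^ 2 : ℝ) : ℂ) := by
    intro c
    rw [norm_sq_apply]; rfl
  -- conjugation of star c * c
  have hconj : ∀ c u : H →L[ℂ] H, star u * (star c * c) * u = star (c * u) * (c * u) := by
    intro c u
    rw [star_mul]; simp only [mul_assoc]
  -- step A
  have hx1 : star w₀ * w₀ ∈ eig N ξ 1 := star_mul_mem_eig_one hγ.ne' hw₀ hw₀
  obtain ⟨a', ha'M, ha'⟩ := S.exists_right one_pos ha
  -- the functional y ↦ ⟪a ξ, y (a ξ)⟫ = ⟪a ξ, a' (y ξ)⟫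
  obtain ⟨u₂, hu₂, h2⟩ := S.exists_avg hx1.1 ((star a') (a ξ))
    (c := (1 / 2) * (‖w₀ ξ‖ ^ 2 * ‖a ξ‖ ^ 2)) (by
      rw [inner_star_left, map_smul, inner_smul_right, hφ]
      have h3 : a' ξ = a ξ := by
        have := ha' 1 (one_mem M)
        simpa using this
      rw [h3, inner_self_eq_norm_sq_to_K]
      have : (((‖w₀ ξ‖ ^ 2 : ℝ) : ℂ) * ((‖a ξ‖ : ℂ)) ^ 2).re = ‖w₀ ξ‖ ^ 2 * ‖a ξ‖ ^ 2 := by
        norm_cast
      change _ < (((‖w₀ ξ‖ ^ 2 : ℝ) : ℂ) * ((‖a ξ‖ : ℂ)) ^ 2).re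
      rw [this]
      have : 0 < ‖w₀ ξ‖ ^ 2 * ‖a ξ‖ ^ 2 := by positivity
      linarith)
  have h2' : (1 / 2) * (‖w₀ ξ‖ ^ 2 * ‖a ξ‖ ^ 2) < ‖(w₀ * u₂ * a) ξ‖ ^ 2 := by
    rw [hconj, inner_star_left] at h2
    have hmem : star (w₀ * u₂) * (w₀ * u₂) ∈ M :=
      mul_mem (star_mem (mul_mem (S.le _ hw₀.1) (S.le _ hu₂.1.1)))
        (mul_mem (S.le _ hw₀.1) (S.le _ hu₂.1.1))
    rw [ha' _ hmem] at h2
    have h4 : ⟪a ξ, (star (w₀ * u₂) * (w₀ * u₂)) (a ξ)⟫_ℂ =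
        ((‖(w₀ * u₂ * a) ξ‖ ^ 2 : ℝ) : ℂ) := by
      rw [norm_sq_apply, inner_star_right]
      change ⟪a ξ, (star (w₀ * u₂)) ((w₀ * u₂) (a ξ))⟫_ℂ = _
      rw [inner_star_right]
      rfl
    rw [h4, Complex.ofReal_re] at h2
    exact h2
  -- step B
  set c := w₀ * u₂ * a with hc
  have hcg : c ∈ eig N ξ γ := eig_mul_right (eig_mul_right hw₀ hu₂.1) ha
  have hcpos : 0 < ‖c ξ‖ := by
    have : 0 < ‖c ξ‖ ^ 2 := lt_of_le_of_lt (by positivity) h2'
    by_contra hcon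
    push Not at hcon
    have : ‖c ξ‖ = 0 := le_antisymm hcon (norm_nonneg _)
    rw [this] at h2'
    have h5 : 0 ≤ (1 / 2) * (‖w₀ ξ‖ ^ 2 * ‖a ξ‖ ^ 2) := by positivity
    norm_num at h2'
    (clear * - h5 h2'; linarith)
  obtain ⟨c', hc'M, hc'⟩ := S.exists_right hγ hcg
  have hx2 : star b * b ∈ eig N ξ 1 := star_mul_mem_eig_one one_ne_zero hb hb
  obtain ⟨u₁, hu₁, h1⟩ := S.exists_avg hx2.1 ((star c') (c ξ))
    (c := (1 / 2) * (‖b ξ‖ ^ 2 * ‖c ξ‖ ^ 2)) (by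
      rw [inner_star_left, map_smul, inner_smul_right, hφ]
      have h3 : c' ξ = c ξ := by
        have := hc' 1 (one_mem M)
        simpa using this
      rw [h3, inner_self_eq_norm_sq_to_K]
      have : (((‖b ξ‖ ^ 2 : ℝ) : ℂ) * ((‖c ξ‖ : ℂ)) ^ 2).re = ‖b ξ‖ ^ 2 * ‖c ξ‖ ^ 2 := by
        norm_cast
      change _ < (((‖b ξ‖ ^ 2 : ℝ) : ℂ) * ((‖c ξ‖ : ℂ)) ^ 2).re
      rw [this]
      have : 0 < ‖b ξ‖ ^ 2 * ‖c ξ‖ ^ 2 := by (clear * - hb' hcpos; positivity)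
      (clear * - this; linarith))
  have h1' : (1 / 2) * (‖b ξ‖ ^ 2 * ‖c ξ‖ ^ 2) < ‖(b * u₁ * c) ξ‖ ^ 2 := by
    rw [hconj, inner_star_left] at h1
    have hmem : star (b * u₁) * (b * u₁) ∈ M :=
      mul_mem (star_mem (mul_mem (S.le _ hb.1) (S.le _ hu₁.1.1)))
        (mul_mem (S.le _ hb.1) (S.le _ hu₁.1.1))
    rw [hc' _ hmem] at h1
    have h4 : ⟪c ξ, (star (b * u₁) * (b * u₁)) (c ξ)⟫_ℂ =
        ((‖(b * u₁ * c) ξ‖ ^ 2 : ℝ) : ℂ) := by
      rw [norm_sq_apply, inner_star_right]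
      change ⟪c ξ, (star (b * u₁)) ((b * u₁) (c ξ))⟫_ℂ = _
      rw [inner_star_right]
      rfl
    rw [h4, Complex.ofReal_re] at h1
    exact h1
  refine ⟨u₁ * w₀ * u₂, eig_mul_right (eig_mul_left hu₁.1 hw₀) hu₂.1, ?_, ?_⟩
  · refine ContinuousLinearMap.opNorm_le_bound _ zero_le_one fun ζ => ?_
    change ‖u₁ (w₀ (u₂ ζ))‖ ≤ _
    rw [norm_of_isom hu₁.2.1]
    refine (w₀.le_of_opNorm_le hw1 _).trans ?_
    rw [norm_of_isom hu₂.2.1]
  · have h6 : b * (u₁ * w₀ * u₂) * a = b * u₁ * c := by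
      rw [hc]; simp only [mul_assoc]
    rw [h6]
    have h7 : (1 / 2) * (‖b ξ‖ ^ 2 * ((1 / 2) * (‖w₀ ξ‖ ^ 2 * ‖a ξ‖ ^ 2))) ≤
        (1 / 2) * (‖b ξ‖ ^ 2 * ‖c ξ‖ ^ 2) := by (clear * - h2' hb'; gcongr)
    (clear * - h1' h7; linarith)

end AP

end Pool.Agent.Helper23

end

section

open scoped InnerProductSpace

open ContinuousLinearMap Filter

namespace Pool.Agent.Helper23

variable {H : Type*} [NormedAddCommGroup H] [InnerProductSpace ℂ H] [CompleteSpace H]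

variable {M N : VonNeumannAlgebra H} {ξ : H} {E : (H →L[ℂ] H) → (H →L[ℂ] H)}

namespace AP

variable (S : AP M N E ξ)

include S

/-- explicit convex combinations approximating the state -/
lemma exists_comb {ι : Type*} [Fintype ι] {x : ι → H →L[ℂ] H} (hx : ∀ i, x i ∈ N) {δ : ℝ}
    (hδ : 0 < δ) : ∃ (J : Type) (t : Finset J) (r : J → ℝ) (u : J → H →L[ℂ] H),
      (∀ j ∈ t, 0 ≤ r j) ∧ ∑ j ∈ t, r j = 1 ∧ (∀ j ∈ t, u j ∈ Ucent N ξ) ∧
      ∀ i, ‖(∑ j ∈ t, (r j : ℂ) • (star (u j) * x i * u j)) ξ - ⟪ξ, x i ξ⟫_ℂ • ξ‖ ≤ δ := by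
  obtain ⟨y, hy, hyK⟩ := S.exists_hull x (fun i => S.le _ (hx i))
  have hyE : ∀ i, y i = ⟪ξ, x i ξ⟫_ℂ • (1 : H →L[ℂ] H) := by
    intro i
    rw [← S.EQ_N (hx i), S.EQ_unique (S.le _ (hx i)) (hy i).1 (hy i).2.2]
  obtain ⟨v, hv, hvd⟩ := Metric.mem_closure_iff.1 hyK δ hδ
  rw [convexHull_eq] at hv
  obtain ⟨J, t, r, z, hr, hr1, hz, hzv⟩ := hv
  choose! u hu huz using hz
  refine ⟨J, t, r, u, hr, hr1, hu, fun i => ?_⟩
  have h1 : (∑ j ∈ t, (r j : ℂ) • (star (u j) * x i * u j)) ξ = v i := by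
    rw [← hzv, Finset.centerMass_eq_of_sum_1 _ _ hr1]
    have h2 : (∑ j ∈ t, r j • z j) i = ∑ j ∈ t, (r j • z j) i := by
      have := map_sum (PiLp.proj (𝕜 := ℂ) 2 (fun _ : ι => H) i) (fun j => r j • z j) t
      exact this
    rw [h2, sum_apply]
    refine Finset.sum_congr rfl fun j hj => ?_
    rw [huz j hj, smul_apply, Complex.coe_smul]
    rfl
  rw [h1, norm_sub_rev]
  have h3 : ⟪ξ, x i ξ⟫_ℂ • ξ - v i = (WithLp.toLp 2 (fun i => y i ξ) - v) i := by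
    change _ = y i ξ - v i
    rw [hyE]; rfl
  rw [h3]
  refine (PiLp.norm_apply_le _ i).trans ?_
  rw [dist_eq_norm] at hvd
  exact hvd.le

end AP

end Pool.Agent.Helper23

end

end

section

section

open scoped InnerProductSpace Topology BoundedContinuousFunction

open ContinuousLinearMap Filter

namespace Pool.Agent.Helper23

variable {H : Type*} [NormedAddCommGroup H] [InnerProductSpace ℂ H] [CompleteSpace H]

variable {M N : VonNeumannAlgebra H} {ξ : H} {E : (H →L[ℂ] H) → (H →L[ℂ] H)}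

lemma norm_le_one_of_isom {v : H →L[ℂ] H} (h : star v * v = 1) : ‖v‖ ≤ 1 :=
  ContinuousLinearMap.opNorm_le_bound _ zero_le_one fun ζ => by
    rw [norm_of_isom h, one_mul]

namespace AP

variable (S : AP M N E ξ)

include S

omit S in
lemma ACU_lamSeq {u : ℕ → H →L[ℂ] H} (hu : ACU N ξ u) : LamSeq N ξ 1 u :=
  ⟨hu.1, ⟨1, fun n => norm_le_one_of_isom (hu.2.1 n)⟩, hu.2.2.2⟩

end AP

end Pool.Agent.Helper23

end

end

section

section

open scoped InnerProductSpace Topology BoundedContinuousFunction FourierTransform ENNReal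

open ContinuousLinearMap Filter MeasureTheory

set_option linter.unusedSectionVars false

namespace Pool.Agent.Helper23

variable {H : Type*} [NormedAddCommGroup H] [InnerProductSpace ℂ H] [CompleteSpace H]

variable {M N : VonNeumannAlgebra H} {ξ : H} {E : (H →L[ℂ] H) → (H →L[ℂ] H)}

namespace Setting

variable (S : Setting M N E ξ)

include S

lemma norm_le_of_orb {c : H →L[ℂ] H} (hc : c ∈ N) {C : ℝ} (hC : 0 ≤ C)
    (h : ∀ a ∈ N, ‖c (a ξ)‖ ≤ C * ‖a ξ‖) : ‖c‖ ≤ C := by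
  set b : H →L[ℂ] H := ((C ^ 2 : ℝ) : ℂ) • (1 : H →L[ℂ] H) - star c * c with hb
  have hbN : b ∈ N := sub_mem (smul_mem' _ (one_mem N)) (mul_mem (star_mem hc) hc)
  have hbs : IsSelfAdjoint b := by
    rw [isSelfAdjoint_iff, hb, star_sub, star_smul, star_one, star_mul, star_star]
    simp
  have hbv : ∀ v : H, (⟪v, b v⟫_ℂ).re = C ^ 2 * ‖v‖ ^ 2 - ‖c v‖ ^ 2 := by
    intro v
    have e1 : ⟪v, b v⟫_ℂ = ((C ^ 2 * ‖v‖ ^ 2 - ‖c v‖ ^ 2 : ℝ) : ℂ) := by
      rw [hb, sub_apply, smul_apply, one_apply_eq_self, inner_sub_right, inner_smul_right]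
      change _ - ⟪v, (star c) (c v)⟫_ℂ = _
      rw [← norm_sq_apply, inner_self_eq_norm_sq_to_K]
      push_cast
      rfl
    rw [e1, Complex.ofReal_re]
  obtain ⟨n, hn, s, hs, hbn, hpos⟩ := exists_negPart N hbN hbs
  have hsn : ∀ v : H, ⟪v, n v⟫_ℂ = ((‖s v‖ ^ 2 : ℝ) : ℂ) := by
    intro v
    rw [norm_sq_apply, ← hs]
    rfl
  have hns : star n = n := by rw [← hs, star_mul, star_star]
  have h1 : (⟪n ξ, b (n ξ)⟫_ℂ).re = -(‖s (n ξ)‖ ^ 2) := by
    have e1 : b (n ξ) = -(n (n ξ)) := congrArg (fun T : H →L[ℂ] H => T ξ) hbn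
    rw [e1, inner_neg_right, hsn, Complex.neg_re, Complex.ofReal_re]
  have h2 : 0 ≤ (⟪n ξ, b (n ξ)⟫_ℂ).re := by
    rw [hbv]
    have := pow_le_pow_left₀ (norm_nonneg _) (h n hn) 2
    rw [mul_pow] at this
    (clear * - this; linarith)
  have h3 : s (n ξ) = 0 := by
    have : ‖s (n ξ)‖ ^ 2 ≤ 0 := by (clear * - h1 h2; linarith)
    have h4 : ‖s (n ξ)‖ = 0 := by (clear * - h1 h2; nlinarith [norm_nonneg (s (n ξ))])
    exact norm_eq_zero.1 h4
  have h4 : (n * n) ξ = 0 := by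
    change n (n ξ) = 0
    rw [← hs]
    change (star s) (s ((star s * s) ξ)) = 0
    rw [hs, h3, map_zero]
  have h5 : n * n = 0 := S.sep _ (S.le _ (mul_mem hn hn)) h4
  have h6 : n = 0 := by
    ext v
    have e1 := norm_sq_apply n v
    have e2 : (star n) (n v) = 0 := by
      rw [hns]
      exact congrArg (fun T : H →L[ℂ] H => T v) h5
    rw [e2, inner_zero_right] at e1
    have e3 : ‖n v‖ ^ 2 = 0 := by exact_mod_cast e1
    exact norm_eq_zero.1 (pow_eq_zero_iff two_ne_zero |>.1 e3)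
  refine ContinuousLinearMap.opNorm_le_bound _ hC fun v => ?_
  refine (pow_le_pow_iff_left₀ (norm_nonneg _) (by (clear * - hC; positivity)) two_ne_zero).1 ?_
  have := hpos h6 v
  rw [hbv] at this
  rw [mul_pow]
  (clear * - this; linarith)

/-- the conditional expectation is contractive -/
lemma E_norm {x : H →L[ℂ] H} (hx : x ∈ M) : ‖E x‖ ≤ ‖x‖ := by
  refine S.norm_le_of_orb (S.E_mem x hx) (norm_nonneg _) fun a ha => ?_
  have h1 := S.E_inner (mul_mem (S.E_mem x hx) ha) ha hx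
  have h2 : ⟪E x (a ξ), E x (a ξ)⟫_ℂ = ⟪E x (a ξ), x (a ξ)⟫_ℂ := h1
  have h3 : ‖E x (a ξ)‖ ^ 2 ≤ ‖E x (a ξ)‖ * (‖x‖ * ‖a ξ‖) := by
    have h4 : ‖⟪E x (a ξ), E x (a ξ)⟫_ℂ‖ = ‖E x (a ξ)‖ ^ 2 := by
      rw [inner_self_eq_norm_sq_to_K]
      simp
    rw [← h4, h2]
    exact (norm_inner_le_norm _ _).trans
      (mul_le_mul_of_nonneg_left (x.le_opNorm _) (norm_nonneg _))
  by_contra hcon
  push Not at hcon
  have h5 : 0 ≤ ‖x‖ * ‖a ξ‖ := by (clear * -; positivity)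
  nlinarith [norm_nonneg (E x (a ξ))]

end Setting

end Pool.Agent.Helper23

end

section

open scoped InnerProductSpace Topology BoundedContinuousFunction ComplexOrder

open ContinuousLinearMap Filter

namespace Pool.Agent.Helper23

variable {H : Type*} [NormedAddCommGroup H] [InnerProductSpace ℂ H] [CompleteSpace H]

variable {M N : VonNeumannAlgebra H} {ξ : H} {E : (H →L[ℂ] H) → (H →L[ℂ] H)}

namespace Setting

variable (S : Setting M N E ξ)

include S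

/-- one-sided domination -/
lemma dom_of_defect {l δ δ' Cb : ℝ} (hl : 0 < l) (hδ : 0 ≤ δ) (hδ' : 0 ≤ δ')
    {a b : H →L[ℂ] H} (ha : a ∈ N) (ha1 : ‖a‖ ≤ 1)
    (hb : b ∈ N) (hb1 : ‖b‖ ≤ Cb) (hab : a * star a = 1 - star b * b)
    (hD : Defect N ξ l δ a) (hD' : Defect N ξ 1 δ' (star b)) {x : H →L[ℂ] H} (hx : x ∈ M)
    (hx0 : 0 ≤ x) :
    (⟪a ξ, x (a ξ)⟫_ℂ).re ≤ l * (⟪ξ, x ξ⟫_ℂ).re + (δ + l * (δ' * Cb)) * ‖x‖ := by
  have hCb : 0 ≤ Cb := (norm_nonneg _).trans hb1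
  have hEx := S.E_mem x hx
  have hEn := S.E_norm hx
  have e1 : ⟪a ξ, x (a ξ)⟫_ℂ = ⟪ξ, (star a * E x) (a ξ)⟫_ℂ := by
    rw [← S.E_inner ha ha hx]
    change _ = ⟪ξ, (star a) (E x (a ξ))⟫_ℂ
    rw [inner_star_right]
  have h1 := hD (star a * E x) (mul_mem (star_mem ha) hEx)
  have n1 : ‖star a * E x‖ ≤ ‖x‖ := by
    refine (norm_mul_le _ _).trans ?_
    rw [norm_star]
    calc ‖a‖ * ‖E x‖ ≤ 1 * ‖x‖ := mul_le_mul ha1 hEn (norm_nonneg _) zero_le_one
      _ = ‖x‖ := one_mul _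
  have e2 : ⟪ξ, a ((star a * E x) ξ)⟫_ℂ = ⟪ξ, x ξ⟫_ℂ - ⟪ξ, (star b) ((b * E x) ξ)⟫_ℂ := by
    have e3 : a ((star a * E x) ξ) = E x ξ - (star b) ((b * E x) ξ) := by
      have := congrArg (fun T : H →L[ℂ] H => T (E x ξ)) hab
      change a ((star a) (E x ξ)) = E x ξ - (star b) (b (E x ξ)) at this
      exact this
    rw [e3, inner_sub_right, S.E_state x hx]
  have h2 := hD' (b * E x) (mul_mem hb hEx)
  have n2 : ‖b * E x‖ ≤ Cb * ‖x‖ :=
    (norm_mul_le _ _).trans (mul_le_mul hb1 hEn (norm_nonneg _) hCb)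
  have e4 : ⟪ξ, (b * E x) ((star b) ξ)⟫_ℂ = ⟪(star b) ξ, x ((star b) ξ)⟫_ℂ := by
    rw [← S.E_inner (star_mem hb) (star_mem hb) hx]
    change ⟪ξ, b (E x ((star b) ξ))⟫_ℂ = _
    rw [inner_star_left]
  have h3 : 0 ≤ (⟪(star b) ξ, x ((star b) ξ)⟫_ℂ).re :=
    ((nonneg_iff_isPositive _).1 hx0).re_inner_nonneg_right _
  rw [e4, Complex.ofReal_one, one_mul] at h2
  have h4 := (Complex.abs_re_le_norm _).trans h2
  rw [Complex.sub_re] at h4
  have h5 : -(δ' * (Cb * ‖x‖)) ≤ (⟪ξ, (star b) ((b * E x) ξ)⟫_ℂ).re := by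
    have := (abs_le.1 h4).2
    have h6 : δ' * ‖b * E x‖ ≤ δ' * (Cb * ‖x‖) := mul_le_mul_of_nonneg_left n2 hδ'
    (clear * - h3 this h6; linarith)
  rw [← e1] at h1
  have h7 := (Complex.abs_re_le_norm _).trans h1
  rw [Complex.sub_re, Complex.re_ofReal_mul, e2, Complex.sub_re] at h7
  have h8 := (abs_le.1 h7).2
  have h9 : δ * ‖star a * E x‖ ≤ δ * ‖x‖ := mul_le_mul_of_nonneg_left n1 hδ
  have h10 : l * (-(δ' * (Cb * ‖x‖))) ≤ l * (⟪ξ, (star b) ((b * E x) ξ)⟫_ℂ).re :=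
    mul_le_mul_of_nonneg_left h5 hl.le
  (clear * - h8 h9 h10; nlinarith)

end Setting

end Pool.Agent.Helper23

end

section

open scoped InnerProductSpace Topology BoundedContinuousFunction

open ContinuousLinearMap Filter MeasureTheory

set_option linter.unusedSectionVars false

namespace Pool.Agent.Helper23

universe u

variable {H : Type u} [NormedAddCommGroup H] [InnerProductSpace ℂ H] [CompleteSpace H]

variable {M N : VonNeumannAlgebra H} {ξ : H} {E : (H →L[ℂ] H) → (H →L[ℂ] H)}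

namespace Setting

variable (S : Setting M N E ξ)

include S

lemma defect_M_gen {u : H →L[ℂ] H} (hu : u ∈ N) {l δ : ℝ} (hδ : 0 ≤ δ) (hD : Defect N ξ l δ u) :
    Defect M ξ l δ u := by
  intro z hz
  have h1 := S.E_inner (one_mem N) hu hz
  rw [one_apply_eq_self] at h1
  have h2 := S.E_inner (star_mem hu) (one_mem N) hz
  rw [one_apply_eq_self, inner_star_left, inner_star_left] at h2
  have h3 := hD (E z) (S.E_mem z hz)
  rw [h1, h2] at h3
  exact h3.trans (mul_le_mul_of_nonneg_left (S.E_norm hz) hδ)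

/-- the quantitative form of the concentration -/
lemma near_eig {R : H →L[ℂ] H} {D : H →L[ℝ] H} (hR : TTData M ξ R D) {K : ℝ} (hK : 0 ≤ K)
    (hKb : ∀ r ∈ M.commutant, ∃ b ∈ M, ‖b‖ ≤ K * ‖r‖ ∧ R (r ξ) = (2 : ℂ) • b ξ)
    {l : ℝ} (hl : 0 < l) {C ε : ℝ} (hC : 0 ≤ C) (hε : 0 ≤ ε) {a r : H →L[ℂ] H} (ha : a ∈ N)
    (haC : ‖a‖ ≤ C) (hD : Defect N ξ l ε a) (hr : r ∈ M.commutant)
    (hrC : ‖r‖ ≤ Real.sqrt l * C) (har : ‖a ξ - r ξ‖ ≤ ε) :
    ‖(2 : ℂ) • (star a) ξ - ((1 + l : ℝ) : ℂ) • R ((star a) ξ)‖ ≤ ‖D‖ * ε +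
      Real.sqrt (2 * (ε * (4 * (K * (Real.sqrt l * C)) + l * (4 * C + (4 * (K *
        (Real.sqrt l * C)) + (Real.sqrt l * C + l * C) * ‖D‖))))) := by
  have hsl : 0 ≤ Real.sqrt l := Real.sqrt_nonneg l
  have haM : a ∈ M := S.le a ha
  have hξ : ‖ξ‖ = 1 := S.norm_one
  set d : H := (star r) ξ - (l : ℂ) • (star a) ξ with hd
  have hsa : ‖(star a) ξ‖ ≤ C := by
    have := (star a).le_opNorm ξ
    rw [hξ, mul_one, norm_star] at this
    exact this.trans haC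
  have hsr : ‖(star r) ξ‖ ≤ Real.sqrt l * C := by
    have := (star r).le_opNorm ξ
    rw [hξ, mul_one, norm_star] at this
    exact this.trans hrC
  have hdn : ‖d‖ ≤ Real.sqrt l * C + l * C := by
    refine (norm_sub_le _ _).trans (add_le_add hsr ?_)
    rw [norm_smul, Complex.norm_real, Real.norm_of_nonneg hl.le]
    exact mul_le_mul_of_nonneg_left hsa hl.le
  -- testing against `M`
  have htest : ∀ x ∈ M, ‖⟪d, x ξ⟫_ℂ‖ ≤ 2 * ε * ‖x‖ := by
    intro x hx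
    have e1 : ⟪d, x ξ⟫_ℂ = ⟪ξ, x (r ξ - a ξ)⟫_ℂ +
        (⟪ξ, x (a ξ)⟫_ℂ - l * ⟪ξ, a (x ξ)⟫_ℂ) := by
      rw [hd, inner_sub_left, inner_smul_left, Complex.conj_ofReal, inner_star_left,
        inner_star_left, ← commute_apply hx hr, map_sub, inner_sub_right]
      ring
    rw [e1]
    have e2 : ‖⟪ξ, x (r ξ - a ξ)⟫_ℂ‖ ≤ ε * ‖x‖ := by
      refine (norm_inner_le_norm _ _).trans ?_
      rw [hξ, one_mul]
      refine (x.le_opNorm _).trans ?_
      rw [norm_sub_rev, mul_comm]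
      exact mul_le_mul_of_nonneg_right har (norm_nonneg _)
    have e3 := S.defect_M_gen ha hε hD x hx
    calc _ ≤ _ := norm_add_le _ _
      _ ≤ ε * ‖x‖ + ε * ‖x‖ := add_le_add e2 e3
      _ = _ := by ring
  -- `R r* ξ`
  obtain ⟨b, hb, hbn, hb2⟩ := hKb (star r) (star_mem hr)
  rw [norm_star] at hbn
  have hbC : ‖b‖ ≤ K * (Real.sqrt l * C) := hbn.trans (mul_le_mul_of_nonneg_left hrC hK)
  have h1 : ‖⟪d, R ((star r) ξ)⟫_ℂ‖ ≤ ε * (4 * (K * (Real.sqrt l * C))) := by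
    rw [hb2, inner_smul_right, norm_mul, Complex.norm_ofNat]
    have := htest b hb
    have h2 : 2 * ε * ‖b‖ ≤ 2 * ε * (K * (Real.sqrt l * C)) :=
      mul_le_mul_of_nonneg_left hbC (by (clear * - hε; positivity))
    (clear * - this h2; linarith)
  -- the difference
  have h2 : (2 : ℂ) • (star a) ξ - R ((star a) ξ) = R ((star r) ξ) + D (a ξ - r ξ) := by
    rw [map_sub, hR.D_mem a haM, hR.D_comm r hr]
    abel
  have hDn : ‖D (a ξ - r ξ)‖ ≤ ‖D‖ * ε :=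
    (D.le_opNorm _).trans (mul_le_mul_of_nonneg_left har (norm_nonneg _))
  have h3 : ‖⟪d, R ((star a) ξ)⟫_ℂ‖ ≤ ε * (4 * C + (4 * (K * (Real.sqrt l * C)) +
      (Real.sqrt l * C + l * C) * ‖D‖)) := by
    have e1 : R ((star a) ξ) = (2 : ℂ) • (star a) ξ - (R ((star r) ξ) + D (a ξ - r ξ)) := by
      rw [← h2]; abel
    rw [e1, inner_sub_right, inner_add_right, inner_smul_right]
    have e2 : ‖(2 : ℂ) * ⟪d, (star a) ξ⟫_ℂ‖ ≤ ε * (4 * C) := by
      rw [norm_mul, Complex.norm_ofNat]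
      have := htest (star a) (star_mem haM)
      rw [norm_star] at this
      have h4 : 2 * ε * ‖a‖ ≤ 2 * ε * C := mul_le_mul_of_nonneg_left haC (by (clear * - hε; positivity))
      (clear * - this h4; linarith)
    have e3 : ‖⟪d, D (a ξ - r ξ)⟫_ℂ‖ ≤ ε * ((Real.sqrt l * C + l * C) * ‖D‖) := by
      refine (norm_inner_le_norm _ _).trans ?_
      calc ‖d‖ * ‖D (a ξ - r ξ)‖ ≤ (Real.sqrt l * C + l * C) * (‖D‖ * ε) :=
            mul_le_mul hdn hDn (norm_nonneg _) (by (clear * - hl hC; positivity))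
        _ = _ := by ring
    calc _ ≤ _ := norm_sub_le _ _
      _ ≤ ‖(2 : ℂ) * ⟪d, (star a) ξ⟫_ℂ‖ + (‖⟪d, R ((star r) ξ)⟫_ℂ‖ +
          ‖⟪d, D (a ξ - r ξ)⟫_ℂ‖) := by gcongr; exact norm_add_le _ _
      _ ≤ _ := by (clear * - h1 e2 e3; linarith)
  set B : ℝ := ε * (4 * (K * (Real.sqrt l * C)) + l * (4 * C + (4 * (K *
        (Real.sqrt l * C)) + (Real.sqrt l * C + l * C) * ‖D‖))) with hB
  have h4 : ‖⟪d, R d⟫_ℂ‖ ≤ B := by
    have e1 : ⟪d, R d⟫_ℂ = ⟪d, R ((star r) ξ)⟫_ℂ - l * ⟪d, R ((star a) ξ)⟫_ℂ := by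
      conv_lhs => rw [show R d = R ((star r) ξ) - (l : ℂ) • R ((star a) ξ) by
        rw [hd, map_sub, map_smul]]
      rw [inner_sub_right, inner_smul_right]
    rw [e1]
    refine (norm_sub_le _ _).trans ?_
    rw [norm_mul, Complex.norm_real, Real.norm_of_nonneg hl.le]
    have := mul_le_mul_of_nonneg_left h3 hl.le
    rw [hB]
    (clear * - h1 this; nlinarith)
  have h5 : ‖R d‖ ^ 2 ≤ 2 * B := by
    have e1 : ⟪D d, D d⟫_ℂ = 2 * ⟪d, R d⟫_ℂ - ⟪R d, R d⟫_ℂ := by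
      rw [hR.D_symm, hR.D_sq, map_sub, map_smul, inner_sub_right, inner_smul_right]
      congr 1
      rw [← inner_star_left, hR.R_star]
    have e2 := congrArg Complex.re e1
    rw [inner_self_eq_norm_sq_to_K, inner_self_eq_norm_sq_to_K, Complex.sub_re] at e2
    have e3 : (((‖D d‖ : ℝ) : ℂ) ^ 2).re = ‖D d‖ ^ 2 := by norm_cast
    have e4 : (((‖R d‖ : ℝ) : ℂ) ^ 2).re = ‖R d‖ ^ 2 := by norm_cast
    change (((‖D d‖ : ℝ) : ℂ) ^ 2).re = _ - (((‖R d‖ : ℝ) : ℂ) ^ 2).re at e2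
    rw [e3, e4] at e2
    have e5 : (2 * ⟪d, R d⟫_ℂ).re = 2 * (⟪d, R d⟫_ℂ).re := by simp
    rw [e5] at e2
    have e6 := (Complex.re_le_norm ⟪d, R d⟫_ℂ).trans h4
    (clear * - e2 e6; nlinarith [sq_nonneg ‖D d‖])
  have h6 : ‖R d‖ ≤ Real.sqrt (2 * B) := Real.le_sqrt_of_sq_le h5
  have h7 : (2 : ℂ) • (star a) ξ - ((1 + l : ℝ) : ℂ) • R ((star a) ξ) =
      D (a ξ - r ξ) + R d := by
    have e1 : R d = R ((star r) ξ) - (l : ℂ) • R ((star a) ξ) := by
      rw [hd, map_sub, map_smul]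
    rw [e1]
    have e2 : (2 : ℂ) • (star a) ξ - ((1 + l : ℝ) : ℂ) • R ((star a) ξ) =
        ((2 : ℂ) • (star a) ξ - R ((star a) ξ)) - (l : ℂ) • R ((star a) ξ) := by
      push_cast
      rw [add_smul, one_smul]
      abel
    rw [e2, h2]
    abel
  rw [h7]
  exact (norm_add_le _ _).trans (add_le_add hDn h6)

end Setting

end Pool.Agent.Helper23

end

end
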