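import Pool.Agent.Helper23.FB.L00_a0
import Pool.Agent.Helper23.FB.L00_a11
import Pool.Agent.Helper23.FB.L00_a12
import Pool.Agent.Helper23.FB.L00_a13
import Pool.Agent.Helper23.FB.L00_a2
import Pool.Agent.Helper23.FB.L00_a3
import Pool.Agent.Helper23.FB.L00_a6
import Pool.Agent.Helper23.FB.L00_a7
import Pool.Agent.Helper23.FB.L00_a9

/-!
Parts of Helper23.FA.L01_02, Helper23.FA.L00_15, Helper23.FA.L01_03, Helper23.FA.L01_18, Helper23.FA.L02_02, Helper23.FA.L02_13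
-/

attribute [local instance 5000]
  Pool.Agent.Helper23.FB.Inst.rCharZero Pool.Agent.Helper23.FB.Inst.rALM
  Pool.Agent.Helper23.FB.Inst.rARM Pool.Agent.Helper23.FB.Inst.rALSM
  Pool.Agent.Helper23.FB.Inst.rARSM Pool.Agent.Helper23.FB.Inst.rARRLE
  Pool.Agent.Helper23.FB.Inst.rALRLE Pool.Agent.Helper23.FB.Inst.rARRLT
  Pool.Agent.Helper23.FB.Inst.rALRLT Pool.Agent.Helper23.FB.Inst.rPMRLT
  Pool.Agent.Helper23.FB.Inst.rMPRLT Pool.Agent.Helper23.FB.Inst.rPMM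
  Pool.Agent.Helper23.FB.Inst.rMPM Pool.Agent.Helper23.FB.Inst.rPMSM
  Pool.Agent.Helper23.FB.Inst.rMPSM Pool.Agent.Helper23.FB.Inst.rEAOL
  Pool.Agent.Helper23.FB.Inst.rIOR Pool.Agent.Helper23.FB.Inst.rISOR
  Pool.Agent.Helper23.FB.Inst.rFS Pool.Agent.Helper23.FB.Inst.rcCharZero
  Pool.Agent.Helper23.FB.Inst.rNZD Pool.Agent.Helper23.FB.Inst.rcNZD
  Pool.Agent.Helper23.FB.Inst.bSemiring Pool.Agent.Helper23.FB.Inst.bStar
  Pool.Agent.Helper23.FB.Inst.bAlg Pool.Agent.Helper23.FB.Inst.bSub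
  Pool.Agent.Helper23.FB.Inst.bMul Pool.Agent.Helper23.FB.Inst.bAdd
  Pool.Agent.Helper23.FB.Inst.iRing Pool.Agent.Helper23.FB.Inst.iSemiring
  Pool.Agent.Helper23.FB.Inst.iAlgC Pool.Agent.Helper23.FB.Inst.iSMulC
  Pool.Agent.Helper23.FB.Inst.iModC Pool.Agent.Helper23.FB.Inst.iAlgR
  Pool.Agent.Helper23.FB.Inst.iSMulR Pool.Agent.Helper23.FB.Inst.iModR
  Pool.Agent.Helper23.FB.Inst.iMonoid Pool.Agent.Helper23.FB.Inst.iSemigroup
  Pool.Agent.Helper23.FB.Inst.iMulOneClass Pool.Agent.Helper23.FB.Inst.iMul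
  Pool.Agent.Helper23.FB.Inst.iAdd Pool.Agent.Helper23.FB.Inst.iSub
  Pool.Agent.Helper23.FB.Inst.iNeg Pool.Agent.Helper23.FB.Inst.iAddCommMonoid
  Pool.Agent.Helper23.FB.Inst.iAddCommGroup Pool.Agent.Helper23.FB.Inst.iAddGroup
  Pool.Agent.Helper23.FB.Inst.iAddMonoid Pool.Agent.Helper23.FB.Inst.iSMulZeroC
  Pool.Agent.Helper23.FB.Inst.iMulActC Pool.Agent.Helper23.FB.Inst.iDSMulC
  Pool.Agent.Helper23.FB.Inst.iDSMulR Pool.Agent.Helper23.FB.Inst.iSNAG
  Pool.Agent.Helper23.FB.Inst.iSNACG Pool.Agent.Helper23.FB.Inst.iNorm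
  Pool.Agent.Helper23.FB.Inst.iNSC' Pool.Agent.Helper23.FB.Inst.iNSR'
  Pool.Agent.Helper23.FB.Inst.iTop Pool.Agent.Helper23.FB.Inst.iT2 Pool.Agent.Helper23.FB.Inst.iTR
  Pool.Agent.Helper23.FB.Inst.iSCC Pool.Agent.Helper23.FB.Inst.iIST
  Pool.Agent.Helper23.FB.Inst.iSCCR Pool.Agent.Helper23.FB.Inst.iISTR
  Pool.Agent.Helper23.FB.Inst.iZHC Pool.Agent.Helper23.FB.Inst.iAHC
  Pool.Agent.Helper23.FB.Inst.iAMHC Pool.Agent.Helper23.FB.Inst.iMAHC
  Pool.Agent.Helper23.FB.Inst.lTop Pool.Agent.Helper23.FB.Inst.lUnif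
  Pool.Agent.Helper23.FB.Inst.lACM Pool.Agent.Helper23.FB.Inst.lACG
  Pool.Agent.Helper23.FB.Inst.lSNAG Pool.Agent.Helper23.FB.Inst.lSNACG
  Pool.Agent.Helper23.FB.Inst.lNACG Pool.Agent.Helper23.FB.Inst.lNorm
  Pool.Agent.Helper23.FB.Inst.lIPS Pool.Agent.Helper23.FB.Inst.lMod
  Pool.Agent.Helper23.FB.Inst.lSMul Pool.Agent.Helper23.FB.Inst.lT2
  Pool.Agent.Helper23.FB.Inst.iStar Pool.Agent.Helper23.FB.Inst.iStarMul
  Pool.Agent.Helper23.FB.Inst.iStarAddMonoid Pool.Agent.Helper23.FB.Inst.iStarRing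
  Pool.Agent.Helper23.FB.Inst.iNSC Pool.Agent.Helper23.FB.Inst.iSOR
  Pool.Agent.Helper23.FB.Inst.iALM Pool.Agent.Helper23.FB.Inst.iARM
  Pool.Agent.Helper23.FB.Inst.iCFC Pool.Agent.Helper23.FB.Inst.iNCFC
  Pool.Agent.Helper23.FB.Inst.iStarModR Pool.Agent.Helper23.FB.Inst.iStarModC
  Pool.Agent.Helper23.FB.Inst.eStar Pool.Agent.Helper23.FB.Inst.eAdd
  Pool.Agent.Helper23.FB.Inst.eMul Pool.Agent.Helper23.FB.Inst.eOne
  Pool.Agent.Helper23.FB.Inst.eZero Pool.Agent.Helper23.FB.Inst.eMulAction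
  Pool.Agent.Helper23.FB.Inst.eAMHC2 Pool.Agent.Helper23.FB.Inst.eZHC2
  Pool.Agent.Helper23.FB.Inst.lAMHC

namespace Pool.Agent.Helper23
end Pool.Agent.Helper23
namespace Pool.Agent.Helper23.TTA
end Pool.Agent.Helper23.TTA
namespace Pool.Agent.Helper43.TTF
end Pool.Agent.Helper43.TTF
namespace Pool.Agent.Helper70.U8
end Pool.Agent.Helper70.U8
namespace Pool.Agent.Helper88.CS.CentAux
end Pool.Agent.Helper88.CS.CentAux

section

section

open scoped InnerProductSpace Topology BoundedContinuousFunction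

open ContinuousLinearMap Filter MeasureTheory

namespace Pool.Agent.Helper23

variable {H : Type*} [NormedAddCommGroup H] [InnerProductSpace ℂ H] [CompleteSpace H]

namespace TTA

set_option linter.unusedSectionVars false

variable (A : VonNeumannAlgebra H) (ξ : H)

attribute [local instance] rips

/-- the real subspace of vectors `a ξ`, `a` selfadjoint -/
def K0 : Submodule ℝ H where
  carrier := {x | ∃ a ∈ A, star a = a ∧ a ξ = x}
  add_mem' := by
    rintro _ _ ⟨a, ha, ha', rfl⟩ ⟨b, hb, hb', rfl⟩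
    exact ⟨a + b, add_mem ha hb, by rw [star_add, ha', hb'], rfl⟩
  zero_mem' := ⟨0, zero_mem A, star_zero _, rfl⟩
  smul_mem' := by
    rintro c _ ⟨a, ha, ha', rfl⟩
    refine ⟨(c : ℂ) • a, smul_mem' _ ha, ?_, ?_⟩
    · rw [star_smul, ha']; simp
    · change (c : ℂ) • a ξ = c • a ξ
      rw [Complex.coe_smul]

/-- its closure -/
noncomputable def K : Submodule ℝ H := (K0 A ξ).topologicalClosure

noncomputable instance : (K A ξ).HasOrthogonalProjection := by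
  unfold K; infer_instance

/-- the real projection -/
noncomputable def P : H →L[ℝ] H := (K A ξ).starProjection

lemma mem_K_of {a : H →L[ℂ] H} (ha : a ∈ A) (ha' : star a = a) : a ξ ∈ K A ξ :=
  Submodule.le_topologicalClosure _ ⟨a, ha, ha', rfl⟩

lemma P_of_mem {v : H} (hv : v ∈ K A ξ) : P A ξ v = v :=
  Submodule.starProjection_eq_self_iff.2 hv

lemma P_mem (v : H) : P A ξ v ∈ K A ξ := Submodule.starProjection_apply_mem _ _

lemma P_P (v : H) : P A ξ (P A ξ v) = P A ξ v := P_of_mem A ξ (P_mem A ξ v)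

lemma rho_P (v w : H) : rho (P A ξ v) w = rho v (P A ξ w) := by
  have h := Submodule.inner_starProjection_left_eq_right (K A ξ) v w
  rw [real_inner_eq_re_inner ℂ, real_inner_eq_re_inner ℂ] at h
  exact h

lemma norm_P_le (v : H) : ‖P A ξ v‖ ≤ ‖v‖ := Submodule.norm_starProjection_apply_le _ _

lemma mem_K_of_norm {v : H} (h : ‖P A ξ v‖ = ‖v‖) : v ∈ K A ξ :=
  (Submodule.mem_iff_norm_starProjection _ _).2 h

lemma P_eq_zero {v : H} (h : ∀ a ∈ A, star a = a → rho (a ξ) v = 0) : P A ξ v = 0 := by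
  have h1 : ∀ k ∈ K A ξ, rho k v = 0 := by
    intro k hk
    have hcl : IsClosed {k : H | rho k v = 0} := by
      refine isClosed_eq ?_ continuous_const
      unfold rho
      exact Complex.continuous_re.comp (continuous_id.inner continuous_const)
    have hsub : (K0 A ξ : Set H) ⊆ {k : H | rho k v = 0} := by
      rintro _ ⟨a, ha, ha', rfl⟩
      exact h a ha ha'
    exact closure_minimal hsub hcl hk
  have h2 := h1 _ (P_mem A ξ v)
  rw [rho_P, rho_comm, ← P_P, rho_P, rho_self] at h2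
  simpa using h2

/-- the projection onto `i K` -/
noncomputable def Q (v : H) : H := -(Complex.I • P A ξ (Complex.I • v))

lemma I_smul_Q (v : H) : Complex.I • Q A ξ v = P A ξ (Complex.I • v) := by
  unfold Q
  rw [smul_neg, smul_smul, Complex.I_mul_I, neg_one_smul, neg_neg]

lemma Q_I_smul (v : H) : Q A ξ (Complex.I • v) = Complex.I • P A ξ v := by
  unfold Q
  rw [smul_smul, Complex.I_mul_I, neg_one_smul, map_neg, smul_neg, neg_neg]

lemma Q_add (v w : H) : Q A ξ (v + w) = Q A ξ v + Q A ξ w := by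
  unfold Q
  rw [smul_add, map_add, smul_add, neg_add]

lemma Q_sub (v w : H) : Q A ξ (v - w) = Q A ξ v - Q A ξ w := by
  unfold Q
  rw [smul_sub, map_sub, smul_sub]; abel

lemma Q_Q (v : H) : Q A ξ (Q A ξ v) = Q A ξ v := by
  rw [Q, I_smul_Q, P_P]; rfl

lemma norm_Q_le (v : H) : ‖Q A ξ v‖ ≤ ‖v‖ := by
  unfold Q
  rw [norm_neg, norm_smul, Complex.norm_I, one_mul]
  refine (norm_P_le A ξ _).trans ?_
  rw [norm_smul, Complex.norm_I, one_mul]

lemma rho_Q (v w : H) : rho (Q A ξ v) w = rho v (Q A ξ w) := by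
  unfold Q
  rw [rho_neg_left, rho_I_I, rho_P, rho_I_I, rho_neg_right, neg_neg]

lemma Q_real_smul (c : ℝ) (v : H) : Q A ξ (c • v) = c • Q A ξ v := by
  unfold Q
  rw [smul_comm Complex.I c v, map_smul, smul_comm Complex.I c, smul_neg]

/-- `Q` as a real linear operator -/
noncomputable def QL : H →L[ℝ] H :=
  LinearMap.mkContinuous
    { toFun := Q A ξ, map_add' := Q_add A ξ, map_smul' := Q_real_smul A ξ } 1
    (fun v => by rw [one_mul]; exact norm_Q_le A ξ v)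

/-- `D = P - Q` -/
noncomputable def Dop : H →L[ℝ] H := P A ξ - QL A ξ

lemma Dop_apply (v : H) : Dop A ξ v = P A ξ v - Q A ξ v := rfl

lemma Dop_I (v : H) : Dop A ξ (Complex.I • v) = -(Complex.I • Dop A ξ v) := by
  rw [Dop_apply, Dop_apply, Q_I_smul, smul_sub, I_smul_Q]
  abel

/-- `R = P + Q` -/
noncomputable def Rop : H →L[ℂ] H :=
  LinearMap.mkContinuous
    { toFun := fun v => P A ξ v + Q A ξ v
      map_add' := by
        intro v w
        rw [map_add, Q_add]; abel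
      map_smul' := by
        intro c v
        rw [RingHom.id_apply, smul_split c v, smul_split c (P A ξ v + Q A ξ v), map_add, Q_add,
          map_smul, map_smul, Q_real_smul, Q_real_smul, Q_I_smul, ← I_smul_Q, smul_add, smul_add,
          smul_add]
        abel } 2
    (fun v => by
      change ‖P A ξ v + Q A ξ v‖ ≤ 2 * ‖v‖
      have h1 := norm_P_le A ξ v
      have h2 := norm_Q_le A ξ v
      have h3 := norm_add_le (P A ξ v) (Q A ξ v)
      linarith)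

lemma Rop_apply (v : H) : Rop A ξ v = P A ξ v + Q A ξ v := rfl

lemma rho_R (v w : H) : rho (Rop A ξ v) w = rho v (Rop A ξ w) := by
  rw [Rop_apply, Rop_apply, rho_add_left, rho_add_right, rho_P, rho_Q]

lemma rho_D (v w : H) : rho (Dop A ξ v) w = rho v (Dop A ξ w) := by
  rw [Dop_apply, Dop_apply, rho_sub_left, rho_sub_right, rho_P, rho_Q]

lemma rho_R_self (v : H) : (⟪v, Rop A ξ v⟫_ℂ).re = ‖P A ξ v‖ ^ 2 + ‖Q A ξ v‖ ^ 2 := by
  change rho v (Rop A ξ v) = _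
  rw [Rop_apply, rho_add_right, ← P_P, ← rho_P, rho_self, ← Q_Q, ← rho_Q, rho_self, P_P, Q_Q]

lemma inner_real {a' b : H →L[ℂ] H} (ha : a' ∈ A.commutant) (ha' : star a' = a') (hb : b ∈ A)
    (hb' : star b = b) : (⟪b ξ, a' ξ⟫_ℂ).im = 0 := by
  have h1 : ⟪b ξ, a' ξ⟫_ℂ = ⟪a' ξ, b ξ⟫_ℂ := by
    rw [← inner_star_right b, hb', ← inner_star_right a', ha', commute_apply hb ha]
  have h2 := congrArg Complex.im h1
  rw [← inner_conj_symm (a' ξ), Complex.conj_im] at h2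
  (clear * - h2; linarith)

lemma Q_comm_zero {a' : H →L[ℂ] H} (ha : a' ∈ A.commutant) (ha' : star a' = a') :
    Q A ξ (a' ξ) = 0 := by
  unfold Q
  rw [P_eq_zero, smul_zero, neg_zero]
  intro b hb hb'
  rw [rho_I_right, inner_real A ξ ha ha' hb hb', neg_zero]

end TTA

end Pool.Agent.Helper23

end

section

open scoped InnerProductSpace Topology BoundedContinuousFunction

open ContinuousLinearMap Filter MeasureTheory

namespace Pool.Agent.Helper88.CS

open Pool.Agent.Helper23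

variable {H : Type*} [NormedAddCommGroup H] [InnerProductSpace ℂ H] [CompleteSpace H]

variable {A : VonNeumannAlgebra H} {J : H →L[ℝ] H}

namespace JUniqAux

open Pool.Agent.Helper43.TTF Pool.Agent.Helper23.TTA Pool.Agent.Helper70.U8

variable {κ : H}

/-- uniqueness of the operators of Rieffel and van Daele -/
lemma uniq {R' : H →L[ℂ] H} {D' : H →L[ℝ] H}
    (hconj : ∀ (c : ℂ) (v : H), D' (c • v) = (starRingEnd ℂ) c • D' v)
    (h1 : ∀ a ∈ A, D' (a κ) = (2 : ℂ) • (star a) κ - R' ((star a) κ))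
    (h2 : ∀ a ∈ A.commutant, D' (a κ) = R' ((star a) κ))
    (key : ∀ v, P A κ v = 0 →
      v ∈ closure {x : H | ∃ b ∈ A.commutant, star b = b ∧ x = Complex.I • b κ}) (v : H) :
    R' v = Rop A κ v ∧ D' v = Dop A κ v := by
  have hK : ∀ u ∈ K A κ, R' u + D' u = (2 : ℂ) • u := by
    intro u hu
    have hcl : IsClosed {u : H | R' u + D' u = (2 : ℂ) • u} :=
      isClosed_eq (by fun_prop) (by fun_prop)
    have hsub : (TTA.K0 A κ : Set H) ⊆ {u : H | R' u + D' u = (2 : ℂ) • u} := by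
      rintro _ ⟨a, ha, ha', rfl⟩
      change R' (a κ) + D' (a κ) = (2 : ℂ) • a κ
      rw [h1 a ha, ha']
      abel
    exact closure_minimal hsub hcl hu
  have h0 : ∀ u, P A κ u = 0 → R' u + D' u = 0 := by
    intro u hu
    have hcl : IsClosed {u : H | R' u + D' u = 0} :=
      isClosed_eq (by fun_prop) (by fun_prop)
    have hsub : {x : H | ∃ b ∈ A.commutant, star b = b ∧ x = Complex.I • b κ} ⊆
        {u : H | R' u + D' u = 0} := by
      rintro _ ⟨b, hb, hb', rfl⟩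
      change R' (Complex.I • b κ) + D' (Complex.I • b κ) = 0
      rw [hconj, h2 b hb, hb', map_smul, Complex.conj_I, neg_smul, add_neg_cancel]
    exact closure_minimal hsub hcl (key u hu)
  have hP : ∀ u, R' u + D' u = (2 : ℂ) • P A κ u := by
    intro u
    have e1 := hK _ (P_mem A κ u)
    have e2 := h0 (u - P A κ u) (by rw [map_sub, P_P, sub_self])
    rw [map_sub, map_sub] at e2
    calc R' u + D' u = (R' u - R' (P A κ u) + (D' u - D' (P A κ u))) +
          (R' (P A κ u) + D' (P A κ u)) := by abel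
      _ = _ := by rw [e2, e1, zero_add]
  have hQ : R' v - D' v = (2 : ℂ) • Q A κ v := by
    have e1 := hP (Complex.I • v)
    rw [hconj, map_smul, Complex.conj_I, ← I_smul_Q, smul_comm (2 : ℂ) Complex.I, neg_smul,
      ← sub_eq_add_neg, ← smul_sub] at e1
    exact smul_right_injective H Complex.I_ne_zero e1
  have hP' := hP v
  have h3 : (2 : ℂ) • R' v = (2 : ℂ) • Rop A κ v := by
    rw [Rop_apply, smul_add, ← hP', ← hQ, two_smul]
    abel
  have h4 : (2 : ℂ) • D' v = (2 : ℂ) • Dop A κ v := by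
    rw [Dop_apply, smul_sub, ← hP', ← hQ, two_smul]
    abel
  exact ⟨smul_right_injective H two_ne_zero h3, smul_right_injective H two_ne_zero h4⟩

end JUniqAux

end Pool.Agent.Helper88.CS

end

end

section

section

open scoped InnerProductSpace Topology BoundedContinuousFunction

open ContinuousLinearMap Filter MeasureTheory

namespace Pool.Agent.Helper43.TTF

open Pool.Agent.Helper23

variable {H : Type*} [NormedAddCommGroup H] [InnerProductSpace ℂ H] [CompleteSpace H]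

variable {A : VonNeumannAlgebra H} {ξ : H}

variable {R : H →L[ℂ] H} {D : H →L[ℝ] H} {Ψ : (ℝ →ᵇ ℂ) →⋆ₐ[ℂ] (H →L[ℂ] H)}

/-- the operator `J x J` -/
noncomputable def JD.cj {J : H →L[ℝ] H} (h : JD D Ψ J) (x : H →L[ℂ] H) : H →L[ℂ] H :=
  LinearMap.mkContinuous
    { toFun := fun v => J (x (J v))
      map_add' := by intro v w; simp only [map_add]
      map_smul' := by
        intro c v
        rw [h.J_conj, map_smul, h.J_conj, Complex.conj_conj, RingHom.id_apply] } ‖x‖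
    (by
      intro v
      change ‖J (x (J v))‖ ≤ _
      rw [h.J_norm]
      refine (x.le_opNorm _).trans ?_
      rw [h.J_norm])

lemma JD.cj_apply {J : H →L[ℝ] H} (h : JD D Ψ J) (x : H →L[ℂ] H) (v : H) :
    h.cj x v = J (x (J v)) := rfl

lemma JD.cj_cj {J : H →L[ℝ] H} (h : JD D Ψ J) (x : H →L[ℂ] H) : h.cj (h.cj x) = x := by
  ext v
  rw [h.cj_apply, h.cj_apply, h.J_J, h.J_J]

lemma JD.T_cj_T {J : H →L[ℝ] H} (h : JD D Ψ J) (x : H →L[ℂ] H) (v : H) :
    Ψ FT (h.cj x (Ψ FT v)) = D (x (D v)) := by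
  rw [h.cj_apply, h.T_J, h.J_T]

end Pool.Agent.Helper43.TTF

end

end

section

section

open scoped InnerProductSpace Topology BoundedContinuousFunction

open ContinuousLinearMap Filter MeasureTheory

namespace Pool.Agent.Helper43.TTF

open Pool.Agent.Helper23

variable {H : Type*} [NormedAddCommGroup H] [InnerProductSpace ℂ H] [CompleteSpace H]

variable {A : VonNeumannAlgebra H} {ξ : H}

variable {R : H →L[ℂ] H} {D : H →L[ℝ] H} {Ψ : (ℝ →ᵇ ℂ) →⋆ₐ[ℂ] (H →L[ℂ] H)}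

lemma psi_star (Ψ : (ℝ →ᵇ ℂ) →⋆ₐ[ℂ] (H →L[ℂ] H)) (G : ℝ →ᵇ ℂ) (v w : H) :
    ⟪Ψ G v, w⟫_ℂ = ⟪v, Ψ (star G) w⟫_ℂ := by
  rw [map_star, inner_star_right]

lemma T_symm (v w : H) : ⟪Ψ FT v, w⟫_ℂ = ⟪v, Ψ FT w⟫_ℂ := by
  rw [psi_star, FT_star]

end Pool.Agent.Helper43.TTF

end

section

open scoped InnerProductSpace Topology BoundedContinuousFunction

open ContinuousLinearMap Filter MeasureTheory

namespace Pool.Agent.Helper43.TTF

open Pool.Agent.Helper23

variable {H : Type*} [NormedAddCommGroup H] [InnerProductSpace ℂ H] [CompleteSpace H]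

lemma kB_a (n : ℕ) (t : ℝ) : expB t * ctB n = FT * kB n t := by
  ext ρ
  rw [BoundedContinuousFunction.mul_apply, BoundedContinuousFunction.mul_apply, expB_apply,
    ctB_apply, FT_apply, kB_apply]
  have h : ((Real.cosh (ρ / 2) : ℝ) : ℂ) ≠ 0 := by
    exact_mod_cast (Real.cosh_pos _).ne'
  push_cast at h ⊢
  (clear * - h; field_simp)

lemma kB_b (n : ℕ) (t : ℝ) :
    (2 - FR) * kB n t = ez ((n : ℝ) + 1) (t - Complex.I / 2) * ctB n := by
  ext ρ
  rw [BoundedContinuousFunction.mul_apply, BoundedContinuousFunction.mul_apply,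
    BoundedContinuousFunction.sub_apply, FR_apply, ctB_apply, ez_apply, kB_apply, two_bcf]
  rcases le_total ((n : ℝ) + 1) |ρ| with h | h
  · rw [ct_zero h]
    simp
  · rw [gt_eq h]
    have h1 : Complex.exp (Complex.I * (t - Complex.I / 2) * (ρ : ℝ)) =
        Complex.exp ((t * ρ : ℝ) * Complex.I) * ((Real.exp (ρ / 2) : ℝ) : ℂ) := by
      rw [Complex.ofReal_exp, ← Complex.exp_add]
      congr 1
      push_cast
      ring_nf
      rw [Complex.I_sq]
      ring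
    have h2 : (2 - 2 / (1 + Real.exp ρ)) * Real.cosh (ρ / 2) = Real.exp (ρ / 2) := by
      rw [cosh_half]
      have h1 : Real.exp ρ = Real.exp (ρ / 2) * Real.exp (ρ / 2) := by
        rw [← Real.exp_add]; ring_nf
      have h2 : (0 : ℝ) < Real.exp (ρ / 2) := Real.exp_pos _
      have h4 : (0 : ℝ) < 1 + Real.exp ρ := by (clear * -; positivity)
      rw [h1] at h4 ⊢
      field_simp
      ring
    rw [h1, ← h2]
    push_cast
    ring

lemma kB_c (n : ℕ) (t : ℝ) :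
    FR * kB n t = ez ((n : ℝ) + 1) (t + Complex.I / 2) * ctB n := by
  ext ρ
  rw [BoundedContinuousFunction.mul_apply, BoundedContinuousFunction.mul_apply,
    FR_apply, ctB_apply, ez_apply, kB_apply]
  rcases le_total ((n : ℝ) + 1) |ρ| with h | h
  · rw [ct_zero h]
    simp
  · rw [gt_eq h]
    have h1 : Complex.exp (Complex.I * (t + Complex.I / 2) * (ρ : ℝ)) =
        Complex.exp ((t * ρ : ℝ) * Complex.I) * ((Real.exp (-(ρ / 2)) : ℝ) : ℂ) := by
      rw [Complex.ofReal_exp, ← Complex.exp_add]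
      congr 1
      push_cast
      ring_nf
      rw [Complex.I_sq]
      ring
    have h2 : (2 / (1 + Real.exp ρ)) * Real.cosh (ρ / 2) = Real.exp (-(ρ / 2)) := by
      rw [cosh_half, Real.exp_neg]
      have h2 : (0 : ℝ) < Real.exp (ρ / 2) := Real.exp_pos _
      have h4 : (0 : ℝ) < 1 + Real.exp ρ := by (clear * -; positivity)
      (clear * -; field_simp)
    rw [h1, ← h2]
    push_cast
    ring

lemma expB_star (t : ℝ) : star (expB t) = expB (-t) := by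
  ext ρ
  rw [BoundedContinuousFunction.star_apply, expB_apply, expB_apply, RCLike.star_def,
    ← Complex.exp_conj, map_mul, Complex.conj_ofReal, Complex.conj_I]
  congr 1
  push_cast
  ring

variable {R : H →L[ℂ] H} {D : H →L[ℝ] H} {Ψ : (ℝ →ᵇ ℂ) →⋆ₐ[ℂ] (H →L[ℂ] H)} {J : H →L[ℝ] H}

lemma psi_b (h : FC R D Ψ) (n : ℕ) (t : ℝ) (v : H) :
    (2 : ℂ) • Ψ (kB n t) v - R (Ψ (kB n t) v) =
      Ψ (ez ((n : ℝ) + 1) (t - Complex.I / 2)) (Ψ (ctB n) v) := by
  rw [← psi_mul_apply, ← kB_b, psi_mul_apply, map_sub, h.psi_FR, psi_two, sub_apply, smul_apply,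
    one_apply_eq_self]

lemma psi_c (h : FC R D Ψ) (n : ℕ) (t : ℝ) (v : H) :
    R (Ψ (kB n t) v) = Ψ (ez ((n : ℝ) + 1) (t + Complex.I / 2)) (Ψ (ctB n) v) := by
  rw [← psi_mul_apply, ← kB_c, psi_mul_apply, h.psi_FR]

lemma R_symm (h : FC R D Ψ) (v w : H) : ⟪v, R w⟫_ℂ = ⟪R v, w⟫_ℂ := by
  have hs : star FR = FR := by
    ext ρ
    rw [BoundedContinuousFunction.star_apply, FR_apply]
    exact Complex.conj_ofReal _
  rw [← h.psi_FR, psi_star, hs]

lemma R_symm' (h : FC R D Ψ) (v w : H) : ⟪v, (2 : ℂ) • w - R w⟫_ℂ = ⟪(2 : ℂ) • v - R v, w⟫_ℂ := by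
  rw [inner_sub_right, inner_sub_left, R_symm h, inner_smul_left, inner_smul_right,
    Complex.conj_ofNat]

lemma boundary (h : FC R D Ψ) (hJ : JD D Ψ J) {x' x : H →L[ℂ] H} {β : ℝ}
    (hx : ∀ v : H, D (x' (D v)) =
      ((Real.exp (-β / 2) : ℝ) : ℂ) • ((2 : ℂ) • x (R v) - R (x (R v))) +
      ((Real.exp (β / 2) : ℝ) : ℂ) • R (x ((2 : ℂ) • v - R v))) (n : ℕ) (v1 w1 : H) (t : ℝ) :
    ((Real.exp (-β / 2) : ℝ) : ℂ) *
        cz Ψ ((n : ℝ) + 1) x (Ψ (ctB n) v1) (Ψ (ctB n) w1) (t - Complex.I / 2) +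
      ((Real.exp (β / 2) : ℝ) : ℂ) *
        cz Ψ ((n : ℝ) + 1) x (Ψ (ctB n) v1) (Ψ (ctB n) w1) (t + Complex.I / 2) =
      ⟪Ψ (ctB n) v1, Ψ (expB t) (hJ.cj x' (Ψ (expB (-t)) (Ψ (ctB n) w1)))⟫_ℂ := by
  have hv : Ψ (expB (-t)) (Ψ (ctB n) v1) = Ψ FT (Ψ (kB n (-t)) v1) := by
    rw [← psi_mul_apply, kB_a, psi_mul_apply]
  have hw : Ψ (expB (-t)) (Ψ (ctB n) w1) = Ψ FT (Ψ (kB n (-t)) w1) := by
    rw [← psi_mul_apply, kB_a, psi_mul_apply]
  have h1 : star (expB t) = expB (-t) := expB_star t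
  have h2 : ⟪Ψ (ctB n) v1, Ψ (expB t) (hJ.cj x' (Ψ (expB (-t)) (Ψ (ctB n) w1)))⟫_ℂ =
      ⟪Ψ (kB n (-t)) v1, D (x' (D (Ψ (kB n (-t)) w1)))⟫_ℂ := by
    rw [← hJ.T_cj_T, ← T_symm, ← hw, ← hv, psi_star Ψ (expB (-t)), expB_star, neg_neg]
  rw [h2, hx, inner_add_right, inner_smul_right, inner_smul_right, R_symm' h, R_symm h,
    psi_b h, psi_b h, psi_c h, psi_c h]
  unfold cz
  rw [psi_star Ψ (ez _ _), psi_star Ψ (ez _ _), ez_star, ez_star]
  have e1 : -(starRingEnd ℂ) (((-t : ℝ) : ℂ) - Complex.I / 2) = (t : ℂ) - Complex.I / 2 := by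
    rw [map_sub, Complex.conj_ofReal, map_div₀, Complex.conj_I, Complex.conj_ofNat]
    push_cast
    ring
  have e2 : -(starRingEnd ℂ) (((-t : ℝ) : ℂ) + Complex.I / 2) = (t : ℂ) + Complex.I / 2 := by
    rw [map_add, Complex.conj_ofReal, map_div₀, Complex.conj_I, Complex.conj_ofNat]
    push_cast
    ring
  have e3 : -((t : ℂ) - Complex.I / 2) = ((-t : ℝ) : ℂ) + Complex.I / 2 := by
    push_cast
    ring
  have e4 : -((t : ℂ) + Complex.I / 2) = ((-t : ℝ) : ℂ) - Complex.I / 2 := by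
    push_cast
    ring
  rw [e1, e2, e3, e4]

lemma integral_cut (h : FC R D Ψ) (hJ : JD D Ψ J) {x' x : H →L[ℂ] H} {β : ℝ}
    (hx : ∀ v : H, D (x' (D v)) =
      ((Real.exp (-β / 2) : ℝ) : ℂ) • ((2 : ℂ) • x (R v) - R (x (R v))) +
      ((Real.exp (β / 2) : ℝ) : ℂ) • R (x ((2 : ℂ) • v - R v))) (n : ℕ) (v1 w1 : H) :
    ⟪Ψ (ctB n) v1, x (Ψ (ctB n) w1)⟫_ℂ = ∫ t : ℝ, ker β t *
      ⟪Ψ (ctB n) v1, Ψ (expB t) (hJ.cj x' (Ψ (expB (-t)) (Ψ (ctB n) w1)))⟫_ℂ := by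
  rw [← cz_zero Ψ ((n : ℝ) + 1) x (Ψ (ctB n) v1) (Ψ (ctB n) w1)]
  rw [Pool.Agent.Helper5.TTD.strip_formula _ (cz_diff Ψ _ x _ _) _ (cz_bound Ψ _ x _ _) (-β)]
  congr 1
  funext t
  rw [← boundary h hJ hx]
  unfold ker
  rw [neg_neg]

end Pool.Agent.Helper43.TTF

end

section

open scoped InnerProductSpace Topology BoundedContinuousFunction FourierTransform

open ContinuousLinearMap Filter MeasureTheory

namespace Pool.Agent.Helper43.TTF

open Pool.Agent.Helper23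

variable {H : Type*} [NormedAddCommGroup H] [InnerProductSpace ℂ H] [CompleteSpace H]

variable {R : H →L[ℂ] H} {D : H →L[ℝ] H} {Ψ : (ℝ →ᵇ ℂ) →⋆ₐ[ℂ] (H →L[ℂ] H)} {J : H →L[ℝ] H}

lemma tendsto_ct (h : FC R D Ψ) (v : H) : Tendsto (fun n => Ψ (ctB n) v) atTop (𝓝 v) := by
  have h1 := h.psi_cont ctB 1 1 ctB_norm ?_ v
  · rwa [map_one, one_apply_eq_self] at h1
  · intro L
    rw [Metric.tendstoUniformlyOn_iff]
    intro ε hε
    obtain ⟨m, hm⟩ := exists_nat_ge L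
    filter_upwards [eventually_ge_atTop m] with n hn ρ hρ
    have h2 : |ρ| ≤ n := by
      have h3 : (m : ℝ) ≤ n := by exact_mod_cast hn
      rw [Set.mem_Icc] at hρ
      rw [abs_le]
      constructor <;> (clear * - hm hρ h3; linarith [hρ.1, hρ.2])
    rw [ctB_apply, ct_one h2, one_bcf, Complex.ofReal_one, dist_self]
    exact hε

lemma expB_norm (t : ℝ) : ‖expB t‖ ≤ 1 :=
  BoundedContinuousFunction.norm_ofNormedAddCommGroup_le _ zero_le_one _

lemma U_norm (Ψ : (ℝ →ᵇ ℂ) →⋆ₐ[ℂ] (H →L[ℂ] H)) (t : ℝ) (v : H) : ‖Ψ (expB t) v‖ ≤ ‖v‖ := by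
  refine (psi_norm_apply Ψ _ v).trans ?_
  calc ‖expB t‖ * ‖v‖ ≤ 1 * ‖v‖ := by gcongr; exact expB_norm t
    _ = ‖v‖ := one_mul _

lemma U_cont (h : FC R D Ψ) (v : H) : Continuous (fun t : ℝ => Ψ (expB t) v) := by
  apply SeqContinuous.continuous
  intro s t hs
  refine h.psi_cont (fun n => expB (s n)) (expB t) 1 (fun n => expB_norm _) ?_ v
  intro L
  rw [Metric.tendstoUniformlyOn_iff]
  intro ε hε
  have h1 := Metric.tendsto_atTop.1 hs (ε / (|L| + 1)) (by (clear * - hε; positivity))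
  obtain ⟨m, hm⟩ := h1
  filter_upwards [eventually_ge_atTop m] with n hn ρ hρ
  have h2 := hm n hn
  rw [Real.dist_eq] at h2
  rw [dist_eq_norm, expB_apply, expB_apply]
  refine (exp_sub _ _).trans_lt ?_
  rw [← sub_mul, abs_mul, abs_sub_comm]
  have h3 : |ρ| ≤ |L| := by
    rw [Set.mem_Icc] at hρ
    rw [abs_le]
    constructor <;> (clear * - hρ; linarith [hρ.1, hρ.2, le_abs_self L])
  have h5 : 0 < |L| + 1 := by (clear * -; positivity)
  rw [lt_div_iff₀ h5] at h2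
  have h4 : 0 ≤ |s n - t| := abs_nonneg _
  (clear * - h2 h4 h3; nlinarith)

end Pool.Agent.Helper43.TTF

end

section

open scoped InnerProductSpace Topology BoundedContinuousFunction

open ContinuousLinearMap Filter MeasureTheory

namespace Pool.Agent.Helper88.CS

open Pool.Agent.Helper23

open Pool.Agent.Helper78.BC (Std rm Fixed)

variable {H : Type*} [NormedAddCommGroup H] [InnerProductSpace ℂ H] [CompleteSpace H]

/-- The standard form of project BC with the operators of Rieffel and van Daele. -/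
structure St (A : VonNeumannAlgebra H) (ξ : H) (J : H →L[ℝ] H)
    (Ψ : (ℝ →ᵇ ℂ) →⋆ₐ[ℂ] (H →L[ℂ] H)) (R : H →L[ℂ] H) (D : H →L[ℝ] H) : Prop
    extends Std A ξ J Ψ where
  mod : Modular A ξ R D Ψ
  jd : Pool.Agent.Helper43.TTF.JD D Ψ J
  dense : Dense (orb A ξ : Set H)

theorem St.conj {A : VonNeumannAlgebra H} {ξ : H} {J : H →L[ℝ] H}
    {Ψ : (ℝ →ᵇ ℂ) →⋆ₐ[ℂ] (H →L[ℂ] H)} {R : H →L[ℂ] H} {D : H →L[ℝ] H} (h : St A ξ J Ψ R D) :
    Conj A J :=
  ⟨h.J_J, h.J_conj, h.J_norm, h.J_inner, h.J_comm, h.J_mem⟩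

end Pool.Agent.Helper88.CS

end

section

open scoped InnerProductSpace Topology BoundedContinuousFunction

open ContinuousLinearMap Filter MeasureTheory

namespace Pool.Agent.Helper88.CS

open Pool.Agent.Helper23

open Pool.Agent.Helper78.BC (Std rm Fixed)

variable {H : Type*} [NormedAddCommGroup H] [InnerProductSpace ℂ H] [CompleteSpace H]

variable {A : VonNeumannAlgebra H} {ξ : H} {J : H →L[ℝ] H}
  {Ψ : (ℝ →ᵇ ℂ) →⋆ₐ[ℂ] (H →L[ℂ] H)} {R : H →L[ℂ] H} {D : H →L[ℝ] H}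

namespace ConeAux

variable (h : St A ξ J Ψ R D)

include h

/-- right multiplication: `J (a (J (y ξ))) = y (J (a ξ))` -/
theorem jc {a y : H →L[ℂ] H} (ha : a ∈ A) (hy : y ∈ A) :
    J (a (J (y ξ))) = y (J (a ξ)) := by
  rw [h.J_comm a ha y hy, h.J_xi]

end ConeAux

end Pool.Agent.Helper88.CS

end

section

open scoped InnerProductSpace Topology BoundedContinuousFunction

open ContinuousLinearMap Filter MeasureTheory

namespace Pool.Agent.Helper88.CS

open Pool.Agent.Helper23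

open Pool.Agent.Helper78.BC (Std rm Fixed)

variable {H : Type*} [NormedAddCommGroup H] [InnerProductSpace ℂ H] [CompleteSpace H]

variable {A : VonNeumannAlgebra H} {J : H →L[ℝ] H}

namespace JUniqAux

open Pool.Agent.Helper43.TTF Pool.Agent.Helper23.TTA Pool.Agent.Helper70.U8

variable {κ : H}

/-- `J R v = (2 - R) J v` for the canonical conjugation -/
lemma J_R {ξ : H} {Ψ : (ℝ →ᵇ ℂ) →⋆ₐ[ℂ] (H →L[ℂ] H)} {R : H →L[ℂ] H} {D : H →L[ℝ] H}
    (h : St A ξ J Ψ R D) (v : H) : J (R v) = (2 : ℂ) • J v - R (J v) := by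
  have h1 := h.psi_J FR (2 - FR) (fun ρ => by
    have h3 : (2 : ℝ →ᵇ ℂ) ρ = 2 := rfl
    rw [BoundedContinuousFunction.sub_apply, Pool.Agent.Helper43.TTF.FR_apply, Pool.Agent.Helper43.TTF.FR_apply, h3, Complex.conj_ofReal]
    have h4 : (0 : ℝ) < Real.exp ρ := Real.exp_pos _
    have h5 : (2 : ℝ) - 2 / (1 + Real.exp ρ) = 2 / (1 + Real.exp (-ρ)) := by
      rw [Real.exp_neg]
      field_simp
      ring
    rw [← h5]
    push_cast
    rfl) v
  rw [h.mod.psi_FR, map_sub, h.mod.psi_FR, Pool.Agent.Helper43.TTF.psi_two, sub_apply, smul_apply,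
    one_apply_eq_self] at h1
  exact h1

lemma J_D {ξ : H} {Ψ : (ℝ →ᵇ ℂ) →⋆ₐ[ℂ] (H →L[ℂ] H)} {R : H →L[ℂ] H} {D : H →L[ℝ] H}
    (h : St A ξ J Ψ R D) (v : H) : J (D v) = D (J v) := by
  rw [← h.jd.T_J v, ← h.jd.J_T (J v)]

end JUniqAux

end Pool.Agent.Helper88.CS

end

section

open scoped InnerProductSpace Topology BoundedContinuousFunction

open ContinuousLinearMap Filter MeasureTheory

namespace Pool.Agent.Helper88.CS

open Pool.Agent.Helper23

open Pool.Agent.Helper78.BC (Std rm Fixed)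

variable {H : Type*} [NormedAddCommGroup H] [InnerProductSpace ℂ H] [CompleteSpace H]

variable {A : VonNeumannAlgebra H} {ξ : H} {J : H →L[ℝ] H}
  {Ψ : (ℝ →ᵇ ℂ) →⋆ₐ[ℂ] (H →L[ℂ] H)} {R : H →L[ℂ] H} {D : H →L[ℝ] H}

open CentAux

open Pool.Agent.Helper78.BC (fixed_of J_of_fixed)

open Pool.Agent.Helper78.BC.FixAux (Pl Pl_apply plat plat_cont norm_Pl_le Pl_tendsto mm_zero mm_nonneg mm_le)

open Pool.Agent.Helper70.U8 (GB GB_apply)

/-- elements of the centralizer: `e ξ` is fixed -/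
theorem fixed_of_J (h : St A ξ J Ψ R D) {e : H →L[ℂ] H} (he : e ∈ A) (hs : star e = e)
    (hJ : J (e ξ) = e ξ) : Fixed Ψ (e ξ) := by
  refine fixed_of h.toStd hJ fun a b ha hab G hG => ?_
  have h1 := h.psi_half (GB 1 one_pos 0) (GB 1 one_pos (1 / 2)) (fun ρ => by
    rw [GB_apply, GB_apply, ← Complex.ofReal_mul, ← Real.exp_add]
    congr 2
    ring) e he
  rw [hs, hJ] at h1
  have h2 : Ψ (GB 1 one_pos (1 / 2) - GB 1 one_pos 0) (e ξ) = 0 := by
    rw [map_sub, ContinuousLinearMap.sub_apply, h1, sub_self]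
  have hsub : tsupport (G : ℝ → ℂ) ⊆ Set.Icc a b := by
    refine closure_minimal ?_ isClosed_Icc
    intro ρ hρ
    by_contra hh
    exact hρ (hG ρ hh)
  have hGc : HasCompactSupport (G : ℝ → ℂ) :=
    HasCompactSupport.intro isCompact_Icc fun ρ hρ => hG ρ hρ
  refine kill h2 hGc fun ρ hρ => ?_
  have hρ0 : 0 < ρ := ha.trans_le (hsub hρ).1
  rw [BoundedContinuousFunction.coe_sub, Pi.sub_apply, GB_apply, GB_apply, sub_ne_zero]
  intro h3
  have h4 := Complex.ofReal_injective h3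
  have h5 := Real.exp_injective h4
  (clear * - hρ0 h5; linarith)

end Pool.Agent.Helper88.CS

end

section

open scoped InnerProductSpace Topology BoundedContinuousFunction

open ContinuousLinearMap Filter MeasureTheory

namespace Pool.Agent.Helper88.CS

open Pool.Agent.Helper23

open Pool.Agent.Helper78.BC (Std rm Fixed)

variable {H : Type*} [NormedAddCommGroup H] [InnerProductSpace ℂ H] [CompleteSpace H]

variable {A : VonNeumannAlgebra H} {ξ : H} {J : H →L[ℝ] H}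
  {Ψ : (ℝ →ᵇ ℂ) →⋆ₐ[ℂ] (H →L[ℂ] H)} {R : H →L[ℂ] H} {D : H →L[ℝ] H}

namespace CornerSpecAux

open Pool.Agent.Helper78.BC.FixAux (Pl Pl_apply plat mm_zero norm_Pl_le Pl_tendsto)

/-- the spectral estimate -/
theorem est (h : St A ξ J Ψ R D) {b : H →L[ℂ] H} (hb : b ∈ A) {l κ : ℝ}
    (hκ : 0 ≤ κ) (he : ∀ w ∈ A, ‖⟪J ((star w) ξ), J ((star b) ξ)⟫_ℂ - (l : ℂ) * ⟪w ξ, b ξ⟫_ℂ‖ ≤
      κ * ‖w ξ‖) {G F : ℝ →ᵇ ℂ} (hG : HasCompactSupport G)
    (hF : ∀ ρ, F ρ = ((Real.exp ρ : ℝ) : ℂ) * G ρ - (l : ℂ) * G ρ) :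
    ‖Ψ F (b ξ)‖ ≤ κ * ‖G‖ := by
  set θ := Ψ F (b ξ) with hθ
  have hGs : HasCompactSupport (star G : ℝ →ᵇ ℂ) := by
    refine HasCompactSupport.intro hG fun ρ hρ => ?_
    rw [BoundedContinuousFunction.star_apply, image_eq_zero_of_notMem_tsupport hρ, star_zero]
  obtain ⟨G1, hG1, hG1c⟩ := exists_mul (fun ρ => ((Real.exp (ρ / 2) : ℝ) : ℂ))
    (by fun_prop) (star G) hGs
  obtain ⟨G2, hG2, hG2c⟩ := exists_mul (fun ρ => ((Real.exp ρ : ℝ) : ℂ)) (by fun_prop) G hG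
  -- the inner products
  have e1 : ⟪Ψ (star G) θ, b ξ⟫_ℂ = ⟪θ, Ψ G (b ξ)⟫_ℂ := by
    rw [map_star, ContinuousLinearMap.star_eq_adjoint, ContinuousLinearMap.adjoint_inner_left]
  have e2 : ⟪Ψ G1 θ, J ((star b) ξ)⟫_ℂ = ⟪θ, Ψ G2 (b ξ)⟫_ℂ := by
    have h1 : ⟪Ψ G1 θ, J ((star b) ξ)⟫_ℂ = ⟪θ, Ψ (star G1) (J ((star b) ξ))⟫_ℂ := by
      rw [map_star, ContinuousLinearMap.star_eq_adjoint (Ψ G1),
        ContinuousLinearMap.adjoint_inner_right]
    rw [h1, h.psi_half (star G1) G2 (fun ρ => ?_) b hb]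
    rw [hG2, BoundedContinuousFunction.star_apply, hG1, star_mul',
      BoundedContinuousFunction.star_apply, star_star, Complex.star_def, Complex.conj_ofReal,
      ← mul_assoc, ← Complex.ofReal_mul, ← Real.exp_add, add_halves]
  have e3 : F = G2 - (l : ℂ) • G := by
    ext ρ
    rw [BoundedContinuousFunction.sub_apply, BoundedContinuousFunction.smul_apply, hF, hG2,
      smul_eq_mul]
  have e4 : ⟪θ, θ⟫_ℂ = ⟪Ψ G1 θ, J ((star b) ξ)⟫_ℂ - (l : ℂ) * ⟪Ψ (star G) θ, b ξ⟫_ℂ := by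
    rw [e1, e2]
    nth_rewrite 2 [hθ]
    rw [e3, map_sub, map_smul, ContinuousLinearMap.sub_apply, ContinuousLinearMap.smul_apply,
      inner_sub_right, inner_smul_right]
  -- the limit
  have e5 : ‖⟪Ψ G1 θ, J ((star b) ξ)⟫_ℂ - (l : ℂ) * ⟪Ψ (star G) θ, b ξ⟫_ℂ‖ ≤
      κ * ‖Ψ (star G) θ‖ := by
    have hex : ∀ n : ℕ, ∃ w ∈ A, ‖w ξ - Ψ (star G) θ‖ ≤ 1 / ((n : ℝ) + 1) ∧
        ‖J ((star w) ξ) - Ψ G1 θ‖ ≤ 1 / ((n : ℝ) + 1) := fun n =>
      h.core (star G) G1 hGs hG1 θ _ (by (clear * -; positivity))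
    choose w hwA hw1 hw2 using hex
    have hz : Tendsto (fun n : ℕ => 1 / ((n : ℝ) + 1)) atTop (𝓝 0) :=
      tendsto_one_div_add_atTop_nhds_zero_nat
    have t1 : Tendsto (fun n => w n ξ) atTop (𝓝 (Ψ (star G) θ)) := by
      rw [tendsto_iff_norm_sub_tendsto_zero]
      exact squeeze_zero (fun n => norm_nonneg _) hw1 hz
    have t2 : Tendsto (fun n => J ((star (w n)) ξ)) atTop (𝓝 (Ψ G1 θ)) := by
      rw [tendsto_iff_norm_sub_tendsto_zero]
      exact squeeze_zero (fun n => norm_nonneg _) hw2 hz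
    refine le_of_tendsto_of_tendsto' (((t2.inner tendsto_const_nhds).sub
      ((t1.inner tendsto_const_nhds).const_mul (l : ℂ))).norm) (t1.norm.const_mul κ)
      fun n => he (w n) (hwA n)
  rw [← e4, inner_self_eq_norm_sq_to_K] at e5
  have e6 : ‖θ‖ * ‖θ‖ ≤ κ * (‖G‖ * ‖θ‖) := by
    have h1 : ‖((‖θ‖ : ℂ)) ^ 2‖ = ‖θ‖ * ‖θ‖ := by
      rw [norm_pow, Complex.norm_real, norm_norm, sq]
    have h2 : ‖Ψ (star G) θ‖ ≤ ‖G‖ * ‖θ‖ := by
      refine (psiv Ψ (star G) θ).trans ?_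
      rw [norm_star]
    calc ‖θ‖ * ‖θ‖ = ‖((‖θ‖ : ℂ)) ^ 2‖ := h1.symm
      _ ≤ κ * ‖Ψ (star G) θ‖ := e5
      _ ≤ κ * (‖G‖ * ‖θ‖) := mul_le_mul_of_nonneg_left h2 hκ
  rcases (norm_nonneg θ).eq_or_lt with h0 | h0
  · rw [← h0]
    (clear * - hκ; positivity)
  · refine le_of_mul_le_mul_right ?_ h0
    linarith

/-- all vectors orthogonal to the spectral point vanish -/
theorem norm_le_of (h : St A ξ J Ψ R D) (γ : ℝ) (G : ℝ →ᵇ ℂ) (hG : G γ ≠ 0) :
    ∃ C : ℝ, 0 ≤ C ∧ ∀ b ∈ A, Ψ G (b ξ) = 0 → ∀ κ : ℝ, 0 ≤ κ →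
      (∀ w ∈ A, ‖⟪J ((star w) ξ), J ((star b) ξ)⟫_ℂ -
        ((Real.exp γ : ℝ) : ℂ) * ⟪w ξ, b ξ⟫_ℂ‖ ≤ κ * ‖w ξ‖) → ‖b ξ‖ ≤ κ * C := by
  have hm : 0 < ‖G γ‖ / 2 := by
    have := norm_pos_iff.2 hG
    (clear * - hG; positivity)
  -- a neighbourhood of `e ^ γ`
  have hc : ContinuousAt (fun t : ℝ => ‖G (Real.log t)‖) (Real.exp γ) := by
    refine (G.continuous.norm.continuousAt).comp ?_
    exact Real.continuousAt_log (Real.exp_pos γ).ne'
  have hlt : ‖G γ‖ / 2 < ‖G (Real.log (Real.exp γ))‖ := by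
    rw [Real.log_exp]
    linarith
  obtain ⟨m', hm', hball⟩ := Metric.eventually_nhds_iff.1 (hc.eventually (lt_mem_nhds hlt))
  obtain ⟨p, hp⟩ := exists_inv (fun ρ => G ρ) G.continuous hm
  obtain ⟨r, hr⟩ := exists_inv (fun ρ => ((Real.exp ρ - Real.exp γ : ℝ) : ℂ))
    (Complex.continuous_ofReal.comp (by fun_prop)) hm'
  set G4 : ℝ →ᵇ ℂ := r * (1 - G * p) with hG4
  have key : ∀ ρ, 1 = G ρ * p ρ + ((Real.exp ρ - Real.exp γ : ℝ) : ℂ) * G4 ρ := by
    intro ρ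
    have h1 : G4 ρ = r ρ * (1 - G ρ * p ρ) := rfl
    rw [h1]
    by_cases hρ : m' ≤ ‖((Real.exp ρ - Real.exp γ : ℝ) : ℂ)‖
    · rw [← mul_assoc, hr ρ hρ]
      ring
    · have h2 : ‖G γ‖ / 2 ≤ ‖G ρ‖ := by
        have h3 := @hball (Real.exp ρ) (by
          rw [Real.dist_eq]
          rw [Complex.norm_real, Real.norm_eq_abs] at hρ
          exact not_le.1 hρ)
        rw [Real.log_exp] at h3
        exact h3.le
      rw [hp ρ h2]
      ring
  refine ⟨‖G4‖, norm_nonneg _, fun b hb hzero κ hκ he => ?_⟩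
  have hbound : ∀ n : ℕ, ‖Ψ (Pl n) (b ξ)‖ ≤ κ * ‖G4‖ := by
    intro n
    have hcs : HasCompactSupport (G4 * Pl n : ℝ →ᵇ ℂ) := by
      refine HasCompactSupport.intro (Pl_compact n) fun ρ hρ => ?_
      rw [BoundedContinuousFunction.mul_apply, image_eq_zero_of_notMem_tsupport hρ, mul_zero]
    obtain ⟨F, hF, -⟩ := exists_mul (fun ρ => ((Real.exp ρ - Real.exp γ : ℝ) : ℂ))
      (Complex.continuous_ofReal.comp (by fun_prop)) (G4 * Pl n) hcs
    have h1 := est h hb (l := Real.exp γ) hκ he (G := G4 * Pl n) (F := F) hcs (fun ρ => by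
      rw [hF, Complex.ofReal_sub]
      ring)
    have h2 : Pl n = (p * Pl n) * G + F := by
      ext ρ
      rw [BoundedContinuousFunction.add_apply, BoundedContinuousFunction.mul_apply,
        BoundedContinuousFunction.mul_apply, hF, BoundedContinuousFunction.mul_apply]
      have h3 := key ρ
      linear_combination (Pl n ρ) * h3
    rw [h2, map_add, ContinuousLinearMap.add_apply, psi_mul', hzero, map_zero, zero_add]
    refine h1.trans (mul_le_mul_of_nonneg_left ?_ hκ)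
    exact (norm_mul_le _ _).trans (mul_le_of_le_one_right (norm_nonneg _) (norm_Pl_le n))
  have hlim := h.psi_cont (fun n => Pl n) 1 1 norm_Pl_le Pl_tendsto (b ξ)
  rw [map_one, ContinuousLinearMap.one_apply] at hlim
  exact le_of_tendsto' hlim.norm hbound

end CornerSpecAux

end Pool.Agent.Helper88.CS

end

end

section

section

open scoped InnerProductSpace Topology BoundedContinuousFunction FourierTransform

open ContinuousLinearMap Filter MeasureTheory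

namespace Pool.Agent.Helper43.TTF

open Pool.Agent.Helper23

variable {H : Type*} [NormedAddCommGroup H] [InnerProductSpace ℂ H] [CompleteSpace H]

variable {R : H →L[ℂ] H} {D : H →L[ℝ] H} {Ψ : (ℝ →ᵇ ℂ) →⋆ₐ[ℂ] (H →L[ℂ] H)} {J : H →L[ℝ] H}

/-- the matrix coefficient `⟪v, U_t y U_{-t} w⟫` -/
noncomputable def mc (Ψ : (ℝ →ᵇ ℂ) →⋆ₐ[ℂ] (H →L[ℂ] H)) (y : H →L[ℂ] H) (v w : H) (t : ℝ) : ℂ :=
  ⟪v, Ψ (expB t) (y (Ψ (expB (-t)) w))⟫_ℂ

end Pool.Agent.Helper43.TTF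

end

section

open scoped InnerProductSpace Topology BoundedContinuousFunction

open ContinuousLinearMap Filter MeasureTheory

namespace Pool.Agent.Helper70.U8

open Pool.Agent.Helper23

variable {H : Type*} [NormedAddCommGroup H] [InnerProductSpace ℂ H] [CompleteSpace H]

variable {A : VonNeumannAlgebra H} {ξ : H} {R : H →L[ℂ] H} {D : H →L[ℝ] H}
  {Ψ : (ℝ →ᵇ ℂ) →⋆ₐ[ℂ] (H →L[ℂ] H)} {J : H →L[ℝ] H}

open Pool.Agent.Helper43.TTF (JD FT FT_apply FR_apply)

/-- the key identity of the kernels -/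
lemma two_sub_FR (ρ : ℝ) : (2 - FR : ℝ →ᵇ ℂ) ρ = FT ρ * ((Real.exp (ρ / 2) : ℝ) : ℂ) := by
  have h3 : (2 : ℝ →ᵇ ℂ) ρ = 2 := rfl
  rw [BoundedContinuousFunction.sub_apply, FT_apply, Pool.Agent.Helper43.TTF.FR_apply, h3,
    Pool.Agent.Helper43.TTF.cosh_half]
  have h1 : Real.exp ρ = Real.exp (ρ / 2) * Real.exp (ρ / 2) := by
    rw [← Real.exp_add]; ring_nf
  have h2 : (0 : ℝ) < Real.exp (ρ / 2) := Real.exp_pos _
  have h4 : (0 : ℝ) < 1 + Real.exp ρ := by positivity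
  have h5 : 2 - 2 / (1 + Real.exp ρ) =
      ((1 + Real.exp ρ) / (2 * Real.exp (ρ / 2)))⁻¹ * Real.exp (ρ / 2) := by
    rw [h1] at h4 ⊢
    field_simp
    ring
  rw [← Complex.ofReal_mul, ← h5]
  push_cast
  ring

end Pool.Agent.Helper70.U8

end

section

open scoped InnerProductSpace Topology BoundedContinuousFunction

open ContinuousLinearMap Filter MeasureTheory

namespace Pool.Agent.Helper88.CS

open Pool.Agent.Helper23

open Pool.Agent.Helper78.BC (Std rm Fixed)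

variable {H : Type*} [NormedAddCommGroup H] [InnerProductSpace ℂ H] [CompleteSpace H]

variable {A : VonNeumannAlgebra H} {J : H →L[ℝ] H}

namespace JUniqAux

open Pool.Agent.Helper43.TTF Pool.Agent.Helper23.TTA Pool.Agent.Helper70.U8

variable {κ : H}

lemma star_cj (hJ : Conj A J) (x : H →L[ℂ] H) : star (cj hJ x) = cj hJ (star x) := by
  apply ContinuousLinearMap.ext
  intro v
  apply ext_inner_right ℂ
  intro w
  rw [inner_star_left, cj_apply, cj_apply, inner_J hJ, inner_star_right, ← hJ.J_inner, hJ.J_J]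

end JUniqAux

end Pool.Agent.Helper88.CS

end

end

section

section

open scoped InnerProductSpace Topology BoundedContinuousFunction

open ContinuousLinearMap Filter MeasureTheory

namespace Pool.Agent.Helper43.TTF

open Pool.Agent.Helper23

variable {H : Type*} [NormedAddCommGroup H] [InnerProductSpace ℂ H] [CompleteSpace H]

variable {A : VonNeumannAlgebra H} {ξ : H}

variable {R : H →L[ℂ] H} {D : H →L[ℝ] H} {Ψ : (ℝ →ᵇ ℂ) →⋆ₐ[ℂ] (H →L[ℂ] H)}

lemma FC.T_inj (h : FC R D Ψ) (h' : TTData A ξ R D) (v : H) (hv : Ψ FT v = 0) : v = 0 := by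
  have h1 := h.T_sq v
  rw [hv, map_zero] at h1
  have h2 := h'.R_inj _ h1.symm
  exact h'.R_inj' v (sub_eq_zero.1 h2).symm

lemma FC.T_dense (h : FC R D Ψ) (h' : TTData A ξ R D) : DenseRange (Ψ FT) := by
  have h1 : Dense (((Ψ FT : H →L[ℂ] H).range : Submodule ℂ H) : Set H) := by
    rw [Submodule.dense_iff_topologicalClosure_eq_top,
      Submodule.topologicalClosure_eq_top_iff, Submodule.eq_bot_iff]
    intro v hv
    rw [Submodule.mem_orthogonal] at hv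
    apply h.T_inj h'
    rw [← inner_self_eq_zero (𝕜 := ℂ), ← T_symm]
    exact hv _ ⟨Ψ FT v, rfl⟩
  exact h1

lemma FC.D_norm (h : FC R D Ψ) (h' : TTData A ξ R D) (v : H) : ‖D v‖ = ‖Ψ FT v‖ := by
  have h1 : ⟪D v, D v⟫_ℂ = ⟪Ψ FT v, Ψ FT v⟫_ℂ := by
    rw [h'.D_symm, h'.D_sq, ← h.T_sq, T_symm]
  rw [inner_self_eq_norm_sq_to_K, inner_self_eq_norm_sq_to_K] at h1
  have h2 : ‖D v‖ ^ 2 = ‖Ψ FT v‖ ^ 2 := by
    have h3 : ((‖D v‖ ^ 2 : ℝ) : ℂ) = ((‖Ψ FT v‖ ^ 2 : ℝ) : ℂ) := by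
      push_cast
      exact h1
    exact Complex.ofReal_injective h3
  exact (pow_left_inj₀ (norm_nonneg _) (norm_nonneg _) two_ne_zero).1 h2

end Pool.Agent.Helper43.TTF

end

section

open scoped InnerProductSpace Topology BoundedContinuousFunction FourierTransform

open ContinuousLinearMap Filter MeasureTheory

namespace Pool.Agent.Helper43.TTF

open Pool.Agent.Helper23

variable {H : Type*} [NormedAddCommGroup H] [InnerProductSpace ℂ H] [CompleteSpace H]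

variable {R : H →L[ℂ] H} {D : H →L[ℝ] H} {Ψ : (ℝ →ᵇ ℂ) →⋆ₐ[ℂ] (H →L[ℂ] H)} {J : H →L[ℝ] H}

lemma mc_cont (h : FC R D Ψ) (y : H →L[ℂ] H) (v w : H) : Continuous (mc Ψ y v w) := by
  have h1 : mc Ψ y v w = fun t => ⟪Ψ (expB (-t)) v, y (Ψ (expB (-t)) w)⟫_ℂ := by
    funext t
    unfold mc
    rw [psi_star Ψ (expB (-t)), expB_star, neg_neg]
  rw [h1]
  have h2 := (U_cont h v).comp continuous_neg
  have h3 := (U_cont h w).comp continuous_neg
  exact Continuous.inner h2 (y.continuous.comp h3)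

lemma mc_norm (Ψ : (ℝ →ᵇ ℂ) →⋆ₐ[ℂ] (H →L[ℂ] H)) (y : H →L[ℂ] H) (v w : H) (t : ℝ) :
    ‖mc Ψ y v w t‖ ≤ ‖v‖ * (‖y‖ * ‖w‖) := by
  unfold mc
  refine (norm_inner_le_norm _ _).trans ?_
  gcongr
  refine (U_norm Ψ _ _).trans ?_
  refine (y.le_opNorm _).trans ?_
  gcongr
  exact U_norm Ψ _ _

theorem integral_formula (h : FC R D Ψ) (hJ : JD D Ψ J) {x' x : H →L[ℂ] H} {β : ℝ}
    (hx : ∀ v : H, D (x' (D v)) =
      ((Real.exp (-β / 2) : ℝ) : ℂ) • ((2 : ℂ) • x (R v) - R (x (R v))) +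
      ((Real.exp (β / 2) : ℝ) : ℂ) • R (x ((2 : ℂ) • v - R v))) (v w : H) :
    ⟪v, x w⟫_ℂ = ∫ t : ℝ, ker β t * mc Ψ (hJ.cj x') v w t := by
  set y := hJ.cj x' with hy
  have h1 : Tendsto (fun n => ⟪Ψ (ctB n) v, x (Ψ (ctB n) w)⟫_ℂ) atTop (𝓝 ⟪v, x w⟫_ℂ) :=
    (tendsto_ct h v).inner ((x.continuous.tendsto w).comp (tendsto_ct h w))
  have hb : ∀ (n : ℕ) (u : H), ‖Ψ (ctB n) u‖ ≤ ‖u‖ := by
    intro n u
    refine (psi_norm_apply Ψ _ u).trans ?_
    calc ‖ctB n‖ * ‖u‖ ≤ 1 * ‖u‖ := by gcongr; exact ctB_norm n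
      _ = ‖u‖ := one_mul _
  have h2 : Tendsto (fun n => ∫ t : ℝ, ker β t * mc Ψ y (Ψ (ctB n) v) (Ψ (ctB n) w) t) atTop
      (𝓝 (∫ t : ℝ, ker β t * mc Ψ y v w t)) := by
    refine tendsto_integral_of_dominated_convergence
      (fun t => (2 * Real.cosh (Real.pi * t))⁻¹ * (‖v‖ * (‖y‖ * ‖w‖))) ?_ ?_ ?_ ?_
    · intro n
      exact ((ker_cont β).mul (mc_cont h y _ _)).aestronglyMeasurable
    · exact ker_int.mul_const _
    · intro n
      refine Eventually.of_forall fun t => ?_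
      rw [norm_mul, ker_norm]
      gcongr
      refine (mc_norm Ψ y _ _ t).trans ?_
      gcongr
      · exact hb n v
      · exact hb n w
    · refine Eventually.of_forall fun t => ?_
      refine Tendsto.const_mul _ ?_
      unfold mc
      refine (tendsto_ct h v).inner ?_
      have h3 : Continuous (fun u => Ψ (expB t) (y (Ψ (expB (-t)) u))) := by fun_prop
      exact (h3.tendsto w).comp (tendsto_ct h w)
  refine tendsto_nhds_unique h1 ?_
  refine h2.congr fun n => ?_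
  exact (integral_cut h hJ hx n v w).symm

end Pool.Agent.Helper43.TTF

end

section

open scoped InnerProductSpace Topology BoundedContinuousFunction

open ContinuousLinearMap Filter

namespace Pool.Agent.Helper78.BC.StdEx

open Pool.Agent.Helper23 Pool.Agent.Helper70.U8

open Pool.Agent.Helper43.TTF (FC JD FT FT_apply FR_apply)

variable {H : Type*} [NormedAddCommGroup H] [InnerProductSpace ℂ H] [CompleteSpace H]

variable {A : VonNeumannAlgebra H} {ξ : H} {R : H →L[ℂ] H} {D : H →L[ℝ] H}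
  {Ψ : (ℝ →ᵇ ℂ) →⋆ₐ[ℂ] (H →L[ℂ] H)} {J : H →L[ℝ] H}

lemma ext_dense (h' : TTData A ξ R D) (hF : FC R D Ψ) (p : H → Prop) (hp : IsClosed {v | p v})
    (h1 : ∀ v, p (Ψ FT v)) (v : H) : p v := by
  have hsub : Set.range (Ψ FT) ⊆ {v | p v} := by
    rintro _ ⟨w, rfl⟩
    exact h1 w
  exact closure_minimal hsub hp (hF.T_dense h' v)

lemma psi_half' (h' : TTData A ξ R D) (hF : FC R D Ψ) (hJ : JD D Ψ J) (G G' : ℝ →ᵇ ℂ)
    (hG : ∀ ρ, G' ρ = ((Real.exp (ρ / 2) : ℝ) : ℂ) * G ρ) {a : H →L[ℂ] H} (ha : a ∈ A) :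
    Ψ G (J ((star a) ξ)) = Ψ G' (a ξ) := by
  rw [← sub_eq_zero]
  refine hF.T_inj h' _ ?_
  have h2 : D ((star a) ξ) = Ψ (2 - FR) (a ξ) := by
    rw [h'.D_mem _ (star_mem ha), star_star, map_sub, hF.psi_FR,
      Pool.Agent.Helper43.TTF.psi_two, sub_apply, smul_apply, one_apply_eq_self]
  have h3 : Ψ FT (Ψ G (J ((star a) ξ))) = Ψ G (Ψ FT (J ((star a) ξ))) := by
    rw [← psi_mul_apply, mul_comm, psi_mul_apply]
  have h4 : G * (2 - FR) = FT * G' := by
    ext ρ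
    rw [BoundedContinuousFunction.mul_apply, BoundedContinuousFunction.mul_apply, Pool.Agent.Helper70.U8.two_sub_FR, hG]
    ring
  rw [map_sub, h3, hJ.T_J, h2, ← psi_mul_apply, ← psi_mul_apply, h4, sub_self]

end Pool.Agent.Helper78.BC.StdEx

end

section

open scoped InnerProductSpace Topology BoundedContinuousFunction

open ContinuousLinearMap Filter MeasureTheory

namespace Pool.Agent.Helper88.CS

open Pool.Agent.Helper23

open Pool.Agent.Helper78.BC (Std rm Fixed)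

variable {H : Type*} [NormedAddCommGroup H] [InnerProductSpace ℂ H] [CompleteSpace H]

variable {A : VonNeumannAlgebra H} {J : H →L[ℝ] H}

namespace JUniqAux

open Pool.Agent.Helper43.TTF Pool.Agent.Helper23.TTA Pool.Agent.Helper70.U8

variable {κ : H}

/-- the orthogonal complement of the closure of the selfadjoint part -/
lemma key {J₀ : H →L[ℝ] H} {Ψ : (ℝ →ᵇ ℂ) →⋆ₐ[ℂ] (H →L[ℂ] H)}
    (h : St A κ J₀ Ψ (Rop A κ) (Dop A κ)) (v : H) (hv : P A κ v = 0) :
      v ∈ closure {x : H | ∃ b ∈ A.commutant, star b = b ∧ x = Complex.I • b κ} := by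
  have hw : P A κ (J₀ (Complex.I • v)) = J₀ (Complex.I • v) := by
    have e1 : (2 : ℂ) • P A κ (J₀ (Complex.I • v)) =
        Rop A κ (J₀ (Complex.I • v)) + Dop A κ (J₀ (Complex.I • v)) := by
      rw [Rop_apply, Dop_apply, two_smul]
      abel
    have e2 : Rop A κ (J₀ (Complex.I • v)) =
        (2 : ℂ) • J₀ (Complex.I • v) - J₀ (Rop A κ (Complex.I • v)) := by
      rw [J_R h]
      abel
    have e3 : Dop A κ (Complex.I • v) = Rop A κ (Complex.I • v) := by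
      rw [Rop_apply, Dop_apply, Q_I_smul, hv, smul_zero, sub_zero, add_zero]
    rw [← J_D h, e2, e3] at e1
    have e4 : (2 : ℂ) • P A κ (J₀ (Complex.I • v)) = (2 : ℂ) • J₀ (Complex.I • v) := by
      rw [e1]
      abel
    exact smul_right_injective H two_ne_zero e4
  have hwK : J₀ (Complex.I • v) ∈ closure (TTA.K0 A κ : Set H) := by
    have := P_mem A κ (J₀ (Complex.I • v))
    rwa [hw] at this
  have hc : Continuous fun w : H => (-Complex.I) • J₀ w := by fun_prop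
  have h1 : (-Complex.I) • J₀ (J₀ (Complex.I • v)) ∈
      closure ((fun w : H => (-Complex.I) • J₀ w) '' (TTA.K0 A κ : Set H)) :=
    image_closure_subset_closure_image hc ⟨_, hwK, rfl⟩
  rw [h.J_J, smul_smul, neg_mul, Complex.I_mul_I, neg_neg, one_smul] at h1
  refine closure_mono ?_ h1
  rintro _ ⟨_, ⟨a, ha, ha', rfl⟩, rfl⟩
  refine ⟨-(cj h.conj a), ?_, ?_, ?_⟩
  · exact neg_mem (cj_mem h.conj ha)
  · rw [star_neg, star_cj, ha']
  · change (-Complex.I) • J₀ (a κ) = Complex.I • (-(J₀ (a (J₀ κ))))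
    rw [h.J_xi, neg_smul, smul_neg]

/-- a bare conjugation fixing `κ` intertwines as the canonical one -/
lemma bare {J₀ : H →L[ℝ] H} {Ψ : (ℝ →ᵇ ℂ) →⋆ₐ[ℂ] (H →L[ℂ] H)}
    (h : St A κ J₀ Ψ (Rop A κ) (Dop A κ)) (hJ : Conj A J) (hκ : J κ = κ) (v : H) :
    J (Rop A κ v) = (2 : ℂ) • J v - Rop A κ (J v) ∧ J (Dop A κ v) = Dop A κ (J v) := by
  have h2c : ∀ v : H, J ((2 : ℂ) • v) = (2 : ℂ) • J v := by
    intro v
    have := hJ.J_conj 2 v
    rwa [Complex.conj_ofNat] at this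
  have hu := uniq (A := A) (κ := κ) (R' := (2 : ℂ) • (1 : H →L[ℂ] H) - cj hJ (Rop A κ))
    (D' := J.comp ((Dop A κ).comp J)) ?_ ?_ ?_ (key h)
  · have e1 := (hu (J v)).1
    have e2 := (hu (J v)).2
    constructor
    · rw [sub_apply, smul_apply, one_apply_eq_self, cj_apply, hJ.J_J] at e1
      rw [← e1]
      abel
    · change J (Dop A κ (J (J v))) = _ at e2
      rwa [hJ.J_J] at e2
  · intro c v
    change J (Dop A κ (J (c • v))) = (starRingEnd ℂ) c • J (Dop A κ (J v))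
    rw [hJ.J_conj, h.mod.data.D_conj, hJ.J_conj, Complex.conj_conj]
  · intro a ha
    change J (Dop A κ (J (a κ))) = _
    have e1 : J (a κ) = cj hJ a κ := by rw [cj_apply, hκ]
    rw [e1, h.mod.data.D_comm _ (cj_mem hJ ha), star_cj, cj_apply, hκ, sub_apply, smul_apply,
      one_apply_eq_self, cj_apply]
    abel
  · intro b hb
    change J (Dop A κ (J (b κ))) = _
    obtain ⟨a, ha, hab⟩ := hJ.J_mem b hb
    have e0 : b = cj hJ a := by
      apply ContinuousLinearMap.ext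
      intro v
      rw [hab, cj_apply]
    rw [e0, star_cj, cj_apply, cj_apply, hκ, hJ.J_J, h.mod.data.D_mem a ha, map_sub, h2c,
      sub_apply, smul_apply, one_apply_eq_self, cj_apply, hJ.J_J]

/-- uniqueness of the conjugation -/
lemma J_eq {J₀ : H →L[ℝ] H} {Ψ : (ℝ →ᵇ ℂ) →⋆ₐ[ℂ] (H →L[ℂ] H)}
    (h : St A κ J₀ Ψ (Rop A κ) (Dop A κ)) (hJ : Conj A J) (hκ : J κ = κ)
    (hpos : ∀ a ∈ A, 0 ≤ (⟪J (a κ), (star a) κ⟫_ℂ).re) : J = J₀ := by
  have hF : FC (Rop A κ) (Dop A κ) Ψ := ⟨h.mod.psi_FR, h.mod.psi_comm, h.mod.psi_D, h.mod.psi_cont⟩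
  -- the unitary `V = J J₀`
  let V : H →L[ℂ] H := LinearMap.mkContinuous
    { toFun := fun v => J (J₀ v)
      map_add' := by intro v w; simp only [map_add]
      map_smul' := by
        intro c v
        rw [h.J_conj, hJ.J_conj, Complex.conj_conj, RingHom.id_apply] } 1
    (by
      intro v
      change ‖J (J₀ v)‖ ≤ _
      rw [hJ.J_norm, h.J_norm, one_mul])
  have hV : ∀ v, V v = J (J₀ v) := fun v => rfl
  have hJ2 : ∀ v : H, J ((2 : ℂ) • v) = (2 : ℂ) • J v := by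
    intro v
    have := hJ.J_conj 2 v
    rwa [Complex.conj_ofNat] at this
  have hVR : ∀ v, V (Rop A κ v) = Rop A κ (V v) := by
    intro v
    rw [hV, hV, J_R h, map_sub, hJ2, (bare h hJ hκ (J₀ v)).1]
    abel
  have hVD : ∀ v, V (Dop A κ v) = Dop A κ (V v) := by
    intro v
    rw [hV, hV, J_D h, (bare h hJ hκ (J₀ v)).2]
  have hVpsi : ∀ (G : ℝ →ᵇ ℂ) (v : H), V (Ψ G v) = Ψ G (V v) := by
    intro G v
    have e1 := h.mod.psi_comm V (by
      apply ContinuousLinearMap.ext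
      intro w
      rw [mul_apply_eq_comp, mul_apply_eq_comp, hVR]) G
    have e2 := congrArg (fun T : H →L[ℂ] H => T v) e1
    simpa only [mul_apply_eq_comp] using e2
  have hVJ : ∀ v, V (J₀ v) = J₀ (V v) := by
    refine Pool.Agent.Helper78.BC.StdEx.ext_dense h.mod.data hF (fun v => V (J₀ v) = J₀ (V v))
      (isClosed_eq (by fun_prop) (by fun_prop)) (fun v => ?_)
    rw [h.jd.J_T, hVD, hVpsi, h.jd.J_T]
  have hVV : ∀ v, V (V v) = v := by
    intro v
    rw [hV (V v), ← hVJ, hV, h.J_J, hJ.J_J]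
  -- positivity of `V`
  have hcut : ∀ (n : ℕ) (θ : H), 0 ≤ (⟪V (Ψ (ctB n) θ), Ψ (ctB n) θ⟫_ℂ).re := by
    intro n θ
    have hcs : HasCompactSupport (ctB n) := by
      refine HasCompactSupport.of_support_subset_isCompact
        (isCompact_Icc (a := -((n : ℝ) + 1)) (b := (n : ℝ) + 1)) ?_
      intro ρ hρ
      rw [Function.mem_support] at hρ
      rw [Set.mem_Icc, ← abs_le]
      by_contra hc
      push Not at hc
      exact hρ (by rw [ctB_apply, ct_zero hc.le, Complex.ofReal_zero])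
    have hex : ∀ c : ℝ, ∃ G : ℝ →ᵇ ℂ, ∀ ρ, G ρ = ((Real.exp (c * ρ) : ℝ) : ℂ) * ctB n ρ := by
      intro c
      have hc : Continuous fun ρ : ℝ => ((Real.exp (c * ρ) : ℝ) : ℂ) * ctB n ρ := by fun_prop
      have hs : HasCompactSupport fun ρ : ℝ => ((Real.exp (c * ρ) : ℝ) : ℂ) * ctB n ρ :=
        hcs.mul_left
      obtain ⟨C, hC⟩ := hs.exists_bound_of_continuous hc
      exact ⟨BoundedContinuousFunction.ofNormedAddCommGroup _ hc C hC, fun ρ => rfl⟩
    obtain ⟨G, hG⟩ := hex (-(1 / 4))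
    obtain ⟨G', hG'⟩ := hex (1 / 4)
    have hGs : HasCompactSupport G := by
      have hs : HasCompactSupport fun ρ : ℝ => ((Real.exp (-(1 / 4) * ρ) : ℝ) : ℂ) * ctB n ρ :=
        hcs.mul_left
      have e : (G : ℝ → ℂ) = fun ρ : ℝ => ((Real.exp (-(1 / 4) * ρ) : ℝ) : ℂ) * ctB n ρ :=
        funext hG
      rwa [← e] at hs
    have hGG : ∀ ρ, G' ρ = ((Real.exp (ρ / 2) : ℝ) : ℂ) * G ρ := by
      intro ρ
      rw [hG, hG', ← mul_assoc, ← Complex.ofReal_mul, ← Real.exp_add]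
      congr 3
      ring
    have hpos' : 0 ≤ (⟪V (Ψ G' θ), Ψ G θ⟫_ℂ).re := by
      have hc : ∀ m : ℕ, ∃ b ∈ A, ‖b κ - Ψ G θ‖ ≤ 1 / ((m : ℝ) + 1) ∧
          ‖J₀ ((star b) κ) - Ψ G' θ‖ ≤ 1 / ((m : ℝ) + 1) := fun m =>
        h.core G G' hGs hGG θ _ (by (clear * -; positivity))
      choose b hbA hb1 hb2 using hc
      have t1 : Tendsto (fun m => b m κ) atTop (𝓝 (Ψ G θ)) :=
        tendsto_iff_norm_sub_tendsto_zero.2 (squeeze_zero (fun _ => norm_nonneg _) hb1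
          tendsto_one_div_add_atTop_nhds_zero_nat)
      have t2 : Tendsto (fun m => J₀ ((star (b m)) κ)) atTop (𝓝 (Ψ G' θ)) :=
        tendsto_iff_norm_sub_tendsto_zero.2 (squeeze_zero (fun _ => norm_nonneg _) hb2
          tendsto_one_div_add_atTop_nhds_zero_nat)
      have t3 : Tendsto (fun m => (⟪V (J₀ ((star (b m)) κ)), b m κ⟫_ℂ).re) atTop
          (𝓝 (⟪V (Ψ G' θ), Ψ G θ⟫_ℂ).re) :=
        (Complex.continuous_re.tendsto _).comp
          (((V.continuous.tendsto _).comp t2).inner t1)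
      refine ge_of_tendsto' t3 fun m => ?_
      have e1 := hpos (star (b m)) (star_mem (hbA m))
      rw [star_star] at e1
      rwa [hV, h.J_J]
    have hstar : star G * G' = ctB n * ctB n := by
      ext ρ
      rw [BoundedContinuousFunction.mul_apply, BoundedContinuousFunction.mul_apply,
        BoundedContinuousFunction.star_apply, hG, hG', ctB_apply, Complex.star_def, map_mul,
        Complex.conj_ofReal, Complex.conj_ofReal, mul_mul_mul_comm, ← Complex.ofReal_mul,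
        ← Real.exp_add]
      have e1 : -(1 / 4) * ρ + 1 / 4 * ρ = 0 := by ring
      rw [e1, Real.exp_zero, Complex.ofReal_one, one_mul]
    have hsc : star (ctB n) = ctB n := by
      ext ρ
      rw [BoundedContinuousFunction.star_apply, ctB_apply, Complex.star_def, Complex.conj_ofReal]
    have e2 : ⟪V (Ψ G' θ), Ψ G θ⟫_ℂ = ⟪V (Ψ (ctB n) θ), Ψ (ctB n) θ⟫_ℂ := by
      have s1 : ⟪V (Ψ G' θ), Ψ G θ⟫_ℂ = ⟪V (Ψ (star G * G') θ), θ⟫_ℂ := by
        rw [hVpsi, hVpsi, Pool.Agent.Helper43.TTF.psi_mul_apply, psi_star Ψ (star G), star_star]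
      have s2 : ⟪V (Ψ (ctB n) θ), Ψ (ctB n) θ⟫_ℂ = ⟪V (Ψ (ctB n * ctB n) θ), θ⟫_ℂ := by
        rw [hVpsi, hVpsi, Pool.Agent.Helper43.TTF.psi_mul_apply, psi_star Ψ (ctB n) (Ψ (ctB n) (V θ)), hsc]
      rw [s1, s2, hstar]
    rwa [e2] at hpos'
  have hVpos : ∀ w : H, 0 ≤ (⟪V w, w⟫_ℂ).re := by
    intro w
    have t1 := tendsto_ct hF w
    have t2 : Tendsto (fun n => (⟪V (Ψ (ctB n) w), Ψ (ctB n) w⟫_ℂ).re) atTop
        (𝓝 (⟪V w, w⟫_ℂ).re) :=
      (Complex.continuous_re.tendsto _).comp (((V.continuous.tendsto _).comp t1).inner t1)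
    exact ge_of_tendsto' t2 fun n => hcut n w
  have hV1 : ∀ w : H, V w = w := by
    intro w
    have e1 := hVpos (w - V w)
    rw [map_sub, hVV] at e1
    have e2 : V w - w = -(w - V w) := by abel
    rw [e2, inner_neg_left, Complex.neg_re, inner_self_eq_norm_sq_to_K] at e1
    have e3 : (((‖w - V w‖ : ℂ)) ^ 2).re = ‖w - V w‖ ^ 2 := by norm_cast
    have e4 : 0 ≤ -(‖w - V w‖ ^ 2) := e3 ▸ e1
    have e5 : ‖w - V w‖ = 0 := by (clear * - e4; nlinarith [norm_nonneg (w - V w)])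
    exact (sub_eq_zero.1 (norm_eq_zero.1 e5)).symm
  apply ContinuousLinearMap.ext
  intro w
  have e1 := hV1 (J₀ w)
  rwa [hV, h.J_J] at e1

end JUniqAux

end Pool.Agent.Helper88.CS

end

end

section

section

open scoped InnerProductSpace Topology BoundedContinuousFunction

open ContinuousLinearMap Filter MeasureTheory

namespace Pool.Agent.Helper88.CS

open Pool.Agent.Helper23

open Pool.Agent.Helper78.BC (Std rm Fixed)

variable {H : Type*} [NormedAddCommGroup H] [InnerProductSpace ℂ H] [CompleteSpace H]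

variable {A : VonNeumannAlgebra H} {ξ : H} {J : H →L[ℝ] H}
  {Ψ : (ℝ →ᵇ ℂ) →⋆ₐ[ℂ] (H →L[ℂ] H)} {R : H →L[ℂ] H} {D : H →L[ℝ] H}

namespace ConeAux

variable (h : St A ξ J Ψ R D)

include h

theorem herm {b c : H →L[ℂ] H} (hb : b ∈ A) (hc : c ∈ A) :
    ⟪J (b ξ), (star c) ξ⟫_ℂ = (starRingEnd ℂ) ⟪J (c ξ), (star b) ξ⟫_ℂ := by
  have h1 : ⟪J (b ξ), (star c) ξ⟫_ℂ = ⟪c (J (b ξ)), ξ⟫_ℂ := by
    rw [star_eq_adjoint, adjoint_inner_right]
  have h2 : ⟪c (J (b ξ)), ξ⟫_ℂ = ⟪ξ, J (c (J (b ξ)))⟫_ℂ := by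
    have h3 := h.J_inner (c (J (b ξ))) ξ
    rw [h.J_xi] at h3
    rw [← inner_conj_symm, ← h3, inner_conj_symm]
  rw [h1, h2, jc h hc hb, inner_conj_symm, star_eq_adjoint, adjoint_inner_left]

end ConeAux

end Pool.Agent.Helper88.CS

end

end
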