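import Pool.Agent.Helper23.FB.L00_a1
import Pool.Agent.Helper23.FB.L00_a11
import Pool.Agent.Helper23.FB.L00_a12
import Pool.Agent.Helper23.FB.L00_a13
import Pool.Agent.Helper23.FB.L00_a2
import Pool.Agent.Helper23.FB.L00_a3
import Pool.Agent.Helper23.FB.L00_a5
import Pool.Agent.Helper23.FB.L00_a6
import Pool.Agent.Helper23.FB.L00_a7

/-!
Parts of Helper23.FA.L01_07, Helper23.FA.L01_18, Helper23.FA.L01_15, Helper23.FA.L01_12, Helper23.FA.L02_10
-/

attribute [local instance 5000]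
  Pool.Agent.Helper23.FB.Inst.rCharZero Pool.Agent.Helper23.FB.Inst.rALM
  Pool.Agent.Helper23.FB.Inst.rARM Pool.Agent.Helper23.FB.Inst.rALSM
  Pool.Agent.Helper23.FB.Inst.rARSM Pool.Agent.Helper23.FB.Inst.rARRLE
  Pool.Agent.Helper23.FB.Inst.rALRLE Pool.Agent.Helper23.FB.Inst.rARRLT
  Pool.Agent.Helper23.FB.Inst.rALRLT Pool.Agent.Helper23.FB.Inst.rPMRLT
  Pool.Agent.Helper23.FB.Inst.rMPRLT Pool.Agent.Helper23.FB.Inst.rPMM
  Pool.Agent.Helper23.FB.Inst.rMPM Pool.Agent.Helper23.FB.Inst.rPMSM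
  Pool.Agent.Helper23.FB.Inst.rMPSM Pool.Agent.Helper23.FB.Inst.rEAOL
  Pool.Agent.Helper23.FB.Inst.rIOR Pool.Agent.Helper23.FB.Inst.rISOR
  Pool.Agent.Helper23.FB.Inst.rFS Pool.Agent.Helper23.FB.Inst.rcCharZero
  Pool.Agent.Helper23.FB.Inst.rNZD Pool.Agent.Helper23.FB.Inst.rcNZD
  Pool.Agent.Helper23.FB.Inst.bSemiring Pool.Agent.Helper23.FB.Inst.bStar
  Pool.Agent.Helper23.FB.Inst.bAlg Pool.Agent.Helper23.FB.Inst.bSub
  Pool.Agent.Helper23.FB.Inst.bMul Pool.Agent.Helper23.FB.Inst.bAdd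
  Pool.Agent.Helper23.FB.Inst.iRing Pool.Agent.Helper23.FB.Inst.iSemiring
  Pool.Agent.Helper23.FB.Inst.iAlgC Pool.Agent.Helper23.FB.Inst.iSMulC
  Pool.Agent.Helper23.FB.Inst.iModC Pool.Agent.Helper23.FB.Inst.iAlgR
  Pool.Agent.Helper23.FB.Inst.iSMulR Pool.Agent.Helper23.FB.Inst.iModR
  Pool.Agent.Helper23.FB.Inst.iMonoid Pool.Agent.Helper23.FB.Inst.iSemigroup
  Pool.Agent.Helper23.FB.Inst.iMulOneClass Pool.Agent.Helper23.FB.Inst.iMul
  Pool.Agent.Helper23.FB.Inst.iAdd Pool.Agent.Helper23.FB.Inst.iSub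
  Pool.Agent.Helper23.FB.Inst.iNeg Pool.Agent.Helper23.FB.Inst.iAddCommMonoid
  Pool.Agent.Helper23.FB.Inst.iAddCommGroup Pool.Agent.Helper23.FB.Inst.iAddGroup
  Pool.Agent.Helper23.FB.Inst.iAddMonoid Pool.Agent.Helper23.FB.Inst.iSMulZeroC
  Pool.Agent.Helper23.FB.Inst.iMulActC Pool.Agent.Helper23.FB.Inst.iDSMulC
  Pool.Agent.Helper23.FB.Inst.iDSMulR Pool.Agent.Helper23.FB.Inst.iSNAG
  Pool.Agent.Helper23.FB.Inst.iSNACG Pool.Agent.Helper23.FB.Inst.iNorm
  Pool.Agent.Helper23.FB.Inst.iNSC' Pool.Agent.Helper23.FB.Inst.iNSR'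
  Pool.Agent.Helper23.FB.Inst.iTop Pool.Agent.Helper23.FB.Inst.iT2 Pool.Agent.Helper23.FB.Inst.iTR
  Pool.Agent.Helper23.FB.Inst.iSCC Pool.Agent.Helper23.FB.Inst.iIST
  Pool.Agent.Helper23.FB.Inst.iSCCR Pool.Agent.Helper23.FB.Inst.iISTR
  Pool.Agent.Helper23.FB.Inst.iZHC Pool.Agent.Helper23.FB.Inst.iAHC
  Pool.Agent.Helper23.FB.Inst.iAMHC Pool.Agent.Helper23.FB.Inst.iMAHC
  Pool.Agent.Helper23.FB.Inst.lTop Pool.Agent.Helper23.FB.Inst.lUnif
  Pool.Agent.Helper23.FB.Inst.lACM Pool.Agent.Helper23.FB.Inst.lACG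
  Pool.Agent.Helper23.FB.Inst.lSNAG Pool.Agent.Helper23.FB.Inst.lSNACG
  Pool.Agent.Helper23.FB.Inst.lNACG Pool.Agent.Helper23.FB.Inst.lNorm
  Pool.Agent.Helper23.FB.Inst.lIPS Pool.Agent.Helper23.FB.Inst.lMod
  Pool.Agent.Helper23.FB.Inst.lSMul Pool.Agent.Helper23.FB.Inst.lT2
  Pool.Agent.Helper23.FB.Inst.iStar Pool.Agent.Helper23.FB.Inst.iStarMul
  Pool.Agent.Helper23.FB.Inst.iStarAddMonoid Pool.Agent.Helper23.FB.Inst.iStarRing
  Pool.Agent.Helper23.FB.Inst.iNSC Pool.Agent.Helper23.FB.Inst.iSOR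
  Pool.Agent.Helper23.FB.Inst.iALM Pool.Agent.Helper23.FB.Inst.iARM
  Pool.Agent.Helper23.FB.Inst.iCFC Pool.Agent.Helper23.FB.Inst.iNCFC
  Pool.Agent.Helper23.FB.Inst.iStarModR Pool.Agent.Helper23.FB.Inst.iStarModC
  Pool.Agent.Helper23.FB.Inst.eStar Pool.Agent.Helper23.FB.Inst.eAdd
  Pool.Agent.Helper23.FB.Inst.eMul Pool.Agent.Helper23.FB.Inst.eOne
  Pool.Agent.Helper23.FB.Inst.eZero Pool.Agent.Helper23.FB.Inst.eMulAction
  Pool.Agent.Helper23.FB.Inst.eAMHC2 Pool.Agent.Helper23.FB.Inst.eZHC2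
  Pool.Agent.Helper23.FB.Inst.lAMHC

namespace Pool.Agent.Helper23
end Pool.Agent.Helper23
namespace Pool.Agent.Helper23.ED.WtC
end Pool.Agent.Helper23.ED.WtC
namespace Pool.Agent.Helper23.RBF
end Pool.Agent.Helper23.RBF

section

section

open scoped InnerProductSpace

open ContinuousLinearMap

namespace Pool.Agent.Helper72

open Pool.Agent.Helper23

variable {H : Type*} [NormedAddCommGroup H] [InnerProductSpace ℂ H] [CompleteSpace H]

/-- functional calculus: a cut off of a positive operator. -/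
lemma exists_cut (e : H →L[ℂ] H) (he : 0 ≤ e) {d : ℝ} (hd : 0 < d) :
    ∃ S : H →L[ℂ] H, star S = S ∧ (∀ z, e * z = z * e → S * z = z * S) ∧
      (∀ v, (1 - d) * ‖S v‖ ^ 2 ≤ (⟪S v, S v - e (S v)⟫_ℂ).re) ∧
      (∀ v, ‖S (e v)‖ ^ 2 ≤ d * (⟪S v, S (e v)⟫_ℂ).re) ∧ (S = 0 → IsUnit e) := by
  have hsa : IsSelfAdjoint e := IsSelfAdjoint.of_nonneg he
  set f : ℝ → ℝ := fun t => max (d - t) 0 with hf
  have hfc : Continuous f := by fun_prop
  set S := cfc f e with hS
  have hS0 : 0 ≤ S := cfc_nonneg (fun x _ => le_max_right _ _)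
  have hSsa : star S = S := (IsSelfAdjoint.of_nonneg hS0).star_eq
  have hcomm : ∀ z, e * z = z * e → S * z = z * S := by
    intro z hz
    exact (Commute.cfc_real (A := H →L[ℂ] H) (a := e) (b := z) hz f)
  have heS : e * S = cfc (fun t => t * f t) e := by
    rw [cfc_mul (fun t => t) f e (by fun_prop) hfc.continuousOn, cfc_id' ℝ e]
  have heS0 : 0 ≤ e * S := by
    rw [heS]
    refine cfc_nonneg (fun x hx => mul_nonneg ?_ (le_max_right _ _))
    exact spectrum_nonneg_of_nonneg he hx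
  have hSS : (d • (1 : H →L[ℂ] H) - e) * S = S * S := by
    have h1 : (d • (1 : H →L[ℂ] H) - e) = cfc (fun t => d - t) e := by
      rw [cfc_sub (fun _ => d) (fun t => t) e (by fun_prop) (by fun_prop), cfc_const d e,
        cfc_id' ℝ e, Algebra.algebraMap_eq_smul_one]
    rw [h1, hS, ← cfc_mul (fun t => d - t) f e (by fun_prop) hfc.continuousOn,
      ← cfc_mul f f e hfc.continuousOn hfc.continuousOn]
    refine cfc_congr fun t _ => ?_
    simp only [hf]
    rcases le_total (d - t) 0 with h | h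
    · rw [max_eq_right h]; ring
    · rw [max_eq_left h]
  have heSc : ∀ v, e (S v) = S (e v) := by
    intro v
    have := hcomm e rfl
    exact (congrArg (fun T : H →L[ℂ] H => T v) this).symm
  have hSSv : ∀ v, ((d : ℂ)) • S v - e (S v) = S (S v) := by
    intro v
    have := congrArg (fun T : H →L[ℂ] H => T v) hSS
    exact this
  refine ⟨S, hSsa, hcomm, ?_, ?_, ?_⟩
  · intro v
    have h1 : e (S v) = (d : ℂ) • S v - S (S v) := by
      rw [← hSSv v]; abel
    rw [h1, inner_sub_right, inner_sub_right, inner_smul_right]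
    have h2 := inner_re_nonneg_of_nonneg hS0 (S v)
    have h3 : ⟪S v, S v⟫_ℂ = ((‖S v‖ ^ 2 : ℝ) : ℂ) := by
      rw [inner_self_eq_norm_sq_to_K]; norm_cast
    rw [h3]
    have h4 : ((d : ℂ) * ((‖S v‖ ^ 2 : ℝ) : ℂ)).re = d * ‖S v‖ ^ 2 := by
      rw [← Complex.ofReal_mul, Complex.ofReal_re]
    rw [Complex.sub_re, Complex.sub_re, h4, Complex.ofReal_re]
    (clear * - h2; linarith)
  · intro v
    have h1 := inner_re_nonneg_of_nonneg heS0 (S v)
    have h3 : (⟪S (e v), S (e v)⟫_ℂ).re = ‖S (e v)‖ ^ 2 := by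
      rw [inner_self_eq_norm_sq_to_K]; norm_cast
    have h5 : ⟪S (e v), S (e v)⟫_ℂ = (d : ℂ) * ⟪S v, S (e v)⟫_ℂ - ⟪S v, (e * S) (S v)⟫_ℂ := by
      have h6 : (e * S) (S v) = e ((d : ℂ) • S v - e (S v)) := by
        rw [hSSv]; rfl
      have hee : star e = e := hsa.star_eq
      rw [h6, map_sub, map_smul, heSc v, inner_sub_right, inner_smul_right]
      rw [← inner_sa hee (S v) (S (e v)), heSc v]
      ring
    rw [← h3, h5, Complex.sub_re, Complex.re_ofReal_mul]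
    (clear * - h1; linarith)
  · intro h0
    rw [← spectrum.zero_notMem_iff ℝ]
    intro hz
    have h1 : f 0 ∈ spectrum ℝ (cfc f e) := by
      rw [cfc_map_spectrum f e]
      exact ⟨0, hz, rfl⟩
    rw [← hS, h0] at h1
    rw [spectrum.mem_iff] at h1
    apply h1
    rw [sub_zero]
    have h2 : f 0 = d := by simp [hf, hd.le]
    rw [h2]
    exact (isUnit_iff_ne_zero.2 hd.ne').map (algebraMap ℝ (H →L[ℂ] H))

end Pool.Agent.Helper72

end

end

section

section

open scoped InnerProductSpace Topology ENNReal BoundedContinuousFunction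

open ContinuousLinearMap Filter MeasureTheory

namespace Pool.Agent.Helper23.ED

open Pool.Agent.Helper23 Pool.Agent.Helper23.RBF

universe u

open TopologicalSpace

variable {H : Type*} [NormedAddCommGroup H] [InnerProductSpace ℂ H] [CompleteSpace H]

variable {N : VonNeumannAlgebra H} {ξ : H} {W : ℝ → H →L[ℂ] H}

/-- weakly measurable fields of contractions are decomposable -/
lemma slB_dec [SeparableSpace H] {x : ℝ → H →L[ℂ] H} (hb : ∀ s, ‖x s‖ ≤ 1)
    (hm : ∀ w v, Measurable fun s => ⟪w, x s v⟫_ℂ) : Dec x := by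
  obtain ⟨ι, b, -⟩ := exists_hilbertBasis ℂ H
  have hι : Countable ι := slB_countable b
  refine ⟨fun F hF => ?_, 1, zero_le_one, hb⟩
  obtain ⟨F', hF', hFF'⟩ := hF
  have key : StronglyMeasurable fun s => x s (F' s) := by
    have h1 : ∀ w, Measurable fun s => ⟪w, x s (F' s)⟫_ℂ := by
      intro w
      have h2 : ∀ s, Tendsto (fun T : Finset ι => ∑ i ∈ T, ⟪w, x s (b i)⟫_ℂ * ⟪b i, F' s⟫_ℂ)
          atTop (𝓝 ⟪w, x s (F' s)⟫_ℂ) := by
        intro s
        have h3 := b.hasSum_inner_mul_inner ((ContinuousLinearMap.adjoint (x s)) w) (F' s)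
        rw [ContinuousLinearMap.adjoint_inner_left] at h3
        refine Tendsto.congr (fun T => ?_) h3
        refine Finset.sum_congr rfl fun i _ => ?_
        change ⟪(ContinuousLinearMap.adjoint (x s)) w, b i⟫_ℂ * ⟪b i, F' s⟫_ℂ = _
        rw [ContinuousLinearMap.adjoint_inner_left]
      refine measurable_of_tendsto_metrizable' atTop (fun T => ?_) (tendsto_pi_nhds.2 h2)
      refine Finset.measurable_fun_sum _ fun i _ => ?_
      refine (hm w (b i)).mul ?_
      have h4 : StronglyMeasurable fun s => ⟪b i, F' s⟫_ℂ :=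
        (continuous_const.inner continuous_id : Continuous fun z : H => ⟪b i, z⟫_ℂ).comp_stronglyMeasurable hF'
      exact h4.measurable
    have h5 : ∀ s, Tendsto (fun T : Finset ι => ∑ i ∈ T, ⟪b i, x s (F' s)⟫_ℂ • (b i : H))
        atTop (𝓝 (x s (F' s))) := by
      intro s
      have h3 := b.hasSum_repr (x s (F' s))
      refine Tendsto.congr (fun T => ?_) h3
      refine Finset.sum_congr rfl fun i _ => ?_
      change b.repr (x s (F' s)) i • b i = _
      rw [b.repr_apply_apply]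
    refine stronglyMeasurable_of_tendsto atTop (fun T => ?_) (tendsto_pi_nhds.2 h5)
    refine Finset.stronglyMeasurable_fun_sum _ fun i _ => ?_
    exact (h1 (b i)).stronglyMeasurable.smul_const _
  refine ⟨_, key, ?_⟩
  filter_upwards [hFF'] with s hs
  rw [hs]

end Pool.Agent.Helper23.ED

end

end

section

section

open scoped InnerProductSpace Topology BoundedContinuousFunction

open ContinuousLinearMap Filter

namespace Pool.Agent.Helper78.BC

variable {H : Type*} [NormedAddCommGroup H] [InnerProductSpace ℂ H] [CompleteSpace H]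

variable {A : VonNeumannAlgebra H} {ξ : H} {J : H →L[ℝ] H}
  {Ψ : (ℝ →ᵇ ℂ) →⋆ₐ[ℂ] (H →L[ℂ] H)}

namespace LipAll

/-- the exponential of an element of the algebra is in the algebra -/
theorem exp_mem {x : H →L[ℂ] H} (hx : x ∈ A) : NormedSpace.exp x ∈ A := by
  rw [Pool.Agent.Helper23.mem_iff_commutes]
  intro g hg
  have h1 : Commute g x := (Pool.Agent.Helper23.mem_iff_commutes.1 hx) g hg
  exact h1.exp_right

/-- the inequality passes to skew-adjoint elements -/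
theorem skew (h : Std A ξ J Ψ) {ζ : H} {K : ℝ}
    (hu : ∀ u, Un A u → ‖cm J u ζ‖ ≤ K * ‖cm J u ξ‖) {x : H →L[ℂ] H} (hx : x ∈ A)
    (hs : star x = -x) : ‖cm J x ζ‖ ≤ K * ‖cm J x ξ‖ := by
  have hU : ∀ t : ℝ, Un A (NormedSpace.exp (t • x)) := by
    intro t
    let _ : NormedAlgebra ℚ (H →L[ℂ] H) := NormedAlgebra.restrictScalars ℚ ℂ _
    have e1 : star (t • x) = -(t • x) := by rw [star_smul, star_trivial, hs, smul_neg]
    refine ⟨exp_mem ?_, ?_, ?_⟩
    · have : t • x = (t : ℂ) • x := (Complex.coe_smul t x).symm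
      rw [this]
      exact Pool.Agent.Helper23.smul_mem' _ hx
    · rw [NormedSpace.star_exp, e1, ← NormedSpace.exp_add_of_commute
        (Commute.refl _).neg_left, neg_add_cancel, NormedSpace.exp_zero]
    · rw [NormedSpace.star_exp, e1, ← NormedSpace.exp_add_of_commute
        (Commute.refl _).neg_right, add_neg_cancel, NormedSpace.exp_zero]
  have h0 : ∀ v, cm J (NormedSpace.exp ((0 : ℝ) • x)) v = 0 := by
    intro v
    rw [zero_smul, NormedSpace.exp_zero]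
    show v - J ((star (1 : H →L[ℂ] H)) (J v)) = 0
    rw [star_one]
    show v - J (J v) = 0
    rw [h.J_J, sub_self]
  have hl : ∀ v, Tendsto (fun t : ℝ => ‖t⁻¹ • cm J (NormedSpace.exp (t • x)) v‖) (𝓝[≠] 0)
      (𝓝 ‖cm J x v‖) := by
    intro v
    have h1 := hasDerivAt_iff_tendsto_slope_zero.1 (hasDerivAt_cm (J := J) x v)
    simp only [zero_add, h0, sub_zero] at h1
    exact h1.norm
  refine le_of_tendsto_of_tendsto (hl ζ) ((hl ξ).const_mul K) (Eventually.of_forall fun t => ?_)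
  show ‖t⁻¹ • cm J (NormedSpace.exp (t • x)) ζ‖ ≤ K * ‖t⁻¹ • cm J (NormedSpace.exp (t • x)) ξ‖
  rw [norm_smul, norm_smul]
  calc ‖t⁻¹‖ * ‖cm J (NormedSpace.exp (t • x)) ζ‖
      ≤ ‖t⁻¹‖ * (K * ‖cm J (NormedSpace.exp (t • x)) ξ‖) :=
        mul_le_mul_of_nonneg_left (hu _ (hU t)) (norm_nonneg _)
    _ = K * (‖t⁻¹‖ * ‖cm J (NormedSpace.exp (t • x)) ξ‖) := by ring

/-- the commutators of `y` and `y*` with `ξ` have the same norm -/
theorem norm_cm_star (h : Std A ξ J Ψ) (y : H →L[ℂ] H) :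
    ‖cm J (star y) ξ‖ = ‖cm J y ξ‖ := by
  have e : cm J (star y) ξ = -J (cm J y ξ) := by
    simp only [cm, rm, star_star, map_sub, h.J_J, h.J_xi]
    abel
  rw [e, norm_neg, h.J_norm]

end LipAll

open LipAll in
theorem lip_all (h : Std A ξ J Ψ) {ζ : H} {K : ℝ} (hK : 0 ≤ K)
    (hu : ∀ u, Un A u → ‖cm J u ζ‖ ≤ K * ‖cm J u ξ‖) :
    ∀ y ∈ A, ‖cm J y ζ‖ ≤ 2 * K * ‖cm J y ξ‖ := by
  intro y hy
  have hy' : star y ∈ A := star_mem hy
  -- `y = p + i q` with `p` and `q` skew-adjoint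
  let p : H →L[ℂ] H := (1 / 2 : ℂ) • (y - star y)
  let q : H →L[ℂ] H := (-(Complex.I / 2) : ℂ) • (y + star y)
  have hp : p ∈ A := Pool.Agent.Helper23.smul_mem' _ (sub_mem hy hy')
  have hq : q ∈ A := Pool.Agent.Helper23.smul_mem' _ (add_mem hy hy')
  have hps : star p = -p := by
    show star ((1 / 2 : ℂ) • (y - star y)) = -((1 / 2 : ℂ) • (y - star y))
    rw [star_smul, star_sub, star_star, ← smul_neg, neg_sub]
    congr 1
    simp
  have hqs : star q = -q := by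
    show star ((-(Complex.I / 2) : ℂ) • (y + star y)) = -((-(Complex.I / 2) : ℂ) • (y + star y))
    rw [star_smul, star_add, star_star, ← neg_smul, add_comm (star y) y]
    congr 1
    simp [neg_div]
  have hy2 : y = p + Complex.I • q := by
    show y = (1 / 2 : ℂ) • (y - star y) + Complex.I • ((-(Complex.I / 2) : ℂ) • (y + star y))
    rw [smul_smul]
    have e : Complex.I * -(Complex.I / 2) = 1 / 2 := by
      have := Complex.I_mul_I
      linear_combination (-1 / 2) * this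
    rw [e, ← smul_add, sub_add_add_cancel, ← two_smul ℂ y, smul_smul]
    norm_num
  have b1 : ‖cm J p ξ‖ ≤ ‖cm J y ξ‖ := by
    have e : cm J p ξ = (1 / 2 : ℂ) • (cm J y ξ - cm J (star y) ξ) := by
      show cm J ((1 / 2 : ℂ) • (y - star y)) ξ = _
      rw [cm_smul h.J_conj, sub_eq_add_neg, cm_add, ← neg_one_smul ℂ (star y),
        cm_smul h.J_conj, neg_one_smul, ← sub_eq_add_neg]
    rw [e, norm_smul]
    have := norm_sub_le (cm J y ξ) (cm J (star y) ξ)
    rw [norm_cm_star h] at this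
    have e2 : ‖(1 / 2 : ℂ)‖ = 1 / 2 := by norm_num
    rw [e2]
    (clear * - this; linarith)
  have b2 : ‖cm J q ξ‖ ≤ ‖cm J y ξ‖ := by
    have e : cm J q ξ = (-(Complex.I / 2) : ℂ) • (cm J y ξ + cm J (star y) ξ) := by
      show cm J ((-(Complex.I / 2) : ℂ) • (y + star y)) ξ = _
      rw [cm_smul h.J_conj, cm_add]
    rw [e, norm_smul]
    have := norm_add_le (cm J y ξ) (cm J (star y) ξ)
    rw [norm_cm_star h] at this
    have e2 : ‖(-(Complex.I / 2) : ℂ)‖ = 1 / 2 := by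
      rw [norm_neg, norm_div, Complex.norm_I]
      norm_num
    rw [e2]
    (clear * - this; linarith)
  have c1 := skew h hu hp hps
  have c2 := skew h hu hq hqs
  have e : cm J y ζ = cm J p ζ + Complex.I • cm J q ζ := by
    conv_lhs => rw [hy2]
    rw [cm_add J p, cm_smul h.J_conj Complex.I q]
  rw [e]
  calc ‖cm J p ζ + Complex.I • cm J q ζ‖ ≤ ‖cm J p ζ‖ + ‖Complex.I • cm J q ζ‖ := norm_add_le _ _
    _ = ‖cm J p ζ‖ + ‖cm J q ζ‖ := by rw [norm_smul, Complex.norm_I, one_mul]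
    _ ≤ K * ‖cm J p ξ‖ + K * ‖cm J q ξ‖ := add_le_add c1 c2
    _ ≤ K * ‖cm J y ξ‖ + K * ‖cm J y ξ‖ :=
        add_le_add (mul_le_mul_of_nonneg_left b1 hK) (mul_le_mul_of_nonneg_left b2 hK)
    _ = 2 * K * ‖cm J y ξ‖ := by ring

end Pool.Agent.Helper78.BC

end

section

open scoped InnerProductSpace Topology BoundedContinuousFunction

open ContinuousLinearMap Filter

namespace Pool.Agent.Helper78.BC

variable {H : Type*} [NormedAddCommGroup H] [InnerProductSpace ℂ H] [CompleteSpace H]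

variable {A : VonNeumannAlgebra H} {ξ : H} {J : H →L[ℝ] H}
  {Ψ : (ℝ →ᵇ ℂ) →⋆ₐ[ℂ] (H →L[ℂ] H)}

namespace Fam

theorem key (h : Std A ξ J Ψ) {v w y : H →L[ℂ] H} (hv : v ∈ A) (hw : w ∈ A) (hy : y ∈ A)
    (hvv : v * star v = 1) (hww : w * star w = 1) (ζ : H) :
    y (cj J v ζ) - rm J y (cj J w ζ) = w (J (v (J (cm J (star w * y * v) ζ)))) := by
  have hT : star w * y * v ∈ A := mul_mem (mul_mem (star_mem hw) hy) hv
  have e1 : w (J (v (J ((star w * y * v) ζ)))) = y (cj J v ζ) := by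
    rw [h.J_comm v hv _ hT ζ]
    change w ((star w) (y (v (J (v (J ζ)))))) = _
    rw [coiso_apply hww]
    rfl
  have e2 : w (J (v (J (rm J (star w * y * v) ζ)))) = rm J y (cj J w ζ) := by
    have hs : star (star w * y * v) = star v * (star y * w) := by
      simp [star_mul, mul_assoc]
    rw [rm, h.J_J, hs]
    change w (J (v ((star v) ((star y) (w (J ζ)))))) = _
    rw [coiso_apply hvv]
    unfold rm cj
    rw [h.J_comm (star y) (star_mem hy) w hw, h.J_J]
  rw [cm, map_sub, map_sub, map_sub, map_sub, e1, e2]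

theorem cm_est (h : Std A ξ J Ψ) {v w y : H →L[ℂ] H} {l m e1 e2 : ℝ} (hv : Lev A ξ J l e1 v)
    (hw : Lev A ξ J m e2 w) (hy : y ∈ A) :
    ‖cm J (star w * y * v) ξ‖ ≤
      ‖((Real.sqrt l : ℝ) : ℂ) • y ξ - ((Real.sqrt m : ℝ) : ℂ) • rm J y ξ‖ + (e1 + e2) * ‖y‖ := by
  obtain ⟨hvA, hvv, hv1⟩ := hv
  obtain ⟨hwA, hww, hw1⟩ := hw
  have nv := norm_coiso hvv
  have nw := norm_coiso hww
  have nv' : ‖star v‖ ≤ 1 := by rwa [norm_star]
  have nw' : ‖star w‖ ≤ 1 := by rwa [norm_star]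
  set a : ℂ := ((Real.sqrt l : ℝ) : ℂ) with ha
  set b : ℂ := ((Real.sqrt m : ℝ) : ℂ) with hb
  have hbc : (starRingEnd ℂ) b = b := Complex.conj_ofReal _
  have hac : (starRingEnd ℂ) a = a := Complex.conj_ofReal _
  have hs : star (star w * y * v) = star v * (star y * w) := by
    simp [star_mul, mul_assoc]
  -- the main term
  have hmain : (star w) (J ((star v) (J (a • y ξ - b • rm J y ξ)))) =
      a • (star w) (y (rm J v ξ)) - b • J ((star v) ((star y) (rm J w ξ))) := by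
    have e1 : (star w) (y (rm J v ξ)) = (star w) (J ((star v) (J (y ξ)))) := by
      unfold rm
      rw [h.J_comm (star v) (star_mem hvA) y hy ξ]
    have e2 : J ((star v) ((star y) (rm J w ξ))) = (star w) (J ((star v) (J (rm J y ξ)))) := by
      unfold rm
      rw [h.J_xi, h.J_J]
      have := h.J_comm (star v * star y) (mul_mem (star_mem hvA) (star_mem hy)) (star w)
        (star_mem hwA) ξ
      rw [h.J_xi] at this
      exact this
    rw [e1, e2]
    simp only [map_sub, h.J_conj, ContinuousLinearMap.map_smul, hac, hbc]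
  have hid : cm J (star w * y * v) ξ =
      (star w) (J ((star v) (J (a • y ξ - b • rm J y ξ)))) +
      ((star w) (y (v ξ - a • rm J v ξ)) - J ((star v) ((star y) (w ξ - b • rm J w ξ)))) := by
    rw [hmain]
    unfold cm
    have : rm J (star w * y * v) ξ = J ((star v) ((star y) (w ξ))) := by
      rw [rm, hs, h.J_xi]
      rfl
    rw [this]
    simp only [map_sub, map_smul, h.J_conj, hbc]
    change (star w) (y (v ξ)) - _ = _
    abel
  rw [hid]
  refine (norm_add_le _ _).trans ?_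
  refine add_le_add ?_ ?_
  · calc ‖(star w) (J ((star v) (J (a • y ξ - b • rm J y ξ))))‖
        ≤ ‖J ((star v) (J (a • y ξ - b • rm J y ξ)))‖ := app_le nw' _
      _ = ‖(star v) (J (a • y ξ - b • rm J y ξ))‖ := h.J_norm _
      _ ≤ ‖J (a • y ξ - b • rm J y ξ)‖ := app_le nv' _
      _ = ‖a • y ξ - b • rm J y ξ‖ := h.J_norm _
  · have f1 : ‖(star w) (y (v ξ - a • rm J v ξ))‖ ≤ e1 * ‖y‖ := by
      calc ‖(star w) (y (v ξ - a • rm J v ξ))‖ ≤ ‖y (v ξ - a • rm J v ξ)‖ := app_le nw' _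
        _ ≤ ‖y‖ * ‖v ξ - a • rm J v ξ‖ := y.le_opNorm _
        _ ≤ ‖y‖ * e1 := by (clear * - hv1; gcongr)
        _ = e1 * ‖y‖ := mul_comm _ _
    have f2 : ‖J ((star v) ((star y) (w ξ - b • rm J w ξ)))‖ ≤ e2 * ‖y‖ := by
      calc ‖J ((star v) ((star y) (w ξ - b • rm J w ξ)))‖
          = ‖(star v) ((star y) (w ξ - b • rm J w ξ))‖ := h.J_norm _
        _ ≤ ‖(star y) (w ξ - b • rm J w ξ)‖ := app_le nv' _
        _ ≤ ‖star y‖ * ‖w ξ - b • rm J w ξ‖ := (star y).le_opNorm _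
        _ = ‖y‖ * ‖w ξ - b • rm J w ξ‖ := by rw [norm_star]
        _ ≤ ‖y‖ * e2 := by (clear * - hw1; gcongr)
        _ = e2 * ‖y‖ := mul_comm _ _
    calc _ ≤ ‖(star w) (y (v ξ - a • rm J v ξ))‖ +
          ‖J ((star v) ((star y) (w ξ - b • rm J w ξ)))‖ := norm_sub_le _ _
      _ ≤ e1 * ‖y‖ + e2 * ‖y‖ := add_le_add f1 f2
      _ = _ := by ring

theorem est (h : Std A ξ J Ψ) {ζ : H} {C : ℝ} (hC : 0 ≤ C)
    (hζ : ∀ y ∈ A, ‖cm J y ζ‖ ≤ C * ‖cm J y ξ‖) {v w y : H →L[ℂ] H} {l m e1 e2 : ℝ}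
    (hv : Lev A ξ J l e1 v) (hw : Lev A ξ J m e2 w) (hy : y ∈ A) :
    ‖y (cj J v ζ) - rm J y (cj J w ζ)‖ ≤
      C * (‖((Real.sqrt l : ℝ) : ℂ) • y ξ - ((Real.sqrt m : ℝ) : ℂ) • rm J y ξ‖ +
        (e1 + e2) * ‖y‖) := by
  rw [key h hv.1 hw.1 hy hv.2.1 hw.2.1]
  have nv := norm_coiso hv.2.1
  have nw := norm_coiso hw.2.1
  have hT : star w * y * v ∈ A := mul_mem (mul_mem (star_mem hw.1) hy) hv.1
  calc ‖w (J (v (J (cm J (star w * y * v) ζ))))‖ ≤ ‖J (v (J (cm J (star w * y * v) ζ)))‖ :=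
        app_le nw _
    _ = ‖v (J (cm J (star w * y * v) ζ))‖ := h.J_norm _
    _ ≤ ‖J (cm J (star w * y * v) ζ)‖ := app_le nv _
    _ = ‖cm J (star w * y * v) ζ‖ := h.J_norm _
    _ ≤ C * ‖cm J (star w * y * v) ξ‖ := hζ _ hT
    _ ≤ _ := by
      gcongr
      exact cm_est h hv hw hy

theorem est_one (h : Std A ξ J Ψ) {ζ : H} {C : ℝ} (hC : 0 ≤ C)
    (hζ : ∀ y ∈ A, ‖cm J y ζ‖ ≤ C * ‖cm J y ξ‖) {v w : H →L[ℂ] H} {l e1 e2 : ℝ}
    (he1 : 0 ≤ e1) (he2 : 0 ≤ e2)
    (hv : Lev A ξ J l e1 v) (hw : Lev A ξ J l e2 w) :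
    ‖cj J v ζ - cj J w ζ‖ ≤ C * (e1 + e2) := by
  have h1 := est h hC hζ hv hw (one_mem A)
  have hr : ∀ x, rm J (1 : H →L[ℂ] H) x = x := by
    intro x
    rw [rm, star_one]
    exact h.J_J x
  rw [hr, hr] at h1
  have h2 : ‖(1 : H →L[ℂ] H)‖ ≤ 1 := ContinuousLinearMap.norm_id_le
  have h3 : (e1 + e2) * ‖(1 : H →L[ℂ] H)‖ ≤ e1 + e2 := by
    calc (e1 + e2) * ‖(1 : H →L[ℂ] H)‖ ≤ (e1 + e2) * 1 := by gcongr
      _ = _ := mul_one _
  refine h1.trans (mul_le_mul_of_nonneg_left ?_ hC)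
  have h4 : (1 : H →L[ℂ] H) ξ = ξ := rfl
  rw [h4, sub_self, norm_zero, zero_add]
  exact h3

theorem lev_one (h : Std A ξ J Ψ) : Lev A ξ J 1 0 1 := by
  refine ⟨one_mem A, by simp, ?_⟩
  have hr : rm J (1 : H →L[ℂ] H) ξ = ξ := by
    rw [rm, star_one]
    exact h.J_J ξ
  rw [hr]
  simp

end Fam

open Fam in
theorem exists_fam (h : Std A ξ J Ψ)
    (hlev : ∀ l : ℝ, 0 < l → l ≤ 1 → ∀ ε : ℝ, 0 < ε → ∃ v, Lev A ξ J l ε v)
    {ζ : H} {C : ℝ} (hC : 0 ≤ C) (hζ : ∀ y ∈ A, ‖cm J y ζ‖ ≤ C * ‖cm J y ξ‖) :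
    ∃ z : ℝ → H, LevFam A ξ J C ζ z := by
  have hpos : ∀ n : ℕ, (0 : ℝ) < 1 / ((n : ℝ) + 1) := fun n => by (clear * -; positivity)
  choose! V hV using fun (l : ℝ) (hl : 0 < l) (hl1 : l ≤ 1) (n : ℕ) => hlev l hl hl1 _ (hpos n)
  have hlim0 : Tendsto (fun n : ℕ => 1 / ((n : ℝ) + 1)) atTop (𝓝 0) :=
    tendsto_one_div_add_atTop_nhds_zero_nat
  have hcau : ∀ l : ℝ, 0 < l → l ≤ 1 → CauchySeq (fun n => cj J (V l n) ζ) := by
    intro l hl hl1
    have hb : Tendsto (fun N : ℕ => C * (1 / ((N : ℝ) + 1) + 1 / ((N : ℝ) + 1))) atTop (𝓝 0) := by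
      have := (hlim0.add hlim0).const_mul C
      simpa using this
    refine cauchySeq_of_le_tendsto_0 _ ?_ hb
    intro n m N hn hm
    rw [dist_eq_norm]
    refine (est_one h hC hζ (hpos n).le (hpos m).le (hV l hl hl1 n) (hV l hl hl1 m)).trans ?_
    have a1 : 1 / ((n : ℝ) + 1) ≤ 1 / ((N : ℝ) + 1) := by
      apply one_div_le_one_div_of_le (by (clear * -; positivity))
      have : (N : ℝ) ≤ n := by exact_mod_cast hn
      (clear * - this; linarith)
    have a2 : 1 / ((m : ℝ) + 1) ≤ 1 / ((N : ℝ) + 1) := by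
      apply one_div_le_one_div_of_le (by (clear * -; positivity))
      have : (N : ℝ) ≤ m := by exact_mod_cast hm
      (clear * - this; linarith)
    gcongr
  have hex : ∀ l : ℝ, ∃ x : H, 0 < l → l ≤ 1 → Tendsto (fun n => cj J (V l n) ζ) atTop (𝓝 x) := by
    intro l
    by_cases hl : 0 < l ∧ l ≤ 1
    · obtain ⟨x, hx⟩ := cauchySeq_tendsto_of_complete (hcau l hl.1 hl.2)
      exact ⟨x, fun _ _ => hx⟩
    · exact ⟨0, fun h1 h2 => absurd ⟨h1, h2⟩ hl⟩
  choose z hz using hex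
  refine ⟨z, ?_, ?_, ?_⟩
  · have h1 := hz 1 one_pos le_rfl
    have hc1 : cj J (1 : H →L[ℂ] H) ζ = ζ := by
      change J (J ζ) = ζ
      exact h.J_J ζ
    have h2 : Tendsto (fun n => cj J (V 1 n) ζ) atTop (𝓝 ζ) := by
      rw [tendsto_iff_norm_sub_tendsto_zero]
      have hb : Tendsto (fun N : ℕ => C * (1 / ((N : ℝ) + 1) + 0)) atTop (𝓝 0) := by
        have := (hlim0.add (tendsto_const_nhds (x := (0 : ℝ)))).const_mul C
        simpa using this
      refine squeeze_zero (fun n => norm_nonneg _) (fun n => ?_) hb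
      have := est_one h hC hζ (hpos n).le le_rfl (hV 1 one_pos le_rfl n) (lev_one h)
      rwa [hc1] at this
    exact tendsto_nhds_unique h1 h2
  · intro l hl hl1
    exact le_of_tendsto' (hz l hl hl1).norm fun n => norm_cj h (hV l hl hl1 n).2.1 ζ
  · intro l m hl hl1 hm hm1 y hy
    have t1 : Tendsto (fun n => ‖y (cj J (V l n) ζ) - rm J y (cj J (V m n) ζ)‖) atTop
        (𝓝 ‖y (z l) - rm J y (z m)‖) := by
      refine Tendsto.norm (Tendsto.sub ?_ ?_)
      · exact (y.continuous.tendsto _).comp (hz l hl hl1)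
      · have hc : Continuous (fun x : H => rm J y x) := by
          unfold rm
          exact J.continuous.comp ((star y).continuous.comp J.continuous)
        exact (hc.tendsto _).comp (hz m hm hm1)
    have t2 : Tendsto (fun n : ℕ => C * (‖((Real.sqrt l : ℝ) : ℂ) • y ξ -
        ((Real.sqrt m : ℝ) : ℂ) • rm J y ξ‖ + (1 / ((n : ℝ) + 1) + 1 / ((n : ℝ) + 1)) * ‖y‖)) atTop
        (𝓝 (C * ‖((Real.sqrt l : ℝ) : ℂ) • y ξ - ((Real.sqrt m : ℝ) : ℂ) • rm J y ξ‖)) := by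
      have h0 : Tendsto (fun n : ℕ => (1 / ((n : ℝ) + 1) + 1 / ((n : ℝ) + 1)) * ‖y‖) atTop
          (𝓝 0) := by
        have := (hlim0.add hlim0).mul_const ‖y‖
        simpa using this
      have := (h0.const_add ‖((Real.sqrt l : ℝ) : ℂ) • y ξ -
        ((Real.sqrt m : ℝ) : ℂ) • rm J y ξ‖).const_mul C
      simpa using this
    exact le_of_tendsto_of_tendsto' t1 t2 fun n =>
      est h hC hζ (hV l hl hl1 n) (hV m hm hm1 n) hy

end Pool.Agent.Helper78.BC

end

end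

section

section

open scoped InnerProductSpace Topology ENNReal BoundedContinuousFunction

open ContinuousLinearMap Filter MeasureTheory

namespace Pool.Agent.Helper23.ED

open Pool.Agent.Helper23 Pool.Agent.Helper23.RBF

open Pool.Agent.Helper78.BC.Transport (Sub r)

universe u

variable {H : Type*} [NormedAddCommGroup H] [InnerProductSpace ℂ H] [CompleteSpace H]

/-- the supremum of a bounded increasing sequence of a von Neumann algebra -/
theorem exists_sup {N : VonNeumannAlgebra H} {w : ℕ → H →L[ℂ] H} (hN : ∀ n, w n ∈ N)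
    (hw : ∀ n, 0 ≤ w n) (hm : Monotone w) {C : ℝ} (hC : ∀ n v, (⟪v, w n v⟫_ℂ).re ≤ C * ‖v‖ ^ 2) :
    ∃ B ∈ N, 0 ≤ B ∧ ∀ v, IsLUB (Set.range fun n => (⟪v, w n v⟫_ℂ).re) (⟪v, B v⟫_ℂ).re := by
  have hmv : ∀ v, Monotone fun n => (⟪v, w n v⟫_ℂ).re := fun v m n hmn => le_re_inner (hm hmn) v
  have hbd : ∀ v, BddAbove (Set.range fun n => (⟪v, w n v⟫_ℂ).re) := fun v =>
    ⟨C * ‖v‖ ^ 2, by rintro _ ⟨n, rfl⟩; exact hC n v⟩
  have hsq : ∀ m n, m ≤ n → ∀ v, ‖w n v - w m v‖ ^ 2 ≤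
      |C| * ((⟪v, w n v⟫_ℂ).re - (⟪v, w m v⟫_ℂ).re) := by
    intro m n hmn v
    have h0 : 0 ≤ w n - w m := sub_nonneg.2 (hm hmn)
    obtain ⟨S, hS⟩ := CStarAlgebra.nonneg_iff_eq_star_mul_self.1 h0
    have hn : ∀ x, ‖S x‖ ^ 2 = (⟪x, w n x⟫_ℂ).re - (⟪x, w m x⟫_ℂ).re := by
      intro x
      have h1 : (⟪x, (w n - w m) x⟫_ℂ) = ⟪S x, S x⟫_ℂ := by
        rw [hS]
        change ⟪x, (star S) (S x)⟫_ℂ = _
        rw [inner_star_right]
      rw [sub_apply, inner_sub_right, inner_self_eq_norm_sq_to_K] at h1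
      have h2 := congrArg Complex.re h1
      rw [Complex.sub_re] at h2
      rw [h2]
      norm_cast
    have hSC : ∀ x, ‖S x‖ ^ 2 ≤ |C| * ‖x‖ ^ 2 := by
      intro x
      rw [hn x]
      have h1 := hC n x
      have h2 := re_inner_nonneg (hw m) x
      have h3 : C * ‖x‖ ^ 2 ≤ |C| * ‖x‖ ^ 2 :=
        mul_le_mul_of_nonneg_right (le_abs_self C) (by (clear * -; positivity))
      (clear * - h1 h2 h3; linarith)
    have hSn : ‖S‖ ≤ √|C| := by
      refine S.opNorm_le_bound (Real.sqrt_nonneg _) fun x => ?_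
      have h1 := hSC x
      rw [← Real.sqrt_sq (norm_nonneg (S x)), ← Real.sqrt_sq (norm_nonneg x),
        ← Real.sqrt_mul (abs_nonneg C)]
      exact Real.sqrt_le_sqrt h1
    have h2 : w n v - w m v = (star S) (S v) := by
      rw [← sub_apply, hS]; rfl
    rw [h2, ← hn v]
    have h3 : ‖(star S) (S v)‖ ≤ √|C| * ‖S v‖ := by
      refine ((star S).le_opNorm _).trans ?_
      rw [norm_star]
      (clear * - hSn; gcongr)
    calc ‖(star S) (S v)‖ ^ 2 ≤ (√|C| * ‖S v‖) ^ 2 := by (clear * - h3; gcongr)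
      _ = |C| * ‖S v‖ ^ 2 := by rw [mul_pow, Real.sq_sqrt (abs_nonneg C)]
  have hconv : ∀ v, ∃ y, Tendsto (fun n => w n v) atTop (𝓝 y) := by
    intro v
    refine cauchySeq_tendsto_of_complete ?_
    rw [Metric.cauchySeq_iff']
    intro ε hε
    have h1 := (tendsto_atTop_ciSup (hmv v) (hbd v)).cauchySeq
    rw [Metric.cauchySeq_iff'] at h1
    obtain ⟨M, hM⟩ := h1 (ε ^ 2 / (|C| + 1)) (by (clear * - hε; positivity))
    refine ⟨M, fun n hn => ?_⟩
    have h2 := hM n hn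
    rw [Real.dist_eq, abs_lt] at h2
    have h3 := hsq M n hn v
    have h5 : |C| * ((⟪v, w n v⟫_ℂ).re - (⟪v, w M v⟫_ℂ).re) ≤ |C| * (ε ^ 2 / (|C| + 1)) :=
      mul_le_mul_of_nonneg_left h2.2.le (abs_nonneg C)
    have h6 : |C| * (ε ^ 2 / (|C| + 1)) < ε ^ 2 := by
      rw [← mul_div_assoc, div_lt_iff₀ (by (clear * -; positivity))]
      (clear * - hε; nlinarith [abs_nonneg C, pow_pos hε 2])
    rw [dist_eq_norm]
    exact lt_of_pow_lt_pow_left₀ 2 hε.le (by (clear * - h3 h5 h6; linarith))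
  choose b hb using hconv
  have hb' : Tendsto (fun n x => w n x) atTop (𝓝 b) := tendsto_pi_nhds.2 hb
  set B : H →L[ℂ] H := continuousLinearMapOfTendsto w hb' with hB
  have hBv : ∀ v, Tendsto (fun n => w n v) atTop (𝓝 (B v)) := hb
  have hin : ∀ v, Tendsto (fun n => (⟪v, w n v⟫_ℂ).re) atTop (𝓝 (⟪v, B v⟫_ℂ).re) := fun v =>
    (Complex.continuous_re.tendsto _).comp (tendsto_const_nhds.inner (hBv v))
  refine ⟨B, ?_, ?_, fun v => isLUB_of_tendsto_atTop (hmv v) (hin v)⟩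
  · rw [mem_iff_commutes]
    intro g hg
    ext v
    change g (B v) = B (g v)
    refine tendsto_nhds_unique ((g.continuous.tendsto _).comp (hBv v)) ?_
    refine (hBv (g v)).congr fun n => ?_
    exact commute_apply (hN n) hg v
  · rw [nonneg_iff_isPositive]
    refine ⟨fun x y => ?_, fun x => ?_⟩
    · refine tendsto_nhds_unique ((hBv x).inner tendsto_const_nhds) ?_
      refine (tendsto_const_nhds.inner (hBv y)).congr fun n => ?_
      exact (((nonneg_iff_isPositive _).1 (hw n)).inner_left_eq_inner_right x y).symm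
    · have h1 : 0 ≤ (⟪x, B x⟫_ℂ).re :=
        ge_of_tendsto' (hin x) fun n => re_inner_nonneg (hw n) x
      change 0 ≤ RCLike.re ⟪B x, x⟫_ℂ
      rw [inner_re_symm]
      exact h1

end Pool.Agent.Helper23.ED

end

section

open scoped InnerProductSpace Topology ENNReal BoundedContinuousFunction

open ContinuousLinearMap Filter MeasureTheory

namespace Pool.Agent.Helper23.ED

open Pool.Agent.Helper23 Pool.Agent.Helper23.RBF

open Pool.Agent.Helper78.BC.Transport (Sub r)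

universe u

variable {H : Type u} [NormedAddCommGroup H] [InnerProductSpace ℂ H] [CompleteSpace H]

variable {N : VonNeumannAlgebra H} {ψ : (H →L[ℂ] H) → ℝ≥0∞}

namespace WtC

lemma inner_star_mul (y : H →L[ℂ] H) (u : H) : (⟪u, (star y * y) u⟫_ℂ).re = ‖y u‖ ^ 2 := by
  change (⟪u, (star y) (y u)⟫_ℂ).re = _
  rw [inner_star_right, inner_self_eq_norm_sq_to_K]
  norm_cast

end WtC

open WtC

/-- the regularized supremum of an increasing sequence with bounded weights -/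
theorem exists_reg (hψ : IsNSFWeight N ψ) {w : ℕ → H →L[ℂ] H} (hN : ∀ n, w n ∈ N)
    (hw : ∀ n, 0 ≤ w n) (hm : Monotone w) {δ : ℝ} (hδ : 0 < δ) :
    ∃ B ∈ N, 0 ≤ B ∧ ψ B ≤ ⨆ n, ψ (w n) ∧
      ∀ v, IsLUB (Set.range fun n => (⟪v, fd δ (w n) v⟫_ℂ).re) (⟪v, B v⟫_ℂ).re := by
  have hmono : Monotone fun n => fd δ (w n) := fun m n hmn => fd_mono (hw m) (hm hmn) hδ
  obtain ⟨B, hB, hB0, hl⟩ := exists_sup (N := N) (w := fun n => fd δ (w n))
    (fun n => fd_mem (hN n) (hw n) hδ) (fun n => fd_nonneg (hw n) hδ) hmono (C := δ⁻¹)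
    (fun n v => by
      have h1 := fd_var (hw n) hδ v 0
      simpa using h1)
  refine ⟨B, hB, hB0, ?_, hl⟩
  rw [psi_sup hψ (fun n => fd_mem (hN n) (hw n) hδ) (fun n => fd_nonneg (hw n) hδ) hmono hB hl]
  exact iSup_mono fun n => wt_mono hψ (fd_mem (hN n) (hw n) hδ) (hN n) (fd_nonneg (hw n) hδ)
    (fd_le (hw n) hδ)

theorem weight_le (hψ : IsNSFWeight N ψ) {w : ℕ → H →L[ℂ] H} (hN : ∀ n, w n ∈ N)
    (hw : ∀ n, 0 ≤ w n) (hm : Monotone w) {y : H →L[ℂ] H} (hy : y ∈ N)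
    (h : ∀ v, BddAbove (Set.range fun n => (⟪v, w n v⟫_ℂ).re) →
      ‖y v‖ ^ 2 ≤ ⨆ n, (⟪v, w n v⟫_ℂ).re) : ψ (star y * y) ≤ ⨆ n, ψ (w n) := by
  have hyN : star y * y ∈ N := mul_mem (star_mem hy) hy
  have hy0 := star_mul_nonneg y
  have key : ∀ δ : ℝ, 0 < δ → ψ (fd δ (star y * y)) ≤ ⨆ n, ψ (w n) := by
    intro δ hδ
    obtain ⟨B, hB, hB0, hψB, hl⟩ := exists_reg hψ hN hw hm hδ
    have hle : fd δ (star y * y) ≤ B := by
      refine le_of_re (fd_nonneg hy0 hδ) hB0 fun v => ?_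
      obtain ⟨u, hu, hmin⟩ := fd_min hw hm hδ v
      have h1 := fd_var hy0 hδ v u
      rw [inner_star_mul] at h1
      have h2 := h u hu
      have h3 : ⨆ n, (⟪v, fd δ (w n) v⟫_ℂ).re = (⟪v, B v⟫_ℂ).re :=
        (hl v).csSup_eq (Set.range_nonempty _)
      (clear * - hmin h1 h2 h3; linarith)
    exact (wt_mono hψ (fd_mem hyN hy0 hδ) hB (fd_nonneg hy0 hδ) hle).trans hψB
  have hpos : ∀ n : ℕ, (0 : ℝ) < 1 / ((n : ℝ) + 1) := fun n => by (clear * -; positivity)
  have hmono : Monotone fun n : ℕ => fd (1 / ((n : ℝ) + 1)) (star y * y) := by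
    intro m n hmn
    refine fd_anti hy0 (hpos n) ?_
    have : (m : ℝ) ≤ n := by exact_mod_cast hmn
    exact one_div_le_one_div_of_le (by (clear * -; positivity)) (by (clear * - this; linarith))
  rw [psi_sup hψ (g := fun n : ℕ => fd (1 / ((n : ℝ) + 1)) (star y * y))
    (fun n => fd_mem hyN hy0 (hpos n)) (fun n => fd_nonneg hy0 (hpos n)) hmono hyN
    (fd_lub hy0)]
  exact iSup_le fun n => key _ (hpos n)

end Pool.Agent.Helper23.ED

end

section

open scoped InnerProductSpace Topology ENNReal BoundedContinuousFunction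

open ContinuousLinearMap Filter MeasureTheory

namespace Pool.Agent.Helper23.ED

open Pool.Agent.Helper23 Pool.Agent.Helper23.RBF

open Pool.Agent.Helper78.BC.Transport (Sub r)

universe u

variable {H : Type u} [NormedAddCommGroup H] [InnerProductSpace ℂ H] [CompleteSpace H]

variable {K : Type u} [NormedAddCommGroup K] [InnerProductSpace ℂ K] [CompleteSpace K]

variable {L : Type u} [NormedAddCommGroup L] [InnerProductSpace ℂ L] [CompleteSpace L]

variable {N : VonNeumannAlgebra H} {ψ : (H →L[ℂ] H) → ℝ≥0∞} {ξ : H} {i : K →L[ℂ] H} {κ : K}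
  {Λ : (H →L[ℂ] H) → L} {ρ : (H →L[ℂ] H) → (L →L[ℂ] L)}

open WtE in
theorem Gp_zero' (Sb : Sub N ξ i κ) (hψ : IsNSFWeight N ψ) (hG : Gns N ψ Λ ρ) {v : K}
    (hv : ((v, 0) : K × L) ∈ closure (Gp N ψ ξ i Λ)) : v = 0 := by
  -- the approximating sequence
  choose p hp hd using fun k : ℕ => Metric.mem_closure_iff.1 hv ((1 / 8 : ℝ) ^ k) (by (clear * -; positivity))
  choose a ha hia hpa using hp
  have hd1 : ∀ k, dist v (p k).1 < (1 / 8 : ℝ) ^ k := fun k =>
    lt_of_le_of_lt (le_max_left _ _) (hd k)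
  have hd2 : ∀ k, ‖Λ (a k)‖ ^ 2 ≤ (1 / 8 : ℝ) ^ k := by
    intro k
    have h1 : dist (0 : L) (p k).2 < (1 / 8 : ℝ) ^ k := lt_of_le_of_lt (le_max_right _ _) (hd k)
    rw [hpa, dist_zero_left] at h1
    have h2 : (1 / 8 : ℝ) ^ k ≤ 1 := pow_le_one₀ (by norm_num) (by norm_num)
    have h3 : 0 ≤ ‖Λ (a k)‖ := norm_nonneg _
    nlinarith
  have haN : ∀ j, a j ∈ N := fun j => (ha j).1
  -- the regularizations
  choose g hgN hg0 hgψ hgl using fun k : ℕ =>
    exists_reg hψ (w_mem haN k) (w_nonneg a k) (w_mono a k) one_pos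
  have hgψ' : ∀ k, ψ (g k) ≤ ENNReal.ofReal (3 * (1 / 4 : ℝ) ^ k) := by
    intro k
    refine (hgψ k).trans (iSup_le fun n => ?_)
    exact (w_psi hψ hG ha hd2 k n).trans (ENNReal.ofReal_le_ofReal (geo k n))
  have hganti : ∀ {k l : ℕ}, k ≤ l → g l ≤ g k := by
    intro k l hkl
    refine le_of_re (hg0 l) (hg0 k) fun v => ?_
    refine (hgl l v).2 ?_
    rintro _ ⟨n, rfl⟩
    refine (re_mono (fd_mono (w_nonneg a l n) (w_anti a hkl n) one_pos) v).trans ?_
    exact (hgl k v).1 ⟨n, rfl⟩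
  have hGmono : Monotone fun k => g 0 - g k := fun k l hkl => sub_le_sub_left (hganti hkl) _
  have hG0 : ∀ k, 0 ≤ g 0 - g k := fun k => sub_nonneg.2 (hganti (Nat.zero_le k))
  obtain ⟨B, hBN, hB0, hBl⟩ := exists_sup (N := N) (w := fun k => g 0 - g k)
    (fun k => sub_mem (hgN 0) (hgN k)) hG0 hGmono (C := ‖g 0‖) (by
      intro n v
      have h1 : (g 0 - g n : H →L[ℂ] H) ≤ g 0 := sub_le_self _ (hg0 n)
      refine (re_mono h1 v).trans ?_
      calc (⟪v, g 0 v⟫_ℂ).re ≤ ‖⟪v, g 0 v⟫_ℂ‖ := Complex.re_le_norm _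
        _ ≤ ‖v‖ * ‖g 0 v‖ := norm_inner_le_norm _ _
        _ ≤ ‖v‖ * (‖g 0‖ * ‖v‖) := by gcongr; exact (g 0).le_opNorm v
        _ = ‖g 0‖ * ‖v‖ ^ 2 := by ring)
  have hBg : B ≤ g 0 := by
    refine le_of_re hB0 (hg0 0) fun v => (hBl v).2 ?_
    rintro _ ⟨n, rfl⟩
    exact re_mono (sub_le_self _ (hg0 n)) v
  have hgi0 : 0 ≤ g 0 - B := sub_nonneg.2 hBg
  have hgile : ∀ k, g 0 - B ≤ g k := by
    intro k
    refine le_of_re hgi0 (hg0 k) fun v => ?_
    have h1 := (hBl v).1 ⟨k, rfl⟩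
    simp only [sub_apply, inner_sub_right, Complex.sub_re] at h1 ⊢
    (clear * - h1; linarith)
  have hgiψ : ψ (g 0 - B) = 0 := by
    have h1 : ∀ k : ℕ, ψ (g 0 - B) ≤ ENNReal.ofReal (3 * (1 / 4 : ℝ) ^ k) := fun k =>
      (wt_mono hψ (sub_mem (hgN 0) hBN) (hgN k) hgi0 (hgile k)).trans (hgψ' k)
    have h2 : Tendsto (fun k : ℕ => ENNReal.ofReal (3 * (1 / 4 : ℝ) ^ k)) atTop (𝓝 0) := by
      have h3 : Tendsto (fun k : ℕ => 3 * (1 / 4 : ℝ) ^ k) atTop (𝓝 (3 * 0)) :=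
        (tendsto_pow_atTop_nhds_zero_of_lt_one (by norm_num) (by norm_num)).const_mul 3
      have h4 := ENNReal.tendsto_ofReal h3
      simpa using h4
    exact le_antisymm (ge_of_tendsto' h2 h1) bot_le
  have hgi : g 0 - B = 0 := hψ.faithful _ (sub_mem (hgN 0) hBN) hgi0 hgiψ
  have hBeq : B = g 0 := (sub_eq_zero.1 hgi).symm
  -- convergence of the quadratic forms
  have hlim : ∀ h : H, Tendsto (fun k => (⟪h, g k h⟫_ℂ).re) atTop (𝓝 0) := by
    intro h
    have hm : Monotone fun k => (⟪h, (g 0 - g k) h⟫_ℂ).re := fun k l hkl =>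
      re_mono (hGmono hkl) h
    have h1 := tendsto_atTop_isLUB hm (hBl h)
    rw [hBeq] at h1
    have h2 := (tendsto_const_nhds (x := (⟪h, g 0 h⟫_ℂ).re)).sub h1
    rw [sub_self] at h2
    refine h2.congr fun k => ?_
    rw [sub_apply, inner_sub_right, Complex.sub_re]
    ring
  -- the vectors `v_k` converge
  have hpv : Tendsto (fun j => (p j).1) atTop (𝓝 v) := by
    rw [tendsto_iff_dist_tendsto_zero]
    refine squeeze_zero (fun j => dist_nonneg) (fun j => ?_)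
      (tendsto_pow_atTop_nhds_zero_of_lt_one (by norm_num : (0 : ℝ) ≤ 1 / 8) (by norm_num))
    rw [dist_comm]
    exact (hd1 j).le
  have hort : ∀ h : H, ⟪h, i v⟫_ℂ = 0 := by
    intro h
    choose u hub hu using fun k : ℕ => fd_min (w_nonneg a k) (w_mono a k) one_pos h
    have hu1 : ∀ k, ‖h - u k‖ ^ 2 ≤ (⟪h, g k h⟫_ℂ).re := by
      intro k
      have h1 := hu k
      rw [(hgl k h).ciSup_eq, inv_one, one_mul] at h1
      have h2 : 0 ≤ ⨆ n, (⟪u k, w a k n (u k)⟫_ℂ).re := by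
        refine Real.iSup_nonneg fun n => ?_
        have := re_mono (w_nonneg a k n) (u k)
        simpa using this
      (clear * - h1 h2; linarith)
    have hu2 : Tendsto u atTop (𝓝 h) := by
      rw [tendsto_iff_norm_sub_tendsto_zero]
      have h1 : Tendsto (fun k => ‖h - u k‖ ^ 2) atTop (𝓝 0) :=
        squeeze_zero (fun k => sq_nonneg _) hu1 (hlim h)
      have h2 := h1.sqrt
      rw [Real.sqrt_zero] at h2
      refine h2.congr fun k => ?_
      rw [Real.sqrt_sq (norm_nonneg _), norm_sub_rev]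
    have hu3 : ∀ k, ⟪u k, i v⟫_ℂ = 0 := by
      intro k
      obtain ⟨C, hC⟩ := hub k
      have h1 : ∀ j, k ≤ j → ‖(star (a j)) (u k)‖ ^ 2 ≤ C * (1 / 2 : ℝ) ^ (j + 1) := by
        intro j hj
        have h2 := (term_le a hj (u k)).trans (hC ⟨j + 1, rfl⟩)
        have h3 : (1 / 2 : ℝ) ^ (j + 1) * 2 ^ (j + 1) = 1 := by
          rw [← mul_pow]; norm_num
        calc ‖(star (a j)) (u k)‖ ^ 2 =
            (2 ^ (j + 1) * ‖(star (a j)) (u k)‖ ^ 2) * (1 / 2) ^ (j + 1) := by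
              linear_combination -(‖(star (a j)) (u k)‖ ^ 2) * h3
          _ ≤ C * (1 / 2 : ℝ) ^ (j + 1) := by gcongr
      have h4 : Tendsto (fun j => ‖(star (a j)) (u k)‖ ^ 2) atTop (𝓝 0) := by
        have h5 : Tendsto (fun j : ℕ => C * (1 / 2 : ℝ) ^ (j + 1)) atTop (𝓝 0) := by
          have h6 := ((tendsto_pow_atTop_nhds_zero_of_lt_one (by norm_num : (0 : ℝ) ≤ 1 / 2)
            (by norm_num)).comp (tendsto_add_atTop_nat 1)).const_mul C
          rw [mul_zero] at h6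
          exact h6
        refine tendsto_of_tendsto_of_tendsto_of_le_of_le' tendsto_const_nhds h5
          (Eventually.of_forall fun j => sq_nonneg _) ?_
        filter_upwards [eventually_ge_atTop k] with j hj using h1 j hj
      have h7 : Tendsto (fun j => (star (a j)) (u k)) atTop (𝓝 0) := by
        rw [tendsto_zero_iff_norm_tendsto_zero]
        have h8 := h4.sqrt
        rw [Real.sqrt_zero] at h8
        refine h8.congr fun j => ?_
        rw [Real.sqrt_sq (norm_nonneg _)]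
      have h9 : Tendsto (fun j => ⟪(star (a j)) (u k), ξ⟫_ℂ) atTop (𝓝 0) := by
        have := h7.inner (𝕜 := ℂ) (tendsto_const_nhds (x := ξ))
        rwa [inner_zero_left] at this
      have h10 : Tendsto (fun j => ⟪u k, i (p j).1⟫_ℂ) atTop (𝓝 ⟪u k, i v⟫_ℂ) :=
        (tendsto_const_nhds (x := u k)).inner ((i.continuous.tendsto v).comp hpv)
      refine tendsto_nhds_unique h10 (h9.congr fun j => ?_)
      rw [hia, ContinuousLinearMap.star_eq_adjoint, adjoint_inner_left]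
    have h11 : Tendsto (fun k => ⟪u k, i v⟫_ℂ) atTop (𝓝 ⟪h, i v⟫_ℂ) :=
      hu2.inner tendsto_const_nhds
    refine tendsto_nhds_unique h11 ?_
    simp only [hu3]
    exact tendsto_const_nhds
  have hiv : i v = 0 := inner_self_eq_zero.1 (hort (i v))
  exact Sb.i_inj (by rw [hiv, map_zero])

end Pool.Agent.Helper23.ED

end

end

section

section

open scoped InnerProductSpace Topology ENNReal BoundedContinuousFunction

open ContinuousLinearMap Filter MeasureTheory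

namespace Pool.Agent.Helper23.ED

open Pool.Agent.Helper23 Pool.Agent.Helper23.RBF

open Pool.Agent.Helper78.BC.Transport (Sub r)

universe u

open TopologicalSpace

variable {H : Type*} [NormedAddCommGroup H] [InnerProductSpace ℂ H] [CompleteSpace H]

variable {N : VonNeumannAlgebra H} {ξ : H} {W : ℝ → H →L[ℂ] H}

/-- closedness of the field of intertwiners -/
lemma slB_closed {ι : Type*} (F : Ultrafilter ι) {σ : ι → ℝ} {s : ℝ}
    (hσ : Tendsto σ (F : Filter ι) (𝓝 s)) {x : ι → H →L[ℂ] H} (hx : ∀ i, x i ∈ CS N W (σ i)) :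
    ∃ X ∈ CS N W s, ∀ w v, Tendsto (fun i => ⟪w, x i v⟫_ℂ) (F : Filter ι) (𝓝 ⟪w, X v⟫_ℂ) := by
  obtain ⟨X, hX1, hX⟩ := slB_ulim F (fun i => (hx i).2.1)
  refine ⟨X, ⟨?_, hX1, ?_⟩, hX⟩
  · rw [mem_iff_commutes]
    intro g hg
    ext v
    refine ext_inner_left ℂ fun w => ?_
    change ⟪w, g (X v)⟫_ℂ = ⟪w, X (g v)⟫_ℂ
    have h1 := hX ((ContinuousLinearMap.adjoint g) w) v
    have h2 := hX w (g v)
    rw [ContinuousLinearMap.adjoint_inner_left] at h1
    refine tendsto_nhds_unique h1 (h2.congr fun i => ?_)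
    rw [ContinuousLinearMap.adjoint_inner_left]
    have := mem_iff_commutes.1 (hx i).1 g hg
    have h3 := congrArg (fun T : H →L[ℂ] H => T v) this
    exact congrArg (fun z => ⟪w, z⟫_ℂ) h3.symm
  · intro t
    ext v
    refine ext_inner_left ℂ fun w => ?_
    change ⟪w, X (W t v)⟫_ℂ = ⟪w, ph t s • (W t (X v))⟫_ℂ
    rw [inner_smul_right]
    have h1 := hX w (W t v)
    have h2 := hX ((ContinuousLinearMap.adjoint (W t)) w) v
    rw [ContinuousLinearMap.adjoint_inner_left] at h2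
    have h3 : Tendsto (fun i => ph t (σ i)) (F : Filter ι) (𝓝 (ph t s)) := by
      have hc : Continuous fun c : ℝ => ph t c := by
        unfold ph
        fun_prop
      exact (hc.tendsto s).comp hσ
    refine tendsto_nhds_unique h1 ((h3.mul h2).congr fun i => ?_)
    rw [ContinuousLinearMap.adjoint_inner_left]
    have h4 := congrArg (fun T : H →L[ℂ] H => T v) ((hx i).2.2 t)
    have h5 : x i (W t v) = ph t (σ i) • W t (x i v) := h4
    rw [h5, inner_smul_right]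

theorem exists_near [SeparableSpace H] (hW : UG W) (hd : Dense (orb N.commutant ξ : Set H))
    (η : H) : ∃ x : ℝ → H →L[ℂ] H, (∀ s, x s ∈ CS N W s) ∧
      (∀ s, ∀ y ∈ CS N W s, ‖x s ξ - y ξ‖ ≤ ‖η - y ξ‖) ∧ Dec x ∧ Dec (fun s => star (x s)) := by
  obtain ⟨p, hp, hp', hpm⟩ := exists_sel (C := fun s => {v | ∃ x ∈ CS N W s, x ξ = v})
    (fun s => ⟨_, 0, slB_zero_mem s, rfl⟩)
    (by
      intro s
      rintro _ ⟨x, hx, rfl⟩ _ ⟨y, hy, rfl⟩ a c ha hc hac
      refine ⟨(a : ℂ) • x + (c : ℂ) • y, ⟨?_, ?_, ?_⟩, rfl⟩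
      · exact add_mem (smul_mem' _ hx.1) (smul_mem' _ hy.1)
      · refine (norm_add_le _ _).trans ?_
        rw [norm_smul, norm_smul, Complex.norm_real, Complex.norm_real, Real.norm_of_nonneg ha,
          Real.norm_of_nonneg hc]
        have h1 := mul_le_mul_of_nonneg_left hx.2.1 ha
        have h2 := mul_le_mul_of_nonneg_left hy.2.1 hc
        linarith
      · intro t
        rw [add_mul, mul_add, smul_mul_assoc, smul_mul_assoc, hx.2.2, hy.2.2, smul_add,
          mul_smul_comm, mul_smul_comm, smul_comm (a : ℂ), smul_comm (c : ℂ)])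
    (by
      intro s
      refine IsSeqClosed.isClosed ?_
      intro v v₀ hv hv0
      choose x hx hxv using hv
      obtain ⟨X, hX, hXt⟩ := slB_closed (hyperfilter ℕ) (σ := fun _ => s)
        tendsto_const_nhds hx
      refine ⟨X, hX, ?_⟩
      refine ext_inner_left ℂ fun w => ?_
      refine tendsto_nhds_unique (hXt w ξ) ?_
      have h1 : Tendsto (fun n => ⟪w, v n⟫_ℂ) ((hyperfilter ℕ : Ultrafilter ℕ) : Filter ℕ)
          (𝓝 ⟪w, v₀⟫_ℂ) := by
        refine Tendsto.mono_left ?_ Nat.hyperfilter_le_atTop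
        exact (tendsto_const_nhds (x := w)).inner hv0
      refine h1.congr fun n => ?_
      rw [hxv])
    (r := ‖ξ‖)
    (by
      rintro s _ ⟨x, hx, rfl⟩
      refine (x.le_opNorm ξ).trans ?_
      have := mul_le_mul_of_nonneg_right hx.2.1 (norm_nonneg ξ)
      rwa [one_mul] at this)
    (by
      intro F s hF v v₀ hv hv0
      choose x hx hxv using hv
      obtain ⟨X, hX, hXt⟩ := slB_closed F (σ := fun s' => s') hF hx
      refine ⟨X, hX, ?_⟩
      refine ext_inner_left ℂ fun w => ?_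
      refine tendsto_nhds_unique (hXt w ξ) ?_
      refine (hv0 w).congr fun n => ?_
      rw [hxv])
    η
  choose x hx hxp using hp
  have hm : ∀ w v, Measurable fun s => ⟪w, x s v⟫_ℂ := by
    intro w v
    obtain ⟨u, hu, hut⟩ := mem_closure_iff_seq_limit.1 (hd v)
    have h1 : ∀ n, Measurable fun s => ⟪w, x s (u n)⟫_ℂ := by
      intro n
      obtain ⟨b, hb, hbu⟩ := hu n
      have h2 : (fun s => ⟪w, x s (u n)⟫_ℂ) =
          fun s => ⟪(ContinuousLinearMap.adjoint b) w, p s⟫_ℂ := by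
        funext s
        rw [ContinuousLinearMap.adjoint_inner_left, ← hxp s, ← hbu, commute_apply (hx s).1 hb]
      rw [h2]
      exact hpm _
    refine measurable_of_tendsto_metrizable h1 (tendsto_pi_nhds.2 fun s => ?_)
    have h3 : Tendsto (fun n => x s (u n)) atTop (𝓝 (x s v)) :=
      ((x s).continuous.tendsto v).comp hut
    exact (tendsto_const_nhds (x := w)).inner h3
  refine ⟨x, hx, ?_, slB_dec (fun s => (hx s).2.1) hm, slB_dec (fun s => ?_) ?_⟩
  · intro s y hy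
    rw [hxp s]
    exact hp' s _ ⟨y, hy, rfl⟩
  · rw [norm_star]
    exact (hx s).2.1
  · intro w v
    have h1 : (fun s => ⟪w, (star (x s)) v⟫_ℂ) = fun s => (starRingEnd ℂ) ⟪v, x s w⟫_ℂ := by
      funext s
      rw [ContinuousLinearMap.star_eq_adjoint, ContinuousLinearMap.adjoint_inner_right,
        inner_conj_symm]
    rw [h1]
    exact Complex.continuous_conj.measurable.comp (hm v w)

end Pool.Agent.Helper23.ED

end

end
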