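import Pool.Agent.Helper23.FB.L00_a0
import Pool.Agent.Helper23.FB.L00_a1
import Pool.Agent.Helper23.FB.L00_a12
import Pool.Agent.Helper23.FB.L00_a13
import Pool.Agent.Helper23.FB.L00_a2
import Pool.Agent.Helper23.FB.L00_a3
import Pool.Agent.Helper23.FB.L00_a5
import Pool.Agent.Helper23.FB.L00_a6

/-!
Parts of Helper23.FA.L00_01, Helper23.FA.L01_07, Helper23.FA.L00_03, Helper23.FA.L01_16, Helper23.FA.L01_17, Helper23.FA.L01_18, Helper23.FA.L02_02, Helper23.FA.L01_15, Helper23.FA.L01_11, Helper23.FA.L02_05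
-/

attribute [local instance 5000]
  Pool.Agent.Helper23.FB.Inst.rCharZero Pool.Agent.Helper23.FB.Inst.rALM
  Pool.Agent.Helper23.FB.Inst.rARM Pool.Agent.Helper23.FB.Inst.rALSM
  Pool.Agent.Helper23.FB.Inst.rARSM Pool.Agent.Helper23.FB.Inst.rARRLE
  Pool.Agent.Helper23.FB.Inst.rALRLE Pool.Agent.Helper23.FB.Inst.rARRLT
  Pool.Agent.Helper23.FB.Inst.rALRLT Pool.Agent.Helper23.FB.Inst.rPMRLT
  Pool.Agent.Helper23.FB.Inst.rMPRLT Pool.Agent.Helper23.FB.Inst.rPMM
  Pool.Agent.Helper23.FB.Inst.rMPM Pool.Agent.Helper23.FB.Inst.rPMSM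
  Pool.Agent.Helper23.FB.Inst.rMPSM Pool.Agent.Helper23.FB.Inst.rEAOL
  Pool.Agent.Helper23.FB.Inst.rIOR Pool.Agent.Helper23.FB.Inst.rISOR
  Pool.Agent.Helper23.FB.Inst.rFS Pool.Agent.Helper23.FB.Inst.rcCharZero
  Pool.Agent.Helper23.FB.Inst.rNZD Pool.Agent.Helper23.FB.Inst.rcNZD
  Pool.Agent.Helper23.FB.Inst.bSemiring Pool.Agent.Helper23.FB.Inst.bStar
  Pool.Agent.Helper23.FB.Inst.bAlg Pool.Agent.Helper23.FB.Inst.bSub
  Pool.Agent.Helper23.FB.Inst.bMul Pool.Agent.Helper23.FB.Inst.bAdd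
  Pool.Agent.Helper23.FB.Inst.iRing Pool.Agent.Helper23.FB.Inst.iSemiring
  Pool.Agent.Helper23.FB.Inst.iAlgC Pool.Agent.Helper23.FB.Inst.iSMulC
  Pool.Agent.Helper23.FB.Inst.iModC Pool.Agent.Helper23.FB.Inst.iAlgR
  Pool.Agent.Helper23.FB.Inst.iSMulR Pool.Agent.Helper23.FB.Inst.iModR
  Pool.Agent.Helper23.FB.Inst.iMonoid Pool.Agent.Helper23.FB.Inst.iSemigroup
  Pool.Agent.Helper23.FB.Inst.iMulOneClass Pool.Agent.Helper23.FB.Inst.iMul
  Pool.Agent.Helper23.FB.Inst.iAdd Pool.Agent.Helper23.FB.Inst.iSub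
  Pool.Agent.Helper23.FB.Inst.iNeg Pool.Agent.Helper23.FB.Inst.iAddCommMonoid
  Pool.Agent.Helper23.FB.Inst.iAddCommGroup Pool.Agent.Helper23.FB.Inst.iAddGroup
  Pool.Agent.Helper23.FB.Inst.iAddMonoid Pool.Agent.Helper23.FB.Inst.iSMulZeroC
  Pool.Agent.Helper23.FB.Inst.iMulActC Pool.Agent.Helper23.FB.Inst.iDSMulC
  Pool.Agent.Helper23.FB.Inst.iDSMulR Pool.Agent.Helper23.FB.Inst.iSNAG
  Pool.Agent.Helper23.FB.Inst.iSNACG Pool.Agent.Helper23.FB.Inst.iNorm
  Pool.Agent.Helper23.FB.Inst.iNSC' Pool.Agent.Helper23.FB.Inst.iNSR'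
  Pool.Agent.Helper23.FB.Inst.iTop Pool.Agent.Helper23.FB.Inst.iT2 Pool.Agent.Helper23.FB.Inst.iTR
  Pool.Agent.Helper23.FB.Inst.iSCC Pool.Agent.Helper23.FB.Inst.iIST
  Pool.Agent.Helper23.FB.Inst.iSCCR Pool.Agent.Helper23.FB.Inst.iISTR
  Pool.Agent.Helper23.FB.Inst.iZHC Pool.Agent.Helper23.FB.Inst.iAHC
  Pool.Agent.Helper23.FB.Inst.iAMHC Pool.Agent.Helper23.FB.Inst.iMAHC
  Pool.Agent.Helper23.FB.Inst.lTop Pool.Agent.Helper23.FB.Inst.lUnif
  Pool.Agent.Helper23.FB.Inst.lACM Pool.Agent.Helper23.FB.Inst.lACG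
  Pool.Agent.Helper23.FB.Inst.lSNAG Pool.Agent.Helper23.FB.Inst.lSNACG
  Pool.Agent.Helper23.FB.Inst.lNACG Pool.Agent.Helper23.FB.Inst.lNorm
  Pool.Agent.Helper23.FB.Inst.lIPS Pool.Agent.Helper23.FB.Inst.lMod
  Pool.Agent.Helper23.FB.Inst.lSMul Pool.Agent.Helper23.FB.Inst.lT2
  Pool.Agent.Helper23.FB.Inst.iStar Pool.Agent.Helper23.FB.Inst.iStarMul
  Pool.Agent.Helper23.FB.Inst.iStarAddMonoid Pool.Agent.Helper23.FB.Inst.iStarRing
  Pool.Agent.Helper23.FB.Inst.iNSC Pool.Agent.Helper23.FB.Inst.iSOR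
  Pool.Agent.Helper23.FB.Inst.iALM Pool.Agent.Helper23.FB.Inst.iARM
  Pool.Agent.Helper23.FB.Inst.iCFC Pool.Agent.Helper23.FB.Inst.iNCFC
  Pool.Agent.Helper23.FB.Inst.iStarModR Pool.Agent.Helper23.FB.Inst.iStarModC
  Pool.Agent.Helper23.FB.Inst.eStar Pool.Agent.Helper23.FB.Inst.eAdd
  Pool.Agent.Helper23.FB.Inst.eMul Pool.Agent.Helper23.FB.Inst.eOne
  Pool.Agent.Helper23.FB.Inst.eZero Pool.Agent.Helper23.FB.Inst.eMulAction
  Pool.Agent.Helper23.FB.Inst.eAMHC2 Pool.Agent.Helper23.FB.Inst.eZHC2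
  Pool.Agent.Helper23.FB.Inst.lAMHC

namespace Pool.Agent.Helper23
end Pool.Agent.Helper23
namespace Pool.Agent.Helper23.RBF
end Pool.Agent.Helper23.RBF

section

section

open scoped InnerProductSpace Topology BoundedContinuousFunction FourierTransform ENNReal

open ContinuousLinearMap Filter MeasureTheory

set_option linter.unusedSectionVars false

namespace Pool.Agent.Helper23

variable {H : Type*} [NormedAddCommGroup H] [InnerProductSpace ℂ H] [CompleteSpace H]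

variable {M N : VonNeumannAlgebra H} {ξ : H} {E : (H →L[ℂ] H) → (H →L[ℂ] H)}

lemma FR_sub_one_le (ρ : ℝ) : |ρ| / (|ρ| + 2) ≤ ‖(FR - 1) ρ‖ := by
  have h1 : (FR - 1) ρ = (((1 - Real.exp ρ) / (1 + Real.exp ρ) : ℝ) : ℂ) := by
    rw [BoundedContinuousFunction.sub_apply, FR_apply, BoundedContinuousFunction.coe_one,
      Pi.one_apply]
    have h3 : (1 + Real.exp ρ) ≠ 0 := by positivity
    have h2 : (1 - Real.exp ρ) / (1 + Real.exp ρ) = 2 / (1 + Real.exp ρ) - 1 := by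
      field_simp
      ring
    rw [h2]
    push_cast
    ring
  rw [h1, Complex.norm_real, Real.norm_eq_abs, abs_div, abs_of_pos (by positivity : 0 <
    1 + Real.exp ρ), div_le_div_iff₀ (by (clear * -; positivity)) (by positivity)]
  rcases le_total 0 ρ with h | h
  · rw [abs_of_nonneg h]
    have h2 : 1 ≤ Real.exp ρ := Real.one_le_exp h
    rw [abs_of_nonpos (by (clear * - h2; linarith))]
    have h3 := Real.add_one_le_exp ρ
    (clear * - h3; nlinarith)
  · rw [abs_of_nonpos h]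
    have h2 : Real.exp ρ ≤ 1 := Real.exp_le_one_iff.2 h
    rw [abs_of_nonneg (by linarith)]
    have h3 := Real.add_one_le_exp (-ρ)
    have h4 : Real.exp (-ρ) * Real.exp ρ = 1 := by
      rw [← Real.exp_add]; simp
    have h5 : (-ρ + 1) * Real.exp ρ ≤ 1 := by
      calc (-ρ + 1) * Real.exp ρ ≤ Real.exp (-ρ) * Real.exp ρ :=
            mul_le_mul_of_nonneg_right h3 (Real.exp_pos ρ).le
        _ = 1 := h4
    (clear * - h5; nlinarith)

lemma expB_dom (t ρ : ℝ) : ‖(expB t - 1) ρ‖ ≤ (3 * |t| + 6) * ‖(FR - 1) ρ‖ := by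
  have h0 := FR_sub_one_le ρ
  have h1 : ‖(expB t - 1) ρ‖ ≤ |t| * |ρ| := by
    have := expB_sub_le t 0 ρ
    rw [expB_zero, sub_zero] at this
    exact this
  have h2 : ‖(expB t - 1) ρ‖ ≤ 2 := by
    rw [BoundedContinuousFunction.sub_apply, BoundedContinuousFunction.coe_one, Pi.one_apply]
    refine (norm_sub_le _ _).trans ?_
    rw [expB_norm_apply, norm_one]
    norm_num
  refine le_trans ?_ (mul_le_mul_of_nonneg_left h0 (by (clear * -; positivity)))
  rcases le_total |ρ| 1 with h | h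
  · refine h1.trans ?_
    rw [← mul_div_assoc, le_div_iff₀ (by positivity)]
    have h3 : 0 ≤ |t| * |ρ| := by positivity
    (clear * - h h3; nlinarith [abs_nonneg ρ, abs_nonneg t])
  · refine h2.trans ?_
    rw [← mul_div_assoc, le_div_iff₀ (by positivity)]
    (clear * - h; nlinarith [abs_nonneg ρ, abs_nonneg t, mul_nonneg (abs_nonneg t) (abs_nonneg ρ)])

end Pool.Agent.Helper23

end

end

section

section

open scoped InnerProductSpace

open ContinuousLinearMap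

namespace Pool.Agent.Helper72

open Pool.Agent.Helper23

variable {H : Type*} [NormedAddCommGroup H] [InnerProductSpace ℂ H] [CompleteSpace H]

lemma nonneg_of_inner {T : H →L[ℂ] H} (hT : star T = T) (h : ∀ v, 0 ≤ (⟪v, T v⟫_ℂ).re) :
    0 ≤ T := by
  rw [ContinuousLinearMap.nonneg_iff_isPositive, ContinuousLinearMap.isPositive_iff_complex]
  intro v
  have h1 : ((⟪T v, v⟫_ℂ).re : ℂ) = ⟪T v, v⟫_ℂ := by
    rw [← Complex.conj_eq_iff_re, inner_conj_symm, inner_sa hT]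
  refine ⟨h1, ?_⟩
  have h2 := h v
  rw [← inner_sa hT] at h2
  exact h2

/-- `μ R + ν (2 - R)` is onto. -/
lemma exists_solve {R : H →L[ℂ] H} (hR : star R = R) (hR0 : ∀ v : H, 0 ≤ (⟪v, R v⟫_ℂ).re)
    (hR2 : ∀ v : H, (⟪v, R v⟫_ℂ).re ≤ 2 * ‖v‖ ^ 2) {μ ν : ℝ} (hμ : 0 < μ) (hν : 0 < ν) (u : H) :
    ∃ w : H, (μ : ℂ) • R w + (ν : ℂ) • ((2 : ℂ) • w - R w) = u := by
  set T : H →L[ℂ] H := (μ : ℂ) • R + (ν : ℂ) • ((2 : ℂ) • (1 : H →L[ℂ] H) - R) with hT
  have hTv : ∀ w, T w = (μ : ℂ) • R w + (ν : ℂ) • ((2 : ℂ) • w - R w) := fun w => rfl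
  set m : ℝ := 2 * min μ ν with hm
  have hm0 : 0 < m := by (clear * - hμ hν; positivity)
  have h1 : IsUnit T := by
    refine CStarAlgebra.isUnit_of_le ((m : ℂ) • (1 : H →L[ℂ] H)) ?_ ?_
    · rw [← sub_nonneg]
      refine nonneg_of_inner ?_ ?_
      · rw [hT]
        simp [star_sub, star_smul, hR]
      · intro v
        have e1 : (T - (m : ℂ) • (1 : H →L[ℂ] H)) v =
          (μ : ℂ) • R v + (ν : ℂ) • ((2 : ℂ) • v - R v) - (m : ℂ) • v := rfl
        have e2 : ⟪v, v⟫_ℂ = ((‖v‖ ^ 2 : ℝ) : ℂ) := by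
          rw [inner_self_eq_norm_sq_to_K]; norm_cast
        rw [e1, inner_sub_right, inner_add_right, inner_smul_right, inner_smul_right,
          inner_smul_right, inner_sub_right, inner_smul_right, e2, Complex.sub_re, Complex.add_re,
          Complex.re_ofReal_mul, Complex.re_ofReal_mul, Complex.re_ofReal_mul, Complex.sub_re]
        have e3 : ((2 : ℂ) * ((‖v‖ ^ 2 : ℝ) : ℂ)).re = 2 * ‖v‖ ^ 2 := by
          rw [show (2 : ℂ) = ((2 : ℝ) : ℂ) by norm_cast, Complex.re_ofReal_mul, Complex.ofReal_re]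
        rw [e3, Complex.ofReal_re]
        have a1 := hR0 v
        have a2 := hR2 v
        have a3 : min μ ν ≤ μ := min_le_left _ _
        have a4 : min μ ν ≤ ν := min_le_right _ _
        (clear * - a3 a1 a4 a2; nlinarith [mul_nonneg (sub_nonneg.2 a3) a1, mul_nonneg (sub_nonneg.2 a4) (sub_nonneg.2 a2)])
    · refine ⟨?_, ?_⟩
      · refine nonneg_of_inner ?_ ?_
        · simp [star_smul]
        · intro v
          have e2 : ⟪v, v⟫_ℂ = ((‖v‖ ^ 2 : ℝ) : ℂ) := by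
            rw [inner_self_eq_norm_sq_to_K]; norm_cast
          change 0 ≤ (⟪v, (m : ℂ) • v⟫_ℂ).re
          rw [inner_smul_right, e2, Complex.re_ofReal_mul, Complex.ofReal_re]
          (clear * - hμ hν; positivity)
      · have : (m : ℂ) ≠ 0 := by exact_mod_cast hm0.ne'
        have h3 := (isUnit_iff_ne_zero.2 this).map (algebraMap ℂ (H →L[ℂ] H))
        rwa [Algebra.algebraMap_eq_smul_one] at h3
  obtain ⟨U, hU⟩ := h1
  refine ⟨(↑U⁻¹ : H →L[ℂ] H) u, ?_⟩
  rw [← hTv, ← hU]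
  have := U.mul_inv
  exact congrArg (fun T : H →L[ℂ] H => T u) this

end Pool.Agent.Helper72

end

end

section

section

open scoped InnerProductSpace Topology

open ContinuousLinearMap Filter

namespace Pool.Agent.Helper23

universe u

variable {H : Type u} [NormedAddCommGroup H] [InnerProductSpace ℂ H] [CompleteSpace H]

variable {M N : VonNeumannAlgebra H} {ξ : H} {E : (H →L[ℂ] H) → (H →L[ℂ] H)}

/-- conjugates of `x` by unitaries of `N` of small defect -/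
def avG (N : VonNeumannAlgebra H) (ξ : H) (x : H →L[ℂ] H) (d : ℝ) : Set (H →L[ℂ] H) :=
  {z | ∃ u ∈ N, star u * u = 1 ∧ u * star u = 1 ∧ Defect N ξ 1 d u ∧ z = star u * x * u}

/-- convex hull of the conjugates -/
def avK (N : VonNeumannAlgebra H) (ξ : H) (x : H →L[ℂ] H) (d : ℝ) : Set (H →L[ℂ] H) :=
  convexHull ℝ (avG N ξ x d)

lemma avK_mono {x : H →L[ℂ] H} {d d' : ℝ} (h : d ≤ d') : avK N ξ x d ⊆ avK N ξ x d' := by
  refine convexHull_mono ?_
  rintro z ⟨u, hu, h1, h2, h3, rfl⟩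
  exact ⟨u, hu, h1, h2, h3.mono h, rfl⟩

lemma self_mem_avK {x : H →L[ℂ] H} {d : ℝ} (hd : 0 ≤ d) : x ∈ avK N ξ x d :=
  subset_convexHull _ _ ⟨1, one_mem N, by simp, by simp, Defect.one hd, by simp⟩

/-- minimal norm -/
noncomputable def avm (N : VonNeumannAlgebra H) (ξ : H) (x : H →L[ℂ] H) (d : ℝ) : ℝ :=
  sInf ((fun z : H →L[ℂ] H => ‖z ξ‖) '' avK N ξ x d)

lemma avm_bdd (x : H →L[ℂ] H) (d : ℝ) :
    BddBelow ((fun z : H →L[ℂ] H => ‖z ξ‖) '' avK N ξ x d) :=
  ⟨0, by rintro _ ⟨z, _, rfl⟩; exact norm_nonneg _⟩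

lemma avm_le {x z : H →L[ℂ] H} {d : ℝ} (hz : z ∈ avK N ξ x d) : avm N ξ x d ≤ ‖z ξ‖ :=
  csInf_le (avm_bdd x d) ⟨z, hz, rfl⟩

lemma avm_nonneg (x : H →L[ℂ] H) (d : ℝ) : 0 ≤ avm N ξ x d :=
  Real.sInf_nonneg (by rintro _ ⟨z, _, rfl⟩; exact norm_nonneg _)

lemma avm_exists {x : H →L[ℂ] H} {d : ℝ} (hd : 0 ≤ d) {ε : ℝ} (hε : 0 < ε) :
    ∃ z ∈ avK N ξ x d, ‖z ξ‖ < avm N ξ x d + ε := by
  have hne : ((fun z : H →L[ℂ] H => ‖z ξ‖) '' avK N ξ x d).Nonempty :=
    ⟨_, x, self_mem_avK hd, rfl⟩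
  obtain ⟨_, ⟨z, hz, rfl⟩, h⟩ := exists_lt_of_csInf_lt hne
    (lt_add_of_pos_right (avm N ξ x d) hε)
  exact ⟨z, hz, h⟩

lemma avm_anti {x : H →L[ℂ] H} {d d' : ℝ} (hd : 0 ≤ d) (h : d ≤ d') :
    avm N ξ x d' ≤ avm N ξ x d :=
  csInf_le_csInf (avm_bdd x d') ⟨_, x, self_mem_avK hd, rfl⟩ (Set.image_mono (avK_mono h))

lemma avK_par {x z z' : H →L[ℂ] H} {d : ℝ} (hz : z ∈ avK N ξ x d) (hz' : z' ∈ avK N ξ x d) :
    ‖z ξ - z' ξ‖ ^ 2 ≤ 2 * ‖z ξ‖ ^ 2 + 2 * ‖z' ξ‖ ^ 2 - 4 * avm N ξ x d ^ 2 := by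
  have hmid : (1 / 2 : ℝ) • z + (1 / 2 : ℝ) • z' ∈ avK N ξ x d :=
    convex_convexHull ℝ _ hz hz' (by norm_num) (by norm_num) (by norm_num)
  have h1 := avm_le (ξ := ξ) hmid
  have h2 : ((1 / 2 : ℝ) • z + (1 / 2 : ℝ) • z') ξ = (1 / 2 : ℝ) • (z ξ + z' ξ) := by
    change (1 / 2 : ℝ) • z ξ + (1 / 2 : ℝ) • z' ξ = _
    rw [smul_add]
  rw [h2, norm_smul, Real.norm_of_nonneg (by norm_num)] at h1
  have h3 := parallelogram_law_with_norm ℂ (z ξ) (z' ξ)
  have h4 := avm_nonneg (N := N) (ξ := ξ) x d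
  have h5 : avm N ξ x d ^ 2 ≤ (1 / 2 * ‖z ξ + z' ξ‖) ^ 2 := by gcongr
  nlinarith

lemma avK_half {x z : H →L[ℂ] H} {d : ℝ} (w w' : H) {c : ℝ}
    (h : ∀ u ∈ N, star u * u = 1 → u * star u = 1 → Defect N ξ 1 d u →
      c ≤ (⟪w, (star u * x * u) w'⟫_ℂ).re) (hz : z ∈ avK N ξ x d) :
    c ≤ (⟪w, z w'⟫_ℂ).re := by
  have hconv : Convex ℝ {z : H →L[ℂ] H | c ≤ (⟪w, z w'⟫_ℂ).re} := by
    intro a ha b hb s t hs ht hst
    change c ≤ (⟪w, (s • a + t • b) w'⟫_ℂ).re
    have e2 : (s • a + t • b) w' = (s : ℂ) • a w' + (t : ℂ) • b w' := by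
      change s • a w' + t • b w' = _
      rw [Complex.coe_smul, Complex.coe_smul]
    have ha' : c ≤ (⟪w, a w'⟫_ℂ).re := ha
    have hb' : c ≤ (⟪w, b w'⟫_ℂ).re := hb
    rw [e2, inner_add_right, inner_smul_right, inner_smul_right, Complex.add_re,
      Complex.re_ofReal_mul, Complex.re_ofReal_mul]
    calc c = s * c + t * c := by rw [← add_mul, hst, one_mul]
      _ ≤ _ := by (clear * - ha' hs hb' ht; gcongr)
  refine convexHull_min ?_ hconv hz
  rintro _ ⟨u, hu, g1, g2, g3, rfl⟩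
  exact h u hu g1 g2 g3

end Pool.Agent.Helper23

end

end

section

section

open scoped InnerProductSpace Topology BoundedContinuousFunction

open ContinuousLinearMap Filter

namespace Pool.Agent.Helper78.BC

variable {H : Type*} [NormedAddCommGroup H] [InnerProductSpace ℂ H] [CompleteSpace H]

variable {A : VonNeumannAlgebra H} {ξ : H} {J : H →L[ℝ] H}
  {Ψ : (ℝ →ᵇ ℂ) →⋆ₐ[ℂ] (H →L[ℂ] H)}

namespace FamPsi

/-- the relation paired with `ξ` -/
lemma rel_pair (h : Std A ξ J Ψ) {C : ℝ} {ζ : H} {z : ℝ → H}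
    (hz : LevFam A ξ J C ζ z) {l m : ℝ} (hl : 0 < l) (hl1 : l ≤ 1) (hm : 0 < m) (hm1 : m ≤ 1)
    {b : H →L[ℂ] H} (hb : b ∈ A) :
    ‖⟪b ξ, z l⟫_ℂ - ⟪J ((star b) ξ), z m⟫_ℂ‖ ≤
      C * ‖((Real.sqrt l : ℝ) : ℂ) • J ((star b) ξ) - ((Real.sqrt m : ℝ) : ℂ) • b ξ‖ := by
  have h1 := hz.rel l m hl hl1 hm hm1 (star b) (star_mem hb)
  have h2 : ‖((Real.sqrt l : ℝ) : ℂ) • (star b) ξ - ((Real.sqrt m : ℝ) : ℂ) • rm J (star b) ξ‖ =
      ‖((Real.sqrt l : ℝ) : ℂ) • J ((star b) ξ) - ((Real.sqrt m : ℝ) : ℂ) • b ξ‖ := by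
    rw [← h.J_norm, map_sub, h.J_conj, h.J_conj, rm, star_star, h.J_J, h.J_xi, Complex.conj_ofReal,
      Complex.conj_ofReal]
  rw [h2] at h1
  have h3 : ⟪b ξ, z l⟫_ℂ - ⟪J ((star b) ξ), z m⟫_ℂ =
      ⟪ξ, (star b) (z l) - rm J (star b) (z m)⟫_ℂ := by
    rw [inner_sub_right]
    congr 1
    · rw [ContinuousLinearMap.star_eq_adjoint, ContinuousLinearMap.adjoint_inner_right]
    · rw [rm, star_star]
      conv_rhs => rw [← h.J_xi, h.J_inner]
      conv_lhs => rw [← h.J_J (z m), h.J_inner, ContinuousLinearMap.star_eq_adjoint,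
        ContinuousLinearMap.adjoint_inner_right]
  rw [h3]
  refine (norm_inner_le_norm _ _).trans ?_
  rw [h.norm_one, one_mul]
  exact h1

end FamPsi

open FamPsi in
theorem fam_psi (h : Std A ξ J Ψ) {C : ℝ} (hC : 0 ≤ C) {ζ : H} {z : ℝ → H}
    (hz : LevFam A ξ J C ζ z) {l m : ℝ} (hl : 0 < l) (hl1 : l ≤ 1) (hm : 0 < m) (hm1 : m ≤ 1)
    {G G' : ℝ →ᵇ ℂ} (hG : HasCompactSupport G) (hreal : ∀ ρ, (G ρ).im = 0)
    (hG' : ∀ ρ, G' ρ = ((Real.exp (ρ / 2) : ℝ) : ℂ) * G ρ) {s : ℝ}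
    (hs : ∀ ρ, ‖G ρ‖ * |Real.sqrt l * Real.exp (ρ / 2) - Real.sqrt m| ≤ s) :
    ‖Ψ G (z l) - Ψ G' (z m)‖ ≤ C * s := by
  have hs0 : 0 ≤ s := (mul_nonneg (norm_nonneg _) (abs_nonneg _)).trans (hs 0)
  -- self-adjointness
  have sG : star G = G := by
    ext ρ
    simp only [BoundedContinuousFunction.star_apply]
    exact Complex.conj_eq_iff_im.2 (hreal ρ)
  have sG' : star G' = G' := by
    ext ρ
    simp only [BoundedContinuousFunction.star_apply]
    refine Complex.conj_eq_iff_im.2 ?_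
    rw [hG', Complex.im_ofReal_mul, hreal, mul_zero]
  have aG : ∀ u v : H, ⟪Ψ G u, v⟫_ℂ = ⟪u, Ψ G v⟫_ℂ := by
    intro u v
    have : Ψ G = star (Ψ G) := by rw [← map_star, sG]
    conv_rhs => rw [this, ContinuousLinearMap.star_eq_adjoint,
      ContinuousLinearMap.adjoint_inner_right]
  have aG' : ∀ u v : H, ⟪Ψ G' u, v⟫_ℂ = ⟪u, Ψ G' v⟫_ℂ := by
    intro u v
    have : Ψ G' = star (Ψ G') := by rw [← map_star, sG']
    conv_rhs => rw [this, ContinuousLinearMap.star_eq_adjoint,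
      ContinuousLinearMap.adjoint_inner_right]
  -- the combination
  have hF : ∀ θ : H, ‖((Real.sqrt l : ℝ) : ℂ) • Ψ G' θ - ((Real.sqrt m : ℝ) : ℂ) • Ψ G θ‖ ≤
      s * ‖θ‖ := by
    intro θ
    have e : ((Real.sqrt l : ℝ) : ℂ) • Ψ G' θ - ((Real.sqrt m : ℝ) : ℂ) • Ψ G θ =
        Ψ (((Real.sqrt l : ℝ) : ℂ) • G' - ((Real.sqrt m : ℝ) : ℂ) • G) θ := by
      rw [map_sub, map_smul, map_smul]
      rfl
    rw [e]
    refine (ContinuousLinearMap.le_opNorm _ _).trans ?_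
    refine mul_le_mul_of_nonneg_right ((norm_psi_le Ψ _).trans ?_) (norm_nonneg _)
    refine (BoundedContinuousFunction.norm_le hs0).2 fun ρ => ?_
    have : ((((Real.sqrt l : ℝ) : ℂ) • G' - ((Real.sqrt m : ℝ) : ℂ) • G : ℝ →ᵇ ℂ)) ρ =
        G ρ * ((Real.sqrt l * Real.exp (ρ / 2) - Real.sqrt m : ℝ) : ℂ) := by
      simp only [BoundedContinuousFunction.coe_sub, BoundedContinuousFunction.coe_smul,
        Pi.sub_apply, smul_eq_mul, hG']
      push_cast
      ring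
    rw [this, norm_mul, Complex.norm_real, Real.norm_eq_abs]
    exact hs ρ
  -- the estimate for every `θ`
  have key : ∀ θ : H, ‖⟪Ψ G θ, z l⟫_ℂ - ⟪Ψ G' θ, z m⟫_ℂ‖ ≤ C * (s * ‖θ‖) := by
    intro θ
    refine le_of_forall_pos_le_add fun δ hδ => ?_
    set K : ℝ := ‖z l‖ + ‖z m‖ + C * (Real.sqrt l + Real.sqrt m) + 1 with hK
    have hK0 : 0 < K := by (clear * - hC hl hm; positivity)
    obtain ⟨b, hb, h1, h2⟩ := h.core G G' hG hG' θ (δ / K) (by (clear * - hδ hC hl hm; positivity))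
    have h3 := rel_pair h hz hl hl1 hm hm1 hb
    set ε := δ / K with hε
    have hε0 : 0 < ε := by (clear * - hδ hC hl hm; positivity)
    have h4 : ‖⟪Ψ G θ - b ξ, z l⟫_ℂ‖ ≤ ε * ‖z l‖ := by
      refine (norm_inner_le_norm _ _).trans ?_
      rw [norm_sub_rev]
      exact mul_le_mul_of_nonneg_right h1 (norm_nonneg _)
    have h5 : ‖⟪Ψ G' θ - J ((star b) ξ), z m⟫_ℂ‖ ≤ ε * ‖z m‖ := by
      refine (norm_inner_le_norm _ _).trans ?_
      rw [norm_sub_rev]
      exact mul_le_mul_of_nonneg_right h2 (norm_nonneg _)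
    have h6 : ‖((Real.sqrt l : ℝ) : ℂ) • J ((star b) ξ) - ((Real.sqrt m : ℝ) : ℂ) • b ξ‖ ≤
        s * ‖θ‖ + ε * (Real.sqrt l + Real.sqrt m) := by
      have e : ((Real.sqrt l : ℝ) : ℂ) • J ((star b) ξ) - ((Real.sqrt m : ℝ) : ℂ) • b ξ =
          (((Real.sqrt l : ℝ) : ℂ) • Ψ G' θ - ((Real.sqrt m : ℝ) : ℂ) • Ψ G θ) +
          (((Real.sqrt l : ℝ) : ℂ) • (J ((star b) ξ) - Ψ G' θ) -
            ((Real.sqrt m : ℝ) : ℂ) • (b ξ - Ψ G θ)) := by
        simp only [smul_sub]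
        abel
      rw [e]
      refine (norm_add_le _ _).trans (add_le_add (hF θ) ?_)
      refine (norm_sub_le _ _).trans ?_
      rw [norm_smul, norm_smul, Complex.norm_real, Complex.norm_real, Real.norm_eq_abs,
        Real.norm_eq_abs, abs_of_nonneg (Real.sqrt_nonneg _), abs_of_nonneg (Real.sqrt_nonneg _)]
      have a1 := mul_le_mul_of_nonneg_left h2 (Real.sqrt_nonneg l)
      have a2 := mul_le_mul_of_nonneg_left h1 (Real.sqrt_nonneg m)
      (clear * - a1 a2; linarith)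
    have e : ⟪Ψ G θ, z l⟫_ℂ - ⟪Ψ G' θ, z m⟫_ℂ =
        (⟪b ξ, z l⟫_ℂ - ⟪J ((star b) ξ), z m⟫_ℂ) +
        (⟪Ψ G θ - b ξ, z l⟫_ℂ - ⟪Ψ G' θ - J ((star b) ξ), z m⟫_ℂ) := by
      rw [inner_sub_left, inner_sub_left]
      ring
    rw [e]
    have h7 : ‖⟪Ψ G θ - b ξ, z l⟫_ℂ - ⟪Ψ G' θ - J ((star b) ξ), z m⟫_ℂ‖ ≤
        ε * ‖z l‖ + ε * ‖z m‖ := (norm_sub_le _ _).trans (add_le_add h4 h5)
    have h8 : C * ‖((Real.sqrt l : ℝ) : ℂ) • J ((star b) ξ) - ((Real.sqrt m : ℝ) : ℂ) • b ξ‖ ≤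
        C * (s * ‖θ‖ + ε * (Real.sqrt l + Real.sqrt m)) := mul_le_mul_of_nonneg_left h6 hC
    have h9 : ε * K = δ := by rw [hε]; (clear * - hK0 hδ; field_simp)
    have h10 : ε * ‖z l‖ + ε * ‖z m‖ + C * (ε * (Real.sqrt l + Real.sqrt m)) ≤ δ := by
      rw [← h9, hK]
      (clear * - hε0; nlinarith)
    calc _ ≤ ‖⟪b ξ, z l⟫_ℂ - ⟪J ((star b) ξ), z m⟫_ℂ‖ +
          ‖⟪Ψ G θ - b ξ, z l⟫_ℂ - ⟪Ψ G' θ - J ((star b) ξ), z m⟫_ℂ‖ := norm_add_le _ _
      _ ≤ C * (s * ‖θ‖ + ε * (Real.sqrt l + Real.sqrt m)) + (ε * ‖z l‖ + ε * ‖z m‖) :=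
          add_le_add (h3.trans h8) h7
      _ ≤ C * (s * ‖θ‖) + δ := by
          rw [mul_add]
          (clear * - hε0 h9; linarith)
  -- conclusion
  set θ := Ψ G (z l) - Ψ G' (z m) with hθ
  have h1 := key θ
  rw [aG, aG', ← inner_sub_right, ← hθ, inner_self_eq_norm_sq_to_K, norm_pow] at h1
  simp only [RCLike.ofReal_eq_complex_ofReal, Complex.norm_real, norm_norm] at h1
  rcases eq_or_lt_of_le (norm_nonneg θ) with h0 | h0
  · rw [← h0]
    (clear * - hC hs0; positivity)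
  · have : ‖θ‖ * ‖θ‖ ≤ C * s * ‖θ‖ := by (clear * - h1; nlinarith)
    exact le_of_mul_le_mul_right this h0

end Pool.Agent.Helper78.BC

end

end

section

section

open scoped InnerProductSpace Topology BoundedContinuousFunction

open ContinuousLinearMap Filter MeasureTheory

namespace Pool.Agent.Helper43.TTF

open Pool.Agent.Helper23

variable {H : Type*} [NormedAddCommGroup H] [InnerProductSpace ℂ H] [CompleteSpace H]

lemma fr_coe (ρ : ℝ) : ((FR - 1 : ℝ →ᵇ ℂ)) ρ = (fr ρ : ℂ) := by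
  rw [BoundedContinuousFunction.sub_apply, FR_apply, one_bcf]
  unfold fr
  push_cast
  ring

lemma hB_mul (n : ℕ) (ρ : ℝ) : (hB n * (FR - 1) : ℝ →ᵇ ℂ) ρ =
    ((fr ρ ^ 2 / (fr ρ ^ 2 + 1 / ((n : ℝ) + 1)) : ℝ) : ℂ) := by
  rw [BoundedContinuousFunction.mul_apply, fr_coe, hB_apply, ← Complex.ofReal_mul]
  congr 1
  ring

lemma tendsto_hB (G : ℝ →ᵇ ℂ) (hG : G 0 = 0) (L : ℝ) :
    TendstoUniformlyOn (fun n ρ => (G * (hB n * (FR - 1)) : ℝ →ᵇ ℂ) ρ) (fun ρ => G ρ) atTop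
      (Set.Icc (-L) L) := by
  rw [Metric.tendstoUniformlyOn_iff]
  intro ε hε
  -- near 0
  have hc : Tendsto G (𝓝 0) (𝓝 (G 0)) := G.continuous.continuousAt
  rw [hG, Metric.tendsto_nhds_nhds] at hc
  obtain ⟨δ, hδ, hδ'⟩ := hc ε hε
  have hd : 0 < fr δ ^ 2 := by
    have := fr_pos_lt hδ
    (clear * - this; nlinarith)
  obtain ⟨m, hm⟩ := exists_nat_gt (‖G‖ / (ε * fr δ ^ 2))
  filter_upwards [eventually_ge_atTop m] with n hn ρ _
  rw [BoundedContinuousFunction.mul_apply, hB_mul, dist_eq_norm]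
  set q : ℝ := fr ρ ^ 2 + 1 / ((n : ℝ) + 1) with hq
  have hqpos : 0 < q := by (clear * -; positivity)
  have h1 : G ρ - G ρ * ((fr ρ ^ 2 / q : ℝ) : ℂ) =
      G ρ * (((1 / ((n : ℝ) + 1)) / q : ℝ) : ℂ) := by
    have h2 : ((1 / ((n : ℝ) + 1)) / q : ℝ) = 1 - fr ρ ^ 2 / q := by
      rw [eq_sub_iff_add_eq, ← add_div, div_eq_one_iff_eq hqpos.ne', hq]
      ring
    rw [h2]
    push_cast
    ring
  rw [h1, norm_mul, Complex.norm_real, Real.norm_of_nonneg (by (clear * -; positivity))]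
  have hle : (1 / ((n : ℝ) + 1)) / q ≤ 1 := by
    rw [div_le_one hqpos, hq]
    have := sq_nonneg (fr ρ)
    (clear * - this; linarith)
  by_cases hρ : |ρ| < δ
  · have h3 := hδ' (x := ρ) (by rw [dist_zero_right]; exact hρ)
    rw [dist_zero_right] at h3
    calc ‖G ρ‖ * ((1 / ((n : ℝ) + 1)) / q) ≤ ‖G ρ‖ * 1 := by gcongr
      _ < ε := by rw [mul_one]; exact h3
  · push Not at hρ
    have h4 := fr_sq_ge hδ hρ
    have h5 : ‖G ρ‖ ≤ ‖G‖ := G.norm_coe_le_norm ρ
    have h6 : (1 / ((n : ℝ) + 1)) / q ≤ (1 / ((n : ℝ) + 1)) / fr δ ^ 2 := by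
      apply div_le_div_of_nonneg_left (by (clear * -; positivity)) hd
      rw [hq]
      have : 0 < 1 / ((n : ℝ) + 1) := by (clear * -; positivity)
      (clear * - h4 this; linarith)
    have h7 : ‖G‖ / (ε * fr δ ^ 2) < (n : ℝ) + 1 := by
      have : (m : ℝ) ≤ n := by exact_mod_cast hn
      (clear * - hm this; linarith)
    rw [div_lt_iff₀ (by (clear * - hε hd; positivity))] at h7
    calc ‖G ρ‖ * ((1 / ((n : ℝ) + 1)) / q) ≤ ‖G‖ * ((1 / ((n : ℝ) + 1)) / fr δ ^ 2) := by (clear * - h5 h6; gcongr)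
      _ = ‖G‖ / (((n : ℝ) + 1) * fr δ ^ 2) := by (clear * -; field_simp)
      _ < ε := by
        rw [div_lt_iff₀ (by (clear * - hd; positivity))]
        (clear * - h7; linarith)

end Pool.Agent.Helper43.TTF

end

section

open scoped InnerProductSpace Topology BoundedContinuousFunction

open ContinuousLinearMap Filter MeasureTheory

set_option linter.unusedSectionVars false

namespace Pool.Agent.Helper23

universe u

variable {H : Type u} [NormedAddCommGroup H] [InnerProductSpace ℂ H] [CompleteSpace H]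

variable {M N : VonNeumannAlgebra H} {ξ : H} {E : (H →L[ℂ] H) → (H →L[ℂ] H)}

lemma expB_dom_gen (t : ℝ) {l : ℝ} (hl : 0 < l) (ρ : ℝ) :
    ‖(expB t - (expB t (-Real.log l)) • (1 : ℝ →ᵇ ℂ)) ρ‖ ≤
      ((3 * |t| + 6) / (2 * min 1 l)) *
        ‖(((2 * l : ℝ) : ℂ) • (1 : ℝ →ᵇ ℂ) - ((1 + l : ℝ) : ℂ) • FR) ρ‖ := by
  set σ : ℝ := ρ + Real.log l with hσ
  have hexp : Real.exp σ = Real.exp ρ * l := by
    rw [hσ, Real.exp_add, Real.exp_log hl]
  have hm : 0 < min 1 l := lt_min one_pos hl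
  have e1 : (expB t - (expB t (-Real.log l)) • (1 : ℝ →ᵇ ℂ)) ρ =
      expB t (-Real.log l) * (expB t - 1) σ := by
    rw [BoundedContinuousFunction.sub_apply, BoundedContinuousFunction.smul_apply,
      BoundedContinuousFunction.sub_apply, BoundedContinuousFunction.coe_one, Pi.one_apply,
      Pi.one_apply, smul_eq_mul, mul_one, mul_sub, mul_one, expB_apply, expB_apply, expB_apply,
      ← Complex.exp_add]
    congr 2
    rw [hσ]
    push_cast
    ring
  rw [e1, norm_mul, expB_norm_apply, one_mul]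
  refine (expB_dom t σ).trans ?_
  have e2 : (((2 * l : ℝ) : ℂ) • (1 : ℝ →ᵇ ℂ) - ((1 + l : ℝ) : ℂ) • FR) ρ =
      ((2 * (Real.exp σ - 1) / (1 + Real.exp ρ) : ℝ) : ℂ) := by
    rw [BoundedContinuousFunction.sub_apply, BoundedContinuousFunction.smul_apply,
      BoundedContinuousFunction.smul_apply, BoundedContinuousFunction.coe_one, Pi.one_apply,
      FR_apply, smul_eq_mul, smul_eq_mul, mul_one, ← Complex.ofReal_mul, ← Complex.ofReal_sub,
      hexp]
    congr 1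
    have h1 : (1 + Real.exp ρ) ≠ 0 := by positivity
    field_simp
    ring
  have e3 : (FR - 1) σ = (((1 - Real.exp σ) / (1 + Real.exp σ) : ℝ) : ℂ) := by
    rw [BoundedContinuousFunction.sub_apply, FR_apply, BoundedContinuousFunction.coe_one,
      Pi.one_apply, ← Complex.ofReal_one, ← Complex.ofReal_sub]
    congr 1
    have h1 : (1 + Real.exp σ) ≠ 0 := by positivity
    field_simp
    ring
  rw [e2, e3, Complex.norm_real, Complex.norm_real, Real.norm_eq_abs, Real.norm_eq_abs, abs_div,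
    abs_div, abs_of_pos (by positivity : 0 < 1 + Real.exp σ),
    abs_of_pos (by positivity : 0 < 1 + Real.exp ρ), abs_mul, abs_two, abs_sub_comm 1]
  have e4 : |Real.exp σ - 1| / (1 + Real.exp σ) ≤
      (1 / min 1 l) * (|Real.exp σ - 1| / (1 + Real.exp ρ)) := by
    rw [one_div, ← mul_div_assoc, div_le_div_iff₀ (by positivity) (by positivity)]
    have h1 : min 1 l * (1 + Real.exp ρ) ≤ 1 + Real.exp σ := by
      rw [hexp]
      have h2 : min 1 l * 1 ≤ 1 * 1 := by gcongr; exact min_le_left _ _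
      have h3 : min 1 l * Real.exp ρ ≤ l * Real.exp ρ := by gcongr; exact min_le_right _ _
      (clear * - h2 h3; linarith)
    have h2 : 1 + Real.exp ρ ≤ (min 1 l)⁻¹ * (1 + Real.exp σ) := by
      rw [inv_mul_eq_div, le_div_iff₀ hm]
      (clear * - h1; linarith)
    calc |Real.exp σ - 1| * (1 + Real.exp ρ) ≤ |Real.exp σ - 1| *
          ((min 1 l)⁻¹ * (1 + Real.exp σ)) := mul_le_mul_of_nonneg_left h2 (abs_nonneg _)
      _ = _ := by ring
  calc (3 * |t| + 6) * (|Real.exp σ - 1| / (1 + Real.exp σ)) ≤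
        (3 * |t| + 6) * ((1 / min 1 l) * (|Real.exp σ - 1| / (1 + Real.exp ρ))) :=
        mul_le_mul_of_nonneg_left e4 (by (clear * -; positivity))
    _ = _ := by
        field_simp

end Pool.Agent.Helper23

end

section

open scoped InnerProductSpace Topology ENNReal

open ContinuousLinearMap Filter MeasureTheory

set_option linter.unusedSectionVars false

set_option linter.unusedVariables false

namespace Pool.Agent.Helper23

/-- the corresponding element of `L²` -/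
noncomputable def f0 : L2R ℂ := w0_memLp.toLp w0

lemma f0_coe : f0 =ᵐ[volume] w0 := w0_memLp.coeFn_toLp

/-- bounded multiples of `f0` are total -/
lemma eq_zero_of_f0 {g : L2R ℂ} (h : ∀ m : ℝ → ℂ, BM m → ⟪mulOp ℂ m f0, g⟫_ℂ = 0) : g = 0 := by
  set g' : ℝ → ℂ := fun s => g s with hg'
  have hgm : Measurable g' := (Lp.stronglyMeasurable g).measurable
  set m : ℝ → ℂ := fun s => g' s / (1 + ‖g' s‖) with hm
  have hmb : BM m := by
    refine ⟨hgm.div (measurable_const.add (Complex.measurable_ofReal.comp hgm.norm)), 1,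
      zero_le_one, fun s => ?_⟩
    rw [hm]
    simp only
    have h1 : ‖(1 : ℂ) + (‖g' s‖ : ℂ)‖ = 1 + ‖g' s‖ := by
      rw [← Complex.ofReal_one, ← Complex.ofReal_add, Complex.norm_real,
        Real.norm_of_nonneg (by (clear * -; positivity))]
    rw [norm_div, h1, div_le_one (by (clear * -; positivity))]
    (clear * -; linarith [norm_nonneg (g' s)])
  have h1 := h m hmb
  rw [L2.inner_def] at h1
  have h2 : ∫ s, ⟪(mulOp ℂ m f0) s, g s⟫_ℂ =
      ((∫ s, (1 + s ^ 2)⁻¹ * (‖g' s‖ ^ 2 / (1 + ‖g' s‖)) : ℝ) : ℂ) := by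
    rw [← integral_complex_ofReal]
    refine integral_congr_ae ?_
    filter_upwards [mulOp_coe hmb f0, f0_coe] with s e1 e2
    rw [e1, e2, w0, hm]
    simp only [RCLike.inner_apply, smul_eq_mul, map_mul, map_div₀, map_add, map_one,
      Complex.conj_ofReal]
    have e3 : (starRingEnd ℂ) (g' s) * g s = ((‖g' s‖ ^ 2 : ℝ) : ℂ) := by
      rw [hg', RCLike.conj_mul]
      norm_cast
    have e4 : (1 : ℂ) + (‖g' s‖ : ℂ) ≠ 0 := by
      rw [← Complex.ofReal_one, ← Complex.ofReal_add]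
      exact Complex.ofReal_ne_zero.2 (by (clear * -; positivity))
    push_cast
    push_cast at e3
    field_simp
    rw [← e3]
    ring
  rw [h2] at h1
  have h3 : ∫ s, (1 + s ^ 2)⁻¹ * (‖g' s‖ ^ 2 / (1 + ‖g' s‖)) = 0 := by exact_mod_cast h1
  have hint : Integrable (fun s => (1 + s ^ 2)⁻¹ * (‖g' s‖ ^ 2 / (1 + ‖g' s‖))) := by
    have hsq : Integrable (fun s => ‖g' s‖ ^ 2) :=
      (Lp.memLp g).integrable_norm_pow two_ne_zero
    refine Integrable.mono hsq ?_ (Eventually.of_forall fun s => ?_)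
    · have hmeas : Measurable (fun s => (1 + s ^ 2)⁻¹ * (‖g' s‖ ^ 2 / (1 + ‖g' s‖))) := by
        have e1 : Measurable fun s => ‖g' s‖ := hgm.norm
        fun_prop
      exact hmeas.aestronglyMeasurable
    · rw [Real.norm_of_nonneg (by (clear * -; positivity)), Real.norm_of_nonneg (by (clear * -; positivity))]
      have e1 : (1 + s ^ 2)⁻¹ ≤ 1 := inv_le_one_of_one_le₀ (by (clear * -; nlinarith [sq_nonneg s]))
      have e2 : ‖g' s‖ ^ 2 / (1 + ‖g' s‖) ≤ ‖g' s‖ ^ 2 :=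
        div_le_self (by (clear * -; positivity)) (by (clear * -; linarith [norm_nonneg (g' s)]))
      calc (1 + s ^ 2)⁻¹ * (‖g' s‖ ^ 2 / (1 + ‖g' s‖)) ≤ 1 * ‖g' s‖ ^ 2 := by (clear * - e1 e2; gcongr)
        _ = _ := one_mul _
  rw [integral_eq_zero_iff_of_nonneg (fun s => by (clear * -; positivity)) hint] at h3
  ext1
  filter_upwards [h3, Lp.coeFn_zero ℂ 2 volume] with s e1 e2
  rw [e2]
  have e1' : (1 + s ^ 2)⁻¹ * (‖g' s‖ ^ 2 / (1 + ‖g' s‖)) = 0 := e1
  have e3 : (0 : ℝ) < (1 + s ^ 2)⁻¹ := by (clear * -; positivity)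
  have e4 : ‖g' s‖ ^ 2 / (1 + ‖g' s‖) = 0 := by
    rcases mul_eq_zero.1 e1' with h | h
    · exact absurd h e3.ne'
    · exact h
  have e5 : ‖g' s‖ ^ 2 = 0 := by
    rcases div_eq_zero_iff.1 e4 with h | h
    · exact h
    · have : (0 : ℝ) < 1 + ‖g' s‖ := by (clear * -; positivity)
      exact absurd h this.ne'
  exact norm_eq_zero.1 (pow_eq_zero_iff two_ne_zero |>.1 e5)

end Pool.Agent.Helper23

end

section

open scoped InnerProductSpace Topology BoundedContinuousFunction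

open ContinuousLinearMap Filter MeasureTheory

namespace Pool.Agent.Helper88.CS

open Pool.Agent.Helper23

open Pool.Agent.Helper78.BC (rm)

variable {H : Type*} [NormedAddCommGroup H] [InnerProductSpace ℂ H] [CompleteSpace H]

variable {A : VonNeumannAlgebra H} {ξ : H} {J : H →L[ℝ] H}
  {Ψ : (ℝ →ᵇ ℂ) →⋆ₐ[ℂ] (H →L[ℂ] H)} {R : H →L[ℂ] H} {D : H →L[ℝ] H}

namespace HullAux

open Pool.Agent.Helper70.U8 (U V)

/-- the closed span of the ranges -/
noncomputable def sp (Ψ : (ℝ →ᵇ ℂ) →⋆ₐ[ℂ] (H →L[ℂ] H)) (x : H →L[ℂ] H) : Submodule ℂ H :=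
  (Submodule.span ℂ {v | ∃ (t : ℝ) (w : H), v = U Ψ t ((star x) (V Ψ t w))}).topologicalClosure

theorem gen_mem (x : H →L[ℂ] H) (t : ℝ) (w : H) : U Ψ t ((star x) (V Ψ t w)) ∈ sp Ψ x :=
  Submodule.le_topologicalClosure _ (Submodule.subset_span ⟨t, w, rfl⟩)

/-- closed subspaces are tested on the generators -/
theorem sp_le {x : H →L[ℂ] H} {N : Submodule ℂ H} (hN : IsClosed (N : Set H))
    (h : ∀ (t : ℝ) (w : H), U Ψ t ((star x) (V Ψ t w)) ∈ N) : sp Ψ x ≤ N := by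
  refine Submodule.topologicalClosure_minimal _ (Submodule.span_le.2 ?_) hN
  rintro v ⟨t, w, rfl⟩
  exact h t w

/-- invariance is tested on the generators -/
theorem sp_inv {x b : H →L[ℂ] H}
    (h : ∀ (t : ℝ) (w : H), b (U Ψ t ((star x) (V Ψ t w))) ∈ sp Ψ x) :
    ∀ v ∈ sp Ψ x, b v ∈ sp Ψ x := by
  intro v hv
  have hcl : IsClosed (((sp Ψ x).comap (b : H →ₗ[ℂ] H) : Submodule ℂ H) : Set H) := by
    have : (((sp Ψ x).comap (b : H →ₗ[ℂ] H) : Submodule ℂ H) : Set H) = b ⁻¹' (sp Ψ x : Set H) :=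
      rfl
    rw [this]
    exact (Submodule.isClosed_topologicalClosure _).preimage b.continuous
  have h2 := sp_le (Ψ := Ψ) (x := x) hcl h
  exact h2 hv

end HullAux

end Pool.Agent.Helper88.CS

end

end

section

section

open scoped InnerProductSpace Topology ENNReal

open ContinuousLinearMap Filter MeasureTheory

set_option linter.unusedSectionVars false

set_option linter.unusedVariables false

namespace Pool.Agent.Helper23

lemma quot_bm (t : ℝ) : BM (fun s => w0 (s - t) / w0 s) := by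
  refine ⟨?_, 2 * (1 + t ^ 2), by (clear * -; positivity), fun s => ?_⟩
  · exact ((w0_cont.comp (continuous_id.sub continuous_const)).measurable).div
      w0_cont.measurable
  · rw [norm_div, w0_norm, w0_norm, div_eq_mul_inv, inv_inv, inv_mul_le_iff₀ (by positivity)]
    (clear * -; nlinarith [sq_nonneg (s - t), sq_nonneg s, sq_nonneg t, sq_nonneg (s - 2 * t),
      sq_nonneg ((s - t) * t), mul_nonneg (sq_nonneg (s - t)) (sq_nonneg t)])

end Pool.Agent.Helper23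

end

end

section

section

open scoped InnerProductSpace Topology BoundedContinuousFunction

open ContinuousLinearMap Filter MeasureTheory

namespace Pool.Agent.Helper43.TTF

open Pool.Agent.Helper23

variable {H : Type*} [NormedAddCommGroup H] [InnerProductSpace ℂ H] [CompleteSpace H]

variable {R : H →L[ℂ] H} {D : H →L[ℝ] H} {Ψ : (ℝ →ᵇ ℂ) →⋆ₐ[ℂ] (H →L[ℂ] H)}

lemma FC.psi_xi (h : FC R D Ψ) {ξ : H} (hξ : R ξ = ξ) (G : ℝ →ᵇ ℂ) : Ψ G ξ = G 0 • ξ := by
  set G' : ℝ →ᵇ ℂ := G - (G 0) • 1 with hG'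
  have h0 : G' 0 = 0 := by
    rw [hG', BoundedContinuousFunction.sub_apply, BoundedContinuousFunction.smul_apply,
      one_bcf, smul_eq_mul, mul_one, sub_self]
  have h1 := h.psi_cont (fun n => G' * (hB n * (FR - 1))) G' ‖G'‖ ?_ (tendsto_hB G' h0) ξ
  · have h2 : ∀ n, Ψ (G' * (hB n * (FR - 1))) ξ = 0 := by
      intro n
      have h3 : Ψ (FR - 1) ξ = 0 := by
        rw [map_sub, map_one, h.psi_FR, sub_apply, one_apply_eq_self, hξ, sub_self]
      rw [map_mul, map_mul, mul_apply_eq_comp, mul_apply_eq_comp, h3, map_zero, map_zero]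
    simp only [h2] at h1
    have h3 := tendsto_nhds_unique h1 tendsto_const_nhds
    rw [hG', map_sub, map_smul, map_one, sub_apply, smul_apply, one_apply_eq_self] at h3
    exact sub_eq_zero.1 h3
  · intro n
    rw [BoundedContinuousFunction.norm_le (norm_nonneg _)]
    intro ρ
    rw [BoundedContinuousFunction.mul_apply, hB_mul, norm_mul, Complex.norm_real,
      Real.norm_of_nonneg (by (clear * -; positivity))]
    have hle : fr ρ ^ 2 / (fr ρ ^ 2 + 1 / ((n : ℝ) + 1)) ≤ 1 := by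
      rw [div_le_one (by (clear * -; positivity))]
      have : 0 < 1 / ((n : ℝ) + 1) := by (clear * -; positivity)
      (clear * - this; linarith)
    calc ‖G' ρ‖ * (fr ρ ^ 2 / (fr ρ ^ 2 + 1 / ((n : ℝ) + 1))) ≤ ‖G'‖ * 1 := by
          gcongr
          exact G'.norm_coe_le_norm ρ
      _ = ‖G'‖ := mul_one _

end Pool.Agent.Helper43.TTF

end

end

section

section

open scoped InnerProductSpace Topology ENNReal

open ContinuousLinearMap Filter MeasureTheory

set_option linter.unusedSectionVars false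

set_option linter.unusedVariables false

namespace Pool.Agent.Helper23

variable {H : Type*} [NormedAddCommGroup H] [InnerProductSpace ℂ H] [CompleteSpace H]

variable {M N : VonNeumannAlgebra H} {ξ : H} {E : (H →L[ℂ] H) → (H →L[ℂ] H)}

/-- a unit vector of `L²(ℝ)` -/
noncomputable def e0 : L2R ℂ :=
  indicatorConstLp 2 (measurableSet_Ico (a := (0 : ℝ)) (b := 1)) (by simp) (1 : ℂ)

lemma e0_norm : ‖e0‖ = 1 := by
  rw [e0, norm_indicatorConstLp (by norm_num) (by norm_num)]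
  simp

end Pool.Agent.Helper23

end

section

open scoped InnerProductSpace Topology ENNReal

open ContinuousLinearMap Filter MeasureTheory

set_option linter.unusedSectionVars false

set_option linter.unusedVariables false

namespace Pool.Agent.Helper23

variable {H : Type*} [NormedAddCommGroup H] [InnerProductSpace ℂ H] [CompleteSpace H]

variable {M N : VonNeumannAlgebra H} {ξ : H} {E : (H →L[ℂ] H) → (H →L[ℂ] H)}

lemma hw_countable : Countable hw := by
  have : Fact ((2 : ℝ≥0∞) ≠ ⊤) := ⟨by norm_num⟩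
  have hsc : SecondCountableTopology (L2R ℂ) := inferInstance
  have hsep : TopologicalSpace.SeparableSpace (L2R ℂ) := inferInstance
  refine Pairwise.countable_of_isOpen_disjoint
    (s := fun i : hw => Metric.ball (hb i : L2R ℂ) (1 / 2)) ?_ (fun i => Metric.isOpen_ball)
    (fun i => ⟨hb i, Metric.mem_ball_self (by norm_num)⟩)
  intro i j hij
  refine Set.disjoint_left.2 fun x hx hy => ?_
  rw [Metric.mem_ball] at hx hy
  have h1 : dist (hb i : L2R ℂ) (hb j) < 1 := by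
    calc dist (hb i : L2R ℂ) (hb j) ≤ dist (hb i : L2R ℂ) x + dist x (hb j) := dist_triangle _ _ _
      _ = dist x (hb i : L2R ℂ) + dist x (hb j) := by rw [dist_comm]
      _ < 1 := by linarith
  have h2 : ‖(hb i : L2R ℂ) - hb j‖ ^ 2 = 2 := by
    have h4 := @norm_sub_sq ℂ (L2R ℂ) _ _ _ (hb i) (hb j)
    rw [hb.orthonormal.2 hij, hb.orthonormal.1 i, hb.orthonormal.1 j] at h4
    rw [h4]
    simp
    norm_num
  rw [dist_eq_norm] at h1
  (clear * - h1 h2; nlinarith [norm_nonneg ((hb i : L2R ℂ) - hb j)])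

lemma hb_total {F : L2R ℂ} (h : ∀ i : hw, ⟪(hb i : L2R ℂ), F⟫_ℂ = 0) : F = 0 := by
  have h1 : hb.repr F = 0 := by
    ext i
    rw [hb.repr_apply_apply]
    exact h i
  exact (map_eq_zero_iff _ hb.repr.injective).1 h1

/-- an isometry `L²(ℝ; H) → H` commuting with `N'` from a sequence of isometries of `N` -/
theorem exists_J {s : hw → H →L[ℂ] H} (hsN : ∀ i, s i ∈ N)
    (hs : ∀ i, star (s i) * s i = 1) (hs' : ∀ i j, i ≠ j → star (s i) * s j = 0) :
    ∃ J : L2R H →L[ℂ] H, (∀ x y, ⟪J x, J y⟫_ℂ = ⟪x, y⟫_ℂ) ∧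
      ∀ a ∈ N.commutant, ∀ x, J (lift a x) = a (J x) := by
  classical
  set e : (hw →₀ H) →ₗ[ℂ] L2R H := Finsupp.lsum ℂ fun i => (iot H (hb i)).toLinearMap with he
  set f : (hw →₀ H) →ₗ[ℂ] H := Finsupp.lsum ℂ fun i => (s i).toLinearMap with hf
  have he1 : ∀ c : hw →₀ H, e c = ∑ i ∈ c.support, ten (hb i) (c i) := fun c => by
    rw [he, Finsupp.lsum_apply]; rfl
  have hf1 : ∀ c : hw →₀ H, f c = ∑ i ∈ c.support, s i (c i) := fun c => by
    rw [hf, Finsupp.lsum_apply]; rfl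
  have hin : ∀ c d : hw →₀ H, ⟪f c, f d⟫_ℂ = ⟪e c, e d⟫_ℂ := by
    intro c d
    rw [he1, he1, hf1, hf1, sum_inner, sum_inner]
    refine Finset.sum_congr rfl fun i _ => ?_
    rw [inner_sum, inner_sum]
    refine Finset.sum_congr rfl fun j _ => ?_
    rw [inner_ten, ← inner_star_right]
    change ⟪c i, (star (s i) * s j) (d j)⟫_ℂ = _
    by_cases hij : i = j
    · subst hij
      rw [hs, inner_self_eq_norm_sq_to_K (𝕜 := ℂ) (hb i), hb.orthonormal.1 i]
      simp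
    · rw [hs' i j hij, hb.orthonormal.2 hij, zero_mul]
      exact inner_zero_right _
  have hnorm : ∀ c, ‖f c‖ = ‖e c‖ := by
    intro c
    have h1 := hin c c
    rw [inner_self_eq_norm_sq_to_K, inner_self_eq_norm_sq_to_K] at h1
    have h2 : ‖f c‖ ^ 2 = ‖e c‖ ^ 2 := by exact_mod_cast h1
    exact (pow_left_inj₀ (norm_nonneg _) (norm_nonneg _) two_ne_zero).1 h2
  have hes : ∀ i η, e (Finsupp.single i η) = ten (hb i) η := by
    intro i η
    rw [he, Finsupp.lsum_single]; rfl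
  have hfs : ∀ i η, f (Finsupp.single i η) = s i η := by
    intro i η
    rw [hf, Finsupp.lsum_single]; rfl
  have hd : DenseRange e := by
    have h1 : (LinearMap.range e)ᗮ = ⊥ := by
      rw [Submodule.eq_bot_iff]
      intro F hF
      refine eq_zero_of_ten fun g η => ?_
      have h2 : (adjoint (axi η)) F = 0 := by
        refine hb_total fun i => ?_
        rw [adjoint_inner_right]
        change ⟪ten (hb i) η, F⟫_ℂ = 0
        rw [← hes]
        exact (Submodule.mem_orthogonal _ _).1 hF _ ⟨_, rfl⟩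
      have h3 : ⟪g, (adjoint (axi η)) F⟫_ℂ = ⟪ten g η, F⟫_ℂ := by
        rw [adjoint_inner_right]; rfl
      rw [← h3, h2, inner_zero_right]
    have h2 := Submodule.topologicalClosure_eq_top_iff.2 h1
    intro x
    have h3 : x ∈ (LinearMap.range e).topologicalClosure := by rw [h2]; trivial
    exact h3
  obtain ⟨z, hz, -⟩ := exists_ext' f e hd (C := 1) zero_le_one (fun c => by
    rw [one_mul, hnorm])
  refine ⟨z, ?_, ?_⟩
  · intro x y
    refine hd.induction_on₂ (p := fun x y => ⟪z x, z y⟫_ℂ = ⟪x, y⟫_ℂ) ?_ ?_ x y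
    · exact isClosed_eq (by fun_prop) (by fun_prop)
    · intro c d
      rw [hz, hz, hin]
  · intro a ha x
    refine hd.induction_on (p := fun x => z (lift a x) = a (z x)) x ?_ ?_
    · exact isClosed_eq (by fun_prop) (by fun_prop)
    · intro c
      induction c using Finsupp.induction_linear with
      | zero => simp
      | add c d h1 h2 => rw [map_add, map_add, map_add, h1, h2, map_add, map_add]
      | single i η =>
        rw [hes, lift_ten, ← hes, ← hes, hz, hz, hfs, hfs, commute_apply (hsN i) ha]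

end Pool.Agent.Helper23

end

section

open scoped InnerProductSpace Topology ENNReal BoundedContinuousFunction

open ContinuousLinearMap Filter MeasureTheory

namespace Pool.Agent.Helper23

variable {H : Type*} [NormedAddCommGroup H] [InnerProductSpace ℂ H] [CompleteSpace H]

variable {M N : VonNeumannAlgebra H} {ξ : H} {E : (H →L[ℂ] H) → (H →L[ℂ] H)}

open RBF

/-- the spatial isomorphism -/
theorem exists_W_of (hN : TwoIsom N) : ∃ W : H ≃ₗᵢ[ℂ] L2R H,
    ∀ a ∈ N.commutant, ∀ x, W (a x) = lift a (W x) := by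
  obtain ⟨v, hv, w, hw', hv1, hw1, hvw⟩ := hN
  obtain ⟨h3, h4⟩ := pow_isom hv1 hw1 hvw
  have : Countable hw := hw_countable
  obtain ⟨n, hn⟩ := exists_injective_nat hw
  have hpN : ∀ k : ℕ, v ^ k ∈ N := fun k => pow_mem hv k
  obtain ⟨J, hJ, hJa⟩ := exists_J (N := N) (s := fun i : hw => v ^ n i * w)
    (fun i => mul_mem (hpN _) hw') (fun i => h3 _) (fun i j hij => h4 _ _ (hn.ne hij))
  have he0 : ⟪e0, e0⟫_ℂ = 1 := by
    rw [inner_self_eq_norm_sq_to_K, e0_norm]; simp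
  obtain ⟨W, hW⟩ := csb (iot H e0) J (fun x y => by
    rw [iot_apply, iot_apply, inner_ten, he0, one_mul]) hJ
  refine ⟨W, fun a ha x => ?_⟩
  refine hW a (lift a) ?_ ?_ ?_ ?_ x
  · intro x
    rw [iot_apply, iot_apply, lift_ten]
  · exact hJa a ha
  · intro x
    rw [← lift_star, iot_apply, iot_apply, lift_ten]
  · intro x
    rw [← lift_star]
    exact hJa _ (star_mem ha) x

end Pool.Agent.Helper23

end

end

section

section

open scoped InnerProductSpace Topology ENNReal BoundedContinuousFunction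

open ContinuousLinearMap Filter MeasureTheory

namespace Pool.Agent.Helper23.ED

open Pool.Agent.Helper23 Pool.Agent.Helper23.RBF

open Pool.Agent.Helper78.BC.Transport (Sub r)

universe u

variable {H : Type u} [NormedAddCommGroup H] [InnerProductSpace ℂ H] [CompleteSpace H]

variable {N : VonNeumannAlgebra H} {ψ : (H →L[ℂ] H) → ℝ≥0∞}

namespace WtB

theorem smulN (c : ℂ) {a : H →L[ℂ] H} (ha : a ∈ N) : c • a ∈ N := smul_mem' c ha

theorem Rl_bound (hψ : IsNSFWeight N ψ) {p : H →L[ℂ] H} (hp : p ∈ N) (a : WD hψ) :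
    ‖Rl hψ hp a‖ ≤ ‖p‖ * ‖a‖ := by
  rw [norm_def', norm_def']
  have h1 : q ψ (op (Rl hψ hp a)) ≤ q ψ (((‖p‖ : ℝ) : ℂ) • op a) := by
    refine ENNReal.toReal_mono (Dm_smul hψ _ (op_mem a)).2 ?_
    exact wt_mono hψ (sq_mem (mul_mem (op_mem a).1 hp)) (sq_mem (smulN _ (op_mem a).1))
      (sq_nonneg' _) (sq_mul_le (op a) p)
  rw [q_smul hψ _ (op_mem a), Complex.norm_real, norm_norm] at h1
  unfold s
  refine (Real.sqrt_le_sqrt h1).trans (le_of_eq ?_)
  rw [Real.sqrt_mul (by (clear * -; positivity)), Real.sqrt_sq (norm_nonneg p)]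

/-- right multiplication as a continuous map -/
noncomputable def RC (hψ : IsNSFWeight N ψ) {p : H →L[ℂ] H} (hp : p ∈ N) : WD hψ →L[ℂ] WD hψ :=
  (Rl hψ hp).mkContinuous ‖p‖ (Rl_bound hψ hp)

open UniformSpace in
/-- the extension of right multiplication -/
noncomputable def RE (hψ : IsNSFWeight N ψ) {p : H →L[ℂ] H} (hp : p ∈ N) :
    Completion (WD hψ) →L[ℂ] Completion (WD hψ) :=
  ((em hψ).comp (RC hψ hp)).extend (em hψ)

open UniformSpace in
theorem RE_coe (hψ : IsNSFWeight N ψ) {p : H →L[ℂ] H} (hp : p ∈ N) (a : WD hψ) :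
    RE hψ hp (a : Completion (WD hψ)) = ((Rl hψ hp a : WD hψ) : Completion (WD hψ)) := by
  have h1 := ContinuousLinearMap.extend_eq (e := em hψ) ((em hψ).comp (RC hψ hp))
    Completion.denseRange_coe (Completion.isUniformInducing_coe _) a
  exact h1

open UniformSpace in
theorem RE_star (hψ : IsNSFWeight N ψ) {p : H →L[ℂ] H} (hp : p ∈ N) :
    star (RE hψ hp) = RE hψ (star_mem hp) := by
  symm
  rw [ContinuousLinearMap.star_eq_adjoint (RE hψ hp), ContinuousLinearMap.eq_adjoint_iff]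
  intro x y
  refine Completion.induction_on₂ x y ?_ ?_
  · exact isClosed_eq (by fun_prop) (by fun_prop)
  · intro a b
    rw [RE_coe, RE_coe, Completion.inner_coe, Completion.inner_coe]
    have h := adj hψ hp b a
    rw [← inner_conj_symm, ← inner_conj_symm (𝕜 := ℂ) a, h]

end WtB

open WtB UniformSpace in
theorem exists_gns (hψ : IsNSFWeight N ψ) : ∃ (L : Type u) (_ : NormedAddCommGroup L)
    (_ : InnerProductSpace ℂ L) (_ : CompleteSpace L) (Λ : (H →L[ℂ] H) → L)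
    (ρ : (H →L[ℂ] H) → (L →L[ℂ] L)), Gns N ψ Λ ρ := by
  classical
  refine ⟨Completion (WD hψ), inferInstance, inferInstance, inferInstance,
    fun a => if ha : a ∈ Dm N ψ then ((mk a ha : WD hψ) : Completion (WD hψ)) else 0,
    fun p => if hp : p ∈ N then RE hψ hp else 0, ?_, ?_, ?_, ?_, ?_⟩
  · intro a ha b hb
    rw [dif_pos ha, dif_pos hb, dif_pos (Dm_add hψ ha hb), ← Completion.coe_add]
    rfl
  · intro c a ha
    rw [dif_pos ha, dif_pos (Dm_smul hψ c ha), ← Completion.coe_smul]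
    rfl
  · intro a ha
    rw [dif_pos ha, Completion.norm_coe, norm_sq', op_mk]
    rfl
  · intro p hp a ha
    rw [dif_pos ha, dif_pos (Dm_mul hψ ha hp), dif_pos hp, RE_coe]
    rfl
  · intro p hp
    rw [dif_pos hp, dif_pos (star_mem hp)]
    exact RE_star hψ hp

end Pool.Agent.Helper23.ED

end

end

section

section

open scoped InnerProductSpace Topology ENNReal

open ContinuousLinearMap Filter MeasureTheory

set_option linter.unusedSectionVars false

set_option linter.unusedVariables false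

namespace Pool.Agent.Helper23

theorem scalar_of_comm {R : L2R ℂ →L[ℂ] L2R ℂ}
    (h1 : ∀ m : ℝ → ℂ, BM m → ∀ f, R (mulOp ℂ m f) = mulOp ℂ m (R f))
    (h2 : ∀ t f, R (tr ℂ t f) = tr ℂ t (R f)) : ∃ c : ℂ, R = c • (1 : L2R ℂ →L[ℂ] L2R ℂ) := by
  set k : L2R ℂ := R f0 with hk
  set k' : ℝ → ℂ := fun s => k s with hk'
  have hkm : Measurable k' := (Lp.stronglyMeasurable k).measurable
  -- covariance for each translation
  have h3 : ∀ t : ℝ, ∀ᵐ s, k' (s - t) * w0 s = w0 (s - t) * k' s := by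
    intro t
    have e1 : tr ℂ t f0 = mulOp ℂ (fun s => w0 (s - t) / w0 s) f0 := by
      ext1
      filter_upwards [tr_coe t f0, ae_tr t f0_coe, mulOp_coe (quot_bm t) f0, f0_coe]
        with s a1 a2 a3 a4
      rw [a1, a2, a3, a4, smul_eq_mul, div_mul_cancel₀ _ (w0_ne s)]
    have e2 : tr ℂ t k = mulOp ℂ (fun s => w0 (s - t) / w0 s) k := by
      rw [hk, ← h2, e1, h1 _ (quot_bm t)]
    have e3 := tr_coe t k
    rw [e2] at e3
    filter_upwards [e3, mulOp_coe (quot_bm t) k] with s a1 a2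
    rw [a2, smul_eq_mul] at a1
    change k (s - t) * w0 s = w0 (s - t) * k s
    rw [← a1, div_mul_eq_mul_div, div_mul_cancel₀ _ (w0_ne s)]
  have hmeas : MeasurableSet {p : ℝ × ℝ | k' (p.2 - p.1) * w0 p.2 = w0 (p.2 - p.1) * k' p.2} := by
    refine measurableSet_eq_fun ?_ ?_
    · exact (hkm.comp (measurable_snd.sub measurable_fst)).mul
        (w0_cont.measurable.comp measurable_snd)
    · exact (w0_cont.measurable.comp (measurable_snd.sub measurable_fst)).mul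
        (hkm.comp measurable_snd)
  have h4 : ∀ᵐ s, ∀ᵐ t, k' (s - t) * w0 s = w0 (s - t) * k' s :=
    (Measure.ae_ae_comm (μ := (volume : Measure ℝ)) (ν := (volume : Measure ℝ))
      (p := fun t s => k' (s - t) * w0 s = w0 (s - t) * k' s) hmeas).1 (Eventually.of_forall h3)
  obtain ⟨s0, hs0⟩ := h4.exists
  set c : ℂ := k' s0 / w0 s0 with hc
  have h5 : k = c • f0 := by
    ext1
    have e1 : ∀ᵐ r : ℝ, k' (s0 - (s0 - r)) * w0 s0 = w0 (s0 - (s0 - r)) * k' s0 := by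
      have hq : Measure.QuasiMeasurePreserving (fun r : ℝ => s0 - r) volume volume :=
        (volume.measurePreserving_sub_left s0).quasiMeasurePreserving
      exact hq.ae hs0
    filter_upwards [e1, Lp.coeFn_smul c f0, f0_coe] with r a1 a2 a3
    rw [a2, Pi.smul_apply, a3, smul_eq_mul, hc]
    rw [sub_sub_cancel] at a1
    change k' r = _
    rw [div_mul_eq_mul_div, eq_div_iff (w0_ne s0), a1, mul_comm]
  refine ⟨c, ?_⟩
  have h6 : ∀ m : ℝ → ℂ, BM m → (R - c • (1 : L2R ℂ →L[ℂ] L2R ℂ)) (mulOp ℂ m f0) = 0 := by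
    intro m hm
    change R (mulOp ℂ m f0) - c • (mulOp ℂ m f0) = 0
    rw [h1 m hm, ← hk, h5, map_smul, sub_self]
  have h7 : ∀ g : L2R ℂ, (adjoint (R - c • (1 : L2R ℂ →L[ℂ] L2R ℂ))) g = 0 := by
    intro g
    refine eq_zero_of_f0 fun m hm => ?_
    rw [adjoint_inner_right, h6 m hm, inner_zero_left]
  rw [← sub_eq_zero]
  ext1 f
  refine ext_inner_left ℂ fun g => ?_
  rw [← adjoint_inner_left, h7, inner_zero_left, zero_apply, inner_zero_right]

end Pool.Agent.Helper23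

end

end
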