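import Pool.Agent.Helper23.FB.L00_a0
import Pool.Agent.Helper23.FB.L00_a1
import Pool.Agent.Helper23.FB.L00_a12
import Pool.Agent.Helper23.FB.L00_a13
import Pool.Agent.Helper23.FB.L00_a2
import Pool.Agent.Helper23.FB.L00_a4
import Pool.Agent.Helper23.FB.L00_a5
import Pool.Agent.Helper23.FB.L00_a6

/-!
Parts of Helper23.FA.L00_01, Helper23.FA.L01_02, Helper23.FA.L00_15, Helper23.FA.L00_04, Helper23.FA.L01_04, Helper23.FA.L01_16, Helper23.FA.L01_17, Helper23.FA.L01_18, Helper23.FA.L02_02, Helper23.FA.L01_06, Helper23.FA.L01_00, Helper23.FA.L01_09, Helper23.FA.L01_12, Helper23.FA.L02_05, Helper23.FA.L02_10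
-/

attribute [local instance 5000]
  Pool.Agent.Helper23.FB.Inst.rCharZero Pool.Agent.Helper23.FB.Inst.rALM
  Pool.Agent.Helper23.FB.Inst.rARM Pool.Agent.Helper23.FB.Inst.rALSM
  Pool.Agent.Helper23.FB.Inst.rARSM Pool.Agent.Helper23.FB.Inst.rARRLE
  Pool.Agent.Helper23.FB.Inst.rALRLE Pool.Agent.Helper23.FB.Inst.rARRLT
  Pool.Agent.Helper23.FB.Inst.rALRLT Pool.Agent.Helper23.FB.Inst.rPMRLT
  Pool.Agent.Helper23.FB.Inst.rMPRLT Pool.Agent.Helper23.FB.Inst.rPMM
  Pool.Agent.Helper23.FB.Inst.rMPM Pool.Agent.Helper23.FB.Inst.rPMSM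
  Pool.Agent.Helper23.FB.Inst.rMPSM Pool.Agent.Helper23.FB.Inst.rEAOL
  Pool.Agent.Helper23.FB.Inst.rIOR Pool.Agent.Helper23.FB.Inst.rISOR
  Pool.Agent.Helper23.FB.Inst.rFS Pool.Agent.Helper23.FB.Inst.rcCharZero
  Pool.Agent.Helper23.FB.Inst.rNZD Pool.Agent.Helper23.FB.Inst.rcNZD
  Pool.Agent.Helper23.FB.Inst.bSemiring Pool.Agent.Helper23.FB.Inst.bStar
  Pool.Agent.Helper23.FB.Inst.bAlg Pool.Agent.Helper23.FB.Inst.bSub
  Pool.Agent.Helper23.FB.Inst.bMul Pool.Agent.Helper23.FB.Inst.bAdd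
  Pool.Agent.Helper23.FB.Inst.iRing Pool.Agent.Helper23.FB.Inst.iSemiring
  Pool.Agent.Helper23.FB.Inst.iAlgC Pool.Agent.Helper23.FB.Inst.iSMulC
  Pool.Agent.Helper23.FB.Inst.iModC Pool.Agent.Helper23.FB.Inst.iAlgR
  Pool.Agent.Helper23.FB.Inst.iSMulR Pool.Agent.Helper23.FB.Inst.iModR
  Pool.Agent.Helper23.FB.Inst.iMonoid Pool.Agent.Helper23.FB.Inst.iSemigroup
  Pool.Agent.Helper23.FB.Inst.iMulOneClass Pool.Agent.Helper23.FB.Inst.iMul
  Pool.Agent.Helper23.FB.Inst.iAdd Pool.Agent.Helper23.FB.Inst.iSub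
  Pool.Agent.Helper23.FB.Inst.iNeg Pool.Agent.Helper23.FB.Inst.iAddCommMonoid
  Pool.Agent.Helper23.FB.Inst.iAddCommGroup Pool.Agent.Helper23.FB.Inst.iAddGroup
  Pool.Agent.Helper23.FB.Inst.iAddMonoid Pool.Agent.Helper23.FB.Inst.iSMulZeroC
  Pool.Agent.Helper23.FB.Inst.iMulActC Pool.Agent.Helper23.FB.Inst.iDSMulC
  Pool.Agent.Helper23.FB.Inst.iDSMulR Pool.Agent.Helper23.FB.Inst.iSNAG
  Pool.Agent.Helper23.FB.Inst.iSNACG Pool.Agent.Helper23.FB.Inst.iNorm
  Pool.Agent.Helper23.FB.Inst.iNSC' Pool.Agent.Helper23.FB.Inst.iNSR'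
  Pool.Agent.Helper23.FB.Inst.iTop Pool.Agent.Helper23.FB.Inst.iT2 Pool.Agent.Helper23.FB.Inst.iTR
  Pool.Agent.Helper23.FB.Inst.iSCC Pool.Agent.Helper23.FB.Inst.iIST
  Pool.Agent.Helper23.FB.Inst.iSCCR Pool.Agent.Helper23.FB.Inst.iISTR
  Pool.Agent.Helper23.FB.Inst.iZHC Pool.Agent.Helper23.FB.Inst.iAHC
  Pool.Agent.Helper23.FB.Inst.iAMHC Pool.Agent.Helper23.FB.Inst.iMAHC
  Pool.Agent.Helper23.FB.Inst.lTop Pool.Agent.Helper23.FB.Inst.lUnif
  Pool.Agent.Helper23.FB.Inst.lACM Pool.Agent.Helper23.FB.Inst.lACG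
  Pool.Agent.Helper23.FB.Inst.lSNAG Pool.Agent.Helper23.FB.Inst.lSNACG
  Pool.Agent.Helper23.FB.Inst.lNACG Pool.Agent.Helper23.FB.Inst.lNorm
  Pool.Agent.Helper23.FB.Inst.lIPS Pool.Agent.Helper23.FB.Inst.lMod
  Pool.Agent.Helper23.FB.Inst.lSMul Pool.Agent.Helper23.FB.Inst.lT2
  Pool.Agent.Helper23.FB.Inst.iStar Pool.Agent.Helper23.FB.Inst.iStarMul
  Pool.Agent.Helper23.FB.Inst.iStarAddMonoid Pool.Agent.Helper23.FB.Inst.iStarRing
  Pool.Agent.Helper23.FB.Inst.iNSC Pool.Agent.Helper23.FB.Inst.iSOR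
  Pool.Agent.Helper23.FB.Inst.iALM Pool.Agent.Helper23.FB.Inst.iARM
  Pool.Agent.Helper23.FB.Inst.iCFC Pool.Agent.Helper23.FB.Inst.iNCFC
  Pool.Agent.Helper23.FB.Inst.iStarModR Pool.Agent.Helper23.FB.Inst.iStarModC
  Pool.Agent.Helper23.FB.Inst.eStar Pool.Agent.Helper23.FB.Inst.eAdd
  Pool.Agent.Helper23.FB.Inst.eMul Pool.Agent.Helper23.FB.Inst.eOne
  Pool.Agent.Helper23.FB.Inst.eZero Pool.Agent.Helper23.FB.Inst.eMulAction
  Pool.Agent.Helper23.FB.Inst.eAMHC2 Pool.Agent.Helper23.FB.Inst.eZHC2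
  Pool.Agent.Helper23.FB.Inst.lAMHC

namespace Pool.Agent.Helper23
end Pool.Agent.Helper23
namespace Pool.Agent.Helper23.RBF
end Pool.Agent.Helper23.RBF
namespace Pool.Agent.Helper43.TTF
end Pool.Agent.Helper43.TTF
namespace Pool.Agent.Helper70.U8
end Pool.Agent.Helper70.U8
namespace Pool.Agent.Helper88.CS.FourierAux
end Pool.Agent.Helper88.CS.FourierAux

section

section

open scoped InnerProductSpace Topology BoundedContinuousFunction

open ContinuousLinearMap Filter MeasureTheory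

namespace Pool.Agent.Helper88.CS

open Pool.Agent.Helper23

variable {H : Type*} [NormedAddCommGroup H] [InnerProductSpace ℂ H] [CompleteSpace H]

/-- `k` is an integrable kernel with (inverse) Fourier transform `K` -/
structure Ker (k : ℝ → ℂ) (K : ℝ →ᵇ ℂ) : Prop where
  cont : Continuous k
  int : Integrable k
  Kint : Integrable (K : ℝ → ℂ)
  four : ∀ ρ, K ρ = ∫ t, k t * expB (2 * Real.pi * t) ρ
  inv : ∀ t, k t = ∫ ρ, K ρ * expB (-(2 * Real.pi * t)) ρ

end Pool.Agent.Helper88.CS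

end

end

section

section

open scoped InnerProductSpace Topology BoundedContinuousFunction

open ContinuousLinearMap Filter MeasureTheory

namespace Pool.Agent.Helper23

variable {H : Type*} [NormedAddCommGroup H] [InnerProductSpace ℂ H] [CompleteSpace H]

namespace TTA

set_option linter.unusedSectionVars false

lemma sa_decomp {A : VonNeumannAlgebra H} {a : H →L[ℂ] H} (ha : a ∈ A) :
    ∃ a1 ∈ A, ∃ a2 ∈ A, star a1 = a1 ∧ star a2 = a2 ∧ a = a1 + Complex.I • a2 ∧
      star a = a1 - Complex.I • a2 := by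
  refine ⟨(1 / 2 : ℂ) • (a + star a), smul_mem' _ (add_mem ha (star_mem ha)),
    (-Complex.I / 2 : ℂ) • (a - star a), smul_mem' _ (sub_mem ha (star_mem ha)), ?_, ?_, ?_, ?_⟩
  · rw [star_smul, star_add, star_star, add_comm (star a)]
    congr 1
    simp
  · rw [star_smul, star_sub, star_star, ← neg_sub a (star a), smul_neg, ← neg_smul]
    congr 1
    simp
    ring
  · rw [smul_smul, show Complex.I * (-Complex.I / 2) = 1 / 2 by
      linear_combination (-1 / 2 : ℂ) * Complex.I_mul_I, ← smul_add]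
    rw [show a + star a + (a - star a) = (2 : ℂ) • a by rw [two_smul]; abel, smul_smul]
    norm_num
  · rw [smul_smul, show Complex.I * (-Complex.I / 2) = 1 / 2 by
      linear_combination (-1 / 2 : ℂ) * Complex.I_mul_I, ← smul_sub]
    rw [show a + star a - (a - star a) = (2 : ℂ) • star a by rw [two_smul]; abel, smul_smul]
    norm_num

end TTA

end Pool.Agent.Helper23

end

section

open scoped InnerProductSpace Topology ENNReal BoundedContinuousFunction

open ContinuousLinearMap Filter MeasureTheory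

namespace Pool.Agent.Helper23.ED

open Pool.Agent.Helper23 Pool.Agent.Helper23.RBF

open Pool.Agent.Helper78.BC.Transport (Sub r)

universe u

variable {H : Type u} [NormedAddCommGroup H] [InnerProductSpace ℂ H] [CompleteSpace H]

variable {K : Type u} [NormedAddCommGroup K] [InnerProductSpace ℂ K] [CompleteSpace K]

variable {M N : VonNeumannAlgebra H} {E : (H →L[ℂ] H) → (H →L[ℂ] H)} {ξ : H}
  {i : K →L[ℂ] H} {κ : K}

namespace CoC

lemma expB_zero : expB 0 = 1 := by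
  ext ρ
  change Complex.exp (((0 * ρ : ℝ) : ℂ) * Complex.I) = 1
  simp

lemma expB_add (s t : ℝ) : expB (s + t) = expB s * expB t := by
  ext ρ
  change Complex.exp ((((s + t) * ρ : ℝ) : ℂ) * Complex.I) =
    Complex.exp (((s * ρ : ℝ) : ℂ) * Complex.I) * Complex.exp (((t * ρ : ℝ) : ℂ) * Complex.I)
  rw [← Complex.exp_add]
  congr 1
  push_cast
  ring

lemma V_add (Ψ : (ℝ →ᵇ ℂ) →⋆ₐ[ℂ] (H →L[ℂ] H)) (s t : ℝ) :
    Ψ (expB (s + t)) = Ψ (expB s) * Ψ (expB t) := by
  rw [expB_add, map_mul]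

lemma V_inv (Ψ : (ℝ →ᵇ ℂ) →⋆ₐ[ℂ] (H →L[ℂ] H)) (t : ℝ) :
    Ψ (expB t) * Ψ (expB (-t)) = 1 := by
  rw [← V_add, add_neg_cancel, expB_zero, map_one]

lemma V_inv' (Ψ : (ℝ →ᵇ ℂ) →⋆ₐ[ℂ] (H →L[ℂ] H)) (t : ℝ) :
    Ψ (expB (-t)) * Ψ (expB t) = 1 := by
  rw [← V_add, neg_add_cancel, expB_zero, map_one]

/-- conjugation by the modular group -/
lemma r_conj (Sb : Sub N ξ i κ) {Ψ : (ℝ →ᵇ ℂ) →⋆ₐ[ℂ] (H →L[ℂ] H)}
    {Ψ₀ : (ℝ →ᵇ ℂ) →⋆ₐ[ℂ] (K →L[ℂ] K)}
    (hi : ∀ t v, i (Ψ₀ (expB t) v) = Ψ (expB t) (i v)) {x : H →L[ℂ] H} (hx : x ∈ N) (t : ℝ) :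
    r i (Ψ (expB t) * x * Ψ (expB (-t))) = Ψ₀ (expB t) * r i x * Ψ₀ (expB (-t)) := by
  ext k
  change adjoint i (Ψ (expB t) (x (Ψ (expB (-t)) (i k)))) =
    Ψ₀ (expB t) (r i x (Ψ₀ (expB (-t)) k))
  rw [← hi, ← Sb.i_r hx, ← hi, Sb.isom]

end CoC

end Pool.Agent.Helper23.ED

end

end

section

section

open scoped InnerProductSpace Topology ENNReal BoundedContinuousFunction

open ContinuousLinearMap Filter MeasureTheory

namespace Pool.Agent.Helper23.ED

open Pool.Agent.Helper23 Pool.Agent.Helper23.RBF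

universe u

variable {H : Type*} [NormedAddCommGroup H] [InnerProductSpace ℂ H] [CompleteSpace H]

variable {A : VonNeumannAlgebra H} {ξ : H} {R : H →L[ℂ] H} {D : H →L[ℝ] H}
  {Ψ : (ℝ →ᵇ ℂ) →⋆ₐ[ℂ] (H →L[ℂ] H)}

namespace GgE

open Pool.Agent.Helper43.TTF

/-- the square of `1 / cosh (ρ / 2)` -/
noncomputable def gg (ρ : ℝ) : ℝ := (Real.cosh (ρ / 2))⁻¹ * (Real.cosh (ρ / 2))⁻¹

lemma gg_pos (ρ : ℝ) : 0 < gg ρ := by
  have := Real.cosh_pos (ρ / 2)
  unfold gg
  positivity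

lemma gg_cont : Continuous gg := by
  have h : Continuous fun ρ : ℝ => (Real.cosh (ρ / 2))⁻¹ :=
    Continuous.inv₀ (by fun_prop) fun ρ => (Real.cosh_pos _).ne'
  exact h.mul h

lemma gg_neg (ρ : ℝ) : gg (-ρ) = gg ρ := by
  unfold gg
  rw [neg_div, Real.cosh_neg]

lemma gg_ge {L ρ : ℝ} (h : |ρ| ≤ L) : gg L ≤ gg ρ := by
  have h1 : Real.cosh (ρ / 2) ≤ Real.cosh (L / 2) := by
    rw [Real.cosh_le_cosh, abs_div, abs_div]
    have : |ρ| ≤ |L| := h.trans (le_abs_self L)
    gcongr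
  have h2 := Real.cosh_pos (ρ / 2)
  have h3 : (Real.cosh (L / 2))⁻¹ ≤ (Real.cosh (ρ / 2))⁻¹ := inv_anti₀ h2 h1
  have h4 : 0 ≤ (Real.cosh (L / 2))⁻¹ := by positivity [Real.cosh_pos (L / 2)]
  unfold gg
  exact mul_le_mul h3 h3 h4 (h4.trans h3)

lemma FT_sq_apply (ρ : ℝ) : (FT * FT : ℝ →ᵇ ℂ) ρ = (gg ρ : ℂ) := by
  rw [BoundedContinuousFunction.mul_apply, FT_apply, ← Complex.ofReal_mul]
  rfl

/-- regularised inverse of `gg` -/
noncomputable def kB (n : ℕ) : ℝ →ᵇ ℂ :=
  BoundedContinuousFunction.ofNormedAddCommGroup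
    (fun ρ : ℝ => ((1 / (gg ρ + 1 / ((n : ℝ) + 1)) : ℝ) : ℂ))
    (by
      refine Complex.continuous_ofReal.comp (Continuous.div continuous_const
        (gg_cont.add continuous_const) ?_)
      intro ρ
      have := gg_pos ρ
      (clear * - this; positivity)) ((n : ℝ) + 1) (by
      intro ρ
      have h0 := gg_pos ρ
      rw [Complex.norm_real, Real.norm_of_nonneg (by (clear * - h0; positivity)), div_le_iff₀ (by positivity)]
      have h2 : (0 : ℝ) < (n : ℝ) + 1 := by positivity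
      have h3 : ((n : ℝ) + 1) * (gg ρ + 1 / ((n : ℝ) + 1)) = ((n : ℝ) + 1) * gg ρ + 1 := by
        (clear * - h0; field_simp)
      rw [h3]
      nlinarith [mul_pos h2 h0])

lemma kB_apply (n : ℕ) (ρ : ℝ) :
    kB n ρ = ((1 / (gg ρ + 1 / ((n : ℝ) + 1)) : ℝ) : ℂ) := rfl

lemma kB_conj (n : ℕ) (ρ : ℝ) : kB n ρ = (starRingEnd ℂ) (kB n (-ρ)) := by
  rw [kB_apply, kB_apply, Complex.conj_ofReal, gg_neg]

lemma kB_star (n : ℕ) : star (kB n) = kB n := by
  ext ρ
  rw [BoundedContinuousFunction.star_apply, kB_apply]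
  exact Complex.conj_ofReal _

lemma mul_apply' (n : ℕ) (ρ : ℝ) : (FT * FT * kB n : ℝ →ᵇ ℂ) ρ =
    ((gg ρ / (gg ρ + 1 / ((n : ℝ) + 1)) : ℝ) : ℂ) := by
  rw [BoundedContinuousFunction.mul_apply, FT_sq_apply, kB_apply, ← Complex.ofReal_mul]
  congr 1
  ring

lemma norm_le' (n : ℕ) : ‖(FT * FT * kB n : ℝ →ᵇ ℂ)‖ ≤ 1 := by
  rw [BoundedContinuousFunction.norm_le zero_le_one]
  intro ρ
  have h0 := gg_pos ρ
  rw [mul_apply', Complex.norm_real, Real.norm_of_nonneg (by (clear * - h0; positivity)),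
    div_le_one (by positivity)]
  have : (0 : ℝ) < 1 / ((n : ℝ) + 1) := by positivity
  linarith

lemma tendsto' (L : ℝ) :
    TendstoUniformlyOn (fun n ρ => (FT * FT * kB n : ℝ →ᵇ ℂ) ρ) (fun ρ => (1 : ℝ →ᵇ ℂ) ρ) atTop
      (Set.Icc (-L) L) := by
  rw [Metric.tendstoUniformlyOn_iff]
  intro ε hε
  have hd := gg_pos L
  obtain ⟨m, hm⟩ := exists_nat_gt (1 / (ε * gg L))
  filter_upwards [eventually_ge_atTop m] with n hn ρ hρ
  have h0 := gg_pos ρ
  have h1 : gg L ≤ gg ρ := gg_ge (abs_le.2 hρ)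
  have hn' : (0 : ℝ) < (n : ℝ) + 1 := by (clear * -; positivity)
  have h2 : (1 : ℂ) - ((gg ρ / (gg ρ + 1 / ((n : ℝ) + 1)) : ℝ) : ℂ) =
      (((1 / ((n : ℝ) + 1)) / (gg ρ + 1 / ((n : ℝ) + 1)) : ℝ) : ℂ) := by
    have h3 : ((1 / ((n : ℝ) + 1)) / (gg ρ + 1 / ((n : ℝ) + 1)) : ℝ) =
        1 - gg ρ / (gg ρ + 1 / ((n : ℝ) + 1)) := by
      have h4 : gg ρ + 1 / ((n : ℝ) + 1) ≠ 0 := by (clear * - h0; positivity)
      rw [eq_sub_iff_add_eq, ← add_div, div_eq_one_iff_eq h4]
      ring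
    rw [h3]
    push_cast
    ring
  rw [mul_apply', one_bcf, dist_eq_norm, h2, Complex.norm_real,
    Real.norm_of_nonneg (by positivity)]
  have h5 : (1 / ((n : ℝ) + 1)) / (gg ρ + 1 / ((n : ℝ) + 1)) ≤ (1 / ((n : ℝ) + 1)) / gg L := by
    apply div_le_div_of_nonneg_left (by (clear * -; positivity)) hd
    have : (0 : ℝ) < 1 / ((n : ℝ) + 1) := by (clear * -; positivity)
    (clear * - h1 this; linarith)
  refine h5.trans_lt ?_
  have h6 : 1 / (ε * gg L) < (n : ℝ) + 1 := by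
    have : (m : ℝ) ≤ n := by exact_mod_cast hn
    (clear * - hm this; linarith)
  rw [div_lt_iff₀ (by positivity)] at h6
  rw [div_lt_iff₀ hd, div_lt_iff₀ hn']
  (clear * - h6; linarith [h6])

end GgE

end Pool.Agent.Helper23.ED

end

end

section

section

open scoped InnerProductSpace Topology ENNReal

open ContinuousLinearMap Filter MeasureTheory

namespace Pool.Agent.Helper23

variable {H : Type*} [NormedAddCommGroup H] [InnerProductSpace ℂ H] [CompleteSpace H]

variable {G : Type*} [NormedAddCommGroup G] [InnerProductSpace ℂ G] [CompleteSpace G]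

variable {M N : VonNeumannAlgebra H} {ξ : H} {E : (H →L[ℂ] H) → (H →L[ℂ] H)}

/-- the sum of squares of pieces -/
lemma bessel_mul {t : ℝ} (ht : 0 < t) (A : Finset ℤ) {μ : ℤ → ℝ → ℂ} (hμ : ∀ i, BM (μ i))
    (hμ0 : ∀ i s, s ∉ win t i → μ i s = 0) {c : ℝ} (hc : 0 ≤ c) (hμc : ∀ i s, ‖μ i s‖ ≤ c)
    (V : L2R G) : ∑ i ∈ A, ‖mulOp G (μ i) V‖ ^ 2 ≤ c ^ 2 * ‖V‖ ^ 2 := by
  classical
  -- the sum of the multipliers with its modulus
  have hn : ∀ F : L2R G, ENNReal.ofReal (‖F‖ ^ 2) = ∫⁻ s, ENNReal.ofReal (‖F s‖ ^ 2) :=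
    norm_sq_lint
  have h1 : ENNReal.ofReal (∑ i ∈ A, ‖mulOp G (μ i) V‖ ^ 2) ≤
      ENNReal.ofReal (c ^ 2 * ‖V‖ ^ 2) := by
    rw [ENNReal.ofReal_sum_of_nonneg (fun i _ => by (clear * -; positivity))]
    simp only [hn]
    rw [← lintegral_finsetSum' _ (fun i _ => by
      refine ENNReal.measurable_ofReal.comp_aemeasurable ?_
      exact ((Lp.aestronglyMeasurable (mulOp G (μ i) V)).norm.aemeasurable.pow_const 2))]
    rw [ENNReal.ofReal_mul (by (clear * -; positivity)), hn, ← lintegral_const_mul' _ _ (by finiteness)]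
    refine lintegral_mono_ae ?_
    have h2 : ∀ᵐ s, ∀ i : ℤ, (mulOp G (μ i) V) s = μ i s • V s :=
      ae_all_iff.2 fun i => mulOp_coe (hμ i) V
    filter_upwards [h2] with s hs
    have h3 : ∀ i ∈ A, ENNReal.ofReal (‖(mulOp G (μ i) V) s‖ ^ 2) ≤
        if i = ⌊s / t⌋ then ENNReal.ofReal (c ^ 2) * ENNReal.ofReal (‖V s‖ ^ 2) else 0 := by
      intro i _
      rw [hs i]
      by_cases hi : i = ⌊s / t⌋
      · rw [if_pos hi, ← ENNReal.ofReal_mul (by (clear * -; positivity)), norm_smul, mul_pow]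
        refine ENNReal.ofReal_le_ofReal ?_
        gcongr
        exact hμc i s
      · rw [if_neg hi, hμ0 i s, zero_smul, norm_zero]
        · simp
        · intro hcon
          exact hi (win_unique ht hcon (mem_win_floor ht s))
    refine (Finset.sum_le_sum h3).trans ?_
    rw [Finset.sum_ite_eq']
    split_ifs
    · exact le_rfl
    · exact bot_le
  exact (ENNReal.ofReal_le_ofReal_iff (by (clear * -; positivity))).1 h1

end Pool.Agent.Helper23

end

end

section

section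

open scoped InnerProductSpace Topology ENNReal

open ContinuousLinearMap Filter MeasureTheory

set_option linter.unusedSectionVars false

set_option linter.unusedVariables false

namespace Pool.Agent.Helper23

variable {G : Type*} [NormedAddCommGroup G] [InnerProductSpace ℂ G] [CompleteSpace G]

variable {G' : Type*} [NormedAddCommGroup G'] [InnerProductSpace ℂ G'] [CompleteSpace G']

variable {G'' : Type*} [NormedAddCommGroup G''] [InnerProductSpace ℂ G''] [CompleteSpace G'']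

lemma mulOp_star {m : ℝ → ℂ} (h : BM m) :
    star (mulOp G m) = mulOp G (fun s => (starRingEnd ℂ) (m s)) := by
  rw [ContinuousLinearMap.star_eq_adjoint]
  symm
  rw [ContinuousLinearMap.eq_adjoint_iff]
  intro x y
  exact mulOp_adj h x y

end Pool.Agent.Helper23

end

section

open scoped InnerProductSpace Topology ENNReal

open ContinuousLinearMap Filter MeasureTheory

set_option linter.unusedSectionVars false

set_option linter.unusedVariables false

namespace Pool.Agent.Helper23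

variable {H : Type*} [NormedAddCommGroup H] [InnerProductSpace ℂ H] [CompleteSpace H]

lemma ten_sub_left (f g : L2R ℂ) (η : H) : ten (f - g) η = ten f η - ten g η := map_sub _ _ _

end Pool.Agent.Helper23

end

section

open scoped InnerProductSpace Topology ENNReal

open ContinuousLinearMap Filter MeasureTheory

namespace Pool.Agent.Helper23

variable {H : Type*} [NormedAddCommGroup H] [InnerProductSpace ℂ H] [CompleteSpace H]

variable {M N : VonNeumannAlgebra H} {ξ : H} {E : (H →L[ℂ] H) → (H →L[ℂ] H)}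

lemma sl_sub_left (f f' : L2R ℂ) (F : L2R H) : sl (f - f') F = sl f F - sl f' F := by
  refine ext_inner_left ℂ fun η => ?_
  rw [inner_sub_right, inner_sl, inner_sl, inner_sl, ten_sub_left, inner_sub_left]

end Pool.Agent.Helper23

end

section

open scoped InnerProductSpace Topology ENNReal BoundedContinuousFunction

open ContinuousLinearMap Filter MeasureTheory

namespace Pool.Agent.Helper23.ED

open Pool.Agent.Helper23 Pool.Agent.Helper23.RBF

universe u

variable {H : Type*} [NormedAddCommGroup H] [InnerProductSpace ℂ H] [CompleteSpace H]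

variable {M N : VonNeumannAlgebra H} {ξ : H} {E : (H →L[ℂ] H) → (H →L[ℂ] H)}

namespace MnA

/-- multiplication operators by unimodular functions are unitary -/
lemma mulOp_unit {m : ℝ → ℂ} (hm : BM m) (h1 : ∀ s, ‖m s‖ = 1) :
    star (mulOp H m) * mulOp H m = 1 ∧ mulOp H m * star (mulOp H m) = 1 := by
  have hc : ∀ s, (starRingEnd ℂ) (m s) * m s = 1 := by
    intro s
    rw [mul_comm, Complex.mul_conj, Complex.normSq_eq_norm_sq, h1 s]
    norm_num
  have h0 : ∀ F : L2R H, mulOp H (fun _ : ℝ => (1 : ℂ)) F = F := by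
    intro F
    ext1
    have hb : BM (fun _ : ℝ => (1 : ℂ)) := ⟨measurable_const, 1, zero_le_one, fun s => by simp⟩
    filter_upwards [mulOp_coe hb F] with s hs
    rw [hs, one_smul]
  constructor
  · rw [mulOp_star hm]
    ext F : 1
    change mulOp H (fun s => (starRingEnd ℂ) (m s)) (mulOp H m F) = F
    rw [mulOp_mulOp hm.conj hm]
    simp only [hc]
    exact h0 F
  · rw [mulOp_star hm]
    ext F : 1
    change mulOp H m (mulOp H (fun s => (starRingEnd ℂ) (m s)) F) = F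
    rw [mulOp_mulOp hm hm.conj]
    simp only [mul_comm (m _), hc]
    exact h0 F

end MnA

end Pool.Agent.Helper23.ED

end

end

section

section

open scoped InnerProductSpace Topology BoundedContinuousFunction

open ContinuousLinearMap Filter MeasureTheory

namespace Pool.Agent.Helper43.TTF

open Pool.Agent.Helper23

variable {H : Type*} [NormedAddCommGroup H] [InnerProductSpace ℂ H] [CompleteSpace H]

variable {R : H →L[ℂ] H} {D : H →L[ℝ] H} {Ψ : (ℝ →ᵇ ℂ) →⋆ₐ[ℂ] (H →L[ℂ] H)} {J : H →L[ℝ] H}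

lemma R_xi {A : VonNeumannAlgebra H} {ξ : H} (h' : TTData A ξ R D) : R ξ = ξ := by
  have h1 := h'.D_mem 1 (one_mem _)
  have h2 := h'.D_comm 1 (one_mem _)
  rw [star_one, one_apply_eq_self] at h1 h2
  rw [h1] at h2
  have h3 : (2 : ℂ) • ξ = (2 : ℂ) • R ξ := by
    rw [two_smul ℂ (R ξ)]
    exact sub_eq_iff_eq_add.1 h2
  exact (smul_right_injective H (two_ne_zero : (2 : ℂ) ≠ 0) h3).symm

end Pool.Agent.Helper43.TTF

end

section

open scoped InnerProductSpace Topology BoundedContinuousFunction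

open ContinuousLinearMap Filter MeasureTheory

namespace Pool.Agent.Helper70.U8

open Pool.Agent.Helper23

variable {H : Type*} [NormedAddCommGroup H] [InnerProductSpace ℂ H] [CompleteSpace H]

variable {A : VonNeumannAlgebra H} {ξ : H} {R : H →L[ℂ] H} {D : H →L[ℝ] H}
  {Ψ : (ℝ →ᵇ ℂ) →⋆ₐ[ℂ] (H →L[ℂ] H)} {J : H →L[ℝ] H}

open Pool.Agent.Helper43.TTF (JD FT FT_apply FR_apply)

lemma J_xi (h' : TTData A ξ R D) (hJ : JD D Ψ J) (h : Modular A ξ R D Ψ) : J ξ = ξ := by
  have h1 : Ψ FT ξ = ξ := by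
    rw [h.psi_xi, FT_apply, zero_div, Real.cosh_zero, inv_one, Complex.ofReal_one, one_smul]
  have h2 := hJ.J_T ξ
  rw [h1] at h2
  have h3 := h'.D_comm 1 (one_mem _)
  rw [one_apply_eq_self, star_one, one_apply_eq_self, Pool.Agent.Helper43.TTF.R_xi h'] at h3
  rw [h2, h3]

end Pool.Agent.Helper70.U8

end

end

section

section

open scoped InnerProductSpace Topology BoundedContinuousFunction

open ContinuousLinearMap Filter MeasureTheory

namespace Pool.Agent.Helper23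

variable {H : Type*} [NormedAddCommGroup H] [InnerProductSpace ℂ H] [CompleteSpace H]

/-- The interface is symmetric under the exchange of `A` and its commutant. -/
lemma TTData.symm {A : VonNeumannAlgebra H} {ξ : H} {R : H →L[ℂ] H} {D : H →L[ℝ] H}
    (h : TTData A ξ R D) : TTData A.commutant ξ ((2 : ℂ) • (1 : H →L[ℂ] H) - R) D where
  R_star := by
    rw [star_sub, star_smul, h.R_star, star_one]; simp
  R_nonneg := by
    intro v
    have h1 := h.R_le v
    rw [sub_apply, smul_apply, one_apply_eq_self, inner_sub_right, inner_smul_right,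
      inner_self_eq_norm_sq_to_K, Complex.sub_re]
    have : ((2 : ℂ) * ((‖v‖ : ℂ)) ^ 2).re = 2 * ‖v‖ ^ 2 := by norm_cast
    change 0 ≤ ((2 : ℂ) * ((‖v‖ : ℂ)) ^ 2).re - _
    rw [this]; (clear * - h1; linarith)
  R_le := by
    intro v
    have h1 := h.R_nonneg v
    rw [sub_apply, smul_apply, one_apply_eq_self, inner_sub_right, inner_smul_right,
      inner_self_eq_norm_sq_to_K, Complex.sub_re]
    have : ((2 : ℂ) * ((‖v‖ : ℂ)) ^ 2).re = 2 * ‖v‖ ^ 2 := by norm_cast
    change ((2 : ℂ) * ((‖v‖ : ℂ)) ^ 2).re - _ ≤ _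
    rw [this]; (clear * - h1; linarith)
  R_inj := by
    intro v hv
    refine h.R_inj' v ?_
    rw [sub_apply, smul_apply, one_apply_eq_self, sub_eq_zero] at hv
    exact hv.symm
  R_inj' := by
    intro v hv
    refine h.R_inj v ?_
    rw [sub_apply, smul_apply, one_apply_eq_self] at hv
    simpa using hv
  D_conj := h.D_conj
  D_symm := h.D_symm
  D_sq := by
    intro v
    rw [h.D_sq]
    simp only [sub_apply, smul_apply, one_apply_eq_self, map_sub, map_smul]
    abel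
  D_R := by
    intro v
    have h1 : D ((2 : ℂ) • v) = (2 : ℂ) • D v := by
      have h2 := h.D_conj 2 v
      rwa [Complex.conj_ofNat] at h2
    simp only [sub_apply, smul_apply, one_apply_eq_self, map_sub, h.D_R, h1]
  D_mem := by
    intro a ha
    rw [h.D_comm a ha]
    simp only [sub_apply, smul_apply, one_apply_eq_self]
    abel
  D_comm := by
    intro a ha
    rw [VonNeumannAlgebra.commutant_commutant] at ha
    rw [h.D_mem a ha]
    simp only [sub_apply, smul_apply, one_apply_eq_self]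

end Pool.Agent.Helper23

end

section

open scoped InnerProductSpace Topology BoundedContinuousFunction FourierTransform ENNReal

open ContinuousLinearMap Filter MeasureTheory

set_option linter.unusedSectionVars false

namespace Pool.Agent.Helper23

variable {H : Type*} [NormedAddCommGroup H] [InnerProductSpace ℂ H] [CompleteSpace H]

lemma psi_adj (Ψ : (ℝ →ᵇ ℂ) →⋆ₐ[ℂ] (H →L[ℂ] H)) (G : ℝ →ᵇ ℂ) (v w : H) :
    ⟪Ψ G v, w⟫_ℂ = ⟪v, Ψ (star G) w⟫_ℂ := by
  rw [map_star, inner_star_right]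

/-- domination: `|G| ≤ C |F|` with `F` real implies `‖Ψ(G) v‖ ≤ C ‖Ψ(F) v‖` -/
lemma psi_dom (Ψ : (ℝ →ᵇ ℂ) →⋆ₐ[ℂ] (H →L[ℂ] H)) {G F : ℝ →ᵇ ℂ} {C : ℝ} (hC : 0 ≤ C)
    (h : ∀ ρ, ‖G ρ‖ ≤ C * ‖F ρ‖) (v : H) : ‖Ψ G v‖ ≤ C * ‖Ψ F v‖ := by
  have hc : Continuous fun ρ : ℝ => ((Real.sqrt (C ^ 2 * ‖F ρ‖ ^ 2 - ‖G ρ‖ ^ 2) : ℝ) : ℂ) := by
    have := F.continuous
    have := G.continuous
    fun_prop
  have hb : ∀ ρ : ℝ, ‖((Real.sqrt (C ^ 2 * ‖F ρ‖ ^ 2 - ‖G ρ‖ ^ 2) : ℝ) : ℂ)‖ ≤ C * ‖F‖ := by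
    intro ρ
    rw [Complex.norm_real, Real.norm_of_nonneg (Real.sqrt_nonneg _)]
    have h1 : C * ‖F ρ‖ ≤ C * ‖F‖ := mul_le_mul_of_nonneg_left (F.norm_coe_le_norm ρ) hC
    refine (Real.sqrt_le_sqrt (y := (C * ‖F‖) ^ 2) ?_).trans (Real.sqrt_sq (by (clear * - hC; positivity))).le
    have h2 := pow_le_pow_left₀ (by (clear * - hC; positivity) : 0 ≤ C * ‖F ρ‖) h1 2
    rw [mul_pow] at h2
    (clear * - h2; nlinarith [sq_nonneg ‖G ρ‖])
  set S : ℝ →ᵇ ℂ := BoundedContinuousFunction.ofNormedAddCommGroup _ hc _ hb with hS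
  have hSa : ∀ ρ, S ρ = ((Real.sqrt (C ^ 2 * ‖F ρ‖ ^ 2 - ‖G ρ‖ ^ 2) : ℝ) : ℂ) := fun ρ => rfl
  have h1 : star G * G + star S * S = ((C ^ 2 : ℝ) : ℂ) • (star F * F) := by
    ext ρ
    simp only [BoundedContinuousFunction.add_apply, BoundedContinuousFunction.mul_apply,
      BoundedContinuousFunction.star_apply, BoundedContinuousFunction.smul_apply, Complex.star_def,
      smul_eq_mul]
    rw [Complex.conj_mul', Complex.conj_mul', Complex.conj_mul', hSa, Complex.norm_real,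
      Real.norm_of_nonneg (Real.sqrt_nonneg _)]
    have h3 : (Real.sqrt (C ^ 2 * ‖F ρ‖ ^ 2 - ‖G ρ‖ ^ 2)) ^ 2 =
        C ^ 2 * ‖F ρ‖ ^ 2 - ‖G ρ‖ ^ 2 := by
      refine Real.sq_sqrt ?_
      have h2 := pow_le_pow_left₀ (norm_nonneg _) (h ρ) 2
      rw [mul_pow] at h2
      (clear * - h2; linarith)
    have h4 : ((Real.sqrt (C ^ 2 * ‖F ρ‖ ^ 2 - ‖G ρ‖ ^ 2) : ℝ) : ℂ) ^ 2 =
        ((C ^ 2 * ‖F ρ‖ ^ 2 - ‖G ρ‖ ^ 2 : ℝ) : ℂ) := by
      rw [← Complex.ofReal_pow, h3]
    rw [h4]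
    push_cast
    ring
  have key : ∀ G : ℝ →ᵇ ℂ, ⟪v, Ψ (star G * G) v⟫_ℂ = ((‖Ψ G v‖ ^ 2 : ℝ) : ℂ) := by
    intro G
    rw [psi_mul_apply, ← psi_adj, inner_self_eq_norm_sq_to_K]
    norm_cast
  have h2 := congrArg (fun G : ℝ →ᵇ ℂ => ⟪v, Ψ G v⟫_ℂ) h1
  simp only [map_add, map_smul, add_apply, smul_apply, inner_add_right, inner_smul_right] at h2
  rw [key, key, key] at h2
  have h3 : ‖Ψ G v‖ ^ 2 + ‖Ψ S v‖ ^ 2 = C ^ 2 * ‖Ψ F v‖ ^ 2 := by exact_mod_cast h2
  refine (pow_le_pow_iff_left₀ (norm_nonneg _) (by (clear * - hC; positivity)) two_ne_zero).1 ?_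
  rw [mul_pow]
  (clear * - h3; nlinarith [sq_nonneg ‖Ψ S v‖])

end Pool.Agent.Helper23

end

section

open scoped InnerProductSpace Topology BoundedContinuousFunction

open ContinuousLinearMap Filter MeasureTheory

namespace Pool.Agent.Helper70.U8

open Pool.Agent.Helper23

variable {H : Type*} [NormedAddCommGroup H] [InnerProductSpace ℂ H] [CompleteSpace H]

variable {A : VonNeumannAlgebra H} {ξ : H} {R : H →L[ℂ] H} {D : H →L[ℝ] H}
  {Ψ : (ℝ →ᵇ ℂ) →⋆ₐ[ℂ] (H →L[ℂ] H)} {J : H →L[ℝ] H}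

open Pool.Agent.Helper43.TTF (JD FT FT_apply FR_apply)

lemma one_sub_norm_apply {ε : ℝ} (hε : 0 < ε) (ρ : ℝ) :
    ‖(1 - GB ε hε 0 : ℝ →ᵇ ℂ) ρ‖ ≤ min 1 (ε * ρ ^ 2) := by
  have h1 : (1 - GB ε hε 0 : ℝ →ᵇ ℂ) ρ = ((1 - Real.exp (-(ε * ρ ^ 2)) : ℝ) : ℂ) := by
    rw [BoundedContinuousFunction.sub_apply, GB_apply, Pool.Agent.Helper43.TTF.one_bcf]
    push_cast
    rw [zero_mul, add_zero]
  have h2 : Real.exp (-(ε * ρ ^ 2)) ≤ 1 := Real.exp_le_one_iff.2 (by
    have : 0 ≤ ε * ρ ^ 2 := by (clear * - hε; positivity)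
    linarith)
  have h3 := Real.add_one_le_exp (-(ε * ρ ^ 2))
  have h4 := Real.exp_pos (-(ε * ρ ^ 2))
  rw [h1, Complex.norm_real, Real.norm_of_nonneg (by (clear * - h2; linarith))]
  refine le_min (by (clear * - h4; linarith)) (by linarith)

lemma one_sub_norm {ε : ℝ} (hε : 0 < ε) : ‖(1 - GB ε hε 0 : ℝ →ᵇ ℂ)‖ ≤ 1 := by
  refine (BoundedContinuousFunction.norm_le zero_le_one).2 fun ρ => ?_
  exact (one_sub_norm_apply hε ρ).trans (min_le_left _ _)

lemma FT_mul_norm {ε : ℝ} (hε : 0 < ε) : ‖(FT * (1 - GB ε hε 0) : ℝ →ᵇ ℂ)‖ ≤ 8 * ε := by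
  refine (BoundedContinuousFunction.norm_le (by (clear * - hε; positivity))).2 fun ρ => ?_
  rw [BoundedContinuousFunction.mul_apply, norm_mul, FT_apply, Complex.norm_real,
    Real.norm_of_nonneg (by have := Real.cosh_pos (ρ / 2); positivity)]
  have h1 := (one_sub_norm_apply hε ρ).trans (min_le_right _ _)
  have h2 : ρ ^ 2 / 8 ≤ Real.cosh (ρ / 2) := by
    have e1 : Real.cosh (ρ / 2) = 1 + 2 * Real.sinh (ρ / 4) ^ 2 := by
      have := Real.cosh_two_mul (ρ / 4)
      have e2 : 2 * (ρ / 4) = ρ / 2 := by ring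
      rw [e2, Real.cosh_sq] at this
      rw [this]
      ring
    rw [e1]
    have e3 : (ρ / 4) ^ 2 ≤ Real.sinh (ρ / 4) ^ 2 := by
      rw [sq_le_sq, Real.abs_sinh]
      exact Real.self_le_sinh_iff.2 (abs_nonneg _)
    (clear * - e3; nlinarith)
  have h3 := Real.cosh_pos (ρ / 2)
  rw [inv_mul_le_iff₀ h3]
  calc ‖(1 - GB ε hε 0 : ℝ →ᵇ ℂ) ρ‖ ≤ ε * ρ ^ 2 := h1
    _ ≤ Real.cosh (ρ / 2) * (8 * ε) := by (clear * - hε h2; nlinarith)

end Pool.Agent.Helper70.U8

end

section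

open scoped InnerProductSpace Topology BoundedContinuousFunction FourierTransform ENNReal

open ContinuousLinearMap Filter MeasureTheory

set_option linter.unusedSectionVars false

namespace Pool.Agent.Helper23

variable {H : Type*} [NormedAddCommGroup H] [InnerProductSpace ℂ H] [CompleteSpace H]

variable {M N : VonNeumannAlgebra H} {ξ : H} {E : (H →L[ℂ] H) → (H →L[ℂ] H)}

lemma psi_expB_adj (Ψ : (ℝ →ᵇ ℂ) →⋆ₐ[ℂ] (H →L[ℂ] H)) (t : ℝ) (x y : H) :
    ⟪Ψ (expB (-t)) x, y⟫_ℂ = ⟪x, Ψ (expB t) y⟫_ℂ := by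
  rw [psi_adj, expB_star, neg_neg]

end Pool.Agent.Helper23

end

section

open scoped InnerProductSpace Topology ENNReal

open ContinuousLinearMap Filter MeasureTheory

set_option linter.unusedSectionVars false

set_option linter.unusedVariables false

namespace Pool.Agent.Helper23

variable {H : Type*} [NormedAddCommGroup H] [InnerProductSpace ℂ H] [CompleteSpace H]

variable {M N : VonNeumannAlgebra H} {ξ : H} {E : (H →L[ℂ] H) → (H →L[ℂ] H)}

namespace GKW

lemma cut_tendsto (F : L2R H) :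
    Tendsto (fun n : ℕ => mulOp H (ind (Set.Ico (-(n : ℝ)) n)) F) atTop (𝓝 F) := by
  rw [tendsto_iff_norm_sub_tendsto_zero]
  have h1 : Tendsto (fun n : ℕ => ENNReal.ofReal
      (‖mulOp H (ind (Set.Ico (-(n : ℝ)) n)) F - F‖ ^ 2)) atTop (𝓝 0) := by
    simp only [norm_sq_lint]
    have h2 : Tendsto (fun n : ℕ => ∫⁻ s, ENNReal.ofReal
        (‖(mulOp H (ind (Set.Ico (-(n : ℝ)) n)) F - F : L2R H) s‖ ^ 2)) atTop
        (𝓝 (∫⁻ _ : ℝ, 0)) := by
      have hcoe : ∀ᵐ s, ∀ n : ℕ, (mulOp H (ind (Set.Ico (-(n : ℝ)) n)) F - F : L2R H) s =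
          ind (Set.Ico (-(n : ℝ)) n) s • F s - F s := by
        refine ae_all_iff.2 fun n => ?_
        filter_upwards [Lp.coeFn_sub (mulOp H (ind (Set.Ico (-(n : ℝ)) n)) F) F,
          mulOp_coe (ind_bm (measurableSet_Ico (a := -(n : ℝ)) (b := n))) F] with s e1 e2
        rw [e1, Pi.sub_apply, e2]
      refine tendsto_lintegral_of_dominated_convergence' (fun s => ENNReal.ofReal (‖F s‖ ^ 2))
        (fun n => ?_) (fun n => ?_) ?_ ?_
      · exact ENNReal.measurable_ofReal.comp_aemeasurable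
          ((Lp.aestronglyMeasurable _).norm.aemeasurable.pow_const 2)
      · filter_upwards [hcoe] with s hs'
        refine ENNReal.ofReal_le_ofReal ?_
        rw [hs']
        by_cases h : s ∈ Set.Ico (-(n : ℝ)) n
        · rw [ind_of_mem h, one_smul, sub_self, norm_zero]
          simp
        · rw [ind_of_notMem h, zero_smul, zero_sub, norm_neg]
      · rw [← norm_sq_lint]
        exact ENNReal.ofReal_ne_top
      · filter_upwards [hcoe] with s hs'
        refine tendsto_const_nhds.congr' ?_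
        obtain ⟨n0, hn0⟩ := exists_nat_gt |s|
        filter_upwards [eventually_ge_atTop n0] with n hn
        have h3 : (n0 : ℝ) ≤ n := by exact_mod_cast hn
        have h4 : s ∈ Set.Ico (-(n : ℝ)) n := by
          have := abs_lt.1 (hn0.trans_le h3)
          exact ⟨this.1.le, this.2⟩
        rw [hs', ind_of_mem h4, one_smul, sub_self, norm_zero]
        simp
    rwa [lintegral_zero] at h2
  have h2 := (ENNReal.tendsto_toReal ENNReal.zero_ne_top).comp h1
  have h3 : Tendsto (fun n : ℕ => ‖mulOp H (ind (Set.Ico (-(n : ℝ)) n)) F - F‖ ^ 2) atTop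
      (𝓝 0) := by
    refine h2.congr fun n => ?_
    exact ENNReal.toReal_ofReal (by (clear * -; positivity))
  have h4 := h3.sqrt
  rw [Real.sqrt_zero] at h4
  refine h4.congr fun n => ?_
  rw [Real.sqrt_sq (norm_nonneg _)]

end GKW

end Pool.Agent.Helper23

end

section

open scoped InnerProductSpace Topology BoundedContinuousFunction

open ContinuousLinearMap Filter MeasureTheory

namespace Pool.Agent.Helper88.CS

open Pool.Agent.Helper23

variable {H : Type*} [NormedAddCommGroup H] [InnerProductSpace ℂ H] [CompleteSpace H]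

variable {A : VonNeumannAlgebra H} {ξ : H} {J : H →L[ℝ] H}
  {Ψ : (ℝ →ᵇ ℂ) →⋆ₐ[ℂ] (H →L[ℂ] H)} {R : H →L[ℂ] H} {D : H →L[ℝ] H}

/-- if all bumps around `[a, b]` fix `v` then `v` is supported in `[a, b]` -/
theorem supp_of_bump {v : H} {a b : ℝ} (h : ∀ δ : ℝ, 0 < δ → ∃ K : ℝ →ᵇ ℂ,
      (∀ ρ, ∃ r : ℝ, 0 ≤ r ∧ r ≤ 1 ∧ K ρ = (r : ℂ)) ∧
      (∀ ρ, ρ ∉ Set.Ioo (a - δ) (b + δ) → K ρ = 0) ∧ Ψ K v = v) : Supp Ψ v a b := by
  intro G hG
  rcases le_or_gt a b with hab | hab
  · have key : ∀ ε : ℝ, 0 < ε → ‖Ψ G v‖ ≤ ε * ‖v‖ := by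
      intro ε hε
      obtain ⟨d1, hd1, h1⟩ := Metric.continuousAt_iff.1
        (G.continuous.continuousAt : ContinuousAt (fun ρ : ℝ => G ρ) a) ε hε
      obtain ⟨d2, hd2, h2⟩ := Metric.continuousAt_iff.1
        (G.continuous.continuousAt : ContinuousAt (fun ρ : ℝ => G ρ) b) ε hε
      obtain ⟨K, hK1, hK2, hK3⟩ := h (min d1 d2) (lt_min hd1 hd2)
      have h3 : Ψ G v = Ψ (G * K) v := by
        rw [Pool.Agent.Helper43.TTF.psi_mul_apply, hK3]
      have h4 : ‖(G * K : ℝ →ᵇ ℂ)‖ ≤ ε := by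
        refine (BoundedContinuousFunction.norm_le hε.le).2 fun ρ => ?_
        rw [BoundedContinuousFunction.mul_apply, norm_mul]
        by_cases hρ : ρ ∈ Set.Ioo (a - min d1 d2) (b + min d1 d2)
        · obtain ⟨r, hr0, hr1, hr⟩ := hK1 ρ
          have hr' : ‖K ρ‖ ≤ 1 := by
            rw [hr, Complex.norm_real, Real.norm_of_nonneg hr0]
            exact hr1
          have hg : ‖G ρ‖ ≤ ε := by
            rcases lt_or_ge ρ a with h5 | h5
            · have h6 : dist (G ρ) (G a) < ε := h1 (by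
                rw [Real.dist_eq, abs_sub_comm, abs_of_pos (by (clear * - h5; linarith))]
                (clear * - hρ; linarith [hρ.1, min_le_left d1 d2]))
              rw [hG a ⟨le_rfl, hab⟩, dist_zero_right] at h6
              exact h6.le
            · rcases le_or_gt ρ b with h7 | h7
              · rw [hG ρ ⟨h5, h7⟩, norm_zero]
                exact hε.le
              · have h6 : dist (G ρ) (G b) < ε := h2 (by
                  rw [Real.dist_eq, abs_of_pos (by (clear * - h7; linarith))]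
                  (clear * - hρ; linarith [hρ.2, min_le_right d1 d2]))
                rw [hG b ⟨hab, le_rfl⟩, dist_zero_right] at h6
                exact h6.le
          calc ‖G ρ‖ * ‖K ρ‖ ≤ ε * 1 := mul_le_mul hg hr' (norm_nonneg _) hε.le
            _ = ε := mul_one ε
        · rw [hK2 ρ hρ, norm_zero, mul_zero]
          exact hε.le
      rw [h3]
      refine ((Ψ (G * K)).le_opNorm v).trans ?_
      gcongr
      exact (psi_norm_le Ψ _).trans h4
    have hv : (0 : ℝ) < ‖v‖ + 1 := by (clear * -; positivity)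
    rw [← norm_le_zero_iff]
    refine le_of_forall_pos_le_add fun ε hε => ?_
    rw [zero_add]
    refine (key (ε / (‖v‖ + 1)) (div_pos hε hv)).trans ?_
    rw [div_mul_eq_mul_div, div_le_iff₀ hv]
    (clear * - hε; nlinarith [norm_nonneg v])
  · obtain ⟨K, -, hK2, hK3⟩ := h ((a - b) / 2) (by (clear * - hab; linarith))
    have h1 : K = 0 := by
      ext ρ
      refine hK2 ρ fun hρ => ?_
      have h2 := hρ.1
      have h3 := hρ.2
      linarith
    rw [h1, map_zero, ContinuousLinearMap.zero_apply] at hK3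
    rw [← hK3, map_zero]

end Pool.Agent.Helper88.CS

end

end

section

section

open scoped InnerProductSpace Topology BoundedContinuousFunction FourierTransform ENNReal

open ContinuousLinearMap Filter MeasureTheory

set_option linter.unusedSectionVars false

namespace Pool.Agent.Helper23

variable {H : Type*} [NormedAddCommGroup H] [InnerProductSpace ℂ H] [CompleteSpace H]

namespace Modular

variable {A : VonNeumannAlgebra H} {ξ : H} {R : H →L[ℂ] H} {D : H →L[ℝ] H}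
  {Ψ : (ℝ →ᵇ ℂ) →⋆ₐ[ℂ] (H →L[ℂ] H)} (h : Modular A ξ R D Ψ)

include h

lemma psi_two_sub (v : H) : Ψ (2 - FR) v = (2 : ℂ) • v - R v := by
  rw [map_sub, h.psi_FR, sub_apply]
  congr 1
  have : (2 : ℝ →ᵇ ℂ) = (2 : ℂ) • (1 : ℝ →ᵇ ℂ) := by
    ext ρ
    simp
  rw [this, map_smul, map_one]
  rfl

lemma D_mem' {a : H →L[ℂ] H} (ha : a ∈ A) : D (a ξ) = Ψ (2 - FR) ((star a) ξ) := by
  rw [h.data.D_mem a ha, h.psi_two_sub]

end Modular

end Pool.Agent.Helper23

end

section

open scoped InnerProductSpace Topology ENNReal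

open ContinuousLinearMap Filter MeasureTheory

namespace Pool.Agent.Helper23

variable {H : Type*} [NormedAddCommGroup H] [InnerProductSpace ℂ H] [CompleteSpace H]

variable {G : Type*} [NormedAddCommGroup G] [InnerProductSpace ℂ G] [CompleteSpace G]

variable {M N : VonNeumannAlgebra H} {ξ : H} {E : (H →L[ℂ] H) → (H →L[ℂ] H)}

lemma bessel_win {t : ℝ} (ht : 0 < t) (A : Finset ℤ) (V : L2R G) :
    ∑ i ∈ A, ‖mulOp G (ind (win t i)) V‖ ^ 2 ≤ ‖V‖ ^ 2 := by
  have := bessel_mul ht A (fun i => ind_bm (win_meas t i)) (fun i s h => ind_of_notMem h)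
    zero_le_one (fun i s => ind_norm_le _ s) V
  rwa [one_pow, one_mul] at this

end Pool.Agent.Helper23

end

section

open scoped InnerProductSpace Topology BoundedContinuousFunction

open ContinuousLinearMap Filter MeasureTheory

namespace Pool.Agent.Helper88.CS

open Pool.Agent.Helper23

open Pool.Agent.Helper78.BC (Std Fixed)

variable {H : Type*} [NormedAddCommGroup H] [InnerProductSpace ℂ H] [CompleteSpace H]

variable {A : VonNeumannAlgebra H} {ξ : H} {J : H →L[ℝ] H}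
  {Ψ : (ℝ →ᵇ ℂ) →⋆ₐ[ℂ] (H →L[ℂ] H)} {R : H →L[ℂ] H} {D : H →L[ℝ] H}

namespace SuppBAux

open Pool.Agent.Helper70.U8 (U V)

/-- zero function of the support condition -/
theorem ker_zero {k : ℝ → ℂ} {K : ℝ →ᵇ ℂ} (hk : Ker k K) {a b : ℝ} (hab : b < a)
    (hK : ∀ ρ, ρ ∉ Set.Icc a b → K ρ = 0) (t : ℝ) : k t = 0 := by
  rw [hk.inv t]
  have h1 : ∀ ρ, K ρ = 0 := fun ρ => hK ρ fun h => by
    have := h.1.trans h.2
    exact absurd hab (not_lt.2 this)
  simp only [h1, zero_mul, integral_zero]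

end SuppBAux

end Pool.Agent.Helper88.CS

end

section

open scoped InnerProductSpace Topology ENNReal BoundedContinuousFunction

open ContinuousLinearMap Filter MeasureTheory

namespace Pool.Agent.Helper23.ED

open Pool.Agent.Helper23 Pool.Agent.Helper23.RBF

universe u

variable {H : Type*} [NormedAddCommGroup H] [InnerProductSpace ℂ H] [CompleteSpace H]

variable {A : VonNeumannAlgebra H} {ξ : H} {R : H →L[ℂ] H} {D : H →L[ℝ] H}
  {Ψ : (ℝ →ᵇ ℂ) →⋆ₐ[ℂ] (H →L[ℂ] H)}

namespace GgE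

open Pool.Agent.Helper43.TTF

lemma D_smul2 (h : TTData A ξ R D) (v : H) : D ((2 : ℂ) • v) = (2 : ℂ) • D v := by
  have h2 := h.D_conj 2 v
  rwa [Complex.conj_ofNat] at h2

lemma D_xi (h : TTData A ξ R D) {x y : H →L[ℂ] H} (hy : y ∈ A)
    (hr : R (x ξ) = (2 : ℂ) • y ξ - R (y ξ)) : D (x ξ) = R ((star y) ξ) := by
  have h1 : D (R (x ξ)) = R (D (y ξ)) := by
    rw [hr, map_sub, D_smul2 h, h.D_R]
    abel
  rw [h.D_R, h.D_mem y hy] at h1
  have h2 : R (D (x ξ) - R ((star y) ξ)) = (2 : ℂ) • (D (x ξ) - R ((star y) ξ)) := by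
    rw [map_sub, smul_sub]
    rw [map_sub, map_smul] at h1
    have h3 : R (D (x ξ)) = (2 : ℂ) • D (x ξ) - ((2 : ℂ) • R ((star y) ξ) - R (R ((star y) ξ))) := by
      rw [← h1]
      abel
    rw [h3]
    abel
  exact sub_eq_zero.1 (h.R_inj' _ h2)

end GgE

end Pool.Agent.Helper23.ED

end

end

section

section

open scoped InnerProductSpace Topology BoundedContinuousFunction

open ContinuousLinearMap Filter

namespace Pool.Agent.Helper78.BC.StdEx

open Pool.Agent.Helper23 Pool.Agent.Helper70.U8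

open Pool.Agent.Helper43.TTF (FC JD FT FT_apply FR_apply)

variable {H : Type*} [NormedAddCommGroup H] [InnerProductSpace ℂ H] [CompleteSpace H]

variable {A : VonNeumannAlgebra H} {ξ : H} {R : H →L[ℂ] H} {D : H →L[ℝ] H}
  {Ψ : (ℝ →ᵇ ℂ) →⋆ₐ[ℂ] (H →L[ℂ] H)} {J : H →L[ℝ] H}

/-- the Gaussians converge to one -/
lemma psi_gauss (hF : FC R D Ψ) (v : H) :
    Tendsto (fun n : ℕ => Ψ (GB (1 / ((n : ℝ) + 1)) (by (clear * -; positivity)) 0) v) atTop (𝓝 v) := by
  have h1 := hF.psi_cont (fun n : ℕ => GB (1 / ((n : ℝ) + 1)) (by (clear * -; positivity)) 0) 1 1 ?_ ?_ v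
  · rwa [map_one, one_apply_eq_self] at h1
  · intro n
    refine (BoundedContinuousFunction.norm_le zero_le_one).2 fun ρ => ?_
    rw [GB_apply, Complex.norm_real, Real.norm_of_nonneg (Real.exp_pos _).le, zero_mul, add_zero]
    refine Real.exp_le_one_iff.2 ?_
    have : 0 ≤ 1 / ((n : ℝ) + 1) * ρ ^ 2 := by (clear * -; positivity)
    linarith
  · intro L
    rw [Metric.tendstoUniformlyOn_iff]
    intro ε hε
    obtain ⟨m, hm⟩ := exists_nat_gt (L ^ 2 / ε)
    filter_upwards [eventually_ge_atTop m] with n hn ρ hρ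
    have h2 : (0 : ℝ) < 1 / ((n : ℝ) + 1) := by (clear * -; positivity)
    have h3 := (one_sub_norm_apply h2 ρ).trans (min_le_right _ _)
    rw [BoundedContinuousFunction.sub_apply] at h3
    rw [dist_eq_norm]
    refine h3.trans_lt ?_
    have h4 : ρ ^ 2 ≤ L ^ 2 := by
      rw [Set.mem_Icc] at hρ
      exact sq_le_sq' (by (clear * - hρ; linarith [hρ.1])) hρ.2
    have h5 : (m : ℝ) ≤ n := by exact_mod_cast hn
    have h6 : L ^ 2 / ε < (n : ℝ) + 1 := by (clear * - hm h5; linarith)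
    rw [div_lt_iff₀ hε] at h6
    rw [one_div, inv_mul_lt_iff₀ (by (clear * -; positivity))]
    (clear * - h4 h6; linarith)

end Pool.Agent.Helper78.BC.StdEx

end

end

section

section

open scoped InnerProductSpace

open ContinuousLinearMap Filter

namespace Pool.Agent.Helper23

variable {H : Type*} [NormedAddCommGroup H] [InnerProductSpace ℂ H] [CompleteSpace H]

variable {M N : VonNeumannAlgebra H} {ξ : H} {E : (H →L[ℂ] H) → (H →L[ℂ] H)}

lemma eig_star_one {a : H →L[ℂ] H} (ha : a ∈ eig N ξ 1) : star a ∈ eig N ξ 1 := by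
  have := eig_star one_ne_zero ha
  rwa [inv_one] at this

lemma Ucent_star {u : H →L[ℂ] H} (hu : u ∈ Ucent N ξ) : star u ∈ Ucent N ξ :=
  ⟨eig_star_one hu.1, by rw [star_star]; exact hu.2.2, by rw [star_star]; exact hu.2.1⟩

end Pool.Agent.Helper23

end

section

open scoped InnerProductSpace

open ContinuousLinearMap Filter

namespace Pool.Agent.Helper23

variable {H : Type*} [NormedAddCommGroup H] [InnerProductSpace ℂ H] [CompleteSpace H]

variable {M N : VonNeumannAlgebra H} {ξ : H} {E : (H →L[ℂ] H) → (H →L[ℂ] H)}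

/-- the partner of an eigenoperator -/
lemma Partner.of_eig {γ : ℝ} (hγ : γ ≠ 0) {a : H →L[ℂ] H} (ha : a ∈ eig N ξ γ) :
    Partner N ξ a (((γ⁻¹ : ℝ) : ℂ) • a) :=
  ⟨ha.1, smul_mem' _ ha.1, fun z hz => by
    rw [smul_apply, map_smul, inner_smul_right, ha.2 z hz, ← mul_assoc, ← Complex.ofReal_mul,
      inv_mul_cancel₀ hγ, Complex.ofReal_one, one_mul]⟩

lemma Partner.of_cent {u : H →L[ℂ] H} (hu : u ∈ eig N ξ 1) : Partner N ξ u u := by
  have := Partner.of_eig one_ne_zero hu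
  simpa using this

/-- conjugation by a unitary of the centralizer -/
lemma Partner.conj {C C' u : H →L[ℂ] H} (h : Partner N ξ C C') (hu : u ∈ Ucent N ξ) :
    Partner N ξ (u * C * star u) (u * C' * star u) :=
  ((Partner.of_cent hu.1).mul h).mul (Partner.of_cent (Ucent_star hu).1)

end Pool.Agent.Helper23

end

end

section

section

open scoped InnerProductSpace

open ContinuousLinearMap

namespace Pool.Agent.Helper23

variable {H : Type*} [NormedAddCommGroup H] [InnerProductSpace ℂ H] [CompleteSpace H]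

/-- Boundedness and convergence on a cyclic vector of the commutant give strong convergence. -/
lemma tendsto_of_bounded {ι : Type*} {l : Filter ι} (A : VonNeumannAlgebra H) {ξ : H}
    (hd : Dense (orb A.commutant ξ : Set H)) {x : ι → H →L[ℂ] H} {C : ℝ}
    (hx : ∀ i, x i ∈ A) (hC : ∀ i, ‖x i‖ ≤ C)
    (h0 : Filter.Tendsto (fun i => x i ξ) l (nhds 0)) (ζ : H) :
    Filter.Tendsto (fun i => x i ζ) l (nhds 0) := by
  rcases l.eq_or_neBot with hbot | hne
  · rw [hbot]; exact Filter.tendsto_bot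
  have hC0 : 0 ≤ C := by
    obtain ⟨i⟩ : Nonempty ι := Filter.nonempty_of_neBot l
    exact (norm_nonneg _).trans (hC i)
  rw [Metric.tendsto_nhds]
  intro ε hε
  obtain ⟨z, hz, hzζ⟩ := Metric.dense_iff.1 hd ζ (ε / (2 * (C + 1))) (by (clear * - hε hC0; positivity))
  obtain ⟨y, hy, rfl⟩ := hzζ
  have h1 : Filter.Tendsto (fun i => ‖y‖ * ‖x i ξ‖) l (nhds 0) := by
    have := h0.norm.const_mul ‖y‖
    simpa using this
  have h2 := (Metric.tendsto_nhds.1 h1) (ε / 2) (by positivity)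
  filter_upwards [h2] with i hi
  rw [dist_zero_right]
  rw [Real.dist_eq, sub_zero, abs_of_nonneg (by (clear * -; positivity))] at hi
  have h3 : x i ζ = x i (ζ - y ξ) + y (x i ξ) := by
    rw [map_sub, commute_apply (hx i) hy]
    abel
  rw [h3]
  have h4 : ‖ζ - y ξ‖ < ε / (2 * (C + 1)) := by
    rw [Metric.mem_ball, dist_eq_norm, norm_sub_rev] at hz
    exact hz
  calc ‖x i (ζ - y ξ) + y (x i ξ)‖ ≤ ‖x i (ζ - y ξ)‖ + ‖y (x i ξ)‖ := norm_add_le _ _
    _ ≤ C * ‖ζ - y ξ‖ + ‖y‖ * ‖x i ξ‖ := by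
        gcongr
        · exact (x i).le_of_opNorm_le (hC i) _
        · exact y.le_opNorm _
    _ ≤ (C + 1) * ‖ζ - y ξ‖ + ‖y‖ * ‖x i ξ‖ := by
        gcongr
        (clear * -; linarith)
    _ < (C + 1) * (ε / (2 * (C + 1))) + ε / 2 := by
        have : 0 < C + 1 := by (clear * - hC0; positivity)
        (clear * - hi h4 hC0; nlinarith)
    _ = ε := by
        field_simp
        ring

end Pool.Agent.Helper23

end

end

section

section

open scoped InnerProductSpace Topology BoundedContinuousFunction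

open ContinuousLinearMap Filter MeasureTheory

namespace Pool.Agent.Helper88.CS

open Pool.Agent.Helper23

open Pool.Agent.Helper78.BC (Std Fixed)

variable {H : Type*} [NormedAddCommGroup H] [InnerProductSpace ℂ H] [CompleteSpace H]

namespace FourierAux

theorem expB_apply' (t ρ : ℝ) : expB t ρ = Complex.exp ((t * ρ : ℝ) * Complex.I) := rfl

theorem norm_expB_apply (t ρ : ℝ) : ‖expB t ρ‖ = 1 := by
  rw [expB_apply', Complex.norm_exp_ofReal_mul_I]

theorem expB_add_left (t s ρ : ℝ) : expB (t + s) ρ = expB t ρ * expB s ρ := by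
  rw [expB_apply', expB_apply', expB_apply', ← Complex.exp_add]
  congr 1
  push_cast
  ring

theorem expB_add_right (t ρ σ : ℝ) : expB t (ρ + σ) = expB t ρ * expB t σ := by
  rw [expB_apply', expB_apply', expB_apply', ← Complex.exp_add]
  congr 1
  push_cast
  ring

theorem continuous_expB : Continuous fun p : ℝ × ℝ => expB p.1 p.2 := by
  have : (fun p : ℝ × ℝ => expB p.1 p.2) =
      fun p : ℝ × ℝ => Complex.exp ((p.1 * p.2 : ℝ) * Complex.I) := by
    ext p
    rw [expB_apply']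
  rw [this]
  fun_prop

end FourierAux

open FourierAux

open scoped FourierTransform ContDiff in
/-- a smooth function of compact support has a kernel -/
theorem exists_ker (K : ℝ →ᵇ ℂ) (hK : ContDiff ℝ ∞ (K : ℝ → ℂ))
    (hc : HasCompactSupport (K : ℝ → ℂ)) : ∃ k : ℝ → ℂ, Ker k K := by
  set f : SchwartzMap ℝ ℂ := hc.toSchwartzMap hK with hf
  have hfK : ∀ ρ, f ρ = K ρ := fun ρ => rfl
  refine ⟨fun t => (𝓕 f) t, (𝓕 f).continuous, (𝓕 f).integrable, f.integrable, ?_, ?_⟩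
  · intro ρ
    have h1 : 𝓕⁻ (𝓕 f) = f := FourierTransform.fourierInv_fourier_eq f
    have h2 : (𝓕⁻ (𝓕 f)) ρ = 𝓕⁻ ((𝓕 f : SchwartzMap ℝ ℂ) : ℝ → ℂ) ρ := by
      rw [SchwartzMap.fourierInv_coe]
    rw [← hfK, ← congrFun (congrArg DFunLike.coe h1) ρ, h2, Real.fourierInv_eq']
    refine integral_congr_ae (Eventually.of_forall fun t => ?_)
    simp only [smul_eq_mul, RCLike.inner_apply, conj_trivial]
    rw [expB_apply', mul_comm]
    congr 3
    push_cast
    ring
  · intro t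
    have h2 : (𝓕 f) t = 𝓕 (f : ℝ → ℂ) t := by
      rw [SchwartzMap.fourier_coe]
    simp only [h2]
    rw [Real.fourier_eq']
    refine integral_congr_ae (Eventually.of_forall fun ρ => ?_)
    simp only [smul_eq_mul, RCLike.inner_apply, conj_trivial]
    rw [expB_apply', mul_comm, hfK]
    congr 3
    push_cast
    ring

/-- bump kernels -/
theorem exists_bump (a b δ : ℝ) (hab : a ≤ b) (hδ : 0 < δ) :
    ∃ (k : ℝ → ℂ) (K : ℝ →ᵇ ℂ), Ker k K ∧ (∀ ρ, ∃ r : ℝ, 0 ≤ r ∧ r ≤ 1 ∧ K ρ = (r : ℂ)) ∧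
      (∀ ρ ∈ Set.Icc a b, K ρ = 1) ∧ ∀ ρ, ρ ∉ Set.Ioo (a - δ) (b + δ) → K ρ = 0 := by
  let φ : ContDiffBump ((a + b) / 2 : ℝ) :=
    ⟨(b - a) / 2 + δ / 4, (b - a) / 2 + δ / 2, by linarith, by (clear * - hδ; linarith)⟩
  have hφc : Continuous fun ρ : ℝ => ((φ ρ : ℝ) : ℂ) := Complex.continuous_ofReal.comp φ.continuous
  let K : ℝ →ᵇ ℂ := BoundedContinuousFunction.ofNormedAddCommGroup
    (fun ρ : ℝ => ((φ ρ : ℝ) : ℂ)) hφc 1 (by
      intro ρ
      rw [Complex.norm_real, Real.norm_eq_abs, abs_of_nonneg φ.nonneg]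
      exact φ.le_one)
  have hK : ∀ ρ, K ρ = ((φ ρ : ℝ) : ℂ) := fun ρ => rfl
  have hsm : ContDiff ℝ (⊤ : ℕ∞) (K : ℝ → ℂ) := by
    have h1 : ContDiff ℝ (⊤ : ℕ∞) (fun ρ : ℝ => (φ ρ : ℝ)) := φ.contDiff
    exact Complex.ofRealCLM.contDiff.comp h1
  have hcs : HasCompactSupport (K : ℝ → ℂ) := by
    have h1 : HasCompactSupport (fun ρ : ℝ => (φ ρ : ℝ)) := φ.hasCompactSupport
    exact h1.comp_left (g := fun x : ℝ => (x : ℂ)) Complex.ofReal_zero
  obtain ⟨k, hk⟩ := exists_ker K hsm hcs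
  refine ⟨k, K, hk, ?_, ?_, ?_⟩
  · intro ρ
    exact ⟨φ ρ, φ.nonneg, φ.le_one, hK ρ⟩
  · intro ρ hρ
    rw [hK, φ.one_of_mem_closedBall, Complex.ofReal_one]
    rw [Metric.mem_closedBall, Real.dist_eq, abs_le]
    have h1 := hρ.1
    have h2 := hρ.2
    change -((b - a) / 2 + δ / 4) ≤ _ ∧ _ ≤ ((b - a) / 2 + δ / 4)
    constructor <;> linarith
  · intro ρ hρ
    rw [hK, φ.zero_of_le_dist, Complex.ofReal_zero]
    rw [Real.dist_eq]
    change ((b - a) / 2 + δ / 2) ≤ _
    by_contra hcon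
    push Not at hcon
    rw [abs_lt] at hcon
    apply hρ
    constructor <;> linarith [hcon.1, hcon.2]

/-- translation of a kernel -/
theorem Ker.shift {k : ℝ → ℂ} {K : ℝ →ᵇ ℂ} (h : Ker k K) (s : ℝ) :
    ∃ K' : ℝ →ᵇ ℂ, Ker (fun t => k (t - s)) K' ∧
      ∀ ρ, K' ρ = expB (2 * Real.pi * s) ρ * K ρ := by
  refine ⟨expB (2 * Real.pi * s) * K, ⟨?_, ?_, ?_, ?_, ?_⟩, fun ρ => rfl⟩
  · exact h.cont.comp (continuous_id.sub continuous_const)
  · exact h.int.comp_sub_right s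
  · have h1 : ((expB (2 * Real.pi * s) * K : ℝ →ᵇ ℂ) : ℝ → ℂ) =
        fun ρ => expB (2 * Real.pi * s) ρ * K ρ := rfl
    rw [h1]
    refine h.Kint.bdd_mul (c := 1) (expB (2 * Real.pi * s)).continuous.aestronglyMeasurable ?_
    exact Eventually.of_forall fun ρ => (norm_expB_apply _ _).le
  · intro ρ
    have h1 : ∫ t, k (t - s) * expB (2 * Real.pi * t) ρ =
        ∫ t, k t * expB (2 * Real.pi * (t + s)) ρ := by
      rw [← integral_sub_right_eq_self (fun t => k t * expB (2 * Real.pi * (t + s)) ρ) s]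
      simp only [sub_add_cancel]
    rw [h1]
    have h2 : ∀ t, k t * expB (2 * Real.pi * (t + s)) ρ =
        expB (2 * Real.pi * s) ρ * (k t * expB (2 * Real.pi * t) ρ) := by
      intro t
      rw [mul_add, expB_add_left]
      ring
    simp_rw [h2]
    rw [integral_const_mul, ← h.four]
    rfl
  · intro t
    rw [h.inv]
    refine integral_congr_ae (Eventually.of_forall fun ρ => ?_)
    have h2 : -(2 * Real.pi * (t - s)) = -(2 * Real.pi * t) + 2 * Real.pi * s := by ring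
    change K ρ * expB (-(2 * Real.pi * (t - s))) ρ =
      (expB (2 * Real.pi * s) ρ * K ρ) * expB (-(2 * Real.pi * t)) ρ
    rw [h2, expB_add_left]
    ring

theorem kernel_identity {h k l : ℝ → ℂ} {H' K L : ℝ →ᵇ ℂ} (hh : Ker h H') (hk : Ker k K)
    (hl : Ker l L) (hs : ∀ α β, K α ≠ 0 → L β ≠ 0 → H' (α + β) = 1) (t s : ℝ) :
    ∫ r, h r * (k (t - r) * l (s - r)) = k t * l s := by
  -- the product kernel
  have hprod : ∀ t' s' : ℝ, k t' * l s' = ∫ z : ℝ × ℝ,
      (K z.1 * expB (-(2 * Real.pi * t')) z.1) * (L z.2 * expB (-(2 * Real.pi * s')) z.2) := by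
    intro t' s'
    rw [hk.inv t', hl.inv s']
    exact (integral_prod_mul (μ := (volume : Measure ℝ)) (ν := (volume : Measure ℝ))
      (fun α => K α * expB (-(2 * Real.pi * t')) α)
      (fun β => L β * expB (-(2 * Real.pi * s')) β)).symm
  have hKL : Integrable (fun z : ℝ × ℝ => K z.1 * L z.2)
      ((volume : Measure ℝ).prod (volume : Measure ℝ)) := hk.Kint.mul_prod hl.Kint
  have hhKL : Integrable (fun w : ℝ × (ℝ × ℝ) => h w.1 * (K w.2.1 * L w.2.2))
      ((volume : Measure ℝ).prod ((volume : Measure ℝ).prod (volume : Measure ℝ))) :=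
    hh.int.mul_prod hKL
  have hF : Integrable (fun w : ℝ × (ℝ × ℝ) =>
      (expB (-(2 * Real.pi * (t - w.1))) w.2.1 * expB (-(2 * Real.pi * (s - w.1))) w.2.2) *
        (h w.1 * (K w.2.1 * L w.2.2)))
      ((volume : Measure ℝ).prod ((volume : Measure ℝ).prod (volume : Measure ℝ))) := by
    refine hhKL.bdd_mul (c := 1) ?_ ?_
    · refine Continuous.aestronglyMeasurable ?_
      refine Continuous.mul ?_ ?_
      · exact continuous_expB.comp (f := fun w : ℝ × (ℝ × ℝ) =>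
          (-(2 * Real.pi * (t - w.1)), w.2.1)) (by fun_prop)
      · exact continuous_expB.comp (f := fun w : ℝ × (ℝ × ℝ) =>
          (-(2 * Real.pi * (s - w.1)), w.2.2)) (by fun_prop)
    · exact Eventually.of_forall fun w => by
        rw [norm_mul, norm_expB_apply, norm_expB_apply, one_mul]
  have h1 : ∀ r, h r * (k (t - r) * l (s - r)) = ∫ z : ℝ × ℝ,
      (expB (-(2 * Real.pi * (t - r))) z.1 * expB (-(2 * Real.pi * (s - r))) z.2) *
        (h r * (K z.1 * L z.2)) := by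
    intro r
    rw [hprod, ← integral_const_mul]
    refine integral_congr_ae (Eventually.of_forall fun z => ?_)
    simp only
    ring
  simp_rw [h1]
  have h2 := integral_integral_swap (μ := (volume : Measure ℝ))
    (ν := (volume : Measure ℝ).prod (volume : Measure ℝ))
    (f := fun (r : ℝ) (z : ℝ × ℝ) =>
      (expB (-(2 * Real.pi * (t - r))) z.1 * expB (-(2 * Real.pi * (s - r))) z.2) *
        (h r * (K z.1 * L z.2))) hF
  change ∫ r, ∫ z, (expB (-(2 * Real.pi * (t - r))) z.1 * expB (-(2 * Real.pi * (s - r))) z.2) *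
        (h r * (K z.1 * L z.2)) ∂((volume : Measure ℝ).prod (volume : Measure ℝ)) = k t * l s
  rw [h2, hprod t s]
  change _ = ∫ z : ℝ × ℝ,
      (K z.1 * expB (-(2 * Real.pi * t)) z.1) * (L z.2 * expB (-(2 * Real.pi * s)) z.2)
      ∂((volume : Measure ℝ).prod (volume : Measure ℝ))
  refine integral_congr_ae (Eventually.of_forall fun z => ?_)
  obtain ⟨α, β⟩ := z
  simp only
  have h3 : ∀ r, (expB (-(2 * Real.pi * (t - r))) α * expB (-(2 * Real.pi * (s - r))) β) *
        (h r * (K α * L β)) =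
      ((K α * expB (-(2 * Real.pi * t)) α) * (L β * expB (-(2 * Real.pi * s)) β)) *
        (h r * expB (2 * Real.pi * r) (α + β)) := by
    intro r
    have e1 : -(2 * Real.pi * (t - r)) = -(2 * Real.pi * t) + 2 * Real.pi * r := by ring
    have e2 : -(2 * Real.pi * (s - r)) = -(2 * Real.pi * s) + 2 * Real.pi * r := by ring
    rw [e1, e2, expB_add_left, expB_add_left, expB_add_right]
    ring
  simp_rw [h3]
  rw [integral_const_mul, ← hh.four]
  by_cases hα : K α = 0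
  · rw [hα]
    ring
  by_cases hβ : L β = 0
  · rw [hβ]
    ring
  rw [hs α β hα hβ, mul_one]

end Pool.Agent.Helper88.CS

end

section

open scoped InnerProductSpace Topology BoundedContinuousFunction

open ContinuousLinearMap Filter MeasureTheory

namespace Pool.Agent.Helper88.CS

open Pool.Agent.Helper23

open Pool.Agent.Helper78.BC (Std Fixed)

variable {H : Type*} [NormedAddCommGroup H] [InnerProductSpace ℂ H] [CompleteSpace H]

theorem triple {h k l : ℝ → ℂ} {H' K L : ℝ →ᵇ ℂ} (hh : Ker h H') (hk : Ker k K)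
    (hl : Ker l L) (hs : ∀ α β, K α ≠ 0 → L β ≠ 0 → H' (α + β) = 1) {Φ : ℝ → ℝ → ℂ}
    (hΦ : Continuous fun p : ℝ × ℝ => Φ p.1 p.2) {C : ℝ} (hC : ∀ t s, ‖Φ t s‖ ≤ C) :
    ∫ r, h r * ∫ t, k t * ∫ s, l s * Φ (t + r) (s + r) = ∫ t, k t * ∫ s, l s * Φ t s :=
  TripleAux.core hh.int hk.int hl.int (kernel_identity hh hk hl hs) hΦ hC

end Pool.Agent.Helper88.CS

end

end

section

section

open scoped InnerProductSpace TensorProduct

open ContinuousLinearMap

namespace Pool.Agent.Helper23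

variable {H : Type*} [NormedAddCommGroup H] [InnerProductSpace ℂ H] [CompleteSpace H]

variable {M N : VonNeumannAlgebra H} {ξ : H} {E : (H →L[ℂ] H) → (H →L[ℂ] H)}

/-- `Rel γ y z` : `a y = z a` for every eigenoperator `a` with eigenvalue `γ`. -/
def Rel (N : VonNeumannAlgebra H) (ξ : H) (γ : ℝ) (y z : H →L[ℂ] H) : Prop :=
  ∀ a ∈ eig N ξ γ, a * y = z * a

/-- `Rel` and adjoints of the eigenoperators. -/
lemma Rel.star_left {γ : ℝ} {y z : H →L[ℂ] H} (h : Rel N ξ γ y z) {a : H →L[ℂ] H}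
    (ha : a ∈ eig N ξ γ) : star y * star a = star a * star z := by
  have := congrArg star (h a ha)
  simpa [star_mul] using this

lemma Rel.mul {γ : ℝ} {y z y' z' : H →L[ℂ] H} (h : Rel N ξ γ y z) (h' : Rel N ξ γ y' z') :
    Rel N ξ γ (y * y') (z * z') := by
  intro a ha
  rw [← mul_assoc, h a ha, mul_assoc, h' a ha, mul_assoc]

lemma Rel.add {γ : ℝ} {y z y' z' : H →L[ℂ] H} (h : Rel N ξ γ y z) (h' : Rel N ξ γ y' z') :
    Rel N ξ γ (y + y') (z + z') := by
  intro a ha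
  rw [mul_add, add_mul, h a ha, h' a ha]

lemma Rel.sub {γ : ℝ} {y z y' z' : H →L[ℂ] H} (h : Rel N ξ γ y z) (h' : Rel N ξ γ y' z') :
    Rel N ξ γ (y - y') (z - z') := by
  intro a ha
  rw [mul_sub, sub_mul, h a ha, h' a ha]

lemma Rel.smul {γ : ℝ} {y z : H →L[ℂ] H} (k : ℂ) (h : Rel N ξ γ y z) :
    Rel N ξ γ (k • y) (k • z) := by
  intro a ha
  rw [mul_smul_comm, smul_mul_assoc, h a ha]

end Pool.Agent.Helper23

end

section

open scoped InnerProductSpace Topology ENNReal BoundedContinuousFunction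

open ContinuousLinearMap Filter MeasureTheory

namespace Pool.Agent.Helper23.ED

open Pool.Agent.Helper23 Pool.Agent.Helper23.RBF

open Pool.Agent.Helper78.BC.Transport (Sub r)

universe u

variable {H : Type u} [NormedAddCommGroup H] [InnerProductSpace ℂ H] [CompleteSpace H]

variable {K : Type u} [NormedAddCommGroup K] [InnerProductSpace ℂ K] [CompleteSpace K]

variable {L : Type u} [NormedAddCommGroup L] [InnerProductSpace ℂ L] [CompleteSpace L]

variable {N : VonNeumannAlgebra H} {ψ : (H →L[ℂ] H) → ℝ≥0∞} {ξ : H} {i : K →L[ℂ] H} {κ : K}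
  {Λ : (H →L[ℂ] H) → L} {ρ : (H →L[ℂ] H) → (L →L[ℂ] L)}

namespace WtD

lemma inc_mem {b : ℕ → H →L[ℂ] H} (hb : ∀ j, b j ∈ N) (k j : ℕ) : inc b k j ∈ N :=
  smul_mem' _ (base_mem hb (k + j))

lemma wseq_mem {b : ℕ → H →L[ℂ] H} (hb : ∀ j, b j ∈ N) (k n : ℕ) : wseq b k n ∈ N :=
  sum_mem fun j _ => inc_mem hb k j

lemma inc_form (b : ℕ → H →L[ℂ] H) (k j : ℕ) (v : H) :
    (⟪v, inc b k j v⟫_ℂ).re = 2 ^ (k + j + 1) * ‖star (b (k + j + 1) - b (k + j)) v‖ ^ 2 := by
  have h1 : inc b k j v = ((((2 : ℝ) ^ (k + j + 1) : ℝ)) : ℂ) •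
      ((b (k + j + 1) - b (k + j)) (star (b (k + j + 1) - b (k + j)) v)) := rfl
  rw [h1, inner_smul_right, ← inner_star_left, Complex.re_ofReal_mul]
  congr 1
  rw [inner_self_eq_norm_sq_to_K]
  norm_cast

lemma wseq_form (b : ℕ → H →L[ℂ] H) (k n : ℕ) (v : H) :
    (⟪v, wseq b k n v⟫_ℂ).re =
      ∑ j ∈ Finset.range n, 2 ^ (k + j + 1) * ‖star (b (k + j + 1) - b (k + j)) v‖ ^ 2 := by
  induction n with
  | zero => simp [wseq]
  | succ n ih =>
    rw [wseq_succ, Finset.sum_range_succ, ← ih, ← inc_form, add_apply, inner_add_right,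
      Complex.add_re]

lemma psi_wseq (hψ : IsNSFWeight N ψ) {b : ℕ → H →L[ℂ] H} (hb : ∀ j, b j ∈ N)
    (hc : ∀ j, ψ ((b (j + 1) - b j) * star (b (j + 1) - b j)) ≤
      ENNReal.ofReal ((1 / 4) ^ (j + 1))) (k n : ℕ) :
    ψ (wseq b k n) ≤ ENNReal.ofReal ((1 / 2) ^ k - (1 / 2) ^ (k + n)) := by
  induction n with
  | zero =>
    have h0 : wseq b k 0 = 0 := by simp [wseq]
    rw [h0, wt_zero hψ]
    exact zero_le
  | succ n ih =>
    rw [wseq_succ, hψ.add _ (wseq_mem hb k n) _ (inc_mem hb k n) (wseq_nonneg b k n)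
      (inc_nonneg b k n)]
    have h1 : ψ (inc b k n) ≤ ENNReal.ofReal ((1 / 2) ^ (k + n + 1)) := by
      rw [inc, hψ.smul _ (base_mem hb (k + n)) (mul_star_self_nonneg _) _ (by positivity)]
      refine (mul_le_mul_right (hc (k + n)) _).trans (le_of_eq ?_)
      rw [← ENNReal.ofReal_mul (by positivity), ← mul_pow]
      norm_num
    have h2 : ((1 : ℝ) / 2) ^ k - (1 / 2) ^ (k + (n + 1)) =
        ((1 / 2) ^ k - (1 / 2) ^ (k + n)) + (1 / 2) ^ (k + n + 1) := by
      rw [← add_assoc, pow_succ ((1 : ℝ) / 2) (k + n)]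
      ring
    have h3 : (0 : ℝ) ≤ (1 / 2) ^ k - (1 / 2) ^ (k + n) := by
      have : ((1 : ℝ) / 2) ^ (k + n) ≤ (1 / 2) ^ k :=
        pow_le_pow_of_le_one (by norm_num) (by norm_num) (by omega)
      (clear * - this; linarith)
    rw [h2, ENNReal.ofReal_add h3 (by positivity)]
    exact add_le_add ih h1

lemma cs (b : ℕ → H →L[ℂ] H) (k n : ℕ) (v : H) :
    ‖star (b (k + n) - b k) v‖ ^ 2 ≤ (⟪v, wseq b k n v⟫_ℂ).re := by
  rw [wseq_form]
  set f : ℕ → ℝ := fun j => ‖star (b (k + j + 1) - b (k + j)) v‖ with hf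
  set g : ℕ → ℝ := fun j => (1 / 2) ^ (k + j + 1) with hg
  have hg0 : ∀ j, 0 < g j := fun j => by simp only [hg]; positivity
  have h1 := Finset.sq_sum_div_le_sum_sq_div (Finset.range n) f (g := g) (fun j _ => hg0 j)
  have h2 : ∀ m : ℕ, ∑ j ∈ Finset.range m, g j ≤ (1 / 2) ^ k - (1 / 2) ^ (k + m) := by
    intro m
    induction m with
    | zero => simp
    | succ m ih =>
      rw [Finset.sum_range_succ]
      have h3 : ((1 : ℝ) / 2) ^ (k + (m + 1)) = (1 / 2) ^ (k + m) / 2 := by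
        rw [← add_assoc, pow_succ]; ring
      have h4 : g m = (1 / 2) ^ (k + m) / 2 := by
        simp only [hg]; rw [pow_succ]; ring
      rw [h3, h4]
      (clear * - ih; linarith)
  have h5 : ∑ j ∈ Finset.range n, g j ≤ 1 := by
    have h6 := h2 n
    have h7 : ((1 : ℝ) / 2) ^ k ≤ 1 := pow_le_one₀ (by norm_num) (by norm_num)
    have h8 : (0 : ℝ) ≤ (1 / 2) ^ (k + n) := by (clear * -; positivity)
    (clear * - h6 h7 h8; linarith)
  have h6 : ‖star (b (k + n) - b k) v‖ ^ 2 ≤ (∑ j ∈ Finset.range n, f j) ^ 2 :=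
    pow_le_pow_left₀ (norm_nonneg _) (tele b k n v) 2
  have h7 : ∑ j ∈ Finset.range n, f j ^ 2 / g j =
      ∑ j ∈ Finset.range n, 2 ^ (k + j + 1) * f j ^ 2 := by
    refine Finset.sum_congr rfl fun j _ => ?_
    simp only [hg]
    rw [div_pow, one_pow, div_div_eq_mul_div, div_one, mul_comm]
  rw [h7] at h1
  refine h6.trans ?_
  rcases Nat.eq_zero_or_pos n with hn | hn
  · subst hn; simp
  · have hs : 0 < ∑ j ∈ Finset.range n, g j :=
      Finset.sum_pos (fun j _ => hg0 j) ⟨0, Finset.mem_range.2 hn⟩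
    rw [div_le_iff₀ hs] at h1
    refine h1.trans ?_
    have h9 : 0 ≤ ∑ j ∈ Finset.range n, 2 ^ (k + j + 1) * f j ^ 2 :=
      Finset.sum_nonneg fun j _ => by (clear * -; positivity)
    exact mul_le_of_le_one_right h9 h5

end WtD

end Pool.Agent.Helper23.ED

end

end

section

section

open scoped InnerProductSpace Topology

open ContinuousLinearMap Filter

namespace Pool.Agent.Helper23

variable {H : Type*} [NormedAddCommGroup H] [InnerProductSpace ℂ H] [CompleteSpace H]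

variable {M N : VonNeumannAlgebra H} {ξ : H} {E : (H →L[ℂ] H) → (H →L[ℂ] H)}

lemma tendsto_of_bounded_ev {ι : Type*} {l : Filter ι} (A : VonNeumannAlgebra H) {ξ : H}
    (hd : Dense (orb A.commutant ξ : Set H)) {x : ι → H →L[ℂ] H} {C : ℝ}
    (hx : ∀ᶠ i in l, x i ∈ A ∧ ‖x i‖ ≤ C) (hC0 : 0 ≤ C)
    (h0 : Tendsto (fun i => x i ξ) l (nhds 0)) (ζ : H) :
    Tendsto (fun i => x i ζ) l (nhds 0) := by
  classical
  have h1 : Tendsto (fun i => (if x i ∈ A ∧ ‖x i‖ ≤ C then x i else 0) ζ) l (nhds 0) := by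
    refine tendsto_of_bounded A hd (x := fun i => if x i ∈ A ∧ ‖x i‖ ≤ C then x i else 0) (C := C)
      (fun i => ?_) (fun i => ?_) (h0.congr' ?_) ζ
    · by_cases h : x i ∈ A ∧ ‖x i‖ ≤ C
      · simp only [if_pos h]; exact h.1
      · simp only [if_neg h]; exact zero_mem A
    · by_cases h : x i ∈ A ∧ ‖x i‖ ≤ C
      · simp only [if_pos h]; exact h.2
      · simp only [if_neg h, norm_zero]; exact hC0
    · filter_upwards [hx] with i hi
      rw [if_pos hi]
  refine h1.congr' ?_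
  filter_upwards [hx] with i hi
  rw [if_pos hi]

end Pool.Agent.Helper23

end

end

section

section

open scoped InnerProductSpace Topology ENNReal

open ContinuousLinearMap Filter MeasureTheory

set_option linter.unusedSectionVars false

set_option linter.unusedVariables false

namespace Pool.Agent.Helper23

variable {G : Type*} [NormedAddCommGroup G] [InnerProductSpace ℂ G] [CompleteSpace G]

variable {G' : Type*} [NormedAddCommGroup G'] [InnerProductSpace ℂ G'] [CompleteSpace G']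

variable {G'' : Type*} [NormedAddCommGroup G''] [InnerProductSpace ℂ G''] [CompleteSpace G'']

omit [CompleteSpace G] [CompleteSpace G'] in
lemma lift_smul (c : ℂ) (a : G →L[ℂ] G') : lift (c • a) = c • lift a :=
  dec_smul c (Dec.const a)

end Pool.Agent.Helper23

end

section

open scoped InnerProductSpace Topology ENNReal BoundedContinuousFunction

open ContinuousLinearMap Filter MeasureTheory

namespace Pool.Agent.Helper23

variable {H : Type*} [NormedAddCommGroup H] [InnerProductSpace ℂ H] [CompleteSpace H]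

variable {M N : VonNeumannAlgebra H} {ξ : H} {E : (H →L[ℂ] H) → (H →L[ℂ] H)}

open RBF

lemma lift_zero' : lift (0 : H →L[ℂ] H) = 0 := by
  have := lift_smul (0 : ℂ) (0 : H →L[ℂ] H)
  rwa [zero_smul, zero_smul] at this

end Pool.Agent.Helper23

end

end
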