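import Pool.Agent.Helper23.FB.L00_a0
import Pool.Agent.Helper23.FB.L00_a1
import Pool.Agent.Helper23.FB.L00_a10
import Pool.Agent.Helper23.FB.L00_a12
import Pool.Agent.Helper23.FB.L00_a13
import Pool.Agent.Helper23.FB.L00_a2
import Pool.Agent.Helper23.FB.L00_a3
import Pool.Agent.Helper23.FB.L00_a5
import Pool.Agent.Helper23.FB.L00_a6
import Pool.Agent.Helper23.FB.L00_a7

/-!
Parts of Helper23.FA.L00_18, Helper23.FA.L01_02, Helper23.FA.L00_15, Helper23.FA.L01_03, Helper23.FA.L01_04, Helper23.FA.L01_08, Helper23.FA.L01_13, Helper23.FA.L00_03, Helper23.FA.L01_17, Helper23.FA.L01_18, Helper23.FA.L02_02, Helper23.FA.L01_01, Helper23.FA.L01_14, Helper23.FA.L01_19, Helper23.FA.L02_04, Helper23.FA.L01_05, Helper23.FA.L01_06, Helper23.FA.L01_11, Helper23.FA.L02_11, Helper23.FA.L01_12, Helper23.FA.L02_14, Helper23.FA.L02_03, Helper23.FA.L02_09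
-/

attribute [local instance 5000]
  Pool.Agent.Helper23.FB.Inst.rCharZero Pool.Agent.Helper23.FB.Inst.rALM
  Pool.Agent.Helper23.FB.Inst.rARM Pool.Agent.Helper23.FB.Inst.rALSM
  Pool.Agent.Helper23.FB.Inst.rARSM Pool.Agent.Helper23.FB.Inst.rARRLE
  Pool.Agent.Helper23.FB.Inst.rALRLE Pool.Agent.Helper23.FB.Inst.rARRLT
  Pool.Agent.Helper23.FB.Inst.rALRLT Pool.Agent.Helper23.FB.Inst.rPMRLT
  Pool.Agent.Helper23.FB.Inst.rMPRLT Pool.Agent.Helper23.FB.Inst.rPMM
  Pool.Agent.Helper23.FB.Inst.rMPM Pool.Agent.Helper23.FB.Inst.rPMSM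
  Pool.Agent.Helper23.FB.Inst.rMPSM Pool.Agent.Helper23.FB.Inst.rEAOL
  Pool.Agent.Helper23.FB.Inst.rIOR Pool.Agent.Helper23.FB.Inst.rISOR
  Pool.Agent.Helper23.FB.Inst.rFS Pool.Agent.Helper23.FB.Inst.rcCharZero
  Pool.Agent.Helper23.FB.Inst.rNZD Pool.Agent.Helper23.FB.Inst.rcNZD
  Pool.Agent.Helper23.FB.Inst.bSemiring Pool.Agent.Helper23.FB.Inst.bStar
  Pool.Agent.Helper23.FB.Inst.bAlg Pool.Agent.Helper23.FB.Inst.bSub
  Pool.Agent.Helper23.FB.Inst.bMul Pool.Agent.Helper23.FB.Inst.bAdd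
  Pool.Agent.Helper23.FB.Inst.iRing Pool.Agent.Helper23.FB.Inst.iSemiring
  Pool.Agent.Helper23.FB.Inst.iAlgC Pool.Agent.Helper23.FB.Inst.iSMulC
  Pool.Agent.Helper23.FB.Inst.iModC Pool.Agent.Helper23.FB.Inst.iAlgR
  Pool.Agent.Helper23.FB.Inst.iSMulR Pool.Agent.Helper23.FB.Inst.iModR
  Pool.Agent.Helper23.FB.Inst.iMonoid Pool.Agent.Helper23.FB.Inst.iSemigroup
  Pool.Agent.Helper23.FB.Inst.iMulOneClass Pool.Agent.Helper23.FB.Inst.iMul
  Pool.Agent.Helper23.FB.Inst.iAdd Pool.Agent.Helper23.FB.Inst.iSub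
  Pool.Agent.Helper23.FB.Inst.iNeg Pool.Agent.Helper23.FB.Inst.iAddCommMonoid
  Pool.Agent.Helper23.FB.Inst.iAddCommGroup Pool.Agent.Helper23.FB.Inst.iAddGroup
  Pool.Agent.Helper23.FB.Inst.iAddMonoid Pool.Agent.Helper23.FB.Inst.iSMulZeroC
  Pool.Agent.Helper23.FB.Inst.iMulActC Pool.Agent.Helper23.FB.Inst.iDSMulC
  Pool.Agent.Helper23.FB.Inst.iDSMulR Pool.Agent.Helper23.FB.Inst.iSNAG
  Pool.Agent.Helper23.FB.Inst.iSNACG Pool.Agent.Helper23.FB.Inst.iNorm
  Pool.Agent.Helper23.FB.Inst.iNSC' Pool.Agent.Helper23.FB.Inst.iNSR'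
  Pool.Agent.Helper23.FB.Inst.iTop Pool.Agent.Helper23.FB.Inst.iT2 Pool.Agent.Helper23.FB.Inst.iTR
  Pool.Agent.Helper23.FB.Inst.iSCC Pool.Agent.Helper23.FB.Inst.iIST
  Pool.Agent.Helper23.FB.Inst.iSCCR Pool.Agent.Helper23.FB.Inst.iISTR
  Pool.Agent.Helper23.FB.Inst.iZHC Pool.Agent.Helper23.FB.Inst.iAHC
  Pool.Agent.Helper23.FB.Inst.iAMHC Pool.Agent.Helper23.FB.Inst.iMAHC
  Pool.Agent.Helper23.FB.Inst.lTop Pool.Agent.Helper23.FB.Inst.lUnif
  Pool.Agent.Helper23.FB.Inst.lACM Pool.Agent.Helper23.FB.Inst.lACG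
  Pool.Agent.Helper23.FB.Inst.lSNAG Pool.Agent.Helper23.FB.Inst.lSNACG
  Pool.Agent.Helper23.FB.Inst.lNACG Pool.Agent.Helper23.FB.Inst.lNorm
  Pool.Agent.Helper23.FB.Inst.lIPS Pool.Agent.Helper23.FB.Inst.lMod
  Pool.Agent.Helper23.FB.Inst.lSMul Pool.Agent.Helper23.FB.Inst.lT2
  Pool.Agent.Helper23.FB.Inst.iStar Pool.Agent.Helper23.FB.Inst.iStarMul
  Pool.Agent.Helper23.FB.Inst.iStarAddMonoid Pool.Agent.Helper23.FB.Inst.iStarRing
  Pool.Agent.Helper23.FB.Inst.iNSC Pool.Agent.Helper23.FB.Inst.iSOR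
  Pool.Agent.Helper23.FB.Inst.iALM Pool.Agent.Helper23.FB.Inst.iARM
  Pool.Agent.Helper23.FB.Inst.iCFC Pool.Agent.Helper23.FB.Inst.iNCFC
  Pool.Agent.Helper23.FB.Inst.iStarModR Pool.Agent.Helper23.FB.Inst.iStarModC
  Pool.Agent.Helper23.FB.Inst.eStar Pool.Agent.Helper23.FB.Inst.eAdd
  Pool.Agent.Helper23.FB.Inst.eMul Pool.Agent.Helper23.FB.Inst.eOne
  Pool.Agent.Helper23.FB.Inst.eZero Pool.Agent.Helper23.FB.Inst.eMulAction
  Pool.Agent.Helper23.FB.Inst.eAMHC2 Pool.Agent.Helper23.FB.Inst.eZHC2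
  Pool.Agent.Helper23.FB.Inst.lAMHC

namespace Pool.Agent.Helper23
end Pool.Agent.Helper23
namespace Pool.Agent.Helper23.RBF
end Pool.Agent.Helper23.RBF
namespace Pool.Agent.Helper70.U8
end Pool.Agent.Helper70.U8

section

section

open scoped InnerProductSpace Topology BoundedContinuousFunction

open ContinuousLinearMap Filter MeasureTheory

namespace Pool.Agent.Helper43.TTF

open Pool.Agent.Helper23

variable {H : Type*} [NormedAddCommGroup H] [InnerProductSpace ℂ H] [CompleteSpace H]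

variable {A : VonNeumannAlgebra H} {ξ : H}

variable {R : H →L[ℂ] H} {D : H →L[ℝ] H} {Ψ : (ℝ →ᵇ ℂ) →⋆ₐ[ℂ] (H →L[ℂ] H)}

lemma psi_comm_apply (Ψ : (ℝ →ᵇ ℂ) →⋆ₐ[ℂ] (H →L[ℂ] H)) (F G : ℝ →ᵇ ℂ) (v : H) :
    Ψ F (Ψ G v) = Ψ G (Ψ F v) := by
  rw [← psi_mul_apply, mul_comm, psi_mul_apply]

end Pool.Agent.Helper43.TTF

end

end

section

section

open scoped InnerProductSpace Topology

open ContinuousLinearMap Filter

open Pool.Agent.Helper23 Pool.Agent.Helper23.RBF

namespace Pool.Agent.Helper78.BC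

universe u

namespace Transport

variable {H : Type u} [NormedAddCommGroup H] [InnerProductSpace ℂ H] [CompleteSpace H]

variable {K : Type u} [NormedAddCommGroup K] [InnerProductSpace ℂ K] [CompleteSpace K]

variable {A : VonNeumannAlgebra H} {ξ : H} {i : K →L[ℂ] H} {κ : K}

namespace Sub

variable (S : Sub A ξ i κ)

include S

lemma r_comm {x b : H →L[ℂ] H} (hx : x ∈ A) (hb : b ∈ A.commutant) :
    r i b * r i x = r i x * r i b := by
  rw [S.r_mul' hx, S.r_mul hx, mem_comm_iff.1 hb x hx]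

end Sub

end Transport

end Pool.Agent.Helper78.BC

end

end

section

section

open scoped InnerProductSpace Topology BoundedContinuousFunction

open ContinuousLinearMap Filter MeasureTheory

namespace Pool.Agent.Helper43.TTF

open Pool.Agent.Helper23

variable {H : Type*} [NormedAddCommGroup H] [InnerProductSpace ℂ H] [CompleteSpace H]

variable {A : VonNeumannAlgebra H} {ξ : H}

variable {R : H →L[ℂ] H} {D : H →L[ℝ] H} {Ψ : (ℝ →ᵇ ℂ) →⋆ₐ[ℂ] (H →L[ℂ] H)}

lemma JD.symm {J : H →L[ℝ] H} (h : JD D Ψ J) : JD D (Ψ.comp refl) J := by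
  have h1 : refl FT = FT := by
    ext ρ
    rw [refl_apply, FT_apply, FT_apply, neg_div, Real.cosh_neg]
  have h2 : (Ψ.comp refl) FT = Ψ FT := by
    rw [StarAlgHom.comp_apply, h1]
  refine ⟨?_, ?_, h.J_J, h.J_conj, h.J_norm⟩
  · intro v
    rw [h2, h.J_T]
  · intro v
    rw [h2, h.T_J]

lemma JD.J_add_inner {J : H →L[ℝ] H} (h : JD D Ψ J) (v w : H) : ⟪J v, J w⟫_ℂ = ⟪w, v⟫_ℂ := by
  have hre : ∀ a b : H, (⟪J a, J b⟫_ℂ).re = (⟪a, b⟫_ℂ).re := by
    intro a b
    have h1 := h.J_norm (a + b)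
    rw [map_add] at h1
    have h2 := @norm_add_sq ℂ H _ _ _ (J a) (J b)
    have h3 := @norm_add_sq ℂ H _ _ _ a b
    rw [h1, h.J_norm, h.J_norm, h3] at h2
    simp only [RCLike.re_to_complex] at h2
    (clear * - h2; linarith)
  apply Complex.ext
  · rw [hre, ← inner_conj_symm, Complex.conj_re]
  · have h1 := hre (Complex.I • v) w
    rw [h.J_conj, inner_smul_left, inner_smul_left, Complex.conj_I] at h1
    simp only [Complex.conj_I, map_neg, neg_neg, Complex.mul_re, Complex.I_re, Complex.I_im,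
      Complex.neg_re, Complex.neg_im, zero_mul, one_mul, zero_sub, neg_zero, neg_neg] at h1
    have h2 : (⟪w, v⟫_ℂ).im = -(⟪v, w⟫_ℂ).im := by
      rw [← inner_conj_symm, Complex.conj_im]
    rw [h2]
    linarith

end Pool.Agent.Helper43.TTF

end

end

section

section

open scoped InnerProductSpace Topology BoundedContinuousFunction

open ContinuousLinearMap Filter MeasureTheory

namespace Pool.Agent.Helper70.U8

open Pool.Agent.Helper23

variable {H : Type*} [NormedAddCommGroup H] [InnerProductSpace ℂ H] [CompleteSpace H]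

variable {A : VonNeumannAlgebra H} {ξ : H} {R : H →L[ℂ] H} {D : H →L[ℝ] H}
  {Ψ : (ℝ →ᵇ ℂ) →⋆ₐ[ℂ] (H →L[ℂ] H)}

lemma V_xi (h : Modular A ξ R D Ψ) (t : ℝ) : V Ψ t ξ = ξ := by
  unfold V
  rw [h.psi_xi, expB_apply, mul_zero, Complex.ofReal_zero, zero_mul, Complex.exp_zero, one_smul]

end Pool.Agent.Helper70.U8

end

section

open scoped InnerProductSpace Topology BoundedContinuousFunction

open ContinuousLinearMap Filter MeasureTheory

namespace Pool.Agent.Helper88.CS

open Pool.Agent.Helper23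

open Pool.Agent.Helper78.BC (Std rm Fixed)

variable {H : Type*} [NormedAddCommGroup H] [InnerProductSpace ℂ H] [CompleteSpace H]

variable {A : VonNeumannAlgebra H} {ξ : H} {J : H →L[ℝ] H}
  {Ψ : (ℝ →ᵇ ℂ) →⋆ₐ[ℂ] (H →L[ℂ] H)} {R : H →L[ℂ] H} {D : H →L[ℝ] H}

namespace SuppBAux

open Pool.Agent.Helper70.U8 (U V)

theorem U_add (Ψ : (ℝ →ᵇ ℂ) →⋆ₐ[ℂ] (H →L[ℂ] H)) (t r : ℝ) (v : H) :
    U Ψ (t + r) v = U Ψ r (U Ψ t v) := by
  unfold U
  rw [← Pool.Agent.Helper43.TTF.psi_mul_apply, expB_mul]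
  congr 3
  ring

theorem V_U (Ψ : (ℝ →ᵇ ℂ) →⋆ₐ[ℂ] (H →L[ℂ] H)) (t s r : ℝ) (v : H) :
    V Ψ (t + r) (U Ψ (s + r) v) = V Ψ t (U Ψ s v) := by
  unfold U V
  rw [← Pool.Agent.Helper43.TTF.psi_mul_apply, expB_mul,
    ← Pool.Agent.Helper43.TTF.psi_mul_apply, expB_mul]
  congr 3
  ring

end SuppBAux

end Pool.Agent.Helper88.CS

end

end

section

section

open scoped InnerProductSpace Topology ENNReal

open ContinuousLinearMap Filter MeasureTheory

set_option linter.unusedSectionVars false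

set_option linter.unusedVariables false

namespace Pool.Agent.Helper23

variable {H : Type*} [NormedAddCommGroup H] [InnerProductSpace ℂ H] [CompleteSpace H]

variable {M N : VonNeumannAlgebra H} {ξ : H} {E : (H →L[ℂ] H) → (H →L[ℂ] H)}

namespace GKW

lemma hs_mul (n : ℕ) : (fun s => hs 1 n s * hs (-1) n s) = ind (Set.Ico (-(n : ℝ)) n) := by
  funext s
  by_cases h : s ∈ Set.Ico (-(n : ℝ)) n
  · rw [hs_of_mem h, hs_of_mem h, ind_of_mem h, ← Complex.ofReal_mul, ← Real.exp_add]
    have : 1 * s / 2 + -1 * s / 2 = 0 := by ring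
    rw [this, Real.exp_zero, Complex.ofReal_one]
  · rw [hs_of_notMem h, ind_of_notMem h, zero_mul]

end GKW

end Pool.Agent.Helper23

end

end

section

section

open scoped InnerProductSpace Topology BoundedContinuousFunction FourierTransform ENNReal

open ContinuousLinearMap Filter MeasureTheory

set_option linter.unusedSectionVars false

namespace Pool.Agent.Helper23

variable {H : Type*} [NormedAddCommGroup H] [InnerProductSpace ℂ H] [CompleteSpace H]

variable {M N : VonNeumannAlgebra H} {ξ : H} {E : (H →L[ℂ] H) → (H →L[ℂ] H)}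

lemma psi_expB_mul (Ψ : (ℝ →ᵇ ℂ) →⋆ₐ[ℂ] (H →L[ℂ] H)) (s t : ℝ) :
    Ψ (expB s) * Ψ (expB t) = Ψ (expB (s + t)) := by
  rw [← map_mul, expB_mul]

end Pool.Agent.Helper23

end

end

section

section

open scoped InnerProductSpace Topology BoundedContinuousFunction

open ContinuousLinearMap Filter

namespace Pool.Agent.Helper78.BC.StdEx

open Pool.Agent.Helper23 Pool.Agent.Helper70.U8

open Pool.Agent.Helper43.TTF (JD FT FT_apply FR_apply)

variable {H : Type*} [NormedAddCommGroup H] [InnerProductSpace ℂ H] [CompleteSpace H]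

variable {A : VonNeumannAlgebra H} {ξ : H} {R : H →L[ℂ] H} {D : H →L[ℝ] H}
  {Ψ : (ℝ →ᵇ ℂ) →⋆ₐ[ℂ] (H →L[ℂ] H)} {J : H →L[ℝ] H}

/-- division by the Gaussian -/
lemma exists_quot (G : ℝ →ᵇ ℂ) (hG : HasCompactSupport G) :
    ∃ G₁ : ℝ →ᵇ ℂ, G = Pool.Agent.Helper70.U8.GB 1 one_pos 0 * G₁ := by
  have hc : Continuous fun ρ : ℝ => ((Real.exp (ρ ^ 2) : ℝ) : ℂ) * G ρ := by fun_prop
  have hs : HasCompactSupport fun ρ : ℝ => ((Real.exp (ρ ^ 2) : ℝ) : ℂ) * G ρ :=
    hG.mul_left
  obtain ⟨C, hC⟩ := hs.exists_bound_of_continuous hc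
  refine ⟨BoundedContinuousFunction.ofNormedAddCommGroup _ hc C hC, ?_⟩
  ext ρ
  rw [BoundedContinuousFunction.mul_apply, Pool.Agent.Helper70.U8.GB_apply]
  change G ρ = _ * (((Real.exp (ρ ^ 2) : ℝ) : ℂ) * G ρ)
  rw [← mul_assoc, ← Complex.ofReal_mul, ← Real.exp_add]
  have h1 : -(1 * ρ ^ 2) + 0 * ρ + ρ ^ 2 = 0 := by ring
  rw [h1, Real.exp_zero, Complex.ofReal_one, one_mul]

end Pool.Agent.Helper78.BC.StdEx

end

end

section

section

open scoped InnerProductSpace Topology

open ContinuousLinearMap Filter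

namespace Pool.Agent.Helper23

variable {H : Type*} [NormedAddCommGroup H] [InnerProductSpace ℂ H] [CompleteSpace H]

variable {K : Type*} [NormedAddCommGroup K] [InnerProductSpace ℂ K] [CompleteSpace K]

/-- bounded sequences of `N` which are asymptotic eigenoperators along the ultrafilter -/
def LamU (N : VonNeumannAlgebra H) (ξ : H) (l : ℝ) (a : ℕ → H →L[ℂ] H) : Prop :=
  (∀ n, a n ∈ N) ∧ Bdd a ∧ ∀ ε : ℝ, 0 < ε → ∀ᶠ n in (UU : Filter ℕ), Defect N ξ l ε (a n)

end Pool.Agent.Helper23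

end

end

section

section

open scoped InnerProductSpace Topology BoundedContinuousFunction

open ContinuousLinearMap Filter MeasureTheory

namespace Pool.Agent.Helper70.U8

open Pool.Agent.Helper23

variable {H : Type*} [NormedAddCommGroup H] [InnerProductSpace ℂ H] [CompleteSpace H]

variable {A : VonNeumannAlgebra H} {ξ : H} {R : H →L[ℂ] H} {D : H →L[ℝ] H}
  {Ψ : (ℝ →ᵇ ℂ) →⋆ₐ[ℂ] (H →L[ℂ] H)}

lemma ga_integral {ε : ℝ} (hε : 0 < ε) : ∫ t, ga ε t = 1 := by
  unfold ga
  rw [integral_const_mul, integral_gaussian, inv_mul_cancel₀]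
  have : 0 < Real.pi / (Real.pi ^ 2 / ε) := by (clear * - hε; positivity)
  exact (Real.sqrt_pos.2 this).ne'

lemma kg_integral_norm {ε : ℝ} (hε : 0 < ε) (κ : ℝ) :
    ∫ t, ‖kg ε κ t‖ = Real.exp (κ ^ 2 / (4 * ε)) := by
  simp only [kg_norm]
  rw [integral_mul_const, ga_integral hε, one_mul]

end Pool.Agent.Helper70.U8

end

section

open scoped InnerProductSpace Topology ENNReal BoundedContinuousFunction

open ContinuousLinearMap Filter MeasureTheory

namespace Pool.Agent.Helper23

variable {H : Type*} [NormedAddCommGroup H] [InnerProductSpace ℂ H] [CompleteSpace H]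

variable {M N : VonNeumannAlgebra H} {ξ : H} {E : (H →L[ℂ] H) → (H →L[ℂ] H)}

open RBF

/-- elements of `N` are combinations of unitaries -/
lemma exists_unitaries (N : VonNeumannAlgebra H) {a : H →L[ℂ] H} (ha : a ∈ N) :
    ∃ (u : Fin 4 → H →L[ℂ] H) (k : Fin 4 → ℂ), a = ∑ i, k i • u i ∧
      ∀ i, u i ∈ N ∧ star (u i) * u i = 1 ∧ u i * star (u i) = 1 := by
  obtain ⟨u, k, hk, -⟩ := CStarAlgebra.exists_sum_four_unitary
    (⟨a, ha⟩ : N.toStarSubalgebra)
  refine ⟨fun i => ((u i : N.toStarSubalgebra) : H →L[ℂ] H), k, ?_, fun i => ⟨?_, ?_, ?_⟩⟩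
  · have := congrArg (fun z : N.toStarSubalgebra => (z : H →L[ℂ] H)) hk
    simpa using this
  · exact (u i : N.toStarSubalgebra).2
  · have := Unitary.star_mul_self_of_mem (u i).2
    exact congrArg (fun z : N.toStarSubalgebra => (z : H →L[ℂ] H)) this
  · have := Unitary.mul_star_self_of_mem (u i).2
    exact congrArg (fun z : N.toStarSubalgebra => (z : H →L[ℂ] H)) this

end Pool.Agent.Helper23

end

section

open scoped InnerProductSpace Topology ENNReal BoundedContinuousFunction

open ContinuousLinearMap Filter MeasureTheory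

namespace Pool.Agent.Helper23.ED

open Pool.Agent.Helper23 Pool.Agent.Helper23.RBF

open Pool.Agent.Helper78.BC.Transport (Sub r)

universe u

variable {H : Type u} [NormedAddCommGroup H] [InnerProductSpace ℂ H] [CompleteSpace H]

variable {M N : VonNeumannAlgebra H} {E : (H →L[ℂ] H) → (H →L[ℂ] H)} {ξ : H}

namespace CoE

/-- the inclusion of the closure of `N ξ` -/
theorem exists_sub (N : VonNeumannAlgebra H) (ξ : H) :
    ∃ V : Submodule ℂ H, ∃ _ : CompleteSpace V, ∃ κ : V, Sub N ξ V.subtypeL κ := by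
  set V : Submodule ℂ H := (orb N ξ).topologicalClosure with hV
  have hξV : ξ ∈ V := Submodule.le_topologicalClosure _ ⟨1, one_mem _, rfl⟩
  have hadj : ∀ v : H, V.subtypeL (adjoint V.subtypeL v) = V.starProjection v := by
    intro v
    rw [Submodule.adjoint_subtypeL]
    rfl
  refine ⟨V, inferInstance, ⟨ξ, hξV⟩, ?_⟩
  refine ⟨fun k => ?_, fun x hx k => ?_, rfl, fun k ε hε => ?_⟩
  · refine Subtype.ext ?_
    change V.subtypeL (adjoint V.subtypeL (V.subtypeL k)) = k.1
    rw [hadj]
    exact Submodule.starProjection_eq_self_iff.2 k.2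
  · rw [hadj]
    have h1 := mem_comm_iff.1 (proj_orb_mem N ξ) x hx
    have h2 := congrArg (fun T : H →L[ℂ] H => T (V.subtypeL k)) h1
    have h3 : V.starProjection (V.subtypeL k) = V.subtypeL k :=
      Submodule.starProjection_eq_self_iff.2 k.2
    change x (V.starProjection (V.subtypeL k)) = V.starProjection (x (V.subtypeL k)) at h2
    rw [← h2, h3]
  · have h1 : (V.subtypeL k : H) ∈ closure (orb N ξ : Set H) := k.2
    obtain ⟨_, ⟨a, ha, rfl⟩, h2⟩ := Metric.mem_closure_iff.1 h1 ε hε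
    refine ⟨a, ha, ?_⟩
    rw [dist_eq_norm] at h2
    rw [norm_sub_rev]
    exact h2

end CoE

end Pool.Agent.Helper23.ED

end

section

open scoped InnerProductSpace Topology ENNReal BoundedContinuousFunction

open ContinuousLinearMap Filter MeasureTheory

namespace Pool.Agent.Helper23.ED

open Pool.Agent.Helper23 Pool.Agent.Helper23.RBF

open Pool.Agent.Helper78.BC.Transport (Sub r)

universe u

variable {H : Type*} [NormedAddCommGroup H] [InnerProductSpace ℂ H] [CompleteSpace H]

variable {M N : VonNeumannAlgebra H} {ξ : H} {E : (H →L[ℂ] H) → (H →L[ℂ] H)}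

lemma RkB_star_aux {U X : L2R H →L[ℂ] L2R H} (h1 : star U * U = 1) (h2 : U * star U = 1)
    (h : U * X = X * U) : U * star X = star X * U := by
  have h3 : X * star U = star U * X := by
    calc X * star U = (star U * U) * X * star U := by rw [h1, one_mul]
      _ = star U * (U * X) * star U := by rw [mul_assoc (star U) U X]
      _ = star U * (X * U) * star U := by rw [h]
      _ = star U * X * (U * star U) := by simp only [mul_assoc]
      _ = star U * X := by rw [h2, mul_one]
  have := congrArg star h3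
  rw [star_mul, star_mul, star_star] at this
  exact this

end Pool.Agent.Helper23.ED

end

end

section

section

open scoped InnerProductSpace Topology ENNReal

open ContinuousLinearMap Filter MeasureTheory

set_option linter.unusedSectionVars false

set_option linter.unusedVariables false

namespace Pool.Agent.Helper23

variable {G : Type*} [NormedAddCommGroup G] [InnerProductSpace ℂ G] [CompleteSpace G]

variable {G' : Type*} [NormedAddCommGroup G'] [InnerProductSpace ℂ G'] [CompleteSpace G']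

variable {G'' : Type*} [NormedAddCommGroup G''] [InnerProductSpace ℂ G''] [CompleteSpace G'']

omit [CompleteSpace G] in
lemma lift_one : lift (1 : G →L[ℂ] G) = 1 := by
  ext F : 1
  ext1
  filter_upwards [lift_coe (1 : G →L[ℂ] G) F] with s hs
  rw [hs]
  rfl

end Pool.Agent.Helper23

end

section

open scoped InnerProductSpace Topology ENNReal

open ContinuousLinearMap Filter MeasureTheory

set_option linter.unusedSectionVars false

set_option linter.unusedVariables false

namespace Pool.Agent.Helper23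

variable {H : Type*} [NormedAddCommGroup H] [InnerProductSpace ℂ H] [CompleteSpace H]

/-- operators agreeing on elementary tensors are equal -/
lemma op_ext {X Y : L2R H →L[ℂ] L2R H} (h : ∀ (f : L2R ℂ) (η : H), X (ten f η) = Y (ten f η)) :
    X = Y := by
  have h1 : star X = star Y := by
    ext F : 1
    rw [← sub_eq_zero]
    refine eq_zero_of_ten fun f η => ?_
    rw [inner_sub_right, inner_star_right, inner_star_right, h, sub_self]
  have := congrArg star h1
  rwa [star_star, star_star] at this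

end Pool.Agent.Helper23

end

section

open scoped InnerProductSpace BoundedContinuousFunction

open ContinuousLinearMap Filter

namespace Pool.Agent.Helper23

variable {H : Type*} [NormedAddCommGroup H] [InnerProductSpace ℂ H] [CompleteSpace H]

variable {M N : VonNeumannAlgebra H} {ξ : H} {E : (H →L[ℂ] H) → (H →L[ℂ] H)}

lemma Defect.of_eig {γ δ : ℝ} (hδ : 0 ≤ δ) {a : H →L[ℂ] H} (ha : a ∈ eig N ξ γ) :
    Defect N ξ γ δ a := by
  intro z hz
  rw [ha.2 z hz, sub_self, norm_zero]
  (clear * - hδ; positivity)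

end Pool.Agent.Helper23

end

section

open scoped InnerProductSpace Topology BoundedContinuousFunction

open ContinuousLinearMap Filter MeasureTheory

namespace Pool.Agent.Helper70.U8

open Pool.Agent.Helper23

variable {H : Type*} [NormedAddCommGroup H] [InnerProductSpace ℂ H] [CompleteSpace H]

variable {A : VonNeumannAlgebra H} {ξ : H} {R : H →L[ℂ] H} {D : H →L[ℝ] H}
  {Ψ : (ℝ →ᵇ ℂ) →⋆ₐ[ℂ] (H →L[ℂ] H)}

lemma kg_real (ε t : ℝ) : (starRingEnd ℂ) (kg ε 0 t) = kg ε 0 t := by
  have : kg ε 0 t = ((ga ε t : ℝ) : ℂ) := by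
    unfold kg
    simp
  rw [this, Complex.conj_ofReal]

end Pool.Agent.Helper70.U8

end

section

open scoped InnerProductSpace Topology BoundedContinuousFunction

open ContinuousLinearMap Filter MeasureTheory

namespace Pool.Agent.Helper70.U8

open Pool.Agent.Helper23

variable {H : Type*} [NormedAddCommGroup H] [InnerProductSpace ℂ H] [CompleteSpace H]

variable {A : VonNeumannAlgebra H} {ξ : H} {R : H →L[ℂ] H} {D : H →L[ℝ] H}
  {Ψ : (ℝ →ᵇ ℂ) →⋆ₐ[ℂ] (H →L[ℂ] H)} {J : H →L[ℝ] H}

open Pool.Agent.Helper43.TTF (JD FT FT_apply FR_apply)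

lemma G_star {ε : ℝ} (hε : 0 < ε) : star (1 - GB ε hε 0) = 1 - GB ε hε 0 := by
  ext ρ
  rw [BoundedContinuousFunction.star_apply, BoundedContinuousFunction.sub_apply, GB_apply,
    Pool.Agent.Helper43.TTF.one_bcf, Complex.star_def, map_sub, map_one, Complex.conj_ofReal]

end Pool.Agent.Helper70.U8

end

section

open scoped InnerProductSpace

open ContinuousLinearMap Filter

namespace Pool.Agent.Helper23

variable {H : Type*} [NormedAddCommGroup H] [InnerProductSpace ℂ H] [CompleteSpace H]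

variable {M N : VonNeumannAlgebra H} {ξ : H} {E : (H →L[ℂ] H) → (H →L[ℂ] H)}

lemma Partner.smul {C C' : H →L[ℂ] H} (c : ℂ) (h : Partner N ξ C C') :
    Partner N ξ (c • C) (c • C') :=
  ⟨smul_mem' c h.1, smul_mem' c h.2.1, fun z hz => by
    rw [smul_apply, smul_apply, inner_smul_right, map_smul, inner_smul_right, h.2.2 z hz]⟩

lemma Partner.defect (hξ : ‖ξ‖ = 1) {C C' : H →L[ℂ] H} (h : Partner N ξ C C') :
    Defect N ξ 1 ‖(C' - C) ξ‖ C := by
  intro z hz
  rw [Complex.ofReal_one, one_mul, h.2.2 z hz, ← inner_sub_right, ← map_sub]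
  have e1 : ⟪ξ, z (C ξ - C' ξ)⟫_ℂ = ⟪(star z) ξ, C ξ - C' ξ⟫_ℂ := by
    rw [inner_star_left]
  rw [e1]
  refine (norm_inner_le_norm _ _).trans ?_
  have e2 : ‖C ξ - C' ξ‖ = ‖(C' - C) ξ‖ := by rw [norm_sub_rev]; rfl
  rw [e2, mul_comm]
  have e3 : ‖(star z) ξ‖ ≤ ‖z‖ := by
    have := (star z).le_opNorm ξ
    rwa [norm_star, hξ, mul_one] at this
  (clear * - e3; gcongr)

end Pool.Agent.Helper23

end

section

open scoped InnerProductSpace Topology BoundedContinuousFunction FourierTransform ENNReal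

open ContinuousLinearMap Filter MeasureTheory

set_option linter.unusedSectionVars false

namespace Pool.Agent.Helper23

variable {H : Type*} [NormedAddCommGroup H] [InnerProductSpace ℂ H] [CompleteSpace H]

variable {M N : VonNeumannAlgebra H} {ξ : H} {E : (H →L[ℂ] H) → (H →L[ℂ] H)}

namespace Modular

variable {A : VonNeumannAlgebra H} {R : H →L[ℂ] H} {D : H →L[ℝ] H}
  {Ψ : (ℝ →ᵇ ℂ) →⋆ₐ[ℂ] (H →L[ℂ] H)} (h : Modular A ξ R D Ψ)

include h

lemma U_xi (t : ℝ) : Ψ (expB t) ξ = ξ := by
  rw [h.psi_xi, expB_apply]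
  simp

end Modular

end Pool.Agent.Helper23

end

section

open scoped InnerProductSpace Topology ENNReal

open ContinuousLinearMap Filter MeasureTheory

set_option linter.unusedSectionVars false

set_option linter.unusedVariables false

namespace Pool.Agent.Helper23

variable {H : Type*} [NormedAddCommGroup H] [InnerProductSpace ℂ H] [CompleteSpace H]

variable {M N : VonNeumannAlgebra H} {ξ : H} {E : (H →L[ℂ] H) → (H →L[ℂ] H)}

/-- unit vectors concentrated near zero -/
noncomputable def fn (n : ℕ) : L2R ℂ :=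
  indicatorConstLp 2 (measurableSet_Ico (a := (0 : ℝ)) (b := 1 / (n + 1))) (by simp)
    (((Real.sqrt (n + 1) : ℝ) : ℂ))

lemma fn_norm (n : ℕ) : ‖fn n‖ = 1 := by
  rw [fn, norm_indicatorConstLp (by norm_num) (by norm_num)]
  have h1 : (volume : Measure ℝ).real (Set.Ico (0 : ℝ) (1 / (n + 1))) = 1 / (n + 1) := by
    rw [Measure.real, Real.volume_Ico, sub_zero, ENNReal.toReal_ofReal (by (clear * -; positivity))]
  rw [h1, Complex.norm_real, Real.norm_of_nonneg (Real.sqrt_nonneg _)]
  simp only [ENNReal.toReal_ofNat]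
  rw [← Real.sqrt_eq_rpow, ← Real.sqrt_mul (by (clear * -; positivity)), mul_one_div_cancel (by positivity),
    Real.sqrt_one]

lemma fn_coe (n : ℕ) : fn n =ᵐ[volume]
    (Set.Ico (0 : ℝ) (1 / (n + 1))).indicator fun _ => (((Real.sqrt (n + 1) : ℝ) : ℂ)) :=
  indicatorConstLp_coeFn

end Pool.Agent.Helper23

end

section

open scoped InnerProductSpace Topology ENNReal

open ContinuousLinearMap Filter MeasureTheory

namespace Pool.Agent.Helper23

variable {H : Type*} [NormedAddCommGroup H] [InnerProductSpace ℂ H] [CompleteSpace H]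

variable {G : Type*} [NormedAddCommGroup G] [InnerProductSpace ℂ G] [CompleteSpace G]

variable {M N : VonNeumannAlgebra H} {ξ : H} {E : (H →L[ℂ] H) → (H →L[ℂ] H)}

lemma hi_bm (n : ℕ) : BM (hi n) := by
  refine ⟨(Complex.measurable_ofReal.comp
    (Real.measurable_exp.comp measurable_neg)).indicator measurableSet_Ico, Real.exp n,
    by positivity, fun s => ?_⟩
  by_cases h : s ∈ Set.Ico (-(n : ℝ)) n
  · rw [hi_of_mem h, Complex.norm_real, Real.norm_of_nonneg (by positivity)]
    exact Real.exp_le_exp.2 (by linarith [h.1])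
  · rw [hi, Set.indicator_of_notMem h, norm_zero]
    positivity

end Pool.Agent.Helper23

end

section

open scoped InnerProductSpace Topology ENNReal

open ContinuousLinearMap Filter MeasureTheory

namespace Pool.Agent.Helper23

variable {H : Type*} [NormedAddCommGroup H] [InnerProductSpace ℂ H] [CompleteSpace H]

variable {M N : VonNeumannAlgebra H} {ξ : H} {E : (H →L[ℂ] H) → (H →L[ℂ] H)}

lemma win_sub_Ico {t : ℝ} (ht : 0 < t) {i : ℤ} {n : ℕ} (hn : (|i| + 1 : ℝ) * t ≤ n) {s : ℝ}
    (h : s ∈ win t i) : s ∈ Set.Ico (-(n : ℝ)) n := by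
  have h1 := h.1
  have h2 := h.2
  have h3 := neg_abs_le (i : ℝ)
  have h4 := le_abs_self (i : ℝ)
  rw [Int.cast_abs] at hn
  constructor <;> (clear * - ht hn h1 h3 h2 h4; nlinarith)

end Pool.Agent.Helper23

end

section

open scoped InnerProductSpace Topology ENNReal

open ContinuousLinearMap Filter MeasureTheory

namespace Pool.Agent.Helper23

variable {H : Type*} [NormedAddCommGroup H] [InnerProductSpace ℂ H] [CompleteSpace H]

lemma blk_mulOp {t : ℝ} (A : Finset ℤ) (z : ℤ → H →L[ℂ] H) {m : ℝ → ℂ} (hm : BM m)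
    (F : L2R H) : mulOp H m (blk t A z F) = blk t A z (mulOp H m F) := by
  rw [blk, sum_apply, sum_apply, map_sum]
  refine Finset.sum_congr rfl fun i _ => ?_
  change mulOp H m (mulOp H (ind (win t i)) (lift (z i) F)) =
    mulOp H (ind (win t i)) (lift (z i) (mulOp H m F))
  rw [← mulOp_lift hm, mulOp_mulOp hm (ind_bm (win_meas t i)),
    mulOp_mulOp (ind_bm (win_meas t i)) hm]
  congr 2
  funext s
  ring

end Pool.Agent.Helper23

end

section

open scoped InnerProductSpace Topology ENNReal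

open ContinuousLinearMap Filter MeasureTheory

set_option linter.unusedSectionVars false

set_option linter.unusedVariables false

namespace Pool.Agent.Helper23

variable {H : Type*} [NormedAddCommGroup H] [InnerProductSpace ℂ H] [CompleteSpace H]

variable {M N : VonNeumannAlgebra H} {ξ : H} {E : (H →L[ℂ] H) → (H →L[ℂ] H)}

open RBF

lemma mem_Calg {ψ : (H →L[ℂ] H) → ℝ≥0∞} : IsRelCommCentralizer M N ψ (Calg M N ψ) := by
  intro x
  have h1 : x ∈ Calg M N ψ ↔ x ∈ StarSubalgebra.centralizer ℂ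
    ((M.commutant : Set (H →L[ℂ] H)) ∪ {u | ScalingUnitary N ψ 1 u}) := Iff.rfl
  rw [h1, StarSubalgebra.mem_centralizer_iff]
  constructor
  · intro h
    refine ⟨mem_iff_commutes.2 fun a ha => (h a (Or.inl ha)).1, fun u hu => (h u (Or.inr hu)).1⟩
  · rintro ⟨h2, h3⟩ a (ha | ha)
    · exact ⟨mem_iff_commutes.1 h2 a ha, mem_iff_commutes.1 h2 _ (star_mem ha)⟩
    · exact ⟨h3 a ha, h3 _ (scaling_star ha)⟩

end Pool.Agent.Helper23

end

section

open scoped InnerProductSpace Topology

open ContinuousLinearMap Filter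

namespace Pool.Agent.Helper23

universe u

variable {H : Type u} [NormedAddCommGroup H] [InnerProductSpace ℂ H] [CompleteSpace H]

variable {M N : VonNeumannAlgebra H} {ξ : H} {E : (H →L[ℂ] H) → (H →L[ℂ] H)}

lemma convex_vN (A : VonNeumannAlgebra H) : Convex ℝ {z : H →L[ℂ] H | z ∈ A} := by
  intro z hz z' hz' a b _ _ _
  have h1 : a • z = (a : ℂ) • z := (Complex.coe_smul a z).symm
  have h2 : b • z' = (b : ℂ) • z' := (Complex.coe_smul b z').symm
  change a • z + b • z' ∈ A
  rw [h1, h2]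
  exact add_mem (smul_mem' _ hz) (smul_mem' _ hz')

end Pool.Agent.Helper23

end

section

open scoped InnerProductSpace Topology BoundedContinuousFunction

open ContinuousLinearMap Filter

open Pool.Agent.Helper23.RBF

namespace Pool.Agent.Helper78.BC

universe u

variable {H : Type u} [NormedAddCommGroup H] [InnerProductSpace ℂ H] [CompleteSpace H]

section

variable {A : VonNeumannAlgebra H} {ξ : H} {J : H →L[ℝ] H}
  {Ψ : (ℝ →ᵇ ℂ) →⋆ₐ[ℂ] (H →L[ℂ] H)}

lemma rm_one (h : Std A ξ J Ψ) (v : H) : rm J 1 v = v := by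
  simp [rm, h.J_J]

end

end Pool.Agent.Helper78.BC

end

section

open scoped InnerProductSpace Topology BoundedContinuousFunction

open ContinuousLinearMap Filter MeasureTheory

namespace Pool.Agent.Helper88.CS

open Pool.Agent.Helper23

open Pool.Agent.Helper78.BC (Std rm Fixed)

variable {H : Type*} [NormedAddCommGroup H] [InnerProductSpace ℂ H] [CompleteSpace H]

variable {A : VonNeumannAlgebra H} {ξ : H} {J : H →L[ℝ] H}
  {Ψ : (ℝ →ᵇ ℂ) →⋆ₐ[ℂ] (H →L[ℂ] H)} {R : H →L[ℂ] H} {D : H →L[ℝ] H}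

namespace HullAux

open Pool.Agent.Helper70.U8 (U V)

/-- projections commute with operators leaving the space and its complement invariant -/
theorem proj_comm (K : Submodule ℂ H) [K.HasOrthogonalProjection] {b : H →L[ℂ] H}
    (h1 : ∀ v ∈ K, b v ∈ K) (h2 : ∀ v ∈ K, (star b) v ∈ K) :
    b * K.starProjection = K.starProjection * b := by
  ext v
  rw [mul_apply_eq_comp, mul_apply_eq_comp]
  refine (Submodule.eq_starProjection_of_mem_of_inner_eq_zero (K := K) ?_ ?_).symm
  · exact h1 _ (Submodule.starProjection_apply_mem _ _)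
  · intro w hw
    rw [← map_sub, ← star_star b, inner_star_left]
    exact K.starProjection_inner_eq_zero v _ (h2 w hw)

end HullAux

end Pool.Agent.Helper88.CS

end

section

open scoped InnerProductSpace Topology ENNReal BoundedContinuousFunction

open ContinuousLinearMap Filter MeasureTheory

namespace Pool.Agent.Helper23.ED

open Pool.Agent.Helper23 Pool.Agent.Helper23.RBF

universe u

variable {K : Type*} [NormedAddCommGroup K] [InnerProductSpace ℂ K] [CompleteSpace K]

variable {U : ℝ → K →L[ℂ] K} {f : ℝ → ℂ}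

theorem smear_mem (hU : UG U) (hf : Integrable f) {A : VonNeumannAlgebra K} {Y : K →L[ℂ] K}
    (hY : ∀ t, U t * Y * U (-t) ∈ A) : smear U f Y ∈ A := by
  rw [mem_iff_commutes]
  intro g hg
  refine ContinuousLinearMap.ext fun w => ext_inner_left ℂ fun v => ?_
  change ⟪v, g (smear U f Y w)⟫_ℂ = ⟪v, smear U f Y (g w)⟫_ℂ
  rw [smear_spec hU hf, ← ContinuousLinearMap.adjoint_inner_left, smear_spec hU hf]
  refine integral_congr_ae (Eventually.of_forall fun t => ?_)
  simp only
  rw [ContinuousLinearMap.adjoint_inner_left]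
  have h1 : g (U t (Y (U (-t) w))) = U t (Y (U (-t) (g w))) :=
    congrArg (fun T : K →L[ℂ] K => T w) (mem_iff_commutes.1 (hY t) g hg)
  rw [h1]

end Pool.Agent.Helper23.ED

end

section

open scoped InnerProductSpace Topology ENNReal BoundedContinuousFunction

open ContinuousLinearMap Filter MeasureTheory

namespace Pool.Agent.Helper23.ED

open Pool.Agent.Helper23 Pool.Agent.Helper23.RBF

universe u

open Pool.Agent.Helper43.TTF (FT)

variable {K : Type*} [NormedAddCommGroup K] [InnerProductSpace ℂ K] [CompleteSpace K]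

variable {A : VonNeumannAlgebra K} {κ : K} {R : K →L[ℂ] K} {D : K →L[ℝ] K}
  {Ψ : (ℝ →ᵇ ℂ) →⋆ₐ[ℂ] (K →L[ℂ] K)}

theorem GZ_shift {m : ℝ} (hm : 0 < m) (z : ℂ) :
    (2 - FR) * GZ m hm z = FT * GZ m hm (z - Complex.I / 2) := by
  ext ρ
  have e2 : (2 : ℝ →ᵇ ℂ) ρ = 2 := rfl
  have e3 : ∀ w : ℂ, GZ m hm w ρ = ((Real.sqrt (Real.pi / m) : ℝ) : ℂ) *
      Complex.exp (Complex.I * w * ρ - (ρ : ℂ) ^ 2 / (4 * m)) := fun _ => rfl
  rw [BoundedContinuousFunction.mul_apply, BoundedContinuousFunction.mul_apply,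
    BoundedContinuousFunction.sub_apply, Pool.Agent.Helper43.TTF.FR_apply,
    Pool.Agent.Helper43.TTF.FT_apply, e2, e3, e3]
  have h1 : Complex.exp (Complex.I * (z - Complex.I / 2) * ρ - (ρ : ℂ) ^ 2 / (4 * m)) =
      Complex.exp (Complex.I * z * ρ - (ρ : ℂ) ^ 2 / (4 * m)) *
        ((Real.exp (ρ / 2) : ℝ) : ℂ) := by
    rw [Complex.ofReal_exp, ← Complex.exp_add]
    congr 1
    push_cast
    ring_nf
    rw [Complex.I_sq]
    ring
  have h2 : 2 - 2 / (1 + Real.exp ρ) = (Real.cosh (ρ / 2))⁻¹ * Real.exp (ρ / 2) := by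
    rw [Pool.Agent.Helper43.TTF.cosh_half]
    have h1 : Real.exp ρ = Real.exp (ρ / 2) * Real.exp (ρ / 2) := by
      rw [← Real.exp_add]; ring_nf
    have h2 : (0 : ℝ) < Real.exp (ρ / 2) := Real.exp_pos _
    have h4 : (0 : ℝ) < 1 + Real.exp ρ := by positivity
    rw [h1] at h4 ⊢
    field_simp
    ring
  have h3 : (2 : ℂ) - ((2 / (1 + Real.exp ρ) : ℝ) : ℂ) =
      (((Real.cosh (ρ / 2))⁻¹ : ℝ) : ℂ) * ((Real.exp (ρ / 2) : ℝ) : ℂ) := by
    rw [← Complex.ofReal_mul, ← h2]
    push_cast
    ring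
  rw [h1, h3]
  ring

end Pool.Agent.Helper23.ED

end

section

open scoped InnerProductSpace Topology ENNReal BoundedContinuousFunction

open ContinuousLinearMap Filter MeasureTheory

namespace Pool.Agent.Helper23.ED

open Pool.Agent.Helper23 Pool.Agent.Helper23.RBF

universe u

open TopologicalSpace

variable {H : Type*} [NormedAddCommGroup H] [InnerProductSpace ℂ H] [CompleteSpace H]

variable {N : VonNeumannAlgebra H} {ξ : H} {W : ℝ → H →L[ℂ] H}

namespace SlC

theorem bm_ems (a : ℝ) : BM (ems a) := by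
  refine ⟨?_, 1, zero_le_one, fun s => ?_⟩
  · have : Continuous (ems a) := by
      unfold ems ph
      fun_prop
    exact this.measurable
  · unfold ems ph
    rw [Complex.norm_exp_ofReal_mul_I]

theorem dec_star {T : ℝ → H →L[ℂ] H} (h : Dec T) (h' : Dec (fun s => star (T s))) :
    star (dec T) = dec (fun s => star (T s)) := by
  symm
  rw [ContinuousLinearMap.star_eq_adjoint (dec T), ContinuousLinearMap.eq_adjoint_iff]
  intro x y
  refine dec_adj h h' (fun s x y => ?_) x y
  rw [ContinuousLinearMap.star_eq_adjoint, ContinuousLinearMap.adjoint_inner_left]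

/-- the nearest intertwiners to a dense sequence approximate every intertwiner -/
theorem approx (hd : Dense (orb N.commutant ξ : Set H)) {η : ℕ → H} (hη : DenseRange η)
    {x : ℕ → H →L[ℂ] H} (hxN : ∀ j, x j ∈ N) (hx1 : ∀ j, ‖x j‖ ≤ 1) {u : H →L[ℂ] H} (huN : u ∈ N)
    (hu1 : ‖u‖ ≤ 1) (hnear : ∀ j, ‖x j ξ - u ξ‖ ≤ ‖η j - u ξ‖) (v : H) {ε : ℝ} (hε : 0 < ε) :
    ∃ j, ‖x j v - u v‖ < ε := by
  obtain ⟨w, hw, hwv⟩ := Metric.dense_iff.1 hd v (ε / 4) (by (clear * - hε; positivity))
  obtain ⟨b, hb, rfl⟩ := hwv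
  rw [Metric.mem_ball, dist_eq_norm] at hw
  have hpos : 0 < ε / (2 * (‖b‖ + 1)) := by (clear * - hε; positivity)
  obtain ⟨j, hj⟩ := hη.exists_dist_lt (u ξ) hpos
  rw [dist_comm, dist_eq_norm] at hj
  refine ⟨j, ?_⟩
  have e1 : x j v - u v = b (x j ξ - u ξ) - x j (b ξ - v) + u (b ξ - v) := by
    rw [map_sub, map_sub, map_sub, commute_apply (hxN j) hb, commute_apply huN hb]
    abel
  have h1 : ‖b (x j ξ - u ξ)‖ ≤ ‖b‖ * (ε / (2 * (‖b‖ + 1))) :=
    (b.le_opNorm _).trans (mul_le_mul_of_nonneg_left ((hnear j).trans hj.le) (norm_nonneg _))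
  have h2 : ‖b‖ * (ε / (2 * (‖b‖ + 1))) ≤ ε / 2 := by
    have h3 : ‖b‖ * (ε / (2 * (‖b‖ + 1))) = (‖b‖ / (‖b‖ + 1)) * (ε / 2) := by
      (clear * - hε; field_simp)
    rw [h3]
    have h4 : ‖b‖ / (‖b‖ + 1) ≤ 1 := by
      rw [div_le_one (by positivity)]
      (clear * -; linarith)
    calc (‖b‖ / (‖b‖ + 1)) * (ε / 2) ≤ 1 * (ε / 2) :=
          mul_le_mul_of_nonneg_right h4 (by positivity)
      _ = ε / 2 := one_mul _
  have h5 : ‖x j (b ξ - v)‖ ≤ ‖b ξ - v‖ := by
    simpa using (x j).le_of_opNorm_le (hx1 j) (b ξ - v)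
  have h6 : ‖u (b ξ - v)‖ ≤ ‖b ξ - v‖ := by
    simpa using u.le_of_opNorm_le hu1 (b ξ - v)
  rw [e1]
  calc ‖b (x j ξ - u ξ) - x j (b ξ - v) + u (b ξ - v)‖
      ≤ ‖b (x j ξ - u ξ)‖ + ‖x j (b ξ - v)‖ + ‖u (b ξ - v)‖ :=
        (norm_add_le _ _).trans (add_le_add_left (norm_sub_le _ _) _)
    _ < ε := by (clear * - hw h1 h2 h5 h6; linarith)

end SlC

end Pool.Agent.Helper23.ED

end

end

section

section

open scoped InnerProductSpace Topology BoundedContinuousFunction

open ContinuousLinearMap Filter MeasureTheory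

namespace Pool.Agent.Helper43.TTF

open Pool.Agent.Helper23

variable {H : Type*} [NormedAddCommGroup H] [InnerProductSpace ℂ H] [CompleteSpace H]

theorem exists_FC {A : VonNeumannAlgebra H} {ξ : H} {R : H →L[ℂ] H} {D : H →L[ℝ] H}
    (h : TTData A ξ R D) : ∃ Ψ : (ℝ →ᵇ ℂ) →⋆ₐ[ℂ] (H →L[ℂ] H), FC R D Ψ := by
  obtain ⟨Ψ, h1, h2, h3, h4⟩ := exists_fc R h.R_star h.R_nonneg h.R_le h.R_inj h.R_inj'
  exact ⟨Ψ, h1, h2, h3 D h.D_conj h.D_R, h4⟩

end Pool.Agent.Helper43.TTF

end

section

open scoped InnerProductSpace Topology BoundedContinuousFunction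

open ContinuousLinearMap Filter MeasureTheory

namespace Pool.Agent.Helper43.TTF

open Pool.Agent.Helper23

variable {H : Type*} [NormedAddCommGroup H] [InnerProductSpace ℂ H] [CompleteSpace H]

variable {A : VonNeumannAlgebra H} {ξ : H}

variable {R : H →L[ℂ] H} {D : H →L[ℝ] H} {Ψ : (ℝ →ᵇ ℂ) →⋆ₐ[ℂ] (H →L[ℂ] H)}

lemma FC.D_T (h : FC R D Ψ) (v : H) : D (Ψ FT v) = Ψ FT (D v) := by
  apply h.psi_D
  intro ρ
  rw [FT_apply, FT_apply, Complex.conj_ofReal, neg_div, Real.cosh_neg]

end Pool.Agent.Helper43.TTF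

end

section

open scoped InnerProductSpace Topology BoundedContinuousFunction

open ContinuousLinearMap Filter MeasureTheory

namespace Pool.Agent.Helper43.TTF

open Pool.Agent.Helper23

variable {H : Type*} [NormedAddCommGroup H] [InnerProductSpace ℂ H] [CompleteSpace H]

variable {R : H →L[ℂ] H} {D : H →L[ℝ] H} {Ψ : (ℝ →ᵇ ℂ) →⋆ₐ[ℂ] (H →L[ℂ] H)} {J : H →L[ℝ] H}

lemma expB_zero : expB 0 = 1 := by
  ext ρ
  rw [expB_apply, one_bcf]
  simp

end Pool.Agent.Helper43.TTF

end

end

section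

section

open scoped InnerProductSpace

open ContinuousLinearMap

namespace Pool.Agent.Helper23

variable {H : Type*} [NormedAddCommGroup H] [InnerProductSpace ℂ H] [CompleteSpace H]

variable {M N : VonNeumannAlgebra H} {ξ : H} {E : (H →L[ℂ] H) → (H →L[ℂ] H)}

namespace Setting

variable (S : Setting M N E ξ)

include S

lemma comm_le {y : H →L[ℂ] H} (hy : y ∈ M.commutant) : y ∈ N.commutant := by
  rw [mem_comm_iff] at hy ⊢
  exact fun g hg => hy g (S.le g hg)

end Setting

end Pool.Agent.Helper23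

end

section

open scoped InnerProductSpace Topology ENNReal

open ContinuousLinearMap Filter MeasureTheory

set_option linter.unusedSectionVars false

set_option linter.unusedVariables false

namespace Pool.Agent.Helper23

variable {G : Type*} [NormedAddCommGroup G] [InnerProductSpace ℂ G] [CompleteSpace G]

variable {G' : Type*} [NormedAddCommGroup G'] [InnerProductSpace ℂ G'] [CompleteSpace G']

variable {G'' : Type*} [NormedAddCommGroup G''] [InnerProductSpace ℂ G''] [CompleteSpace G'']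

omit [CompleteSpace G] [CompleteSpace G'] in
lemma lift_norm (a : G →L[ℂ] G') : ‖lift a‖ ≤ ‖a‖ := dec_norm (norm_nonneg _) fun _ => le_rfl

end Pool.Agent.Helper23

end

section

open scoped InnerProductSpace Topology BoundedContinuousFunction

open ContinuousLinearMap Filter MeasureTheory

namespace Pool.Agent.Helper23

variable {H : Type*} [NormedAddCommGroup H] [InnerProductSpace ℂ H] [CompleteSpace H]

variable {M N : VonNeumannAlgebra H} {ξ : H} {E : (H →L[ℂ] H) → (H →L[ℂ] H)}

namespace U14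

lemma fco_norm {T : ℝ → H →L[ℂ] H} {C : ℝ} (hC0 : 0 ≤ C) (hC : ∀ s, ‖T s‖ ≤ C) :
    ‖fco T‖ ≤ C := by
  refine ContinuousLinearMap.opNorm_le_bound _ hC0 fun F => ?_
  rw [fco_apply, LinearIsometryEquiv.norm_map]
  have h1 := (dec T).le_of_opNorm_le (dec_norm hC0 hC) (Fo H F)
  rwa [LinearIsometryEquiv.norm_map] at h1

end U14

end Pool.Agent.Helper23

end

end

section

section

open scoped InnerProductSpace Topology ENNReal BoundedContinuousFunction

open ContinuousLinearMap Filter MeasureTheory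

namespace Pool.Agent.Helper23.ED

open Pool.Agent.Helper23 Pool.Agent.Helper23.RBF

open Pool.Agent.Helper78.BC.Transport (Sub r)

universe u

open TopologicalSpace

variable {H : Type*} [NormedAddCommGroup H] [InnerProductSpace ℂ H] [CompleteSpace H]

variable {N : VonNeumannAlgebra H} {ξ : H} {W : ℝ → H →L[ℂ] H}

namespace WuA

lemma mem_cvn_commutant {S : Set (H →L[ℂ] H)} {a : H →L[ℂ] H} (ha : a ∈ S) :
    a ∈ (cvn S).commutant := by
  rw [mem_comm_iff]
  intro g hg
  exact ((mem_cvn.1 hg) a ha).1.symm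

end WuA

end Pool.Agent.Helper23.ED

end

end

section

section

open scoped InnerProductSpace Topology ENNReal

open ContinuousLinearMap Filter MeasureTheory

set_option linter.unusedSectionVars false

set_option linter.unusedVariables false

namespace Pool.Agent.Helper23

variable {H : Type*} [NormedAddCommGroup H] [InnerProductSpace ℂ H] [CompleteSpace H]

variable {M N : VonNeumannAlgebra H} {ξ : H} {E : (H →L[ℂ] H) → (H →L[ℂ] H)}

lemma ten_ae_mem {V : Submodule ℂ H} (f : L2R ℂ) {η : H} (hη : η ∈ V) :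
    ∀ᵐ s, ten f η s ∈ V := by
  filter_upwards [ten_coe f η] with s hs
  rw [hs]
  exact V.smul_mem _ hη

end Pool.Agent.Helper23

end

section

open scoped InnerProductSpace Topology BoundedContinuousFunction

open ContinuousLinearMap Filter MeasureTheory

set_option linter.unusedSectionVars false

namespace Pool.Agent.Helper23

universe u

variable {H : Type u} [NormedAddCommGroup H] [InnerProductSpace ℂ H] [CompleteSpace H]

variable {M N : VonNeumannAlgebra H} {ξ : H} {E : (H →L[ℂ] H) → (H →L[ℂ] H)}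

lemma chr_eq_expB (l t : ℝ) : chr (Real.log l) t = expB (2 * Real.pi * t) (-Real.log l) := by
  rw [chr, expB_apply]
  congr 1
  push_cast
  ring

end Pool.Agent.Helper23

end

section

open scoped InnerProductSpace Topology ENNReal BoundedContinuousFunction

open ContinuousLinearMap Filter MeasureTheory

namespace Pool.Agent.Helper23.ED

open Pool.Agent.Helper23 Pool.Agent.Helper23.RBF

universe u

open TopologicalSpace

variable {H : Type*} [NormedAddCommGroup H] [InnerProductSpace ℂ H] [CompleteSpace H]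

variable {N : VonNeumannAlgebra H} {ξ : H} {W : ℝ → H →L[ℂ] H}

namespace WuA

lemma ems_bm (a : ℝ) : BM (ems a) := by
  refine ⟨?_, 1, zero_le_one, fun s => ?_⟩
  · unfold ems ph
    fun_prop
  · unfold ems ph
    rw [Complex.norm_exp_ofReal_mul_I]

end WuA

end Pool.Agent.Helper23.ED

end

end

section

section

open scoped InnerProductSpace Topology ENNReal

open ContinuousLinearMap Filter MeasureTheory

set_option linter.unusedSectionVars false

set_option linter.unusedVariables false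

namespace Pool.Agent.Helper23

variable {G : Type*} [NormedAddCommGroup G] [InnerProductSpace ℂ G] [CompleteSpace G]

variable {G' : Type*} [NormedAddCommGroup G'] [InnerProductSpace ℂ G'] [CompleteSpace G']

variable {G'' : Type*} [NormedAddCommGroup G''] [InnerProductSpace ℂ G''] [CompleteSpace G'']

omit [CompleteSpace G] [CompleteSpace G'] in
lemma lift_add (a b : G →L[ℂ] G') : lift (a + b) = lift a + lift b :=
  dec_add (Dec.const a) (Dec.const b)

end Pool.Agent.Helper23

end

end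

section

section

open scoped InnerProductSpace Topology

open ContinuousLinearMap Filter

namespace Pool.Agent.Helper23

universe u

variable {H : Type u} [NormedAddCommGroup H] [InnerProductSpace ℂ H] [CompleteSpace H]

variable {M N : VonNeumannAlgebra H} {ξ : H} {E : (H →L[ℂ] H) → (H →L[ℂ] H)}

section U2

/-- constant sequences -/
theorem AppR_const (hd : Dense (orb M.commutant ξ : Set H)) {x : H →L[ℂ] H} (hx : x ∈ M) :
    (fun _ => x) ∈ AppR M ξ := by
  refine ⟨fun _ => hx, ⟨‖x‖, fun _ => le_rfl⟩, fun ε hε => ?_⟩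
  obtain ⟨z, hz, r, hr, hrz⟩ := Metric.dense_iff.1 hd (x ξ) ε hε
  refine ⟨fun _ => r, fun _ => hr, ⟨‖r‖, fun _ => le_rfl⟩, ?_⟩
  filter_upwards with n
  rw [Metric.mem_ball, dist_eq_norm, norm_sub_rev] at hz
  rw [hrz]
  exact hz.le

end U2

end Pool.Agent.Helper23

end

section

open scoped InnerProductSpace Topology BoundedContinuousFunction

open ContinuousLinearMap Filter

namespace Pool.Agent.Helper23

universe u

variable {H : Type u} [NormedAddCommGroup H] [InnerProductSpace ℂ H] [CompleteSpace H]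

variable {K : Type u} [NormedAddCommGroup K] [InnerProductSpace ℂ K] [CompleteSpace K]

variable {M N : VonNeumannAlgebra H} {ξ : H} {E : (H →L[ℂ] H) → (H →L[ℂ] H)}

section aux

set_option linter.unusedSectionVars false

/-- a weak limit of operators of `A` belongs to `A` -/
lemma U11.mem_of_weak {ι : Type*} {F : Filter ι} [F.NeBot] (A : VonNeumannAlgebra H)
    {x : ι → H →L[ℂ] H} (hx : ∀ i, x i ∈ A) {y : H →L[ℂ] H}
    (h : ∀ v w : H, Tendsto (fun i => ⟪v, x i w⟫_ℂ) F (𝓝 ⟪v, y w⟫_ℂ)) : y ∈ A := by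
  rw [mem_iff_commutes]
  intro g hg
  refine U11.op_ext_inner fun v w => ?_
  have h1 := h ((star g) v) w
  have h2 := h v (g w)
  have h3 : ∀ i, ⟪(star g) v, x i w⟫_ℂ = ⟪v, x i (g w)⟫_ℂ := fun i => by
    rw [inner_star_left, commute_apply (hx i) hg]
  simp only [h3] at h1
  have h4 := tendsto_nhds_unique h1 h2
  rw [inner_star_left] at h4
  exact h4

end aux

end Pool.Agent.Helper23

end

section

open scoped InnerProductSpace Topology ENNReal BoundedContinuousFunction

open ContinuousLinearMap Filter MeasureTheory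

namespace Pool.Agent.Helper23

universe u

variable {H : Type u} [NormedAddCommGroup H] [InnerProductSpace ℂ H] [CompleteSpace H]

variable {K : Type u} [NormedAddCommGroup K] [InnerProductSpace ℂ K] [CompleteSpace K]

variable {M N : VonNeumannAlgebra H} {ξ : H} {E : (H →L[ℂ] H) → (H →L[ℂ] H)}

lemma ocS_const (hd : Dense (orb M.commutant ξ : Set H)) {x : H →L[ℂ] H} (hx : x ∈ M) :
    (fun _ => x) ∈ AppS M ξ :=
  ⟨AppR_const hd hx, AppR_const hd (star_mem hx)⟩

end Pool.Agent.Helper23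

end

end

section

section

open scoped InnerProductSpace

open ContinuousLinearMap

namespace Pool.Agent.Helper23

variable {H : Type*} [NormedAddCommGroup H] [InnerProductSpace ℂ H] [CompleteSpace H]

variable {M N : VonNeumannAlgebra H} {ξ : H} {E : (H →L[ℂ] H) → (H →L[ℂ] H)}

namespace Setting

variable (S : Setting M N E ξ)

include S

lemma eigM_inner {γ : ℝ} {a : H →L[ℂ] H} (ha : a ∈ eig N ξ γ) {x : H →L[ℂ] H} (hx : x ∈ M) :
    ⟪x ξ, a ξ⟫_ℂ = γ * ⟪(star a) ξ, (star x) ξ⟫_ℂ := by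
  have := S.eigM ha (star_mem hx)
  rwa [inner_star_right, ← inner_star_left a ξ] at this

lemma eig_norm_sq {γ : ℝ} {a : H →L[ℂ] H} (ha : a ∈ eig N ξ γ) :
    ‖a ξ‖ ^ 2 = γ * ‖(star a) ξ‖ ^ 2 := by
  have := S.eigM_inner ha (S.le a ha.1)
  rw [inner_self_eq_norm_sq_to_K, inner_self_eq_norm_sq_to_K] at this
  have h2 : ((‖a ξ‖ ^ 2 : ℝ) : ℂ) = ((γ * ‖(star a) ξ‖ ^ 2 : ℝ) : ℂ) := by
    push_cast
    exact this
  exact Complex.ofReal_injective h2

end Setting

end Pool.Agent.Helper23

end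

section

open scoped InnerProductSpace TensorProduct

open ContinuousLinearMap

namespace Pool.Agent.Helper23

variable {H : Type*} [NormedAddCommGroup H] [InnerProductSpace ℂ H] [CompleteSpace H]

variable {M N : VonNeumannAlgebra H} {ξ : H} {E : (H →L[ℂ] H) → (H →L[ℂ] H)}

lemma mul_star_mem_eig_one {γ : ℝ} (hγ : γ ≠ 0) {a b : H →L[ℂ] H} (ha : a ∈ eig N ξ γ)
    (hb : b ∈ eig N ξ γ) : a * star b ∈ eig N ξ 1 := by
  have := eig_mul ha (eig_star hγ hb)
  rwa [mul_inv_cancel₀ hγ] at this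

end Pool.Agent.Helper23

end

section

open scoped InnerProductSpace Topology ENNReal

open ContinuousLinearMap Filter MeasureTheory

set_option linter.unusedSectionVars false

set_option linter.unusedVariables false

namespace Pool.Agent.Helper23

variable {H : Type*} [NormedAddCommGroup H] [InnerProductSpace ℂ H] [CompleteSpace H]

variable {M N : VonNeumannAlgebra H} {ξ : H} {E : (H →L[ℂ] H) → (H →L[ℂ] H)}

namespace GKW

lemma hasSum_int (G F : L2R H) :
    HasSum (fun m : ℤ => ⟪G, mulOp H (ind (Set.Ico (m : ℝ) (m + 1))) F⟫_ℂ) ⟪G, F⟫_ℂ := by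
  have h1 : Integrable (fun s => ⟪G s, F s⟫_ℂ) volume := L2.integrable_inner G F
  have h2 := h1.hasSum_intervalIntegral 0
  have h3 : ∀ m : ℤ, ⟪G, mulOp H (ind (Set.Ico (m : ℝ) (m + 1))) F⟫_ℂ =
      ∫ s in (0 : ℝ) + m..0 + m + 1, ⟪G s, F s⟫_ℂ := by
    intro m
    rw [zero_add, intervalIntegral.integral_of_le (by linarith), ← integral_Ico_eq_integral_Ioc,
      ← integral_indicator measurableSet_Ico, L2.inner_def]
    refine integral_congr_ae ?_
    filter_upwards [mulOp_coe (ind_bm (measurableSet_Ico (a := (m : ℝ)) (b := m + 1))) F] with s hs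
    rw [hs, inner_smul_right]
    by_cases h : s ∈ Set.Ico (m : ℝ) (m + 1)
    · rw [ind_of_mem h, Set.indicator_of_mem h, one_mul]
    · rw [ind_of_notMem h, Set.indicator_of_notMem h, zero_mul]
  simp only [h3]
  rw [L2.inner_def]
  exact h2

end GKW

end Pool.Agent.Helper23

end

end

section

section

open scoped InnerProductSpace Topology ENNReal BoundedContinuousFunction

open ContinuousLinearMap Filter MeasureTheory

namespace Pool.Agent.Helper23

variable {H : Type*} [NormedAddCommGroup H] [InnerProductSpace ℂ H] [CompleteSpace H]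

variable {M N : VonNeumannAlgebra H} {ξ : H} {E : (H →L[ℂ] H) → (H →L[ℂ] H)}

open RBF

/-- a unitary conjugating the amplification of the unitaries of `N` into the unitaries preserving
the weight -/
def ConjGK (N : VonNeumannAlgebra H) (ξ : H) : Prop :=
  ∃ V V' : L2R H →L[ℂ] L2R H, star V = V' ∧ V * V' = 1 ∧ V' * V = 1 ∧
    ∀ u ∈ N, star u * u = 1 → u * star u = 1 → V * lift u * V' ∈ GK N ξ

end Pool.Agent.Helper23

end

end

section

section

open scoped InnerProductSpace Topology BoundedContinuousFunction ComplexOrder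

open ContinuousLinearMap Filter

namespace Pool.Agent.Helper23

variable {H : Type*} [NormedAddCommGroup H] [InnerProductSpace ℂ H] [CompleteSpace H]

variable {M N : VonNeumannAlgebra H} {ξ : H} {E : (H →L[ℂ] H) → (H →L[ℂ] H)}

namespace Setting

variable (S : Setting M N E ξ)

include S

omit S in
lemma lamU_star {l : ℝ} (hl : 0 < l) {a : ℕ → H →L[ℂ] H} (ha : LamU N ξ l a) :
    LamU N ξ l⁻¹ (fun n => star (a n)) := by
  obtain ⟨haN, ⟨C, hC⟩, hD⟩ := ha
  refine ⟨fun n => star_mem (haN n), ⟨C, fun n => by rw [norm_star]; exact hC n⟩,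
    fun ε hε => ?_⟩
  filter_upwards [hD (l * ε) (by positivity)] with n hn
  have := hn.star hl
  rwa [← mul_assoc, inv_mul_cancel₀ hl.ne', one_mul] at this

end Setting

end Pool.Agent.Helper23

end

section

open scoped InnerProductSpace Topology ENNReal BoundedContinuousFunction FourierTransform SchwartzMap

open ContinuousLinearMap Filter MeasureTheory

namespace Pool.Agent.Helper23.ED

open Pool.Agent.Helper23 Pool.Agent.Helper23.RBF

open Pool.Agent.Helper78.BC.Transport (Sub r)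

universe u

variable {H : Type*} [NormedAddCommGroup H] [InnerProductSpace ℂ H] [CompleteSpace H]

variable {M N : VonNeumannAlgebra H} {ξ : H} {E : (H →L[ℂ] H) → (H →L[ℂ] H)}

namespace GgB

lemma tr_dec {T : ℝ → H →L[ℂ] H} (hT : Dec T) (hT' : ∀ t, Dec fun s => T (s - t)) (t : ℝ)
    (F : L2R H) : tr H t (dec T F) = dec (fun s => T (s - t)) (tr H t F) := by
  ext1
  filter_upwards [tr_coe t (dec T F), ae_tr t (dec_coe hT F),
    dec_coe (hT' t) (tr H t F), tr_coe t F] with s h1 h2 h3 h4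
  rw [h1, h2, h3, h4]

end GgB

end Pool.Agent.Helper23.ED

end

end

section

section

open scoped InnerProductSpace TensorProduct

open ContinuousLinearMap

namespace Pool.Agent.Helper23

variable {H : Type*} [NormedAddCommGroup H] [InnerProductSpace ℂ H] [CompleteSpace H]

variable {M N : VonNeumannAlgebra H} {ξ : H} {E : (H →L[ℂ] H) → (H →L[ℂ] H)}

/-- evaluation map `a ⊗ η ↦ a η` -/
noncomputable def evT (N : VonNeumannAlgebra H) (ξ : H) (γ : ℝ) :
    (eig N ξ γ) ⊗[ℂ] H →ₗ[ℂ] H :=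
  TensorProduct.lift
    { toFun := fun a => ((a : H →L[ℂ] H) : H →ₗ[ℂ] H)
      map_add' := fun _ _ => rfl
      map_smul' := fun _ _ => rfl }

lemma evT_tmul (γ : ℝ) (a : eig N ξ γ) (η : H) : evT N ξ γ (a ⊗ₜ η) = (a : H →L[ℂ] H) η := rfl

/-- twisted evaluation map `a ⊗ η ↦ a (u η)` -/
noncomputable def evTu (N : VonNeumannAlgebra H) (ξ : H) (γ : ℝ) (u : H →L[ℂ] H) :
    (eig N ξ γ) ⊗[ℂ] H →ₗ[ℂ] H :=
  TensorProduct.lift
    { toFun := fun a => (((a : H →L[ℂ] H) * u : H →L[ℂ] H) : H →ₗ[ℂ] H)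
      map_add' := fun a b => by
        ext η; rfl
      map_smul' := fun c a => by
        ext η; rfl }

lemma evTu_tmul (γ : ℝ) (u : H →L[ℂ] H) (a : eig N ξ γ) (η : H) :
    evTu N ξ γ u (a ⊗ₜ η) = (a : H →L[ℂ] H) (u η) := rfl

lemma star_ne {γ : ℝ} (hγ : γ ≠ 0) (hne : ∃ a ∈ eig N ξ γ, a ≠ 0) :
    ∃ a ∈ eig N ξ γ⁻¹, a ≠ 0 := by
  obtain ⟨a, ha, ha0⟩ := hne
  exact ⟨star a, eig_star hγ ha, fun h => ha0 (by simpa using congrArg star h)⟩

end Pool.Agent.Helper23

end

end

section

section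

open scoped InnerProductSpace Topology ENNReal

open ContinuousLinearMap Filter MeasureTheory

set_option linter.unusedSectionVars false

set_option linter.unusedVariables false

namespace Pool.Agent.Helper23

variable {H : Type*} [NormedAddCommGroup H] [InnerProductSpace ℂ H] [CompleteSpace H]

variable {M N : VonNeumannAlgebra H} {ξ : H} {E : (H →L[ℂ] H) → (H →L[ℂ] H)}

lemma conj_mem_amp {W : H ≃ₗᵢ[ℂ] L2R H}
    (hW : ∀ a ∈ N.commutant, ∀ x, W (a x) = lift a (W x)) {A : VonNeumannAlgebra H}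
    (hA : ∀ a ∈ A.commutant, a ∈ N.commutant) (x : H →L[ℂ] H) :
    x ∈ A ↔ W.conjStarAlgEquiv x ∈ amp A := by
  rw [mem_iff_commutes, mem_amp]
  have hsymm : ∀ a ∈ N.commutant, ∀ F, W.symm (lift a F) = a (W.symm F) := by
    intro a ha F
    apply W.injective
    rw [W.apply_symm_apply, hW a ha, W.apply_symm_apply]
  constructor
  · intro h a ha
    ext F : 1
    change lift a (W (x (W.symm F))) = W (x (W.symm (lift a F)))
    rw [← hW a (hA a ha), hsymm a (hA a ha)]
    exact congrArg (fun T : H →L[ℂ] H => W (T (W.symm F))) (h a ha)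
  · intro h a ha
    ext η : 1
    have h1 := congrArg (fun T : L2R H →L[ℂ] L2R H => T (W η)) (h a ha)
    change lift a (W (x (W.symm (W η)))) = W (x (W.symm (lift a (W η)))) at h1
    rw [← hW a (hA a ha), hsymm a (hA a ha), W.symm_apply_apply] at h1
    exact W.injective h1

end Pool.Agent.Helper23

end

end

section

section

open scoped InnerProductSpace Topology ENNReal

open ContinuousLinearMap Filter MeasureTheory

set_option linter.unusedSectionVars false

set_option linter.unusedVariables false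

namespace Pool.Agent.Helper23

variable {H : Type*} [NormedAddCommGroup H] [InnerProductSpace ℂ H] [CompleteSpace H]

variable {M N : VonNeumannAlgebra H} {ξ : H} {E : (H →L[ℂ] H) → (H →L[ℂ] H)}

lemma amp_mono (hle : ∀ x ∈ N, x ∈ M) {X : L2R H →L[ℂ] L2R H} (hX : X ∈ amp N) : X ∈ amp M := by
  rw [mem_amp] at hX ⊢
  intro a ha
  refine hX a ?_
  rw [mem_comm_iff] at ha ⊢
  exact fun g hg => ha g (hle g hg)

end Pool.Agent.Helper23

end

end

section

section

open scoped InnerProductSpace Topology ENNReal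

open ContinuousLinearMap Filter MeasureTheory

set_option linter.unusedSectionVars false

set_option linter.unusedVariables false

namespace Pool.Agent.Helper23

variable {H : Type*} [NormedAddCommGroup H] [InnerProductSpace ℂ H] [CompleteSpace H]

variable {A : VonNeumannAlgebra H}

lemma mulOp_mem_amp {m : ℝ → ℂ} (h : BM m) : mulOp H m ∈ amp A := by
  rw [mem_amp]
  intro b _
  ext F : 1
  exact (mulOp_lift h b F).symm

end Pool.Agent.Helper23

end

end
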