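import Pool.Agent.Helper23.FB.L00_a0
import Pool.Agent.Helper23.FB.L00_a1
import Pool.Agent.Helper23.FB.L00_a10
import Pool.Agent.Helper23.FB.L00_a11
import Pool.Agent.Helper23.FB.L00_a13
import Pool.Agent.Helper23.FB.L00_a2

/-!
Parts of Helper23.FA.L00_04, Helper23.FA.L01_04, Helper23.FA.L01_18, Helper23.FA.L01_01, Helper23.FA.L02_08, Helper23.FA.L02_01
-/

attribute [local instance 5000]
  Pool.Agent.Helper23.FB.Inst.rCharZero Pool.Agent.Helper23.FB.Inst.rALM
  Pool.Agent.Helper23.FB.Inst.rARM Pool.Agent.Helper23.FB.Inst.rALSM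
  Pool.Agent.Helper23.FB.Inst.rARSM Pool.Agent.Helper23.FB.Inst.rARRLE
  Pool.Agent.Helper23.FB.Inst.rALRLE Pool.Agent.Helper23.FB.Inst.rARRLT
  Pool.Agent.Helper23.FB.Inst.rALRLT Pool.Agent.Helper23.FB.Inst.rPMRLT
  Pool.Agent.Helper23.FB.Inst.rMPRLT Pool.Agent.Helper23.FB.Inst.rPMM
  Pool.Agent.Helper23.FB.Inst.rMPM Pool.Agent.Helper23.FB.Inst.rPMSM
  Pool.Agent.Helper23.FB.Inst.rMPSM Pool.Agent.Helper23.FB.Inst.rEAOL
  Pool.Agent.Helper23.FB.Inst.rIOR Pool.Agent.Helper23.FB.Inst.rISOR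
  Pool.Agent.Helper23.FB.Inst.rFS Pool.Agent.Helper23.FB.Inst.rcCharZero
  Pool.Agent.Helper23.FB.Inst.rNZD Pool.Agent.Helper23.FB.Inst.rcNZD
  Pool.Agent.Helper23.FB.Inst.bSemiring Pool.Agent.Helper23.FB.Inst.bStar
  Pool.Agent.Helper23.FB.Inst.bAlg Pool.Agent.Helper23.FB.Inst.bSub
  Pool.Agent.Helper23.FB.Inst.bMul Pool.Agent.Helper23.FB.Inst.bAdd
  Pool.Agent.Helper23.FB.Inst.iRing Pool.Agent.Helper23.FB.Inst.iSemiring
  Pool.Agent.Helper23.FB.Inst.iAlgC Pool.Agent.Helper23.FB.Inst.iSMulC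
  Pool.Agent.Helper23.FB.Inst.iModC Pool.Agent.Helper23.FB.Inst.iAlgR
  Pool.Agent.Helper23.FB.Inst.iSMulR Pool.Agent.Helper23.FB.Inst.iModR
  Pool.Agent.Helper23.FB.Inst.iMonoid Pool.Agent.Helper23.FB.Inst.iSemigroup
  Pool.Agent.Helper23.FB.Inst.iMulOneClass Pool.Agent.Helper23.FB.Inst.iMul
  Pool.Agent.Helper23.FB.Inst.iAdd Pool.Agent.Helper23.FB.Inst.iSub
  Pool.Agent.Helper23.FB.Inst.iNeg Pool.Agent.Helper23.FB.Inst.iAddCommMonoid
  Pool.Agent.Helper23.FB.Inst.iAddCommGroup Pool.Agent.Helper23.FB.Inst.iAddGroup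
  Pool.Agent.Helper23.FB.Inst.iAddMonoid Pool.Agent.Helper23.FB.Inst.iSMulZeroC
  Pool.Agent.Helper23.FB.Inst.iMulActC Pool.Agent.Helper23.FB.Inst.iDSMulC
  Pool.Agent.Helper23.FB.Inst.iDSMulR Pool.Agent.Helper23.FB.Inst.iSNAG
  Pool.Agent.Helper23.FB.Inst.iSNACG Pool.Agent.Helper23.FB.Inst.iNorm
  Pool.Agent.Helper23.FB.Inst.iNSC' Pool.Agent.Helper23.FB.Inst.iNSR'
  Pool.Agent.Helper23.FB.Inst.iTop Pool.Agent.Helper23.FB.Inst.iT2 Pool.Agent.Helper23.FB.Inst.iTR
  Pool.Agent.Helper23.FB.Inst.iSCC Pool.Agent.Helper23.FB.Inst.iIST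
  Pool.Agent.Helper23.FB.Inst.iSCCR Pool.Agent.Helper23.FB.Inst.iISTR
  Pool.Agent.Helper23.FB.Inst.iZHC Pool.Agent.Helper23.FB.Inst.iAHC
  Pool.Agent.Helper23.FB.Inst.iAMHC Pool.Agent.Helper23.FB.Inst.iMAHC
  Pool.Agent.Helper23.FB.Inst.lTop Pool.Agent.Helper23.FB.Inst.lUnif
  Pool.Agent.Helper23.FB.Inst.lACM Pool.Agent.Helper23.FB.Inst.lACG
  Pool.Agent.Helper23.FB.Inst.lSNAG Pool.Agent.Helper23.FB.Inst.lSNACG
  Pool.Agent.Helper23.FB.Inst.lNACG Pool.Agent.Helper23.FB.Inst.lNorm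
  Pool.Agent.Helper23.FB.Inst.lIPS Pool.Agent.Helper23.FB.Inst.lMod
  Pool.Agent.Helper23.FB.Inst.lSMul Pool.Agent.Helper23.FB.Inst.lT2
  Pool.Agent.Helper23.FB.Inst.iStar Pool.Agent.Helper23.FB.Inst.iStarMul
  Pool.Agent.Helper23.FB.Inst.iStarAddMonoid Pool.Agent.Helper23.FB.Inst.iStarRing
  Pool.Agent.Helper23.FB.Inst.iNSC Pool.Agent.Helper23.FB.Inst.iSOR
  Pool.Agent.Helper23.FB.Inst.iALM Pool.Agent.Helper23.FB.Inst.iARM
  Pool.Agent.Helper23.FB.Inst.iCFC Pool.Agent.Helper23.FB.Inst.iNCFC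
  Pool.Agent.Helper23.FB.Inst.iStarModR Pool.Agent.Helper23.FB.Inst.iStarModC
  Pool.Agent.Helper23.FB.Inst.eStar Pool.Agent.Helper23.FB.Inst.eAdd
  Pool.Agent.Helper23.FB.Inst.eMul Pool.Agent.Helper23.FB.Inst.eOne
  Pool.Agent.Helper23.FB.Inst.eZero Pool.Agent.Helper23.FB.Inst.eMulAction
  Pool.Agent.Helper23.FB.Inst.eAMHC2 Pool.Agent.Helper23.FB.Inst.eZHC2
  Pool.Agent.Helper23.FB.Inst.lAMHC

section

section

open scoped InnerProductSpace Topology ENNReal

open ContinuousLinearMap Filter MeasureTheory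

set_option linter.unusedSectionVars false

set_option linter.unusedVariables false

namespace Pool.Agent.Helper23

variable {H : Type*} [NormedAddCommGroup H] [InnerProductSpace ℂ H] [CompleteSpace H]

variable {M N : VonNeumannAlgebra H} {ξ : H} {E : (H →L[ℂ] H) → (H →L[ℂ] H)}

/-- the cut off projection on `L²(ℝ)` -/
noncomputable def Pn (n : ℕ) : L2R ℂ →L[ℂ] L2R ℂ := mulOp ℂ (ind (Set.Ico (-(n : ℝ)) n))

end Pool.Agent.Helper23

end

section

open scoped InnerProductSpace Topology ENNReal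

open ContinuousLinearMap Filter MeasureTheory

set_option linter.unusedSectionVars false

set_option linter.unusedVariables false

namespace Pool.Agent.Helper23

variable {H : Type*} [NormedAddCommGroup H] [InnerProductSpace ℂ H] [CompleteSpace H]

variable {M N : VonNeumannAlgebra H} {ξ : H} {E : (H →L[ℂ] H) → (H →L[ℂ] H)}

namespace GKW

/-- the weak form of the centralizer property -/
def WkC (N : VonNeumannAlgebra H) (ξ : H) (u : L2R H →L[ℂ] L2R H) : Prop :=
  ∀ (n : ℕ) (f f' : L2R ℂ), Pn n f = f → Pn n f' = f' → ∀ b ∈ N,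
      ⟪ten f' (b ξ), u (ten (mulOp ℂ (he n) f) ξ)⟫_ℂ =
        ⟪ten (mulOp ℂ (he n) f') ξ, u (ten f ((star b) ξ))⟫_ℂ

end GKW

end Pool.Agent.Helper23

end

end

section

section

open scoped InnerProductSpace Topology ENNReal

open ContinuousLinearMap Filter MeasureTheory

set_option linter.unusedSectionVars false

set_option linter.unusedVariables false

namespace Pool.Agent.Helper23

variable {H : Type*} [NormedAddCommGroup H] [InnerProductSpace ℂ H] [CompleteSpace H]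

lemma ten_smul_left (c : ℂ) (f : L2R ℂ) (η : H) : ten (c • f) η = c • ten f η := map_smul _ _ _

lemma inner_sl' (f : L2R ℂ) (F : L2R H) (η : H) : ⟪sl f F, η⟫_ℂ = ⟪F, ten f η⟫_ℂ := by
  rw [sl, adjoint_inner_left, iot_apply]

lemma sl_ten (f g : L2R ℂ) (η : H) : sl f (ten g η) = ⟪f, g⟫_ℂ • η := by
  refine ext_inner_left ℂ fun ζ => ?_
  rw [inner_sl, inner_ten, inner_smul_right]

lemma slX_apply (X : L2R H →L[ℂ] L2R H) (f g : L2R ℂ) (η : H) :
    slX X f g η = sl f (X (ten g η)) := rfl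

lemma inner_slX (X : L2R H →L[ℂ] L2R H) (f g : L2R ℂ) (η ζ : H) :
    ⟪η, slX X f g ζ⟫_ℂ = ⟪ten f η, X (ten g ζ)⟫_ℂ := by
  rw [slX_apply, inner_sl]

variable {A : VonNeumannAlgebra H}

lemma rk_apply (b : H →L[ℂ] H) (f g : L2R ℂ) (F : L2R H) : rk b f g F = ten f (b (sl g F)) := rfl

end Pool.Agent.Helper23

end

section

open scoped InnerProductSpace Topology ENNReal

open ContinuousLinearMap Filter MeasureTheory

set_option linter.unusedSectionVars false

set_option linter.unusedVariables false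

namespace Pool.Agent.Helper23

lemma dm_of_notMem {m : ℤ} {s : ℝ} (h : s ∉ Set.Ico (m : ℝ) (m + 1)) : dm m s = 0 :=
  Set.indicator_of_notMem h _

lemma dm_bm (m : ℤ) : BM (dm m) := by
  refine ⟨?_, Real.exp ((m + 1) / 2), by positivity, fun s => ?_⟩
  · exact (by fun_prop : Measurable fun s : ℝ => ((Real.exp (s / 2) : ℝ) : ℂ)).indicator
      measurableSet_Ico
  · by_cases h : s ∈ Set.Ico (m : ℝ) (m + 1)
    · rw [dm_of_mem h, Complex.norm_real, Real.norm_of_nonneg (by positivity)]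
      exact Real.exp_le_exp.2 (by have := h.2; (clear * - this; linarith))
    · rw [dm_of_notMem h, norm_zero]
      positivity

lemma dm_conj (m : ℤ) : (fun s => (starRingEnd ℂ) (dm m s)) = dm m := by
  funext s
  by_cases h : s ∈ Set.Ico (m : ℝ) (m + 1)
  · rw [dm_of_mem h, Complex.conj_ofReal]
  · rw [dm_of_notMem h, map_zero]

/-- the quadratic form `∫ e^s |f(s)|² ds` -/
noncomputable def q0 (f : L2R ℂ) : ℝ≥0∞ := ∫⁻ s, ENNReal.ofReal (Real.exp s * ‖f s‖ ^ 2)

lemma inner_gJ (j : JJ) (f : L2R ℂ) : ⟪gJ j, f⟫_ℂ = ⟪hb j.2, mulOp ℂ (dm j.1) f⟫_ℂ := by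
  have := mulOp_adj (dm_bm j.1) (hb j.2) f
  rw [dm_conj] at this
  exact this

/-- the frame identity -/
theorem frame (f : L2R ℂ) : ∑' j : JJ, ENNReal.ofReal (‖⟪gJ j, f⟫_ℂ‖ ^ 2) = q0 f := by
  rw [ENNReal.tsum_prod']
  have h1 : ∀ m : ℤ, ∑' k : hw, ENNReal.ofReal (‖⟪gJ (m, k), f⟫_ℂ‖ ^ 2) =
      ∫⁻ s, Set.indicator (Set.Ico (m : ℝ) (m + 1))
        (fun s => ENNReal.ofReal (Real.exp s * ‖f s‖ ^ 2)) s := by
    intro m
    have h2 : ∀ k : hw, ENNReal.ofReal (‖⟪gJ (m, k), f⟫_ℂ‖ ^ 2) =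
        ENNReal.ofReal (‖⟪hb k, mulOp ℂ (dm m) f⟫_ℂ‖ ^ 2) := by
      intro k
      rw [inner_gJ]
    simp only [h2]
    rw [parseval_enn, norm_sq_lint]
    refine lintegral_congr_ae ?_
    filter_upwards [mulOp_coe (dm_bm m) f] with s hs
    rw [hs]
    by_cases h : s ∈ Set.Ico (m : ℝ) (m + 1)
    · rw [dm_of_mem h, Set.indicator_of_mem h, smul_eq_mul, norm_mul, mul_pow,
        Complex.norm_real, Real.norm_of_nonneg (by positivity), ← Real.exp_nat_mul]
      congr 3
      push_cast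
      ring
    · rw [dm_of_notMem h, Set.indicator_of_notMem h, zero_smul, norm_zero]
      norm_num
  simp only [h1]
  rw [q0, ← lintegral_tsum]
  · refine lintegral_congr fun s => ?_
    rw [tsum_eq_single ⌊s⌋]
    · rw [Set.indicator_of_mem]
      exact ⟨Int.floor_le s, Int.lt_floor_add_one s⟩
    · intro m hm
      rw [Set.indicator_of_notMem]
      rintro ⟨h2, h3⟩
      exact hm (Int.floor_eq_iff.2 ⟨h2, h3⟩).symm
  · intro m
    have hf : AEMeasurable (fun s => ENNReal.ofReal (Real.exp s * ‖f s‖ ^ 2)) volume := by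
      refine ENNReal.measurable_ofReal.comp_aemeasurable ?_
      exact Real.measurable_exp.aemeasurable.mul
        ((Lp.aestronglyMeasurable f).norm.aemeasurable.pow_const 2)
    exact hf.indicator measurableSet_Ico

section SS

variable {K : Type*} [NormedAddCommGroup K] [InnerProductSpace ℂ K] [CompleteSpace K]

lemma SS_eq {ι : Type*} (b : HilbertBasis ι ℂ K) (Θ : L2R ℂ →L[ℂ] K) :
    SS Θ = ∑' i, q0 ((adjoint Θ) (b i)) := by
  have h1 : ∀ j : JJ, ENNReal.ofReal (‖Θ (gJ j)‖ ^ 2) =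
      ∑' i, ENNReal.ofReal (‖⟪gJ j, (adjoint Θ) (b i)⟫_ℂ‖ ^ 2) := by
    intro j
    rw [← parseval_enn b]
    refine tsum_congr fun i => ?_
    rw [adjoint_inner_right, ← norm_inner_symm]
  rw [SS]
  simp only [h1]
  rw [ENNReal.tsum_comm]
  exact tsum_congr fun i => frame _

end SS

end Pool.Agent.Helper23

end

section

open scoped InnerProductSpace Topology ENNReal

open ContinuousLinearMap Filter MeasureTheory

set_option linter.unusedSectionVars false

set_option linter.unusedVariables false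

namespace Pool.Agent.Helper23

variable {H : Type*} [NormedAddCommGroup H] [InnerProductSpace ℂ H] [CompleteSpace H]

variable {M N : VonNeumannAlgebra H} {ξ : H} {E : (H →L[ℂ] H) → (H →L[ℂ] H)}

lemma he_bm (n : ℕ) : BM (he n) := by
  refine ⟨?_, Real.exp n, by positivity, fun s => ?_⟩
  · exact (by fun_prop : Measurable fun s : ℝ => ((Real.exp s : ℝ) : ℂ)).indicator
      measurableSet_Ico
  · by_cases h : s ∈ Set.Ico (-(n : ℝ)) n
    · rw [he, Set.indicator_of_mem h, Complex.norm_real, Real.norm_of_nonneg (by positivity)]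
      exact Real.exp_le_exp.2 h.2.le
    · rw [he, Set.indicator_of_notMem h, norm_zero]
      positivity

end Pool.Agent.Helper23

end

section

open scoped InnerProductSpace Topology ENNReal

open ContinuousLinearMap Filter MeasureTheory

set_option linter.unusedSectionVars false

set_option linter.unusedVariables false

namespace Pool.Agent.Helper23

variable {H : Type*} [NormedAddCommGroup H] [InnerProductSpace ℂ H] [CompleteSpace H]

variable {M N : VonNeumannAlgebra H} {ξ : H} {E : (H →L[ℂ] H) → (H →L[ℂ] H)}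

namespace GKW

lemma WkC_one : WkC N ξ (1 : L2R H →L[ℂ] L2R H) := by
  intro n f f' hf hf' b hb
  rw [one_apply_eq_self, one_apply_eq_self, inner_ten, inner_ten, inner_star_right]
  have h3 := mulOp_adj (he_bm n) f' f
  rw [he_conj] at h3
  rw [h3]

lemma sl_mulOp {m : ℝ → ℂ} (hm : BM m) (hc : (fun s => (starRingEnd ℂ) (m s)) = m) (f : L2R ℂ)
    (F : L2R H) : sl (mulOp ℂ m f) F = sl f (mulOp H m F) := by
  refine ext_inner_left ℂ fun ζ => ?_
  rw [inner_sl, inner_sl, ← mulOp_ten hm]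
  have := mulOp_adj hm (ten f ζ) F
  rw [hc] at this
  exact this

lemma dmi_bm (m : ℤ) : BM (dmi m) := by
  refine ⟨?_, Real.exp (-m / 2), by positivity, fun s => ?_⟩
  · exact (by fun_prop : Measurable fun s : ℝ => ((Real.exp (-s / 2) : ℝ) : ℂ)).indicator
      measurableSet_Ico
  · by_cases h : s ∈ Set.Ico (m : ℝ) (m + 1)
    · rw [dmi_of_mem h, Complex.norm_real, Real.norm_of_nonneg (by positivity)]
      exact Real.exp_le_exp.2 (by have := h.1; linarith)
    · rw [dmi_of_notMem h, norm_zero]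
      positivity

lemma dmi_dm (m : ℤ) : (fun s => dmi m s * dm m s) = ind (Set.Ico (m : ℝ) (m + 1)) := by
  funext s
  by_cases h : s ∈ Set.Ico (m : ℝ) (m + 1)
  · rw [dmi_of_mem h, dm_of_mem h, ind_of_mem h, ← Complex.ofReal_mul, ← Real.exp_add]
    have : -s / 2 + s / 2 = 0 := by ring
    rw [this, Real.exp_zero, Complex.ofReal_one]
  · rw [dmi_of_notMem h, ind_of_notMem h, zero_mul]

/-- the dual frame -/
noncomputable def fJ (j : JJ) : L2R ℂ := mulOp ℂ (dmi j.1) (hb j.2)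

lemma he_fJ (n : ℕ) (j : JJ) : mulOp ℂ (he (bd n j.1)) (fJ j) = gJ j := by
  rw [fJ, gJ, mulOp_mulOp (he_bm _) (dmi_bm _)]
  congr 2
  funext s
  by_cases h : s ∈ Set.Ico (j.1 : ℝ) (j.1 + 1)
  · rw [dmi_of_mem h, dm_of_mem h, he_of_mem (Ico_sub n j.1 h), ← Complex.ofReal_mul,
      ← Real.exp_add]
    congr 2
    ring
  · rw [dmi_of_notMem h, dm_of_notMem h, mul_zero]

lemma Pn_fJ (n : ℕ) (j : JJ) : Pn (bd n j.1) (fJ j) = fJ j := by
  rw [fJ, Pn, mulOp_mulOp (ind_bm measurableSet_Ico) (dmi_bm _)]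
  congr 2
  funext s
  by_cases h : s ∈ Set.Ico (j.1 : ℝ) (j.1 + 1)
  · rw [ind_of_mem (Ico_sub n j.1 h), one_mul]
  · rw [dmi_of_notMem h, mul_zero]

lemma he_cut {n n' : ℕ} (h : n ≤ n') {c : L2R ℂ} (hc : Pn n c = c) :
    mulOp ℂ (he n') c = mulOp ℂ (he n) c := by
  conv_lhs => rw [← hc]
  conv_rhs => rw [← hc]
  rw [Pn, mulOp_mulOp (he_bm _) (ind_bm measurableSet_Ico),
    mulOp_mulOp (he_bm _) (ind_bm measurableSet_Ico)]
  congr 2
  funext s
  by_cases hs : s ∈ Set.Ico (-(n : ℝ)) n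
  · have h' : (n : ℝ) ≤ n' := by exact_mod_cast h
    rw [he_of_mem hs, he_of_mem (show s ∈ Set.Ico (-(n' : ℝ)) n' from
      ⟨by (clear * - h' hs; linarith [hs.1]), by (clear * - h' hs; linarith [hs.2])⟩)]
  · rw [ind_of_notMem hs, mul_zero, mul_zero]

/-- the finite rank operators -/
noncomputable def fr {ι : Type*} (H : Type*) [NormedAddCommGroup H] [InnerProductSpace ℂ H]
    [CompleteSpace H] (t : Finset ι) (a c : ι → L2R ℂ) : L2R H →L[ℂ] L2R H :=
  ∑ i ∈ t, rk 1 (a i) (c i)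

lemma fr_apply {ι : Type*} (t : Finset ι) (a c : ι → L2R ℂ) (F : L2R H) :
    fr H t a c F = ∑ i ∈ t, ten (a i) (sl (c i) F) := by
  rw [fr, sum_apply]
  rfl

lemma norm_fr {ι : Type*} (Y : L2R H →L[ℂ] L2R H) (t : Finset ι) (a c : ι → L2R ℂ) (w : L2R H) :
    ((‖(Y * fr H t a c) w‖ ^ 2 : ℝ) : ℂ) =
      ∑ i' ∈ t, ∑ i ∈ t, ⟪w, rk (slX (star Y * Y) (a i') (a i)) (c i') (c i) w⟫_ℂ := by
  have h1 : (Y * fr H t a c) w = ∑ i ∈ t, Y (ten (a i) (sl (c i) w)) := by
    change Y (fr H t a c w) = _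
    rw [fr_apply, map_sum]
  have h2 : ((‖(Y * fr H t a c) w‖ ^ 2 : ℝ) : ℂ) =
      ⟪(Y * fr H t a c) w, (Y * fr H t a c) w⟫_ℂ := by
    rw [inner_self_eq_norm_sq_to_K]; norm_cast
  rw [h2, h1, sum_inner]
  refine Finset.sum_congr rfl fun i' _ => ?_
  rw [inner_sum]
  refine Finset.sum_congr rfl fun i _ => ?_
  rw [rk_apply, ← inner_sl', slX_apply, inner_sl]
  change _ = ⟪ten (a i') (sl (c i') w), (star Y) (Y (ten (a i) (sl (c i) w)))⟫_ℂ
  rw [inner_star_right]

lemma hs_bm (σ : ℝ) (n : ℕ) : BM (hs σ n) := by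
  refine ⟨?_, Real.exp (|σ| * n / 2), by positivity, fun s => ?_⟩
  · exact (by fun_prop : Measurable fun s : ℝ => ((Real.exp (σ * s / 2) : ℝ) : ℂ)).indicator
      measurableSet_Ico
  · by_cases h : s ∈ Set.Ico (-(n : ℝ)) n
    · rw [hs_of_mem h, Complex.norm_real, Real.norm_of_nonneg (by positivity)]
      refine Real.exp_le_exp.2 ?_
      have h1 : |s| ≤ n := abs_le.2 ⟨h.1, h.2.le⟩
      have h2 : σ * s ≤ |σ| * n := (le_abs_self _).trans (by rw [abs_mul]; gcongr)
      (clear * - h2; linarith)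
    · rw [hs_of_notMem h, norm_zero]
      positivity

lemma qs_apply (t : Finset hw) (f : L2R ℂ) : qs t f = ∑ k ∈ t, ⟪hb k, f⟫_ℂ • hb k := by
  rw [qs, sum_apply]
  rfl

lemma qs_symm (t : Finset hw) (f g : L2R ℂ) : ⟪qs t f, g⟫_ℂ = ⟪f, qs t g⟫_ℂ := by
  rw [qs_apply, qs_apply, sum_inner, inner_sum]
  refine Finset.sum_congr rfl fun k _ => ?_
  rw [inner_smul_left, inner_smul_right, inner_conj_symm, mul_comm]

lemma qs_norm (t : Finset hw) (f : L2R ℂ) : ‖qs t f‖ ≤ ‖f‖ := by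
  have h1 : ((‖qs t f‖ ^ 2 : ℝ) : ℂ) = ((∑ k ∈ t, ‖⟪hb k, f⟫_ℂ‖ ^ 2 : ℝ) : ℂ) := by
    have h2 : ((‖qs t f‖ ^ 2 : ℝ) : ℂ) = ⟪qs t f, qs t f⟫_ℂ := by
      rw [inner_self_eq_norm_sq_to_K]; norm_cast
    rw [h2, qs_apply, hb.orthonormal.inner_sum]
    push_cast
    refine Finset.sum_congr rfl fun k _ => ?_
    rw [RCLike.conj_mul]
    norm_cast
  have h2 : ‖qs t f‖ ^ 2 = ∑ k ∈ t, ‖⟪hb k, f⟫_ℂ‖ ^ 2 := Complex.ofReal_injective h1
  have h3 := hb.orthonormal.sum_inner_products_le (s := t) f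
  have h4 : ‖qs t f‖ ^ 2 ≤ ‖f‖ ^ 2 := by rw [h2]; exact h3
  exact (pow_le_pow_iff_left₀ (norm_nonneg _) (norm_nonneg _) two_ne_zero).1 h4

lemma q0_hs_neg (n : ℕ) (f : L2R ℂ) :
    q0 (mulOp ℂ (hs (-1) n) f) ≤ ENNReal.ofReal (‖f‖ ^ 2) := by
  rw [norm_sq_lint, q0]
  refine lintegral_mono_ae ?_
  filter_upwards [mulOp_coe (hs_bm (-1) n) f] with s hs'
  refine ENNReal.ofReal_le_ofReal ?_
  rw [hs', norm_smul]
  by_cases h : s ∈ Set.Ico (-(n : ℝ)) n
  · rw [hs_of_mem h, Complex.norm_real, Real.norm_of_nonneg (by positivity), mul_pow, ← mul_assoc,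
      ← Real.exp_nat_mul, ← Real.exp_add]
    have : s + ((2 : ℕ) : ℝ) * (-1 * s / 2) = 0 := by push_cast; ring
    rw [this, Real.exp_zero, one_mul]
  · rw [hs_of_notMem h]
    simp

lemma norm_hs (n : ℕ) (f : L2R ℂ) :
    ENNReal.ofReal (‖mulOp ℂ (hs 1 n) f‖ ^ 2) ≤ q0 f := by
  rw [norm_sq_lint, q0]
  refine lintegral_mono_ae ?_
  filter_upwards [mulOp_coe (hs_bm 1 n) f] with s hs'
  refine ENNReal.ofReal_le_ofReal ?_
  rw [hs', norm_smul]
  by_cases h : s ∈ Set.Ico (-(n : ℝ)) n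
  · rw [hs_of_mem h, Complex.norm_real, Real.norm_of_nonneg (by positivity), mul_pow,
      ← Real.exp_nat_mul]
    have : ((2 : ℕ) : ℝ) * (1 * s / 2) = s := by push_cast; ring
    rw [this]
  · rw [hs_of_notMem h]
    simp
    (clear * -; positivity)

/-- the approximating operators -/
noncomputable def Pns (H : Type*) [NormedAddCommGroup H] [InnerProductSpace ℂ H]
    [CompleteSpace H] (n : ℕ) (t : Finset hw) : L2R H →L[ℂ] L2R H :=
  fr H t (fun k => mulOp ℂ (hs 1 n) (hb k)) (fun k => mulOp ℂ (hs (-1) n) (hb k))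

lemma Pns_ten (n : ℕ) (t : Finset hw) (f : L2R ℂ) :
    Pns H n t (ten f ξ) = ten (mulOp ℂ (hs 1 n) (qs t (mulOp ℂ (hs (-1) n) f))) ξ := by
  rw [Pns, fr_apply, qs_apply, map_sum]
  have h0 : ∀ g : hw → L2R ℂ, ten (∑ k ∈ t, g k) ξ = ∑ k ∈ t, ten (g k) ξ := fun g =>
    map_sum (axi ξ) g t
  rw [h0]
  refine Finset.sum_congr rfl fun k _ => ?_
  rw [sl_ten, ten_smul_right, map_smul, ten_smul_left]
  congr 1
  have := mulOp_adj (hs_bm (-1) n) (hb k) f
  rw [hs_conj] at this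
  exact this

lemma SX_Pns_le (n : ℕ) (t : Finset hw) (Y : L2R H →L[ℂ] L2R H) :
    SX ξ (Y * Pns H n t) ≤ SX ξ Y := by
  obtain ⟨w, b, -⟩ := exists_hilbertBasis ℂ (L2R H)
  set p : L2R ℂ →L[ℂ] L2R ℂ := (mulOp ℂ (hs 1 n)).comp ((qs t).comp (mulOp ℂ (hs (-1) n))) with hp
  have h1 : (Y * Pns H n t).comp (axi ξ) = (Y.comp (axi ξ)).comp p := by
    ext f : 1
    change Y (Pns H n t (ten f ξ)) = Y (ten (p f) ξ)
    rw [Pns_ten]
    rfl
  have h2 : adjoint p = (mulOp ℂ (hs (-1) n)).comp ((qs t).comp (mulOp ℂ (hs 1 n))) := by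
    symm
    rw [eq_adjoint_iff]
    intro x y
    change ⟪mulOp ℂ (hs (-1) n) (qs t (mulOp ℂ (hs 1 n) x)), y⟫_ℂ =
      ⟪x, mulOp ℂ (hs 1 n) (qs t (mulOp ℂ (hs (-1) n) y))⟫_ℂ
    have e1 := mulOp_adj (hs_bm (-1) n) (qs t (mulOp ℂ (hs 1 n) x)) y
    have e2 := mulOp_adj (hs_bm 1 n) x (qs t (mulOp ℂ (hs (-1) n) y))
    rw [hs_conj] at e1 e2
    rw [e1, qs_symm, e2]
  rw [SX, SX, h1, SS_eq b, SS_eq b]
  refine ENNReal.tsum_le_tsum fun i => ?_
  rw [adjoint_comp, h2]
  set f := (adjoint (Y.comp (axi ξ))) (b i) with hf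
  change q0 (mulOp ℂ (hs (-1) n) (qs t (mulOp ℂ (hs 1 n) f))) ≤ q0 f
  refine (q0_hs_neg n _).trans (le_trans (ENNReal.ofReal_le_ofReal ?_) (norm_hs n f))
  gcongr
  exact qs_norm t _

end GKW

end Pool.Agent.Helper23

end

section

open scoped InnerProductSpace Topology ENNReal

open ContinuousLinearMap Filter MeasureTheory

namespace Pool.Agent.Helper23

variable {H : Type*} [NormedAddCommGroup H] [InnerProductSpace ℂ H] [CompleteSpace H]

variable {G : Type*} [NormedAddCommGroup G] [InnerProductSpace ℂ G] [CompleteSpace G]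

variable {M N : VonNeumannAlgebra H} {ξ : H} {E : (H →L[ℂ] H) → (H →L[ℂ] H)}

/-- Parseval on the fibres -/
lemma hasSum_sq (F : L2R H) : HasSum (fun k : hw => ‖sl (hb k) F‖ ^ 2) (‖F‖ ^ 2) := by
  have h1 := (innerSL ℂ F).hasSum (GKW.hasSum_hb F)
  have h2 : (fun k : hw => (innerSL ℂ F) (ten (hb k) (sl (hb k) F))) =
      fun k : hw => (((‖sl (hb k) F‖ ^ 2 : ℝ)) : ℂ) := by
    funext k
    change ⟪F, ten (hb k) (sl (hb k) F)⟫_ℂ = _
    rw [← inner_sl', inner_self_eq_norm_sq_to_K]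
    norm_cast
  have h3 : (innerSL ℂ F) F = (((‖F‖ ^ 2 : ℝ)) : ℂ) := by
    change ⟪F, F⟫_ℂ = _
    rw [inner_self_eq_norm_sq_to_K]
    norm_cast
  change HasSum (fun k : hw => (innerSL ℂ F) (ten (hb k) (sl (hb k) F))) ((innerSL ℂ F) F) at h1
  rw [h2, h3] at h1
  exact_mod_cast h1

lemma bessel_sq (A : Finset hw) (F : L2R H) : ∑ k ∈ A, ‖sl (hb k) F‖ ^ 2 ≤ ‖F‖ ^ 2 :=
  sum_le_hasSum A (fun _ _ => by (clear * -; positivity)) (hasSum_sq F)

end Pool.Agent.Helper23

end

section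

open scoped InnerProductSpace Topology ENNReal

open ContinuousLinearMap Filter MeasureTheory

namespace Pool.Agent.Helper23

variable {H : Type*} [NormedAddCommGroup H] [InnerProductSpace ℂ H] [CompleteSpace H]

variable {M N : VonNeumannAlgebra H} {ξ : H} {E : (H →L[ℂ] H) → (H →L[ℂ] H)}

/-- finite approximation of the Parseval sums -/
lemma exists_finite {t : ℝ} (A : Finset ℤ) (D : L2R H) {ε : ℝ} (hε : 0 < ε) :
    ∃ B : Finset hw, ∑ i ∈ A, ‖mulOp H (ind (win t i)) D‖ ^ 2 ≤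
      ∑ i ∈ A, ∑ k ∈ B, ‖sl (mulOp ℂ (ind (win t i)) (hb k)) D‖ ^ 2 + ε := by
  classical
  have h1 : HasSum (fun k : hw => ∑ i ∈ A, ‖sl (hb k) (mulOp H (ind (win t i)) D)‖ ^ 2)
      (∑ i ∈ A, ‖mulOp H (ind (win t i)) D‖ ^ 2) :=
    hasSum_sum fun i _ => hasSum_sq (mulOp H (ind (win t i)) D)
  have h2 := (h1.eventually (lt_mem_nhds (show ∑ i ∈ A, ‖mulOp H (ind (win t i)) D‖ ^ 2 - ε <
    ∑ i ∈ A, ‖mulOp H (ind (win t i)) D‖ ^ 2 by (clear * - hε; linarith)))).exists
  obtain ⟨B, hB⟩ := h2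
  refine ⟨B, ?_⟩
  have h3 : ∑ k ∈ B, ∑ i ∈ A, ‖sl (hb k) (mulOp H (ind (win t i)) D)‖ ^ 2 =
      ∑ i ∈ A, ∑ k ∈ B, ‖sl (mulOp ℂ (ind (win t i)) (hb k)) D‖ ^ 2 := by
    rw [Finset.sum_comm]
    refine Finset.sum_congr rfl fun i _ => Finset.sum_congr rfl fun k _ => ?_
    rw [sl_mulOp' (ind_bm (win_meas t i)), ind_conj]
  rw [← h3]
  linarith

end Pool.Agent.Helper23

end

end

section

section

open scoped InnerProductSpace Topology ENNReal

open ContinuousLinearMap Filter MeasureTheory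

set_option linter.unusedSectionVars false

set_option linter.unusedVariables false

namespace Pool.Agent.Helper23

variable {G : Type*} [NormedAddCommGroup G] [InnerProductSpace ℂ G] [CompleteSpace G]

variable {G' : Type*} [NormedAddCommGroup G'] [InnerProductSpace ℂ G'] [CompleteSpace G']

variable {G'' : Type*} [NormedAddCommGroup G''] [InnerProductSpace ℂ G''] [CompleteSpace G'']

/-- continuity of translations -/
lemma tr_continuous (F : L2R G) : Continuous fun t : ℝ => tr G t F := by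
  have h1 : Continuous (fun t : ℝ => (⟨fun s => s - t, by fun_prop⟩ : C(ℝ, ℝ))) := by
    have : Continuous (fun p : ℝ × ℝ => p.2 - p.1) := by fun_prop
    exact (ContinuousMap.curry ⟨_, this⟩).continuous
  exact (continuous_const (y := F)).compMeasurePreservingLp h1 (fun t => mp_sub t) (by norm_num)

end Pool.Agent.Helper23

end

section

open scoped InnerProductSpace Topology ENNReal

open ContinuousLinearMap Filter MeasureTheory Polynomial

set_option linter.unusedSectionVars false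

set_option linter.unusedVariables false

namespace Pool.Agent.Helper23

variable {H : Type*} [NormedAddCommGroup H] [InnerProductSpace ℂ H] [CompleteSpace H]

variable {M N : VonNeumannAlgebra H} {ξ : H} {E : (H →L[ℂ] H) → (H →L[ℂ] H)}

lemma Pn_coe (n : ℕ) (f : L2R ℂ) :
    Pn n f =ᵐ[volume] fun s => ind (Set.Ico (-(n : ℝ)) n) s • f s :=
  mulOp_coe (ind_bm measurableSet_Ico) f

lemma Pn_mono {n m : ℕ} (h : n ≤ m) {f : L2R ℂ} (hf : Pn n f = f) : Pn m f = f := by
  rw [← hf, Pn, Pn, mulOp_mulOp (ind_bm measurableSet_Ico) (ind_bm measurableSet_Ico)]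
  congr 2
  funext s
  by_cases hs : s ∈ Set.Ico (-(n : ℝ)) n
  · have h' : (n : ℝ) ≤ m := by exact_mod_cast h
    rw [ind_of_mem hs, ind_of_mem (show s ∈ Set.Ico (-(m : ℝ)) m from
      ⟨by (clear * - h' hs; linarith [hs.1]), by (clear * - h' hs; linarith [hs.2])⟩), one_mul]
  · rw [ind_of_notMem hs, mul_zero]

end Pool.Agent.Helper23

end

section

open scoped InnerProductSpace Topology BoundedContinuousFunction FourierTransform ENNReal

open ContinuousLinearMap Filter MeasureTheory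

set_option linter.unusedSectionVars false

namespace Pool.Agent.Helper23

variable {H : Type*} [NormedAddCommGroup H] [InnerProductSpace ℂ H] [CompleteSpace H]

lemma supp_of_Pn {m : ℕ} {f : L2R ℂ} (hf : Pn m f = f) :
    ∀ᵐ s, s ∉ Set.Ico (-(m : ℝ)) m → f s = 0 := by
  have h2 := mulOp_coe (ind_bm (measurableSet_Ico (a := -(m : ℝ)) (b := m))) f
  change (Pn m f : ℝ → ℂ) =ᵐ[volume] _ at h2
  rw [hf] at h2
  filter_upwards [h2] with s hs hs'
  rw [hs, ind_of_notMem hs', zero_smul]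

lemma two_sub_FR (ρ : ℝ) : (2 - FR) ρ = ((2 * Real.exp ρ / (1 + Real.exp ρ) : ℝ) : ℂ) := by
  rw [BoundedContinuousFunction.sub_apply, FR_apply]
  have h2 : (2 : ℝ →ᵇ ℂ) ρ = 2 := rfl
  have h1 : (1 + Real.exp ρ) ≠ 0 := by positivity
  rw [h2]
  have h3 : (2 * Real.exp ρ / (1 + Real.exp ρ) : ℝ) = 2 - 2 / (1 + Real.exp ρ) := by
    field_simp
    ring
  rw [h3]
  push_cast
  ring

lemma star_two_sub : star (2 - FR) = 2 - FR := by
  ext ρ
  rw [BoundedContinuousFunction.star_apply, two_sub_FR, Complex.star_def, Complex.conj_ofReal]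

end Pool.Agent.Helper23

end

section

open scoped InnerProductSpace Topology ENNReal

open ContinuousLinearMap Filter MeasureTheory

namespace Pool.Agent.Helper23

variable {H : Type*} [NormedAddCommGroup H] [InnerProductSpace ℂ H] [CompleteSpace H]

variable {G : Type*} [NormedAddCommGroup G] [InnerProductSpace ℂ G] [CompleteSpace G]

variable {M N : VonNeumannAlgebra H} {ξ : H} {E : (H →L[ℂ] H) → (H →L[ℂ] H)}

lemma Pn_ae {n : ℕ} {f : L2R ℂ} (hf : Pn n f = f) :
    ∀ᵐ s, s ∉ Set.Ico (-(n : ℝ)) n → f s = 0 := by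
  filter_upwards [Pn_coe n f] with s hs h
  rw [hf, ind_of_notMem h, zero_smul] at hs
  exact hs

end Pool.Agent.Helper23

end

end

section

section

open scoped InnerProductSpace

open ContinuousLinearMap

namespace Pool.Agent.Helper23

variable {H : Type*} [NormedAddCommGroup H] [InnerProductSpace ℂ H] [CompleteSpace H]

variable {M N : VonNeumannAlgebra H} {ξ : H} {E : (H →L[ℂ] H) → (H →L[ℂ] H)}

/-- The closure of `N ξ`. -/
noncomputable def K0 (N : VonNeumannAlgebra H) (ξ : H) : Submodule ℂ H :=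
  (orb N ξ).topologicalClosure

lemma K0_isClosed : IsClosed (K0 N ξ : Set H) := Submodule.isClosed_topologicalClosure _

instance : CompleteSpace (K0 N ξ) := K0_isClosed.completeSpace_coe

lemma mem_K0 {a : H →L[ℂ] H} (ha : a ∈ N) : a ξ ∈ K0 N ξ :=
  Submodule.le_topologicalClosure _ ⟨a, ha, rfl⟩

end Pool.Agent.Helper23

end

section

open scoped InnerProductSpace Topology ENNReal

open ContinuousLinearMap Filter MeasureTheory

set_option linter.unusedSectionVars false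

set_option linter.unusedVariables false

namespace Pool.Agent.Helper23

variable {G : Type*} [NormedAddCommGroup G] [InnerProductSpace ℂ G] [CompleteSpace G]

variable {G' : Type*} [NormedAddCommGroup G'] [InnerProductSpace ℂ G'] [CompleteSpace G']

variable {G'' : Type*} [NormedAddCommGroup G''] [InnerProductSpace ℂ G''] [CompleteSpace G'']

omit [CompleteSpace G] in
lemma tr_norm (t : ℝ) (F : L2R G) : ‖tr G t F‖ = ‖F‖ :=
  Lp.norm_compMeasurePreserving F (mp_sub t)

end Pool.Agent.Helper23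

end

section

open scoped InnerProductSpace Topology ENNReal

open ContinuousLinearMap Filter MeasureTheory

set_option linter.unusedSectionVars false

set_option linter.unusedVariables false

namespace Pool.Agent.Helper23

variable {H : Type*} [NormedAddCommGroup H] [InnerProductSpace ℂ H] [CompleteSpace H]

lemma sl_lift (f : L2R ℂ) (a : H →L[ℂ] H) (F : L2R H) : sl f (lift a F) = a (sl f F) := by
  refine ext_inner_left ℂ fun ζ => ?_
  rw [inner_sl]
  have h1 : ⟪ten f ζ, lift a F⟫_ℂ = ⟪(star (lift a)) (ten f ζ), F⟫_ℂ := by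
    rw [inner_star_left]
  have h2 : ⟪ζ, a (sl f F)⟫_ℂ = ⟪(star a) ζ, sl f F⟫_ℂ := by
    rw [inner_star_left]
  rw [h1, h2, inner_sl, ← lift_star, lift_ten]

variable {A : VonNeumannAlgebra H}

lemma amp_comm {X : L2R H →L[ℂ] L2R H} (hX : X ∈ amp A) {a : H →L[ℂ] H} (ha : a ∈ A.commutant)
    (F : L2R H) : lift a (X F) = X (lift a F) :=
  congrArg (fun T : L2R H →L[ℂ] L2R H => T F) (mem_amp.1 hX a ha)

lemma amp_ten {X : L2R H →L[ℂ] L2R H} (hX : X ∈ amp A) {a : H →L[ℂ] H} (ha : a ∈ A.commutant)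
    (f : L2R ℂ) (η : H) : X (ten f (a η)) = lift a (X (ten f η)) := by
  rw [amp_comm hX ha, lift_ten]

lemma slX_mem {X : L2R H →L[ℂ] L2R H} (hX : X ∈ amp A) (f g : L2R ℂ) : slX X f g ∈ A := by
  rw [mem_iff_commutes]
  intro a ha
  ext η
  change a (sl f (X (ten g η))) = sl f (X (ten g (a η)))
  rw [amp_ten hX ha, sl_lift]

lemma dec_mem_amp {T : ℝ → H →L[ℂ] H} (h : Dec T) (hT : ∀ s, T s ∈ A) : dec T ∈ amp A := by
  rw [mem_amp]
  intro b hb
  ext F : 1
  change lift b (dec T F) = dec T (lift b F)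
  ext1
  filter_upwards [lift_coe b (dec T F), dec_coe h F, dec_coe h (lift b F), lift_coe b F]
    with s h1 h2 h3 h4
  rw [h1, h2, h3, h4, commute_apply (hT s) hb]

end Pool.Agent.Helper23

end

section

open scoped InnerProductSpace Topology ENNReal

open ContinuousLinearMap Filter MeasureTheory

set_option linter.unusedSectionVars false

set_option linter.unusedVariables false

namespace Pool.Agent.Helper23

variable {H : Type*} [NormedAddCommGroup H] [InnerProductSpace ℂ H] [CompleteSpace H]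

variable {M N : VonNeumannAlgebra H} {ξ : H} {E : (H →L[ℂ] H) → (H →L[ℂ] H)}

lemma ae_mem (V : Submodule ℂ H) [CompleteSpace V] {G : L2R H} (h : ∀ f : L2R ℂ, sl f G ∈ V) :
    ∀ᵐ s, G s ∈ V := by
  set P : H →L[ℂ] H := V.starProjection with hP
  have h2 : lift P G = G := by
    rw [← sub_eq_zero]
    refine eq_zero_of_ten fun f η => ?_
    rw [inner_sub_right, ← inner_sl, ← inner_sl, sl_lift, ← inner_sub_right]
    have : P (sl f G) = sl f G := Submodule.starProjection_eq_self_iff.2 (h f)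
    rw [this, sub_self, inner_zero_right]
  have h3 : (lift P G : ℝ → H) =ᵐ[volume] fun s => P (G s) := lift_coe P G
  rw [h2] at h3
  filter_upwards [h3] with s e1
  rw [e1]
  exact Submodule.starProjection_apply_mem _ _

end Pool.Agent.Helper23

end

section

open scoped InnerProductSpace Topology BoundedContinuousFunction FourierTransform SchwartzMap

open ContinuousLinearMap Filter MeasureTheory

set_option linter.unusedSectionVars false

namespace Pool.Agent.Helper23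

variable {G : Type*} [NormedAddCommGroup G] [InnerProductSpace ℂ G] [CompleteSpace G]

variable {G' : Type*} [NormedAddCommGroup G'] [InnerProductSpace ℂ G'] [CompleteSpace G']

variable {H : Type*} [NormedAddCommGroup H] [InnerProductSpace ℂ H] [CompleteSpace H]

theorem fourier_lift' (a : G →L[ℂ] G') (F : L2R G) : 𝓕 (lift a F) = lift a (𝓕 F) := by
  refine L2R_ext_schwartz (φ := fun F : L2R G => (𝓕 (lift a F) : L2R G'))
    (ψ := fun F : L2R G => lift a (𝓕 F)) ?_ ?_ (fun f => ?_) F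
  · exact (Lp.fourierTransformₗᵢ ℝ G').continuous.comp (lift a).continuous
  · exact (lift a).continuous.comp (Lp.fourierTransformₗᵢ ℝ G).continuous
  · rw [lift_toLp, SchwartzMap.toLp_fourier_eq, SchwartzMap.toLp_fourier_eq, lift_toLp,
      fourier_postcomp]

/-- MODULE TT-E: the `L²` Fourier transform and the operators `lift`, `ten`, `tr` -/
theorem fourier_lift (a : H →L[ℂ] H) (F : L2R H) : 𝓕 (lift a F) = lift a (𝓕 F) :=
  fourier_lift' a F

end Pool.Agent.Helper23

end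

section

open scoped InnerProductSpace Topology BoundedContinuousFunction FourierTransform ENNReal

open ContinuousLinearMap Filter MeasureTheory

set_option linter.unusedSectionVars false

namespace Pool.Agent.Helper23

variable {H : Type*} [NormedAddCommGroup H] [InnerProductSpace ℂ H] [CompleteSpace H]

lemma Fo_lift (a : H →L[ℂ] H) (F : L2R H) : Fo H (lift a F) = lift a (Fo H F) :=
  fourier_lift a F

lemma Fo_fco (T : ℝ → H →L[ℂ] H) (F : L2R H) : Fo H (fco T F) = dec T (Fo H F) := by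
  rw [fco_apply, LinearIsometryEquiv.apply_symm_apply]

lemma fco_mem_amp {A : VonNeumannAlgebra H} {T : ℝ → H →L[ℂ] H} (hT : Dec T)
    (hA : ∀ s, T s ∈ A) : fco T ∈ amp A := by
  rw [mem_amp]
  intro b hb
  ext F : 1
  refine (Fo H).injective ?_
  change Fo H (lift b (fco T F)) = Fo H (fco T (lift b F))
  rw [Fo_lift, Fo_fco, Fo_fco, Fo_lift]
  exact amp_comm (dec_mem_amp hT hA) hb _

end Pool.Agent.Helper23

end

section

open scoped InnerProductSpace Topology ENNReal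

open ContinuousLinearMap Filter MeasureTheory

set_option linter.unusedSectionVars false

set_option linter.unusedVariables false

namespace Pool.Agent.Helper23

variable {H : Type*} [NormedAddCommGroup H] [InnerProductSpace ℂ H] [CompleteSpace H]

variable {M N : VonNeumannAlgebra H} {ξ : H} {E : (H →L[ℂ] H) → (H →L[ℂ] H)}

lemma GK_slice_mem {u : L2R H →L[ℂ] L2R H} (hu : u ∈ amp N) (g : L2R ℂ) :
    ∀ᵐ s, u (ten g ξ) s ∈ K0 N ξ :=
  ae_mem (K0 N ξ) fun f => mem_K0 (slX_mem hu f g)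

end Pool.Agent.Helper23

end

section

open scoped InnerProductSpace Topology ENNReal

open ContinuousLinearMap Filter MeasureTheory

namespace Pool.Agent.Helper23

variable {H : Type*} [NormedAddCommGroup H] [InnerProductSpace ℂ H] [CompleteSpace H]

variable {M N : VonNeumannAlgebra H} {ξ : H} {E : (H →L[ℂ] H) → (H →L[ℂ] H)}

/-- the components of the commutator with the block diagonal operator -/
lemma comp_blk {t : ℝ} (ht : 0 < t) {m : ℕ} {A : Finset ℤ} (hA : A = Finset.Ico (-(m : ℤ)) m)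
    (z : ℤ → H →L[ℂ] H) (u : L2R H →L[ℂ] L2R H) {g : L2R ℂ}
    (hg : ∀ᵐ s, s ∉ Set.Ico (-(m * t)) (m * t) → g s = 0) {i : ℤ} (hi : i ∈ A) (k : hw) :
    sl (mulOp ℂ (ind (win t i)) (hb k)) (u (blk t A z (ten g ξ)) - blk t A z (u (ten g ξ))) =
      ∑ j ∈ A, (sa u t g (i, k, j) * z j - z i * sa u t g (i, k, j)) ξ := by
  have h1 : sl (mulOp ℂ (ind (win t i)) (hb k)) (u (blk t A z (ten g ξ))) =
      ∑ j ∈ A, (sa u t g (i, k, j) * z j) ξ := by
    rw [blk_ten, map_sum, map_sum]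
    rfl
  have hgs : g = ∑ j ∈ A, mulOp ℂ (ind (win t j)) g := by
    rw [hA]
    exact (sum_win ht hg).symm
  have h2 : sl (mulOp ℂ (ind (win t i)) (hb k)) (blk t A z (u (ten g ξ))) =
      ∑ j ∈ A, (z i * sa u t g (i, k, j)) ξ := by
    have e1 : ∀ F : L2R H, sl (mulOp ℂ (ind (win t i)) (hb k)) F =
        sl (hb k) (mulOp H (ind (win t i)) F) := by
      intro F
      rw [sl_mulOp' (ind_bm (win_meas t i)), ind_conj]
    rw [e1, blk_win ht hi, ← e1, sl_lift]
    have e2 : u (ten g ξ) = ∑ j ∈ A, u (ten (mulOp ℂ (ind (win t j)) g) ξ) := by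
      have e3 : ten g ξ = ∑ j ∈ A, ten (mulOp ℂ (ind (win t j)) g) ξ := by
        conv_lhs => rw [hgs]
        exact map_sum (axi ξ) _ _
      rw [e3, map_sum]
    rw [e2, map_sum, map_sum]
    rfl
  rw [map_sub, h1, h2, ← Finset.sum_sub_distrib]
  rfl

end Pool.Agent.Helper23

end

section

open scoped InnerProductSpace Topology ENNReal

open ContinuousLinearMap Filter MeasureTheory

namespace Pool.Agent.Helper23

variable {H : Type*} [NormedAddCommGroup H] [InnerProductSpace ℂ H] [CompleteSpace H]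

variable {M N : VonNeumannAlgebra H} {ξ : H} {E : (H →L[ℂ] H) → (H →L[ℂ] H)}

namespace Setting

variable (S : Setting M N E ξ)

include S

lemma xi_mem_K0 : ξ ∈ K0 N ξ := by
  have := mem_K0 (ξ := ξ) (one_mem N)
  simpa using this

end Setting

end Pool.Agent.Helper23

end

end

section

section

open scoped InnerProductSpace Topology ENNReal

open ContinuousLinearMap Filter MeasureTheory

set_option linter.unusedSectionVars false

set_option linter.unusedVariables false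

namespace Pool.Agent.Helper23

variable {H : Type*} [NormedAddCommGroup H] [InnerProductSpace ℂ H] [CompleteSpace H]

variable {M N : VonNeumannAlgebra H} {ξ : H} {E : (H →L[ℂ] H) → (H →L[ℂ] H)}

namespace GKW

/-- the sum over one interval -/
lemma hasSum_fix {u : L2R H →L[ℂ] L2R H} (hu : u ∈ amp N) (h : WkC N ξ u) {n : ℕ}
    {c c' : L2R ℂ} (hc : Pn n c = c) {b : H →L[ℂ] H} (hbN : b ∈ N) (m : ℤ) :
    HasSum (fun k : hw => ⟪u (ten (gJ (m, k)) ξ), rk b c' c (u (ten (gJ (m, k)) ξ))⟫_ℂ)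
      ⟪(star u) (ten (mulOp ℂ (he n) c) ξ),
        mulOp H (ind (Set.Ico (m : ℝ) (m + 1))) ((star u) (ten c' (b ξ)))⟫_ℂ := by
  set G := (star u) (ten (mulOp ℂ (he n) c) ξ) with hG
  set F := (star u) (ten c' (b ξ)) with hF
  have h1 : ∀ k : hw, ⟪u (ten (gJ (m, k)) ξ), rk b c' c (u (ten (gJ (m, k)) ξ))⟫_ℂ =
      ⟪G, ten (fJ (m, k)) (sl (gJ (m, k)) F)⟫_ℂ := by
    intro k
    set g := gJ (m, k) with hg
    set n' := bd n m with hn'
    have hcn : Pn n' c = c := Pn_mono (le_max_left _ _) hc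
    have e1 : ⟪u (ten g ξ), rk b c' c (u (ten g ξ))⟫_ℂ =
        ⟪ten c ((star b * slX u c' g) ξ), u (ten g ξ)⟫_ℂ := by
      rw [rk_apply, ← inner_sl', ← inner_slX]
      change ⟪slX u c' g ξ, b (slX u c g ξ)⟫_ℂ = ⟪(star b) (slX u c' g ξ), slX u c g ξ⟫_ℂ
      rw [inner_star_left]
    have e2 : g = mulOp ℂ (he n') (fJ (m, k)) := (he_fJ n (m, k)).symm
    rw [e1]
    conv_lhs => rw [show u (ten g ξ) = u (ten (mulOp ℂ (he n') (fJ (m, k))) ξ) from by rw [← e2]]
    rw [h n' (fJ (m, k)) c (Pn_fJ n (m, k)) hcn _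
      (mul_mem (star_mem hbN) (slX_mem hu _ _)), he_cut (n' := n') (le_max_left _ _) hc]
    rw [star_mul, star_star]
    change ⟪_, u (ten (fJ (m, k)) ((star (slX u c' g)) (b ξ)))⟫_ℂ = _
    have e3 : (star (slX u c' g)) (b ξ) = sl g F := by
      refine ext_inner_left ℂ fun ζ => ?_
      rw [inner_star_right, inner_sl, hF, inner_star_right, slX_apply, inner_sl']
    rw [e3, hG, inner_star_left]
  simp only [h1]
  have h2 : ∀ k : hw, ten (fJ (m, k)) (sl (gJ (m, k)) F) =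
      mulOp H (dmi m) (ten (hb k) (sl (hb k) (mulOp H (dm m) F))) := by
    intro k
    rw [mulOp_ten (dmi_bm m)]
    change ten (mulOp ℂ (dmi m) (hb k)) (sl (mulOp ℂ (dm m) (hb k)) F) = _
    rw [sl_mulOp (dm_bm m) (dm_conj m)]
  simp only [h2]
  have h3 := (innerSL ℂ G).hasSum ((mulOp H (dmi m)).hasSum (hasSum_hb (mulOp H (dm m) F)))
  rw [mulOp_mulOp (dmi_bm m) (dm_bm m), dmi_dm] at h3
  exact h3

end GKW

end Pool.Agent.Helper23

end

end

section

section

open scoped InnerProductSpace Topology ENNReal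

open ContinuousLinearMap Filter MeasureTheory

set_option linter.unusedSectionVars false

set_option linter.unusedVariables false

namespace Pool.Agent.Helper23

variable {G : Type*} [NormedAddCommGroup G] [InnerProductSpace ℂ G] [CompleteSpace G]

variable {G' : Type*} [NormedAddCommGroup G'] [InnerProductSpace ℂ G'] [CompleteSpace G']

variable {G'' : Type*} [NormedAddCommGroup G''] [InnerProductSpace ℂ G''] [CompleteSpace G'']

omit [CompleteSpace G] in
lemma tr_tr (t u : ℝ) (F : L2R G) : tr G t (tr G u F) = tr G (t + u) F := by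
  ext1
  filter_upwards [tr_coe t (tr G u F), ae_tr t (tr_coe u F), tr_coe (t + u) F] with s h1 h2 h3
  rw [h1, h2, h3, sub_sub]

omit [CompleteSpace G] in
lemma tr_zero : tr G 0 = 1 := by
  ext F : 1
  ext1
  filter_upwards [tr_coe 0 F] with s hs
  rw [hs, sub_zero]
  rfl

omit [CompleteSpace G] in
lemma tr_neg_tr (t : ℝ) (F : L2R G) : tr G (-t) (tr G t F) = F := by
  rw [tr_tr, neg_add_cancel, tr_zero]; rfl

omit [CompleteSpace G] in
lemma tr_tr_neg (t : ℝ) (F : L2R G) : tr G t (tr G (-t) F) = F := by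
  rw [tr_tr, add_neg_cancel, tr_zero]; rfl

lemma tr_adj (t : ℝ) (F F' : L2R G) : ⟪tr G t F, F'⟫_ℂ = ⟪F, tr G (-t) F'⟫_ℂ := by
  have h : ⟪tr G t F, tr G t (tr G (-t) F')⟫_ℂ = ⟪F, tr G (-t) F'⟫_ℂ :=
    (Lp.compMeasurePreservingₗᵢ ℂ (fun s : ℝ => s - t) (mp_sub t) :
      L2R G →ₗᵢ[ℂ] L2R G).inner_map_map F (tr G (-t) F')
  rwa [tr_tr_neg] at h

end Pool.Agent.Helper23

end

section

open scoped InnerProductSpace Topology BoundedContinuousFunction FourierTransform SchwartzMap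

open ContinuousLinearMap Filter MeasureTheory

set_option linter.unusedSectionVars false

namespace Pool.Agent.Helper23

variable {G : Type*} [NormedAddCommGroup G] [InnerProductSpace ℂ G] [CompleteSpace G]

variable {G' : Type*} [NormedAddCommGroup G'] [InnerProductSpace ℂ G'] [CompleteSpace G']

variable {H : Type*} [NormedAddCommGroup H] [InnerProductSpace ℂ H] [CompleteSpace H]

theorem fourier_ten (f : L2R ℂ) (η : H) : 𝓕 (ten f η) = ten (𝓕 f) η :=
  fourier_lift' (toSpanSingleton ℂ η) f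

end Pool.Agent.Helper23

end

section

open scoped InnerProductSpace Topology BoundedContinuousFunction FourierTransform ENNReal

open ContinuousLinearMap Filter MeasureTheory

set_option linter.unusedSectionVars false

namespace Pool.Agent.Helper23

variable {H : Type*} [NormedAddCommGroup H] [InnerProductSpace ℂ H] [CompleteSpace H]

/-- the coefficient functions -/
noncomputable def kap (f g : L2R ℂ) : ℝ →ᵇ ℂ :=
  BoundedContinuousFunction.ofNormedAddCommGroup
    (fun ρ : ℝ => ⟪f, tr ℂ (-ρ) g⟫_ℂ)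
    (continuous_const.inner ((tr_continuous g).comp continuous_neg)) (‖f‖ * ‖g‖) (by
      intro ρ
      refine (norm_inner_le_norm _ _).trans ?_
      rw [tr_norm])

lemma kap_apply (f g : L2R ℂ) (ρ : ℝ) : kap f g ρ = ⟪f, tr ℂ (-ρ) g⟫_ℂ := rfl

lemma Fo_ten (f : L2R ℂ) (η : H) : Fo H (ten f η) = ten (Fo ℂ f) η := fourier_ten f η

lemma inner_fco (T : ℝ → H →L[ℂ] H) (F F' : L2R H) :
    ⟪F, fco T F'⟫_ℂ = ⟪Fo H F, dec T (Fo H F')⟫_ℂ := by
  rw [← Fo_fco, LinearIsometryEquiv.inner_map_map]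

end Pool.Agent.Helper23

end

section

open scoped InnerProductSpace Topology BoundedContinuousFunction FourierTransform ENNReal

open ContinuousLinearMap Filter MeasureTheory

set_option linter.unusedSectionVars false

namespace Pool.Agent.Helper23

variable {H : Type*} [NormedAddCommGroup H] [InnerProductSpace ℂ H] [CompleteSpace H]

lemma kap_he {m : ℕ} {f f' : L2R ℂ} (hf : Pn m f = f) (hf' : Pn m f' = f') (ρ : ℝ) :
    kap f' (mulOp ℂ (he m) f) ρ =
      ((Real.exp ρ : ℝ) : ℂ) * (starRingEnd ℂ) (kap f (mulOp ℂ (he m) f') (-ρ)) := by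
  rw [kap_apply, kap_apply, neg_neg, inner_conj_symm, tr_adj, L2.inner_def, L2.inner_def,
    ← integral_const_mul]
  refine integral_congr_ae ?_
  filter_upwards [tr_coe (-ρ) (mulOp ℂ (he m) f), ae_tr (-ρ) (mulOp_coe (he_bm m) f),
    tr_coe (-ρ) f, mulOp_coe (he_bm m) f', ae_tr (-ρ) (supp_of_Pn hf), supp_of_Pn hf']
    with s h1 h2 h3 h4 h5 h6
  rw [h1, h2, h3, h4, inner_smul_right, inner_smul_left]
  by_cases hs : s ∈ Set.Ico (-(m : ℝ)) m
  · by_cases hs' : s - -ρ ∈ Set.Ico (-(m : ℝ)) m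
    · rw [he_of_mem hs, he_of_mem hs', Complex.conj_ofReal, ← mul_assoc, ← Complex.ofReal_mul,
        ← Real.exp_add]
      congr 3
      ring
    · rw [h5 hs', inner_zero_right]
      ring
  · rw [h6 hs, inner_zero_left]
    ring

lemma kap_he_zero {m : ℕ} {f f' : L2R ℂ} (hf : Pn m f = f) {ρ : ℝ} (hρ : ρ < -(2 * m)) :
    kap f (mulOp ℂ (he m) f') ρ = 0 := by
  rw [kap_apply, L2.inner_def]
  refine (integral_congr_ae ?_).trans (integral_zero _ _)
  filter_upwards [tr_coe (-ρ) (mulOp ℂ (he m) f'), ae_tr (-ρ) (mulOp_coe (he_bm m) f'),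
    supp_of_Pn hf] with s h1 h2 h3
  rw [h1, h2]
  by_cases hs : s ∈ Set.Ico (-(m : ℝ)) m
  · rw [he_of_notMem, zero_smul, inner_zero_right]
    rintro ⟨h4, -⟩
    have := hs.2
    (clear * - hρ h4 this; linarith)
  · rw [h3 hs, inner_zero_left]

lemma weak_id1 {m : ℕ} {f f' : L2R ℂ} (hf : Pn m f = f) :
    kap f (mulOp ℂ (he m) f') =
      (2 - FR) * (kap f (mulOp ℂ (he m) f') * GB m) * (2 - FR) := by
  ext ρ
  rw [BoundedContinuousFunction.mul_apply, BoundedContinuousFunction.mul_apply,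
    BoundedContinuousFunction.mul_apply, two_sub_FR]
  by_cases hρ : ρ < -(2 * m)
  · rw [kap_he_zero hf hρ]
    ring
  · push Not at hρ
    rw [GB_apply hρ]
    have h1 : (1 + Real.exp ρ) ≠ 0 := by positivity
    have h0 : Real.exp ρ ≠ 0 := (Real.exp_pos ρ).ne'
    have h2 : (2 * Real.exp ρ / (1 + Real.exp ρ)) * ((1 + Real.exp (-ρ)) / 2) ^ 2 *
        (2 * Real.exp ρ / (1 + Real.exp ρ)) = 1 := by
      rw [Real.exp_neg]
      field_simp
      ring
    have h3 : (((2 * Real.exp ρ / (1 + Real.exp ρ)) * ((1 + Real.exp (-ρ)) / 2) ^ 2 *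
        (2 * Real.exp ρ / (1 + Real.exp ρ)) : ℝ) : ℂ) = 1 := by rw [h2]; simp
    rw [Complex.ofReal_mul, Complex.ofReal_mul] at h3
    linear_combination (-(kap f (mulOp ℂ (he m) f') ρ)) * h3

lemma weak_id2 {m : ℕ} {f f' : L2R ℂ} (hf : Pn m f = f) (hf' : Pn m f' = f') :
    kap f' (mulOp ℂ (he m) f) =
      FR * (2 - FR) * refl (kap f (mulOp ℂ (he m) f') * GB m) := by
  ext ρ
  rw [BoundedContinuousFunction.mul_apply, BoundedContinuousFunction.mul_apply, two_sub_FR,
    FR_apply, refl_apply, BoundedContinuousFunction.mul_apply, kap_he hf hf']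
  by_cases hρ : -ρ < -(2 * m)
  · rw [kap_he_zero hf hρ]
    simp
  · push Not at hρ
    rw [GB_apply hρ, map_mul, Complex.conj_ofReal, neg_neg]
    have h1 : (1 + Real.exp ρ) ≠ 0 := by positivity
    have h2 : (2 / (1 + Real.exp ρ)) * (2 * Real.exp ρ / (1 + Real.exp ρ)) *
        ((1 + Real.exp ρ) / 2) ^ 2 = Real.exp ρ := by
      field_simp
    have h3 := congrArg (fun x : ℝ => (x : ℂ)) h2
    simp only [Complex.ofReal_mul] at h3
    linear_combination (-(starRingEnd ℂ) (kap f (mulOp ℂ (he m) f') (-ρ))) * h3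

end Pool.Agent.Helper23

end

section

open scoped InnerProductSpace Topology BoundedContinuousFunction FourierTransform ENNReal

open ContinuousLinearMap Filter MeasureTheory

set_option linter.unusedSectionVars false

namespace Pool.Agent.Helper23

variable {H : Type*} [NormedAddCommGroup H] [InnerProductSpace ℂ H] [CompleteSpace H]

variable {M N : VonNeumannAlgebra H} {ξ : H} {E : (H →L[ℂ] H) → (H →L[ℂ] H)}

lemma fco_const (a : H →L[ℂ] H) : fco (fun _ : ℝ => a) = lift a := by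
  ext F : 1
  refine (Fo H).injective ?_
  rw [Fo_fco, Fo_lift]
  rfl

end Pool.Agent.Helper23

end

end
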