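import Pool.Agent.Helper23.FB.L00_a0
import Pool.Agent.Helper23.FB.L00_a1
import Pool.Agent.Helper23.FB.L00_a2
import Pool.Agent.Helper23.FB.L00_a6
import Pool.Agent.Helper23.FB.L00_a7

/-!
Parts of Helper23.FA.L00_01, Helper23.FA.L00_05, Helper23.FA.L01_17, Helper23.FA.L01_18, Helper23.FA.L01_01, Helper23.FA.L01_15, Helper23.FA.L01_19, Helper23.FA.L02_04, Helper23.FA.L02_13, Helper23.FA.L02_14, Helper23.FA.L02_01, Helper23.FA.L02_06, Helper23.FA.L02_09
-/

attribute [local instance 5000]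
  Pool.Agent.Helper23.FB.Inst.rCharZero Pool.Agent.Helper23.FB.Inst.rALM
  Pool.Agent.Helper23.FB.Inst.rARM Pool.Agent.Helper23.FB.Inst.rALSM
  Pool.Agent.Helper23.FB.Inst.rARSM Pool.Agent.Helper23.FB.Inst.rARRLE
  Pool.Agent.Helper23.FB.Inst.rALRLE Pool.Agent.Helper23.FB.Inst.rARRLT
  Pool.Agent.Helper23.FB.Inst.rALRLT Pool.Agent.Helper23.FB.Inst.rPMRLT
  Pool.Agent.Helper23.FB.Inst.rMPRLT Pool.Agent.Helper23.FB.Inst.rPMM
  Pool.Agent.Helper23.FB.Inst.rMPM Pool.Agent.Helper23.FB.Inst.rPMSM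
  Pool.Agent.Helper23.FB.Inst.rMPSM Pool.Agent.Helper23.FB.Inst.rEAOL
  Pool.Agent.Helper23.FB.Inst.rIOR Pool.Agent.Helper23.FB.Inst.rISOR
  Pool.Agent.Helper23.FB.Inst.rFS Pool.Agent.Helper23.FB.Inst.rcCharZero
  Pool.Agent.Helper23.FB.Inst.rNZD Pool.Agent.Helper23.FB.Inst.rcNZD
  Pool.Agent.Helper23.FB.Inst.bSemiring Pool.Agent.Helper23.FB.Inst.bStar
  Pool.Agent.Helper23.FB.Inst.bAlg Pool.Agent.Helper23.FB.Inst.bSub
  Pool.Agent.Helper23.FB.Inst.bMul Pool.Agent.Helper23.FB.Inst.bAdd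
  Pool.Agent.Helper23.FB.Inst.iRing Pool.Agent.Helper23.FB.Inst.iSemiring
  Pool.Agent.Helper23.FB.Inst.iAlgC Pool.Agent.Helper23.FB.Inst.iSMulC
  Pool.Agent.Helper23.FB.Inst.iModC Pool.Agent.Helper23.FB.Inst.iAlgR
  Pool.Agent.Helper23.FB.Inst.iSMulR Pool.Agent.Helper23.FB.Inst.iModR
  Pool.Agent.Helper23.FB.Inst.iMonoid Pool.Agent.Helper23.FB.Inst.iSemigroup
  Pool.Agent.Helper23.FB.Inst.iMulOneClass Pool.Agent.Helper23.FB.Inst.iMul
  Pool.Agent.Helper23.FB.Inst.iAdd Pool.Agent.Helper23.FB.Inst.iSub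
  Pool.Agent.Helper23.FB.Inst.iNeg Pool.Agent.Helper23.FB.Inst.iAddCommMonoid
  Pool.Agent.Helper23.FB.Inst.iAddCommGroup Pool.Agent.Helper23.FB.Inst.iAddGroup
  Pool.Agent.Helper23.FB.Inst.iAddMonoid Pool.Agent.Helper23.FB.Inst.iSMulZeroC
  Pool.Agent.Helper23.FB.Inst.iMulActC Pool.Agent.Helper23.FB.Inst.iDSMulC
  Pool.Agent.Helper23.FB.Inst.iDSMulR Pool.Agent.Helper23.FB.Inst.iSNAG
  Pool.Agent.Helper23.FB.Inst.iSNACG Pool.Agent.Helper23.FB.Inst.iNorm
  Pool.Agent.Helper23.FB.Inst.iNSC' Pool.Agent.Helper23.FB.Inst.iNSR'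
  Pool.Agent.Helper23.FB.Inst.iTop Pool.Agent.Helper23.FB.Inst.iT2 Pool.Agent.Helper23.FB.Inst.iTR
  Pool.Agent.Helper23.FB.Inst.iSCC Pool.Agent.Helper23.FB.Inst.iIST
  Pool.Agent.Helper23.FB.Inst.iSCCR Pool.Agent.Helper23.FB.Inst.iISTR
  Pool.Agent.Helper23.FB.Inst.iZHC Pool.Agent.Helper23.FB.Inst.iAHC
  Pool.Agent.Helper23.FB.Inst.iAMHC Pool.Agent.Helper23.FB.Inst.iMAHC
  Pool.Agent.Helper23.FB.Inst.lTop Pool.Agent.Helper23.FB.Inst.lUnif
  Pool.Agent.Helper23.FB.Inst.lACM Pool.Agent.Helper23.FB.Inst.lACG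
  Pool.Agent.Helper23.FB.Inst.lSNAG Pool.Agent.Helper23.FB.Inst.lSNACG
  Pool.Agent.Helper23.FB.Inst.lNACG Pool.Agent.Helper23.FB.Inst.lNorm
  Pool.Agent.Helper23.FB.Inst.lIPS Pool.Agent.Helper23.FB.Inst.lMod
  Pool.Agent.Helper23.FB.Inst.lSMul Pool.Agent.Helper23.FB.Inst.lT2
  Pool.Agent.Helper23.FB.Inst.iStar Pool.Agent.Helper23.FB.Inst.iStarMul
  Pool.Agent.Helper23.FB.Inst.iStarAddMonoid Pool.Agent.Helper23.FB.Inst.iStarRing
  Pool.Agent.Helper23.FB.Inst.iNSC Pool.Agent.Helper23.FB.Inst.iSOR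
  Pool.Agent.Helper23.FB.Inst.iALM Pool.Agent.Helper23.FB.Inst.iARM
  Pool.Agent.Helper23.FB.Inst.iCFC Pool.Agent.Helper23.FB.Inst.iNCFC
  Pool.Agent.Helper23.FB.Inst.iStarModR Pool.Agent.Helper23.FB.Inst.iStarModC
  Pool.Agent.Helper23.FB.Inst.eStar Pool.Agent.Helper23.FB.Inst.eAdd
  Pool.Agent.Helper23.FB.Inst.eMul Pool.Agent.Helper23.FB.Inst.eOne
  Pool.Agent.Helper23.FB.Inst.eZero Pool.Agent.Helper23.FB.Inst.eMulAction
  Pool.Agent.Helper23.FB.Inst.eAMHC2 Pool.Agent.Helper23.FB.Inst.eZHC2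
  Pool.Agent.Helper23.FB.Inst.lAMHC

namespace Pool.Agent.Helper23
end Pool.Agent.Helper23
namespace Pool.Agent.Helper23.ED.WuB
end Pool.Agent.Helper23.ED.WuB
namespace Pool.Agent.Helper23.RBF
end Pool.Agent.Helper23.RBF

section

section

open scoped InnerProductSpace Topology BoundedContinuousFunction

open ContinuousLinearMap Filter MeasureTheory

namespace Pool.Agent.Helper23

variable {H : Type*} [NormedAddCommGroup H] [InnerProductSpace ℂ H] [CompleteSpace H]

variable {M N : VonNeumannAlgebra H} {ξ : H} {E : (H →L[ℂ] H) → (H →L[ℂ] H)}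

namespace U14

lemma fld_add (Ψ : (ℝ →ᵇ ℂ) →⋆ₐ[ℂ] (H →L[ℂ] H)) (a b : H →L[ℂ] H) :
    fld Ψ (a + b) = fun t => fld Ψ a t + fld Ψ b t := by
  funext t
  simp only [fld, mul_add, add_mul]

end U14

end Pool.Agent.Helper23

end

end

section

section

open scoped InnerProductSpace Topology BoundedContinuousFunction FourierTransform SchwartzMap

open ContinuousLinearMap Filter MeasureTheory

set_option linter.unusedSectionVars false

namespace Pool.Agent.Helper23

variable {G : Type*} [NormedAddCommGroup G] [InnerProductSpace ℂ G] [CompleteSpace G]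

variable {G' : Type*} [NormedAddCommGroup G'] [InnerProductSpace ℂ G'] [CompleteSpace G']

variable {H : Type*} [NormedAddCommGroup H] [InnerProductSpace ℂ H] [CompleteSpace H]

lemma fourier_trS (t : ℝ) (f : 𝓢(ℝ, G)) (w : ℝ) : 𝓕 (trS t f) w = chr t w • 𝓕 f w := by
  rw [SchwartzMap.fourier_coe, SchwartzMap.fourier_coe]
  have h := congrFun (VectorFourier.fourierIntegral_comp_add_right Real.fourierChar
    (volume : Measure ℝ) (innerₗ ℝ) (f : ℝ → G) (-t)) w
  have h1 : ((f : ℝ → G) ∘ fun v => v + -t) = (trS t f : ℝ → G) := by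
    ext v
    rw [trS_apply, Function.comp_apply, sub_eq_add_neg]
  rw [h1] at h
  refine h.trans ?_
  rw [Circle.smul_def, Real.fourierChar_apply]
  congr 1
  unfold chr
  congr 1
  simp
  ring

end Pool.Agent.Helper23

end

section

open scoped InnerProductSpace Topology ENNReal BoundedContinuousFunction FourierTransform SchwartzMap

open ContinuousLinearMap Filter MeasureTheory

namespace Pool.Agent.Helper23.ED

open Pool.Agent.Helper23 Pool.Agent.Helper23.RBF

universe u

variable {H : Type*} [NormedAddCommGroup H] [InnerProductSpace ℂ H] [CompleteSpace H]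

variable {M N : VonNeumannAlgebra H} {ξ : H} {E : (H →L[ℂ] H) → (H →L[ℂ] H)}

namespace GgB

lemma fourierInv_trS (t : ℝ) (f : 𝓢(ℝ, H)) (w : ℝ) :
    𝓕⁻ (trS t f) w = chr (-t) w • 𝓕⁻ f w := by
  have h0 : ∀ g : 𝓢(ℝ, H), 𝓕⁻ g w = 𝓕 g (-w) := fun g => by
    rw [SchwartzMap.fourierInv_coe, SchwartzMap.fourier_coe, Real.fourierInv_eq_fourier_neg]
  rw [h0, h0, fourier_trS]
  congr 1
  unfold chr
  congr 2
  push_cast
  ring

end GgB

end Pool.Agent.Helper23.ED

end

end

section

section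

open scoped InnerProductSpace Topology ENNReal

open ContinuousLinearMap Filter MeasureTheory

set_option linter.unusedSectionVars false

set_option linter.unusedVariables false

namespace Pool.Agent.Helper23

variable {H : Type*} [NormedAddCommGroup H] [InnerProductSpace ℂ H] [CompleteSpace H]

variable {M N : VonNeumannAlgebra H} {ξ : H} {E : (H →L[ℂ] H) → (H →L[ℂ] H)}

lemma GK_star {A : VonNeumannAlgebra H} {u : L2R H →L[ℂ] L2R H} (hu : u ∈ GK A ξ) :
    star u ∈ GK A ξ := by
  refine ⟨star_mem hu.1, by rw [star_star]; exact hu.2.2.1, by rw [star_star]; exact hu.2.1,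
    fun Y hY => ?_⟩
  have h := hu.2.2.2 (Y * star u) (mul_mem hY (star_mem hu.1))
  rw [mul_assoc, hu.2.1, mul_one] at h
  exact h.symm

end Pool.Agent.Helper23

end

end

section

section

open scoped InnerProductSpace Topology ENNReal BoundedContinuousFunction

open ContinuousLinearMap Filter MeasureTheory

namespace Pool.Agent.Helper23.ED

open Pool.Agent.Helper23 Pool.Agent.Helper23.RBF

universe u

open TopologicalSpace

variable {H : Type*} [NormedAddCommGroup H] [InnerProductSpace ℂ H] [CompleteSpace H]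

variable {N : VonNeumannAlgebra H} {ξ : H} {V c : ℝ → H →L[ℂ] H} {ψ : (H →L[ℂ] H) → ℝ≥0∞}

open WuB

namespace WuB

lemma ems_bm (a : ℝ) : BM (ems a) := by
  refine ⟨?_, 1, zero_le_one, fun s => ?_⟩
  · unfold ems ph
    fun_prop
  · unfold ems ph
    rw [Complex.norm_exp_ofReal_mul_I]

end WuB

end Pool.Agent.Helper23.ED

end

end

section

section

open scoped InnerProductSpace Topology ENNReal

open ContinuousLinearMap Filter MeasureTheory

set_option linter.unusedSectionVars false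

set_option linter.unusedVariables false

namespace Pool.Agent.Helper23

variable {G : Type*} [NormedAddCommGroup G] [InnerProductSpace ℂ G] [CompleteSpace G]

variable {G' : Type*} [NormedAddCommGroup G'] [InnerProductSpace ℂ G'] [CompleteSpace G']

variable {G'' : Type*} [NormedAddCommGroup G''] [InnerProductSpace ℂ G''] [CompleteSpace G'']

omit [CompleteSpace G] [CompleteSpace G'] [CompleteSpace G''] in
lemma Dec.comp {T : ℝ → G' →L[ℂ] G''} {T' : ℝ → G →L[ℂ] G'} (h : Dec T) (h' : Dec T') :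
    Dec (fun s => (T s).comp (T' s)) := by
  obtain ⟨C, hC0, hC⟩ := h.bdd
  obtain ⟨C', hC'0, hC'⟩ := h'.bdd
  refine ⟨fun F hF => h.meas _ (h'.meas F hF), C * C', by (clear * - hC0 hC'0; positivity), fun s => ?_⟩
  exact (ContinuousLinearMap.opNorm_comp_le _ _).trans
    (mul_le_mul (hC s) (hC' s) (norm_nonneg _) hC0)

omit [CompleteSpace G] [CompleteSpace G'] [CompleteSpace G''] in
lemma dec_comp {T : ℝ → G' →L[ℂ] G''} {T' : ℝ → G →L[ℂ] G'} (h : Dec T) (h' : Dec T')
    (F : L2R G) : dec T (dec T' F) = dec (fun s => (T s).comp (T' s)) F := by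
  ext1
  filter_upwards [dec_coe h (dec T' F), dec_coe h' F, dec_coe (h.comp h') F] with s h1 h2 h3
  rw [h1, h2, h3]
  rfl

omit [CompleteSpace G] [CompleteSpace G'] [CompleteSpace G''] in
lemma lift_lift (a : G' →L[ℂ] G'') (b : G →L[ℂ] G') (F : L2R G) :
    lift a (lift b F) = lift (a.comp b) F := dec_comp (Dec.const a) (Dec.const b) F

omit [CompleteSpace G] in
lemma lift_mul (a b : G →L[ℂ] G) : lift (a * b) = lift a * lift b := by
  ext F : 1
  exact (lift_lift a b F).symm

omit [CompleteSpace G] [CompleteSpace G'] in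
lemma tr_lift (t : ℝ) (a : G →L[ℂ] G') (F : L2R G) : tr G' t (lift a F) = lift a (tr G t F) := by
  ext1
  filter_upwards [tr_coe t (lift a F), ae_tr t (lift_coe a F), lift_coe a (tr G t F),
    tr_coe t F] with s h1 h2 h3 h4
  rw [h1, h2, h3, h4]

end Pool.Agent.Helper23

end

section

open scoped InnerProductSpace Topology ENNReal

open ContinuousLinearMap Filter MeasureTheory

set_option linter.unusedSectionVars false

set_option linter.unusedVariables false

namespace Pool.Agent.Helper23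

variable {H : Type*} [NormedAddCommGroup H] [InnerProductSpace ℂ H] [CompleteSpace H]

lemma tr_ten (t : ℝ) (f : L2R ℂ) (η : H) : tr H t (ten f η) = ten (tr ℂ t f) η :=
  tr_lift t _ f

variable {A : VonNeumannAlgebra H}

lemma lift_mem_amp {a : H →L[ℂ] H} (ha : a ∈ A) : lift a ∈ amp A := by
  rw [mem_amp]
  intro b hb
  rw [← lift_mul, ← lift_mul, mem_comm_iff.1 hb a ha]

lemma tr_mem_amp (t : ℝ) : tr H t ∈ amp A := by
  rw [mem_amp]
  intro b _
  ext F : 1
  exact (tr_lift t b F).symm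

end Pool.Agent.Helper23

end

section

open scoped InnerProductSpace Topology BoundedContinuousFunction FourierTransform SchwartzMap

open ContinuousLinearMap Filter MeasureTheory

set_option linter.unusedSectionVars false

namespace Pool.Agent.Helper23

variable {G : Type*} [NormedAddCommGroup G] [InnerProductSpace ℂ G] [CompleteSpace G]

variable {G' : Type*} [NormedAddCommGroup G'] [InnerProductSpace ℂ G'] [CompleteSpace G']

variable {H : Type*} [NormedAddCommGroup H] [InnerProductSpace ℂ H] [CompleteSpace H]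

lemma chr_bm (t : ℝ) : BM (chr t) := by
  refine ⟨?_, 1, zero_le_one, fun s => (chr_norm t s).le⟩
  unfold chr
  fun_prop

theorem fourier_tr (t : ℝ) (F : L2R H) : 𝓕 (tr H t F) = mulOp H (chr t) (𝓕 F) := by
  refine L2R_ext_schwartz (φ := fun F : L2R H => (𝓕 (tr H t F) : L2R H))
    (ψ := fun F : L2R H => mulOp H (chr t) (𝓕 F)) ?_ ?_ (fun f => ?_) F
  · exact (Lp.fourierTransformₗᵢ ℝ H).continuous.comp (tr H t).continuous
  · exact (mulOp H (chr t)).continuous.comp (Lp.fourierTransformₗᵢ ℝ H).continuous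
  · rw [tr_toLp, SchwartzMap.toLp_fourier_eq, SchwartzMap.toLp_fourier_eq]
    ext1
    filter_upwards [mulOp_coe (chr_bm t) ((𝓕 f).toLp 2), (𝓕 f).coeFn_toLp 2,
      (𝓕 (trS t f)).coeFn_toLp 2] with s h1 h2 h3
    rw [h1, h2, h3, fourier_trS]

end Pool.Agent.Helper23

end

section

open scoped InnerProductSpace Topology BoundedContinuousFunction FourierTransform ENNReal

open ContinuousLinearMap Filter MeasureTheory

set_option linter.unusedSectionVars false

namespace Pool.Agent.Helper23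

variable {H : Type*} [NormedAddCommGroup H] [InnerProductSpace ℂ H] [CompleteSpace H]

namespace Modular

variable {A : VonNeumannAlgebra H} {ξ : H} {R : H →L[ℂ] H} {D : H →L[ℝ] H}
  {Ψ : (ℝ →ᵇ ℂ) →⋆ₐ[ℂ] (H →L[ℂ] H)} (h : Modular A ξ R D Ψ)

include h

lemma U_dec : Dec (fun t : ℝ => Ψ (expB (2 * Real.pi * t))) :=
  Dec.of_cont zero_le_one (fun s => (psi_norm_le Ψ _).trans (expB_norm _))
    (fun v => (h.U_cont v).comp (by fun_prop))

lemma U_dec' : Dec (fun t : ℝ => Ψ (expB (-(2 * Real.pi * t)))) :=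
  Dec.of_cont zero_le_one (fun s => (psi_norm_le Ψ _).trans (expB_norm _))
    (fun v => (h.U_cont v).comp (by fun_prop))

end Modular

end Pool.Agent.Helper23

end

section

open scoped InnerProductSpace Topology BoundedContinuousFunction FourierTransform ENNReal

open ContinuousLinearMap Filter MeasureTheory

set_option linter.unusedSectionVars false

namespace Pool.Agent.Helper23

variable {H : Type*} [NormedAddCommGroup H] [InnerProductSpace ℂ H] [CompleteSpace H]

lemma Fo_tr (t : ℝ) (F : L2R H) : Fo H (tr H t F) = mulOp H (chr t) (Fo H F) := fourier_tr t F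

end Pool.Agent.Helper23

end

section

open scoped InnerProductSpace Topology BoundedContinuousFunction

open ContinuousLinearMap Filter MeasureTheory

namespace Pool.Agent.Helper23

variable {H : Type*} [NormedAddCommGroup H] [InnerProductSpace ℂ H] [CompleteSpace H]

variable {M N : VonNeumannAlgebra H} {ξ : H} {E : (H →L[ℂ] H) → (H →L[ℂ] H)}

namespace U14

lemma fld_dec {A : VonNeumannAlgebra H} {R : H →L[ℂ] H} {D : H →L[ℝ] H}
    {Ψ : (ℝ →ᵇ ℂ) →⋆ₐ[ℂ] (H →L[ℂ] H)} (hΨ : Modular A ξ R D Ψ) (a : H →L[ℂ] H) :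
    Dec (fld Ψ a) :=
  (hΨ.U_dec.comp (Dec.const a)).comp hΨ.U_dec'

lemma fco_add {T T' : ℝ → H →L[ℂ] H} (h : Dec T) (h' : Dec T') :
    fco (fun s => T s + T' s) = fco T + fco T' := by
  ext F : 1
  rw [fco_apply, dec_add h h']
  change (Fo H).symm (dec T (Fo H F) + dec T' (Fo H F)) = _
  rw [map_add]
  rfl

lemma fco_smul {T : ℝ → H →L[ℂ] H} (c : ℂ) (h : Dec T) :
    fco (fun s => c • T s) = c • fco T := by
  ext F : 1
  rw [fco_apply, dec_smul c h]
  change (Fo H).symm (c • dec T (Fo H F)) = _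
  rw [map_smul]
  rfl

end U14

end Pool.Agent.Helper23

end

section

open scoped InnerProductSpace Topology ENNReal BoundedContinuousFunction

open ContinuousLinearMap Filter MeasureTheory

namespace Pool.Agent.Helper23.ED

open Pool.Agent.Helper23 Pool.Agent.Helper23.RBF

universe u

section amp

variable {H : Type*} [NormedAddCommGroup H] [InnerProductSpace ℂ H] [CompleteSpace H]

/-- the group `V_a ⊗ e^{i a s}` on `L²(ℝ; H)` -/
noncomputable def UV (V : ℝ → H →L[ℂ] H) (a : ℝ) : L2R H →L[ℂ] L2R H :=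
  lift (V a) * mulOp H (ems a)

/-- the field `t ↦ U_{2πt} c U_{-2πt}` in the Fourier picture -/
noncomputable def fcn (Ψ : (ℝ →ᵇ ℂ) →⋆ₐ[ℂ] (H →L[ℂ] H)) (c : H →L[ℂ] H) :
    L2R H →L[ℂ] L2R H :=
  fco fun t : ℝ => Ψ (expB (2 * Real.pi * t)) * c * Ψ (expB (-(2 * Real.pi * t)))

/-- elements of the amplification of `M` commuting with the explicit unitaries -/
def Rk1 (M N : VonNeumannAlgebra H) (Ψ : (ℝ →ᵇ ℂ) →⋆ₐ[ℂ] (H →L[ℂ] H)) :
    Set (L2R H →L[ℂ] L2R H) :=
  {X | X ∈ amp M ∧ (∀ m, BM m → (∀ s, ‖m s‖ = 1) → mulOp H m * X = X * mulOp H m) ∧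
    ∀ u ∈ N, star u * u = 1 → u * star u = 1 → fcn Ψ u * X = X * fcn Ψ u}

end amp

end Pool.Agent.Helper23.ED

end

section

open scoped InnerProductSpace Topology ENNReal BoundedContinuousFunction

open ContinuousLinearMap Filter MeasureTheory

namespace Pool.Agent.Helper23.ED

open Pool.Agent.Helper23 Pool.Agent.Helper23.RBF

universe u

variable {H : Type*} [NormedAddCommGroup H] [InnerProductSpace ℂ H] [CompleteSpace H]

variable {M N : VonNeumannAlgebra H} {ξ : H} {E : (H →L[ℂ] H) → (H →L[ℂ] H)}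

namespace RkA

/-- commutation with the fields of all elements of `N` -/
lemma comm_fld1 {R : H →L[ℂ] H} {D : H →L[ℝ] H} {Ψ : (ℝ →ᵇ ℂ) →⋆ₐ[ℂ] (H →L[ℂ] H)}
    (hΨ : Modular M ξ R D Ψ)
    {X : L2R H →L[ℂ] L2R H} (hX : X ∈ Rk1 M N Ψ) {a : H →L[ℂ] H} (ha : a ∈ N) :
    fco (U14.fld Ψ a) * X = X * fco (U14.fld Ψ a) := by
  have hadd : ∀ b c : H →L[ℂ] H,
      fco (U14.fld Ψ (b + c)) = fco (U14.fld Ψ b) + fco (U14.fld Ψ c) := by
    intro b c
    rw [U14.fld_add, U14.fco_add (U14.fld_dec hΨ b) (U14.fld_dec hΨ c)]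
  have hsmul : ∀ (c : ℂ) (b : H →L[ℂ] H),
      fco (U14.fld Ψ (c • b)) = c • fco (U14.fld Ψ b) := by
    intro c b
    rw [U14.fld_smul, U14.fco_smul c (U14.fld_dec hΨ b)]
  obtain ⟨u, k, hk, -⟩ := CStarAlgebra.exists_sum_four_unitary (⟨a, ha⟩ : N.toStarSubalgebra)
  have ha' : a = ∑ i, k i • ((u i : N.toStarSubalgebra) : H →L[ℂ] H) := by
    have := congrArg (fun z : N.toStarSubalgebra => (z : H →L[ℂ] H)) hk
    simpa using this
  have hl : fco (U14.fld Ψ a) =
      ∑ i, k i • fco (U14.fld Ψ ((u i : N.toStarSubalgebra) : H →L[ℂ] H)) := by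
    rw [ha', Fin.sum_univ_four, Fin.sum_univ_four, hadd, hadd, hadd, hsmul, hsmul, hsmul, hsmul]
  rw [hl, Finset.sum_mul, Finset.mul_sum]
  refine Finset.sum_congr rfl fun i _ => ?_
  rw [smul_mul_assoc, mul_smul_comm]
  congr 1
  refine hX.2.2 _ (u i : N.toStarSubalgebra).2 ?_ ?_
  · have := Unitary.star_mul_self_of_mem (u i).2
    exact congrArg (fun z : N.toStarSubalgebra => (z : H →L[ℂ] H)) this
  · have := Unitary.mul_star_self_of_mem (u i).2
    exact congrArg (fun z : N.toStarSubalgebra => (z : H →L[ℂ] H)) this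

end RkA

end Pool.Agent.Helper23.ED

end

section

open scoped InnerProductSpace Topology ENNReal BoundedContinuousFunction FourierTransform SchwartzMap

open ContinuousLinearMap Filter MeasureTheory

namespace Pool.Agent.Helper23.ED

open Pool.Agent.Helper23 Pool.Agent.Helper23.RBF

universe u

variable {H : Type*} [NormedAddCommGroup H] [InnerProductSpace ℂ H] [CompleteSpace H]

variable {M N : VonNeumannAlgebra H} {ξ : H} {E : (H →L[ℂ] H) → (H →L[ℂ] H)}

namespace GgB

lemma ems_bm (a : ℝ) : BM (ems a) := by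
  rw [ems_eq]
  exact chr_bm _

end GgB

end Pool.Agent.Helper23.ED

end

end

section

section

open scoped InnerProductSpace Topology ENNReal

open ContinuousLinearMap Filter MeasureTheory

set_option linter.unusedSectionVars false

set_option linter.unusedVariables false

namespace Pool.Agent.Helper23

variable {G : Type*} [NormedAddCommGroup G] [InnerProductSpace ℂ G] [CompleteSpace G]

variable {G' : Type*} [NormedAddCommGroup G'] [InnerProductSpace ℂ G'] [CompleteSpace G']

variable {G'' : Type*} [NormedAddCommGroup G''] [InnerProductSpace ℂ G''] [CompleteSpace G'']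

lemma BM.add {m m' : ℝ → ℂ} (h : BM m) (h' : BM m') : BM (fun s => m s + m' s) := by
  obtain ⟨hm, C, hC0, hC⟩ := h
  obtain ⟨hm', C', hC0', hC'⟩ := h'
  exact ⟨hm.add hm', C + C', by (clear * - hC0 hC0'; positivity), fun s =>
    (norm_add_le _ _).trans (add_le_add (hC s) (hC' s))⟩

lemma BM.constMul {m : ℝ → ℂ} (c : ℂ) (h : BM m) : BM (fun s => c * m s) := by
  obtain ⟨hm, C, hC0, hC⟩ := h
  refine ⟨hm.const_mul c, ‖c‖ * C, by (clear * - hC0; positivity), fun s => ?_⟩
  rw [norm_mul]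
  gcongr
  exact hC s

omit [CompleteSpace G] in
lemma mulOp_add {m m' : ℝ → ℂ} (h : BM m) (h' : BM m') (F : L2R G) :
    mulOp G (fun s => m s + m' s) F = mulOp G m F + mulOp G m' F := by
  ext1
  filter_upwards [mulOp_coe h F, mulOp_coe h' F, mulOp_coe (h.add h') F,
    Lp.coeFn_add (mulOp G m F) (mulOp G m' F)] with s h1 h2 h3 h4
  rw [h3, h4, Pi.add_apply, h1, h2, add_smul]

omit [CompleteSpace G] in
lemma mulOp_constMul {m : ℝ → ℂ} (c : ℂ) (h : BM m) (F : L2R G) :
    mulOp G (fun s => c * m s) F = c • mulOp G m F := by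
  ext1
  filter_upwards [mulOp_coe h F, mulOp_coe (h.constMul c) F,
    Lp.coeFn_smul c (mulOp G m F)] with s h1 h3 h4
  rw [h3, h4, Pi.smul_apply, h1, mul_smul]

end Pool.Agent.Helper23

end

section

open scoped InnerProductSpace Topology ENNReal

open ContinuousLinearMap Filter MeasureTheory

set_option linter.unusedSectionVars false

set_option linter.unusedVariables false

namespace Pool.Agent.Helper23

variable {H : Type*} [NormedAddCommGroup H] [InnerProductSpace ℂ H] [CompleteSpace H]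

variable {M N : VonNeumannAlgebra H} {ξ : H} {E : (H →L[ℂ] H) → (H →L[ℂ] H)}

/-- commutation with unimodular multiplications gives commutation with all multiplications -/
lemma comm_mulOp {X : L2R H →L[ℂ] L2R H}
    (h : ∀ m : ℝ → ℂ, BM m → (∀ s, ‖m s‖ = 1) → mulOp H m * X = X * mulOp H m)
    {m : ℝ → ℂ} (hm : BM m) : mulOp H m * X = X * mulOp H m := by
  obtain ⟨hmeas, C, hC0, hC⟩ := hm
  -- real functions of modulus at most one
  have key : ∀ r : ℝ → ℝ, Measurable r → (∀ s, |r s| ≤ 1) → ∃ u : ℝ → ℂ, BM u ∧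
      (∀ s, ‖u s‖ = 1) ∧ ∀ s, u s + (starRingEnd ℂ) (u s) = 2 * r s := by
    intro r hr hr1
    have h1 : ∀ s, ‖(r s : ℂ) + Complex.I * (Real.sqrt (1 - r s ^ 2) : ℝ)‖ = 1 := by
      intro s
      have h2 : r s ^ 2 ≤ 1 := by
        have := hr1 s
        rw [← sq_abs]
        (clear * - this; nlinarith [abs_nonneg (r s)])
      rw [mul_comm, Complex.norm_add_mul_I, Real.sq_sqrt (by (clear * - h2; linarith))]
      simp
    refine ⟨fun s => (r s : ℂ) + Complex.I * (Real.sqrt (1 - r s ^ 2) : ℝ), ?_, h1, ?_⟩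
    · refine ⟨?_, 1, zero_le_one, fun s => (h1 s).le⟩
      have h3 : Measurable fun s => (Real.sqrt (1 - r s ^ 2)) :=
        Real.continuous_sqrt.measurable.comp (measurable_const.sub (hr.pow_const 2))
      exact (Complex.measurable_ofReal.comp hr).add
        ((Complex.measurable_ofReal.comp h3).const_mul _)
    · intro s
      simp only [map_add, map_mul, Complex.conj_ofReal, Complex.conj_I]
      ring
  have hC1 : 0 < C + 1 := by (clear * - hC0; linarith)
  obtain ⟨u, hu, hu1, hur⟩ := key (fun s => (m s).re / (C + 1))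
    ((Complex.measurable_re.comp hmeas).div_const _) (fun s => by
      rw [abs_div, abs_of_pos hC1, div_le_one hC1]
      exact (Complex.abs_re_le_norm _).trans ((hC s).trans (by (clear * -; linarith))))
  obtain ⟨w, hw, hw1, hwr⟩ := key (fun s => (m s).im / (C + 1))
    ((Complex.measurable_im.comp hmeas).div_const _) (fun s => by
      rw [abs_div, abs_of_pos hC1, div_le_one hC1]
      exact (Complex.abs_im_le_norm _).trans ((hC s).trans (by linarith)))
  have hm' : m = fun s => ((C + 1) / 2 : ℂ) * (u s + (starRingEnd ℂ) (u s)) +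
      ((C + 1) / 2 * Complex.I : ℂ) * (w s + (starRingEnd ℂ) (w s)) := by
    funext s
    rw [hur, hwr]
    have hC2 : ((C : ℂ) + 1) ≠ 0 := by
      have : ((C + 1 : ℝ) : ℂ) ≠ 0 := by exact_mod_cast hC1.ne'
      simpa using this
    push_cast
    field_simp
    rw [mul_comm]
    exact (Complex.re_add_im (m s)).symm
  have hop : mulOp H m = ((C + 1) / 2 : ℂ) • (mulOp H u + mulOp H (fun s => (starRingEnd ℂ) (u s))) +
      ((C + 1) / 2 * Complex.I : ℂ) •
        (mulOp H w + mulOp H (fun s => (starRingEnd ℂ) (w s))) := by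
    ext F : 1
    rw [hm', mulOp_add ((hu.add hu.conj).constMul _) ((hw.add hw.conj).constMul _),
      mulOp_constMul _ (hu.add hu.conj), mulOp_constMul _ (hw.add hw.conj),
      mulOp_add hu hu.conj, mulOp_add hw hw.conj]
    rfl
  have c1 := h u hu hu1
  have c2 := h _ hu.conj (fun s => by rw [RCLike.norm_conj]; exact hu1 s)
  have c3 := h w hw hw1
  have c4 := h _ hw.conj (fun s => by rw [RCLike.norm_conj]; exact hw1 s)
  rw [hop]
  simp only [add_mul, mul_add, smul_mul_assoc, mul_smul_comm, c1, c2, c3, c4]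

end Pool.Agent.Helper23

end

end

section

section

open scoped InnerProductSpace Topology ENNReal

open ContinuousLinearMap Filter MeasureTheory

set_option linter.unusedSectionVars false

set_option linter.unusedVariables false

namespace Pool.Agent.Helper23

variable {G : Type*} [NormedAddCommGroup G] [InnerProductSpace ℂ G] [CompleteSpace G]

variable {G' : Type*} [NormedAddCommGroup G'] [InnerProductSpace ℂ G'] [CompleteSpace G']

variable {G'' : Type*} [NormedAddCommGroup G''] [InnerProductSpace ℂ G''] [CompleteSpace G'']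

lemma BM.shift {m : ℝ → ℂ} (h : BM m) (t : ℝ) : BM (fun s => m (s - t)) := by
  obtain ⟨hm, C, hC0, hC⟩ := h
  exact ⟨hm.comp (measurable_id.sub_const t), C, hC0, fun s => hC _⟩

end Pool.Agent.Helper23

end

end

section

section

open scoped InnerProductSpace Topology ENNReal BoundedContinuousFunction

open ContinuousLinearMap Filter MeasureTheory

namespace Pool.Agent.Helper23.ED

open Pool.Agent.Helper23 Pool.Agent.Helper23.RBF

universe u

variable {H : Type*} [NormedAddCommGroup H] [InnerProductSpace ℂ H] [CompleteSpace H]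

variable {M N : VonNeumannAlgebra H} {ξ : H} {E : (H →L[ℂ] H) → (H →L[ℂ] H)}

lemma RkB_mulOp_apply' {Ψ : (ℝ →ᵇ ℂ) →⋆ₐ[ℂ] (H →L[ℂ] H)} {X : L2R H →L[ℂ] L2R H}
    (hX : X ∈ Rk1 M N Ψ) {m : ℝ → ℂ} (hm : BM m)
    (F : L2R H) : mulOp H m (X F) = X (mulOp H m F) :=
  congrArg (fun T : L2R H →L[ℂ] L2R H => T F)
    (comm_mulOp (fun m h h1 => hX.2.1 m h h1) hm)

end Pool.Agent.Helper23.ED

end

end

section

section

open scoped InnerProductSpace Topology ENNReal BoundedContinuousFunction FourierTransform SchwartzMap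

open ContinuousLinearMap Filter MeasureTheory

namespace Pool.Agent.Helper23.ED

open Pool.Agent.Helper23 Pool.Agent.Helper23.RBF

universe u

variable {H : Type*} [NormedAddCommGroup H] [InnerProductSpace ℂ H] [CompleteSpace H]

variable {M N : VonNeumannAlgebra H} {ξ : H} {E : (H →L[ℂ] H) → (H →L[ℂ] H)}

namespace GgB

lemma fourierInv_tr (t : ℝ) (F : L2R H) : 𝓕⁻ (tr H t F) = mulOp H (chr (-t)) (𝓕⁻ F) := by
  refine L2R_ext_schwartz (φ := fun F : L2R H => (𝓕⁻ (tr H t F) : L2R H))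
    (ψ := fun F : L2R H => mulOp H (chr (-t)) (𝓕⁻ F)) ?_ ?_ (fun f => ?_) F
  · exact (Lp.fourierTransformₗᵢ ℝ H).symm.continuous.comp (tr H t).continuous
  · exact (mulOp H (chr (-t))).continuous.comp (Lp.fourierTransformₗᵢ ℝ H).symm.continuous
  · rw [tr_toLp, SchwartzMap.toLp_fourierInv_eq, SchwartzMap.toLp_fourierInv_eq]
    ext1
    filter_upwards [mulOp_coe (chr_bm (-t)) ((𝓕⁻ f).toLp 2), (𝓕⁻ f).coeFn_toLp 2,
      (𝓕⁻ (trS t f)).coeFn_toLp 2] with s h1 h2 h3
    rw [h1, h2, h3, fourierInv_trS]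

lemma symm_tr (t : ℝ) (F : L2R H) :
    (Fo H).symm (tr H t F) = mulOp H (chr (-t)) ((Fo H).symm F) := fourierInv_tr t F

lemma Fo_ems (a : ℝ) (F : L2R H) :
    Fo H (mulOp H (ems a) F) = tr H (a / (2 * Real.pi)) (Fo H F) := by
  refine (Fo H).symm.injective ?_
  rw [symm_tr, LinearIsometryEquiv.symm_apply_apply, LinearIsometryEquiv.symm_apply_apply, ems_eq]

end GgB

end Pool.Agent.Helper23.ED

end

section

open scoped InnerProductSpace Topology ENNReal BoundedContinuousFunction

open ContinuousLinearMap Filter MeasureTheory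

namespace Pool.Agent.Helper23.ED

open Pool.Agent.Helper23 Pool.Agent.Helper23.RBF

universe u

open TopologicalSpace

variable {H : Type*} [NormedAddCommGroup H] [InnerProductSpace ℂ H] [CompleteSpace H]

variable {N : VonNeumannAlgebra H} {ξ : H} {V c : ℝ → H →L[ℂ] H} {ψ : (H →L[ℂ] H) → ℝ≥0∞}

open WuB

namespace WuB

/-- the Fourier transform turns modulations into translations -/
lemma Fo_ems (a : ℝ) (F : L2R H) :
    Fo H (mulOp H (ems a) F) = tr H (a / (2 * Real.pi)) (Fo H F) := by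
  have key : ∀ G : L2R H, mulOp H (ems a) ((Fo H).symm G) =
      (Fo H).symm (tr H (a / (2 * Real.pi)) G) := by
    intro G
    refine L2R_ext_schwartz (φ := fun G : L2R H => mulOp H (ems a) ((Fo H).symm G))
      (ψ := fun G : L2R H => (Fo H).symm (tr H (a / (2 * Real.pi)) G)) ?_ ?_ (fun f => ?_) G
    · exact (mulOp H (ems a)).continuous.comp (Fo H).symm.continuous
    · exact (Fo H).symm.continuous.comp (tr H _).continuous
    · have e1 : ∀ f : SchwartzMap ℝ H, (Fo H).symm (f.toLp 2) =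
          (FourierTransformInv.fourierInv f : SchwartzMap ℝ H).toLp 2 :=
        fun f => SchwartzMap.toLp_fourierInv_eq f
      rw [tr_toLp, e1, e1]
      ext1
      filter_upwards [mulOp_coe (ems_bm a)
          ((FourierTransformInv.fourierInv f : SchwartzMap ℝ H).toLp 2),
        (FourierTransformInv.fourierInv f : SchwartzMap ℝ H).coeFn_toLp 2,
        (FourierTransformInv.fourierInv (trS (a / (2 * Real.pi)) f) :
          SchwartzMap ℝ H).coeFn_toLp 2] with s h1 h2 h3
      rw [h1, h2, h3, SchwartzMap.fourierInv_coe, SchwartzMap.fourierInv_coe,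
        Real.fourierInv_eq_fourier_neg, Real.fourierInv_eq_fourier_neg,
        ← SchwartzMap.fourier_coe, ← SchwartzMap.fourier_coe, fourier_trS]
      congr 1
      unfold ems ph chr
      congr 1
      push_cast
      have : (Real.pi : ℂ) ≠ 0 := by exact_mod_cast Real.pi_ne_zero
      field_simp
  have h := key (Fo H F)
  rw [LinearIsometryEquiv.symm_apply_apply] at h
  rw [h, LinearIsometryEquiv.apply_symm_apply]

end WuB

end Pool.Agent.Helper23.ED

end

end

section

section

open scoped InnerProductSpace Topology ENNReal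

open ContinuousLinearMap Filter MeasureTheory

set_option linter.unusedSectionVars false

set_option linter.unusedVariables false

namespace Pool.Agent.Helper23

variable {G : Type*} [NormedAddCommGroup G] [InnerProductSpace ℂ G] [CompleteSpace G]

variable {G' : Type*} [NormedAddCommGroup G'] [InnerProductSpace ℂ G'] [CompleteSpace G']

variable {G'' : Type*} [NormedAddCommGroup G''] [InnerProductSpace ℂ G''] [CompleteSpace G'']

omit [CompleteSpace G] in
lemma tr_mulOp {m : ℝ → ℂ} (h : BM m) (t : ℝ) (F : L2R G) :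
    tr G t (mulOp G m F) = mulOp G (fun s => m (s - t)) (tr G t F) := by
  ext1
  filter_upwards [tr_coe t (mulOp G m F), ae_tr t (mulOp_coe h F),
    mulOp_coe (h.shift t) (tr G t F), tr_coe t F] with s h1 h2 h3 h4
  rw [h1, h2, h3, h4]

end Pool.Agent.Helper23

end

section

open scoped InnerProductSpace Topology ENNReal BoundedContinuousFunction FourierTransform SchwartzMap

open ContinuousLinearMap Filter MeasureTheory

namespace Pool.Agent.Helper23.ED

open Pool.Agent.Helper23 Pool.Agent.Helper23.RBF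

universe u

variable {H : Type*} [NormedAddCommGroup H] [InnerProductSpace ℂ H] [CompleteSpace H]

variable {M N : VonNeumannAlgebra H} {ξ : H} {E : (H →L[ℂ] H) → (H →L[ℂ] H)}

open GgB in
theorem tr_UV (V : ℝ → H →L[ℂ] H) (c a : ℝ) :
    tr H (-c) * UV V a = ph a c • (UV V a * tr H (-c)) := by
  ext F : 1
  change tr H (-c) (lift (V a) (mulOp H (ems a) F)) =
    ph a c • lift (V a) (mulOp H (ems a) (tr H (-c) F))
  rw [tr_lift, tr_mulOp (ems_bm a), ← map_smul, ← mulOp_constMul _ (ems_bm a)]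
  congr 3
  funext s
  unfold ems ph
  rw [← Complex.exp_add]
  congr 1
  push_cast
  ring

end Pool.Agent.Helper23.ED

end

section

open scoped InnerProductSpace Topology ENNReal BoundedContinuousFunction

open ContinuousLinearMap Filter MeasureTheory

namespace Pool.Agent.Helper23.ED

open Pool.Agent.Helper23 Pool.Agent.Helper23.RBF

universe u

variable {H : Type*} [NormedAddCommGroup H] [InnerProductSpace ℂ H] [CompleteSpace H]

variable {M N : VonNeumannAlgebra H} {ξ : H} {E : (H →L[ℂ] H) → (H →L[ℂ] H)}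

lemma RkB_mul {Ψ : (ℝ →ᵇ ℂ) →⋆ₐ[ℂ] (H →L[ℂ] H)} {X Y : L2R H →L[ℂ] L2R H}
    (hX : X ∈ Rk1 M N Ψ) (hY : Y ∈ Rk1 M N Ψ) : X * Y ∈ Rk1 M N Ψ :=
  ⟨mul_mem hX.1 hY.1, fun m hm h1 => by
    rw [← mul_assoc, hX.2.1 m hm h1, mul_assoc, hY.2.1 m hm h1, mul_assoc],
    fun u hu h1 h2 => by
    rw [← mul_assoc, hX.2.2 u hu h1 h2, mul_assoc, hY.2.2 u hu h1 h2, mul_assoc]⟩

lemma RkB_sub {Ψ : (ℝ →ᵇ ℂ) →⋆ₐ[ℂ] (H →L[ℂ] H)} {X Y : L2R H →L[ℂ] L2R H}
    (hX : X ∈ Rk1 M N Ψ) (hY : Y ∈ Rk1 M N Ψ) : X - Y ∈ Rk1 M N Ψ :=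
  ⟨sub_mem hX.1 hY.1, fun m hm h1 => by rw [mul_sub, sub_mul, hX.2.1 m hm h1, hY.2.1 m hm h1],
    fun u hu h1 h2 => by rw [mul_sub, sub_mul, hX.2.2 u hu h1 h2, hY.2.2 u hu h1 h2]⟩

end Pool.Agent.Helper23.ED

end

section

open scoped InnerProductSpace Topology ENNReal BoundedContinuousFunction

open ContinuousLinearMap Filter MeasureTheory

namespace Pool.Agent.Helper23.ED

open Pool.Agent.Helper23 Pool.Agent.Helper23.RBF

universe u

variable {H : Type*} [NormedAddCommGroup H] [InnerProductSpace ℂ H] [CompleteSpace H]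

variable {A : VonNeumannAlgebra H} {ξ : H} {R : H →L[ℂ] H} {D : H →L[ℝ] H}
  {Ψ : (ℝ →ᵇ ℂ) →⋆ₐ[ℂ] (H →L[ℂ] H)}

namespace GgC

lemma comm_mulOp {Y : L2R H →L[ℂ] L2R H}
    (hc : ∀ a, Y * mulOp H (ems a) = mulOp H (ems a) * Y) {m : ℝ → ℂ} (hm : BM m) :
    Y * mulOp H m = mulOp H m * Y := by
  ext G : 1
  refine ext_inner_left ℂ fun F => ?_
  have key : ∀ m : ℝ → ℂ, BM m → ⟪F, (Y * mulOp H m) G⟫_ℂ - ⟪F, (mulOp H m * Y) G⟫_ℂ =
      ∫ s, m s * (⟪((star Y) F) s, G s⟫_ℂ - ⟪F s, (Y G) s⟫_ℂ) := by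
    intro m hm
    change ⟪F, Y (mulOp H m G)⟫_ℂ - ⟪F, mulOp H m (Y G)⟫_ℂ = _
    rw [← inner_star_left Y, L2.inner_def, L2.inner_def,
      ← integral_sub (L2.integrable_inner _ _) (L2.integrable_inner _ _)]
    refine integral_congr_ae ?_
    filter_upwards [mulOp_coe hm G, mulOp_coe hm (Y G)] with s h1 h2
    rw [h1, h2, inner_smul_right, inner_smul_right]
    ring
  have hi : Integrable fun s => (⟪((star Y) F) s, G s⟫_ℂ - ⟪F s, (Y G) s⟫_ℂ) :=
    (L2.integrable_inner _ _).sub (L2.integrable_inner _ _)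
  have h0 := inj_cplx hi fun a => by
    rw [← key (ems a) (GgB.ems_bm a), hc a, sub_self]
  rw [← sub_eq_zero, key m hm]
  refine (integral_congr_ae ?_).trans (integral_zero ℝ ℂ)
  filter_upwards [h0] with s hs
  rw [hs, Pi.zero_apply, mul_zero]

end GgC

end Pool.Agent.Helper23.ED

end

end

section

section

open scoped InnerProductSpace Topology BoundedContinuousFunction FourierTransform ENNReal

open ContinuousLinearMap Filter MeasureTheory

set_option linter.unusedSectionVars false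

namespace Pool.Agent.Helper23

variable {H : Type*} [NormedAddCommGroup H] [InnerProductSpace ℂ H] [CompleteSpace H]

variable {M N : VonNeumannAlgebra H} {ξ : H} {E : (H →L[ℂ] H) → (H →L[ℂ] H)}

namespace Modular

variable {A : VonNeumannAlgebra H} {R : H →L[ℂ] H} {D : H →L[ℝ] H}
  {Ψ : (ℝ →ᵇ ℂ) →⋆ₐ[ℂ] (H →L[ℂ] H)} (h : Modular A ξ R D Ψ)

include h

/-- the conjugated unitary -/
lemma conj_dec (c : H →L[ℂ] H) :
    Dec (fun t : ℝ => Ψ (expB (2 * Real.pi * t)) * c * Ψ (expB (-(2 * Real.pi * t)))) :=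
  (h.U_dec.comp (Dec.const c)).comp h.U_dec'

end Modular

end Pool.Agent.Helper23

end

end

section

section

open scoped InnerProductSpace Topology ENNReal BoundedContinuousFunction FourierTransform SchwartzMap

open ContinuousLinearMap Filter MeasureTheory

namespace Pool.Agent.Helper23.ED

open Pool.Agent.Helper23 Pool.Agent.Helper23.RBF

universe u

variable {H : Type*} [NormedAddCommGroup H] [InnerProductSpace ℂ H] [CompleteSpace H]

variable {M N : VonNeumannAlgebra H} {ξ : H} {E : (H →L[ℂ] H) → (H →L[ℂ] H)}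

open GgB in
theorem mulOp_UV (V : ℝ → H →L[ℂ] H) {m : ℝ → ℂ} (hm : BM m) (a : ℝ) :
    mulOp H m * UV V a = UV V a * mulOp H m := by
  ext F : 1
  change mulOp H m (lift (V a) (mulOp H (ems a) F)) = lift (V a) (mulOp H (ems a) (mulOp H m F))
  rw [mulOp_lift hm, mulOp_mulOp hm (ems_bm a), mulOp_mulOp (ems_bm a) hm]
  congr 3
  funext s
  ring

end Pool.Agent.Helper23.ED

end

end

section

section

open scoped InnerProductSpace Topology ENNReal BoundedContinuousFunction

open ContinuousLinearMap Filter MeasureTheory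

namespace Pool.Agent.Helper23.ED

open Pool.Agent.Helper23 Pool.Agent.Helper23.RBF

universe u

variable {H : Type*} [NormedAddCommGroup H] [InnerProductSpace ℂ H] [CompleteSpace H]

variable {M N : VonNeumannAlgebra H} {ξ : H} {E : (H →L[ℂ] H) → (H →L[ℂ] H)}

namespace MnA

/-- a scaling unitary on the side of `L²(ℝ; H)` -/
def SU (N : VonNeumannAlgebra H) (V : ℝ → H →L[ℂ] H) (s : ℝ) (U : L2R H →L[ℂ] L2R H) : Prop :=
  U ∈ amp N ∧ star U * U = 1 ∧ U * star U = 1 ∧ ∀ a, U * UV V a = ph a s • (UV V a * U)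

/-- the quotient of two unitaries of the same scale commutes with the group -/
lemma quot_comm {V : ℝ → H →L[ℂ] H} {s : ℝ} {T U : L2R H →L[ℂ] L2R H}
    (hT : SU N V s T) (hU : SU N V s U) (a : ℝ) :
    star T * U * UV V a = UV V a * (star T * U) := by
  obtain ⟨_, hT1, hT2, hT3⟩ := hT
  obtain ⟨_, _, _, hU3⟩ := hU
  have h1 : UV V a * star T = ph a s • (star T * UV V a) := by
    have h2 := congrArg (fun X => star T * X * star T) (hT3 a)
    simp only [mul_smul_comm, smul_mul_assoc] at h2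
    rw [← mul_assoc, hT1, one_mul] at h2
    rw [h2, ← mul_assoc, mul_assoc (star T * UV V a), hT2, mul_one]
  rw [mul_assoc, hU3 a, mul_smul_comm, ← mul_assoc, ← mul_assoc, h1, smul_mul_assoc]

lemma quot_unit {V : ℝ → H →L[ℂ] H} {s : ℝ} {T U : L2R H →L[ℂ] L2R H}
    (hT : SU N V s T) (hU : SU N V s U) :
    star T * U ∈ amp N ∧ star (star T * U) * (star T * U) = 1 ∧
      (star T * U) * star (star T * U) = 1 := by
  obtain ⟨hT0, hT1, hT2, _⟩ := hT
  obtain ⟨hU0, hU1, hU2, _⟩ := hU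
  refine ⟨mul_mem (star_mem hT0) hU0, ?_, ?_⟩
  · rw [star_mul, star_star, mul_assoc, ← mul_assoc T, hT2, one_mul, hU1]
  · rw [star_mul, star_star, mul_assoc, ← mul_assoc U, hU2, one_mul, hT1]

end MnA

end Pool.Agent.Helper23.ED

end

end
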