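import Pool.Agent.Helper23.FB.L00_a0
import Pool.Agent.Helper23.FB.L00_a10
import Pool.Agent.Helper23.FB.L00_a12
import Pool.Agent.Helper23.FB.L00_a13
import Pool.Agent.Helper23.FB.L00_a2
import Pool.Agent.Helper23.FB.L00_a8

/-!
Parts of Helper23.FA.L01_07, Helper23.FA.L01_18, Helper23.FA.L02_02, Helper23.FA.L01_15, Helper23.FA.L02_07
-/

attribute [local instance 5000]
  Pool.Agent.Helper23.FB.Inst.rCharZero Pool.Agent.Helper23.FB.Inst.rALM
  Pool.Agent.Helper23.FB.Inst.rARM Pool.Agent.Helper23.FB.Inst.rALSM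
  Pool.Agent.Helper23.FB.Inst.rARSM Pool.Agent.Helper23.FB.Inst.rARRLE
  Pool.Agent.Helper23.FB.Inst.rALRLE Pool.Agent.Helper23.FB.Inst.rARRLT
  Pool.Agent.Helper23.FB.Inst.rALRLT Pool.Agent.Helper23.FB.Inst.rPMRLT
  Pool.Agent.Helper23.FB.Inst.rMPRLT Pool.Agent.Helper23.FB.Inst.rPMM
  Pool.Agent.Helper23.FB.Inst.rMPM Pool.Agent.Helper23.FB.Inst.rPMSM
  Pool.Agent.Helper23.FB.Inst.rMPSM Pool.Agent.Helper23.FB.Inst.rEAOL
  Pool.Agent.Helper23.FB.Inst.rIOR Pool.Agent.Helper23.FB.Inst.rISOR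
  Pool.Agent.Helper23.FB.Inst.rFS Pool.Agent.Helper23.FB.Inst.rcCharZero
  Pool.Agent.Helper23.FB.Inst.rNZD Pool.Agent.Helper23.FB.Inst.rcNZD
  Pool.Agent.Helper23.FB.Inst.bSemiring Pool.Agent.Helper23.FB.Inst.bStar
  Pool.Agent.Helper23.FB.Inst.bAlg Pool.Agent.Helper23.FB.Inst.bSub
  Pool.Agent.Helper23.FB.Inst.bMul Pool.Agent.Helper23.FB.Inst.bAdd
  Pool.Agent.Helper23.FB.Inst.iRing Pool.Agent.Helper23.FB.Inst.iSemiring
  Pool.Agent.Helper23.FB.Inst.iAlgC Pool.Agent.Helper23.FB.Inst.iSMulC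
  Pool.Agent.Helper23.FB.Inst.iModC Pool.Agent.Helper23.FB.Inst.iAlgR
  Pool.Agent.Helper23.FB.Inst.iSMulR Pool.Agent.Helper23.FB.Inst.iModR
  Pool.Agent.Helper23.FB.Inst.iMonoid Pool.Agent.Helper23.FB.Inst.iSemigroup
  Pool.Agent.Helper23.FB.Inst.iMulOneClass Pool.Agent.Helper23.FB.Inst.iMul
  Pool.Agent.Helper23.FB.Inst.iAdd Pool.Agent.Helper23.FB.Inst.iSub
  Pool.Agent.Helper23.FB.Inst.iNeg Pool.Agent.Helper23.FB.Inst.iAddCommMonoid
  Pool.Agent.Helper23.FB.Inst.iAddCommGroup Pool.Agent.Helper23.FB.Inst.iAddGroup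
  Pool.Agent.Helper23.FB.Inst.iAddMonoid Pool.Agent.Helper23.FB.Inst.iSMulZeroC
  Pool.Agent.Helper23.FB.Inst.iMulActC Pool.Agent.Helper23.FB.Inst.iDSMulC
  Pool.Agent.Helper23.FB.Inst.iDSMulR Pool.Agent.Helper23.FB.Inst.iSNAG
  Pool.Agent.Helper23.FB.Inst.iSNACG Pool.Agent.Helper23.FB.Inst.iNorm
  Pool.Agent.Helper23.FB.Inst.iNSC' Pool.Agent.Helper23.FB.Inst.iNSR'
  Pool.Agent.Helper23.FB.Inst.iTop Pool.Agent.Helper23.FB.Inst.iT2 Pool.Agent.Helper23.FB.Inst.iTR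
  Pool.Agent.Helper23.FB.Inst.iSCC Pool.Agent.Helper23.FB.Inst.iIST
  Pool.Agent.Helper23.FB.Inst.iSCCR Pool.Agent.Helper23.FB.Inst.iISTR
  Pool.Agent.Helper23.FB.Inst.iZHC Pool.Agent.Helper23.FB.Inst.iAHC
  Pool.Agent.Helper23.FB.Inst.iAMHC Pool.Agent.Helper23.FB.Inst.iMAHC
  Pool.Agent.Helper23.FB.Inst.lTop Pool.Agent.Helper23.FB.Inst.lUnif
  Pool.Agent.Helper23.FB.Inst.lACM Pool.Agent.Helper23.FB.Inst.lACG
  Pool.Agent.Helper23.FB.Inst.lSNAG Pool.Agent.Helper23.FB.Inst.lSNACG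
  Pool.Agent.Helper23.FB.Inst.lNACG Pool.Agent.Helper23.FB.Inst.lNorm
  Pool.Agent.Helper23.FB.Inst.lIPS Pool.Agent.Helper23.FB.Inst.lMod
  Pool.Agent.Helper23.FB.Inst.lSMul Pool.Agent.Helper23.FB.Inst.lT2
  Pool.Agent.Helper23.FB.Inst.iStar Pool.Agent.Helper23.FB.Inst.iStarMul
  Pool.Agent.Helper23.FB.Inst.iStarAddMonoid Pool.Agent.Helper23.FB.Inst.iStarRing
  Pool.Agent.Helper23.FB.Inst.iNSC Pool.Agent.Helper23.FB.Inst.iSOR
  Pool.Agent.Helper23.FB.Inst.iALM Pool.Agent.Helper23.FB.Inst.iARM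
  Pool.Agent.Helper23.FB.Inst.iCFC Pool.Agent.Helper23.FB.Inst.iNCFC
  Pool.Agent.Helper23.FB.Inst.iStarModR Pool.Agent.Helper23.FB.Inst.iStarModC
  Pool.Agent.Helper23.FB.Inst.eStar Pool.Agent.Helper23.FB.Inst.eAdd
  Pool.Agent.Helper23.FB.Inst.eMul Pool.Agent.Helper23.FB.Inst.eOne
  Pool.Agent.Helper23.FB.Inst.eZero Pool.Agent.Helper23.FB.Inst.eMulAction
  Pool.Agent.Helper23.FB.Inst.eAMHC2 Pool.Agent.Helper23.FB.Inst.eZHC2
  Pool.Agent.Helper23.FB.Inst.lAMHC

namespace Pool.Agent.Helper23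
end Pool.Agent.Helper23

section

section

open scoped InnerProductSpace

open ContinuousLinearMap

namespace Pool.Agent.Helper23

variable {H : Type*} [NormedAddCommGroup H] [InnerProductSpace ℂ H] [CompleteSpace H]

variable {M N : VonNeumannAlgebra H} {ξ : H} {E : (H →L[ℂ] H) → (H →L[ℂ] H)}

section Density

variable {ι : Type*} [Fintype ι] [DecidableEq ι]

omit [DecidableEq ι] in
lemma inner_diag (a : H →L[ℂ] H) (x y : PiLp 2 (fun _ : ι => H)) :
    ⟪diag ι a x, y⟫_ℂ = ⟪x, diag ι (star a) y⟫_ℂ := by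
  rw [PiLp.inner_apply, PiLp.inner_apply]
  refine Finset.sum_congr rfl fun i _ => ?_
  rw [diag_apply, diag_apply, inner_star_right]

end Density

end Pool.Agent.Helper23

end

section

open scoped InnerProductSpace

open ContinuousLinearMap

namespace Pool.Agent.Helper72

open Pool.Agent.Helper23

variable {H : Type*} [NormedAddCommGroup H] [InnerProductSpace ℂ H] [CompleteSpace H]

/-- the projection onto the closed graph generated by `(ξ, η)` over the commutant. -/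
lemma exists_graph (A : VonNeumannAlgebra H) {ξ η ζ : H}
    (hb : ∀ c ∈ A.commutant, ⟪c ξ, η⟫_ℂ = ⟪ζ, (star c) ξ⟫_ℂ) :
    ∃ e ∈ A, ∃ g ∈ A, 0 ≤ e ∧ e ξ + (star g) η = ξ ∧ (star g) ξ = e ζ := by
  set V0 : Submodule ℂ (PiLp 2 (fun _ : Fin 2 => H)) :=
    { carrier := {x | ∃ c ∈ A.commutant, x = WithLp.toLp 2 ![c ξ, c η]}
      add_mem' := by
        rintro _ _ ⟨a, ha, rfl⟩ ⟨b, hb, rfl⟩
        refine ⟨a + b, add_mem ha hb, ?_⟩
        ext i
        fin_cases i <;> rfl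
      zero_mem' := by
        refine ⟨0, zero_mem _, ?_⟩
        ext i
        fin_cases i <;> rfl
      smul_mem' := by
        rintro c _ ⟨a, ha, rfl⟩
        refine ⟨c • a, smul_mem' c ha, ?_⟩
        ext i
        fin_cases i <;> rfl } with hV0
  set V := V0.topologicalClosure with hV
  set P := V.starProjection with hP
  have hinv : ∀ b ∈ A.commutant, ∀ x ∈ V, diag (Fin 2) b x ∈ V := by
    intro b hb x hx
    have h1 : (V0 : Set (PiLp 2 (fun _ : Fin 2 => H))) ⊆ (diag (Fin 2) b) ⁻¹' (V : Set _) := by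
      rintro _ ⟨a, ha, rfl⟩
      refine Submodule.le_topologicalClosure _ ⟨b * a, mul_mem hb ha, ?_⟩
      ext i
      fin_cases i <;> rfl
    exact closure_minimal h1 ((Submodule.isClosed_topologicalClosure _).preimage
      (diag (Fin 2) b).continuous) hx
  have hinv' : ∀ b ∈ A.commutant, ∀ x ∈ Vᗮ, diag (Fin 2) b x ∈ Vᗮ := by
    intro b hb x hx
    rw [Submodule.mem_orthogonal] at hx ⊢
    intro u hu
    have := hx _ (hinv _ (star_mem hb) u hu)
    rw [inner_diag, star_star] at this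
    exact this
  have hcomm : ∀ b ∈ A.commutant, ∀ x, P (diag (Fin 2) b x) = diag (Fin 2) b (P x) := by
    intro b hb x
    refine Submodule.eq_starProjection_of_mem_orthogonal (K := V) ?_ ?_
    · exact hinv b hb _ (Submodule.starProjection_apply_mem V x)
    · rw [← map_sub]
      exact hinv' b hb _ (Submodule.sub_starProjection_mem_orthogonal x)
  let T : Fin 2 → Fin 2 → (H →L[ℂ] H) := fun i j =>
    (PiLp.proj 2 (fun _ : Fin 2 => H) i).comp (P.comp (sing (Fin 2) j))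
  have hT : ∀ i j h, T i j h = P (sing (Fin 2) j h) i := fun i j h => rfl
  have hTmem : ∀ i j, T i j ∈ A := by
    intro i j
    rw [mem_iff_commutes]
    intro b hb
    ext h
    change b (P (sing (Fin 2) j h) i) = P (sing (Fin 2) j (b h)) i
    rw [← diag_sing, hcomm b hb]
    rfl
  have hsing : ∀ i (h : H) (x : PiLp 2 (fun _ : Fin 2 => H)),
      ⟪sing (Fin 2) i h, x⟫_ℂ = ⟪h, x i⟫_ℂ := by
    intro i h x
    rw [PiLp.inner_apply, Finset.sum_eq_single i]
    · rw [sing_apply, if_pos rfl]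
    · intro j _ hj
      rw [sing_apply, if_neg hj, inner_zero_left]
    · intro h; exact absurd (Finset.mem_univ _) h
  have hsing' : ∀ i (h : H) (x : PiLp 2 (fun _ : Fin 2 => H)),
      ⟪x, sing (Fin 2) i h⟫_ℂ = ⟪x i, h⟫_ℂ := by
    intro i h x
    rw [← inner_conj_symm, hsing, inner_conj_symm]
  have hPsa : ∀ x y, ⟪P x, y⟫_ℂ = ⟪x, P y⟫_ℂ := fun x y => V.inner_starProjection_left_eq_right x y
  have hTstar : ∀ i j, star (T i j) = T j i := by
    intro i j
    ext v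
    refine ext_inner_left ℂ fun w => ?_
    rw [inner_star_right, hT, hT, ← hsing, ← hsing', hPsa]
  have hexp : ∀ x i, P x i = T i 0 (x 0) + T i 1 (x 1) := by
    intro x i
    conv_lhs => rw [sum_sing x]
    rw [map_sum, Fin.sum_univ_two]
    rfl
  have he0 : 0 ≤ T 0 0 := by
    rw [ContinuousLinearMap.nonneg_iff_isPositive, ContinuousLinearMap.isPositive_iff_complex]
    intro x
    have h1 : ⟪T 0 0 x, x⟫_ℂ = ((‖P (sing (Fin 2) 0 x)‖ ^ 2 : ℝ) : ℂ) := by
      have h2 : P (sing (Fin 2) 0 x) = P (P (sing (Fin 2) 0 x)) := by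
        have := Submodule.isIdempotentElem_starProjection V
        exact (congrArg (fun T : PiLp 2 (fun _ : Fin 2 => H) →L[ℂ] PiLp 2 (fun _ : Fin 2 => H) =>
          T (sing (Fin 2) 0 x)) this).symm
      rw [hT, ← hsing']
      conv_lhs => rw [h2, hPsa]
      rw [inner_self_eq_norm_sq_to_K]
      norm_cast
    rw [h1]
    have h3 : RCLike.re (((‖P (sing (Fin 2) 0 x)‖ ^ 2 : ℝ) : ℂ)) =
      ‖P (sing (Fin 2) 0 x)‖ ^ 2 := Complex.ofReal_re _
    rw [h3]
    exact ⟨rfl, by (clear * -; positivity)⟩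
  refine ⟨T 0 0, hTmem 0 0, T 1 0, hTmem 1 0, he0, ?_, ?_⟩
  · rw [hTstar]
    have h1 : WithLp.toLp 2 ![ξ, η] ∈ V :=
      Submodule.le_topologicalClosure _ ⟨1, one_mem _, rfl⟩
    have h2 : P (WithLp.toLp 2 ![ξ, η]) = WithLp.toLp 2 ![ξ, η] :=
      Submodule.starProjection_eq_self_iff.2 h1
    have h3 := hexp (WithLp.toLp 2 ![ξ, η]) 0
    rw [h2] at h3
    exact h3.symm
  · rw [hTstar]
    have h1 : (WithLp.toLp 2 ![-ζ, ξ] : PiLp 2 (fun _ : Fin 2 => H)) ∈ Vᗮ := by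
      rw [hV, Submodule.orthogonal_closure, Submodule.mem_orthogonal]
      rintro _ ⟨c, hc, rfl⟩
      rw [PiLp.inner_apply, Fin.sum_univ_two]
      change ⟪c ξ, -ζ⟫_ℂ + ⟪c η, ξ⟫_ℂ = 0
      have h2 := hb (star c) (star_mem hc)
      rw [star_star] at h2
      rw [inner_neg_right, ← inner_star_right c η ξ, ← inner_conj_symm η, h2, inner_conj_symm]
      ring
    have h2 : P (WithLp.toLp 2 ![-ζ, ξ]) = 0 := by
      refine (Submodule.eq_starProjection_of_mem_orthogonal (K := V) (Submodule.zero_mem _) ?_)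
      rw [sub_zero]
      exact h1
    have h3 := hexp (WithLp.toLp 2 ![-ζ, ξ]) 0
    rw [h2] at h3
    change (0 : H) = T 0 0 (-ζ) + T 0 1 ξ at h3
    rw [map_neg] at h3
    have h4 := congrArg (fun x => T 0 0 ζ + x) h3
    simp only [add_zero, add_neg_cancel_left] at h4
    exact h4.symm

end Pool.Agent.Helper72

end

end

section

section

open scoped InnerProductSpace Topology BoundedContinuousFunction

open ContinuousLinearMap Filter MeasureTheory

namespace Pool.Agent.Helper43.TTF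

open Pool.Agent.Helper23

variable {H : Type*} [NormedAddCommGroup H] [InnerProductSpace ℂ H] [CompleteSpace H]

lemma refl_FR : refl FR = 2 - FR := by
  ext ρ
  have h : (0 : ℝ) < 1 + Real.exp ρ := by positivity
  have h2 : 2 / (1 + Real.exp (-ρ)) = 2 - 2 / (1 + Real.exp ρ) := by
    rw [Real.exp_neg]
    have : (0 : ℝ) < Real.exp ρ := Real.exp_pos ρ
    field_simp
    ring
  have h3 : (2 : ℝ →ᵇ ℂ) ρ = 2 := rfl
  rw [refl_apply, FR_apply, BoundedContinuousFunction.sub_apply, FR_apply, h3, h2]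
  push_cast
  ring

end Pool.Agent.Helper43.TTF

end

section

open scoped InnerProductSpace

open ContinuousLinearMap Filter

namespace Pool.Agent.Helper23

variable {H : Type*} [NormedAddCommGroup H] [InnerProductSpace ℂ H] [CompleteSpace H]

variable {M N : VonNeumannAlgebra H} {ξ : H} {E : (H →L[ℂ] H) → (H →L[ℂ] H)}

/-- `φ(C C*) = ⟨C ξ, C' ξ⟩` -/
lemma Partner.inner_self {C C' : H →L[ℂ] H} (h : Partner N ξ C C') :
    ⟪C ξ, C' ξ⟫_ℂ = ((‖(star C) ξ‖ ^ 2 : ℝ) : ℂ) := by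
  have h1 := h.2.2 (star C) (star_mem h.1)
  rw [norm_sq_apply, star_star]
  rw [h1, inner_star_right]

end Pool.Agent.Helper23

end

section

set_option linter.unusedSectionVars false

open scoped InnerProductSpace Topology

open ContinuousLinearMap Filter

namespace Pool.Agent.Helper53.PG

open Pool.Agent.Helper23

universe u v

variable {H : Type u} [NormedAddCommGroup H] [InnerProductSpace ℂ H] [CompleteSpace H]

variable {M N : VonNeumannAlgebra H} {ξ : H} {E : (H →L[ℂ] H) → (H →L[ℂ] H)}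

lemma inner_real {c c' : H →L[ℂ] H} (h : Partner N ξ c c') :
    ⟪c ξ, (c' - c) ξ⟫_ℂ = ((‖(star c) ξ‖ ^ 2 - ‖c ξ‖ ^ 2 : ℝ) : ℂ) := by
  rw [sub_apply, inner_sub_right, h.inner_self, inner_self_eq_norm_sq_to_K]
  push_cast
  rfl

end Pool.Agent.Helper53.PG

end

end

section

section

open scoped InnerProductSpace Topology BoundedContinuousFunction

open ContinuousLinearMap Filter MeasureTheory

namespace Pool.Agent.Helper43.TTF

open Pool.Agent.Helper23

variable {H : Type*} [NormedAddCommGroup H] [InnerProductSpace ℂ H] [CompleteSpace H]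

section

variable {R : H →L[ℂ] H} {D : H →L[ℝ] H} {Ψ : (ℝ →ᵇ ℂ) →⋆ₐ[ℂ] (H →L[ℂ] H)}

lemma FC.psi_refl_FR (h : FC R D Ψ) : Ψ (refl FR) = (2 : ℂ) • (1 : H →L[ℂ] H) - R := by
  rw [refl_FR, map_sub, h.psi_FR, psi_two]

lemma FC.symm (h : FC R D Ψ) : FC ((2 : ℂ) • (1 : H →L[ℂ] H) - R) D (Ψ.comp refl) where
  psi_FR := h.psi_refl_FR
  psi_comm := by
    intro X hX G
    refine h.psi_comm X ?_ (refl G)
    have h1 : X * ((2 : ℂ) • (1 : H →L[ℂ] H)) = ((2 : ℂ) • (1 : H →L[ℂ] H)) * X := by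
      rw [mul_smul_comm, smul_mul_assoc, mul_one, one_mul]
    rw [mul_sub, sub_mul, h1] at hX
    exact sub_right_injective hX
  psi_D := by
    intro G G' hG v
    refine h.psi_D (refl G) (refl G') ?_ v
    intro ρ
    rw [refl_apply, refl_apply, hG]
  psi_cont := by
    intro G G₀ C hC hG v
    refine h.psi_cont (fun n => refl (G n)) (refl G₀) C (fun n => (refl_norm _).trans (hC n)) ?_ v
    intro L
    have h1 := hG L
    rw [Metric.tendstoUniformlyOn_iff] at h1 ⊢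
    intro ε hε
    filter_upwards [h1 ε hε] with n hn ρ hρ
    refine hn (-ρ) ?_
    rw [Set.mem_Icc] at hρ ⊢
    constructor <;> (clear * - hρ; linarith [hρ.1, hρ.2])

end

end Pool.Agent.Helper43.TTF

end

end

section

section

open scoped InnerProductSpace Topology

open ContinuousLinearMap Filter

namespace Pool.Agent.Helper23

universe u

variable {H : Type u} [NormedAddCommGroup H] [InnerProductSpace ℂ H] [CompleteSpace H]

variable {K : Type u} [NormedAddCommGroup K] [InnerProductSpace ℂ K] [CompleteSpace K]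

variable {A : VonNeumannAlgebra H} {P : Set (ℕ → H →L[ℂ] H)} {ξ : H} {ζ : K}
  {rep : (ℕ → H →L[ℂ] H) → (K →L[ℂ] K)}

lemma kap2_mem {B : H →L[ℂ] H} (hB : B ∈ A) (hs : star B = B) : kap2 B ∈ A := by
  rw [mem_iff_commutes]
  intro g hg
  have h1 : Commute g B := mem_iff_commutes.1 hB g hg
  have h2 : Commute g (1 + B * B) := (Commute.one_right g).add_right (h1.mul_right h1)
  obtain ⟨u, hu⟩ := kap_isUnit hs
  have h3 : Commute g (Ring.inverse (1 + B * B)) := by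
    rw [← hu, Ring.inverse_unit]
    rw [← hu] at h2
    exact h2.units_inv_right
  have h4 : Commute g (kap2 B) := (h1.mul_right h3).smul_right (2 : ℂ)
  exact h4

theorem SeqRep.kap (h : SeqRep A P ξ ζ rep) {x : ℕ → H →L[ℂ] H} (hx : x ∈ P)
    (hxs : ∀ n, star (x n) = x n) :
    (fun n => kap2 (x n)) ∈ P ∧ rep (fun n => kap2 (x n)) = kap2 (rep x) := by
  obtain ⟨C, hC⟩ := h.bdd x hx
  have hmem : (fun n => kap2 (x n)) ∈ P := by
    refine h.closed _ (fun n => kap2_mem (h.memA x hx n) (hxs n))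
      ⟨1, fun n => kap2_norm (hxs n)⟩ fun ε hε => ?_
    obtain ⟨p, hp⟩ := kap2_poly.{u} C (ε := ε / (‖ξ‖ + 1)) (by (clear * - hε; positivity))
    refine ⟨_, (h.aeval_mem hx p).1, Eventually.of_forall fun n => ?_⟩
    have h1 := hp H (x n) (hxs n) (hC n)
    have h2 : ε / (‖ξ‖ + 1) * ‖ξ‖ ≤ ε := by
      rw [div_mul_eq_mul_div, div_le_iff₀ (by (clear * -; positivity))]
      nlinarith [norm_nonneg ξ]
    refine ⟨?_, ?_⟩
    · rw [← sub_apply]
      exact (le_of_opNorm_le _ h1 _).trans h2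
    · rw [← sub_apply, ← star_sub]
      exact (le_of_opNorm_le _ (by rw [norm_star]; exact h1) _).trans h2
  refine ⟨hmem, ?_⟩
  have hs : star (rep x) = rep x := by
    rw [← (h.star_mem x hx).2]
    congr 1
    funext n
    exact hxs n
  rw [← sub_eq_zero, ← norm_le_zero_iff]
  refine le_of_forall_pos_le_add fun ε hε => ?_
  obtain ⟨p, hp⟩ := kap2_poly.{u} C (ε := ε / 2) (by (clear * - hε; positivity))
  have h1 := h.aeval_mem hx p
  have h2 := h.sub_mem hmem h1.1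
  have h3 : ‖rep (fun n => kap2 (x n)) - Polynomial.aeval (rep x) p‖ ≤ ε / 2 := by
    rw [← h1.2, ← h2.2]
    exact h.opNorm _ h2.1 _ fun n => hp H (x n) (hxs n) (hC n)
  have h4 := hp K (rep x) hs (h.opNorm x hx C hC)
  have e : rep (fun n => kap2 (x n)) - kap2 (rep x) =
      (rep (fun n => kap2 (x n)) - Polynomial.aeval (rep x) p) -
        (kap2 (rep x) - Polynomial.aeval (rep x) p) := by abel
  rw [e]
  refine (norm_sub_le _ _).trans ?_
  (clear * - h3 h4; linarith)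

end Pool.Agent.Helper23

end

end

section

section

open scoped InnerProductSpace Topology BoundedContinuousFunction

open ContinuousLinearMap Filter

namespace Pool.Agent.Helper23

universe u

variable {K : Type u} [NormedAddCommGroup K] [InnerProductSpace ℂ K] [CompleteSpace K]

section density

variable (A : StarSubalgebra ℂ (K →L[ℂ] K))

/-- Double commutant theorem: elements of the bicommutant are approximated on finitely many
vectors. -/
theorem exists_alg_near {ι : Type*} [Fintype ι] [DecidableEq ι] (η : ι → K) {c : K →L[ℂ] K}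
    (hc : c ∈ genVN (A : Set (K →L[ℂ] K))) {ε : ℝ} (hε : 0 < ε) :
    ∃ a ∈ A, ∀ i, ‖a (η i) - c (η i)‖ < ε := by
  set vec : PiLp 2 (fun _ : ι => K) := WithLp.toLp 2 η with hvec
  let L : (K →L[ℂ] K) →ₗ[ℂ] PiLp 2 (fun _ : ι => K) :=
    { toFun := fun a => diag ι a vec
      map_add' := by
        intro a b
        ext i
        rfl
      map_smul' := by
        intro c a
        ext i
        rfl }
  have hL : ∀ a, L a = diag ι a vec := fun a => rfl
  set V := (A.toSubalgebra.toSubmodule.map L).topologicalClosure with hV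
  set P := V.starProjection with hP
  -- invariance
  have hinv : ∀ b ∈ A, ∀ x ∈ V, diag ι b x ∈ V := by
    intro b hb x hx
    have h1 : ((A.toSubalgebra.toSubmodule.map L : Submodule ℂ _) :
        Set (PiLp 2 (fun _ : ι => K))) ⊆ (diag ι b) ⁻¹' (V : Set _) := by
      rintro _ ⟨a, ha, rfl⟩
      refine Submodule.le_topologicalClosure _ ⟨b * a, A.mul_mem hb ha, ?_⟩
      rw [hL, hL]
      ext i
      rfl
    exact closure_minimal h1 ((Submodule.isClosed_topologicalClosure _).preimage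
      (diag ι b).continuous) hx
  have hinv' : ∀ b ∈ A, ∀ x ∈ Vᗮ, diag ι b x ∈ Vᗮ := by
    intro b hb x hx
    rw [Submodule.mem_orthogonal] at hx ⊢
    intro u hu
    have := hx _ (hinv _ (star_mem hb) u hu)
    rw [inner_diag, star_star] at this
    exact this
  have hcomm : ∀ b ∈ A, ∀ x, P (diag ι b x) = diag ι b (P x) := by
    intro b hb x
    refine Submodule.eq_starProjection_of_mem_orthogonal (K := V) ?_ ?_
    · exact hinv b hb _ (Submodule.starProjection_apply_mem V x)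
    · rw [← map_sub]
      exact hinv' b hb _ (Submodule.sub_starProjection_mem_orthogonal x)
  -- entries
  let T : ι → ι → (K →L[ℂ] K) := fun i j =>
    (PiLp.proj 2 (fun _ : ι => K) i).comp (P.comp (sing ι j))
  have hTmem : ∀ i j, ∀ b ∈ A, b * T i j = T i j * b := by
    intro i j b hb
    ext h
    change b (P (sing ι j h) i) = P (sing ι j (b h)) i
    rw [← diag_sing, hcomm b hb]
    rfl
  have hcT : ∀ i j h, c (T i j h) = T i j (c h) := by
    intro i j h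
    have hcmem : c ∈ StarSubalgebra.centralizer ℂ
        ((StarSubalgebra.centralizer ℂ (A : Set (K →L[ℂ] K)) :
          StarSubalgebra ℂ (K →L[ℂ] K)) : Set (K →L[ℂ] K)) := hc
    have hTc : T i j ∈ StarSubalgebra.centralizer ℂ (A : Set (K →L[ℂ] K)) := by
      rw [StarSubalgebra.mem_centralizer_iff]
      intro b hb
      exact ⟨hTmem i j b hb, hTmem i j (star b) (star_mem hb)⟩
    rw [StarSubalgebra.mem_centralizer_iff] at hcmem
    have h3 := (hcmem _ hTc).1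
    exact (congrArg (fun X : K →L[ℂ] K => X h) h3).symm
  have hcommc : ∀ x, P (diag ι c x) = diag ι c (P x) := by
    intro x
    have hx := sum_sing x
    have h1 : diag ι c x = ∑ j, sing ι j (c (x j)) := by
      conv_lhs => rw [hx]
      rw [map_sum]
      exact Finset.sum_congr rfl fun j _ => diag_sing _ _ _
    have h2 : P (diag ι c x) = ∑ j, P (sing ι j (c (x j))) := by rw [h1, map_sum]
    have h3 : P x = ∑ j, P (sing ι j (x j)) := by
      conv_lhs => rw [hx]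
      rw [map_sum]
    rw [h2, h3, map_sum]
    refine Finset.sum_congr rfl fun j _ => ?_
    ext i
    rw [diag_apply]
    change T i j (c (x j)) = c (T i j (x j))
    exact (hcT i j _).symm
  have hvecV : vec ∈ V := by
    refine Submodule.le_topologicalClosure _ ⟨1, A.one_mem, ?_⟩
    rw [hL]
    ext i
    rfl
  have hcvec : diag ι c vec ∈ V := by
    have h1 : P vec = vec := Submodule.starProjection_eq_self_iff.2 hvecV
    rw [← h1, ← hcommc]
    exact Submodule.starProjection_apply_mem V _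
  have hcl : diag ι c vec ∈ closure ((A.toSubalgebra.toSubmodule.map L : Submodule ℂ _) :
      Set (PiLp 2 (fun _ : ι => K))) := hcvec
  obtain ⟨_, ⟨a, ha, rfl⟩, hdist⟩ := Metric.mem_closure_iff.1 hcl ε hε
  refine ⟨a, ha, fun i => ?_⟩
  rw [dist_eq_norm] at hdist
  have h4 : ‖(diag ι c vec - L a) i‖ ≤ ‖diag ι c vec - L a‖ := PiLp.norm_apply_le _ i
  have h5 : (diag ι c vec - L a) i = c (η i) - a (η i) := rfl
  rw [h5, norm_sub_rev] at h4
  exact lt_of_le_of_lt h4 hdist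

variable {A}

/-- a pair of vector functionals vanishing on the algebra vanishes on the bicommutant -/
lemma functional_zero {v₁ v₂ y₁ y₂ : K}
    (h : ∀ X ∈ A, ⟪y₁, X v₁⟫_ℂ + ⟪y₂, X v₂⟫_ℂ + (⟪v₁, X y₁⟫_ℂ + ⟪v₂, X y₂⟫_ℂ) = 0)
    {c : K →L[ℂ] K} (hc : c ∈ genVN (A : Set (K →L[ℂ] K))) :
    ⟪y₁, c v₁⟫_ℂ + ⟪y₂, c v₂⟫_ℂ + (⟪v₁, c y₁⟫_ℂ + ⟪v₂, c y₂⟫_ℂ) = 0 := by
  set D := ⟪y₁, c v₁⟫_ℂ + ⟪y₂, c v₂⟫_ℂ + (⟪v₁, c y₁⟫_ℂ + ⟪v₂, c y₂⟫_ℂ) with hD
  set M := ‖y₁‖ + ‖y₂‖ + (‖v₁‖ + ‖v₂‖) with hM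
  have hM0 : 0 ≤ M := by (clear * -; positivity)
  have hle : ∀ ε : ℝ, 0 < ε → ‖D‖ ≤ M * ε := by
    intro ε hε
    obtain ⟨a, ha, hn⟩ := exists_alg_near A (ι := Fin 4) ![v₁, v₂, y₁, y₂] hc hε
    have n0 : ‖c v₁ - a v₁‖ ≤ ε := by rw [norm_sub_rev]; exact (hn 0).le
    have n1 : ‖c v₂ - a v₂‖ ≤ ε := by rw [norm_sub_rev]; exact (hn 1).le
    have n2 : ‖c y₁ - a y₁‖ ≤ ε := by rw [norm_sub_rev]; exact (hn 2).le
    have n3 : ‖c y₂ - a y₂‖ ≤ ε := by rw [norm_sub_rev]; exact (hn 3).le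
    have hDa : D = ⟪y₁, c v₁ - a v₁⟫_ℂ + ⟪y₂, c v₂ - a v₂⟫_ℂ +
        (⟪v₁, c y₁ - a y₁⟫_ℂ + ⟪v₂, c y₂ - a y₂⟫_ℂ) := by
      simp only [inner_sub_right]
      have := h a ha
      rw [hD]
      linear_combination this
    rw [hDa]
    have b0 := (norm_inner_le_norm (𝕜 := ℂ) y₁ (c v₁ - a v₁)).trans
      (mul_le_mul_of_nonneg_left n0 (norm_nonneg _))
    have b1 := (norm_inner_le_norm (𝕜 := ℂ) y₂ (c v₂ - a v₂)).trans
      (mul_le_mul_of_nonneg_left n1 (norm_nonneg _))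
    have b2 := (norm_inner_le_norm (𝕜 := ℂ) v₁ (c y₁ - a y₁)).trans
      (mul_le_mul_of_nonneg_left n2 (norm_nonneg _))
    have b3 := (norm_inner_le_norm (𝕜 := ℂ) v₂ (c y₂ - a y₂)).trans
      (mul_le_mul_of_nonneg_left n3 (norm_nonneg _))
    refine (norm_add_le _ _).trans ?_
    have c0 := norm_add_le ⟪y₁, c v₁ - a v₁⟫_ℂ ⟪y₂, c v₂ - a v₂⟫_ℂ
    have c1 := norm_add_le ⟪v₁, c y₁ - a y₁⟫_ℂ ⟪v₂, c y₂ - a y₂⟫_ℂ
    rw [hM]
    (clear * - b0 b1 b2 b3 c0 c1; nlinarith)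
  by_contra hne
  have hpos : 0 < ‖D‖ := norm_pos_iff.2 hne
  have h1 := hle (‖D‖ / (2 * (M + 1))) (by (clear * - hne; positivity))
  have h2 : M * (‖D‖ / (2 * (M + 1))) < ‖D‖ := by
    rw [mul_div_assoc', div_lt_iff₀ (by (clear * -; positivity))]
    (clear * - hpos hM0; nlinarith)
  (clear * - h1 h2; linarith)

/-- self-adjoint elements of the bicommutant are approximated by self-adjoint elements of the
algebra, on two vectors -/
theorem exists_sa_near {S : K →L[ℂ] K} (hS : star S = S)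
    (hSA : S ∈ genVN (A : Set (K →L[ℂ] K))) (v₁ v₂ : K) {ε : ℝ} (hε : 0 < ε) :
    ∃ B ∈ A, star B = B ∧ ‖(B - S) v₁‖ < ε ∧ ‖(B - S) v₂‖ < ε := by
  set vec : PiLp 2 (fun _ : Fin 2 => K) := WithLp.toLp 2 ![v₁, v₂] with hvec
  let iR : InnerProductSpace ℝ (PiLp 2 (fun _ : Fin 2 => K)) :=
    InnerProductSpace.rclikeToReal ℂ (PiLp 2 (fun _ : Fin 2 => K))
  have hre : ∀ x y : PiLp 2 (fun _ : Fin 2 => K),
      iR.toInner.inner x y = (⟪x 0, y 0⟫_ℂ + ⟪x 1, y 1⟫_ℂ).re := by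
    intro x y
    have h1 : iR.toInner.inner x y = (⟪x, y⟫_ℂ).re := rfl
    rw [h1, PiLp.inner_apply, Fin.sum_univ_two]
  let V : Submodule ℝ (PiLp 2 (fun _ : Fin 2 => K)) :=
    { carrier := {x | ∃ B ∈ A, star B = B ∧ diag (Fin 2) B vec = x}
      add_mem' := by
        rintro _ _ ⟨B, hB, hB', rfl⟩ ⟨C, hC, hC', rfl⟩
        refine ⟨B + C, A.add_mem hB hC, by rw [star_add, hB', hC'], ?_⟩
        ext i; rfl
      zero_mem' := by
        refine ⟨0, A.zero_mem, star_zero _, ?_⟩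
        ext i; rfl
      smul_mem' := by
        rintro c _ ⟨B, hB, hB', rfl⟩
        refine ⟨(c : ℂ) • B, A.smul_mem hB _, ?_, ?_⟩
        · rw [star_smul, hB']; simp
        · ext i; rfl }
  have horth : ∀ y ∈ Vᗮ, iR.toInner.inner (diag (Fin 2) S vec) y = 0 := by
    intro y hy
    set y₁ : K := y 0 with hy₁
    set y₂ : K := y 1 with hy₂
    have hfun : ∀ B : K →L[ℂ] K, iR.toInner.inner (diag (Fin 2) B vec) y =
        (⟪B v₁, y₁⟫_ℂ + ⟪B v₂, y₂⟫_ℂ).re := fun B => hre _ _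
    have hre2 : ∀ B : K →L[ℂ] K, star B = B →
        ⟪y₁, B v₁⟫_ℂ + ⟪y₂, B v₂⟫_ℂ + (⟪v₁, B y₁⟫_ℂ + ⟪v₂, B y₂⟫_ℂ) =
          ((2 * (⟪B v₁, y₁⟫_ℂ + ⟪B v₂, y₂⟫_ℂ).re : ℝ) : ℂ) := by
      intro B hB
      rw [← kap_sa hB v₁ y₁, ← kap_sa hB v₂ y₂]
      have e1 := inner_conj_symm (𝕜 := ℂ) y₁ (B v₁)
      have e2 := inner_conj_symm (𝕜 := ℂ) y₂ (B v₂)
      rw [← e1, ← e2]
      have e3 := Complex.add_conj (⟪B v₁, y₁⟫_ℂ + ⟪B v₂, y₂⟫_ℂ)
      rw [map_add] at e3
      rw [← e3]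
      ring
    have hsa : ∀ B ∈ A, star B = B →
        ⟪y₁, B v₁⟫_ℂ + ⟪y₂, B v₂⟫_ℂ + (⟪v₁, B y₁⟫_ℂ + ⟪v₂, B y₂⟫_ℂ) = 0 := by
      intro B hB hB'
      have h1 : iR.toInner.inner (diag (Fin 2) B vec) y = 0 :=
        (Submodule.mem_orthogonal V y).1 hy _ ⟨B, hB, hB', rfl⟩
      rw [hre2 B hB', ← hfun, h1]
      simp
    have hall : ∀ X ∈ A,
        ⟪y₁, X v₁⟫_ℂ + ⟪y₂, X v₂⟫_ℂ + (⟪v₁, X y₁⟫_ℂ + ⟪v₂, X y₂⟫_ℂ) = 0 := by
      intro X hX
      set B : K →L[ℂ] K := X + star X with hBdef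
      set C : K →L[ℂ] K := Complex.I • (star X - X) with hCdef
      have hX' : star X ∈ A := star_mem hX
      have hB := hsa B (add_mem hX hX') (by rw [hBdef, star_add, star_star, add_comm])
      have hC := hsa C (A.smul_mem (sub_mem hX' hX) _) (by
        rw [hCdef, star_smul, star_sub, star_star, ← neg_sub (star X) X, smul_neg, ← neg_smul]
        congr 1
        simp)
      have hXe : ∀ w, X w = (1 / 2 : ℂ) • B w + (Complex.I / 2) • C w := by
        intro w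
        change X w = (1 / 2 : ℂ) • (X w + star X w) +
          (Complex.I / 2) • (Complex.I • (star X w - X w))
        rw [smul_smul]
        have : Complex.I / 2 * Complex.I = -(1 / 2 : ℂ) := by
          rw [div_mul_eq_mul_div, Complex.I_mul_I]; norm_num
        rw [this]
        module
      simp only [hXe, inner_add_right, inner_smul_right]
      linear_combination (1 / 2 : ℂ) * hB + (Complex.I / 2) * hC
    have hSz := functional_zero hall hSA
    rw [hre2 S hS, ← hfun] at hSz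
    have h4 := Complex.ofReal_eq_zero.1 hSz
    linarith
  have hmem : diag (Fin 2) S vec ∈ V.topologicalClosure := by
    rw [← Submodule.orthogonal_orthogonal_eq_closure, Submodule.mem_orthogonal]
    intro y hy
    rw [real_inner_comm]
    exact horth y hy
  have hcl : diag (Fin 2) S vec ∈ closure (V : Set (PiLp 2 (fun _ : Fin 2 => K))) := hmem
  obtain ⟨_, ⟨B, hB, hB', rfl⟩, hdist⟩ := Metric.mem_closure_iff.1 hcl ε hε
  rw [dist_eq_norm, norm_sub_rev] at hdist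
  have hi : ∀ i : Fin 2, ‖(diag (Fin 2) B vec - diag (Fin 2) S vec) i‖ < ε := fun i =>
    lt_of_le_of_lt (PiLp.norm_apply_le _ i) hdist
  exact ⟨B, hB, hB', hi 0, hi 1⟩

end density

/-- approximation of self-adjoint contractions in the bicommutant -/
theorem kaplansky (A : StarSubalgebra ℂ (K →L[ℂ] K)) {T : K →L[ℂ] K} (hT : star T = T)
    (hT1 : ‖T‖ ≤ 1) (hTA : T ∈ genVN (A : Set (K →L[ℂ] K))) (v : K) {ε : ℝ} (hε : 0 < ε) :
    ∃ B ∈ A, star B = B ∧ ‖kap2 B v - T v‖ < ε := by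
  have hTsa : IsSelfAdjoint T := hT
  set S := cfc kapg T with hSdef
  have hS : star S = S := cfc_predicate kapg T
  have hST : (2 : ℂ) • S = T * (1 + S * S) := by
    have e1 : (2 : ℂ) • S = cfc (fun s => 2 * kapg s) T := by
      rw [cfc_const_mul (2 : ℝ) kapg T kapg_cont.continuousOn]
      exact (two_smul ℂ S).trans (two_smul ℝ S).symm
    have e2 : T * (1 + S * S) = cfc (fun s => s * (1 + kapg s ^ 2)) T := by
      have c1 : ContinuousOn (fun s => 1 + kapg s ^ 2) (spectrum ℝ T) :=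
        (continuous_const.add (kapg_cont.pow 2)).continuousOn
      have c2 : ContinuousOn (fun s => kapg s ^ 2) (spectrum ℝ T) :=
        (kapg_cont.pow 2).continuousOn
      rw [cfc_mul (fun s => s) (fun s => 1 + kapg s ^ 2) T continuousOn_id c1, cfc_id' ℝ T,
        cfc_add T (fun _ => (1 : ℝ)) (fun s => kapg s ^ 2) continuousOn_const c2,
        cfc_const_one ℝ T, cfc_pow kapg 2 T kapg_cont.continuousOn, pow_two]
    rw [e1, e2]
    exact cfc_congr fun s hs => kapg_spec (spec_abs_le hT1 hs)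
  have hkS : kap2 S = T := by
    have h1 := Ring.mul_inverse_cancel _ (kap_isUnit hS)
    calc kap2 S = ((2 : ℂ) • S) * Ring.inverse (1 + S * S) := by
          rw [kap2, smul_mul_assoc]
      _ = T := by rw [hST, mul_assoc, h1, mul_one]
  have hSA : S ∈ genVN (A : Set (K →L[ℂ] K)) := by
    have hTm : T ∈ StarSubalgebra.centralizer ℂ
        ((StarSubalgebra.centralizer ℂ (A : Set (K →L[ℂ] K)) :
          StarSubalgebra ℂ (K →L[ℂ] K)) : Set (K →L[ℂ] K)) := hTA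
    rw [StarSubalgebra.mem_centralizer_iff] at hTm
    change S ∈ StarSubalgebra.centralizer ℂ
        ((StarSubalgebra.centralizer ℂ (A : Set (K →L[ℂ] K)) :
          StarSubalgebra ℂ (K →L[ℂ] K)) : Set (K →L[ℂ] K))
    rw [StarSubalgebra.mem_centralizer_iff]
    intro c hc
    have h1 : Commute T c := (hTm c hc).1.symm
    have h2 : Commute T (star c) := (hTm c hc).2.symm
    exact ⟨(h1.cfc_real kapg).symm, (h2.cfc_real kapg).symm⟩
  obtain ⟨B, hB, hB', h1, h2⟩ := exists_sa_near (A := A) hS hSA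
    (Ring.inverse (1 + S * S) v) (kap2 S v) (ε := ε / 4) (by (clear * - hε; positivity))
  refine ⟨B, hB, hB', ?_⟩
  have h3 := kap2_diff hB' hS v
  rw [hkS] at h3
  rw [hkS] at h2
  linarith

end Pool.Agent.Helper23

end

section

open scoped InnerProductSpace Topology

open ContinuousLinearMap Filter

namespace Pool.Agent.Helper23

universe u

variable {H : Type u} [NormedAddCommGroup H] [InnerProductSpace ℂ H] [CompleteSpace H]

variable {K : Type u} [NormedAddCommGroup K] [InnerProductSpace ℂ K] [CompleteSpace K]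

variable {A : VonNeumannAlgebra H} {P : Set (ℕ → H →L[ℂ] H)} {ξ : H} {ζ : K}
  {rep : (ℕ → H →L[ℂ] H) → (K →L[ℂ] K)}

theorem SeqRep.surj_sa (h : SeqRep A P ξ ζ rep)
    (hsep : ∀ T ∈ genVN (rep '' P), T ζ = 0 → T = 0)
    {T : K →L[ℂ] K} (hT : T ∈ genVN (rep '' P)) (hTs : star T = T) (hT1 : ‖T‖ ≤ 1) :
    ∃ x ∈ P, (∀ n, ‖x n‖ ≤ 1) ∧ rep x = T := by
  have hk : ∀ k : ℕ, ∃ x ∈ P, (∀ n, star (x n) = x n) ∧ (∀ n, ‖x n‖ ≤ 1) ∧
      ‖rep x ζ - T ζ‖ < (1 / 2 : ℝ) ^ k := by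
    intro k
    obtain ⟨B, hBm, hBs, hB⟩ := kaplansky h.alg hTs hT1 hT ζ (ε := (1 / 2 : ℝ) ^ k)
      (by positivity)
    obtain ⟨b, hb, rfl⟩ : B ∈ rep '' P := hBm
    have h1 := h.add b hb _ (h.star_mem b hb).1
    have h2 := h.smul (1 / 2 : ℂ) _ h1.1
    rw [h1.2, (h.star_mem b hb).2, hBs, ← two_smul ℂ (rep b), smul_smul] at h2
    have e : (1 / 2 : ℂ) * 2 = 1 := by norm_num
    rw [e, one_smul] at h2
    have hs : ∀ n, star ((1 / 2 : ℂ) • (b n + star (b n))) = (1 / 2 : ℂ) • (b n + star (b n)) := by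
      intro n
      rw [star_smul, star_add, star_star, add_comm (star (b n))]
      congr 1
      simp
    have h3 := h.kap h2.1 hs
    rw [h2.2] at h3
    refine ⟨_, h3.1, fun n => kap2_star (hs n), fun n => kap2_norm (hs n), ?_⟩
    rw [h3.2]
    exact hB
  choose x hxP hxs hx1 hxT using hk
  have hd : ∀ k, ∀ᶠ n in (UU : Filter ℕ), ‖(x k n - x (k + 1) n) ξ‖ < 2 * (1 / 2 : ℝ) ^ k := by
    intro k
    have h1 := h.sub_mem (hxP k) (hxP (k + 1))
    have h2 := h.norm _ h1.1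
    rw [h1.2] at h2
    refine h2.eventually_lt_const ?_
    have e : (rep (x k) - rep (x (k + 1))) ζ = (rep (x k) ζ - T ζ) - (rep (x (k + 1)) ζ - T ζ) := by
      rw [sub_apply]; abel
    rw [e]
    refine (norm_sub_le _ _).trans_lt ?_
    have h3 := hxT k
    have h4 := hxT (k + 1)
    rw [pow_succ] at h4
    have : 0 < (1 / 2 : ℝ) ^ k := by (clear * -; positivity)
    linarith
  let Q : ℕ → ℕ → Prop := fun n k => k ≤ n ∧
    ∀ j < k, ‖(x j n - x (j + 1) n) ξ‖ < 2 * (1 / 2 : ℝ) ^ j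
  have hQ0 : ∀ n, Q n 0 := fun n => ⟨Nat.zero_le _, fun j hj => absurd hj (Nat.not_lt_zero _)⟩
  have hQU : ∀ k, ∀ᶠ n in (UU : Filter ℕ), Q n k := by
    intro k
    have h1 : ∀ᶠ n in (UU : Filter ℕ), k ≤ n := by
      have h2 : (UU : Filter ℕ) ≤ atTop := by
        rw [← Nat.cofinite_eq_atTop]
        exact Filter.hyperfilter_le_cofinite
      exact h2 (eventually_ge_atTop k)
    have h3 : ∀ᶠ n in (UU : Filter ℕ), ∀ j ∈ Finset.range k,
        ‖(x j n - x (j + 1) n) ξ‖ < 2 * (1 / 2 : ℝ) ^ j :=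
      (Filter.eventually_all_finset _).2 fun j _ => hd j
    filter_upwards [h1, h3] with n hn1 hn3
    exact ⟨hn1, fun j hj => hn3 j (Finset.mem_range.2 hj)⟩
  classical
  let κ : ℕ → ℕ := fun n => Nat.findGreatest (Q n) n
  have hκ : ∀ n, Q n (κ n) := fun n => Nat.findGreatest_spec (Nat.zero_le n) (hQ0 n)
  have hκ2 : ∀ n k, Q n k → k ≤ κ n := fun n k hk => Nat.le_findGreatest hk.1 hk
  have htel : ∀ n k m, k ≤ m → (∀ j < m, ‖(x j n - x (j + 1) n) ξ‖ < 2 * (1 / 2 : ℝ) ^ j) →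
      ‖(x m n - x k n) ξ‖ ≤ 4 * (1 / 2 : ℝ) ^ k - 4 * (1 / 2 : ℝ) ^ m := by
    intro n k m hkm
    induction m, hkm using Nat.le_induction with
    | base => intro _; simp
    | succ m hm ih =>
      intro hj
      have h1 := ih fun j hj' => hj j (by omega)
      have h2 := hj m (by omega)
      have e : (x (m + 1) n - x k n) ξ = (x m n - x k n) ξ - (x m n - x (m + 1) n) ξ := by
        simp only [sub_apply]; abel
      rw [e]
      refine (norm_sub_le _ _).trans ?_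
      rw [pow_succ]
      (clear * - h1 h2; linarith)
  let y : ℕ → H →L[ℂ] H := fun n => x (κ n) n
  have hy1 : ∀ n, ‖y n‖ ≤ 1 := fun n => hx1 _ n
  have hys : ∀ n, star (y n) = y n := fun n => hxs _ n
  have happ : ∀ k, ∀ᶠ n in (UU : Filter ℕ), ‖(y n - x k n) ξ‖ ≤ 4 * (1 / 2 : ℝ) ^ k := by
    intro k
    filter_upwards [hQU k] with n hn
    have h1 := htel n k (κ n) (hκ2 n k hn) (hκ n).2
    have : 0 < (1 / 2 : ℝ) ^ (κ n) := by positivity
    linarith
  have hyP : y ∈ P := by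
    refine h.closed y (fun n => h.memA _ (hxP _) n) ⟨1, hy1⟩ fun ε hε => ?_
    obtain ⟨k, hk⟩ := exists_pow_lt_of_lt_one (show 0 < ε / 4 by (clear * - hε; positivity))
      (show (1 / 2 : ℝ) < 1 by norm_num)
    refine ⟨x k, hxP k, ?_⟩
    filter_upwards [happ k] with n hn
    rw [hys n, hxs k n, ← sub_apply]
    have : 4 * (1 / 2 : ℝ) ^ k ≤ ε := by (clear * - hk; linarith)
    exact ⟨hn.trans this, hn.trans this⟩
  refine ⟨y, hyP, hy1, ?_⟩
  have hζ : rep y ζ = T ζ := by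
    rw [← sub_eq_zero, ← norm_le_zero_iff]
    refine le_of_forall_pos_le_add fun ε hε => ?_
    obtain ⟨k, hk⟩ := exists_pow_lt_of_lt_one (show 0 < ε / 5 by (clear * - hε; positivity))
      (show (1 / 2 : ℝ) < 1 by norm_num)
    have h1 := h.sub_mem hyP (hxP k)
    have h2 := h.norm _ h1.1
    have h3 : ‖rep (fun n => y n - x k n) ζ‖ ≤ 4 * (1 / 2 : ℝ) ^ k :=
      le_of_tendsto h2 (happ k)
    rw [h1.2] at h3
    have e : rep y ζ - T ζ = (rep y - rep (x k)) ζ + (rep (x k) ζ - T ζ) := by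
      rw [sub_apply]; abel
    rw [e]
    refine (norm_add_le _ _).trans ?_
    have := hxT k
    (clear * - hk h3 this; linarith)
  have h5 : rep y - T ∈ genVN (rep '' P) := _root_.sub_mem (subset_genVN _ ⟨y, hyP, rfl⟩) hT
  have h6 := hsep _ h5 (by rw [sub_apply, hζ, sub_self])
  exact sub_eq_zero.1 h6

theorem SeqRep.surj (h : SeqRep A P ξ ζ rep)
    (hsep : ∀ T ∈ genVN (rep '' P), T ζ = 0 → T = 0)
    {T : K →L[ℂ] K} (hT : T ∈ genVN (rep '' P)) :
    ∃ x ∈ P, (∀ n, ‖x n‖ ≤ 2 * ‖T‖) ∧ rep x = T := by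
  by_cases h0 : ‖T‖ = 0
  · have h1 := h.smul 0 _ h.one.1
    refine ⟨_, h1.1, fun n => ?_, ?_⟩
    · rw [h0, zero_smul, norm_zero, mul_zero]
    · rw [h1.2, zero_smul]
      exact (norm_eq_zero.1 h0).symm
  have hpos : 0 < ‖T‖ := lt_of_le_of_ne (norm_nonneg _) (Ne.symm h0)
  have hTst : star T ∈ genVN (rep '' P) := StarMemClass.star_mem hT
  let T1 : K →L[ℂ] K := ((1 / (2 * ‖T‖) : ℝ) : ℂ) • (T + star T)
  let T2 : K →L[ℂ] K := (-Complex.I * ((1 / (2 * ‖T‖) : ℝ) : ℂ)) • (T - star T)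
  have hT1m : T1 ∈ genVN (rep '' P) := smul_mem' _ (add_mem hT hTst)
  have hT2m : T2 ∈ genVN (rep '' P) := smul_mem' _ (_root_.sub_mem hT hTst)
  have hT1s : star T1 = T1 := by
    change star (((1 / (2 * ‖T‖) : ℝ) : ℂ) • (T + star T)) = _
    rw [star_smul, star_add, star_star, add_comm (star T)]
    congr 1
    exact Complex.conj_ofReal _
  have hT2s : star T2 = T2 := by
    change star ((-Complex.I * ((1 / (2 * ‖T‖) : ℝ) : ℂ)) • (T - star T)) = _
    rw [star_smul, star_sub, star_star, ← neg_sub T (star T), smul_neg, ← neg_smul]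
    congr 1
    have e : star (-Complex.I * ((1 / (2 * ‖T‖) : ℝ) : ℂ)) =
        Complex.I * ((1 / (2 * ‖T‖) : ℝ) : ℂ) := by
      rw [star_mul, star_neg]
      change (starRingEnd ℂ) _ * -(starRingEnd ℂ) Complex.I = _
      rw [Complex.conj_ofReal, Complex.conj_I]
      ring
    rw [e]
    ring
  have hn1 : ‖T1‖ ≤ 1 := by
    change ‖((1 / (2 * ‖T‖) : ℝ) : ℂ) • (T + star T)‖ ≤ 1
    rw [norm_smul, Complex.norm_real, Real.norm_of_nonneg (by (clear * - h0; positivity))]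
    have : ‖T + star T‖ ≤ 2 * ‖T‖ := by
      refine (norm_add_le _ _).trans ?_
      rw [norm_star]; (clear * -; linarith)
    rw [one_div_mul_eq_div, div_le_one (by (clear * - h0; positivity))]
    exact this
  have hn2 : ‖T2‖ ≤ 1 := by
    change ‖(-Complex.I * ((1 / (2 * ‖T‖) : ℝ) : ℂ)) • (T - star T)‖ ≤ 1
    rw [norm_smul, norm_mul, norm_neg, Complex.norm_I, one_mul, Complex.norm_real,
      Real.norm_of_nonneg (by (clear * - h0; positivity))]
    have : ‖T - star T‖ ≤ 2 * ‖T‖ := by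
      refine (norm_sub_le _ _).trans ?_
      rw [norm_star]; (clear * -; linarith)
    rw [one_div_mul_eq_div, div_le_one (by (clear * - h0; positivity))]
    exact this
  obtain ⟨x1, hx1, hb1, hr1⟩ := h.surj_sa hsep hT1m hT1s hn1
  obtain ⟨x2, hx2, hb2, hr2⟩ := h.surj_sa hsep hT2m hT2s hn2
  have h1 := h.smul ((‖T‖ : ℝ) : ℂ) x1 hx1
  have h2 := h.smul (Complex.I * ((‖T‖ : ℝ) : ℂ)) x2 hx2
  have h3 := h.add _ h1.1 _ h2.1
  refine ⟨_, h3.1, fun n => ?_, ?_⟩
  · refine (norm_add_le _ _).trans ?_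
    rw [norm_smul, norm_smul, norm_mul, Complex.norm_I, one_mul, Complex.norm_real, norm_norm]
    have := hb1 n
    have := hb2 n
    nlinarith
  · rw [h3.2, h1.2, h2.2, hr1, hr2]
    change ((‖T‖ : ℝ) : ℂ) • (((1 / (2 * ‖T‖) : ℝ) : ℂ) • (T + star T)) +
      (Complex.I * ((‖T‖ : ℝ) : ℂ)) • ((-Complex.I * ((1 / (2 * ‖T‖) : ℝ) : ℂ)) • (T - star T)) = T
    rw [smul_smul, smul_smul]
    have hne : ((‖T‖ : ℝ) : ℂ) ≠ 0 := by exact_mod_cast h0
    have e1 : ((‖T‖ : ℝ) : ℂ) * ((1 / (2 * ‖T‖) : ℝ) : ℂ) = 1 / 2 := by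
      push_cast
      field_simp
    have e2 : (Complex.I * ((‖T‖ : ℝ) : ℂ)) * (-Complex.I * ((1 / (2 * ‖T‖) : ℝ) : ℂ)) = 1 / 2 := by
      have : (Complex.I * ((‖T‖ : ℝ) : ℂ)) * (-Complex.I * ((1 / (2 * ‖T‖) : ℝ) : ℂ)) =
          -(Complex.I * Complex.I) * (((‖T‖ : ℝ) : ℂ) * ((1 / (2 * ‖T‖) : ℝ) : ℂ)) := by ring
      rw [this, e1, Complex.I_mul_I]
      norm_num
    rw [e1, e2, ← smul_add]
    have e3 : T + star T + (T - star T) = (2 : ℂ) • T := by
      rw [two_smul]; abel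
    rw [e3, smul_smul]
    norm_num

end Pool.Agent.Helper23

end

end
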