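import Pool.Agent.Helper23.FB.L00_a1
import Pool.Agent.Helper23.FB.L00_a11
import Pool.Agent.Helper23.FB.L00_a13
import Pool.Agent.Helper23.FB.L00_a2
import Pool.Agent.Helper23.FB.L00_a3
import Pool.Agent.Helper23.FB.L00_a4
import Pool.Agent.Helper23.FB.L00_a9

/-!
Parts of Helper23.FA.L00_02, Helper23.FA.L01_13, Helper23.FA.L01_16, Helper23.FA.L01_18, Helper23.FA.L01_10, Helper23.FA.L02_04, Helper23.FA.L02_11
-/

attribute [local instance 5000]
  Pool.Agent.Helper23.FB.Inst.rCharZero Pool.Agent.Helper23.FB.Inst.rALM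
  Pool.Agent.Helper23.FB.Inst.rARM Pool.Agent.Helper23.FB.Inst.rALSM
  Pool.Agent.Helper23.FB.Inst.rARSM Pool.Agent.Helper23.FB.Inst.rARRLE
  Pool.Agent.Helper23.FB.Inst.rALRLE Pool.Agent.Helper23.FB.Inst.rARRLT
  Pool.Agent.Helper23.FB.Inst.rALRLT Pool.Agent.Helper23.FB.Inst.rPMRLT
  Pool.Agent.Helper23.FB.Inst.rMPRLT Pool.Agent.Helper23.FB.Inst.rPMM
  Pool.Agent.Helper23.FB.Inst.rMPM Pool.Agent.Helper23.FB.Inst.rPMSM
  Pool.Agent.Helper23.FB.Inst.rMPSM Pool.Agent.Helper23.FB.Inst.rEAOL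
  Pool.Agent.Helper23.FB.Inst.rIOR Pool.Agent.Helper23.FB.Inst.rISOR
  Pool.Agent.Helper23.FB.Inst.rFS Pool.Agent.Helper23.FB.Inst.rcCharZero
  Pool.Agent.Helper23.FB.Inst.rNZD Pool.Agent.Helper23.FB.Inst.rcNZD
  Pool.Agent.Helper23.FB.Inst.bSemiring Pool.Agent.Helper23.FB.Inst.bStar
  Pool.Agent.Helper23.FB.Inst.bAlg Pool.Agent.Helper23.FB.Inst.bSub
  Pool.Agent.Helper23.FB.Inst.bMul Pool.Agent.Helper23.FB.Inst.bAdd
  Pool.Agent.Helper23.FB.Inst.iRing Pool.Agent.Helper23.FB.Inst.iSemiring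
  Pool.Agent.Helper23.FB.Inst.iAlgC Pool.Agent.Helper23.FB.Inst.iSMulC
  Pool.Agent.Helper23.FB.Inst.iModC Pool.Agent.Helper23.FB.Inst.iAlgR
  Pool.Agent.Helper23.FB.Inst.iSMulR Pool.Agent.Helper23.FB.Inst.iModR
  Pool.Agent.Helper23.FB.Inst.iMonoid Pool.Agent.Helper23.FB.Inst.iSemigroup
  Pool.Agent.Helper23.FB.Inst.iMulOneClass Pool.Agent.Helper23.FB.Inst.iMul
  Pool.Agent.Helper23.FB.Inst.iAdd Pool.Agent.Helper23.FB.Inst.iSub
  Pool.Agent.Helper23.FB.Inst.iNeg Pool.Agent.Helper23.FB.Inst.iAddCommMonoid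
  Pool.Agent.Helper23.FB.Inst.iAddCommGroup Pool.Agent.Helper23.FB.Inst.iAddGroup
  Pool.Agent.Helper23.FB.Inst.iAddMonoid Pool.Agent.Helper23.FB.Inst.iSMulZeroC
  Pool.Agent.Helper23.FB.Inst.iMulActC Pool.Agent.Helper23.FB.Inst.iDSMulC
  Pool.Agent.Helper23.FB.Inst.iDSMulR Pool.Agent.Helper23.FB.Inst.iSNAG
  Pool.Agent.Helper23.FB.Inst.iSNACG Pool.Agent.Helper23.FB.Inst.iNorm
  Pool.Agent.Helper23.FB.Inst.iNSC' Pool.Agent.Helper23.FB.Inst.iNSR'
  Pool.Agent.Helper23.FB.Inst.iTop Pool.Agent.Helper23.FB.Inst.iT2 Pool.Agent.Helper23.FB.Inst.iTR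
  Pool.Agent.Helper23.FB.Inst.iSCC Pool.Agent.Helper23.FB.Inst.iIST
  Pool.Agent.Helper23.FB.Inst.iSCCR Pool.Agent.Helper23.FB.Inst.iISTR
  Pool.Agent.Helper23.FB.Inst.iZHC Pool.Agent.Helper23.FB.Inst.iAHC
  Pool.Agent.Helper23.FB.Inst.iAMHC Pool.Agent.Helper23.FB.Inst.iMAHC
  Pool.Agent.Helper23.FB.Inst.lTop Pool.Agent.Helper23.FB.Inst.lUnif
  Pool.Agent.Helper23.FB.Inst.lACM Pool.Agent.Helper23.FB.Inst.lACG
  Pool.Agent.Helper23.FB.Inst.lSNAG Pool.Agent.Helper23.FB.Inst.lSNACG
  Pool.Agent.Helper23.FB.Inst.lNACG Pool.Agent.Helper23.FB.Inst.lNorm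
  Pool.Agent.Helper23.FB.Inst.lIPS Pool.Agent.Helper23.FB.Inst.lMod
  Pool.Agent.Helper23.FB.Inst.lSMul Pool.Agent.Helper23.FB.Inst.lT2
  Pool.Agent.Helper23.FB.Inst.iStar Pool.Agent.Helper23.FB.Inst.iStarMul
  Pool.Agent.Helper23.FB.Inst.iStarAddMonoid Pool.Agent.Helper23.FB.Inst.iStarRing
  Pool.Agent.Helper23.FB.Inst.iNSC Pool.Agent.Helper23.FB.Inst.iSOR
  Pool.Agent.Helper23.FB.Inst.iALM Pool.Agent.Helper23.FB.Inst.iARM
  Pool.Agent.Helper23.FB.Inst.iCFC Pool.Agent.Helper23.FB.Inst.iNCFC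
  Pool.Agent.Helper23.FB.Inst.iStarModR Pool.Agent.Helper23.FB.Inst.iStarModC
  Pool.Agent.Helper23.FB.Inst.eStar Pool.Agent.Helper23.FB.Inst.eAdd
  Pool.Agent.Helper23.FB.Inst.eMul Pool.Agent.Helper23.FB.Inst.eOne
  Pool.Agent.Helper23.FB.Inst.eZero Pool.Agent.Helper23.FB.Inst.eMulAction
  Pool.Agent.Helper23.FB.Inst.eAMHC2 Pool.Agent.Helper23.FB.Inst.eZHC2
  Pool.Agent.Helper23.FB.Inst.lAMHC

namespace Pool.Agent.Helper23
end Pool.Agent.Helper23
namespace Pool.Agent.Helper88.CS.PolarAux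
end Pool.Agent.Helper88.CS.PolarAux

section

section

open scoped InnerProductSpace Topology BoundedContinuousFunction CompactlySupported

open ContinuousLinearMap Filter MeasureTheory

namespace Pool.Agent.Helper88.CS

open Pool.Agent.Helper23

variable {H : Type*} [NormedAddCommGroup H] [InnerProductSpace ℂ H] [CompleteSpace H]

variable {A : VonNeumannAlgebra H} {J : H →L[ℝ] H} {κ : H}

namespace Trick1Aux

lemma cfc_mem {X : H →L[ℂ] H} (hX : X ∈ A) (g : ℝ → ℝ) : cfc g X ∈ A := by
  rw [mem_iff_commutes]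
  intro b hb
  have h1 : Commute X b := mem_comm_iff.1 hb X hX
  exact ((h1.cfc_real g).eq).symm

end Trick1Aux

end Pool.Agent.Helper88.CS

end

end

section

section

open scoped InnerProductSpace Topology BoundedContinuousFunction

open ContinuousLinearMap Filter MeasureTheory

namespace Pool.Agent.Helper88.CS

open Pool.Agent.Helper23

open Pool.Agent.Helper78.BC (rm)

set_option linter.unusedSectionVars false

set_option linter.unusedVariables false

variable {H : Type*} [NormedAddCommGroup H] [InnerProductSpace ℂ H] [CompleteSpace H]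

variable {A : VonNeumannAlgebra H}

open PolarAux

namespace PolarAux

theorem abs_mem {a : H →L[ℂ] H} (ha : a ∈ A) : CFC.abs a ∈ A := by
  rw [mem_iff_commutes]
  intro g hg
  have h1 : Commute a g := mem_comm_iff.1 hg a ha
  have h2 : Commute a (star g) := mem_comm_iff.1 (star_mem hg) a ha
  exact (h1.cfcAbs_left h2).symm

end PolarAux

end Pool.Agent.Helper88.CS

end

end

section

section

open scoped InnerProductSpace Topology ENNReal

open ContinuousLinearMap Filter MeasureTheory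

set_option linter.unusedSectionVars false

set_option linter.unusedVariables false

namespace Pool.Agent.Helper23

variable {H : Type*} [NormedAddCommGroup H] [InnerProductSpace ℂ H] [CompleteSpace H]

variable {M N : VonNeumannAlgebra H} {ξ : H} {E : (H →L[ℂ] H) → (H →L[ℂ] H)}

lemma mulOp_ind_sq {I : Set ℝ} (hI : MeasurableSet I) :
    mulOp H (ind I) * mulOp H (ind I) = mulOp H (ind I) := by
  ext F : 1
  change mulOp H (ind I) (mulOp H (ind I) F) = _
  rw [mulOp_mulOp (ind_bm hI) (ind_bm hI), ind_sq]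

end Pool.Agent.Helper23

end

section

open scoped InnerProductSpace Topology ENNReal

open ContinuousLinearMap Filter MeasureTheory

namespace Pool.Agent.Helper23

variable {H : Type*} [NormedAddCommGroup H] [InnerProductSpace ℂ H] [CompleteSpace H]

variable {M N : VonNeumannAlgebra H} {ξ : H} {E : (H →L[ℂ] H) → (H →L[ℂ] H)}

lemma mulOp_inner_self {I : Set ℝ} (hI : MeasurableSet I) (V : L2R H) :
    ⟪V, mulOp H (ind I) V⟫_ℂ = ((‖mulOp H (ind I) V‖ ^ 2 : ℝ) : ℂ) := by
  have h1 : mulOp H (ind I) (mulOp H (ind I) V) = mulOp H (ind I) V :=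
    congrArg (fun T : L2R H →L[ℂ] L2R H => T V) (mulOp_ind_sq hI)
  have h2 := mulOp_adj (ind_bm hI) V (mulOp H (ind I) V)
  rw [ind_conj, h1] at h2
  rw [← h2, inner_self_eq_norm_sq_to_K]
  norm_cast

lemma norm_mulOp_ind_le {I : Set ℝ} (V : L2R H) : ‖mulOp H (ind I) V‖ ≤ ‖V‖ := by
  have h1 : ‖mulOp H (ind I)‖ ≤ 1 := by
    refine dec_norm zero_le_one fun s => ?_
    refine (norm_smul_le _ _).trans ?_
    calc ‖ind I s‖ * ‖(1 : H →L[ℂ] H)‖ ≤ 1 * 1 := by
          gcongr
          · exact ind_norm_le I s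
          · exact norm_id_le
      _ = 1 := mul_one 1
  have := (mulOp H (ind I)).le_of_opNorm_le h1 V
  rwa [one_mul] at this

/-- windows cover the cut-off -/
lemma norm_le_win {t : ℝ} (ht : 0 < t) {m L : ℕ} (hL : (L : ℝ) ≤ m * t) (D : L2R H) :
    ‖D‖ ^ 2 ≤ ∑ i ∈ Finset.Ico (-(m : ℤ)) m, ‖mulOp H (ind (win t i)) D‖ ^ 2 +
      ‖D - mulOp H (ind (Set.Ico (-(L : ℝ)) L)) D‖ ^ 2 := by
  set I := Set.Ico (-(L : ℝ)) L with hI
  have hIm : MeasurableSet I := measurableSet_Ico
  set V := mulOp H (ind I) D with hV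
  have hVV : mulOp H (ind I) V = V :=
    congrArg (fun T : L2R H →L[ℂ] L2R H => T D) (mulOp_ind_sq hIm)
  -- Pythagoras
  have h1 : ‖D‖ ^ 2 = ‖V‖ ^ 2 + ‖D - V‖ ^ 2 := by
    have e1 : ⟪V, D - V⟫_ℂ = 0 := by
      have h2 := mulOp_adj (ind_bm hIm) D (D - V)
      rw [ind_conj, map_sub, hVV, ← hV, sub_self, inner_zero_right] at h2
      exact h2
    have e2 : D = V + (D - V) := by abel
    conv_lhs => rw [e2]
    have := norm_add_sq_eq_norm_sq_add_norm_sq_of_inner_eq_zero (𝕜 := ℂ) V (D - V) e1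
    rw [sq, sq, sq]
    exact this
  rw [h1]
  gcongr
  -- decomposition of `V`
  have h2 : ∑ i ∈ Finset.Ico (-(m : ℤ)) m, mulOp H (ind (win t i)) V = V := by
    refine sum_win ht ?_
    filter_upwards [mulOp_coe (ind_bm hIm) D] with s hs h
    rw [hs, ind_of_notMem, zero_smul]
    intro hcon
    refine h ⟨?_, ?_⟩
    · (clear * - hL hcon; linarith [hcon.1])
    · (clear * - hL hcon; linarith [hcon.2])
  have h3 : ((‖V‖ ^ 2 : ℝ) : ℂ) = ((∑ i ∈ Finset.Ico (-(m : ℤ)) m,
      ‖mulOp H (ind (win t i)) V‖ ^ 2 : ℝ) : ℂ) := by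
    have e1 : ⟪V, V⟫_ℂ = ((‖V‖ ^ 2 : ℝ) : ℂ) := by
      rw [inner_self_eq_norm_sq_to_K]; norm_cast
    have e2 : ⟪V, ∑ i ∈ Finset.Ico (-(m : ℤ)) m, mulOp H (ind (win t i)) V⟫_ℂ = ⟪V, V⟫_ℂ := by
      rw [h2]
    rw [← e1, ← e2, inner_sum]
    push_cast
    refine Finset.sum_congr rfl fun i _ => ?_
    rw [mulOp_inner_self (win_meas t i)]
    push_cast
    rfl
  have h4 : ‖V‖ ^ 2 = ∑ i ∈ Finset.Ico (-(m : ℤ)) m, ‖mulOp H (ind (win t i)) V‖ ^ 2 := by
    exact_mod_cast h3
  rw [h4]
  refine Finset.sum_le_sum fun i _ => ?_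
  have h5 : mulOp H (ind (win t i)) V = mulOp H (ind I) (mulOp H (ind (win t i)) D) := by
    rw [hV, mulOp_mulOp (ind_bm (win_meas t i)) (ind_bm hIm),
      mulOp_mulOp (ind_bm hIm) (ind_bm (win_meas t i))]
    congr 2
    funext s
    ring
  rw [h5]
  gcongr
  exact norm_mulOp_ind_le _

end Pool.Agent.Helper23

end

section

open scoped InnerProductSpace Topology BoundedContinuousFunction CompactlySupported

open ContinuousLinearMap Filter MeasureTheory

namespace Pool.Agent.Helper88.CS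

open Pool.Agent.Helper23

open Pool.Agent.Helper78.BC (rm)

variable {H : Type*} [NormedAddCommGroup H] [InnerProductSpace ℂ H] [CompleteSpace H]

variable {A : VonNeumannAlgebra H} {J : H →L[ℝ] H} {κ : H}

namespace Trick1Aux

section two

variable {X Y : H →L[ℂ] H} (hX : star X = X) (hY : star Y = Y) (hXY : X * Y = Y * X)

include hX hY hXY

/-- the joint spectral measure -/
lemma exists_joint (v : H) : ∃ μ : Measure ℂ, IsFiniteMeasure μ ∧
    (∀ F : ℂ → ℝ, Continuous F → Integrable F μ) ∧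
    (∀ g : ℝ → ℝ, Continuous g → ∫ z, g z.re ^ 2 ∂μ = ‖cfc g X v‖ ^ 2) ∧
    (∀ g : ℝ → ℝ, Continuous g → ∫ z, g z.im ^ 2 ∂μ = ‖cfc g Y v‖ ^ 2) ∧
    (∀ g : ℝ → ℝ, Continuous g →
      ∫ z, (g z.re - g z.im) ^ 2 ∂μ = ‖cfc g X v - cfc g Y v‖ ^ 2) := by
  have hN := normal hX hY hXY
  refine ⟨mu _ hN v, inferInstance, fun F hF => integrable_mu _ hN v F hF, ?_, ?_, ?_⟩
  · intro g hg
    rw [integral_mu_sq _ hN v (fun z => g z.re) (by fun_prop), cfc_X hX hY hXY hg]
  · intro g hg
    rw [integral_mu_sq _ hN v (fun z => g z.im) (by fun_prop), cfc_Y hX hY hXY hg]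
  · intro g hg
    rw [integral_mu_sq _ hN v (fun z => g z.re - g z.im) (by fun_prop)]
    have h1 : (fun z : ℂ => ((g z.re - g z.im : ℝ) : ℂ)) =
        fun z : ℂ => ((g z.re : ℝ) : ℂ) - ((g z.im : ℝ) : ℂ) := by
      funext z; push_cast; ring
    rw [h1, cfc_sub _ _ _ (by fun_prop) (by fun_prop), cfc_X hX hY hXY hg, cfc_Y hX hY hXY hg]
    rfl

end two

end Trick1Aux

end Pool.Agent.Helper88.CS

end

end

section

section

open scoped InnerProductSpace Topology BoundedContinuousFunction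

open ContinuousLinearMap Filter MeasureTheory

namespace Pool.Agent.Helper88.CS

open Pool.Agent.Helper23

open Pool.Agent.Helper78.BC (rm)

set_option linter.unusedSectionVars false

set_option linter.unusedVariables false

variable {H : Type*} [NormedAddCommGroup H] [InnerProductSpace ℂ H] [CompleteSpace H]

variable {A : VonNeumannAlgebra H}

open PolarAux

/-- in a factor `f x e ≠ 0` for some `x` -/
theorem exists_mul_ne (hA : FInf A) {e f : H →L[ℂ] H} (he : IsP A e) (hf : IsP A f)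
    (he0 : e ≠ 0) (hf0 : f ≠ 0) : ∃ x ∈ A, f * x * e ≠ 0 := by
  by_contra hcon
  push Not at hcon
  obtain ⟨h0, hh0⟩ : ∃ h, e h ≠ 0 := by
    by_contra h
    push Not at h
    exact he0 (ContinuousLinearMap.ext h)
  set S : Set H := {y | ∃ x ∈ A, ∃ h, x (e h) = y} with hS
  set V : Submodule ℂ H := (Submodule.span ℂ S).topologicalClosure with hV
  have hVc : IsClosed (V : Set H) := Submodule.isClosed_topologicalClosure _
  have hcv : CompleteSpace V := hVc.completeSpace_coe
  have hind : ∀ (W : Submodule ℂ H), IsClosed (W : Set H) → (∀ x ∈ S, x ∈ W) → V ≤ W := by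
    intro W hW h
    exact Submodule.topologicalClosure_minimal _ (Submodule.span_le.2 h) hW
  have hSV : ∀ x ∈ S, x ∈ V := fun x hx =>
    Submodule.le_topologicalClosure _ (Submodule.subset_span hx)
  have hsp : IsStarProjection V.starProjection := isStarProjection_starProjection
  have hinv : ∀ y : H →L[ℂ] H, (∀ x ∈ S, y x ∈ V) →
      LinearMap.range (V.starProjection : H →ₗ[ℂ] H) ∈ Module.End.invtSubmodule (y : H →ₗ[ℂ] H) := by
    intro y hy
    rw [Submodule.range_starProjection, Module.End.mem_invtSubmodule]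
    exact hind (V.comap (y : H →ₗ[ℂ] H)) (hVc.preimage y.continuous) (fun x hx => hy x hx)
  have hz1 : V.starProjection ∈ A := by
    rw [VonNeumannAlgebra.IsStarProjection.mem_iff hsp]
    intro y hy
    refine hinv y ?_
    rintro _ ⟨x, hx, h, rfl⟩
    refine hSV _ ⟨x, hx, y h, ?_⟩
    rw [commute_apply he.1 hy, commute_apply hx hy]
  have hz2 : V.starProjection ∈ A.commutant := by
    rw [VonNeumannAlgebra.IsStarProjection.mem_iff hsp]
    intro y hy
    rw [VonNeumannAlgebra.commutant_commutant] at hy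
    refine hinv y ?_
    rintro _ ⟨x, hx, h, rfl⟩
    exact hSV _ ⟨y * x, mul_mem hy hx, h, rfl⟩
  obtain ⟨c, hc⟩ := hA.factor _ hz1 hz2
  have hmem : e h0 ∈ V := hSV _ ⟨1, one_mem A, h0, rfl⟩
  have h1 : V.starProjection (e h0) = e h0 := Submodule.starProjection_eq_self_iff.2 hmem
  have h2 : c = 1 := by
    rw [hc] at h1
    have h3 : (c - 1) • e h0 = 0 := by
      rw [sub_smul, one_smul, sub_eq_zero]
      exact h1
    rcases smul_eq_zero.1 h3 with h4 | h4
    · exact sub_eq_zero.1 h4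
    · exact absurd h4 hh0
  apply hf0
  ext w
  have h3 : w ∈ V := by
    rw [← Submodule.starProjection_eq_self_iff, hc, h2, one_smul]
    rfl
  have h4 : V ≤ LinearMap.ker (f : H →ₗ[ℂ] H) := by
    refine hind _ (ContinuousLinearMap.isClosed_ker f) ?_
    rintro _ ⟨x, hx, h, rfl⟩
    have := congrArg (fun T : H →L[ℂ] H => T h) (hcon x hx)
    exact this
  exact h4 h3

end Pool.Agent.Helper88.CS

end

section

open scoped InnerProductSpace Topology BoundedContinuousFunction CompactlySupported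

open ContinuousLinearMap Filter MeasureTheory

namespace Pool.Agent.Helper88.CS

open Pool.Agent.Helper23

open Pool.Agent.Helper78.BC (rm)

variable {H : Type*} [NormedAddCommGroup H] [InnerProductSpace ℂ H] [CompleteSpace H]

variable {A : VonNeumannAlgebra H} {J : H →L[ℝ] H} {κ : H}

namespace Trick1Aux

lemma fn_tendsto (t s : ℝ) : Tendsto (fun n => fn t n s) atTop (𝓝 (sg t s)) := by
  unfold fn sg
  refine Tendsto.sub ?_ ?_
  · by_cases h : t < s
    · rw [if_pos h]
      exact cn_tendsto (by unfold pt; rw [lt_max_iff]; left; linarith)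
    · rw [if_neg h]
      have h1 : pt t s = 0 := by unfold pt; exact max_eq_right (by linarith)
      simp_rw [h1, cn_zero]
      exact tendsto_const_nhds
  · by_cases h : s < -t
    · rw [if_pos h]
      exact cn_tendsto (by unfold qt; rw [lt_max_iff]; left; (clear * - h; linarith))
    · rw [if_neg h]
      have h1 : qt t s = 0 := by unfold qt; exact max_eq_right (by linarith)
      simp_rw [h1, cn_zero]
      exact tendsto_const_nhds

end Trick1Aux

end Pool.Agent.Helper88.CS

end

end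

section

section

open scoped InnerProductSpace Topology BoundedContinuousFunction

open ContinuousLinearMap Filter MeasureTheory

namespace Pool.Agent.Helper88.CS

open Pool.Agent.Helper23

set_option linter.unusedSectionVars false

set_option linter.unusedVariables false

variable {H : Type*} [NormedAddCommGroup H] [InnerProductSpace ℂ H] [CompleteSpace H]

variable {A : VonNeumannAlgebra H}

open PolarAux

theorem rp_isP {a : H →L[ℂ] H} (ha : a ∈ A) : IsP A (rp a) := by
  refine ⟨?_, rp_star a, rp_rp a⟩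
  have hsp : IsStarProjection
      (LinearMap.range (a : H →ₗ[ℂ] H)).topologicalClosure.starProjection :=
    isStarProjection_starProjection
  rw [rp, VonNeumannAlgebra.IsStarProjection.mem_iff hsp]
  intro y hy
  rw [Submodule.range_starProjection, Module.End.mem_invtSubmodule]
  intro x hx
  rw [Submodule.mem_comap]
  have h1 : ((LinearMap.range (a : H →ₗ[ℂ] H)) : Set H) ⊆
      y ⁻¹' ((LinearMap.range (a : H →ₗ[ℂ] H)).topologicalClosure : Set H) := by
    rintro _ ⟨w, rfl⟩
    change y (a w) ∈ (LinearMap.range (a : H →ₗ[ℂ] H)).topologicalClosure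
    rw [← commute_apply ha hy]
    exact apply_mem a (y w)
  exact closure_minimal h1 ((Submodule.isClosed_topologicalClosure _).preimage y.continuous) hx

end Pool.Agent.Helper88.CS

end

section

open scoped InnerProductSpace Topology BoundedContinuousFunction CompactlySupported

open ContinuousLinearMap Filter MeasureTheory

namespace Pool.Agent.Helper88.CS

open Pool.Agent.Helper23

variable {H : Type*} [NormedAddCommGroup H] [InnerProductSpace ℂ H] [CompleteSpace H]

variable {A : VonNeumannAlgebra H} {J : H →L[ℝ] H} {κ : H}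

namespace Trick1Aux

lemma rp_star {X : H →L[ℂ] H} (hX : X ∈ A) : star (rp X) = rp X := (rp_isP hX).2.1

lemma rp_idem {X : H →L[ℂ] H} (hX : X ∈ A) : rp X * rp X = rp X := (rp_isP hX).2.2

lemma Ft_mem {X : H →L[ℂ] H} (hX : X ∈ A) (t : ℝ) : Ft X t ∈ A :=
  A.toStarSubalgebra.sub_mem (rp_isP (cfc_mem hX _)).1 (rp_isP (cfc_mem hX _)).1

lemma Ft_star {X : H →L[ℂ] H} (hX : X ∈ A) (t : ℝ) : star (Ft X t) = Ft X t := by
  unfold Ft
  rw [star_sub, rp_star (cfc_mem hX _), rp_star (cfc_mem hX _)]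

lemma rp_mul_rp {X : H →L[ℂ] H} (hX : X ∈ A) {t : ℝ} (ht : 0 ≤ t) :
    rp (cfc (pt t) X) * rp (cfc (qt t) X) = 0 ∧ rp (cfc (qt t) X) * rp (cfc (pt t) X) = 0 := by
  have h1 : cfc (pt t) X * cfc (qt t) X = 0 := by
    rw [← cfc_mul (pt t) (qt t) X (pt_cont t).continuousOn (qt_cont t).continuousOn]
    simp_rw [pq_zero ht]
    exact cfc_const_zero ℝ X
  have h2 : cfc (pt t) X * rp (cfc (qt t) X) = 0 := zero_mul_rp h1
  have h3 : rp (cfc (qt t) X) * cfc (pt t) X = 0 := by
    have := congrArg star h2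
    rwa [star_mul, star_cfc, rp_star (cfc_mem hX _), star_zero] at this
  have h4 : rp (cfc (qt t) X) * rp (cfc (pt t) X) = 0 := zero_mul_rp h3
  refine ⟨?_, h4⟩
  have := congrArg star h4
  rwa [star_mul, rp_star (cfc_mem hX _), rp_star (cfc_mem hX _), star_zero] at this

lemma Ft_cube {X : H →L[ℂ] H} (hX : X ∈ A) {t : ℝ} (ht : 0 ≤ t) :
    Ft X t * Ft X t * Ft X t = Ft X t := by
  obtain ⟨h1, h2⟩ := rp_mul_rp hX ht
  have h3 := rp_idem (cfc_mem (A := A) hX (pt t))
  have h4 := rp_idem (cfc_mem (A := A) hX (qt t))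
  unfold Ft
  set p := rp (cfc (pt t) X)
  set q := rp (cfc (qt t) X)
  rw [show (p - q) * (p - q) = p + q by
    rw [sub_mul, mul_sub, mul_sub, h1, h2, h3, h4]; abel]
  rw [add_mul, mul_sub, mul_sub, h1, h2, h3, h4]
  abel

lemma Ft_anti {X : H →L[ℂ] H} (hX : X ∈ A) (hs : star X = X) (t : ℝ) {U : H →L[ℂ] H}
    (hU : star U = U) (hUU : U * U = 1) (hUX : U * X = -(X * U)) :
    U * Ft X t = -(Ft X t * U) := by
  have hsX : IsSelfAdjoint X := hs
  have hUm : U ∈ unitary (H →L[ℂ] H) := by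
    rw [Unitary.mem_iff, hU]
    exact ⟨hUU, hUU⟩
  set u : unitary (H →L[ℂ] H) := ⟨U, hUm⟩ with hu
  have h0 : Unitary.conjStarAlgAut ℝ (H →L[ℂ] H) u X = -X := by
    rw [Unitary.conjStarAlgAut_apply]
    change U * X * star U = -X
    rw [hU, hUX, neg_mul, mul_assoc, hUU, mul_one]
  have hc : Continuous (Unitary.conjStarAlgAut ℝ (H →L[ℂ] H) u) := by
    have : (Unitary.conjStarAlgAut ℝ (H →L[ℂ] H) u : (H →L[ℂ] H) → (H →L[ℂ] H)) =
        fun x => U * x * star U := rfl
    rw [this]
    fun_prop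
  have h1 : U * cfc (pt t) X * U = cfc (qt t) X := by
    have e1 := StarAlgHomClass.map_cfc (S := ℝ) (Unitary.conjStarAlgAut ℝ (H →L[ℂ] H) u) (pt t) X
      (pt_cont t).continuousOn hc hsX (by rw [h0]; exact hsX.neg)
    rw [h0, ← cfc_comp_neg (pt t) X (pt_cont t).continuousOn hsX] at e1
    rw [Unitary.conjStarAlgAut_apply] at e1
    change U * cfc (pt t) X * star U = _ at e1
    rw [hU] at e1
    exact e1
  have h2 : U * cfc (qt t) X * U = cfc (pt t) X := by
    rw [← h1]
    calc U * (U * cfc (pt t) X * U) * U = (U * U) * cfc (pt t) X * (U * U) := by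
          simp only [mul_assoc]
      _ = _ := by rw [hUU, one_mul, mul_one]
  set P := cfc (pt t) X with hP
  set Q := cfc (qt t) X with hQ
  have hpP : rp P * P = P := rp_mul P
  have hqQ : rp Q * Q = Q := rp_mul Q
  have h3 : (U * rp P * U) * rp Q = rp Q := by
    apply mul_rp
    calc U * rp P * U * Q = U * rp P * U * (U * P * U) := by rw [h1]
      _ = U * (rp P * ((U * U) * P)) * U := by simp only [mul_assoc]
      _ = Q := by rw [hUU, one_mul, hpP, h1]
  have h4 : (U * rp Q * U) * rp P = rp P := by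
    apply mul_rp
    calc U * rp Q * U * P = U * rp Q * U * (U * Q * U) := by rw [h2]
      _ = U * (rp Q * ((U * U) * Q)) * U := by simp only [mul_assoc]
      _ = P := by rw [hUU, one_mul, hqQ, h2]
  have hps : star (rp P) = rp P := rp_star (cfc_mem (A := A) hX (pt t))
  have hqs : star (rp Q) = rp Q := rp_star (cfc_mem (A := A) hX (qt t))
  have h5 : rp Q * (U * rp P * U) = rp Q := by
    have := congrArg star h3
    rw [star_mul, star_mul, star_mul, hps, hqs, hU] at this
    rw [← mul_assoc] at this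
    simpa only [mul_assoc] using this
  have h6 : rp Q * (U * rp P * U) = U * rp P * U := by
    calc rp Q * (U * rp P * U) = (U * U) * rp Q * (U * rp P * U) := by rw [hUU, one_mul]
      _ = U * ((U * rp Q * U) * rp P) * U := by simp only [mul_assoc]
      _ = U * rp P * U := by rw [h4]
  have h7 : U * rp P * U = rp Q := h6.symm.trans h5
  have h8 : U * rp P = rp Q * U := by
    rw [← h7, mul_assoc, hUU, mul_one]
  have h9 : U * rp Q = rp P * U := by
    rw [← h7]
    calc U * (U * rp P * U) = (U * U) * rp P * U := by simp only [mul_assoc]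
      _ = _ := by rw [hUU, one_mul]
  unfold Ft
  rw [mul_sub, sub_mul, h8, h9]
  abel

end Trick1Aux

end Pool.Agent.Helper88.CS

end

end

section

section

open scoped InnerProductSpace Topology BoundedContinuousFunction

open ContinuousLinearMap Filter MeasureTheory

namespace Pool.Agent.Helper88.CS

open Pool.Agent.Helper23

open Pool.Agent.Helper78.BC (rm)

set_option linter.unusedSectionVars false

set_option linter.unusedVariables false

variable {H : Type*} [NormedAddCommGroup H] [InnerProductSpace ℂ H] [CompleteSpace H]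

variable {A : VonNeumannAlgebra H}

open PolarAux

/-- polar decomposition -/
theorem exists_polar {a : H →L[ℂ] H} (ha : a ∈ A) :
    ∃ v ∈ A, star v * v = rp (star a) ∧ v * star v = rp a := by
  obtain ⟨v, h1, h2⟩ := Pool.Agent.Helper88.CS.PolarAux.exists_ext a
  set p := CFC.abs a with hp
  have hpA : p ∈ A := abs_mem ha
  have hps : star p = p := abs_star' a
  have heA := (rp_isP hpA).1
  have hpp : p * p = star a * a := CFC.abs_mul_abs a
  -- `v ∈ A`
  have hvA : v ∈ A := by
    rw [mem_iff_commutes]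
    intro g hg
    have c1 : a * g = g * a := mem_comm_iff.1 hg a ha
    have c2 : p * g = g * p := mem_comm_iff.1 hg p hpA
    have c3 : rp p * g = g * rp p := mem_comm_iff.1 hg _ heA
    have h3 : (g * v) * p = (v * g) * p := by
      rw [mul_assoc, h1, mul_assoc, ← c2, ← mul_assoc, h1, c1]
    have h4 := eq_mul_rp h3
    rwa [mul_assoc, h2, mul_assoc, ← c3, ← mul_assoc, h2] at h4
  -- `v* a = p`
  have hsa : star v * a = p := by
    have h3 : p * (star v * a) = p * p := by
      have : star (v * p) = star a := by rw [h1]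
      rw [star_mul, hps] at this
      rw [← mul_assoc, this, hpp]
    have h4 : rp p * (star v * a) = rp p * p := by
      have h5 : (star (star v * a)) * p = p * p := by
        have := congrArg star h3
        rwa [star_mul, star_mul p p, hps] at this
      have h6 := eq_mul_rp h5
      have := congrArg star h6
      rwa [star_mul, star_star, star_mul, hps, rp_star] at this
    have h7 : rp p * star v = star v := by
      have := congrArg star h2
      rwa [star_mul, rp_star] at this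
    rwa [← mul_assoc, h7, rp_mul] at h4
  have hvv : star v * v = rp p := by
    have h3 : (star v * v) * p = rp p * p := by
      rw [mul_assoc, h1, hsa, rp_mul]
    have h4 := eq_mul_rp h3
    rwa [mul_assoc, h2, rp_rp] at h4
  have hrp : rp p = rp (star a) := by
    have e1 : a * rp p = a := by
      have h3 : p * rp p = p := by
        have := congrArg star (rp_mul p)
        rwa [star_mul, hps, rp_star] at this
      calc a * rp p = v * (p * rp p) := by rw [← mul_assoc, h1]
        _ = a := by rw [h3, h1]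
    have e2 : rp p * star a = star a := by
      have := congrArg star e1
      rwa [star_mul, rp_star] at this
    have e3 : rp p * rp (star a) = rp (star a) := mul_rp e2
    have e4 : p * rp (star a) = p := by
      rw [← hsa, mul_assoc, mul_rp_star]
    have e5 : rp (star a) * p = p := by
      have := congrArg star e4
      rwa [star_mul, rp_star, hps] at this
    have e6 : rp (star a) * rp p = rp p := mul_rp e5
    have e7 := congrArg star e6
    rw [star_mul, rp_star, rp_star] at e7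
    rw [← e7, e3]
  refine ⟨v, hvA, hvv.trans hrp, ?_⟩
  have h3 : (v * star v) * a = a := by rw [mul_assoc, hsa, h1]
  have h4 : (v * star v) * rp a = rp a := mul_rp h3
  have h5 : (rp a * v) * p = v * p := by rw [mul_assoc, h1, rp_mul]
  have h6 := eq_mul_rp h5
  rw [mul_assoc, h2] at h6
  have h7 : star v * rp a = star v := by
    have := congrArg star h6
    rwa [star_mul, rp_star] at this
  rwa [mul_assoc, h7] at h4

/-- comparison: a nonzero partial isometry between subprojections -/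
theorem exists_pi (hA : FInf A) {e f : H →L[ℂ] H} (he : IsP A e) (hf : IsP A f)
    (he0 : e ≠ 0) (hf0 : f ≠ 0) :
    ∃ v ∈ A, v ≠ 0 ∧ v * star v * v = v ∧ f * v = v ∧ v * e = v := by
  obtain ⟨x, hx, hne⟩ := exists_mul_ne hA he hf he0 hf0
  set a := f * x * e with ha
  have haA : a ∈ A := mul_mem (mul_mem hf.1 hx) he.1
  obtain ⟨v, hv, h1, h2⟩ := exists_polar haA
  have hfa : f * a = a := by rw [ha, ← mul_assoc, ← mul_assoc, hf.2.2]
  have hae : a * e = a := by rw [ha, mul_assoc, he.2.2]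
  have hpi : v * star v * v = v := by
    have h3 : star (v - v * star v * v) * (v - v * star v * v) = 0 := by
      have hq : star v * v * (star v * v) = star v * v := by rw [h1, rp_rp]
      have h4 : star (v * star v * v) = star v * v * star v := by
        rw [star_mul, star_mul, star_star, mul_assoc]
      rw [star_sub, h4, sub_mul, mul_sub, mul_sub]
      have e1 : star v * (v * star v * v) = star v * v := by
        rw [← hq]; simp only [mul_assoc]
      have e2 : star v * v * star v * v = star v * v := by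
        rw [mul_assoc]; exact hq
      have e3 : star v * v * star v * (v * star v * v) = star v * v := by
        calc star v * v * star v * (v * star v * v) =
            (star v * v * (star v * v)) * (star v * v) := by simp only [mul_assoc]
          _ = _ := by rw [hq, hq]
      rw [e1, e2, e3]
      simp
    have h5 := (CStarRing.star_mul_self_eq_zero_iff (v - v * star v * v)).1 h3
    exact (sub_eq_zero.1 h5).symm
  refine ⟨v, hv, ?_, hpi, ?_, ?_⟩
  · rintro rfl
    apply hne
    rw [← rp_mul a, ← h2, zero_mul, zero_mul]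
  · have h3 : f * rp a = rp a := mul_rp hfa
    calc f * v = f * (v * star v * v) := by rw [hpi]
      _ = f * rp a * v := by rw [h2, mul_assoc]
      _ = v * star v * v := by rw [h3, h2]
      _ = v := hpi
  · have h3 : e * star a = star a := by
      have := congrArg star hae
      rwa [star_mul, he.2.1] at this
    have h4 : e * rp (star a) = rp (star a) := mul_rp h3
    have h5 : rp (star a) * e = rp (star a) := by
      have := congrArg star h4
      rwa [star_mul, rp_star, he.2.1] at this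
    calc v * e = (v * star v * v) * e := by rw [hpi]
      _ = v * (rp (star a) * e) := by rw [← h1]; simp only [mul_assoc]
      _ = v * star v * v := by rw [h5, ← h1]; simp only [mul_assoc]
      _ = v := hpi

end Pool.Agent.Helper88.CS

end

end

section

section

open scoped InnerProductSpace Topology BoundedContinuousFunction CompactlySupported

open ContinuousLinearMap Filter MeasureTheory

namespace Pool.Agent.Helper88.CS

open Pool.Agent.Helper23

open Pool.Agent.Helper78.BC (rm)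

variable {H : Type*} [NormedAddCommGroup H] [InnerProductSpace ℂ H] [CompleteSpace H]

variable {A : VonNeumannAlgebra H} {J : H →L[ℝ] H} {κ : H}

open Trick1Aux in
/-- A self-adjoint `X` which almost commutes with `κ` has a spectral symmetry `F` (the function
`sgn(s) 1_{|s| > c}` of `X`) which almost commutes with `κ`. -/
theorem cut (hJ : Conj A J) (hκ : J κ = κ) {X : H →L[ℂ] H} (hX : X ∈ A) (hs : star X = X)
    {δ : ℝ} (hδ : 0 < δ) (hX0 : X κ ≠ 0) (h : ‖X κ - J (X κ)‖ ≤ δ * ‖X κ‖) :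
    ∃ F ∈ A, star F = F ∧ F * F * F = F ∧ F κ ≠ 0 ∧ ‖F κ - J (F κ)‖ ^ 2 ≤ 16 * δ * ‖F κ‖ ^ 2 ∧
      (∀ U : H →L[ℂ] H, star U = U → U * U = 1 → U * X = -(X * U) → U * F = -(F * U)) := by
  have hY : star (cjH hJ X) = cjH hJ X := by rw [← map_star, hs]
  have hXY : X * cjH hJ X = cjH hJ X * X := by
    ext v
    rw [mul_apply_eq_comp, mul_apply_eq_comp, cjH_apply, cjH_apply]
    exact (hJ.J_comm X hX X hX v).symm
  obtain ⟨μ, hμ, hint, hmX, hmY, hmXY⟩ := exists_joint hs hY hXY κ
  have hcfcJ : ∀ g : ℝ → ℝ, Continuous g → cfc g (cjH hJ X) κ = J (cfc g X κ) := by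
    intro g hg
    rw [cfc_cj hJ hs hg, cjH_apply, hκ]
  have L1 : ∀ t, ∫ z, sg t z.re ^ 2 ∂μ = ‖Ft X t κ‖ ^ 2 := by
    intro t
    have a1 : Tendsto (fun n => ∫ z, Pool.Agent.Helper88.CS.Trick1Aux.fn t n z.re ^ 2 ∂μ) atTop (𝓝 (∫ z, sg t z.re ^ 2 ∂μ)) := by
      apply tendsto_integral_of_dominated_convergence (fun _ => (1 : ℝ))
      · intro n
        exact (((fn_cont t n).comp Complex.continuous_re).pow 2).aestronglyMeasurable
      · exact integrable_const _
      · intro n
        filter_upwards with z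
        rw [Real.norm_eq_abs, abs_pow]
        exact pow_le_one₀ (abs_nonneg _) (abs_fn_le t n z.re)
      · filter_upwards with z
        exact (fn_tendsto t z.re).pow 2
    have a2 : Tendsto (fun n => ‖cfc (Pool.Agent.Helper88.CS.Trick1Aux.fn t n) X κ‖ ^ 2) atTop (𝓝 (‖Ft X t κ‖ ^ 2)) :=
      ((tendsto_Ft hs t κ).norm).pow 2
    have a3 : ∀ n, ∫ z, Pool.Agent.Helper88.CS.Trick1Aux.fn t n z.re ^ 2 ∂μ = ‖cfc (Pool.Agent.Helper88.CS.Trick1Aux.fn t n) X κ‖ ^ 2 := fun n =>
      hmX _ (fn_cont t n)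
    simp_rw [a3] at a1
    exact tendsto_nhds_unique a1 a2
  have L2 : ∀ t, ∫ z, (sg t z.re - sg t z.im) ^ 2 ∂μ = ‖Ft X t κ - J (Ft X t κ)‖ ^ 2 := by
    intro t
    have a1 : Tendsto (fun n => ∫ z, (Pool.Agent.Helper88.CS.Trick1Aux.fn t n z.re - Pool.Agent.Helper88.CS.Trick1Aux.fn t n z.im) ^ 2 ∂μ) atTop
        (𝓝 (∫ z, (sg t z.re - sg t z.im) ^ 2 ∂μ)) := by
      apply tendsto_integral_of_dominated_convergence (fun _ => (4 : ℝ))
      · intro n
        exact ((((fn_cont t n).comp Complex.continuous_re).sub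
          ((fn_cont t n).comp Complex.continuous_im)).pow 2).aestronglyMeasurable
      · exact integrable_const _
      · intro n
        filter_upwards with z
        rw [Real.norm_eq_abs, abs_of_nonneg (sq_nonneg _)]
        have b1 := abs_le.1 (abs_fn_le t n z.re)
        have b2 := abs_le.1 (abs_fn_le t n z.im)
        (clear * - b1 b2; nlinarith)
      · filter_upwards with z
        exact ((fn_tendsto t z.re).sub (fn_tendsto t z.im)).pow 2
    have a2 : Tendsto (fun n => ‖cfc (Pool.Agent.Helper88.CS.Trick1Aux.fn t n) X κ - J (cfc (Pool.Agent.Helper88.CS.Trick1Aux.fn t n) X κ)‖ ^ 2) atTop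
        (𝓝 (‖Ft X t κ - J (Ft X t κ)‖ ^ 2)) :=
      (((tendsto_Ft hs t κ).sub ((J.continuous.tendsto _).comp (tendsto_Ft hs t κ))).norm).pow 2
    have a3 : ∀ n, ∫ z, (Pool.Agent.Helper88.CS.Trick1Aux.fn t n z.re - Pool.Agent.Helper88.CS.Trick1Aux.fn t n z.im) ^ 2 ∂μ =
        ‖cfc (Pool.Agent.Helper88.CS.Trick1Aux.fn t n) X κ - J (cfc (Pool.Agent.Helper88.CS.Trick1Aux.fn t n) X κ)‖ ^ 2 := fun n => by
      rw [hmXY _ (fn_cont t n), hcfcJ _ (fn_cont t n)]
    simp_rw [a3] at a1
    exact tendsto_nhds_unique a1 a2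
  by_contra hne
  push Not at hne
  have hall : ∀ t, 0 < t → 16 * δ * ‖Ft X t κ‖ ^ 2 ≤ ‖Ft X t κ - J (Ft X t κ)‖ ^ 2 := by
    intro t ht
    by_contra hlt
    push Not at hlt
    have h0 : Ft X t κ ≠ 0 := by
      intro h0
      rw [h0] at hlt
      simp at hlt
    obtain ⟨U, hU1, hU2, hU3, hU4⟩ := hne (Ft X t) (Ft_mem hX t) (Ft_star hX t)
      (Ft_cube hX ht.le) h0 hlt.le
    exact hU4 (Ft_anti hX hs t hU1 hU2 hU3)
  -- integrability
  have hre : Measurable (fun z : ℂ => z.re ^ 2) := by fun_prop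
  have him : Measurable (fun z : ℂ => z.im ^ 2) := by fun_prop
  have I1 : Integrable (fun z : ℂ => z.re ^ 2) μ := hint _ (by fun_prop)
  have I2 : Integrable (fun z : ℂ => z.im ^ 2) μ := hint _ (by fun_prop)
  have I3 : Integrable (fun z : ℂ => gp z.re z.im) μ := by
    refine I1.mono' gp_meas.aestronglyMeasurable ?_
    filter_upwards with z
    rw [Real.norm_eq_abs, abs_of_nonneg (gp_nonneg _ _)]
    exact gp_le _ _
  have I4 : Integrable (fun z : ℂ => gm z.re z.im) μ := by
    refine I1.mono' gm_meas.aestronglyMeasurable ?_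
    filter_upwards with z
    rw [Real.norm_eq_abs, abs_of_nonneg (gm_nonneg _ _)]
    exact gm_le _ _
  have hlay := layer (μ := μ) (al := fun z => z.re ^ 2) (be := fun z => z.im ^ 2)
    (ga := fun z => gp z.re z.im) (gb := fun z => gm z.re z.im) (c := 16 * δ) (by positivity)
    I1 I2 I3 I4 (fun z => sq_nonneg _) (fun z => sq_nonneg _) (fun z => gp_nonneg _ _)
    (fun z => gm_nonneg _ _) (by
      intro u hu
      set t := Real.sqrt u with ht
      have ht0 : 0 < t := Real.sqrt_pos.2 hu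
      have htu : t ^ 2 = u := Real.sq_sqrt hu.le
      obtain ⟨c1, d1⟩ := integral_ch (μ := μ) hre u
      obtain ⟨c2, d2⟩ := integral_ch (μ := μ) him u
      obtain ⟨c3, d3⟩ := integral_ch (μ := μ) gp_meas u
      obtain ⟨c4, d4⟩ := integral_ch (μ := μ) gm_meas u
      have k1 : ∫ z, sg t z.re ^ 2 ∂μ = μ.real {z | u < z.re ^ 2} := by
        rw [← d1]
        congr 1
        funext z
        rw [sg_sq ht0, htu]
      have k2 : ∫ z, (sg t z.re - sg t z.im) ^ 2 ∂μ = μ.real {z | u < z.re ^ 2} +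
          μ.real {z | u < z.im ^ 2} + 2 * μ.real {z | u < gm z.re z.im} -
            2 * μ.real {z | u < gp z.re z.im} := by
        have e : (fun z : ℂ => (sg t z.re - sg t z.im) ^ 2) = fun z : ℂ =>
            ch (u < z.re ^ 2) + ch (u < z.im ^ 2) + 2 * ch (u < gm z.re z.im) -
              2 * ch (u < gp z.re z.im) := by
          funext z
          have := sg_diff ht0 z.re z.im
          rw [htu] at this
          linarith
        rw [e, integral_comb c1 c2 c4 c3, d1, d2, d3, d4]
      have k3 := hall t ht0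
      rw [← L1, ← L2, k1, k2] at k3
      (clear * - k3; linarith))
  have hpt : ∫ z, (z.re ^ 2 + z.im ^ 2 + 2 * gm z.re z.im - 2 * gp z.re z.im) ∂μ ≤
      ∫ z, (1 / (2 * δ) * (z.re - z.im) ^ 2 + δ * (z.re ^ 2 + z.im ^ 2)) ∂μ := by
    apply integral_mono
    · exact ((I1.add I2).add (I4.const_mul 2)).sub (I3.const_mul 2)
    · exact hint _ (by fun_prop)
    · intro z
      exact pointwise hδ z.re z.im
  have I5 : Integrable (fun z : ℂ => (z.re - z.im) ^ 2) μ := hint _ (by fun_prop)
  have I6 : Integrable (fun z : ℂ => z.re ^ 2 + z.im ^ 2) μ := I1.add I2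
  rw [integral_comb I1 I2 I4 I3, integral_add (I5.const_mul _) (I6.const_mul _),
    integral_const_mul, integral_const_mul, integral_add I1 I2] at hpt
  have hsX : IsSelfAdjoint X := hs
  have hsY : IsSelfAdjoint (cjH hJ X) := hY
  have v1 : ∫ z : ℂ, z.re ^ 2 ∂μ = ‖X κ‖ ^ 2 := by
    rw [hmX (fun s => s) continuous_id, cfc_id' ℝ X]
  have v2 : ∫ z : ℂ, z.im ^ 2 ∂μ = ‖X κ‖ ^ 2 := by
    rw [hmY (fun s => s) continuous_id, cfc_id' ℝ (cjH hJ X), cjH_apply, hκ, hJ.J_norm]
  have v3 : ∫ z : ℂ, (z.re - z.im) ^ 2 ∂μ = ‖X κ - J (X κ)‖ ^ 2 := by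
    rw [hmXY (fun s => s) continuous_id, cfc_id' ℝ X, cfc_id' ℝ (cjH hJ X), cjH_apply, hκ]
  have hn : 0 < ‖X κ‖ ^ 2 := by positivity
  have v4 : ‖X κ - J (X κ)‖ ^ 2 ≤ δ ^ 2 * ‖X κ‖ ^ 2 := by
    rw [← mul_pow]
    (clear * - h; gcongr)
  have v5 : 1 / (2 * δ) * ‖X κ - J (X κ)‖ ^ 2 ≤ δ / 2 * ‖X κ‖ ^ 2 := by
    calc 1 / (2 * δ) * ‖X κ - J (X κ)‖ ^ 2 ≤ 1 / (2 * δ) * (δ ^ 2 * ‖X κ‖ ^ 2) := by (clear * - v4 hδ; gcongr)
      _ = δ / 2 * ‖X κ‖ ^ 2 := by field_simp
  rw [v1, v2] at hlay
  rw [v1, v2, v3] at hpt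
  have : 0 < δ * ‖X κ‖ ^ 2 := by positivity
  (clear * - hlay hpt v5 this; nlinarith)

end Pool.Agent.Helper88.CS

end

end
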