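import Pool.Agent.Helper23.FB.L00_a1
import Pool.Agent.Helper23.FB.L00_a12
import Pool.Agent.Helper23.FB.L00_a13
import Pool.Agent.Helper23.FB.L00_a2
import Pool.Agent.Helper23.FB.L00_a5
import Pool.Agent.Helper23.FB.L00_a6

/-!
Parts of Helper23.FA.L01_04, Helper23.FA.L01_13, Helper23.FA.L00_03, Helper23.FA.L01_14, Helper23.FA.L02_12, Helper23.FA.L02_13
-/

attribute [local instance 5000]
  Pool.Agent.Helper23.FB.Inst.rCharZero Pool.Agent.Helper23.FB.Inst.rALM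
  Pool.Agent.Helper23.FB.Inst.rARM Pool.Agent.Helper23.FB.Inst.rALSM
  Pool.Agent.Helper23.FB.Inst.rARSM Pool.Agent.Helper23.FB.Inst.rARRLE
  Pool.Agent.Helper23.FB.Inst.rALRLE Pool.Agent.Helper23.FB.Inst.rARRLT
  Pool.Agent.Helper23.FB.Inst.rALRLT Pool.Agent.Helper23.FB.Inst.rPMRLT
  Pool.Agent.Helper23.FB.Inst.rMPRLT Pool.Agent.Helper23.FB.Inst.rPMM
  Pool.Agent.Helper23.FB.Inst.rMPM Pool.Agent.Helper23.FB.Inst.rPMSM
  Pool.Agent.Helper23.FB.Inst.rMPSM Pool.Agent.Helper23.FB.Inst.rEAOL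
  Pool.Agent.Helper23.FB.Inst.rIOR Pool.Agent.Helper23.FB.Inst.rISOR
  Pool.Agent.Helper23.FB.Inst.rFS Pool.Agent.Helper23.FB.Inst.rcCharZero
  Pool.Agent.Helper23.FB.Inst.rNZD Pool.Agent.Helper23.FB.Inst.rcNZD
  Pool.Agent.Helper23.FB.Inst.bSemiring Pool.Agent.Helper23.FB.Inst.bStar
  Pool.Agent.Helper23.FB.Inst.bAlg Pool.Agent.Helper23.FB.Inst.bSub
  Pool.Agent.Helper23.FB.Inst.bMul Pool.Agent.Helper23.FB.Inst.bAdd
  Pool.Agent.Helper23.FB.Inst.iRing Pool.Agent.Helper23.FB.Inst.iSemiring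
  Pool.Agent.Helper23.FB.Inst.iAlgC Pool.Agent.Helper23.FB.Inst.iSMulC
  Pool.Agent.Helper23.FB.Inst.iModC Pool.Agent.Helper23.FB.Inst.iAlgR
  Pool.Agent.Helper23.FB.Inst.iSMulR Pool.Agent.Helper23.FB.Inst.iModR
  Pool.Agent.Helper23.FB.Inst.iMonoid Pool.Agent.Helper23.FB.Inst.iSemigroup
  Pool.Agent.Helper23.FB.Inst.iMulOneClass Pool.Agent.Helper23.FB.Inst.iMul
  Pool.Agent.Helper23.FB.Inst.iAdd Pool.Agent.Helper23.FB.Inst.iSub
  Pool.Agent.Helper23.FB.Inst.iNeg Pool.Agent.Helper23.FB.Inst.iAddCommMonoid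
  Pool.Agent.Helper23.FB.Inst.iAddCommGroup Pool.Agent.Helper23.FB.Inst.iAddGroup
  Pool.Agent.Helper23.FB.Inst.iAddMonoid Pool.Agent.Helper23.FB.Inst.iSMulZeroC
  Pool.Agent.Helper23.FB.Inst.iMulActC Pool.Agent.Helper23.FB.Inst.iDSMulC
  Pool.Agent.Helper23.FB.Inst.iDSMulR Pool.Agent.Helper23.FB.Inst.iSNAG
  Pool.Agent.Helper23.FB.Inst.iSNACG Pool.Agent.Helper23.FB.Inst.iNorm
  Pool.Agent.Helper23.FB.Inst.iNSC' Pool.Agent.Helper23.FB.Inst.iNSR'
  Pool.Agent.Helper23.FB.Inst.iTop Pool.Agent.Helper23.FB.Inst.iT2 Pool.Agent.Helper23.FB.Inst.iTR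
  Pool.Agent.Helper23.FB.Inst.iSCC Pool.Agent.Helper23.FB.Inst.iIST
  Pool.Agent.Helper23.FB.Inst.iSCCR Pool.Agent.Helper23.FB.Inst.iISTR
  Pool.Agent.Helper23.FB.Inst.iZHC Pool.Agent.Helper23.FB.Inst.iAHC
  Pool.Agent.Helper23.FB.Inst.iAMHC Pool.Agent.Helper23.FB.Inst.iMAHC
  Pool.Agent.Helper23.FB.Inst.lTop Pool.Agent.Helper23.FB.Inst.lUnif
  Pool.Agent.Helper23.FB.Inst.lACM Pool.Agent.Helper23.FB.Inst.lACG
  Pool.Agent.Helper23.FB.Inst.lSNAG Pool.Agent.Helper23.FB.Inst.lSNACG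
  Pool.Agent.Helper23.FB.Inst.lNACG Pool.Agent.Helper23.FB.Inst.lNorm
  Pool.Agent.Helper23.FB.Inst.lIPS Pool.Agent.Helper23.FB.Inst.lMod
  Pool.Agent.Helper23.FB.Inst.lSMul Pool.Agent.Helper23.FB.Inst.lT2
  Pool.Agent.Helper23.FB.Inst.iStar Pool.Agent.Helper23.FB.Inst.iStarMul
  Pool.Agent.Helper23.FB.Inst.iStarAddMonoid Pool.Agent.Helper23.FB.Inst.iStarRing
  Pool.Agent.Helper23.FB.Inst.iNSC Pool.Agent.Helper23.FB.Inst.iSOR
  Pool.Agent.Helper23.FB.Inst.iALM Pool.Agent.Helper23.FB.Inst.iARM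
  Pool.Agent.Helper23.FB.Inst.iCFC Pool.Agent.Helper23.FB.Inst.iNCFC
  Pool.Agent.Helper23.FB.Inst.iStarModR Pool.Agent.Helper23.FB.Inst.iStarModC
  Pool.Agent.Helper23.FB.Inst.eStar Pool.Agent.Helper23.FB.Inst.eAdd
  Pool.Agent.Helper23.FB.Inst.eMul Pool.Agent.Helper23.FB.Inst.eOne
  Pool.Agent.Helper23.FB.Inst.eZero Pool.Agent.Helper23.FB.Inst.eMulAction
  Pool.Agent.Helper23.FB.Inst.eAMHC2 Pool.Agent.Helper23.FB.Inst.eZHC2
  Pool.Agent.Helper23.FB.Inst.lAMHC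

namespace Pool.Agent.Helper23
end Pool.Agent.Helper23
namespace Pool.Agent.Helper23.RBF
end Pool.Agent.Helper23.RBF

section

section

open scoped InnerProductSpace Topology ENNReal

open ContinuousLinearMap Filter MeasureTheory

set_option linter.unusedSectionVars false

set_option linter.unusedVariables false

namespace Pool.Agent.Helper23

variable {H : Type*} [NormedAddCommGroup H] [InnerProductSpace ℂ H] [CompleteSpace H]

variable {M N : VonNeumannAlgebra H} {ξ : H} {E : (H →L[ℂ] H) → (H →L[ℂ] H)}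

lemma SX_def (ξ : H) (Y : L2R H →L[ℂ] L2R H) :
    SX ξ Y = ∑' j : JJ, ENNReal.ofReal (‖Y (ten (gJ j) ξ)‖ ^ 2) := rfl

end Pool.Agent.Helper23

end

section

open scoped InnerProductSpace Topology ENNReal

open ContinuousLinearMap Filter MeasureTheory

set_option linter.unusedSectionVars false

set_option linter.unusedVariables false

namespace Pool.Agent.Helper23

variable {H : Type*} [NormedAddCommGroup H] [InnerProductSpace ℂ H] [CompleteSpace H]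

variable {M N : VonNeumannAlgebra H} {ξ : H} {E : (H →L[ℂ] H) → (H →L[ℂ] H)}

lemma hasSum_TT {W : L2R H →L[ℂ] L2R H} (h : SX ξ W ≠ ⊤) :
    HasSum (fun j : JJ => (((‖W (ten (gJ j) ξ)‖ : ℝ) : ℂ)) ^ 2) (((SX ξ W).toReal : ℝ) : ℂ) := by
  rw [SX_def] at h
  have h1 := ENNReal.hasSum_toReal h
  rw [← ENNReal.tsum_toReal_eq (fun j => ENNReal.ofReal_ne_top)] at h1
  have h2 : (fun j : JJ => (ENNReal.ofReal (‖W (ten (gJ j) ξ)‖ ^ 2)).toReal) =
      fun j => ‖W (ten (gJ j) ξ)‖ ^ 2 := by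
    funext j
    exact ENNReal.toReal_ofReal (by (clear * -; positivity))
  rw [h2, ← SX_def] at h1
  have h3 := Complex.hasSum_ofReal.2 h1
  have h4 : (fun j : JJ => (((‖W (ten (gJ j) ξ)‖ : ℝ) : ℂ)) ^ 2) =
      fun j : JJ => ((‖W (ten (gJ j) ξ)‖ ^ 2 : ℝ) : ℂ) := by
    funext j
    push_cast
    rfl
  rw [h4]
  exact h3

lemma SX_add_ne_top {W Z : L2R H →L[ℂ] L2R H} (hW : SX ξ W ≠ ⊤) (hZ : SX ξ Z ≠ ⊤) :
    SX ξ (W + Z) ≠ ⊤ := by
  have h1 : SX ξ (W + Z) ≤ 2 * (SX ξ W + SX ξ Z) := by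
    rw [SX_def, SX_def, SX_def, ← ENNReal.tsum_add, ← ENNReal.tsum_mul_left]
    refine ENNReal.tsum_le_tsum fun j => ?_
    rw [← ENNReal.ofReal_add (by (clear * -; positivity)) (by (clear * -; positivity)), two_mul_ofReal]
    refine ENNReal.ofReal_le_ofReal ?_
    rw [add_apply]
    have h2 := parallelogram_law_with_norm ℂ (W (ten (gJ j) ξ)) (Z (ten (gJ j) ξ))
    nlinarith [sq_nonneg (‖W (ten (gJ j) ξ) - Z (ten (gJ j) ξ)‖)]
  refine ne_top_of_le_ne_top ?_ h1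
  exact ENNReal.mul_ne_top (by norm_num) (ENNReal.add_ne_top.2 ⟨hW, hZ⟩)

lemma SX_smul (c : ℂ) (W : L2R H →L[ℂ] L2R H) :
    SX ξ (c • W) = ENNReal.ofReal (‖c‖ ^ 2) * SX ξ W := by
  rw [SX_def, SX_def, ← ENNReal.tsum_mul_left]
  refine tsum_congr fun j => ?_
  rw [smul_apply, norm_smul, mul_pow, ENNReal.ofReal_mul (by (clear * -; positivity))]

lemma SX_smul_ne_top (c : ℂ) {W : L2R H →L[ℂ] L2R H} (hW : SX ξ W ≠ ⊤) : SX ξ (c • W) ≠ ⊤ := by
  rw [SX_smul]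
  exact ENNReal.mul_ne_top ENNReal.ofReal_ne_top hW

end Pool.Agent.Helper23

end

section

open scoped InnerProductSpace Topology ENNReal

open ContinuousLinearMap Filter MeasureTheory

set_option linter.unusedSectionVars false

set_option linter.unusedVariables false

namespace Pool.Agent.Helper23

variable {H : Type*} [NormedAddCommGroup H] [InnerProductSpace ℂ H] [CompleteSpace H]

variable {M N : VonNeumannAlgebra H} {ξ : H} {E : (H →L[ℂ] H) → (H →L[ℂ] H)}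

/-- the weight on the amplification -/
noncomputable def wK (ξ : H) (X : L2R H →L[ℂ] L2R H) : ℝ≥0∞ :=
  ∑' j : JJ, ENNReal.ofReal (⟪ten (gJ j) ξ, X (ten (gJ j) ξ)⟫_ℂ).re

lemma wK_star_mul (ξ : H) (Y : L2R H →L[ℂ] L2R H) : wK ξ (star Y * Y) = SX ξ Y := by
  rw [wK, SX_def]
  refine tsum_congr fun j => ?_
  congr 1
  have h := norm_sq_apply Y (ten (gJ j) ξ)
  change (⟪ten (gJ j) ξ, (star Y) (Y (ten (gJ j) ξ))⟫_ℂ).re = _
  rw [← h, Complex.ofReal_re]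

end Pool.Agent.Helper23

end

end

section

section

open scoped InnerProductSpace ComplexOrder ComplexStarModule

open ContinuousLinearMap

namespace Pool.Agent.Helper23

variable {H : Type*} [NormedAddCommGroup H] [InnerProductSpace ℂ H] [CompleteSpace H]

section Abstract

variable {A : Type*} [CStarAlgebra A] [PartialOrder A] [StarOrderedRing A]

/-- One-sided domination. -/
theorem exists_dom_abs [Nontrivial A] (ρ : A →⋆ₐ[ℂ] (H →L[ℂ] H)) {ξ η : H}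
    {l δ : ℝ} (hl : 0 ≤ l) (hδ : 0 ≤ δ)
    (h : ∀ x : A, 0 ≤ x → (⟪η, ρ x η⟫_ℂ).re ≤ l * (⟪ξ, ρ x ξ⟫_ℂ).re + δ * ‖x‖) :
    ∃ y : H →L[ℂ] H, (∀ a, ρ a * y = y * ρ a) ∧ ‖y‖ ≤ Real.sqrt l ∧ ‖y ξ - η‖ ^ 2 ≤ δ := by
  have hpos : ∀ (ζ : H) (x : A), 0 ≤ x → 0 ≤ (vecL ρ ζ x).re ∧ (vecL ρ ζ x).im = 0 := by
    intro ζ x hx
    obtain ⟨b, rfl⟩ := CStarAlgebra.nonneg_iff_eq_star_mul_self.1 hx
    rw [vecL_star_mul]
    exact ⟨by rw [Complex.ofReal_re]; positivity, Complex.ofReal_im _⟩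
  let ψ : selfAdjoint A →ₗ[ℝ] ℝ :=
    { toFun := fun x => (vecL ρ η (x : A)).re - l * (vecL ρ ξ (x : A)).re
      map_add' := by
        intro x y
        have : ((x + y : selfAdjoint A) : A) = (x : A) + (y : A) := rfl
        rw [this, map_add, map_add, Complex.add_re, Complex.add_re]
        ring
      map_smul' := by
        intro c x
        have : ((c • x : selfAdjoint A) : A) = (c : ℂ) • (x : A) := by
          rw [Complex.coe_smul]; rfl
        rw [this, map_smul, map_smul]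
        simp only [smul_eq_mul, Complex.re_ofReal_mul, RingHom.id_apply]
        ring }
  have hψ : ∀ x : selfAdjoint A, ψ x = (vecL ρ η (x : A)).re - l * (vecL ρ ξ (x : A)).re :=
    fun x => rfl
  obtain ⟨κ, hκ0, hκ1, hκ2⟩ := exists_jordan_one ψ (δ := δ) (by
      intro x hx
      rw [hψ]
      have h1 := h (x : A) hx
      have h2 : ‖x‖ = ‖(x : A)‖ := rfl
      rw [h2]
      change (⟪η, ρ (x : A) η⟫_ℂ).re - l * (⟪ξ, ρ (x : A) ξ⟫_ℂ).re ≤ _
      (clear * - h1; linarith)) hδ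
  have hκx : ∀ (x : A) (hx : 0 ≤ x), cplx κ x = ((κ ⟨x, (IsSelfAdjoint.of_nonneg hx)⟩ : ℝ) : ℂ) :=
    fun x hx => cplx_sa κ ⟨x, (IsSelfAdjoint.of_nonneg hx)⟩
  have hre : ∀ (ζ : H) (x : A), 0 ≤ x → vecL ρ ζ x = (((vecL ρ ζ x).re : ℝ) : ℂ) := by
    intro ζ x hx
    apply Complex.ext
    · simp
    · simp [(hpos ζ x hx).2]
  let χ : A →ₚ[ℂ] ℂ := PositiveLinearMap.mk₀ ((l : ℂ) • vecL ρ ξ + cplx κ) (by
    intro x hx
    rw [LinearMap.add_apply, hκx x hx, LinearMap.smul_apply, hre ξ x hx, smul_eq_mul,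
      ← Complex.ofReal_mul, ← Complex.ofReal_add, Complex.zero_le_real]
    exact add_nonneg (mul_nonneg hl (hpos ξ x hx).1) (hκ0 _ hx))
  have hχ : ∀ x, χ x = (l : ℂ) * vecL ρ ξ x + cplx κ x := fun x => rfl
  have hχre : ∀ (x : A) (hx : 0 ≤ x), (χ x).re = l * (vecL ρ ξ x).re +
      κ ⟨x, (IsSelfAdjoint.of_nonneg hx)⟩ := by
    intro x hx
    rw [hχ, Complex.add_re, hκx x hx, Complex.ofReal_re, Complex.re_ofReal_mul]
  set s : ℝ := Real.sqrt l with hs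
  have hs2 : s ^ 2 = l := Real.sq_sqrt hl
  have hs0 : 0 ≤ s := Real.sqrt_nonneg l
  obtain ⟨T, hT, hT1, hTρ⟩ := exists_gns_op ρ ((s : ℂ) • ξ) χ (by
    intro x
    rw [hχre _ (star_mul_self_nonneg x), vecL_star_mul, Complex.ofReal_re, map_smul, norm_smul,
      mul_pow, Complex.norm_real, Real.norm_of_nonneg hs0, hs2]
    have := hκ0 ⟨star x * x, IsSelfAdjoint.of_nonneg (star_mul_self_nonneg x)⟩
      (star_mul_self_nonneg x)
    (clear * - this; linarith))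
  obtain ⟨U, hU, hU1, hUρ⟩ := exists_gns_op ρ η χ (by
    intro x
    rw [hχre _ (star_mul_self_nonneg x)]
    have := hκ1 ⟨star x * x, IsSelfAdjoint.of_nonneg (star_mul_self_nonneg x)⟩
      (star_mul_self_nonneg x)
    rw [hψ, vecL_star_mul, Complex.ofReal_re] at this
    linarith)
  -- adjoint intertwining
  have hTadj : ∀ (a : A) (v : H), (ContinuousLinearMap.adjoint T) (ρ a v) =
      χ.gnsStarAlgHom a ((ContinuousLinearMap.adjoint T) v) := by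
    intro a v
    apply ext_inner_right ℂ
    intro w
    rw [ContinuousLinearMap.adjoint_inner_left]
    have h2 : χ.gnsStarAlgHom a = star (χ.gnsStarAlgHom (star a)) := by
      rw [← map_star, star_star]
    rw [h2, ContinuousLinearMap.star_eq_adjoint, ContinuousLinearMap.adjoint_inner_left,
      ContinuousLinearMap.adjoint_inner_left, hTρ, map_star, inner_star_right]
  set e1 : χ.GNS := ((χ.toPreGNS 1 : χ.PreGNS) : χ.GNS) with he1
  have hTe : T e1 = (s : ℂ) • ξ := by rw [he1, hT, map_one]; rfl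
  have hUe : U e1 = η := by rw [he1, hU, map_one]; rfl
  have hξ2 : (vecL ρ ξ 1).re = ‖ξ‖ ^ 2 := by
    change (⟪ξ, ρ 1 ξ⟫_ℂ).re = _
    rw [map_one, one_apply_eq_self, inner_self_eq_norm_sq_to_K]
    norm_cast
  have hne : ‖e1‖ ^ 2 ≤ l * ‖ξ‖ ^ 2 + δ := by
    rw [he1, UniformSpace.Completion.norm_coe]
    have h3 := χ.preGNS_norm_sq (χ.toPreGNS 1)
    rw [PositiveLinearMap.ofPreGNS_toPreGNS, star_one, one_mul] at h3
    have h2 : ‖χ.toPreGNS (1 : A)‖ ^ 2 = (χ 1).re := by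
      rw [← h3]
      norm_cast
    rw [h2, hχre 1 zero_le_one, hξ2]
    have : (⟨1, (IsSelfAdjoint.of_nonneg (zero_le_one : (0 : A) ≤ 1))⟩ : selfAdjoint A) = 1 := rfl
    rw [this]
    linarith
  have hadj1 : ‖ContinuousLinearMap.adjoint T‖ ≤ 1 := by
    rw [LinearIsometryEquiv.norm_map]
    exact hT1
  refine ⟨(s : ℂ) • (U.comp (ContinuousLinearMap.adjoint T)), fun a => ?_, ?_, ?_⟩
  · ext v
    change ρ a ((s : ℂ) • U ((ContinuousLinearMap.adjoint T) v)) =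
      (s : ℂ) • U ((ContinuousLinearMap.adjoint T) (ρ a v))
    rw [hTadj, hUρ, map_smul]
  · rw [norm_smul, Complex.norm_real, Real.norm_of_nonneg hs0]
    calc s * ‖U.comp (ContinuousLinearMap.adjoint T)‖ ≤
        s * (‖U‖ * ‖ContinuousLinearMap.adjoint T‖) := by
          gcongr
          exact ContinuousLinearMap.opNorm_comp_le _ _
      _ ≤ s * (1 * 1) := by (clear * - hU1 hadj1; gcongr)
      _ = s := by ring
  · have h4 : ((s : ℂ) • (U.comp (ContinuousLinearMap.adjoint T))) ξ - η =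
        U ((ContinuousLinearMap.adjoint T) ((s : ℂ) • ξ) - e1) := by
      rw [map_sub, hUe, map_smul, map_smul]
      rfl
    have h5 : ‖((s : ℂ) • (U.comp (ContinuousLinearMap.adjoint T))) ξ - η‖ ≤
        ‖(ContinuousLinearMap.adjoint T) ((s : ℂ) • ξ) - e1‖ := by
      rw [h4]
      have := U.le_of_opNorm_le hU1 ((ContinuousLinearMap.adjoint T) ((s : ℂ) • ξ) - e1)
      rwa [one_mul] at this
    have h6 : ‖(ContinuousLinearMap.adjoint T) ((s : ℂ) • ξ)‖ ≤ ‖(s : ℂ) • ξ‖ := by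
      have := (ContinuousLinearMap.adjoint T).le_of_opNorm_le hadj1 ((s : ℂ) • ξ)
      rwa [one_mul] at this
    have h8 := @norm_sub_sq ℂ _ _ _ _ ((ContinuousLinearMap.adjoint T) ((s : ℂ) • ξ)) e1
    rw [ContinuousLinearMap.adjoint_inner_left, hTe, inner_self_eq_norm_sq_to_K] at h8
    have h12 : ‖(s : ℂ) • ξ‖ ^ 2 = l * ‖ξ‖ ^ 2 := by
      rw [norm_smul, mul_pow, Complex.norm_real, Real.norm_of_nonneg hs0, hs2]
    have h9 : ‖(ContinuousLinearMap.adjoint T) ((s : ℂ) • ξ) - e1‖ ^ 2 ≤ δ := by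
      rw [h8]
      have h10 := pow_le_pow_left₀ (norm_nonneg _) h6 2
      have h11 : RCLike.re ((‖(s : ℂ) • ξ‖ : ℂ) ^ 2) = ‖(s : ℂ) • ξ‖ ^ 2 := by
        norm_cast
      have h13 : RCLike.re ((((‖(s : ℂ) • ξ‖ : ℝ) : ℂ)) ^ 2) = ‖(s : ℂ) • ξ‖ ^ 2 := h11
      erw [h13]
      linarith
    exact (pow_le_pow_left₀ (norm_nonneg _) h5 2).trans h9

end Abstract

/-- One-sided domination for a von Neumann algebra. -/
theorem exists_dom_comm (M : VonNeumannAlgebra H) {ξ η : H} {l δ : ℝ} (hl : 0 ≤ l) (hδ : 0 ≤ δ)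
    (h : ∀ x ∈ M, 0 ≤ x → (⟪η, x η⟫_ℂ).re ≤ l * (⟪ξ, x ξ⟫_ℂ).re + δ * ‖x‖) :
    ∃ y ∈ M.commutant, ‖y‖ ≤ Real.sqrt l ∧ ‖y ξ - η‖ ^ 2 ≤ δ := by
  rcases subsingleton_or_nontrivial H with hsub | hnt
  · refine ⟨0, zero_mem _, by rw [norm_zero]; exact Real.sqrt_nonneg l, ?_⟩
    have : (0 : H →L[ℂ] H) ξ - η = 0 := Subsingleton.elim _ _
    rw [this, norm_zero]
    simpa using hδ
  have : IsClosed (M.toStarSubalgebra : Set (H →L[ℂ] H)) := vN_isClosed M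
  let _ : PartialOrder M.toStarSubalgebra := CStarAlgebra.spectralOrder _
  let _ : StarOrderedRing M.toStarSubalgebra := CStarAlgebra.spectralOrderedRing _
  obtain ⟨y, hy, hy1, hy2⟩ := exists_dom_abs (A := M.toStarSubalgebra)
    M.toStarSubalgebra.subtype hl hδ (η := η) (ξ := ξ) (fun x hx => h x x.2 (by
      obtain ⟨b, rfl⟩ := CStarAlgebra.nonneg_iff_eq_star_mul_self.1 hx
      exact star_mul_self_nonneg (b : H →L[ℂ] H)))
  refine ⟨y, ?_, hy1, hy2⟩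
  rw [mem_comm_iff]
  intro g hg
  exact hy ⟨g, hg⟩

end Pool.Agent.Helper23

end

end

section

section

open scoped InnerProductSpace BoundedContinuousFunction

open ContinuousLinearMap Filter

namespace Pool.Agent.Helper23

variable {H : Type*} [NormedAddCommGroup H] [InnerProductSpace ℂ H] [CompleteSpace H]

variable {M N : VonNeumannAlgebra H} {ξ : H} {E : (H →L[ℂ] H) → (H →L[ℂ] H)}

lemma Defect.change {l l' δ : ℝ} (hξ : ‖ξ‖ = 1) {a : H →L[ℂ] H} (h : Defect N ξ l δ a) :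
    Defect N ξ l' (δ + |l - l'| * ‖a‖) a := by
  intro z hz
  have e : ⟪ξ, z (a ξ)⟫_ℂ - l' * ⟪ξ, a (z ξ)⟫_ℂ =
      (⟪ξ, z (a ξ)⟫_ℂ - l * ⟪ξ, a (z ξ)⟫_ℂ) + ((l - l' : ℝ) : ℂ) * ⟪ξ, a (z ξ)⟫_ℂ := by
    push_cast
    ring
  rw [e]
  have h1 : ‖⟪ξ, a (z ξ)⟫_ℂ‖ ≤ ‖a‖ * ‖z‖ := by
    calc ‖⟪ξ, a (z ξ)⟫_ℂ‖ ≤ ‖ξ‖ * ‖a (z ξ)‖ := norm_inner_le_norm _ _
      _ ≤ 1 * (‖a‖ * (‖z‖ * ‖ξ‖)) := by
          rw [hξ]
          gcongr
          exact (a.le_opNorm _).trans (mul_le_mul_of_nonneg_left (by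
            have := z.le_opNorm ξ
            rwa [hξ] at this) (norm_nonneg _))
      _ = ‖a‖ * ‖z‖ := by rw [hξ]; ring
  calc _ ≤ ‖⟪ξ, z (a ξ)⟫_ℂ - l * ⟪ξ, a (z ξ)⟫_ℂ‖ +
        ‖((l - l' : ℝ) : ℂ) * ⟪ξ, a (z ξ)⟫_ℂ‖ := norm_add_le _ _
    _ ≤ δ * ‖z‖ + |l - l'| * (‖a‖ * ‖z‖) := by
        rw [norm_mul, Complex.norm_real, Real.norm_eq_abs]
        gcongr
        exact h z hz
    _ = _ := by ring

lemma Dseq.change (hξ : ‖ξ‖ = 1) {l : ℝ} {l' : ℕ → ℝ} (hl : Tendsto l' atTop (nhds l))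
    {a : ℕ → H →L[ℂ] H} {C : ℝ} (hC : ∀ n, ‖a n‖ ≤ C)
    (h : ∀ ε : ℝ, 0 < ε → ∀ᶠ n in atTop, Defect N ξ (l' n) ε (a n)) : Dseq N ξ l a := by
  intro ε hε
  have hC0 : 0 ≤ C := (norm_nonneg _).trans (hC 0)
  have h1 := (Metric.tendsto_nhds.1 hl) (ε / 2 / (C + 1)) (by (clear * - hε hC0; positivity))
  filter_upwards [h (ε / 2) (by (clear * - hε; positivity)), h1] with n h2 h3
  refine (h2.change (l' := l) hξ).mono ?_
  rw [Real.dist_eq] at h3
  have h4 : |l' n - l| * ‖a n‖ ≤ ε / 2 / (C + 1) * (C + 1) := by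
    gcongr
    exact (hC n).trans (by (clear * -; linarith))
  rw [div_mul_cancel₀ _ (by (clear * - hC0; positivity))] at h4
  (clear * - h4; linarith)

end Pool.Agent.Helper23

end

end

section

section

open scoped InnerProductSpace Topology ENNReal

open ContinuousLinearMap Filter MeasureTheory

set_option linter.unusedSectionVars false

set_option linter.unusedVariables false

namespace Pool.Agent.Helper23

variable {H : Type*} [NormedAddCommGroup H] [InnerProductSpace ℂ H] [CompleteSpace H]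

variable {M N : VonNeumannAlgebra H} {ξ : H} {E : (H →L[ℂ] H) → (H →L[ℂ] H)}

section general

variable {L : Type*} [NormedAddCommGroup L] [InnerProductSpace ℂ L] [CompleteSpace L]

lemma exists_sqrt_mem (A : VonNeumannAlgebra L) {X : L →L[ℂ] L} (hX : X ∈ A) (h0 : 0 ≤ X) :
    ∃ Y ∈ A, star Y * Y = X := by
  have : IsClosed (A : Set (L →L[ℂ] L)) := vN_isClosed A
  have : IsClosed (A.toStarSubalgebra : Set (L →L[ℂ] L)) := vN_isClosed A
  refine ⟨CFC.sqrt X, ?_, ?_⟩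
  · rw [CFC.sqrt_eq_real_sqrt X h0]
    have h1 : cfcₙ Real.sqrt X ∈ A.toStarSubalgebra := by
      refine cfcₙ_mem (s := A.toStarSubalgebra) Real.sqrt ?_
      exact hX
    exact h1
  · rw [(IsSelfAdjoint.of_nonneg (CFC.sqrt_nonneg X)).star_eq]
    exact CFC.sqrt_mul_sqrt_self X h0

end general

end Pool.Agent.Helper23

end

section

open scoped InnerProductSpace Topology ENNReal BoundedContinuousFunction

open ContinuousLinearMap Filter MeasureTheory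

namespace Pool.Agent.Helper23.ED

open Pool.Agent.Helper23 Pool.Agent.Helper23.RBF

open Pool.Agent.Helper78.BC.Transport (Sub r)

universe u

variable {H : Type u} [NormedAddCommGroup H] [InnerProductSpace ℂ H] [CompleteSpace H]

variable {K : Type u} [NormedAddCommGroup K] [InnerProductSpace ℂ K] [CompleteSpace K]

variable {L : Type u} [NormedAddCommGroup L] [InnerProductSpace ℂ L] [CompleteSpace L]

variable {N : VonNeumannAlgebra H} {ψ : (H →L[ℂ] H) → ℝ≥0∞} {ξ : H} {i : K →L[ℂ] H} {κ : K}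
  {Λ : (H →L[ℂ] H) → L} {ρ : (H →L[ℂ] H) → (L →L[ℂ] L)}

theorem Gp_dense (Sb : Sub N ξ i κ) (hψ : IsNSFWeight N ψ) (hG : Gns N ψ Λ ρ) (η : K)
    (h : ∀ p ∈ Gp N ψ ξ i Λ, ⟪p.1, η⟫_ℂ = 0) : η = 0 := by
  refine Sb.i_inj ?_
  rw [map_zero]
  refine hψ.semifinite (i η) fun x hx hx0 hxt => ?_
  obtain ⟨Y, hY, hYx⟩ := exists_sqrt_mem N hx hx0
  have ha : star Y ∈ Dm N ψ := by
    refine ⟨star_mem hY, ?_⟩
    rw [star_star, hYx]
    exact hxt
  have h1 : ∀ p ∈ N, ⟪p ξ, Y (i η)⟫_ℂ = 0 := by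
    intro p hp
    have h2 : star Y * p ∈ Dm N ψ := Dm_mul hψ ha hp
    have h3 : i (r i (star Y * p) κ) = (star Y * p) ξ := by
      rw [Sb.i_r h2.1, Sb.vec]
    have h4 := h (r i (star Y * p) κ, Λ (star Y * p)) ⟨_, h2, h3, rfl⟩
    have h5 : ⟪i (r i (star Y * p) κ), i η⟫_ℂ = ⟪r i (star Y * p) κ, η⟫_ℂ := by
      rw [← adjoint_inner_right, Sb.isom]
    rw [h4, h3, mul_apply_eq_comp, ContinuousLinearMap.star_eq_adjoint, adjoint_inner_left] at h5
    exact h5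
  set w : K := r i Y η with hw
  have hiw : i w = Y (i η) := Sb.i_r hY η
  have h6 : i w = 0 := by
    by_contra hne
    have hpos : 0 < ‖i w‖ := norm_pos_iff.2 hne
    obtain ⟨p, hp, hlt⟩ := Sb.cyc w ‖i w‖ hpos
    have h7 : ⟪i w, i w⟫_ℂ = ⟪i w - p ξ, i w⟫_ℂ := by
      rw [inner_sub_left, hiw, h1 p hp, sub_zero]
    have h8 : ‖i w‖ ^ 2 ≤ ‖i w - p ξ‖ * ‖i w‖ := by
      have h9 := norm_inner_le_norm (𝕜 := ℂ) (i w - p ξ) (i w)
      rw [← h7, inner_self_eq_norm_sq_to_K] at h9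
      simpa using h9
    rw [norm_sub_rev] at hlt
    (clear * - h8 hpos hlt; nlinarith)
  rw [← hYx, mul_apply_eq_comp, ← hiw, h6, map_zero]

end Pool.Agent.Helper23.ED

end

end

section

section

open scoped InnerProductSpace Topology ENNReal

open ContinuousLinearMap Filter MeasureTheory

set_option linter.unusedSectionVars false

set_option linter.unusedVariables false

namespace Pool.Agent.Helper23

variable {H : Type*} [NormedAddCommGroup H] [InnerProductSpace ℂ H] [CompleteSpace H]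

variable {M N : VonNeumannAlgebra H} {ξ : H} {E : (H →L[ℂ] H) → (H →L[ℂ] H)}

/-- polarized sums -/
lemma hasSum_polar {Z Y : L2R H →L[ℂ] L2R H} (hZ : SX ξ Z ≠ ⊤) (hY : SX ξ Y ≠ ⊤) :
    HasSum (fun j : JJ => ⟪Z (ten (gJ j) ξ), Y (ten (gJ j) ξ)⟫_ℂ)
      (((((SX ξ (Z + Y)).toReal : ℝ) : ℂ) - (((SX ξ (Z + (-1 : ℂ) • Y)).toReal : ℝ) : ℂ) +
        ((((SX ξ (Z + (-Complex.I) • Y)).toReal : ℝ) : ℂ) -
          (((SX ξ (Z + Complex.I • Y)).toReal : ℝ) : ℂ)) * Complex.I) / 4) := by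
  have h1 := hasSum_TT (SX_add_ne_top hZ hY)
  have h2 := hasSum_TT (SX_add_ne_top hZ (SX_smul_ne_top (-1) hY))
  have h3 := hasSum_TT (SX_add_ne_top hZ (SX_smul_ne_top (-Complex.I) hY))
  have h4 := hasSum_TT (SX_add_ne_top hZ (SX_smul_ne_top Complex.I hY))
  have h5 := ((h1.sub h2).add ((h3.sub h4).mul_right Complex.I)).div_const 4
  have h6 : (fun j : JJ => ⟪Z (ten (gJ j) ξ), Y (ten (gJ j) ξ)⟫_ℂ) = fun j : JJ =>
      ((((‖(Z + Y) (ten (gJ j) ξ)‖ : ℝ) : ℂ)) ^ 2 -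
        (((‖(Z + (-1 : ℂ) • Y) (ten (gJ j) ξ)‖ : ℝ) : ℂ)) ^ 2 +
        ((((‖(Z + (-Complex.I) • Y) (ten (gJ j) ξ)‖ : ℝ) : ℂ)) ^ 2 -
          (((‖(Z + Complex.I • Y) (ten (gJ j) ξ)‖ : ℝ) : ℂ)) ^ 2) * Complex.I) / 4 := by
    funext j
    rw [inner_eq_sum_norm_sq_div_four]
    simp only [add_apply, smul_apply, neg_smul, one_smul, ← sub_eq_add_neg]
    rfl
  rw [h6]
  exact h5

/-- the polarized invariance -/
lemma polar_inv {u : L2R H →L[ℂ] L2R H} (hu : u ∈ GK N ξ) {Z Y : L2R H →L[ℂ] L2R H}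
    (hZA : Z ∈ amp N) (hYA : Y ∈ amp N) (hZ : SX ξ Z ≠ ⊤) (hY : SX ξ Y ≠ ⊤) :
    ∑' j : JJ, ⟪(Z * u) (ten (gJ j) ξ), (Y * u) (ten (gJ j) ξ)⟫_ℂ =
      ∑' j : JJ, ⟪Z (ten (gJ j) ξ), Y (ten (gJ j) ξ)⟫_ℂ := by
  have hZu : SX ξ (Z * u) ≠ ⊤ := by rw [hu.2.2.2 Z hZA]; exact hZ
  have hYu : SX ξ (Y * u) ≠ ⊤ := by rw [hu.2.2.2 Y hYA]; exact hY
  rw [(hasSum_polar hZ hY).tsum_eq, (hasSum_polar hZu hYu).tsum_eq]
  have h1 : ∀ c : ℂ, Z * u + c • (Y * u) = (Z + c • Y) * u := by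
    intro c; rw [add_mul, smul_mul_assoc]
  have h2 : Z * u + Y * u = (Z + Y) * u := by rw [add_mul]
  rw [h1, h1, h1, h2, hu.2.2.2 _ (add_mem hZA hYA),
    hu.2.2.2 _ (add_mem hZA (smul_mem' _ hYA)), hu.2.2.2 _ (add_mem hZA (smul_mem' _ hYA)),
    hu.2.2.2 _ (add_mem hZA (smul_mem' _ hYA))]

end Pool.Agent.Helper23

end

end

section

section

open scoped InnerProductSpace Topology ENNReal

open ContinuousLinearMap Filter MeasureTheory

set_option linter.unusedSectionVars false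

set_option linter.unusedVariables false

namespace Pool.Agent.Helper23

variable {H : Type*} [NormedAddCommGroup H] [InnerProductSpace ℂ H] [CompleteSpace H]

variable {M N : VonNeumannAlgebra H} {ξ : H} {E : (H →L[ℂ] H) → (H →L[ℂ] H)}

open RBF in
lemma GK_iff {u : L2R H →L[ℂ] L2R H} : u ∈ GK N ξ ↔ ScalingUnitary (amp N) (wK ξ) 1 u := by
  constructor
  · rintro ⟨h1, h2, h3, h4⟩
    refine ⟨h1, h2, h3, fun X hX hX0 => ?_⟩
    obtain ⟨Y, hY, rfl⟩ := exists_sqrt_mem (amp N) hX hX0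
    have : star u * (star Y * Y) * u = star (Y * u) * (Y * u) := by
      rw [star_mul]; simp only [mul_assoc]
    rw [this, wK_star_mul, wK_star_mul, h4 Y hY, ENNReal.ofReal_one, one_mul]
  · rintro ⟨h1, h2, h3, h4⟩
    refine ⟨h1, h2, h3, fun Y hY => ?_⟩
    have := h4 (star Y * Y) (mul_mem (star_mem hY) hY) (star_mul_self_nonneg _)
    have h5 : star u * (star Y * Y) * u = star (Y * u) * (Y * u) := by
      rw [star_mul]; simp only [mul_assoc]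
    rw [h5, wK_star_mul, wK_star_mul, ENNReal.ofReal_one, one_mul] at this
    exact this

end Pool.Agent.Helper23

end

end
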