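import Pool.Agent.Helper23.FB.L00_a0
import Pool.Agent.Helper23.FB.L00_a13
import Pool.Agent.Helper23.FB.L00_a2
import Pool.Agent.Helper23.FB.L00_a5
import Pool.Agent.Helper23.FB.L00_a6
import Pool.Agent.Helper23.FB.L00_a7

/-!
Parts of Helper23.FA.L00_01, Helper23.FA.L00_03, Helper23.FA.L01_00, Helper23.FA.L01_09, Helper23.FA.L02_13
-/

attribute [local instance 5000]
  Pool.Agent.Helper23.FB.Inst.rCharZero Pool.Agent.Helper23.FB.Inst.rALM
  Pool.Agent.Helper23.FB.Inst.rARM Pool.Agent.Helper23.FB.Inst.rALSM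
  Pool.Agent.Helper23.FB.Inst.rARSM Pool.Agent.Helper23.FB.Inst.rARRLE
  Pool.Agent.Helper23.FB.Inst.rALRLE Pool.Agent.Helper23.FB.Inst.rARRLT
  Pool.Agent.Helper23.FB.Inst.rALRLT Pool.Agent.Helper23.FB.Inst.rPMRLT
  Pool.Agent.Helper23.FB.Inst.rMPRLT Pool.Agent.Helper23.FB.Inst.rPMM
  Pool.Agent.Helper23.FB.Inst.rMPM Pool.Agent.Helper23.FB.Inst.rPMSM
  Pool.Agent.Helper23.FB.Inst.rMPSM Pool.Agent.Helper23.FB.Inst.rEAOL
  Pool.Agent.Helper23.FB.Inst.rIOR Pool.Agent.Helper23.FB.Inst.rISOR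
  Pool.Agent.Helper23.FB.Inst.rFS Pool.Agent.Helper23.FB.Inst.rcCharZero
  Pool.Agent.Helper23.FB.Inst.rNZD Pool.Agent.Helper23.FB.Inst.rcNZD
  Pool.Agent.Helper23.FB.Inst.bSemiring Pool.Agent.Helper23.FB.Inst.bStar
  Pool.Agent.Helper23.FB.Inst.bAlg Pool.Agent.Helper23.FB.Inst.bSub
  Pool.Agent.Helper23.FB.Inst.bMul Pool.Agent.Helper23.FB.Inst.bAdd
  Pool.Agent.Helper23.FB.Inst.iRing Pool.Agent.Helper23.FB.Inst.iSemiring
  Pool.Agent.Helper23.FB.Inst.iAlgC Pool.Agent.Helper23.FB.Inst.iSMulC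
  Pool.Agent.Helper23.FB.Inst.iModC Pool.Agent.Helper23.FB.Inst.iAlgR
  Pool.Agent.Helper23.FB.Inst.iSMulR Pool.Agent.Helper23.FB.Inst.iModR
  Pool.Agent.Helper23.FB.Inst.iMonoid Pool.Agent.Helper23.FB.Inst.iSemigroup
  Pool.Agent.Helper23.FB.Inst.iMulOneClass Pool.Agent.Helper23.FB.Inst.iMul
  Pool.Agent.Helper23.FB.Inst.iAdd Pool.Agent.Helper23.FB.Inst.iSub
  Pool.Agent.Helper23.FB.Inst.iNeg Pool.Agent.Helper23.FB.Inst.iAddCommMonoid
  Pool.Agent.Helper23.FB.Inst.iAddCommGroup Pool.Agent.Helper23.FB.Inst.iAddGroup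
  Pool.Agent.Helper23.FB.Inst.iAddMonoid Pool.Agent.Helper23.FB.Inst.iSMulZeroC
  Pool.Agent.Helper23.FB.Inst.iMulActC Pool.Agent.Helper23.FB.Inst.iDSMulC
  Pool.Agent.Helper23.FB.Inst.iDSMulR Pool.Agent.Helper23.FB.Inst.iSNAG
  Pool.Agent.Helper23.FB.Inst.iSNACG Pool.Agent.Helper23.FB.Inst.iNorm
  Pool.Agent.Helper23.FB.Inst.iNSC' Pool.Agent.Helper23.FB.Inst.iNSR'
  Pool.Agent.Helper23.FB.Inst.iTop Pool.Agent.Helper23.FB.Inst.iT2 Pool.Agent.Helper23.FB.Inst.iTR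
  Pool.Agent.Helper23.FB.Inst.iSCC Pool.Agent.Helper23.FB.Inst.iIST
  Pool.Agent.Helper23.FB.Inst.iSCCR Pool.Agent.Helper23.FB.Inst.iISTR
  Pool.Agent.Helper23.FB.Inst.iZHC Pool.Agent.Helper23.FB.Inst.iAHC
  Pool.Agent.Helper23.FB.Inst.iAMHC Pool.Agent.Helper23.FB.Inst.iMAHC
  Pool.Agent.Helper23.FB.Inst.lTop Pool.Agent.Helper23.FB.Inst.lUnif
  Pool.Agent.Helper23.FB.Inst.lACM Pool.Agent.Helper23.FB.Inst.lACG
  Pool.Agent.Helper23.FB.Inst.lSNAG Pool.Agent.Helper23.FB.Inst.lSNACG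
  Pool.Agent.Helper23.FB.Inst.lNACG Pool.Agent.Helper23.FB.Inst.lNorm
  Pool.Agent.Helper23.FB.Inst.lIPS Pool.Agent.Helper23.FB.Inst.lMod
  Pool.Agent.Helper23.FB.Inst.lSMul Pool.Agent.Helper23.FB.Inst.lT2
  Pool.Agent.Helper23.FB.Inst.iStar Pool.Agent.Helper23.FB.Inst.iStarMul
  Pool.Agent.Helper23.FB.Inst.iStarAddMonoid Pool.Agent.Helper23.FB.Inst.iStarRing
  Pool.Agent.Helper23.FB.Inst.iNSC Pool.Agent.Helper23.FB.Inst.iSOR
  Pool.Agent.Helper23.FB.Inst.iALM Pool.Agent.Helper23.FB.Inst.iARM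
  Pool.Agent.Helper23.FB.Inst.iCFC Pool.Agent.Helper23.FB.Inst.iNCFC
  Pool.Agent.Helper23.FB.Inst.iStarModR Pool.Agent.Helper23.FB.Inst.iStarModC
  Pool.Agent.Helper23.FB.Inst.eStar Pool.Agent.Helper23.FB.Inst.eAdd
  Pool.Agent.Helper23.FB.Inst.eMul Pool.Agent.Helper23.FB.Inst.eOne
  Pool.Agent.Helper23.FB.Inst.eZero Pool.Agent.Helper23.FB.Inst.eMulAction
  Pool.Agent.Helper23.FB.Inst.eAMHC2 Pool.Agent.Helper23.FB.Inst.eZHC2
  Pool.Agent.Helper23.FB.Inst.lAMHC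

namespace Pool.Agent.Helper23
end Pool.Agent.Helper23
namespace Pool.Agent.Helper23.RBF
end Pool.Agent.Helper23.RBF
namespace Pool.Agent.Helper43.TTF
end Pool.Agent.Helper43.TTF

section

section

open scoped InnerProductSpace Topology BoundedContinuousFunction

open ContinuousLinearMap Filter MeasureTheory

namespace Pool.Agent.Helper23

variable {H : Type*} [NormedAddCommGroup H] [InnerProductSpace ℂ H] [CompleteSpace H]

variable {M N : VonNeumannAlgebra H} {ξ : H} {E : (H →L[ℂ] H) → (H →L[ℂ] H)}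

namespace U14

lemma fld_norm (Ψ : (ℝ →ᵇ ℂ) →⋆ₐ[ℂ] (H →L[ℂ] H)) (a : H →L[ℂ] H) (t : ℝ) :
    ‖fld Ψ a t‖ ≤ ‖a‖ := by
  have h1 : ‖Ψ (expB (2 * Real.pi * t))‖ ≤ 1 := (psi_norm_le Ψ _).trans (expB_norm _)
  have h2 : ‖Ψ (expB (-(2 * Real.pi * t)))‖ ≤ 1 := (psi_norm_le Ψ _).trans (expB_norm _)
  calc ‖fld Ψ a t‖ ≤ ‖Ψ (expB (2 * Real.pi * t)) * a‖ * ‖Ψ (expB (-(2 * Real.pi * t)))‖ :=
        norm_mul_le _ _
    _ ≤ (‖Ψ (expB (2 * Real.pi * t))‖ * ‖a‖) * ‖Ψ (expB (-(2 * Real.pi * t)))‖ := by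
        gcongr; exact norm_mul_le _ _
    _ ≤ (1 * ‖a‖) * 1 := by gcongr
    _ = ‖a‖ := by ring

end U14

end Pool.Agent.Helper23

end

end

section

section

open scoped InnerProductSpace BoundedContinuousFunction

open ContinuousLinearMap Filter

namespace Pool.Agent.Helper23

variable {H : Type*} [NormedAddCommGroup H] [InnerProductSpace ℂ H] [CompleteSpace H]

variable {M N : VonNeumannAlgebra H} {ξ : H} {E : (H →L[ℂ] H) → (H →L[ℂ] H)}

/-- any operator has defect at most twice its norm. -/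
lemma Defect.trivial (hξ : ‖ξ‖ = 1) (a : H →L[ℂ] H) : Defect N ξ 1 (2 * ‖a‖) a := by
  intro z _
  have h1 : ‖⟪ξ, a (z ξ)⟫_ℂ‖ ≤ ‖a‖ * ‖z‖ := by
    calc ‖⟪ξ, a (z ξ)⟫_ℂ‖ ≤ ‖ξ‖ * ‖a (z ξ)‖ := norm_inner_le_norm _ _
      _ ≤ 1 * (‖a‖ * (‖z‖ * ‖ξ‖)) := by
          rw [hξ]
          gcongr
          exact (a.le_opNorm _).trans (mul_le_mul_of_nonneg_left (by
            have := z.le_opNorm ξ
            rwa [hξ] at this) (norm_nonneg _))
      _ = ‖a‖ * ‖z‖ := by rw [hξ]; ring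
  have h2 : ‖⟪ξ, z (a ξ)⟫_ℂ‖ ≤ ‖a‖ * ‖z‖ := by
    calc ‖⟪ξ, z (a ξ)⟫_ℂ‖ ≤ ‖ξ‖ * ‖z (a ξ)‖ := norm_inner_le_norm _ _
      _ ≤ 1 * (‖z‖ * (‖a‖ * ‖ξ‖)) := by
          rw [hξ]
          gcongr
          exact (z.le_opNorm _).trans (mul_le_mul_of_nonneg_left (by
            have := a.le_opNorm ξ
            rwa [hξ] at this) (norm_nonneg _))
      _ = ‖a‖ * ‖z‖ := by rw [hξ]; ring
  rw [Complex.ofReal_one, one_mul]
  calc _ ≤ ‖⟪ξ, z (a ξ)⟫_ℂ‖ + ‖⟪ξ, a (z ξ)⟫_ℂ‖ := norm_sub_le _ _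
    _ ≤ _ := by (clear * - h1 h2; linarith)

end Pool.Agent.Helper23

end

end

section

section

open scoped InnerProductSpace BoundedContinuousFunction

open ContinuousLinearMap Filter

namespace Pool.Agent.Helper23

variable {H : Type*} [NormedAddCommGroup H] [InnerProductSpace ℂ H] [CompleteSpace H]

variable {M N : VonNeumannAlgebra H} {ξ : H} {E : (H →L[ℂ] H) → (H →L[ℂ] H)}

section ACalgebra

lemma ACalg_isClosed (hξ : ‖ξ‖ = 1) :
    IsClosed (ACalg N ξ : Set (ℕ →ᵇ N.toStarSubalgebra)) := by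
  rw [← isSeqClosed_iff_isClosed]
  intro f a hf hfa ε hε
  have h1 := (Metric.tendsto_nhds.1 hfa) (ε / 4) (by (clear * - hε; positivity))
  obtain ⟨k, hk⟩ := h1.exists
  have h2 : Dseq N ξ 1 (fun n => ((f k n : N.toStarSubalgebra) : H →L[ℂ] H)) := hf k
  filter_upwards [h2 (ε / 2) (by positivity)] with n hn
  have h3 := Defect.trivial (N := N) hξ
    (((a n : N.toStarSubalgebra) : H →L[ℂ] H) - ((f k n : N.toStarSubalgebra) : H →L[ℂ] H))
  have h4 := hn.add h3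
  rw [add_sub_cancel] at h4
  refine h4.mono ?_
  have h5 : ‖((a n : N.toStarSubalgebra) : H →L[ℂ] H) -
      ((f k n : N.toStarSubalgebra) : H →L[ℂ] H)‖ ≤ ‖a - f k‖ := (a - f k).norm_coe_le_norm n
  rw [dist_comm, dist_eq_norm] at hk
  linarith

end ACalgebra

end Pool.Agent.Helper23

end

section

open scoped InnerProductSpace BoundedContinuousFunction

open ContinuousLinearMap Filter

namespace Pool.Agent.Helper23

variable {H : Type*} [NormedAddCommGroup H] [InnerProductSpace ℂ H] [CompleteSpace H]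

variable {N : VonNeumannAlgebra H} {ξ : H}

lemma exists_four (hξ : ‖ξ‖ = 1) {a : ℕ → H →L[ℂ] H} (ha : ∀ n, a n ∈ N) {C : ℝ}
    (hC : ∀ n, ‖a n‖ ≤ C) (hD : Dseq N ξ 1 a) :
    ∃ (k : Fin 4 → ℂ) (b : Fin 4 → ℕ → (H →L[ℂ] H)), (∀ i n, b i n ∈ N) ∧
      (∀ i n, star (b i n) * b i n = 1) ∧ (∀ i n, b i n * star (b i n) = 1) ∧
      (∀ i, Dseq N ξ 1 (b i)) ∧ ∀ n, a n = ∑ i, k i • b i n := by
  have hcl : IsClosed (ACalg N ξ : Set (ℕ →ᵇ N.toStarSubalgebra)) := ACalg_isClosed hξ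
  let a' : ℕ →ᵇ N.toStarSubalgebra :=
    BoundedContinuousFunction.ofNormedAddCommGroup (fun n => (⟨a n, ha n⟩ : N.toStarSubalgebra))
      continuous_of_discreteTopology C (fun n => hC n)
  have ha' : a' ∈ ACalg N ξ := hD
  obtain ⟨u, k, hk, -⟩ := CStarAlgebra.exists_sum_four_unitary (⟨a', ha'⟩ : ACalg N ξ)
  refine ⟨k, fun i n => ((((u i : ACalg N ξ) : ℕ →ᵇ N.toStarSubalgebra) n :
    N.toStarSubalgebra) : H →L[ℂ] H),
    fun i n => ((((u i : ACalg N ξ) : ℕ →ᵇ N.toStarSubalgebra) n).2), fun i n => ?_,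
    fun i n => ?_, fun i => (u i : ACalg N ξ).2, fun n => ?_⟩
  · have := Unitary.star_mul_self_of_mem (u i).2
    exact congrArg (fun z : ACalg N ξ => (((z : ℕ →ᵇ N.toStarSubalgebra) n :
      N.toStarSubalgebra) : H →L[ℂ] H)) this
  · have := Unitary.mul_star_self_of_mem (u i).2
    exact congrArg (fun z : ACalg N ξ => (((z : ℕ →ᵇ N.toStarSubalgebra) n :
      N.toStarSubalgebra) : H →L[ℂ] H)) this
  · have h1 : a' = ∑ i, k i • (((u i : ACalg N ξ) : ℕ →ᵇ N.toStarSubalgebra)) := by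
      have := congrArg (fun z : ACalg N ξ => (z : ℕ →ᵇ N.toStarSubalgebra)) hk
      simpa using this
    have h2 : a' n = ∑ i, k i • (((u i : ACalg N ξ) : ℕ →ᵇ N.toStarSubalgebra)) n :=
      (congrArg (fun z : ℕ →ᵇ N.toStarSubalgebra => z n) h1).trans
        (BoundedContinuousFunction.sum_apply _ _ _)
    have h3 := congrArg (fun z : N.toStarSubalgebra => (z : H →L[ℂ] H)) h2
    exact h3.trans (by simp)

end Pool.Agent.Helper23

end

section

open scoped InnerProductSpace Topology BoundedContinuousFunction ComplexOrder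

open ContinuousLinearMap Filter

namespace Pool.Agent.Helper23

variable {H : Type*} [NormedAddCommGroup H] [InnerProductSpace ℂ H] [CompleteSpace H]

variable {M N : VonNeumannAlgebra H} {ξ : H} {E : (H →L[ℂ] H) → (H →L[ℂ] H)}

/-- For a bounded sequence of asymptotic eigenoperators `a` with `‖a n‖ ≤ 1` there are `b n` in
`N`, asymptotically in the centralizer, with `a n (a n)* + (b n)* b n = 1`. -/
lemma exists_sqrt_seq (hξ : ‖ξ‖ = 1) {l : ℝ} (hl : 0 < l) {a : ℕ → H →L[ℂ] H}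
    (haN : ∀ n, a n ∈ N) (ha1 : ∀ n, ‖a n‖ ≤ 1) (ha : Dseq N ξ l a) :
    ∃ (b : ℕ → H →L[ℂ] H) (C : ℝ), (∀ n, b n ∈ N) ∧ (∀ n, ‖b n‖ ≤ C) ∧ Dseq N ξ 1 b ∧
      ∀ n, a n * star (a n) = 1 - star (b n) * b n := by
  have hcl : IsClosed (ACalg N ξ : Set (ℕ →ᵇ N.toStarSubalgebra)) := ACalg_isClosed hξ
  have hnorm : ∀ n, ‖a n * star (a n)‖ ≤ 1 := by
    intro n
    refine (norm_mul_le _ _).trans ?_
    rw [norm_star]
    have := ha1 n
    (clear * - this; nlinarith [norm_nonneg (a n)])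
  let α' : ℕ →ᵇ N.toStarSubalgebra :=
    BoundedContinuousFunction.ofNormedAddCommGroup
      (fun n => (⟨a n * star (a n), mul_mem (haN n) (star_mem (haN n))⟩ : N.toStarSubalgebra))
      continuous_of_discreteTopology 1 (fun n => hnorm n)
  have hα'n : ∀ n, ((α' n : N.toStarSubalgebra) : H →L[ℂ] H) = a n * star (a n) := fun n => rfl
  have hα' : α' ∈ ACalg N ξ := by
    have h1 := Dseq.mul (C := 1) haN (fun n => star_mem (haN n)) ha1
      (fun n => by rw [norm_star]; exact ha1 n) ha (ha.star hl)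
    rw [mul_inv_cancel₀ hl.ne'] at h1
    exact h1
  have hsa : IsSelfAdjoint (⟨α', hα'⟩ : ACalg N ξ) := by
    rw [isSelfAdjoint_iff]
    apply Subtype.ext
    ext n
    change star (a n * star (a n)) _ = _
    rw [star_mul, star_star]
    rfl
  have hn1 : ‖(⟨α', hα'⟩ : ACalg N ξ)‖ ≤ 1 := by
    change ‖α'‖ ≤ 1
    exact BoundedContinuousFunction.norm_ofNormedAddCommGroup_le _ zero_le_one _
  obtain ⟨b, hb⟩ := exists_sqrt_one_sub (A := ACalg N ξ) hsa hn1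
  refine ⟨fun n => (((b : ℕ →ᵇ N.toStarSubalgebra) n : N.toStarSubalgebra) : H →L[ℂ] H),
    ‖(b : ℕ →ᵇ N.toStarSubalgebra)‖, fun n => Subtype.prop _,
    fun n => (b : ℕ →ᵇ N.toStarSubalgebra).norm_coe_le_norm n, b.2, fun n => ?_⟩
  have h1 := congrArg (fun z : ACalg N ξ => (((z : ℕ →ᵇ N.toStarSubalgebra) n :
    N.toStarSubalgebra) : H →L[ℂ] H)) hb
  change (1 : H →L[ℂ] H) - a n * star (a n) = star (((b : ℕ →ᵇ N.toStarSubalgebra) n :
    N.toStarSubalgebra) : H →L[ℂ] H) * (((b : ℕ →ᵇ N.toStarSubalgebra) n :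
    N.toStarSubalgebra) : H →L[ℂ] H) at h1
  rw [← h1, sub_sub_cancel]

end Pool.Agent.Helper23

end

end

section

section

open scoped InnerProductSpace Topology ENNReal BoundedContinuousFunction

open ContinuousLinearMap Filter MeasureTheory

namespace Pool.Agent.Helper23.ED

open Pool.Agent.Helper23 Pool.Agent.Helper23.RBF

universe u

section fc

variable {H : Type*} [NormedAddCommGroup H] [InnerProductSpace ℂ H] [CompleteSpace H]

/-- `Ψ` is the bounded functional calculus of `log ((2 - R) / R)`. -/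
structure FCal (R : H →L[ℂ] H) (Ψ : (ℝ →ᵇ ℂ) →⋆ₐ[ℂ] (H →L[ℂ] H)) : Prop where
  psi_FR : Ψ FR = R
  psi_cont : ∀ (G : ℕ → (ℝ →ᵇ ℂ)) (G₀ : ℝ →ᵇ ℂ) (C : ℝ), (∀ n, ‖G n‖ ≤ C) →
    (∀ L : ℝ, TendstoUniformlyOn (fun n ρ => G n ρ) (fun ρ => G₀ ρ) atTop (Set.Icc (-L) L)) →
    ∀ v : H, Tendsto (fun n => Ψ (G n) v) atTop (𝓝 (Ψ G₀ v))

end fc

end Pool.Agent.Helper23.ED

end

section

open scoped InnerProductSpace Topology ENNReal BoundedContinuousFunction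

open ContinuousLinearMap Filter MeasureTheory

namespace Pool.Agent.Helper23.ED

open Pool.Agent.Helper23 Pool.Agent.Helper23.RBF

universe u

variable {H : Type*} [NormedAddCommGroup H] [InnerProductSpace ℂ H] [CompleteSpace H]

theorem FCal.conj {R : H →L[ℂ] H} {Ψ : (ℝ →ᵇ ℂ) →⋆ₐ[ℂ] (H →L[ℂ] H)} (h : FCal R Ψ)
    {U : H →L[ℂ] H} (h1 : star U * U = 1) (h2 : U * star U = 1) :
    ∃ Ψ' : (ℝ →ᵇ ℂ) →⋆ₐ[ℂ] (H →L[ℂ] H), FCal (U * R * star U) Ψ' ∧
      ∀ G, Ψ' G = U * Ψ G * star U := by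
  let Ψ' : (ℝ →ᵇ ℂ) →⋆ₐ[ℂ] (H →L[ℂ] H) :=
    { toFun := fun G => U * Ψ G * star U
      map_one' := by rw [map_one, mul_one, h2]
      map_mul' := by
        intro G G'
        rw [map_mul]
        calc U * (Ψ G * Ψ G') * star U = U * Ψ G * 1 * (Ψ G' * star U) := by
              simp only [mul_assoc, one_mul]
          _ = U * Ψ G * (star U * U) * (Ψ G' * star U) := by rw [h1]
          _ = U * Ψ G * star U * (U * Ψ G' * star U) := by simp only [mul_assoc]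
      map_zero' := by rw [map_zero, mul_zero, zero_mul]
      map_add' := by
        intro G G'
        rw [map_add, mul_add, add_mul]
      commutes' := by
        intro c
        rw [AlgHomClass.commutes Ψ c, ← Algebra.commutes, mul_assoc, h2, mul_one]
      map_star' := by
        intro G
        rw [map_star, star_mul, star_mul, star_star, mul_assoc] }
  have hΨ' : ∀ G, Ψ' G = U * Ψ G * star U := fun G => rfl
  refine ⟨Ψ', ⟨?_, ?_⟩, hΨ'⟩
  · rw [hΨ', h.psi_FR]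
  · intro G G₀ C hC hG v
    have h3 := h.psi_cont G G₀ C hC hG (star U v)
    have h4 := (U.continuous.tendsto (Ψ G₀ (star U v))).comp h3
    exact h4

theorem _root_.Pool.Agent.Helper23.Modular.fcal {A : VonNeumannAlgebra H} {ξ : H}
    {R : H →L[ℂ] H} {D : H →L[ℝ] H} {Ψ : (ℝ →ᵇ ℂ) →⋆ₐ[ℂ] (H →L[ℂ] H)}
    (h : Modular A ξ R D Ψ) : FCal R Ψ := ⟨h.psi_FR, h.psi_cont⟩

end Pool.Agent.Helper23.ED

end

section

open scoped InnerProductSpace Topology ENNReal BoundedContinuousFunction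

open ContinuousLinearMap Filter MeasureTheory

namespace Pool.Agent.Helper23.ED

open Pool.Agent.Helper23 Pool.Agent.Helper23.RBF

universe u

variable {H : Type*} [NormedAddCommGroup H] [InnerProductSpace ℂ H] [CompleteSpace H]

variable {K : Type*} [NormedAddCommGroup K] [InnerProductSpace ℂ K] [CompleteSpace K]

namespace FcB

open Pool.Agent.Helper43.TTF (ct ctB ct_zero ct_one ct_cont ctB_apply ctB_norm)

variable {R₁ : H →L[ℂ] H} {Ψ₁ : (ℝ →ᵇ ℂ) →⋆ₐ[ℂ] (H →L[ℂ] H)}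
  {R₂ : K →L[ℂ] K} {Ψ₂ : (ℝ →ᵇ ℂ) →⋆ₐ[ℂ] (K →L[ℂ] K)} {Y : H →L[ℂ] K}

lemma A_mul {G G' : ℝ →ᵇ ℂ} (h : G ∈ A Ψ₁ Ψ₂ Y) (h' : G' ∈ A Ψ₁ Ψ₂ Y) : G * G' ∈ A Ψ₁ Ψ₂ Y := by
  intro v
  rw [psi_mul_apply, psi_mul_apply, h, h' v]

lemma A_poly (h : FR ∈ A Ψ₁ Ψ₂ Y) (q : Polynomial ℂ) : Polynomial.aeval FR q ∈ A Ψ₁ Ψ₂ Y := by
  induction q using Polynomial.induction_on' with
  | add p q hp hq => rw [map_add]; exact A_add hp hq
  | monomial n a =>
    rw [Polynomial.aeval_monomial, ← Algebra.smul_def]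
    refine A_smul a ?_
    induction n with
    | zero => rw [pow_zero]; exact A_one
    | succ n ih => rw [pow_succ]; exact A_mul ih h

lemma aeval_FR (q : Polynomial ℂ) (ρ : ℝ) :
    (Polynomial.aeval FR q : ℝ →ᵇ ℂ) ρ = q.eval (FR ρ) := by
  induction q using Polynomial.induction_on' with
  | add p q hp hq => rw [map_add, BoundedContinuousFunction.add_apply, hp, hq, Polynomial.eval_add]
  | monomial n a =>
    rw [Polynomial.aeval_monomial, ← Algebra.smul_def, Polynomial.eval_monomial,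
      BoundedContinuousFunction.smul_apply, BoundedContinuousFunction.pow_apply, smul_eq_mul]

lemma FR_w (ρ : ℝ) : FR ρ = ((w ρ : ℝ) : ℂ) := rfl

lemma A_real (h : FR ∈ A Ψ₁ Ψ₂ Y) {f : ℝ → ℝ} (hf : ContinuousOn f (Set.Icc 0 2)) {G : ℝ →ᵇ ℂ}
    (hG : ∀ ρ, G ρ = ((f (w ρ) : ℝ) : ℂ)) : G ∈ A Ψ₁ Ψ₂ Y := by
  refine A_closed fun ε hε => ?_
  obtain ⟨p, hp⟩ := exists_polynomial_near_of_continuousOn 0 2 f hf ε hε
  refine ⟨Polynomial.aeval FR (p.map (algebraMap ℝ ℂ)), A_poly h _, ?_⟩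
  refine (BoundedContinuousFunction.norm_le hε.le).2 fun ρ => ?_
  rw [BoundedContinuousFunction.sub_apply, aeval_FR, hG, FR_w]
  have e1 : (p.map (algebraMap ℝ ℂ)).eval ((w ρ : ℝ) : ℂ) = ((p.eval (w ρ) : ℝ) : ℂ) := by
    rw [Polynomial.eval_map, ← Complex.coe_algebraMap, Polynomial.eval₂_at_apply]
  rw [e1, ← Complex.ofReal_sub, Complex.norm_real, Real.norm_eq_abs, abs_sub_comm]
  exact (hp (w ρ) ⟨(w_pos ρ).le, (w_lt ρ).le⟩).le

lemma A_cut (h : FR ∈ A Ψ₁ Ψ₂ Y) {g : ℝ → ℝ} (hg : Continuous g) {L : ℝ} (hL : 0 ≤ L)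
    (h0 : ∀ ρ, L ≤ |ρ| → g ρ = 0) {G : ℝ →ᵇ ℂ} (hG : ∀ ρ, G ρ = ((g ρ : ℝ) : ℂ)) :
    G ∈ A Ψ₁ Ψ₂ Y := by
  refine A_real h (f := fun x => g (Real.log ((2 - cl L x) / cl L x))) ?_ ?_
  · apply Continuous.continuousOn
    refine hg.comp (Continuous.log ?_ ?_)
    · exact (continuous_const.sub (cl_cont L)).div (cl_cont L) fun x => (cl_pos L x).ne'
    · intro x
      have h1 := cl_pos L x
      have h2 : 0 < 2 - cl L x := by linarith [cl_lt L x]
      (clear * - h2 h1; positivity)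
  · intro ρ
    rw [hG, cut_eq hL h0]

lemma A_ct (h : FR ∈ A Ψ₁ Ψ₂ Y) (G : ℝ →ᵇ ℂ) (n : ℕ) : G * ctB n ∈ A Ψ₁ Ψ₂ Y := by
  have hn : (0 : ℝ) ≤ (n : ℝ) + 1 := by (clear * -; positivity)
  have hc : Continuous fun ρ : ℝ => G ρ := G.continuous
  have hb : ∀ ρ, ‖G ρ‖ ≤ ‖G‖ := fun ρ => G.norm_coe_le_norm ρ
  have hct : ∀ ρ, |ct n ρ| ≤ 1 := fun ρ => by
    rw [abs_of_nonneg (Pool.Agent.Helper43.TTF.ct_nonneg n ρ)]
    exact Pool.Agent.Helper43.TTF.ct_le n ρ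
  have hcc := ct_cont n
  have c1 : Continuous fun ρ : ℝ => (G ρ).re * ct n ρ := (Complex.continuous_re.comp hc).mul hcc
  have c2 : Continuous fun ρ : ℝ => (G ρ).im * ct n ρ := (Complex.continuous_im.comp hc).mul hcc
  let G1 : ℝ →ᵇ ℂ := BoundedContinuousFunction.ofNormedAddCommGroup
    (fun ρ : ℝ => (((G ρ).re * ct n ρ : ℝ) : ℂ)) (Complex.continuous_ofReal.comp c1) ‖G‖ (by
      intro ρ
      rw [Complex.norm_real, Real.norm_eq_abs, abs_mul]
      calc |(G ρ).re| * |ct n ρ| ≤ ‖G‖ * 1 := by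
            gcongr
            · exact (Complex.abs_re_le_norm _).trans (hb ρ)
            · exact hct ρ
        _ = ‖G‖ := mul_one _)
  let G2 : ℝ →ᵇ ℂ := BoundedContinuousFunction.ofNormedAddCommGroup
    (fun ρ : ℝ => (((G ρ).im * ct n ρ : ℝ) : ℂ)) (Complex.continuous_ofReal.comp c2) ‖G‖ (by
      intro ρ
      rw [Complex.norm_real, Real.norm_eq_abs, abs_mul]
      calc |(G ρ).im| * |ct n ρ| ≤ ‖G‖ * 1 := by
            gcongr
            · exact (Complex.abs_im_le_norm _).trans (hb ρ)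
            · exact hct ρ
        _ = ‖G‖ := mul_one _)
  have e : G * ctB n = G1 + Complex.I • G2 := by
    ext ρ
    rw [BoundedContinuousFunction.mul_apply, BoundedContinuousFunction.add_apply,
      BoundedContinuousFunction.smul_apply, ctB_apply, smul_eq_mul]
    change G ρ * ((ct n ρ : ℝ) : ℂ) = (((G ρ).re * ct n ρ : ℝ) : ℂ) +
      Complex.I * (((G ρ).im * ct n ρ : ℝ) : ℂ)
    conv_lhs => rw [← Complex.re_add_im (G ρ)]
    push_cast
    ring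
  rw [e]
  refine A_add (A_cut h c1 hn ?_ fun ρ => rfl) (A_smul _ (A_cut h c2 hn ?_ fun ρ => rfl))
  · intro ρ hρ
    rw [ct_zero hρ, mul_zero]
  · intro ρ hρ
    rw [ct_zero hρ, mul_zero]

lemma tendsto_cut {R : H →L[ℂ] H} {Ψ : (ℝ →ᵇ ℂ) →⋆ₐ[ℂ] (H →L[ℂ] H)} (h : FCal R Ψ) (G : ℝ →ᵇ ℂ)
    (v : H) : Tendsto (fun n => Ψ (G * ctB n) v) atTop (𝓝 (Ψ G v)) := by
  refine h.psi_cont (fun n => G * ctB n) G ‖G‖ ?_ ?_ v
  · intro n
    refine (norm_mul_le _ _).trans ?_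
    calc ‖G‖ * ‖ctB n‖ ≤ ‖G‖ * 1 := by gcongr; exact ctB_norm n
      _ = ‖G‖ := mul_one _
  · intro L
    rw [Metric.tendstoUniformlyOn_iff]
    intro ε hε
    obtain ⟨m, hm⟩ := exists_nat_ge L
    filter_upwards [eventually_ge_atTop m] with n hn ρ hρ
    have h2 : |ρ| ≤ n := by
      have h3 : (m : ℝ) ≤ n := by exact_mod_cast hn
      rw [Set.mem_Icc] at hρ
      rw [abs_le]
      constructor <;> (clear * - hm hρ h3; linarith [hρ.1, hρ.2])
    rw [BoundedContinuousFunction.mul_apply, ctB_apply, ct_one h2, Complex.ofReal_one, mul_one,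
      dist_self]
    exact hε

end FcB

theorem FCal.int {R₁ : H →L[ℂ] H} {Ψ₁ : (ℝ →ᵇ ℂ) →⋆ₐ[ℂ] (H →L[ℂ] H)} (h₁ : FCal R₁ Ψ₁)
    {R₂ : K →L[ℂ] K} {Ψ₂ : (ℝ →ᵇ ℂ) →⋆ₐ[ℂ] (K →L[ℂ] K)} (h₂ : FCal R₂ Ψ₂)
    (Y : H →L[ℂ] K) (hY : ∀ v, Y (R₁ v) = R₂ (Y v)) (G : ℝ →ᵇ ℂ) (v : H) :
    Y (Ψ₁ G v) = Ψ₂ G (Y v) := by
  have hFR : FR ∈ FcB.A Ψ₁ Ψ₂ Y := by
    intro v
    rw [h₁.psi_FR, h₂.psi_FR, hY]
  have t1 := (Y.continuous.tendsto _).comp (FcB.tendsto_cut h₁ G v)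
  have t2 := FcB.tendsto_cut h₂ G (Y v)
  refine tendsto_nhds_unique t1 (t2.congr fun n => ?_)
  exact (FcB.A_ct hFR G n v).symm

end Pool.Agent.Helper23.ED

end

section

open scoped InnerProductSpace Topology ENNReal BoundedContinuousFunction

open ContinuousLinearMap Filter MeasureTheory

namespace Pool.Agent.Helper23.ED

open Pool.Agent.Helper23 Pool.Agent.Helper23.RBF

universe u

variable {K : Type*} [NormedAddCommGroup K] [InnerProductSpace ℂ K] [CompleteSpace K]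

variable {U : ℝ → K →L[ℂ] K}

namespace SmD

open Pool.Agent.Helper43.TTF

/-- half of the function `FR` -/
noncomputable def tau : ℝ →ᵇ ℂ := (1 / 2 : ℂ) • FR

lemma tau_apply (ρ : ℝ) : tau ρ = (1 + Complex.exp ρ)⁻¹ := by
  change (1 / 2 : ℂ) * FR ρ = _
  rw [FR_apply]
  push_cast
  ring

/-- `ez z ctB = τ (ez z E)` -/
lemma id_a (n : ℕ) (z : ℂ) : ez ((n : ℝ) + 1) z * ctB n =
    tau * (ez ((n : ℝ) + 1) z * E n 1) := by
  ext ρ
  simp only [BoundedContinuousFunction.mul_apply, tau_apply, ctB_apply, E_apply, ez_apply]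
  rcases le_total ((n : ℝ) + 1) |ρ| with h | h
  · rw [ct_zero h]
    simp
  · rw [gt_eq h]
    have h1 := one_add_exp_ne ρ
    push_cast
    rw [one_mul]
    field_simp

lemma id_b (n : ℕ) (z : ℂ) : ez ((n : ℝ) + 1) (z - Complex.I) * ctB n =
    (1 - tau) * (ez ((n : ℝ) + 1) z * E n 1) := by
  ext ρ
  simp only [BoundedContinuousFunction.mul_apply, BoundedContinuousFunction.sub_apply, tau_apply,
    ctB_apply, E_apply, ez_apply, one_bcf']
  rcases le_total ((n : ℝ) + 1) |ρ| with h | h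
  · rw [ct_zero h]
    simp
  · rw [gt_eq h]
    have h1 := one_add_exp_ne ρ
    have h2 : Complex.exp (Complex.I * (z - Complex.I) * (ρ : ℝ)) =
        Complex.exp (Complex.I * z * (ρ : ℝ)) * Complex.exp (ρ : ℂ) := by
      rw [← Complex.exp_add]
      congr 1
      linear_combination (-(ρ : ℂ)) * Complex.I_sq
    rw [h2]
    push_cast
    rw [one_mul]
    field_simp
    ring

lemma id_c (n : ℕ) (z : ℂ) : ctB n * ez ((n : ℝ) + 1) (-z) =
    (ez ((n : ℝ) + 1) (-z) * E n (-1)) * (1 - tau) := by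
  ext ρ
  simp only [BoundedContinuousFunction.mul_apply, BoundedContinuousFunction.sub_apply, tau_apply,
    ctB_apply, E_apply, ez_apply, one_bcf']
  rcases le_total ((n : ℝ) + 1) |ρ| with h | h
  · rw [ct_zero h]
    simp
  · rw [gt_eq h]
    have h1 := one_add_exp_ne ρ
    have h3 : Complex.exp (ρ : ℂ) * Complex.exp (-(ρ : ℂ)) = 1 := by
      rw [← Complex.exp_add, add_neg_cancel, Complex.exp_zero]
    push_cast
    rw [neg_one_mul]
    field_simp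
    linear_combination (-(ct n ρ : ℂ)) * h3

lemma id_d (n : ℕ) (z : ℂ) : ctB n * ez ((n : ℝ) + 1) (-(z - Complex.I)) =
    (ez ((n : ℝ) + 1) (-z) * E n (-1)) * tau := by
  ext ρ
  simp only [BoundedContinuousFunction.mul_apply, tau_apply,
    ctB_apply, E_apply, ez_apply]
  rcases le_total ((n : ℝ) + 1) |ρ| with h | h
  · rw [ct_zero h]
    simp
  · rw [gt_eq h]
    have h1 := one_add_exp_ne ρ
    have h3 : Complex.exp (ρ : ℂ) * Complex.exp (-(ρ : ℂ)) = 1 := by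
      rw [← Complex.exp_add, add_neg_cancel, Complex.exp_zero]
    have h2 : Complex.exp (Complex.I * (-(z - Complex.I)) * (ρ : ℝ)) =
        Complex.exp (Complex.I * (-z) * (ρ : ℝ)) * Complex.exp (-(ρ : ℂ)) := by
      rw [← Complex.exp_add]
      congr 1
      linear_combination (ρ : ℂ) * Complex.I_sq
    rw [h2]
    push_cast
    rw [neg_one_mul]
    field_simp
    linear_combination (ct n ρ : ℂ) * h3

lemma id_e (n : ℕ) (t : ℝ) : ez ((n : ℝ) + 1) t * ctB n = expB t * ctB n := by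
  ext ρ
  simp only [BoundedContinuousFunction.mul_apply, ctB_apply, ez_apply, expB_apply]
  rcases le_total ((n : ℝ) + 1) |ρ| with h | h
  · rw [ct_zero h]
    simp
  · rw [gt_eq h]
    congr 2
    push_cast
    ring

variable {T : K →L[ℂ] K} {Ψ : (ℝ →ᵇ ℂ) →⋆ₐ[ℂ] (K →L[ℂ] K)}

lemma psi_tau (hΨ : FCal ((2 : ℂ) • T) Ψ) : Ψ tau = T := by
  rw [tau, map_smul, hΨ.psi_FR, smul_smul]
  norm_num

lemma g_per (hΨ : FCal ((2 : ℂ) • T) Ψ) {m : ℝ} {Y : K →L[ℂ] K}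
    (hrel : ∀ (z : ℂ) (v : K), smear U (gau m z) Y (T v) - T (smear U (gau m z) Y (T v)) =
      T (smear U (gau m (z - Complex.I)) Y (v - T v))) (n : ℕ) (z : ℂ) :
    g U Ψ m Y n (z - Complex.I) = g U Ψ m Y n z := by
  have h : T * smear U (gau m (z - Complex.I)) Y * (1 - T) =
      (1 - T) * smear U (gau m z) Y * T := by
    ext v
    exact (hrel z v).symm
  rw [g, g, id_b n z, id_d n z, id_a n z, id_c n z]
  rw [map_mul Ψ _ tau, map_mul Ψ (1 - tau) _, map_mul Ψ _ (1 - tau), map_mul Ψ tau _, map_sub,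
    map_one, psi_tau hΨ]
  generalize Ψ (ez ((n : ℝ) + 1) (-z) * E n (-1)) = P
  generalize Ψ (ez ((n : ℝ) + 1) z * E n 1) = Q
  calc P * T * smear U (gau m (z - Complex.I)) Y * ((1 - T) * Q)
      = P * (T * smear U (gau m (z - Complex.I)) Y * (1 - T)) * Q := by simp only [mul_assoc]
    _ = P * ((1 - T) * smear U (gau m z) Y * T) * Q := by rw [h]
    _ = P * (1 - T) * smear U (gau m z) Y * (T * Q) := by simp only [mul_assoc]

lemma g_diff (hU : UG U) (Ψ : (ℝ →ᵇ ℂ) →⋆ₐ[ℂ] (K →L[ℂ] K)) {m : ℝ} (hm : 0 < m)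
    (Y : K →L[ℂ] K) (n : ℕ) : Differentiable ℂ (g U Ψ m Y n) := by
  have h1 : Differentiable ℂ (fun z : ℂ => psiL Ψ (ctB n * ez ((n : ℝ) + 1) (-z))) :=
    (psiL Ψ).differentiable.comp
      ((differentiable_const _).mul ((ez_diff _).comp differentiable_neg))
  have h2 : Differentiable ℂ (fun z : ℂ => psiL Ψ (ez ((n : ℝ) + 1) z * ctB n)) :=
    (psiL Ψ).differentiable.comp ((ez_diff _).mul (differentiable_const _))
  exact (h1.mul (smear_diff hU hm Y)).mul h2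

lemma g_const (hΨ : FCal ((2 : ℂ) • T) Ψ) (hU : UG U) {m : ℝ} (hm : 0 < m) {Y : K →L[ℂ] K}
    (hrel : ∀ (z : ℂ) (v : K), smear U (gau m z) Y (T v) - T (smear U (gau m z) Y (T v)) =
      T (smear U (gau m (z - Complex.I)) Y (v - T v))) (n : ℕ) (z w : ℂ) :
    g U Ψ m Y n z = g U Ψ m Y n w := by
  obtain ⟨C, hC⟩ := g_bound hU Ψ hm Y n
  have hp : Function.Periodic (g U Ψ m Y n) Complex.I := by
    intro z
    have := g_per hΨ hrel n (z + Complex.I)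
    rw [add_sub_cancel_right] at this
    exact this.symm
  refine Differentiable.apply_eq_apply_of_bounded (g_diff hU Ψ hm Y n) ?_ z w
  rw [isBounded_iff_forall_norm_le]
  refine ⟨C, ?_⟩
  rintro _ ⟨z, rfl⟩
  rw [← hp.sub_zsmul_eq ⌊z.im⌋]
  refine hC _ ?_
  have h1 : (z - ⌊z.im⌋ • Complex.I).im = Int.fract z.im := by
    rw [zsmul_eq_mul, Complex.sub_im, Complex.mul_im, Complex.I_im, Complex.I_re, mul_zero, mul_one,
      add_zero, Complex.intCast_re, Int.self_sub_floor]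
  rw [h1, abs_of_nonneg (Int.fract_nonneg _)]
  exact (Int.fract_lt_one _).le

lemma tendsto_conj (hΨ : FCal ((2 : ℂ) • T) Ψ) (X : K →L[ℂ] K) (v : K) :
    Tendsto (fun n => Ψ (ctB n) (X (Ψ (ctB n) v))) atTop (𝓝 (X v)) := by
  have hc : ∀ w : K, Tendsto (fun n => Ψ (ctB n) w) atTop (𝓝 w) := by
    intro w
    have := FcB.tendsto_cut hΨ 1 w
    simpa using this
  have h1 : Tendsto (fun n => Ψ (ctB n) (X (Ψ (ctB n) v) - X v)) atTop (𝓝 0) := by
    have h2 : Tendsto (fun n => ‖X (Ψ (ctB n) v) - X v‖) atTop (𝓝 0) := by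
      have h3 := ((X.continuous.tendsto v).comp (hc v)).sub_const (X v)
      rw [sub_self] at h3
      simpa using h3.norm
    refine squeeze_zero_norm (fun n => ?_) h2
    refine (psi_norm_apply Ψ _ _).trans ?_
    calc ‖ctB n‖ * ‖X (Ψ (ctB n) v) - X v‖ ≤ 1 * ‖X (Ψ (ctB n) v) - X v‖ := by
          gcongr
          exact ctB_norm n
      _ = _ := one_mul _
  have h4 := h1.add (hc (X v))
  rw [zero_add] at h4
  refine h4.congr fun n => ?_
  rw [map_sub, sub_add_cancel]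

end SmD

theorem liou {T : K →L[ℂ] K} {Ψ : (ℝ →ᵇ ℂ) →⋆ₐ[ℂ] (K →L[ℂ] K)} (hΨ : FCal ((2 : ℂ) • T) Ψ)
    (hU : UG U) {m : ℝ} (hm : 0 < m) {Y : K →L[ℂ] K}
    (hrel : ∀ (z : ℂ) (v : K), smear U (gau m z) Y (T v) - T (smear U (gau m z) Y (T v)) =
      T (smear U (gau m (z - Complex.I)) Y (v - T v))) (t : ℝ) :
    Ψ (expB (-t)) * smear U (gau m t) Y * Ψ (expB t) = smear U (gau m 0) Y := by
  open Pool.Agent.Helper43.TTF SmD in
  have key : ∀ n : ℕ, Ψ (ctB n) * (Ψ (expB (-t)) * smear U (gau m t) Y * Ψ (expB t)) * Ψ (ctB n) =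
      Ψ (ctB n) * smear U (gau m 0) Y * Ψ (ctB n) := by
    intro n
    have h := g_const hΨ hU hm hrel n (t : ℂ) 0
    unfold g at h
    rw [neg_zero, ez_zero, one_mul, mul_one, ← Complex.ofReal_neg, mul_comm (ctB n),
      id_e, id_e, mul_comm (expB (-t)), map_mul, map_mul] at h
    rw [← h]
    simp only [mul_assoc]
  ext v
  open Pool.Agent.Helper43.TTF SmD in
  have h1 := tendsto_conj hΨ (Ψ (expB (-t)) * smear U (gau m t) Y * Ψ (expB t)) v
  open Pool.Agent.Helper43.TTF SmD in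
  have h2 := tendsto_conj hΨ (smear U (gau m 0) Y) v
  refine tendsto_nhds_unique h1 (h2.congr fun n => ?_)
  exact (congrArg (fun S : K →L[ℂ] K => S v) (key n)).symm

end Pool.Agent.Helper23.ED

end

section

open scoped InnerProductSpace Topology ENNReal BoundedContinuousFunction

open ContinuousLinearMap Filter MeasureTheory

namespace Pool.Agent.Helper23.ED

open Pool.Agent.Helper23 Pool.Agent.Helper23.RBF

universe u

variable {H : Type*} [NormedAddCommGroup H] [InnerProductSpace ℂ H] [CompleteSpace H]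

variable {K : Type*} [NormedAddCommGroup K] [InnerProductSpace ℂ K] [CompleteSpace K]

namespace FcC

open Pool.Agent.Helper43.TTF (psi_norm_apply)

attribute [local instance] fact2pi

theorem pull_fourier (c : ℝ) (k : ℤ) : pull c (fourier k) = expB (k * c) := by
  ext ρ
  rw [pull_apply, fourier_coe_apply, expB_apply]
  congr 1
  have : (Real.pi : ℂ) ≠ 0 := by exact_mod_cast Real.pi_ne_zero
  push_cast
  (clear * - this; field_simp)

theorem pull_mem {Ψ₁ : (ℝ →ᵇ ℂ) →⋆ₐ[ℂ] (H →L[ℂ] H)} {Ψ₂ : (ℝ →ᵇ ℂ) →⋆ₐ[ℂ] (K →L[ℂ] K)}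
    {Y : H →L[ℂ] K} (hY : ∀ t, expB t ∈ S Ψ₁ Ψ₂ Y) (c : ℝ)
    (p : C(AddCircle (2 * Real.pi), ℂ)) : pull c p ∈ S Ψ₁ Ψ₂ Y := by
  have h1 : (⊤ : Submodule ℂ C(AddCircle (2 * Real.pi), ℂ)) ≤ (S Ψ₁ Ψ₂ Y).comap (pull c) := by
    rw [← span_fourier_closure_eq_top]
    apply Submodule.topologicalClosure_minimal
    · rw [Submodule.span_le]
      rintro _ ⟨k, rfl⟩
      show pull c (fourier k) ∈ S Ψ₁ Ψ₂ Y
      rw [pull_fourier]
      exact hY _
    · exact (isClosed_S Ψ₁ Ψ₂ Y).preimage (pull_cont c)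
  exact h1 (Submodule.mem_top : p ∈ ⊤)

/-- the periodic extension of `FR` restricted to `[-(n+1), n+1]` -/
noncomputable def Gc (n : ℕ) : C(AddCircle (2 * Real.pi), ℂ) :=
  ⟨fun θ => FR ((2 * (n + 1) / Real.pi) * Real.arcsin (Real.Angle.sin θ)), by
    exact FR.continuous.comp (continuous_const.mul
      (Real.continuous_arcsin.comp Real.Angle.continuous_sin))⟩

noncomputable def Gn (n : ℕ) : ℝ →ᵇ ℂ := pull (Real.pi / (2 * (n + 1))) (Gc n)

theorem Gn_apply (n : ℕ) (ρ : ℝ) : Gn n ρ =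
    FR ((2 * (n + 1) / Real.pi) * Real.arcsin (Real.sin (Real.pi / (2 * (n + 1)) * ρ))) := rfl

theorem Gn_norm (n : ℕ) : ‖Gn n‖ ≤ ‖FR‖ := by
  rw [BoundedContinuousFunction.norm_le (norm_nonneg _)]
  intro ρ
  rw [Gn_apply]
  exact BoundedContinuousFunction.norm_coe_le_norm _ _

theorem Gn_eq (n : ℕ) {ρ : ℝ} (h : |ρ| ≤ n + 1) : Gn n ρ = FR ρ := by
  rw [Gn_apply]
  have hn : (0 : ℝ) < n + 1 := by (clear * -; positivity)
  have hpi := Real.pi_pos
  rw [abs_le] at h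
  have h1 : Real.pi / (2 * (n + 1)) * ρ = (Real.pi / 2) * (ρ / (n + 1)) := by
    field_simp
  have h2 : -1 ≤ ρ / (n + 1) := by rw [le_div_iff₀ hn]; (clear * - h; linarith [h.1])
  have h3 : ρ / (n + 1) ≤ 1 := by rw [div_le_iff₀ hn]; (clear * - h; linarith [h.2])
  rw [Real.arcsin_sin (by rw [h1]; (clear * - hpi h2; nlinarith)) (by rw [h1]; (clear * - hpi h3; nlinarith))]
  congr 1
  (clear * -; field_simp)

theorem Gn_tendsto (L : ℝ) :
    TendstoUniformlyOn (fun n ρ => Gn n ρ) (fun ρ => FR ρ) atTop (Set.Icc (-L) L) := by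
  rw [Metric.tendstoUniformlyOn_iff]
  intro ε hε
  obtain ⟨m, hm⟩ := exists_nat_ge L
  filter_upwards [eventually_ge_atTop m] with n hn ρ hρ
  have h3 : (m : ℝ) ≤ n := by exact_mod_cast hn
  rw [Set.mem_Icc] at hρ
  rw [Gn_eq n (by rw [abs_le]; constructor <;> (clear * - hm hρ h3; linarith [hρ.1, hρ.2])), dist_self]
  exact hε

end FcC

theorem FCal.det {R₁ : H →L[ℂ] H} {Ψ₁ : (ℝ →ᵇ ℂ) →⋆ₐ[ℂ] (H →L[ℂ] H)} (h₁ : FCal R₁ Ψ₁)
    {R₂ : K →L[ℂ] K} {Ψ₂ : (ℝ →ᵇ ℂ) →⋆ₐ[ℂ] (K →L[ℂ] K)} (h₂ : FCal R₂ Ψ₂)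
    (Y : H →L[ℂ] K) (hY : ∀ t v, Y (Ψ₁ (expB t) v) = Ψ₂ (expB t) (Y v)) (v : H) :
    Y (R₁ v) = R₂ (Y v) := by
  have hmem : ∀ n, FcC.Gn n ∈ FcC.S Ψ₁ Ψ₂ Y := fun n => FcC.pull_mem (fun t v => hY t v) _ _
  have h3 := h₁.psi_cont FcC.Gn FR ‖FR‖ FcC.Gn_norm FcC.Gn_tendsto v
  have h4 := h₂.psi_cont FcC.Gn FR ‖FR‖ FcC.Gn_norm FcC.Gn_tendsto (Y v)
  rw [h₁.psi_FR] at h3
  rw [h₂.psi_FR] at h4
  have h5 := (Y.continuous.tendsto _).comp h3
  have h6 : (Y ∘ fun n => Ψ₁ (FcC.Gn n) v) = fun n => Ψ₂ (FcC.Gn n) (Y v) := by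
    funext n
    exact hmem n v
  rw [h6] at h5
  exact tendsto_nhds_unique h5 h4

end Pool.Agent.Helper23.ED

end

section

open scoped InnerProductSpace Topology ENNReal BoundedContinuousFunction

open ContinuousLinearMap Filter MeasureTheory

namespace Pool.Agent.Helper23.ED

open Pool.Agent.Helper23 Pool.Agent.Helper23.RBF

universe u

variable {H : Type*} [NormedAddCommGroup H] [InnerProductSpace ℂ H] [CompleteSpace H]

namespace FcD

theorem fcal_shift {R : H →L[ℂ] H} {Ψ : (ℝ →ᵇ ℂ) →⋆ₐ[ℂ] (H →L[ℂ] H)} (h : FCal R Ψ) (c : ℝ) :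
    FCal (Ψ (shiftB c FR)) (Ψ.comp (shiftHom c)) := by
  refine ⟨rfl, ?_⟩
  intro G G₀ C hC hG v
  refine h.psi_cont (fun n => shiftB c (G n)) (shiftB c G₀) C
    (fun n => (norm_shiftB_le c (G n)).trans (hC n)) ?_ v
  intro L
  have h1 := hG (L + |c|)
  rw [Metric.tendstoUniformlyOn_iff] at h1 ⊢
  intro ε hε
  filter_upwards [h1 ε hε] with n hn ρ hρ
  refine hn (ρ + c) ?_
  have h2 := neg_abs_le c
  have h3 := le_abs_self c
  rw [Set.mem_Icc] at hρ ⊢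
  constructor <;> (clear * - hρ h2 h3; linarith [hρ.1, hρ.2])

theorem key {l : ℝ} (hl : 0 < l) :
    shiftB (Real.log l) FR * (FR + (l : ℂ) • ((2 : ℂ) • 1 - FR)) = (2 : ℂ) • FR := by
  ext ρ
  have h1 : 0 < Real.exp ρ := Real.exp_pos ρ
  have h2 : (1 + Real.exp ρ : ℝ) ≠ 0 := by positivity
  have h3 : (1 + Real.exp ρ * l : ℝ) ≠ 0 := by positivity
  have e1 : (2 / (1 + Real.exp (ρ + Real.log l)) : ℝ) *
      (2 / (1 + Real.exp ρ) + l * (2 * 1 - 2 / (1 + Real.exp ρ))) = 2 * (2 / (1 + Real.exp ρ)) := by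
    rw [Real.exp_add, Real.exp_log hl]
    field_simp
    ring
  have e2 := congrArg (fun x : ℝ => (x : ℂ)) e1
  simp only [Complex.ofReal_mul, Complex.ofReal_add, Complex.ofReal_sub, Complex.ofReal_ofNat,
    Complex.ofReal_one] at e2
  simpa only [BoundedContinuousFunction.coe_mul, BoundedContinuousFunction.coe_add,
    BoundedContinuousFunction.coe_smul, BoundedContinuousFunction.coe_sub,
    BoundedContinuousFunction.coe_one, Pi.mul_apply, Pi.add_apply, Pi.sub_apply, Pi.smul_apply,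
    Pi.one_apply, smul_eq_mul, shiftB_apply, FR_val] using e2

theorem key' {l : ℝ} (hl : 0 < l) :
    (FR + (l : ℂ) • ((2 : ℂ) • 1 - FR)) *
      (((1 / (2 * l) : ℝ) : ℂ) • (1 + (((l - 1) / 2 : ℝ) : ℂ) • shiftB (Real.log l) FR)) = 1 := by
  ext ρ
  have h1 : 0 < Real.exp ρ := Real.exp_pos ρ
  have h2 : (1 + Real.exp ρ : ℝ) ≠ 0 := by (clear * -; positivity)
  have h3 : (1 + Real.exp ρ * l : ℝ) ≠ 0 := by (clear * - hl; positivity)
  have e1 : (2 / (1 + Real.exp ρ) + l * (2 * 1 - 2 / (1 + Real.exp ρ))) *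
      ((1 / (2 * l)) * (1 + ((l - 1) / 2) * (2 / (1 + Real.exp (ρ + Real.log l))))) = (1 : ℝ) := by
    rw [Real.exp_add, Real.exp_log hl]
    field_simp
    ring
  have e2 := congrArg (fun x : ℝ => (x : ℂ)) e1
  simp only [Complex.ofReal_mul, Complex.ofReal_add, Complex.ofReal_sub, Complex.ofReal_ofNat,
    Complex.ofReal_one] at e2
  simp only [BoundedContinuousFunction.coe_mul, BoundedContinuousFunction.coe_add,
    BoundedContinuousFunction.coe_smul, BoundedContinuousFunction.coe_sub,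
    BoundedContinuousFunction.coe_one, Pi.mul_apply, Pi.add_apply, Pi.sub_apply, Pi.smul_apply,
    Pi.one_apply, smul_eq_mul, shiftB_apply, FR_val]
  exact e2

theorem shift_expB (c t : ℝ) : shiftB c (expB t) = ph t c • expB t := by
  ext ρ
  have h1 : ∀ x : ℝ, expB t x = Complex.exp ((t * x : ℝ) * Complex.I) := fun _ => rfl
  have h2 : (ph t c • expB t) ρ = ph t c * expB t ρ := rfl
  rw [shiftB_apply, h2, h1, h1, ph, ← Complex.exp_add]
  congr 1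
  push_cast
  ring

end FcD

open FcD in
/-- `R = 2 (1 + Δ)⁻¹`, `R' = 2 (1 + l Δ)⁻¹`. -/
theorem FCal.scale_iff {R R' : H →L[ℂ] H} {Ψ Ψ' : (ℝ →ᵇ ℂ) →⋆ₐ[ℂ] (H →L[ℂ] H)}
    (h : FCal R Ψ) (h' : FCal R' Ψ') {l : ℝ} (hl : 0 < l) :
    (∀ v, R' (R v + (l : ℂ) • ((2 : ℂ) • v - R v)) = (2 : ℂ) • R v) ↔
      ∀ t, Ψ' (expB t) = ph t (Real.log l) • Ψ (expB t) := by
  have h2 := fcal_shift h (Real.log l)
  set R2 := Ψ (shiftB (Real.log l) FR) with hR2
  have hX : Ψ (FR + (l : ℂ) • ((2 : ℂ) • 1 - FR)) = R + (l : ℂ) • ((2 : ℂ) • 1 - R) := by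
    rw [map_add, map_smul, map_sub, map_smul, map_one, h.psi_FR]
  have k1 : R2 * (R + (l : ℂ) • ((2 : ℂ) • 1 - R)) = (2 : ℂ) • R := by
    rw [hR2, ← hX, ← map_mul, key hl, map_smul, h.psi_FR]
  obtain ⟨Z, hZ⟩ : ∃ Z : H →L[ℂ] H, (R + (l : ℂ) • ((2 : ℂ) • 1 - R)) * Z = 1 := by
    refine ⟨Ψ (((1 / (2 * l) : ℝ) : ℂ) • (1 + (((l - 1) / 2 : ℝ) : ℂ) •
      shiftB (Real.log l) FR)), ?_⟩
    rw [← hX, ← map_mul, key' hl, map_one]
  have hΨ2 : ∀ t, (Ψ.comp (shiftHom (Real.log l))) (expB t) =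
      ph t (Real.log l) • Ψ (expB t) := by
    intro t
    have : (Ψ.comp (shiftHom (Real.log l))) (expB t) = Ψ (shiftB (Real.log l) (expB t)) := rfl
    rw [this, shift_expB, map_smul]
  constructor
  · intro hv t
    have e1 : R' * (R + (l : ℂ) • ((2 : ℂ) • 1 - R)) = (2 : ℂ) • R := by
      ext v
      exact hv v
    have e2 : R' = R2 := by
      calc R' = R' * ((R + (l : ℂ) • ((2 : ℂ) • 1 - R)) * Z) := by rw [hZ, mul_one]
        _ = R2 * ((R + (l : ℂ) • ((2 : ℂ) • 1 - R)) * Z) := by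
          rw [← mul_assoc, e1, ← k1, mul_assoc]
        _ = R2 := by rw [hZ, mul_one]
    rw [← hΨ2]
    ext v
    exact FCal.int h' h2 (1 : H →L[ℂ] H) (fun w => by rw [e2]; rfl) (expB t) v
  · intro ht
    have e2 : R' = R2 := by
      ext v
      exact FCal.det h' h2 (1 : H →L[ℂ] H) (fun t w => by rw [ht t, hΨ2 t]; rfl) v
    intro v
    have e3 := congrArg (fun T : H →L[ℂ] H => T v) k1
    rw [e2]
    exact e3

end Pool.Agent.Helper23.ED

end

end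

section

section

open scoped InnerProductSpace Topology ENNReal BoundedContinuousFunction

open ContinuousLinearMap Filter MeasureTheory

namespace Pool.Agent.Helper23.ED

open Pool.Agent.Helper23 Pool.Agent.Helper23.RBF

open Pool.Agent.Helper78.BC.Transport (Sub r)

universe u

variable {H : Type*} [NormedAddCommGroup H] [InnerProductSpace ℂ H] [CompleteSpace H]

theorem exists_fcal (T : H →L[ℂ] H) (hT : star T = T) (h0 : ∀ v : H, 0 ≤ (⟪v, T v⟫_ℂ).re)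
    (h1 : ∀ v : H, (⟪v, T v⟫_ℂ).re ≤ ‖v‖ ^ 2) (hi : ∀ v : H, T v = 0 → v = 0)
    (hi' : ∀ v : H, T v = v → v = 0) :
    ∃ Ψ : (ℝ →ᵇ ℂ) →⋆ₐ[ℂ] (H →L[ℂ] H), FCal ((2 : ℂ) • T) Ψ := by
  have hre : ∀ v : H, (⟪v, ((2 : ℂ) • T) v⟫_ℂ).re = 2 * (⟪v, T v⟫_ℂ).re := by
    intro v
    rw [ContinuousLinearMap.smul_apply, inner_smul_right, Complex.mul_re]
    simp
  have hs : star ((2 : ℂ) • T) = (2 : ℂ) • T := by
    rw [star_smul, hT]
    congr 1
    simp
  obtain ⟨Ψ, hΨ1, -, -, hΨ4⟩ := exists_fc ((2 : ℂ) • T) hs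
    (by intro v; rw [hre]; have := h0 v; (clear * - this; linarith))
    (by intro v; rw [hre]; have := h1 v; (clear * - this; linarith))
    (by
      intro v hv
      apply hi
      have h3 : (2 : ℂ) • T v = 0 := hv
      exact (smul_eq_zero.mp h3).resolve_left (by norm_num))
    (by
      intro v hv
      apply hi'
      have h3 : (2 : ℂ) • T v = (2 : ℂ) • v := hv
      exact smul_right_injective H (two_ne_zero : (2 : ℂ) ≠ 0) h3)
  exact ⟨Ψ, hΨ1, hΨ4⟩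

end Pool.Agent.Helper23.ED

end

end
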