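import Pool.Agent.Helper23.FB.L00_a0
import Pool.Agent.Helper23.FB.L00_a1
import Pool.Agent.Helper23.FB.L00_a10
import Pool.Agent.Helper23.FB.L00_a12
import Pool.Agent.Helper23.FB.L00_a13
import Pool.Agent.Helper23.FB.L00_a2
import Pool.Agent.Helper23.FB.L00_a3

/-!
Parts of Helper23.FA.L01_17, Helper23.FA.L01_18, Helper23.FA.L01_10, Helper23.FA.L01_14, Helper23.FA.L01_05
-/

attribute [local instance 5000]
  Pool.Agent.Helper23.FB.Inst.rCharZero Pool.Agent.Helper23.FB.Inst.rALM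
  Pool.Agent.Helper23.FB.Inst.rARM Pool.Agent.Helper23.FB.Inst.rALSM
  Pool.Agent.Helper23.FB.Inst.rARSM Pool.Agent.Helper23.FB.Inst.rARRLE
  Pool.Agent.Helper23.FB.Inst.rALRLE Pool.Agent.Helper23.FB.Inst.rARRLT
  Pool.Agent.Helper23.FB.Inst.rALRLT Pool.Agent.Helper23.FB.Inst.rPMRLT
  Pool.Agent.Helper23.FB.Inst.rMPRLT Pool.Agent.Helper23.FB.Inst.rPMM
  Pool.Agent.Helper23.FB.Inst.rMPM Pool.Agent.Helper23.FB.Inst.rPMSM
  Pool.Agent.Helper23.FB.Inst.rMPSM Pool.Agent.Helper23.FB.Inst.rEAOL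
  Pool.Agent.Helper23.FB.Inst.rIOR Pool.Agent.Helper23.FB.Inst.rISOR
  Pool.Agent.Helper23.FB.Inst.rFS Pool.Agent.Helper23.FB.Inst.rcCharZero
  Pool.Agent.Helper23.FB.Inst.rNZD Pool.Agent.Helper23.FB.Inst.rcNZD
  Pool.Agent.Helper23.FB.Inst.bSemiring Pool.Agent.Helper23.FB.Inst.bStar
  Pool.Agent.Helper23.FB.Inst.bAlg Pool.Agent.Helper23.FB.Inst.bSub
  Pool.Agent.Helper23.FB.Inst.bMul Pool.Agent.Helper23.FB.Inst.bAdd
  Pool.Agent.Helper23.FB.Inst.iRing Pool.Agent.Helper23.FB.Inst.iSemiring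
  Pool.Agent.Helper23.FB.Inst.iAlgC Pool.Agent.Helper23.FB.Inst.iSMulC
  Pool.Agent.Helper23.FB.Inst.iModC Pool.Agent.Helper23.FB.Inst.iAlgR
  Pool.Agent.Helper23.FB.Inst.iSMulR Pool.Agent.Helper23.FB.Inst.iModR
  Pool.Agent.Helper23.FB.Inst.iMonoid Pool.Agent.Helper23.FB.Inst.iSemigroup
  Pool.Agent.Helper23.FB.Inst.iMulOneClass Pool.Agent.Helper23.FB.Inst.iMul
  Pool.Agent.Helper23.FB.Inst.iAdd Pool.Agent.Helper23.FB.Inst.iSub
  Pool.Agent.Helper23.FB.Inst.iNeg Pool.Agent.Helper23.FB.Inst.iAddCommMonoid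
  Pool.Agent.Helper23.FB.Inst.iAddCommGroup Pool.Agent.Helper23.FB.Inst.iAddGroup
  Pool.Agent.Helper23.FB.Inst.iAddMonoid Pool.Agent.Helper23.FB.Inst.iSMulZeroC
  Pool.Agent.Helper23.FB.Inst.iMulActC Pool.Agent.Helper23.FB.Inst.iDSMulC
  Pool.Agent.Helper23.FB.Inst.iDSMulR Pool.Agent.Helper23.FB.Inst.iSNAG
  Pool.Agent.Helper23.FB.Inst.iSNACG Pool.Agent.Helper23.FB.Inst.iNorm
  Pool.Agent.Helper23.FB.Inst.iNSC' Pool.Agent.Helper23.FB.Inst.iNSR'
  Pool.Agent.Helper23.FB.Inst.iTop Pool.Agent.Helper23.FB.Inst.iT2 Pool.Agent.Helper23.FB.Inst.iTR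
  Pool.Agent.Helper23.FB.Inst.iSCC Pool.Agent.Helper23.FB.Inst.iIST
  Pool.Agent.Helper23.FB.Inst.iSCCR Pool.Agent.Helper23.FB.Inst.iISTR
  Pool.Agent.Helper23.FB.Inst.iZHC Pool.Agent.Helper23.FB.Inst.iAHC
  Pool.Agent.Helper23.FB.Inst.iAMHC Pool.Agent.Helper23.FB.Inst.iMAHC
  Pool.Agent.Helper23.FB.Inst.lTop Pool.Agent.Helper23.FB.Inst.lUnif
  Pool.Agent.Helper23.FB.Inst.lACM Pool.Agent.Helper23.FB.Inst.lACG
  Pool.Agent.Helper23.FB.Inst.lSNAG Pool.Agent.Helper23.FB.Inst.lSNACG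
  Pool.Agent.Helper23.FB.Inst.lNACG Pool.Agent.Helper23.FB.Inst.lNorm
  Pool.Agent.Helper23.FB.Inst.lIPS Pool.Agent.Helper23.FB.Inst.lMod
  Pool.Agent.Helper23.FB.Inst.lSMul Pool.Agent.Helper23.FB.Inst.lT2
  Pool.Agent.Helper23.FB.Inst.iStar Pool.Agent.Helper23.FB.Inst.iStarMul
  Pool.Agent.Helper23.FB.Inst.iStarAddMonoid Pool.Agent.Helper23.FB.Inst.iStarRing
  Pool.Agent.Helper23.FB.Inst.iNSC Pool.Agent.Helper23.FB.Inst.iSOR
  Pool.Agent.Helper23.FB.Inst.iALM Pool.Agent.Helper23.FB.Inst.iARM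
  Pool.Agent.Helper23.FB.Inst.iCFC Pool.Agent.Helper23.FB.Inst.iNCFC
  Pool.Agent.Helper23.FB.Inst.iStarModR Pool.Agent.Helper23.FB.Inst.iStarModC
  Pool.Agent.Helper23.FB.Inst.eStar Pool.Agent.Helper23.FB.Inst.eAdd
  Pool.Agent.Helper23.FB.Inst.eMul Pool.Agent.Helper23.FB.Inst.eOne
  Pool.Agent.Helper23.FB.Inst.eZero Pool.Agent.Helper23.FB.Inst.eMulAction
  Pool.Agent.Helper23.FB.Inst.eAMHC2 Pool.Agent.Helper23.FB.Inst.eZHC2
  Pool.Agent.Helper23.FB.Inst.lAMHC

namespace Pool.Agent.Helper23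
end Pool.Agent.Helper23
namespace Pool.Agent.Helper23.U10
end Pool.Agent.Helper23.U10

section

section

open scoped InnerProductSpace Topology ENNReal

open ContinuousLinearMap Filter MeasureTheory

namespace Pool.Agent.Helper23

variable {H : Type*} [NormedAddCommGroup H] [InnerProductSpace ℂ H] [CompleteSpace H]

variable {M N : VonNeumannAlgebra H} {ξ : H} {E : (H →L[ℂ] H) → (H →L[ℂ] H)}

/-- weights on the windows -/
noncomputable def em (t : ℝ) (i : ℤ) (s : ℝ) : ℂ :=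
  (win t i).indicator (fun s => ((Real.exp (i * t - s) : ℝ) : ℂ)) s

/-- weights on the windows -/
noncomputable def ep (t : ℝ) (i : ℤ) (s : ℝ) : ℂ :=
  (win t i).indicator (fun s => ((Real.exp (s - i * t) : ℝ) : ℂ)) s

lemma em_of_mem {t : ℝ} {i : ℤ} {s : ℝ} (h : s ∈ win t i) :
    em t i s = ((Real.exp (i * t - s) : ℝ) : ℂ) := Set.indicator_of_mem h _

lemma em_of_notMem {t : ℝ} {i : ℤ} {s : ℝ} (h : s ∉ win t i) : em t i s = 0 :=
  Set.indicator_of_notMem h _

lemma ep_of_mem {t : ℝ} {i : ℤ} {s : ℝ} (h : s ∈ win t i) :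
    ep t i s = ((Real.exp (s - i * t) : ℝ) : ℂ) := Set.indicator_of_mem h _

lemma ep_of_notMem {t : ℝ} {i : ℤ} {s : ℝ} (h : s ∉ win t i) : ep t i s = 0 :=
  Set.indicator_of_notMem h _

lemma em_norm (t : ℝ) (i : ℤ) (s : ℝ) : ‖em t i s‖ ≤ 1 := by
  by_cases h : s ∈ win t i
  · rw [em_of_mem h, Complex.norm_real, Real.norm_of_nonneg (by positivity), Real.exp_le_one_iff]
    linarith [h.1]
  · rw [em_of_notMem h, norm_zero]; exact zero_le_one

lemma ep_norm {t : ℝ} (ht : 0 < t) (i : ℤ) (s : ℝ) : ‖ep t i s‖ ≤ Real.exp t := by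
  by_cases h : s ∈ win t i
  · rw [ep_of_mem h, Complex.norm_real, Real.norm_of_nonneg (by positivity), Real.exp_le_exp]
    have := h.2
    (clear * - this; nlinarith)
  · rw [ep_of_notMem h, norm_zero]; positivity

lemma em_bm (t : ℝ) (i : ℤ) : BM (em t i) := by
  refine ⟨(Complex.measurable_ofReal.comp
    (Real.measurable_exp.comp (measurable_const.sub measurable_id))).indicator (win_meas t i),
    1, zero_le_one, em_norm t i⟩

lemma ep_bm {t : ℝ} (ht : 0 < t) (i : ℤ) : BM (ep t i) := by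
  refine ⟨(Complex.measurable_ofReal.comp
    (Real.measurable_exp.comp (measurable_id.sub measurable_const))).indicator (win_meas t i),
    Real.exp t, by positivity, ep_norm ht i⟩

lemma em_sub_norm {t : ℝ} (ht : 0 < t) (i : ℤ) (s : ℝ) : ‖em t i s - ind (win t i) s‖ ≤ t := by
  by_cases h : s ∈ win t i
  · rw [em_of_mem h, ind_of_mem h, ← Complex.ofReal_one, ← Complex.ofReal_sub,
      Complex.norm_real, Real.norm_eq_abs, abs_le]
    have h1 := h.1
    have h2 := h.2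
    have h3 : Real.exp (i * t - s) ≤ 1 := Real.exp_le_one_iff.2 (by linarith)
    have h4 := Real.add_one_le_exp (i * t - s)
    constructor
    · (clear * - h2 h4; nlinarith)
    · linarith
  · rw [em_of_notMem h, ind_of_notMem h, sub_zero, norm_zero]; exact ht.le

lemma ep_sub_norm {t : ℝ} (ht : 0 < t) (i : ℤ) (s : ℝ) :
    ‖ep t i s - ind (win t i) s‖ ≤ t * Real.exp t := by
  by_cases h : s ∈ win t i
  · rw [ep_of_mem h, ind_of_mem h, ← Complex.ofReal_one, ← Complex.ofReal_sub,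
      Complex.norm_real, Real.norm_eq_abs]
    have h1 := h.1
    have h2 : s - i * t ≤ t := by
      have := h.2
      (clear * - this; nlinarith)
    have h3 : 1 ≤ Real.exp (s - i * t) := Real.one_le_exp (by linarith)
    rw [abs_of_nonneg (by linarith)]
    have h5 : Real.exp (s - i * t) ≤ Real.exp t := Real.exp_le_exp.2 h2
    have h6 := Real.add_one_le_exp (-t)
    have h7 : Real.exp t * Real.exp (-t) = 1 := by rw [← Real.exp_add]; simp
    (clear * - h5 h6 h7 h3; nlinarith [Real.exp_pos t])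
  · rw [ep_of_notMem h, ind_of_notMem h, sub_zero, norm_zero]; positivity

/-- the weighted slices -/
noncomputable def sb (u : L2R H →L[ℂ] L2R H) (t : ℝ) (g : L2R ℂ) (l : ℤ × hw × ℤ) : H →L[ℂ] H :=
  slX u (mulOp ℂ (em t l.1) (hb l.2.1)) (mulOp ℂ (ep t l.2.2) g)

end Pool.Agent.Helper23

end

end

section

section

open scoped InnerProductSpace Topology BoundedContinuousFunction

open ContinuousLinearMap Filter MeasureTheory

namespace Pool.Agent.Helper70.U8

open Pool.Agent.Helper23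

variable {H : Type*} [NormedAddCommGroup H] [InnerProductSpace ℂ H] [CompleteSpace H]

variable {A : VonNeumannAlgebra H} {ξ : H} {R : H →L[ℂ] H} {D : H →L[ℝ] H}
  {Ψ : (ℝ →ᵇ ℂ) →⋆ₐ[ℂ] (H →L[ℂ] H)}

lemma U_star (t : ℝ) : star (U Ψ t) = V Ψ t := by
  unfold U V
  rw [← map_star, expB_star]

lemma V_star (t : ℝ) : star (V Ψ t) = U Ψ t := by
  rw [← U_star, star_star]

end Pool.Agent.Helper70.U8

end

end

section

section

open scoped InnerProductSpace Topology

open ContinuousLinearMap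

namespace Pool.Agent.Helper78.BC

variable {H : Type*} [NormedAddCommGroup H] [InnerProductSpace ℂ H] [CompleteSpace H]

theorem cfc_mem (B : VonNeumannAlgebra H) {x : H →L[ℂ] H} (hx : x ∈ B) (f : ℝ → ℝ) :
    cfc f x ∈ B := by
  rw [Pool.Agent.Helper23.mem_iff_commutes]
  intro g hg
  have h1 : Commute x g := by
    have := Pool.Agent.Helper23.mem_comm_iff.1 hg x hx
    exact this
  exact (h1.cfc_real f).symm

/-- The two halves of the spectrum. -/
theorem half (B : VonNeumannAlgebra H)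
    (hB : ∀ p ∈ B, p * p = p → star p = p → p = 0 ∨ p = 1) {x : H →L[ℂ] H} (hx : x ∈ B)
    (hsa : IsSelfAdjoint x) (c : ℝ) :
    (∀ t ∈ spectrum ℝ x, t ≤ c) ∨ (∀ t ∈ spectrum ℝ x, c ≤ t) := by
  set f := cfc (fun t : ℝ => max (t - c) 0) x with hf
  set g := cfc (fun t : ℝ => max (c - t) 0) x with hg
  have hfB : f ∈ B := cfc_mem B hx _
  have hgf : g * f = 0 := by
    rw [hf, hg, ← cfc_mul (fun t : ℝ => max (c - t) 0) (fun t : ℝ => max (t - c) 0) x]
    have h0 : (fun t : ℝ => max (c - t) 0 * max (t - c) 0) = fun _ => 0 := by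
      funext t
      rcases le_total t c with h | h
      · rw [max_eq_right (sub_nonpos.2 h), mul_zero]
      · rw [max_eq_right (sub_nonpos.2 h), zero_mul]
    rw [h0, cfc_const_zero]
  set V := (f.range).topologicalClosure with hV
  set e := V.starProjection with he
  have hsp : IsStarProjection e := isStarProjection_starProjection
  have heB : e ∈ B := by
    rw [VonNeumannAlgebra.IsStarProjection.mem_iff hsp]
    intro y hy
    rw [he, Submodule.range_starProjection, Module.End.mem_invtSubmodule]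
    intro v hv
    rw [Submodule.mem_comap]
    have h1 : (f.range : Set H) ⊆ y ⁻¹' (V : Set H) := by
      rintro _ ⟨w, rfl⟩
      refine Submodule.le_topologicalClosure _ ⟨y w, ?_⟩
      exact Pool.Agent.Helper23.commute_apply hfB hy w
    have h2 : closure (f.range : Set H) ⊆ y ⁻¹' (V : Set H) :=
      closure_minimal h1 ((Submodule.isClosed_topologicalClosure _).preimage y.continuous)
    exact h2 hv
  rcases hB e heB hsp.isIdempotentElem hsp.isSelfAdjoint with h0 | h1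
  · left
    have hf0 : f = 0 := by
      ext v
      have h2 : f v ∈ V := Submodule.le_topologicalClosure _ ⟨v, rfl⟩
      have h3 : e (f v) = f v := Submodule.starProjection_eq_self_iff.2 h2
      rw [← h3, h0]
      rfl
    have h2 : cfc (fun t : ℝ => max (t - c) 0) x = cfc (fun _ : ℝ => (0 : ℝ)) x := by
      rw [← hf, hf0, cfc_const_zero]
    have h3 := eqOn_of_cfc_eq_cfc h2
    intro t ht
    have h4 := h3 ht
    have h5 : max (t - c) 0 = 0 := h4
    have := le_max_left (t - c) 0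
    (clear * - h4 this; linarith)
  · right
    have hg0 : g = 0 := by
      ext v
      have h2 : v ∈ V := by
        rw [← Submodule.starProjection_eq_self_iff, ← he, h1]
        rfl
      have h3 : (f.range : Set H) ⊆ {w | g w = 0} := by
        rintro _ ⟨w, rfl⟩
        exact congrArg (fun T : H →L[ℂ] H => T w) hgf
      have h4 : closure (f.range : Set H) ⊆ {w | g w = 0} :=
        closure_minimal h3 (isClosed_eq g.continuous continuous_const)
      exact h4 h2
    have h2 : cfc (fun t : ℝ => max (c - t) 0) x = cfc (fun _ : ℝ => (0 : ℝ)) x := by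
      rw [← hg, hg0, cfc_const_zero]
    have h3 := eqOn_of_cfc_eq_cfc h2
    intro t ht
    have h4 := h3 ht
    have h5 : max (c - t) 0 = 0 := h4
    have := le_max_left (c - t) 0
    linarith

theorem sa_scalar (B : VonNeumannAlgebra H)
    (hB : ∀ p ∈ B, p * p = p → star p = p → p = 0 ∨ p = 1) {x : H →L[ℂ] H} (hx : x ∈ B)
    (hsa : IsSelfAdjoint x) : ∃ c : ℂ, x = c • (1 : H →L[ℂ] H) := by
  have h1 : ∃ s : ℝ, ∀ t ∈ spectrum ℝ x, t = s := by
    rcases (spectrum ℝ x).eq_empty_or_nonempty with he | ⟨s, hs⟩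
    · exact ⟨0, fun t ht => by rw [he] at ht; exact ht.elim⟩
    · refine ⟨s, fun t ht => ?_⟩
      by_contra hne
      rcases lt_or_gt_of_ne hne with h | h
      · rcases half B hB hx hsa ((t + s) / 2) with h2 | h2
        · have := h2 s hs
          (clear * - h this; linarith)
        · have := h2 t ht
          (clear * - h this; linarith)
      · rcases half B hB hx hsa ((t + s) / 2) with h2 | h2
        · have := h2 t ht
          (clear * - h this; linarith)
        · have := h2 s hs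
          linarith
  obtain ⟨s, hs⟩ := h1
  refine ⟨(s : ℂ), ?_⟩
  have h2 : cfc (fun t : ℝ => t) x = cfc (fun _ : ℝ => s) x := cfc_congr fun t ht => hs t ht
  have h3 : cfc (fun t : ℝ => t) x = x := cfc_id' ℝ x
  rw [h3, cfc_const s x hsa] at h2
  rw [h2, Algebra.algebraMap_eq_smul_one]
  ext v
  simp

theorem scalar_of_proj (B : VonNeumannAlgebra H)
    (hB : ∀ p ∈ B, p * p = p → star p = p → p = 0 ∨ p = 1) :
    ∀ x ∈ B, ∃ c : ℂ, x = c • (1 : H →L[ℂ] H) := by
  intro x hx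
  have hx' : star x ∈ B := star_mem hx
  have ha : ((2 : ℂ)⁻¹ • (x + star x)) ∈ B :=
    Pool.Agent.Helper23.smul_mem' _ (add_mem hx hx')
  have hb : ((-Complex.I * (2 : ℂ)⁻¹) • (x - star x)) ∈ B :=
    Pool.Agent.Helper23.smul_mem' _ (sub_mem hx hx')
  have ha' : IsSelfAdjoint ((2 : ℂ)⁻¹ • (x + star x)) := by
    rw [IsSelfAdjoint, star_smul, star_add, star_star, add_comm (star x) x]
    congr 1
    simp
  have hb' : IsSelfAdjoint ((-Complex.I * (2 : ℂ)⁻¹) • (x - star x)) := by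
    rw [IsSelfAdjoint, star_smul, star_sub, star_star, ← neg_sub x (star x), smul_neg, ← neg_smul]
    congr 1
    simp
  obtain ⟨c, hc⟩ := sa_scalar B hB ha ha'
  obtain ⟨d, hd⟩ := sa_scalar B hB hb hb'
  refine ⟨c + Complex.I * d, ?_⟩
  rw [add_smul, mul_smul, ← hc, ← hd, smul_smul]
  have h1 : Complex.I * (-Complex.I * (2 : ℂ)⁻¹) = (2 : ℂ)⁻¹ := by
    rw [← mul_assoc, mul_neg, Complex.I_mul_I, neg_neg, one_mul]
  rw [h1, ← smul_add]
  have h2 : x + star x + (x - star x) = (2 : ℂ) • x := by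
    rw [two_smul]
    abel
  rw [h2, smul_smul]
  norm_num

end Pool.Agent.Helper78.BC

end

end

section

section

open scoped InnerProductSpace Topology BoundedContinuousFunction

open ContinuousLinearMap Filter MeasureTheory

namespace Pool.Agent.Helper88.CS

open Pool.Agent.Helper23

open Pool.Agent.Helper78.BC (rm)

variable {H : Type*} [NormedAddCommGroup H] [InnerProductSpace ℂ H] [CompleteSpace H]

variable {A : VonNeumannAlgebra H}

/-- The strong sum of a sequence of partial isometries with orthogonal initial and final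
projections. -/
theorem exists_sum {w : ℕ → H →L[ℂ] H} (hA : ∀ n, w n ∈ A) (hw : ∀ n, w n * star (w n) * w n = w n)
    (h1 : ∀ m n, m ≠ n → star (w m) * w n = 0) (h2 : ∀ m n, m ≠ n → w m * star (w n) = 0) :
    ∃ v ∈ A, v * star v * v = v ∧ (∀ x, HasSum (fun n => w n x) (v x)) ∧
      (∀ x, HasSum (fun n => star (w n) x) (star v x)) ∧
      (∀ x, HasSum (fun n => (star (w n) * w n) x) ((star v * v) x)) ∧
      (∀ x, HasSum (fun n => (w n * star (w n)) x) ((v * star v) x)) ∧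
      (∀ n, v * (star (w n) * w n) = w n) ∧ ∀ n, w n * star (w n) * v = w n := by
  obtain ⟨v, hv⟩ := SumsAux.exists_lim hw h1 h2
  have hw' : ∀ n, star (w n) * star (star (w n)) * star (w n) = star (w n) := fun n => by
    have := congrArg star (hw n)
    rw [star_mul, star_mul, star_star, ← mul_assoc] at this
    rw [star_star]
    exact this
  have h1' : ∀ m n, m ≠ n → star (star (w m)) * star (w n) = 0 := fun m n h => by
    rw [star_star]; exact h2 m n h
  have h2' : ∀ m n, m ≠ n → star (w m) * star (star (w n)) = 0 := fun m n h => by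
    rw [star_star]; exact h1 m n h
  obtain ⟨v', hv'⟩ := SumsAux.exists_lim (w := fun n => star (w n)) hw' h1' h2'
  have hvv' : star v = v' := by
    ext x
    refine ext_inner_right ℂ fun y => ?_
    rw [SumsAux.star_inner]
    have e1 : HasSum (fun n => ⟪x, w n y⟫_ℂ) ⟪x, v y⟫_ℂ := (hv y).mapL (innerSL ℂ x)
    have e2 : HasSum (fun n => ⟪(star (w n)) x, y⟫_ℂ) ⟪v' x, y⟫_ℂ := by
      have := ((hv' x).mapL (innerSL ℂ y)).map (starRingEnd ℂ) RCLike.continuous_conj
      simpa [Function.comp_def] using this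
    refine e1.unique ?_
    convert e2 using 2 with n
    rw [SumsAux.star_inner]
  subst hvv'
  -- v w_n^* = w_n w_n^*
  have k1 : ∀ n, v * star (w n) = w n * star (w n) := fun n => by
    ext y
    have e1 := hv ((star (w n)) y)
    have e2 : HasSum (fun m => w m ((star (w n)) y)) (w n ((star (w n)) y)) := by
      refine hasSum_single n fun m hm => ?_
      have : w m ((star (w n)) y) = (w m * star (w n)) y := rfl
      rw [this, h2 m n hm]; rfl
    exact e1.unique e2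
  have k2 : ∀ n, star v * w n = star (w n) * w n := fun n => by
    ext y
    have e1 := hv' (w n y)
    have e2 : HasSum (fun m => (star (w m)) (w n y)) ((star (w n)) (w n y)) := by
      refine hasSum_single n fun m hm => ?_
      have : (star (w m)) (w n y) = (star (w m) * w n) y := rfl
      rw [this, h1 m n hm]; rfl
    exact e1.unique e2
  have k3 : ∀ n, v * (star (w n) * w n) = w n := fun n => by
    rw [← mul_assoc, k1, hw n]
  have k4 : ∀ n, w n * star (w n) * v = w n := fun n => by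
    have := congrArg star (k2 n)
    rw [star_mul, star_star, star_mul, star_star] at this
    rw [mul_assoc, this, ← mul_assoc, hw n]
  have s1 : ∀ x, HasSum (fun n => (star (w n) * w n) x) ((star v * v) x) := fun x => by
    have h3 : HasSum (fun n => (star v) (w n x)) ((star v) (v x)) := (hv x).mapL (star v)
    have h4 : (fun n => (star (w n) * w n) x) = fun n => (star v) (w n x) := by
      funext n
      rw [← k2 n]; rfl
    rw [h4]
    exact h3
  have s2 : ∀ x, HasSum (fun n => (w n * star (w n)) x) ((v * star v) x) := fun x => by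
    have h3 : HasSum (fun n => v ((star (w n)) x)) (v ((star v) x)) := (hv' x).mapL v
    have h4 : (fun n => (w n * star (w n)) x) = fun n => v ((star (w n)) x) := by
      funext n
      rw [← k1 n]; rfl
    rw [h4]
    exact h3
  refine ⟨v, ?_, ?_, hv, hv', s1, s2, k3, k4⟩
  · rw [mem_iff_commutes]
    intro g hg
    ext x
    have e1 : HasSum (fun n => g (w n x)) (g (v x)) := (hv x).mapL g
    have e2 : HasSum (fun n => w n (g x)) (v (g x)) := hv (g x)
    refine e1.unique ?_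
    have h4 : (fun n => g (w n x)) = fun n => w n (g x) := by
      funext n
      have := mem_iff_commutes.1 (hA n) g hg
      exact congrArg (fun T : H →L[ℂ] H => T x) this
    rw [h4]
    exact e2
  · ext x
    have e1 : HasSum (fun n => v ((star (w n) * w n) x)) (v ((star v * v) x)) := (s1 x).mapL v
    have h4 : (fun n => v ((star (w n) * w n) x)) = fun n => w n x := by
      funext n
      exact congrArg (fun T : H →L[ℂ] H => T x) (k3 n)
    rw [h4] at e1
    rw [mul_assoc]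
    exact e1.unique (hv x)

end Pool.Agent.Helper88.CS

end

section

open scoped InnerProductSpace Topology BoundedContinuousFunction

open ContinuousLinearMap Filter MeasureTheory

namespace Pool.Agent.Helper88.CS

open Pool.Agent.Helper23

open Pool.Agent.Helper78.BC (rm)

variable {H : Type*} [NormedAddCommGroup H] [InnerProductSpace ℂ H] [CompleteSpace H]

variable {A : VonNeumannAlgebra H} {ξ : H}

/-- Cantor - Bernstein -/
theorem csb {e w : H →L[ℂ] H} (he : IsP A e) (hw : w ∈ A) (h1 : star w * w = 1) (h2 : e * w = w) :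
    ∃ u ∈ A, star u * u = 1 ∧ u * star u = e := by
  obtain ⟨heA, hes, hee⟩ := he
  set q : H →L[ℂ] H := 1 - e with hqdef
  have hqA : q ∈ A := sub_mem (one_mem A) heA
  have hq : star q = q := by rw [hqdef, star_sub, star_one, hes]
  have hq2 : q * q = q := by
    rw [hqdef, sub_mul, mul_sub, mul_sub, hee]; simp
  have hqw : q * w = 0 := by rw [hqdef, sub_mul, one_mul, h2, sub_self]
  set p : ℕ → H →L[ℂ] H := fun n => w ^ n * q * star w ^ n with hp
  have hpA : ∀ n, p n ∈ A := fun n =>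
    mul_mem (mul_mem (pow_mem hw n) hqA) (pow_mem (star_mem hw) n)
  have hps : ∀ n, star (p n) = p n := fun n => (EquivAux.shift_proj hq hq2 h1 n).1
  have hpp : ∀ n, p n * p n = p n := fun n => (EquivAux.shift_proj hq hq2 h1 n).2
  have hpo : ∀ m n, m ≠ n → p m * p n = 0 := fun m n h => EquivAux.shift_ortho hq h1 hqw m n h
  obtain ⟨r, hrA, -, hr1, hr2, hr3, -, -, -⟩ := exists_sum (A := A) (w := p) hpA
    (fun n => by rw [hps, hpp, hpp]) (fun m n h => by rw [hps]; exact hpo m n h)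
    (fun m n h => by rw [hps]; exact hpo m n h)
  have hrs : star r = r := by
    ext x
    have a1 := hr2 x
    simp only [hps] at a1
    exact a1.unique (hr1 x)
  have hrr : r * r = r := by
    ext x
    have a1 := hr3 x
    simp only [hps, hpp, hrs] at a1
    exact a1.unique (hr1 x)
  have hp0 : p 0 = q := by simp [hp]
  have hpsucc : ∀ n, w * p n * star w = p (n + 1) := by
    intro n
    simp only [hp]
    rw [pow_succ' w n, pow_succ (star w) n]
    simp only [mul_assoc]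
  have hwrw : w * r * star w = r - q := by
    ext x
    have a1 : HasSum (fun n => p (n + 1) x) ((w * r * star w) x) := by
      have a2 := (hr1 ((star w) x)).mapL w
      refine (a2.congr_fun ?_)
      intro n
      rw [← hpsucc n]; rfl
    have a3 : HasSum (fun n => p (n + 1) x) (r x - p 0 x) := by
      have := (hasSum_nat_add_iff' 1).2 (hr1 x)
      simpa using this
    have := a1.unique a3
    rw [this, hp0]; rfl
  have hwr : w * r = r * w := by
    calc w * r = w * r * (star w * w) := by rw [h1, mul_one]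
      _ = (w * r * star w) * w := by simp only [mul_assoc]
      _ = r * w := by rw [hwrw, sub_mul, hqw, sub_zero]
  have hrwr : r * (w * r) = w * r := by
    rw [hwr, ← mul_assoc, hrr]
  have hrwr' : (r * star w) * r = r * star w := by
    have := congrArg star hrwr
    simpa [hrs, mul_assoc] using this
  refine ⟨w * r + (1 - r), add_mem (mul_mem hw hrA) (sub_mem (one_mem A) hrA), ?_, ?_⟩
  · rw [star_add, star_sub, star_one, star_mul, hrs]
    calc (r * star w + (1 - r)) * (w * r + (1 - r))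
        = r * (star w * w) * r + (r * star w - (r * star w) * r) + (w * r - r * (w * r))
          + (1 - r - r + r * r) := by noncomm_ring
      _ = 1 := by rw [h1, hrwr, hrwr', mul_one, hrr]; abel
  · rw [star_add, star_sub, star_one, star_mul, hrs]
    calc (w * r + (1 - r)) * (r * star w + (1 - r))
        = w * (r * r) * star w + (w * r - w * (r * r)) + (r * star w - (r * r) * star w)
          + (1 - r - r + r * r) := by noncomm_ring
      _ = e := by rw [hrr, hwrw, hqdef]; abel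

/-- nonzero subprojections of small mass -/
theorem exists_small (hA : FInf A) (ξ : H) {e : H →L[ℂ] H} (he : IsP A e) (he0 : e ≠ 0)
    {ε : ℝ} (hε : 0 < ε) : ∃ r, IsP A r ∧ r ≠ 0 ∧ e * r = r ∧ ‖r ξ‖ ≤ ε := by
  obtain ⟨p, x, hp, hpo, -⟩ := exists_seq hA he he0
  obtain ⟨r, -, -, hr1, -⟩ := exists_sum (A := A) (w := p) (fun n => (hp n).1.1)
    (fun n => by rw [(hp n).1.2.1, (hp n).1.2.2, (hp n).1.2.2])
    (fun m n h => by rw [(hp m).1.2.1]; exact hpo m n h)
    (fun m n h => by rw [(hp n).1.2.1]; exact hpo m n h)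
  have h1 := (hr1 ξ).summable.tendsto_atTop_zero
  have h2 := (Metric.tendsto_atTop.1 h1) ε hε
  obtain ⟨N, hN⟩ := h2
  have h3 := hN N le_rfl
  rw [dist_zero_right] at h3
  exact ⟨p N, (hp N).1, (hp N).2.1, (hp N).2.2, h3.le⟩

end Pool.Agent.Helper88.CS

end

section

open scoped InnerProductSpace Topology BoundedContinuousFunction

open ContinuousLinearMap Filter MeasureTheory

namespace Pool.Agent.Helper88.CS

open Pool.Agent.Helper23

open Pool.Agent.Helper78.BC (rm)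

variable {H : Type*} [NormedAddCommGroup H] [InnerProductSpace ℂ H] [CompleteSpace H]

variable {A : VonNeumannAlgebra H} {ξ : H} {J : H →L[ℝ] H}
  {Ψ : (ℝ →ᵇ ℂ) →⋆ₐ[ℂ] (H →L[ℂ] H)} {R : H →L[ℂ] H} {D : H →L[ℝ] H}

namespace ExhAux

/-- `v` is the supremum of an increasing sequence of partial isometries -/
lemma exists_sup {v : ℕ → H →L[ℂ] H} (hA : ∀ n, v n ∈ A)
    (hv : ∀ n, v n * star (v n) * v n = v n) (hmon : ∀ m n, m ≤ n → Le (v m) (v n)) :
    ∃ V ∈ A, V * star V * V = V ∧ (∀ n, Le (v n) V) ∧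
      (∀ x, Tendsto (fun n => v n x) atTop (𝓝 (V x))) ∧
      (∀ x, Tendsto (fun n => star (v n) x) atTop (𝓝 (star V x))) ∧
      (∀ x, Tendsto (fun n => (star (v n) * v n) x) atTop (𝓝 ((star V * V) x))) ∧
      (∀ x, Tendsto (fun n => (v n * star (v n)) x) atTop (𝓝 ((V * star V) x))) := by
  set w : ℕ → H →L[ℂ] H := fun n => Nat.casesOn n (v 0) (fun k => v (k + 1) - v k) with hw
  have hw0 : w 0 = v 0 := rfl
  have hw1 : ∀ k, w (k + 1) = v (k + 1) - v k := fun k => rfl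
  have hd : ∀ k, _ := fun k => (hmon k (k + 1) (Nat.le_succ k)).diff (hv k) (hv (k + 1))
  have hwA : ∀ n, w n ∈ A := by
    intro n
    cases n with
    | zero => exact hA 0
    | succ k => exact sub_mem (hA _) (hA _)
  have hwp : ∀ n, w n * star (w n) * w n = w n := by
    intro n
    cases n with
    | zero => exact hv 0
    | succ k => exact (hd k).2.2
  have hs1 : ∀ n, (∑ i ∈ Finset.range (n + 1), w i) = v n := by
    intro n
    induction n with
    | zero => simp [hw0]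
    | succ n ih => rw [Finset.sum_range_succ, ih, hw1]; abel
  have hs2 : ∀ n, (∑ i ∈ Finset.range (n + 1), star (w i) * w i) = star (v n) * v n := by
    intro n
    induction n with
    | zero => simp [hw0]
    | succ n ih => rw [Finset.sum_range_succ, ih, hw1, (hd n).1]; abel
  have hs3 : ∀ n, (∑ i ∈ Finset.range (n + 1), w i * star (w i)) = v n * star (v n) := by
    intro n
    induction n with
    | zero => simp [hw0]
    | succ n ih => rw [Finset.sum_range_succ, ih, hw1, (hd n).2.1]; abel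
  -- orthogonality
  have ho1 : ∀ k n, k ≤ n → star (v k) * w (n + 1) = 0 := by
    intro k n hk
    rw [hw1, mul_sub, (hmon k (n + 1) (by omega)).star_mul_right (hv k),
      (hmon k n hk).star_mul_right (hv k), sub_self]
  have ho2 : ∀ k n, k ≤ n → v k * star (w (n + 1)) = 0 := by
    intro k n hk
    rw [hw1, star_sub, mul_sub, (hmon k (n + 1) (by omega)).mul_star_right (hv k),
      (hmon k n hk).mul_star_right (hv k), sub_self]
  have hp1 : ∀ m n, m < n → star (w m) * w n = 0 := by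
    intro m n hmn
    obtain ⟨n, rfl⟩ : ∃ k, n = k + 1 := ⟨n - 1, by omega⟩
    cases m with
    | zero => exact ho1 0 n (by omega)
    | succ m =>
      rw [hw1 m, star_sub, sub_mul, ho1 (m + 1) n (by omega), ho1 m n (by omega), sub_self]
  have hp2 : ∀ m n, m < n → w m * star (w n) = 0 := by
    intro m n hmn
    obtain ⟨n, rfl⟩ : ∃ k, n = k + 1 := ⟨n - 1, by omega⟩
    cases m with
    | zero => exact ho2 0 n (by omega)
    | succ m =>
      rw [hw1 m, sub_mul, ho2 (m + 1) n (by omega), ho2 m n (by omega), sub_self]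
  have h1 : ∀ m n, m ≠ n → star (w m) * w n = 0 := by
    intro m n hmn
    rcases lt_or_gt_of_ne hmn with h | h
    · exact hp1 m n h
    · have := congrArg star (hp1 n m h)
      simpa [star_mul] using this
  have h2 : ∀ m n, m ≠ n → w m * star (w n) = 0 := by
    intro m n hmn
    rcases lt_or_gt_of_ne hmn with h | h
    · exact hp2 m n h
    · have := congrArg star (hp2 n m h)
      simpa [star_mul] using this
  obtain ⟨V, hVA, hV, c1, c2, c3, c4, c5, c6⟩ := exists_sum hwA hwp h1 h2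
  have lim : ∀ (F : ℕ → H →L[ℂ] H) (G : ℕ → H →L[ℂ] H) (S : H →L[ℂ] H) (x : H),
      (∀ n, (∑ i ∈ Finset.range (n + 1), F i) = G n) → HasSum (fun n => F n x) (S x) →
      Tendsto (fun n => G n x) atTop (𝓝 (S x)) := by
    intro F G S x hFG hsum
    have := (hsum.tendsto_sum_nat).comp (tendsto_add_atTop_nat 1)
    refine this.congr fun n => ?_
    simp only [Function.comp]
    rw [← hFG n, ContinuousLinearMap.sum_apply]
  refine ⟨V, hVA, hV, fun n => ⟨?_, ?_⟩, fun x => lim w v V x hs1 (c1 x), fun x => ?_,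
    fun x => lim _ _ _ x hs2 (c3 x), fun x => lim _ _ _ x hs3 (c4 x)⟩
  · rw [← hs2 n, Finset.mul_sum, ← hs1 n]
    exact Finset.sum_congr rfl fun i _ => c5 i
  · rw [← hs3 n, Finset.sum_mul, ← hs1 n]
    exact Finset.sum_congr rfl fun i _ => c6 i
  · refine lim (fun n => star (w n)) (fun n => star (v n)) (star V) x (fun n => ?_) (c2 x)
    rw [← hs1 n, star_sum]

end ExhAux

end Pool.Agent.Helper88.CS

end

end

section

section

open scoped InnerProductSpace Topology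

open ContinuousLinearMap Filter

namespace Pool.Agent.Helper23

variable {H : Type*} [NormedAddCommGroup H] [InnerProductSpace ℂ H] [CompleteSpace H]

variable {K : Type*} [NormedAddCommGroup K] [InnerProductSpace ℂ K] [CompleteSpace K]

/-- The ultrapower of the inclusion `N ⊆ M` with its expectation and vector; `rep x` is the
element of the ultrapower of `M` given by the sequence `x` in `AppS M ξ`. -/
structure Oc (M N : VonNeumannAlgebra H) (E : (H →L[ℂ] H) → (H →L[ℂ] H)) (ξ : H)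
    (MT NT : VonNeumannAlgebra K) (ET : (K →L[ℂ] K) → (K →L[ℂ] K)) (ζ : K)
    (rep : (ℕ → H →L[ℂ] H) → (K →L[ℂ] K)) : Prop where
  set : Setting MT NT ET ζ
  add : ∀ x ∈ AppS M ξ, ∀ y ∈ AppS M ξ, rep (fun n => x n + y n) = rep x + rep y
  smul : ∀ (c : ℂ), ∀ x ∈ AppS M ξ, rep (fun n => c • x n) = c • rep x
  mul : ∀ x ∈ AppS M ξ, ∀ y ∈ AppS M ξ, rep (fun n => x n * y n) = rep x * rep y
  star : ∀ x ∈ AppS M ξ, rep (fun n => star (x n)) = star (rep x)
  one : rep (fun _ => 1) = 1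
  norm : ∀ x ∈ AppS M ξ, ∀ C : ℝ, (∀ n, ‖x n‖ ≤ C) → ‖rep x‖ ≤ C
  inner : ∀ x ∈ AppS M ξ, ∀ y ∈ AppS M ξ,
    Tendsto (fun n => ⟪x n ξ, y n ξ⟫_ℂ) (UU : Filter ℕ) (𝓝 ⟪rep x ζ, rep y ζ⟫_ℂ)
  memM : ∀ x ∈ AppS M ξ, rep x ∈ MT
  memN : ∀ x ∈ AppS M ξ, (∀ n, x n ∈ N) → rep x ∈ NT
  surjM : ∀ T ∈ MT, ∃ x ∈ AppS M ξ, (∀ n, ‖x n‖ ≤ 2 * ‖T‖) ∧ T = rep x
  surjN : ∀ T ∈ NT, ∃ x ∈ AppS M ξ, (∀ n, x n ∈ N) ∧ (∀ n, ‖x n‖ ≤ 2 * ‖T‖) ∧ T = rep x
  expect : ∀ x ∈ AppS M ξ, ET (rep x) = rep (fun n => E (x n))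

end Pool.Agent.Helper23

end

section

open scoped InnerProductSpace Topology

open ContinuousLinearMap Filter

namespace Pool.Agent.Helper23

universe u

variable {H : Type u} [NormedAddCommGroup H] [InnerProductSpace ℂ H] [CompleteSpace H]

variable {M N : VonNeumannAlgebra H} {ξ : H} {E : (H →L[ℂ] H) → (H →L[ℂ] H)}

section U2

theorem AppR_smul (c : ℂ) {x : ℕ → H →L[ℂ] H} (hx : x ∈ AppR M ξ) :
    (fun n => c • x n) ∈ AppR M ξ := by
  obtain ⟨hxM, ⟨C, hC⟩, hx⟩ := hx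
  refine ⟨fun n => smul_mem' c (hxM n), ⟨‖c‖ * C, fun n => ?_⟩, fun ε hε => ?_⟩
  · rw [norm_smul]
    exact mul_le_mul_of_nonneg_left (hC n) (norm_nonneg _)
  · obtain ⟨r, hr, ⟨A, hA⟩, h1⟩ := hx (ε / (‖c‖ + 1)) (by (clear * - hε; positivity))
    refine ⟨fun n => c • r n, fun n => smul_mem' c (hr n), ⟨‖c‖ * A, fun n => ?_⟩, ?_⟩
    · rw [norm_smul]
      exact mul_le_mul_of_nonneg_left (hA n) (norm_nonneg _)
    filter_upwards [h1] with n h3
    have e1 : (c • x n) ξ - (c • r n) ξ = c • (x n ξ - r n ξ) := by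
      rw [smul_apply, smul_apply, smul_sub]
    rw [e1, norm_smul]
    calc ‖c‖ * ‖x n ξ - r n ξ‖ ≤ (‖c‖ + 1) * (ε / (‖c‖ + 1)) := by gcongr; linarith
      _ = ε := by (clear * - hε; field_simp)

theorem AppR_mul {x y : ℕ → H →L[ℂ] H} (hx : x ∈ AppR M ξ) (hy : y ∈ AppR M ξ) :
    (fun n => x n * y n) ∈ AppR M ξ := by
  obtain ⟨hxM, hxB, hx⟩ := hx
  obtain ⟨hyM, hyB, hy⟩ := hy
  obtain ⟨C, hC0, hC⟩ := U2.bdd_nonneg hxB
  obtain ⟨D, hD0, hD⟩ := U2.bdd_nonneg hyB
  refine ⟨fun n => mul_mem (hxM n) (hyM n), ⟨C * D, fun n => ?_⟩, fun ε hε => ?_⟩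
  · exact (norm_mul_le _ _).trans (mul_le_mul (hC n) (hD n) (norm_nonneg _) hC0)
  · obtain ⟨s, hs, hsB, h2⟩ := hy (ε / (2 * (C + 1))) (by (clear * - hε hC0; positivity))
    obtain ⟨B, hB0, hB⟩ := U2.bdd_nonneg hsB
    obtain ⟨r, hr, hrB, h1⟩ := hx (ε / (2 * (B + 1))) (by (clear * - hε hB0; positivity))
    obtain ⟨A, hA0, hA⟩ := U2.bdd_nonneg hrB
    refine ⟨fun n => s n * r n, fun n => mul_mem (hs n) (hr n), ⟨B * A, fun n => ?_⟩, ?_⟩
    · exact (norm_mul_le _ _).trans (mul_le_mul (hB n) (hA n) (norm_nonneg _) hB0)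
    filter_upwards [h1, h2] with n h3 h4
    have e1 : (x n * y n) ξ - (s n * r n) ξ = x n (y n ξ - s n ξ) + s n (x n ξ - r n ξ) := by
      have := commute_apply (hxM n) (hs n) ξ
      change x n (y n ξ) - s n (r n ξ) = _
      rw [map_sub, map_sub, this]
      abel
    rw [e1]
    calc ‖x n (y n ξ - s n ξ) + s n (x n ξ - r n ξ)‖
        ≤ ‖x n (y n ξ - s n ξ)‖ + ‖s n (x n ξ - r n ξ)‖ := norm_add_le _ _
      _ ≤ C * (ε / (2 * (C + 1))) + B * (ε / (2 * (B + 1))) := by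
          gcongr
          · exact ((x n).le_of_opNorm_le (hC n) _).trans (mul_le_mul_of_nonneg_left h4 hC0)
          · exact ((s n).le_of_opNorm_le (hB n) _).trans (mul_le_mul_of_nonneg_left h3 hB0)
      _ ≤ (C + 1) * (ε / (2 * (C + 1))) + (B + 1) * (ε / (2 * (B + 1))) := by
          gcongr <;> (clear * -; linarith)
      _ = ε := by field_simp; ring

/-- bounded sequences of scalars -/
theorem AppR_scalar {c : ℕ → ℂ} (hc : Bdd c) :
    (fun n => c n • (1 : H →L[ℂ] H)) ∈ AppR M ξ := by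
  obtain ⟨C, hC0, hC⟩ := U2.bdd_nonneg hc
  have hB : Bdd fun n => c n • (1 : H →L[ℂ] H) := by
    refine ⟨C * 1, fun n => ?_⟩
    rw [norm_smul]
    exact mul_le_mul (hC n) (ContinuousLinearMap.norm_id_le) (norm_nonneg _) hC0
  refine ⟨fun n => smul_mem' _ (one_mem M), hB, fun ε hε => ?_⟩
  refine ⟨fun n => c n • (1 : H →L[ℂ] H), fun n => smul_mem' _ (one_mem _), hB, ?_⟩
  filter_upwards with n
  rw [sub_self, norm_zero]
  exact hε.le

end U2

end Pool.Agent.Helper23

end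

section

open scoped InnerProductSpace Topology

open ContinuousLinearMap Filter

namespace Pool.Agent.Helper23

universe u

variable {H : Type u} [NormedAddCommGroup H] [InnerProductSpace ℂ H] [CompleteSpace H]

variable {L : Type u} [NormedAddCommGroup L] [InnerProductSpace ℂ L] [CompleteSpace L]

variable {K : Type u} [NormedAddCommGroup K] [InnerProductSpace ℂ K] [CompleteSpace K]

variable {M N A : VonNeumannAlgebra H} {ξ : H} {E : (H →L[ℂ] H) → (H →L[ℂ] H)}

section AppS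

lemma ocS_smul (c : ℂ) {x : ℕ → H →L[ℂ] H} (hx : x ∈ AppS M ξ) :
    (fun n => c • x n) ∈ AppS M ξ := by
  refine ⟨AppR_smul c hx.1, ?_⟩
  have h := AppR_smul (star c) hx.2
  have e : (fun n => star c • star (x n)) = fun n => star (c • x n) := by
    funext n; rw [star_smul]
  rwa [e] at h

lemma ocS_mul {x y : ℕ → H →L[ℂ] H} (hx : x ∈ AppS M ξ) (hy : y ∈ AppS M ξ) :
    (fun n => x n * y n) ∈ AppS M ξ := by
  refine ⟨AppR_mul hx.1 hy.1, ?_⟩
  have h := AppR_mul hy.2 hx.2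
  have e : (fun n => star (y n) * star (x n)) = fun n => star (x n * y n) := by
    funext n; rw [star_mul]
  rwa [e] at h

lemma ocS_one : (fun _ => (1 : H →L[ℂ] H)) ∈ AppS M ξ := by
  have h : (fun _ => (1 : H →L[ℂ] H)) ∈ AppR M ξ := by
    have h1 := AppR_scalar (M := M) (ξ := ξ) (c := fun _ => 1) ⟨1, fun _ => by simp⟩
    simpa using h1
  exact ⟨h, by simpa using h⟩

end AppS

namespace HUP

variable {mk : (ℕ → H) → L} (h : HUP mk)

include h

lemma Vs_dense {v : L} (hv : v ∈ Vs M ξ mk) {ε : ℝ} (hε : 0 < ε) :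
    ∃ x ∈ AppS M ξ, ‖v - mk fun n => x n ξ‖ < ε := by
  have h1 : v ∈ closure ((Submodule.span ℂ {v | ∃ x ∈ AppS M ξ, v = mk fun n => x n ξ} :
      Submodule ℂ L) : Set L) := by
    rw [← Submodule.topologicalClosure_coe]; exact hv
  obtain ⟨w, hw, hvw⟩ := Metric.mem_closure_iff.1 h1 ε hε
  rw [dist_eq_norm] at hvw
  have h2 : ∃ x ∈ AppS M ξ, w = mk fun n => x n ξ := by
    refine Submodule.span_induction (p := fun w _ => ∃ x ∈ AppS M ξ, w = mk fun n => x n ξ)
      ?_ ?_ ?_ ?_ hw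
    · intro w hw; exact hw
    · refine ⟨_, ocS_smul 0 ocS_one, ?_⟩
      have h3 := h.smul 0 (fun _ => ξ) (ocB_const ξ)
      have e : (0 : ℂ) • (mk fun _ => ξ) = 0 := zero_smul _ _
      rw [e] at h3
      exact h3.symm
    · rintro _ _ _ _ ⟨x, hx, rfl⟩ ⟨y, hy, rfl⟩
      refine ⟨_, ocS_add hx hy, ?_⟩
      rw [← h.add _ _ (ocB_app (ocS_bdd hx) ξ) (ocB_app (ocS_bdd hy) ξ)]
      rfl
    · rintro c _ _ ⟨x, hx, rfl⟩
      refine ⟨_, ocS_smul c hx, ?_⟩
      rw [← h.smul c _ (ocB_app (ocS_bdd hx) ξ)]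
      rfl
  obtain ⟨x, hx, rfl⟩ := h2
  exact ⟨x, hx, hvw⟩

lemma Vs_inv {x : ℕ → H →L[ℂ] H} (hx : x ∈ AppS M ξ) {v : L} (hv : v ∈ Vs M ξ mk) :
    opU mk x v ∈ Vs M ξ mk := by
  have hcl : IsClosed {v : L | opU mk x v ∈ Vs M ξ mk} :=
    (Submodule.isClosed_topologicalClosure _).preimage (opU mk x).continuous
  have : v ∈ closure {v : L | opU mk x v ∈ Vs M ξ mk} := by
    rw [Metric.mem_closure_iff]
    intro ε hε
    obtain ⟨y, hy, hvy⟩ := h.Vs_dense hv hε
    refine ⟨_, ?_, by rw [dist_eq_norm]; exact hvy⟩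
    change opU mk x (mk fun n => y n ξ) ∈ Vs M ξ mk
    rw [h.opU_mk (ocS_bdd hx) (ocB_app (ocS_bdd hy) ξ)]
    exact HUP.mem_Vs (ocS_mul hx hy)
  exact hcl.closure_subset this

lemma rp_coe {x : ℕ → H →L[ℂ] H} (hx : x ∈ AppS M ξ) (v : Vs M ξ mk) :
    ((rp M ξ mk x v : Vs M ξ mk) : L) = opU mk x v := by
  have h1 : opU mk x (v : L) ∈ Vs M ξ mk := h.Vs_inv hx v.2
  exact congrArg Subtype.val
    (Submodule.orthogonalProjectionOnto_mem_subspace_eq_self (K := Vs M ξ mk) ⟨_, h1⟩)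

lemma rp_add {x y : ℕ → H →L[ℂ] H} (hx : x ∈ AppS M ξ) (hy : y ∈ AppS M ξ) :
    rp M ξ mk (fun n => x n + y n) = rp M ξ mk x + rp M ξ mk y := by
  ext v
  rw [h.rp_coe (ocS_add hx hy), h.opU_add (ocS_bdd hx) (ocS_bdd hy)]
  rw [add_apply, add_apply, Submodule.coe_add, h.rp_coe hx, h.rp_coe hy]

lemma rp_smul (c : ℂ) {x : ℕ → H →L[ℂ] H} (hx : x ∈ AppS M ξ) :
    rp M ξ mk (fun n => c • x n) = c • rp M ξ mk x := by
  ext v
  rw [h.rp_coe (ocS_smul c hx), h.opU_smul c (ocS_bdd hx)]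
  rw [smul_apply, smul_apply, Submodule.coe_smul, h.rp_coe hx]

lemma rp_mul {x y : ℕ → H →L[ℂ] H} (hx : x ∈ AppS M ξ) (hy : y ∈ AppS M ξ) :
    rp M ξ mk (fun n => x n * y n) = rp M ξ mk x * rp M ξ mk y := by
  ext v
  rw [h.rp_coe (ocS_mul hx hy), h.opU_mul (ocS_bdd hx) (ocS_bdd hy)]
  change _ = ((rp M ξ mk x (rp M ξ mk y v) : Vs M ξ mk) : L)
  rw [h.rp_coe hx, h.rp_coe hy]
  rfl

lemma rp_star {x : ℕ → H →L[ℂ] H} (hx : x ∈ AppS M ξ) :
    rp M ξ mk (fun n => Star.star (x n)) = Star.star (rp M ξ mk x) := by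
  rw [ContinuousLinearMap.star_eq_adjoint, ContinuousLinearMap.eq_adjoint_iff]
  intro v w
  rw [Submodule.coe_inner, Submodule.coe_inner, h.rp_coe (ocS_star hx), h.rp_coe hx,
    h.opU_star (ocS_bdd hx), inner_star_left]

lemma rp_one : rp M ξ mk (fun _ => (1 : H →L[ℂ] H)) = 1 := by
  ext v
  rw [h.rp_coe ocS_one, h.opU_one]
  rfl

end HUP

/-- the vector of the ultrapower -/
def zt (M : VonNeumannAlgebra H) (ξ : H) {mk : (ℕ → H) → L} (h : HUP mk) : Vs M ξ mk :=
  ⟨mk fun _ => ξ, by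
    have := HUP.mem_Vs (mk := mk) (M := M) (ξ := ξ) ocS_one
    exact this⟩

namespace HUP

variable {mk : (ℕ → H) → L} (h : HUP mk)

include h

lemma rp_zt {x : ℕ → H →L[ℂ] H} (hx : x ∈ AppS M ξ) :
    ((rp M ξ mk x (zt M ξ h) : Vs M ξ mk) : L) = mk fun n => x n ξ := by
  rw [h.rp_coe hx]
  exact h.opU_mk (ocS_bdd hx) (ocB_const ξ)

lemma rp_inner {x y : ℕ → H →L[ℂ] H} (hx : x ∈ AppS M ξ) (hy : y ∈ AppS M ξ) :
    Tendsto (fun n => ⟪x n ξ, y n ξ⟫_ℂ) (UU : Filter ℕ)
      (𝓝 ⟪rp M ξ mk x (zt M ξ h), rp M ξ mk y (zt M ξ h)⟫_ℂ) := by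
  rw [Submodule.coe_inner, h.rp_zt hx, h.rp_zt hy]
  exact h.inner _ _ (ocB_app (ocS_bdd hx) ξ) (ocB_app (ocS_bdd hy) ξ)

lemma seqRep (hA : ∀ x ∈ A, x ∈ M) :
    SeqRep A {x | x ∈ AppS M ξ ∧ ∀ n, x n ∈ A} ξ (zt M ξ h) (rp M ξ mk) where
  memA x hx n := hx.2 n
  bdd x hx := ocS_bdd hx.1
  add x hx y hy := ⟨⟨ocS_add hx.1 hy.1, fun n => add_mem (hx.2 n) (hy.2 n)⟩,
    h.rp_add hx.1 hy.1⟩
  smul c x hx := ⟨⟨ocS_smul c hx.1, fun n => smul_mem' c (hx.2 n)⟩, h.rp_smul c hx.1⟩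
  mul x hx y hy := ⟨⟨ocS_mul hx.1 hy.1, fun n => mul_mem (hx.2 n) (hy.2 n)⟩,
    h.rp_mul hx.1 hy.1⟩
  star_mem x hx := ⟨⟨ocS_star hx.1, fun n => star_mem (hx.2 n)⟩, h.rp_star hx.1⟩
  one := ⟨⟨ocS_one, fun _ => one_mem A⟩, h.rp_one⟩
  norm x hx := by
    have := h.norm_tendsto (ocB_app (ocS_bdd hx.1) ξ)
    rw [← h.rp_zt hx.1] at this
    exact this
  opNorm x _ C hC := h.rp_norm hC
  closed x hxA hb hx := by
    refine ⟨⟨?_, ?_⟩, hxA⟩
    · refine AppR_limit (fun n => hA _ (hxA n)) hb fun ε hε => ?_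
      obtain ⟨y, hy, h1⟩ := hx ε hε
      exact ⟨y, hy.1.1, h1.mono fun n hn => hn.1⟩
    · refine AppR_limit (fun n => star_mem (hA _ (hxA n))) ?_ fun ε hε => ?_
      · obtain ⟨C, hC⟩ := hb
        exact ⟨C, fun n => by rw [norm_star]; exact hC n⟩
      · obtain ⟨y, hy, h1⟩ := hx ε hε
        exact ⟨_, hy.1.2, h1.mono fun n hn => hn.2⟩

/-- density of the orbit -/
lemma rp_cyclic (v : Vs M ξ mk) {ε : ℝ} (hε : 0 < ε) :
    ∃ x ∈ AppS M ξ, ‖v - rp M ξ mk x (zt M ξ h)‖ < ε := by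
  obtain ⟨x, hx, h1⟩ := h.Vs_dense v.2 hε
  refine ⟨x, hx, ?_⟩
  have e1 : ‖v - rp M ξ mk x (zt M ξ h)‖ = ‖(v : L) - mk fun n => x n ξ‖ := by
    rw [← h.rp_zt hx]; rfl
  rw [e1]; exact h1

/-- compressions of the sequences of the commutant -/
lemma rp_comm {x : ℕ → H →L[ℂ] H} (hx : x ∈ AppS M ξ) {r : ℕ → H →L[ℂ] H}
    (hr : ∀ n, r n ∈ M.commutant) (hb : Bdd r) :
    rp M ξ mk x * rp M ξ mk r = rp M ξ mk r * rp M ξ mk x := by
  refine ContinuousLinearMap.ext fun v => ?_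
  refine ext_inner_left ℂ fun w => ?_
  have hc : (opU mk x) * (opU mk r) = opU mk r * opU mk x := by
    rw [← h.opU_mul (ocS_bdd hx) hb, ← h.opU_mul hb (ocS_bdd hx)]
    congr 1
    funext n
    ext η
    exact commute_apply (ocS_mem hx n) (hr n) η
  have h1 : ∀ (y : ℕ → H →L[ℂ] H) (a b : Vs M ξ mk), ⟪a, rp M ξ mk y b⟫_ℂ =
      ⟪(a : L), opU mk y (b : L)⟫_ℂ := by
    intro y a b
    change ⟪a, (Vs M ξ mk).orthogonalProjectionOnto (opU mk y (b : L))⟫_ℂ = _
    rw [Submodule.inner_orthogonalProjectionOnto_eq_of_mem_left]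
  have h2 : ⟪w, (rp M ξ mk x * rp M ξ mk r) v⟫_ℂ =
      ⟪rp M ξ mk (fun n => Star.star (x n)) w, rp M ξ mk r v⟫_ℂ := by
    rw [h.rp_star hx, inner_star_left]
    rfl
  have h3 : ⟪w, (rp M ξ mk r * rp M ξ mk x) v⟫_ℂ = ⟪(w : L), opU mk r (opU mk x (v : L))⟫_ℂ := by
    change ⟪w, rp M ξ mk r (rp M ξ mk x v)⟫_ℂ = _
    rw [h1, h.rp_coe hx]
  rw [h2, h3, h1, h.rp_coe (ocS_star hx), h.opU_star (ocS_bdd hx), inner_star_left]
  exact congrArg (fun T : L →L[ℂ] L => ⟪(w : L), T (v : L)⟫_ℂ) hc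

/-- separation -/
lemma rp_sep {T : Vs M ξ mk →L[ℂ] Vs M ξ mk}
    (hT : T ∈ genVN (rp M ξ mk '' {x | x ∈ AppS M ξ ∧ ∀ n, x n ∈ M}))
    (h0 : T (zt M ξ h) = 0) : T = 0 := by
  have hUU := UU_neBot
  -- `T` vanishes on the compressions of the commutant
  have h1 : ∀ r : ℕ → H →L[ℂ] H, (∀ n, r n ∈ M.commutant) → Bdd r →
      T (rp M ξ mk r (zt M ξ h)) = 0 := by
    intro r hr hb
    have h2 : rp M ξ mk r * T = T * rp M ξ mk r := by
      refine oc_mem_genVN.1 hT _ ?_
      rintro _ ⟨x, ⟨hx, hxM⟩, rfl⟩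
      refine ⟨h.rp_comm hx hr hb, ?_⟩
      rw [← h.rp_star hx]
      exact h.rp_comm (ocS_star hx) hr hb
    have h3 := congrArg (fun X : Vs M ξ mk →L[ℂ] Vs M ξ mk => X (zt M ξ h)) h2
    change rp M ξ mk r (T (zt M ξ h)) = T (rp M ξ mk r (zt M ξ h)) at h3
    rw [← h3, h0, map_zero]
  refine ContinuousLinearMap.ext fun v => ?_
  rw [zero_apply]
  have hcl : IsClosed {v : Vs M ξ mk | T v = 0} := isClosed_eq T.continuous continuous_const
  have hv : v ∈ closure {v : Vs M ξ mk | T v = 0} := by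
    rw [Metric.mem_closure_iff]
    intro ε hε
    obtain ⟨x, hx, h2⟩ := h.rp_cyclic v (half_pos hε)
    obtain ⟨r, hr, hrb, h3⟩ := hx.1.2.2 (ε / 4) (by (clear * - hε; positivity))
    refine ⟨rp M ξ mk r (zt M ξ h), h1 r hr hrb, ?_⟩
    rw [dist_eq_norm]
    have h4 : ‖rp M ξ mk x (zt M ξ h) - rp M ξ mk r (zt M ξ h)‖ ≤ ε / 4 := by
      have e1 : rp M ξ mk x (zt M ξ h) - rp M ξ mk r (zt M ξ h) =
          (Vs M ξ mk).orthogonalProjectionOnto (mk fun n => x n ξ - r n ξ) := by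
        rw [h.mk_sub (ocB_app (ocS_bdd hx) ξ) (ocB_app hrb ξ), map_sub]
        congr 1
        · change (Vs M ξ mk).orthogonalProjectionOnto (opU mk x (mk fun _ => ξ)) = _
          rw [h.opU_mk (ocS_bdd hx) (ocB_const ξ)]
        · change (Vs M ξ mk).orthogonalProjectionOnto (opU mk r (mk fun _ => ξ)) = _
          rw [h.opU_mk hrb (ocB_const ξ)]
      rw [e1]
      refine (Submodule.norm_orthogonalProjectionOnto_apply_le _ _).trans ?_
      exact le_of_tendsto (h.norm_tendsto ((ocB_app (ocS_bdd hx) ξ).sub (ocB_app hrb ξ))) h3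
    calc ‖v - rp M ξ mk r (zt M ξ h)‖ ≤ ‖v - rp M ξ mk x (zt M ξ h)‖ +
          ‖rp M ξ mk x (zt M ξ h) - rp M ξ mk r (zt M ξ h)‖ := by
          have := norm_add_le (v - rp M ξ mk x (zt M ξ h))
            (rp M ξ mk x (zt M ξ h) - rp M ξ mk r (zt M ξ h))
          rwa [sub_add_sub_cancel] at this
      _ < ε := by linarith
  exact hcl.closure_subset hv

end HUP

end Pool.Agent.Helper23

end

section

open scoped InnerProductSpace Topology

open ContinuousLinearMap Filter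

namespace Pool.Agent.Helper23

universe u

variable {H : Type u} [NormedAddCommGroup H] [InnerProductSpace ℂ H] [CompleteSpace H]

variable {L : Type u} [NormedAddCommGroup L] [InnerProductSpace ℂ L] [CompleteSpace L]

variable {M N A : VonNeumannAlgebra H} {ξ : H} {E : (H →L[ℂ] H) → (H →L[ℂ] H)}

section

variable {mk : (ℕ → H) → L} (h : HUP mk)

include h

lemma HUP.rp_eq (hd : Dense (orb M.commutant ξ : Set H)) {x y : ℕ → H →L[ℂ] H}
    (hx : x ∈ AppS M ξ) (hy : y ∈ AppS M ξ)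
    (hxy : rp M ξ mk x (zt M ξ h) = rp M ξ mk y (zt M ξ h)) : rp M ξ mk x = rp M ξ mk y := by
  have h1 : (fun n => x n + (-1 : ℂ) • y n) ∈ AppS M ξ := ocS_add hx (ocS_smul _ hy)
  have h2 : rp M ξ mk (fun n => x n + (-1 : ℂ) • y n) = rp M ξ mk x - rp M ξ mk y := by
    rw [h.rp_add hx (ocS_smul _ hy), h.rp_smul _ hy]
    refine ContinuousLinearMap.ext fun v => ?_
    rw [add_apply, smul_apply, sub_apply, neg_one_smul, sub_eq_add_neg]
  have h3 := h.rp_sep (T := rp M ξ mk x - rp M ξ mk y) (by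
    rw [← h2]
    exact oc_sub_genVN ⟨_, ⟨h1, fun n => ocS_mem h1 n⟩, rfl⟩) (by
    rw [sub_apply, hxy, sub_self])
  exact sub_eq_zero.1 h3

end

end Pool.Agent.Helper23

end

section

open scoped InnerProductSpace Topology BoundedContinuousFunction

open ContinuousLinearMap Filter

namespace Pool.Agent.Helper23

universe u

variable {H : Type u} [NormedAddCommGroup H] [InnerProductSpace ℂ H] [CompleteSpace H]

variable {K : Type u} [NormedAddCommGroup K] [InnerProductSpace ℂ K] [CompleteSpace K]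

variable {M N : VonNeumannAlgebra H} {ξ : H} {E : (H →L[ℂ] H) → (H →L[ℂ] H)}

theorem AppS_one : (fun _ => (1 : H →L[ℂ] H)) ∈ AppS M ξ := by
  have h : (fun _ : ℕ => (1 : H →L[ℂ] H)) ∈ AppR M ξ := by
    have := AppR_scalar (M := M) (ξ := ξ) (c := fun _ => (1 : ℂ)) ⟨1, fun n => by simp⟩
    simpa using this
  refine ⟨h, ?_⟩
  simpa using h

theorem AppS_mul {x y : ℕ → H →L[ℂ] H} (hx : x ∈ AppS M ξ) (hy : y ∈ AppS M ξ) :
    (fun n => x n * y n) ∈ AppS M ξ := by
  refine ⟨AppR_mul hx.1 hy.1, ?_⟩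
  have := AppR_mul hy.2 hx.2
  simpa only [star_mul] using this

theorem AppS_scalar {c : ℕ → ℂ} (hc : Bdd c) :
    (fun n => c n • (1 : H →L[ℂ] H)) ∈ AppS M ξ := by
  refine ⟨AppR_scalar hc, ?_⟩
  have hc' : Bdd (fun n => star (c n)) := by
    obtain ⟨C, hC⟩ := hc
    exact ⟨C, fun n => by rw [norm_star]; exact hC n⟩
  have := AppR_scalar (M := M) (ξ := ξ) hc'
  simpa only [star_smul, star_one] using this

namespace Oc

variable {MT NT : VonNeumannAlgebra K} {ET : (K →L[ℂ] K) → (K →L[ℂ] K)} {ζ : K}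
  {rep : (ℕ → H →L[ℂ] H) → (K →L[ℂ] K)} (O : Oc M N E ξ MT NT ET ζ rep)

include O

theorem inner_one {x : ℕ → H →L[ℂ] H} (hx : x ∈ AppS M ξ) :
    Tendsto (fun n => ⟪ξ, x n ξ⟫_ℂ) (UU : Filter ℕ) (𝓝 ⟪ζ, rep x ζ⟫_ℂ) := by
  have h := O.inner _ AppS_one x hx
  rw [O.one] at h
  exact h

/-- scalar sequences -/
theorem rep_scalar (S : Setting M N E ξ) {c : ℕ → ℂ} (hc : Bdd c) :
    ∃ c' : ℂ, rep (fun n => c n • (1 : H →L[ℂ] H)) = c' • 1 := by
  obtain ⟨C, hC⟩ := hc
  have hcomp : IsCompact (Metric.closedBall (0 : ℂ) C) := isCompact_closedBall 0 C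
  obtain ⟨c', -, hc'⟩ := hcomp.ultrafilter_le_nhds (UU.map c) (by
    rw [Filter.le_principal_iff]
    exact Filter.mem_map.2 (Filter.univ_mem' fun n => by
      rw [Set.mem_preimage, Metric.mem_closedBall, dist_zero_right]; exact hC n))
  have hlim : Tendsto c (UU : Filter ℕ) (𝓝 c') := hc'
  refine ⟨c', ?_⟩
  have hz : Bdd (fun n => c n - c') := ⟨C + ‖c'‖, fun n => (norm_sub_le _ _).trans (by
    have := hC n; linarith)⟩
  have hzS : (fun n => (c n - c') • (1 : H →L[ℂ] H)) ∈ AppS M ξ := AppS_scalar hz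
  have h1 := O.inner _ hzS _ hzS
  have h2 : Tendsto (fun n => ⟪((c n - c') • (1 : H →L[ℂ] H)) ξ,
      ((c n - c') • (1 : H →L[ℂ] H)) ξ⟫_ℂ) (UU : Filter ℕ) (𝓝 0) := by
    have h3 : Tendsto (fun n => ((c n - c') • (1 : H →L[ℂ] H)) ξ) (UU : Filter ℕ) (𝓝 0) := by
      have h4 : Tendsto (fun n => c n - c') (UU : Filter ℕ) (𝓝 0) := by
        have := hlim.sub_const c'
        rwa [sub_self] at this
      have h5 := h4.smul_const ξ
      rw [zero_smul] at h5
      exact h5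
    have h6 := Filter.Tendsto.inner (𝕜 := ℂ) h3 h3
    rwa [inner_zero_left] at h6
  have h3 := tendsto_nhds_unique h1 h2
  have h4 : rep (fun n => (c n - c') • (1 : H →L[ℂ] H)) ζ = 0 := inner_self_eq_zero.1 h3
  have h5 := O.set.sep _ (O.memM _ hzS) h4
  have h6 : (fun n => c n • (1 : H →L[ℂ] H)) =
      fun n => (c n - c') • (1 : H →L[ℂ] H) + (fun _ : ℕ => c' • (1 : H →L[ℂ] H)) n := by
    funext n
    rw [← add_smul, sub_add_cancel]
  have h7 : (fun _ : ℕ => c' • (1 : H →L[ℂ] H)) ∈ AppS M ξ :=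
    AppS_scalar (c := fun _ => c') ⟨‖c'‖, fun _ => le_rfl⟩
  rw [h6, O.add _ hzS _ h7, h5, zero_add, O.smul c' _ AppS_one, O.one]

end Oc

end Pool.Agent.Helper23

end

section

open scoped InnerProductSpace Topology

open ContinuousLinearMap Filter

namespace Pool.Agent.Helper23

universe u

variable {H : Type u} [NormedAddCommGroup H] [InnerProductSpace ℂ H] [CompleteSpace H]

variable {K : Type u} [NormedAddCommGroup K] [InnerProductSpace ℂ K] [CompleteSpace K]

variable {M N : VonNeumannAlgebra H} {ξ : H} {E : (H →L[ℂ] H) → (H →L[ℂ] H)}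

namespace U10

lemma appS_smul (c : ℂ) {x : ℕ → H →L[ℂ] H} (hx : x ∈ AppS M ξ) :
    (fun n => c • x n) ∈ AppS M ξ := by
  refine ⟨AppR_smul c hx.1, ?_⟩
  have := AppR_smul (star c) hx.2
  simpa only [star_smul] using this

lemma appS_mul {x y : ℕ → H →L[ℂ] H} (hx : x ∈ AppS M ξ) (hy : y ∈ AppS M ξ) :
    (fun n => x n * y n) ∈ AppS M ξ := by
  refine ⟨AppR_mul hx.1 hy.1, ?_⟩
  have := AppR_mul hy.2 hx.2
  simpa only [star_mul] using this

end U10

open U10

namespace Oc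

variable {MT NT : VonNeumannAlgebra K} {ET : (K →L[ℂ] K) → (K →L[ℂ] K)} {ζ : K}
  {rep : (ℕ → H →L[ℂ] H) → (K →L[ℂ] K)} (O : Oc M N E ξ MT NT ET ζ rep)

include O

lemma U10_norm {x : ℕ → H →L[ℂ] H} (hx : x ∈ AppS M ξ) :
    Tendsto (fun n => ‖x n ξ‖) (UU : Filter ℕ) (𝓝 ‖rep x ζ‖) := by
  have h := O.inner x hx x hx
  have h2 : Tendsto (fun n => ‖x n ξ‖ ^ 2) (UU : Filter ℕ) (𝓝 (‖rep x ζ‖ ^ 2)) := by
    have h3 := (Complex.continuous_re.tendsto _).comp h
    have e1 : ∀ {G : Type u} [NormedAddCommGroup G] [InnerProductSpace ℂ G] (v : G),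
        (⟪v, v⟫_ℂ).re = ‖v‖ ^ 2 := by
      intro G _ _ v
      rw [inner_self_eq_norm_sq_to_K]
      norm_cast
    rw [e1] at h3
    refine h3.congr fun n => ?_
    exact e1 _
  have h4 := (Real.continuous_sqrt.tendsto _).comp h2
  rw [Real.sqrt_sq (norm_nonneg _)] at h4
  refine h4.congr fun n => ?_
  exact Real.sqrt_sq (norm_nonneg _)

lemma U10_comm {x y a : ℕ → H →L[ℂ] H} (hx : x ∈ AppS M ξ) (hy : y ∈ AppS M ξ)
    (ha : a ∈ AppS M ξ) :
    (fun n => a n * x n - y n * a n) ∈ AppS M ξ ∧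
      rep (fun n => a n * x n - y n * a n) = rep a * rep x - rep y * rep a := by
  have e1 : (fun n => a n * x n - y n * a n) = fun n => a n * x n + (-1 : ℂ) • (y n * a n) := by
    funext n
    rw [neg_one_smul, sub_eq_add_neg]
  have m1 := appS_mul ha hx
  have m2 := appS_mul hy ha
  have m3 := appS_smul (-1) m2
  rw [e1]
  refine ⟨appS_add m1 m3, ?_⟩
  rw [O.add _ m1 _ m3, O.smul _ _ m2, O.mul _ ha _ hx, O.mul _ hy _ ha, neg_one_smul,
    sub_eq_add_neg]

end Oc

end Pool.Agent.Helper23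

end

section

open scoped InnerProductSpace Topology BoundedContinuousFunction

open ContinuousLinearMap Filter

namespace Pool.Agent.Helper23

universe u

variable {H : Type u} [NormedAddCommGroup H] [InnerProductSpace ℂ H] [CompleteSpace H]

variable {K : Type u} [NormedAddCommGroup K] [InnerProductSpace ℂ K] [CompleteSpace K]

variable {M N : VonNeumannAlgebra H} {ξ : H} {E : (H →L[ℂ] H) → (H →L[ℂ] H)}

lemma U11.AppS_mul {x y : ℕ → H →L[ℂ] H} (hx : x ∈ AppS M ξ) (hy : y ∈ AppS M ξ) :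
    (fun n => x n * y n) ∈ AppS M ξ := by
  refine ⟨AppR_mul hx.1 hy.1, ?_⟩
  have h := AppR_mul hy.2 hx.2
  have e : (fun n => star (x n * y n)) = fun n => star (y n) * star (x n) := by
    funext n; rw [star_mul]
  rw [e]
  exact h

lemma U11.AppS_smul (c : ℂ) {x : ℕ → H →L[ℂ] H} (hx : x ∈ AppS M ξ) :
    (fun n => c • x n) ∈ AppS M ξ := by
  refine ⟨AppR_smul c hx.1, ?_⟩
  have h := AppR_smul (star c) hx.2
  have e : (fun n => star (c • x n)) = fun n => star c • star (x n) := by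
    funext n; rw [star_smul]
  rw [e]
  exact h

lemma U11.AppS_sub {x y : ℕ → H →L[ℂ] H} (hx : x ∈ AppS M ξ) (hy : y ∈ AppS M ξ) :
    (fun n => x n - y n) ∈ AppS M ξ := by
  have h := U11.AppS_add hx (U11.AppS_smul (-1 : ℂ) hy)
  have e : (fun n => x n - y n) = fun n => x n + (-1 : ℂ) • y n := by
    funext n; rw [neg_one_smul, sub_eq_add_neg]
  rw [e]
  exact h

namespace Oc

variable {MT NT : VonNeumannAlgebra K} {ET : (K →L[ℂ] K) → (K →L[ℂ] K)} {ζ : K}
  {rep : (ℕ → H →L[ℂ] H) → (K →L[ℂ] K)} (O : Oc M N E ξ MT NT ET ζ rep)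

include O

lemma u11_rep_sub {x y : ℕ → H →L[ℂ] H} (hx : x ∈ AppS M ξ) (hy : y ∈ AppS M ξ) :
    rep (fun n => x n - y n) = rep x - rep y := by
  have h := O.add x hx _ (U11.AppS_smul (-1 : ℂ) hy)
  rw [O.smul _ y hy, neg_one_smul, ← sub_eq_add_neg] at h
  rw [← h]
  congr 1
  funext n
  rw [neg_one_smul, sub_eq_add_neg]

/-- a sequence of `AppS` with `x n ξ → 0` along the ultrafilter represents `0` -/
lemma u11_rep_eq_zero {x : ℕ → H →L[ℂ] H} (hx : x ∈ AppS M ξ)
    (h : ∀ ε : ℝ, 0 < ε → ∀ᶠ n in (UU : Filter ℕ), ‖x n ξ‖ ≤ ε) : rep x = 0 := by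
  refine O.set.sep _ (O.memM x hx) ?_
  have h1 := O.inner x hx x hx
  have h2 : Tendsto (fun n => ⟪x n ξ, x n ξ⟫_ℂ) (UU : Filter ℕ) (𝓝 0) := by
    rw [tendsto_zero_iff_norm_tendsto_zero, Metric.tendsto_nhds]
    intro ε hε
    have h3 := h (Real.sqrt (ε / 2)) (Real.sqrt_pos.2 (half_pos hε))
    filter_upwards [h3] with n hn
    rw [dist_zero_right, norm_norm]
    calc ‖⟪x n ξ, x n ξ⟫_ℂ‖ ≤ ‖x n ξ‖ * ‖x n ξ‖ := norm_inner_le_norm _ _
      _ ≤ Real.sqrt (ε / 2) * Real.sqrt (ε / 2) := by gcongr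
      _ = ε / 2 := Real.mul_self_sqrt (by positivity)
      _ < ε := by (clear * - hε; linarith)
  have h3 := tendsto_nhds_unique h1 h2
  exact inner_self_eq_zero.1 h3

end Oc

end Pool.Agent.Helper23

end

section

open scoped InnerProductSpace Topology

open ContinuousLinearMap Filter

namespace Pool.Agent.Helper23

universe u

variable {H : Type u} [NormedAddCommGroup H] [InnerProductSpace ℂ H] [CompleteSpace H]

variable {K : Type u} [NormedAddCommGroup K] [InnerProductSpace ℂ K] [CompleteSpace K]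

variable {M N : VonNeumannAlgebra H} {ξ : H} {E : (H →L[ℂ] H) → (H →L[ℂ] H)}

lemma u12_AppS_smul (c : ℂ) {x : ℕ → H →L[ℂ] H} (hx : x ∈ AppS M ξ) :
    (fun n => c • x n) ∈ AppS M ξ := by
  refine ⟨AppR_smul c hx.1, ?_⟩
  have := AppR_smul (star c) hx.2
  simpa only [star_smul] using this

lemma u12_AppS_mul {x y : ℕ → H →L[ℂ] H} (hx : x ∈ AppS M ξ) (hy : y ∈ AppS M ξ) :
    (fun n => x n * y n) ∈ AppS M ξ := by
  refine ⟨AppR_mul hx.1 hy.1, ?_⟩
  have := AppR_mul hy.2 hx.2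
  simpa only [star_mul] using this

namespace Oc

variable {MT NT : VonNeumannAlgebra K} {ET : (K →L[ℂ] K) → (K →L[ℂ] K)} {ζ : K}
  {rep : (ℕ → H →L[ℂ] H) → (K →L[ℂ] K)} (O : Oc M N E ξ MT NT ET ζ rep)

include O

lemma u12_sub {x y : ℕ → H →L[ℂ] H} (hx : x ∈ AppS M ξ) (hy : y ∈ AppS M ξ) :
    rep (fun n => x n - y n) = rep x - rep y := by
  have h1 : (fun n => x n - y n) = fun n => x n + (-1 : ℂ) • y n := by
    funext n
    rw [neg_one_smul, sub_eq_add_neg]
  rw [h1, O.add x hx _ (u12_AppS_smul (-1) hy), O.smul (-1) y hy, neg_one_smul, sub_eq_add_neg]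

/-- norms at the vector `ξ` -/
lemma u12_norm_sq {x : ℕ → H →L[ℂ] H} (hx : x ∈ AppS M ξ) :
    Tendsto (fun n => ‖x n ξ‖ ^ 2) (UU : Filter ℕ) (𝓝 (‖rep x ζ‖ ^ 2)) := by
  have h := O.inner x hx x hx
  have h2 := (Complex.continuous_re.tendsto _).comp h
  have e : ∀ {G : Type u} [NormedAddCommGroup G] [InnerProductSpace ℂ G] (v : G),
      (⟪v, v⟫_ℂ).re = ‖v‖ ^ 2 := by
    intro G _ _ v
    rw [inner_self_eq_norm_sq_to_K]
    norm_cast
  rw [e] at h2
  refine h2.congr fun n => ?_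
  change (⟪x n ξ, x n ξ⟫_ℂ).re = _
  rw [e]

lemma u12_rep_zero_const : rep (fun _ => (0 : H →L[ℂ] H)) = 0 := by
  have h0 : (fun _ => (0 : H →L[ℂ] H)) ∈ AppS M ξ := by
    have hR : (fun _ : ℕ => (0 : H →L[ℂ] H)) ∈ AppR M ξ :=
      ⟨fun _ => zero_mem M, ⟨0, fun _ => by simp⟩, fun ε hε =>
        ⟨fun _ => 0, fun _ => zero_mem _, ⟨0, fun _ => by simp⟩, by
          filter_upwards with n
          simpa using hε.le⟩⟩
    refine ⟨hR, ?_⟩
    simpa only [star_zero] using hR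
  have h := O.smul 0 _ h0
  simpa using h

end Oc

end Pool.Agent.Helper23

end

end
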