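import Pool.Agent.Helper23.FB.L01_a0
import Pool.Agent.Helper23.FB.L01_a12
import Pool.Agent.Helper23.FB.L01_a13

/-!
Parts of Helper23.FA.L01_01, Helper23.FA.L01_06, Helper23.FA.L01_12, Helper23.FA.L02_05
-/

attribute [local instance 5000]
  Pool.Agent.Helper23.FB.Inst.rCharZero Pool.Agent.Helper23.FB.Inst.rALM
  Pool.Agent.Helper23.FB.Inst.rARM Pool.Agent.Helper23.FB.Inst.rALSM
  Pool.Agent.Helper23.FB.Inst.rARSM Pool.Agent.Helper23.FB.Inst.rARRLE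
  Pool.Agent.Helper23.FB.Inst.rALRLE Pool.Agent.Helper23.FB.Inst.rARRLT
  Pool.Agent.Helper23.FB.Inst.rALRLT Pool.Agent.Helper23.FB.Inst.rPMRLT
  Pool.Agent.Helper23.FB.Inst.rMPRLT Pool.Agent.Helper23.FB.Inst.rPMM
  Pool.Agent.Helper23.FB.Inst.rMPM Pool.Agent.Helper23.FB.Inst.rPMSM
  Pool.Agent.Helper23.FB.Inst.rMPSM Pool.Agent.Helper23.FB.Inst.rEAOL
  Pool.Agent.Helper23.FB.Inst.rIOR Pool.Agent.Helper23.FB.Inst.rISOR
  Pool.Agent.Helper23.FB.Inst.rFS Pool.Agent.Helper23.FB.Inst.rcCharZero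
  Pool.Agent.Helper23.FB.Inst.rNZD Pool.Agent.Helper23.FB.Inst.rcNZD
  Pool.Agent.Helper23.FB.Inst.bSemiring Pool.Agent.Helper23.FB.Inst.bStar
  Pool.Agent.Helper23.FB.Inst.bAlg Pool.Agent.Helper23.FB.Inst.bSub
  Pool.Agent.Helper23.FB.Inst.bMul Pool.Agent.Helper23.FB.Inst.bAdd
  Pool.Agent.Helper23.FB.Inst.iRing Pool.Agent.Helper23.FB.Inst.iSemiring
  Pool.Agent.Helper23.FB.Inst.iAlgC Pool.Agent.Helper23.FB.Inst.iSMulC
  Pool.Agent.Helper23.FB.Inst.iModC Pool.Agent.Helper23.FB.Inst.iAlgR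
  Pool.Agent.Helper23.FB.Inst.iSMulR Pool.Agent.Helper23.FB.Inst.iModR
  Pool.Agent.Helper23.FB.Inst.iMonoid Pool.Agent.Helper23.FB.Inst.iSemigroup
  Pool.Agent.Helper23.FB.Inst.iMulOneClass Pool.Agent.Helper23.FB.Inst.iMul
  Pool.Agent.Helper23.FB.Inst.iAdd Pool.Agent.Helper23.FB.Inst.iSub
  Pool.Agent.Helper23.FB.Inst.iNeg Pool.Agent.Helper23.FB.Inst.iAddCommMonoid
  Pool.Agent.Helper23.FB.Inst.iAddCommGroup Pool.Agent.Helper23.FB.Inst.iAddGroup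
  Pool.Agent.Helper23.FB.Inst.iAddMonoid Pool.Agent.Helper23.FB.Inst.iSMulZeroC
  Pool.Agent.Helper23.FB.Inst.iMulActC Pool.Agent.Helper23.FB.Inst.iDSMulC
  Pool.Agent.Helper23.FB.Inst.iDSMulR Pool.Agent.Helper23.FB.Inst.iSNAG
  Pool.Agent.Helper23.FB.Inst.iSNACG Pool.Agent.Helper23.FB.Inst.iNorm
  Pool.Agent.Helper23.FB.Inst.iNSC' Pool.Agent.Helper23.FB.Inst.iNSR'
  Pool.Agent.Helper23.FB.Inst.iTop Pool.Agent.Helper23.FB.Inst.iT2 Pool.Agent.Helper23.FB.Inst.iTR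
  Pool.Agent.Helper23.FB.Inst.iSCC Pool.Agent.Helper23.FB.Inst.iIST
  Pool.Agent.Helper23.FB.Inst.iSCCR Pool.Agent.Helper23.FB.Inst.iISTR
  Pool.Agent.Helper23.FB.Inst.iZHC Pool.Agent.Helper23.FB.Inst.iAHC
  Pool.Agent.Helper23.FB.Inst.iAMHC Pool.Agent.Helper23.FB.Inst.iMAHC
  Pool.Agent.Helper23.FB.Inst.lTop Pool.Agent.Helper23.FB.Inst.lUnif
  Pool.Agent.Helper23.FB.Inst.lACM Pool.Agent.Helper23.FB.Inst.lACG
  Pool.Agent.Helper23.FB.Inst.lSNAG Pool.Agent.Helper23.FB.Inst.lSNACG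
  Pool.Agent.Helper23.FB.Inst.lNACG Pool.Agent.Helper23.FB.Inst.lNorm
  Pool.Agent.Helper23.FB.Inst.lIPS Pool.Agent.Helper23.FB.Inst.lMod
  Pool.Agent.Helper23.FB.Inst.lSMul Pool.Agent.Helper23.FB.Inst.lT2
  Pool.Agent.Helper23.FB.Inst.iStar Pool.Agent.Helper23.FB.Inst.iStarMul
  Pool.Agent.Helper23.FB.Inst.iStarAddMonoid Pool.Agent.Helper23.FB.Inst.iStarRing
  Pool.Agent.Helper23.FB.Inst.iNSC Pool.Agent.Helper23.FB.Inst.iSOR
  Pool.Agent.Helper23.FB.Inst.iALM Pool.Agent.Helper23.FB.Inst.iARM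
  Pool.Agent.Helper23.FB.Inst.iCFC Pool.Agent.Helper23.FB.Inst.iNCFC
  Pool.Agent.Helper23.FB.Inst.iStarModR Pool.Agent.Helper23.FB.Inst.iStarModC
  Pool.Agent.Helper23.FB.Inst.eStar Pool.Agent.Helper23.FB.Inst.eAdd
  Pool.Agent.Helper23.FB.Inst.eMul Pool.Agent.Helper23.FB.Inst.eOne
  Pool.Agent.Helper23.FB.Inst.eZero Pool.Agent.Helper23.FB.Inst.eMulAction
  Pool.Agent.Helper23.FB.Inst.eAMHC2 Pool.Agent.Helper23.FB.Inst.eZHC2
  Pool.Agent.Helper23.FB.Inst.lAMHC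

section

section

open scoped InnerProductSpace

open ContinuousLinearMap

namespace Pool.Agent.Helper23

variable {H : Type*} [NormedAddCommGroup H] [InnerProductSpace ℂ H] [CompleteSpace H]

variable {M N : VonNeumannAlgebra H} {ξ : H} {E : (H →L[ℂ] H) → (H →L[ℂ] H)}

namespace Setting

variable (S : Setting M N E ξ)

include S

lemma dense_commN : Dense (orb N.commutant ξ : Set H) := by
  refine S.dense_comm.mono ?_
  rintro _ ⟨a, ha, rfl⟩
  exact ⟨a, S.comm_le ha, rfl⟩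

end Setting

end Pool.Agent.Helper23

end

end

section

section

open scoped InnerProductSpace

open ContinuousLinearMap Filter

namespace Pool.Agent.Helper23

variable {H : Type*} [NormedAddCommGroup H] [InnerProductSpace ℂ H] [CompleteSpace H]

variable {M N : VonNeumannAlgebra H} {ξ : H} {E : (H →L[ℂ] H) → (H →L[ℂ] H)}

namespace AP

variable (S : AP M N E ξ)

include S

/-- one improvement step -/
lemma improve {γ : ℝ} (hγ : 0 < γ) {w₀ : H →L[ℂ] H} (hw₀ : w₀ ∈ eig N ξ γ) (hw1 : ‖w₀‖ ≤ 1)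
    (hw0 : w₀ ≠ 0) {e : H →L[ℂ] H} (he : e ∈ eig N ξ 1) (hes : star e = e) (hee : e * e = e)
    (heφ : γ⁻¹ < ‖e ξ‖ ^ 2) {v : H →L[ℂ] H} (hv : v ∈ eig N ξ γ) (hv1 : ‖v‖ ≤ 1)
    (hev : e * v = v) :
    ∃ v' ∈ eig N ξ γ, ‖v'‖ ≤ 1 ∧ e * v' = v' ∧ ‖v' ξ - v ξ‖ ^ 2 ≤ 1 - ‖v ξ‖ ^ 2 ∧
      1 - ‖v' ξ‖ ^ 2 ≤
        (1 - (1 / 25) * ((‖e ξ‖ ^ 2 - γ⁻¹) * ‖w₀ ξ‖ ^ 2)) * (1 - ‖v ξ‖ ^ 2) := by
  obtain ⟨a, ha, k, hk, has, hks, haa, hk1, hk2⟩ := exists_sqrt hγ.ne' hv hv1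
  have hve : star v * e = star v := by
    have := congrArg star hev
    rwa [star_mul, hes] at this
  set b := e - v * k * star v with hb
  have hbg : b ∈ eig N ξ 1 :=
    sub_mem he (mul_star_mem_eig_one hγ.ne' (eig_mul_right hv hk) hv)
  have hbs : star b = b := by
    rw [hb, star_sub, hes, star_mul, star_mul, star_star, hks, mul_assoc]
  have haa' : star v * v = 1 - a * a := by rw [haa]; abel
  have hak : (1 - a * a) * k = 1 - a := by
    have : (1 - a * a) = (1 - a) * (1 + a) := by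
      rw [sub_mul, mul_add, mul_add, one_mul, one_mul, mul_one]; abel
    rw [this, mul_assoc, hk1, mul_one]
  have hbb : b * b = e - v * star v := by
    have h1 : b * b = e * e - e * (v * k * star v) - v * k * star v * e +
        v * k * (star v * v) * k * star v := by
      rw [hb]
      simp only [sub_mul, mul_sub, mul_assoc]
      abel
    have h2 : e * (v * k * star v) = v * k * star v := by
      rw [← mul_assoc, ← mul_assoc, hev]
    have h3 : v * k * star v * e = v * k * star v := by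
      rw [mul_assoc, hve]
    have h4 : v * k * (star v * v) * k * star v = v * (k * (1 - a)) * star v := by
      rw [haa']
      calc v * k * (1 - a * a) * k * star v = v * (k * ((1 - a * a) * k)) * star v := by
            simp only [mul_assoc]
        _ = _ := by rw [hak]
    rw [h1, h2, h3, h4, hee]
    have h5 : v * (k * (1 - a)) * star v = v * k * star v + v * k * star v -
        v * (k * (1 + a)) * star v := by
      simp only [mul_sub, mul_add, sub_mul, add_mul, mul_one]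
      abel
    rw [h5, hk2, mul_one]
    abel
  have hbv : b * v = v * a := by
    rw [hb, sub_mul, hev, mul_assoc, haa']
    have h1 : v * k * (1 - a * a) = v * (1 - a) := by
      have h2 : k * (1 - a * a) = 1 - a := by
        have := congrArg star hak
        rw [star_mul, star_sub, star_sub, star_mul, star_one, has, hks] at this
        exact this
      rw [mul_assoc, h2]
    rw [h1, mul_sub, mul_one]
    abel
  -- norms
  have hcon : ∀ ζ, ‖v ζ‖ ≤ ‖ζ‖ := fun ζ => by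
    have := v.le_of_opNorm_le hv1 ζ
    rwa [one_mul] at this
  have hna : ∀ ζ, ‖a ζ‖ ^ 2 = ‖ζ‖ ^ 2 - ‖v ζ‖ ^ 2 := by
    intro ζ
    apply Complex.ofReal_injective
    rw [norm_sq_apply, has]
    change ⟪ζ, (a * a) ζ⟫_ℂ = _
    rw [haa, sub_apply, inner_sub_right, Complex.ofReal_sub, norm_sq_apply v]
    rw [one_apply_eq_self, inner_self_eq_norm_sq_to_K]
    push_cast
    rfl
  have hnb : ∀ ζ, ‖b ζ‖ ^ 2 = ‖e ζ‖ ^ 2 - ‖(star v) ζ‖ ^ 2 := by
    intro ζ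
    apply Complex.ofReal_injective
    rw [norm_sq_apply, hbs]
    change ⟪ζ, (b * b) ζ⟫_ℂ = _
    rw [hbb, sub_apply, inner_sub_right, Complex.ofReal_sub, norm_sq_apply e,
      norm_sq_apply (star v), hes, star_star]
    change _ = ⟪ζ, (e * e) ζ⟫_ℂ - _
    rw [hee]
    rfl
  have hne : ∀ ζ, ‖e ζ‖ ≤ ‖ζ‖ := by
    intro ζ
    have h1 : ‖e ζ‖ ^ 2 ≤ ‖ζ‖ * ‖e ζ‖ := by
      have h2 := norm_sq_apply e ζ
      rw [hes] at h2
      have h3 : ⟪ζ, e (e ζ)⟫_ℂ = ⟪ζ, e ζ⟫_ℂ := by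
        change ⟪ζ, (e * e) ζ⟫_ℂ = _
        rw [hee]
      rw [h3] at h2
      have h4 : ‖((‖e ζ‖ ^ 2 : ℝ) : ℂ)‖ ≤ ‖ζ‖ * ‖e ζ‖ := by
        rw [h2]; exact norm_inner_le_norm _ _
      rwa [Complex.norm_real, Real.norm_of_nonneg (by (clear * -; positivity))] at h4
    by_contra hcon
    push Not at hcon
    (clear * - h1 hcon; nlinarith [norm_nonneg ζ])
  have hnb1 : ∀ ζ, ‖b ζ‖ ≤ ‖ζ‖ := by
    intro ζ
    refine (pow_le_pow_iff_left₀ (norm_nonneg _) (norm_nonneg _) two_ne_zero).1 ?_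
    rw [hnb]
    have h1 := pow_le_pow_left₀ (norm_nonneg _) (hne ζ) 2
    (clear * - h1; nlinarith [sq_nonneg ‖(star v) ζ‖])
  have hbφ : ‖e ξ‖ ^ 2 - γ⁻¹ ≤ ‖b ξ‖ ^ 2 := by
    rw [hnb]
    have h1 := S.eig_norm_sq hv
    have h2 : ‖v ξ‖ ^ 2 ≤ 1 := by
      have h3 := hcon ξ
      rw [S.norm_one] at h3
      (clear * - h3; nlinarith [norm_nonneg (v ξ)])
    have h3 : ‖(star v) ξ‖ ^ 2 = γ⁻¹ * ‖v ξ‖ ^ 2 := by
      rw [h1, ← mul_assoc, inv_mul_cancel₀ hγ.ne', one_mul]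
    rw [h3]
    have h4 : γ⁻¹ * ‖v ξ‖ ^ 2 ≤ γ⁻¹ * 1 := mul_le_mul_of_nonneg_left h2 (inv_pos.2 hγ).le
    linarith
  have haξ : ‖a ξ‖ ^ 2 = 1 - ‖v ξ‖ ^ 2 := by rw [hna, S.norm_one]; norm_num
  by_cases ha0 : a = 0
  · have h1 : 1 - ‖v ξ‖ ^ 2 = 0 := by rw [← haξ, ha0]; simp
    refine ⟨v, hv, hv1, hev, ?_, ?_⟩
    · rw [sub_self, norm_zero, h1]; norm_num
    · rw [h1, mul_zero]
  have hb0 : b ≠ 0 := by
    intro h
    rw [h] at hbφ
    simp only [zero_apply, norm_zero] at hbφ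
    norm_num at hbφ
    linarith
  obtain ⟨w₁, hw₁, hw₁n, hw₁r⟩ := S.exists_rot hγ hw₀ hw1 ha hbg ha0 hb0 hw0
  -- sign choice
  obtain ⟨w, hw, hwn, hwr, hwpos⟩ : ∃ w ∈ eig N ξ γ, ‖w‖ ≤ 1 ∧
      ‖(b * w * a) ξ‖ ^ 2 ≥ (1 / 4) * (‖b ξ‖ ^ 2 * ‖w₀ ξ‖ ^ 2 * ‖a ξ‖ ^ 2) ∧
      0 ≤ (⟪v ξ, (b * w * a) ξ⟫_ℂ).re := by
    rcases le_total 0 (⟪v ξ, (b * w₁ * a) ξ⟫_ℂ).re with h | h
    · exact ⟨w₁, hw₁, hw₁n, hw₁r, h⟩
    · refine ⟨-w₁, Submodule.neg_mem _ hw₁, by rwa [norm_neg], ?_, ?_⟩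
      · rw [mul_neg, neg_mul, neg_apply, norm_neg]
        exact hw₁r
      · rw [mul_neg, neg_mul, neg_apply, inner_neg_right, Complex.neg_re]
        (clear * - h; linarith)
  set g := b * w * a with hg
  have hgg : g ∈ eig N ξ γ := eig_mul_right (eig_mul_left hbg hw) ha
  have heb : e * b = b := by
    rw [hb, mul_sub, hee, ← mul_assoc, ← mul_assoc, hev]
  have hng : ∀ ζ, ‖g ζ‖ ≤ ‖a ζ‖ := by
    intro ζ
    change ‖b (w (a ζ))‖ ≤ _
    refine (hnb1 _).trans ?_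
    have := w.le_of_opNorm_le hwn (a ζ)
    rwa [one_mul] at this
  have hexp : ∀ ζ, ‖(v + (2 / 5 : ℂ) • g) ζ‖ ^ 2 =
      ‖v ζ‖ ^ 2 + (4 / 5) * (⟪v ζ, g ζ⟫_ℂ).re + (4 / 25) * ‖g ζ‖ ^ 2 := by
    intro ζ
    rw [add_apply, smul_apply]
    have h1 := @norm_add_sq ℂ _ _ _ _ (v ζ) ((2 / 5 : ℂ) • g ζ)
    rw [h1, inner_smul_right, norm_smul]
    have h2 : (RCLike.re ((2 / 5 : ℂ) * ⟪v ζ, g ζ⟫_ℂ) : ℝ) = (2 / 5) * (⟪v ζ, g ζ⟫_ℂ).re := by
      have : (2 / 5 : ℂ) = ((2 / 5 : ℝ) : ℂ) := by push_cast; rfl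
      rw [this, RCLike.re_to_complex, Complex.re_ofReal_mul]
    have h3 : ‖(2 / 5 : ℂ)‖ = 2 / 5 := by
      have : (2 / 5 : ℂ) = ((2 / 5 : ℝ) : ℂ) := by push_cast; rfl
      rw [this, Complex.norm_real, Real.norm_of_nonneg (by norm_num)]
    rw [h2, h3, mul_pow]
    ring
  refine ⟨v + (2 / 5 : ℂ) • g, add_mem hv (Submodule.smul_mem _ _ hgg), ?_, ?_, ?_, ?_⟩
  · refine ContinuousLinearMap.opNorm_le_bound _ zero_le_one fun ζ => ?_
    rw [one_mul]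
    refine (pow_le_pow_iff_left₀ (norm_nonneg _) (norm_nonneg _) two_ne_zero).1 ?_
    rw [hexp]
    have h1 : ⟪v ζ, g ζ⟫_ℂ = ⟪v (a ζ), w (a ζ)⟫_ℂ := by
      change ⟪v ζ, b (w (a ζ))⟫_ℂ = _
      have h2 : b (w (a ζ)) = (star b) (w (a ζ)) := by rw [hbs]
      rw [h2, inner_star_right]
      have h3 : b (v ζ) = v (a ζ) := congrArg (fun T : H →L[ℂ] H => T ζ) hbv
      rw [h3]
    have h2 : (⟪v ζ, g ζ⟫_ℂ).re ≤ ‖a ζ‖ ^ 2 := by
      rw [h1]
      refine (Complex.re_le_norm _).trans ((norm_inner_le_norm _ _).trans ?_)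
      rw [sq]
      have e1 := hcon (a ζ)
      have e2 : ‖w (a ζ)‖ ≤ ‖a ζ‖ := by
        have := w.le_of_opNorm_le hwn (a ζ)
        rwa [one_mul] at this
      exact mul_le_mul e1 e2 (norm_nonneg _) (norm_nonneg _)
    have h3 : ‖g ζ‖ ^ 2 ≤ ‖a ζ‖ ^ 2 := pow_le_pow_left₀ (norm_nonneg _) (hng ζ) 2
    have h4 := hna ζ
    have h5 : 0 ≤ ‖a ζ‖ ^ 2 := by (clear * -; positivity)
    (clear * - h2 h3 h4; nlinarith)
  · rw [mul_add, hev, mul_smul_comm, hg, ← mul_assoc, ← mul_assoc, heb]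
  · have h1 : (v + (2 / 5 : ℂ) • g) ξ - v ξ = (2 / 5 : ℂ) • g ξ := by
      rw [add_apply, smul_apply, add_sub_cancel_left]
    have h3 : ‖(2 / 5 : ℂ)‖ = 2 / 5 := by
      have : (2 / 5 : ℂ) = ((2 / 5 : ℝ) : ℂ) := by push_cast; rfl
      rw [this, Complex.norm_real, Real.norm_of_nonneg (by norm_num)]
    rw [h1, norm_smul, h3, mul_pow, ← haξ]
    have h4 : ‖g ξ‖ ^ 2 ≤ ‖a ξ‖ ^ 2 := pow_le_pow_left₀ (norm_nonneg _) (hng ξ) 2
    (clear * - h4; nlinarith [sq_nonneg ‖g ξ‖])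
  · rw [hexp, ← haξ]
    have h5 : (4 / 25) * ((1 / 4) * ((‖e ξ‖ ^ 2 - γ⁻¹) * ‖w₀ ξ‖ ^ 2 * ‖a ξ‖ ^ 2)) ≤
        (4 / 25) * ‖g ξ‖ ^ 2 := by
      refine mul_le_mul_of_nonneg_left (le_trans ?_ hwr) (by norm_num)
      (clear * - hbφ; gcongr)
    have h6 : ‖a ξ‖ ^ 2 = 1 - ‖v ξ‖ ^ 2 := haξ
    (clear * - haξ hwpos h5; nlinarith)

end AP

end Pool.Agent.Helper23

end

end

section

section

open scoped InnerProductSpace TensorProduct

open ContinuousLinearMap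

namespace Pool.Agent.Helper23

variable {H : Type*} [NormedAddCommGroup H] [InnerProductSpace ℂ H] [CompleteSpace H]

variable {M N : VonNeumannAlgebra H} {ξ : H} {E : (H →L[ℂ] H) → (H →L[ℂ] H)}

/-- The ranges of the eigenoperators of a fixed eigenvalue span a dense subspace. -/
lemma evT_denseRange (hirr : TrivialRelComm N ξ) {γ : ℝ}
    (hne : ∃ a ∈ eig N ξ γ, a ≠ 0) : DenseRange (evT N ξ γ) := by
  set V := (LinearMap.range (evT N ξ γ)).topologicalClosure with hV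
  set R := V.starProjection with hR
  have hinv : ∀ T : H →L[ℂ] H, (∀ a ∈ eig N ξ γ, ∀ η, T (a η) ∈ V) → ∀ x ∈ V, T x ∈ V := by
    intro T hT x hx
    have h1 : ((LinearMap.range (evT N ξ γ) : Submodule ℂ H) : Set H) ⊆ T ⁻¹' (V : Set H) := by
      rintro _ ⟨t, rfl⟩
      induction t using TensorProduct.induction_on with
      | zero => simp
      | add t₁ t₂ h₁ h₂ =>
        rw [map_add, Set.mem_preimage, map_add]
        exact Submodule.add_mem _ h₁ h₂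
      | tmul a η => exact hT a a.2 η
    exact closure_minimal h1 ((Submodule.isClosed_topologicalClosure _).preimage T.continuous) hx
  have hmemV : ∀ a ∈ eig N ξ γ, ∀ η, a η ∈ V := fun a ha η =>
    Submodule.le_topologicalClosure _ ⟨(⟨a, ha⟩ : eig N ξ γ) ⊗ₜ η, rfl⟩
  have hRN : R ∈ N := by
    rw [VonNeumannAlgebra.IsStarProjection.mem_iff isStarProjection_starProjection]
    intro y hy
    rw [Submodule.range_starProjection, Module.End.mem_invtSubmodule]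
    intro x hx
    rw [Submodule.mem_comap]
    refine hinv y (fun a ha η => ?_) x hx
    rw [← commute_apply ha.1 hy]
    exact hmemV a ha _
  have hRc : ∀ c ∈ eig N ξ 1, ∀ x ∈ V, c x ∈ V := by
    intro c hc x hx
    refine hinv c (fun a ha η => ?_) x hx
    have h1 := eig_mul hc ha
    rw [one_mul] at h1
    exact hmemV _ h1 η
  have hRcomm : ∀ c ∈ eig N ξ 1, c * R = R * c := by
    intro c hc
    have hc' : star c ∈ eig N ξ 1 := by
      have := eig_star one_ne_zero hc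
      rwa [inv_one] at this
    ext x
    change c (R x) = R (c x)
    symm
    refine Submodule.eq_starProjection_of_mem_orthogonal (K := V) ?_ ?_
    · exact hRc c hc _ (Submodule.starProjection_apply_mem V x)
    · rw [← map_sub, Submodule.mem_orthogonal]
      intro w hw
      have h2 := Submodule.sub_starProjection_mem_orthogonal (K := V) x
      rw [Submodule.mem_orthogonal] at h2
      have h3 := h2 _ (hRc _ hc' w hw)
      rwa [inner_star_left] at h3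
  obtain ⟨k, hk⟩ := hirr R hRN hRcomm
  obtain ⟨a, ha, ha0⟩ := hne
  obtain ⟨η, hη⟩ : ∃ η, a η ≠ 0 := by
    by_contra hcon
    push Not at hcon
    exact ha0 (ContinuousLinearMap.ext fun η => by simpa using hcon η)
  have h1 : R (a η) = a η := Submodule.starProjection_eq_self_iff.2 (hmemV a ha η)
  rw [hk] at h1
  have h2 : k = 1 := by
    have h3 : (k - 1) • (a η) = 0 := by
      rw [sub_smul, one_smul, sub_eq_zero]
      simpa using h1
    rcases smul_eq_zero.1 h3 with h | h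
    · exact sub_eq_zero.1 h
    · exact absurd h hη
  rw [h2, one_smul] at hk
  intro x
  have h4 : R x = x := by rw [hk]; rfl
  exact Submodule.starProjection_eq_self_iff.1 h4

lemma Rel.unique (hirr : TrivialRelComm N ξ) {γ : ℝ} (hγ : γ ≠ 0)
    (hne : ∃ a ∈ eig N ξ γ, a ≠ 0) {z z' : H →L[ℂ] H}
    (h : ∀ a ∈ eig N ξ γ, z * a = z' * a) : z = z' := by
  have hd := evT_denseRange hirr hne
  have hcl : IsClosed {x : H | z x = z' x} := isClosed_eq z.continuous z'.continuous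
  have hsub : Set.range (evT N ξ γ) ⊆ {x : H | z x = z' x} := by
    rintro _ ⟨t, rfl⟩
    induction t using TensorProduct.induction_on with
    | zero => simp
    | add t₁ t₂ h₁ h₂ =>
      change z _ = z' _ at h₁ h₂ ⊢
      rw [map_add, map_add, map_add, h₁, h₂]
    | tmul a η => exact congrArg (fun T : H →L[ℂ] H => T η) (h a a.2)
  ext x
  exact closure_minimal hsub hcl (hd x)

lemma Rel.star' (hirr : TrivialRelComm N ξ) {γ : ℝ} (hγ : γ ≠ 0)
    (hne : ∃ a ∈ eig N ξ γ, a ≠ 0) {y z : H →L[ℂ] H} (hz : z ∈ Qalg M N ξ)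
    (h : Rel N ξ γ y z) : Rel N ξ γ (star y) (star z) := by
  intro a ha
  refine Rel.unique hirr (inv_ne_zero hγ) (star_ne hγ hne) fun b hb => ?_
  -- b ∈ eig γ⁻¹, b = star c
  have hc : star b ∈ eig N ξ γ := by
    have := eig_star (inv_ne_zero hγ) hb
    rwa [inv_inv] at this
  have h1 := h.star_left hc
  rw [star_star] at h1
  -- star y * b = b * star z
  have h2 : a * b ∈ eig N ξ 1 := by
    have := eig_mul ha hb
    rwa [mul_inv_cancel₀ hγ] at this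
  have h3 := (mem_Qalg.1 (star_mem hz)).2 _ h2
  -- (a*b) * star z = star z * (a*b)
  rw [mul_assoc, h1, ← mul_assoc, h3, mul_assoc]

/-- `a* z = y a*` -/
lemma Rel.adj (hirr : TrivialRelComm N ξ) {γ : ℝ} (hγ : γ ≠ 0)
    (hne : ∃ a ∈ eig N ξ γ, a ≠ 0) {y z : H →L[ℂ] H} (hz : z ∈ Qalg M N ξ)
    (h : Rel N ξ γ y z) {b : H →L[ℂ] H} (hb : b ∈ eig N ξ γ⁻¹) : b * z = y * b := by
  have h1 := h.star' hirr hγ hne hz
  have hc : Star.star b ∈ eig N ξ γ := by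
    have := eig_star (inv_ne_zero hγ) hb
    rwa [inv_inv] at this
  have h2 := h1.star_left hc
  simpa using h2.symm

namespace Setting

variable (S : Setting M N E ξ) (hirr : TrivialRelComm N ξ)

include S hirr

/-- `Rel` preserves the state. -/
lemma rel_state {γ : ℝ} (hne : ∃ a ∈ eig N ξ γ, a ≠ 0) {y z : H →L[ℂ] H}
    (hy : y ∈ Qalg M N ξ) (hz : z ∈ Qalg M N ξ) (h : Rel N ξ γ y z) :
    ⟪ξ, z ξ⟫_ℂ = ⟪ξ, y ξ⟫_ℂ := by
  obtain ⟨a, ha, ha0⟩ := hne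
  have h1 := S.inner_Q hirr hz ha.1 ha.1
  have h2 : z (a ξ) = a (y ξ) := (congrArg (fun T : H →L[ℂ] H => T ξ) (h a ha)).symm
  rw [h2, ← inner_star_left] at h1
  have h3 := S.inner_Q hirr hy (a := star a * a) (b := 1) (mul_mem (star_mem ha.1) ha.1)
    (one_mem N)
  change ⟪(star a) (a ξ), y ξ⟫_ℂ = _ * ⟪(star a) (a ξ), ξ⟫_ℂ at h3
  rw [h3, inner_star_left] at h1
  have haξ : a ξ ≠ 0 := fun h0 => ha0 (S.sep a (S.le a ha.1) h0)
  have h4 : ⟪a ξ, a ξ⟫_ℂ ≠ 0 := inner_self_ne_zero.2 haξ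
  exact (mul_right_cancel₀ h4 h1).symm

lemma rel_norm {γ : ℝ} (hγ : γ ≠ 0) (hne : ∃ a ∈ eig N ξ γ, a ≠ 0) {y z : H →L[ℂ] H}
    (hy : y ∈ Qalg M N ξ) (hz : z ∈ Qalg M N ξ) (h : Rel N ξ γ y z) : ‖z ξ‖ = ‖y ξ‖ := by
  have h1 := S.rel_state hirr hne (mul_mem (star_mem hy) hy) (mul_mem (star_mem hz) hz)
    ((h.star' hirr hγ hne hz).mul h)
  change ⟪ξ, (star z) (z ξ)⟫_ℂ = ⟪ξ, (star y) (y ξ)⟫_ℂ at h1
  rw [inner_star_right, inner_star_right, inner_self_eq_norm_sq_to_K,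
    inner_self_eq_norm_sq_to_K] at h1
  have h2 : ‖z ξ‖ ^ 2 = ‖y ξ‖ ^ 2 := by exact_mod_cast h1
  exact (pow_left_inj₀ (norm_nonneg _) (norm_nonneg _) two_ne_zero).1 h2

end Setting

end Pool.Agent.Helper23

end

section

open scoped InnerProductSpace

open ContinuousLinearMap Filter

namespace Pool.Agent.Helper23

variable {H : Type*} [NormedAddCommGroup H] [InnerProductSpace ℂ H] [CompleteSpace H]

variable {M N : VonNeumannAlgebra H} {ξ : H} {E : (H →L[ℂ] H) → (H →L[ℂ] H)}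

open Classical in
/-- the transported element -/
noncomputable def al (M N : VonNeumannAlgebra H) (ξ : H) (γ : ℝ) (x : H →L[ℂ] H) : H →L[ℂ] H :=
  if h : γ ∈ Gam N ξ ∧ ∃ z ∈ Qalg M N ξ, Rel N ξ γ x z then h.2.choose else 0

end Pool.Agent.Helper23

end

section

open scoped InnerProductSpace Topology

open ContinuousLinearMap Filter

namespace Pool.Agent.Helper23

variable {H : Type*} [NormedAddCommGroup H] [InnerProductSpace ℂ H] [CompleteSpace H]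

variable {M N : VonNeumannAlgebra H} {ξ : H} {E : (H →L[ℂ] H) → (H →L[ℂ] H)}

/-- continuous elements of `Q` -/
def InB (M N : VonNeumannAlgebra H) (ξ : H) (x : H →L[ℂ] H) : Prop :=
  x ∈ Qalg M N ξ ∧ Tendsto (fun γ => al M N ξ γ x ξ) (𝓝[Gam N ξ] 1) (𝓝 (x ξ))

lemma Gam_inv {γ : ℝ} (hγ : γ ∈ Gam N ξ) : γ⁻¹ ∈ Gam N ξ :=
  ⟨inv_pos.2 hγ.1, star_ne hγ.1.ne' hγ.2⟩

open Classical in
/-- the flow -/
noncomputable def bet (M N : VonNeumannAlgebra H) (ξ : H) (l : ℝ) (x : H →L[ℂ] H) : H →L[ℂ] H :=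
  if h : ∃ y ∈ Qalg M N ξ, Tendsto (fun γ => al M N ξ γ x ξ) (𝓝[Gam N ξ] l) (𝓝 (y ξ))
  then h.choose else 0

namespace AP

variable (S : AP M N E ξ)

include S

lemma Gam_mul {γ δ : ℝ} (hγ : γ ∈ Gam N ξ) (hδ : δ ∈ Gam N ξ) : γ * δ ∈ Gam N ξ := by
  obtain ⟨hγ0, a, ha, ha0⟩ := hγ
  refine ⟨mul_pos hγ0 hδ.1, ?_⟩
  by_contra hcon
  push Not at hcon
  apply ha0
  refine Rel.unique S.irr hδ.1.ne' hδ.2 fun b hb => ?_
  rw [hcon _ (eig_mul ha hb), zero_mul]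

lemma one_mem_Gam : (1 : ℝ) ∈ Gam N ξ := by
  refine ⟨one_pos, 1, one_mem_eig, fun h => ?_⟩
  have h1 : ξ = 0 := by
    have := congrArg (fun T : H →L[ℂ] H => T ξ) h
    simpa using this
  have h2 := S.norm_one
  rw [h1, norm_zero] at h2
  exact zero_ne_one h2

end AP

end Pool.Agent.Helper23

end

section

open scoped InnerProductSpace Topology ENNReal

open ContinuousLinearMap Filter MeasureTheory

namespace Pool.Agent.Helper23

variable {H : Type*} [NormedAddCommGroup H] [InnerProductSpace ℂ H] [CompleteSpace H]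

variable {M N : VonNeumannAlgebra H} {ξ : H} {E : (H →L[ℂ] H) → (H →L[ℂ] H)}

namespace AP

variable (S : AP M N E ξ)

include S

lemma Gam_pow {γ : ℝ} (hγ : γ ∈ Gam N ξ) (k : ℕ) : γ ^ k ∈ Gam N ξ := by
  induction k with
  | zero => rw [pow_zero]; exact S.one_mem_Gam
  | succ k ih => rw [pow_succ]; exact S.Gam_mul ih hγ

lemma Gam_zpow {γ : ℝ} (hγ : γ ∈ Gam N ξ) (k : ℤ) : γ ^ k ∈ Gam N ξ := by
  cases k with
  | ofNat k => exact S.Gam_pow hγ k
  | negSucc k =>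
    rw [zpow_negSucc]
    exact Gam_inv (S.Gam_pow hγ _)

end AP

end Pool.Agent.Helper23

end

end

section

section

open scoped InnerProductSpace TensorProduct

open ContinuousLinearMap

namespace Pool.Agent.Helper23

variable {H : Type*} [NormedAddCommGroup H] [InnerProductSpace ℂ H] [CompleteSpace H]

variable {M N : VonNeumannAlgebra H} {ξ : H} {E : (H →L[ℂ] H) → (H →L[ℂ] H)}

lemma evTu_inner {γ : ℝ} (hγ : γ ≠ 0) {u : H →L[ℂ] H} (hu : ∀ a ∈ eig N ξ 1, a * u = u * a)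
    (huu : star u * u = 1) (s t : (eig N ξ γ) ⊗[ℂ] H) :
    ⟪evTu N ξ γ u s, evTu N ξ γ u t⟫_ℂ = ⟪evT N ξ γ s, evT N ξ γ t⟫_ℂ := by
  induction s using TensorProduct.induction_on with
  | zero => simp
  | add s₁ s₂ h₁ h₂ => rw [map_add, map_add, inner_add_left, inner_add_left, h₁, h₂]
  | tmul a η =>
    induction t using TensorProduct.induction_on with
    | zero => simp
    | add t₁ t₂ h₁ h₂ => rw [map_add, map_add, inner_add_right, inner_add_right, h₁, h₂]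
    | tmul b ζ =>
      rw [evTu_tmul, evTu_tmul, evT_tmul, evT_tmul, ← inner_star_right, ← inner_star_right]
      have h1 : (star (a : H →L[ℂ] H)) ((b : H →L[ℂ] H) (u ζ)) =
          u ((star (a : H →L[ℂ] H)) ((b : H →L[ℂ] H) ζ)) := by
        have := hu _ (star_mul_mem_eig_one hγ a.2 b.2)
        exact congrArg (fun T : H →L[ℂ] H => T ζ) this
      rw [h1, ← inner_star_right]
      have h2 : (star u) (u ((star (a : H →L[ℂ] H)) ((b : H →L[ℂ] H) ζ))) =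
          (star (a : H →L[ℂ] H)) ((b : H →L[ℂ] H) ζ) :=
        congrArg (fun T : H →L[ℂ] H => T ((star (a : H →L[ℂ] H)) ((b : H →L[ℂ] H) ζ))) huu
      rw [h2]

/-- Existence for unitaries. -/
lemma exists_rel_unitary (hirr : TrivialRelComm N ξ) {γ : ℝ} (hγ : γ ≠ 0)
    (hne : ∃ a ∈ eig N ξ γ, a ≠ 0) (hle : ∀ x ∈ N, x ∈ M) {u : H →L[ℂ] H}
    (hu : u ∈ Qalg M N ξ) (huu : star u * u = 1) :
    ∃ z ∈ Qalg M N ξ, Rel N ξ γ u z ∧ ‖z‖ ≤ 1 := by
  have hd := evT_denseRange hirr hne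
  have hu' := mem_Qalg.1 hu
  have hnorm : ∀ t, ‖evTu N ξ γ u t‖ ≤ 1 * ‖evT N ξ γ t‖ := by
    intro t
    have h1 := evTu_inner hγ hu'.2 huu t t
    rw [inner_self_eq_norm_sq_to_K, inner_self_eq_norm_sq_to_K] at h1
    have h2 : ‖evTu N ξ γ u t‖ ^ 2 = ‖evT N ξ γ t‖ ^ 2 := by exact_mod_cast h1
    rw [one_mul, (pow_left_inj₀ (norm_nonneg _) (norm_nonneg _) two_ne_zero).1 h2]
  obtain ⟨z, hzeq, hz1⟩ := exists_ext_monoid (evTu N ξ γ u) (evT N ξ γ) hd zero_le_one hnorm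
  have hzeq' : ∀ a ∈ eig N ξ γ, ∀ η, z (a η) = a (u η) := fun a ha η =>
    hzeq ((⟨a, ha⟩ : eig N ξ γ) ⊗ₜ η)
  have hcomm : ∀ g : H →L[ℂ] H, (∀ a ∈ eig N ξ γ, ∀ η, g (z (a η)) = z (g (a η))) →
      g * z = z * g := by
    intro g hg
    have hcl : IsClosed {x : H | (g * z) x = (z * g) x} :=
      isClosed_eq (g * z).continuous (z * g).continuous
    have hsub : Set.range (evT N ξ γ) ⊆ {x : H | (g * z) x = (z * g) x} := by
      rintro _ ⟨t, rfl⟩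
      induction t using TensorProduct.induction_on with
      | zero => simp
      | add t₁ t₂ h₁ h₂ =>
        change (g * z) _ = (z * g) _ at h₁ h₂ ⊢
        rw [map_add, map_add, map_add, h₁, h₂]
      | tmul a η => exact hg a a.2 η
    ext x
    exact closure_minimal hsub hcl (hd x)
  refine ⟨z, mem_Qalg.2 ⟨?_, ?_⟩, ?_, hz1⟩
  · rw [mem_iff_commutes]
    intro g hg
    refine hcomm g fun a ha η => ?_
    have ha' : a ∈ M := hle a ha.1
    rw [hzeq' a ha, ← commute_apply ha' hg, ← commute_apply ha' hg, hzeq' a ha,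
      ← commute_apply hu'.1 hg]
  · intro c hc
    refine hcomm c fun a ha η => ?_
    have h1 := eig_mul hc ha
    rw [one_mul] at h1
    rw [hzeq' a ha]
    have h2 := hzeq' _ h1 η
    exact h2.symm
  · intro a ha
    ext η
    exact (hzeq' a ha η).symm

/-- Existence of the transported element. -/
lemma exists_rel (hirr : TrivialRelComm N ξ) {γ : ℝ} (hγ : γ ≠ 0)
    (hne : ∃ a ∈ eig N ξ γ, a ≠ 0) (hle : ∀ x ∈ N, x ∈ M) {y : H →L[ℂ] H}
    (hy : y ∈ Qalg M N ξ) : ∃ z ∈ Qalg M N ξ, Rel N ξ γ y z ∧ ‖z‖ ≤ 2 * ‖y‖ := by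
  obtain ⟨u, k, hk, hkn⟩ := CStarAlgebra.exists_sum_four_unitary
    (⟨y, hy⟩ : (Qalg M N ξ).toStarSubalgebra)
  have hy' : y = ∑ i, k i • ((u i : (Qalg M N ξ).toStarSubalgebra) : H →L[ℂ] H) := by
    have := congrArg (fun z : (Qalg M N ξ).toStarSubalgebra => (z : H →L[ℂ] H)) hk
    simpa using this
  have hex : ∀ i, ∃ z ∈ Qalg M N ξ,
      Rel N ξ γ ((u i : (Qalg M N ξ).toStarSubalgebra) : H →L[ℂ] H) z ∧ ‖z‖ ≤ 1 := by
    intro i
    refine exists_rel_unitary hirr hγ hne hle (u i : (Qalg M N ξ).toStarSubalgebra).2 ?_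
    have := Unitary.star_mul_self_of_mem (u i).2
    exact congrArg (fun z : (Qalg M N ξ).toStarSubalgebra => (z : H →L[ℂ] H)) this
  choose z hzQ hzrel hznorm using hex
  refine ⟨∑ i, k i • z i, sum_mem fun i _ => smul_mem' _ (hzQ i), ?_, ?_⟩
  · intro a ha
    rw [hy', Finset.mul_sum, Finset.sum_mul]
    refine Finset.sum_congr rfl fun i _ => ?_
    rw [mul_smul_comm, smul_mul_assoc, hzrel i a ha]
  · have hkn' : ∀ i, ‖k i‖ ≤ ‖y‖ / 2 := hkn
    calc ‖∑ i, k i • z i‖ ≤ ∑ i, ‖k i • z i‖ := norm_sum_le _ _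
      _ ≤ ∑ _i : Fin 4, ‖y‖ / 2 * 1 := by
          refine Finset.sum_le_sum fun i _ => ?_
          rw [norm_smul]
          gcongr
          · exact hkn' i
          · exact hznorm i
      _ = 2 * ‖y‖ := by
          simp only [Finset.sum_const, Finset.card_univ, Fintype.card_fin, nsmul_eq_mul]
          push_cast
          ring

end Pool.Agent.Helper23

end

section

open scoped InnerProductSpace

open ContinuousLinearMap Filter

namespace Pool.Agent.Helper23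

variable {H : Type*} [NormedAddCommGroup H] [InnerProductSpace ℂ H] [CompleteSpace H]

variable {M N : VonNeumannAlgebra H} {ξ : H} {E : (H →L[ℂ] H) → (H →L[ℂ] H)}

namespace AP

variable (S : AP M N E ξ)

include S

lemma al_spec {γ : ℝ} (hγ : γ ∈ Gam N ξ) {x : H →L[ℂ] H} (hx : x ∈ Qalg M N ξ) :
    al M N ξ γ x ∈ Qalg M N ξ ∧ Rel N ξ γ x (al M N ξ γ x) := by
  obtain ⟨z, hz, hz', -⟩ := exists_rel S.irr hγ.1.ne' hγ.2 S.le hx
  have h : γ ∈ Gam N ξ ∧ ∃ z ∈ Qalg M N ξ, Rel N ξ γ x z := ⟨hγ, z, hz, hz'⟩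
  rw [al, dif_pos h]
  exact h.2.choose_spec

lemma al_mem {γ : ℝ} (hγ : γ ∈ Gam N ξ) {x : H →L[ℂ] H} (hx : x ∈ Qalg M N ξ) :
    al M N ξ γ x ∈ Qalg M N ξ := (S.al_spec hγ hx).1

lemma al_rel {γ : ℝ} (hγ : γ ∈ Gam N ξ) {x : H →L[ℂ] H} (hx : x ∈ Qalg M N ξ) :
    Rel N ξ γ x (al M N ξ γ x) := (S.al_spec hγ hx).2

lemma al_unique {γ : ℝ} (hγ : γ ∈ Gam N ξ) {x z : H →L[ℂ] H} (hx : x ∈ Qalg M N ξ)
    (hz : Rel N ξ γ x z) : al M N ξ γ x = z :=
  Rel.unique S.irr hγ.1.ne' hγ.2 fun a ha => by rw [← hz a ha, S.al_rel hγ hx a ha]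

end AP

end Pool.Agent.Helper23

end

section

open scoped InnerProductSpace

open ContinuousLinearMap Filter

namespace Pool.Agent.Helper23

variable {H : Type*} [NormedAddCommGroup H] [InnerProductSpace ℂ H] [CompleteSpace H]

variable {M N : VonNeumannAlgebra H} {ξ : H} {E : (H →L[ℂ] H) → (H →L[ℂ] H)}

namespace Setting

variable (S : Setting M N E ξ)

include S

/-- limits of bounded sequences in an eigenspace -/
lemma eig_limit {ι : Type*} {l : Filter ι} [l.NeBot] {γ C : ℝ} (hC0 : 0 ≤ C)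
    {x : ι → H →L[ℂ] H} (hx : ∀ i, x i ∈ eig N ξ γ) (hC : ∀ i, ‖x i‖ ≤ C) {η : H}
    (h : Tendsto (fun i => x i ξ) l (nhds η)) :
    ∃ y ∈ eig N ξ γ, y ξ = η ∧ ‖y‖ ≤ C ∧ ∀ ζ, Tendsto (fun i => x i ζ) l (nhds (y ζ)) := by
  obtain ⟨y, hy, hyη, hyC⟩ := exists_limit N S.dense_commN hC0 (fun i => (hx i).1) hC h
  have hlim : ∀ ζ, Tendsto (fun i => x i ζ) l (nhds (y ζ)) := by
    intro ζ
    have h1 : Tendsto (fun i => (x i - y) ζ) l (nhds 0) := by
      refine tendsto_of_bounded N S.dense_commN (x := fun i => x i - y) (C := C + C)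
        (fun i => sub_mem (hx i).1 hy)
        (fun i => (norm_sub_le _ _).trans (add_le_add (hC i) hyC)) ?_ ζ
      have h2 : Tendsto (fun i => x i ξ - η) l (nhds (η - η)) := h.sub_const η
      rw [sub_self] at h2
      refine h2.congr fun i => ?_
      rw [sub_apply, hyη]
    have h2 := h1.add_const (y ζ)
    rw [zero_add] at h2
    refine h2.congr fun i => ?_
    rw [sub_apply, sub_add_cancel]
  refine ⟨y, ⟨hy, fun z hz => ?_⟩, hyη, hyC, hlim⟩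
  have h1 : Tendsto (fun i => ⟪ξ, z (x i ξ)⟫_ℂ) l (nhds ⟪ξ, z (y ξ)⟫_ℂ) :=
    tendsto_const_nhds.inner ((z.continuous.tendsto _).comp (hlim ξ))
  have h2 : Tendsto (fun i => (γ : ℂ) * ⟪ξ, x i (z ξ)⟫_ℂ) l (nhds (γ * ⟪ξ, y (z ξ)⟫_ℂ)) :=
    (tendsto_const_nhds.inner (hlim (z ξ))).const_mul _
  refine tendsto_nhds_unique h1 (h2.congr fun i => ?_)
  exact ((hx i).2 z hz).symm

end Setting

end Pool.Agent.Helper23

end

section

open scoped InnerProductSpace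

open ContinuousLinearMap Filter

namespace Pool.Agent.Helper23

variable {H : Type*} [NormedAddCommGroup H] [InnerProductSpace ℂ H] [CompleteSpace H]

variable {M N : VonNeumannAlgebra H} {ξ : H} {E : (H →L[ℂ] H) → (H →L[ℂ] H)}

namespace AP

variable (S : AP M N E ξ)

include S

/-- Isometries in the eigenspaces with range in a given corner. -/
theorem exists_isometry {γ : ℝ} (hγ : γ ∈ Gam N ξ) {e : H →L[ℂ] H} (he : e ∈ eig N ξ 1)
    (hes : star e = e) (hee : e * e = e) (heφ : γ⁻¹ < ‖e ξ‖ ^ 2) :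
    ∃ v ∈ eig N ξ γ, star v * v = 1 ∧ e * v = v := by
  obtain ⟨hγ0, w₁, hw₁, hw₁0⟩ := hγ
  set w₀ := ((‖w₁‖⁻¹ : ℝ) : ℂ) • w₁ with hw₀
  have hw₁n : 0 < ‖w₁‖ := norm_pos_iff.2 hw₁0
  have hw₀g : w₀ ∈ eig N ξ γ := Submodule.smul_mem _ _ hw₁
  have hw₀n : ‖w₀‖ ≤ 1 := by
    rw [hw₀, norm_smul, Complex.norm_real, Real.norm_of_nonneg (by positivity),
      inv_mul_cancel₀ hw₁n.ne']
  have hw₀0 : w₀ ≠ 0 := by
    rw [hw₀]
    refine smul_ne_zero ?_ hw₁0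
    exact_mod_cast (inv_pos.2 hw₁n).ne'
  have hne : ‖e ξ‖ ≤ 1 := by
    have h1 : ‖e ξ‖ ^ 2 ≤ ‖ξ‖ * ‖e ξ‖ := by
      have h2 := norm_sq_apply e ξ
      rw [hes] at h2
      have h3 : ⟪ξ, e (e ξ)⟫_ℂ = ⟪ξ, e ξ⟫_ℂ := by
        change ⟪ξ, (e * e) ξ⟫_ℂ = _
        rw [hee]
      rw [h3] at h2
      have h4 : ‖((‖e ξ‖ ^ 2 : ℝ) : ℂ)‖ ≤ ‖ξ‖ * ‖e ξ‖ := by
        rw [h2]; exact norm_inner_le_norm _ _
      rwa [Complex.norm_real, Real.norm_of_nonneg (by (clear * -; positivity))] at h4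
    rw [S.norm_one, one_mul] at h1
    by_contra hcon
    push Not at hcon
    (clear * - h1 hcon; nlinarith)
  set c := (1 / 25) * ((‖e ξ‖ ^ 2 - γ⁻¹) * ‖w₀ ξ‖ ^ 2) with hc
  have hw₀ξ : 0 < ‖w₀ ξ‖ := norm_pos_iff.2 fun h => hw₀0 (S.sep w₀ (S.le w₀ hw₀g.1) h)
  have hw₀ξ1 : ‖w₀ ξ‖ ≤ 1 := by
    have := w₀.le_of_opNorm_le hw₀n ξ
    rwa [S.norm_one, one_mul] at this
  have hc0 : 0 < c := by
    have : 0 < ‖e ξ‖ ^ 2 - γ⁻¹ := by (clear * - heφ; linarith)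
    (clear * - heφ hw₀ξ; positivity)
  have hc1 : c < 1 := by
    have h1 : ‖e ξ‖ ^ 2 ≤ 1 := by (clear * - hne; nlinarith [norm_nonneg (e ξ)])
    have h2 : ‖w₀ ξ‖ ^ 2 ≤ 1 := by (clear * - hw₀ξ1 hw₀ξ; nlinarith [norm_nonneg (w₀ ξ)])
    have h3 : 0 < γ⁻¹ := inv_pos.2 hγ0
    have h4 : (‖e ξ‖ ^ 2 - γ⁻¹) * ‖w₀ ξ‖ ^ 2 ≤ 1 * 1 :=
      mul_le_mul (by (clear * - h1 h3; linarith)) h2 (by positivity) (by norm_num)
    rw [hc]
    linarith
  have hstep : ∀ v : {v : H →L[ℂ] H // v ∈ eig N ξ γ ∧ ‖v‖ ≤ 1 ∧ e * v = v},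
      ∃ v' : {v : H →L[ℂ] H // v ∈ eig N ξ γ ∧ ‖v‖ ≤ 1 ∧ e * v = v},
        ‖v'.1 ξ - v.1 ξ‖ ^ 2 ≤ 1 - ‖v.1 ξ‖ ^ 2 ∧
          1 - ‖v'.1 ξ‖ ^ 2 ≤ (1 - c) * (1 - ‖v.1 ξ‖ ^ 2) := by
    rintro ⟨v, hv, hv1, hev⟩
    obtain ⟨v', h1, h2, h3, h4, h5⟩ :=
      S.improve hγ0 hw₀g hw₀n hw₀0 he hes hee heφ hv hv1 hev
    exact ⟨⟨v', h1, h2, h3⟩, h4, h5⟩
  choose nxt hn1 hn2 using hstep
  let v : ℕ → {v : H →L[ℂ] H // v ∈ eig N ξ γ ∧ ‖v‖ ≤ 1 ∧ e * v = v} := fun n =>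
    Nat.rec ⟨0, Submodule.zero_mem _, by simp, by simp⟩ (fun _ v => nxt v) n
  have hvs : ∀ n, v (n + 1) = nxt (v n) := fun n => rfl
  have hx : ∀ n, 1 - ‖(v n).1 ξ‖ ^ 2 ≤ (1 - c) ^ n := by
    intro n
    induction n with
    | zero =>
      have : (v 0).1 = 0 := rfl
      rw [this]
      simp
    | succ n ih =>
      have e1 : (1 - c) ^ (n + 1) = (1 - c) * (1 - c) ^ n := pow_succ' _ _
      have e2 : 0 ≤ 1 - c := by (clear * - hc1; linarith)
      rw [hvs, e1]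
      exact (hn2 (v n)).trans (mul_le_mul_of_nonneg_left ih e2)
  set r := Real.sqrt (1 - c) with hr
  have hr0 : 0 ≤ r := Real.sqrt_nonneg _
  have hr1 : r < 1 := by
    rw [hr]
    have : Real.sqrt (1 - c) < Real.sqrt 1 := Real.sqrt_lt_sqrt (by (clear * - hc1; linarith)) (by (clear * - hc0; linarith))
    rwa [Real.sqrt_one] at this
  have hr2 : r ^ 2 = 1 - c := Real.sq_sqrt (by (clear * - hc1; linarith))
  have hcau : CauchySeq (fun n => (v n).1 ξ) := by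
    refine cauchySeq_of_le_geometric r 1 hr1 fun n => ?_
    rw [one_mul, dist_eq_norm, norm_sub_rev]
    refine (pow_le_pow_iff_left₀ (norm_nonneg _) (by (clear * - hc1; positivity)) two_ne_zero).1 ?_
    rw [← pow_mul, mul_comm n 2, pow_mul, hr2, hvs]
    exact (hn1 (v n)).trans (hx n)
  obtain ⟨η, hη⟩ := cauchySeq_tendsto_of_complete hcau
  obtain ⟨w, hw, hwη, hwn, hwlim⟩ := S.eig_limit (γ := γ) zero_le_one
    (fun n => (v n).2.1) (fun n => (v n).2.2.1) hη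
  have hwξ : ‖w ξ‖ = 1 := by
    have h1 : Tendsto (fun n => ‖(v n).1 ξ‖ ^ 2) atTop (nhds (‖w ξ‖ ^ 2)) :=
      ((hwlim ξ).norm).pow 2
    have h2 : Tendsto (fun n => 1 - (1 - c) ^ n) atTop (nhds (1 - 0)) :=
      (tendsto_pow_atTop_nhds_zero_of_lt_one (by (clear * - hc1; linarith)) (by (clear * - hc0; linarith))).const_sub 1
    rw [sub_zero] at h2
    have h3 : 1 ≤ ‖w ξ‖ ^ 2 := le_of_tendsto_of_tendsto' h2 h1 fun n => by
      have := hx n
      (clear * - this; linarith)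
    have h4 : ‖w ξ‖ ≤ 1 := by
      have := w.le_of_opNorm_le hwn ξ
      rwa [S.norm_one, one_mul] at this
    (clear * - h3 hc0 hc1 h4; nlinarith [norm_nonneg (w ξ)])
  refine ⟨w, hw, ?_, ?_⟩
  · refine eq_of_dense N S.dense_commN (mul_mem (star_mem hw.1) hw.1) (one_mem N) ?_
    have h1 : ‖(star w * w) ξ - ξ‖ ^ 2 ≤ 0 := by
      have h2 := @norm_sub_sq ℂ _ _ _ _ ((star w * w) ξ) ξ
      have h3 : ⟪(star w * w) ξ, ξ⟫_ℂ = 1 := by
        change ⟪(star w) (w ξ), ξ⟫_ℂ = 1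
        rw [inner_star_left, inner_self_eq_norm_sq_to_K, hwξ]
        simp
      have h4 : ‖(star w * w) ξ‖ ≤ 1 := by
        change ‖(star w) (w ξ)‖ ≤ 1
        have h5 : ‖star w‖ ≤ 1 := by rw [norm_star]; exact hwn
        have := (star w).le_of_opNorm_le h5 (w ξ)
        rwa [hwξ, one_mul] at this
      rw [h2, h3, S.norm_one]
      have h5 : ‖(star w * w) ξ‖ ^ 2 ≤ 1 := by (clear * - h4 hc0 hc1; nlinarith [norm_nonneg ((star w * w) ξ)])
      simp only [RCLike.one_re]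
      (clear * - h5; linarith)
    have h2 : ‖(star w * w) ξ - ξ‖ = 0 := by
      have := sq_nonneg ‖(star w * w) ξ - ξ‖
      exact pow_eq_zero_iff two_ne_zero |>.1 (le_antisymm h1 this)
    rw [one_apply_eq_self]
    exact sub_eq_zero.1 (norm_eq_zero.1 h2)
  · ext ζ
    have h1 : Tendsto (fun n => e ((v n).1 ζ)) atTop (nhds (e (w ζ))) :=
      (e.continuous.tendsto _).comp (hwlim ζ)
    have h2 : ∀ n, e ((v n).1 ζ) = (v n).1 ζ := fun n =>
      congrArg (fun T : H →L[ℂ] H => T ζ) (v n).2.2.2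
    simp only [h2] at h1
    exact tendsto_nhds_unique h1 (hwlim ζ)

end AP

end Pool.Agent.Helper23

end

section

open scoped InnerProductSpace Topology BoundedContinuousFunction

open ContinuousLinearMap Filter

namespace Pool.Agent.Helper23

variable {H : Type*} [NormedAddCommGroup H] [InnerProductSpace ℂ H] [CompleteSpace H]

variable {M N : VonNeumannAlgebra H} {ξ : H} {E : (H →L[ℂ] H) → (H →L[ℂ] H)}

namespace AP

variable (S : AP M N E ξ)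

include S

/-- contractions in the eigenspaces of norm one on `ξ` -/
lemma exists_contr {γ : ℝ} (hγ : γ ∈ Gam N ξ) : ∃ v ∈ eig N ξ γ, ‖v‖ ≤ 1 ∧
    min 1 γ ≤ ‖v ξ‖ ^ 2 ∧ (1 ≤ γ → star v * v = 1) ∧ (γ ≤ 1 → v * star v = 1) := by
  have h1ξ : ‖(1 : H →L[ℂ] H) ξ‖ ^ 2 = 1 := by
    rw [one_apply_eq_self, S.norm_one]; norm_num
  rcases lt_trichotomy γ 1 with h | h | h
  · obtain ⟨w, hw, hw1, -⟩ := S.exists_isometry (Gam_inv hγ) one_mem_eig (star_one _) (one_mul 1) (by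
      rw [inv_inv, h1ξ]; exact h)
    have hv : star w ∈ eig N ξ γ := by
      have := eig_star (inv_ne_zero hγ.1.ne') hw
      rwa [inv_inv] at this
    have hwn := norm_le_one_of_isom hw1
    refine ⟨star w, hv, by rwa [norm_star], ?_, fun h' => absurd h (not_lt.2 h'), fun _ => ?_⟩
    · rw [min_eq_right h.le, S.eig_norm_sq hv, star_star, norm_of_isom hw1, S.norm_one]
      norm_num
    · rw [star_star, hw1]
  · subst h
    refine ⟨1, one_mem_eig, ?_, ?_, fun _ => by simp, fun _ => by simp⟩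
    · exact norm_le_one_of_isom (by simp)
    · rw [h1ξ]; simp
  · obtain ⟨w, hw, hw1, -⟩ := S.exists_isometry hγ one_mem_eig (star_one _) (one_mul 1) (by
      rw [h1ξ]; exact inv_lt_one_of_one_lt₀ h)
    refine ⟨w, hw, norm_le_one_of_isom hw1, ?_, fun _ => hw1, fun h' => absurd h (not_lt.2 h')⟩
    rw [min_eq_left h.le, norm_of_isom hw1, S.norm_one]
    norm_num

end AP

end Pool.Agent.Helper23

end

end
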