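import Pool.Agent.Helper23.FB.L01_a0
import Pool.Agent.Helper23.FB.L01_a11
import Pool.Agent.Helper23.FB.L01_a12
import Pool.Agent.Helper23.FB.L01_a13
import Pool.Agent.Helper23.FB.L01_a2
import Pool.Agent.Helper23.FB.L01_a3
import Pool.Agent.Helper23.FB.L01_a5
import Pool.Agent.Helper23.FB.L01_a8

/-!
Parts of Helper23.FA.L01_07, Helper23.FA.L01_17, Helper23.FA.L01_18, Helper23.FA.L01_14, Helper23.FA.L01_19, Helper23.FA.L01_00, Helper23.FA.L02_11, Helper23.FA.L02_03, Helper23.FA.L02_06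
-/

attribute [local instance 5000]
  Pool.Agent.Helper23.FB.Inst.rCharZero Pool.Agent.Helper23.FB.Inst.rALM
  Pool.Agent.Helper23.FB.Inst.rARM Pool.Agent.Helper23.FB.Inst.rALSM
  Pool.Agent.Helper23.FB.Inst.rARSM Pool.Agent.Helper23.FB.Inst.rARRLE
  Pool.Agent.Helper23.FB.Inst.rALRLE Pool.Agent.Helper23.FB.Inst.rARRLT
  Pool.Agent.Helper23.FB.Inst.rALRLT Pool.Agent.Helper23.FB.Inst.rPMRLT
  Pool.Agent.Helper23.FB.Inst.rMPRLT Pool.Agent.Helper23.FB.Inst.rPMM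
  Pool.Agent.Helper23.FB.Inst.rMPM Pool.Agent.Helper23.FB.Inst.rPMSM
  Pool.Agent.Helper23.FB.Inst.rMPSM Pool.Agent.Helper23.FB.Inst.rEAOL
  Pool.Agent.Helper23.FB.Inst.rIOR Pool.Agent.Helper23.FB.Inst.rISOR
  Pool.Agent.Helper23.FB.Inst.rFS Pool.Agent.Helper23.FB.Inst.rcCharZero
  Pool.Agent.Helper23.FB.Inst.rNZD Pool.Agent.Helper23.FB.Inst.rcNZD
  Pool.Agent.Helper23.FB.Inst.bSemiring Pool.Agent.Helper23.FB.Inst.bStar
  Pool.Agent.Helper23.FB.Inst.bAlg Pool.Agent.Helper23.FB.Inst.bSub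
  Pool.Agent.Helper23.FB.Inst.bMul Pool.Agent.Helper23.FB.Inst.bAdd
  Pool.Agent.Helper23.FB.Inst.iRing Pool.Agent.Helper23.FB.Inst.iSemiring
  Pool.Agent.Helper23.FB.Inst.iAlgC Pool.Agent.Helper23.FB.Inst.iSMulC
  Pool.Agent.Helper23.FB.Inst.iModC Pool.Agent.Helper23.FB.Inst.iAlgR
  Pool.Agent.Helper23.FB.Inst.iSMulR Pool.Agent.Helper23.FB.Inst.iModR
  Pool.Agent.Helper23.FB.Inst.iMonoid Pool.Agent.Helper23.FB.Inst.iSemigroup
  Pool.Agent.Helper23.FB.Inst.iMulOneClass Pool.Agent.Helper23.FB.Inst.iMul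
  Pool.Agent.Helper23.FB.Inst.iAdd Pool.Agent.Helper23.FB.Inst.iSub
  Pool.Agent.Helper23.FB.Inst.iNeg Pool.Agent.Helper23.FB.Inst.iAddCommMonoid
  Pool.Agent.Helper23.FB.Inst.iAddCommGroup Pool.Agent.Helper23.FB.Inst.iAddGroup
  Pool.Agent.Helper23.FB.Inst.iAddMonoid Pool.Agent.Helper23.FB.Inst.iSMulZeroC
  Pool.Agent.Helper23.FB.Inst.iMulActC Pool.Agent.Helper23.FB.Inst.iDSMulC
  Pool.Agent.Helper23.FB.Inst.iDSMulR Pool.Agent.Helper23.FB.Inst.iSNAG
  Pool.Agent.Helper23.FB.Inst.iSNACG Pool.Agent.Helper23.FB.Inst.iNorm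
  Pool.Agent.Helper23.FB.Inst.iNSC' Pool.Agent.Helper23.FB.Inst.iNSR'
  Pool.Agent.Helper23.FB.Inst.iTop Pool.Agent.Helper23.FB.Inst.iT2 Pool.Agent.Helper23.FB.Inst.iTR
  Pool.Agent.Helper23.FB.Inst.iSCC Pool.Agent.Helper23.FB.Inst.iIST
  Pool.Agent.Helper23.FB.Inst.iSCCR Pool.Agent.Helper23.FB.Inst.iISTR
  Pool.Agent.Helper23.FB.Inst.iZHC Pool.Agent.Helper23.FB.Inst.iAHC
  Pool.Agent.Helper23.FB.Inst.iAMHC Pool.Agent.Helper23.FB.Inst.iMAHC
  Pool.Agent.Helper23.FB.Inst.lTop Pool.Agent.Helper23.FB.Inst.lUnif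
  Pool.Agent.Helper23.FB.Inst.lACM Pool.Agent.Helper23.FB.Inst.lACG
  Pool.Agent.Helper23.FB.Inst.lSNAG Pool.Agent.Helper23.FB.Inst.lSNACG
  Pool.Agent.Helper23.FB.Inst.lNACG Pool.Agent.Helper23.FB.Inst.lNorm
  Pool.Agent.Helper23.FB.Inst.lIPS Pool.Agent.Helper23.FB.Inst.lMod
  Pool.Agent.Helper23.FB.Inst.lSMul Pool.Agent.Helper23.FB.Inst.lT2
  Pool.Agent.Helper23.FB.Inst.iStar Pool.Agent.Helper23.FB.Inst.iStarMul
  Pool.Agent.Helper23.FB.Inst.iStarAddMonoid Pool.Agent.Helper23.FB.Inst.iStarRing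
  Pool.Agent.Helper23.FB.Inst.iNSC Pool.Agent.Helper23.FB.Inst.iSOR
  Pool.Agent.Helper23.FB.Inst.iALM Pool.Agent.Helper23.FB.Inst.iARM
  Pool.Agent.Helper23.FB.Inst.iCFC Pool.Agent.Helper23.FB.Inst.iNCFC
  Pool.Agent.Helper23.FB.Inst.iStarModR Pool.Agent.Helper23.FB.Inst.iStarModC
  Pool.Agent.Helper23.FB.Inst.eStar Pool.Agent.Helper23.FB.Inst.eAdd
  Pool.Agent.Helper23.FB.Inst.eMul Pool.Agent.Helper23.FB.Inst.eOne
  Pool.Agent.Helper23.FB.Inst.eZero Pool.Agent.Helper23.FB.Inst.eMulAction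
  Pool.Agent.Helper23.FB.Inst.eAMHC2 Pool.Agent.Helper23.FB.Inst.eZHC2
  Pool.Agent.Helper23.FB.Inst.lAMHC

namespace Pool.Agent.Helper23.RBF
end Pool.Agent.Helper23.RBF

section

section

open scoped InnerProductSpace Topology ENNReal

open ContinuousLinearMap Filter MeasureTheory Polynomial

set_option linter.unusedSectionVars false

set_option linter.unusedVariables false

namespace Pool.Agent.Helper23

variable {H : Type*} [NormedAddCommGroup H] [InnerProductSpace ℂ H] [CompleteSpace H]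

variable {M N : VonNeumannAlgebra H} {ξ : H} {E : (H →L[ℂ] H) → (H →L[ℂ] H)}

lemma Pn_Pn (n : ℕ) (f : L2R ℂ) : Pn n (Pn n f) = Pn n f := by
  rw [Pn, mulOp_mulOp (ind_bm measurableSet_Ico) (ind_bm measurableSet_Ico), ind_sq]

end Pool.Agent.Helper23

end

end

section

section

open scoped InnerProductSpace Topology BoundedContinuousFunction

open ContinuousLinearMap Filter

namespace Pool.Agent.Helper23

variable {H : Type*} [NormedAddCommGroup H] [InnerProductSpace ℂ H] [CompleteSpace H]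

variable {M N : VonNeumannAlgebra H} {ξ : H} {E : (H →L[ℂ] H) → (H →L[ℂ] H)}

namespace AP

variable (S : AP M N E ξ)

include S

omit S in
lemma bicent_one : (1 : H →L[ℂ] H) ∈ Bicent M N ξ :=
  ⟨one_mem M, fun a _ η => by
    simp only [one_apply_eq_self, sub_self]
    exact tendsto_const_nhds⟩

omit S in
lemma bicent_add {x y : H →L[ℂ] H} (hx : x ∈ Bicent M N ξ) (hy : y ∈ Bicent M N ξ) :
    x + y ∈ Bicent M N ξ := by
  refine ⟨add_mem hx.1 hy.1, fun a ha η => ?_⟩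
  have h := (hx.2 a ha η).add (hy.2 a ha η)
  rw [add_zero] at h
  refine h.congr fun n => ?_
  rw [add_apply, add_apply, map_add]
  abel

omit S in
lemma bicent_smul (c : ℂ) {x : H →L[ℂ] H} (hx : x ∈ Bicent M N ξ) :
    c • x ∈ Bicent M N ξ := by
  refine ⟨smul_mem' c hx.1, fun a ha η => ?_⟩
  have h := (hx.2 a ha η).const_smul c
  rw [smul_zero] at h
  refine h.congr fun n => ?_
  rw [smul_apply, smul_apply, map_smul, smul_sub]

end AP

end Pool.Agent.Helper23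

end

section

open scoped InnerProductSpace Topology ENNReal

open ContinuousLinearMap Filter MeasureTheory

namespace Pool.Agent.Helper23

variable {H : Type*} [NormedAddCommGroup H] [InnerProductSpace ℂ H] [CompleteSpace H]

variable {M N : VonNeumannAlgebra H} {ξ : H} {E : (H →L[ℂ] H) → (H →L[ℂ] H)}

lemma bicent_sub {x y : H →L[ℂ] H} (hx : x ∈ Bicent M N ξ) (hy : y ∈ Bicent M N ξ) :
    x - y ∈ Bicent M N ξ := by
  have h1 : x - y = x + (-1 : ℂ) • y := by simp [sub_eq_add_neg]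
  rw [h1]
  exact AP.bicent_add hx (AP.bicent_smul _ hy)

lemma bicent_zero : (0 : H →L[ℂ] H) ∈ Bicent M N ξ := by
  have := AP.bicent_smul (M := M) (N := N) (ξ := ξ) 0 AP.bicent_one
  rwa [zero_smul] at this

end Pool.Agent.Helper23

end

end

section

section

open scoped InnerProductSpace Topology ENNReal

open ContinuousLinearMap Filter MeasureTheory Polynomial

set_option linter.unusedSectionVars false

set_option linter.unusedVariables false

namespace Pool.Agent.Helper23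

variable {H : Type*} [NormedAddCommGroup H] [InnerProductSpace ℂ H] [CompleteSpace H]

variable {M N : VonNeumannAlgebra H} {ξ : H} {E : (H →L[ℂ] H) → (H →L[ℂ] H)}

lemma eq_zero_of_Pn {f : L2R ℂ} {n0 : ℕ} (h : ∀ n, n0 ≤ n → Pn n f = 0) : f = 0 := by
  ext1
  have h1 : ∀ᵐ s, ∀ n : ℕ, (Pn n f) s = ind (Set.Ico (-(n : ℝ)) n) s • f s :=
    ae_all_iff.2 fun n => Pn_coe n f
  filter_upwards [h1, Lp.coeFn_zero ℂ 2 volume] with s hs h0
  rw [h0]
  obtain ⟨n, hn⟩ := exists_nat_gt (max |s| n0)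
  have hn1 : |s| < n := lt_of_le_of_lt (le_max_left _ _) hn
  have hn2 : n0 ≤ n := by
    have : (n0 : ℝ) < n := lt_of_le_of_lt (le_max_right _ _) hn
    exact_mod_cast this.le
  have hk := hs n
  rw [h n hn2, h0, ind_of_mem, one_smul] at hk
  · exact hk.symm
  · rw [abs_lt] at hn1
    exact ⟨hn1.1.le, hn1.2⟩

end Pool.Agent.Helper23

end

section

open scoped InnerProductSpace Topology ENNReal

open ContinuousLinearMap Filter MeasureTheory

namespace Pool.Agent.Helper23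

variable {H : Type*} [NormedAddCommGroup H] [InnerProductSpace ℂ H] [CompleteSpace H]

variable {M N : VonNeumannAlgebra H} {ξ : H} {E : (H →L[ℂ] H) → (H →L[ℂ] H)}

/-- the embedding of the bicentralizer -/
noncomputable def piU (M N : VonNeumannAlgebra H) (ξ : H) (x : H →L[ℂ] H) :
    L2R H →L[ℂ] L2R H := dec (fun s => btU M N ξ (Real.exp s) x)

end Pool.Agent.Helper23

end

end

section

section

open scoped InnerProductSpace Topology ENNReal

open ContinuousLinearMap Filter MeasureTheory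

namespace Pool.Agent.Helper23

variable {H : Type*} [NormedAddCommGroup H] [InnerProductSpace ℂ H] [CompleteSpace H]

variable {M N : VonNeumannAlgebra H} {ξ : H} {E : (H →L[ℂ] H) → (H →L[ℂ] H)}

namespace AP

variable (S : AP M N E ξ)

include S

omit S in
/-- choice of the number of steps -/
lemma exists_steps {κ K : ℝ} (hκ : 0 < κ) (hK : 0 ≤ K) {C L : ℝ} (hC : 0 < C) (hL : 0 ≤ L) :
    ∃ t₀ : ℝ, 0 < t₀ ∧ t₀ ≤ 1 / 2 ∧ ∀ t : ℝ, 0 < t → t < t₀ → ∃ n m : ℕ, 0 < n ∧ L ≤ m * t ∧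
      K * ((1 + 2 * t ^ 2) ^ n - 1) ≤ κ ∧ C * m ≤ n := by
  set η : ℝ := min (1 / 2) (κ / (2 * K + 1)) with hη
  have hη0 : 0 < η := by (clear * - hκ hK; positivity)
  have hη1 : η ≤ 1 / 2 := min_le_left _ _
  have hη2 : η ≤ κ / (2 * K + 1) := min_le_right _ _
  refine ⟨min (1 / 2) (min (η / 4) (η / (4 * C * (L + 1)))), by (clear * - hκ hK hC hL; positivity), min_le_left _ _,
    fun t ht htt => ?_⟩
  have ht1 : t ≤ 1 / 2 := (htt.le).trans (min_le_left _ _)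
  have ht2 : t ≤ η / 4 := (htt.le).trans ((min_le_right _ _).trans (min_le_left _ _))
  have ht3 : t ≤ η / (4 * C * (L + 1)) := (htt.le).trans ((min_le_right _ _).trans
    (min_le_right _ _))
  have h4 : 4 * t ^ 2 ≤ η := by (clear * - ht2 hη1 hη0 ht ht1; nlinarith)
  have ht2' : 0 < t ^ 2 := by (clear * - ht; positivity)
  have h5 : 1 ≤ η / (4 * t ^ 2) := by rw [le_div_iff₀ (by (clear * - ht; positivity))]; (clear * - h4; linarith)
  have h6 : η / (2 * t ^ 2) = 2 * (η / (4 * t ^ 2)) := by field_simp; norm_num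
  have hn1 : (⌊η / (2 * t ^ 2)⌋₊ : ℝ) ≤ η / (2 * t ^ 2) := Nat.floor_le (by (clear * - hκ hK ht; positivity))
  have hn2 : η / (2 * t ^ 2) < ⌊η / (2 * t ^ 2)⌋₊ + 1 := Nat.lt_floor_add_one _
  refine ⟨⌊η / (2 * t ^ 2)⌋₊, ⌈L / t⌉₊, ?_, ?_, ?_, ?_⟩
  · rw [Nat.floor_pos]; (clear * - hη1 ht ht2 h5 h6; linarith)
  · have := Nat.le_ceil (L / t)
    rwa [div_le_iff₀ ht] at this
  · have e1 : (1 + 2 * t ^ 2) ^ ⌊η / (2 * t ^ 2)⌋₊ ≤ Real.exp η := by
      calc (1 + 2 * t ^ 2) ^ ⌊η / (2 * t ^ 2)⌋₊ ≤ Real.exp (2 * t ^ 2) ^ ⌊η / (2 * t ^ 2)⌋₊ := by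
            gcongr
            have := Real.add_one_le_exp (2 * t ^ 2)
            (clear * - this; linarith)
        _ = Real.exp (⌊η / (2 * t ^ 2)⌋₊ * (2 * t ^ 2)) := by rw [← Real.exp_nat_mul]
        _ ≤ Real.exp η := by
            refine Real.exp_le_exp.2 ?_
            rwa [← le_div_iff₀ (by (clear * - ht; positivity))]
    have e2 : Real.exp η - 1 ≤ 2 * η := by
      have := Real.abs_exp_sub_one_le (x := η) (by rw [abs_of_pos hη0]; (clear * - hη1 ht ht2; linarith))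
      rw [abs_of_pos hη0] at this
      exact (le_abs_self _).trans this
    calc K * ((1 + 2 * t ^ 2) ^ ⌊η / (2 * t ^ 2)⌋₊ - 1) ≤ K * (2 * η) := by gcongr; (clear * - e1 e2; linarith)
      _ ≤ K * (2 * (κ / (2 * K + 1))) := by (clear * - hη2 hK; gcongr)
      _ ≤ κ := by
        rw [← mul_div_assoc, ← mul_div_assoc, div_le_iff₀ (by (clear * - hK; positivity))]
        (clear * - hκ; nlinarith)
  · have hm : (⌈L / t⌉₊ : ℝ) ≤ (L + 1) / t := by
      have h1 := Nat.ceil_lt_add_one (show 0 ≤ L / t by (clear * - hL ht; positivity))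
      have h2 : (1 : ℝ) ≤ 1 / t := by rw [le_div_iff₀ ht]; (clear * - hη1 ht ht2; linarith)
      rw [add_div]
      (clear * - h1 h2; linarith)
    have h7 : C * ((L + 1) / t) ≤ η / (4 * t ^ 2) := by
      rw [le_div_iff₀ (by (clear * - hC hL ht; positivity))] at ht3 ⊢
      have : C * ((L + 1) / t) * (4 * t ^ 2) = t * (4 * C * (L + 1)) := by
        field_simp
      rw [this]
      exact ht3
    have h8 : C * (⌈L / t⌉₊ : ℝ) ≤ C * ((L + 1) / t) := by (clear * - hm hC; gcongr)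
    (clear * - h5 h6 hn2 h7 h8; linarith)

end AP

end Pool.Agent.Helper23

end

end

section

section

open scoped InnerProductSpace Topology ENNReal

open ContinuousLinearMap Filter MeasureTheory Polynomial

set_option linter.unusedSectionVars false

set_option linter.unusedVariables false

namespace Pool.Agent.Helper23

variable {H : Type*} [NormedAddCommGroup H] [InnerProductSpace ℂ H] [CompleteSpace H]

variable {M N : VonNeumannAlgebra H} {ξ : H} {E : (H →L[ℂ] H) → (H →L[ℂ] H)}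

lemma inner_Pn (n : ℕ) (f g : L2R ℂ) : ⟪Pn n f, g⟫_ℂ = ⟪f, Pn n g⟫_ℂ := by
  have := mulOp_adj (ind_bm (measurableSet_Ico (a := -(n : ℝ)) (b := n))) f g
  rwa [ind_conj] at this

end Pool.Agent.Helper23

end

end

section

section

open scoped InnerProductSpace Topology BoundedContinuousFunction

open ContinuousLinearMap Filter

namespace Pool.Agent.Helper23

variable {H : Type*} [NormedAddCommGroup H] [InnerProductSpace ℂ H] [CompleteSpace H]

variable {M N : VonNeumannAlgebra H} {ξ : H} {E : (H →L[ℂ] H) → (H →L[ℂ] H)}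

namespace AP

variable (S : AP M N E ξ)

include S

omit S in
lemma bicent_mul {x y : H →L[ℂ] H} (hx : x ∈ Bicent M N ξ) (hy : y ∈ Bicent M N ξ) :
    x * y ∈ Bicent M N ξ := by
  refine ⟨mul_mem hx.1 hy.1, fun a ha η => ?_⟩
  have h1 := (x.continuous.tendsto 0).comp (hy.2 a ha η)
  rw [map_zero] at h1
  have h := h1.add (hx.2 a ha (y η))
  rw [add_zero] at h
  refine h.congr fun n => ?_
  change x (y (a n η) - a n (y η)) + (x (a n (y η)) - a n (x (y η))) =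
    x (y (a n η)) - a n (x (y η))
  rw [map_sub]
  abel

end AP

end Pool.Agent.Helper23

end

section

open scoped InnerProductSpace Topology BoundedContinuousFunction

open ContinuousLinearMap Filter

namespace Pool.Agent.Helper23

variable {H : Type*} [NormedAddCommGroup H] [InnerProductSpace ℂ H] [CompleteSpace H]

variable {M N : VonNeumannAlgebra H} {ξ : H} {E : (H →L[ℂ] H) → (H →L[ℂ] H)}

namespace Setting

variable (S : Setting M N E ξ)

include S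

/-- it suffices to test commutation on unitaries, at the vector `ξ`. -/
theorem bicent_of_unitary {x : H →L[ℂ] H} (hx : x ∈ M)
    (h : ∀ u, ACU N ξ u → Tendsto (fun n => x (u n ξ) - u n (x ξ)) atTop (𝓝 0)) :
    x ∈ Bicent M N ξ := by
  refine ⟨hx, fun a ha η => ?_⟩
  obtain ⟨haN, ⟨C, hC⟩, hD⟩ := ha
  have h2 : Tendsto (fun n => (x * a n - a n * x) ξ) atTop (𝓝 0) := by
    obtain ⟨k, b, hbN, hb1, hb2, hbD, hsum⟩ := exists_four S.norm_one haN hC hD
    exact tendsto_of_four hsum fun i => h _ ⟨hbN i, hb1 i, hb2 i, hbD i⟩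
  exact tendsto_of_bounded M S.dense_comm (x := fun n => x * a n - a n * x)
    (C := ‖x‖ * C + C * ‖x‖)
    (fun n => sub_mem (mul_mem hx (S.le _ (haN n))) (mul_mem (S.le _ (haN n)) hx))
    (fun n => (norm_sub_le _ _).trans (add_le_add
      ((norm_mul_le _ _).trans (mul_le_mul_of_nonneg_left (hC n) (norm_nonneg _)))
      ((norm_mul_le _ _).trans (mul_le_mul_of_nonneg_right (hC n) (norm_nonneg _))))) h2 η

/-- the bicentralizer is star closed -/
lemma bicent_star {x : H →L[ℂ] H} (hx : x ∈ Bicent M N ξ) : star x ∈ Bicent M N ξ := by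
  refine S.bicent_of_unitary (star_mem hx.1) fun u hu => ?_
  -- `star u x u → x` strongly
  have hT : ∀ η, Tendsto (fun n => (star (u n) * x * u n) η) atTop (𝓝 (x η)) := by
    intro η
    rw [tendsto_iff_norm_sub_tendsto_zero]
    refine (tendsto_zero_iff_norm_tendsto_zero.1 (hx.2 u (AP.ACU_lamSeq hu) η)).congr fun n => ?_
    have e1 : (star (u n) * x * u n) η - x η =
        (star (u n)) (x (u n η) - u n (x η)) := by
      rw [map_sub]
      have : (star (u n)) (u n (x η)) = x η :=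
        congrArg (fun T : H →L[ℂ] H => T (x η)) (hu.2.1 n)
      rw [this]; rfl
    rw [e1, norm_of_isom (by rw [star_star]; exact hu.2.2.1 n)]
  -- the state of `star u (x star x) u`
  have hφ : Tendsto (fun n => ⟪ξ, (star (u n) * (x * star x) * u n) ξ⟫_ℂ) atTop
      (𝓝 ⟪ξ, (x * star x) ξ⟫_ℂ) := by
    rw [tendsto_iff_norm_sub_tendsto_zero]
    rw [Metric.tendsto_atTop]
    intro ε hε
    have hxx : x * star x ∈ M := mul_mem hx.1 (star_mem hx.1)
    have hEx : E (x * star x) ∈ N := S.E_mem _ hxx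
    have h1 := hu.2.2.2 (ε / (2 * (‖E (x * star x)‖ + 1))) (by (clear * - hε; positivity))
    obtain ⟨n0, hn0⟩ := eventually_atTop.1 h1
    refine ⟨n0, fun n hn => ?_⟩
    have h2 := hn0 n hn (star (u n) * E (x * star x))
      (mul_mem (star_mem (hu.1 n)) hEx)
    rw [Real.dist_eq, sub_zero, abs_of_nonneg (norm_nonneg _)]
    have e1 : ⟪ξ, (star (u n) * (x * star x) * u n) ξ⟫_ℂ =
        ⟪ξ, (star (u n) * E (x * star x)) (u n ξ)⟫_ℂ := by
      rw [← S.E_state _ (mul_mem (mul_mem (star_mem (S.le _ (hu.1 n))) hxx) (S.le _ (hu.1 n))),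
        S.E_bimod _ (star_mem (hu.1 n)) _ (hu.1 n) _ hxx]
      rfl
    have e2 : ⟪ξ, (x * star x) ξ⟫_ℂ = ⟪ξ, u n ((star (u n) * E (x * star x)) ξ)⟫_ℂ := by
      rw [← S.E_state _ hxx]
      have : u n ((star (u n) * E (x * star x)) ξ) = E (x * star x) ξ :=
        congrArg (fun T : H →L[ℂ] H => T (E (x * star x) ξ)) (hu.2.2.1 n)
      rw [this]
    rw [e1, e2]
    rw [Complex.ofReal_one, one_mul] at h2
    refine lt_of_le_of_lt h2 ?_
    have e3 : ‖star (u n) * E (x * star x)‖ ≤ ‖E (x * star x)‖ := by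
      refine (norm_mul_le _ _).trans ?_
      rw [norm_star]
      calc ‖u n‖ * ‖E (x * star x)‖ ≤ 1 * ‖E (x * star x)‖ := by
            gcongr; exact norm_le_one_of_isom (hu.2.1 n)
        _ = _ := one_mul _
    calc ε / (2 * (‖E (x * star x)‖ + 1)) * ‖star (u n) * E (x * star x)‖ ≤
          ε / (2 * (‖E (x * star x)‖ + 1)) * (‖E (x * star x)‖ + 1) := by
            gcongr; (clear * - e3; linarith)
      _ = ε / 2 := by (clear * - hε; field_simp)
      _ < ε := by (clear * - hε; linarith)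
  -- the norms
  have hkey : ∀ n, ‖(star x) (u n ξ) - u n ((star x) ξ)‖ ^ 2 =
      (⟪ξ, (star (u n) * (x * star x) * u n) ξ⟫_ℂ).re + (⟪ξ, (x * star x) ξ⟫_ℂ).re -
        2 * (⟪ξ, (star (u n) * x * u n) ((star x) ξ)⟫_ℂ).re := by
    intro n
    have e1 : ‖(star x) (u n ξ)‖ ^ 2 = (⟪ξ, (star (u n) * (x * star x) * u n) ξ⟫_ℂ).re := by
      have h1 : ⟪ξ, (star (u n) * (x * star x) * u n) ξ⟫_ℂ =
          ⟪(star x) (u n ξ), (star x) (u n ξ)⟫_ℂ := by
        rw [inner_star_left]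
        change ⟪ξ, (star (u n)) ((x * star x) (u n ξ))⟫_ℂ = _
        rw [inner_star_right]; rfl
      rw [h1, inner_self_eq_norm_sq_to_K]
      norm_cast
    have e2 : ‖u n ((star x) ξ)‖ ^ 2 = (⟪ξ, (x * star x) ξ⟫_ℂ).re := by
      rw [norm_of_isom (hu.2.1 n)]
      have h1 : ⟪ξ, (x * star x) ξ⟫_ℂ = ⟪(star x) ξ, (star x) ξ⟫_ℂ := by
        rw [inner_star_left]; rfl
      rw [h1, inner_self_eq_norm_sq_to_K]
      norm_cast
    rw [@norm_sub_sq ℂ, e1, e2]
    have e3 : ⟪(star x) (u n ξ), u n ((star x) ξ)⟫_ℂ =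
        ⟪ξ, (star (u n) * x * u n) ((star x) ξ)⟫_ℂ := by
      rw [inner_star_left]
      change _ = ⟪ξ, (star (u n)) ((x * u n) ((star x) ξ))⟫_ℂ
      rw [inner_star_right]; rfl
    rw [e3]
    change _ - 2 * (⟪ξ, (star (u n) * x * u n) ((star x) ξ)⟫_ℂ).re + _ = _
    ring
  have hlim : Tendsto (fun n => ‖(star x) (u n ξ) - u n ((star x) ξ)‖ ^ 2) atTop (𝓝 0) := by
    simp only [hkey]
    have h1 : Tendsto (fun n => ⟪ξ, (star (u n) * x * u n) ((star x) ξ)⟫_ℂ) atTop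
        (𝓝 ⟪ξ, x ((star x) ξ)⟫_ℂ) := tendsto_const_nhds.inner (hT _)
    have h2 := (((Complex.continuous_re.tendsto _).comp hφ).add_const
      (⟪ξ, (x * star x) ξ⟫_ℂ).re).sub (((Complex.continuous_re.tendsto _).comp h1).const_mul 2)
    have e1 : (⟪ξ, (x * star x) ξ⟫_ℂ).re + (⟪ξ, (x * star x) ξ⟫_ℂ).re -
        2 * (⟪ξ, x ((star x) ξ)⟫_ℂ).re = 0 := by
      change (⟪ξ, x ((star x) ξ)⟫_ℂ).re + (⟪ξ, x ((star x) ξ)⟫_ℂ).re - _ = _
      ring
    rw [e1] at h2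
    exact h2
  rw [tendsto_zero_iff_norm_tendsto_zero]
  have h3 := (Real.continuous_sqrt.tendsto _).comp hlim
  rw [Real.sqrt_zero] at h3
  refine h3.congr fun n => ?_
  exact Real.sqrt_sq (norm_nonneg _)

end Setting

end Pool.Agent.Helper23

end

section

open scoped InnerProductSpace Topology ENNReal

open ContinuousLinearMap Filter MeasureTheory

namespace Pool.Agent.Helper23

variable {H : Type*} [NormedAddCommGroup H] [InnerProductSpace ℂ H] [CompleteSpace H]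

variable {M N : VonNeumannAlgebra H} {ξ : H} {E : (H →L[ℂ] H) → (H →L[ℂ] H)}

/-- The properties of the relative bicentralizer and its flow used in the construction of the
isomorphism. -/
structure BFlow (M N : VonNeumannAlgebra H) (E : (H →L[ℂ] H) → (H →L[ℂ] H)) (ξ : H) : Prop
    extends Setting M N E ξ where
  scal : ∀ x ∈ Bicent M N ξ, E x = ⟪ξ, x ξ⟫_ℂ • (1 : H →L[ℂ] H)
  bt_mem : ∀ x ∈ Bicent M N ξ, ∀ l : ℝ, 0 < l → btU M N ξ l x ∈ Bicent M N ξ
  bt_add : ∀ x ∈ Bicent M N ξ, ∀ y ∈ Bicent M N ξ, ∀ l : ℝ, 0 < l →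
    btU M N ξ l (x + y) = btU M N ξ l x + btU M N ξ l y
  bt_smul : ∀ c : ℂ, ∀ x ∈ Bicent M N ξ, ∀ l : ℝ, 0 < l →
    btU M N ξ l (c • x) = c • btU M N ξ l x
  bt_mul : ∀ x ∈ Bicent M N ξ, ∀ y ∈ Bicent M N ξ, ∀ l : ℝ, 0 < l →
    btU M N ξ l (x * y) = btU M N ξ l x * btU M N ξ l y
  bt_star : ∀ x ∈ Bicent M N ξ, ∀ l : ℝ, 0 < l →
    btU M N ξ l (star x) = star (btU M N ξ l x)
  bt_bt : ∀ x ∈ Bicent M N ξ, ∀ l : ℝ, 0 < l → ∀ m : ℝ, 0 < m →
    btU M N ξ l (btU M N ξ m x) = btU M N ξ (l * m) x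
  bt_one_act : ∀ x ∈ Bicent M N ξ, btU M N ξ 1 x = x
  bt_opNorm : ∀ x ∈ Bicent M N ξ, ∀ l : ℝ, 0 < l → ‖btU M N ξ l x‖ ≤ 2 * ‖x‖
  bt_state : ∀ x ∈ Bicent M N ξ, ∀ l : ℝ, 0 < l → ⟪ξ, btU M N ξ l x ξ⟫_ℂ = ⟪ξ, x ξ⟫_ℂ
  bt_cont : ∀ x ∈ Bicent M N ξ, ∀ v : H,
    ContinuousOn (fun l : ℝ => btU M N ξ l x v) (Set.Ioi 0)
  flow : ∀ x ∈ Bicent M N ξ, ∀ l : ℝ, 0 < l → ∀ a, LamSeq N ξ l a →
    Tendsto (fun n => a n (x ξ) - btU M N ξ l x (a n ξ)) atTop (𝓝 0)
  flow_uniq : ∀ x ∈ Bicent M N ξ, ∀ y ∈ M, ∀ l : ℝ, 0 < l →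
    (∀ a, LamSeq N ξ l a → Tendsto (fun n => (a n * x - y * a n) ξ) atTop (𝓝 0)) →
      y = btU M N ξ l x
  core : ∀ u ∈ GK N ξ, ∀ y ∈ Bicent M N ξ, ∀ κ : ℝ, 0 < κ → ∃ K : ℝ, 0 ≤ K ∧
    ∀ γ₀ : ℝ, 1 < γ₀ → Real.log γ₀ ≤ 1 / 2 → ∀ (m : ℕ) (g : L2R ℂ), g ≠ 0 →
      ∀ (B : Finset hw) (n : ℕ), 0 < n → K * ((1 + 2 * Real.log γ₀ ^ 2) ^ n - 1) ≤ κ →
        ∃ z ∈ Bicent M N ξ, ‖(z - btU M N ξ (γ₀ ^ m) y) ξ‖ ^ 2 ≤ 2 * κ ∧
          ∑ j ∈ Finset.Ico (-(m : ℤ)) m, ∑ i ∈ Finset.Ico (-(m : ℤ)) m, ∑ k ∈ B,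
            ‖(btU M N ξ (γ₀ ^ (i - m)) z * sa u (Real.log γ₀) g (i, k, j) -
              sa u (Real.log γ₀) g (i, k, j) * btU M N ξ (γ₀ ^ (j - m)) z) ξ‖ ^ 2 ≤
            96 * ‖g‖ ^ 2 * κ / n
  sl_mem : ∀ X ∈ Rk M N ξ, ∀ f g : L2R ℂ, slX X f g ∈ Bicent M N ξ
  sl_bt : ∀ X ∈ Rk M N ξ, ∀ (f g : L2R ℂ) (l : ℝ), 0 < l →
    btU M N ξ l (slX X f g) = slX X (tr ℂ (Real.log l) f) (tr ℂ (Real.log l) g)

namespace BFlow

variable (S : BFlow M N E ξ)

include S

lemma bt_exp_cont {x : H →L[ℂ] H} (hx : x ∈ Bicent M N ξ) (v : H) :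
    Continuous fun s : ℝ => btU M N ξ (Real.exp s) x v := by
  rw [← continuousOn_univ]
  exact (S.bt_cont x hx v).comp (Real.continuous_exp.continuousOn) fun s _ => Real.exp_pos s

/-- independence of the bicentralizer and `N` -/
lemma inner_BN {x a b : H →L[ℂ] H} (hx : x ∈ Bicent M N ξ) (ha : a ∈ N) (hb : b ∈ N) :
    ⟪a ξ, x (b ξ)⟫_ℂ = ⟪ξ, x ξ⟫_ℂ * ⟪a ξ, b ξ⟫_ℂ := by
  rw [← S.E_inner ha hb hx.1, S.scal x hx, smul_apply, one_apply_eq_self, inner_smul_right]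

lemma inner_BB {y z a b : H →L[ℂ] H} (hy : y ∈ Bicent M N ξ) (hz : z ∈ Bicent M N ξ)
    (ha : a ∈ N) (hb : b ∈ N) :
    ⟪y (a ξ), z (b ξ)⟫_ℂ = ⟪y ξ, z ξ⟫_ℂ * ⟪a ξ, b ξ⟫_ℂ := by
  have h := S.inner_BN (AP.bicent_mul (S.bicent_star hy) hz) ha hb
  change ⟪a ξ, (star y) (z (b ξ))⟫_ℂ = ⟪ξ, (star y) (z ξ)⟫_ℂ * _ at h
  rwa [inner_star_right, inner_star_right] at h

lemma bt_inner {x y : H →L[ℂ] H} (hx : x ∈ Bicent M N ξ) (hy : y ∈ Bicent M N ξ) {l : ℝ}
    (hl : 0 < l) : ⟪btU M N ξ l y ξ, btU M N ξ l x ξ⟫_ℂ = ⟪y ξ, x ξ⟫_ℂ := by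
  have h1 := S.bt_state (star y * x) (AP.bicent_mul (S.bicent_star hy) hx) l hl
  rw [S.bt_mul _ (S.bicent_star hy) _ hx l hl, S.bt_star _ hy l hl] at h1
  change ⟪ξ, (star (btU M N ξ l y)) (btU M N ξ l x ξ)⟫_ℂ = ⟪ξ, (star y) (x ξ)⟫_ℂ at h1
  rwa [inner_star_right, inner_star_right] at h1

end BFlow

end Pool.Agent.Helper23

end

end

section

section

open scoped InnerProductSpace Topology ENNReal

open ContinuousLinearMap Filter MeasureTheory

namespace Pool.Agent.Helper23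

variable {H : Type*} [NormedAddCommGroup H] [InnerProductSpace ℂ H] [CompleteSpace H]

variable {M N : VonNeumannAlgebra H} {ξ : H} {E : (H →L[ℂ] H) → (H →L[ℂ] H)}

namespace Setting

variable (S : Setting M N E ξ)

include S

/-- the state of `u* z u` for asymptotically central unitaries -/
lemma norm_ACU {u : ℕ → H →L[ℂ] H} (hu : ACU N ξ u) {z : H →L[ℂ] H} (hz : z ∈ M) :
    Tendsto (fun n => ‖z (u n ξ)‖) atTop (𝓝 ‖z ξ‖) := by
  have hφ : Tendsto (fun n => ⟪ξ, (star (u n) * (star z * z) * u n) ξ⟫_ℂ) atTop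
      (𝓝 ⟪ξ, (star z * z) ξ⟫_ℂ) := by
    rw [tendsto_iff_norm_sub_tendsto_zero]
    rw [Metric.tendsto_atTop]
    intro ε hε
    have hxx : star z * z ∈ M := mul_mem (star_mem hz) hz
    have hEx : E (star z * z) ∈ N := S.E_mem _ hxx
    have h1 := hu.2.2.2 (ε / (2 * (‖E (star z * z)‖ + 1))) (by (clear * - hε; positivity))
    obtain ⟨n0, hn0⟩ := eventually_atTop.1 h1
    refine ⟨n0, fun n hn => ?_⟩
    have h2 := hn0 n hn (star (u n) * E (star z * z))
      (mul_mem (star_mem (hu.1 n)) hEx)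
    rw [Real.dist_eq, sub_zero, abs_of_nonneg (norm_nonneg _)]
    have e1 : ⟪ξ, (star (u n) * (star z * z) * u n) ξ⟫_ℂ =
        ⟪ξ, (star (u n) * E (star z * z)) (u n ξ)⟫_ℂ := by
      rw [← S.E_state _ (mul_mem (mul_mem (star_mem (S.le _ (hu.1 n))) hxx) (S.le _ (hu.1 n))),
        S.E_bimod _ (star_mem (hu.1 n)) _ (hu.1 n) _ hxx]
      rfl
    have e2 : ⟪ξ, (star z * z) ξ⟫_ℂ = ⟪ξ, u n ((star (u n) * E (star z * z)) ξ)⟫_ℂ := by
      rw [← S.E_state _ hxx]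
      have : u n ((star (u n) * E (star z * z)) ξ) = E (star z * z) ξ :=
        congrArg (fun T : H →L[ℂ] H => T (E (star z * z) ξ)) (hu.2.2.1 n)
      rw [this]
    rw [e1, e2]
    rw [Complex.ofReal_one, one_mul] at h2
    refine lt_of_le_of_lt h2 ?_
    have e3 : ‖star (u n) * E (star z * z)‖ ≤ ‖E (star z * z)‖ := by
      refine (norm_mul_le _ _).trans ?_
      rw [norm_star]
      calc ‖u n‖ * ‖E (star z * z)‖ ≤ 1 * ‖E (star z * z)‖ := by
            gcongr; exact norm_le_one_of_isom (hu.2.1 n)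
        _ = _ := one_mul _
    calc ε / (2 * (‖E (star z * z)‖ + 1)) * ‖star (u n) * E (star z * z)‖ ≤
          ε / (2 * (‖E (star z * z)‖ + 1)) * (‖E (star z * z)‖ + 1) := by
            gcongr; (clear * - e3; linarith)
      _ = ε / 2 := by field_simp
      _ < ε := by (clear * - hε; linarith)
  have h1 : ∀ n, (⟪ξ, (star (u n) * (star z * z) * u n) ξ⟫_ℂ).re = ‖z (u n ξ)‖ ^ 2 := by
    intro n
    have h1 : ⟪ξ, (star (u n) * (star z * z) * u n) ξ⟫_ℂ = ⟪z (u n ξ), z (u n ξ)⟫_ℂ := by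
      change ⟪ξ, (star (u n)) ((star z) (z (u n ξ)))⟫_ℂ = _
      rw [inner_star_right, inner_star_right]
    rw [h1, inner_self_eq_norm_sq_to_K]
    norm_cast
  have h2 : (⟪ξ, (star z * z) ξ⟫_ℂ).re = ‖z ξ‖ ^ 2 := by
    have h1 : ⟪ξ, (star z * z) ξ⟫_ℂ = ⟪z ξ, z ξ⟫_ℂ := by
      change ⟪ξ, (star z) (z ξ)⟫_ℂ = _
      rw [inner_star_right]
    rw [h1, inner_self_eq_norm_sq_to_K]
    norm_cast
  have h3 := (Complex.continuous_re.tendsto _).comp hφ
  rw [h2] at h3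
  have h4 : Tendsto (fun n => ‖z (u n ξ)‖ ^ 2) atTop (𝓝 (‖z ξ‖ ^ 2)) := by
    refine h3.congr fun n => ?_
    exact h1 n
  have h5 := (Real.continuous_sqrt.tendsto _).comp h4
  rw [Real.sqrt_sq (norm_nonneg _)] at h5
  refine h5.congr fun n => ?_
  exact Real.sqrt_sq (norm_nonneg _)

/-- closedness of the bicentralizer -/
lemma bicent_of_closure {x : H →L[ℂ] H} (hx : x ∈ M)
    (h : x ξ ∈ closure {v : H | ∃ y ∈ Bicent M N ξ, v = y ξ}) : x ∈ Bicent M N ξ := by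
  refine S.bicent_of_unitary hx fun u hu => ?_
  rw [Metric.tendsto_atTop]
  intro ε hε
  obtain ⟨_, ⟨y, hy, rfl⟩, hd⟩ := Metric.mem_closure_iff.1 h (ε / 8) (by (clear * - hε; positivity))
  rw [dist_eq_norm] at hd
  obtain ⟨n0, hn0⟩ := Metric.tendsto_atTop.1 (hy.2 u (AP.ACU_lamSeq hu) ξ) (ε / 4)
    (by (clear * - hε; positivity))
  have hxy : x - y ∈ M := sub_mem hx hy.1
  obtain ⟨n1, hn1⟩ := Metric.tendsto_atTop.1 (S.norm_ACU hu hxy) (ε / 8) (by positivity)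
  refine ⟨max n0 n1, fun n hn => ?_⟩
  have h1 := hn0 n (le_trans (le_max_left _ _) hn)
  rw [dist_zero_right] at h1 ⊢
  have h2 : ‖(x - y) (u n ξ)‖ ≤ ε / 4 := by
    have h3 := hn1 n (le_trans (le_max_right _ _) hn)
    rw [Real.dist_eq] at h3
    have h4 := abs_lt.1 h3
    have h5 : ‖(x - y) ξ‖ < ε / 8 := hd
    (clear * - h4 h5; linarith)
  have h3 : ‖u n ((x - y) ξ)‖ ≤ ε / 4 := by
    rw [norm_of_isom (hu.2.1 n)]
    have h5 : ‖(x - y) ξ‖ < ε / 8 := hd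
    (clear * - hε h5; linarith)
  have e1 : x (u n ξ) - u n (x ξ) = (x - y) (u n ξ) - u n ((x - y) ξ) +
      (y (u n ξ) - u n (y ξ)) := by
    rw [sub_apply, sub_apply, map_sub]
    abel
  rw [e1]
  calc _ ≤ ‖(x - y) (u n ξ) - u n ((x - y) ξ)‖ + ‖y (u n ξ) - u n (y ξ)‖ := norm_add_le _ _
    _ ≤ (‖(x - y) (u n ξ)‖ + ‖u n ((x - y) ξ)‖) + ‖y (u n ξ) - u n (y ξ)‖ := by
        gcongr; exact norm_sub_le _ _
    _ < ε := by (clear * - hε h1 h2 h3; linarith)

end Setting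

end Pool.Agent.Helper23

end

section

open scoped InnerProductSpace Topology ENNReal BoundedContinuousFunction

open ContinuousLinearMap Filter MeasureTheory

namespace Pool.Agent.Helper23

variable {H : Type*} [NormedAddCommGroup H] [InnerProductSpace ℂ H] [CompleteSpace H]

variable {M N : VonNeumannAlgebra H} {ξ : H} {E : (H →L[ℂ] H) → (H →L[ℂ] H)}

open RBF

namespace Setting

variable (S : Setting M N E ξ)

include S

/-- the bicentralizer as a star subalgebra -/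
noncomputable def Bsub : StarSubalgebra ℂ (H →L[ℂ] H) where
  carrier := {x | x ∈ Bicent M N ξ}
  mul_mem' := fun hx hy => AP.bicent_mul hx hy
  add_mem' := fun hx hy => AP.bicent_add hx hy
  algebraMap_mem' := fun c => by
    rw [Algebra.algebraMap_eq_smul_one]
    exact AP.bicent_smul c AP.bicent_one
  star_mem' := fun hx => S.bicent_star hx

lemma mem_Bsub {x : H →L[ℂ] H} : x ∈ S.Bsub ↔ x ∈ Bicent M N ξ := Iff.rfl

lemma Bsub_bicomm {T : H →L[ℂ] H}
    (hT : T ∈ Set.centralizer (Set.centralizer (S.Bsub : Set (H →L[ℂ] H)))) : T ∈ Bicent M N ξ := by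
  rw [Set.mem_centralizer_iff] at hT
  have hM : ∀ m ∈ M.commutant, m ∈ Set.centralizer (S.Bsub : Set (H →L[ℂ] H)) := by
    intro m hm
    rw [Set.mem_centralizer_iff]
    intro y hy
    exact (mem_comm_iff.1 hm) y (S.mem_Bsub.1 hy).1
  have hQ : T ∈ M := mem_iff_commutes.2 fun m hm => hT m (hM m hm)
  refine S.bicent_of_closure hQ ?_
  set V : Submodule ℂ H := ((S.Bsub.toSubmodule).map (evξ ξ)).topologicalClosure with hV
  have hVc : IsClosed (V : Set H) := Submodule.isClosed_topologicalClosure _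
  have : CompleteSpace V := hVc.completeSpace_coe
  have hBV : ∀ y, y ∈ Bicent M N ξ → y ξ ∈ V := fun y hy =>
    Submodule.le_topologicalClosure _ ⟨y, hy, rfl⟩
  have hVcl : (V : Set H) = closure {v : H | ∃ y ∈ Bicent M N ξ, v = y ξ} := by
    have h1 : (V : Set H) = closure (((S.Bsub.toSubmodule).map (evξ ξ) : Submodule ℂ H) : Set H) :=
      Submodule.topologicalClosure_coe _
    rw [h1]
    congr 1
    ext v
    constructor
    · rintro ⟨y, hy, rfl⟩
      exact ⟨y, hy, rfl⟩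
    · rintro ⟨y, hy, rfl⟩
      exact ⟨y, hy, rfl⟩
  have hinv : ∀ y, y ∈ Bicent M N ξ → ∀ v ∈ V, y v ∈ V := by
    intro y hy v hv
    have h2 : v ∈ closure {v : H | ∃ y ∈ Bicent M N ξ, v = y ξ} := by
      rw [← hVcl]; exact hv
    have hsub : {v : H | ∃ y ∈ Bicent M N ξ, v = y ξ} ⊆ y ⁻¹' (V : Set H) := by
      rintro _ ⟨z, hz, rfl⟩
      exact hBV _ (AP.bicent_mul hy hz)
    exact closure_minimal hsub (hVc.preimage y.continuous) h2
  have hP : V.starProjection ∈ Set.centralizer (S.Bsub : Set (H →L[ℂ] H)) := by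
    rw [Set.mem_centralizer_iff]
    intro y hy
    have hy' : y ∈ Bicent M N ξ := hy
    ext v
    change y (V.starProjection v) = V.starProjection (y v)
    have h1 : y (V.starProjection v) ∈ V := hinv y hy' _ (Submodule.starProjection_apply_mem _ _)
    have h2 : V.starProjection (y (v - V.starProjection v)) = 0 := by
      rw [← inner_self_eq_zero (𝕜 := ℂ), Submodule.inner_starProjection_left_eq_right,
        Submodule.starProjection_eq_self_iff.2 (Submodule.starProjection_apply_mem _ _)]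
      rw [← inner_star_right y]
      have h3 : (star y) (V.starProjection (y (v - V.starProjection v))) ∈ V :=
        hinv _ (S.bicent_star hy') _ (Submodule.starProjection_apply_mem _ _)
      rw [inner_sub_left, Submodule.inner_starProjection_left_eq_right,
        Submodule.starProjection_eq_self_iff.2 h3, sub_self]
    rw [map_sub, map_sub, sub_eq_zero, Submodule.starProjection_eq_self_iff.2 h1] at h2
    exact h2.symm
  have h1 := hT _ hP
  have h2 := congrArg (fun T : H →L[ℂ] H => T ξ) h1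
  change V.starProjection (T ξ) = T (V.starProjection ξ) at h2
  have hξ : ξ ∈ V := by
    have := hBV 1 AP.bicent_one
    simpa using this
  rw [Submodule.starProjection_eq_self_iff.2 hξ] at h2
  rw [← hVcl, ← h2]
  exact Submodule.starProjection_apply_mem _ _

/-- the bicentralizer as a von Neumann algebra -/
noncomputable def Balg : VonNeumannAlgebra H where
  toStarSubalgebra := S.Bsub
  centralizer_centralizer' := by
    refine Set.Subset.antisymm (fun T hT => S.Bsub_bicomm hT) ?_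
    exact Set.subset_centralizer_centralizer

lemma mem_Balg {x : H →L[ℂ] H} : x ∈ S.Balg ↔ x ∈ Bicent M N ξ := Iff.rfl

lemma Balg_isBicentralizer : IsBicentralizer M N ξ S.Balg := by
  intro x
  rw [S.mem_Balg]
  rfl

end Setting

end Pool.Agent.Helper23

end

end

section

section

open scoped InnerProductSpace Topology ENNReal

open ContinuousLinearMap Filter MeasureTheory

set_option linter.unusedSectionVars false

set_option linter.unusedVariables false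

namespace Pool.Agent.Helper23

variable {H : Type*} [NormedAddCommGroup H] [InnerProductSpace ℂ H] [CompleteSpace H]

variable {A : VonNeumannAlgebra H}

/-- operators of the amplification are determined by their values on `f ⊗ ξ` -/
lemma amp_ext {ξ : H} (hd : Dense (orb A.commutant ξ : Set H)) {X Y : L2R H →L[ℂ] L2R H}
    (hX : X ∈ amp A) (hY : Y ∈ amp A) (h : ∀ f : L2R ℂ, X (ten f ξ) = Y (ten f ξ)) : X = Y := by
  refine op_ext fun f η => ?_
  have hcl : IsClosed {η : H | X (iot H f η) = Y (iot H f η)} :=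
    isClosed_eq (by fun_prop) (by fun_prop)
  have hsub : (orb A.commutant ξ : Set H) ⊆ {η : H | X (iot H f η) = Y (iot H f η)} := by
    rintro _ ⟨a, ha, rfl⟩
    change X (ten f (a ξ)) = Y (ten f (a ξ))
    rw [amp_ten hX ha, amp_ten hY ha, h]
  exact closure_minimal hsub hcl (hd η)

end Pool.Agent.Helper23

end

section

open scoped InnerProductSpace Topology ENNReal

open ContinuousLinearMap Filter MeasureTheory

namespace Pool.Agent.Helper23

variable {H : Type*} [NormedAddCommGroup H] [InnerProductSpace ℂ H] [CompleteSpace H]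

variable {M N : VonNeumannAlgebra H} {ξ : H} {E : (H →L[ℂ] H) → (H →L[ℂ] H)}

namespace BFlow

variable (S : BFlow M N E ξ)

include S

lemma bt_sub {x y : H →L[ℂ] H} (hx : x ∈ Bicent M N ξ) (hy : y ∈ Bicent M N ξ) {l : ℝ}
    (hl : 0 < l) : btU M N ξ l (x - y) = btU M N ξ l x - btU M N ξ l y := by
  have h1 : x - y = x + (-1 : ℂ) • y := by simp [sub_eq_add_neg]
  rw [h1, S.bt_add _ hx _ (AP.bicent_smul _ hy) l hl, S.bt_smul _ _ hy l hl]
  simp [sub_eq_add_neg]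

lemma inner_BK {y z : H →L[ℂ] H} (hy : y ∈ Bicent M N ξ) (hz : z ∈ Bicent M N ξ) {k k' : H}
    (hk : k ∈ K0 N ξ) (hk' : k' ∈ K0 N ξ) :
    ⟪y k, z k'⟫_ℂ = ⟪y ξ, z ξ⟫_ℂ * ⟪k, k'⟫_ℂ := by
  have h1 : ∀ b ∈ N, ∀ k ∈ K0 N ξ, ⟪y k, z (b ξ)⟫_ℂ = ⟪y ξ, z ξ⟫_ℂ * ⟪k, b ξ⟫_ℂ := by
    intro b hb k hk
    have hcl : IsClosed {k : H | ⟪y k, z (b ξ)⟫_ℂ = ⟪y ξ, z ξ⟫_ℂ * ⟪k, b ξ⟫_ℂ} :=
      isClosed_eq (by fun_prop) (by fun_prop)
    have hsub : (orb N ξ : Set H) ⊆ {k : H | ⟪y k, z (b ξ)⟫_ℂ = ⟪y ξ, z ξ⟫_ℂ * ⟪k, b ξ⟫_ℂ} := by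
      rintro _ ⟨a, ha, rfl⟩
      exact S.inner_BB hy hz ha hb
    exact closure_minimal hsub hcl hk
  have hcl : IsClosed {k' : H | ⟪y k, z k'⟫_ℂ = ⟪y ξ, z ξ⟫_ℂ * ⟪k, k'⟫_ℂ} :=
    isClosed_eq (by fun_prop) (by fun_prop)
  have hsub : (orb N ξ : Set H) ⊆ {k' : H | ⟪y k, z k'⟫_ℂ = ⟪y ξ, z ξ⟫_ℂ * ⟪k, k'⟫_ℂ} := by
    rintro _ ⟨b, hb, rfl⟩
    exact h1 b hb k hk
  exact closure_minimal hsub hcl hk'

lemma norm_BK {z : H →L[ℂ] H} (hz : z ∈ Bicent M N ξ) {k : H} (hk : k ∈ K0 N ξ) :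
    ‖z k‖ = ‖z ξ‖ * ‖k‖ := by
  have h := S.inner_BK hz hz hk hk
  simp only [inner_self_eq_norm_sq_to_K] at h
  have h2 : ‖z k‖ ^ 2 = (‖z ξ‖ * ‖k‖) ^ 2 := by
    have h3 : ((‖z k‖ ^ 2 : ℝ) : ℂ) = (((‖z ξ‖ * ‖k‖) ^ 2 : ℝ) : ℂ) := by
      push_cast
      rw [mul_pow]
      exact h
    exact Complex.ofReal_injective h3
  exact (pow_left_inj₀ (norm_nonneg _) (by (clear * -; positivity)) two_ne_zero).1 h2

lemma bt_norm {x : H →L[ℂ] H} (hx : x ∈ Bicent M N ξ) {l : ℝ} (hl : 0 < l) :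
    ‖btU M N ξ l x ξ‖ = ‖x ξ‖ := by
  have h1 := S.bt_inner hx hx hl
  rw [inner_self_eq_norm_sq_to_K, inner_self_eq_norm_sq_to_K] at h1
  have h2 : ‖btU M N ξ l x ξ‖ ^ 2 = ‖x ξ‖ ^ 2 := by exact_mod_cast h1
  exact (pow_left_inj₀ (norm_nonneg _) (norm_nonneg _) two_ne_zero).1 h2

lemma bt_norm_sub {x y : H →L[ℂ] H} (hx : x ∈ Bicent M N ξ) (hy : y ∈ Bicent M N ξ) {l : ℝ}
    (hl : 0 < l) : ‖btU M N ξ l x ξ - btU M N ξ l y ξ‖ = ‖x ξ - y ξ‖ := by
  have := S.bt_norm (bicent_sub hx hy) hl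
  rw [S.bt_sub hx hy hl] at this
  exact this

lemma piU_dec {x : H →L[ℂ] H} (hx : x ∈ Bicent M N ξ) :
    Dec (fun s : ℝ => btU M N ξ (Real.exp s) x) :=
  Dec.of_cont (C := 2 * ‖x‖) (by (clear * -; positivity)) (fun s => S.bt_opNorm x hx _ (Real.exp_pos s))
    (S.bt_exp_cont hx)

lemma piU_coe {x : H →L[ℂ] H} (hx : x ∈ Bicent M N ξ) (F : L2R H) :
    piU M N ξ x F =ᵐ[volume] fun s => btU M N ξ (Real.exp s) x (F s) := dec_coe (S.piU_dec hx) F

lemma piU_add {x y : H →L[ℂ] H} (hx : x ∈ Bicent M N ξ) (hy : y ∈ Bicent M N ξ) :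
    piU M N ξ (x + y) = piU M N ξ x + piU M N ξ y := by
  rw [piU, piU, piU, ← dec_add (S.piU_dec hx) (S.piU_dec hy)]
  congr 1
  funext s
  exact S.bt_add _ hx _ hy _ (Real.exp_pos s)

lemma piU_smul (c : ℂ) {x : H →L[ℂ] H} (hx : x ∈ Bicent M N ξ) :
    piU M N ξ (c • x) = c • piU M N ξ x := by
  rw [piU, piU, ← dec_smul c (S.piU_dec hx)]
  congr 1
  funext s
  exact S.bt_smul c _ hx _ (Real.exp_pos s)

lemma piU_sub {x y : H →L[ℂ] H} (hx : x ∈ Bicent M N ξ) (hy : y ∈ Bicent M N ξ) :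
    piU M N ξ (x - y) = piU M N ξ x - piU M N ξ y := by
  have h1 : x - y = x + (-1 : ℂ) • y := by simp [sub_eq_add_neg]
  rw [h1, S.piU_add hx (AP.bicent_smul _ hy), S.piU_smul _ hy]
  simp [sub_eq_add_neg]

lemma piU_mul {x y : H →L[ℂ] H} (hx : x ∈ Bicent M N ξ) (hy : y ∈ Bicent M N ξ) :
    piU M N ξ (x * y) = piU M N ξ x * piU M N ξ y := by
  ext F : 1
  change _ = piU M N ξ x (piU M N ξ y F)
  rw [piU, piU, piU, dec_comp (S.piU_dec hx) (S.piU_dec hy)]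
  congr 2
  funext s
  exact S.bt_mul _ hx _ hy _ (Real.exp_pos s)

lemma piU_star {x : H →L[ℂ] H} (hx : x ∈ Bicent M N ξ) :
    piU M N ξ (star x) = star (piU M N ξ x) := by
  rw [ContinuousLinearMap.star_eq_adjoint (piU M N ξ x), ContinuousLinearMap.eq_adjoint_iff]
  intro F F'
  refine dec_adj (S.piU_dec hx) (S.piU_dec (S.bicent_star hx)) (fun s v w => ?_) F F'
  rw [S.bt_star _ hx _ (Real.exp_pos s), inner_star_left]

lemma piU_mem {x : H →L[ℂ] H} (hx : x ∈ Bicent M N ξ) : piU M N ξ x ∈ amp M :=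
  dec_mem_amp (S.piU_dec hx) fun s => (S.bt_mem _ hx _ (Real.exp_pos s)).1

/-- inner products of vectors of the form `π(x) G` -/
lemma inner_piU {x y : H →L[ℂ] H} (hx : x ∈ Bicent M N ξ) (hy : y ∈ Bicent M N ξ)
    {G G' : L2R H} (hG : ∀ᵐ s, G s ∈ K0 N ξ) (hG' : ∀ᵐ s, G' s ∈ K0 N ξ) :
    ⟪piU M N ξ y G, piU M N ξ x G'⟫_ℂ = ⟪y ξ, x ξ⟫_ℂ * ⟪G, G'⟫_ℂ := by
  rw [L2.inner_def, L2.inner_def, ← integral_const_mul]
  refine integral_congr_ae ?_
  filter_upwards [S.piU_coe hx G', S.piU_coe hy G, hG, hG'] with s h1 h2 h3 h4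
  rw [h1, h2, S.inner_BK (S.bt_mem _ hy _ (Real.exp_pos s)) (S.bt_mem _ hx _ (Real.exp_pos s))
    h3 h4, S.bt_inner hx hy (Real.exp_pos s)]

lemma inner_piU_ten {x y : H →L[ℂ] H} (hx : x ∈ Bicent M N ξ) (hy : y ∈ Bicent M N ξ)
    (f g : L2R ℂ) :
    ⟪piU M N ξ y (ten f ξ), piU M N ξ x (ten g ξ)⟫_ℂ = ⟪y ξ, x ξ⟫_ℂ * ⟪f, g⟫_ℂ := by
  rw [S.inner_piU hx hy (ten_ae_mem f S.xi_mem_K0) (ten_ae_mem g S.xi_mem_K0), inner_ten,
    S.inner_self, mul_one]

/-- `π(x)` commutes with multiplications -/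
lemma piU_mulOp {x : H →L[ℂ] H} (hx : x ∈ Bicent M N ξ) {m : ℝ → ℂ} (hm : BM m) (F : L2R H) :
    mulOp H m (piU M N ξ x F) = piU M N ξ x (mulOp H m F) := by
  ext1
  filter_upwards [mulOp_coe hm (piU M N ξ x F), S.piU_coe hx F,
    S.piU_coe hx (mulOp H m F), mulOp_coe hm F] with s h1 h2 h3 h4
  rw [h1, h2, h3, h4, map_smul]

lemma piU_norm {x : H →L[ℂ] H} (hx : x ∈ Bicent M N ξ) : ‖piU M N ξ x‖ ≤ 2 * ‖x‖ :=
  dec_norm (by (clear * -; positivity)) fun s => S.bt_opNorm _ hx _ (Real.exp_pos s)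

lemma piU_inj {x y : H →L[ℂ] H} (hx : x ∈ Bicent M N ξ) (hy : y ∈ Bicent M N ξ)
    (h : piU M N ξ x = piU M N ξ y) : x = y := by
  have hxy := bicent_sub hx hy
  have h1 : piU M N ξ (x - y) = 0 := by rw [S.piU_sub hx hy, h, sub_self]
  have h2 := S.inner_piU_ten hxy hxy e0 e0
  have he0 : ⟪e0, e0⟫_ℂ = 1 := by
    rw [inner_self_eq_norm_sq_to_K, e0_norm]; simp
  rw [h1, zero_apply, inner_zero_left, he0, mul_one] at h2
  exact sub_eq_zero.1 (S.sep _ hxy.1 (inner_self_eq_zero.1 h2.symm))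

end BFlow

end Pool.Agent.Helper23

end

section

open scoped InnerProductSpace Topology ENNReal

open ContinuousLinearMap Filter MeasureTheory

namespace Pool.Agent.Helper23

variable {H : Type*} [NormedAddCommGroup H] [InnerProductSpace ℂ H] [CompleteSpace H]

variable {M N : VonNeumannAlgebra H} {ξ : H} {E : (H →L[ℂ] H) → (H →L[ℂ] H)}

namespace BFlow

variable (S : BFlow M N E ξ)

include S

/-- local closeness of the block diagonal operator -/
lemma bt_sub_bt {y : H →L[ℂ] H} (hy : y ∈ Bicent M N ξ) {κ : ℝ} {γ₀ : ℝ}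
    (hγ0 : 0 < γ₀) (m : ℕ) {z : H →L[ℂ] H}
    (hz : z ∈ Bicent M N ξ) (hzy : ‖(z - btU M N ξ (γ₀ ^ m) y) ξ‖ ^ 2 ≤ 2 * κ)
    (hmod : ∀ r : ℝ, 0 ≤ r → r < Real.log γ₀ →
      ‖btU M N ξ (Real.exp r) y ξ - y ξ‖ ≤ Real.sqrt κ)
    {i : ℤ} {s : ℝ} (hs : s ∈ win (Real.log γ₀) i) :
    ‖(btU M N ξ (Real.exp s) y - btU M N ξ (γ₀ ^ (i - m)) z) ξ‖ ≤
      Real.sqrt κ + Real.sqrt (2 * κ) := by
  set t := Real.log γ₀ with ht
  have hi : 0 < γ₀ ^ i := zpow_pos hγ0 i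
  have him : 0 < γ₀ ^ (i - m) := zpow_pos hγ0 _
  have hm : 0 < γ₀ ^ m := pow_pos hγ0 m
  set r := s - i * t with hr
  have hr0 : 0 ≤ r := by have := hs.1; (clear * - this; linarith)
  have hr1 : r < t := by have := hs.2; rw [hr]; linarith
  have e1 : btU M N ξ (Real.exp s) y = btU M N ξ (γ₀ ^ i) (btU M N ξ (Real.exp r) y) := by
    rw [S.bt_bt _ hy _ hi _ (Real.exp_pos r)]
    congr 1
    rw [← Real.rpow_intCast, Real.rpow_def_of_pos hγ0, ← Real.exp_add, hr, ← ht]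
    congr 1
    ring
  have e2 : btU M N ξ (γ₀ ^ i) y = btU M N ξ (γ₀ ^ (i - m)) (btU M N ξ (γ₀ ^ m) y) := by
    rw [S.bt_bt _ hy _ him _ hm]
    congr 1
    rw [← zpow_natCast, ← zpow_add₀ hγ0.ne', sub_add_cancel]
  have hbr := S.bt_mem y hy _ (Real.exp_pos r)
  have h1 : ‖btU M N ξ (Real.exp s) y ξ - btU M N ξ (γ₀ ^ i) y ξ‖ ≤ Real.sqrt κ := by
    rw [e1, S.bt_norm_sub hbr hy hi]
    exact hmod r hr0 hr1
  have h2 : ‖btU M N ξ (γ₀ ^ i) y ξ - btU M N ξ (γ₀ ^ (i - m)) z ξ‖ ≤ Real.sqrt (2 * κ) := by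
    rw [e2, S.bt_norm_sub (S.bt_mem y hy _ hm) hz him, norm_sub_rev]
    exact Real.le_sqrt_of_sq_le hzy
  calc ‖(btU M N ξ (Real.exp s) y - btU M N ξ (γ₀ ^ (i - m)) z) ξ‖ =
        ‖(btU M N ξ (Real.exp s) y ξ - btU M N ξ (γ₀ ^ i) y ξ) +
          (btU M N ξ (γ₀ ^ i) y ξ - btU M N ξ (γ₀ ^ (i - m)) z ξ)‖ := by
          rw [sub_add_sub_cancel]; rfl
    _ ≤ _ := (norm_add_le _ _).trans (add_le_add h1 h2)

/-- the two error terms -/
lemma err_blk {y : H →L[ℂ] H} (hy : y ∈ Bicent M N ξ) {t : ℝ} (ht : 0 < t) {A : Finset ℤ}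
    {z : ℤ → H →L[ℂ] H} (hz : ∀ i, z i ∈ Bicent M N ξ) {e : ℝ} (he : 0 ≤ e)
    (h : ∀ i ∈ A, ∀ s ∈ win t i, ‖(btU M N ξ (Real.exp s) y - z i) ξ‖ ≤ e)
    {F : L2R H} (hF : ∀ᵐ s, F s ∈ K0 N ξ) :
    ∑ i ∈ A, ‖mulOp H (ind (win t i)) (piU M N ξ y F - blk t A z F)‖ ^ 2 ≤
      e ^ 2 * ‖F‖ ^ 2 := by
  have h1 : ∀ i ∈ A, ‖mulOp H (ind (win t i)) (piU M N ξ y F - blk t A z F)‖ ^ 2 ≤
      e ^ 2 * ‖mulOp H (ind (win t i)) F‖ ^ 2 := by
    intro i hi
    rw [← mul_pow]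
    refine pow_le_pow_left₀ (norm_nonneg _) ?_ 2
    rw [map_sub, blk_win ht hi]
    refine Lp.norm_le_mul_norm_of_ae_le_mul ?_
    filter_upwards [Lp.coeFn_sub (mulOp H (ind (win t i)) (piU M N ξ y F))
      (mulOp H (ind (win t i)) (lift (z i) F)), mulOp_coe (ind_bm (win_meas t i)) (piU M N ξ y F),
      mulOp_coe (ind_bm (win_meas t i)) (lift (z i) F), S.piU_coe hy F, lift_coe (z i) F,
      mulOp_coe (ind_bm (win_meas t i)) F, hF] with s e1 e2 e3 e4 e5 e6 e7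
    rw [e1, Pi.sub_apply, e2, e3, e4, e5, e6, ← smul_sub, norm_smul, norm_smul]
    by_cases hs : s ∈ win t i
    · rw [ind_of_mem hs, norm_one, one_mul, one_mul, ← sub_apply,
        S.norm_BK (bicent_sub (S.bt_mem _ hy _ (Real.exp_pos s)) (hz i)) e7]
      gcongr
      exact h i hi s hs
    · rw [ind_of_notMem hs, norm_zero, zero_mul, zero_mul, mul_zero]
  refine (Finset.sum_le_sum h1).trans ?_
  rw [← Finset.mul_sum]
  gcongr
  exact bessel_win ht A F

/-- the main estimate -/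
theorem est {u : L2R H →L[ℂ] L2R H} (hu : u ∈ GK N ξ) {y : H →L[ℂ] H} (hy : y ∈ Bicent M N ξ)
    {g : L2R ℂ} {ng : ℕ} (hg0 : g ≠ 0) (hg : Pn ng g = g) {κ : ℝ} (hκ : 0 < κ) :
    ‖u (piU M N ξ y (ten g ξ)) - piU M N ξ y (u (ten g ξ))‖ ^ 2 ≤ (4 + 48 * ‖g‖ ^ 2) * κ := by
  classical
  set X := piU M N ξ y with hX
  set D := u (X (ten g ξ)) - X (u (ten g ξ)) with hD
  obtain ⟨K, hK, hcore⟩ := S.core u hu y hy κ hκ
  have hgn : 0 < ‖g‖ ^ 2 := by (clear * - hg0; positivity)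
  -- the cut-off
  obtain ⟨L0, hL0⟩ := Metric.tendsto_atTop.1 (GKW.cut_tendsto D) (Real.sqrt κ)
    (Real.sqrt_pos.2 hκ)
  set L : ℕ := max L0 ng with hL
  have hcut : ‖D - mulOp H (ind (Set.Ico (-(L : ℝ)) L)) D‖ ^ 2 ≤ κ := by
    have h1 := hL0 L (le_max_left _ _)
    rw [dist_eq_norm, norm_sub_rev] at h1
    have h2 := pow_le_pow_left₀ (norm_nonneg _) h1.le 2
    rwa [Real.sq_sqrt hκ.le] at h2
  have hgL : Pn L g = g := Pn_mono (le_max_right _ _) hg
  -- the modulus of continuity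
  obtain ⟨t₁, ht₁, hmod⟩ := Metric.continuousAt_iff.1
    ((S.bt_exp_cont hy ξ).continuousAt (x := 0)) (Real.sqrt κ) (Real.sqrt_pos.2 hκ)
  -- the parameters
  obtain ⟨t₀, ht₀, ht₀', hst⟩ := AP.exists_steps (κ := κ) (K := K) (C := 192 * ‖g‖ ^ 2)
    (L := (L : ℝ)) hκ hK (by (clear * - hg0; positivity)) (by (clear * -; positivity))
  set t : ℝ := min t₀ t₁ / 2 with htdef
  have hmin : 0 < min t₀ t₁ := lt_min ht₀ ht₁
  have ht0 : 0 < t := by (clear * - ht₀ ht₁; positivity)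
  have htm : t < min t₀ t₁ := by rw [htdef]; (clear * - htdef ht0; linarith)
  set γ₀ : ℝ := Real.exp t with hγ₀
  have hγ0 : 0 < γ₀ := Real.exp_pos t
  have h1 : 1 < γ₀ := Real.one_lt_exp_iff.2 ht0
  have hlog : Real.log γ₀ = t := Real.log_exp t
  have htt₀ : t < t₀ := lt_of_lt_of_le htm (min_le_left _ _)
  have htt₁ : t < t₁ := lt_of_lt_of_le htm (min_le_right _ _)
  obtain ⟨n, m, hn, hLm, hnK, hCm⟩ := hst t ht0 htt₀
  have hmod' : ∀ r : ℝ, 0 ≤ r → r < Real.log γ₀ →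
      ‖btU M N ξ (Real.exp r) y ξ - y ξ‖ ≤ Real.sqrt κ := by
    intro r hr0 hr1
    rw [hlog] at hr1
    have h3 : dist r 0 < t₁ := by
      rw [Real.dist_eq, sub_zero, abs_of_nonneg hr0]
      exact hr1.trans htt₁
    have h4 := hmod h3
    rw [dist_eq_norm, Real.exp_zero, S.bt_one_act _ hy] at h4
    exact h4.le
  set A := Finset.Ico (-(m : ℤ)) m with hA
  have hAcard : (A.card : ℝ) = 2 * m := by
    rw [hA, Int.card_Ico]
    have : ((m : ℤ) - -(m : ℤ)).toNat = 2 * m := by omega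
    rw [this]
    push_cast
    ring
  obtain ⟨B, hB⟩ := exists_finite (t := t) A D hκ
  obtain ⟨z, hz, hzy, hcore⟩ := hcore γ₀ h1 (by rw [hlog]; (clear * - ht₀' htt₀; linarith)) m g hg0 B n hn
    (by rw [hlog]; exact hnK)
  rw [hlog] at hcore
  set zi : ℤ → H →L[ℂ] H := fun i => btU M N ξ (γ₀ ^ (i - m)) z with hzi
  have hziQ : ∀ i, zi i ∈ Bicent M N ξ := fun i => S.bt_mem _ hz _ (zpow_pos hγ0 _)
  set e : ℝ := Real.sqrt κ + Real.sqrt (2 * κ) with he
  have he0 : 0 ≤ e := by positivity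
  have he2 : e ^ 2 ≤ 6 * κ := sqrt_add_sqrt_sq hκ.le
  have hclose : ∀ i ∈ A, ∀ s ∈ win t i, ‖(btU M N ξ (Real.exp s) y - zi i) ξ‖ ≤ e :=
    fun i _ s hs => S.bt_sub_bt hy hγ0 m hz hzy hmod' (by rw [hlog]; exact hs)
  set Zt := blk t A zi with hZt
  set V := u (Zt (ten g ξ)) - Zt (u (ten g ξ)) with hV
  set R1 := X (ten g ξ) - Zt (ten g ξ) with hR1
  set R2 := X (u (ten g ξ)) - Zt (u (ten g ξ)) with hR2
  have hDV : D - V = u R1 - R2 := by
    rw [hD, hV, hR1, hR2, map_sub]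
    abel
  have hgten : mulOp H (ind (Set.Ico (-(L : ℝ)) L)) (ten g ξ) = ten g ξ := by
    rw [mulOp_ten (ind_bm measurableSet_Ico)]
    change ten (Pn L g) ξ = _
    rw [hgL]
  have hgt : ‖ten g ξ‖ = ‖g‖ := by rw [norm_ten, S.norm_one, mul_one]
  have hR1n : ‖R1‖ ^ 2 ≤ e ^ 2 * ‖g‖ ^ 2 := by
    have c1 := norm_le_win ht0 (m := m) (L := L) hLm R1
    have c2 : mulOp H (ind (Set.Ico (-(L : ℝ)) L)) R1 = R1 := by
      rw [hR1, map_sub, S.piU_mulOp hy (ind_bm measurableSet_Ico),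
        blk_mulOp A zi (ind_bm measurableSet_Ico), hgten]
    rw [c2, sub_self, norm_zero] at c1
    have c3 := S.err_blk hy ht0 hziQ he0 hclose (F := ten g ξ) (ten_ae_mem g S.xi_mem_K0)
    rw [hgt] at c3
    have c4 : (0 : ℝ) ^ 2 = 0 := by norm_num
    rw [c4, add_zero] at c1
    exact c1.trans c3
  have hR2n : ∑ i ∈ A, ‖mulOp H (ind (win t i)) R2‖ ^ 2 ≤ e ^ 2 * ‖g‖ ^ 2 := by
    have c3 := S.err_blk hy ht0 hziQ he0 hclose (F := u (ten g ξ)) (GK_slice_mem hu.1 g)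
    rw [norm_of_isom hu.2.1, hgt] at c3
    exact c3
  have hDVn : ∑ i ∈ A, ‖mulOp H (ind (win t i)) (D - V)‖ ^ 2 ≤ 4 * (e ^ 2 * ‖g‖ ^ 2) := by
    have c1 : ∀ i ∈ A, ‖mulOp H (ind (win t i)) (D - V)‖ ^ 2 ≤
        2 * ‖mulOp H (ind (win t i)) (u R1)‖ ^ 2 + 2 * ‖mulOp H (ind (win t i)) R2‖ ^ 2 := by
      intro i _
      rw [hDV, map_sub, sub_eq_add_neg]
      have := two_sq (mulOp H (ind (win t i)) (u R1)) (-(mulOp H (ind (win t i)) R2))
      rwa [norm_neg] at this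
    refine (Finset.sum_le_sum c1).trans ?_
    rw [Finset.sum_add_distrib, ← Finset.mul_sum, ← Finset.mul_sum]
    have c2 := bessel_win ht0 A (u R1)
    rw [norm_of_isom hu.2.1] at c2
    (clear * - hR1n hR2n c2; linarith)
  -- the components of `D`
  have hcomp : ∀ i ∈ A, ∀ k ∈ B, ‖sl (mulOp ℂ (ind (win t i)) (hb k)) D‖ ^ 2 ≤
      2 * ((2 * m) * ∑ j ∈ A, ‖(zi i * sa u t g (i, k, j) - sa u t g (i, k, j) * zi j) ξ‖ ^ 2) +
        2 * ‖sl (hb k) (mulOp H (ind (win t i)) (D - V))‖ ^ 2 := by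
    intro i hi k _
    have c1 : sl (mulOp ℂ (ind (win t i)) (hb k)) D =
        sl (mulOp ℂ (ind (win t i)) (hb k)) V +
          sl (hb k) (mulOp H (ind (win t i)) (D - V)) := by
      have c2 : sl (hb k) (mulOp H (ind (win t i)) (D - V)) =
          sl (mulOp ℂ (ind (win t i)) (hb k)) (D - V) := by
        rw [sl_mulOp' (ind_bm (win_meas t i)), ind_conj]
      rw [c2, ← map_add, add_sub_cancel]
    rw [c1]
    refine (two_sq _ _).trans ?_
    gcongr
    have hgsup : ∀ᵐ s, s ∉ Set.Ico (-(m * t)) (m * t) → g s = 0 := by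
      filter_upwards [Pn_ae hgL] with s hs h
      refine hs fun hcon => h ⟨?_, ?_⟩
      · (clear * - hLm hcon; linarith [hcon.1])
      · (clear * - hLm hcon; linarith [hcon.2])
    have c3 := comp_blk (ξ := ξ) ht0 hA zi u hgsup hi k
    rw [← hZt, ← hV] at c3
    rw [c3]
    have c4 : ‖∑ j ∈ A, (sa u t g (i, k, j) * zi j - zi i * sa u t g (i, k, j)) ξ‖ ≤
        ∑ j ∈ A, ‖(zi i * sa u t g (i, k, j) - sa u t g (i, k, j) * zi j) ξ‖ := by
      refine (norm_sum_le _ _).trans (le_of_eq (Finset.sum_congr rfl fun j _ => ?_))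
      rw [← norm_neg, ← neg_apply, neg_sub]
    have c5 := pow_le_pow_left₀ (norm_nonneg _) c4 2
    refine c5.trans ?_
    have c6 := sq_sum_le_card_mul_sum_sq (s := A)
      (f := fun j => ‖(zi i * sa u t g (i, k, j) - sa u t g (i, k, j) * zi j) ξ‖)
    rw [hAcard] at c6
    exact c6
  have htot : ∑ i ∈ A, ∑ k ∈ B, ‖sl (mulOp ℂ (ind (win t i)) (hb k)) D‖ ^ 2 ≤
      2 * ((2 * m) * (96 * ‖g‖ ^ 2 * κ / n)) + 2 * (4 * (e ^ 2 * ‖g‖ ^ 2)) := by
    have d1 : ∑ i ∈ A, ∑ k ∈ B, ‖sl (mulOp ℂ (ind (win t i)) (hb k)) D‖ ^ 2 ≤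
        ∑ i ∈ A, ∑ k ∈ B, (2 * ((2 * m) * ∑ j ∈ A,
          ‖(zi i * sa u t g (i, k, j) - sa u t g (i, k, j) * zi j) ξ‖ ^ 2) +
        2 * ‖sl (hb k) (mulOp H (ind (win t i)) (D - V))‖ ^ 2) :=
      Finset.sum_le_sum fun i hi => Finset.sum_le_sum fun k hk => hcomp i hi k hk
    refine d1.trans ?_
    simp only [Finset.sum_add_distrib, ← Finset.mul_sum]
    have d2 : ∑ i ∈ A, ∑ k ∈ B, ∑ j ∈ A,
        ‖(zi i * sa u t g (i, k, j) - sa u t g (i, k, j) * zi j) ξ‖ ^ 2 ≤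
        96 * ‖g‖ ^ 2 * κ / n := by
      refine le_trans (le_of_eq ?_) hcore
      rw [Finset.sum_comm (s := A) (t := A)]
      refine Finset.sum_congr rfl fun i _ => ?_
      rw [Finset.sum_comm]
    have d3 : ∑ i ∈ A, ∑ k ∈ B, ‖sl (hb k) (mulOp H (ind (win t i)) (D - V))‖ ^ 2 ≤
        4 * (e ^ 2 * ‖g‖ ^ 2) :=
      (Finset.sum_le_sum fun i _ => bessel_sq B _).trans hDVn
    (clear * - d2 d3; gcongr)
  have hlast : (2 * m) * (96 * ‖g‖ ^ 2 * κ / n) ≤ κ :=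
    last_le hκ.le (by exact_mod_cast hn) hCm
  have hfin := norm_le_win ht0 (m := m) (L := L) hLm D
  rw [← hA] at hfin
  have he3 : e ^ 2 * ‖g‖ ^ 2 ≤ 6 * κ * ‖g‖ ^ 2 := by (clear * - he2 hg0; gcongr)
  exact fin_le hfin hB hcut htot hlast he3

/-- Elements of the bicentralizer commute with the centralizer of the weight. -/
theorem comm_of_bicent {u : L2R H →L[ℂ] L2R H} (hu : u ∈ GK N ξ) {y : H →L[ℂ] H}
    (hy : y ∈ Bicent M N ξ) : u * piU M N ξ y = piU M N ξ y * u := by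
  have huM : u ∈ amp M := amp_mono S.le hu.1
  have hpM := S.piU_mem hy
  -- vanishing on functions with bounded support
  have h1 : ∀ (n : ℕ) (g : L2R ℂ), Pn n g = g →
      u (piU M N ξ y (ten g ξ)) - piU M N ξ y (u (ten g ξ)) = 0 := by
    intro n g hg
    by_cases hg0 : g = 0
    · subst hg0
      have : ten (0 : L2R ℂ) ξ = 0 := map_zero (axi ξ)
      rw [this, map_zero, map_zero, map_zero, sub_self]
    rw [← norm_eq_zero]
    by_contra hne
    set d := ‖u (piU M N ξ y (ten g ξ)) - piU M N ξ y (u (ten g ξ))‖ with hd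
    have hpos : 0 < d := lt_of_le_of_ne (norm_nonneg _) (Ne.symm hne)
    have h2 := S.est hu hy hg0 hg (κ := d ^ 2 / (2 * (4 + 48 * ‖g‖ ^ 2))) (by (clear * - hne hg0; positivity))
    rw [← hd] at h2
    have h3 : (4 + 48 * ‖g‖ ^ 2) * (d ^ 2 / (2 * (4 + 48 * ‖g‖ ^ 2))) = d ^ 2 / 2 := by
      (clear * - hg0 hne; field_simp)
    rw [h3] at h2
    have : 0 < d ^ 2 := by (clear * - hne; positivity)
    (clear * - h2 this; linarith)
  refine amp_ext (ξ := ξ) S.dense_comm (mul_mem huM hpM) (mul_mem hpM huM) fun g => ?_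
  set T : L2R ℂ →L[ℂ] L2R H := (u * piU M N ξ y - piU M N ξ y * u).comp (axi ξ) with hT
  have hTg : ∀ g, T g = u (piU M N ξ y (ten g ξ)) - piU M N ξ y (u (ten g ξ)) := fun _ => rfl
  have hT0 : T g = 0 := by
    refine eq_zero_of_ten fun f η => ?_
    have h2 : ⟪ten f η, T g⟫_ℂ = ⟪(adjoint T) (ten f η), g⟫_ℂ := by
      rw [adjoint_inner_left]
    rw [h2]
    have h3 : (adjoint T) (ten f η) = 0 := by
      refine eq_zero_of_Pn (n0 := 0) fun n _ => ?_
      refine ext_inner_right ℂ fun g' => ?_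
      rw [inner_Pn, adjoint_inner_left, inner_zero_left, hTg, h1 n _ (Pn_Pn n g'),
        inner_zero_right]
    rw [h3, inner_zero_left]
  rw [hTg, sub_eq_zero] at hT0
  exact hT0

end BFlow

end Pool.Agent.Helper23

end

section

open scoped InnerProductSpace Topology ENNReal

open ContinuousLinearMap Filter MeasureTheory

namespace Pool.Agent.Helper23

variable {H : Type*} [NormedAddCommGroup H] [InnerProductSpace ℂ H] [CompleteSpace H]

variable {M N : VonNeumannAlgebra H} {ξ : H} {E : (H →L[ℂ] H) → (H →L[ℂ] H)}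

namespace BFlow

variable (S : BFlow M N E ξ)

include S

/-- `π(y)(f_n ⊗ ξ)` is close to `f_n ⊗ yξ` -/
lemma piU_fn {y : H →L[ℂ] H} (hy : y ∈ Bicent M N ξ) :
    Tendsto (fun n => ‖ten (fn n) (y ξ) - piU M N ξ y (ten (fn n) ξ)‖) atTop (𝓝 0) := by
  rw [Metric.tendsto_atTop]
  intro ε hε
  have hcont := S.bt_exp_cont hy ξ
  obtain ⟨δ, hδ, hδ'⟩ := Metric.continuousAt_iff.1 (hcont.continuousAt (x := 0)) (ε / 2)
    (by (clear * - hε; positivity))
  obtain ⟨n0, hn0⟩ := exists_nat_one_div_lt hδ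
  refine ⟨n0, fun n hn => ?_⟩
  rw [Real.dist_eq, sub_zero, abs_of_nonneg (norm_nonneg _)]
  have h1 : ‖ten (fn n) (y ξ) - piU M N ξ y (ten (fn n) ξ)‖ ≤ ε / 2 * ‖fn n‖ := by
    refine Lp.norm_le_mul_norm_of_ae_le_mul ?_
    filter_upwards [Lp.coeFn_sub (ten (fn n) (y ξ)) (piU M N ξ y (ten (fn n) ξ)),
      ten_coe (fn n) (y ξ), S.piU_coe hy (ten (fn n) ξ), ten_coe (fn n) ξ, fn_coe n]
      with s e1 e2 e3 e4 e5
    rw [e1, Pi.sub_apply, e2, e3, e4, map_smul, ← smul_sub, norm_smul, mul_comm]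
    by_cases hs : s ∈ Set.Ico (0 : ℝ) (1 / (n + 1))
    · gcongr
      have h2 : dist s 0 < δ := by
        rw [Real.dist_eq, sub_zero, abs_of_nonneg hs.1]
        have h3 : (1 : ℝ) / (n + 1) ≤ 1 / (n0 + 1) := by
          have : (n0 : ℝ) ≤ n := by exact_mod_cast hn
          (clear * - this; gcongr)
        (clear * - hn0 h3 hs; linarith [hs.2])
      have h3 := hδ' h2
      rw [dist_eq_norm, Real.exp_zero, S.bt_one_act _ hy, norm_sub_rev] at h3
      exact h3.le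
    · rw [e5, Set.indicator_of_notMem hs, norm_zero, mul_zero, mul_zero]
  rw [fn_norm, mul_one] at h1
  (clear * - hε h1; linarith)

lemma orthogonal_of_piU {F : L2R H}
    (h : ∀ y, y ∈ Bicent M N ξ → ∀ f : L2R ℂ, ⟪piU M N ξ y (ten f ξ), F⟫_ℂ = 0)
    {y : H →L[ℂ] H} (hy : y ∈ Bicent M N ξ) (f : L2R ℂ) : ⟪ten f (y ξ), F⟫_ℂ = 0 := by
  -- pointwise orthogonality for a single element
  have h1 : ∀ z, z ∈ Bicent M N ξ → ∀ᵐ s, ⟪btU M N ξ (Real.exp s) z ξ, F s⟫_ℂ = 0 := by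
    intro z hz
    -- the function `s ↦ ⟪β z ξ, F s⟫` is in `L²`
    have hmem : MemLp (fun s => ⟪btU M N ξ (Real.exp s) z ξ, F s⟫_ℂ) 2 volume := by
      refine MemLp.of_le_mul (c := ‖z ξ‖) (Lp.memLp F) ?_ (Eventually.of_forall fun s => ?_)
      · exact ((S.bt_exp_cont hz ξ).aestronglyMeasurable).inner (Lp.aestronglyMeasurable F)
      · refine (norm_inner_le_norm _ _).trans ?_
        rw [S.bt_norm hz (Real.exp_pos s)]
    have h2 : hmem.toLp _ = 0 := by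
      refine ext_inner_left ℂ fun g => ?_
      rw [inner_zero_right, ← h z hz g, L2.inner_def, L2.inner_def]
      refine integral_congr_ae ?_
      filter_upwards [hmem.coeFn_toLp, S.piU_coe hz (ten g ξ), ten_coe g ξ] with s e1 e2 e3
      rw [e1, e2, e3, map_smul, inner_smul_left]
      simp only [RCLike.inner_apply]
      ring
    have h3 := hmem.coeFn_toLp
    rw [h2] at h3
    filter_upwards [h3, Lp.coeFn_zero ℂ 2 volume] with s e1 e2
    rw [← e1, e2]; rfl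
  have h2 : ∀ᵐ s, ∀ q : ℚ, ⟪btU M N ξ (Real.exp (s - q)) y ξ, F s⟫_ℂ = 0 := by
    refine ae_all_iff.2 fun q => ?_
    filter_upwards [h1 _ (S.bt_mem _ hy _ (Real.exp_pos (-q)))] with s e1
    rwa [S.bt_bt _ hy _ (Real.exp_pos s) _ (Real.exp_pos _), ← Real.exp_add,
      ← sub_eq_add_neg] at e1
  have h3 : ∀ᵐ s, ⟪y ξ, F s⟫_ℂ = 0 := by
    filter_upwards [h2] with s hs
    have hcl : IsClosed {t : ℝ | ⟪btU M N ξ (Real.exp (s - t)) y ξ, F s⟫_ℂ = 0} := by
      refine isClosed_eq ?_ continuous_const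
      exact ((S.bt_exp_cont hy ξ).comp (continuous_const.sub continuous_id)).inner
        continuous_const
    have hd : Dense (Set.range ((↑) : ℚ → ℝ)) := Rat.denseRange_cast
    have hsub : Set.range ((↑) : ℚ → ℝ) ⊆
        {t : ℝ | ⟪btU M N ξ (Real.exp (s - t)) y ξ, F s⟫_ℂ = 0} := by
      rintro _ ⟨q, rfl⟩
      exact hs q
    have := closure_minimal hsub hcl (hd s)
    change ⟪btU M N ξ (Real.exp (s - s)) y ξ, F s⟫_ℂ = 0 at this
    rwa [sub_self, Real.exp_zero, S.bt_one_act _ hy] at this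
  rw [L2.inner_def]
  refine (integral_congr_ae ?_).trans (integral_zero _ _)
  filter_upwards [h3, ten_coe f (y ξ)] with s e1 e2
  rw [e2, inner_smul_left, e1, mul_zero]

end BFlow

end Pool.Agent.Helper23

end

section

open scoped InnerProductSpace Topology ENNReal BoundedContinuousFunction

open ContinuousLinearMap Filter MeasureTheory

namespace Pool.Agent.Helper23

variable {H : Type*} [NormedAddCommGroup H] [InnerProductSpace ℂ H] [CompleteSpace H]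

variable {M N : VonNeumannAlgebra H} {ξ : H} {E : (H →L[ℂ] H) → (H →L[ℂ] H)}

open RBF

namespace BFlow

variable (S : BFlow M N E ξ)

include S

/-- strong continuity of `π` on bounded sets -/
lemma piU_tendsto {ι : Type*} {F : Filter ι} {z : ι → H →L[ℂ] H} {x : H →L[ℂ] H} {C : ℝ}
    (hz : ∀ i, z i ∈ Bicent M N ξ) (hx : x ∈ Bicent M N ξ) (hC : ∀ᶠ i in F, ‖z i‖ ≤ C)
    (h : Tendsto (fun i => z i ξ) F (𝓝 (x ξ))) (G : L2R H) :
    Tendsto (fun i => piU M N ξ (z i) G) F (𝓝 (piU M N ξ x G)) := by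
  rcases F.eq_or_neBot with hbot | hne
  · rw [hbot]; exact tendsto_bot
  have hC0 : 0 ≤ C := by
    obtain ⟨i, hi⟩ := hC.exists
    exact (norm_nonneg _).trans hi
  set D : ℝ := 2 * C + 2 * ‖x‖ + 1 with hD
  have hD0 : 0 < D := by (clear * - hC0; positivity)
  have hbd : ∀ᶠ i in F, ‖piU M N ξ (z i) - piU M N ξ x‖ ≤ D := by
    filter_upwards [hC] with i hi
    refine (norm_sub_le _ _).trans ?_
    have h1 := S.piU_norm (hz i)
    have h2 := S.piU_norm hx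
    rw [hD]
    linarith
  set T : Set (L2R H) := {G | Tendsto (fun i => (piU M N ξ (z i) - piU M N ξ x) G) F (𝓝 0)}
    with hT
  -- elementary tensors with `ξ`
  have h1 : ∀ f : L2R ℂ, Tendsto (fun i => (piU M N ξ (z i) - piU M N ξ x) (ten f ξ)) F
      (𝓝 0) := by
    intro f
    have e1 : ∀ i, ‖(piU M N ξ (z i) - piU M N ξ x) (ten f ξ)‖ = ‖z i ξ - x ξ‖ * ‖f‖ := by
      intro i
      have hd := bicent_sub (hz i) hx
      rw [← S.piU_sub (hz i) hx]
      have h2 := S.inner_piU_ten hd hd f f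
      simp only [inner_self_eq_norm_sq_to_K] at h2
      have h3 : ‖piU M N ξ (z i - x) (ten f ξ)‖ ^ 2 = (‖(z i - x) ξ‖ * ‖f‖) ^ 2 := by
        rw [mul_pow]
        exact_mod_cast h2
      exact (pow_left_inj₀ (norm_nonneg _) (by (clear * -; positivity)) two_ne_zero).1 h3
    rw [tendsto_zero_iff_norm_tendsto_zero]
    simp only [e1]
    have e2 := (tendsto_iff_norm_sub_tendsto_zero.1 h).mul_const ‖f‖
    rwa [zero_mul] at e2
  have h2 : ∀ f : L2R ℂ, ∀ m ∈ M.commutant, ten f (m ξ) ∈ T := by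
    intro f m hm
    have e1 : ∀ i, (piU M N ξ (z i) - piU M N ξ x) (ten f (m ξ)) =
        lift m ((piU M N ξ (z i) - piU M N ξ x) (ten f ξ)) := fun i =>
      amp_ten (sub_mem (S.piU_mem (hz i)) (S.piU_mem hx)) hm f ξ
    change Tendsto _ F (𝓝 0)
    simp only [e1]
    have := ((lift m).continuous.tendsto 0).comp (h1 f)
    rwa [map_zero] at this
  have hcl : IsClosed T := by
    rw [← closure_subset_iff_isClosed]
    intro G hG
    change Tendsto _ F (𝓝 0)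
    rw [Metric.tendsto_nhds]
    intro ε hε
    obtain ⟨G', hG', hGG⟩ := Metric.mem_closure_iff.1 hG (ε / (2 * D)) (by (clear * - hε hC0; positivity))
    have h3 := (Metric.tendsto_nhds.1 hG') (ε / 2) (by positivity)
    filter_upwards [h3, hbd] with i hi hi2
    rw [dist_zero_right] at hi ⊢
    have e1 : (piU M N ξ (z i) - piU M N ξ x) G = (piU M N ξ (z i) - piU M N ξ x) (G - G') +
        (piU M N ξ (z i) - piU M N ξ x) G' := by rw [map_sub, sub_add_cancel]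
    rw [e1]
    rw [dist_eq_norm] at hGG
    calc _ ≤ ‖(piU M N ξ (z i) - piU M N ξ x) (G - G')‖ +
          ‖(piU M N ξ (z i) - piU M N ξ x) G'‖ := norm_add_le _ _
      _ ≤ D * ‖G - G'‖ + ‖(piU M N ξ (z i) - piU M N ξ x) G'‖ := by
          gcongr
          exact ContinuousLinearMap.le_of_opNorm_le _ hi2 _
      _ < D * (ε / (2 * D)) + ε / 2 := by gcongr
      _ = ε := by field_simp; ring
  set Ts : Submodule ℂ (L2R H) :=
    { carrier := T
      add_mem' := fun {a b} ha hb => by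
        change Tendsto _ F (𝓝 0)
        have := Tendsto.add ha hb
        rw [add_zero] at this
        refine this.congr fun i => ?_
        rw [map_add]
      zero_mem' := by
        change Tendsto _ F (𝓝 0)
        simp only [map_zero]
        exact tendsto_const_nhds
      smul_mem' := fun c a ha => by
        change Tendsto _ F (𝓝 0)
        have := Tendsto.const_smul ha c
        rw [smul_zero] at this
        refine this.congr fun i => ?_
        rw [map_smul] } with hTs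
  have h4 : ∀ f : L2R ℂ, ∀ η : H, ten f η ∈ Ts := by
    intro f η
    have hcl2 : IsClosed {η : H | iot H f η ∈ T} := hcl.preimage (iot H f).continuous
    have hsub : (orb M.commutant ξ : Set H) ⊆ {η : H | iot H f η ∈ T} := by
      rintro _ ⟨m, hm, rfl⟩
      exact h2 f m hm
    exact closure_minimal hsub hcl2 (S.dense_comm η)
  have h5 : Ts.topologicalClosure = ⊤ := by
    rw [Submodule.topologicalClosure_eq_top_iff, Submodule.eq_bot_iff]
    intro F hF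
    exact eq_zero_of_ten fun f η => (Submodule.mem_orthogonal _ _).1 hF _ (h4 f η)
  have h6 : G ∈ T := by
    have e1 : G ∈ Ts.topologicalClosure := by rw [h5]; trivial
    have e2 : G ∈ closure (Ts : Set (L2R H)) := e1
    exact hcl.closure_subset e2
  have h7 : Tendsto (fun i => (piU M N ξ (z i) - piU M N ξ x) G) F (𝓝 0) := h6
  have := h7.add_const (piU M N ξ x G)
  rw [zero_add] at this
  refine this.congr fun i => ?_
  rw [sub_apply, sub_add_cancel]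

end BFlow

end Pool.Agent.Helper23

end

end

section

section

open scoped InnerProductSpace Topology ENNReal

open ContinuousLinearMap Filter MeasureTheory

namespace Pool.Agent.Helper23

variable {H : Type*} [NormedAddCommGroup H] [InnerProductSpace ℂ H] [CompleteSpace H]

variable {M N : VonNeumannAlgebra H} {ξ : H} {E : (H →L[ℂ] H) → (H →L[ℂ] H)}

namespace BFlow

variable (S : BFlow M N E ξ)

include S

lemma bt_one {l : ℝ} (hl : 0 < l) : btU M N ξ l (1 : H →L[ℂ] H) = 1 := by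
  refine (S.flow_uniq 1 AP.bicent_one 1 (one_mem M) l hl fun a _ => ?_).symm
  simp only [mul_one, one_mul, sub_self, zero_apply]
  exact tendsto_const_nhds

lemma piU_one : piU M N ξ (1 : H →L[ℂ] H) = 1 := by
  have : (fun s : ℝ => btU M N ξ (Real.exp s) (1 : H →L[ℂ] H)) = fun _ => (1 : H →L[ℂ] H) := by
    funext s
    exact S.bt_one (Real.exp_pos s)
  rw [piU, this]
  exact lift_one

end BFlow

end Pool.Agent.Helper23

end

end
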