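import Pool.Agent.Helper23.FB.L01_a0
import Pool.Agent.Helper23.FB.L01_a1
import Pool.Agent.Helper23.FB.L01_a10
import Pool.Agent.Helper23.FB.L01_a11
import Pool.Agent.Helper23.FB.L01_a12
import Pool.Agent.Helper23.FB.L01_a13
import Pool.Agent.Helper23.FB.L01_a2
import Pool.Agent.Helper23.FB.L01_a4
import Pool.Agent.Helper23.FB.L01_a6
import Pool.Agent.Helper23.FB.L01_a7
import Pool.Agent.Helper23.FB.L01_a8
import Pool.Agent.Helper23.FB.L01_a9

/-!
Parts of Helper23.FA.L00_15, Helper23.FA.L01_04, Helper23.FA.L00_03, Helper23.FA.L01_18, Helper23.FA.L02_02, Helper23.FA.L01_10, Helper23.FA.L01_19, Helper23.FA.L02_04, Helper23.FA.L01_05, Helper23.FA.L02_07, Helper23.FA.L02_08, Helper23.FA.L01_12, Helper23.FA.L02_13, Helper23.FA.L02_14, Helper23.FA.L02_01, Helper23.FA.L02_03, Helper23.FA.L02_06, Helper23.FA.L02_09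
-/

attribute [local instance 5000]
  Pool.Agent.Helper23.FB.Inst.rCharZero Pool.Agent.Helper23.FB.Inst.rALM
  Pool.Agent.Helper23.FB.Inst.rARM Pool.Agent.Helper23.FB.Inst.rALSM
  Pool.Agent.Helper23.FB.Inst.rARSM Pool.Agent.Helper23.FB.Inst.rARRLE
  Pool.Agent.Helper23.FB.Inst.rALRLE Pool.Agent.Helper23.FB.Inst.rARRLT
  Pool.Agent.Helper23.FB.Inst.rALRLT Pool.Agent.Helper23.FB.Inst.rPMRLT
  Pool.Agent.Helper23.FB.Inst.rMPRLT Pool.Agent.Helper23.FB.Inst.rPMM
  Pool.Agent.Helper23.FB.Inst.rMPM Pool.Agent.Helper23.FB.Inst.rPMSM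
  Pool.Agent.Helper23.FB.Inst.rMPSM Pool.Agent.Helper23.FB.Inst.rEAOL
  Pool.Agent.Helper23.FB.Inst.rIOR Pool.Agent.Helper23.FB.Inst.rISOR
  Pool.Agent.Helper23.FB.Inst.rFS Pool.Agent.Helper23.FB.Inst.rcCharZero
  Pool.Agent.Helper23.FB.Inst.rNZD Pool.Agent.Helper23.FB.Inst.rcNZD
  Pool.Agent.Helper23.FB.Inst.bSemiring Pool.Agent.Helper23.FB.Inst.bStar
  Pool.Agent.Helper23.FB.Inst.bAlg Pool.Agent.Helper23.FB.Inst.bSub
  Pool.Agent.Helper23.FB.Inst.bMul Pool.Agent.Helper23.FB.Inst.bAdd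
  Pool.Agent.Helper23.FB.Inst.iRing Pool.Agent.Helper23.FB.Inst.iSemiring
  Pool.Agent.Helper23.FB.Inst.iAlgC Pool.Agent.Helper23.FB.Inst.iSMulC
  Pool.Agent.Helper23.FB.Inst.iModC Pool.Agent.Helper23.FB.Inst.iAlgR
  Pool.Agent.Helper23.FB.Inst.iSMulR Pool.Agent.Helper23.FB.Inst.iModR
  Pool.Agent.Helper23.FB.Inst.iMonoid Pool.Agent.Helper23.FB.Inst.iSemigroup
  Pool.Agent.Helper23.FB.Inst.iMulOneClass Pool.Agent.Helper23.FB.Inst.iMul
  Pool.Agent.Helper23.FB.Inst.iAdd Pool.Agent.Helper23.FB.Inst.iSub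
  Pool.Agent.Helper23.FB.Inst.iNeg Pool.Agent.Helper23.FB.Inst.iAddCommMonoid
  Pool.Agent.Helper23.FB.Inst.iAddCommGroup Pool.Agent.Helper23.FB.Inst.iAddGroup
  Pool.Agent.Helper23.FB.Inst.iAddMonoid Pool.Agent.Helper23.FB.Inst.iSMulZeroC
  Pool.Agent.Helper23.FB.Inst.iMulActC Pool.Agent.Helper23.FB.Inst.iDSMulC
  Pool.Agent.Helper23.FB.Inst.iDSMulR Pool.Agent.Helper23.FB.Inst.iSNAG
  Pool.Agent.Helper23.FB.Inst.iSNACG Pool.Agent.Helper23.FB.Inst.iNorm
  Pool.Agent.Helper23.FB.Inst.iNSC' Pool.Agent.Helper23.FB.Inst.iNSR'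
  Pool.Agent.Helper23.FB.Inst.iTop Pool.Agent.Helper23.FB.Inst.iT2 Pool.Agent.Helper23.FB.Inst.iTR
  Pool.Agent.Helper23.FB.Inst.iSCC Pool.Agent.Helper23.FB.Inst.iIST
  Pool.Agent.Helper23.FB.Inst.iSCCR Pool.Agent.Helper23.FB.Inst.iISTR
  Pool.Agent.Helper23.FB.Inst.iZHC Pool.Agent.Helper23.FB.Inst.iAHC
  Pool.Agent.Helper23.FB.Inst.iAMHC Pool.Agent.Helper23.FB.Inst.iMAHC
  Pool.Agent.Helper23.FB.Inst.lTop Pool.Agent.Helper23.FB.Inst.lUnif
  Pool.Agent.Helper23.FB.Inst.lACM Pool.Agent.Helper23.FB.Inst.lACG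
  Pool.Agent.Helper23.FB.Inst.lSNAG Pool.Agent.Helper23.FB.Inst.lSNACG
  Pool.Agent.Helper23.FB.Inst.lNACG Pool.Agent.Helper23.FB.Inst.lNorm
  Pool.Agent.Helper23.FB.Inst.lIPS Pool.Agent.Helper23.FB.Inst.lMod
  Pool.Agent.Helper23.FB.Inst.lSMul Pool.Agent.Helper23.FB.Inst.lT2
  Pool.Agent.Helper23.FB.Inst.iStar Pool.Agent.Helper23.FB.Inst.iStarMul
  Pool.Agent.Helper23.FB.Inst.iStarAddMonoid Pool.Agent.Helper23.FB.Inst.iStarRing
  Pool.Agent.Helper23.FB.Inst.iNSC Pool.Agent.Helper23.FB.Inst.iSOR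
  Pool.Agent.Helper23.FB.Inst.iALM Pool.Agent.Helper23.FB.Inst.iARM
  Pool.Agent.Helper23.FB.Inst.iCFC Pool.Agent.Helper23.FB.Inst.iNCFC
  Pool.Agent.Helper23.FB.Inst.iStarModR Pool.Agent.Helper23.FB.Inst.iStarModC
  Pool.Agent.Helper23.FB.Inst.eStar Pool.Agent.Helper23.FB.Inst.eAdd
  Pool.Agent.Helper23.FB.Inst.eMul Pool.Agent.Helper23.FB.Inst.eOne
  Pool.Agent.Helper23.FB.Inst.eZero Pool.Agent.Helper23.FB.Inst.eMulAction
  Pool.Agent.Helper23.FB.Inst.eAMHC2 Pool.Agent.Helper23.FB.Inst.eZHC2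
  Pool.Agent.Helper23.FB.Inst.lAMHC

namespace Pool.Agent.Helper23
end Pool.Agent.Helper23
namespace Pool.Agent.Helper23.ED.WuB
end Pool.Agent.Helper23.ED.WuB
namespace Pool.Agent.Helper23.RBF
end Pool.Agent.Helper23.RBF
namespace Pool.Agent.Helper23.U10
end Pool.Agent.Helper23.U10
namespace Pool.Agent.Helper70.U8
end Pool.Agent.Helper70.U8
namespace Pool.Agent.Helper88.CS.ExhAux
end Pool.Agent.Helper88.CS.ExhAux
namespace Pool.Agent.Helper88.CS.InftyAux
end Pool.Agent.Helper88.CS.InftyAux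

section

section

open scoped InnerProductSpace Topology BoundedContinuousFunction

open ContinuousLinearMap Filter MeasureTheory

namespace Pool.Agent.Helper70.U8

open Pool.Agent.Helper23

variable {H : Type*} [NormedAddCommGroup H] [InnerProductSpace ℂ H] [CompleteSpace H]

variable {A : VonNeumannAlgebra H} {ξ : H} {R : H →L[ℂ] H} {D : H →L[ℝ] H}
  {Ψ : (ℝ →ᵇ ℂ) →⋆ₐ[ℂ] (H →L[ℂ] H)} {J : H →L[ℝ] H}

open Pool.Agent.Helper43.TTF (JD FT FT_apply)

lemma cj_norm (hJ : JD D Ψ J) (x : H →L[ℂ] H) : ‖hJ.cj x‖ ≤ ‖x‖ := by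
  refine ContinuousLinearMap.opNorm_le_bound _ (norm_nonneg _) fun v => ?_
  rw [hJ.cj_apply, hJ.J_norm]
  refine (x.le_opNorm _).trans ?_
  rw [hJ.J_norm]

end Pool.Agent.Helper70.U8

end

end

section

section

open scoped InnerProductSpace Topology ENNReal

open ContinuousLinearMap Filter MeasureTheory

set_option linter.unusedSectionVars false

set_option linter.unusedVariables false

namespace Pool.Agent.Helper23

variable {H : Type*} [NormedAddCommGroup H] [InnerProductSpace ℂ H] [CompleteSpace H]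

variable {A : VonNeumannAlgebra H}

lemma slX_norm_sub (X : L2R H →L[ℂ] L2R H) (f g f' g' : L2R ℂ) (η : H) :
    ‖slX X f g η - slX X f' g' η‖ ≤ ‖X‖ * (‖f - f'‖ * ‖g‖ + ‖f'‖ * ‖g - g'‖) * ‖η‖ := by
  have h1 : ∀ (f g : L2R ℂ) (η : H), ‖slX X f g η‖ ≤ ‖X‖ * (‖f‖ * ‖g‖) * ‖η‖ := by
    intro f g η
    have e1 : ‖slX X f g η‖ ^ 2 ≤ ‖slX X f g η‖ * (‖X‖ * (‖f‖ * ‖g‖) * ‖η‖) := by
      have e2 := inner_slX X f g (slX X f g η) η
      have e3 : ‖⟪slX X f g η, slX X f g η⟫_ℂ‖ = ‖slX X f g η‖ ^ 2 := by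
        rw [inner_self_eq_norm_sq_to_K]
        simp
      rw [← e3, e2]
      refine (norm_inner_le_norm _ _).trans ?_
      rw [norm_ten]
      have e4 : ‖X (ten g η)‖ ≤ ‖X‖ * (‖g‖ * ‖η‖) := by
        refine (X.le_opNorm _).trans ?_
        rw [norm_ten]
      calc ‖f‖ * ‖slX X f g η‖ * ‖X (ten g η)‖ ≤ ‖f‖ * ‖slX X f g η‖ * (‖X‖ * (‖g‖ * ‖η‖)) := by
            (clear * - e4; gcongr)
        _ = _ := by ring
    by_contra hcon
    push Not at hcon
    have e2 : 0 ≤ ‖X‖ * (‖f‖ * ‖g‖) * ‖η‖ := by (clear * -; positivity)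
    (clear * - e1 hcon e2; nlinarith [norm_nonneg (slX X f g η)])
  have h2 : slX X f g η - slX X f' g' η = slX X (f - f') g η + slX X f' (g - g') η := by
    refine ext_inner_left ℂ fun ζ => ?_
    rw [inner_sub_right, inner_add_right, inner_slX, inner_slX, inner_slX, inner_slX,
      ten_sub_left, ten_sub_left, map_sub, inner_sub_left, inner_sub_right]
    ring
  rw [h2]
  calc _ ≤ ‖slX X (f - f') g η‖ + ‖slX X f' (g - g') η‖ := norm_add_le _ _
    _ ≤ ‖X‖ * (‖f - f'‖ * ‖g‖) * ‖η‖ + ‖X‖ * (‖f'‖ * ‖g - g'‖) * ‖η‖ :=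
        add_le_add (h1 _ _ _) (h1 _ _ _)
    _ = _ := by ring

end Pool.Agent.Helper23

end

section

open scoped InnerProductSpace Topology ENNReal

open ContinuousLinearMap Filter MeasureTheory

set_option linter.unusedSectionVars false

set_option linter.unusedVariables false

namespace Pool.Agent.Helper23

section SS

variable {K : Type*} [NormedAddCommGroup K] [InnerProductSpace ℂ K] [CompleteSpace K]

lemma q0_mulOp {m : ℝ → ℂ} (h : BM m) (h1 : ∀ s, ‖m s‖ = 1) (f : L2R ℂ) :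
    q0 (mulOp ℂ m f) = q0 f := by
  rw [q0, q0]
  refine lintegral_congr_ae ?_
  filter_upwards [mulOp_coe h f] with s hs
  rw [hs, smul_eq_mul, norm_mul, h1, one_mul]

lemma SS_mulOp {m : ℝ → ℂ} (h : BM m) (h1 : ∀ s, ‖m s‖ = 1) (Θ : L2R ℂ →L[ℂ] K) :
    SS (Θ.comp (mulOp ℂ m)) = SS Θ := by
  obtain ⟨w, b, -⟩ := exists_hilbertBasis ℂ K
  rw [SS_eq b, SS_eq b]
  refine tsum_congr fun i => ?_
  rw [adjoint_comp, ← ContinuousLinearMap.star_eq_adjoint (mulOp ℂ m), mulOp_star h]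
  change q0 (mulOp ℂ _ ((adjoint Θ) (b i))) = _
  rw [q0_mulOp h.conj (fun s => by rw [RCLike.norm_conj, h1])]

end SS

end Pool.Agent.Helper23

end

end

section

section

open scoped InnerProductSpace Topology

open ContinuousLinearMap Filter

namespace Pool.Agent.Helper23

variable {H : Type*} [NormedAddCommGroup H] [InnerProductSpace ℂ H] [CompleteSpace H]

variable {M N : VonNeumannAlgebra H} {ξ : H} {E : (H →L[ℂ] H) → (H →L[ℂ] H)}

/-- STEP 0: a modulus of almost commutation on the unit ball. -/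
lemma bicent_modulus (hξ : ‖ξ‖ = 1) {y : H →L[ℂ] H} (hy : y ∈ Bicent M N ξ) {k0 : ℝ}
    (hk0 : 0 < k0) : ∃ K0 : ℝ, 0 ≤ K0 ∧ ∀ T ∈ N, ‖T‖ ≤ 1 → ∀ d : ℝ, 0 ≤ d → Defect N ξ 1 d T →
      ‖(y * T - T * y) ξ‖ ^ 2 ≤ k0 + K0 * d ^ 2 := by
  have h1 : ∃ d0 : ℝ, 0 < d0 ∧ ∀ T ∈ N, ‖T‖ ≤ 1 → Defect N ξ 1 d0 T →
      ‖(y * T - T * y) ξ‖ ^ 2 ≤ k0 := by
    by_contra hcon
    push Not at hcon
    choose T hT using fun n : ℕ => hcon (1 / ((n : ℝ) + 1)) (by (clear * -; positivity))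
    have hL : LamSeq N ξ 1 T := by
      refine ⟨fun n => (hT n).1, ⟨1, fun n => (hT n).2.1⟩, fun ε hε => ?_⟩
      have h2 := tendsto_one_div_add_atTop_nhds_zero_nat (𝕜 := ℝ)
      filter_upwards [h2.eventually (gt_mem_nhds hε)] with n hn
      exact (hT n).2.2.1.mono hn.le
    have h3 := ((hy.2 T hL ξ).norm.pow 2)
    rw [norm_zero, zero_pow two_ne_zero] at h3
    have h4 : ∀ᶠ n in atTop, ‖y (T n ξ) - T n (y ξ)‖ ^ 2 < k0 := h3.eventually (gt_mem_nhds hk0)
    obtain ⟨n, hn⟩ := h4.exists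
    exact absurd (hT n).2.2.2 (not_lt.2 hn.le)
  obtain ⟨d0, hd0, h2⟩ := h1
  refine ⟨4 * ‖y‖ ^ 2 / d0 ^ 2, by (clear * - hd0; positivity), fun T hT hT1 d hd hD => ?_⟩
  by_cases h : d ≤ d0
  · have := h2 T hT hT1 (hD.mono h)
    have h3 : 0 ≤ 4 * ‖y‖ ^ 2 / d0 ^ 2 * d ^ 2 := by (clear * - hd0; positivity)
    linarith
  · push Not at h
    have h3 : ‖(y * T - T * y) ξ‖ ≤ 2 * ‖y‖ := by
      have h4 : ‖y * T - T * y‖ ≤ 2 * ‖y‖ := by
        refine (norm_sub_le _ _).trans ?_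
        have h5 := norm_mul_le y T
        have h6 := norm_mul_le T y
        have h7 := norm_nonneg y
        (clear * - h5 h6 hT1 h7; nlinarith)
      have := (y * T - T * y).le_of_opNorm_le h4 ξ
      rwa [hξ, mul_one] at this
    have h4 : ‖(y * T - T * y) ξ‖ ^ 2 ≤ (2 * ‖y‖) ^ 2 := by (clear * - h3; gcongr)
    have h5 : 4 * ‖y‖ ^ 2 / d0 ^ 2 * d0 ^ 2 ≤ 4 * ‖y‖ ^ 2 / d0 ^ 2 * d ^ 2 := by gcongr
    rw [div_mul_cancel₀ _ (by (clear * - hd0; positivity))] at h5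
    (clear * - hk0 h4 h5; nlinarith)

end Pool.Agent.Helper23

end

section

open scoped InnerProductSpace Topology

open ContinuousLinearMap Filter

namespace Pool.Agent.Helper23

universe u

variable {H : Type u} [NormedAddCommGroup H] [InnerProductSpace ℂ H] [CompleteSpace H]

variable {K : Type u} [NormedAddCommGroup K] [InnerProductSpace ℂ K] [CompleteSpace K]

variable {M N : VonNeumannAlgebra H} {ξ : H} {E : (H →L[ℂ] H) → (H →L[ℂ] H)}

lemma u12_lamU {l : ℝ} {a : ℕ → H →L[ℂ] H} (ha : LamSeq N ξ l a) : LamU N ξ l a :=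
  ⟨ha.1, ha.2.1, fun ε hε => (ha.2.2 ε hε).filter_mono u12_UU_le⟩

end Pool.Agent.Helper23

end

end

section

section

open scoped InnerProductSpace Topology

open ContinuousLinearMap Filter

namespace Pool.Agent.Helper23

variable {H : Type*} [NormedAddCommGroup H] [InnerProductSpace ℂ H] [CompleteSpace H]

variable {M N : VonNeumannAlgebra H} {ξ : H} {E : (H →L[ℂ] H) → (H →L[ℂ] H)}

namespace AP

variable (S : AP M N E ξ)

include S

lemma mem_closure_Gam {l : ℝ} (hl : 0 < l) : l ∈ closure (Gam N ξ) := by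
  rw [Metric.mem_closure_iff]
  intro ε hε
  obtain ⟨γ, hγ, h1, h2⟩ := S.dns l (l + ε) hl (by linarith)
  exact ⟨γ, hγ, by rw [Real.dist_eq, abs_sub_comm, abs_of_pos (by (clear * - h1; linarith))]; (clear * - h2; linarith)⟩

lemma neBot {l : ℝ} (hl : 0 < l) : (𝓝[Gam N ξ] l).NeBot :=
  mem_closure_iff_nhdsWithin_neBot.1 (S.mem_closure_Gam hl)

end AP

end Pool.Agent.Helper23

end

section

open scoped InnerProductSpace Topology BoundedContinuousFunction

open ContinuousLinearMap Filter MeasureTheory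

namespace Pool.Agent.Helper70.U8

open Pool.Agent.Helper23

variable {H : Type*} [NormedAddCommGroup H] [InnerProductSpace ℂ H] [CompleteSpace H]

variable {A : VonNeumannAlgebra H} {ξ : H} {R : H →L[ℂ] H} {D : H →L[ℝ] H}
  {Ψ : (ℝ →ᵇ ℂ) →⋆ₐ[ℂ] (H →L[ℂ] H)} {J : H →L[ℝ] H}

open Pool.Agent.Helper43.TTF (JD FT FT_apply FR_apply)

lemma key_mul {ε : ℝ} (hε : 0 < ε) :
    GB ε hε (-(1 / 2)) * (2 - FR) = FT * GB ε hε 0 := by
  ext ρ
  rw [BoundedContinuousFunction.mul_apply, BoundedContinuousFunction.mul_apply, two_sub_FR,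
    GB_apply, GB_apply]
  have h1 : Real.exp (-(ε * ρ ^ 2) + 0 * ρ) =
      Real.exp (-(ε * ρ ^ 2) + -(1 / 2) * ρ) * Real.exp (ρ / 2) := by
    rw [← Real.exp_add]
    congr 1
    ring
  rw [h1]
  push_cast
  ring

end Pool.Agent.Helper70.U8

end

section

open scoped InnerProductSpace Topology ENNReal

open ContinuousLinearMap Filter MeasureTheory

namespace Pool.Agent.Helper23

variable {H : Type*} [NormedAddCommGroup H] [InnerProductSpace ℂ H] [CompleteSpace H]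

variable {M N : VonNeumannAlgebra H} {ξ : H} {E : (H →L[ℂ] H) → (H →L[ℂ] H)}

namespace AP

variable (S : AP M N E ξ)

include S

omit S in
/-- compression by coisometric eigenoperators -/
lemma norm_comp (S : Setting M N E ξ) {γ : ℝ} {v w x : H →L[ℂ] H} (hv : v * star v = 1)
    (hw : w ∈ eig N ξ γ) (hw1 : w * star w = 1) (hx : x ∈ M) :
    ‖(star v * x * w) ξ‖ ^ 2 = γ * ‖x ξ‖ ^ 2 := by
  have e1 : (star v * x * w) ξ = (star v) (x (w ξ)) := rfl
  rw [e1, norm_of_isom (by rw [star_star]; exact hv)]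
  have h := S.norm_right_eig_sq hw hx
  rw [hw1, one_apply_eq_self, inner_self_eq_norm_sq_to_K] at h
  apply Complex.ofReal_injective
  rw [h]
  push_cast
  rfl

end AP

end Pool.Agent.Helper23

end

end

section

section

open scoped InnerProductSpace Topology BoundedContinuousFunction

open ContinuousLinearMap Filter MeasureTheory

namespace Pool.Agent.Helper70.U8

open Pool.Agent.Helper23

variable {H : Type*} [NormedAddCommGroup H] [InnerProductSpace ℂ H] [CompleteSpace H]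

variable {A : VonNeumannAlgebra H} {ξ : H} {R : H →L[ℂ] H} {D : H →L[ℝ] H}
  {Ψ : (ℝ →ᵇ ℂ) →⋆ₐ[ℂ] (H →L[ℂ] H)} {J : H →L[ℝ] H}

open Pool.Agent.Helper43.TTF (FC JD FT FT_apply FR_apply)

lemma J_psi (h' : TTData A ξ R D) (hF : FC R D Ψ) (hJ : JD D Ψ J) {ε : ℝ} (hε : 0 < ε)
    {z : H →L[ℂ] H} (hz : z ∈ A) :
    J (Ψ (GB ε hε (1 / 2)) ((star z) ξ)) = Ψ (GB ε hε 0) (z ξ) := by
  rw [← sub_eq_zero]
  refine hF.T_inj h' _ ?_
  rw [map_sub, hJ.T_J]
  have h1 : D (Ψ (GB ε hε (1 / 2)) ((star z) ξ)) =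
      Ψ (GB ε hε (-(1 / 2))) (D ((star z) ξ)) := by
    refine hF.psi_D _ _ (fun ρ => ?_) _
    rw [GB_apply, GB_apply, Complex.conj_ofReal]
    congr 2
    ring
  have h2 : D ((star z) ξ) = Ψ (2 - FR) (z ξ) := by
    rw [h'.D_mem _ (star_mem hz), star_star, map_sub, hF.psi_FR,
      Pool.Agent.Helper43.TTF.psi_two, sub_apply, smul_apply, one_apply_eq_self]
  rw [h1, h2, ← psi_mul_apply, ← psi_mul_apply, key_mul, sub_self]

end Pool.Agent.Helper70.U8

end

section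

open scoped InnerProductSpace Topology BoundedContinuousFunction

open ContinuousLinearMap Filter

namespace Pool.Agent.Helper78.BC.StdEx

open Pool.Agent.Helper23 Pool.Agent.Helper70.U8

open Pool.Agent.Helper43.TTF (FC JD FT FT_apply FR_apply)

variable {H : Type*} [NormedAddCommGroup H] [InnerProductSpace ℂ H] [CompleteSpace H]

variable {A : VonNeumannAlgebra H} {ξ : H} {R : H →L[ℂ] H} {D : H →L[ℝ] H}
  {Ψ : (ℝ →ᵇ ℂ) →⋆ₐ[ℂ] (H →L[ℂ] H)} {J : H →L[ℝ] H}

lemma J_pos' (h' : TTData A ξ R D) (hF : FC R D Ψ) (hJ : JD D Ψ J) {a : H →L[ℂ] H}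
    (ha : a ∈ A) : 0 ≤ (⟪J (a ξ), (star a) ξ⟫_ℂ).re := by
  have h1 : Tendsto (fun n : ℕ => (⟪Ψ (Pool.Agent.Helper70.U8.GB (1 / ((n : ℝ) + 1)) (by positivity) 0) (J (a ξ)),
      (star a) ξ⟫_ℂ).re) atTop (𝓝 (⟪J (a ξ), (star a) ξ⟫_ℂ).re) :=
    (Complex.continuous_re.tendsto _).comp ((psi_gauss hF (J (a ξ))).inner tendsto_const_nhds)
  refine ge_of_tendsto' h1 fun n => ?_
  have hε : (0 : ℝ) < 1 / ((n : ℝ) + 1) := by positivity
  have h2 := psi_half' h' hF hJ (Pool.Agent.Helper70.U8.GB _ hε 0) (Pool.Agent.Helper70.U8.GB _ hε (1 / 2)) (fun ρ => by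
    rw [Pool.Agent.Helper70.U8.GB_apply, Pool.Agent.Helper70.U8.GB_apply, ← Complex.ofReal_mul, ← Real.exp_add]
    congr 2
    ring) (star_mem ha)
  rw [star_star] at h2
  have h3 : Pool.Agent.Helper70.U8.GB _ hε (1 / 2) = star (Pool.Agent.Helper70.U8.GB _ (half_pos hε) (1 / 4)) * Pool.Agent.Helper70.U8.GB _ (half_pos hε) (1 / 4) := by
    ext ρ
    rw [BoundedContinuousFunction.mul_apply, BoundedContinuousFunction.star_apply, Pool.Agent.Helper70.U8.GB_apply,
      Pool.Agent.Helper70.U8.GB_apply, Complex.star_def, Complex.conj_ofReal, ← Complex.ofReal_mul, ← Real.exp_add]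
    congr 2
    ring
  rw [h2, h3, psi_mul_apply, map_star, inner_star_left, inner_self_eq_norm_sq_to_K]
  have h4 : (((‖Ψ (Pool.Agent.Helper70.U8.GB _ (half_pos hε) (1 / 4)) ((star a) ξ)‖ : ℂ)) ^ 2).re =
    ‖Ψ (Pool.Agent.Helper70.U8.GB _ (half_pos hε) (1 / 4)) ((star a) ξ)‖ ^ 2 := by norm_cast
  exact h4.symm ▸ sq_nonneg _

end Pool.Agent.Helper78.BC.StdEx

end

end

section

section

open scoped InnerProductSpace Topology BoundedContinuousFunction

open ContinuousLinearMap Filter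

namespace Pool.Agent.Helper23

universe u

variable {H : Type u} [NormedAddCommGroup H] [InnerProductSpace ℂ H] [CompleteSpace H]

variable {K : Type u} [NormedAddCommGroup K] [InnerProductSpace ℂ K] [CompleteSpace K]

variable {M N : VonNeumannAlgebra H} {ξ : H} {E : (H →L[ℂ] H) → (H →L[ℂ] H)}

theorem LamSeq.subseq {l : ℝ} {a : ℕ → H →L[ℂ] H} (h : LamSeq N ξ l a) {φ : ℕ → ℕ}
    (hφ : StrictMono φ) : LamSeq N ξ l (fun n => a (φ n)) :=
  ⟨fun n => h.1 _, ⟨h.2.1.choose, fun n => h.2.1.choose_spec _⟩, fun ε hε =>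
    hφ.tendsto_atTop.eventually (h.2.2 ε hε)⟩

end Pool.Agent.Helper23

end

end

section

section

open scoped InnerProductSpace Topology

open ContinuousLinearMap Filter

namespace Pool.Agent.Helper23

variable {H : Type*} [NormedAddCommGroup H] [InnerProductSpace ℂ H] [CompleteSpace H]

variable {M N : VonNeumannAlgebra H} {ξ : H} {E : (H →L[ℂ] H) → (H →L[ℂ] H)}

namespace AP

variable (S : AP M N E ξ)

include S

lemma denseQ : Dense (orb (Qalg M N ξ).commutant ξ : Set H) := by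
  refine S.dense_comm.mono ?_
  rintro _ ⟨a, ha, rfl⟩
  refine ⟨a, ?_, rfl⟩
  rw [mem_comm_iff] at ha ⊢
  exact fun g hg => ha g (mem_Qalg.1 hg).1

end AP

end Pool.Agent.Helper23

end

end

section

section

open scoped InnerProductSpace Topology BoundedContinuousFunction

open ContinuousLinearMap Filter MeasureTheory

namespace Pool.Agent.Helper88.CS

open Pool.Agent.Helper23

open Pool.Agent.Helper78.BC (Std rm Fixed)

variable {H : Type*} [NormedAddCommGroup H] [InnerProductSpace ℂ H] [CompleteSpace H]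

variable {A : VonNeumannAlgebra H} {ξ : H} {J : H →L[ℝ] H}
  {Ψ : (ℝ →ᵇ ℂ) →⋆ₐ[ℂ] (H →L[ℂ] H)} {R : H →L[ℂ] H} {D : H →L[ℝ] H}

namespace FullAux

open ExhAux InftyAux

/-- left and right multiplication commute -/
lemma rm_comm (h : St A ξ J Ψ R D) {a b : H →L[ℂ] H} (ha : a ∈ A) (hb : b ∈ A) (v : H) :
    rm J b (a v) = a (rm J b v) :=
  h.J_comm (star b) (star_mem hb) a ha v

lemma rm_mul (h : St A ξ J Ψ R D) (b c : H →L[ℂ] H) (v : H) :
    rm J c (rm J b v) = rm J (b * c) v := by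
  unfold rm
  rw [h.J_J, star_mul]
  rfl

/-- `J (a ξ b) = b* ξ a*` -/
lemma J_mul (h : St A ξ J Ψ R D) {a b : H →L[ℂ] H} (ha : a ∈ A) (hb : b ∈ A) :
    J (a (rm J b ξ)) = (star b) (rm J (star a) ξ) := by
  have h1 := h.J_comm a ha (star b) (star_mem hb) ξ
  have h2 : rm J b ξ = J ((star b) ξ) := by
    unfold rm; rw [h.J_xi]
  have h3 : rm J (star a) ξ = J (a ξ) := by
    unfold rm; rw [h.J_xi, star_star]
  rw [h2, h3, h1, h.J_xi]

/-- right multiplication by `v*` is isometric on vectors `w = w e` -/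
lemma inner_rm (h : St A ξ J Ψ R D) {v e : H →L[ℂ] H} (hv : star v * v = e) {w w' : H}
    (hw : rm J (star e) w = w) :
    ⟪rm J (star v) w, rm J (star v) w'⟫_ℂ = ⟪w, w'⟫_ℂ := by
  have h1 : e (J w) = J w := by
    have h2 : J (rm J (star e) w) = J w := by rw [hw]
    unfold rm at h2
    rw [h.J_J, star_star] at h2
    exact h2
  unfold rm
  rw [star_star, h.J_inner]
  have h3 : ⟪v (J w'), v (J w)⟫_ℂ = ⟪J w', (star v) (v (J w))⟫_ℂ := by
    rw [ContinuousLinearMap.star_eq_adjoint, ContinuousLinearMap.adjoint_inner_right]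
  rw [h3, ← apply_mul, hv, h1, h.J_inner]

lemma norm_rm_eq (h : St A ξ J Ψ R D) {v e : H →L[ℂ] H} (hv : star v * v = e) {w : H}
    (hw : rm J (star e) w = w) : ‖rm J (star v) w‖ = ‖w‖ := by
  have h1 := inner_rm h hv hw (w' := w)
  rw [inner_self_eq_norm_sq_to_K, inner_self_eq_norm_sq_to_K] at h1
  have h2 : ‖rm J (star v) w‖ ^ 2 = ‖w‖ ^ 2 := by exact_mod_cast h1
  exact (sq_eq_sq₀ (norm_nonneg _) (norm_nonneg _)).1 h2

end FullAux

end Pool.Agent.Helper88.CS

end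

end

section

section

open scoped InnerProductSpace Topology

open ContinuousLinearMap Filter

namespace Pool.Agent.Helper23

universe u

variable {H : Type u} [NormedAddCommGroup H] [InnerProductSpace ℂ H] [CompleteSpace H]

variable {K : Type u} [NormedAddCommGroup K] [InnerProductSpace ℂ K] [CompleteSpace K]

variable {M N : VonNeumannAlgebra H} {ξ : H} {E : (H →L[ℂ] H) → (H →L[ℂ] H)}

namespace U10

lemma appS_const (S : Setting M N E ξ) {x : H →L[ℂ] H} (hx : x ∈ M) :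
    (fun _ => x) ∈ AppS M ξ :=
  ⟨AppR_const S.dense_comm hx, AppR_const S.dense_comm (star_mem hx)⟩

end U10

open U10

namespace Oc

variable {MT NT : VonNeumannAlgebra K} {ET : (K →L[ℂ] K) → (K →L[ℂ] K)} {ζ : K}
  {rep : (ℕ → H →L[ℂ] H) → (K →L[ℂ] K)} (O : Oc M N E ξ MT NT ET ζ rep)

include O

/-- the vector state of the ultrapower -/
lemma U10_state (S : Setting M N E ξ) {x : ℕ → H →L[ℂ] H} (hx : x ∈ AppS M ξ) :
    Tendsto (fun n => ⟪ξ, x n ξ⟫_ℂ) (UU : Filter ℕ) (𝓝 ⟪ζ, rep x ζ⟫_ℂ) := by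
  have h := O.inner (fun _ => 1) (appS_const S (one_mem M)) x hx
  rw [O.one] at h
  simpa only [one_apply_eq_self] using h

end Oc

end Pool.Agent.Helper23

end

section

open scoped InnerProductSpace Topology ENNReal BoundedContinuousFunction

open ContinuousLinearMap Filter MeasureTheory

namespace Pool.Agent.Helper23

universe u

variable {H : Type u} [NormedAddCommGroup H] [InnerProductSpace ℂ H] [CompleteSpace H]

variable {K : Type u} [NormedAddCommGroup K] [InnerProductSpace ℂ K] [CompleteSpace K]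

variable {M N : VonNeumannAlgebra H} {ξ : H} {E : (H →L[ℂ] H) → (H →L[ℂ] H)}

namespace Oc

variable {MT NT : VonNeumannAlgebra K} {ET : (K →L[ℂ] K) → (K →L[ℂ] K)} {ζ : K}
  {rep : (ℕ → H →L[ℂ] H) → (K →L[ℂ] K)} (O : Oc M N E ξ MT NT ET ζ rep)

include O

lemma const_mem (S : Setting M N E ξ) {x : H →L[ℂ] H} (hx : x ∈ M) : rep (fun _ => x) ∈ MT :=
  O.memM _ (ocS_const S.dense_comm hx)

lemma const_memN (S : Setting M N E ξ) {x : H →L[ℂ] H} (hx : x ∈ N) : rep (fun _ => x) ∈ NT :=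
  O.memN _ (ocS_const S.dense_comm (S.le x hx)) fun _ => hx

lemma const_inner (S : Setting M N E ξ) {x y : H →L[ℂ] H} (hx : x ∈ M) (hy : y ∈ M) :
    ⟪rep (fun _ => x) ζ, rep (fun _ => y) ζ⟫_ℂ = ⟪x ξ, y ξ⟫_ℂ :=
  tendsto_nhds_unique (O.inner _ (ocS_const S.dense_comm hx) _ (ocS_const S.dense_comm hy))
    tendsto_const_nhds

lemma const_norm (S : Setting M N E ξ) {x : H →L[ℂ] H} (hx : x ∈ M) :
    ‖rep (fun _ => x) ζ‖ = ‖x ξ‖ := by
  have h1 := O.const_inner S hx hx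
  rw [inner_self_eq_norm_sq_to_K, inner_self_eq_norm_sq_to_K] at h1
  have h2 : ‖rep (fun _ => x) ζ‖ ^ 2 = ‖x ξ‖ ^ 2 := by exact_mod_cast h1
  exact (pow_left_inj₀ (norm_nonneg _) (norm_nonneg _) two_ne_zero).1 h2

lemma const_add (S : Setting M N E ξ) {x y : H →L[ℂ] H} (hx : x ∈ M) (hy : y ∈ M) :
    rep (fun _ => x + y) = rep (fun _ => x) + rep (fun _ => y) :=
  O.add _ (ocS_const S.dense_comm hx) _ (ocS_const S.dense_comm hy)

lemma const_smul (S : Setting M N E ξ) (c : ℂ) {x : H →L[ℂ] H} (hx : x ∈ M) :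
    rep (fun _ => c • x) = c • rep (fun _ => x) :=
  O.smul c _ (ocS_const S.dense_comm hx)

lemma const_sub (S : Setting M N E ξ) {x y : H →L[ℂ] H} (hx : x ∈ M) (hy : y ∈ M) :
    rep (fun _ => x - y) = rep (fun _ => x) - rep (fun _ => y) := by
  have h1 : (fun _ : ℕ => x - y) = fun _ => x + (-1 : ℂ) • y := by
    funext _
    simp [sub_eq_add_neg]
  rw [h1, O.const_add S hx (smul_mem' _ hy), O.const_smul S _ hy]
  simp [sub_eq_add_neg]

lemma const_star (S : Setting M N E ξ) {x : H →L[ℂ] H} (hx : x ∈ M) :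
    rep (fun _ => Star.star x) = Star.star (rep (fun _ => x)) :=
  O.star _ (ocS_const S.dense_comm hx)

/-- partners in the ultrapower -/
lemma partner (S : Setting M N E ξ) {C C' : H →L[ℂ] H} (h : Partner N ξ C C') :
    Partner NT ζ (rep fun _ => C) (rep fun _ => C') := by
  have hC := S.le _ h.1
  have hC' := S.le _ h.2.1
  refine ⟨O.const_memN S h.1, O.const_memN S h.2.1, fun Z hZ => ?_⟩
  obtain ⟨z, hz, hzN, -, rfl⟩ := O.surjN Z hZ
  have e1 : ⟪ζ, (rep fun _ => C) (rep z ζ)⟫_ℂ = ⟪rep (fun _ => Star.star C) ζ, rep z ζ⟫_ℂ := by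
    rw [O.const_star S hC, inner_star_left]
  have hzs : (fun n => Star.star (z n)) ∈ AppS M ξ := ⟨hz.2, by simpa using hz.1⟩
  have e2 : ⟪ζ, rep z ((rep fun _ => C') ζ)⟫_ℂ =
      ⟪rep (fun n => Star.star (z n)) ζ, rep (fun _ => C') ζ⟫_ℂ := by
    rw [O.star z hz, inner_star_left]
  have l1 := O.inner _ (ocS_const S.dense_comm (star_mem hC)) _ hz
  have l2 := O.inner _ hzs _ (ocS_const S.dense_comm hC')
  rw [e1, e2]
  refine tendsto_nhds_unique l1 (l2.congr fun n => ?_)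
  rw [inner_star_left, inner_star_left]
  exact (h.2.2 (z n) (hzN n)).symm

end Oc

end Pool.Agent.Helper23

end

end

section

section

open scoped InnerProductSpace Topology

open ContinuousLinearMap Filter

namespace Pool.Agent.Helper23

universe u

variable {H : Type u} [NormedAddCommGroup H] [InnerProductSpace ℂ H] [CompleteSpace H]

variable {L : Type u} [NormedAddCommGroup L] [InnerProductSpace ℂ L] [CompleteSpace L]

variable {M N A : VonNeumannAlgebra H} {ξ : H} {E : (H →L[ℂ] H) → (H →L[ℂ] H)}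

section

variable {mk : (ℕ → H) → L} (h : HUP mk)

include h

lemma HUP.surjA (S : Setting M N E ξ) (hA : ∀ x ∈ A, x ∈ M)
    {T : Vs M ξ mk →L[ℂ] Vs M ξ mk} (hT : T ∈ Mt M ξ mk A) :
    ∃ x ∈ AppS M ξ, (∀ n, x n ∈ A) ∧ (∀ n, ‖x n‖ ≤ 2 * ‖T‖) ∧ rp M ξ mk x = T := by
  obtain ⟨x, hx, h1, h2⟩ := (h.seqRep (M := M) (ξ := ξ) hA).surj (fun T hT h0 => by
    refine h.rp_sep (oc_genVN_mono (Set.image_mono ?_) hT) h0
    rintro x ⟨h1, h2⟩
    exact ⟨h1, fun n => ocS_mem h1 n⟩) hT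
  exact ⟨x, hx.1, hx.2, h1, h2⟩

end

end Pool.Agent.Helper23

end

end

section

section

open scoped InnerProductSpace Topology BoundedContinuousFunction

open ContinuousLinearMap Filter MeasureTheory

namespace Pool.Agent.Helper88.CS

open Pool.Agent.Helper23

open Pool.Agent.Helper78.BC (Std rm Fixed)

variable {H : Type*} [NormedAddCommGroup H] [InnerProductSpace ℂ H] [CompleteSpace H]

variable {A : VonNeumannAlgebra H} {ξ : H} {J : H →L[ℝ] H}
  {Ψ : (ℝ →ᵇ ℂ) →⋆ₐ[ℂ] (H →L[ℂ] H)} {R : H →L[ℂ] H} {D : H →L[ℝ] H}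

namespace CornerAux

/-- right multiplication by an element under `f` lands under `f` -/
lemma right_under (h : St A ξ J Ψ R D) {f b : H →L[ℂ] H} (hf : f ∈ A) (hb : b ∈ A)
    (hJ : J (f ξ) = f ξ) (hbf : b * f = b) : f (J (b ξ)) = J (b ξ) := by
  have h1 : J (b ξ) = J (b (J (f ξ))) := by
    rw [hJ]
    show J (b ξ) = J ((b * f) ξ)
    rw [hbf]
  have h2 : J (b (J (f ξ))) = f (J (b ξ)) := by
    rw [h.J_comm b hb f hf, h.J_xi]
  rw [← h2, ← h1]

end CornerAux

end Pool.Agent.Helper88.CS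

end

end

section

section

open scoped InnerProductSpace Topology ENNReal

open ContinuousLinearMap Filter MeasureTheory Polynomial

set_option linter.unusedSectionVars false

set_option linter.unusedVariables false

namespace Pool.Agent.Helper23

variable {H : Type*} [NormedAddCommGroup H] [InnerProductSpace ℂ H] [CompleteSpace H]

variable {M N : VonNeumannAlgebra H} {ξ : H} {E : (H →L[ℂ] H) → (H →L[ℂ] H)}

/-- pairs of functions intertwined by `R` on cut off functions -/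
def Itw (R : L2R ℂ →L[ℂ] L2R ℂ) (n : ℕ) (c c' : ℝ → ℂ) : Prop :=
  ∀ f f' : L2R ℂ, Pn n f = f → Pn n f' = f' →
    ⟪f', R (mulOp ℂ c f)⟫_ℂ = ⟪f', mulOp ℂ c' (R f)⟫_ℂ

/-- the map `R_a = (⟨aξ| ⊗ 1) u (|ξ⟩ ⊗ 1)` -/
noncomputable def RR (u : L2R H →L[ℂ] L2R H) (η ξ : H) : L2R ℂ →L[ℂ] L2R ℂ :=
  (adjoint (axi η)).comp (u.comp (axi ξ))

lemma inner_RR (u : L2R H →L[ℂ] L2R H) (η ξ : H) (f' f : L2R ℂ) :
    ⟪f', RR u η ξ f⟫_ℂ = ⟪ten f' η, u (ten f ξ)⟫_ℂ := by
  change ⟪f', (adjoint (axi η)) (u (axi ξ f))⟫_ℂ = _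
  rw [adjoint_inner_right]
  rfl

end Pool.Agent.Helper23

end

end

section

section

open scoped InnerProductSpace Topology ENNReal BoundedContinuousFunction

open ContinuousLinearMap Filter MeasureTheory

namespace Pool.Agent.Helper23.ED

open Pool.Agent.Helper23 Pool.Agent.Helper23.RBF

open Pool.Agent.Helper78.BC.Transport (Sub r)

universe u

variable {H : Type u} [NormedAddCommGroup H] [InnerProductSpace ℂ H] [CompleteSpace H]

variable {K : Type u} [NormedAddCommGroup K] [InnerProductSpace ℂ K] [CompleteSpace K]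

variable {L : Type u} [NormedAddCommGroup L] [InnerProductSpace ℂ L] [CompleteSpace L]

variable {N : VonNeumannAlgebra H} {ψ : (H →L[ℂ] H) → ℝ≥0∞} {ξ : H} {i : K →L[ℂ] H} {κ : K}
  {Λ : (H →L[ℂ] H) → L} {ρ : (H →L[ℂ] H) → (L →L[ℂ] L)}

theorem exists_T' (Sb : Sub N ξ i κ) (hsep : ∀ a ∈ N, a ξ = 0 → a = 0)
    (hψ : IsNSFWeight N ψ) (hG : Gns N ψ Λ ρ) : ∃ (T : K →L[ℂ] K) (S : K →L[ℂ] L)
      (Ψ : (ℝ →ᵇ ℂ) →⋆ₐ[ℂ] (K →L[ℂ] K)), GT (Gp N ψ ξ i Λ) T S ∧ FCal ((2 : ℂ) • T) Ψ := by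
  have _ := hsep
  obtain ⟨Γ, hΓ⟩ := Gp_sub Sb hψ hG
  obtain ⟨T, S, hT⟩ := exists_GT Γ
  obtain ⟨Ψ, hΨ⟩ := exists_fcal T hT.T_star hT.T_nonneg hT.T_le
    (hT.T_inj fun η h => Gp_dense Sb hψ hG η fun p hp => h p (by
      have : p ∈ (Γ : Set (K × L)) := by rw [hΓ]; exact hp
      exact this))
    (hT.T_inj' fun v hv => Gp_zero' Sb hψ hG (by rw [← hΓ]; exact hv))
  exact ⟨T, S, Ψ, by rw [← hΓ]; exact hT, hΨ⟩

end Pool.Agent.Helper23.ED

end

end

section

section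

open scoped InnerProductSpace Topology BoundedContinuousFunction

open ContinuousLinearMap Filter MeasureTheory

namespace Pool.Agent.Helper88.CS

open Pool.Agent.Helper23

open Pool.Agent.Helper78.BC (Std rm Fixed)

variable {H : Type*} [NormedAddCommGroup H] [InnerProductSpace ℂ H] [CompleteSpace H]

variable {A : VonNeumannAlgebra H} {ξ : H} {J : H →L[ℝ] H}
  {Ψ : (ℝ →ᵇ ℂ) →⋆ₐ[ℂ] (H →L[ℂ] H)} {R : H →L[ℂ] H} {D : H →L[ℝ] H}

theorem kap_pos (h : St A ξ J Ψ R D) {u : H →L[ℂ] H} (hu : u ∈ A) :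
    ∀ a ∈ A, 0 ≤ (⟪J (a (kap J ξ u)), (star a) (kap J ξ u)⟫_ℂ).re := by
  intro a ha
  have hu' : star u ∈ A := star_mem hu
  have ha' : star a ∈ A := star_mem ha
  have hc : a * star u ∈ A := mul_mem ha hu'
  have hb : u * (star a * star u) ∈ A := mul_mem hu (mul_mem ha' hu')
  have h1 : J (a (kap J ξ u)) = (star u) (J ((a * star u) ξ)) := ConeAux.jc h hc hu'
  have h2 : ⟪J (a (kap J ξ u)), (star a) (kap J ξ u)⟫_ℂ
      = ⟪J ((u * (star a * star u)) ξ), (star (u * (star a * star u))) ξ⟫_ℂ := by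
    rw [h1]
    have h3 : ⟪(star u) (J ((a * star u) ξ)), (star a) (kap J ξ u)⟫_ℂ
        = ⟪J ((a * star u) ξ), (u * (star a * star u)) (J ((star u) ξ))⟫_ℂ := by
      rw [star_eq_adjoint u, adjoint_inner_left]
      rfl
    have h4 : ⟪J ((a * star u) ξ), (u * (star a * star u)) (J ((star u) ξ))⟫_ℂ
        = ⟪J ((u * (star a * star u)) (J ((star u) ξ))), (a * star u) ξ⟫_ℂ := by
      have := h.J_inner ((a * star u) ξ) (J ((u * (star a * star u)) (J ((star u) ξ))))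
      rwa [h.J_J] at this
    rw [h3, h4, ConeAux.jc h hb hu']
    have h5 : star (u * (star a * star u)) = u * (a * star u) := by
      rw [star_mul, star_mul, star_star, star_star, mul_assoc]
    rw [h5, star_eq_adjoint u, adjoint_inner_left]
    rfl
  rw [h2]
  exact h.J_pos _ hb

end Pool.Agent.Helper88.CS

end

section

open scoped InnerProductSpace Topology BoundedContinuousFunction

open ContinuousLinearMap Filter MeasureTheory

namespace Pool.Agent.Helper88.CS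

open Pool.Agent.Helper23

open Pool.Agent.Helper78.BC (Std rm Fixed)

variable {H : Type*} [NormedAddCommGroup H] [InnerProductSpace ℂ H] [CompleteSpace H]

variable {A : VonNeumannAlgebra H} {ξ : H} {J : H →L[ℝ] H}
  {Ψ : (ℝ →ᵇ ℂ) →⋆ₐ[ℂ] (H →L[ℂ] H)} {R : H →L[ℂ] H} {D : H →L[ℝ] H}

open SuppAAux Pool.Agent.Helper78.BC.FixAux in
/-- elements with support near `0` almost commute with `ξ` -/
theorem supp_comm (h : St A ξ J Ψ R D) {x : H →L[ℂ] H} (hx : x ∈ A) {η : ℝ} (hη : 0 < η)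
    (hs : Supp Ψ (x ξ) (-η) η) : ‖x ξ - rm J x ξ‖ ≤ (Real.exp (η / 2) - 1) * ‖x ξ‖ := by
  have hr : rm J x ξ = J ((star x) ξ) := by
    unfold rm
    rw [h.J_xi]
  have h1 : ∀ n : ℕ, ‖Ψ (Pl n) (x ξ - rm J x ξ)‖ ≤ (Real.exp (η / 2) - 1) * ‖x ξ‖ := by
    intro n
    have h2 : Ψ (Pl n) (x ξ - rm J x ξ) = Ψ (Cl η hη * Pl n) (x ξ) := by
      rw [hr, map_sub, h.psi_half (Pl n) (Pe n) (fun ρ => rfl) x hx,
        ← ContinuousLinearMap.sub_apply, ← map_sub, ← sub_eq_zero,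
        ← ContinuousLinearMap.sub_apply, ← map_sub]
      refine hs _ fun ρ hρ => ?_
      have h3 : cl η ρ = ρ := by
        unfold cl
        rw [min_eq_right hρ.2, max_eq_right hρ.1]
      rw [BoundedContinuousFunction.sub_apply, BoundedContinuousFunction.sub_apply,
        BoundedContinuousFunction.mul_apply, Cl_apply, Pl_apply, Pe_apply, h3]
      push_cast
      ring
    rw [h2]
    refine ((Ψ _).le_opNorm _).trans ?_
    gcongr
    refine (psi_norm_le Ψ _).trans ((norm_mul_le _ _).trans ?_)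
    calc ‖Cl η hη‖ * ‖Pl n‖ ≤ (Real.exp (η / 2) - 1) * 1 :=
          mul_le_mul (norm_Cl_le hη) (norm_Pl_le n) (norm_nonneg _)
            (sub_nonneg.2 (Real.one_le_exp (by linarith)))
      _ = _ := mul_one _
  have h2 := h.psi_cont (fun n => Pl n) 1 1 norm_Pl_le Pl_tendsto (x ξ - rm J x ξ)
  rw [map_one, ContinuousLinearMap.one_apply] at h2
  exact le_of_tendsto' h2.norm h1

end Pool.Agent.Helper88.CS

end

section

open scoped InnerProductSpace Topology ENNReal BoundedContinuousFunction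

open ContinuousLinearMap Filter MeasureTheory

namespace Pool.Agent.Helper23.ED

open Pool.Agent.Helper23 Pool.Agent.Helper23.RBF

open Pool.Agent.Helper78.BC.Transport (Sub r)

universe u

open TopologicalSpace

variable {H : Type*} [NormedAddCommGroup H] [InnerProductSpace ℂ H] [CompleteSpace H]

variable {N : VonNeumannAlgebra H} {ξ : H} {V c : ℝ → H →L[ℂ] H} {ψ : (H →L[ℂ] H) → ℝ≥0∞}

open WuB

theorem coc_ug (hV : UG V) (hc : Coc N V ψ c) : UG (fun t => c t * V t) := by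
  have hadd : ∀ s t, c (s + t) * V (s + t) = (c s * V s) * (c t * V t) := by
    intro s t
    rw [hc.cocycle, hV.add]
    calc c s * (V s * c t * V (-s)) * (V s * V t)
        = c s * V s * c t * (V (-s) * V s) * V t := by simp only [mul_assoc]
      _ = _ := by rw [V_neg' hV]; simp only [mul_assoc, one_mul]
  have hzero : c 0 * V 0 = 1 := by rw [c_zero hV hc, hV.zero, one_mul]
  refine ⟨fun v => ?_, hzero, hadd, fun t => ?_⟩
  · exact cont_comp (fun t => norm_le_one_of_isom (hc.unit t).1) hc.cont hV.cont v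
  · have h1 := hadd (-t) t
    rw [neg_add_cancel, hzero] at h1
    have h2 : (c t * V t) * star (c t * V t) = 1 := by
      rw [star_mul, hV.star]
      calc c t * V t * (V (-t) * star (c t)) = c t * (V t * V (-t)) * star (c t) := by
            simp only [mul_assoc]
        _ = 1 := by rw [V_neg hV, mul_one, (hc.unit t).2]
    change star (c t * V t) = c (-t) * V (-t)
    calc star (c t * V t) = (c (-t) * V (-t) * (c t * V t)) * star (c t * V t) := by
          rw [← h1, one_mul]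
      _ = c (-t) * V (-t) := by rw [mul_assoc, h2, mul_one]

end Pool.Agent.Helper23.ED

end

end

section

section

open scoped InnerProductSpace Topology BoundedContinuousFunction FourierTransform ENNReal

open ContinuousLinearMap Filter MeasureTheory

set_option linter.unusedSectionVars false

namespace Pool.Agent.Helper23

variable {H : Type*} [NormedAddCommGroup H] [InnerProductSpace ℂ H] [CompleteSpace H]

namespace Modular

variable {A : VonNeumannAlgebra H} {ξ : H} {R : H →L[ℂ] H} {D : H →L[ℝ] H}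
  {Ψ : (ℝ →ᵇ ℂ) →⋆ₐ[ℂ] (H →L[ℂ] H)} (h : Modular A ξ R D Ψ)

include h

/-- the weak centralizer identity, before the Fourier transform -/
theorem weak_pre {c b : H →L[ℂ] H} (hc : c ∈ A) (hb : b ∈ A) {m : ℕ} {f f' : L2R ℂ}
    (hf : Pn m f = f) (hf' : Pn m f' = f') :
    ⟪b ξ, Ψ (kap f' (mulOp ℂ (he m) f)) (c ξ)⟫_ℂ =
      ⟪Ψ (kap f (mulOp ℂ (he m) f')) ((star c) ξ), (star b) ξ⟫_ℂ := by
  set K2 := kap f (mulOp ℂ (he m) f') * GB m with hK2
  conv_rhs => rw [weak_id1 (f' := f') hf]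
  rw [weak_id2 hf hf', ← hK2]
  rw [mul_assoc (2 - FR), psi_mul_apply Ψ (2 - FR) (K2 * (2 - FR)), psi_mul_apply Ψ K2,
    psi_adj Ψ (2 - FR), star_two_sub, ← h.D_mem' hb,
    ← h.D_mem' hc, ← h.psi_D (refl K2) K2, h.data.D_symm, h.data.D_sq]
  · rw [← h.psi_two_sub, ← h.psi_FR, psi_mul_apply, psi_mul_apply]
  · intro ρ
    rw [refl_apply, neg_neg, Complex.conj_conj]

end Modular

end Pool.Agent.Helper23

end

end

section

section

open scoped InnerProductSpace Topology ENNReal BoundedContinuousFunction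

open ContinuousLinearMap Filter MeasureTheory

namespace Pool.Agent.Helper23

universe u

variable {H : Type u} [NormedAddCommGroup H] [InnerProductSpace ℂ H] [CompleteSpace H]

variable {K : Type u} [NormedAddCommGroup K] [InnerProductSpace ℂ K] [CompleteSpace K]

variable {M N : VonNeumannAlgebra H} {ξ : H} {E : (H →L[ℂ] H) → (H →L[ℂ] H)}

namespace Oc

variable {MT NT : VonNeumannAlgebra K} {ET : (K →L[ℂ] K) → (K →L[ℂ] K)} {ζ : K}
  {rep : (ℕ → H →L[ℂ] H) → (K →L[ℂ] K)} (O : Oc M N E ξ MT NT ET ζ rep)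

include O

lemma const_mul (S : Setting M N E ξ) {x y : H →L[ℂ] H} (hx : x ∈ M) (hy : y ∈ M) :
    rep (fun _ => x * y) = rep (fun _ => x) * rep (fun _ => y) :=
  O.mul _ (ocS_const S.dense_comm hx) _ (ocS_const S.dense_comm hy)

end Oc

end Pool.Agent.Helper23

end

section

open scoped InnerProductSpace Topology BoundedContinuousFunction

open ContinuousLinearMap Filter

open Pool.Agent.Helper23.RBF

namespace Pool.Agent.Helper78.BC

universe u

variable {H : Type u} [NormedAddCommGroup H] [InnerProductSpace ℂ H] [CompleteSpace H]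

section

variable {A : VonNeumannAlgebra H} {ξ : H} {J : H →L[ℝ] H}
  {Ψ : (ℝ →ᵇ ℂ) →⋆ₐ[ℂ] (H →L[ℂ] H)}

/-- Lipschitz vectors fixed by `J` are fixed by the modular group. -/
theorem fixed_of_lip (h : Std A ξ J Ψ) (hN : TypeIIIOne A) {ζ : H} (hJ : J ζ = ζ) {K : ℝ}
    (hK : 0 ≤ K) (hu : ∀ u, Un A u → ‖cm J u ζ‖ ≤ K * ‖cm J u ξ‖) : Fixed Ψ ζ := by
  have hC : (0 : ℝ) ≤ 2 * K := by (clear * - hK; positivity)
  obtain ⟨z, hz⟩ := exists_fam h (fun l hl hl1 ε hε => exists_lev h hN hl hl1 hε) hC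
    (lip_all h hK hu)
  refine fixed_of h hJ fun a b ha hab G hG => ?_
  refine psi_zero hC hz.one hz.norm ?_ ?_ ha hab hG
  · intro l m hl hl1 hm hm1
    have := hz.rel l m hl hl1 hm hm1 1 (one_mem A)
    rw [rm_one h, rm_one h, one_apply_eq_self, one_apply_eq_self] at this
    refine this.trans (le_of_eq ?_)
    rw [← sub_smul, norm_smul, h.norm_one, mul_one, ← Complex.ofReal_sub, Complex.norm_real,
      Real.norm_eq_abs]
  · intro l m hl hl1 hm hm1 G G' hG hr hG' s hs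
    exact fam_psi h hC hz hl hl1 hm hm1 hG hr hG' hs

theorem fixed_bic (h : Std A ξ J Ψ) (hN : TypeIIIOne A) {x : H →L[ℂ] H} (hx : Bic A ξ x) :
    Fixed Ψ (x ξ) := by
  have h1 : Fixed Ψ (x ξ + J (x ξ)) := Fixed.of_tendsto fun r hr => by
    obtain ⟨ζ, hJ, h2, K, hK, hu⟩ := exists_lip h hx (Or.inl rfl) hr
    exact ⟨ζ, h2, fixed_of_lip h hN hJ hK hu⟩
  have h2 : Fixed Ψ (Complex.I • (x ξ - J (x ξ))) := Fixed.of_tendsto fun r hr => by
    obtain ⟨ζ, hJ, h2, K, hK, hu⟩ := exists_lip h hx (Or.inr rfl) hr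
    exact ⟨ζ, h2, fixed_of_lip h hN hJ hK hu⟩
  have h3 := (h1.add (h2.smul (-Complex.I))).smul (1 / 2)
  convert h3 using 1
  rw [smul_smul, neg_mul, Complex.I_mul_I, neg_neg, one_smul]
  rw [show x ξ + J (x ξ) + (x ξ - J (x ξ)) = (2 : ℂ) • x ξ by rw [two_smul]; abel, smul_smul]
  norm_num

end

end Pool.Agent.Helper78.BC

end

end

section

section

open scoped InnerProductSpace Topology

open ContinuousLinearMap Filter

namespace Pool.Agent.Helper23

universe u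

variable {H : Type u} [NormedAddCommGroup H] [InnerProductSpace ℂ H] [CompleteSpace H]

variable {M N : VonNeumannAlgebra H} {ξ : H} {E : (H →L[ℂ] H) → (H →L[ℂ] H)}

lemma norm_conj_le {u x : H →L[ℂ] H} (hu : star u * u = 1) : ‖star u * x * u‖ ≤ ‖x‖ := by
  have h1 := norm_le_one_of_isom hu
  have h2 : ‖star u‖ ≤ 1 := by rw [norm_star]; exact h1
  calc ‖star u * x * u‖ ≤ ‖star u * x‖ * ‖u‖ := norm_mul_le _ _
    _ ≤ (‖star u‖ * ‖x‖) * ‖u‖ := by gcongr; exact norm_mul_le _ _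
    _ ≤ (1 * ‖x‖) * 1 := by gcongr
    _ = ‖x‖ := by ring

lemma avK_mem {x : H →L[ℂ] H} (hx : x ∈ N) {d : ℝ} {z : H →L[ℂ] H} (hz : z ∈ avK N ξ x d) :
    z ∈ N ∧ ‖z‖ ≤ ‖x‖ := by
  have hconv : Convex ℝ ({z : H →L[ℂ] H | z ∈ N} ∩ Metric.closedBall 0 ‖x‖) :=
    (convex_vN N).inter (convex_closedBall _ _)
  have hsub : avG N ξ x d ⊆ ({z : H →L[ℂ] H | z ∈ N} ∩ Metric.closedBall 0 ‖x‖) := by
    rintro z ⟨u, hu, h1, h2, h3, rfl⟩
    refine ⟨mul_mem (mul_mem (star_mem hu) hx) hu, ?_⟩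
    rw [mem_closedBall_zero_iff]
    exact norm_conj_le h1
  have := convexHull_min hsub hconv hz
  exact ⟨this.1, mem_closedBall_zero_iff.1 this.2⟩

lemma norm_right_defect {z v : H →L[ℂ] H} {e : ℝ} (he : 0 ≤ e) (hz : z ∈ N) (hv : v ∈ N)
    (h1 : star v * v = 1) (h2 : v * star v = 1) (h3 : Defect N ξ 1 e v) :
    ‖z (v ξ)‖ ^ 2 ≤ ‖z ξ‖ ^ 2 + e * ‖z‖ ^ 2 := by
  have h4 := h3 (star v * (star z * z)) (mul_mem (star_mem hv) (mul_mem (star_mem hz) hz))
  have e1 : ⟪ξ, (star v * (star z * z)) (v ξ)⟫_ℂ = ((‖z (v ξ)‖ ^ 2 : ℝ) : ℂ) := by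
    change ⟪ξ, (star v) ((star z) (z (v ξ)))⟫_ℂ = _
    rw [inner_star_right, inner_star_right, inner_self_eq_norm_sq_to_K]
    norm_cast
  have e2 : ⟪ξ, v ((star v * (star z * z)) ξ)⟫_ℂ = ((‖z ξ‖ ^ 2 : ℝ) : ℂ) := by
    have : v ((star v * (star z * z)) ξ) = (star z) (z ξ) :=
      congrArg (fun T : H →L[ℂ] H => T ((star z) (z ξ))) h2
    rw [this, inner_star_right, inner_self_eq_norm_sq_to_K]
    norm_cast
  rw [e1, e2, Complex.ofReal_one, one_mul, ← Complex.ofReal_sub, Complex.norm_real,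
    Real.norm_eq_abs] at h4
  have h5 : ‖star v * (star z * z)‖ ≤ ‖z‖ ^ 2 := by
    have n2 := norm_le_one_of_isom h1
    calc ‖star v * (star z * z)‖ ≤ ‖star v‖ * ‖star z * z‖ := norm_mul_le _ _
      _ ≤ 1 * (‖star z‖ * ‖z‖) := by
          gcongr
          · rw [norm_star]; exact n2
          · exact norm_mul_le _ _
      _ = ‖z‖ ^ 2 := by rw [norm_star]; ring
  have h6 := le_of_abs_le h4
  (clear * - h6 h5 he; nlinarith [mul_le_mul_of_nonneg_left h5 he])

end Pool.Agent.Helper23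

end

end

section

section

open scoped InnerProductSpace Topology ENNReal

open ContinuousLinearMap Filter MeasureTheory

set_option linter.unusedSectionVars false

set_option linter.unusedVariables false

namespace Pool.Agent.Helper23

variable {H : Type*} [NormedAddCommGroup H] [InnerProductSpace ℂ H] [CompleteSpace H]

variable {M N : VonNeumannAlgebra H} {ξ : H} {E : (H →L[ℂ] H) → (H →L[ℂ] H)}

/-- unimodular multiplication operators preserve the weight. -/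
lemma mulOp_mem_GK (A : VonNeumannAlgebra H) {m : ℝ → ℂ} (h : BM m) (h1 : ∀ s, ‖m s‖ = 1) :
    mulOp H m ∈ GK A ξ := by
  have e1 : ∀ s, (starRingEnd ℂ) (m s) * m s = 1 := by
    intro s
    rw [RCLike.conj_mul, h1]
    simp
  refine ⟨mulOp_mem_amp h, ?_, ?_, fun Y _ => ?_⟩
  · ext F : 1
    change (star (mulOp H m)) (mulOp H m F) = F
    rw [mulOp_star h, mulOp_mulOp h.conj h]
    ext1
    filter_upwards [mulOp_coe (h.conj.mul h) F] with s hs
    rw [hs, e1, one_smul]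
  · ext F : 1
    change mulOp H m ((star (mulOp H m)) F) = F
    rw [mulOp_star h, mulOp_mulOp h h.conj]
    ext1
    filter_upwards [mulOp_coe (h.mul h.conj) F] with s hs
    rw [hs, mul_comm, e1, one_smul]
  · have h2 : (Y * mulOp H m).comp (axi ξ) = (Y.comp (axi ξ)).comp (mulOp ℂ m) := by
      ext f : 1
      change Y (mulOp H m (ten f ξ)) = Y (ten (mulOp ℂ m f) ξ)
      rw [mulOp_ten h]
    rw [SX, h2, SS_mulOp h h1]
    rfl

end Pool.Agent.Helper23

end

end
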