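import Pool.Agent.Helper23.FB.L01_a0
import Pool.Agent.Helper23.FB.L01_a1
import Pool.Agent.Helper23.FB.L01_a12
import Pool.Agent.Helper23.FB.L01_a13
import Pool.Agent.Helper23.FB.L01_a2
import Pool.Agent.Helper23.FB.L01_a9

/-!
Parts of Helper23.FA.L01_02, Helper23.FA.L02_00, Helper23.FA.L01_18, Helper23.FA.L01_05, Helper23.FA.L02_12
-/

attribute [local instance 5000]
  Pool.Agent.Helper23.FB.Inst.rCharZero Pool.Agent.Helper23.FB.Inst.rALM
  Pool.Agent.Helper23.FB.Inst.rARM Pool.Agent.Helper23.FB.Inst.rALSM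
  Pool.Agent.Helper23.FB.Inst.rARSM Pool.Agent.Helper23.FB.Inst.rARRLE
  Pool.Agent.Helper23.FB.Inst.rALRLE Pool.Agent.Helper23.FB.Inst.rARRLT
  Pool.Agent.Helper23.FB.Inst.rALRLT Pool.Agent.Helper23.FB.Inst.rPMRLT
  Pool.Agent.Helper23.FB.Inst.rMPRLT Pool.Agent.Helper23.FB.Inst.rPMM
  Pool.Agent.Helper23.FB.Inst.rMPM Pool.Agent.Helper23.FB.Inst.rPMSM
  Pool.Agent.Helper23.FB.Inst.rMPSM Pool.Agent.Helper23.FB.Inst.rEAOL
  Pool.Agent.Helper23.FB.Inst.rIOR Pool.Agent.Helper23.FB.Inst.rISOR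
  Pool.Agent.Helper23.FB.Inst.rFS Pool.Agent.Helper23.FB.Inst.rcCharZero
  Pool.Agent.Helper23.FB.Inst.rNZD Pool.Agent.Helper23.FB.Inst.rcNZD
  Pool.Agent.Helper23.FB.Inst.bSemiring Pool.Agent.Helper23.FB.Inst.bStar
  Pool.Agent.Helper23.FB.Inst.bAlg Pool.Agent.Helper23.FB.Inst.bSub
  Pool.Agent.Helper23.FB.Inst.bMul Pool.Agent.Helper23.FB.Inst.bAdd
  Pool.Agent.Helper23.FB.Inst.iRing Pool.Agent.Helper23.FB.Inst.iSemiring
  Pool.Agent.Helper23.FB.Inst.iAlgC Pool.Agent.Helper23.FB.Inst.iSMulC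
  Pool.Agent.Helper23.FB.Inst.iModC Pool.Agent.Helper23.FB.Inst.iAlgR
  Pool.Agent.Helper23.FB.Inst.iSMulR Pool.Agent.Helper23.FB.Inst.iModR
  Pool.Agent.Helper23.FB.Inst.iMonoid Pool.Agent.Helper23.FB.Inst.iSemigroup
  Pool.Agent.Helper23.FB.Inst.iMulOneClass Pool.Agent.Helper23.FB.Inst.iMul
  Pool.Agent.Helper23.FB.Inst.iAdd Pool.Agent.Helper23.FB.Inst.iSub
  Pool.Agent.Helper23.FB.Inst.iNeg Pool.Agent.Helper23.FB.Inst.iAddCommMonoid
  Pool.Agent.Helper23.FB.Inst.iAddCommGroup Pool.Agent.Helper23.FB.Inst.iAddGroup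
  Pool.Agent.Helper23.FB.Inst.iAddMonoid Pool.Agent.Helper23.FB.Inst.iSMulZeroC
  Pool.Agent.Helper23.FB.Inst.iMulActC Pool.Agent.Helper23.FB.Inst.iDSMulC
  Pool.Agent.Helper23.FB.Inst.iDSMulR Pool.Agent.Helper23.FB.Inst.iSNAG
  Pool.Agent.Helper23.FB.Inst.iSNACG Pool.Agent.Helper23.FB.Inst.iNorm
  Pool.Agent.Helper23.FB.Inst.iNSC' Pool.Agent.Helper23.FB.Inst.iNSR'
  Pool.Agent.Helper23.FB.Inst.iTop Pool.Agent.Helper23.FB.Inst.iT2 Pool.Agent.Helper23.FB.Inst.iTR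
  Pool.Agent.Helper23.FB.Inst.iSCC Pool.Agent.Helper23.FB.Inst.iIST
  Pool.Agent.Helper23.FB.Inst.iSCCR Pool.Agent.Helper23.FB.Inst.iISTR
  Pool.Agent.Helper23.FB.Inst.iZHC Pool.Agent.Helper23.FB.Inst.iAHC
  Pool.Agent.Helper23.FB.Inst.iAMHC Pool.Agent.Helper23.FB.Inst.iMAHC
  Pool.Agent.Helper23.FB.Inst.lTop Pool.Agent.Helper23.FB.Inst.lUnif
  Pool.Agent.Helper23.FB.Inst.lACM Pool.Agent.Helper23.FB.Inst.lACG
  Pool.Agent.Helper23.FB.Inst.lSNAG Pool.Agent.Helper23.FB.Inst.lSNACG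
  Pool.Agent.Helper23.FB.Inst.lNACG Pool.Agent.Helper23.FB.Inst.lNorm
  Pool.Agent.Helper23.FB.Inst.lIPS Pool.Agent.Helper23.FB.Inst.lMod
  Pool.Agent.Helper23.FB.Inst.lSMul Pool.Agent.Helper23.FB.Inst.lT2
  Pool.Agent.Helper23.FB.Inst.iStar Pool.Agent.Helper23.FB.Inst.iStarMul
  Pool.Agent.Helper23.FB.Inst.iStarAddMonoid Pool.Agent.Helper23.FB.Inst.iStarRing
  Pool.Agent.Helper23.FB.Inst.iNSC Pool.Agent.Helper23.FB.Inst.iSOR
  Pool.Agent.Helper23.FB.Inst.iALM Pool.Agent.Helper23.FB.Inst.iARM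
  Pool.Agent.Helper23.FB.Inst.iCFC Pool.Agent.Helper23.FB.Inst.iNCFC
  Pool.Agent.Helper23.FB.Inst.iStarModR Pool.Agent.Helper23.FB.Inst.iStarModC
  Pool.Agent.Helper23.FB.Inst.eStar Pool.Agent.Helper23.FB.Inst.eAdd
  Pool.Agent.Helper23.FB.Inst.eMul Pool.Agent.Helper23.FB.Inst.eOne
  Pool.Agent.Helper23.FB.Inst.eZero Pool.Agent.Helper23.FB.Inst.eMulAction
  Pool.Agent.Helper23.FB.Inst.eAMHC2 Pool.Agent.Helper23.FB.Inst.eZHC2
  Pool.Agent.Helper23.FB.Inst.lAMHC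

namespace Pool.Agent.Helper23
end Pool.Agent.Helper23
namespace Pool.Agent.Helper23.ED.CoC
end Pool.Agent.Helper23.ED.CoC
namespace Pool.Agent.Helper23.RBF
end Pool.Agent.Helper23.RBF
namespace Pool.Agent.Helper43.TTF
end Pool.Agent.Helper43.TTF

section

section

open scoped InnerProductSpace Topology BoundedContinuousFunction

open ContinuousLinearMap Filter MeasureTheory

namespace Pool.Agent.Helper23

variable {H : Type*} [NormedAddCommGroup H] [InnerProductSpace ℂ H] [CompleteSpace H]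

namespace TTA

set_option linter.unusedSectionVars false

variable (A : VonNeumannAlgebra H) (ξ : H)

attribute [local instance] rips

lemma K_closed : IsClosed (K A ξ : Set H) := Submodule.isClosed_topologicalClosure _

end TTA

end Pool.Agent.Helper23

end

section

open scoped InnerProductSpace Topology

open ContinuousLinearMap Filter

open Pool.Agent.Helper23 Pool.Agent.Helper23.RBF

namespace Pool.Agent.Helper78.BC

universe u

namespace Transport

variable {H : Type u} [NormedAddCommGroup H] [InnerProductSpace ℂ H] [CompleteSpace H]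

variable {K : Type u} [NormedAddCommGroup K] [InnerProductSpace ℂ K] [CompleteSpace K]

variable {A : VonNeumannAlgebra H} {ξ : H} {i : K →L[ℂ] H} {κ : K}

namespace Sub

variable (S : Sub A ξ i κ)

include S

/-- the key lemma -/
theorem lift (hsep : ∀ a ∈ A, a ξ = 0 → a = 0) (T : K →L[ℂ] K)
    (hT : ∀ b ∈ A.commutant, T * r i b = r i b * T) : ∃ a ∈ A, ‖a‖ ≤ ‖T‖ ∧ r i a = T := by
  have hκ : i κ = ξ := S.vec
  have key : ∀ b ∈ A.commutant, ‖b (i (T κ))‖ ≤ ‖T‖ * ‖b ξ‖ := by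
    intro b hb
    have hbb : star b * b ∈ A.commutant := mul_mem (star_mem hb) hb
    set c : K →L[ℂ] K := r i (star b * b) with hc
    have hcq : ∀ k : K, ⟪k, c k⟫_ℂ = ⟪b (i k), b (i k)⟫_ℂ := by
      intro k
      rw [hc, r_apply, ← inner_i]
      change ⟪i k, (star b) (b (i k))⟫_ℂ = _
      rw [ContinuousLinearMap.star_eq_adjoint, adjoint_inner_right]
    have hcpos : (0 : K →L[ℂ] K) ≤ c := by
      rw [ContinuousLinearMap.nonneg_iff_isPositive]
      refine (ContinuousLinearMap.isPositive_iff_complex _).2 fun k => ?_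
      have h1 : ⟪c k, k⟫_ℂ = ((‖b (i k)‖ ^ 2 : ℝ) : ℂ) := by
        have h2 := hcq k
        have h3 : ⟪c k, k⟫_ℂ = (starRingEnd ℂ) ⟪k, c k⟫_ℂ := (inner_conj_symm _ _).symm
        rw [h3, h2, inner_self_eq_norm_sq_to_K]
        simp
      rw [h1]
      refine ⟨?_, ?_⟩
      · rw [RCLike.re_to_complex, Complex.ofReal_re]
      · rw [RCLike.re_to_complex, Complex.ofReal_re]
        (clear * -; positivity)
    have hd2 : CFC.sqrt c * CFC.sqrt c = c := CFC.sqrt_mul_sqrt_self c hcpos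
    have hcomm : Commute c T := (hT _ hbb).symm
    have hdT : Commute (CFC.sqrt c) T := by
      unfold CFC.sqrt
      exact hcomm.cfcₙ_nnreal _
    have hds : star (CFC.sqrt c) = CFC.sqrt c := (IsSelfAdjoint.of_nonneg (CFC.sqrt_nonneg c)).star_eq
    set d := CFC.sqrt c with hd
    have hdk : ∀ k : K, ‖d k‖ = ‖b (i k)‖ := by
      intro k
      have h1 : ⟪d k, d k⟫_ℂ = ⟪b (i k), b (i k)⟫_ℂ := by
        rw [← hcq, ← hd2]
        change _ = ⟪k, d (d k)⟫_ℂ
        nth_rewrite 3 [← hds]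
        rw [ContinuousLinearMap.star_eq_adjoint, adjoint_inner_right]
      rw [inner_self_eq_norm_sq_to_K, inner_self_eq_norm_sq_to_K] at h1
      have h2 : ‖d k‖ ^ 2 = ‖b (i k)‖ ^ 2 := by exact_mod_cast h1
      exact (sq_eq_sq₀ (norm_nonneg _) (norm_nonneg _)).1 h2
    have h3 : d (T κ) = T (d κ) := congrArg (fun U : K →L[ℂ] K => U κ) hdT
    rw [← hdk, h3, ← hκ, ← hdk]
    exact T.le_opNorm _
  obtain ⟨a, ha, ha1, ha2⟩ := exists_op A.commutant (norm_nonneg T) (dense_of_separating A ξ hsep)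
    key
  rw [VonNeumannAlgebra.commutant_commutant] at ha
  refine ⟨a, ha, ha2, ?_⟩
  have hcl : IsClosed {v : H | r i a (adjoint i v) = T (adjoint i v)} :=
    isClosed_eq ((r i a).continuous.comp (adjoint i).continuous)
      (T.continuous.comp (adjoint i).continuous)
  have hsub : (orb A.commutant ξ : Set H) ⊆ {v : H | r i a (adjoint i v) = T (adjoint i v)} := by
    rintro _ ⟨b, hb, rfl⟩
    change r i a (adjoint i (b ξ)) = T (adjoint i (b ξ))
    have e1 : adjoint i (b ξ) = r i b κ := by rw [r_apply, hκ]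
    have e2 : T (r i b κ) = r i b (T κ) := congrArg (fun U : K →L[ℂ] K => U κ) (hT b hb)
    have e3 : r i a (r i b κ) = r i b (r i a κ) :=
      (congrArg (fun U : K →L[ℂ] K => U κ) (S.r_comm ha hb)).symm
    have e4 : r i a κ = T κ := by
      refine S.i_inj ?_
      rw [S.i_r ha, hκ]
      have := ha1 1 (one_mem _)
      exact this
    rw [e1, e2, e3, e4]
  ext k
  have h1 : i k ∈ closure (orb A.commutant ξ : Set H) := dense_of_separating A ξ hsep (i k)
  have h2 : r i a (adjoint i (i k)) = T (adjoint i (i k)) := (closure_minimal hsub hcl) h1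
  rwa [S.isom] at h2

end Sub

variable (S : Sub A ξ i κ)

include S

lemma mem_B (hsep : ∀ a ∈ A, a ξ = 0 → a = 0) (T : K →L[ℂ] K) :
    T ∈ B A i ↔ ∃ a ∈ A, r i a = T := by
  have h0 : T ∈ B A i ↔ ∀ g ∈ {c : K →L[ℂ] K | ∀ x ∈ A, c * r i x = r i x * c},
      g * T = T * g ∧ star g * T = T * star g := StarSubalgebra.mem_centralizer_iff ℂ
  rw [h0]
  constructor
  · intro h
    obtain ⟨a, ha, -, h1⟩ := S.lift hsep T fun b hb => (h (r i b) fun x hx => S.r_comm hx hb).1.symm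
    exact ⟨a, ha, h1⟩
  · rintro ⟨a, ha, rfl⟩ g hg
    refine ⟨hg a ha, ?_⟩
    have h1 := congrArg star (hg (star a) (star_mem ha))
    rw [star_mul, star_mul, Sub.r_star, star_star] at h1
    exact h1.symm

lemma exists_lift (hsep : ∀ a ∈ A, a ξ = 0 → a = 0) {T : K →L[ℂ] K} (hT : T ∈ B A i) :
    ∃ a ∈ A, ‖a‖ ≤ ‖T‖ ∧ r i a = T := by
  obtain ⟨a, ha, rfl⟩ := (mem_B S hsep T).1 hT
  exact S.lift hsep _ fun b hb => (S.r_comm ha hb).symm

lemma r_mem (hsep : ∀ a ∈ A, a ξ = 0 → a = 0) {a : H →L[ℂ] H} (ha : a ∈ A) : r i a ∈ B A i :=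
  (mem_B S hsep _).2 ⟨a, ha, rfl⟩

lemma dense_B (hsep : ∀ a ∈ A, a ξ = 0 → a = 0) : Dense (orb (B A i) κ : Set K) := by
  intro k
  rw [Metric.mem_closure_iff]
  intro ε hε
  obtain ⟨a, ha, h1⟩ := S.cyc k ε hε
  refine ⟨r i a κ, ⟨r i a, r_mem S hsep ha, rfl⟩, ?_⟩
  rw [dist_eq_norm, ← S.i_norm, map_sub, S.i_r ha, S.vec, norm_sub_rev]
  exact h1

lemma sep_B (hsep : ∀ a ∈ A, a ξ = 0 → a = 0) : ∀ b ∈ B A i, b κ = 0 → b = 0 := by
  intro b hb hbκ
  obtain ⟨a, ha, rfl⟩ := (mem_B S hsep b).1 hb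
  have h1 : a ξ = 0 := by
    rw [← S.vec, ← S.i_r ha, hbκ, map_zero]
  rw [hsep a ha h1]
  ext k
  change adjoint i ((0 : H →L[ℂ] H) (i k)) = (0 : K →L[ℂ] K) k
  simp

end Transport

end Pool.Agent.Helper78.BC

end

section

open scoped InnerProductSpace Topology ENNReal BoundedContinuousFunction

open ContinuousLinearMap Filter MeasureTheory

namespace Pool.Agent.Helper23.ED

open Pool.Agent.Helper23 Pool.Agent.Helper23.RBF

open Pool.Agent.Helper78.BC.Transport (Sub r)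

universe u

variable {H : Type u} [NormedAddCommGroup H] [InnerProductSpace ℂ H] [CompleteSpace H]

variable {K : Type u} [NormedAddCommGroup K] [InnerProductSpace ℂ K] [CompleteSpace K]

variable {L : Type u} [NormedAddCommGroup L] [InnerProductSpace ℂ L] [CompleteSpace L]

variable {N : VonNeumannAlgebra H} {ψ : (H →L[ℂ] H) → ℝ≥0∞} {ξ : H} {i : K →L[ℂ] H} {κ : K}
  {Λ : (H →L[ℂ] H) → L} {ρ : (H →L[ℂ] H) → (L →L[ℂ] L)}

open Pool.Agent.Helper78.BC in
lemma NgF_mem (Sb : Sub N ξ i κ) (hsep : ∀ a ∈ N, a ξ = 0 → a = 0)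
    (hψ : IsNSFWeight N ψ) (hG : Gns N ψ Λ ρ) {X : K →L[ℂ] K}
    (hX : X ∈ (Transport.B N i).commutant) {p : H →L[ℂ] H} (hp : p ∈ N)
    (h1 : i (X κ) = p ξ) {q : K × L} (hq : q ∈ Gp N ψ ξ i Λ) :
    ((X q.1, ρ p q.2) : K × L) ∈ Gp N ψ ξ i Λ := by
  obtain ⟨a, ha, h2, h3⟩ := hq
  refine ⟨a * p, Dm_mul hψ ha hp, ?_, ?_⟩
  · have h4 : q.1 = r i a κ := Sb.i_inj (by rw [h2, Sb.i_r ha.1, Sb.vec])
    have h5 : X (r i a κ) = r i a (X κ) :=
      (commute_apply (Transport.r_mem Sb hsep ha.1) hX κ).symm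
    change i (X q.1) = a (p ξ)
    rw [h4, h5, Sb.i_r ha.1, h1]
  · change ρ p q.2 = Λ (a * p)
    rw [h3, hG.mul p hp a ha]

end Pool.Agent.Helper23.ED

end

section

open scoped InnerProductSpace Topology ENNReal BoundedContinuousFunction

open ContinuousLinearMap Filter MeasureTheory

namespace Pool.Agent.Helper23.ED

open Pool.Agent.Helper23 Pool.Agent.Helper23.RBF

open Pool.Agent.Helper78.BC.Transport (Sub r)

universe u

variable {H : Type u} [NormedAddCommGroup H] [InnerProductSpace ℂ H] [CompleteSpace H]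

variable {K : Type u} [NormedAddCommGroup K] [InnerProductSpace ℂ K] [CompleteSpace K]

variable {M N : VonNeumannAlgebra H} {E : (H →L[ℂ] H) → (H →L[ℂ] H)} {ξ : H}
  {i : K →L[ℂ] H} {κ : K}

open CoC

open Pool.Agent.Helper78.BC in
theorem transfer (S : Setting M N E ξ) (Sb : Sub N ξ i κ) {R : H →L[ℂ] H} {D : H →L[ℝ] H}
    {Ψ : (ℝ →ᵇ ℂ) →⋆ₐ[ℂ] (H →L[ℂ] H)} (hΨ : Modular M ξ R D Ψ)
    (hN : ∀ (t : ℝ), ∀ a ∈ N, Ψ (expB t) * a * Ψ (expB (-t)) ∈ N)
    {Ψ₀ Ψ' : (ℝ →ᵇ ℂ) →⋆ₐ[ℂ] (K →L[ℂ] K)} (h₀ : UG (fun t => Ψ₀ (expB t)))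
    (hi : ∀ t v, i (Ψ₀ (expB t) v) = Ψ (expB t) (i v)) (h' : UG (fun t => Ψ' (expB t)))
    (hc : ∀ t, Ψ' (expB t) * Ψ₀ (expB (-t)) ∈ Transport.B N i) :
    ∃ c : ℝ → H →L[ℂ] H, (∀ t, c t ∈ N) ∧
      (∀ t, star (c t) * c t = 1 ∧ c t * star (c t) = 1) ∧
      (∀ v, Continuous fun t => c t v) ∧
      (∀ s t, c (s + t) = c s * (Ψ (expB s) * c t * Ψ (expB (-s)))) ∧
      (∀ t, r i (c t) = Ψ' (expB t) * Ψ₀ (expB (-t))) ∧
      ∀ u ∈ N, ∀ (t : ℝ) (z : ℂ), (r i u * Ψ' (expB t) = z • (Ψ' (expB t) * r i u) ↔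
        u * (c t * Ψ (expB t)) = z • (c t * Ψ (expB t) * u)) := by
  have hsep : ∀ a ∈ N, a ξ = 0 → a = 0 := fun a ha h => S.sep a (S.le a ha) h
  have hex : ∀ t : ℝ, ∃ a ∈ N, ‖a‖ ≤ ‖Ψ' (expB t) * Ψ₀ (expB (-t))‖ ∧
      r i a = Ψ' (expB t) * Ψ₀ (expB (-t)) := fun t =>
    Transport.exists_lift Sb hsep (hc t)
  choose c hcN _ hcr using hex
  have hst : ∀ t, star (Ψ' (expB t) * Ψ₀ (expB (-t))) = Ψ₀ (expB t) * Ψ' (expB (-t)) := by
    intro t
    rw [star_mul]
    have e1 : star (Ψ₀ (expB (-t))) = Ψ₀ (expB t) := by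
      have := h₀.star (-t)
      simpa using this
    have e2 : star (Ψ' (expB t)) = Ψ' (expB (-t)) := h'.star t
    rw [e1, e2]
  have hun : ∀ t, star (c t) * c t = 1 ∧ c t * star (c t) = 1 := by
    intro t
    constructor
    · refine Sb.r_inj hsep (mul_mem (star_mem (hcN t)) (hcN t)) (one_mem _) ?_
      rw [← Sb.r_mul' (hcN t), ← Transport.Sub.r_star, hcr, hst, Sb.r_one]
      calc Ψ₀ (expB t) * Ψ' (expB (-t)) * (Ψ' (expB t) * Ψ₀ (expB (-t)))
          = Ψ₀ (expB t) * (Ψ' (expB (-t)) * Ψ' (expB t)) * Ψ₀ (expB (-t)) := by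
            simp only [mul_assoc]
        _ = 1 := by rw [V_inv', mul_one, V_inv]
    · refine Sb.r_inj hsep (mul_mem (hcN t) (star_mem (hcN t))) (one_mem _) ?_
      rw [← Sb.r_mul (hcN t), ← Transport.Sub.r_star, hcr, hst, Sb.r_one]
      calc Ψ' (expB t) * Ψ₀ (expB (-t)) * (Ψ₀ (expB t) * Ψ' (expB (-t)))
          = Ψ' (expB t) * (Ψ₀ (expB (-t)) * Ψ₀ (expB t)) * Ψ' (expB (-t)) := by
            simp only [mul_assoc]
        _ = 1 := by rw [V_inv', mul_one, V_inv]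
  have hle : ∀ t v, ‖c t v‖ ≤ ‖v‖ := fun t v => norm_le_one (hun t).1 v
  refine ⟨c, hcN, hun, ?_, ?_, hcr, ?_⟩
  · -- continuity
    have hk : Continuous fun t : ℝ => i (Ψ' (expB t) (Ψ₀ (expB (-t)) κ)) := by
      refine i.continuous.comp ?_
      have hn : ∀ t v, ‖Ψ' (expB t) v‖ ≤ ‖v‖ := fun t v => norm_le_one (by
        have e2 : star (Ψ' (expB t)) = Ψ' (expB (-t)) := h'.star t
        rw [e2, V_inv']) v
      have hneg : Continuous fun t : ℝ => Ψ₀ (expB (-t)) κ := (h₀.cont κ).comp continuous_neg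
      rw [continuous_iff_continuousAt]
      intro t₀
      have h1 : Tendsto (fun t : ℝ => Ψ' (expB t) (Ψ₀ (expB (-t₀)) κ)) (𝓝 t₀)
          (𝓝 (Ψ' (expB t₀) (Ψ₀ (expB (-t₀)) κ))) := (h'.cont _).continuousAt
      have h2 : Tendsto (fun t : ℝ => Ψ' (expB t) (Ψ₀ (expB (-t)) κ - Ψ₀ (expB (-t₀)) κ)) (𝓝 t₀)
          (𝓝 0) := by
        refine squeeze_zero_norm (fun t => hn t _) ?_
        have h3 : Tendsto (fun t : ℝ => Ψ₀ (expB (-t)) κ - Ψ₀ (expB (-t₀)) κ) (𝓝 t₀)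
            (𝓝 (Ψ₀ (expB (-t₀)) κ - Ψ₀ (expB (-t₀)) κ)) :=
          (hneg.continuousAt (x := t₀)).sub tendsto_const_nhds
        rw [sub_self] at h3
        have h4 := h3.norm
        rwa [norm_zero] at h4
      have h5 := h1.add h2
      rw [add_zero] at h5
      refine h5.congr fun t => ?_
      rw [map_sub]
      abel
    have hd : Dense (orb N.commutant ξ : Set H) := dense_of_separating N ξ hsep
    have horb : ∀ b ∈ N.commutant, Continuous fun t => c t (b ξ) := by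
      intro b hb
      have h1 : (fun t => c t (b ξ)) =
          fun t => b (i (Ψ' (expB t) (Ψ₀ (expB (-t)) κ))) := by
        funext t
        rw [commute_apply (hcN t) hb]
        have h2 : i (r i (c t) κ) = c t ξ := by rw [Sb.i_r (hcN t), Sb.vec]
        rw [← h2, hcr]
        rfl
      rw [h1]
      exact b.continuous.comp hk
    intro v
    refine continuous_of_uniform_approx_of_continuous fun U hU => ?_
    obtain ⟨ε, hε, hεU⟩ := Metric.mem_uniformity_dist.1 hU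
    obtain ⟨_, ⟨b, hb, rfl⟩, h1⟩ := Metric.mem_closure_iff.1 (hd v) ε hε
    refine ⟨fun t => c t (b ξ), horb b hb, fun t => hεU ?_⟩
    rw [dist_eq_norm, ← map_sub]
    refine (hle t _).trans_lt ?_
    rwa [← dist_eq_norm]
  · -- cocycle
    intro s t
    have hm := hN s (c t) (hcN t)
    refine Sb.r_inj hsep (hcN _) (mul_mem (hcN s) hm) ?_
    rw [← Sb.r_mul (hcN s), r_conj Sb hi (hcN t), hcr, hcr, hcr]
    calc Ψ' (expB (s + t)) * Ψ₀ (expB (-(s + t)))
        = Ψ' (expB s) * Ψ' (expB t) * (Ψ₀ (expB (-t)) * Ψ₀ (expB (-s))) := by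
          rw [V_add, neg_add_rev, V_add]
      _ = Ψ' (expB s) * (Ψ₀ (expB (-s)) * Ψ₀ (expB s)) * (Ψ' (expB t) * Ψ₀ (expB (-t))) *
            Ψ₀ (expB (-s)) := by
          rw [V_inv', mul_one]
          simp only [mul_assoc]
      _ = _ := by simp only [mul_assoc]
  · -- commutation
    intro u hu t z
    have hm := hN t u hu
    have hE : Ψ' (expB t) = r i (c t) * Ψ₀ (expB t) := by
      rw [hcr, mul_assoc, V_inv', mul_one]
    have hF : Ψ₀ (expB t) * r i u = r i (Ψ (expB t) * u * Ψ (expB (-t))) * Ψ₀ (expB t) := by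
      rw [r_conj Sb hi hu, mul_assoc, V_inv', mul_one]
    have hL : r i u * Ψ' (expB t) = r i (u * c t) * Ψ₀ (expB t) := by
      rw [hE, ← mul_assoc, Sb.r_mul hu]
    have hR : z • (Ψ' (expB t) * r i u) =
        r i (z • (c t * (Ψ (expB t) * u * Ψ (expB (-t))))) * Ψ₀ (expB t) := by
      rw [hE, mul_assoc, hF, ← mul_assoc, Sb.r_mul (hcN t), r_smul, smul_mul_assoc]
    have hG : z • (c t * Ψ (expB t) * u) =
        (z • (c t * (Ψ (expB t) * u * Ψ (expB (-t))))) * Ψ (expB t) := by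
      rw [smul_mul_assoc, mul_assoc (c t), mul_assoc (c t), mul_assoc (Ψ (expB t) * u), V_inv',
        mul_one]
    rw [hL, hR, hG, ← mul_assoc u]
    constructor
    · intro h
      have h1 : r i (u * c t) = r i (z • (c t * (Ψ (expB t) * u * Ψ (expB (-t))))) := by
        have h2 := congrArg (fun T => T * Ψ₀ (expB (-t))) h
        rwa [mul_assoc, V_inv, mul_one, mul_assoc, V_inv, mul_one] at h2
      rw [Sb.r_inj hsep (mul_mem hu (hcN t)) (smul_mem' z (mul_mem (hcN t) hm)) h1]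
    · intro h
      have h1 : u * c t = z • (c t * (Ψ (expB t) * u * Ψ (expB (-t)))) := by
        have h2 := congrArg (fun T => T * Ψ (expB (-t))) h
        rwa [mul_assoc (u * c t), V_inv, mul_one, mul_assoc (z • _), V_inv, mul_one] at h2
      rw [h1]

end Pool.Agent.Helper23.ED

end

section

open scoped InnerProductSpace Topology ENNReal BoundedContinuousFunction

open ContinuousLinearMap Filter MeasureTheory

namespace Pool.Agent.Helper23.ED

open Pool.Agent.Helper23 Pool.Agent.Helper23.RBF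

open Pool.Agent.Helper78.BC.Transport (Sub r)

universe u

open Pool.Agent.Helper23.TTA (Rop Dop)

variable {H : Type u} [NormedAddCommGroup H] [InnerProductSpace ℂ H] [CompleteSpace H]

variable {K : Type u} [NormedAddCommGroup K] [InnerProductSpace ℂ K] [CompleteSpace K]

variable {M N : VonNeumannAlgebra H} {E : (H →L[ℂ] H) → (H →L[ℂ] H)}

variable {ξ : H} {i : K →L[ℂ] H} {κ : K}

namespace TrA

open Pool.Agent.Helper78.BC in
lemma i_K (S : Setting M N E ξ) (Sb : Sub N ξ i κ) {u : K}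
    (hu : u ∈ TTA.K (Transport.B N i) κ) : i u ∈ TTA.K M ξ := by
  have hsep : ∀ a ∈ N, a ξ = 0 → a = 0 := fun a ha h => S.sep a (S.le a ha) h
  have hcl : IsClosed {u : K | i u ∈ TTA.K M ξ} :=
    (TTA.K_closed M ξ).preimage i.continuous
  have hsub : (TTA.K0 (Transport.B N i) κ : Set K) ⊆ {u : K | i u ∈ TTA.K M ξ} := by
    rintro _ ⟨b, hb, hb', rfl⟩
    obtain ⟨a, ha, -, rfl⟩ := Transport.exists_lift Sb hsep hb
    have ha' : star a = a := by
      refine Sb.r_inj hsep (star_mem ha) ha ?_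
      rw [← Transport.Sub.r_star, hb']
    change i (r i a κ) ∈ TTA.K M ξ
    rw [Sb.i_r ha, Sb.vec]
    exact TTA.mem_K_of M ξ (S.le _ ha) ha'
  exact closure_minimal hsub hcl hu

end TrA

end Pool.Agent.Helper23.ED

end

end

section

section

open scoped InnerProductSpace Topology

open ContinuousLinearMap Filter

namespace Pool.Agent.Helper88.CS

open Pool.Agent.Helper23

universe u

variable {H : Type u} [NormedAddCommGroup H] [InnerProductSpace ℂ H] [CompleteSpace H]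

open Pool.Agent.Helper78.BC Pool.Agent.Helper78.BC.Transport RealAux in
theorem exists_real (N : VonNeumannAlgebra H) (hN : IsTypeIIIOne N) {m : ℕ} (hm : 0 < m)
    (F : HS H m) (hF : ‖F‖ = 1) (hsep : ∀ x ∈ N, (∀ i, x (F i) = 0) → x = 0) :
    ∃ (K : Type u) (_ : NormedAddCommGroup K) (_ : InnerProductSpace ℂ K) (_ : CompleteSpace K)
      (B : VonNeumannAlgebra K) (κ : K) (π : (H →L[ℂ] H) → (K →L[ℂ] K)),
      III1V B ∧ ‖κ‖ = 1 ∧ Dense (orb B κ : Set K) ∧ (∀ b ∈ B, b κ = 0 → b = 0) ∧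
      IsoPi N B π ∧ ∀ x ∈ N, ⟪κ, π x κ⟫_ℂ = ∑ i, ⟪F i, x (F i)⟫_ℂ := by
  set A : VonNeumannAlgebra (HS H m) := amp m N with hA
  have hdA : ∀ x ∈ N, diag m x ∈ A := fun x hx => (mem_amp hm N).2 ⟨x, hx, rfl⟩
  have hsepA : ∀ a ∈ A, a F = 0 → a = 0 := by
    intro a ha h
    obtain ⟨x, hx, rfl⟩ := (mem_amp hm N).1 ha
    have h1 : x = 0 := hsep x hx fun i => by
      rw [← diag_apply, h]
      rfl
    rw [h1, diag_zero]
  set V : Submodule ℂ (HS H m) := (orb A F).topologicalClosure with hV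
  have hFV : F ∈ V := Submodule.le_topologicalClosure _ ⟨1, one_mem _, rfl⟩
  have hadj : ∀ v : HS H m, V.subtypeL (adjoint V.subtypeL v) = V.starProjection v := by
    intro v
    rw [Submodule.adjoint_subtypeL]
    rfl
  have S : Sub A F V.subtypeL (⟨F, hFV⟩ : V) := by
    refine ⟨fun k => ?_, fun x hx k => ?_, rfl, fun k ε hε => ?_⟩
    · refine Subtype.ext ?_
      change V.subtypeL (adjoint V.subtypeL (V.subtypeL k)) = k.1
      rw [hadj]
      exact Submodule.starProjection_eq_self_iff.2 k.2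
    · rw [hadj]
      have h1 := mem_comm_iff.1 (proj_orb_mem A F) x hx
      have h2 := congrArg (fun T : HS H m →L[ℂ] HS H m => T (V.subtypeL k)) h1
      have h3 : V.starProjection (V.subtypeL k) = V.subtypeL k :=
        Submodule.starProjection_eq_self_iff.2 k.2
      change x (V.starProjection (V.subtypeL k)) = V.starProjection (x (V.subtypeL k)) at h2
      rw [← h2, h3]
    · have h1 : (V.subtypeL k : HS H m) ∈ closure (orb A F : Set (HS H m)) := k.2
      obtain ⟨_, ⟨a, ha, rfl⟩, h2⟩ := Metric.mem_closure_iff.1 h1 ε hε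
      refine ⟨a, ha, ?_⟩
      rw [dist_eq_norm] at h2
      rw [norm_sub_rev]
      exact h2
  set i : V →L[ℂ] HS H m := V.subtypeL with hi
  set κ : V := ⟨F, hFV⟩ with hκ
  set π : (H →L[ℂ] H) → (V →L[ℂ] V) := fun x => r i (diag m x) with hπ
  have hmemB : ∀ T : V →L[ℂ] V, T ∈ B A i → ∃ x ∈ N, ‖x‖ ≤ ‖T‖ ∧ π x = T := by
    intro T hT
    obtain ⟨a, ha, ha1, ha2⟩ := exists_lift S hsepA hT
    obtain ⟨x, hx, rfl⟩ := (mem_amp hm N).1 ha
    exact ⟨x, hx, (norm_le_diag hm x).trans ha1, ha2⟩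
  have hπmem : ∀ x ∈ N, π x ∈ B A i := fun x hx => r_mem S hsepA (hdA x hx)
  have hπinj : ∀ x ∈ N, ∀ y ∈ N, π x = π y → x = y := fun x hx y hy h =>
    diag_inj hm (S.r_inj hsepA (hdA x hx) (hdA y hy) h)
  have hπmul : ∀ x ∈ N, ∀ y ∈ N, π (x * y) = π x * π y := fun x hx y hy => by
    change r i (diag m (x * y)) = r i (diag m x) * r i (diag m y)
    rw [S.r_mul (hdA x hx), diag_mul]
  have hπstar : ∀ x : H →L[ℂ] H, π (star x) = star (π x) := fun x => by
    change r i (diag m (star x)) = star (r i (diag m x))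
    rw [Sub.r_star, diag_star]
  have hπone : π 1 = 1 := by
    change r i (diag m 1) = 1
    rw [diag_one, S.r_one]
  have hπsmul : ∀ (c : ℂ) (x : H →L[ℂ] H), π (c • x) = c • π x := fun c x => by
    change r i (diag m (c • x)) = c • r i (diag m x)
    rw [diag_smul, r_smul]
  have hπzero : π 0 = 0 := by
    have h := hπsmul 0 0
    rw [zero_smul ℂ (0 : H →L[ℂ] H)] at h
    exact h.trans (ContinuousLinearMap.ext fun G => by
      rw [smul_apply, zero_smul, zero_apply])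
  have hst : ∀ (ζ : V) (y : H →L[ℂ] H), st (comp (i ζ)) y = ⟪ζ, π y ζ⟫_ℂ := fun ζ y => by
    rw [st_comp]
    exact (inner_r S ζ ζ).symm
  refine ⟨V, inferInstance, inferInstance, inferInstance, B A i, κ, π, ?_, hF,
    dense_B S hsepA, sep_B S hsepA, ?_, ?_⟩
  · refine ⟨⟨?_, ?_⟩, ?_⟩
    · intro z hz hz'
      obtain ⟨x, hx, -, rfl⟩ := hmemB z hz
      have h1 : x ∈ N.commutant := mem_comm_iff.2 fun y hy => by
        have h2 := mem_comm_iff.1 hz' (π y) (hπmem y hy)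
        rw [← hπmul y hy x hx, ← hπmul x hx y hy] at h2
        exact hπinj _ (mul_mem hy hx) _ (mul_mem hx hy) h2
      obtain ⟨c, rfl⟩ := hN.factor x hx h1
      exact ⟨c, by rw [hπsmul, hπone]⟩
    · rintro e ⟨he, hes, hee⟩ he0
      obtain ⟨x, hx, -, rfl⟩ := hmemB e he
      have h1 : star x = x := hπinj _ (star_mem hx) _ hx (by rw [hπstar, hes])
      have h2 : x * x = x := hπinj _ (mul_mem hx hx) _ hx (by rw [hπmul x hx x hx, hee])
      have h3 : x ≠ 0 := by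
        rintro rfl
        exact he0 hπzero
      obtain ⟨v, hv, hv1, hv2, hv3⟩ := hN.infinite x hx h1 h2 h3
      refine ⟨π v, hπmem v hv, ?_, ?_, fun h4 => hv3 ?_⟩
      · rw [← hπstar, ← hπmul _ (star_mem hv) v hv, hv1]
      · rw [← hπmul x hx v hv, hv2]
      · rw [← hπstar, ← hπmul v hv _ (star_mem hv)] at h4
        exact hπinj _ (mul_mem hv (star_mem hv)) _ hx h4
    · intro ζ hζ hζsep l hl ε hε
      have hnorm : ‖i ζ‖ = 1 := by rw [S.i_norm, hζ]
      obtain ⟨a, ha, ha1, ha2⟩ := hN.spectrum (comp (i ζ)) (summable_comp _)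
        (by rw [sum_comp, hnorm, one_pow]) (fun a ha h => by
          have h1 : diag m a (i ζ) = 0 := by
            ext j
            rw [diag_apply]
            have h2 := h j
            rw [comp_fin] at h2
            rw [h2]
            rfl
          have h2 : π a ζ = 0 := by
            change adjoint i (diag m a (i ζ)) = 0
            rw [h1, map_zero]
          have h3 := hζsep _ (hπmem a ha) h2
          rw [← hπzero] at h3
          exact hπinj a ha 0 (zero_mem _) h3) l hl ε hε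
      refine ⟨π a, hπmem a ha, ?_, fun x hx => ?_⟩
      · rw [hst, hπmul _ (star_mem ha) a ha, hπstar] at ha1
        change ⟪ζ, (star (π a)) (π a ζ)⟫_ℂ = 1 at ha1
        rw [ContinuousLinearMap.star_eq_adjoint, adjoint_inner_right,
          inner_self_eq_norm_sq_to_K] at ha1
        have h2 : ((‖π a ζ‖ ^ 2 : ℝ) : ℂ) = ((1 : ℝ) : ℂ) := by
          push_cast
          exact ha1
        have h3 : ‖π a ζ‖ ^ 2 = 1 ^ 2 := by
          rw [one_pow]
          exact Complex.ofReal_inj.1 h2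
        exact (sq_eq_sq₀ (norm_nonneg _) zero_le_one).1 h3
      · obtain ⟨y, hy, -, rfl⟩ := hmemB x hx
        have h3 := ha2 y hy
        rw [hst, hst, hst, hπmul a ha y hy, hπmul y hy a ha, hπmul y hy _ (star_mem hy),
          hπstar] at h3
        have h4 : ⟪ζ, (π a * π y) ζ⟫_ℂ = ⟪(star (π a)) ζ, π y ζ⟫_ℂ := by
          rw [ContinuousLinearMap.star_eq_adjoint, adjoint_inner_left]
          rfl
        have h5 : ⟪ζ, (π y * π a) ζ⟫_ℂ = ⟪(star (π y)) ζ, π a ζ⟫_ℂ := by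
          rw [ContinuousLinearMap.star_eq_adjoint, adjoint_inner_left]
          rfl
        have h6 : ⟪ζ, (π y * star (π y)) ζ⟫_ℂ = ((‖(star (π y)) ζ‖ ^ 2 : ℝ) : ℂ) := by
          have h7 : ⟪ζ, (π y * star (π y)) ζ⟫_ℂ = ⟪(star (π y)) ζ, (star (π y)) ζ⟫_ℂ := by
            rw [ContinuousLinearMap.star_eq_adjoint, adjoint_inner_left]
            rfl
          rw [h7, inner_self_eq_norm_sq_to_K]
          push_cast
          rfl
        rw [h4, h5, h6, Complex.ofReal_re, Real.sqrt_sq (norm_nonneg _)] at h3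
        exact h3
  · refine ⟨hπmem, hmemB, fun x hx h => ?_, fun x _ y _ => ?_, hπmul, fun x _ => hπstar x, hπone,
      fun c x _ => hπsmul c x, fun x _ => ?_⟩
    · rw [← hπzero] at h
      exact hπinj x hx 0 (zero_mem _) h
    · change r i (diag m (x + y)) = r i (diag m x) + r i (diag m y)
      rw [diag_add, r_add]
    · exact (S.r_norm _).trans (diag_norm_le m x)
  · intro x _
    rw [← inner_diag]
    exact inner_r S κ κ

end Pool.Agent.Helper88.CS

end

end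

section

section

open scoped InnerProductSpace Topology

open ContinuousLinearMap Filter

namespace Pool.Agent.Helper23

universe u

variable {H : Type u} [NormedAddCommGroup H] [InnerProductSpace ℂ H] [CompleteSpace H]

variable {L : Type u} [NormedAddCommGroup L] [InnerProductSpace ℂ L] [CompleteSpace L]

variable {M N A : VonNeumannAlgebra H} {ξ : H} {E : (H →L[ℂ] H) → (H →L[ℂ] H)}

lemma Setting.norm_E_sub (S : Setting M N E ξ) {x y : H →L[ℂ] H} (hx : x ∈ M) (hy : y ∈ M) :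
    ‖E x ξ - E y ξ‖ ≤ ‖x ξ - y ξ‖ := by
  set d := E x - E y with hd
  have hdN : d ∈ N := sub_mem (S.E_mem x hx) (S.E_mem y hy)
  have h1 : ⟪d ξ, d ξ⟫_ℂ = ⟪d ξ, x ξ - y ξ⟫_ℂ := by
    have h2 := S.E_inner hdN (one_mem N) hx
    have h3 := S.E_inner hdN (one_mem N) hy
    rw [one_apply_eq_self] at h2 h3
    calc ⟪d ξ, d ξ⟫_ℂ = ⟪d ξ, E x ξ - E y ξ⟫_ℂ := rfl
      _ = _ := by rw [inner_sub_right, inner_sub_right, h2, h3]
  have h2 : ‖d ξ‖ ^ 2 ≤ ‖d ξ‖ * ‖x ξ - y ξ‖ := by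
    have h3 : ‖⟪d ξ, d ξ⟫_ℂ‖ = ‖d ξ‖ ^ 2 := by
      rw [inner_self_eq_norm_sq_to_K]
      simp
    rw [← h3, h1]
    exact norm_inner_le_norm _ _
  change ‖d ξ‖ ≤ _
  by_contra hcon
  push Not at hcon
  have h4 : 0 ≤ ‖x ξ - y ξ‖ := norm_nonneg _
  (clear * - h2 hcon h4; nlinarith [norm_nonneg (d ξ)])

end Pool.Agent.Helper23

end

end

section

section

open scoped InnerProductSpace Topology

open ContinuousLinearMap Filter

namespace Pool.Agent.Helper23

universe u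

variable {H : Type u} [NormedAddCommGroup H] [InnerProductSpace ℂ H] [CompleteSpace H]

variable {K : Type u} [NormedAddCommGroup K] [InnerProductSpace ℂ K] [CompleteSpace K]

variable {M N : VonNeumannAlgebra H} {ξ : H} {E : (H →L[ℂ] H) → (H →L[ℂ] H)}

lemma u12_AppS_const (S : Setting M N E ξ) {x : H →L[ℂ] H} (hx : x ∈ M) :
    (fun _ => x) ∈ AppS M ξ :=
  ⟨AppR_const S.dense_comm hx, AppR_const S.dense_comm (star_mem hx)⟩

end Pool.Agent.Helper23

end

end

section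

section

open scoped InnerProductSpace

open ContinuousLinearMap

namespace Pool.Agent.Helper23

variable {H : Type*} [NormedAddCommGroup H] [InnerProductSpace ℂ H] [CompleteSpace H]

variable {M N : VonNeumannAlgebra H} {ξ : H} {E : (H →L[ℂ] H) → (H →L[ℂ] H)}

lemma K0_induction {p : H → Prop} (hcl : IsClosed {x | p x})
    (h : ∀ a ∈ N, p (a ξ)) {x : H} (hx : x ∈ K0 N ξ) : p x := by
  have hsub : ((orb N ξ : Submodule ℂ H) : Set H) ⊆ {x | p x} := by
    rintro _ ⟨a, ha, rfl⟩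
    exact h a ha
  exact closure_minimal hsub hcl hx

end Pool.Agent.Helper23

end

section

open scoped InnerProductSpace Topology BoundedContinuousFunction

open ContinuousLinearMap Filter MeasureTheory

namespace Pool.Agent.Helper43.TTF

open Pool.Agent.Helper23

variable {H : Type*} [NormedAddCommGroup H] [InnerProductSpace ℂ H] [CompleteSpace H]

variable {R : H →L[ℂ] H} {D : H →L[ℝ] H} {Ψ : (ℝ →ᵇ ℂ) →⋆ₐ[ℂ] (H →L[ℂ] H)} {J : H →L[ℝ] H}

variable {M N : VonNeumannAlgebra H} {ξ : H} {E : (H →L[ℂ] H) → (H →L[ℂ] H)}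

/-- the projection on the closure of `N ξ` -/
noncomputable def p0 (N : VonNeumannAlgebra H) (ξ : H) : H →L[ℂ] H :=
  (Pool.Agent.Helper23.K0 N ξ).starProjection

lemma p0_of_mem {v : H} (hv : v ∈ Pool.Agent.Helper23.K0 N ξ) : p0 N ξ v = v :=
  Submodule.starProjection_eq_self_iff.2 hv

lemma p0_mem (v : H) : p0 N ξ v ∈ Pool.Agent.Helper23.K0 N ξ :=
  Submodule.starProjection_apply_mem _ _

lemma p0_symm (v w : H) : ⟪p0 N ξ v, w⟫_ℂ = ⟪v, p0 N ξ w⟫_ℂ :=
  Submodule.inner_starProjection_left_eq_right _ v w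

lemma p0_eq {v u : H} (hu : u ∈ Pool.Agent.Helper23.K0 N ξ)
    (h : ∀ a ∈ N, ⟪a ξ, u⟫_ℂ = ⟪a ξ, v⟫_ℂ) : p0 N ξ v = u := by
  have h1 : ∀ k ∈ Pool.Agent.Helper23.K0 N ξ, ⟪k, u - v⟫_ℂ = 0 := by
    intro k hk
    refine K0_induction (p := fun k => ⟪k, u - v⟫_ℂ = 0)
      (isClosed_eq (by fun_prop) (by fun_prop)) (fun a ha => ?_) hk
    rw [inner_sub_right, h a ha, sub_self]
  have h2 : p0 N ξ (u - v) = 0 := by
    rw [← inner_self_eq_zero (𝕜 := ℂ), p0_symm, ← inner_conj_symm, p0_of_mem (p0_mem _),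
      h1 _ (p0_mem _), map_zero]
  rw [map_sub, p0_of_mem hu, sub_eq_zero] at h2
  exact h2.symm

lemma E_apply (S : Setting M N E ξ) {a : H →L[ℂ] H} (ha : a ∈ M) : p0 N ξ (a ξ) = E a ξ := by
  refine p0_eq (mem_K0 (S.E_mem a ha)) fun b hb => ?_
  have h := S.E_inner hb (one_mem N) ha
  rw [one_apply_eq_self] at h
  exact h

lemma E_star (S : Setting M N E ξ) {a : H →L[ℂ] H} (ha : a ∈ M) (ha' : star a = a) :
    star (E a) = E a := by
  have hE := S.E_mem a ha
  have h1 : (star (E a)) ξ = E a ξ := by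
    rw [← E_apply S ha]
    symm
    refine p0_eq (mem_K0 (star_mem hE)) fun b hb => ?_
    rw [inner_star_right]
    have h2 := S.E_inner (one_mem N) hb ha
    rw [one_apply_eq_self] at h2
    have h3 : ⟪E a (b ξ), ξ⟫_ℂ = ⟪a (b ξ), ξ⟫_ℂ := by
      rw [← inner_conj_symm, h2, inner_conj_symm]
    rw [h3, ← ha', inner_star_left, ha']
  have h4 : (star (E a) - E a) ξ = 0 := by rw [sub_apply, h1, sub_self]
  exact sub_eq_zero.1 (S.sep _ (sub_mem (star_mem (S.le _ hE)) (S.le _ hE)) h4)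

lemma p0_K (S : Setting M N E ξ) {v : H} (hv : v ∈ TTA.K M ξ) : p0 N ξ v ∈ TTA.K M ξ := by
  have hcl : IsClosed {v | p0 N ξ v ∈ TTA.K M ξ} :=
    (TTA.K_closed M ξ).preimage (p0 N ξ).continuous
  have hsub : (TTA.K0 M ξ : Set H) ⊆ {v | p0 N ξ v ∈ TTA.K M ξ} := by
    rintro _ ⟨a, ha, ha', rfl⟩
    rw [Set.mem_ofPred_eq, E_apply S ha]
    exact TTA.mem_K_of M ξ (S.le _ (S.E_mem a ha)) (E_star S ha ha')
  exact closure_minimal hsub hcl hv

lemma p0_P (S : Setting M N E ξ) (v : H) : p0 N ξ (TTA.P M ξ v) = TTA.P M ξ (p0 N ξ v) := by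
  have h1 : ∀ v, TTA.P M ξ (p0 N ξ (TTA.P M ξ v)) = p0 N ξ (TTA.P M ξ v) := fun v =>
    TTA.P_of_mem M ξ (p0_K S (TTA.P_mem M ξ v))
  have h2 : ∀ v w, TTA.rho (p0 N ξ v) w = TTA.rho v (p0 N ξ w) := by
    intro v w
    unfold TTA.rho
    rw [p0_symm]
  have h3 : ∀ w, TTA.rho (p0 N ξ (TTA.P M ξ v) - TTA.P M ξ (p0 N ξ v)) w = 0 := by
    intro w
    rw [TTA.rho_sub_left, ← h1, TTA.rho_P, h2, TTA.rho_P, h1, TTA.rho_P, h2, sub_self]
  have h4 := h3 (p0 N ξ (TTA.P M ξ v) - TTA.P M ξ (p0 N ξ v))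
  rw [TTA.rho_self] at h4
  exact sub_eq_zero.1 (by simpa using h4)

lemma p0_R (S : Setting M N E ξ) : p0 N ξ * TTA.Rop M ξ = TTA.Rop M ξ * p0 N ξ := by
  ext v
  rw [mul_apply_eq_comp, mul_apply_eq_comp, TTA.Rop_apply, TTA.Rop_apply, map_add, p0_P S]
  congr 1
  unfold TTA.Q
  rw [map_neg, map_smul, p0_P S, map_smul]

end Pool.Agent.Helper43.TTF

end

section

open scoped InnerProductSpace Topology

open ContinuousLinearMap Filter

namespace Pool.Agent.Helper23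

universe u

variable {H : Type u} [NormedAddCommGroup H] [InnerProductSpace ℂ H] [CompleteSpace H]

variable {M N : VonNeumannAlgebra H} {ξ : H} {E : (H →L[ℂ] H) → (H →L[ℂ] H)}

section U2

namespace U2

open Pool.Agent.Helper43.TTF

/-- `E x` and `x` have the same form on the closure of `N ξ` -/
lemma inner_E_K0 (S : Setting M N E ξ) {x : H →L[ℂ] H} (hx : x ∈ M) {k k' : H}
    (hk : k ∈ K0 N ξ) (hk' : k' ∈ K0 N ξ) : ⟪k, E x k'⟫_ℂ = ⟪k, x k'⟫_ℂ := by
  refine K0_induction (p := fun k => ⟪k, E x k'⟫_ℂ = ⟪k, x k'⟫_ℂ)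
    (isClosed_eq (by fun_prop) (by fun_prop)) (fun a ha => ?_) hk
  refine K0_induction (p := fun k' => ⟪a ξ, E x k'⟫_ℂ = ⟪a ξ, x k'⟫_ℂ)
    (isClosed_eq (by fun_prop) (by fun_prop)) (fun b hb => ?_) hk'
  exact S.E_inner ha hb hx

lemma form_eq (S : Setting M N E ξ) {a s : H →L[ℂ] H} (ha : a ∈ M) (hs : s ∈ N.commutant)
    (hsK : s ξ ∈ K0 N ξ) :
    ⟪ξ, E (star a * a) ((star s * s) ξ)⟫_ℂ = ((‖a (s ξ)‖ ^ 2 : ℝ) : ℂ) := by
  have hx : star a * a ∈ M := mul_mem (star_mem ha) ha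
  have hE := S.E_mem _ hx
  have h1 : E (star a * a) ((star s * s) ξ) = (star s) (E (star a * a) (s ξ)) :=
    commute_apply hE (star_mem hs) (s ξ)
  rw [h1, inner_star_right, inner_E_K0 S hx hsK hsK, norm_sq_apply]
  rfl

end U2

open Pool.Agent.Helper43.TTF in
/-- compression of vectors of the commutant -/
theorem Setting.exists_comm_proj (S : Setting M N E ξ) {r : H →L[ℂ] H} (hr : r ∈ M.commutant) :
    ∃ r' ∈ M.commutant, ‖r'‖ ≤ ‖r‖ ∧ r' ξ = (K0 N ξ).starProjection (r ξ) := by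
  set e : H →L[ℂ] H := p0 N ξ with he
  have heN : e ∈ N.commutant := proj_orb_mem N ξ
  have hrN : r ∈ N.commutant := S.comm_le hr
  have hee : ∀ v, e (e v) = e v := fun v => p0_of_mem (p0_mem v)
  have hes : star e = e := by
    apply ContinuousLinearMap.ext
    intro v
    refine ext_inner_right ℂ fun w => ?_
    rw [inner_star_left]
    exact (p0_symm v w).symm
  have hes2 : star e * e = e := by
    rw [hes]
    exact ContinuousLinearMap.ext hee
  have hnorm : ∀ v, ‖e v‖ ≤ ‖v‖ := fun v => Submodule.norm_starProjection_apply_le _ _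
  have hξ : ξ ∈ K0 N ξ := by
    have := mem_K0 (ξ := ξ) (one_mem N)
    rwa [one_apply_eq_self] at this
  have heξ : e ξ = ξ := p0_of_mem hξ
  -- the operator `T = ‖r‖² e - (e r e)* (e r e)`
  set ρ : H →L[ℂ] H := e * r * e with hρ
  have hρN : ρ ∈ N.commutant := mul_mem (mul_mem heN hrN) heN
  set T : H →L[ℂ] H := ((‖r‖ ^ 2 : ℝ) : ℂ) • (star e * e) - star ρ * ρ with hT
  have hTN : T ∈ N.commutant := sub_mem (smul_mem' _ (mul_mem (star_mem heN) heN))
    (mul_mem (star_mem hρN) hρN)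
  have hTv : ∀ v, ⟪v, T v⟫_ℂ = ((‖r‖ ^ 2 * ‖e v‖ ^ 2 - ‖ρ v‖ ^ 2 : ℝ) : ℂ) := by
    intro v
    rw [hT, sub_apply, smul_apply, inner_sub_right, inner_smul_right]
    change _ * ⟪v, (star e) (e v)⟫_ℂ - ⟪v, (star ρ) (ρ v)⟫_ℂ = _
    rw [← norm_sq_apply, ← norm_sq_apply]
    push_cast
    ring
  have hρv : ∀ v, ‖ρ v‖ ≤ ‖r‖ * ‖e v‖ := fun v => (hnorm _).trans (r.le_opNorm _)
  have hT0 : 0 ≤ T := by
    rw [ContinuousLinearMap.nonneg_iff_isPositive, ContinuousLinearMap.isPositive_iff_complex]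
    intro v
    have h1 : ⟪T v, v⟫_ℂ = ((‖r‖ ^ 2 * ‖e v‖ ^ 2 - ‖ρ v‖ ^ 2 : ℝ) : ℂ) := by
      rw [← inner_conj_symm, hTv, Complex.conj_ofReal]
    rw [h1, RCLike.re_to_complex, Complex.ofReal_re]
    refine ⟨rfl, ?_⟩
    have h2 := pow_le_pow_left₀ (norm_nonneg _) (hρv v) 2
    rw [mul_pow] at h2
    (clear * - h2; linarith)
  obtain ⟨t, htN, hts, htT⟩ : ∃ Y ∈ N.commutant, star Y = Y ∧ star Y * Y = T := by
    have : IsClosed (N.commutant : Set (H →L[ℂ] H)) := vN_isClosed _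
    have : IsClosed (N.commutant.toStarSubalgebra : Set (H →L[ℂ] H)) := vN_isClosed _
    refine ⟨CFC.sqrt T, ?_, (IsSelfAdjoint.of_nonneg (CFC.sqrt_nonneg T)).star_eq, ?_⟩
    · rw [CFC.sqrt_eq_real_sqrt T hT0]
      have h1 : cfcₙ Real.sqrt T ∈ N.commutant.toStarSubalgebra := by
        refine cfcₙ_mem (s := N.commutant.toStarSubalgebra) Real.sqrt ?_
        exact hTN
      exact h1
    · rw [(IsSelfAdjoint.of_nonneg (CFC.sqrt_nonneg T)).star_eq]
      exact CFC.sqrt_mul_sqrt_self T hT0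
  -- `t` maps into the closure of `N ξ`
  have ht1 : ∀ v, e v = 0 → t v = 0 := by
    intro v hv
    have h1 := norm_sq_apply t v
    have h2 : ⟪v, (star t) (t v)⟫_ℂ = ⟪v, T v⟫_ℂ := by rw [← htT]; rfl
    rw [h2, hTv, hv, norm_zero] at h1
    have h3 : ‖t v‖ ^ 2 = ‖r‖ ^ 2 * 0 ^ 2 - ‖ρ v‖ ^ 2 := Complex.ofReal_injective h1
    have h4 : ‖t v‖ ^ 2 ≤ 0 := by rw [h3]; (clear * -; nlinarith [sq_nonneg ‖ρ v‖])
    have h5 : ‖t v‖ = 0 := by (clear * - h3; nlinarith [norm_nonneg (t v)])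
    exact norm_eq_zero.1 h5
  have ht2 : ∀ v, t (e v) = t v := by
    intro v
    have := ht1 (v - e v) (by rw [map_sub, hee, sub_self])
    rw [map_sub, sub_eq_zero] at this
    exact this.symm
  have ht3 : e (t ξ) = t ξ := by
    refine ext_inner_right ℂ fun w => ?_
    rw [p0_symm, ← hts, inner_star_left, inner_star_left, ht2]
  have htK : t ξ ∈ K0 N ξ := by rw [← ht3]; exact p0_mem _
  -- key inequality
  have key : ∀ a ∈ M, ‖a (e (r ξ))‖ ≤ ‖r‖ * ‖a ξ‖ := by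
    intro a ha
    have e1 := U2.form_eq S ha htN htK
    have e2 := U2.form_eq S ha heN (by rw [heξ]; exact hξ)
    have e3 := U2.form_eq S ha hρN (p0_mem _)
    have hρξ : ρ ξ = e (r ξ) := by
      change e (r (e ξ)) = _
      rw [heξ]
    rw [htT, hT, sub_apply, smul_apply, map_sub, map_smul, inner_sub_right, inner_smul_right,
      e2, e3, heξ, hρξ] at e1
    have e4 : ‖r‖ ^ 2 * ‖a ξ‖ ^ 2 - ‖a (e (r ξ))‖ ^ 2 = ‖a (t ξ)‖ ^ 2 := by
      apply Complex.ofReal_injective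
      push_cast at e1 ⊢
      exact e1
    refine (pow_le_pow_iff_left₀ (norm_nonneg _) (by (clear * -; positivity)) two_ne_zero).1 ?_
    rw [mul_pow]
    (clear * - e4; nlinarith [sq_nonneg ‖a (t ξ)‖])
  obtain ⟨y, hy, hye, hyn⟩ := exists_op M (ξ := ξ) (η := e (r ξ)) (norm_nonneg r) S.cyc key
  refine ⟨y, hy, hyn, ?_⟩
  have := hye 1 (one_mem M)
  rw [one_apply_eq_self, one_apply_eq_self] at this
  exact this

open Pool.Agent.Helper43.TTF in
theorem Setting.AppR_E (S : Setting M N E ξ) {x : ℕ → H →L[ℂ] H} (hx : x ∈ AppR M ξ) :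
    (fun n => E (x n)) ∈ AppR M ξ := by
  obtain ⟨hxM, ⟨C, hC⟩, hx⟩ := hx
  refine ⟨fun n => S.le _ (S.E_mem _ (hxM n)), ⟨C, fun n => (S.E_norm (hxM n)).trans (hC n)⟩,
    fun ε hε => ?_⟩
  obtain ⟨r, hr, ⟨A, hA⟩, h1⟩ := hx ε hε
  choose r' hr' hn he using fun n => S.exists_comm_proj (hr n)
  refine ⟨r', hr', ⟨A, fun n => (hn n).trans (hA n)⟩, ?_⟩
  filter_upwards [h1] with n h3
  rw [he, ← E_apply S (hxM n)]
  have e1 : p0 N ξ (x n ξ) - (K0 N ξ).starProjection (r n ξ) = p0 N ξ (x n ξ - r n ξ) := by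
    rw [map_sub]; rfl
  rw [e1]
  exact (Submodule.norm_starProjection_apply_le _ _).trans h3

open Pool.Agent.Helper43.TTF in
lemma U2.E_star' (S : Setting M N E ξ) {a : H →L[ℂ] H} (ha : a ∈ M) :
    star (E a) = E (star a) := by
  have hE := S.E_mem a ha
  have hE' := S.E_mem _ (star_mem ha)
  have h1 : (star (E a)) ξ = E (star a) ξ := by
    rw [← E_apply S (star_mem ha)]
    symm
    refine p0_eq (mem_K0 (star_mem hE)) fun b hb => ?_
    rw [inner_star_right, inner_star_right]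
    have h2 := S.E_inner (one_mem N) hb ha
    rw [one_apply_eq_self] at h2
    rw [← inner_conj_symm, h2, inner_conj_symm]
  have h4 : (star (E a) - E (star a)) ξ = 0 := by rw [sub_apply, h1, sub_self]
  exact sub_eq_zero.1 (S.sep _ (sub_mem (star_mem (S.le _ hE)) (S.le _ hE')) h4)

theorem Setting.AppS_E (S : Setting M N E ξ) {x : ℕ → H →L[ℂ] H} (hx : x ∈ AppS M ξ) :
    (fun n => E (x n)) ∈ AppS M ξ := by
  refine ⟨S.AppR_E hx.1, ?_⟩
  have h1 : (fun n => star (E (x n))) = fun n => E (star (x n)) := by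
    funext n
    exact U2.E_star' S (hx.1.1 n)
  rw [h1]
  exact S.AppR_E hx.2

end U2

end Pool.Agent.Helper23

end

section

open scoped InnerProductSpace Topology

open ContinuousLinearMap Filter

namespace Pool.Agent.Helper23

universe u

variable {H : Type u} [NormedAddCommGroup H] [InnerProductSpace ℂ H] [CompleteSpace H]

variable {L : Type u} [NormedAddCommGroup L] [InnerProductSpace ℂ L] [CompleteSpace L]

variable {M N A : VonNeumannAlgebra H} {ξ : H} {E : (H →L[ℂ] H) → (H →L[ℂ] H)}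

section

variable {mk : (ℕ → H) → L} (h : HUP mk)

include h

lemma HUP.rp_E (S : Setting M N E ξ) {x y : ℕ → H →L[ℂ] H}
    (hx : x ∈ AppS M ξ) (hy : y ∈ AppS M ξ) (hxy : rp M ξ mk x = rp M ξ mk y) :
    rp M ξ mk (fun n => E (x n)) = rp M ξ mk (fun n => E (y n)) := by
  have hUU := UU_neBot
  have hEx := S.AppS_E hx
  have hEy := S.AppS_E hy
  refine h.rp_eq S.dense_comm hEx hEy ?_
  apply Subtype.ext
  rw [h.rp_zt hEx, h.rp_zt hEy, h.mk_eq (ocB_app (ocS_bdd hEx) ξ) (ocB_app (ocS_bdd hEy) ξ)]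
  have h1 : (mk fun n => x n ξ) = mk fun n => y n ξ := by
    rw [← h.rp_zt hx, ← h.rp_zt hy, hxy]
  rw [h.mk_eq (ocB_app (ocS_bdd hx) ξ) (ocB_app (ocS_bdd hy) ξ)] at h1
  exact squeeze_zero (fun _ => norm_nonneg _)
    (fun n => S.norm_E_sub (ocS_mem hx n) (ocS_mem hy n)) h1

lemma HUP.Et_rp (S : Setting M N E ξ) {x : ℕ → H →L[ℂ] H} (hx : x ∈ AppS M ξ) :
    Et M E ξ mk (rp M ξ mk x) = rp M ξ mk (fun n => E (x n)) := by
  have h1 : ∃ y ∈ AppS M ξ, rp M ξ mk y = rp M ξ mk x := ⟨x, hx, rfl⟩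
  unfold Et
  rw [dif_pos h1]
  exact h.rp_E S h1.choose_spec.1 hx h1.choose_spec.2

end

end Pool.Agent.Helper23

end

section

open scoped InnerProductSpace Topology ENNReal BoundedContinuousFunction

open ContinuousLinearMap Filter MeasureTheory

namespace Pool.Agent.Helper23.ED

open Pool.Agent.Helper23 Pool.Agent.Helper23.RBF

open Pool.Agent.Helper78.BC.Transport (Sub r)

universe u

open Pool.Agent.Helper23.TTA (Rop Dop)

variable {H : Type u} [NormedAddCommGroup H] [InnerProductSpace ℂ H] [CompleteSpace H]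

variable {K : Type u} [NormedAddCommGroup K] [InnerProductSpace ℂ K] [CompleteSpace K]

variable {M N : VonNeumannAlgebra H} {E : (H →L[ℂ] H) → (H →L[ℂ] H)}

variable {ξ : H} {i : K →L[ℂ] H} {κ : K}

namespace TrA

lemma i_mem (Sb : Sub N ξ i κ) (w : K) : i w ∈ Pool.Agent.Helper23.K0 N ξ := by
  have h : i w ∈ closure (orb N ξ : Set H) := by
    rw [Metric.mem_closure_iff]
    intro ε hε
    obtain ⟨a, ha, h1⟩ := Sb.cyc w ε hε
    refine ⟨a ξ, ⟨a, ha, rfl⟩, ?_⟩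
    rw [dist_eq_norm, norm_sub_rev]
    exact h1
  exact h

open Pool.Agent.Helper78.BC in
lemma i_P (S : Setting M N E ξ) (Sb : Sub N ξ i κ) (v : K) :
    i (TTA.P (Transport.B N i) κ v) = TTA.P M ξ (i v) := by
  have hsep : ∀ a ∈ N, a ξ = 0 → a = 0 := fun a ha h => S.sep a (S.le a ha) h
  set u := TTA.P (Transport.B N i) κ v with hu
  have h1 : TTA.P M ξ (i u) = i u := TTA.P_of_mem M ξ (i_K S Sb (TTA.P_mem _ _ _))
  have h2 : TTA.P M ξ (i v - i u) = 0 := by
    refine TTA.P_eq_zero M ξ fun m hm hm' => ?_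
    have hE := S.E_mem m hm
    have h3 : i v - i u = i (v - u) := (map_sub i v u).symm
    have h4 : TTA.rho (m ξ) (i (v - u)) = TTA.rho (E m ξ) (i (v - u)) := by
      unfold TTA.rho
      rw [← Pool.Agent.Helper43.TTF.E_apply S hm, Pool.Agent.Helper43.TTF.p0_symm,
        Pool.Agent.Helper43.TTF.p0_of_mem (i_mem Sb _)]
    have h5 : E m ξ = i (r i (E m) κ) := by rw [Sb.i_r hE, Sb.vec]
    have h6 : TTA.rho (i (r i (E m) κ)) (i (v - u)) = TTA.rho (r i (E m) κ) (v - u) := by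
      unfold TTA.rho
      rw [Transport.inner_i, Sb.isom]
    have h7 : r i (E m) κ ∈ TTA.K (Transport.B N i) κ := by
      refine TTA.mem_K_of _ _ (Transport.r_mem Sb hsep hE) ?_
      rw [Transport.Sub.r_star, Pool.Agent.Helper43.TTF.E_star S hm hm']
    rw [h3, h4, h5, h6, TTA.rho_sub_right, hu, ← TTA.rho_P, TTA.P_of_mem _ _ h7, sub_self]
  rw [map_sub, h1, sub_eq_zero] at h2
  exact h2.symm

end TrA

open Pool.Agent.Helper78.BC in
theorem i_Rop (S : Setting M N E ξ) (Sb : Sub N ξ i κ) (v : K) :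
    i (Rop (Transport.B N i) κ v) = Rop M ξ (i v) := by
  rw [TTA.Rop_apply, TTA.Rop_apply, map_add, TrA.i_P S Sb]
  congr 1
  unfold TTA.Q
  rw [map_neg, map_smul, TrA.i_P S Sb, map_smul]

end Pool.Agent.Helper23.ED

end

end
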