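import Pool.Agent.Helper23.FB.L01_a0
import Pool.Agent.Helper23.FB.L01_a1
import Pool.Agent.Helper23.FB.L01_a10
import Pool.Agent.Helper23.FB.L01_a11
import Pool.Agent.Helper23.FB.L01_a12
import Pool.Agent.Helper23.FB.L01_a13
import Pool.Agent.Helper23.FB.L01_a2
import Pool.Agent.Helper23.FB.L01_a3
import Pool.Agent.Helper23.FB.L01_a4
import Pool.Agent.Helper23.FB.L01_a7
import Pool.Agent.Helper23.FB.L01_a8

/-!
Parts of Helper23.FA.L01_07, Helper23.FA.L02_02, Helper23.FA.L02_04, Helper23.FA.L02_01, Helper23.FA.L03_01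
-/

attribute [local instance 5000]
  Pool.Agent.Helper23.FB.Inst.rCharZero Pool.Agent.Helper23.FB.Inst.rALM
  Pool.Agent.Helper23.FB.Inst.rARM Pool.Agent.Helper23.FB.Inst.rALSM
  Pool.Agent.Helper23.FB.Inst.rARSM Pool.Agent.Helper23.FB.Inst.rARRLE
  Pool.Agent.Helper23.FB.Inst.rALRLE Pool.Agent.Helper23.FB.Inst.rARRLT
  Pool.Agent.Helper23.FB.Inst.rALRLT Pool.Agent.Helper23.FB.Inst.rPMRLT
  Pool.Agent.Helper23.FB.Inst.rMPRLT Pool.Agent.Helper23.FB.Inst.rPMM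
  Pool.Agent.Helper23.FB.Inst.rMPM Pool.Agent.Helper23.FB.Inst.rPMSM
  Pool.Agent.Helper23.FB.Inst.rMPSM Pool.Agent.Helper23.FB.Inst.rEAOL
  Pool.Agent.Helper23.FB.Inst.rIOR Pool.Agent.Helper23.FB.Inst.rISOR
  Pool.Agent.Helper23.FB.Inst.rFS Pool.Agent.Helper23.FB.Inst.rcCharZero
  Pool.Agent.Helper23.FB.Inst.rNZD Pool.Agent.Helper23.FB.Inst.rcNZD
  Pool.Agent.Helper23.FB.Inst.bSemiring Pool.Agent.Helper23.FB.Inst.bStar
  Pool.Agent.Helper23.FB.Inst.bAlg Pool.Agent.Helper23.FB.Inst.bSub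
  Pool.Agent.Helper23.FB.Inst.bMul Pool.Agent.Helper23.FB.Inst.bAdd
  Pool.Agent.Helper23.FB.Inst.iRing Pool.Agent.Helper23.FB.Inst.iSemiring
  Pool.Agent.Helper23.FB.Inst.iAlgC Pool.Agent.Helper23.FB.Inst.iSMulC
  Pool.Agent.Helper23.FB.Inst.iModC Pool.Agent.Helper23.FB.Inst.iAlgR
  Pool.Agent.Helper23.FB.Inst.iSMulR Pool.Agent.Helper23.FB.Inst.iModR
  Pool.Agent.Helper23.FB.Inst.iMonoid Pool.Agent.Helper23.FB.Inst.iSemigroup
  Pool.Agent.Helper23.FB.Inst.iMulOneClass Pool.Agent.Helper23.FB.Inst.iMul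
  Pool.Agent.Helper23.FB.Inst.iAdd Pool.Agent.Helper23.FB.Inst.iSub
  Pool.Agent.Helper23.FB.Inst.iNeg Pool.Agent.Helper23.FB.Inst.iAddCommMonoid
  Pool.Agent.Helper23.FB.Inst.iAddCommGroup Pool.Agent.Helper23.FB.Inst.iAddGroup
  Pool.Agent.Helper23.FB.Inst.iAddMonoid Pool.Agent.Helper23.FB.Inst.iSMulZeroC
  Pool.Agent.Helper23.FB.Inst.iMulActC Pool.Agent.Helper23.FB.Inst.iDSMulC
  Pool.Agent.Helper23.FB.Inst.iDSMulR Pool.Agent.Helper23.FB.Inst.iSNAG
  Pool.Agent.Helper23.FB.Inst.iSNACG Pool.Agent.Helper23.FB.Inst.iNorm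
  Pool.Agent.Helper23.FB.Inst.iNSC' Pool.Agent.Helper23.FB.Inst.iNSR'
  Pool.Agent.Helper23.FB.Inst.iTop Pool.Agent.Helper23.FB.Inst.iT2 Pool.Agent.Helper23.FB.Inst.iTR
  Pool.Agent.Helper23.FB.Inst.iSCC Pool.Agent.Helper23.FB.Inst.iIST
  Pool.Agent.Helper23.FB.Inst.iSCCR Pool.Agent.Helper23.FB.Inst.iISTR
  Pool.Agent.Helper23.FB.Inst.iZHC Pool.Agent.Helper23.FB.Inst.iAHC
  Pool.Agent.Helper23.FB.Inst.iAMHC Pool.Agent.Helper23.FB.Inst.iMAHC
  Pool.Agent.Helper23.FB.Inst.lTop Pool.Agent.Helper23.FB.Inst.lUnif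
  Pool.Agent.Helper23.FB.Inst.lACM Pool.Agent.Helper23.FB.Inst.lACG
  Pool.Agent.Helper23.FB.Inst.lSNAG Pool.Agent.Helper23.FB.Inst.lSNACG
  Pool.Agent.Helper23.FB.Inst.lNACG Pool.Agent.Helper23.FB.Inst.lNorm
  Pool.Agent.Helper23.FB.Inst.lIPS Pool.Agent.Helper23.FB.Inst.lMod
  Pool.Agent.Helper23.FB.Inst.lSMul Pool.Agent.Helper23.FB.Inst.lT2
  Pool.Agent.Helper23.FB.Inst.iStar Pool.Agent.Helper23.FB.Inst.iStarMul
  Pool.Agent.Helper23.FB.Inst.iStarAddMonoid Pool.Agent.Helper23.FB.Inst.iStarRing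
  Pool.Agent.Helper23.FB.Inst.iNSC Pool.Agent.Helper23.FB.Inst.iSOR
  Pool.Agent.Helper23.FB.Inst.iALM Pool.Agent.Helper23.FB.Inst.iARM
  Pool.Agent.Helper23.FB.Inst.iCFC Pool.Agent.Helper23.FB.Inst.iNCFC
  Pool.Agent.Helper23.FB.Inst.iStarModR Pool.Agent.Helper23.FB.Inst.iStarModC
  Pool.Agent.Helper23.FB.Inst.eStar Pool.Agent.Helper23.FB.Inst.eAdd
  Pool.Agent.Helper23.FB.Inst.eMul Pool.Agent.Helper23.FB.Inst.eOne
  Pool.Agent.Helper23.FB.Inst.eZero Pool.Agent.Helper23.FB.Inst.eMulAction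
  Pool.Agent.Helper23.FB.Inst.eAMHC2 Pool.Agent.Helper23.FB.Inst.eZHC2
  Pool.Agent.Helper23.FB.Inst.lAMHC

namespace Pool.Agent.Helper23
end Pool.Agent.Helper23
namespace Pool.Agent.Helper23.RBF
end Pool.Agent.Helper23.RBF
namespace Pool.Agent.Helper72
end Pool.Agent.Helper72
namespace Pool.Agent.Helper88.CS.ExhAux
end Pool.Agent.Helper88.CS.ExhAux
namespace Pool.Agent.Helper88.CS.InftyAux
end Pool.Agent.Helper88.CS.InftyAux

section

section

open scoped InnerProductSpace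

open ContinuousLinearMap

namespace Pool.Agent.Helper72

open Pool.Agent.Helper23

variable {H : Type*} [NormedAddCommGroup H] [InnerProductSpace ℂ H] [CompleteSpace H]

/-- The complex Radon-Nikodym theorem at the level of vectors. -/
theorem exists_vec {A : VonNeumannAlgebra H} {ξ : H} {R : H →L[ℂ] H} {D : H →L[ℝ] H}
    (h : TTData A ξ R D) (hcyc' : Dense (orb A.commutant ξ : Set H))
    {x' : H →L[ℂ] H} (hx' : x' ∈ A.commutant) {μ ν : ℝ} (hμ : 0 < μ) (hν : 0 < ν) :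
    ∃ x ∈ A, ∃ w : H, (μ : ℂ) • R w + (ν : ℂ) • ((2 : ℂ) • w - R w) = (star x') ξ ∧
      x ξ = R w ∧ (star x) ξ = D w ∧
      ∀ y ∈ A, ⟪y ξ, (star x') ξ⟫_ℂ = (μ : ℂ) * ⟪y ξ, x ξ⟫_ℂ + (ν : ℂ) * ⟪(star x) ξ, (star y) ξ⟫_ℂ
      := by
  obtain ⟨w, hw⟩ := exists_solve h.R_star h.R_nonneg h.R_le hμ hν ((star x') ξ)
  -- (a)
  have ha : ∀ y ∈ A, ⟪y ξ, (star x') ξ⟫_ℂ =
      (μ : ℂ) * ⟪y ξ, R w⟫_ℂ + (ν : ℂ) * ⟪D w, (star y) ξ⟫_ℂ := by
    intro y hy
    have h1 : ⟪y ξ, (2 : ℂ) • w - R w⟫_ℂ = ⟪D w, (star y) ξ⟫_ℂ := by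
      have h2 := h.D_mem (star y) (star_mem hy)
      rw [star_star] at h2
      have h3 : ⟪y ξ, (2 : ℂ) • w - R w⟫_ℂ = ⟪(2 : ℂ) • y ξ - R (y ξ), w⟫_ℂ := by
        rw [inner_sub_right, inner_sub_left, inner_smul_left, inner_smul_right,
          inner_sa h.R_star, Complex.conj_ofNat]
      rw [h3, ← h2, ← inner_conj_symm, h.D_symm, inner_conj_symm]
    rw [← hw, inner_add_right, inner_smul_right, inner_smul_right, h1]
  -- (b)
  have hb : ∀ c ∈ A.commutant, ⟪c ξ, R w⟫_ℂ = ⟪D w, (star c) ξ⟫_ℂ := by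
    intro c hc
    have h2 := h.D_comm (star c) (star_mem hc)
    rw [star_star] at h2
    rw [← inner_sa h.R_star, ← h2, ← inner_conj_symm, h.D_symm, inner_conj_symm]
  obtain ⟨e, heA, g, hgA, he0, h1, h2⟩ := exists_graph A hb
  have hesa : star e = e := (IsSelfAdjoint.of_nonneg he0).star_eq
  set m : ℝ := ‖star x'‖ with hm
  set d : ℝ := 4 * μ * ν / (4 * μ * ν + m ^ 2 + 1) with hd
  have hμν : 0 < μ * ν := mul_pos hμ hν
  have hden : 0 < 4 * μ * ν + m ^ 2 + 1 := by (clear * - hμ hν; positivity)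
  have hd0 : 0 < d := by (clear * - hμ hν; positivity)
  obtain ⟨S, hSsa, hScomm, hS1, hS2, hS3⟩ := exists_cut e he0 hd0
  have hSA : S ∈ A := by
    rw [mem_iff_commutes]
    intro c hc
    exact (hScomm c (mem_comm_iff.1 hc e heA)).symm
  have hSe : ∀ v, S (e v) = e (S v) := fun v =>
    congrArg (fun T : H →L[ℂ] H => T v) (hScomm e rfl)
  have key : S ξ = 0 := by
    have hX := ha (g * (S * S)) (mul_mem hgA (mul_mem hSA hSA))
    have e1 : ⟪(g * (S * S)) ξ, R w⟫_ℂ = ⟪S ξ, S ξ - e (S ξ)⟫_ℂ := by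
      change ⟪g (S (S ξ)), R w⟫_ℂ = _
      have h3 : (star g) (R w) = ξ - e ξ := by
        rw [eq_sub_iff_add_eq', h1]
      rw [← inner_star_right, h3, inner_sa hSsa, map_sub, hSe]
    have e2 : ⟪D w, (star (g * (S * S))) ξ⟫_ℂ = ⟪S (D w), S (e (D w))⟫_ℂ := by
      rw [star_mul, star_mul, hSsa]
      change ⟪D w, S (S ((star g) ξ))⟫_ℂ = _
      rw [h2, ← inner_sa hSsa]
    have e3 : ⟪(g * (S * S)) ξ, (star x') ξ⟫_ℂ = ⟪S ξ, (star x') (S (e (D w)))⟫_ℂ := by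
      change ⟪g (S (S ξ)), (star x') ξ⟫_ℂ = _
      rw [← inner_star_right, commute_apply (star_mem hgA) (star_mem hx'), h2,
        inner_sa hSsa, commute_apply hSA (star_mem hx')]
    rw [e1, e2, e3] at hX
    have hX2 := congrArg Complex.re hX
    rw [Complex.add_re, Complex.re_ofReal_mul, Complex.re_ofReal_mul] at hX2
    have b1 := hS1 ξ
    have b2 := hS2 (D w)
    have b3 : (⟪S ξ, (star x') (S (e (D w)))⟫_ℂ).re ≤ m * (‖S ξ‖ * ‖S (e (D w))‖) := by
      have c1 : (⟪S ξ, (star x') (S (e (D w)))⟫_ℂ).re ≤ ‖S ξ‖ * ‖(star x') (S (e (D w)))‖ :=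
        re_inner_le_norm (𝕜 := ℂ) _ _
      have c2 := (star x').le_opNorm (S (e (D w)))
      have c3 := mul_le_mul_of_nonneg_left c2 (norm_nonneg (S ξ))
      calc _ ≤ _ := c1
        _ ≤ _ := c3
        _ = _ := by rw [hm]; ring
    have hd1 : 1 - d = (m ^ 2 + 1) / (4 * μ * ν + m ^ 2 + 1) := by
      rw [hd]; field_simp; ring
    have b4 : ‖S (e (D w))‖ ^ 2 / d ≤ (⟪S (D w), S (e (D w))⟫_ℂ).re := by
      rw [div_le_iff₀ hd0, mul_comm]; exact b2
    have b5 : ‖S ξ‖ = 0 := by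
      refine arith (p := μ * (1 - d)) (q := ν / d) (m := m) (β := ‖S (e (D w))‖) ?_ (by (clear * - hν hμ; positivity))
        ?_
      · have : 4 * (μ * (1 - d)) * (ν / d) = m ^ 2 + 1 := by
          rw [hd1, hd]; (clear * - hμ hν; field_simp)
        rw [this]; (clear * -; linarith)
      · calc μ * (1 - d) * ‖S ξ‖ ^ 2 + ν / d * ‖S (e (D w))‖ ^ 2
            = μ * ((1 - d) * ‖S ξ‖ ^ 2) + ν * (‖S (e (D w))‖ ^ 2 / d) := by ring
          _ ≤ μ * (⟪S ξ, S ξ - e (S ξ)⟫_ℂ).re + ν * (⟪S (D w), S (e (D w))⟫_ℂ).re := by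
              (clear * - b1 hμ b4 hν; gcongr)
          _ = _ := hX2.symm
          _ ≤ _ := b3
    exact norm_eq_zero.1 b5
  have hS0 : S = 0 := eq_of_dense A hcyc' hSA (zero_mem _) (by rw [key]; rfl)
  obtain ⟨U, hU⟩ := hS3 hS0
  set u : H →L[ℂ] H := (↑U⁻¹ : H →L[ℂ] H) with hu
  have hue : u * e = 1 := by rw [← hU]; exact U.inv_mul
  have heu : e * u = 1 := by rw [← hU]; exact U.mul_inv
  have husa : star u = u := by
    have h5 : e * star u = 1 := by
      have := congrArg star hue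
      rwa [star_mul, hesa, star_one] at this
    calc star u = (u * e) * star u := by rw [hue, one_mul]
      _ = u * (e * star u) := mul_assoc _ _ _
      _ = u := by rw [h5, mul_one]
  have huA : u ∈ A := by
    rw [mem_iff_commutes]
    intro c hc
    have h5 := mem_comm_iff.1 hc e heA
    calc c * u = (u * e) * (c * u) := by rw [hue, one_mul]
      _ = u * (e * c) * u := by simp only [mul_assoc]
      _ = u * c * (e * u) := by rw [h5]; simp only [mul_assoc]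
      _ = u * c := by rw [heu, mul_one]
  have hxA : g * u ∈ A := mul_mem hgA huA
  have hxs : (star (g * u)) ξ = D w := by
    rw [star_mul, husa]
    change u ((star g) ξ) = _
    rw [h2]
    exact congrArg (fun T : H →L[ℂ] H => T (D w)) hue
  have hxx : (g * u) ξ = R w := by
    have hden2 : Dense (orb A.commutant ξ : Set H) := hcyc'
    have h6 : ∀ z ∈ (orb A.commutant ξ : Set H), ⟪z, (g * u) ξ - R w⟫_ℂ = 0 := by
      rintro _ ⟨c, hc, rfl⟩
      rw [inner_sub_right, hb c hc, ← hxs, inner_star_left, commute_apply hxA (star_mem hc),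
        inner_star_right, sub_self]
    have h7 : (g * u) ξ - R w = 0 := by
      refine hden2.eq_zero_of_inner_right ℂ ?_
      intro v hv
      exact h6 v hv
    exact sub_eq_zero.1 h7
  refine ⟨g * u, hxA, w, hw, hxx, hxs, ?_⟩
  intro y hy
  rw [ha y hy, hxx, hxs]

/-- the case `μ = ν = 1`. -/
theorem exists_half {A : VonNeumannAlgebra H} {ξ : H} {R : H →L[ℂ] H} {D : H →L[ℝ] H}
    (h : TTData A ξ R D) (hcyc' : Dense (orb A.commutant ξ : Set H))
    {a' : H →L[ℂ] H} (ha' : a' ∈ A.commutant) :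
    ∃ a ∈ A, R ((star a') ξ) = (2 : ℂ) • a ξ ∧ R (a' ξ) = (2 : ℂ) • (star a) ξ ∧
      ∀ y ∈ A, ⟪y ξ, (star a') ξ⟫_ℂ = ⟪y ξ, a ξ⟫_ℂ + ⟪(star a) ξ, (star y) ξ⟫_ℂ := by
  obtain ⟨a, haA, w, hw, h1, h2, h3⟩ := exists_vec h hcyc' ha' one_pos one_pos
  have hw2 : (2 : ℂ) • w = (star a') ξ := by
    rw [← hw]; simp
  refine ⟨a, haA, ?_, ?_, ?_⟩
  · rw [← hw2, map_smul, h1]
  · have h4 := h.D_comm (star a') (star_mem ha')
    rw [star_star] at h4
    rw [← h4, ← hw2, h.D_conj, h2, Complex.conj_ofNat]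
  · intro y hy
    have := h3 y hy
    simpa using this

end Pool.Agent.Helper72

namespace Pool.Agent.Helper23

open Pool.Agent.Helper72

variable {H : Type*} [NormedAddCommGroup H] [InnerProductSpace ℂ H] [CompleteSpace H]

/-- The complex Radon-Nikodym theorem in operator form. -/
theorem TTData.exists_RN {A : VonNeumannAlgebra H} {ξ : H} {R : H →L[ℂ] H} {D : H →L[ℝ] H}
    (h : TTData A ξ R D) (hcyc : Dense (orb A ξ : Set H))
    (hcyc' : Dense (orb A.commutant ξ : Set H)) {x' : H →L[ℂ] H} (hx' : x' ∈ A.commutant)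
    (β : ℝ) :
    ∃ x ∈ A, ∀ v : H, D (x' (D v)) =
      ((Real.exp (-β / 2) : ℝ) : ℂ) • ((2 : ℂ) • x (R v) - R (x (R v))) +
      ((Real.exp (β / 2) : ℝ) : ℂ) • R (x ((2 : ℂ) • v - R v)) := by
  obtain ⟨x, hxA, w, hw, hx1, hx2, hx3⟩ := exists_vec h hcyc' hx' (Real.exp_pos (β / 2))
    (Real.exp_pos (-β / 2))
  refine ⟨x, hxA, ?_⟩
  set μ : ℂ := ((Real.exp (β / 2) : ℝ) : ℂ) with hμ
  set ν : ℂ := ((Real.exp (-β / 2) : ℝ) : ℂ) with hν
  -- test on the dense set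
  have hD : ∀ c ∈ A.commutant, ∀ b ∈ A.commutant, ⟪b ξ, D (x' (D (c ξ)))⟫_ℂ =
      ⟪b ξ, ν • ((2 : ℂ) • x (R (c ξ)) - R (x (R (c ξ)))) +
        μ • R (x ((2 : ℂ) • (c ξ) - R (c ξ)))⟫_ℂ := by
    intro a' ha' b' hb'
    obtain ⟨a, haA, a1, a2, a3⟩ := exists_half h hcyc' ha'
    obtain ⟨b, hbA, b1, b2, b3⟩ := exists_half h hcyc' hb'
    have hDa : D (a' ξ) = (2 : ℂ) • a ξ := by rw [h.D_comm a' ha', a1]
    have hDb : D (b' ξ) = (2 : ℂ) • b ξ := by rw [h.D_comm b' hb', b1]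
    have L : ⟪b' ξ, D (x' (D (a' ξ)))⟫_ℂ =
        4 * (μ * ⟪a ξ, b (x ξ)⟫_ℂ + ν * ⟪a ((star x) ξ), b ξ⟫_ℂ) := by
      rw [h.D_symm, hDa, hDb, map_smul, inner_smul_left, inner_smul_right, Complex.conj_ofNat]
      have h4 : ⟪x' (a ξ), b ξ⟫_ℂ = ⟪((star b) * a) ξ, (star x') ξ⟫_ℂ := by
        rw [← inner_star_right, ← commute_apply hbA (star_mem hx'), ← inner_star_left]
        rfl
      rw [h4, hx3 _ (mul_mem (star_mem hbA) haA), star_mul, star_star]
      change 2 * (2 * (μ * ⟪(star b) (a ξ), x ξ⟫_ℂ + ν * ⟪(star x) ξ, (star a) (b ξ)⟫_ℂ)) = _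
      rw [inner_star_left, inner_star_right]
      ring
    have b3' : ⟪b' ξ, x ((star a) ξ)⟫_ℂ - ⟪(star b) ξ, x ((star a) ξ)⟫_ℂ =
        ⟪a ((star x) ξ), b ξ⟫_ℂ := by
      have h5 := b3 (a * star x) (mul_mem haA (star_mem hxA))
      rw [star_mul, star_star] at h5
      change ⟪a ((star x) ξ), (star b') ξ⟫_ℂ = ⟪a ((star x) ξ), b ξ⟫_ℂ +
        ⟪(star b) ξ, x ((star a) ξ)⟫_ℂ at h5
      have h6 : ⟪b' ξ, x ((star a) ξ)⟫_ℂ = ⟪a ((star x) ξ), (star b') ξ⟫_ℂ := by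
        rw [← inner_star_left x, inner_star_right a, commute_apply (star_mem hxA) hb',
          commute_apply haA hb', ← inner_star_right b']
      rw [h6, h5]; ring
    have a3' : ⟪(star b) ξ, x (a' ξ)⟫_ℂ - ⟪(star b) ξ, x ((star a) ξ)⟫_ℂ =
        ⟪a ξ, b (x ξ)⟫_ℂ := by
      have h5 := a3 (b * x) (mul_mem hbA hxA)
      rw [star_mul] at h5
      change ⟪b (x ξ), (star a') ξ⟫_ℂ = ⟪b (x ξ), a ξ⟫_ℂ +
        ⟪(star a) ξ, (star x) ((star b) ξ)⟫_ℂ at h5
      have h6 := congrArg (starRingEnd ℂ) h5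
      rw [map_add, inner_conj_symm, inner_conj_symm, inner_conj_symm] at h6
      have h7 : ⟪(star b) ξ, x (a' ξ)⟫_ℂ = ⟪(star a') ξ, b (x ξ)⟫_ℂ := by
        rw [commute_apply hxA ha', ← inner_star_left a', ← commute_apply (star_mem hbA)
          (star_mem ha'), inner_star_left b]
      rw [h7, h6, inner_star_left x]
      ring
    have M1 : ⟪b' ξ, (2 : ℂ) • x (R (a' ξ)) - R (x (R (a' ξ)))⟫_ℂ =
        4 * ⟪a ((star x) ξ), b ξ⟫_ℂ := by
      rw [← b3', a2, map_smul, map_smul, inner_sub_right, inner_smul_right, inner_smul_right,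
        inner_smul_right, ← inner_sa h.R_star, b2, inner_smul_left, Complex.conj_ofNat]
      ring
    have M2 : ⟪b' ξ, R (x ((2 : ℂ) • (a' ξ) - R (a' ξ)))⟫_ℂ = 4 * ⟪a ξ, b (x ξ)⟫_ℂ := by
      rw [← a3', a2, ← inner_sa h.R_star, b2, map_sub, map_smul, map_smul, inner_sub_right,
        inner_smul_left, inner_smul_left, inner_smul_right, inner_smul_right, Complex.conj_ofNat]
      ring
    rw [L, inner_add_right, inner_smul_right, inner_smul_right, M1, M2]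
    ring
  have hE : ∀ z ∈ (orb A.commutant ξ : Set H), D (x' (D z)) =
      ν • ((2 : ℂ) • x (R z) - R (x (R z))) + μ • R (x ((2 : ℂ) • z - R z)) := by
    rintro _ ⟨c, hc, rfl⟩
    rw [← sub_eq_zero]
    refine hcyc'.eq_zero_of_inner_right ℂ ?_
    rintro _ ⟨b, hb, rfl⟩
    rw [inner_sub_right, hD c hc b hb, sub_self]
  intro v
  have hcl : IsClosed {z : H | D (x' (D z)) =
      ν • ((2 : ℂ) • x (R z) - R (x (R z))) + μ • R (x ((2 : ℂ) • z - R z))} := by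
    refine isClosed_eq (by fun_prop) (by fun_prop)
  exact closure_minimal hE hcl (hcyc' v)

end Pool.Agent.Helper23

end

section

open scoped InnerProductSpace Topology BoundedContinuousFunction

open ContinuousLinearMap Filter MeasureTheory

set_option linter.unusedSectionVars false

namespace Pool.Agent.Helper23

universe u

variable {H : Type u} [NormedAddCommGroup H] [InnerProductSpace ℂ H] [CompleteSpace H]

variable {M N : VonNeumannAlgebra H} {ξ : H} {E : (H →L[ℂ] H) → (H →L[ℂ] H)}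

/-- the Radon-Nikodym theorem at the level of vectors, with a uniform bound -/
theorem TTData.exists_half_bound {A : VonNeumannAlgebra H} {R : H →L[ℂ] H} {D : H →L[ℝ] H}
    (h : TTData A ξ R D) (hcyc' : Dense (orb A.commutant ξ : Set H)) :
    ∃ K : ℝ, 0 ≤ K ∧ ∀ r ∈ A.commutant, ∃ b ∈ A, ‖b‖ ≤ K * ‖r‖ ∧ R (r ξ) = (2 : ℂ) • b ξ := by
  have hex : ∀ r : A.commutant.toStarSubalgebra, ∃ b : A.toStarSubalgebra,
      R ((r : H →L[ℂ] H) ξ) = (2 : ℂ) • (b : H →L[ℂ] H) ξ := by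
    intro r
    obtain ⟨a, ha, -, h2, -⟩ := Pool.Agent.Helper72.exists_half h hcyc' r.2
    exact ⟨⟨star a, star_mem ha⟩, h2⟩
  choose f hf using hex
  have hinj : ∀ b b' : A.toStarSubalgebra,
      (2 : ℂ) • (b : H →L[ℂ] H) ξ = (2 : ℂ) • (b' : H →L[ℂ] H) ξ → b = b' := by
    intro b b' hb
    have h1 : (b : H →L[ℂ] H) ξ = (b' : H →L[ℂ] H) ξ :=
      smul_right_injective H (two_ne_zero : (2 : ℂ) ≠ 0) hb
    exact Subtype.ext (eq_of_dense A hcyc' b.2 b'.2 h1)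
  let F : A.commutant.toStarSubalgebra →ₗ[ℂ] A.toStarSubalgebra :=
    { toFun := f
      map_add' := fun r r' => by
        apply hinj
        rw [← hf]
        change R ((r : H →L[ℂ] H) ξ + (r' : H →L[ℂ] H) ξ) =
          (2 : ℂ) • ((f r : H →L[ℂ] H) ξ + (f r' : H →L[ℂ] H) ξ)
        rw [map_add, hf, hf, smul_add]
      map_smul' := fun c r => by
        apply hinj
        rw [← hf]
        change R (c • (r : H →L[ℂ] H) ξ) = (2 : ℂ) • (c • (f r : H →L[ℂ] H) ξ)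
        rw [map_smul, hf, smul_comm] }
  have : CompleteSpace A.toStarSubalgebra := (vN_isClosed A).completeSpace_coe
  have : CompleteSpace A.commutant.toStarSubalgebra :=
    (vN_isClosed A.commutant).completeSpace_coe
  have hgr : IsClosed (F.graph : Set (A.commutant.toStarSubalgebra × A.toStarSubalgebra)) := by
    have e1 : (F.graph : Set (A.commutant.toStarSubalgebra × A.toStarSubalgebra)) =
        {p | R ((p.1 : H →L[ℂ] H) ξ) = (2 : ℂ) • (p.2 : H →L[ℂ] H) ξ} := by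
      ext p
      simp only [SetLike.mem_coe, LinearMap.mem_graph_iff, Set.mem_ofPred_eq]
      constructor
      · intro hp
        rw [hp]
        exact hf p.1
      · intro hp
        refine hinj _ _ ?_
        rw [← hp]
        exact hf p.1
    rw [e1]
    refine isClosed_eq ?_ ?_
    · fun_prop
    · fun_prop
  have hcont : Continuous F := F.continuous_of_isClosed_graph hgr
  let F' : A.commutant.toStarSubalgebra →L[ℂ] A.toStarSubalgebra := ⟨F, hcont⟩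
  refine ⟨‖F'‖, norm_nonneg _, fun r hr => ⟨(f ⟨r, hr⟩ : H →L[ℂ] H), (f ⟨r, hr⟩).2, ?_,
    hf ⟨r, hr⟩⟩⟩
  exact F'.le_opNorm ⟨r, hr⟩

end Pool.Agent.Helper23

end

end

section

section

open scoped InnerProductSpace Topology BoundedContinuousFunction

open ContinuousLinearMap Filter MeasureTheory

namespace Pool.Agent.Helper43.TTF

open Pool.Agent.Helper23

variable {H : Type*} [NormedAddCommGroup H] [InnerProductSpace ℂ H] [CompleteSpace H]

variable {A : VonNeumannAlgebra H} {ξ : H}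

variable {R : H →L[ℂ] H} {D : H →L[ℝ] H} {Ψ : (ℝ →ᵇ ℂ) →⋆ₐ[ℂ] (H →L[ℂ] H)}

theorem FC.exists_J (h : FC R D Ψ) (h' : TTData A ξ R D) : ∃ J : H →L[ℝ] H, JD D Ψ J := by
  set e : H →ₗ[ℝ] H := ((Ψ FT).restrictScalars ℝ : H →L[ℝ] H).toLinearMap with he
  have hd : DenseRange e := h.T_dense h'
  have hn : ∀ v, ‖(D : H →ₗ[ℝ] H) v‖ ≤ 1 * ‖e v‖ := by
    intro v
    rw [one_mul]
    exact (h.D_norm h' v).le
  set J : H →L[ℝ] H := (D : H →ₗ[ℝ] H).extendOfNorm e with hJ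
  have hJT : ∀ v, J (Ψ FT v) = D v := fun v => LinearMap.extendOfNorm_eq hd ⟨1, hn⟩ v
  have hdense : ∀ (p : H → Prop), IsClosed {v | p v} → (∀ v, p (Ψ FT v)) → ∀ v, p v := by
    intro p hp h1 v
    have hsub : Set.range (Ψ FT) ⊆ {v | p v} := by
      rintro _ ⟨w, rfl⟩
      exact h1 w
    exact closure_minimal hsub hp (h.T_dense h' v)
  refine ⟨J, hJT, ?_, ?_, ?_, ?_⟩
  · refine hdense _ (isClosed_eq (by fun_prop) (by fun_prop)) ?_
    intro v
    rw [hJT, h.D_T]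
  · refine hdense _ (isClosed_eq (by fun_prop) (by fun_prop)) ?_
    refine hdense _ (isClosed_eq (by fun_prop) (by fun_prop)) ?_
    intro v
    rw [hJT, h.D_T, hJT, h'.D_sq, h.T_sq]
  · intro c
    refine hdense _ (isClosed_eq (by fun_prop) (by fun_prop)) ?_
    intro v
    rw [← map_smul, hJT, hJT, h'.D_conj]
  · refine hdense _ (isClosed_eq (by fun_prop) (by fun_prop)) ?_
    intro v
    rw [hJT, h.D_norm h']

end Pool.Agent.Helper43.TTF

end

section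

open scoped InnerProductSpace Topology BoundedContinuousFunction FourierTransform

open ContinuousLinearMap Filter MeasureTheory

namespace Pool.Agent.Helper43.TTF

open Pool.Agent.Helper23

variable {H : Type*} [NormedAddCommGroup H] [InnerProductSpace ℂ H] [CompleteSpace H]

variable {R : H →L[ℂ] H} {D : H →L[ℝ] H} {Ψ : (ℝ →ᵇ ℂ) →⋆ₐ[ℂ] (H →L[ℂ] H)} {J : H →L[ℝ] H}

lemma mc_int (h : FC R D Ψ) (y : H →L[ℂ] H) (v w : H) (β : ℝ) :
    Integrable (fun t => ker β t * mc Ψ y v w t) := by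
  refine Integrable.mono' (ker_int.mul_const (‖v‖ * (‖y‖ * ‖w‖)))
    ((ker_cont β).mul (mc_cont h y v w)).aestronglyMeasurable
    (Eventually.of_forall fun t => ?_)
  rw [norm_mul, ker_norm]
  gcongr
  exact mc_norm Ψ y v w t

theorem tomita {A : VonNeumannAlgebra H} {ξ : H} (h' : TTData A ξ R D)
    (hcyc : Dense (orb A ξ : Set H)) (hcyc' : Dense (orb A.commutant ξ : Set H))
    (h : FC R D Ψ) (hJ : JD D Ψ J) {x' : H →L[ℂ] H} (hx' : x' ∈ A.commutant) (t : ℝ) :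
    Ψ (expB t) * hJ.cj x' * Ψ (expB (-t)) ∈ A := by
  rw [mem_iff_commutes]
  intro z hz
  ext w
  rw [← sub_eq_zero]
  refine ext_inner_left ℂ fun v => ?_
  rw [inner_zero_right, inner_sub_right]
  set y := hJ.cj x' with hy
  have key : ∀ t : ℝ, mc Ψ y ((star z) v) w t - mc Ψ y v (z w) t = 0 := by
    refine eq_zero_of_fourier ((mc_cont h y _ _).sub (mc_cont h y _ _)) ?_ ?_
    · have h1 := (mc_int h y ((star z) v) w 0).sub (mc_int h y v (z w) 0)
      refine h1.congr (Eventually.of_forall fun t => ?_)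
      have h2 : ker 0 t = ((2 * Real.cosh (Real.pi * t) : ℝ) : ℂ)⁻¹ := by
        unfold ker
        simp
      simp only [Pi.sub_apply, h2]
      ring
    · intro β
      obtain ⟨x, hxA, hx⟩ := h'.exists_RN hcyc hcyc' hx' β
      have h1 := integral_formula h hJ hx ((star z) v) w
      have h2 := integral_formula h hJ hx v (z w)
      have h3 : (fun t => ker β t * (mc Ψ y ((star z) v) w t - mc Ψ y v (z w) t)) =
          fun t => ker β t * mc Ψ y ((star z) v) w t - ker β t * mc Ψ y v (z w) t := by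
        funext t
        rw [mul_sub]
      rw [h3, integral_sub (mc_int h y _ _ β) (mc_int h y _ _ β), ← h1, ← h2, inner_star_left,
        commute_apply hxA hz, sub_self]
  have h1 := key t
  unfold mc at h1
  rw [inner_star_left] at h1
  exact h1

end Pool.Agent.Helper43.TTF

end

section

open scoped InnerProductSpace Topology BoundedContinuousFunction

open ContinuousLinearMap Filter MeasureTheory

namespace Pool.Agent.Helper43.TTF

open Pool.Agent.Helper23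

variable {H : Type*} [NormedAddCommGroup H] [InnerProductSpace ℂ H] [CompleteSpace H]

variable {R : H →L[ℂ] H} {D : H →L[ℝ] H} {Ψ : (ℝ →ᵇ ℂ) →⋆ₐ[ℂ] (H →L[ℂ] H)} {J : H →L[ℝ] H}

/-- `J A J = A'` (one inclusion). -/
lemma cj_mem {A : VonNeumannAlgebra H} {ξ : H} (h' : TTData A ξ R D)
    (hcyc : Dense (orb A ξ : Set H)) (hcyc' : Dense (orb A.commutant ξ : Set H))
    (h : FC R D Ψ) (hJ : JD D Ψ J) {a : H →L[ℂ] H} (ha : a ∈ A) : hJ.cj a ∈ A.commutant := by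
  have h1 := tomita h'.symm hcyc' (by rwa [VonNeumannAlgebra.commutant_commutant]) h.symm hJ.symm
    (x' := a) (by rwa [VonNeumannAlgebra.commutant_commutant]) 0
  rw [neg_zero, expB_zero, map_one, one_mul, mul_one] at h1
  exact h1

/-- Tomita's theorem -/
theorem tomita' {A : VonNeumannAlgebra H} {ξ : H} (h' : TTData A ξ R D)
    (hcyc : Dense (orb A ξ : Set H)) (hcyc' : Dense (orb A.commutant ξ : Set H))
    (h : FC R D Ψ) (hJ : JD D Ψ J) {a : H →L[ℂ] H} (ha : a ∈ A) (t : ℝ) :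
    Ψ (expB t) * a * Ψ (expB (-t)) ∈ A := by
  have h1 := tomita h' hcyc hcyc' h hJ (cj_mem h' hcyc hcyc' h hJ ha) t
  rwa [hJ.cj_cj] at h1

theorem modular_of {A : VonNeumannAlgebra H} {ξ : H} (h' : TTData A ξ R D)
    (hcyc : Dense (orb A ξ : Set H)) (hsep : ∀ a ∈ A, a ξ = 0 → a = 0)
    (h : FC R D Ψ) : Modular A ξ R D Ψ := by
  obtain ⟨J, hJ⟩ := h.exists_J h'
  exact ⟨h', h.psi_FR, h.psi_comm, h.psi_D, h.psi_cont, h.psi_xi (R_xi h'),
    fun t a ha => tomita' h' hcyc (dense_of_separating A ξ hsep) h hJ ha t⟩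

end Pool.Agent.Helper43.TTF

end

end

section

section

open scoped InnerProductSpace Topology BoundedContinuousFunction

open ContinuousLinearMap Filter MeasureTheory

namespace Pool.Agent.Helper88.CS

open Pool.Agent.Helper23

open Pool.Agent.Helper78.BC (Std rm Fixed)

variable {H : Type*} [NormedAddCommGroup H] [InnerProductSpace ℂ H] [CompleteSpace H]

variable {A : VonNeumannAlgebra H} {ξ : H} {J : H →L[ℝ] H}
  {Ψ : (ℝ →ᵇ ℂ) →⋆ₐ[ℂ] (H →L[ℂ] H)} {R : H →L[ℂ] H} {D : H →L[ℝ] H}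

namespace FullAux

open ExhAux InftyAux

lemma rm_fix (h : St A ξ J Ψ R D) {e : H →L[ℂ] H} (hes : star e = e) (hJe : J (e ξ) = e ξ) :
    rm J e ξ = e ξ := by
  unfold rm; rw [h.J_xi, hes, hJe]

end FullAux

end Pool.Agent.Helper88.CS

end

end

section

section

open scoped InnerProductSpace Topology BoundedContinuousFunction FourierTransform ENNReal

open ContinuousLinearMap Filter MeasureTheory

set_option linter.unusedSectionVars false

namespace Pool.Agent.Helper23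

variable {H : Type*} [NormedAddCommGroup H] [InnerProductSpace ℂ H] [CompleteSpace H]

variable {M N : VonNeumannAlgebra H} {ξ : H} {E : (H →L[ℂ] H) → (H →L[ℂ] H)}

lemma fco_mul {T T' : ℝ → H →L[ℂ] H} (hT : Dec T) (hT' : Dec T') :
    fco T * fco T' = fco (fun s => (T s) * (T' s)) := by
  ext F : 1
  refine (Fo H).injective ?_
  change Fo H (fco T (fco T' F)) = _
  rw [Fo_fco, Fo_fco, Fo_fco]
  exact dec_comp hT hT' _

lemma fco_adj {T T' : ℝ → H →L[ℂ] H} (hT : Dec T) (hT' : Dec T')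
    (hadj : ∀ s x y, ⟪T' s x, y⟫_ℂ = ⟪x, T s y⟫_ℂ) : star (fco T) = fco T' := by
  rw [ContinuousLinearMap.star_eq_adjoint]
  symm
  rw [ContinuousLinearMap.eq_adjoint_iff]
  intro x y
  rw [inner_fco, ← (Fo H).inner_map_map (fco T' x), Fo_fco]
  exact dec_adj hT hT' hadj _ _

namespace Modular

variable {A : VonNeumannAlgebra H} {R : H →L[ℂ] H} {D : H →L[ℝ] H}
  {Ψ : (ℝ →ᵇ ℂ) →⋆ₐ[ℂ] (H →L[ℂ] H)} (h : Modular A ξ R D Ψ)

include h

lemma W_star : star (fco fun t : ℝ => Ψ (expB (2 * Real.pi * t))) =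
    fco fun t : ℝ => Ψ (expB (-(2 * Real.pi * t))) :=
  fco_adj h.U_dec h.U_dec' fun _ x y => psi_expB_adj Ψ _ x y

lemma W_mul : (fco fun t : ℝ => Ψ (expB (2 * Real.pi * t))) *
    (fco fun t : ℝ => Ψ (expB (-(2 * Real.pi * t)))) = 1 := by
  rw [fco_mul h.U_dec h.U_dec']
  have : (fun t : ℝ => Ψ (expB (2 * Real.pi * t)) * Ψ (expB (-(2 * Real.pi * t)))) =
      fun _ => (1 : H →L[ℂ] H) := by
    funext t
    rw [psi_expB_mul, add_neg_cancel, expB_zero, map_one]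
  rw [this, fco_const, lift_one]

lemma W_mul' : (fco fun t : ℝ => Ψ (expB (-(2 * Real.pi * t)))) *
    (fco fun t : ℝ => Ψ (expB (2 * Real.pi * t))) = 1 := by
  rw [fco_mul h.U_dec' h.U_dec]
  have : (fun t : ℝ => Ψ (expB (-(2 * Real.pi * t))) * Ψ (expB (2 * Real.pi * t))) =
      fun _ => (1 : H →L[ℂ] H) := by
    funext t
    rw [psi_expB_mul, neg_add_cancel, expB_zero, map_one]
  rw [this, fco_const, lift_one]

lemma W'_ten (f : L2R ℂ) : fco (fun t : ℝ => Ψ (expB (-(2 * Real.pi * t)))) (ten f ξ) =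
    ten f ξ := by
  refine (Fo H).injective ?_
  rw [Fo_fco, Fo_ten]
  ext1
  filter_upwards [dec_coe h.U_dec' (ten (Fo ℂ f) ξ), ten_coe (Fo ℂ f) ξ] with t h1 h2
  rw [h1, h2, map_smul, h.U_xi]

lemma conj_eq (c : H →L[ℂ] H) :
    fco (fun t : ℝ => Ψ (expB (2 * Real.pi * t)) * c * Ψ (expB (-(2 * Real.pi * t)))) =
      (fco fun t : ℝ => Ψ (expB (2 * Real.pi * t))) * lift c *
        (fco fun t : ℝ => Ψ (expB (-(2 * Real.pi * t)))) := by
  have hd : Dec (fun t : ℝ => Ψ (expB (2 * Real.pi * t)) * c) := h.U_dec.comp (Dec.const c)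
  rw [← fco_const c, fco_mul h.U_dec (Dec.const c), fco_mul hd h.U_dec']

lemma conj_ten (c : H →L[ℂ] H) (f : L2R ℂ) :
    fco (fun t : ℝ => Ψ (expB (2 * Real.pi * t)) * c * Ψ (expB (-(2 * Real.pi * t)))) (ten f ξ) =
      fco (fun t : ℝ => Ψ (expB (2 * Real.pi * t))) (ten f (c ξ)) := by
  rw [h.conj_eq]
  change fco _ (lift c (fco _ (ten f ξ))) = _
  rw [h.W'_ten, lift_ten]

lemma conj_star (c : H →L[ℂ] H) :
    star (fco (fun t : ℝ => Ψ (expB (2 * Real.pi * t)) * c * Ψ (expB (-(2 * Real.pi * t))))) =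
      fco (fun t : ℝ => Ψ (expB (2 * Real.pi * t)) * star c *
        Ψ (expB (-(2 * Real.pi * t)))) := by
  rw [h.conj_eq, h.conj_eq, star_mul, star_mul, h.W_star, ← lift_star, ← h.W_star, star_star,
    mul_assoc]

lemma conj_isom {c d : H →L[ℂ] H} (hcd : c * d = 1) :
    fco (fun t : ℝ => Ψ (expB (2 * Real.pi * t)) * c * Ψ (expB (-(2 * Real.pi * t)))) *
      fco (fun t : ℝ => Ψ (expB (2 * Real.pi * t)) * d * Ψ (expB (-(2 * Real.pi * t)))) = 1 := by
  rw [h.conj_eq, h.conj_eq]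
  set W := fco fun t : ℝ => Ψ (expB (2 * Real.pi * t)) with hW
  set W' := fco fun t : ℝ => Ψ (expB (-(2 * Real.pi * t))) with hW'
  have h1 : W * W' = 1 := h.W_mul
  have h2 : W' * W = 1 := h.W_mul'
  calc W * lift c * W' * (W * lift d * W') = W * lift c * (W' * W) * lift d * W' := by
        simp only [mul_assoc]
    _ = W * (lift c * lift d) * W' := by rw [h2]; simp only [mul_assoc, one_mul]
    _ = 1 := by rw [← lift_mul, hcd, lift_one, mul_one, h1]

end Modular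

end Pool.Agent.Helper23

end

section

open scoped InnerProductSpace Topology BoundedContinuousFunction ComplexOrder

open ContinuousLinearMap Filter

namespace Pool.Agent.Helper23

variable {H : Type*} [NormedAddCommGroup H] [InnerProductSpace ℂ H] [CompleteSpace H]

variable {M N : VonNeumannAlgebra H} {ξ : H} {E : (H →L[ℂ] H) → (H →L[ℂ] H)}

namespace Setting

variable (S : Setting M N E ξ)

include S

/-- the case of contractions -/
lemma exists_near_right_one {l : ℝ} (hl : 0 < l) {ε : ℝ} (hε : 0 < ε) :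
    ∃ δ : ℝ, 0 < δ ∧ ∀ a ∈ N, ‖a‖ ≤ 1 → Defect N ξ l δ a →
      ∃ r ∈ M.commutant, ‖r‖ ≤ Real.sqrt l ∧ ‖a ξ - r ξ‖ ≤ ε := by
  by_contra hcon
  push Not at hcon
  choose a haN ha1 haD har using fun n : ℕ => hcon (1 / ((n : ℝ) + 1)) (by (clear * -; positivity))
  have hD : Dseq N ξ l a := by
    intro t ht
    filter_upwards [tendsto_one_div_add_atTop_nhds_zero_nat.eventually_lt_const ht] with n hn
    exact (haD n).mono hn.le
  obtain ⟨b, C, hbN, hbC, hb, hab⟩ := exists_sqrt_seq S.norm_one hl haN ha1 hD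
  have hC : 0 ≤ C := (norm_nonneg _).trans (hbC 0)
  have hb' : Dseq N ξ 1 (fun n => star (b n)) := by
    have := hb.star one_pos
    rwa [inv_one] at this
  set t : ℝ := ε ^ 2 / (1 + l * C) with ht
  have hden : 0 < 1 + l * C := by (clear * - hl hC; positivity)
  have htpos : 0 < t := by (clear * - hε hl hC; positivity)
  obtain ⟨n, hn1, hn2⟩ := ((hD t htpos).and (hb' t htpos)).exists
  have hd : t + l * (t * C) = ε ^ 2 := by
    rw [ht]; (clear * - hl hC hε; field_simp)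
  obtain ⟨r, hr, hr1, hr2⟩ := exists_dom_comm M (ξ := ξ) (η := a n ξ) (l := l)
    (δ := t + l * (t * C)) hl.le (by rw [hd]; (clear * - hε; positivity)) (fun x hx hx0 =>
      S.dom_of_defect hl htpos.le htpos.le (haN n) (ha1 n) (hbN n) (hbC n) (hab n) hn1 hn2 hx hx0)
  rw [hd] at hr2
  have h1 := har n r hr hr1
  rw [norm_sub_rev] at h1
  have h2 : ‖r ξ - a n ξ‖ ≤ ε :=
    (pow_le_pow_iff_left₀ (norm_nonneg _) hε.le two_ne_zero).1 hr2
  (clear * - h1 h2; linarith)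

theorem exists_near_right {l : ℝ} (hl : 0 < l) {C : ℝ} (hC : 0 ≤ C) {ε : ℝ} (hε : 0 < ε) :
    ∃ δ : ℝ, 0 < δ ∧ ∀ a ∈ N, ‖a‖ ≤ C →
      Defect N ξ l δ a → ∃ r ∈ M.commutant, ‖r‖ ≤ Real.sqrt l * C ∧ ‖a ξ - r ξ‖ ≤ ε := by
  rcases hC.eq_or_lt with h0 | h0
  · refine ⟨1, one_pos, fun a _ haC _ => ⟨0, zero_mem _, by simp [← h0], ?_⟩⟩
    have ha : a = 0 := norm_le_zero_iff.1 (haC.trans_eq h0.symm)
    rw [ha, zero_apply, sub_zero, norm_zero]
    exact hε.le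
  · obtain ⟨δ, hδ, h⟩ := S.exists_near_right_one hl (ε := ε / C) (by positivity)
    refine ⟨C * δ, by positivity, fun a haN haC haD => ?_⟩
    have e1 : ‖((C⁻¹ : ℝ) : ℂ)‖ = C⁻¹ := by
      rw [Complex.norm_real, Real.norm_of_nonneg (inv_pos.2 h0).le]
    have e2 : ((C : ℝ) : ℂ) * ((C⁻¹ : ℝ) : ℂ) = 1 := by
      rw [← Complex.ofReal_mul, mul_inv_cancel₀ h0.ne', Complex.ofReal_one]
    obtain ⟨r, hr, hr1, hr2⟩ := h (((C⁻¹ : ℝ) : ℂ) • a) (smul_mem' _ haN) (by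
      rw [norm_smul, e1, inv_mul_le_iff₀ h0, mul_one]
      exact haC) (by
      have := haD.smul ((C⁻¹ : ℝ) : ℂ)
      rwa [e1, inv_mul_cancel_left₀ h0.ne'] at this)
    refine ⟨((C : ℝ) : ℂ) • r, smul_mem' _ hr, ?_, ?_⟩
    · rw [norm_smul, Complex.norm_real, Real.norm_of_nonneg hC, mul_comm]
      exact mul_le_mul_of_nonneg_right hr1 hC
    · have e3 : a ξ - (((C : ℝ) : ℂ) • r) ξ =
          ((C : ℝ) : ℂ) • ((((C⁻¹ : ℝ) : ℂ) • a) ξ - r ξ) := by
        rw [smul_apply, smul_apply, smul_sub, smul_smul, e2, one_smul]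
      rw [e3, norm_smul, Complex.norm_real, Real.norm_of_nonneg hC]
      calc C * ‖(((C⁻¹ : ℝ) : ℂ) • a) ξ - r ξ‖ ≤ C * (ε / C) :=
            mul_le_mul_of_nonneg_left hr2 hC
        _ = ε := by field_simp

end Setting

end Pool.Agent.Helper23

end

section

open scoped InnerProductSpace Topology BoundedContinuousFunction

open ContinuousLinearMap Filter MeasureTheory

set_option linter.unusedSectionVars false

namespace Pool.Agent.Helper23

universe u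

variable {H : Type u} [NormedAddCommGroup H] [InnerProductSpace ℂ H] [CompleteSpace H]

variable {M N : VonNeumannAlgebra H} {ξ : H} {E : (H →L[ℂ] H) → (H →L[ℂ] H)}

theorem Setting.lamSeq_R' (S : Setting M N E ξ) {R : H →L[ℂ] H} {D : H →L[ℝ] H}
    (hR : TTData M ξ R D) {l : ℝ} (hl : 0 < l) {a : ℕ → H →L[ℂ] H} (ha : LamSeq N ξ l a) :
    Tendsto (fun n => ‖(2 : ℂ) • (star (a n)) ξ - ((1 + l : ℝ) : ℂ) • R ((star (a n)) ξ)‖) atTop
      (𝓝 0) := by
  obtain ⟨haN, ⟨C, hC⟩, hD⟩ := ha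
  have hC0 : 0 ≤ C := (norm_nonneg _).trans (hC 0)
  obtain ⟨K, hK, hKb⟩ := hR.exists_half_bound S.dense_comm
  rw [Metric.tendsto_nhds]
  intro ε' hε'
  set c0 : ℝ := 4 * (K * (Real.sqrt l * C)) + l * (4 * C + (4 * (K *
        (Real.sqrt l * C)) + (Real.sqrt l * C + l * C) * ‖D‖)) with hc0
  have hc : Continuous fun ε : ℝ => ‖D‖ * ε + Real.sqrt (2 * (ε * c0)) := by fun_prop
  have h0 : Tendsto (fun ε : ℝ => ‖D‖ * ε + Real.sqrt (2 * (ε * c0))) (𝓝[>] 0) (𝓝 0) := by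
    have := (hc.tendsto 0).mono_left (nhdsWithin_le_nhds (s := Set.Ioi (0 : ℝ)))
    simpa using this
  obtain ⟨ε, hε1, hε2⟩ := ((h0.eventually (gt_mem_nhds hε')).and self_mem_nhdsWithin).exists
  have hε : 0 < ε := hε2
  obtain ⟨δ, hδ, hδr⟩ := S.exists_near_right hl hC0 hε
  filter_upwards [hD (min δ ε) (lt_min hδ hε)] with n hn
  obtain ⟨r, hr, hrC, hrξ⟩ := hδr (a n) (haN n) (hC n) (hn.mono (min_le_left _ _))
  rw [dist_zero_right, norm_norm]
  exact (S.near_eig hR hK hKb hl hC0 hε.le (haN n) (hC n) (hn.mono (min_le_right _ _)) hr hrC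
    hrξ).trans_lt hε1

theorem Setting.lamSeq_R (S : Setting M N E ξ) {R : H →L[ℂ] H} {D : H →L[ℝ] H}
    (hR : TTData M ξ R D) {l : ℝ} (hl : 0 < l) {a : ℕ → H →L[ℂ] H} (ha : LamSeq N ξ l a) :
    Tendsto (fun n => ‖((2 * l : ℝ) : ℂ) • a n ξ - ((1 + l : ℝ) : ℂ) • R (a n ξ)‖) atTop
      (𝓝 0) := by
  obtain ⟨haN, ⟨C, hC⟩, hD⟩ := ha
  have h1 := S.lamSeq_R' hR (l := l⁻¹) (inv_pos.2 hl) (a := fun n => star (a n))
    ⟨fun n => star_mem (haN n), ⟨C, fun n => by rw [norm_star]; exact hC n⟩, Dseq.star hl hD⟩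
  have h2 := h1.const_mul l
  rw [mul_zero] at h2
  refine h2.congr fun n => ?_
  rw [star_star]
  have hl0 : (l : ℂ) ≠ 0 := by exact_mod_cast hl.ne'
  have e1 : ((2 * l : ℝ) : ℂ) • a n ξ - ((1 + l : ℝ) : ℂ) • R (a n ξ) =
      (l : ℂ) • ((2 : ℂ) • (a n) ξ - ((1 + l⁻¹ : ℝ) : ℂ) • R ((a n) ξ)) := by
    rw [smul_sub, smul_smul, smul_smul]
    congr 2
    · push_cast; ring
    · push_cast
      rw [mul_add, mul_inv_cancel₀ hl0]; ring
  rw [e1, norm_smul, Complex.norm_real, Real.norm_of_nonneg hl.le]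

theorem Setting.lamSeq_U (S : Setting M N E ξ) {R : H →L[ℂ] H} {D : H →L[ℝ] H}
    {Ψ : (ℝ →ᵇ ℂ) →⋆ₐ[ℂ] (H →L[ℂ] H)} (hΨ : Modular M ξ R D Ψ) {l : ℝ} (hl : 0 < l)
    {a : ℕ → H →L[ℂ] H} (ha : LamSeq N ξ l a) (t : ℝ) :
    Tendsto (fun n => ‖Ψ (expB t) (a n ξ) - expB t (-Real.log l) • a n ξ‖) atTop (𝓝 0) := by
  have h1 := (S.lamSeq_R hΨ.data hl ha).const_mul ((3 * |t| + 6) / (2 * min 1 l))
  rw [mul_zero] at h1
  have hm : 0 < min 1 l := lt_min one_pos hl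
  refine squeeze_zero (fun n => norm_nonneg _) (fun n => ?_) h1
  have h2 := psi_dom Ψ (by (clear * - hl; positivity) : 0 ≤ (3 * |t| + 6) / (2 * min 1 l))
    (expB_dom_gen t hl) (a n ξ)
  rw [map_sub, map_sub, map_smul, map_smul, map_smul, map_one, hΨ.psi_FR] at h2
  exact h2

namespace Modular

variable {A : VonNeumannAlgebra H} {R : H →L[ℂ] H} {D : H →L[ℝ] H}
  {Ψ : (ℝ →ᵇ ℂ) →⋆ₐ[ℂ] (H →L[ℂ] H)} (h : Modular A ξ R D Ψ)

include h

/-- the distance of `U (ten f v)` from `ten (tr s f) v` as an integral -/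
lemma dist_sq_gen (s : ℝ) (f : L2R ℂ) (v : H) :
    ‖fco (fun t : ℝ => Ψ (expB (2 * Real.pi * t))) (ten f v) - ten (tr ℂ s f) v‖ ^ 2 =
      ∫ t, ‖Fo ℂ f t‖ ^ 2 * ‖Ψ (expB (2 * Real.pi * t)) v - chr s t • v‖ ^ 2 := by
  have h1 : ‖fco (fun t : ℝ => Ψ (expB (2 * Real.pi * t))) (ten f v) - ten (tr ℂ s f) v‖ =
      ‖dec (fun t : ℝ => Ψ (expB (2 * Real.pi * t))) (ten (Fo ℂ f) v) -
        ten (mulOp ℂ (chr s) (Fo ℂ f)) v‖ := by
    rw [← (Fo H).norm_map, map_sub, Fo_fco, Fo_ten, Fo_ten, Fo_tr]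
  rw [h1]
  set F : L2R H := dec (fun t : ℝ => Ψ (expB (2 * Real.pi * t))) (ten (Fo ℂ f) v) -
    ten (mulOp ℂ (chr s) (Fo ℂ f)) v with hF
  have h2 : ((‖F‖ ^ 2 : ℝ) : ℂ) = ⟪F, F⟫_ℂ := by
    rw [inner_self_eq_norm_sq_to_K]; norm_cast
  have h3 : ⟪F, F⟫_ℂ = ((∫ s, ‖F s‖ ^ 2 : ℝ) : ℂ) := by
    rw [L2.inner_def, ← integral_complex_ofReal]
    refine integral_congr_ae (Eventually.of_forall fun s => ?_)
    change ⟪F s, F s⟫_ℂ = _
    rw [inner_self_eq_norm_sq_to_K]; norm_cast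
  rw [h3] at h2
  have h4 : ‖F‖ ^ 2 = ∫ s, ‖F s‖ ^ 2 := by exact_mod_cast h2
  rw [h4]
  refine integral_congr_ae ?_
  filter_upwards [Lp.coeFn_sub (dec (fun t : ℝ => Ψ (expB (2 * Real.pi * t)))
    (ten (Fo ℂ f) v)) (ten (mulOp ℂ (chr s) (Fo ℂ f)) v), dec_coe h.U_dec (ten (Fo ℂ f) v),
    ten_coe (Fo ℂ f) v, ten_coe (mulOp ℂ (chr s) (Fo ℂ f)) v,
    mulOp_coe (chr_bm s) (Fo ℂ f)] with t e1 e2 e3 e4 e5
  rw [hF, e1, Pi.sub_apply, e2, e3, e4, e5, map_smul, smul_eq_mul, mul_comm (chr s t), mul_smul,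
    ← smul_sub, norm_smul, mul_pow]

end Modular

theorem Setting.lamSeq_conj (S : Setting M N E ξ) {R : H →L[ℂ] H} {D : H →L[ℝ] H}
    {Ψ : (ℝ →ᵇ ℂ) →⋆ₐ[ℂ] (H →L[ℂ] H)} (hΨ : Modular M ξ R D Ψ) {l : ℝ} (hl : 0 < l)
    {a : ℕ → H →L[ℂ] H} (ha : LamSeq N ξ l a) (f : L2R ℂ) :
    Tendsto (fun n => ‖fco (fun t : ℝ => Ψ (expB (2 * Real.pi * t)) * a n *
      Ψ (expB (-(2 * Real.pi * t)))) (ten f ξ) - ten (tr ℂ (Real.log l) f) (a n ξ)‖) atTop
      (𝓝 0) := by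
  obtain ⟨C, hC⟩ := ha.2.1
  have hC0 : 0 ≤ C := (norm_nonneg _).trans (hC 0)
  have haξ : ∀ n, ‖a n ξ‖ ≤ C := fun n => by
    have := (a n).le_of_opNorm_le (hC n) ξ
    rwa [S.norm_one, mul_one] at this
  have h1 : Tendsto (fun n => ∫ t, ‖Fo ℂ f t‖ ^ 2 *
      ‖Ψ (expB (2 * Real.pi * t)) (a n ξ) - chr (Real.log l) t • a n ξ‖ ^ 2) atTop
      (𝓝 (∫ _t : ℝ, (0 : ℝ))) := by
    refine tendsto_integral_of_dominated_convergence (fun t => ‖Fo ℂ f t‖ ^ 2 * (2 * C) ^ 2)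
      (fun n => ?_) ?_ (fun n => Eventually.of_forall fun t => ?_)
      (Eventually.of_forall fun t => ?_)
    · refine AEStronglyMeasurable.mul ?_ ?_
      · exact ((Lp.aestronglyMeasurable (Fo ℂ f)).norm.pow 2)
      · have hc : Continuous fun t : ℝ =>
            ‖Ψ (expB (2 * Real.pi * t)) (a n ξ) - chr (Real.log l) t • a n ξ‖ ^ 2 := by
          have h2 := (hΨ.U_cont (a n ξ)).comp
            (by fun_prop : Continuous fun t : ℝ => 2 * Real.pi * t)
          have h3 : Continuous fun t : ℝ => chr (Real.log l) t • a n ξ := by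
            unfold chr
            fun_prop
          exact ((h2.sub h3).norm).pow 2
        exact hc.aestronglyMeasurable
    · exact ((Lp.memLp (Fo ℂ f)).integrable_norm_pow two_ne_zero).mul_const _
    · have h2 : ‖Ψ (expB (2 * Real.pi * t)) (a n ξ) - chr (Real.log l) t • a n ξ‖ ≤ 2 * C := by
        refine (norm_sub_le _ _).trans ?_
        rw [psi_expB_norm, norm_smul, chr_eq_expB, expB_norm_apply]
        (clear * - haξ; linarith [haξ n])
      have h3 := pow_le_pow_left₀ (norm_nonneg _) h2 2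
      rw [Real.norm_of_nonneg (by (clear * -; positivity))]
      exact mul_le_mul_of_nonneg_left h3 (by positivity)
    · have h2 := ((S.lamSeq_U hΨ hl ha (2 * Real.pi * t)).pow 2).const_mul
        (‖Fo ℂ f t‖ ^ 2)
      rw [← chr_eq_expB] at h2
      simpa using h2
  rw [integral_zero] at h1
  have h2 := (Real.continuous_sqrt.tendsto 0).comp h1
  rw [Real.sqrt_zero] at h2
  refine h2.congr fun n => ?_
  change Real.sqrt (∫ t, ‖Fo ℂ f t‖ ^ 2 *
      ‖Ψ (expB (2 * Real.pi * t)) (a n ξ) - chr (Real.log l) t • a n ξ‖ ^ 2) = _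
  rw [← hΨ.dist_sq_gen, Real.sqrt_sq (norm_nonneg _), hΨ.conj_ten]

end Pool.Agent.Helper23

end

section

open scoped InnerProductSpace Topology ENNReal BoundedContinuousFunction FourierTransform SchwartzMap

open ContinuousLinearMap Filter MeasureTheory

namespace Pool.Agent.Helper23.ED

open Pool.Agent.Helper23 Pool.Agent.Helper23.RBF

open Pool.Agent.Helper78.BC.Transport (Sub r)

universe u

variable {H : Type*} [NormedAddCommGroup H] [InnerProductSpace ℂ H] [CompleteSpace H]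

variable {M N : VonNeumannAlgebra H} {ξ : H} {E : (H →L[ℂ] H) → (H →L[ℂ] H)}

theorem fcn_unit {A : VonNeumannAlgebra H} {R : H →L[ℂ] H} {D : H →L[ℝ] H}
    {Ψ : (ℝ →ᵇ ℂ) →⋆ₐ[ℂ] (H →L[ℂ] H)} (hΨ : Modular A ξ R D Ψ)
    (hN : ∀ (t : ℝ), ∀ a ∈ N, Ψ (expB t) * a * Ψ (expB (-t)) ∈ N) {u : H →L[ℂ] H}
    (hu : u ∈ N) (h1 : star u * u = 1) (h2 : u * star u = 1) :
    fcn Ψ u ∈ amp N ∧ star (fcn Ψ u) * fcn Ψ u = 1 ∧ fcn Ψ u * star (fcn Ψ u) = 1 := by
  refine ⟨fco_mem_amp (hΨ.conj_dec u) fun s => hN _ u hu, ?_, ?_⟩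
  · unfold fcn
    rw [hΨ.conj_star]
    exact hΨ.conj_isom h1
  · unfold fcn
    rw [hΨ.conj_star]
    exact hΨ.conj_isom h2

end Pool.Agent.Helper23.ED

end

end

section

section

open scoped InnerProductSpace Topology BoundedContinuousFunction ComplexOrder

open ContinuousLinearMap Filter

namespace Pool.Agent.Helper23

variable {H : Type*} [NormedAddCommGroup H] [InnerProductSpace ℂ H] [CompleteSpace H]

variable {M N : VonNeumannAlgebra H} {ξ : H} {E : (H →L[ℂ] H) → (H →L[ℂ] H)}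

namespace Setting

variable (S : Setting M N E ξ)

include S

lemma lamU_appR {l : ℝ} (hl : 0 < l) {a : ℕ → H →L[ℂ] H} (ha : LamU N ξ l a) :
    a ∈ AppR M ξ := by
  obtain ⟨haN, ⟨C, hC⟩, hD⟩ := ha
  have hC0 : 0 ≤ C := (norm_nonneg _).trans (hC 0)
  refine ⟨fun n => S.le _ (haN n), ⟨C, hC⟩, fun ε hε => ?_⟩
  obtain ⟨δ, hδ, h⟩ := S.exists_near_right hl hC0 hε
  classical
  refine ⟨fun n => if h' : Defect N ξ l δ (a n) then (h (a n) (haN n) (hC n) h').choose else 0,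
    fun n => ?_, ⟨Real.sqrt l * C, fun n => ?_⟩, ?_⟩
  · dsimp only
    split_ifs with h'
    · exact (h (a n) (haN n) (hC n) h').choose_spec.1
    · exact zero_mem _
  · dsimp only
    split_ifs with h'
    · exact (h (a n) (haN n) (hC n) h').choose_spec.2.1
    · rw [norm_zero]; (clear * - hl hC0; positivity)
  · filter_upwards [hD δ hδ] with n hn
    rw [dif_pos hn]
    exact (h (a n) (haN n) (hC n) hn).choose_spec.2.2

theorem lamU_appS {l : ℝ} (hl : 0 < l) {a : ℕ → H →L[ℂ] H} (ha : LamU N ξ l a) :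
    a ∈ AppS M ξ :=
  ⟨S.lamU_appR hl ha, S.lamU_appR (inv_pos.2 hl) (lamU_star hl ha)⟩

end Setting

end Pool.Agent.Helper23

end

end
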