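import Pool.Agent.Helper23.FB.L01_a0
import Pool.Agent.Helper23.FB.L01_a1
import Pool.Agent.Helper23.FB.L01_a11
import Pool.Agent.Helper23.FB.L01_a12
import Pool.Agent.Helper23.FB.L01_a13
import Pool.Agent.Helper23.FB.L01_a2
import Pool.Agent.Helper23.FB.L01_a3
import Pool.Agent.Helper23.FB.L01_a5
import Pool.Agent.Helper23.FB.L01_a7
import Pool.Agent.Helper23.FB.L01_a9

/-!
Parts of Helper23.FA.L01_03, Helper23.FA.L01_18, Helper23.FA.L02_02, Helper23.FA.L02_04, Helper23.FA.L02_07, Helper23.FA.L02_12, Helper23.FA.L02_13, Helper23.FA.L02_14, Helper23.FA.L03_00, Helper23.FA.L03_02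
-/

attribute [local instance 5000]
  Pool.Agent.Helper23.FB.Inst.rCharZero Pool.Agent.Helper23.FB.Inst.rALM
  Pool.Agent.Helper23.FB.Inst.rARM Pool.Agent.Helper23.FB.Inst.rALSM
  Pool.Agent.Helper23.FB.Inst.rARSM Pool.Agent.Helper23.FB.Inst.rARRLE
  Pool.Agent.Helper23.FB.Inst.rALRLE Pool.Agent.Helper23.FB.Inst.rARRLT
  Pool.Agent.Helper23.FB.Inst.rALRLT Pool.Agent.Helper23.FB.Inst.rPMRLT
  Pool.Agent.Helper23.FB.Inst.rMPRLT Pool.Agent.Helper23.FB.Inst.rPMM
  Pool.Agent.Helper23.FB.Inst.rMPM Pool.Agent.Helper23.FB.Inst.rPMSM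
  Pool.Agent.Helper23.FB.Inst.rMPSM Pool.Agent.Helper23.FB.Inst.rEAOL
  Pool.Agent.Helper23.FB.Inst.rIOR Pool.Agent.Helper23.FB.Inst.rISOR
  Pool.Agent.Helper23.FB.Inst.rFS Pool.Agent.Helper23.FB.Inst.rcCharZero
  Pool.Agent.Helper23.FB.Inst.rNZD Pool.Agent.Helper23.FB.Inst.rcNZD
  Pool.Agent.Helper23.FB.Inst.bSemiring Pool.Agent.Helper23.FB.Inst.bStar
  Pool.Agent.Helper23.FB.Inst.bAlg Pool.Agent.Helper23.FB.Inst.bSub
  Pool.Agent.Helper23.FB.Inst.bMul Pool.Agent.Helper23.FB.Inst.bAdd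
  Pool.Agent.Helper23.FB.Inst.iRing Pool.Agent.Helper23.FB.Inst.iSemiring
  Pool.Agent.Helper23.FB.Inst.iAlgC Pool.Agent.Helper23.FB.Inst.iSMulC
  Pool.Agent.Helper23.FB.Inst.iModC Pool.Agent.Helper23.FB.Inst.iAlgR
  Pool.Agent.Helper23.FB.Inst.iSMulR Pool.Agent.Helper23.FB.Inst.iModR
  Pool.Agent.Helper23.FB.Inst.iMonoid Pool.Agent.Helper23.FB.Inst.iSemigroup
  Pool.Agent.Helper23.FB.Inst.iMulOneClass Pool.Agent.Helper23.FB.Inst.iMul
  Pool.Agent.Helper23.FB.Inst.iAdd Pool.Agent.Helper23.FB.Inst.iSub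
  Pool.Agent.Helper23.FB.Inst.iNeg Pool.Agent.Helper23.FB.Inst.iAddCommMonoid
  Pool.Agent.Helper23.FB.Inst.iAddCommGroup Pool.Agent.Helper23.FB.Inst.iAddGroup
  Pool.Agent.Helper23.FB.Inst.iAddMonoid Pool.Agent.Helper23.FB.Inst.iSMulZeroC
  Pool.Agent.Helper23.FB.Inst.iMulActC Pool.Agent.Helper23.FB.Inst.iDSMulC
  Pool.Agent.Helper23.FB.Inst.iDSMulR Pool.Agent.Helper23.FB.Inst.iSNAG
  Pool.Agent.Helper23.FB.Inst.iSNACG Pool.Agent.Helper23.FB.Inst.iNorm
  Pool.Agent.Helper23.FB.Inst.iNSC' Pool.Agent.Helper23.FB.Inst.iNSR'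
  Pool.Agent.Helper23.FB.Inst.iTop Pool.Agent.Helper23.FB.Inst.iT2 Pool.Agent.Helper23.FB.Inst.iTR
  Pool.Agent.Helper23.FB.Inst.iSCC Pool.Agent.Helper23.FB.Inst.iIST
  Pool.Agent.Helper23.FB.Inst.iSCCR Pool.Agent.Helper23.FB.Inst.iISTR
  Pool.Agent.Helper23.FB.Inst.iZHC Pool.Agent.Helper23.FB.Inst.iAHC
  Pool.Agent.Helper23.FB.Inst.iAMHC Pool.Agent.Helper23.FB.Inst.iMAHC
  Pool.Agent.Helper23.FB.Inst.lTop Pool.Agent.Helper23.FB.Inst.lUnif
  Pool.Agent.Helper23.FB.Inst.lACM Pool.Agent.Helper23.FB.Inst.lACG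
  Pool.Agent.Helper23.FB.Inst.lSNAG Pool.Agent.Helper23.FB.Inst.lSNACG
  Pool.Agent.Helper23.FB.Inst.lNACG Pool.Agent.Helper23.FB.Inst.lNorm
  Pool.Agent.Helper23.FB.Inst.lIPS Pool.Agent.Helper23.FB.Inst.lMod
  Pool.Agent.Helper23.FB.Inst.lSMul Pool.Agent.Helper23.FB.Inst.lT2
  Pool.Agent.Helper23.FB.Inst.iStar Pool.Agent.Helper23.FB.Inst.iStarMul
  Pool.Agent.Helper23.FB.Inst.iStarAddMonoid Pool.Agent.Helper23.FB.Inst.iStarRing
  Pool.Agent.Helper23.FB.Inst.iNSC Pool.Agent.Helper23.FB.Inst.iSOR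
  Pool.Agent.Helper23.FB.Inst.iALM Pool.Agent.Helper23.FB.Inst.iARM
  Pool.Agent.Helper23.FB.Inst.iCFC Pool.Agent.Helper23.FB.Inst.iNCFC
  Pool.Agent.Helper23.FB.Inst.iStarModR Pool.Agent.Helper23.FB.Inst.iStarModC
  Pool.Agent.Helper23.FB.Inst.eStar Pool.Agent.Helper23.FB.Inst.eAdd
  Pool.Agent.Helper23.FB.Inst.eMul Pool.Agent.Helper23.FB.Inst.eOne
  Pool.Agent.Helper23.FB.Inst.eZero Pool.Agent.Helper23.FB.Inst.eMulAction
  Pool.Agent.Helper23.FB.Inst.eAMHC2 Pool.Agent.Helper23.FB.Inst.eZHC2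
  Pool.Agent.Helper23.FB.Inst.lAMHC

namespace Pool.Agent.Helper23
end Pool.Agent.Helper23
namespace Pool.Agent.Helper23.RBF
end Pool.Agent.Helper23.RBF
namespace Pool.Agent.Helper70.U8
end Pool.Agent.Helper70.U8
namespace Pool.Agent.Helper88.CS.CentAux
end Pool.Agent.Helper88.CS.CentAux
namespace Pool.Agent.Helper88.CS.CornerSpecAux
end Pool.Agent.Helper88.CS.CornerSpecAux
namespace Pool.Agent.Helper88.CS.InftyAux
end Pool.Agent.Helper88.CS.InftyAux

section

section

open scoped InnerProductSpace Topology BoundedContinuousFunction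

open ContinuousLinearMap Filter MeasureTheory

namespace Pool.Agent.Helper70.U8

open Pool.Agent.Helper23

variable {H : Type*} [NormedAddCommGroup H] [InnerProductSpace ℂ H] [CompleteSpace H]

variable {A : VonNeumannAlgebra H} {ξ : H} {R : H →L[ℂ] H} {D : H →L[ℝ] H}
  {Ψ : (ℝ →ᵇ ℂ) →⋆ₐ[ℂ] (H →L[ℂ] H)}

lemma U_norm (t : ℝ) (v : H) : ‖U Ψ t v‖ = ‖v‖ := psi_expB_norm Ψ _ v

lemma orbit_cont (h : Modular A ξ R D Ψ) (z : H →L[ℂ] H) (w : H) :
    Continuous fun t => U Ψ t (z (V Ψ t w)) :=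
  cont_apply (fun t v => (U_norm t v).le) (U_cont h) (z.continuous.comp (V_cont h w))

lemma orbit_norm (z : H →L[ℂ] H) (w : H) (t : ℝ) : ‖U Ψ t (z (V Ψ t w))‖ ≤ ‖z‖ * ‖w‖ := by
  rw [U_norm]
  refine (z.le_opNorm _).trans ?_
  rw [V_norm]

lemma orbit_int (h : Modular A ξ R D Ψ) {k : ℝ → ℂ} (hk : Integrable k) (z : H →L[ℂ] H) (w : H) :
    Integrable fun t => k t • U Ψ t (z (V Ψ t w)) :=
  hk.smul_bdd (C := ‖z‖ * ‖w‖) (orbit_cont h z w).aestronglyMeasurable
    (Eventually.of_forall fun t => orbit_norm z w t)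

/-- the smoothing operator -/
noncomputable def sm (h : Modular A ξ R D Ψ) {k : ℝ → ℂ} (hk : Integrable k) (z : H →L[ℂ] H) :
    H →L[ℂ] H :=
  LinearMap.mkContinuous
    { toFun := fun w => ∫ t, k t • U Ψ t (z (V Ψ t w))
      map_add' := by
        intro v w
        rw [← integral_add (orbit_int h hk z v) (orbit_int h hk z w)]
        congr 1
        funext t
        simp only [map_add, smul_add]
      map_smul' := by
        intro c w
        rw [RingHom.id_apply, ← integral_smul]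
        congr 1
        funext t
        simp only [map_smul]
        rw [smul_comm] }
    ((∫ t, ‖k t‖) * ‖z‖) (by
      intro w
      refine (norm_integral_le_integral_norm _).trans ?_
      have h1 : ∫ t, ‖k t • U Ψ t (z (V Ψ t w))‖ ≤ ∫ t, ‖k t‖ * (‖z‖ * ‖w‖) := by
        refine integral_mono (orbit_int h hk z w).norm (hk.norm.mul_const _) fun t => ?_
        change ‖k t • U Ψ t (z (V Ψ t w))‖ ≤ ‖k t‖ * (‖z‖ * ‖w‖)
        rw [norm_smul]
        gcongr
        exact orbit_norm z w t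
      refine h1.trans ?_
      rw [integral_mul_const, mul_assoc])

lemma sm_apply (h : Modular A ξ R D Ψ) {k : ℝ → ℂ} (hk : Integrable k) (z : H →L[ℂ] H) (w : H) :
    sm h hk z w = ∫ t, k t • U Ψ t (z (V Ψ t w)) := rfl

lemma inner_sm (h : Modular A ξ R D Ψ) {k : ℝ → ℂ} (hk : Integrable k) (z : H →L[ℂ] H) (v w : H) :
    ⟪v, sm h hk z w⟫_ℂ = ∫ t, k t * ⟪v, U Ψ t (z (V Ψ t w))⟫_ℂ := by
  rw [sm_apply, ← integral_inner (orbit_int h hk z w)]
  congr 1
  funext t
  rw [inner_smul_right]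

end Pool.Agent.Helper70.U8

end

section

open scoped InnerProductSpace Topology BoundedContinuousFunction

open ContinuousLinearMap Filter MeasureTheory

namespace Pool.Agent.Helper88.CS

open Pool.Agent.Helper23

open Pool.Agent.Helper78.BC (Std rm Fixed)

variable {H : Type*} [NormedAddCommGroup H] [InnerProductSpace ℂ H] [CompleteSpace H]

variable {A : VonNeumannAlgebra H} {ξ : H} {J : H →L[ℝ] H}
  {Ψ : (ℝ →ᵇ ℂ) →⋆ₐ[ℂ] (H →L[ℂ] H)} {R : H →L[ℂ] H} {D : H →L[ℝ] H}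

namespace SuppBAux

open Pool.Agent.Helper70.U8 (sm U V)

theorem sm_zero (h : Modular A ξ R D Ψ) {k : ℝ → ℂ} (hk : Integrable k) (hz : ∀ t, k t = 0)
    (x : H →L[ℂ] H) (w : H) : sm h hk x w = 0 := by
  rw [Pool.Agent.Helper70.U8.sm_apply]
  simp only [hz, zero_smul, integral_zero]

/-- the inner product formula -/
theorem formula (h : Modular A ξ R D Ψ) {k l : ℝ → ℂ} (hk : Integrable k) (hl : Integrable l)
    (x y : H →L[ℂ] H) (v : H) (r : ℝ) :
    ⟪v, U Ψ r ((sm h hk x * sm h hl y) ξ)⟫_ℂ = ∫ t, k t * ∫ s, l s *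
      ⟪v, U Ψ (t + r) (x (V Ψ (t + r) (U Ψ (s + r) (y ξ))))⟫_ℂ := by
  have e1 : ⟪v, U Ψ r ((sm h hk x * sm h hl y) ξ)⟫_ℂ =
      ⟪star (U Ψ r) v, sm h hk x (sm h hl y ξ)⟫_ℂ := by
    rw [ContinuousLinearMap.star_eq_adjoint, ContinuousLinearMap.adjoint_inner_left,
      mul_apply_eq_comp]
  rw [e1, Pool.Agent.Helper70.U8.inner_sm]
  congr 1
  funext t
  congr 1
  have e2 : ∀ w : H, ⟪star (U Ψ r) v, U Ψ t (x (V Ψ t w))⟫_ℂ =
      ⟪star (V Ψ t) (star x (star (U Ψ t) (star (U Ψ r) v))), w⟫_ℂ := by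
    intro w
    simp only [ContinuousLinearMap.star_eq_adjoint, ContinuousLinearMap.adjoint_inner_left]
  rw [e2, Pool.Agent.Helper70.U8.inner_sm]
  congr 1
  funext s
  congr 1
  rw [← e2, Pool.Agent.Helper70.U8.V_xi h, ContinuousLinearMap.star_eq_adjoint,
    ContinuousLinearMap.adjoint_inner_left, V_U, U_add]

end SuppBAux

end Pool.Agent.Helper88.CS

end

section

open scoped InnerProductSpace Topology BoundedContinuousFunction

open ContinuousLinearMap Filter MeasureTheory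

namespace Pool.Agent.Helper88.CS

open Pool.Agent.Helper23

open Pool.Agent.Helper78.BC (Std rm Fixed)

variable {H : Type*} [NormedAddCommGroup H] [InnerProductSpace ℂ H] [CompleteSpace H]

variable {A : VonNeumannAlgebra H} {ξ : H} {J : H →L[ℝ] H}
  {Ψ : (ℝ →ᵇ ℂ) →⋆ₐ[ℂ] (H →L[ℂ] H)} {R : H →L[ℂ] H} {D : H →L[ℝ] H}

namespace CentAux

open Pool.Agent.Helper78.BC (fixed_of J_of_fixed)

open Pool.Agent.Helper78.BC.FixAux (Pl Pl_apply plat plat_cont norm_Pl_le Pl_tendsto mm_zero mm_nonneg mm_le)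

open Pool.Agent.Helper70.U8 (GB GB_apply kg kg_int kg_fourier)

/-- commutation with the unitary group implies commutation with the functional calculus -/
theorem comm_all (h : St A ξ J Ψ R D) {e : H →L[ℂ] H}
    (hc : ∀ t : ℝ, e * Ψ (expB t) = Ψ (expB t) * e) (G : ℝ →ᵇ ℂ) : e * Ψ G = Ψ G * e := by
  refine h.mod.psi_comm e ?_ G
  have e0 := comm_GB h.mod hc one_pos 0
  have e1 := comm_GB h.mod hc one_pos 1
  have hS : ∀ ρ, (Pool.Agent.Helper70.U8.GB 1 one_pos 0 + Pool.Agent.Helper70.U8.GB 1 one_pos 1 : ℝ →ᵇ ℂ) ρ ≠ 0 := by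
    intro ρ
    rw [BoundedContinuousFunction.coe_add, Pi.add_apply, Pool.Agent.Helper70.U8.GB_apply, Pool.Agent.Helper70.U8.GB_apply,
      ← Complex.ofReal_add]
    have : (0 : ℝ) < Real.exp (-(1 * ρ ^ 2) + 0 * ρ) + Real.exp (-(1 * ρ ^ 2) + 1 * ρ) := by
      positivity
    exact_mod_cast this.ne'
  have hm : (Pool.Agent.Helper70.U8.GB 1 one_pos 0 + Pool.Agent.Helper70.U8.GB 1 one_pos 1 : ℝ →ᵇ ℂ) * FR = (2 : ℂ) • Pool.Agent.Helper70.U8.GB 1 one_pos 0 := by
    ext ρ
    have h0 : ((2 : ℂ) • Pool.Agent.Helper70.U8.GB 1 one_pos 0 : ℝ →ᵇ ℂ) ρ = (2 : ℂ) * Pool.Agent.Helper70.U8.GB 1 one_pos 0 ρ := rfl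
    have h2 : (2 : ℂ) = ((2 : ℝ) : ℂ) := by norm_num
    rw [h0, BoundedContinuousFunction.mul_apply, BoundedContinuousFunction.coe_add, Pi.add_apply,
      Pool.Agent.Helper70.U8.GB_apply, Pool.Agent.Helper70.U8.GB_apply, Pool.Agent.Helper43.TTF.FR_apply, h2, ← Complex.ofReal_add,
      ← Complex.ofReal_mul, ← Complex.ofReal_mul]
    congr 1
    have h3 : Real.exp (-(1 * ρ ^ 2) + 1 * ρ) =
        Real.exp (-(1 * ρ ^ 2) + 0 * ρ) * Real.exp ρ := by
      rw [← Real.exp_add]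
      congr 1
      ring
    rw [h3]
    have h4 : (0 : ℝ) < 1 + Real.exp ρ := by positivity
    (clear * -; field_simp)
  have hm' : Ψ (Pool.Agent.Helper70.U8.GB 1 one_pos 0 + Pool.Agent.Helper70.U8.GB 1 one_pos 1) * R = (2 : ℂ) • Ψ (Pool.Agent.Helper70.U8.GB 1 one_pos 0) := by
    rw [← h.mod.psi_FR, ← map_mul, hm, map_smul]
  have hS' : e * Ψ (Pool.Agent.Helper70.U8.GB 1 one_pos 0 + Pool.Agent.Helper70.U8.GB 1 one_pos 1) =
      Ψ (Pool.Agent.Helper70.U8.GB 1 one_pos 0 + Pool.Agent.Helper70.U8.GB 1 one_pos 1) * e := by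
    rw [map_add, mul_add, add_mul, e0, e1]
  have key : Ψ (Pool.Agent.Helper70.U8.GB 1 one_pos 0 + Pool.Agent.Helper70.U8.GB 1 one_pos 1) * (e * R - R * e) = 0 := by
    rw [mul_sub, ← mul_assoc, ← hS', mul_assoc, hm', ← mul_assoc, hm', mul_smul_comm,
      smul_mul_assoc, e0, sub_self]
  rw [← sub_eq_zero]
  ext v
  have h5 := congrArg (fun T : H →L[ℂ] H => T v) key
  simp only [mul_apply_eq_comp] at h5
  exact inj_of_ne h.toStd h5 hS

end CentAux

open CentAux

open Pool.Agent.Helper78.BC (fixed_of J_of_fixed)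

open Pool.Agent.Helper78.BC.FixAux (Pl Pl_apply plat plat_cont norm_Pl_le Pl_tendsto mm_zero mm_nonneg mm_le)

open Pool.Agent.Helper70.U8 (GB GB_apply)

/-- elements of the centralizer commute with the modular group -/
theorem comm_psi (h : St A ξ J Ψ R D) {e : H →L[ℂ] H} (he : e ∈ A) (hs : star e = e)
    (hJ : J (e ξ) = e ξ) (G : ℝ →ᵇ ℂ) : e * Ψ G = Ψ G * e := by
  refine comm_all h (fun t => ?_) G
  have hf := fixed_of_J h he hs hJ
  have hx : (Ψ (expB t) * e * Ψ (expB (-t)) - e) ξ = 0 := by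
    rw [sub_apply, mul_apply_eq_comp, mul_apply_eq_comp, h.mod.psi_xi,
      Pool.Agent.Helper43.TTF.expB_apply, mul_zero, Complex.ofReal_zero, zero_mul,
      Complex.exp_zero, one_smul, hf (expB t), Pool.Agent.Helper43.TTF.expB_apply, mul_zero,
      Complex.ofReal_zero, zero_mul, Complex.exp_zero, one_smul, sub_self]
  have h1 := h.sep _ (sub_mem (h.mod.mem t e he) he) hx
  rw [sub_eq_zero] at h1
  have h2 : Ψ (expB (-t)) * Ψ (expB t) = 1 := by
    rw [← map_mul]
    have : expB (-t) * expB t = 1 := by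
      ext ρ
      rw [BoundedContinuousFunction.mul_apply, Pool.Agent.Helper43.TTF.expB_apply,
        Pool.Agent.Helper43.TTF.expB_apply, ← Complex.exp_add, Pool.Agent.Helper43.TTF.one_bcf]
      have : ((-t * ρ : ℝ) : ℂ) * Complex.I + ((t * ρ : ℝ) : ℂ) * Complex.I = 0 := by
        push_cast
        ring
      rw [this, Complex.exp_zero]
    rw [this, map_one]
  calc e * Ψ (expB t) = Ψ (expB t) * e * Ψ (expB (-t)) * Ψ (expB t) := by rw [h1]
    _ = Ψ (expB t) * e := by rw [mul_assoc, h2, mul_one]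

/-- a projection of `A` commuting with the modular group is in the centralizer -/
theorem J_of_comm (h : St A ξ J Ψ R D) {e : H →L[ℂ] H} (he : e ∈ A) (hs : star e = e)
    (hc : ∀ t : ℝ, e * Ψ (expB t) = Ψ (expB t) * e) : J (e ξ) = e ξ := by
  have hf : Fixed Ψ (e ξ) := by
    intro G
    have h1 := congrArg (fun T : H →L[ℂ] H => T ξ) (comm_all h hc G)
    simp only [mul_apply_eq_comp] at h1
    rw [← h1, h.mod.psi_xi, map_smul]
  have h2 := J_of_fixed h.toStd he hf
  rwa [hs] at h2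

end Pool.Agent.Helper88.CS

end

end

section

section

open scoped InnerProductSpace Topology BoundedContinuousFunction

open ContinuousLinearMap Filter

namespace Pool.Agent.Helper23

variable {H : Type*} [NormedAddCommGroup H] [InnerProductSpace ℂ H] [CompleteSpace H]

variable {M N : VonNeumannAlgebra H} {ξ : H} {E : (H →L[ℂ] H) → (H →L[ℂ] H)}

namespace AP

variable (S : AP M N E ξ)

include S

lemma lamSeq_of_eig {l : ℝ} {γ : ℕ → ℝ} (hγ : Tendsto γ atTop (𝓝 l)) {v : ℕ → H →L[ℂ] H}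
    (hv : ∀ n, v n ∈ eig N ξ (γ n)) (hv1 : ∀ n, ‖v n‖ ≤ 1) : LamSeq N ξ l v := by
  refine ⟨fun n => (hv n).1, ⟨1, hv1⟩, ?_⟩
  exact Dseq.change S.norm_one hγ hv1
    (fun ε hε => Eventually.of_forall fun n => Defect.of_eig hε.le (hv n))

end AP

end Pool.Agent.Helper23

end

end

section

section

open scoped InnerProductSpace Topology BoundedContinuousFunction

open ContinuousLinearMap Filter MeasureTheory

namespace Pool.Agent.Helper70.U8

open Pool.Agent.Helper23

variable {H : Type*} [NormedAddCommGroup H] [InnerProductSpace ℂ H] [CompleteSpace H]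

variable {A : VonNeumannAlgebra H} {ξ : H} {R : H →L[ℂ] H} {D : H →L[ℝ] H}
  {Ψ : (ℝ →ᵇ ℂ) →⋆ₐ[ℂ] (H →L[ℂ] H)}

lemma sm_norm (h : Modular A ξ R D Ψ) {k : ℝ → ℂ} (hk : Integrable k) (z : H →L[ℂ] H) :
    ‖sm h hk z‖ ≤ (∫ t, ‖k t‖) * ‖z‖ :=
  LinearMap.mkContinuous_norm_le _
    (mul_nonneg (integral_nonneg fun _ => norm_nonneg _) (norm_nonneg _)) _

lemma sm_mem (h : Modular A ξ R D Ψ) {k : ℝ → ℂ} (hk : Integrable k) {B : VonNeumannAlgebra H}
    (hB : ∀ (t : ℝ), ∀ a ∈ B, Ψ (expB t) * a * Ψ (expB (-t)) ∈ B) {z : H →L[ℂ] H} (hz : z ∈ B) :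
    sm h hk z ∈ B := by
  rw [mem_iff_commutes]
  intro g hg
  ext w
  rw [mul_apply_eq_comp, mul_apply_eq_comp, sm_apply, sm_apply,
    ← ContinuousLinearMap.integral_comp_comm g (orbit_int h hk z w)]
  congr 1
  funext t
  rw [map_smul]
  congr 1
  have h1 := hB (2 * Real.pi * t) z hz
  have h2 := commute_apply h1 hg w
  simp only [mul_apply_eq_comp] at h2
  exact h2.symm

lemma sm_star (h : Modular A ξ R D Ψ) {k : ℝ → ℂ} (hk : Integrable k)
    (hr : ∀ t, (starRingEnd ℂ) (k t) = k t) (z : H →L[ℂ] H) :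
    star (sm h hk z) = sm h hk (star z) := by
  ext w
  refine ext_inner_left ℂ fun v => ?_
  rw [inner_star_right, ← inner_conj_symm, inner_sm, inner_sm, ← integral_conj]
  congr 1
  funext t
  rw [map_mul, hr, inner_conj_symm, ← inner_star_right (U Ψ t), U_star, ← inner_star_right z,
    ← inner_star_right (V Ψ t), V_star]

lemma sm_xi (h : Modular A ξ R D Ψ) {k : ℝ → ℂ} (hk : Integrable k) {K : ℝ →ᵇ ℂ}
    (hK : ∀ ρ, K ρ = ∫ t, k t * expB (2 * Real.pi * t) ρ) (z : H →L[ℂ] H) :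
    sm h hk z ξ = Ψ K (z ξ) := by
  refine ext_inner_left ℂ fun v => ?_
  rw [inner_sm, ← h.integral_psi hk hK]
  congr 1
  funext t
  rw [V_xi h]
  rfl

end Pool.Agent.Helper70.U8

end

section

open scoped InnerProductSpace Topology BoundedContinuousFunction

open ContinuousLinearMap Filter MeasureTheory

namespace Pool.Agent.Helper70.U8

open Pool.Agent.Helper23

variable {H : Type*} [NormedAddCommGroup H] [InnerProductSpace ℂ H] [CompleteSpace H]

variable {A : VonNeumannAlgebra H} {ξ : H} {R : H →L[ℂ] H} {D : H →L[ℝ] H}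
  {Ψ : (ℝ →ᵇ ℂ) →⋆ₐ[ℂ] (H →L[ℂ] H)} {J : H →L[ℝ] H}

open Pool.Agent.Helper43.TTF (FC JD FT FT_apply FR_apply)

lemma sub_eq (h : Modular A ξ R D Ψ) {ε : ℝ} (hε : 0 < ε) (z : H →L[ℂ] H) :
    z ξ - sm h (kg_int hε 0) z ξ = Ψ (1 - GB ε hε 0) (z ξ) := by
  rw [sm_xi h _ (K := GB ε hε 0) (fun ρ => by rw [GB_apply]; exact kg_fourier hε _ ρ), map_sub,
    map_one, sub_apply, one_apply_eq_self]

end Pool.Agent.Helper70.U8

end

section

open scoped InnerProductSpace Topology BoundedContinuousFunction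

open ContinuousLinearMap Filter

namespace Pool.Agent.Helper78.BC.StdEx

open Pool.Agent.Helper23 Pool.Agent.Helper70.U8

open Pool.Agent.Helper43.TTF (FC JD FT FT_apply FR_apply)

variable {H : Type*} [NormedAddCommGroup H] [InnerProductSpace ℂ H] [CompleteSpace H]

variable {A : VonNeumannAlgebra H} {ξ : H} {R : H →L[ℂ] H} {D : H →L[ℝ] H}
  {Ψ : (ℝ →ᵇ ℂ) →⋆ₐ[ℂ] (H →L[ℂ] H)} {J : H →L[ℝ] H}

lemma psi_J' (h' : TTData A ξ R D) (hF : FC R D Ψ) (hJ : JD D Ψ J) (G G' : ℝ →ᵇ ℂ)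
    (hG : ∀ ρ, G' ρ = (starRingEnd ℂ) (G (-ρ))) (v : H) : J (Ψ G v) = Ψ G' (J v) := by
  refine ext_dense h' hF (fun v => J (Ψ G v) = Ψ G' (J v))
    (isClosed_eq (by fun_prop) (by fun_prop)) (fun v => ?_) v
  have h1 : Ψ G (Ψ FT v) = Ψ FT (Ψ G v) := by
    rw [← psi_mul_apply, mul_comm, psi_mul_apply]
  rw [h1, hJ.J_T, hJ.J_T, hF.psi_D G G' hG]

lemma core' (h : Modular A ξ R D Ψ) (hF : FC R D Ψ) (hJ : JD D Ψ J)
    (hcyc : ∀ v : H, ∀ ε : ℝ, 0 < ε → ∃ a ∈ A, ‖a ξ - v‖ < ε) (G G' : ℝ →ᵇ ℂ)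
    (hG : HasCompactSupport G) (hG' : ∀ ρ, G' ρ = ((Real.exp (ρ / 2) : ℝ) : ℂ) * G ρ)
    (θ : H) (ε : ℝ) (hε : 0 < ε) :
    ∃ b ∈ A, ‖b ξ - Ψ G θ‖ ≤ ε ∧ ‖J ((star b) ξ) - Ψ G' θ‖ ≤ ε := by
  obtain ⟨G₁, hG₁⟩ := exists_quot G hG
  set g : ℝ →ᵇ ℂ := Pool.Agent.Helper70.U8.GB 1 one_pos 0 with hg
  set g' : ℝ →ᵇ ℂ := Pool.Agent.Helper70.U8.GB 1 one_pos (1 / 2) with hg'
  have e1 : ∀ ρ, g' ρ = ((Real.exp (ρ / 2) : ℝ) : ℂ) * g ρ := by
    intro ρ
    rw [hg, hg', Pool.Agent.Helper70.U8.GB_apply, Pool.Agent.Helper70.U8.GB_apply, ← Complex.ofReal_mul, ← Real.exp_add]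
    congr 2
    ring
  have e2 : G' = g' * G₁ := by
    ext ρ
    rw [hG', hG₁, BoundedContinuousFunction.mul_apply, BoundedContinuousFunction.mul_apply, e1]
    ring
  set C : ℝ := ‖Ψ g‖ + ‖Ψ g'‖ + 1 with hC
  have hCpos : 0 < C := by (clear * -; positivity)
  obtain ⟨z, hz, hz'⟩ := hcyc (Ψ G₁ θ) (ε / C) (by (clear * - hε; positivity))
  have hb : ∀ w : H →L[ℂ] H, sm h (kg_int one_pos 0) w ξ = Ψ g (w ξ) := fun w =>
    sm_xi h _ (K := g) (fun ρ => by rw [hg, Pool.Agent.Helper70.U8.GB_apply]; exact kg_fourier one_pos _ ρ) w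
  have key : ∀ F : ℝ →ᵇ ℂ, ‖Ψ F‖ ≤ C → ‖Ψ F (z ξ) - Ψ F (Ψ G₁ θ)‖ ≤ ε := by
    intro F hFC
    rw [← map_sub]
    refine ((Ψ F).le_opNorm _).trans ?_
    calc ‖Ψ F‖ * ‖z ξ - Ψ G₁ θ‖ ≤ C * (ε / C) :=
          mul_le_mul hFC hz'.le (norm_nonneg _) hCpos.le
      _ = ε := by (clear * - hCpos hε; field_simp)
  refine ⟨sm h (kg_int one_pos 0) z, sm_mem h _ h.mem hz, ?_, ?_⟩
  · rw [hb, hG₁, psi_mul_apply]
    refine key g ?_
    rw [hC]
    (clear * -; linarith [norm_nonneg (Ψ g')])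
  · rw [sm_star h _ (kg_real _), hb, e2, psi_mul_apply]
    have e3 : J (Ψ g ((star z) ξ)) = Ψ g' (z ξ) := by
      rw [psi_J' h.data hF hJ g g (fun ρ => by
        rw [hg, Pool.Agent.Helper70.U8.GB_apply, Pool.Agent.Helper70.U8.GB_apply, Complex.conj_ofReal]
        congr 2
        ring) ((star z) ξ)]
      exact psi_half' h.data hF hJ g g' e1 hz
    rw [e3]
    refine key g' ?_
    rw [hC]
    (clear * -; linarith [norm_nonneg (Ψ g)])

end Pool.Agent.Helper78.BC.StdEx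

end

end

section

section

open scoped InnerProductSpace Topology BoundedContinuousFunction

open ContinuousLinearMap Filter MeasureTheory

namespace Pool.Agent.Helper88.CS

open Pool.Agent.Helper23

open Pool.Agent.Helper78.BC (Std rm Fixed)

variable {H : Type*} [NormedAddCommGroup H] [InnerProductSpace ℂ H] [CompleteSpace H]

variable {A : VonNeumannAlgebra H} {ξ : H}

open InftyAux

/-- an isometry with range under `e` -/
theorem exists_isometry (hA : FInf A) (hsep : ∀ a ∈ A, a ξ = 0 → a = 0) {e : H →L[ℂ] H}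
    (he : IsP A e) (he0 : e ≠ 0) : ∃ w ∈ A, star w * w = 1 ∧ e * w = w := by
  obtain ⟨p, x, hp, hpp, hx⟩ := exists_seq hA he he0
  set r : ℕ → H →L[ℂ] H := rr A ξ p with hr
  set w : ℕ → H →L[ℂ] H := fun n => ch A ξ (p n) (r n) with hw
  have hc : ∀ n, Cand A (p n) (r n) (w n) := fun n => ch_cand A ξ (p n) (r n)
  have hr0 : r 0 = 1 := rfl
  have hrS : ∀ n, r (n + 1) = r n - star (w n) * w n := fun n => rfl
  -- r n are projections
  have hrs : ∀ n, star (r n) = r n := by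
    intro n
    induction n with
    | zero => rw [hr0, star_one]
    | succ n ih => rw [hrS, star_sub, star_mul, star_star, ih]
  have hrw : ∀ n, r n * star (w n) = star (w n) := by
    intro n
    have h := congrArg star (hc n).2.2.1
    rwa [star_mul, hrs] at h
  have hkill : ∀ n, r (n + 1) * star (w n) = 0 := by
    intro n
    rw [hrS, sub_mul, hrw]
    have h := congrArg star (hc n).2.1
    rw [star_mul, star_mul, star_star] at h
    rw [mul_assoc, h, sub_self]
  have hkill2 : ∀ n k, r (n + 1 + k) * star (w n) = 0 := by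
    intro n k
    induction k with
    | zero => exact hkill n
    | succ k ih =>
      have h1 : w (n + 1 + k) * star (w n) = 0 := by
        rw [← (hc (n + 1 + k)).2.2.1, mul_assoc, ih, mul_zero]
      rw [← add_assoc, hrS, sub_mul, ih, mul_assoc, h1, mul_zero, sub_zero]
  have h2a : ∀ m n, n < m → w m * star (w n) = 0 := by
    intro m n hmn
    obtain ⟨k, rfl⟩ := Nat.exists_eq_add_of_le hmn
    rw [← (hc (n + 1 + k)).2.2.1, mul_assoc, hkill2, mul_zero]
  have h2 : ∀ m n, m ≠ n → w m * star (w n) = 0 := by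
    intro m n hmn
    rcases lt_or_gt_of_ne hmn with h | h
    · have h3 := congrArg star (h2a n m h)
      rwa [star_mul, star_star, star_zero] at h3
    · exact h2a m n h
  have h1 : ∀ m n, m ≠ n → star (w m) * w n = 0 := by
    intro m n hmn
    have e1 : star (w m) * p m = star (w m) := by
      have h := congrArg star (hc m).2.2.2
      rwa [star_mul, (hp m).1.2.1] at h
    calc star (w m) * w n = star (w m) * p m * (p n * w n) := by rw [e1, (hc n).2.2.2]
      _ = star (w m) * (p m * p n) * w n := by noncomm_ring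
      _ = 0 := by rw [hpp m n hmn, mul_zero, zero_mul]
  obtain ⟨v, hvA, hv1, hv2, -, hv4, -, hv6, hv7⟩ :=
    exists_sum (fun n => (hc n).1) (fun n => (hc n).2.1) h1 h2
  have hev : e * v = v := by
    ext z
    have h3 : HasSum (fun n => e (w n z)) (e (v z)) := e.hasSum (hv2 z)
    have h4 : (fun n => e (w n z)) = fun n => w n z := by
      funext n
      have h5 : e * w n = w n := by rw [← (hc n).2.2.2, ← mul_assoc, (hp n).2.2]
      exact congrArg (fun T : H →L[ℂ] H => T z) h5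
    rw [h4] at h3
    exact h3.unique (hv2 z)
  refine ⟨v, hvA, ?_, hev⟩
  by_contra hcon
  set t : H →L[ℂ] H := 1 - star v * v with ht
  have htA : t ∈ A := sub_mem (one_mem A) (mul_mem (star_mem hvA) hvA)
  have ht0 : t ≠ 0 := fun h => hcon (sub_eq_zero.1 h).symm
  have ht1 : star t = t := by rw [ht, star_sub, star_mul, star_star, star_one]
  have hvv : star v * v * (star v * v) = star v * v := by
    calc star v * v * (star v * v) = star v * (v * star v * v) := by noncomm_ring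
      _ = star v * v := by rw [hv1]
  have ht2 : t * t = t := by
    calc t * t = 1 - star v * v - star v * v + star v * v * (star v * v) := by
          rw [ht]; noncomm_ring
      _ = t := by rw [hvv, ht]; abel
  have htw : ∀ n, t * (star (w n) * w n) = 0 := by
    intro n
    have h3 : star v * w n = star (w n) * w n := by
      have h4 := congrArg star (hv7 n)
      rw [star_mul, star_mul, star_star] at h4
      calc star v * w n = star v * (w n * star (w n)) * w n := by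
            rw [mul_assoc, (hc n).2.1]
        _ = star (w n) * w n := by rw [h4]
    rw [ht, sub_mul, one_mul, mul_assoc, hv6, h3, sub_self]
  have htr : ∀ n, t * r n = t := by
    intro n
    induction n with
    | zero => rw [hr0, mul_one]
    | succ n ih => rw [hrS, mul_sub, ih, htw, sub_zero]
  obtain ⟨w', hwA, hw0, hw1, hw2, hw3⟩ := exists_pi hA ⟨htA, ht1, ht2⟩ (hp 0).1 ht0 (hp 0).2.1
  have hcand : ∀ n, Cand A (p n) (r n) (x n * w') := by
    intro n
    obtain ⟨hxA, hx1, hx2⟩ := hx n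
    refine ⟨mul_mem hxA hwA, ?_, ?_, ?_⟩
    · calc x n * w' * star (x n * w') * (x n * w')
          = x n * (w' * star w' * ((star (x n) * x n) * w')) := by
            rw [star_mul]; noncomm_ring
        _ = x n * w' := by rw [hx1, hw2, hw1]
    · rw [mul_assoc]
      congr 1
      calc w' * r n = w' * t * r n := by rw [hw3]
        _ = w' * (t * r n) := by rw [mul_assoc]
        _ = w' := by rw [htr, hw3]
    · calc p n * (x n * w') = x n * ((star (x n) * x n) * w') := by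
            rw [← hx2]; noncomm_ring
        _ = x n * w' := by rw [hx1, hw2]
  have hnorm : ∀ n, ‖(star w' * w') ξ‖ ≤ 2 * ‖(star (w n) * w n) ξ‖ := by
    intro n
    have h3 := ch_best A ξ (p n) (r n) (hcand n)
    have h4 : star (x n * w') * (x n * w') = star w' * w' := by
      calc star (x n * w') * (x n * w') = star w' * ((star (x n) * x n) * w') := by
            rw [star_mul]; noncomm_ring
        _ = star w' * w' := by rw [(hx n).2.1, hw2]
    rwa [h4] at h3
  have htend : Tendsto (fun n => 2 * ‖(star (w n) * w n) ξ‖) atTop (𝓝 0) := by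
    have h3 : Tendsto (fun n => (star (w n) * w n) ξ) atTop (𝓝 0) :=
      (hv4 ξ).summable.tendsto_atTop_zero
    have h4 := (h3.norm).const_mul 2
    simpa using h4
  have hle : ‖(star w' * w') ξ‖ ≤ 0 := ge_of_tendsto' htend hnorm
  have hz : (star w' * w') ξ = 0 := norm_le_zero_iff.1 hle
  exact hw0 (eq_zero_of_star_mul (hsep _ (mul_mem (star_mem hwA) hwA) hz))

end Pool.Agent.Helper88.CS

end

section

open scoped InnerProductSpace Topology BoundedContinuousFunction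

open ContinuousLinearMap Filter MeasureTheory

namespace Pool.Agent.Helper88.CS

open Pool.Agent.Helper23

open Pool.Agent.Helper78.BC (Std rm Fixed)

variable {H : Type*} [NormedAddCommGroup H] [InnerProductSpace ℂ H] [CompleteSpace H]

variable {A : VonNeumannAlgebra H} {ξ : H}

theorem equiv_one (hA : FInf A) (hsep : ∀ a ∈ A, a ξ = 0 → a = 0) {e : H →L[ℂ] H}
    (he : IsP A e) (he0 : e ≠ 0) : ∃ u ∈ A, star u * u = 1 ∧ u * star u = e := by
  obtain ⟨w, hw, h1, h2⟩ := exists_isometry hA hsep he he0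
  exact csb he hw h1 h2

theorem equiv_pair (hA : FInf A) (hsep : ∀ a ∈ A, a ξ = 0 → a = 0) {e f : H →L[ℂ] H}
    (he : IsP A e) (he0 : e ≠ 0) (hf : IsP A f) (hf0 : f ≠ 0) :
    ∃ u ∈ A, star u * u = e ∧ u * star u = f := by
  obtain ⟨u, hu, hu1, hu2⟩ := equiv_one hA hsep he he0
  obtain ⟨v, hv, hv1, hv2⟩ := equiv_one hA hsep hf hf0
  refine ⟨v * star u, mul_mem hv (star_mem hu), ?_, ?_⟩
  · rw [star_mul, star_star]
    calc u * star v * (v * star u) = u * (star v * v) * star u := by simp only [mul_assoc]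
      _ = e := by rw [hv1, mul_one, hu2]
  · rw [star_mul, star_star]
    calc v * star u * (u * star v) = v * (star u * u) * star v := by simp only [mul_assoc]
      _ = f := by rw [hu1, mul_one, hv2]

end Pool.Agent.Helper88.CS

end

section

open scoped InnerProductSpace Topology BoundedContinuousFunction

open ContinuousLinearMap Filter MeasureTheory

namespace Pool.Agent.Helper88.CS

open Pool.Agent.Helper23

open Pool.Agent.Helper78.BC (Std rm Fixed)

variable {H : Type*} [NormedAddCommGroup H] [InnerProductSpace ℂ H] [CompleteSpace H]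

variable {A : VonNeumannAlgebra H} {ξ : H} {J : H →L[ℝ] H}
  {Ψ : (ℝ →ᵇ ℂ) →⋆ₐ[ℂ] (H →L[ℂ] H)} {R : H →L[ℂ] H} {D : H →L[ℝ] H}

open CornerSpecAux

theorem corner_spec (h : St A ξ J Ψ R D) (hA : III1V A) {q : H →L[ℂ] H} (hq : IsP A q)
    (hq0 : q ≠ 0) (hJ : J (q ξ) = q ξ) (γ : ℝ) (G : ℝ →ᵇ ℂ) (hG : G γ ≠ 0) :
    ∃ y ∈ A, q * y = y ∧ y * q = y ∧ Ψ G (y ξ) ≠ 0 := by
  by_contra hcon
  push Not at hcon
  obtain ⟨hqA, hqs, hqq⟩ := hq
  obtain ⟨u, huA, hu1, hu2⟩ := equiv_one hA.toFInf h.sep ⟨hqA, hqs, hqq⟩ hq0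
  have husA : star u ∈ A := star_mem huA
  -- pointwise identities
  have hu1' : ∀ v, (star u) (u v) = v := fun v => congrArg (fun T : H →L[ℂ] H => T v) hu1
  have hu2' : ∀ v, u ((star u) v) = q v := fun v => congrArg (fun T : H →L[ℂ] H => T v) hu2
  have hsu : star u ≠ 0 := by
    intro h0
    apply hq0
    rw [← hu2, h0, mul_zero]
  set c : ℝ := ‖(star u) ξ‖ with hcdef
  have hc : 0 < c := by
    refine norm_pos_iff.2 fun h0 => hsu (h.sep _ husA h0)
  set z : H := ((c⁻¹ : ℝ) : ℂ) • (star u) ξ with hz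
  have hz1 : ‖z‖ = 1 := by
    rw [hz, norm_smul, Complex.norm_real, Real.norm_of_nonneg (inv_nonneg.2 hc.le), ← hcdef,
      inv_mul_cancel₀ hc.ne']
  have hcc : ((c⁻¹ : ℝ) : ℂ) ≠ 0 := by exact_mod_cast (inv_pos.2 hc).ne'
  have hzsep : ∀ a ∈ A, a z = 0 → a = 0 := by
    intro a ha h0
    rw [hz, map_smul, smul_eq_zero] at h0
    have h1 : (a * star u) ξ = 0 := h0.resolve_left hcc
    have h2 := h.sep _ (mul_mem ha husA) h1
    calc a = a * (star u * u) := by rw [hu1, mul_one]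
      _ = (a * star u) * u := (mul_assoc _ _ _).symm
      _ = 0 := by rw [h2, zero_mul]
  obtain ⟨C, hC0, hC⟩ := norm_le_of h γ G hG
  set ε : ℝ := 1 / (2 * (C + 1)) with hε
  have hε0 : 0 < ε := by (clear * - hC0; positivity)
  obtain ⟨a, haA, ha1, ha2⟩ := hA.spec z hz1 hzsep (Real.exp γ) (Real.exp_pos γ) ε hε0
  set b : H →L[ℂ] H := u * a * star u with hb
  have hbA : b ∈ A := mul_mem (mul_mem huA haA) husA
  have hqu : q * u = u := by rw [← hu2, mul_assoc, hu1, mul_one]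
  have huq : star u * q = star u := by
    have := congrArg star hqu
    rwa [star_mul, hqs] at this
  have hqb : q * b = b := by rw [hb, ← mul_assoc, ← mul_assoc, hqu]
  have hbq : b * q = b := by rw [hb, mul_assoc, huq]
  have hbs : star b = u * star a * star u := by
    rw [hb, star_mul, star_mul, star_star, mul_assoc]
  have hbsq : star b * q = star b := by rw [hbs, mul_assoc, huq]
  have hzero := hcon b hbA hqb hbq
  -- right multiplication by `q`
  have hJq : ∀ y ∈ A, J (q (J (y ξ))) = y (q ξ) := by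
    intro y hy
    rw [h.J_comm q hqA y hy ξ, h.J_xi, hJ]
  have hself : ∀ v w : H, ⟪J (q (J v)), w⟫_ℂ = ⟪v, J (q (J w))⟫_ℂ := by
    intro v w
    have h1 : ⟪J (q (J v)), w⟫_ℂ = ⟪J w, q (J v)⟫_ℂ := by
      conv_lhs => rw [← h.J_J w]
      rw [h.J_inner]
    have h2 : ⟪v, J (q (J w))⟫_ℂ = ⟪q (J w), J v⟫_ℂ := by
      conv_lhs => rw [← h.J_J v]
      rw [h.J_inner]
    rw [h1, h2]
    nth_rewrite 2 [← hqs]
    rw [ContinuousLinearMap.star_eq_adjoint, ContinuousLinearMap.adjoint_inner_left]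
  have hbx : ‖b ξ‖ = c := by
    have h1 : b ξ = u (a ((star u) ξ)) := rfl
    have h2 : (star u) ξ = ((c : ℝ) : ℂ) • z := by
      rw [hz, smul_smul, ← Complex.ofReal_mul, mul_inv_cancel₀ hc.ne', Complex.ofReal_one,
        one_smul]
    rw [h1, norm_iso hu1, h2, map_smul, norm_smul, ha1, mul_one, Complex.norm_real,
      Real.norm_of_nonneg hc.le]
  -- the estimate
  have hest : ∀ w ∈ A, ‖⟪J ((star w) ξ), J ((star b) ξ)⟫_ℂ -
        ((Real.exp γ : ℝ) : ℂ) * ⟪w ξ, b ξ⟫_ℂ‖ ≤ (c * ε) * ‖w ξ‖ := by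
    intro w hw
    have hsw : star w ∈ A := star_mem hw
    have hx : star u * star w * u ∈ A := mul_mem (mul_mem husA hsw) huA
    have h1 := ha2 _ hx
    have hxs : star (star u * star w * u) = star u * w * u := by
      rw [star_mul, star_mul, star_star, star_star, mul_assoc]
    rw [hxs] at h1
    have hcn : ∀ T : H →L[ℂ] H, T z = ((c⁻¹ : ℝ) : ℂ) • T ((star u) ξ) := fun T => by
      rw [hz, map_smul]
    have e1 : ⟪(star a) z, (star u * star w * u) z⟫_ℂ =
        ((c⁻¹ : ℝ) : ℂ) * (((c⁻¹ : ℝ) : ℂ) * ⟪J ((star w) ξ), J ((star b) ξ)⟫_ℂ) := by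
      rw [hcn, hcn (star u * star w * u), inner_smul_left, inner_smul_right,
        Complex.conj_ofReal, h.J_inner]
      congr 2
      have h2 : (star u * star w * u) ((star u) ξ) = (star u) ((star w) (q ξ)) := by
        change (star u) ((star w) (u ((star u) ξ))) = _
        rw [hu2']
      have h3 : ⟪(star a) ((star u) ξ), (star u) ((star w) (q ξ))⟫_ℂ =
          ⟪(star b) ξ, (star w) (q ξ)⟫_ℂ := by
        rw [hbs]
        change _ = ⟪u ((star a) ((star u) ξ)), (star w) (q ξ)⟫_ℂ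
        rw [ContinuousLinearMap.star_eq_adjoint u, ContinuousLinearMap.adjoint_inner_right]
      rw [h2, h3, ← hJq _ hsw, ← hself, hJq _ (star_mem hbA)]
      congr 1
      exact congrArg (fun T : H →L[ℂ] H => T ξ) hbsq
    have e2 : ⟪(star u * w * u) z, a z⟫_ℂ =
        ((c⁻¹ : ℝ) : ℂ) * (((c⁻¹ : ℝ) : ℂ) * ⟪w ξ, b ξ⟫_ℂ) := by
      rw [hcn, hcn a, inner_smul_left, inner_smul_right, Complex.conj_ofReal]
      congr 2
      have h2 : (star u * w * u) ((star u) ξ) = (star u) (w (q ξ)) := by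
        change (star u) (w (u ((star u) ξ))) = _
        rw [hu2']
      have h3 : ⟪(star u) (w (q ξ)), a ((star u) ξ)⟫_ℂ = ⟪w (q ξ), b ξ⟫_ℂ := by
        rw [hb]
        change _ = ⟪w (q ξ), u (a ((star u) ξ))⟫_ℂ
        rw [ContinuousLinearMap.star_eq_adjoint u, ContinuousLinearMap.adjoint_inner_left]
      rw [h2, h3, ← hJq _ hw, hself, hJq _ hbA]
      congr 1
      exact congrArg (fun T : H →L[ℂ] H => T ξ) hbq
    have e3 : ‖(star u * w * u) z‖ ≤ c⁻¹ * ‖w ξ‖ := by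
      rw [hcn, norm_smul, Complex.norm_real, Real.norm_of_nonneg (inv_nonneg.2 hc.le)]
      refine mul_le_mul_of_nonneg_left ?_ (inv_nonneg.2 hc.le)
      have h2 : (star u * w * u) ((star u) ξ) = (star u) (w (q ξ)) := by
        change (star u) (w (u ((star u) ξ))) = _
        rw [hu2']
      rw [h2, ← norm_iso hu1, hu2']
      refine (norm_proj_le hqs hqq _).trans ?_
      rw [← hJq _ hw, h.J_norm]
      refine (norm_proj_le hqs hqq _).trans ?_
      rw [h.J_norm]
    rw [e1, e2] at h1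
    have e4 : ((c⁻¹ : ℝ) : ℂ) * (((c⁻¹ : ℝ) : ℂ) * ⟪J ((star w) ξ), J ((star b) ξ)⟫_ℂ) -
        ((Real.exp γ : ℝ) : ℂ) * (((c⁻¹ : ℝ) : ℂ) * (((c⁻¹ : ℝ) : ℂ) * ⟪w ξ, b ξ⟫_ℂ)) =
        ((c⁻¹ * c⁻¹ : ℝ) : ℂ) * (⟪J ((star w) ξ), J ((star b) ξ)⟫_ℂ -
        ((Real.exp γ : ℝ) : ℂ) * ⟪w ξ, b ξ⟫_ℂ) := by
      rw [Complex.ofReal_mul]
      ring
    rw [e4, norm_mul, Complex.norm_real, Real.norm_of_nonneg (by (clear * - hc; positivity))] at h1
    have h5 := h1.trans (mul_le_mul_of_nonneg_left e3 hε0.le)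
    have h6 : c⁻¹ * c⁻¹ * ‖⟪J ((star w) ξ), J ((star b) ξ)⟫_ℂ -
        ((Real.exp γ : ℝ) : ℂ) * ⟪w ξ, b ξ⟫_ℂ‖ ≤ c⁻¹ * c⁻¹ * ((c * ε) * ‖w ξ‖) := by
      refine h5.trans (le_of_eq ?_)
      (clear * - hc hε0; field_simp)
    exact le_of_mul_le_mul_left h6 (by (clear * - hc; positivity))
  have hfin := hC b hbA hzero (c * ε) (by (clear * - hc hC0; positivity)) hest
  rw [hbx] at hfin
  have h7 : ε * C < 1 := by
    rw [hε, div_mul_eq_mul_div, one_mul, div_lt_one (by positivity)]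
    (clear * - hC0; linarith)
  (clear * - hfin hc h7; nlinarith)

end Pool.Agent.Helper88.CS

end

end

section

section

open scoped InnerProductSpace Topology BoundedContinuousFunction

open ContinuousLinearMap Filter MeasureTheory

namespace Pool.Agent.Helper88.CS

open Pool.Agent.Helper23

open Pool.Agent.Helper78.BC (Std rm Fixed)

variable {H : Type*} [NormedAddCommGroup H] [InnerProductSpace ℂ H] [CompleteSpace H]

variable {A : VonNeumannAlgebra H} {ξ : H} {J : H →L[ℝ] H}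
  {Ψ : (ℝ →ᵇ ℂ) →⋆ₐ[ℂ] (H →L[ℂ] H)} {R : H →L[ℂ] H} {D : H →L[ℝ] H}

/-- the right hull of `x`: the projection onto the closed span of the ranges of `σ_t(x*)` -/
theorem exists_hull (h : St A ξ J Ψ R D) {x : H →L[ℂ] H} (hx : x ∈ A) (hx0 : x ≠ 0) :
    ∃ q, IsP A q ∧ q ≠ 0 ∧ J (q ξ) = q ξ ∧ x * q = x ∧
      (∀ e ∈ A, star e = e → J (e ξ) = e ξ → x * e = x → e * q = q) ∧
      ∀ y ∈ A, (∀ t : ℝ, (Pool.Agent.Helper70.U8.U Ψ t * x * Pool.Agent.Helper70.U8.V Ψ t) * y = 0) →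
        q * y = 0 := by
  classical
  set K := HullAux.sp Ψ x with hK
  have hKc : IsClosed (K : Set H) := Submodule.isClosed_topologicalClosure _
  haveI : CompleteSpace K := hKc.completeSpace_coe
  have hsa : star K.starProjection = K.starProjection :=
    (isStarProjection_starProjection (U := K)).isSelfAdjoint.star_eq
  have hid : K.starProjection * K.starProjection = K.starProjection :=
    (isStarProjection_starProjection (U := K)).isIdempotentElem
  -- the orbit of `x*` is in `A`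
  have hmem : ∀ t : ℝ, Pool.Agent.Helper70.U8.U Ψ t * star x * Pool.Agent.Helper70.U8.V Ψ t ∈ A :=
    fun t => h.mod.mem _ _ (star_mem hx)
  -- `q` is in `A`
  have hinv : ∀ g ∈ A.commutant, ∀ v ∈ K, g v ∈ K := by
    intro g hg
    refine HullAux.sp_inv fun t w => ?_
    have h1 : g * (Pool.Agent.Helper70.U8.U Ψ t * star x * Pool.Agent.Helper70.U8.V Ψ t) =
        Pool.Agent.Helper70.U8.U Ψ t * star x * Pool.Agent.Helper70.U8.V Ψ t * g :=
      mem_iff_commutes.1 (hmem t) g hg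
    have h2 := congrArg (fun T : H →L[ℂ] H => T w) h1
    simp only [mul_apply_eq_comp] at h2
    rw [h2]
    exact HullAux.gen_mem x t (g w)
  have hqA : K.starProjection ∈ A := by
    rw [mem_iff_commutes]
    intro g hg
    exact HullAux.proj_comm K (hinv g hg) (hinv (star g) (star_mem hg))
  -- `q` commutes with the modular group
  have hexp : ∀ s : ℝ, ∀ v ∈ K, Ψ (expB s) v ∈ K := by
    intro s
    refine HullAux.sp_inv fun t w => ?_
    have e1 : Ψ (expB s) * Pool.Agent.Helper70.U8.U Ψ t =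
        Pool.Agent.Helper70.U8.U Ψ (t + s / (2 * Real.pi)) := by
      unfold Pool.Agent.Helper70.U8.U
      rw [← map_mul, expB_mul]
      congr 2
      field_simp
      ring
    have e2 : Pool.Agent.Helper70.U8.V Ψ t =
        Pool.Agent.Helper70.U8.V Ψ (t + s / (2 * Real.pi)) * Ψ (expB s) := by
      unfold Pool.Agent.Helper70.U8.V
      rw [← map_mul, expB_mul]
      congr 2
      field_simp
      ring
    rw [← mul_apply_eq_comp, e1, e2, mul_apply_eq_comp]
    exact HullAux.gen_mem x _ _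
  have hcomm : ∀ s : ℝ, K.starProjection * Ψ (expB s) = Ψ (expB s) * K.starProjection := by
    intro s
    refine (HullAux.proj_comm K (hexp s) ?_).symm
    rw [← map_star, expB_star]
    exact hexp (-s)
  have hJq : J (K.starProjection ξ) = K.starProjection ξ := J_of_comm h hqA hsa hcomm
  -- `q x* = x*`
  have hqx : K.starProjection * star x = star x := by
    ext w
    rw [mul_apply_eq_comp, Submodule.starProjection_eq_self_iff]
    have h1 := HullAux.gen_mem (Ψ := Ψ) x 0 w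
    have h2 : Pool.Agent.Helper70.U8.U Ψ 0 = 1 := by
      unfold Pool.Agent.Helper70.U8.U
      rw [mul_zero, expB_zero, map_one]
    have h3 : Pool.Agent.Helper70.U8.V Ψ 0 = 1 := by
      unfold Pool.Agent.Helper70.U8.V
      rw [mul_zero, neg_zero, expB_zero, map_one]
    rw [h2, h3] at h1
    exact h1
  have hxq : x * K.starProjection = x := by
    have h1 := congrArg star hqx
    rwa [star_mul, star_star, hsa] at h1
  refine ⟨K.starProjection, ⟨hqA, hsa, hid⟩, ?_, hJq, hxq, ?_, ?_⟩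
  · intro h0
    rw [h0, mul_zero] at hxq
    exact hx0 hxq.symm
  · intro e he hes hJe hxe
    have hex : e * star x = star x := by
      have h1 := congrArg star hxe
      rwa [star_mul, hes] at h1
    have hle : K ≤ LinearMap.ker ((e - 1 : H →L[ℂ] H) : H →ₗ[ℂ] H) := by
      refine HullAux.sp_le ?_ fun t w => ?_
      · exact ContinuousLinearMap.isClosed_ker (e - 1)
      · rw [LinearMap.mem_ker]
        have h1 : e * Pool.Agent.Helper70.U8.U Ψ t = Pool.Agent.Helper70.U8.U Ψ t * e :=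
          comm_psi h he hes hJe _
        have h2 : e (Pool.Agent.Helper70.U8.U Ψ t ((star x) (Pool.Agent.Helper70.U8.V Ψ t w))) =
            Pool.Agent.Helper70.U8.U Ψ t ((star x) (Pool.Agent.Helper70.U8.V Ψ t w)) := by
          have h3 := congrArg (fun T : H →L[ℂ] H =>
            T ((star x) (Pool.Agent.Helper70.U8.V Ψ t w))) h1
          have h4 := congrArg (fun T : H →L[ℂ] H => T (Pool.Agent.Helper70.U8.V Ψ t w)) hex
          simp only [mul_apply_eq_comp] at h3 h4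
          rw [h3, h4]
        change e _ - _ = 0
        rw [h2]
        exact sub_self _
    ext v
    rw [mul_apply_eq_comp]
    have h1 := hle (Submodule.starProjection_apply_mem K v)
    rw [LinearMap.mem_ker] at h1
    have h2 : e (K.starProjection v) - K.starProjection v = 0 := h1
    exact sub_eq_zero.1 h2
  · intro y hy h0
    ext v
    rw [mul_apply_eq_comp, zero_apply, Submodule.starProjection_apply_eq_zero_iff]
    have hle : K ≤ (Submodule.span ℂ {y v})ᗮ := by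
      refine HullAux.sp_le (Submodule.isClosed_orthogonal _) fun t w => ?_
      rw [Submodule.mem_orthogonal_singleton_iff_inner_right]
      have h1 : (Pool.Agent.Helper70.U8.U Ψ t * x * Pool.Agent.Helper70.U8.V Ψ t) (y v) = 0 := by
        rw [← mul_apply_eq_comp, h0 t, zero_apply]
      have h2 : ⟪y v, Pool.Agent.Helper70.U8.U Ψ t
          ((star x) (Pool.Agent.Helper70.U8.V Ψ t w))⟫_ℂ =
          ⟪Pool.Agent.Helper70.U8.U Ψ t (x (Pool.Agent.Helper70.U8.V Ψ t (y v))), w⟫_ℂ := by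
        rw [← Pool.Agent.Helper70.U8.V_star t, inner_star_right, inner_star_right,
          inner_star_left]
      rw [h2]
      simp only [mul_apply_eq_comp] at h1
      rw [h1, inner_zero_left]
    rw [Submodule.mem_orthogonal]
    intro u hu
    have h3 := hle hu
    rw [Submodule.mem_orthogonal_singleton_iff_inner_right] at h3
    rw [← inner_conj_symm, h3, map_zero]

end Pool.Agent.Helper88.CS

end

end

section

section

open scoped InnerProductSpace Topology BoundedContinuousFunction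

open ContinuousLinearMap Filter MeasureTheory

namespace Pool.Agent.Helper88.CS

open Pool.Agent.Helper23

open Pool.Agent.Helper78.BC (Std rm Fixed)

variable {H : Type*} [NormedAddCommGroup H] [InnerProductSpace ℂ H] [CompleteSpace H]

variable {A : VonNeumannAlgebra H} {ξ : H} {J : H →L[ℝ] H}
  {Ψ : (ℝ →ᵇ ℂ) →⋆ₐ[ℂ] (H →L[ℂ] H)} {R : H →L[ℂ] H} {D : H →L[ℝ] H}

/-- a bump at a point of the support -/
theorem exists_piece_at (h : St A ξ J Ψ R D) {s η : ℝ} (hη : 0 < η) :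
    ∃ (k : ℝ → ℂ) (K : ℝ →ᵇ ℂ), Ker k K ∧
      (∀ ρ, ρ ∉ Set.Icc (s - η) (s + η) → K ρ = 0) ∧ K s = 1 := by
  obtain ⟨k, K, h1, -, h3, h4⟩ := exists_bump s s η le_rfl hη
  exact ⟨k, K, h1, fun ρ hρ => h4 ρ fun hh => hρ ⟨hh.1.le, hh.2.le⟩,
    h3 s ⟨le_rfl, le_rfl⟩⟩

end Pool.Agent.Helper88.CS

end

end

section

section

open scoped InnerProductSpace Topology BoundedContinuousFunction

open ContinuousLinearMap Filter MeasureTheory

namespace Pool.Agent.Helper88.CS

open Pool.Agent.Helper23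

open Pool.Agent.Helper78.BC (Std rm Fixed)

variable {H : Type*} [NormedAddCommGroup H] [InnerProductSpace ℂ H] [CompleteSpace H]

variable {A : VonNeumannAlgebra H} {ξ : H} {J : H →L[ℝ] H}
  {Ψ : (ℝ →ᵇ ℂ) →⋆ₐ[ℂ] (H →L[ℂ] H)} {R : H →L[ℂ] H} {D : H →L[ℝ] H}

open SuppAAux in
/-- a nonzero vector has a nonzero piece with small support -/
theorem exists_piece (h : St A ξ J Ψ R D) {v : H} (hv : v ≠ 0) {η : ℝ} (hη : 0 < η) :
    ∃ (s : ℝ) (k : ℝ → ℂ) (K : ℝ →ᵇ ℂ), Ker k K ∧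
      (∀ ρ, ρ ∉ Set.Icc (s - η) (s + η) → K ρ = 0) ∧ Ψ K v ≠ 0 := by
  by_contra hcon
  push Not at hcon
  have h1 : ∀ x : ℝ, Ψ (Ra η x) v = Ψ (Ra η (x + η / 2)) v := by
    intro x
    obtain ⟨k, K, hk, -, hK1, hK0⟩ := exists_bump x (x + η) (η / 2) (by linarith) (by linarith)
    have h2 : Ψ K v = 0 := by
      refine hcon (x + η / 2) k K hk fun ρ hρ => hK0 ρ fun hh => hρ ?_
      exact ⟨by linarith [hh.1], by linarith [hh.2]⟩
    have h3 : Ra η x - Ra η (x + η / 2) = (Ra η x - Ra η (x + η / 2)) * K := by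
      ext ρ
      rw [BoundedContinuousFunction.mul_apply, BoundedContinuousFunction.sub_apply, Ra_apply,
        Ra_apply]
      rcases lt_or_ge ρ x with h4 | h4
      · rw [ra_zero hη h4.le, ra_zero hη (by linarith)]
        simp
      · rcases le_or_gt ρ (x + η) with h5 | h5
        · rw [hK1 ρ ⟨h4, h5⟩, mul_one]
        · rw [ra_one hη (by (clear * - hη h5; linarith)), ra_one hη (by (clear * - h5; linarith))]
          simp
    rw [← sub_eq_zero, ← ContinuousLinearMap.sub_apply, ← map_sub, h3,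
      Pool.Agent.Helper43.TTF.psi_mul_apply, h2, map_zero]
  have h2 : ∀ (x : ℝ) (n : ℕ), Ψ (Ra η (x + n * (η / 2))) v = Ψ (Ra η x) v := by
    intro x n
    induction n with
    | zero => rw [Nat.cast_zero, zero_mul, add_zero]
    | succ n ih =>
      rw [← ih, h1 (x + n * (η / 2))]
      congr 3
      push_cast
      ring
  have h3 : ∀ x : ℝ, Ψ (Ra η x) v = 0 := by
    intro x
    have h4 := h.psi_cont (fun n : ℕ => Ra η (x + n * (η / 2))) 0 1 (fun n => norm_Ra_le _ _)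
      (Ra_right hη x) v
    simp only [h2] at h4
    rw [map_zero, ContinuousLinearMap.zero_apply] at h4
    exact tendsto_nhds_unique tendsto_const_nhds h4
  have h5 := h.psi_cont (fun n : ℕ => Ra η (-(n : ℝ))) 1 1 (fun n => norm_Ra_le _ _)
    (Ra_left hη) v
  simp only [h3] at h5
  rw [map_one, ContinuousLinearMap.one_apply] at h5
  exact hv (tendsto_nhds_unique h5 tendsto_const_nhds)

end Pool.Agent.Helper88.CS

end

section

open scoped InnerProductSpace Topology BoundedContinuousFunction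

open ContinuousLinearMap Filter MeasureTheory

namespace Pool.Agent.Helper88.CS

open Pool.Agent.Helper23

open Pool.Agent.Helper78.BC (Std rm Fixed)

variable {H : Type*} [NormedAddCommGroup H] [InnerProductSpace ℂ H] [CompleteSpace H]

variable {A : VonNeumannAlgebra H} {ξ : H} {J : H →L[ℝ] H}
  {Ψ : (ℝ →ᵇ ℂ) →⋆ₐ[ℂ] (H →L[ℂ] H)} {R : H →L[ℂ] H} {D : H →L[ℝ] H}

namespace SpecBAux

open Pool.Agent.Helper70.U8 (sm U V)

/-- translation of the smoothing -/
theorem orbit_sm (h : Modular A ξ R D Ψ) {k : ℝ → ℂ} (hk : Integrable k) (r : ℝ)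
    (hk' : Integrable fun t => k (t - r)) (z : H →L[ℂ] H) :
    U Ψ r * sm h hk z * V Ψ r = sm h hk' z := by
  ext w
  rw [mul_apply_eq_comp, mul_apply_eq_comp, Pool.Agent.Helper70.U8.sm_apply,
    Pool.Agent.Helper70.U8.sm_apply,
    ← ContinuousLinearMap.integral_comp_comm (U Ψ r)
      (Pool.Agent.Helper70.U8.orbit_int h hk z (V Ψ r w)),
    ← integral_sub_right_eq_self (fun t : ℝ => U Ψ r (k t • U Ψ t (z (V Ψ t (V Ψ r w))))) r]
  congr 1
  funext t
  rw [map_smul]
  congr 1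
  have e1 : ∀ v : H, U Ψ r (U Ψ (t - r) v) = U Ψ t v := by
    intro v
    unfold U
    rw [← Pool.Agent.Helper43.TTF.psi_mul_apply, expB_mul]
    congr 3
    ring
  have e2 : ∀ v : H, V Ψ (t - r) (V Ψ r v) = V Ψ t v := by
    intro v
    unfold V
    rw [← Pool.Agent.Helper43.TTF.psi_mul_apply, expB_mul]
    congr 3
    ring
  rw [e1, e2]

end SpecBAux

end Pool.Agent.Helper88.CS

end

end

section

section

open scoped InnerProductSpace Topology BoundedContinuousFunction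

open ContinuousLinearMap Filter MeasureTheory

namespace Pool.Agent.Helper88.CS

open Pool.Agent.Helper23

open Pool.Agent.Helper78.BC (Std rm Fixed)

variable {H : Type*} [NormedAddCommGroup H] [InnerProductSpace ℂ H] [CompleteSpace H]

variable {A : VonNeumannAlgebra H} {ξ : H} {J : H →L[ℝ] H}
  {Ψ : (ℝ →ᵇ ℂ) →⋆ₐ[ℂ] (H →L[ℂ] H)} {R : H →L[ℂ] H} {D : H →L[ℝ] H}

open Pool.Agent.Helper70.U8 (sm U V) in
theorem supp_mul (h : St A ξ J Ψ R D) {k l : ℝ → ℂ} {K L : ℝ →ᵇ ℂ} (hk : Ker k K) (hl : Ker l L)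
    {a b c d : ℝ} (hK : ∀ ρ, ρ ∉ Set.Icc a b → K ρ = 0) (hL : ∀ ρ, ρ ∉ Set.Icc c d → L ρ = 0)
    (x y : H →L[ℂ] H) :
    Supp Ψ ((sm h.mod hk.int x * sm h.mod hl.int y) ξ) (a + c) (b + d) := by
  rcases lt_or_ge b a with hab | hab
  · intro G _
    rw [mul_apply_eq_comp, SuppBAux.sm_zero h.mod hk.int (SuppBAux.ker_zero hk hab hK), map_zero]
  rcases lt_or_ge d c with hcd | hcd
  · intro G _
    rw [mul_apply_eq_comp, SuppBAux.sm_zero h.mod hl.int (SuppBAux.ker_zero hl hcd hL), map_zero,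
      map_zero]
  refine supp_of_bump fun δ hδ => ?_
  obtain ⟨η, H', hη, hη1, hη2, hη3⟩ := exists_bump (a + c) (b + d) δ (add_le_add hab hcd) hδ
  refine ⟨H', hη1, hη3, ?_⟩
  refine ext_inner_left ℂ fun v => ?_
  have hs : ∀ α β, K α ≠ 0 → L β ≠ 0 → H' (α + β) = 1 := by
    intro α β hα hβ
    have h1 : α ∈ Set.Icc a b := by
      by_contra hh
      exact hα (hK α hh)
    have h2 : β ∈ Set.Icc c d := by
      by_contra hh
      exact hβ (hL β hh)
    exact hη2 _ ⟨add_le_add h1.1 h2.1, add_le_add h1.2 h2.2⟩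
  set Φ : ℝ → ℝ → ℂ := fun t s => ⟪v, U Ψ t (x (V Ψ t (U Ψ s (y ξ))))⟫_ℂ with hΦ
  have hcont : Continuous fun p : ℝ × ℝ => Φ p.1 p.2 := by
    refine continuous_const.inner ?_
    refine SuppBAux.cont_apply' (T := fun p : ℝ × ℝ => U Ψ p.1)
      (fun p v => (Pool.Agent.Helper70.U8.U_norm p.1 v).le)
      (fun v => (Pool.Agent.Helper70.U8.U_cont h.mod v).comp continuous_fst) ?_
    refine x.continuous.comp ?_
    refine SuppBAux.cont_apply' (T := fun p : ℝ × ℝ => V Ψ p.1)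
      (fun p v => (Pool.Agent.Helper70.U8.V_norm p.1 v).le)
      (fun v => (Pool.Agent.Helper70.U8.V_cont h.mod v).comp continuous_fst) ?_
    exact (Pool.Agent.Helper70.U8.U_cont h.mod (y ξ)).comp continuous_snd
  have hbd : ∀ t s, ‖Φ t s‖ ≤ ‖v‖ * (‖x‖ * ‖y ξ‖) := by
    intro t s
    refine (norm_inner_le_norm _ _).trans ?_
    gcongr
    rw [Pool.Agent.Helper70.U8.U_norm]
    refine (x.le_opNorm _).trans ?_
    rw [Pool.Agent.Helper70.U8.V_norm, Pool.Agent.Helper70.U8.U_norm]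
  have h1 := triple hη hk hl hs hcont hbd
  have h2 : ⟪v, Ψ H' ((sm h.mod hk.int x * sm h.mod hl.int y) ξ)⟫_ℂ =
      ∫ r, η r * ∫ t, k t * ∫ s, l s * Φ (t + r) (s + r) := by
    rw [← h.mod.integral_psi hη.int hη.four]
    congr 1
    funext r
    congr 1
    exact SuppBAux.formula h.mod hk.int hl.int x y v r
  have h3 : ⟪v, (sm h.mod hk.int x * sm h.mod hl.int y) ξ⟫_ℂ =
      ∫ t, k t * ∫ s, l s * Φ t s := by
    have h4 := SuppBAux.formula h.mod hk.int hl.int x y v 0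
    simp only [add_zero] at h4
    rw [← h4]
    unfold U
    rw [mul_zero, expB_zero, map_one, one_apply_eq_self]
  rw [h2, h3]
  exact h1

end Pool.Agent.Helper88.CS

end

section

open scoped InnerProductSpace Topology BoundedContinuousFunction

open ContinuousLinearMap Filter MeasureTheory

namespace Pool.Agent.Helper88.CS

open Pool.Agent.Helper23

open Pool.Agent.Helper78.BC (Std rm Fixed)

variable {H : Type*} [NormedAddCommGroup H] [InnerProductSpace ℂ H] [CompleteSpace H]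

variable {A : VonNeumannAlgebra H} {ξ : H} {J : H →L[ℝ] H}
  {Ψ : (ℝ →ᵇ ℂ) →⋆ₐ[ℂ] (H →L[ℂ] H)} {R : H →L[ℂ] H} {D : H →L[ℝ] H}

namespace SpecBAux

open Pool.Agent.Helper70.U8 (sm U V)

/-- smoothing is a left module map over the commutant of the modular group -/
theorem mul_sm (h : Modular A ξ R D Ψ) {k : ℝ → ℂ} (hk : Integrable k) {e z : H →L[ℂ] H}
    (hc : ∀ G : ℝ →ᵇ ℂ, e * Ψ G = Ψ G * e) (hz : e * z = z) : e * sm h hk z = sm h hk z := by
  ext w
  rw [mul_apply_eq_comp, Pool.Agent.Helper70.U8.sm_apply,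
    ← ContinuousLinearMap.integral_comp_comm e (Pool.Agent.Helper70.U8.orbit_int h hk z w)]
  congr 1
  funext t
  rw [map_smul]
  congr 1
  have h1 := congrArg (fun T : H →L[ℂ] H => T (z (V Ψ t w))) (hc (expB (2 * Real.pi * t)))
  have h2 := congrArg (fun T : H →L[ℂ] H => T (V Ψ t w)) hz
  simp only [mul_apply_eq_comp] at h1 h2
  unfold U
  rw [h1, h2]

/-- smoothing is a right module map over the commutant of the modular group -/
theorem sm_mul (h : Modular A ξ R D Ψ) {k : ℝ → ℂ} (hk : Integrable k) {e z : H →L[ℂ] H}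
    (hc : ∀ G : ℝ →ᵇ ℂ, e * Ψ G = Ψ G * e) (hz : z * e = z) : sm h hk z * e = sm h hk z := by
  ext w
  rw [mul_apply_eq_comp, Pool.Agent.Helper70.U8.sm_apply, Pool.Agent.Helper70.U8.sm_apply]
  congr 1
  funext t
  congr 2
  have h1 := congrArg (fun T : H →L[ℂ] H => T w) (hc (expB (-(2 * Real.pi * t))))
  have h2 := congrArg (fun T : H →L[ℂ] H => T (V Ψ t w)) hz
  simp only [mul_apply_eq_comp] at h1 h2
  unfold V at h2 ⊢
  rw [← h1, h2]

end SpecBAux

end Pool.Agent.Helper88.CS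

end

end

section

section

open scoped InnerProductSpace Topology BoundedContinuousFunction

open ContinuousLinearMap Filter MeasureTheory

namespace Pool.Agent.Helper88.CS

open Pool.Agent.Helper23

open Pool.Agent.Helper78.BC (Std rm Fixed)

variable {H : Type*} [NormedAddCommGroup H] [InnerProductSpace ℂ H] [CompleteSpace H]

variable {A : VonNeumannAlgebra H} {ξ : H} {J : H →L[ℝ] H}
  {Ψ : (ℝ →ᵇ ℂ) →⋆ₐ[ℂ] (H →L[ℂ] H)} {R : H →L[ℂ] H} {D : H →L[ℝ] H}

theorem exists_near_zero (h : St A ξ J Ψ R D) (hA : III1V A) {e f : H →L[ℂ] H} (he : IsP A e)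
    (hf : IsP A f) (he0 : e ≠ 0) (hf0 : f ≠ 0) (hJe : J (e ξ) = e ξ) (hJf : J (f ξ) = f ξ)
    {η : ℝ} (hη : 0 < η) :
    ∃ x ∈ A, f * x = x ∧ x * e = x ∧ x ≠ 0 ∧ Supp Ψ (x ξ) (-η) η := by
  classical
  obtain ⟨x0, hx0, hne⟩ := exists_mul_ne hA.toFInf he hf he0 hf0
  set z := f * x0 * e with hz
  have hzA : z ∈ A := mul_mem (mul_mem hf.1 hx0) he.1
  have hfz : f * z = z := by rw [hz, ← mul_assoc, ← mul_assoc, hf.2.2]
  have hze : z * e = z := by rw [hz, mul_assoc, he.2.2]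
  have hzξ : z ξ ≠ 0 := fun h0 => hne (h.sep z hzA h0)
  have hce := comm_psi h he.1 he.2.1 hJe
  have hcf := comm_psi h hf.1 hf.2.1 hJf
  obtain ⟨s, k, K, hk, hK, hKz⟩ := exists_piece h hzξ (half_pos hη)
  set x1 := Pool.Agent.Helper70.U8.sm h.mod hk.int z with hx1
  have hx1A : x1 ∈ A := Pool.Agent.Helper70.U8.sm_mem h.mod hk.int h.mod.mem hzA
  have hx1ne : x1 ≠ 0 := by
    intro h0
    have h1 := Pool.Agent.Helper70.U8.sm_xi h.mod hk.int hk.four z
    rw [← hx1, h0, zero_apply] at h1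
    exact hKz h1.symm
  have hx1e : x1 * e = x1 := SpecBAux.sm_mul h.mod hk.int hce hze
  obtain ⟨q, hq, hq0, hJq, -, hq1, hq2⟩ := exists_hull h hx1A hx1ne
  have heq : e * q = q := hq1 e he.1 he.2.1 hJe hx1e
  have hqe : q * e = q := by
    have h1 := congrArg star heq
    rwa [star_mul, he.2.1, hq.2.1] at h1
  have hcq := comm_psi h hq.1 hq.2.1 hJq
  obtain ⟨l, L, hl, hL, hLs⟩ := exists_piece_at h (s := -s) (half_pos hη)
  obtain ⟨y0, hy0, hqy, hyq, hLy⟩ := corner_spec h hA hq hq0 hJq (-s) L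
    (by rw [hLs]; exact one_ne_zero)
  set y1 := Pool.Agent.Helper70.U8.sm h.mod hl.int y0 with hy1
  have hy1A : y1 ∈ A := Pool.Agent.Helper70.U8.sm_mem h.mod hl.int h.mod.mem hy0
  have hy1ne : y1 ≠ 0 := by
    intro h0
    have h1 := Pool.Agent.Helper70.U8.sm_xi h.mod hl.int hl.four y0
    rw [← hy1, h0, zero_apply] at h1
    exact hLy h1.symm
  have hqy1 : q * y1 = y1 := SpecBAux.mul_sm h.mod hl.int hcq hqy
  have hy1q : y1 * q = y1 := SpecBAux.sm_mul h.mod hl.int hcq hyq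
  have hy1e : y1 * e = y1 := by rw [← hy1q, mul_assoc, hqe]
  obtain ⟨t, ht⟩ : ∃ t : ℝ, (Pool.Agent.Helper70.U8.U Ψ t * x1 *
      Pool.Agent.Helper70.U8.V Ψ t) * y1 ≠ 0 := by
    by_contra hcon
    push Not at hcon
    have h1 := hq2 y1 hy1A hcon
    rw [hqy1] at h1
    exact hy1ne h1
  obtain ⟨K', hk', hK'⟩ := hk.shift t
  have horb := SpecBAux.orbit_sm h.mod hk.int t hk'.int z
  rw [← hx1] at horb
  rw [horb] at ht
  have hfx : f * Pool.Agent.Helper70.U8.sm h.mod hk'.int z =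
      Pool.Agent.Helper70.U8.sm h.mod hk'.int z := SpecBAux.mul_sm h.mod hk'.int hcf hfz
  refine ⟨Pool.Agent.Helper70.U8.sm h.mod hk'.int z * y1,
    mul_mem (Pool.Agent.Helper70.U8.sm_mem h.mod hk'.int h.mod.mem hzA) hy1A, ?_, ?_, ht, ?_⟩
  · rw [← mul_assoc, hfx]
  · rw [mul_assoc, hy1e]
  · have h1 := supp_mul h hk' hl (a := s - η / 2) (b := s + η / 2) (c := -s - η / 2)
      (d := -s + η / 2) (fun ρ hρ => by rw [hK', hK ρ hρ, mul_zero]) hL z y0
    exact h1.mono (by (clear * -; linarith)) (by (clear * -; linarith))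

end Pool.Agent.Helper88.CS

end

end

section

section

open scoped InnerProductSpace Topology ENNReal BoundedContinuousFunction FourierTransform SchwartzMap

open ContinuousLinearMap Filter MeasureTheory

namespace Pool.Agent.Helper23.ED

open Pool.Agent.Helper23 Pool.Agent.Helper23.RBF

open Pool.Agent.Helper78.BC.Transport (Sub r)

universe u

variable {H : Type*} [NormedAddCommGroup H] [InnerProductSpace ℂ H] [CompleteSpace H]

variable {M N : VonNeumannAlgebra H} {ξ : H} {E : (H →L[ℂ] H) → (H →L[ℂ] H)}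

open GgB in
theorem fcn_comm {A : VonNeumannAlgebra H} {R : H →L[ℂ] H} {D : H →L[ℝ] H}
    {Ψ : (ℝ →ᵇ ℂ) →⋆ₐ[ℂ] (H →L[ℂ] H)} (hΨ : Modular A ξ R D Ψ) (c : H →L[ℂ] H) (a : ℝ) :
    fcn Ψ c * UV (fun t => Ψ (expB t)) a = UV (fun t => Ψ (expB t)) a * fcn Ψ c := by
  set T : ℝ → H →L[ℂ] H :=
    fun t : ℝ => Ψ (expB (2 * Real.pi * t)) * c * Ψ (expB (-(2 * Real.pi * t))) with hT
  have hd : Dec T := hΨ.conj_dec c
  have hU : ∀ t : ℝ, Dec fun s : ℝ => Ψ (expB (2 * Real.pi * (s - t))) := fun t =>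
    Dec.of_cont zero_le_one (fun s => (psi_norm_le Ψ _).trans (expB_norm _))
      (fun v => (hΨ.U_cont v).comp (by fun_prop))
  have hU' : ∀ t : ℝ, Dec fun s : ℝ => Ψ (expB (-(2 * Real.pi * (s - t)))) := fun t =>
    Dec.of_cont zero_le_one (fun s => (psi_norm_le Ψ _).trans (expB_norm _))
      (fun v => (hΨ.U_cont v).comp (by fun_prop))
  have hd' : ∀ t, Dec fun s => T (s - t) := fun t => ((hU t).comp (Dec.const c)).comp (hU' t)
  have hp : (2 * Real.pi) ≠ 0 := by positivity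
  have hkey : ∀ s : ℝ, T s * Ψ (expB a) = Ψ (expB a) * T (s - a / (2 * Real.pi)) := by
    intro s
    have e1 : 2 * Real.pi * (s - a / (2 * Real.pi)) = 2 * Real.pi * s - a := by field_simp
    simp only [hT]
    rw [e1, ← mul_assoc, ← mul_assoc, psi_expB_mul, mul_assoc _ (Ψ _) (Ψ _), psi_expB_mul]
    congr 3
    · congr 2
      ring
    · congr 1
      ring
  ext F : 1
  refine (Fo H).injective ?_
  change Fo H (fco T (lift (Ψ (expB a)) (mulOp H (ems a) F))) =
    Fo H (lift (Ψ (expB a)) (mulOp H (ems a) (fco T F)))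
  rw [Fo_fco, Fo_lift, Fo_ems, Fo_lift, Fo_ems, Fo_fco, tr_dec hd hd']
  have h1 := dec_comp hd (Dec.const (Ψ (expB a))) (tr H (a / (2 * Real.pi)) (Fo H F))
  have h2 := dec_comp (Dec.const (Ψ (expB a))) (hd' (a / (2 * Real.pi)))
    (tr H (a / (2 * Real.pi)) (Fo H F))
  refine h1.trans (Eq.trans ?_ h2.symm)
  congr 2
  funext s
  exact hkey s

end Pool.Agent.Helper23.ED

end

end
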