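import Pool.Agent.Helper23.FB.L01_a0
import Pool.Agent.Helper23.FB.L01_a10
import Pool.Agent.Helper23.FB.L01_a11
import Pool.Agent.Helper23.FB.L01_a12
import Pool.Agent.Helper23.FB.L01_a13
import Pool.Agent.Helper23.FB.L01_a4
import Pool.Agent.Helper23.FB.L01_a7
import Pool.Agent.Helper23.FB.L01_a8

/-!
Parts of Helper23.FA.L01_17, Helper23.FA.L01_18, Helper23.FA.L01_06, Helper23.FA.L01_09, Helper23.FA.L01_12, Helper23.FA.L02_13, Helper23.FA.L02_06, Helper23.FA.L02_09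
-/

attribute [local instance 5000]
  Pool.Agent.Helper23.FB.Inst.rCharZero Pool.Agent.Helper23.FB.Inst.rALM
  Pool.Agent.Helper23.FB.Inst.rARM Pool.Agent.Helper23.FB.Inst.rALSM
  Pool.Agent.Helper23.FB.Inst.rARSM Pool.Agent.Helper23.FB.Inst.rARRLE
  Pool.Agent.Helper23.FB.Inst.rALRLE Pool.Agent.Helper23.FB.Inst.rARRLT
  Pool.Agent.Helper23.FB.Inst.rALRLT Pool.Agent.Helper23.FB.Inst.rPMRLT
  Pool.Agent.Helper23.FB.Inst.rMPRLT Pool.Agent.Helper23.FB.Inst.rPMM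
  Pool.Agent.Helper23.FB.Inst.rMPM Pool.Agent.Helper23.FB.Inst.rPMSM
  Pool.Agent.Helper23.FB.Inst.rMPSM Pool.Agent.Helper23.FB.Inst.rEAOL
  Pool.Agent.Helper23.FB.Inst.rIOR Pool.Agent.Helper23.FB.Inst.rISOR
  Pool.Agent.Helper23.FB.Inst.rFS Pool.Agent.Helper23.FB.Inst.rcCharZero
  Pool.Agent.Helper23.FB.Inst.rNZD Pool.Agent.Helper23.FB.Inst.rcNZD
  Pool.Agent.Helper23.FB.Inst.bSemiring Pool.Agent.Helper23.FB.Inst.bStar
  Pool.Agent.Helper23.FB.Inst.bAlg Pool.Agent.Helper23.FB.Inst.bSub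
  Pool.Agent.Helper23.FB.Inst.bMul Pool.Agent.Helper23.FB.Inst.bAdd
  Pool.Agent.Helper23.FB.Inst.iRing Pool.Agent.Helper23.FB.Inst.iSemiring
  Pool.Agent.Helper23.FB.Inst.iAlgC Pool.Agent.Helper23.FB.Inst.iSMulC
  Pool.Agent.Helper23.FB.Inst.iModC Pool.Agent.Helper23.FB.Inst.iAlgR
  Pool.Agent.Helper23.FB.Inst.iSMulR Pool.Agent.Helper23.FB.Inst.iModR
  Pool.Agent.Helper23.FB.Inst.iMonoid Pool.Agent.Helper23.FB.Inst.iSemigroup
  Pool.Agent.Helper23.FB.Inst.iMulOneClass Pool.Agent.Helper23.FB.Inst.iMul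
  Pool.Agent.Helper23.FB.Inst.iAdd Pool.Agent.Helper23.FB.Inst.iSub
  Pool.Agent.Helper23.FB.Inst.iNeg Pool.Agent.Helper23.FB.Inst.iAddCommMonoid
  Pool.Agent.Helper23.FB.Inst.iAddCommGroup Pool.Agent.Helper23.FB.Inst.iAddGroup
  Pool.Agent.Helper23.FB.Inst.iAddMonoid Pool.Agent.Helper23.FB.Inst.iSMulZeroC
  Pool.Agent.Helper23.FB.Inst.iMulActC Pool.Agent.Helper23.FB.Inst.iDSMulC
  Pool.Agent.Helper23.FB.Inst.iDSMulR Pool.Agent.Helper23.FB.Inst.iSNAG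
  Pool.Agent.Helper23.FB.Inst.iSNACG Pool.Agent.Helper23.FB.Inst.iNorm
  Pool.Agent.Helper23.FB.Inst.iNSC' Pool.Agent.Helper23.FB.Inst.iNSR'
  Pool.Agent.Helper23.FB.Inst.iTop Pool.Agent.Helper23.FB.Inst.iT2 Pool.Agent.Helper23.FB.Inst.iTR
  Pool.Agent.Helper23.FB.Inst.iSCC Pool.Agent.Helper23.FB.Inst.iIST
  Pool.Agent.Helper23.FB.Inst.iSCCR Pool.Agent.Helper23.FB.Inst.iISTR
  Pool.Agent.Helper23.FB.Inst.iZHC Pool.Agent.Helper23.FB.Inst.iAHC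
  Pool.Agent.Helper23.FB.Inst.iAMHC Pool.Agent.Helper23.FB.Inst.iMAHC
  Pool.Agent.Helper23.FB.Inst.lTop Pool.Agent.Helper23.FB.Inst.lUnif
  Pool.Agent.Helper23.FB.Inst.lACM Pool.Agent.Helper23.FB.Inst.lACG
  Pool.Agent.Helper23.FB.Inst.lSNAG Pool.Agent.Helper23.FB.Inst.lSNACG
  Pool.Agent.Helper23.FB.Inst.lNACG Pool.Agent.Helper23.FB.Inst.lNorm
  Pool.Agent.Helper23.FB.Inst.lIPS Pool.Agent.Helper23.FB.Inst.lMod
  Pool.Agent.Helper23.FB.Inst.lSMul Pool.Agent.Helper23.FB.Inst.lT2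
  Pool.Agent.Helper23.FB.Inst.iStar Pool.Agent.Helper23.FB.Inst.iStarMul
  Pool.Agent.Helper23.FB.Inst.iStarAddMonoid Pool.Agent.Helper23.FB.Inst.iStarRing
  Pool.Agent.Helper23.FB.Inst.iNSC Pool.Agent.Helper23.FB.Inst.iSOR
  Pool.Agent.Helper23.FB.Inst.iALM Pool.Agent.Helper23.FB.Inst.iARM
  Pool.Agent.Helper23.FB.Inst.iCFC Pool.Agent.Helper23.FB.Inst.iNCFC
  Pool.Agent.Helper23.FB.Inst.iStarModR Pool.Agent.Helper23.FB.Inst.iStarModC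
  Pool.Agent.Helper23.FB.Inst.eStar Pool.Agent.Helper23.FB.Inst.eAdd
  Pool.Agent.Helper23.FB.Inst.eMul Pool.Agent.Helper23.FB.Inst.eOne
  Pool.Agent.Helper23.FB.Inst.eZero Pool.Agent.Helper23.FB.Inst.eMulAction
  Pool.Agent.Helper23.FB.Inst.eAMHC2 Pool.Agent.Helper23.FB.Inst.eZHC2
  Pool.Agent.Helper23.FB.Inst.lAMHC

namespace Pool.Agent.Helper23
end Pool.Agent.Helper23
namespace Pool.Agent.Helper23.RBF
end Pool.Agent.Helper23.RBF

section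

section

set_option linter.unusedSectionVars false

open scoped InnerProductSpace Topology

open ContinuousLinearMap Filter

namespace Pool.Agent.Helper53.PG

open Pool.Agent.Helper23

universe u v

variable {H : Type u} [NormedAddCommGroup H] [InnerProductSpace ℂ H] [CompleteSpace H]

variable {M N : VonNeumannAlgebra H} {ξ : H} {E : (H →L[ℂ] H) → (H →L[ℂ] H)}

lemma exists_gamma (S : AP M N E ξ) {t : ℝ} (ht : 0 < t) (ht1 : t < 1) (s : ℝ)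
    (hs : s = 1 ∨ s = -1) :
    ∃ γ : ℝ, 0 < γ ∧ ∃ w ∈ eig N ξ γ, w ≠ 0 ∧ t / 2 < s * (γ⁻¹ - 1) ∧ s * (γ⁻¹ - 1) < t := by
  rcases hs with rfl | rfl
  · obtain ⟨γ, ⟨hγ, w, hw, hw0⟩, h1, h2⟩ := S.dns (1 / (1 + t)) (1 / (1 + t / 2)) (by (clear * - ht; positivity))
      (by
        rw [div_lt_div_iff₀ (by (clear * - ht; positivity)) (by positivity)]
        (clear * - ht; linarith))
    refine ⟨γ, hγ, w, hw, hw0, ?_, ?_⟩
    · have h3 : 1 + t / 2 < γ⁻¹ := by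
        rw [lt_inv_comm₀ (by (clear * - ht; positivity)) hγ]
        rwa [one_div] at h2
      (clear * - h3; linarith)
    · have h3 : γ⁻¹ < 1 + t := by
        rw [inv_lt_comm₀ hγ (by positivity)]
        rwa [one_div] at h1
      (clear * - h3; linarith)
  · have h1t : 0 < 1 - t := by linarith
    have h2t : 0 < 1 - t / 2 := by linarith
    obtain ⟨γ, ⟨hγ, w, hw, hw0⟩, h1, h2⟩ := S.dns (1 / (1 - t / 2)) (1 / (1 - t)) (by (clear * - h2t; positivity))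
      (by
        rw [div_lt_div_iff₀ (by positivity) (by (clear * - ht1; positivity))]
        linarith)
    refine ⟨γ, hγ, w, hw, hw0, ?_, ?_⟩
    · have h3 : γ⁻¹ < 1 - t / 2 := by
        rw [inv_lt_comm₀ hγ (by positivity)]
        rwa [one_div] at h1
      (clear * - h3; linarith)
    · have h3 : 1 - t < γ⁻¹ := by
        rw [lt_inv_comm₀ (by positivity) hγ]
        rwa [one_div] at h2
      (clear * - h3; linarith)

end Pool.Agent.Helper53.PG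

end

end

section

section

set_option linter.unusedSectionVars false

open scoped InnerProductSpace Topology

open ContinuousLinearMap Filter

namespace Pool.Agent.Helper53.PG

open Pool.Agent.Helper23

universe u v

variable {H : Type u} [NormedAddCommGroup H] [InnerProductSpace ℂ H] [CompleteSpace H]

variable {M N : VonNeumannAlgebra H} {ξ : H} {E : (H →L[ℂ] H) → (H →L[ℂ] H)}

/-- The conclusion of module B1 for a fixed `y` (all balanced families). -/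
def SmoothStmt (M N : VonNeumannAlgebra H) (ξ : H) (y : H →L[ℂ] H) (κ K : ℝ) : Prop :=
  ∀ (ι : Type v) [Fintype ι] (c c' : ι → H →L[ℂ] H), (∀ l, Partner N ξ (c l) (c' l)) →
    ∀ m₀ δ : ℝ, 0 < m₀ → ∑ l, ‖c l ξ‖ ^ 2 ≤ m₀ → ∑ l, ‖(c' l - c l) ξ‖ ^ 2 ≤ δ →
    ∑ l, ⟪c l ξ, (c' l - c l) ξ⟫_ℂ = 0 → ∀ n : ℕ, 0 < n →
    K * ((1 + δ / (2 * m₀)) ^ n - 1) ≤ κ →
    ∃ z ∈ Qalg M N ξ, ‖(z - y) ξ‖ ^ 2 ≤ 2 * κ ∧
      ∑ l, ‖(z * c l - c l * z) ξ‖ ^ 2 ≤ 8 * m₀ * κ / n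

end Pool.Agent.Helper53.PG

end

section

open scoped InnerProductSpace Topology

open ContinuousLinearMap Filter

namespace Pool.Agent.Helper23

variable {H : Type*} [NormedAddCommGroup H] [InnerProductSpace ℂ H] [CompleteSpace H]

variable {M N : VonNeumannAlgebra H} {ξ : H} {E : (H →L[ℂ] H) → (H →L[ℂ] H)}

/-- the summed transfer operator -/
noncomputable def smPhi (M N : VonNeumannAlgebra H) (ξ : H) {ι : Type*} [Fintype ι]
    (c : ι → H →L[ℂ] H) (z : H →L[ℂ] H) : H →L[ℂ] H :=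
  ∑ l, EQ M N ξ (star (c l) * z * c l)

/-- one averaging step -/
noncomputable def smT (M N : VonNeumannAlgebra H) (ξ : H) {ι : Type*} [Fintype ι]
    (c : ι → H →L[ℂ] H) (m m₀ : ℝ) (z : H →L[ℂ] H) : H →L[ℂ] H :=
  ((1 - m / (2 * m₀) : ℝ) : ℂ) • z + ((1 / (2 * m₀) : ℝ) : ℂ) • smPhi M N ξ c z

namespace AP

variable (S : AP M N E ξ)

include S

variable {ι : Type*} [Fintype ι] {c c' : ι → H →L[ℂ] H}

lemma sm_mem {z : H →L[ℂ] H} (hz : z ∈ Qalg M N ξ) {a b : H →L[ℂ] H} (ha : a ∈ N) (hb : b ∈ N) :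
    star a * z * b ∈ M :=
  mul_mem (mul_mem (star_mem (S.le _ ha)) (mem_Qalg.1 hz).1) (S.le _ hb)

lemma smPhi_mem (hc : ∀ l, c l ∈ N) {z : H →L[ℂ] H} (hz : z ∈ Qalg M N ξ) :
    smPhi M N ξ c z ∈ Qalg M N ξ :=
  sum_mem fun l _ => S.EQ_mem (S.sm_mem hz (hc l) (hc l))

lemma smT_mem (hc : ∀ l, c l ∈ N) {z : H →L[ℂ] H} (hz : z ∈ Qalg M N ξ) (m m₀ : ℝ) :
    smT M N ξ c m m₀ z ∈ Qalg M N ξ :=
  add_mem (smul_mem' _ hz) (smul_mem' _ (S.smPhi_mem hc hz))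

lemma inner_smPhi (hc : ∀ l, c l ∈ N) {q z : H →L[ℂ] H} (hq : q ∈ Qalg M N ξ)
    (hz : z ∈ Qalg M N ξ) :
    ⟪q ξ, smPhi M N ξ c z ξ⟫_ℂ = ∑ l, ⟪c l (q ξ), z (c l ξ)⟫_ℂ := by
  rw [smPhi, sum_apply, inner_sum]
  refine Finset.sum_congr rfl fun l _ => ?_
  rw [S.EQ_inner (S.sm_mem hz (hc l) (hc l)) hq]
  change ⟪q ξ, (star (c l)) (z (c l ξ))⟫_ℂ = _
  rw [inner_star_right]

omit S in
lemma inner_conj4 (u a b : H →L[ℂ] H) (v w : H) :
    ⟪v, (star u * (star a * b) * u) w⟫_ℂ = ⟪a (u v), b (u w)⟫_ℂ := by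
  change ⟪v, (star u) ((star a) (b (u w)))⟫_ℂ = _
  rw [inner_star_right, inner_star_right]

omit S [CompleteSpace H] in
lemma sum_partner_inner (hbal : ∑ l, ⟪c l ξ, (c' l - c l) ξ⟫_ℂ = 0) :
    ∑ l, ⟪c' l ξ, c l ξ⟫_ℂ = ((∑ l, ‖c l ξ‖ ^ 2 : ℝ) : ℂ) := by
  have h1 : ∑ l, ⟪c l ξ, c' l ξ⟫_ℂ = ((∑ l, ‖c l ξ‖ ^ 2 : ℝ) : ℂ) := by
    have h2 : ∀ l, ⟪c l ξ, (c' l - c l) ξ⟫_ℂ = ⟪c l ξ, c' l ξ⟫_ℂ - ((‖c l ξ‖ ^ 2 : ℝ) : ℂ) := by
      intro l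
      rw [sub_apply, inner_sub_right, inner_self_eq_norm_sq_to_K]
      push_cast
      rfl
    simp only [h2] at hbal
    rw [Finset.sum_sub_distrib, sub_eq_zero] at hbal
    rw [hbal]
    push_cast
    rfl
  have h3 := congrArg (starRingEnd ℂ) h1
  rw [map_sum, Complex.conj_ofReal] at h3
  rw [← h3]
  exact Finset.sum_congr rfl fun l _ => (inner_conj_symm _ _).symm

omit S [CompleteSpace H] in
lemma sum_partner_norm (hbal : ∑ l, ⟪c l ξ, (c' l - c l) ξ⟫_ℂ = 0) {δ : ℝ}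
    (hδ : ∑ l, ‖(c' l - c l) ξ‖ ^ 2 ≤ δ) :
    ∑ l, ‖c' l ξ‖ ^ 2 ≤ (∑ l, ‖c l ξ‖ ^ 2) + δ := by
  have h1 : ∑ l, ‖(c' l - c l) ξ‖ ^ 2 = ∑ l, ‖c' l ξ‖ ^ 2 - ∑ l, ‖c l ξ‖ ^ 2 := by
    have h2 := congrArg Complex.re (sum_partner_inner hbal)
    rw [Complex.re_sum, Complex.ofReal_re] at h2
    have h3 : ∀ l, ‖(c' l - c l) ξ‖ ^ 2 =
        ‖c' l ξ‖ ^ 2 - 2 * (⟪c' l ξ, c l ξ⟫_ℂ).re + ‖c l ξ‖ ^ 2 := by
      intro l
      rw [sub_apply, norm_sub_sq_re]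
    simp only [h3]
    rw [Finset.sum_add_distrib, Finset.sum_sub_distrib, ← Finset.mul_sum, h2]
    ring
  (clear * - hδ h1; linarith)

/-- the iterates of the averaging step -/
noncomputable def smSeq (M N : VonNeumannAlgebra H) (ξ : H) {ι : Type*} [Fintype ι]
    (c : ι → H →L[ℂ] H) (m m₀ : ℝ) (y : H →L[ℂ] H) : ℕ → H →L[ℂ] H
  | 0 => y
  | k + 1 => smT M N ξ c m m₀ (smSeq M N ξ c m m₀ y k)

end AP

end Pool.Agent.Helper23

end

end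

section

section

open scoped InnerProductSpace

open ContinuousLinearMap Filter

namespace Pool.Agent.Helper23

variable {H : Type*} [NormedAddCommGroup H] [InnerProductSpace ℂ H] [CompleteSpace H]

variable {M N : VonNeumannAlgebra H} {ξ : H} {E : (H →L[ℂ] H) → (H →L[ℂ] H)}

namespace AP

variable (S : AP M N E ξ)

include S

/-- elements of `Q` and of `N` are independent -/
lemma inner_NQ {y z c : H →L[ℂ] H} (hy : y ∈ Qalg M N ξ)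
    (hz : z ∈ Qalg M N ξ) (hc : c ∈ N) :
    ⟪y ξ, c (z ξ)⟫_ℂ = ⟪y ξ, z ξ⟫_ℂ * ⟪ξ, c ξ⟫_ℂ := by
  -- invariance
  have hinv : ∀ u ∈ Ucent N ξ, ⟪y ξ, (star u * c * u) (z ξ)⟫_ℂ = ⟪y ξ, c (z ξ)⟫_ℂ := by
    intro u hu
    obtain ⟨u', hu', h⟩ := S.exists_right one_pos hu.1
    have hQ : ∀ q ∈ Qalg M N ξ, u (q ξ) = u' (q ξ) := by
      intro q hq
      have := congrArg (fun T : H →L[ℂ] H => T ξ) ((mem_Qalg.1 hq).2 u hu.1)
      change u (q ξ) = q (u ξ) at this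
      rw [this, h q (mem_Qalg.1 hq).1]
    have hiso : ∀ ζ, ‖u' ζ‖ = ‖ζ‖ := by
      intro ζ
      have hcl : IsClosed {ζ : H | ‖u' ζ‖ = ‖ζ‖} := isClosed_eq (by fun_prop) (by fun_prop)
      have hsub : (orb M ξ : Set H) ⊆ {ζ : H | ‖u' ζ‖ = ‖ζ‖} := by
        rintro _ ⟨y, hy, rfl⟩
        change ‖u' (y ξ)‖ = ‖y ξ‖
        rw [h y hy, S.norm_right_unitary hu.1 hu.2.2 hy]
      exact closure_minimal hsub hcl (S.cyc ζ)
    change ⟪y ξ, (star u) (c (u (z ξ)))⟫_ℂ = _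
    rw [inner_star_right, hQ y hy, hQ z hz, commute_apply (S.le c hc) hu']
    let L : H →ₗᵢ[ℂ] H := ⟨u'.toLinearMap, hiso⟩
    exact L.inner_map_map _ _
  -- both inequalities for the real part, for all multiples
  have hre : ∀ k : ℂ, (k * ⟪y ξ, c (z ξ)⟫_ℂ).re ≤ (k * (⟪ξ, c ξ⟫_ℂ * ⟪y ξ, z ξ⟫_ℂ)).re := by
    intro k
    have h1 := S.avgN_le (ι := Unit) (x := fun _ => c) (fun _ => hc) (fun _ => y ξ)
      (fun _ => k • z ξ) (c := (k * ⟪y ξ, c (z ξ)⟫_ℂ).re) (fun u hu => by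
        simp only [Finset.univ_unique, Finset.sum_singleton, map_smul, inner_smul_right]
        rw [hinv u hu])
    simp only [Finset.univ_unique, Finset.sum_singleton, inner_smul_right] at h1
    refine h1.trans_eq ?_
    congr 1
    ring
  have h1 := hre 1
  have h2 := hre (-1)
  have h3 := hre Complex.I
  have h4 := hre (-Complex.I)
  simp only [one_mul, neg_mul, Complex.neg_re, Complex.I_mul_re] at h1 h2 h3 h4
  apply Complex.ext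
  · rw [mul_comm ⟪y ξ, z ξ⟫_ℂ]; linarith
  · rw [mul_comm ⟪y ξ, z ξ⟫_ℂ]; (clear * - h3 h4; linarith)

end AP

end Pool.Agent.Helper23

end

end

section

section

open scoped InnerProductSpace TensorProduct

open ContinuousLinearMap

namespace Pool.Agent.Helper23

variable {H : Type*} [NormedAddCommGroup H] [InnerProductSpace ℂ H] [CompleteSpace H]

variable {M N : VonNeumannAlgebra H} {ξ : H} {E : (H →L[ℂ] H) → (H →L[ℂ] H)}

namespace Setting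

variable (S : Setting M N E ξ) (hirr : TrivialRelComm N ξ)

include S hirr

lemma inner_QQ {y z a b : H →L[ℂ] H} (hy : y ∈ Qalg M N ξ) (hz : z ∈ Qalg M N ξ)
    (ha : a ∈ N) (hb : b ∈ N) :
    ⟪y (a ξ), z (b ξ)⟫_ℂ = ⟪y ξ, z ξ⟫_ℂ * ⟪a ξ, b ξ⟫_ℂ := by
  have h := S.inner_Q hirr (mul_mem (star_mem hy) hz) ha hb
  change ⟪a ξ, (star y) (z (b ξ))⟫_ℂ = ⟪ξ, (star y) (z ξ)⟫_ℂ * _ at h
  rwa [inner_star_right, inner_star_right] at h

lemma norm_Q {y a : H →L[ℂ] H} (hy : y ∈ Qalg M N ξ) (ha : a ∈ N) :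
    ‖y (a ξ)‖ = ‖y ξ‖ * ‖a ξ‖ := by
  have h := S.inner_QQ hirr hy hy ha ha
  simp only [inner_self_eq_norm_sq_to_K] at h
  have h2 : ‖y (a ξ)‖ ^ 2 = (‖y ξ‖ * ‖a ξ‖) ^ 2 := by
    have h3 : ((‖y (a ξ)‖ ^ 2 : ℝ) : ℂ) = (((‖y ξ‖ * ‖a ξ‖) ^ 2 : ℝ) : ℂ) := by
      push_cast
      rw [mul_pow]
      exact h
    exact Complex.ofReal_injective h3
  exact (pow_left_inj₀ (norm_nonneg _) (by (clear * -; positivity)) two_ne_zero).1 h2

end Setting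

end Pool.Agent.Helper23

end

end

section

section

open scoped InnerProductSpace Topology ENNReal BoundedContinuousFunction

open ContinuousLinearMap Filter MeasureTheory

namespace Pool.Agent.Helper23.ED

open Pool.Agent.Helper23 Pool.Agent.Helper23.RBF

open Pool.Agent.Helper78.BC.Transport (Sub r)

universe u

variable {H : Type u} [NormedAddCommGroup H] [InnerProductSpace ℂ H] [CompleteSpace H]

variable {K : Type u} [NormedAddCommGroup K] [InnerProductSpace ℂ K] [CompleteSpace K]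

variable {L : Type u} [NormedAddCommGroup L] [InnerProductSpace ℂ L] [CompleteSpace L]

variable {N : VonNeumannAlgebra H} {ψ : (H →L[ℂ] H) → ℝ≥0∞} {ξ : H} {i : K →L[ℂ] H} {κ : K}
  {Λ : (H →L[ℂ] H) → L} {ρ : (H →L[ℂ] H) → (L →L[ℂ] L)}

namespace WtD

/-- the bound for the limit -/
lemma lim_bound (hsep : ∀ a ∈ N, a ξ = 0 → a = 0) {b : ℕ → H →L[ℂ] H} (hb : ∀ j, b j ∈ N)
    {a : H →L[ℂ] H} (ha : a ∈ N) (hlim : Tendsto (fun n => b n ξ) atTop (𝓝 (a ξ))) (k : ℕ)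
    (v : H) {C : ℝ} (hC : ∀ n, ‖star (b (k + n) - b k) v‖ ^ 2 ≤ C) :
    ‖star (a - b k) v‖ ^ 2 ≤ C := by
  have hC0 : 0 ≤ C := (sq_nonneg _).trans (hC 0)
  have hC' : ∀ n, ‖star (b (k + n) - b k) v‖ ≤ √C := fun n =>
    Real.le_sqrt_of_sq_le (hC n)
  have hd := dense_of_separating N ξ hsep
  -- the functional is bounded on a dense set
  have h1 : ∀ η ∈ (orb N.commutant ξ : Set H), ‖⟪star (a - b k) v, η⟫_ℂ‖ ≤ √C * ‖η‖ := by
    rintro _ ⟨c, hc, rfl⟩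
    have e1 : ∀ x ∈ N, ⟪star (x - b k) v, c ξ⟫_ℂ = ⟪v, c (x ξ)⟫_ℂ - ⟪v, c ((b k) ξ)⟫_ℂ := by
      intro x hx
      rw [inner_star_left, sub_apply, inner_sub_right, commute_apply hx hc,
        commute_apply (hb k) hc]
    have e2 : Tendsto (fun n => ⟪star (b (k + n) - b k) v, c ξ⟫_ℂ) atTop
        (𝓝 ⟪star (a - b k) v, c ξ⟫_ℂ) := by
      rw [e1 a ha]
      have e3 : (fun n => ⟪star (b (k + n) - b k) v, c ξ⟫_ℂ) =
          fun n => ⟪v, c (b (k + n) ξ)⟫_ℂ - ⟪v, c ((b k) ξ)⟫_ℂ := by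
        funext n
        exact e1 _ (hb _)
      rw [e3]
      refine Tendsto.sub_const ?_ _
      have e4 : Tendsto (fun n => b (k + n) ξ) atTop (𝓝 (a ξ)) := by
        have := (tendsto_add_atTop_iff_nat (f := fun n => b n ξ) k).2 hlim
        refine this.congr fun n => ?_
        rw [add_comm]
      exact tendsto_const_nhds.inner ((c.continuous.tendsto _).comp e4)
    refine le_of_tendsto e2.norm (Eventually.of_forall fun n => ?_)
    refine (norm_inner_le_norm _ _).trans ?_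
    exact mul_le_mul_of_nonneg_right (hC' n) (norm_nonneg _)
  have h2 : ∀ η : H, ‖⟪star (a - b k) v, η⟫_ℂ‖ ≤ √C * ‖η‖ := by
    have hcl : IsClosed {η : H | ‖⟪star (a - b k) v, η⟫_ℂ‖ ≤ √C * ‖η‖} :=
      isClosed_le (by fun_prop) (by fun_prop)
    intro η
    exact closure_minimal h1 hcl (hd η)
  have h3 := h2 (star (a - b k) v)
  rw [inner_self_eq_norm_sq_to_K] at h3
  have h4 : ‖((‖star (a - b k) v‖ : ℝ) : ℂ) ^ 2‖ = ‖star (a - b k) v‖ ^ 2 := by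
    rw [norm_pow, Complex.norm_real, norm_norm]
  have h5 : ‖star (a - b k) v‖ ^ 2 ≤ √C * ‖star (a - b k) v‖ := by
    rw [← h4]
    exact h3
  have h6 : ‖star (a - b k) v‖ ≤ √C := by
    by_contra hcon
    push Not at hcon
    have : 0 < ‖star (a - b k) v‖ := (Real.sqrt_nonneg C).trans_lt hcon
    (clear * - h5 hcon this; nlinarith)
  calc ‖star (a - b k) v‖ ^ 2 ≤ √C ^ 2 := pow_le_pow_left₀ (norm_nonneg _) h6 2
    _ = C := Real.sq_sqrt hC0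

/-- the main step: a fast sequence in the domain -/
lemma main (hsep : ∀ a ∈ N, a ξ = 0 → a = 0) (hψ : IsNSFWeight N ψ) {b : ℕ → H →L[ℂ] H}
    (hb : ∀ j, b j ∈ N)
    (hc : ∀ j, ψ ((b (j + 1) - b j) * star (b (j + 1) - b j)) ≤
      ENNReal.ofReal ((1 / 4) ^ (j + 1)))
    {a : H →L[ℂ] H} (ha : a ∈ N) (hlim : Tendsto (fun n => b n ξ) atTop (𝓝 (a ξ))) (k : ℕ) :
    ψ ((a - b k) * star (a - b k)) ≤ ENNReal.ofReal ((1 / 2) ^ k) := by
  have h1 := weight_le hψ (w := wseq b k) (wseq_mem hb k) (wseq_nonneg b k) (wseq_mono b k)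
    (y := star (a - b k)) (star_mem (sub_mem ha (hb k))) (by
      intro v hv
      refine lim_bound hsep hb ha hlim k v fun n => ?_
      exact (cs b k n v).trans (le_ciSup hv n))
  rw [star_star] at h1
  refine h1.trans (iSup_le fun n => (psi_wseq hψ hb hc k n).trans ?_)
  refine ENNReal.ofReal_le_ofReal ?_
  have : (0 : ℝ) ≤ (1 / 2) ^ (k + n) := by positivity
  linarith

end WtD

theorem Gp_snd (Sb : Sub N ξ i κ) (hsep : ∀ a ∈ N, a ξ = 0 → a = 0) (hψ : IsNSFWeight N ψ)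
    (hG : Gns N ψ Λ ρ) {p : K × L} (hp : p ∈ closure (Gp N ψ ξ i Λ)) {a : H →L[ℂ] H}
    (ha : a ∈ N) (h1 : i p.1 = a ξ) : a ∈ Dm N ψ ∧ p.2 = Λ a := by
  have _ := Sb
  -- a fast sequence
  have hex : ∀ j : ℕ, ∃ q ∈ Gp N ψ ξ i Λ, dist p q < (1 / 2) ^ (j + 2) := fun j =>
    Metric.mem_closure_iff.1 hp _ (by (clear * -; positivity))
  choose q hq hqd using hex
  choose b hbD hb1 hb2 using hq
  have hbN : ∀ j, b j ∈ N := fun j => (hbD j).1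
  -- differences are in the domain
  have hneg : ∀ j, (-1 : ℂ) • b j ∈ Dm N ψ := fun j => Dm_smul hψ (-1) (hbD j)
  have hdiff : ∀ x ∈ Dm N ψ, ∀ y ∈ Dm N ψ, x - y ∈ Dm N ψ ∧ Λ (x - y) = Λ x - Λ y := by
    intro x hx y hy
    have hy' := Dm_smul hψ (-1) hy
    have e : x - y = x + (-1 : ℂ) • y := by rw [neg_one_smul, sub_eq_add_neg]
    refine ⟨by rw [e]; exact Dm_add hψ hx hy', ?_⟩
    rw [e, hG.add x hx _ hy', hG.smul (-1) y hy, neg_one_smul, sub_eq_add_neg]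
  have hpsi : ∀ x ∈ Dm N ψ, ∀ C : ℝ, ‖Λ x‖ ^ 2 ≤ C → ψ (x * star x) ≤ ENNReal.ofReal C := by
    intro x hx C hC
    rw [hG.norm x hx] at hC
    rw [← ENNReal.ofReal_toReal hx.2]
    exact ENNReal.ofReal_le_ofReal hC
  have hLd : ∀ j, ‖p.2 - Λ (b j)‖ ≤ (1 / 2) ^ (j + 2) := by
    intro j
    rw [← hb2 j, ← dist_eq_norm]
    exact (le_max_right (dist p.1 (q j).1) (dist p.2 (q j).2)).trans (hqd j).le
  have hKd : ∀ j, ‖p.1 - (q j).1‖ ≤ (1 / 2) ^ (j + 2) := by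
    intro j
    rw [← dist_eq_norm]
    exact (le_max_left (dist p.1 (q j).1) (dist p.2 (q j).2)).trans (hqd j).le
  have hc : ∀ j, ψ ((b (j + 1) - b j) * star (b (j + 1) - b j)) ≤
      ENNReal.ofReal ((1 / 4) ^ (j + 1)) := by
    intro j
    obtain ⟨hd1, hd2⟩ := hdiff _ (hbD (j + 1)) _ (hbD j)
    refine hpsi _ hd1 _ ?_
    rw [hd2]
    have e1 : ‖Λ (b (j + 1)) - Λ (b j)‖ ≤ (1 / 2) ^ (j + 1) := by
      have e2 : Λ (b (j + 1)) - Λ (b j) = (p.2 - Λ (b j)) - (p.2 - Λ (b (j + 1))) := by abel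
      rw [e2]
      refine (norm_sub_le _ _).trans ?_
      have e3 := hLd j
      have e4 := hLd (j + 1)
      have e5 : ((1 : ℝ) / 2) ^ (j + 1 + 2) ≤ (1 / 2) ^ (j + 2) :=
        pow_le_pow_of_le_one (by norm_num) (by norm_num) (by omega)
      have e6 : ((1 : ℝ) / 2) ^ (j + 2) = (1 / 2) ^ (j + 1) / 2 := by
        rw [pow_succ _ (j + 1)]; ring
      linarith
    calc ‖Λ (b (j + 1)) - Λ (b j)‖ ^ 2 ≤ ((1 / 2) ^ (j + 1)) ^ 2 :=
          pow_le_pow_left₀ (norm_nonneg _) e1 2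
      _ = (1 / 4) ^ (j + 1) := by
          rw [← pow_mul, mul_comm, pow_mul]; norm_num
  have hpow : Tendsto (fun j : ℕ => ((1 : ℝ) / 2) ^ (j + 2)) atTop (𝓝 0) := by
    have := tendsto_pow_atTop_nhds_zero_of_lt_one (r := (1 : ℝ) / 2) (by norm_num) (by norm_num)
    exact (tendsto_add_atTop_iff_nat 2).2 this
  have hlim : Tendsto (fun n => b n ξ) atTop (𝓝 (a ξ)) := by
    have e1 : Tendsto (fun n => (q n).1) atTop (𝓝 p.1) := by
      rw [tendsto_iff_norm_sub_tendsto_zero]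
      refine squeeze_zero (fun n => norm_nonneg _) (fun n => ?_) hpow
      rw [norm_sub_rev]
      exact hKd n
    have e2 := (i.continuous.tendsto _).comp e1
    rw [h1] at e2
    refine e2.congr fun n => ?_
    exact hb1 n
  have hmain := WtD.main hsep hψ hbN hc ha hlim
  have hDk : ∀ k, a - b k ∈ Dm N ψ := fun k =>
    ⟨sub_mem ha (hbN k), ne_top_of_le_ne_top ENNReal.ofReal_ne_top (hmain k)⟩
  have haD : a ∈ Dm N ψ := by
    have := Dm_add hψ (hDk 0) (hbD 0)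
    rwa [sub_add_cancel] at this
  refine ⟨haD, ?_⟩
  have hn : ∀ k, ‖Λ a - Λ (b k)‖ ^ 2 ≤ (1 / 2) ^ k := by
    intro k
    rw [← (hdiff _ haD _ (hbD k)).2, hG.norm _ (hDk k)]
    exact ENNReal.toReal_le_of_le_ofReal (by positivity) (hmain k)
  have hL1 : Tendsto (fun k => Λ (b k)) atTop (𝓝 (Λ a)) := by
    rw [tendsto_iff_norm_sub_tendsto_zero]
    have e1 : Tendsto (fun k : ℕ => √(((1 : ℝ) / 2) ^ k)) atTop (𝓝 0) := by
      have := tendsto_pow_atTop_nhds_zero_of_lt_one (r := (1 : ℝ) / 2) (by norm_num)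
        (by norm_num)
      have h := (Real.continuous_sqrt.tendsto 0).comp this
      rw [Real.sqrt_zero] at h
      exact h
    refine squeeze_zero (fun n => norm_nonneg _) (fun n => ?_) e1
    rw [norm_sub_rev]
    exact Real.le_sqrt_of_sq_le (hn n)
  have hL2 : Tendsto (fun k => Λ (b k)) atTop (𝓝 p.2) := by
    rw [tendsto_iff_norm_sub_tendsto_zero]
    refine squeeze_zero (fun n => norm_nonneg _) (fun n => ?_) hpow
    rw [norm_sub_rev]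
    exact hLd n
  exact tendsto_nhds_unique hL2 hL1

theorem Gp_zero (Sb : Sub N ξ i κ) (hsep : ∀ a ∈ N, a ξ = 0 → a = 0) (hψ : IsNSFWeight N ψ)
    (hG : Gns N ψ Λ ρ) {w : L} (hw : ((0, w) : K × L) ∈ closure (Gp N ψ ξ i Λ)) : w = 0 := by
  have h := Gp_snd Sb hsep hψ hG hw (a := 0) (zero_mem N) (by simp)
  have h2 := hG.smul 0 0 h.1
  rw [zero_smul, zero_smul] at h2
  rw [← h2]
  exact h.2

end Pool.Agent.Helper23.ED

end

end

section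

section

open scoped InnerProductSpace Topology ENNReal BoundedContinuousFunction

open ContinuousLinearMap Filter MeasureTheory

namespace Pool.Agent.Helper23.ED

open Pool.Agent.Helper23 Pool.Agent.Helper23.RBF

open Pool.Agent.Helper78.BC.Transport (Sub r)

universe u

variable {H : Type u} [NormedAddCommGroup H] [InnerProductSpace ℂ H] [CompleteSpace H]

variable {K : Type u} [NormedAddCommGroup K] [InnerProductSpace ℂ K] [CompleteSpace K]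

variable {L : Type u} [NormedAddCommGroup L] [InnerProductSpace ℂ L] [CompleteSpace L]

variable {N : VonNeumannAlgebra H} {ψ : (H →L[ℂ] H) → ℝ≥0∞} {ξ : H} {i : K →L[ℂ] H} {κ : K}
  {Λ : (H →L[ℂ] H) → L} {ρ : (H →L[ℂ] H) → (L →L[ℂ] L)}

theorem scal_iff' (Sb : Sub N ξ i κ) (hsep : ∀ a ∈ N, a ξ = 0 → a = 0)
    (hψ : IsNSFWeight N ψ) (hG : Gns N ψ Λ ρ) {T : K →L[ℂ] K} {S : K →L[ℂ] L}
    {Ψ : (ℝ →ᵇ ℂ) →⋆ₐ[ℂ] (K →L[ℂ] K)} (hT : GT (Gp N ψ ξ i Λ) T S)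
    (hΨ : FCal ((2 : ℂ) • T) Ψ) {u : H →L[ℂ] H} (hu : u ∈ N)
    (h1 : star u * u = 1) (h2 : u * star u = 1) {l : ℝ} (hl : 0 < l) :
    (∀ x ∈ N, 0 ≤ x → ψ (star u * x * u) = ENNReal.ofReal l * ψ x) ↔
      ∀ t, r i u * Ψ (expB t) = ph t (Real.log l) • (Ψ (expB t) * r i u) := by
  obtain ⟨Γ, hΓ⟩ := Gp_sub Sb hψ hG
  have hT' : GT (Γ : Set (K × L)) T S := by rw [hΓ]; exact hT
  have mΓ : ∀ v w, ((v, w) : K × L) ∈ Γ ↔ ∃ a ∈ Dm N ψ, i v = a ξ ∧ w = Λ a := by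
    intro v w
    have : ((v, w) : K × L) ∈ (Γ : Set (K × L)) ↔ ((v, w) : K × L) ∈ Gp N ψ ξ i Λ := by rw [hΓ]
    exact this
  have hus : star u ∈ N := star_mem hu
  set U : K →L[ℂ] K := r i u with hU
  have hUs : star U = r i (star u) := Pool.Agent.Helper78.BC.Transport.Sub.r_star u
  have hU1 : star U * U = 1 := by rw [hUs, hU, Sb.r_mul hus, h1, Sb.r_one]
  have hU2 : U * star U = 1 := by rw [hUs, hU, Sb.r_mul hu, h2, Sb.r_one]
  have hUU1 : ∀ v, (star U) (U v) = v := fun v => by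
    have := congrArg (fun A : K →L[ℂ] K => A v) hU1
    simpa using this
  have hUU2 : ∀ v, U ((star U) v) = v := fun v => by
    have := congrArg (fun A : K →L[ℂ] K => A v) hU2
    simpa using this
  have hiU : ∀ v, i (U v) = u (i v) := fun v => Sb.i_r hu v
  have hiUs : ∀ v, i ((star U) v) = star u (i v) := fun v => by rw [hUs]; exact Sb.i_r hus v
  have hc0 : 0 < Real.sqrt l := Real.sqrt_pos.2 hl
  set c : ℝ := Real.sqrt l with hc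
  have hcc : c ^ 2 = l := Real.sq_sqrt hl.le
  have hcC : (c : ℂ) ≠ 0 := by exact_mod_cast hc0.ne'
  -- the two graphs
  set Γ₁ : Submodule ℂ (K × L) := Γ.comap
    (((star U : K →L[ℂ] K) : K →ₗ[ℂ] K).prodMap (LinearMap.id : L →ₗ[ℂ] L)) with hΓ₁
  set Γ₂ : Submodule ℂ (K × L) := Γ.comap
    ((LinearMap.id : K →ₗ[ℂ] K).prodMap ((c : ℂ)⁻¹ • (LinearMap.id : L →ₗ[ℂ] L))) with hΓ₂
  have m1 : ∀ v w, ((v, w) : K × L) ∈ Γ₁ ↔ (((star U) v, w) : K × L) ∈ Γ := fun v w => Iff.rfl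
  have m2 : ∀ v w, ((v, w) : K × L) ∈ Γ₂ ↔ ((v, (c : ℂ)⁻¹ • w) : K × L) ∈ Γ :=
    fun v w => Iff.rfl
  obtain ⟨T₁, S₁, hT₁⟩ := exists_GT Γ₁
  obtain ⟨T₂, S₂, hT₂⟩ := exists_GT Γ₂
  have e1 : T₁ = U * T * star U := GT.conj hT' hT₁ hU1 hU2 fun v w => by rw [m1, hUU1]
  have e2 : ∀ v, T₂ (T v + (l : ℂ) • (v - T v)) = T v := by
    intro v
    have := GT.scale hT' hT₂ hc0 (fun v w => by
      rw [m2, smul_smul, inv_mul_cancel₀ hcC, one_smul]) v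
    rwa [hcc] at this
  -- closures of the graphs
  have cl1 : ∀ {v w}, ((v, w) : K × L) ∈ closure (Γ₁ : Set (K × L)) →
      (((star U) v, w) : K × L) ∈ closure (Gp N ψ ξ i Λ) := by
    intro v w h
    rw [← hΓ]
    have := NgE_closure (A := (Γ₁ : Set (K × L))) (B := (Γ : Set (K × L)))
      (star U) (ContinuousLinearMap.id ℂ L)
      (fun p hp => subset_closure ((m1 p.1 p.2).1 hp)) h
    simpa using this
  have cl2 : ∀ {v w}, ((v, w) : K × L) ∈ closure (Γ₂ : Set (K × L)) →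
      ((v, (c : ℂ)⁻¹ • w) : K × L) ∈ closure (Gp N ψ ξ i Λ) := by
    intro v w h
    rw [← hΓ]
    have := NgE_closure (A := (Γ₂ : Set (K × L))) (B := (Γ : Set (K × L)))
      (ContinuousLinearMap.id ℂ K) ((c : ℂ)⁻¹ • ContinuousLinearMap.id ℂ L)
      (fun p hp => subset_closure ((m2 p.1 p.2).1 hp)) h
    simpa using this
  have z1 : ∀ w : L, ((0, w) : K × L) ∈ closure (Γ₁ : Set (K × L)) → w = 0 := by
    intro w hw
    have := cl1 hw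
    rw [map_zero] at this
    exact Gp_zero Sb hsep hψ hG this
  have z2 : ∀ w : L, ((0, w) : K × L) ∈ closure (Γ₂ : Set (K × L)) → w = 0 := by
    intro w hw
    have := Gp_zero Sb hsep hψ hG (cl2 hw)
    exact (smul_eq_zero.1 this).resolve_left (inv_ne_zero hcC)
  -- norms
  have hn : ∀ a ∈ Dm N ψ, ENNReal.ofReal (‖Λ a‖ ^ 2) = ψ (a * star a) := by
    intro a ha
    rw [hG.norm a ha, ENNReal.ofReal_toReal ha.2]
  -- the weight
  have hmain : (∀ x ∈ N, 0 ≤ x → ψ (star u * x * u) = ENNReal.ofReal l * ψ x) ↔ T₁ = T₂ := by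
    have hl0 : ENNReal.ofReal l ≠ 0 := by
      rw [Ne, ENNReal.ofReal_eq_zero, not_le]; exact hl
    constructor
    · intro hx
      have ha1 : ∀ a ∈ N, ψ (a * star a) = ENNReal.ofReal l * ψ ((u * a) * star (u * a)) := by
        intro a ha
        have h3 := hx ((u * a) * star (u * a)) (mul_mem (mul_mem hu ha) (star_mem (mul_mem hu ha)))
          (mul_star_self_nonneg _)
        rw [← h3]
        congr 1
        rw [star_mul]
        calc a * star a = (star u * u) * a * star a * (star u * u) := by rw [h1]; simp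
          _ = star u * (u * a * (star a * star u)) * u := by simp only [mul_assoc]
      refine T_unique hT₁ hT₂ ?_ ?_ ?_
      · rintro ⟨v, w⟩ hp
        obtain ⟨a, ha, hia, rfl⟩ := (mΓ _ _).1 ((m1 v w).1 hp)
        have hD : u * a ∈ Dm N ψ := by
          refine ⟨mul_mem hu ha.1, fun h3 => ha.2 ?_⟩
          rw [ha1 a ha.1, h3, ENNReal.mul_top hl0]
        refine ⟨(v, (c : ℂ) • Λ (u * a)), ?_, rfl⟩
        rw [m2, smul_smul, inv_mul_cancel₀ hcC, one_smul, mΓ]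
        refine ⟨u * a, hD, ?_, rfl⟩
        rw [← hUU2 v, hiU, hia]
        rfl
      · rintro ⟨v, w⟩ hp
        obtain ⟨b, hb, hib, hw⟩ := (mΓ _ _).1 ((m2 v w).1 hp)
        have hD : star u * b ∈ Dm N ψ := by
          refine ⟨mul_mem hus hb.1, ?_⟩
          have h3 := ha1 (star u * b) (mul_mem hus hb.1)
          rw [← mul_assoc u, h2, one_mul] at h3
          rw [h3]
          exact ENNReal.mul_ne_top ENNReal.ofReal_ne_top hb.2
        refine ⟨(v, Λ (star u * b)), ?_, rfl⟩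
        rw [m1, mΓ]
        refine ⟨star u * b, hD, ?_, rfl⟩
        rw [hiUs, hib]
        rfl
      · rintro ⟨v, w⟩ hp ⟨v', w'⟩ hq hvv
        obtain rfl : v = v' := hvv
        obtain ⟨a, ha, hia, rfl⟩ := (mΓ _ _).1 ((m1 v w).1 hp)
        obtain ⟨b, hb, hib, hw⟩ := (mΓ _ _).1 ((m2 v w').1 hq)
        have hab : b = u * a := by
          refine sub_eq_zero.1 (hsep _ (sub_mem hb.1 (mul_mem hu ha.1)) ?_)
          rw [sub_apply, sub_eq_zero, ← hib, ← hUU2 v, hiU, hia]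
          rfl
        have hw' : w' = (c : ℂ) • Λ b := by
          rw [← hw, smul_smul, mul_inv_cancel₀ hcC, one_smul]
        have h3 := ha1 a ha.1
        rw [← hab, ← hn a ha, ← hn b hb, ← ENNReal.ofReal_mul hl.le,
          ENNReal.ofReal_eq_ofReal_iff (by (clear * -; positivity)) (by (clear * - hl; positivity))] at h3
        change ‖Λ a‖ = ‖w'‖
        have h4 : ‖w'‖ ^ 2 = l * ‖Λ b‖ ^ 2 := by
          rw [hw', norm_smul, mul_pow, Complex.norm_real, Real.norm_eq_abs, sq_abs, hcc]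
        refine (pow_left_inj₀ (norm_nonneg _) (norm_nonneg _) two_ne_zero).1 ?_
        rw [h3, h4]
    · intro hTT x hx hx0
      have hT₂' : GT (Γ₂ : Set (K × L)) T₁ S₂ := by rw [hTT]; exact hT₂
      have A1 : ∀ a ∈ Dm N ψ, u * a ∈ Dm N ψ := by
        intro a ha
        have hia : i (r i a κ) = a ξ := by rw [Sb.i_r ha.1, Sb.vec]
        have hp : ((U (r i a κ), Λ a) : K × L) ∈ Γ₁ := by
          rw [m1, hUU1, mΓ]
          exact ⟨a, ha, hia, rfl⟩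
        obtain ⟨w, hw, _⟩ := exists_of_T_eq hT₁ hT₂' z1 (subset_closure hp)
        exact (Gp_snd Sb hsep hψ hG (cl2 hw) (mul_mem hu ha.1) (by
          change i (U (r i a κ)) = _
          rw [hiU, hia]
          rfl)).1
      have A2 : ∀ b ∈ Dm N ψ, star u * b ∈ Dm N ψ ∧
          ψ ((star u * b) * star (star u * b)) = ENNReal.ofReal l * ψ (b * star b) := by
        intro b hb
        have hib : i (r i b κ) = b ξ := by rw [Sb.i_r hb.1, Sb.vec]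
        have hp : ((r i b κ, (c : ℂ) • Λ b) : K × L) ∈ Γ₂ := by
          rw [m2, smul_smul, inv_mul_cancel₀ hcC, one_smul, mΓ]
          exact ⟨b, hb, hib, rfl⟩
        obtain ⟨w, hw, hwn⟩ := exists_of_T_eq hT₂' hT₁ z2 (subset_closure hp)
        obtain ⟨h3, h4⟩ := Gp_snd Sb hsep hψ hG (cl1 hw) (mul_mem hus hb.1) (by
          change i ((star U) (r i b κ)) = _
          rw [hiUs, hib]
          rfl)
        refine ⟨h3, ?_⟩
        rw [← hn _ h3, ← hn _ hb, ← ENNReal.ofReal_mul hl.le]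
        congr 1
        have h4' : w = Λ (star u * b) := h4
        have hwn' : ‖w‖ = ‖(c : ℂ) • Λ b‖ := hwn
        rw [← h4', hwn', norm_smul, mul_pow, Complex.norm_real, Real.norm_eq_abs, sq_abs, hcc]
      obtain ⟨Y, hY, hYY⟩ := exists_sqrt_mem N hx hx0
      have hsN : star Y ∈ N := star_mem hY
      have hss : star Y * star (star Y) = x := by rw [star_star]; exact hYY
      have huu : (star u * star Y) * star (star u * star Y) = star u * x * u := by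
        rw [← hss]
        simp only [star_mul, star_star, mul_assoc]
      by_cases hfin : ψ x = ⊤
      · rw [hfin, ENNReal.mul_top hl0]
        by_contra hne
        have h3 : star u * star Y ∈ Dm N ψ := ⟨mul_mem hus hsN, by rw [huu]; exact hne⟩
        have h4 := (A1 _ h3).2
        rw [← mul_assoc u, h2, one_mul, hss] at h4
        exact h4 hfin
      · have h3 : star Y ∈ Dm N ψ := ⟨hsN, by rw [hss]; exact hfin⟩
        have h4 := (A2 _ h3).2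
        rw [huu, hss] at h4
        exact h4
  rw [hmain]
  -- the functional calculus
  obtain ⟨Ψ', hΨ', hΨG⟩ := hΨ.conj hU1 hU2
  have hR' : U * ((2 : ℂ) • T) * star U = (2 : ℂ) • T₁ := by
    rw [e1, mul_smul_comm, smul_mul_assoc]
  rw [hR'] at hΨ'
  have key := FCal.scale_iff hΨ hΨ' hl
  have hk1 : T₁ = T₂ ↔ ∀ v, T₁ (T v + (l : ℂ) • (v - T v)) = T v := by
    constructor
    · intro h v
      rw [h, e2]
    · intro h
      exact NgE_eq hT'.T_star hT₁.T_star hT₂.T_star hT'.T_nonneg hT'.T_le hl fun v => by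
        rw [h, e2]
  have hk2 : (∀ v, T₁ (T v + (l : ℂ) • (v - T v)) = T v) ↔
      ∀ v, ((2 : ℂ) • T₁) (((2 : ℂ) • T) v + (l : ℂ) • ((2 : ℂ) • v - ((2 : ℂ) • T) v)) =
        (2 : ℂ) • ((2 : ℂ) • T) v := by
    refine forall_congr' fun v => ?_
    have h3 : ((2 : ℂ) • T) v + (l : ℂ) • ((2 : ℂ) • v - ((2 : ℂ) • T) v) =
        (2 : ℂ) • (T v + (l : ℂ) • (v - T v)) := by
      rw [smul_apply, ← smul_sub, smul_add, smul_comm (l : ℂ) (2 : ℂ)]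
    rw [h3, smul_apply, map_smul, smul_apply]
    constructor
    · intro h; rw [h]
    · intro h
      have h4 : Function.Injective fun x : K => (2 : ℂ) • x := smul_right_injective K two_ne_zero
      exact h4 (h4 h)
  rw [hk1, hk2, key]
  refine forall_congr' fun t => ?_
  rw [hΨG]
  constructor
  · intro h
    have h3 := congrArg (fun A => A * U) h
    simp only [mul_assoc, hU1, mul_one, smul_mul_assoc] at h3
    exact h3
  · intro h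
    rw [h, smul_mul_assoc, mul_assoc, hU2, mul_one]

end Pool.Agent.Helper23.ED

end

end

section

section

open scoped InnerProductSpace Topology

open ContinuousLinearMap Filter

namespace Pool.Agent.Helper23

universe u

variable {H : Type u} [NormedAddCommGroup H] [InnerProductSpace ℂ H] [CompleteSpace H]

variable {M N : VonNeumannAlgebra H} {ξ : H} {E : (H →L[ℂ] H) → (H →L[ℂ] H)}

lemma avK_state {x z : H →L[ℂ] H} (hx : x ∈ N) {d : ℝ} (hd : 0 ≤ d)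
    (hz : z ∈ avK N ξ x d) : ‖⟪ξ, z ξ⟫_ℂ - ⟪ξ, x ξ⟫_ℂ‖ ≤ d * ‖x‖ := by
  have hconv : Convex ℝ {z : H →L[ℂ] H | ‖⟪ξ, z ξ⟫_ℂ - ⟪ξ, x ξ⟫_ℂ‖ ≤ d * ‖x‖} := by
    intro a ha b hb s t hs ht hst
    change ‖⟪ξ, (s • a + t • b) ξ⟫_ℂ - ⟪ξ, x ξ⟫_ℂ‖ ≤ d * ‖x‖
    have e1 : ⟪ξ, (s • a + t • b) ξ⟫_ℂ - ⟪ξ, x ξ⟫_ℂ =
        (s : ℂ) * (⟪ξ, a ξ⟫_ℂ - ⟪ξ, x ξ⟫_ℂ) + (t : ℂ) * (⟪ξ, b ξ⟫_ℂ - ⟪ξ, x ξ⟫_ℂ) := by
      have e2 : (s • a + t • b) ξ = (s : ℂ) • a ξ + (t : ℂ) • b ξ := by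
        change s • a ξ + t • b ξ = _
        rw [Complex.coe_smul, Complex.coe_smul]
      rw [e2, inner_add_right, inner_smul_right, inner_smul_right]
      have e3 : (s : ℂ) + (t : ℂ) = 1 := by rw [← Complex.ofReal_add, hst, Complex.ofReal_one]
      linear_combination ⟪ξ, x ξ⟫_ℂ * e3
    rw [e1]
    have ha' : ‖⟪ξ, a ξ⟫_ℂ - ⟪ξ, x ξ⟫_ℂ‖ ≤ d * ‖x‖ := ha
    have hb' : ‖⟪ξ, b ξ⟫_ℂ - ⟪ξ, x ξ⟫_ℂ‖ ≤ d * ‖x‖ := hb
    calc ‖(s : ℂ) * (⟪ξ, a ξ⟫_ℂ - ⟪ξ, x ξ⟫_ℂ) + (t : ℂ) * (⟪ξ, b ξ⟫_ℂ - ⟪ξ, x ξ⟫_ℂ)‖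
        ≤ ‖(s : ℂ) * (⟪ξ, a ξ⟫_ℂ - ⟪ξ, x ξ⟫_ℂ)‖ + ‖(t : ℂ) * (⟪ξ, b ξ⟫_ℂ - ⟪ξ, x ξ⟫_ℂ)‖ :=
          norm_add_le _ _
      _ ≤ s * (d * ‖x‖) + t * (d * ‖x‖) := by
          rw [norm_mul, norm_mul, Complex.norm_real, Complex.norm_real,
            Real.norm_of_nonneg hs, Real.norm_of_nonneg ht]
          (clear * - ha' hs hb' ht; gcongr)
      _ = d * ‖x‖ := by rw [← add_mul, hst, one_mul]
  have hsub : avG N ξ x d ⊆ {z : H →L[ℂ] H | ‖⟪ξ, z ξ⟫_ℂ - ⟪ξ, x ξ⟫_ℂ‖ ≤ d * ‖x‖} := by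
    rintro _ ⟨u, hu, g1, g2, g3, rfl⟩
    have h1 := g3 (star u * x) (mul_mem (star_mem hu) hx)
    have e1 : u ((star u * x) ξ) = x ξ := congrArg (fun T : H →L[ℂ] H => T (x ξ)) g2
    rw [e1, Complex.ofReal_one, one_mul] at h1
    refine h1.trans ?_
    gcongr
    calc ‖star u * x‖ ≤ ‖star u‖ * ‖x‖ := norm_mul_le _ _
      _ ≤ 1 * ‖x‖ := by gcongr; rw [norm_star]; exact norm_le_one_of_isom g1
      _ = ‖x‖ := one_mul _
  exact convexHull_min hsub hconv hz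

end Pool.Agent.Helper23

end

end

section

section

open scoped InnerProductSpace

open ContinuousLinearMap Filter

namespace Pool.Agent.Helper23

variable {H : Type*} [NormedAddCommGroup H] [InnerProductSpace ℂ H] [CompleteSpace H]

variable {M N : VonNeumannAlgebra H} {ξ : H} {E : (H →L[ℂ] H) → (H →L[ℂ] H)}

namespace AP

variable (S : AP M N E ξ)

include S

lemma inner_NNQ {y z a b : H →L[ℂ] H} (hy : y ∈ Qalg M N ξ)
    (hz : z ∈ Qalg M N ξ) (ha : a ∈ N) (hb : b ∈ N) :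
    ⟪a (y ξ), b (z ξ)⟫_ℂ = ⟪y ξ, z ξ⟫_ℂ * ⟪a ξ, b ξ⟫_ℂ := by
  have h := S.inner_NQ hy hz (mul_mem (star_mem ha) hb)
  change ⟪y ξ, (star a) (b (z ξ))⟫_ℂ = ⟪y ξ, z ξ⟫_ℂ * ⟪ξ, (star a) (b ξ)⟫_ℂ at h
  rwa [inner_star_right, inner_star_right] at h

lemma norm_NQ {z a : H →L[ℂ] H} (hz : z ∈ Qalg M N ξ) (ha : a ∈ N) :
    ‖a (z ξ)‖ = ‖z ξ‖ * ‖a ξ‖ := by
  have h := S.inner_NNQ hz hz ha ha
  rw [inner_self_eq_norm_sq_to_K, inner_self_eq_norm_sq_to_K, inner_self_eq_norm_sq_to_K] at h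
  have h2 : ‖a (z ξ)‖ ^ 2 = (‖z ξ‖ * ‖a ξ‖) ^ 2 := by
    rw [mul_pow]
    exact_mod_cast h
  exact (pow_left_inj₀ (norm_nonneg _) (by positivity) two_ne_zero).1 h2

end AP

end Pool.Agent.Helper23

end

section

set_option linter.unusedSectionVars false

open scoped InnerProductSpace Topology

open ContinuousLinearMap Filter

namespace Pool.Agent.Helper53.PG

open Pool.Agent.Helper23

universe u v

variable {H : Type u} [NormedAddCommGroup H] [InnerProductSpace ℂ H] [CompleteSpace H]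

variable {M N : VonNeumannAlgebra H} {ξ : H} {E : (H →L[ℂ] H) → (H →L[ℂ] H)}

theorem smoothing'_of (S : AP M N E ξ) {y : H →L[ℂ] H} {κ K : ℝ} (hκ : 0 < κ) (hK : 0 ≤ K)
    (hsm : SmoothStmt.{u, v} M N ξ y κ K) {ι : Type v} [Fintype ι] {c c' : ι → H →L[ℂ] H}
    (hc : ∀ l, Partner N ξ (c l) (c' l)) {G t : ℝ} (hG : 0 < G) (ht : 0 < t) (ht1 : t < 1)
    (hm : ∑ l, ‖c l ξ‖ ^ 2 ≤ G) (hδ : ∑ l, ‖(c' l - c l) ξ‖ ^ 2 ≤ 25 * t ^ 2 * G)
    {n : ℕ} (hn : 0 < n) (hnδ : K * ((1 + 2 * t ^ 2) ^ n - 1) ≤ κ) :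
    ∃ z ∈ Qalg M N ξ, ‖(z - y) ξ‖ ^ 2 ≤ 2 * κ ∧
      ∑ l, ‖(z * c l - c l * z) ξ‖ ^ 2 ≤ 96 * G * κ / n := by
  have hδ' : 30 * t ^ 2 * G / (2 * (12 * G)) ≤ 2 * t ^ 2 := by
    rw [div_le_iff₀ (by positivity)]
    (clear * - ht hG; nlinarith [mul_pos (pow_pos ht 2) hG])
  have hnδ' : K * ((1 + 30 * t ^ 2 * G / (2 * (12 * G))) ^ n - 1) ≤ κ := by
    refine le_trans (mul_le_mul_of_nonneg_left ?_ hK) hnδ
    have : (1 + 30 * t ^ 2 * G / (2 * (12 * G))) ^ n ≤ (1 + 2 * t ^ 2) ^ n :=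
      pow_le_pow_left₀ (by (clear * - ht hG; positivity)) (by (clear * - hδ'; linarith)) n
    (clear * - this; linarith)
  have h96 : 8 * (12 * G) * κ / n = 96 * G * κ / n := by ring
  set β : ℝ := ∑ l, (‖(star (c l)) ξ‖ ^ 2 - ‖c l ξ‖ ^ 2) with hβ
  have hb : ∑ l, ⟪c l ξ, (c' l - c l) ξ⟫_ℂ = (β : ℂ) := by
    rw [hβ, Complex.ofReal_sum]
    exact Finset.sum_congr rfl fun l _ => inner_real (hc l)
  by_cases hβ0 : β = 0
  · obtain ⟨z, hz, h1, h2⟩ := hsm ι c c' hc (12 * G) (30 * t ^ 2 * G) (by positivity)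
      (by (clear * - hG hm; linarith)) (by (clear * - hδ ht hG; nlinarith [mul_pos (pow_pos ht 2) hG])) (by rw [hb, hβ0]; simp) n hn hnδ'
    exact ⟨z, hz, h1, by rw [← h96]; exact h2⟩
  -- the bound for `β`
  have hβ1 : |β| ≤ 5 * t * G := by
    have h1 : |β| = ‖∑ l, ⟪c l ξ, (c' l - c l) ξ⟫_ℂ‖ := by
      rw [hb, Complex.norm_real, Real.norm_eq_abs]
    have h2 : ‖∑ l, ⟪c l ξ, (c' l - c l) ξ⟫_ℂ‖ ≤ ∑ l, ‖c l ξ‖ * ‖(c' l - c l) ξ‖ :=
      (norm_sum_le _ _).trans (Finset.sum_le_sum fun l _ => norm_inner_le_norm _ _)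
    have h3 : (∑ l, ‖c l ξ‖ * ‖(c' l - c l) ξ‖) ^ 2 ≤
        (∑ l, ‖c l ξ‖ ^ 2) * ∑ l, ‖(c' l - c l) ξ‖ ^ 2 :=
      Finset.sum_mul_sq_le_sq_mul_sq _ _ _
    have h4 : (∑ l, ‖c l ξ‖ ^ 2) * ∑ l, ‖(c' l - c l) ξ‖ ^ 2 ≤ G * (25 * t ^ 2 * G) :=
      mul_le_mul hm hδ (Finset.sum_nonneg fun _ _ => by (clear * -; positivity)) hG.le
    have h5 : (∑ l, ‖c l ξ‖ * ‖(c' l - c l) ξ‖) ≤ 5 * t * G := by
      refine abs_le_of_sq_le_sq' ?_ (by positivity) |>.2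
      calc _ ≤ _ := h3
        _ ≤ _ := h4
        _ = _ := by ring
    rw [h1]
    exact h2.trans h5
  -- the sign
  set s : ℝ := if 0 < β then -1 else 1 with hs
  have hs1 : s = 1 ∨ s = -1 := by
    rw [hs]; split_ifs <;> simp
  have hsβ : s * |β| = -β := by
    rw [hs]
    split_ifs with h
    · rw [abs_of_pos h]; ring
    · rw [abs_of_nonpos (not_lt.1 h)]; ring
  obtain ⟨γ, hγ, w, hw, hw0, hg1, hg2⟩ := exists_gamma S ht ht1 s hs1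
  have hss : s * s = 1 := by rcases hs1 with h | h <;> rw [h] <;> norm_num
  set e : ℝ := s * (γ⁻¹ - 1) with he
  have he0 : 0 < e := lt_trans (by (clear * - ht; positivity)) hg1
  have hge : γ⁻¹ - 1 = s * e := by rw [he, ← mul_assoc, hss, one_mul]
  have hwN : w ∈ N := hw.1
  have hwξ : 0 < ‖w ξ‖ := by
    rw [norm_pos_iff]
    intro h
    exact hw0 (S.sep w (S.le w hwN) h)
  set q : ℝ := |β| / (e * ‖w ξ‖ ^ 2) with hq
  have hq0 : 0 ≤ q := by (clear * - hβ0 he0 hwξ; positivity)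
  set lam : ℝ := Real.sqrt q with hlam
  have hlam2 : lam ^ 2 = q := Real.sq_sqrt hq0
  have hqe : q * ‖w ξ‖ ^ 2 * e = |β| := by
    rw [hq]
    (clear * - he0 hwξ hβ0; field_simp)
  have hqm : q * ‖w ξ‖ ^ 2 ≤ 10 * G := by
    have h1 : q * ‖w ξ‖ ^ 2 * e ≤ 10 * G * e := by
      rw [hqe]
      refine hβ1.trans ?_
      (clear * - hG hg1; nlinarith)
    exact le_of_mul_le_mul_right h1 he0
  -- the extended family
  set d : Option ι → H →L[ℂ] H := fun o => o.elim ((lam : ℂ) • w) c with hd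
  set d' : Option ι → H →L[ℂ] H :=
    fun o => o.elim ((lam : ℂ) • (((γ⁻¹ : ℝ) : ℂ) • w)) c' with hd'
  have hdp : ∀ o, Partner N ξ (d o) (d' o) := by
    intro o
    cases o with
    | none => exact (Partner.of_eig hγ.ne' hw).smul _
    | some l => exact hc l
  have hdn : ‖d none ξ‖ ^ 2 = q * ‖w ξ‖ ^ 2 := by
    change ‖((lam : ℂ) • w) ξ‖ ^ 2 = _
    rw [smul_apply, norm_smul, mul_pow, Complex.norm_real, Real.norm_eq_abs, sq_abs, hlam2]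
  have hdd : (d' none - d none) ξ = ((lam * (s * e) : ℝ) : ℂ) • w ξ := by
    change ((lam : ℂ) • (((γ⁻¹ : ℝ) : ℂ) • w) - (lam : ℂ) • w) ξ = _
    rw [← hge]
    simp only [sub_apply, smul_apply, smul_smul]
    rw [← sub_smul]
    congr 1
    push_cast
    ring
  have hddn : ‖(d' none - d none) ξ‖ ^ 2 = |β| * e := by
    rw [hdd, norm_smul, mul_pow, Complex.norm_real, Real.norm_eq_abs, sq_abs]
    have : (lam * (s * e)) ^ 2 = q * e ^ 2 := by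
      rw [mul_pow, hlam2, mul_pow, sq s, hss, one_mul]
    rw [this, ← hqe]
    ring
  have hinn : ⟪d none ξ, (d' none - d none) ξ⟫_ℂ = ((-β : ℝ) : ℂ) := by
    rw [hdd]
    change ⟪((lam : ℂ) • w) ξ, _⟫_ℂ = _
    rw [smul_apply, inner_smul_left, inner_smul_right, inner_self_eq_norm_sq_to_K,
      Complex.conj_ofReal, ← hsβ, ← hqe, ← hlam2]
    push_cast
    rw [show ((RCLike.ofReal ‖w ξ‖ : ℂ)) = ((‖w ξ‖ : ℝ) : ℂ) from rfl]
    ring
  obtain ⟨z, hz, h1, h2⟩ := hsm (Option ι) d d' hdp (12 * G) (30 * t ^ 2 * G) (by (clear * - hG; positivity))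
    (by
      rw [Fintype.sum_option, hdn]
      have : ∑ l, ‖d (some l) ξ‖ ^ 2 ≤ G := hm
      (clear * - hG hqm this; linarith))
    (by
      rw [Fintype.sum_option, hddn]
      have h3 : ∑ l, ‖(d' (some l) - d (some l)) ξ‖ ^ 2 ≤ 25 * t ^ 2 * G := hδ
      have h4 : |β| * e ≤ 5 * t * G * t :=
        mul_le_mul hβ1 hg2.le he0.le (by positivity)
      (clear * - h3 h4; nlinarith))
    (by
      rw [Fintype.sum_option, hinn]
      have h3 : ∑ l, ⟪d (some l) ξ, (d' (some l) - d (some l)) ξ⟫_ℂ = (β : ℂ) := hb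
      rw [h3, ← Complex.ofReal_add]
      simp) n hn hnδ'
  refine ⟨z, hz, h1, ?_⟩
  rw [h96, Fintype.sum_option] at h2
  refine le_trans ?_ h2
  exact le_add_of_nonneg_left (by (clear * -; positivity))

end Pool.Agent.Helper53.PG

end

section

open scoped InnerProductSpace Topology

open ContinuousLinearMap Filter

namespace Pool.Agent.Helper23

variable {H : Type*} [NormedAddCommGroup H] [InnerProductSpace ℂ H] [CompleteSpace H]

variable {M N : VonNeumannAlgebra H} {ξ : H} {E : (H →L[ℂ] H) → (H →L[ℂ] H)}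

namespace AP

variable (S : AP M N E ξ)

include S

variable {ι : Type*} [Fintype ι] {c c' : ι → H →L[ℂ] H}

lemma norm_inner_smPhi (hc : ∀ l, c l ∈ N) {q z : H →L[ℂ] H} (hq : q ∈ Qalg M N ξ)
    (hz : z ∈ Qalg M N ξ) :
    ‖⟪q ξ, smPhi M N ξ c z ξ⟫_ℂ‖ ≤ (∑ l, ‖c l ξ‖ ^ 2) * (‖q ξ‖ * ‖z ξ‖) := by
  rw [S.inner_smPhi hc hq hz, Finset.sum_mul]
  refine (norm_sum_le _ _).trans (Finset.sum_le_sum fun l _ => ?_)
  refine (norm_inner_le_norm _ _).trans ?_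
  rw [S.norm_NQ hq (hc l), S.norm_Q S.irr hz (hc l)]
  apply le_of_eq
  ring

lemma norm_smPhi (hc : ∀ l, c l ∈ N) {z : H →L[ℂ] H}
    (hz : z ∈ Qalg M N ξ) :
    ‖smPhi M N ξ c z ξ‖ ≤ (∑ l, ‖c l ξ‖ ^ 2) * ‖z ξ‖ := by
  have h := S.norm_inner_smPhi hc (S.smPhi_mem hc hz) hz
  rw [inner_self_eq_norm_sq_to_K] at h
  have h4 : ‖((‖smPhi M N ξ c z ξ‖ : ℂ)) ^ 2‖ = ‖smPhi M N ξ c z ξ‖ ^ 2 := by simp
  have h5 : ‖smPhi M N ξ c z ξ‖ ^ 2 ≤
      (∑ l, ‖c l ξ‖ ^ 2) * (‖smPhi M N ξ c z ξ‖ * ‖z ξ‖) := by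
    rw [← h4]; exact h
  rcases eq_or_lt_of_le (norm_nonneg (smPhi M N ξ c z ξ)) with h0 | h0
  · rw [← h0]; (clear * -; positivity)
  · have h6 : ‖smPhi M N ξ c z ξ‖ * ‖smPhi M N ξ c z ξ‖ ≤
        ‖smPhi M N ξ c z ξ‖ * ((∑ l, ‖c l ξ‖ ^ 2) * ‖z ξ‖) := by
      calc _ = ‖smPhi M N ξ c z ξ‖ ^ 2 := by ring
        _ ≤ _ := h5
        _ = _ := by ring
    exact le_of_mul_le_mul_left h6 h0

/-- the commutator sum through `smPhi` -/
lemma comm_sum (hc : ∀ l, c l ∈ N) {z : H →L[ℂ] H} (hz : z ∈ Qalg M N ξ) :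
    ∑ l, ‖(z * c l - c l * z) ξ‖ ^ 2 =
      2 * (∑ l, ‖c l ξ‖ ^ 2) * ‖z ξ‖ ^ 2 - 2 * (⟪z ξ, smPhi M N ξ c z ξ⟫_ℂ).re := by
  rw [S.inner_smPhi hc hz hz, Complex.re_sum, Finset.mul_sum, Finset.mul_sum, Finset.sum_mul,
    ← Finset.sum_sub_distrib]
  refine Finset.sum_congr rfl fun l _ => ?_
  have e1 : (z * c l - c l * z) ξ = z (c l ξ) - c l (z ξ) := rfl
  rw [e1, norm_sub_rev, norm_sub_sq_re, S.norm_NQ hz (hc l), S.norm_Q S.irr hz (hc l)]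
  ring

/-- dissipation -/
lemma comm_sum_le (hc : ∀ l, c l ∈ N) {z : H →L[ℂ] H} (hz : z ∈ Qalg M N ξ) {m₀ : ℝ}
    (hm₀ : 0 < m₀) (hm : ∑ l, ‖c l ξ‖ ^ 2 ≤ m₀) :
    ∑ l, ‖(z * c l - c l * z) ξ‖ ^ 2 ≤
      4 * m₀ * (‖z ξ‖ ^ 2 - ‖smT M N ξ c (∑ l, ‖c l ξ‖ ^ 2) m₀ z ξ‖ ^ 2) := by
  set m := ∑ l, ‖c l ξ‖ ^ 2 with hmdef
  have hm0 : 0 ≤ m := Finset.sum_nonneg fun l _ => by (clear * -; positivity)
  set p := smPhi M N ξ c z ξ with hp
  set r := (⟪z ξ, p⟫_ℂ).re with hr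
  have hcs : ∑ l, ‖(z * c l - c l * z) ξ‖ ^ 2 = 2 * m * ‖z ξ‖ ^ 2 - 2 * r := S.comm_sum hc hz
  have hpos : 0 ≤ 2 * m * ‖z ξ‖ ^ 2 - 2 * r := by
    rw [← hcs]; exact Finset.sum_nonneg fun l _ => by (clear * -; positivity)
  have hpn : ‖p‖ ≤ m * ‖z ξ‖ := S.norm_smPhi hc hz
  have hpn2 : ‖p‖ ^ 2 ≤ m ^ 2 * ‖z ξ‖ ^ 2 := by
    have := pow_le_pow_left₀ (norm_nonneg p) hpn 2
    rwa [mul_pow] at this
  -- the vector of T z
  have hT : smT M N ξ c m m₀ z ξ =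
      ((1 - m / (2 * m₀) : ℝ) : ℂ) • z ξ + ((1 / (2 * m₀) : ℝ) : ℂ) • p := rfl
  have hTn : ‖smT M N ξ c m m₀ z ξ‖ ^ 2 = (1 - m / (2 * m₀)) ^ 2 * ‖z ξ‖ ^ 2 +
      2 * ((1 - m / (2 * m₀)) * (1 / (2 * m₀)) * r) + (1 / (2 * m₀)) ^ 2 * ‖p‖ ^ 2 := by
    have h := norm_add_sq (𝕜 := ℂ) (((1 - m / (2 * m₀) : ℝ) : ℂ) • z ξ)
      (((1 / (2 * m₀) : ℝ) : ℂ) • p)
    rw [hT]
    refine h.trans ?_
    rw [norm_smul, norm_smul, Complex.norm_real, Complex.norm_real, mul_pow, mul_pow,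
      Real.norm_eq_abs, Real.norm_eq_abs, sq_abs, sq_abs, inner_smul_left, inner_smul_right,
      Complex.conj_ofReal]
    congr 2
    congr 1
    change (((1 - m / (2 * m₀) : ℝ) : ℂ) * (((1 / (2 * m₀) : ℝ) : ℂ) * ⟪z ξ, p⟫_ℂ)).re = _
    rw [Complex.re_ofReal_mul, Complex.re_ofReal_mul]
    ring
  rw [hcs, hTn]
  -- reduce to a polynomial inequality
  have key : 4 * m₀ * (‖z ξ‖ ^ 2 - ((1 - m / (2 * m₀)) ^ 2 * ‖z ξ‖ ^ 2 +
      2 * ((1 - m / (2 * m₀)) * (1 / (2 * m₀)) * r) + (1 / (2 * m₀)) ^ 2 * ‖p‖ ^ 2)) -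
      (2 * m * ‖z ξ‖ ^ 2 - 2 * r) =
      ((2 * m * ‖z ξ‖ ^ 2 - 2 * r) * (m₀ - m) + (m ^ 2 * ‖z ξ‖ ^ 2 - ‖p‖ ^ 2)) / m₀ := by
    field_simp
    ring
  have h2 : 0 ≤ ((2 * m * ‖z ξ‖ ^ 2 - 2 * r) * (m₀ - m) + (m ^ 2 * ‖z ξ‖ ^ 2 - ‖p‖ ^ 2)) / m₀ := by
    apply div_nonneg _ hm₀.le
    have h3 : 0 ≤ (2 * m * ‖z ξ‖ ^ 2 - 2 * r) * (m₀ - m) := mul_nonneg hpos (by (clear * - hm; linarith))
    (clear * - hpn2 h3; linarith)
  linarith

/-- the key lower bound, one step -/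
lemma key_step {y z : H →L[ℂ] H} (hz : z ∈ Qalg M N ξ) {A K a : ℝ}
    (hK : 0 ≤ K) (ha : 0 ≤ a)
    (hc : ∀ l, Partner N ξ (c l) (c' l)) {m₀ δ : ℝ} (hm₀ : 0 < m₀)
    (hm : ∑ l, ‖c l ξ‖ ^ 2 ≤ m₀) (hδ : ∑ l, ‖(c' l - c l) ξ‖ ^ 2 ≤ δ)
    (hbal : ∑ l, ⟪c l ξ, (c' l - c l) ξ⟫_ℂ = 0)
    (h : ∀ d d', Partner N ξ d d' → A * ‖d ξ‖ ^ 2 -
      (K / 2) * (a * ‖d' ξ‖ ^ 2 - 2 * (⟪d' ξ, d ξ⟫_ℂ).re + ‖d ξ‖ ^ 2) ≤
      (⟪d (y ξ), z (d ξ)⟫_ℂ).re) :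
    ∀ d d', Partner N ξ d d' → A * ‖d ξ‖ ^ 2 -
      (K / 2) * (a * (1 + δ / (2 * m₀)) * ‖d' ξ‖ ^ 2 - 2 * (⟪d' ξ, d ξ⟫_ℂ).re + ‖d ξ‖ ^ 2) ≤
      (⟪d (y ξ), smT M N ξ c (∑ l, ‖c l ξ‖ ^ 2) m₀ z (d ξ)⟫_ℂ).re := by
  intro d d' hd
  set m := ∑ l, ‖c l ξ‖ ^ 2 with hmdef
  have hm0 : 0 ≤ m := Finset.sum_nonneg fun l _ => by (clear * -; positivity)
  -- the averaging
  have havg := S.avg_le (ι := ι ⊕ ι ⊕ ι ⊕ ι)
    (x := Sum.elim (fun l => star (c l) * (z * c l)) (Sum.elim (fun l => star (c l) * c l)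
      (Sum.elim (fun l => star (c' l) * c' l) (fun l => star (c' l) * c l))))
    (by
      rintro (l | l | l | l)
      · change star (c l) * (z * c l) ∈ M
        rw [← mul_assoc]
        exact S.sm_mem hz (hc l).1 (hc l).1
      · exact S.le _ (mul_mem (star_mem (hc l).1) (hc l).1)
      · exact S.le _ (mul_mem (star_mem (hc l).2.1) (hc l).2.1)
      · exact S.le _ (mul_mem (star_mem (hc l).2.1) (hc l).1))
    (Sum.elim (fun _ => d (y ξ)) (Sum.elim (fun _ => ((-(A - K / 2) : ℝ) : ℂ) • d ξ)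
      (Sum.elim (fun _ => ((K / 2 * a : ℝ) : ℂ) • d' ξ) (fun _ => ((-K : ℝ) : ℂ) • d' ξ))))
    (Sum.elim (fun _ => d ξ) (Sum.elim (fun _ => d ξ) (Sum.elim (fun _ => d' ξ) (fun _ => d ξ))))
    (c := 0)
    (by
      intro u hu
      simp only [Fintype.sum_sum_type, Sum.elim_inl, Sum.elim_inr]
      rw [← Finset.sum_add_distrib, ← Finset.sum_add_distrib, ← Finset.sum_add_distrib]
      refine Finset.sum_nonneg fun l _ => ?_
      rw [inner_conj4, inner_conj4, inner_conj4, inner_conj4]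
      have h1 := h _ _ ((hc l).mul ((Partner.of_cent hu.1).mul hd))
      simp only [map_smul, inner_smul_left, Complex.conj_ofReal, Complex.re_ofReal_mul]
      change A * ‖c l (u (d ξ))‖ ^ 2 - (K / 2) * (a * ‖c' l (u (d' ξ))‖ ^ 2 -
        2 * (⟪c' l (u (d' ξ)), c l (u (d ξ))⟫_ℂ).re + ‖c l (u (d ξ))‖ ^ 2) ≤
        (⟪c l (u (d (y ξ))), z (c l (u (d ξ)))⟫_ℂ).re at h1
      have e1 : (⟪c l (u (d ξ)), c l (u (d ξ))⟫_ℂ).re = ‖c l (u (d ξ))‖ ^ 2 :=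
        inner_self_eq_norm_sq (𝕜 := ℂ) _
      have e2 : (⟪c' l (u (d' ξ)), c' l (u (d' ξ))⟫_ℂ).re = ‖c' l (u (d' ξ))‖ ^ 2 :=
        inner_self_eq_norm_sq (𝕜 := ℂ) _
      rw [e1, e2]
      change 0 ≤ (⟪c l (u (d (y ξ))), z (c l (u (d ξ)))⟫_ℂ).re + _
      linarith)
  simp only [Fintype.sum_sum_type, Sum.elim_inl, Sum.elim_inr] at havg
  -- the three sums with elements of `N`
  have e2 : ∑ l, (⟪((-(A - K / 2) : ℝ) : ℂ) • d ξ, EQ M N ξ (star (c l) * c l) (d ξ)⟫_ℂ).re =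
      -(A - K / 2) * (m * ‖d ξ‖ ^ 2) := by
    rw [hmdef, Finset.sum_mul, Finset.mul_sum]
    refine Finset.sum_congr rfl fun l _ => ?_
    rw [S.EQ_N (mul_mem (star_mem (hc l).1) (hc l).1), smul_apply, one_apply_eq_self,
      inner_smul_left, inner_smul_right, Complex.conj_ofReal, Complex.re_ofReal_mul]
    have h1 : ⟪ξ, (star (c l) * c l) ξ⟫_ℂ = ((‖c l ξ‖ ^ 2 : ℝ) : ℂ) := by
      change ⟪ξ, (star (c l)) (c l ξ)⟫_ℂ = _
      rw [inner_star_right, inner_self_eq_norm_sq_to_K]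
      push_cast
      rfl
    have h2 : (⟪d ξ, d ξ⟫_ℂ).re = ‖d ξ‖ ^ 2 := inner_self_eq_norm_sq (𝕜 := ℂ) _
    rw [h1, Complex.re_ofReal_mul, h2]
  have e3 : ∑ l, (⟪((K / 2 * a : ℝ) : ℂ) • d' ξ, EQ M N ξ (star (c' l) * c' l) (d' ξ)⟫_ℂ).re =
      K / 2 * a * ((∑ l, ‖c' l ξ‖ ^ 2) * ‖d' ξ‖ ^ 2) := by
    rw [Finset.sum_mul, Finset.mul_sum]
    refine Finset.sum_congr rfl fun l _ => ?_
    rw [S.EQ_N (mul_mem (star_mem (hc l).2.1) (hc l).2.1), smul_apply, one_apply_eq_self,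
      inner_smul_left, inner_smul_right, Complex.conj_ofReal, Complex.re_ofReal_mul]
    have h1 : ⟪ξ, (star (c' l) * c' l) ξ⟫_ℂ = ((‖c' l ξ‖ ^ 2 : ℝ) : ℂ) := by
      change ⟪ξ, (star (c' l)) (c' l ξ)⟫_ℂ = _
      rw [inner_star_right, inner_self_eq_norm_sq_to_K]
      push_cast
      rfl
    have h2 : (⟪d' ξ, d' ξ⟫_ℂ).re = ‖d' ξ‖ ^ 2 := inner_self_eq_norm_sq (𝕜 := ℂ) _
    rw [h1, Complex.re_ofReal_mul, h2]
  have e4 : ∑ l, (⟪((-K : ℝ) : ℂ) • d' ξ, EQ M N ξ (star (c' l) * c l) (d ξ)⟫_ℂ).re =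
      -K * (m * (⟪d' ξ, d ξ⟫_ℂ).re) := by
    have h1 : ∀ l, ⟪((-K : ℝ) : ℂ) • d' ξ, EQ M N ξ (star (c' l) * c l) (d ξ)⟫_ℂ =
        ((-K : ℝ) : ℂ) * (⟪c' l ξ, c l ξ⟫_ℂ * ⟪d' ξ, d ξ⟫_ℂ) := by
      intro l
      rw [S.EQ_N (mul_mem (star_mem (hc l).2.1) (hc l).1), smul_apply, one_apply_eq_self,
        inner_smul_left, inner_smul_right, Complex.conj_ofReal]
      congr 2
      change ⟪ξ, (star (c' l)) (c l ξ)⟫_ℂ = _
      rw [inner_star_right]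
    rw [← Complex.re_sum]
    simp only [h1]
    rw [← Finset.mul_sum, ← Finset.sum_mul, sum_partner_inner hbal, Complex.re_ofReal_mul,
      Complex.re_ofReal_mul]
  rw [e2, e3, e4] at havg
  -- the first sum
  have e1 : ∑ l, (⟪d (y ξ), EQ M N ξ (star (c l) * (z * c l)) (d ξ)⟫_ℂ).re =
      (⟪d (y ξ), smPhi M N ξ c z (d ξ)⟫_ℂ).re := by
    rw [smPhi, sum_apply, inner_sum, Complex.re_sum]
    exact Finset.sum_congr rfl fun l _ => by rw [mul_assoc]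
  rw [e1] at havg
  have hmm := sum_partner_norm hbal hδ
  have h0 := h d d' hd
  -- the inner product with `T z`
  have hT : (⟪d (y ξ), smT M N ξ c m m₀ z (d ξ)⟫_ℂ).re =
      (1 - m / (2 * m₀)) * (⟪d (y ξ), z (d ξ)⟫_ℂ).re +
      (1 / (2 * m₀)) * (⟪d (y ξ), smPhi M N ξ c z (d ξ)⟫_ℂ).re := by
    have : smT M N ξ c m m₀ z (d ξ) = ((1 - m / (2 * m₀) : ℝ) : ℂ) • z (d ξ) +
      ((1 / (2 * m₀) : ℝ) : ℂ) • smPhi M N ξ c z (d ξ) := rfl
    rw [this, inner_add_right, inner_smul_right, inner_smul_right, Complex.add_re,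
      Complex.re_ofReal_mul, Complex.re_ofReal_mul]
  rw [hT]
  set P := (⟪d (y ξ), smPhi M N ξ c z (d ξ)⟫_ℂ).re with hP
  set R := (⟪d (y ξ), z (d ξ)⟫_ℂ).re with hR
  set X := (⟪d' ξ, d ξ⟫_ℂ).re with hX
  have hs1 : 0 ≤ 1 - m / (2 * m₀) := by
    have : m / (2 * m₀) ≤ 1 := by
      rw [div_le_one (by (clear * - hm₀; positivity))]; (clear * - hm₀ hm; linarith)
    (clear * - this; linarith)
  have hs2 : 0 ≤ 1 / (2 * m₀) := by positivity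
  have hP2 : (A - K / 2) * (m * ‖d ξ‖ ^ 2) - K / 2 * a * ((m + δ) * ‖d' ξ‖ ^ 2) + K * (m * X) ≤
      P := by
    have h5 : K / 2 * a * ((∑ l, ‖c' l ξ‖ ^ 2) * ‖d' ξ‖ ^ 2) ≤
        K / 2 * a * ((m + δ) * ‖d' ξ‖ ^ 2) := by (clear * - hmm hK ha; gcongr)
    (clear * - havg h5; linarith)
  have h6 := mul_le_mul_of_nonneg_left h0 hs1
  have h7 := mul_le_mul_of_nonneg_left hP2 hs2
  refine le_trans (le_of_eq ?_) (add_le_add h6 h7)
  field_simp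
  ring

/-- MODULE B1 : smoothing inside `Q` with respect to a balanced finite family of partner pairs. -/
theorem smoothing {y : H →L[ℂ] H} (hy : y ∈ Qalg M N ξ) {κ K : ℝ} (hκ : 0 < κ) (hK : 0 ≤ K)
    (hLB : LB N ξ y κ K) {ι : Type*} [Fintype ι] {c c' : ι → H →L[ℂ] H}
    (hc : ∀ l, Partner N ξ (c l) (c' l)) {m₀ δ : ℝ} (hm₀ : 0 < m₀)
    (hm : ∑ l, ‖c l ξ‖ ^ 2 ≤ m₀) (hδ : ∑ l, ‖(c' l - c l) ξ‖ ^ 2 ≤ δ)
    (hbal : ∑ l, ⟪c l ξ, (c' l - c l) ξ⟫_ℂ = 0) {n : ℕ} (hn : 0 < n)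
    (hnδ : K * ((1 + δ / (2 * m₀)) ^ n - 1) ≤ κ) :
    ∃ z ∈ Qalg M N ξ, ‖(z - y) ξ‖ ^ 2 ≤ 2 * κ ∧
      ∑ l, ‖(z * c l - c l * z) ξ‖ ^ 2 ≤ 8 * m₀ * κ / n := by
  have hcN : ∀ l, c l ∈ N := fun l => (hc l).1
  have hδ0 : 0 ≤ δ := le_trans (Finset.sum_nonneg fun l _ => by positivity) hδ
  set m := ∑ l, ‖c l ξ‖ ^ 2 with hmdef
  set zs := smSeq M N ξ c m m₀ y with hzs
  set r : ℝ := 1 + δ / (2 * m₀) with hr
  have hr1 : 1 ≤ r := by
    have : 0 ≤ δ / (2 * m₀) := by positivity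
    (clear * - this; linarith)
  have hzQ : ∀ k, zs k ∈ Qalg M N ξ := by
    intro k
    induction k with
    | zero => exact hy
    | succ k ih => exact S.smT_mem hcN ih m m₀
  -- monotonicity of the norms
  have hdis : ∀ k, ∑ l, ‖(zs k * c l - c l * zs k) ξ‖ ^ 2 ≤
      4 * m₀ * (‖zs k ξ‖ ^ 2 - ‖zs (k + 1) ξ‖ ^ 2) := fun k =>
    S.comm_sum_le hcN (hzQ k) hm₀ hm
  have hstep : ∀ k, ‖zs (k + 1) ξ‖ ^ 2 ≤ ‖zs k ξ‖ ^ 2 := by
    intro k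
    have h1 : 0 ≤ 4 * m₀ * (‖zs k ξ‖ ^ 2 - ‖zs (k + 1) ξ‖ ^ 2) :=
      le_trans (Finset.sum_nonneg fun l _ => by (clear * -; positivity)) (hdis k)
    have h2 : 0 ≤ ‖zs k ξ‖ ^ 2 - ‖zs (k + 1) ξ‖ ^ 2 :=
      (mul_nonneg_iff_of_pos_left (by positivity)).1 h1
    (clear * - h2; linarith)
  have hle : ∀ k, ‖zs k ξ‖ ^ 2 ≤ ‖y ξ‖ ^ 2 := by
    intro k
    induction k with
    | zero => exact le_rfl
    | succ k ih => exact (hstep k).trans ih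
  -- the key lower bound
  have hkey : ∀ k, ∀ d d', Partner N ξ d d' → (‖y ξ‖ ^ 2 - κ / 2) * ‖d ξ‖ ^ 2 -
      (K / 2) * (r ^ k * ‖d' ξ‖ ^ 2 - 2 * (⟪d' ξ, d ξ⟫_ℂ).re + ‖d ξ‖ ^ 2) ≤
      (⟪d (y ξ), zs k (d ξ)⟫_ℂ).re := by
    intro k
    induction k with
    | zero =>
      intro d d' hd
      have h1 := hLB d d' hd
      have e1 : (y * d - d * y) ξ = y (d ξ) - d (y ξ) := rfl
      rw [e1, norm_sub_rev, norm_sub_sq_re, S.norm_NQ hy hd.1, S.norm_Q S.irr hy hd.1,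
        sub_apply, norm_sub_sq_re] at h1
      change _ ≤ (⟪d (y ξ), y (d ξ)⟫_ℂ).re
      rw [pow_zero]
      (clear * - h1; nlinarith)
    | succ k ih =>
      intro d d' hd
      have h1 := S.key_step (hzQ k) hK (by (clear * - hδ0 hm₀; positivity) : (0 : ℝ) ≤ r ^ k) hc hm₀ hm hδ hbal ih d d' hd
      rw [pow_succ]
      exact h1
  have hone : ∀ k, ‖y ξ‖ ^ 2 - κ / 2 - (K / 2) * (r ^ k - 1) ≤ (⟪y ξ, zs k ξ⟫_ℂ).re := by
    intro k
    have h1 := hkey k 1 1 Partner.one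
    simp only [one_apply_eq_self] at h1
    have h2 : (⟪ξ, ξ⟫_ℂ).re = 1 := by rw [S.inner_self]; rfl
    rw [h2, S.norm_one] at h1
    (clear * - h1; linarith)
  have hlow : ∀ k, k ≤ n → ‖y ξ‖ ^ 2 - κ ≤ (⟪y ξ, zs k ξ⟫_ℂ).re := by
    intro k hk
    have h1 := hone k
    have h2 : r ^ k ≤ r ^ n := pow_le_pow_right₀ hr1 hk
    have h3 : K * (r ^ k - 1) ≤ K * (r ^ n - 1) := by (clear * - h2 hK; gcongr)
    (clear * - hnδ h1 h3; linarith)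
  have hclose : ∀ k, k ≤ n → ‖(zs k - y) ξ‖ ^ 2 ≤ 2 * κ := by
    intro k hk
    have h1 := hlow k hk
    have h2 := hle k
    rw [sub_apply, norm_sub_rev, norm_sub_sq_re]
    (clear * - h1 h2; linarith)
  -- the norm of the last iterate
  have hlast : ‖y ξ‖ ^ 2 - 2 * κ ≤ ‖zs n ξ‖ ^ 2 := by
    have h1 := hlow n le_rfl
    have h2 : (⟪y ξ, zs n ξ⟫_ℂ).re ≤ ‖y ξ‖ * ‖zs n ξ‖ :=
      (Complex.re_le_norm _).trans (norm_inner_le_norm _ _)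
    (clear * - h1 h2; nlinarith [sq_nonneg (‖y ξ‖ - ‖zs n ξ‖)])
  have htel : ∑ k ∈ Finset.range n, (‖zs k ξ‖ ^ 2 - ‖zs (k + 1) ξ‖ ^ 2) ≤ 2 * κ := by
    rw [Finset.sum_range_sub']
    change ‖y ξ‖ ^ 2 - ‖zs n ξ‖ ^ 2 ≤ 2 * κ
    (clear * - hlast; linarith)
  have hn' : (0 : ℝ) < n := by exact_mod_cast hn
  obtain ⟨k, hk, hkle⟩ : ∃ k ∈ Finset.range n, ‖zs k ξ‖ ^ 2 - ‖zs (k + 1) ξ‖ ^ 2 ≤ 2 * κ / n := by
    refine Finset.exists_le_of_sum_le ⟨0, Finset.mem_range.2 hn⟩ ?_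
    rw [Finset.sum_const, Finset.card_range, nsmul_eq_mul]
    refine htel.trans_eq ?_
    field_simp
  rw [Finset.mem_range] at hk
  refine ⟨zs k, hzQ k, hclose k hk.le, (hdis k).trans ?_⟩
  have h1 := mul_le_mul_of_nonneg_left hkle (by (clear * - hm₀; positivity) : (0 : ℝ) ≤ 4 * m₀)
  refine h1.trans_eq ?_
  ring

end AP

end Pool.Agent.Helper23

end

section

open scoped InnerProductSpace Topology

open ContinuousLinearMap Filter

namespace Pool.Agent.Helper23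

variable {H : Type*} [NormedAddCommGroup H] [InnerProductSpace ℂ H] [CompleteSpace H]

variable {M N : VonNeumannAlgebra H} {ξ : H} {E : (H →L[ℂ] H) → (H →L[ℂ] H)}

theorem AP.smoothing' (S : AP M N E ξ) {y : H →L[ℂ] H} (hy : y ∈ Qalg M N ξ) {κ K : ℝ}
    (hκ : 0 < κ) (hK : 0 ≤ K)
    (hLB : LB N ξ y κ K) {ι : Type*} [Fintype ι] {c c' : ι → H →L[ℂ] H}
    (hc : ∀ l, Partner N ξ (c l) (c' l)) {G t : ℝ} (hG : 0 < G) (ht : 0 < t) (ht1 : t < 1)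
    (hm : ∑ l, ‖c l ξ‖ ^ 2 ≤ G) (hδ : ∑ l, ‖(c' l - c l) ξ‖ ^ 2 ≤ 25 * t ^ 2 * G)
    {n : ℕ} (hn : 0 < n) (hnδ : K * ((1 + 2 * t ^ 2) ^ n - 1) ≤ κ) :
    ∃ z ∈ Qalg M N ξ, ‖(z - y) ξ‖ ^ 2 ≤ 2 * κ ∧
      ∑ l, ‖(z * c l - c l * z) ξ‖ ^ 2 ≤ 96 * G * κ / n :=
  Helper53.PG.smoothing'_of S hκ hK
    (fun _ _ _ _ hc _ _ hm₀ hm hδ hbal _ hn hnδ =>
      S.smoothing hy hκ hK hLB hc hm₀ hm hδ hbal hn hnδ) hc hG ht ht1 hm hδ hn hnδ

end Pool.Agent.Helper23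

end

end
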