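import Pool.Agent.Helper23.FB.L01_a0
import Pool.Agent.Helper23.FB.L01_a12
import Pool.Agent.Helper23.FB.L01_a13
import Pool.Agent.Helper23.FB.L01_a2
import Pool.Agent.Helper23.FB.L01_a3
import Pool.Agent.Helper23.FB.L01_a8

/-!
Parts of Helper23.FA.L01_07, Helper23.FA.L01_18, Helper23.FA.L01_01, Helper23.FA.L02_07, Helper23.FA.L01_06, Helper23.FA.L02_08, Helper23.FA.L02_01, Helper23.FA.L03_02, Helper23.FA.L03_03
-/

attribute [local instance 5000]
  Pool.Agent.Helper23.FB.Inst.rCharZero Pool.Agent.Helper23.FB.Inst.rALM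
  Pool.Agent.Helper23.FB.Inst.rARM Pool.Agent.Helper23.FB.Inst.rALSM
  Pool.Agent.Helper23.FB.Inst.rARSM Pool.Agent.Helper23.FB.Inst.rARRLE
  Pool.Agent.Helper23.FB.Inst.rALRLE Pool.Agent.Helper23.FB.Inst.rARRLT
  Pool.Agent.Helper23.FB.Inst.rALRLT Pool.Agent.Helper23.FB.Inst.rPMRLT
  Pool.Agent.Helper23.FB.Inst.rMPRLT Pool.Agent.Helper23.FB.Inst.rPMM
  Pool.Agent.Helper23.FB.Inst.rMPM Pool.Agent.Helper23.FB.Inst.rPMSM
  Pool.Agent.Helper23.FB.Inst.rMPSM Pool.Agent.Helper23.FB.Inst.rEAOL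
  Pool.Agent.Helper23.FB.Inst.rIOR Pool.Agent.Helper23.FB.Inst.rISOR
  Pool.Agent.Helper23.FB.Inst.rFS Pool.Agent.Helper23.FB.Inst.rcCharZero
  Pool.Agent.Helper23.FB.Inst.rNZD Pool.Agent.Helper23.FB.Inst.rcNZD
  Pool.Agent.Helper23.FB.Inst.bSemiring Pool.Agent.Helper23.FB.Inst.bStar
  Pool.Agent.Helper23.FB.Inst.bAlg Pool.Agent.Helper23.FB.Inst.bSub
  Pool.Agent.Helper23.FB.Inst.bMul Pool.Agent.Helper23.FB.Inst.bAdd
  Pool.Agent.Helper23.FB.Inst.iRing Pool.Agent.Helper23.FB.Inst.iSemiring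
  Pool.Agent.Helper23.FB.Inst.iAlgC Pool.Agent.Helper23.FB.Inst.iSMulC
  Pool.Agent.Helper23.FB.Inst.iModC Pool.Agent.Helper23.FB.Inst.iAlgR
  Pool.Agent.Helper23.FB.Inst.iSMulR Pool.Agent.Helper23.FB.Inst.iModR
  Pool.Agent.Helper23.FB.Inst.iMonoid Pool.Agent.Helper23.FB.Inst.iSemigroup
  Pool.Agent.Helper23.FB.Inst.iMulOneClass Pool.Agent.Helper23.FB.Inst.iMul
  Pool.Agent.Helper23.FB.Inst.iAdd Pool.Agent.Helper23.FB.Inst.iSub
  Pool.Agent.Helper23.FB.Inst.iNeg Pool.Agent.Helper23.FB.Inst.iAddCommMonoid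
  Pool.Agent.Helper23.FB.Inst.iAddCommGroup Pool.Agent.Helper23.FB.Inst.iAddGroup
  Pool.Agent.Helper23.FB.Inst.iAddMonoid Pool.Agent.Helper23.FB.Inst.iSMulZeroC
  Pool.Agent.Helper23.FB.Inst.iMulActC Pool.Agent.Helper23.FB.Inst.iDSMulC
  Pool.Agent.Helper23.FB.Inst.iDSMulR Pool.Agent.Helper23.FB.Inst.iSNAG
  Pool.Agent.Helper23.FB.Inst.iSNACG Pool.Agent.Helper23.FB.Inst.iNorm
  Pool.Agent.Helper23.FB.Inst.iNSC' Pool.Agent.Helper23.FB.Inst.iNSR'
  Pool.Agent.Helper23.FB.Inst.iTop Pool.Agent.Helper23.FB.Inst.iT2 Pool.Agent.Helper23.FB.Inst.iTR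
  Pool.Agent.Helper23.FB.Inst.iSCC Pool.Agent.Helper23.FB.Inst.iIST
  Pool.Agent.Helper23.FB.Inst.iSCCR Pool.Agent.Helper23.FB.Inst.iISTR
  Pool.Agent.Helper23.FB.Inst.iZHC Pool.Agent.Helper23.FB.Inst.iAHC
  Pool.Agent.Helper23.FB.Inst.iAMHC Pool.Agent.Helper23.FB.Inst.iMAHC
  Pool.Agent.Helper23.FB.Inst.lTop Pool.Agent.Helper23.FB.Inst.lUnif
  Pool.Agent.Helper23.FB.Inst.lACM Pool.Agent.Helper23.FB.Inst.lACG
  Pool.Agent.Helper23.FB.Inst.lSNAG Pool.Agent.Helper23.FB.Inst.lSNACG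
  Pool.Agent.Helper23.FB.Inst.lNACG Pool.Agent.Helper23.FB.Inst.lNorm
  Pool.Agent.Helper23.FB.Inst.lIPS Pool.Agent.Helper23.FB.Inst.lMod
  Pool.Agent.Helper23.FB.Inst.lSMul Pool.Agent.Helper23.FB.Inst.lT2
  Pool.Agent.Helper23.FB.Inst.iStar Pool.Agent.Helper23.FB.Inst.iStarMul
  Pool.Agent.Helper23.FB.Inst.iStarAddMonoid Pool.Agent.Helper23.FB.Inst.iStarRing
  Pool.Agent.Helper23.FB.Inst.iNSC Pool.Agent.Helper23.FB.Inst.iSOR
  Pool.Agent.Helper23.FB.Inst.iALM Pool.Agent.Helper23.FB.Inst.iARM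
  Pool.Agent.Helper23.FB.Inst.iCFC Pool.Agent.Helper23.FB.Inst.iNCFC
  Pool.Agent.Helper23.FB.Inst.iStarModR Pool.Agent.Helper23.FB.Inst.iStarModC
  Pool.Agent.Helper23.FB.Inst.eStar Pool.Agent.Helper23.FB.Inst.eAdd
  Pool.Agent.Helper23.FB.Inst.eMul Pool.Agent.Helper23.FB.Inst.eOne
  Pool.Agent.Helper23.FB.Inst.eZero Pool.Agent.Helper23.FB.Inst.eMulAction
  Pool.Agent.Helper23.FB.Inst.eAMHC2 Pool.Agent.Helper23.FB.Inst.eZHC2
  Pool.Agent.Helper23.FB.Inst.lAMHC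

namespace Pool.Agent.Helper23
end Pool.Agent.Helper23
namespace Pool.Agent.Helper23.RBF
end Pool.Agent.Helper23.RBF

section

section

open scoped InnerProductSpace Topology

open ContinuousLinearMap Filter

namespace Pool.Agent.Helper23

variable {H : Type*} [NormedAddCommGroup H] [InnerProductSpace ℂ H] [CompleteSpace H]

variable {M N : VonNeumannAlgebra H} {ξ : H} {E : (H →L[ℂ] H) → (H →L[ℂ] H)}

namespace AP

variable (S : AP M N E ξ)

include S

omit S [CompleteSpace H] in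
lemma comm_smul_xi (y D : H →L[ℂ] H) (c : ℂ) :
    (y * (c • D) - (c • D) * y) ξ = c • ((y * D - D * y) ξ) := by
  rw [mul_smul_comm, smul_mul_assoc, ← smul_sub]; rfl

end AP

end Pool.Agent.Helper23

end

end

section

section

open scoped InnerProductSpace Topology

open ContinuousLinearMap Filter

namespace Pool.Agent.Helper23

variable {H : Type*} [NormedAddCommGroup H] [InnerProductSpace ℂ H] [CompleteSpace H]

variable {M N : VonNeumannAlgebra H} {ξ : H} {E : (H →L[ℂ] H) → (H →L[ℂ] H)}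

namespace AP

variable (S : AP M N E ξ)

include S

omit S [CompleteSpace H] in
lemma par_law (v w : H) : ‖v + w‖ ^ 2 + ‖v - w‖ ^ 2 = 2 * ‖v‖ ^ 2 + 2 * ‖w‖ ^ 2 := by
  have := parallelogram_law_with_norm ℂ v w
  simp only [pow_two]
  linarith

omit S [CompleteSpace H] in
lemma norm_add_sq_le_two (v w : H) : ‖v + w‖ ^ 2 ≤ 2 * ‖v‖ ^ 2 + 2 * ‖w‖ ^ 2 := by
  have := par_law v w
  linarith [sq_nonneg ‖v - w‖]

omit S [CompleteSpace H] in
lemma norm_smul_xi {t : ℝ} (ht : 0 ≤ t) (v : H) : ‖(t : ℂ) • v‖ = t * ‖v‖ := by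
  rw [norm_smul, Complex.norm_real, Real.norm_of_nonneg ht]

end AP

end Pool.Agent.Helper23

end

end

section

section

open scoped InnerProductSpace Topology BoundedContinuousFunction

open ContinuousLinearMap Filter MeasureTheory

namespace Pool.Agent.Helper23

variable {H : Type*} [NormedAddCommGroup H] [InnerProductSpace ℂ H] [CompleteSpace H]

variable {M N : VonNeumannAlgebra H} {ξ : H} {E : (H →L[ℂ] H) → (H →L[ℂ] H)}

namespace U14

/-- convergence on all vectors -/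
lemma conv_all (S : Setting M N E ξ) {R : H →L[ℂ] H} {D : H →L[ℝ] H}
    {Ψ : (ℝ →ᵇ ℂ) →⋆ₐ[ℂ] (H →L[ℂ] H)} (hΨ : Modular M ξ R D Ψ)
    (hN : ∀ (t : ℝ), ∀ a ∈ N, Ψ (expB t) * a * Ψ (expB (-t)) ∈ N)
    {l : ℝ} {a : ℕ → H →L[ℂ] H} (ha : LamSeq N ξ l a)
    (hconj : ∀ f : L2R ℂ, Tendsto (fun n => ‖fco (fld Ψ (a n)) (ten f ξ) -
      ten (tr ℂ (Real.log l) f) (a n ξ)‖) atTop (𝓝 0)) (G : L2R H) :
    Tendsto (fun n => (fco (fld Ψ (a n)) - tr H (Real.log l) * lift (a n)) G) atTop (𝓝 0) := by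
  obtain ⟨haN, ⟨C, hC⟩, -⟩ := ha
  have hC0 : 0 ≤ C := (norm_nonneg _).trans (hC 0)
  have htr : ‖tr H (Real.log l)‖ ≤ 1 :=
    ContinuousLinearMap.opNorm_le_bound _ zero_le_one fun F => by rw [tr_norm, one_mul]
  have hbd : ∀ n, ‖fco (fld Ψ (a n)) - tr H (Real.log l) * lift (a n)‖ ≤ C + 1 * C := by
    intro n
    refine (norm_sub_le _ _).trans (add_le_add ?_ ?_)
    · exact fco_norm hC0 fun s => (fld_norm Ψ _ _).trans (hC n)
    · refine (norm_mul_le _ _).trans ?_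
      exact mul_le_mul htr ((lift_norm _).trans (hC n)) (norm_nonneg _) zero_le_one
  refine tendsto_of_ten hbd (fun f η => ?_) G
  -- the set of good vectors
  have hamp : ∀ n, fco (fld Ψ (a n)) - tr H (Real.log l) * lift (a n) ∈ amp N := fun n =>
    sub_mem (fco_mem_amp (fld_dec hΨ _) fun s => hN _ _ (haN n))
      (mul_mem (tr_mem_amp _) (lift_mem_amp (haN n)))
  have h0 : Tendsto (fun n => (fco (fld Ψ (a n)) - tr H (Real.log l) * lift (a n)) (ten f ξ))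
      atTop (𝓝 0) := by
    rw [tendsto_zero_iff_norm_tendsto_zero]
    refine (hconj f).congr fun n => ?_
    congr 1
    change _ = fco (fld Ψ (a n)) (ten f ξ) - tr H (Real.log l) (lift (a n) (ten f ξ))
    rw [lift_ten, tr_ten]
  rw [Metric.tendsto_nhds]
  intro ε hε
  have hd := S.dense_comm η
  obtain ⟨_, ⟨r, hr, rfl⟩, hrη⟩ := Metric.mem_closure_iff.1 hd
    (ε / (2 * ((C + 1 * C + 1) * (‖f‖ + 1)))) (by (clear * - hε hC0; positivity))
  have h1 : Tendsto (fun n => ‖lift r‖ * ‖(fco (fld Ψ (a n)) -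
      tr H (Real.log l) * lift (a n)) (ten f ξ)‖) atTop (𝓝 0) := by
    have := (tendsto_zero_iff_norm_tendsto_zero.1 h0).const_mul ‖lift r‖
    rwa [mul_zero] at this
  have h2 := (Metric.tendsto_nhds.1 h1) (ε / 2) (by (clear * - hε; positivity))
  filter_upwards [h2] with n hn
  rw [Real.dist_eq, sub_zero, abs_of_nonneg (by (clear * -; positivity))] at hn
  rw [dist_zero_right]
  set Dn := fco (fld Ψ (a n)) - tr H (Real.log l) * lift (a n) with hDn
  have e1 : Dn (ten f η) = Dn (ten f (η - r ξ)) + lift r (Dn (ten f ξ)) := by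
    rw [← amp_ten (hamp n) (S.comm_le hr), ← map_add]
    congr 1
    have h3 : η - r ξ + r ξ = η := sub_add_cancel _ _
    rw [← ten_add_right, h3]
  rw [e1]
  have e2 : ‖Dn (ten f (η - r ξ))‖ ≤ (C + 1 * C + 1) * ((‖f‖ + 1) * ‖η - r ξ‖) := by
    refine (Dn.le_of_opNorm_le ((hbd n).trans (by (clear * -; linarith) : C + 1 * C ≤ C + 1 * C + 1)) _).trans ?_
    rw [norm_ten]
    gcongr
    (clear * -; linarith)
  rw [dist_eq_norm] at hrη
  calc _ ≤ ‖Dn (ten f (η - r ξ))‖ + ‖lift r (Dn (ten f ξ))‖ := norm_add_le _ _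
    _ ≤ (C + 1 * C + 1) * ((‖f‖ + 1) * ‖η - r ξ‖) + ‖lift r‖ * ‖Dn (ten f ξ)‖ :=
        add_le_add e2 ((lift r).le_opNorm _)
    _ < (C + 1 * C + 1) * ((‖f‖ + 1) * (ε / (2 * ((C + 1 * C + 1) * (‖f‖ + 1))))) + ε / 2 := by
        gcongr
    _ = ε := by field_simp; ring

end U14

end Pool.Agent.Helper23

end

end

section

section

open scoped InnerProductSpace Topology BoundedContinuousFunction

open ContinuousLinearMap Filter MeasureTheory

namespace Pool.Agent.Helper23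

variable {H : Type*} [NormedAddCommGroup H] [InnerProductSpace ℂ H] [CompleteSpace H]

variable {M N : VonNeumannAlgebra H} {ξ : H} {E : (H →L[ℂ] H) → (H →L[ℂ] H)}

namespace U14

/-- commutation with the fields of all elements of `N` -/
lemma comm_fld {R : H →L[ℂ] H} {D : H →L[ℝ] H} {Ψ : (ℝ →ᵇ ℂ) →⋆ₐ[ℂ] (H →L[ℂ] H)}
    (hΨ : Modular M ξ R D Ψ)
    (hGK : ∀ u ∈ N, star u * u = 1 → u * star u = 1 → fco (fld Ψ u) ∈ GK N ξ)
    {X : L2R H →L[ℂ] L2R H} (hX : X ∈ Rk M N ξ) {a : H →L[ℂ] H} (ha : a ∈ N) :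
    fco (fld Ψ a) * X = X * fco (fld Ψ a) := by
  have hadd : ∀ b c : H →L[ℂ] H, fco (fld Ψ (b + c)) = fco (fld Ψ b) + fco (fld Ψ c) := by
    intro b c
    rw [fld_add, fco_add (fld_dec hΨ b) (fld_dec hΨ c)]
  have hsmul : ∀ (c : ℂ) (b : H →L[ℂ] H), fco (fld Ψ (c • b)) = c • fco (fld Ψ b) := by
    intro c b
    rw [fld_smul, fco_smul c (fld_dec hΨ b)]
  obtain ⟨u, k, hk, -⟩ := CStarAlgebra.exists_sum_four_unitary (⟨a, ha⟩ : N.toStarSubalgebra)
  have ha' : a = ∑ i, k i • ((u i : N.toStarSubalgebra) : H →L[ℂ] H) := by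
    have := congrArg (fun z : N.toStarSubalgebra => (z : H →L[ℂ] H)) hk
    simpa using this
  have hl : fco (fld Ψ a) = ∑ i, k i • fco (fld Ψ ((u i : N.toStarSubalgebra) : H →L[ℂ] H)) := by
    rw [ha', Fin.sum_univ_four, Fin.sum_univ_four, hadd, hadd, hadd, hsmul, hsmul, hsmul, hsmul]
  rw [hl, Finset.sum_mul, Finset.mul_sum]
  refine Finset.sum_congr rfl fun i _ => ?_
  rw [smul_mul_assoc, mul_smul_comm, hX.2]
  refine hGK _ (u i : N.toStarSubalgebra).2 ?_ ?_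
  · have := Unitary.star_mul_self_of_mem (u i).2
    exact congrArg (fun z : N.toStarSubalgebra => (z : H →L[ℂ] H)) this
  · have := Unitary.mul_star_self_of_mem (u i).2
    exact congrArg (fun z : N.toStarSubalgebra => (z : H →L[ℂ] H)) this

end U14

end Pool.Agent.Helper23

end

end

section

section

open scoped InnerProductSpace

open ContinuousLinearMap Filter

namespace Pool.Agent.Helper23

variable {H : Type*} [NormedAddCommGroup H] [InnerProductSpace ℂ H] [CompleteSpace H]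

variable {M N : VonNeumannAlgebra H} {ξ : H} {E : (H →L[ℂ] H) → (H →L[ℂ] H)}

namespace AP

variable (S : AP M N E ξ)

include S

/-- The averaging inequality for both actions of the unitaries of the centralizer. -/
theorem avg_mix {ι κ : Type*} [Fintype ι] [Fintype κ] {x : ι → H →L[ℂ] H} (hx : ∀ i, x i ∈ N)
    (w w' : ι → H) {y : κ → H →L[ℂ] H} (hy : ∀ k, y k ∈ N) (z z' : κ → H) {c : ℝ}
    (h : ∀ u ∈ Ucent N ξ, c ≤ ∑ i, (⟪w i, (star u * x i * u) (w' i)⟫_ℂ).re +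
      ∑ k, (⟪z k, (u * y k * star u) (z' k)⟫_ℂ).re) :
    c ≤ ∑ i, (⟪ξ, x i ξ⟫_ℂ * ⟪w i, w' i⟫_ℂ).re + ∑ k, (⟪ξ, y k ξ⟫_ℂ * ⟪z k, z' k⟫_ℂ).re := by
  classical
  refine le_of_forall_pos_le_add fun ε hε => ?_
  set C : ℝ := ∑ i, 2 * (‖w i‖ * ‖x i‖) with hC
  have hC0 : 0 ≤ C := Finset.sum_nonneg fun i _ => by (clear * -; positivity)
  have happ : ∀ i, ∃ m ∈ M.commutant, ‖w' i - m ξ‖ ≤ ε / (2 * (C + 1)) := by
    intro i
    obtain ⟨v, hv, hvw⟩ := Metric.dense_iff.1 S.dense_comm (w' i) (ε / (2 * (C + 1)))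
      (by (clear * - hε; positivity))
    obtain ⟨m, hm, rfl⟩ := hvw
    refine ⟨m, hm, ?_⟩
    rw [Metric.mem_ball, dist_eq_norm, norm_sub_rev] at hv
    exact hv.le
  choose m hm hmw using happ
  set D : ℝ := ∑ i, ‖w i‖ * ‖m i‖ with hD
  have hD0 : 0 ≤ D := Finset.sum_nonneg fun i _ => by (clear * -; positivity)
  obtain ⟨J, t, r, u, hr, hr1, hu, hux⟩ := S.exists_comb hx (δ := ε / (2 * (D + 1)))
    (by (clear * - hε; positivity))
  set X : ι → H →L[ℂ] H := fun i => ∑ j ∈ t, (r j : ℂ) • (star (u j) * x i * u j) with hX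
  have hXN : ∀ i, X i ∈ N := fun i => sum_mem fun j hj =>
    smul_mem' _ (mul_mem (mul_mem (star_mem (hu j hj).1.1) (hx i)) (hu j hj).1.1)
  have hXn : ∀ i, ‖X i‖ ≤ ‖x i‖ := by
    intro i
    calc ‖X i‖ ≤ ∑ j ∈ t, ‖(r j : ℂ) • (star (u j) * x i * u j)‖ := norm_sum_le _ _
      _ ≤ ∑ j ∈ t, r j * ‖x i‖ := by
          refine Finset.sum_le_sum fun j hj => ?_
          rw [norm_smul, Complex.norm_real, Real.norm_of_nonneg (hr j hj)]
          exact mul_le_mul_of_nonneg_left (Ucent_conj_norm (hu j hj) _) (hr j hj)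
      _ = ‖x i‖ := by rw [← Finset.sum_mul, hr1, one_mul]
  -- the first sum is controlled for all `s`
  have hfirst : ∀ s ∈ Ucent N ξ, ∑ i, (⟪w i, (star s * X i * s) (w' i)⟫_ℂ).re ≤
      ∑ i, (⟪ξ, x i ξ⟫_ℂ * ⟪w i, w' i⟫_ℂ).re + ε := by
    intro s hs
    have hterm : ∀ i ∈ Finset.univ, (⟪w i, (star s * X i * s) (w' i)⟫_ℂ).re ≤
        (⟪ξ, x i ξ⟫_ℂ * ⟪w i, w' i⟫_ℂ).re + (2 * (‖w i‖ * ‖x i‖) * (ε / (2 * (C + 1))) +
          ‖w i‖ * ‖m i‖ * (ε / (2 * (D + 1)))) := by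
      intro i _
      set Z : H →L[ℂ] H := star s * X i * s - ⟪ξ, x i ξ⟫_ℂ • (1 : H →L[ℂ] H) with hZ
      have e1 : ⟪w i, (star s * X i * s) (w' i)⟫_ℂ = ⟪ξ, x i ξ⟫_ℂ * ⟪w i, w' i⟫_ℂ +
          (⟪w i, Z (w' i - m i ξ)⟫_ℂ + ⟪w i, Z (m i ξ)⟫_ℂ) := by
        rw [← inner_add_right, ← map_add, sub_add_cancel, hZ, sub_apply, inner_sub_right,
          smul_apply, one_apply_eq_self, inner_smul_right]
        ring
      rw [e1, Complex.add_re]
      gcongr
      refine (Complex.re_le_norm _).trans ((norm_add_le _ _).trans ?_)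
      have hZN : Z ∈ N := sub_mem (mul_mem (mul_mem (star_mem hs.1.1) (hXN i)) hs.1.1)
        (smul_mem' _ (one_mem N))
      have hφ : ‖⟪ξ, x i ξ⟫_ℂ‖ ≤ ‖x i‖ := by
        refine (norm_inner_le_norm _ _).trans ?_
        have := (x i).le_opNorm ξ
        rw [S.norm_one, mul_one] at this
        rw [S.norm_one, one_mul]
        exact this
      have hZn : ‖Z‖ ≤ 2 * ‖x i‖ := by
        refine (norm_sub_le _ _).trans ?_
        have h1 := (Ucent_conj_norm hs (X i)).trans (hXn i)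
        have h2 : ‖⟪ξ, x i ξ⟫_ℂ • (1 : H →L[ℂ] H)‖ ≤ ‖x i‖ := by
          refine (norm_smul_le _ _).trans ?_
          have h3 : ‖(1 : H →L[ℂ] H)‖ ≤ 1 := norm_id_le
          calc _ ≤ ‖x i‖ * 1 := by (clear * - hφ h3; gcongr)
            _ = ‖x i‖ := mul_one _
        (clear * - h1 h2; linarith)
      have hZξ : ‖Z ξ‖ ≤ ε / (2 * (D + 1)) := by
        have e2 : Z = star s * (X i - ⟪ξ, x i ξ⟫_ℂ • (1 : H →L[ℂ] H)) * s := by
          rw [hZ, mul_sub, sub_mul, mul_smul_comm, mul_one, smul_mul_assoc, hs.2.1]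
        rw [e2]
        change ‖(star s) ((X i - ⟪ξ, x i ξ⟫_ℂ • (1 : H →L[ℂ] H)) (s ξ))‖ ≤ _
        rw [norm_of_isom (by rw [star_star]; exact hs.2.2),
          S.norm_right_unitary hs.1 hs.2.2 (S.le _ (sub_mem (hXN i) (smul_mem' _ (one_mem N))))]
        exact hux i
      refine add_le_add ?_ ?_
      · refine (norm_inner_le_norm _ _).trans ?_
        calc ‖w i‖ * ‖Z (w' i - m i ξ)‖ ≤ ‖w i‖ * ((2 * ‖x i‖) * (ε / (2 * (C + 1)))) := by
              gcongr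
              exact (Z.le_opNorm _).trans (mul_le_mul hZn (hmw i) (norm_nonneg _) (by (clear * -; positivity)))
          _ = _ := by ring
      · refine (norm_inner_le_norm _ _).trans ?_
        rw [commute_apply (S.le _ hZN) (hm i), mul_assoc]
        gcongr
        refine ((m i).le_opNorm _).trans ?_
        gcongr
    refine (Finset.sum_le_sum hterm).trans ?_
    rw [Finset.sum_add_distrib, Finset.sum_add_distrib, ← Finset.sum_mul, ← Finset.sum_mul,
      ← hC, ← hD]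
    have h1 : C * (ε / (2 * (C + 1))) ≤ ε / 2 := by
      calc C * (ε / (2 * (C + 1))) ≤ (C + 1) * (ε / (2 * (C + 1))) := by gcongr; (clear * -; linarith)
        _ = ε / 2 := by (clear * - hC0 hε; field_simp)
    have h2 : D * (ε / (2 * (D + 1))) ≤ ε / 2 := by
      calc D * (ε / (2 * (D + 1))) ≤ (D + 1) * (ε / (2 * (D + 1))) := by gcongr; (clear * -; linarith)
        _ = ε / 2 := by field_simp
    linarith
  -- averaging of the second sum
  set A : ℝ := ∑ i, (⟪ξ, x i ξ⟫_ℂ * ⟪w i, w' i⟫_ℂ).re with hA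
  have hsec := S.avgN_le (ι := t × κ) (x := fun p => y p.2) (fun p => hy p.2)
    (fun p => (r p.1 : ℂ) • (star (u p.1)) (z p.2)) (fun p => (star (u p.1)) (z' p.2))
    (c := c - A - ε) (by
      intro s hs
      have hs' := Ucent_star hs
      have h1 := hfirst (star s) hs'
      have h2 : ∀ j ∈ t, r j * c ≤ r j * (∑ i, (⟪w i, (star (u j * star s) * x i *
          (u j * star s)) (w' i)⟫_ℂ).re +
          ∑ k, (⟪z k, ((u j * star s) * y k * star (u j * star s)) (z' k)⟫_ℂ).re) :=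
        fun j hj => mul_le_mul_of_nonneg_left (h _ (Ucent_mul (hu j hj) hs')) (hr j hj)
      have h3 := Finset.sum_le_sum h2
      rw [← Finset.sum_mul, hr1, one_mul] at h3
      simp only [mul_add] at h3
      rw [Finset.sum_add_distrib] at h3
      have h4 : ∑ j ∈ t, r j * ∑ i, (⟪w i, (star (u j * star s) * x i *
          (u j * star s)) (w' i)⟫_ℂ).re =
          ∑ i, (⟪w i, (star (star s) * X i * star s) (w' i)⟫_ℂ).re := by
        simp only [Finset.mul_sum]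
        rw [Finset.sum_comm]
        refine Finset.sum_congr rfl fun i _ => ?_
        have e1 : star (star s) * X i * star s =
            ∑ j ∈ t, (r j : ℂ) • (star (u j * star s) * x i * (u j * star s)) := by
          rw [hX]
          simp only [Finset.mul_sum, Finset.sum_mul]
          refine Finset.sum_congr rfl fun j _ => ?_
          rw [mul_smul_comm, smul_mul_assoc, star_mul, star_star]
          simp only [mul_assoc]
        rw [e1, sum_apply, inner_sum, Complex.re_sum]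
        refine Finset.sum_congr rfl fun j _ => ?_
        rw [smul_apply, inner_smul_right, Complex.re_ofReal_mul]
      have h5 : ∑ j ∈ t, r j * ∑ k, (⟪z k, ((u j * star s) * y k *
          star (u j * star s)) (z' k)⟫_ℂ).re = ∑ p : t × κ,
          (⟪((r p.1 : ℂ) • (star (u p.1)) (z p.2)), (star s * y p.2 * s)
            ((star (u p.1)) (z' p.2))⟫_ℂ).re := by
        rw [Fintype.sum_prod_type, ← Finset.sum_coe_sort t]
        refine Finset.sum_congr rfl fun j _ => ?_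
        rw [Finset.mul_sum]
        refine Finset.sum_congr rfl fun k _ => ?_
        rw [inner_smul_left, Complex.conj_ofReal, Complex.re_ofReal_mul, inner_star_left,
          star_mul, star_star]
        rfl
      rw [h4, h5] at h3
      (clear * - h1 h3; linarith))
  have h6 : ∑ p : t × κ, (⟪ξ, y p.2 ξ⟫_ℂ * ⟪((r p.1 : ℂ) • (star (u p.1)) (z p.2)),
      (star (u p.1)) (z' p.2)⟫_ℂ).re = ∑ k, (⟪ξ, y k ξ⟫_ℂ * ⟪z k, z' k⟫_ℂ).re := by
    rw [Fintype.sum_prod_type, Finset.sum_coe_sort t (fun j => ∑ k, (⟪ξ, y k ξ⟫_ℂ *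
      ⟪((r j : ℂ) • (star (u j)) (z k)), (star (u j)) (z' k)⟫_ℂ).re)]
    have e1 : ∀ j ∈ t, ∑ k, (⟪ξ, y k ξ⟫_ℂ *
        ⟪((r j : ℂ) • (star (u j)) (z k)), (star (u j)) (z' k)⟫_ℂ).re =
        r j * ∑ k, (⟪ξ, y k ξ⟫_ℂ * ⟪z k, z' k⟫_ℂ).re := by
      intro j hj
      rw [Finset.mul_sum]
      refine Finset.sum_congr rfl fun k _ => ?_
      rw [inner_smul_left, Complex.conj_ofReal, inner_star_left]
      have e2 : u j ((star (u j)) (z' k)) = z' k :=
        congrArg (fun T : H →L[ℂ] H => T (z' k)) (hu j hj).2.2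
      rw [e2, mul_left_comm, Complex.re_ofReal_mul]
    rw [Finset.sum_congr rfl e1, ← Finset.sum_mul, hr1, one_mul]
  rw [h6] at hsec
  linarith

end AP

end Pool.Agent.Helper23

end

section

open scoped InnerProductSpace Topology

open ContinuousLinearMap Filter

namespace Pool.Agent.Helper23

variable {H : Type*} [NormedAddCommGroup H] [InnerProductSpace ℂ H] [CompleteSpace H]

variable {M N : VonNeumannAlgebra H} {ξ : H} {E : (H →L[ℂ] H) → (H →L[ℂ] H)}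

namespace AP

variable (S : AP M N E ξ)

include S

lemma norm_conj_xi {u Z : H →L[ℂ] H} (hu : u ∈ Ucent N ξ) (hZ : Z ∈ M) :
    ‖(u * Z * star u) ξ‖ = ‖Z ξ‖ := by
  change ‖u (Z ((star u) ξ))‖ = _
  rw [norm_of_isom hu.2.1, S.norm_right_unitary (Ucent_star hu).1 (Ucent_star hu).2.2 hZ]

end AP

end Pool.Agent.Helper23

end

end

section

section

open scoped InnerProductSpace Topology

open ContinuousLinearMap Filter

namespace Pool.Agent.Helper23

variable {H : Type*} [NormedAddCommGroup H] [InnerProductSpace ℂ H] [CompleteSpace H]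

variable {M N : VonNeumannAlgebra H} {ξ : H} {E : (H →L[ℂ] H) → (H →L[ℂ] H)}

namespace AP

variable (S : AP M N E ξ)

include S

/-- STEP 3 -/
lemma spread_step {y : H →L[ℂ] H} (hyQ : y ∈ Qalg M N ξ) {κ K1 L : ℝ} (hL : 0 ≤ L)
    (h0 : ∀ T T', Partner N ξ T T' → ‖(y * T - T * y) ξ‖ ^ 2 ≤
      2 * κ + K1 * ‖(T' - T) ξ‖ ^ 2 + L * ‖(star T * T) ξ‖ ^ 2)
    {C C' : H →L[ℂ] H} (hC : Partner N ξ C C') (m : ℕ) :
    ∀ T T', Partner N ξ T T' → ‖(y * T - T * y) ξ‖ ^ 2 + m * ‖(y * C - C * y) ξ‖ ^ 2 ≤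
      2 * κ + K1 * (‖(T' - T) ξ‖ ^ 2 + m * ‖(C' - C) ξ‖ ^ 2) +
      L * (‖(star T * T) ξ‖ ^ 2 + m * ‖(star C * C) ξ‖ ^ 2 +
        m * (2 * ‖T ξ‖ ^ 2 * ‖C ξ‖ ^ 2 + 2 * ‖(star T) ξ‖ ^ 2 * ‖C ξ‖ ^ 2 +
          2 * ‖T ξ‖ ^ 2 * ‖(star C) ξ‖ ^ 2) +
        m * (m - 1) / 2 * (2 * ‖C ξ‖ ^ 2 * ‖C ξ‖ ^ 2 + 2 * ‖(star C) ξ‖ ^ 2 * ‖C ξ‖ ^ 2 +
          2 * ‖C ξ‖ ^ 2 * ‖(star C) ξ‖ ^ 2)) := by
  induction m with
  | zero =>
    intro T T' hT
    have := h0 T T' hT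
    simp only [Nat.cast_zero, zero_mul, add_zero, zero_div]
    exact this
  | succ m ih =>
    intro T T' hT
    set q : ℝ := 2 * ‖T ξ‖ ^ 2 * ‖C ξ‖ ^ 2 + 2 * ‖(star T) ξ‖ ^ 2 * ‖C ξ‖ ^ 2 +
          2 * ‖T ξ‖ ^ 2 * ‖(star C) ξ‖ ^ 2 with hq
    set qq : ℝ := 2 * ‖C ξ‖ ^ 2 * ‖C ξ‖ ^ 2 + 2 * ‖(star C) ξ‖ ^ 2 * ‖C ξ‖ ^ 2 +
          2 * ‖C ξ‖ ^ 2 * ‖(star C) ξ‖ ^ 2 with hqq
    have hCN := hC.1
    have hTN := hT.1
    have hyM := (mem_Qalg.1 hyQ).1
    set l : ℂ := ((2 * L : ℝ) : ℂ) with hl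
    have hmain := S.avg_mix (ι := Unit) (κ := Bool) (x := fun _ => T * star T)
      (fun _ => mul_mem hTN (star_mem hTN)) (fun _ => l • C ξ) (fun _ => C ξ)
      (y := fun b => if b then star C * C else C * star C)
      (fun b => by
        cases b
        · exact mul_mem hCN (star_mem hCN)
        · exact mul_mem (star_mem hCN) hCN)
      (fun b => if b then l • (star T * T) ξ else l • T ξ)
      (fun b => if b then ξ else T ξ)
      (c := ‖(y * T - T * y) ξ‖ ^ 2 + (m + 1) * ‖(y * C - C * y) ξ‖ ^ 2 -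
        (2 * κ + K1 * (‖(T' - T) ξ‖ ^ 2 + (m + 1) * ‖(C' - C) ξ‖ ^ 2) +
        L * (‖(star T * T) ξ‖ ^ 2 + (m + 1) * ‖(star C * C) ξ‖ ^ 2 + m * q +
          m * (m + 1) / 2 * qq))) (by
      intro u hu
      have huM : u ∈ M := S.le _ hu.1.1
      have huN : u ∈ N := hu.1.1
      simp only [Finset.univ_unique, Finset.sum_singleton, Fintype.sum_bool, if_true,
        Bool.false_eq_true, if_false]
      set X := u * C * star u with hX
      set X' := u * C' * star u with hX'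
      have hXX : Partner N ξ X X' := hC.conj hu
      have i1 := ih (T + X) (T' + X') (hT.add hXX)
      have i2 := ih (T - X) (T' - X') (hT.sub hXX)
      -- (b)
      have nb : ‖(y * X - X * y) ξ‖ = ‖(y * C - C * y) ξ‖ := by
        have c1 : u * y = y * u := (mem_Qalg.1 hyQ).2 _ hu.1
        have c2 : star u * y = y * star u := (mem_Qalg.1 hyQ).2 _ (Ucent_star hu).1
        have e1 : y * X - X * y = u * (y * C - C * y) * star u := by
          rw [hX, mul_sub, sub_mul]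
          congr 1
          · simp only [← mul_assoc]; rw [c1]
          · simp only [mul_assoc]; rw [c2]
        rw [e1, S.norm_conj_xi hu (sub_mem (mul_mem hyM (S.le _ hCN)) (mul_mem (S.le _ hCN) hyM))]
      have nc : ‖(X' - X) ξ‖ = ‖(C' - C) ξ‖ := by
        have e1 : X' - X = u * (C' - C) * star u := by rw [hX, hX', mul_sub, sub_mul]
        rw [e1, S.norm_conj_xi hu (sub_mem (S.le _ hC.2.1) (S.le _ hCN))]
      have nd : ‖X ξ‖ = ‖C ξ‖ := S.norm_conj_xi hu (S.le _ hCN)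
      have hXs : star X = u * star C * star u := by
        rw [hX, star_mul, star_mul, star_star, mul_assoc]
      have ne : ‖(star X) ξ‖ = ‖(star C) ξ‖ := by
        rw [hXs, S.norm_conj_xi hu (star_mem (S.le _ hCN))]
      have hXX2 : star X * X = u * (star C * C) * star u := by
        rw [hXs, hX]
        calc u * star C * star u * (u * C * star u) = u * star C * (star u * u) * C * star u := by
              simp only [mul_assoc]
          _ = u * (star C * C) * star u := by rw [hu.2.1, mul_one]; simp only [mul_assoc]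
      have nf : ‖(star X * X) ξ‖ = ‖(star C * C) ξ‖ := by
        rw [hXX2, S.norm_conj_xi hu (mul_mem (star_mem (S.le _ hCN)) (S.le _ hCN))]
      -- parallelogram laws
      have par : ∀ v w : H, ‖v + w‖ ^ 2 + ‖v - w‖ ^ 2 = 2 * ‖v‖ ^ 2 + 2 * ‖w‖ ^ 2 := par_law
      have pa : ‖(y * (T + X) - (T + X) * y) ξ‖ ^ 2 + ‖(y * (T - X) - (T - X) * y) ξ‖ ^ 2 =
          2 * ‖(y * T - T * y) ξ‖ ^ 2 + 2 * ‖(y * X - X * y) ξ‖ ^ 2 := by
        rw [← par]
        congr 4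
        · rw [← add_apply]; congr 1; noncomm_ring
        · rw [← sub_apply]; congr 1; noncomm_ring
      have pc : ‖(T' + X' - (T + X)) ξ‖ ^ 2 + ‖(T' - X' - (T - X)) ξ‖ ^ 2 =
          2 * ‖(T' - T) ξ‖ ^ 2 + 2 * ‖(X' - X) ξ‖ ^ 2 := by
        rw [← par]
        congr 4
        · rw [← add_apply]; congr 1; abel
        · rw [← sub_apply]; congr 1; abel
      have pd : ‖(T + X) ξ‖ ^ 2 + ‖(T - X) ξ‖ ^ 2 = 2 * ‖T ξ‖ ^ 2 + 2 * ‖X ξ‖ ^ 2 := par _ _
      have pe : ‖(star (T + X)) ξ‖ ^ 2 + ‖(star (T - X)) ξ‖ ^ 2 =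
          2 * ‖(star T) ξ‖ ^ 2 + 2 * ‖(star X) ξ‖ ^ 2 := by
        rw [star_add, star_sub]; exact par _ _
      have pf : ‖(star (T + X) * (T + X)) ξ‖ ^ 2 + ‖(star (T - X) * (T - X)) ξ‖ ^ 2 =
          2 * ‖(star T * T) ξ + (star X * X) ξ‖ ^ 2 +
            2 * ‖(star T * X) ξ + (star X * T) ξ‖ ^ 2 := by
        rw [← par]
        congr 4
        · rw [← add_apply, ← add_apply, ← add_apply, star_add]; congr 1; noncomm_ring
        · rw [← add_apply, ← add_apply, ← sub_apply, star_sub]; congr 1; noncomm_ring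
      -- fourth order terms
      have pg : ‖(star T * T) ξ + (star X * X) ξ‖ ^ 2 = ‖(star T * T) ξ‖ ^ 2 +
          ‖(star X * X) ξ‖ ^ 2 + 2 * (⟪(star T * T) ξ, (star X * X) ξ⟫_ℂ).re := by
        have := norm_add_sq (𝕜 := ℂ) ((star T * T) ξ) ((star X * X) ξ)
        rw [this]
        simp only [RCLike.re_to_complex]
        ring
      have ph : ‖(star T * X) ξ + (star X * T) ξ‖ ^ 2 ≤ 2 * ‖(star T * X) ξ‖ ^ 2 +
          2 * ‖(star X * T) ξ‖ ^ 2 := norm_add_sq_le_two _ _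
      have pi : (⟪C ξ, (star u * (T * star T) * u) (C ξ)⟫_ℂ).re = ‖(star T * X) ξ‖ ^ 2 := by
        have e1 : ‖(star T * X) ξ‖ = ‖(star T * u * C) ξ‖ := by
          have : star T * X = (star T * u * C) * star u := by rw [hX]; simp only [mul_assoc]
          rw [this]
          change ‖(star T * u * C) ((star u) ξ)‖ = _
          exact S.norm_right_unitary (Ucent_star hu).1 (Ucent_star hu).2.2
            (mul_mem (mul_mem (star_mem (S.le _ hTN)) huM) (S.le _ hCN))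
        rw [e1]
        change (⟪C ξ, (star u) (T ((star T) (u (C ξ))))⟫_ℂ).re = ‖(star T) (u (C ξ))‖ ^ 2
        rw [inner_star_right, ← inner_star_left T, inner_self_eq_norm_sq_to_K]
        norm_cast
      have pj : (⟪T ξ, (u * (C * star C) * star u) (T ξ)⟫_ℂ).re = ‖(star X * T) ξ‖ ^ 2 := by
        have e1 : ‖(star X * T) ξ‖ = ‖(star C) ((star u) (T ξ))‖ := by
          rw [hXs]
          change ‖u ((star C) ((star u) (T ξ)))‖ = _
          rw [norm_of_isom hu.2.1]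
        rw [e1]
        change (⟪T ξ, u (C ((star C) ((star u) (T ξ))))⟫_ℂ).re = _
        rw [← inner_star_left u, ← inner_star_left C, inner_self_eq_norm_sq_to_K]
        norm_cast
      have r1 : (⟪l • C ξ, (star u * (T * star T) * u) (C ξ)⟫_ℂ).re =
          2 * L * ‖(star T * X) ξ‖ ^ 2 := by
        rw [inner_smul_left, hl, Complex.conj_ofReal, Complex.re_ofReal_mul, pi]
      have r2 : (⟪l • (star T * T) ξ, (u * (star C * C) * star u) ξ⟫_ℂ).re =
          2 * L * (⟪(star T * T) ξ, (star X * X) ξ⟫_ℂ).re := by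
        rw [inner_smul_left, hl, Complex.conj_ofReal, Complex.re_ofReal_mul, hXX2]
      have r3 : (⟪l • T ξ, (u * (C * star C) * star u) (T ξ)⟫_ℂ).re =
          2 * L * ‖(star X * T) ξ‖ ^ 2 := by
        rw [inner_smul_left, hl, Complex.conj_ofReal, Complex.re_ofReal_mul, pj]
      rw [r1, r2, r3]
      rw [nb] at pa
      rw [nc] at pc
      rw [nd] at pd
      rw [ne] at pe
      rw [nf] at pg
      have hph := mul_le_mul_of_nonneg_left ph hL
      -- combination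
      linear_combination (1 / 2) * i1 + (1 / 2) * i2 - (1 / 2) * pa + K1 / 2 * pc + L / 2 * pf +
        L * pg + L * m * (‖C ξ‖ ^ 2 + ‖(star C) ξ‖ ^ 2) * pd + L * m * ‖C ξ‖ ^ 2 * pe + hph)
    simp only [Finset.univ_unique, Finset.sum_singleton, Fintype.sum_bool, if_true,
      Bool.false_eq_true, if_false] at hmain
    have a1 : ∀ Z : H →L[ℂ] H, ⟪ξ, (Z * star Z) ξ⟫_ℂ = ((‖(star Z) ξ‖ ^ 2 : ℝ) : ℂ) := by
      intro Z
      rw [norm_sq_apply, star_star]; rfl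
    have a2 : ∀ Z : H →L[ℂ] H, ⟪ξ, (star Z * Z) ξ⟫_ℂ = ((‖Z ξ‖ ^ 2 : ℝ) : ℂ) := by
      intro Z
      rw [norm_sq_apply]; rfl
    have a3 : ∀ Z : H →L[ℂ] H, ⟪l • Z ξ, Z ξ⟫_ℂ = ((2 * L * ‖Z ξ‖ ^ 2 : ℝ) : ℂ) := by
      intro Z
      rw [inner_smul_left, hl, Complex.conj_ofReal, inner_self_eq_norm_sq_to_K]
      push_cast
      rfl
    have a4 : ⟪l • (star T * T) ξ, ξ⟫_ℂ = ((2 * L * ‖T ξ‖ ^ 2 : ℝ) : ℂ) := by
      rw [inner_smul_left, hl, Complex.conj_ofReal]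
      change _ * ⟪(star T) (T ξ), ξ⟫_ℂ = _
      rw [inner_star_left, inner_self_eq_norm_sq_to_K]
      push_cast
      rfl
    rw [a1, a2, a1, a3, a3, a4, ← Complex.ofReal_mul, ← Complex.ofReal_mul, ← Complex.ofReal_mul,
      Complex.ofReal_re, Complex.ofReal_re, Complex.ofReal_re] at hmain
    rw [Nat.cast_succ]
    linear_combination hmain

end AP

end Pool.Agent.Helper23

end

end

section

section

open scoped InnerProductSpace Topology ENNReal

open ContinuousLinearMap Filter MeasureTheory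

set_option linter.unusedSectionVars false

set_option linter.unusedVariables false

namespace Pool.Agent.Helper23

variable {H : Type*} [NormedAddCommGroup H] [InnerProductSpace ℂ H] [CompleteSpace H]

variable {M N : VonNeumannAlgebra H} {ξ : H} {E : (H →L[ℂ] H) → (H →L[ℂ] H)}

lemma sl_tr (f : L2R ℂ) (t : ℝ) (F : L2R H) : sl f (tr H t F) = sl (tr ℂ (-t) f) F := by
  refine ext_inner_left ℂ fun ζ => ?_
  rw [inner_sl, inner_sl, ← tr_ten, tr_adj, neg_neg]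

end Pool.Agent.Helper23

end

section

open scoped InnerProductSpace Topology ENNReal BoundedContinuousFunction

open ContinuousLinearMap Filter MeasureTheory

namespace Pool.Agent.Helper23.ED

open Pool.Agent.Helper23 Pool.Agent.Helper23.RBF

open Pool.Agent.Helper78.BC.Transport (Sub r)

universe u

variable {H : Type*} [NormedAddCommGroup H] [InnerProductSpace ℂ H] [CompleteSpace H]

variable {M N : VonNeumannAlgebra H} {ξ : H} {E : (H →L[ℂ] H) → (H →L[ℂ] H)}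

namespace RkA

/-- the slices are shifted by asymptotic eigenoperators -/
theorem shift_all1 (S : Setting M N E ξ) {R : H →L[ℂ] H} {D : H →L[ℝ] H}
    {Ψ : (ℝ →ᵇ ℂ) →⋆ₐ[ℂ] (H →L[ℂ] H)} (hΨ : Modular M ξ R D Ψ)
    (hN : ∀ (t : ℝ), ∀ a ∈ N, Ψ (expB t) * a * Ψ (expB (-t)) ∈ N)
    {X : L2R H →L[ℂ] L2R H} (hX : X ∈ Rk1 M N Ψ) (f g : L2R ℂ)
    {l : ℝ} {a : ℕ → H →L[ℂ] H} (ha : LamSeq N ξ l a)
    (hconj : ∀ f : L2R ℂ, Tendsto (fun n => ‖fco (U14.fld Ψ (a n)) (ten f ξ) -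
      ten (tr ℂ (Real.log l) f) (a n ξ)‖) atTop (𝓝 0)) (η : H) :
    Tendsto (fun n => (a n * slX X f g -
      slX X (tr ℂ (Real.log l) f) (tr ℂ (Real.log l) g) * a n) η) atTop (𝓝 0) := by
  set t := Real.log l with ht
  set D : ℕ → (L2R H →L[ℂ] L2R H) := fun n => fco (U14.fld Ψ (a n)) - tr H t * lift (a n) with hD
  have h1 := U14.conv_all S hΨ hN ha hconj (X (ten g η))
  have h2 := U14.conv_all S hΨ hN ha hconj (ten g η)
  have h3 : Tendsto (fun n => sl (tr ℂ t f) (X (D n (ten g η)) - D n (X (ten g η)))) atTop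
      (𝓝 0) := by
    have h4 := ((X.continuous.tendsto 0).comp h2).sub h1
    rw [map_zero, sub_zero] at h4
    have h5 := ((sl (tr ℂ t f) : L2R H →L[ℂ] H).continuous.tendsto 0).comp h4
    rwa [map_zero] at h5
  refine h3.congr fun n => ?_
  have hc : fco (U14.fld Ψ (a n)) (X (ten g η)) = X (fco (U14.fld Ψ (a n)) (ten g η)) :=
    congrArg (fun T : L2R H →L[ℂ] L2R H => T (ten g η)) (comm_fld1 hΨ hX (ha.1 n))
  have e1 : X (D n (ten g η)) - D n (X (ten g η)) =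
      tr H t (lift (a n) (X (ten g η))) - X (ten (tr ℂ t g) (a n η)) := by
    have e2 : D n (ten g η) = fco (U14.fld Ψ (a n)) (ten g η) - ten (tr ℂ t g) (a n η) := by
      change fco (U14.fld Ψ (a n)) (ten g η) - tr H t (lift (a n) (ten g η)) = _
      rw [lift_ten, tr_ten]
    have e3 : D n (X (ten g η)) = fco (U14.fld Ψ (a n)) (X (ten g η)) -
      tr H t (lift (a n) (X (ten g η))) := rfl
    rw [e2, e3, map_sub, hc]
    abel
  rw [e1, map_sub, sl_tr, tr_neg_tr, sl_lift]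
  rfl

end RkA

end Pool.Agent.Helper23.ED

end

end

section

section

open scoped InnerProductSpace Topology BoundedContinuousFunction

open ContinuousLinearMap Filter MeasureTheory

namespace Pool.Agent.Helper23

variable {H : Type*} [NormedAddCommGroup H] [InnerProductSpace ℂ H] [CompleteSpace H]

variable {M N : VonNeumannAlgebra H} {ξ : H} {E : (H →L[ℂ] H) → (H →L[ℂ] H)}

namespace U14

/-- the slices are shifted by asymptotic eigenoperators -/
theorem shift_all (S : Setting M N E ξ) {R : H →L[ℂ] H} {D : H →L[ℝ] H}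
    {Ψ : (ℝ →ᵇ ℂ) →⋆ₐ[ℂ] (H →L[ℂ] H)} (hΨ : Modular M ξ R D Ψ)
    (hN : ∀ (t : ℝ), ∀ a ∈ N, Ψ (expB t) * a * Ψ (expB (-t)) ∈ N)
    (hGK : ∀ u ∈ N, star u * u = 1 → u * star u = 1 → fco (fld Ψ u) ∈ GK N ξ)
    {X : L2R H →L[ℂ] L2R H} (hX : X ∈ Rk M N ξ) (f g : L2R ℂ)
    {l : ℝ} {a : ℕ → H →L[ℂ] H} (ha : LamSeq N ξ l a)
    (hconj : ∀ f : L2R ℂ, Tendsto (fun n => ‖fco (fld Ψ (a n)) (ten f ξ) -
      ten (tr ℂ (Real.log l) f) (a n ξ)‖) atTop (𝓝 0)) (η : H) :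
    Tendsto (fun n => (a n * slX X f g -
      slX X (tr ℂ (Real.log l) f) (tr ℂ (Real.log l) g) * a n) η) atTop (𝓝 0) := by
  set t := Real.log l with ht
  set D : ℕ → (L2R H →L[ℂ] L2R H) := fun n => fco (fld Ψ (a n)) - tr H t * lift (a n) with hD
  have h1 := conv_all S hΨ hN ha hconj (X (ten g η))
  have h2 := conv_all S hΨ hN ha hconj (ten g η)
  have h3 : Tendsto (fun n => sl (tr ℂ t f) (X (D n (ten g η)) - D n (X (ten g η)))) atTop
      (𝓝 0) := by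
    have h4 := ((X.continuous.tendsto 0).comp h2).sub h1
    rw [map_zero, sub_zero] at h4
    have h5 := ((sl (tr ℂ t f) : L2R H →L[ℂ] H).continuous.tendsto 0).comp h4
    rwa [map_zero] at h5
  refine h3.congr fun n => ?_
  have hc : fco (fld Ψ (a n)) (X (ten g η)) = X (fco (fld Ψ (a n)) (ten g η)) :=
    congrArg (fun T : L2R H →L[ℂ] L2R H => T (ten g η)) (comm_fld hΨ hGK hX (ha.1 n))
  have e1 : X (D n (ten g η)) - D n (X (ten g η)) =
      tr H t (lift (a n) (X (ten g η))) - X (ten (tr ℂ t g) (a n η)) := by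
    have e2 : D n (ten g η) = fco (fld Ψ (a n)) (ten g η) - ten (tr ℂ t g) (a n η) := by
      change fco (fld Ψ (a n)) (ten g η) - tr H t (lift (a n) (ten g η)) = _
      rw [lift_ten, tr_ten]
    have e3 : D n (X (ten g η)) = fco (fld Ψ (a n)) (X (ten g η)) -
      tr H t (lift (a n) (X (ten g η))) := rfl
    rw [e2, e3, map_sub, hc]
    abel
  rw [e1, map_sub, sl_tr, tr_neg_tr, sl_lift]
  rfl

end U14

end Pool.Agent.Helper23

end

end

section

section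

open scoped InnerProductSpace Topology

open ContinuousLinearMap Filter

namespace Pool.Agent.Helper23

variable {H : Type*} [NormedAddCommGroup H] [InnerProductSpace ℂ H] [CompleteSpace H]

variable {M N : VonNeumannAlgebra H} {ξ : H} {E : (H →L[ℂ] H) → (H →L[ℂ] H)}

namespace AP

variable (S : AP M N E ξ)

include S

/-- STEP 4, before the limit -/
lemma spread_m {y : H →L[ℂ] H} (hyQ : y ∈ Qalg M N ξ) {κ K1 L : ℝ} (hL : 0 ≤ L)
    (h0 : ∀ T T', Partner N ξ T T' → ‖(y * T - T * y) ξ‖ ^ 2 ≤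
      2 * κ + K1 * ‖(T' - T) ξ‖ ^ 2 + L * ‖(star T * T) ξ‖ ^ 2)
    {D D' : H →L[ℂ] H} (hD : Partner N ξ D D') (m : ℕ) (hm : 0 < m) :
    ‖(y * D - D * y) ξ‖ ^ 2 ≤ 2 * κ + K1 * ‖(D' - D) ξ‖ ^ 2 +
      L * (‖(star D * D) ξ‖ ^ 2 * (1 / (m : ℝ)) +
        (‖D ξ‖ ^ 4 + 2 * (‖D ξ‖ ^ 2 * ‖(star D) ξ‖ ^ 2))) := by
  have hm0 : (0 : ℝ) < m := by exact_mod_cast hm
  set μ : ℝ := Real.sqrt (1 / (m : ℝ)) with hμ
  have hμ0 : 0 ≤ μ := Real.sqrt_nonneg _
  have hμ2 : μ ^ 2 = 1 / (m : ℝ) := Real.sq_sqrt (by (clear * - hm; positivity))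
  have hmμ : (m : ℝ) * μ ^ 2 = 1 := by rw [hμ2]; field_simp
  have h1 := S.spread_step hyQ hL h0 (hD.smul (μ : ℂ)) m 0 0 Partner.zero
  have e1 : ‖(y * ((μ : ℂ) • D) - ((μ : ℂ) • D) * y) ξ‖ = μ * ‖(y * D - D * y) ξ‖ := by
    rw [comm_smul_xi, norm_smul_xi hμ0]
  have e2 : ‖((μ : ℂ) • D' - (μ : ℂ) • D) ξ‖ = μ * ‖(D' - D) ξ‖ := by
    rw [← smul_sub, smul_apply, norm_smul_xi hμ0]
  have e3s : star ((μ : ℂ) • D) = (μ : ℂ) • star D := by
    rw [star_smul]
    congr 1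
    exact Complex.conj_ofReal μ
  have e3 : ‖(star ((μ : ℂ) • D) * ((μ : ℂ) • D)) ξ‖ = μ ^ 2 * ‖(star D * D) ξ‖ := by
    rw [e3s, mul_smul_comm, smul_mul_assoc, smul_smul, smul_apply, ← Complex.ofReal_mul,
      norm_smul_xi (by positivity)]
    ring
  have e4 : ‖((μ : ℂ) • D) ξ‖ = μ * ‖D ξ‖ := by rw [smul_apply, norm_smul_xi hμ0]
  have e5 : ‖(star ((μ : ℂ) • D)) ξ‖ = μ * ‖(star D) ξ‖ := by
    rw [e3s, smul_apply, norm_smul_xi hμ0]
  rw [e1, e2, e3, e4, e5] at h1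
  simp only [mul_zero, zero_mul, sub_self, zero_apply, norm_zero, star_zero, zero_add,
    ne_eq, OfNat.ofNat_ne_zero, not_false_eq_true, zero_pow, add_zero] at h1
  have h2 : (m : ℝ) * (m - 1) / 2 * μ ^ 4 ≤ 1 / 2 := by
    have : (m : ℝ) * (m - 1) / 2 * μ ^ 4 = (1 / 2) * (((m : ℝ) * μ ^ 2) ^ 2 - (m * μ ^ 2) * μ ^ 2) := by
      ring
    rw [this, hmμ]
    (clear * -; nlinarith [sq_nonneg μ])
  have h3 : (m : ℝ) * (m - 1) / 2 * (2 * (μ * ‖D ξ‖) ^ 2 * (μ * ‖D ξ‖) ^ 2 +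
      2 * (μ * ‖(star D) ξ‖) ^ 2 * (μ * ‖D ξ‖) ^ 2 +
      2 * (μ * ‖D ξ‖) ^ 2 * (μ * ‖(star D) ξ‖) ^ 2) ≤
      ‖D ξ‖ ^ 4 + 2 * (‖D ξ‖ ^ 2 * ‖(star D) ξ‖ ^ 2) := by
    calc _ = ((m : ℝ) * (m - 1) / 2 * μ ^ 4) *
          (2 * (‖D ξ‖ ^ 4 + 2 * (‖D ξ‖ ^ 2 * ‖(star D) ξ‖ ^ 2))) := by ring
      _ ≤ (1 / 2) * (2 * (‖D ξ‖ ^ 4 + 2 * (‖D ξ‖ ^ 2 * ‖(star D) ξ‖ ^ 2))) := by (clear * - h2; gcongr)
      _ = _ := by ring
  have h4 := mul_le_mul_of_nonneg_left h3 hL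
  have h5 : (m : ℝ) * (μ * ‖(y * D - D * y) ξ‖) ^ 2 = ‖(y * D - D * y) ξ‖ ^ 2 := by
    rw [mul_pow, ← mul_assoc, hmμ, one_mul]
  have h6 : (m : ℝ) * (μ * ‖(D' - D) ξ‖) ^ 2 = ‖(D' - D) ξ‖ ^ 2 := by
    rw [mul_pow, ← mul_assoc, hmμ, one_mul]
  have h7 : (m : ℝ) * (μ ^ 2 * ‖(star D * D) ξ‖) ^ 2 = ‖(star D * D) ξ‖ ^ 2 * (1 / m) := by
    rw [hμ2]; (clear * - hm; field_simp)
  rw [h5, h6, h7, mul_add] at h1
  (clear * - h1 h4; linarith)

end AP

end Pool.Agent.Helper23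

end

end
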