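import Pool.Agent.Helper23.FB.L01_a0
import Pool.Agent.Helper23.FB.L01_a1
import Pool.Agent.Helper23.FB.L01_a10
import Pool.Agent.Helper23.FB.L01_a11
import Pool.Agent.Helper23.FB.L01_a12
import Pool.Agent.Helper23.FB.L01_a13
import Pool.Agent.Helper23.FB.L01_a2
import Pool.Agent.Helper23.FB.L01_a3
import Pool.Agent.Helper23.FB.L01_a7
import Pool.Agent.Helper23.FB.L01_a9

/-!
Parts of Helper23.FA.L01_04, Helper23.FA.L01_18, Helper23.FA.L01_19, Helper23.FA.L02_12, Helper23.FA.L02_13, Helper23.FA.L02_10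
-/

attribute [local instance 5000]
  Pool.Agent.Helper23.FB.Inst.rCharZero Pool.Agent.Helper23.FB.Inst.rALM
  Pool.Agent.Helper23.FB.Inst.rARM Pool.Agent.Helper23.FB.Inst.rALSM
  Pool.Agent.Helper23.FB.Inst.rARSM Pool.Agent.Helper23.FB.Inst.rARRLE
  Pool.Agent.Helper23.FB.Inst.rALRLE Pool.Agent.Helper23.FB.Inst.rARRLT
  Pool.Agent.Helper23.FB.Inst.rALRLT Pool.Agent.Helper23.FB.Inst.rPMRLT
  Pool.Agent.Helper23.FB.Inst.rMPRLT Pool.Agent.Helper23.FB.Inst.rPMM
  Pool.Agent.Helper23.FB.Inst.rMPM Pool.Agent.Helper23.FB.Inst.rPMSM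
  Pool.Agent.Helper23.FB.Inst.rMPSM Pool.Agent.Helper23.FB.Inst.rEAOL
  Pool.Agent.Helper23.FB.Inst.rIOR Pool.Agent.Helper23.FB.Inst.rISOR
  Pool.Agent.Helper23.FB.Inst.rFS Pool.Agent.Helper23.FB.Inst.rcCharZero
  Pool.Agent.Helper23.FB.Inst.rNZD Pool.Agent.Helper23.FB.Inst.rcNZD
  Pool.Agent.Helper23.FB.Inst.bSemiring Pool.Agent.Helper23.FB.Inst.bStar
  Pool.Agent.Helper23.FB.Inst.bAlg Pool.Agent.Helper23.FB.Inst.bSub
  Pool.Agent.Helper23.FB.Inst.bMul Pool.Agent.Helper23.FB.Inst.bAdd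
  Pool.Agent.Helper23.FB.Inst.iRing Pool.Agent.Helper23.FB.Inst.iSemiring
  Pool.Agent.Helper23.FB.Inst.iAlgC Pool.Agent.Helper23.FB.Inst.iSMulC
  Pool.Agent.Helper23.FB.Inst.iModC Pool.Agent.Helper23.FB.Inst.iAlgR
  Pool.Agent.Helper23.FB.Inst.iSMulR Pool.Agent.Helper23.FB.Inst.iModR
  Pool.Agent.Helper23.FB.Inst.iMonoid Pool.Agent.Helper23.FB.Inst.iSemigroup
  Pool.Agent.Helper23.FB.Inst.iMulOneClass Pool.Agent.Helper23.FB.Inst.iMul
  Pool.Agent.Helper23.FB.Inst.iAdd Pool.Agent.Helper23.FB.Inst.iSub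
  Pool.Agent.Helper23.FB.Inst.iNeg Pool.Agent.Helper23.FB.Inst.iAddCommMonoid
  Pool.Agent.Helper23.FB.Inst.iAddCommGroup Pool.Agent.Helper23.FB.Inst.iAddGroup
  Pool.Agent.Helper23.FB.Inst.iAddMonoid Pool.Agent.Helper23.FB.Inst.iSMulZeroC
  Pool.Agent.Helper23.FB.Inst.iMulActC Pool.Agent.Helper23.FB.Inst.iDSMulC
  Pool.Agent.Helper23.FB.Inst.iDSMulR Pool.Agent.Helper23.FB.Inst.iSNAG
  Pool.Agent.Helper23.FB.Inst.iSNACG Pool.Agent.Helper23.FB.Inst.iNorm
  Pool.Agent.Helper23.FB.Inst.iNSC' Pool.Agent.Helper23.FB.Inst.iNSR'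
  Pool.Agent.Helper23.FB.Inst.iTop Pool.Agent.Helper23.FB.Inst.iT2 Pool.Agent.Helper23.FB.Inst.iTR
  Pool.Agent.Helper23.FB.Inst.iSCC Pool.Agent.Helper23.FB.Inst.iIST
  Pool.Agent.Helper23.FB.Inst.iSCCR Pool.Agent.Helper23.FB.Inst.iISTR
  Pool.Agent.Helper23.FB.Inst.iZHC Pool.Agent.Helper23.FB.Inst.iAHC
  Pool.Agent.Helper23.FB.Inst.iAMHC Pool.Agent.Helper23.FB.Inst.iMAHC
  Pool.Agent.Helper23.FB.Inst.lTop Pool.Agent.Helper23.FB.Inst.lUnif
  Pool.Agent.Helper23.FB.Inst.lACM Pool.Agent.Helper23.FB.Inst.lACG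
  Pool.Agent.Helper23.FB.Inst.lSNAG Pool.Agent.Helper23.FB.Inst.lSNACG
  Pool.Agent.Helper23.FB.Inst.lNACG Pool.Agent.Helper23.FB.Inst.lNorm
  Pool.Agent.Helper23.FB.Inst.lIPS Pool.Agent.Helper23.FB.Inst.lMod
  Pool.Agent.Helper23.FB.Inst.lSMul Pool.Agent.Helper23.FB.Inst.lT2
  Pool.Agent.Helper23.FB.Inst.iStar Pool.Agent.Helper23.FB.Inst.iStarMul
  Pool.Agent.Helper23.FB.Inst.iStarAddMonoid Pool.Agent.Helper23.FB.Inst.iStarRing
  Pool.Agent.Helper23.FB.Inst.iNSC Pool.Agent.Helper23.FB.Inst.iSOR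
  Pool.Agent.Helper23.FB.Inst.iALM Pool.Agent.Helper23.FB.Inst.iARM
  Pool.Agent.Helper23.FB.Inst.iCFC Pool.Agent.Helper23.FB.Inst.iNCFC
  Pool.Agent.Helper23.FB.Inst.iStarModR Pool.Agent.Helper23.FB.Inst.iStarModC
  Pool.Agent.Helper23.FB.Inst.eStar Pool.Agent.Helper23.FB.Inst.eAdd
  Pool.Agent.Helper23.FB.Inst.eMul Pool.Agent.Helper23.FB.Inst.eOne
  Pool.Agent.Helper23.FB.Inst.eZero Pool.Agent.Helper23.FB.Inst.eMulAction
  Pool.Agent.Helper23.FB.Inst.eAMHC2 Pool.Agent.Helper23.FB.Inst.eZHC2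
  Pool.Agent.Helper23.FB.Inst.lAMHC

namespace Pool.Agent.Helper23
end Pool.Agent.Helper23
namespace Pool.Agent.Helper23.RBF
end Pool.Agent.Helper23.RBF

section

section

open scoped InnerProductSpace Topology ENNReal

open ContinuousLinearMap Filter MeasureTheory

set_option linter.unusedSectionVars false

set_option linter.unusedVariables false

namespace Pool.Agent.Helper23

variable {H : Type*} [NormedAddCommGroup H] [InnerProductSpace ℂ H] [CompleteSpace H]

variable {M N : VonNeumannAlgebra H} {ξ : H} {E : (H →L[ℂ] H) → (H →L[ℂ] H)}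

lemma sum_dm (n : ℕ) (s : ℝ) : ∑ m ∈ Finset.Ico (-(n : ℤ)) n, dm m s * dm m s = he n s := by
  by_cases h : s ∈ Set.Ico (-(n : ℝ)) n
  · rw [he, Set.indicator_of_mem h]
    have hk : ⌊s⌋ ∈ Finset.Ico (-(n : ℤ)) n := by
      rw [Finset.mem_Ico]
      constructor
      · rw [Int.le_floor]; push_cast; exact h.1
      · rw [Int.floor_lt]; push_cast; exact h.2
    rw [Finset.sum_eq_single ⌊s⌋]
    · rw [dm_of_mem ⟨Int.floor_le s, Int.lt_floor_add_one s⟩, ← Complex.ofReal_mul,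
        ← Real.exp_add, add_halves]
    · intro m _ hm
      rw [dm_of_notMem, mul_zero]
      rintro ⟨h2, h3⟩
      exact hm (Int.floor_eq_iff.2 ⟨h2, h3⟩).symm
    · intro h'; exact absurd hk h'
  · rw [he, Set.indicator_of_notMem h]
    refine Finset.sum_eq_zero fun m hm => ?_
    rw [dm_of_notMem, mul_zero]
    rintro ⟨h2, h3⟩
    apply h
    rw [Finset.mem_Ico] at hm
    have h4 : (-(n : ℝ)) ≤ m := by exact_mod_cast hm.1
    have h5 : (m : ℝ) + 1 ≤ n := by exact_mod_cast hm.2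
    exact ⟨h4.trans h2, lt_of_lt_of_le h3 h5⟩

lemma q0_lt_top {n : ℕ} {f : L2R ℂ} (hf : Pn n f = f) : q0 f ≠ ⊤ := by
  have h1 : q0 f ≤ ENNReal.ofReal (Real.exp n) * ENNReal.ofReal (‖f‖ ^ 2) := by
    rw [norm_sq_lint, q0, ← lintegral_const_mul' _ _ ENNReal.ofReal_ne_top]
    refine lintegral_mono_ae ?_
    have h2 := mulOp_coe (ind_bm (measurableSet_Ico (a := -(n : ℝ)) (b := n))) f
    change (Pn n f : ℝ → ℂ) =ᵐ[volume] _ at h2
    rw [hf] at h2
    filter_upwards [h2] with s hs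
    rw [← ENNReal.ofReal_mul (by positivity)]
    refine ENNReal.ofReal_le_ofReal ?_
    by_cases h : s ∈ Set.Ico (-(n : ℝ)) n
    · gcongr
      exact h.2.le
    · rw [ind_of_notMem h, zero_smul] at hs
      rw [hs, norm_zero]
      simp
  exact ne_top_of_le_ne_top (ENNReal.mul_ne_top ENNReal.ofReal_ne_top ENNReal.ofReal_ne_top) h1

lemma SX_rk (b : H →L[ℂ] H) (e f : L2R ℂ) :
    SX ξ (rk b e f) = ENNReal.ofReal (‖e‖ ^ 2 * ‖b ξ‖ ^ 2) * q0 f := by
  rw [SX_def, ← frame, ← ENNReal.tsum_mul_left]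
  refine tsum_congr fun j => ?_
  rw [rk_apply, sl_ten, map_smul, ten_smul_right, norm_smul, norm_ten,
    ← ENNReal.ofReal_mul (by (clear * -; positivity)), norm_inner_symm]
  congr 1
  ring

end Pool.Agent.Helper23

end

end

section

section

open scoped InnerProductSpace Topology ENNReal

open ContinuousLinearMap Filter MeasureTheory Polynomial

set_option linter.unusedSectionVars false

set_option linter.unusedVariables false

namespace Pool.Agent.Helper23

variable {H : Type*} [NormedAddCommGroup H] [InnerProductSpace ℂ H] [CompleteSpace H]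

variable {M N : VonNeumannAlgebra H} {ξ : H} {E : (H →L[ℂ] H) → (H →L[ℂ] H)}

lemma Pn_mulOp {n : ℕ} {m : ℝ → ℂ} (hm : BM m) (f : L2R ℂ) :
    Pn n (mulOp ℂ m f) = mulOp ℂ m (Pn n f) := by
  rw [Pn, mulOp_mulOp (ind_bm measurableSet_Ico) hm, mulOp_mulOp hm (ind_bm measurableSet_Ico)]
  congr 2
  funext s
  ring

lemma Pn_fix_mulOp {n : ℕ} {m : ℝ → ℂ} (hm : BM m) {f : L2R ℂ} (hf : Pn n f = f) :
    Pn n (mulOp ℂ m f) = mulOp ℂ m f := by rw [Pn_mulOp hm, hf]

end Pool.Agent.Helper23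

end

section

open scoped InnerProductSpace Topology ENNReal

open ContinuousLinearMap Filter MeasureTheory

namespace Pool.Agent.Helper23

variable {H : Type*} [NormedAddCommGroup H] [InnerProductSpace ℂ H] [CompleteSpace H]

variable {G : Type*} [NormedAddCommGroup G] [InnerProductSpace ℂ G] [CompleteSpace G]

variable {M N : VonNeumannAlgebra H} {ξ : H} {E : (H →L[ℂ] H) → (H →L[ℂ] H)}

lemma Pn_of_ae {n : ℕ} {f : L2R ℂ} (hf : ∀ᵐ s, s ∉ Set.Ico (-(n : ℝ)) n → f s = 0) :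
    Pn n f = f := by
  ext1
  filter_upwards [Pn_coe n f, hf] with s hs h
  rw [hs]
  by_cases h1 : s ∈ Set.Ico (-(n : ℝ)) n
  · rw [ind_of_mem h1, one_smul]
  · rw [h h1, smul_zero]

end Pool.Agent.Helper23

end

section

open scoped InnerProductSpace Topology ENNReal BoundedContinuousFunction

open ContinuousLinearMap Filter MeasureTheory

namespace Pool.Agent.Helper23

universe u

variable {H : Type u} [NormedAddCommGroup H] [InnerProductSpace ℂ H] [CompleteSpace H]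

variable {K : Type u} [NormedAddCommGroup K] [InnerProductSpace ℂ K] [CompleteSpace K]

variable {M N : VonNeumannAlgebra H} {ξ : H} {E : (H →L[ℂ] H) → (H →L[ℂ] H)}

/-- the constant of the core estimate -/
def CoreAt (M N : VonNeumannAlgebra H) (ξ : H) (u : L2R H →L[ℂ] L2R H) (y : H →L[ℂ] H)
    (κ : ℝ) : Prop := ∃ K : ℝ, 0 ≤ K ∧
    ∀ γ₀ : ℝ, 1 < γ₀ → Real.log γ₀ ≤ 1 / 2 → ∀ (m : ℕ) (g : L2R ℂ), g ≠ 0 →
      ∀ (B : Finset hw) (n : ℕ), 0 < n → K * ((1 + 2 * Real.log γ₀ ^ 2) ^ n - 1) ≤ κ →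
        ∃ z ∈ Bicent M N ξ, ‖(z - btU M N ξ (γ₀ ^ m) y) ξ‖ ^ 2 ≤ 2 * κ ∧
          ∑ j ∈ Finset.Ico (-(m : ℤ)) m, ∑ i ∈ Finset.Ico (-(m : ℤ)) m, ∑ k ∈ B,
            ‖(btU M N ξ (γ₀ ^ (i - m)) z * sa u (Real.log γ₀) g (i, k, j) -
              sa u (Real.log γ₀) g (i, k, j) * btU M N ξ (γ₀ ^ (j - m)) z) ξ‖ ^ 2 ≤
            96 * ‖g‖ ^ 2 * κ / n

end Pool.Agent.Helper23

end

section

open scoped InnerProductSpace Topology ENNReal BoundedContinuousFunction

open ContinuousLinearMap Filter MeasureTheory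

namespace Pool.Agent.Helper23.ED

open Pool.Agent.Helper23 Pool.Agent.Helper23.RBF

universe u

open TopologicalSpace

variable {H : Type*} [NormedAddCommGroup H] [InnerProductSpace ℂ H] [CompleteSpace H]

variable {N : VonNeumannAlgebra H} {ξ : H} {W : ℝ → H →L[ℂ] H}

namespace WuA

section sums

variable {s : ℕ → H →L[ℂ] H} {Z : ℕ → L2R H →L[ℂ] L2R H}

noncomputable def term (s : ℕ → H →L[ℂ] H) (Z : ℕ → L2R H →L[ℂ] L2R H) (j : ℕ) :
    L2R H →L[ℂ] L2R H :=
  (((1 / 2 : ℝ) ^ j : ℝ) : ℂ) • (lift (s j) * Z j)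

/-- the weighted sum -/
noncomputable def B (s : ℕ → H →L[ℂ] H) (Z : ℕ → L2R H →L[ℂ] L2R H) : L2R H →L[ℂ] L2R H :=
  ∑' j, term s Z j

end sums

end WuA

end Pool.Agent.Helper23.ED

end

end

section

section

open scoped InnerProductSpace Topology BoundedContinuousFunction

open ContinuousLinearMap Filter

namespace Pool.Agent.Helper23

universe u

variable {H : Type u} [NormedAddCommGroup H] [InnerProductSpace ℂ H] [CompleteSpace H]

variable {K : Type u} [NormedAddCommGroup K] [InnerProductSpace ℂ K] [CompleteSpace K]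

variable {M N : VonNeumannAlgebra H} {ξ : H} {E : (H →L[ℂ] H) → (H →L[ℂ] H)}

theorem LamSeq.lamU {l : ℝ} {a : ℕ → H →L[ℂ] H} (h : LamSeq N ξ l a) : LamU N ξ l a := by
  refine ⟨h.1, h.2.1, fun ε hε => ?_⟩
  have h1 := h.2.2 ε hε
  rw [← Nat.cofinite_eq_atTop] at h1
  exact Filter.hyperfilter_le_cofinite h1

end Pool.Agent.Helper23

end

end

section

section

open scoped InnerProductSpace Topology ENNReal

open ContinuousLinearMap Filter MeasureTheory

set_option linter.unusedSectionVars false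

set_option linter.unusedVariables false

namespace Pool.Agent.Helper23

variable {H : Type*} [NormedAddCommGroup H] [InnerProductSpace ℂ H] [CompleteSpace H]

variable {A : VonNeumannAlgebra H}

lemma rk_mem_amp {b : H →L[ℂ] H} (hb : b ∈ A) (f g : L2R ℂ) : rk b f g ∈ amp A := by
  rw [mem_amp]
  intro a ha
  ext F : 1
  change lift a (ten f (b (sl g F))) = ten f (b (sl g (lift a F)))
  rw [lift_ten, sl_lift, commute_apply hb ha]

end Pool.Agent.Helper23

end

section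

open scoped InnerProductSpace Topology ENNReal

open ContinuousLinearMap Filter MeasureTheory

set_option linter.unusedSectionVars false

set_option linter.unusedVariables false

namespace Pool.Agent.Helper23

variable {H : Type*} [NormedAddCommGroup H] [InnerProductSpace ℂ H] [CompleteSpace H]

variable {M N : VonNeumannAlgebra H} {ξ : H} {E : (H →L[ℂ] H) → (H →L[ℂ] H)}

/-- frame sum for cut off functions -/
lemma frame_tsum {n : ℕ} {f : L2R ℂ} (hf : Pn n f = f) (p : L2R ℂ)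
    (hs : Summable (fun j : JJ => ⟪p, gJ j⟫_ℂ * ⟪gJ j, f⟫_ℂ)) :
    ∑' j : JJ, ⟪p, gJ j⟫_ℂ * ⟪gJ j, f⟫_ℂ = ⟪p, mulOp ℂ (he n) f⟫_ℂ := by
  rw [hs.tsum_prod]
  have h1 : ∀ m : ℤ, ∑' k : hw, ⟪p, gJ (m, k)⟫_ℂ * ⟪gJ (m, k), f⟫_ℂ =
      ⟪p, mulOp ℂ (fun s => dm m s * dm m s) f⟫_ℂ := by
    intro m
    have h2 : ∀ k : hw, ⟪p, gJ (m, k)⟫_ℂ * ⟪gJ (m, k), f⟫_ℂ =
        ⟪mulOp ℂ (dm m) p, hb k⟫_ℂ * ⟪hb k, mulOp ℂ (dm m) f⟫_ℂ := by
      intro k
      rw [← inner_conj_symm p, inner_gJ, inner_gJ, inner_conj_symm]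
    simp only [h2]
    rw [hb.tsum_inner_mul_inner]
    have h3 := mulOp_adj (dm_bm m) p (mulOp ℂ (dm m) f)
    rw [dm_conj, mulOp_mulOp (dm_bm m) (dm_bm m)] at h3
    exact h3
  simp only [h1]
  rw [tsum_eq_sum (s := Finset.Ico (-(n : ℤ)) n), ← inner_sum]
  · congr 1
    ext1
    have e1 : ∀ᵐ s, ∀ m : ℤ, (mulOp ℂ (fun s => dm m s * dm m s) f) s =
        (dm m s * dm m s) • f s :=
      ae_all_iff.2 fun m => mulOp_coe ((dm_bm m).mul (dm_bm m)) f
    have e2 : (∑ m ∈ Finset.Ico (-(n : ℤ)) n, mulOp ℂ (fun s => dm m s * dm m s) f : L2R ℂ)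
        =ᵐ[volume] fun s => ∑ m ∈ Finset.Ico (-(n : ℤ)) n,
          (mulOp ℂ (fun s => dm m s * dm m s) f) s := by
      have := Lp.coeFn_finsetSum (Finset.Ico (-(n : ℤ)) n)
        (fun m : ℤ => mulOp ℂ (fun s => dm m s * dm m s) f)
      filter_upwards [this] with s hs
      rw [hs]
      simp
    filter_upwards [e1, e2, mulOp_coe (he_bm n) f] with s h2 h3 h4
    rw [h3, h4, ← sum_dm, Finset.sum_smul]
    exact Finset.sum_congr rfl fun m _ => h2 m
  · intro m hm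
    have h2 : mulOp ℂ (fun s => dm m s * dm m s) f = 0 := by
      rw [← hf, Pn, mulOp_mulOp ((dm_bm m).mul (dm_bm m)) (ind_bm measurableSet_Ico)]
      ext1
      filter_upwards [mulOp_coe (((dm_bm m).mul (dm_bm m)).mul
        (ind_bm (measurableSet_Ico (a := -(n : ℝ)) (b := n)))) f,
        Lp.coeFn_zero ℂ 2 volume] with s h3 h4
      rw [h3, h4]
      by_cases h : s ∈ Set.Ico (-(n : ℝ)) n
      · rw [dm_of_notMem, zero_mul, zero_mul, zero_smul]; rfl
        rintro ⟨h5, h6⟩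
        apply hm
        rw [Finset.mem_Ico]
        have h7 : (m : ℝ) < n := lt_of_le_of_lt h5 h.2
        have h8 : (-(n : ℝ)) < m + 1 := lt_of_le_of_lt h.1 h6
        have h7' : m < (n : ℤ) := by exact_mod_cast h7
        have h8' : -(n : ℤ) < m + 1 := by exact_mod_cast h8
        exact ⟨by omega, h7'⟩
      · rw [ind_of_notMem h, mul_zero, zero_smul]; rfl
    rw [h2, inner_zero_right]

/-- polarized KMS type relation -/
lemma pol_star {u : L2R H →L[ℂ] L2R H} (hu : u ∈ GK N ξ) {b : H →L[ℂ] H} (hb : b ∈ N) {n : ℕ}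
    {f f' : L2R ℂ} (hf : Pn n f = f) (hf' : Pn n f' = f') :
    ⟪ten f' (b ξ), u (ten (mulOp ℂ (he n) f) ξ)⟫_ℂ =
      ⟪ten (mulOp ℂ (he n) f') ξ, u (ten f ((star b) ξ))⟫_ℂ := by
  have hZA : rk b e0 f ∈ amp N := rk_mem_amp hb _ _
  have hYA : rk 1 e0 f' ∈ amp N := rk_mem_amp (one_mem N) _ _
  have hus := GK_star hu
  have hZf : SX ξ (rk b e0 f) ≠ ⊤ := by
    rw [SX_rk]
    exact ENNReal.mul_ne_top ENNReal.ofReal_ne_top (q0_lt_top hf)
  have hYf : SX ξ (rk 1 e0 f') ≠ ⊤ := by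
    rw [SX_rk]
    exact ENNReal.mul_ne_top ENNReal.ofReal_ne_top (q0_lt_top hf')
  have hZuA : rk b e0 f * star u ∈ amp N := mul_mem hZA hus.1
  have hZuf : SX ξ (rk b e0 f * star u) ≠ ⊤ := by rw [hus.2.2.2 _ hZA]; exact hZf
  have hYuf : SX ξ (rk 1 e0 f' * u) ≠ ⊤ := by rw [hu.2.2.2 _ hYA]; exact hYf
  have key := polar_inv hu hZuA hYA hZuf hYf
  have hzz : rk b e0 f * star u * u = rk b e0 f := by rw [mul_assoc, hu.2.1, mul_one]
  rw [hzz] at key
  have e00 : ⟪e0, e0⟫_ℂ = 1 := by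
    rw [inner_self_eq_norm_sq_to_K, e0_norm]; simp
  set p : L2R ℂ := (adjoint (u.comp (axi ξ))) (ten f' (b ξ)) with hp
  have hp' : ∀ g, ⟪p, g⟫_ℂ = ⟪ten f' (b ξ), u (ten g ξ)⟫_ℂ := by
    intro g
    rw [hp, adjoint_inner_left]
    rfl
  set p' : L2R ℂ := (adjoint (axi ξ)) (u (ten f ((star b) ξ))) with hp2
  have hp2' : ∀ g, ⟪g, p'⟫_ℂ = ⟪ten g ξ, u (ten f ((star b) ξ))⟫_ℂ := by
    intro g
    rw [hp2, adjoint_inner_right]
    rfl
  have t1 : ∀ j : JJ, ⟪rk b e0 f (ten (gJ j) ξ),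
      (rk (1 : H →L[ℂ] H) e0 f' * u) (ten (gJ j) ξ)⟫_ℂ =
      ⟪p, gJ j⟫_ℂ * ⟪gJ j, f⟫_ℂ := by
    intro j
    rw [hp']
    change ⟪rk b e0 f (ten (gJ j) ξ), rk 1 e0 f' (u (ten (gJ j) ξ))⟫_ℂ = _
    rw [rk_apply, rk_apply, inner_ten, e00, one_mul, one_apply_eq_self, sl_ten, map_smul,
      inner_smul_left, inner_conj_symm, inner_sl, mul_comm]
  have t2 : ∀ j : JJ, ⟪(rk b e0 f * star u) (ten (gJ j) ξ), rk 1 e0 f' (ten (gJ j) ξ)⟫_ℂ =
      ⟪f', gJ j⟫_ℂ * ⟪gJ j, p'⟫_ℂ := by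
    intro j
    rw [hp2']
    change ⟪rk b e0 f ((star u) (ten (gJ j) ξ)), rk 1 e0 f' (ten (gJ j) ξ)⟫_ℂ = _
    rw [rk_apply, rk_apply, inner_ten, e00, one_mul, one_apply_eq_self, sl_ten,
      inner_smul_right]
    congr 1
    rw [← inner_star_right b, inner_sl', inner_star_left]
  simp only [t1, t2] at key
  have s1 : Summable fun j : JJ => ⟪p, gJ j⟫_ℂ * ⟪gJ j, f⟫_ℂ := by
    have := (hasSum_polar hZf hYuf).summable
    simpa only [t1] using this
  have s2 : Summable fun j : JJ => ⟪f', gJ j⟫_ℂ * ⟪gJ j, p'⟫_ℂ := by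
    have := (hasSum_polar hZuf hYf).summable
    simpa only [t2] using this
  rw [frame_tsum hf p s1] at key
  have s3 : (fun j : JJ => ⟪f', gJ j⟫_ℂ * ⟪gJ j, p'⟫_ℂ) =
      fun j : JJ => (starRingEnd ℂ) (⟪p', gJ j⟫_ℂ * ⟪gJ j, f'⟫_ℂ) := by
    funext j
    rw [map_mul, inner_conj_symm, inner_conj_symm, mul_comm]
  have s4 : Summable fun j : JJ => ⟪p', gJ j⟫_ℂ * ⟪gJ j, f'⟫_ℂ := by
    rw [s3] at s2
    have := s2.star
    simpa using this
  rw [s3, ← Complex.conj_tsum, frame_tsum hf' p' s4, hp', inner_conj_symm, hp2'] at key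
  exact key

end Pool.Agent.Helper23

end

section

open scoped InnerProductSpace Topology ENNReal

open ContinuousLinearMap Filter MeasureTheory

namespace Pool.Agent.Helper23

variable {H : Type*} [NormedAddCommGroup H] [InnerProductSpace ℂ H] [CompleteSpace H]

variable {G : Type*} [NormedAddCommGroup G] [InnerProductSpace ℂ G] [CompleteSpace G]

variable {M N : VonNeumannAlgebra H} {ξ : H} {E : (H →L[ℂ] H) → (H →L[ℂ] H)}

lemma he_hi {n : ℕ} {f : L2R ℂ} (hf : Pn n f = f) :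
    mulOp ℂ (he n) (mulOp ℂ (hi n) f) = f := by
  rw [mulOp_mulOp (he_bm n) (hi_bm n)]
  ext1
  filter_upwards [mulOp_coe ((he_bm n).mul (hi_bm n)) f, Pn_ae hf] with s hs h
  rw [hs]
  by_cases h1 : s ∈ Set.Ico (-(n : ℝ)) n
  · rw [he_of_mem h1, hi_of_mem h1, ← Complex.ofReal_mul, ← Real.exp_add]
    simp
  · rw [h h1, smul_zero]

/-- partners of slices of elements of the centralizer of the weight -/
lemma partner_slX {u : L2R H →L[ℂ] L2R H} (hu : u ∈ GK N ξ) {n : ℕ} {F g : L2R ℂ}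
    (hF : Pn n F = F) (hg : Pn n g = g) :
    Partner N ξ (slX u F g) (slX u (mulOp ℂ (hi n) F) (mulOp ℂ (he n) g)) := by
  refine ⟨slX_mem hu.1 _ _, slX_mem hu.1 _ _, fun z hz => ?_⟩
  have hF' : Pn n (mulOp ℂ (hi n) F) = mulOp ℂ (hi n) F := Pn_fix_mulOp (hi_bm n) hF
  have h1 := pol_star hu (star_mem hz) hg hF'
  rw [he_hi hF, star_star] at h1
  rw [inner_slX, ← h1, ← inner_slX, inner_star_left]

end Pool.Agent.Helper23

end

section

open scoped InnerProductSpace Topology ENNReal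

open ContinuousLinearMap Filter MeasureTheory

namespace Pool.Agent.Helper23

variable {H : Type*} [NormedAddCommGroup H] [InnerProductSpace ℂ H] [CompleteSpace H]

variable {M N : VonNeumannAlgebra H} {ξ : H} {E : (H →L[ℂ] H) → (H →L[ℂ] H)}

lemma sl_smul_left (c : ℂ) (f : L2R ℂ) (F : L2R H) :
    sl (c • f) F = (starRingEnd ℂ) c • sl f F := by
  refine ext_inner_left ℂ fun η => ?_
  rw [inner_smul_right, inner_sl, inner_sl, ten_smul_left, inner_smul_left]

lemma slX_smul_smul (X : L2R H →L[ℂ] L2R H) (r r' : ℝ) (f g : L2R ℂ) :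
    slX X ((r : ℂ) • f) ((r' : ℂ) • g) = ((r * r' : ℝ) : ℂ) • slX X f g := by
  ext η
  rw [slX_apply, sl_smul_left, ten_smul_left, map_smul, map_smul, smul_apply, slX_apply,
    Complex.conj_ofReal, smul_smul, Complex.ofReal_mul]

/-- partners of the slices -/
lemma partner_sa {u : L2R H →L[ℂ] L2R H} (hu : u ∈ GK N ξ) {t : ℝ} (ht : 0 < t) (g : L2R ℂ)
    (l : ℤ × hw × ℤ) :
    Partner N ξ (sa u t g l) (((Real.exp ((l.2.2 - l.1) * t) : ℝ) : ℂ) • sb u t g l) := by
  obtain ⟨i, k, j⟩ := l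
  obtain ⟨n, hn⟩ := exists_nat_ge (max ((|i| + 1 : ℝ) * t) ((|j| + 1 : ℝ) * t))
  have hni : (|i| + 1 : ℝ) * t ≤ n := (le_max_left _ _).trans hn
  have hnj : (|j| + 1 : ℝ) * t ≤ n := (le_max_right _ _).trans hn
  have hP : ∀ (i : ℤ), (|i| + 1 : ℝ) * t ≤ n → ∀ f : L2R ℂ,
      Pn n (mulOp ℂ (ind (win t i)) f) = mulOp ℂ (ind (win t i)) f := by
    intro i hi f
    refine Pn_of_ae ?_
    filter_upwards [mulOp_coe (ind_bm (win_meas t i)) f] with s hs h
    rw [hs, ind_of_notMem (fun hcon => h (win_sub_Ico ht hi hcon)), zero_smul]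
  have h1 := partner_slX hu (hP i hni (hb k)) (hP j hnj g)
  have e1 : mulOp ℂ (hi n) (mulOp ℂ (ind (win t i)) (hb k)) =
      ((Real.exp (-(i * t)) : ℝ) : ℂ) • mulOp ℂ (em t i) (hb k) := by
    rw [mulOp_mulOp (hi_bm n) (ind_bm (win_meas t i)), ← mulOp_constMul _ (em_bm t i)]
    ext1
    filter_upwards [mulOp_coe ((hi_bm n).mul (ind_bm (win_meas t i))) (hb k : L2R ℂ),
      mulOp_coe ((em_bm t i).constMul ((Real.exp (-(i * t)) : ℝ) : ℂ)) (hb k : L2R ℂ)]
      with s e1 e2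
    rw [e1, e2]
    by_cases h : s ∈ win t i
    · rw [hi_of_mem (win_sub_Ico ht hni h), ind_of_mem h, em_of_mem h, mul_one,
        ← Complex.ofReal_mul, ← Real.exp_add]
      congr 4
      ring
    · rw [ind_of_notMem h, em_of_notMem h, mul_zero, mul_zero]
  have e2 : mulOp ℂ (he n) (mulOp ℂ (ind (win t j)) g) =
      ((Real.exp (j * t) : ℝ) : ℂ) • mulOp ℂ (ep t j) g := by
    rw [mulOp_mulOp (he_bm n) (ind_bm (win_meas t j)), ← mulOp_constMul _ (ep_bm ht j)]
    ext1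
    filter_upwards [mulOp_coe ((he_bm n).mul (ind_bm (win_meas t j))) g,
      mulOp_coe ((ep_bm ht j).constMul ((Real.exp (j * t) : ℝ) : ℂ)) g] with s e1 e2
    rw [e1, e2]
    by_cases h : s ∈ win t j
    · rw [he_of_mem (win_sub_Ico ht hnj h), ind_of_mem h, ep_of_mem h, mul_one,
        ← Complex.ofReal_mul, ← Real.exp_add]
      congr 4
      ring
    · rw [ind_of_notMem h, ep_of_notMem h, mul_zero, mul_zero]
  rw [e1, e2, slX_smul_smul, ← Real.exp_add] at h1
  have e3 : -(i * t) + (j : ℝ) * t = (j - i) * t := by ring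
  rw [e3] at h1
  exact h1

end Pool.Agent.Helper23

end

end

section

section

open scoped InnerProductSpace Topology BoundedContinuousFunction

open ContinuousLinearMap Filter MeasureTheory

namespace Pool.Agent.Helper88.CS

open Pool.Agent.Helper23

open Pool.Agent.Helper78.BC (Std rm Fixed)

variable {H : Type*} [NormedAddCommGroup H] [InnerProductSpace ℂ H] [CompleteSpace H]

variable {A : VonNeumannAlgebra H} {ξ : H} {J : H →L[ℝ] H}
  {Ψ : (ℝ →ᵇ ℂ) →⋆ₐ[ℂ] (H →L[ℂ] H)} {R : H →L[ℂ] H} {D : H →L[ℝ] H}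

namespace ConeAux

variable (h : St A ξ J Ψ R D)

include h

theorem zero_of {c : H →L[ℂ] H} (hc : c ∈ A) (h0 : ⟪J (c ξ), (star c) ξ⟫_ℂ = 0)
    {b : H →L[ℂ] H} (hb : b ∈ A) : ⟪J (c ξ), (star b) ξ⟫_ℂ = 0 := by
  set B : ℂ := ⟪J (c ξ), (star b) ξ⟫_ℂ with hB
  have key : ∀ t : ℝ, 0 ≤ -(2 * t * ‖B‖ ^ 2) + (⟪J (b ξ), (star b) ξ⟫_ℂ).re := by
    intro t
    set l : ℂ := -((t : ℂ) * (starRingEnd ℂ) B) with hl
    have hx : l • c + b ∈ A := add_mem (smul_mem' l hc) hb
    have h1 := h.J_pos _ hx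
    have h2 : J ((l • c + b) ξ) = (starRingEnd ℂ) l • J (c ξ) + J (b ξ) := by
      rw [_root_.add_apply, _root_.smul_apply, map_add, h.J_conj]
    have h3 : (star (l • c + b)) ξ = (starRingEnd ℂ) l • (star c) ξ + (star b) ξ := by
      rw [star_add, star_smul, _root_.add_apply, _root_.smul_apply]
      rfl
    rw [h2, h3, inner_add_left, inner_add_right, inner_add_right, inner_smul_left, inner_smul_left,
      inner_smul_right, inner_smul_right, h0, herm h hb hc, ← hB, Complex.conj_conj] at h1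
    have h4 : l * B = -((t * ‖B‖ ^ 2 : ℝ) : ℂ) := by
      rw [hl, neg_mul, mul_assoc, ← Complex.normSq_eq_conj_mul_self, Complex.normSq_eq_norm_sq]
      push_cast
      ring
    have h5 : (starRingEnd ℂ) l * (starRingEnd ℂ) B = -((t * ‖B‖ ^ 2 : ℝ) : ℂ) := by
      rw [← map_mul, h4, map_neg, Complex.conj_ofReal]
    rw [h4, h5] at h1
    simp only [mul_zero, zero_add, Complex.add_re, Complex.neg_re, Complex.ofReal_re] at h1
    linarith
  by_contra hne
  have hpos : 0 < ‖B‖ ^ 2 := by positivity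
  have h6 := key (((⟪J (b ξ), (star b) ξ⟫_ℂ).re + 1) / (2 * ‖B‖ ^ 2))
  have h7 : 2 * (((⟪J (b ξ), (star b) ξ⟫_ℂ).re + 1) / (2 * ‖B‖ ^ 2)) * ‖B‖ ^ 2
      = (⟪J (b ξ), (star b) ξ⟫_ℂ).re + 1 := by
    field_simp
  rw [h7] at h6
  (clear * - h6; linarith)

end ConeAux

theorem kap_J (h : St A ξ J Ψ R D) {u : H →L[ℂ] H} (hu : u ∈ A) : J (kap J ξ u) = kap J ξ u := by
  have hu' : star u ∈ A := star_mem hu
  unfold kap
  rw [ConeAux.jc h hu' hu']

theorem kap_sep (h : St A ξ J Ψ R D) {u : H →L[ℂ] H} (hu : u ∈ A) (hu1 : star u * u = 1) :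
    ∀ a ∈ A, a (kap J ξ u) = 0 → a = 0 := by
  intro a ha h0
  have hu' : star u ∈ A := star_mem hu
  have hc : a * star u ∈ A := mul_mem ha hu'
  have h1 : (star u) (J ((a * star u) ξ)) = 0 := by
    rw [← ConeAux.jc h hc hu']
    have h2 : (a * star u) (J ((star u) ξ)) = 0 := h0
    rw [h2, map_zero]
  have h3 : ⟪J ((a * star u) ξ), (star (a * star u)) ξ⟫_ℂ = 0 := by
    rw [star_eq_adjoint (a * star u), adjoint_inner_right, ContinuousLinearMap.mul_apply, h1,
      map_zero, inner_zero_left]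
  have h4 : J ((a * star u) ξ) = 0 := by
    have h5 : ∀ v : H, ⟪J ((a * star u) ξ), v⟫_ℂ = 0 := by
      intro v
      have hcl : IsClosed {w : H | ⟪J ((a * star u) ξ), w⟫_ℂ = 0} :=
        isClosed_eq (by fun_prop) continuous_const
      have hsub : (orb A ξ : Set H) ⊆ {w : H | ⟪J ((a * star u) ξ), w⟫_ℂ = 0} := by
        rintro _ ⟨b, hb, rfl⟩
        have h6 := ConeAux.zero_of h hc h3 (b := star b) (star_mem hb)
        rwa [star_star] at h6
      exact hcl.closure_subset_iff.mpr hsub (h.dense v)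
    exact inner_self_eq_zero.mp (h5 _)
  have h7 : (a * star u) ξ = 0 := by
    rw [← h.J_J ((a * star u) ξ), h4, map_zero]
  have h8 := h.sep _ hc h7
  calc a = (a * star u) * u := by rw [mul_assoc, hu1, mul_one]
    _ = 0 := by rw [h8, zero_mul]

theorem kap_dense (h : St A ξ J Ψ R D) {u : H →L[ℂ] H} (hu : u ∈ A) (hu1 : star u * u = 1) :
    Dense (orb A (kap J ξ u) : Set H) := by
  have h1 := dense_of_separating A.commutant (kap J ξ u) (by
    intro b hb h0
    obtain ⟨a, ha, hab⟩ := h.J_mem b hb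
    have h2 : a (kap J ξ u) = 0 := by
      rw [← h.J_J (a (kap J ξ u))]
      have h3 := hab (kap J ξ u)
      rw [h0, kap_J h hu] at h3
      rw [← h3, map_zero]
    have h4 := kap_sep h hu hu1 a ha h2
    ext v
    rw [hab v, h4]
    simp)
  rwa [VonNeumannAlgebra.commutant_commutant] at h1

end Pool.Agent.Helper88.CS

end

end

section

section

open scoped InnerProductSpace Topology ENNReal BoundedContinuousFunction

open ContinuousLinearMap Filter MeasureTheory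

namespace Pool.Agent.Helper23.ED

open Pool.Agent.Helper23 Pool.Agent.Helper23.RBF

open Pool.Agent.Helper78.BC.Transport (Sub r)

universe u

open TopologicalSpace

variable {H : Type*} [NormedAddCommGroup H] [InnerProductSpace ℂ H] [CompleteSpace H]

variable {N : VonNeumannAlgebra H} {ξ : H} {W : ℝ → H →L[ℂ] H}

theorem exists_fam [SeparableSpace H] (hW : UG W) (hd : Dense (orb N.commutant ξ : Set H))
    (hs : ∀ s, ∃ u ∈ N, star u * u = 1 ∧ u * star u = 1 ∧
      ∀ t, u * W t = ph t s • (W t * u)) :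
    ∃ Z : ℕ → (L2R H →L[ℂ] L2R H), (∀ j, Z j ∈ amp N) ∧ (∀ j, ‖Z j‖ ≤ 1) ∧
      (∀ j a, Z j * lift (W a) = UV W a * Z j) ∧
      (∀ F, (∀ j, Z j F = 0) → F = 0) ∧ ∀ F, (∀ j, (star (Z j)) F = 0) → F = 0 := by
  have : Nonempty H := ⟨0⟩
  let η : ℕ → H := denseSeq H
  have hη : DenseRange η := denseRange_denseSeq H
  choose x hxC hnear hDec hDec' using fun j => exists_near hW hd (η j)
  have happ : ∀ s, ∃ u : H →L[ℂ] H, star u * u = 1 ∧ u * star u = 1 ∧ ∀ v : H, ∀ ε : ℝ, 0 < ε →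
      ∃ j, ‖x j s v - u v‖ < ε := by
    intro s
    obtain ⟨u, huN, h1, h2, h3⟩ := hs s
    have hu1 := SlC.norm_le_one h1
    exact ⟨u, h1, h2, fun v ε hε => SlC.approx hd hη (fun j => (hxC j s).1)
      (fun j => (hxC j s).2.1) huN hu1 (fun j => hnear j s u ⟨huN, hu1, h3⟩) v hε⟩
  refine ⟨fun j => dec (x j), fun j => dec_mem_amp (hDec j) fun s => (hxC j s).1,
    fun j => dec_norm zero_le_one fun s => (hxC j s).2.1, fun j a => ?_, fun F hF => ?_,
    fun F hF => ?_⟩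
  · ext F : 1
    ext1
    change dec (x j) (lift (W a) F) =ᵐ[volume] lift (W a) (mulOp H (ems a) (dec (x j) F))
    filter_upwards [dec_coe (hDec j) (lift (W a) F), lift_coe (W a) F,
      lift_coe (W a) (mulOp H (ems a) (dec (x j) F)), mulOp_coe (SlC.bm_ems a) (dec (x j) F),
      dec_coe (hDec j) F] with s h1 h2 h3 h4 h5
    rw [h1, h2, h3, h4, h5, map_smul]
    exact congrArg (fun T : H →L[ℂ] H => T (F s)) ((hxC j s).2.2 a)
  · have h1 : ∀ᵐ s, ∀ j, x j s (F s) = 0 := by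
      rw [ae_all_iff]
      intro j
      have h2 : dec (x j) F =ᵐ[volume] 0 := by
        have h3 : dec (x j) F = 0 := hF j
        rw [h3]
        exact Lp.coeFn_zero _ _ _
      filter_upwards [dec_coe (hDec j) F, h2] with s h4 h5
      rw [← h4, h5]
      rfl
    ext1
    refine EventuallyEq.trans ?_ (Lp.coeFn_zero _ _ _).symm
    filter_upwards [h1] with s h2
    obtain ⟨u, hu, _, happ⟩ := happ s
    have h3 : u (F s) = 0 := by
      by_contra hne
      obtain ⟨j, hj⟩ := happ (F s) ‖u (F s)‖ (norm_pos_iff.2 hne)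
      rw [h2 j, zero_sub, norm_neg] at hj
      exact lt_irrefl _ hj
    have h4 : (star u * u) (F s) = F s := by rw [hu]; rfl
    rw [← h4]
    change star u (u (F s)) = 0
    rw [h3, map_zero]
  · have h1 : ∀ᵐ s, ∀ j, star (x j s) (F s) = 0 := by
      rw [ae_all_iff]
      intro j
      have h2 : dec (fun s => star (x j s)) F =ᵐ[volume] 0 := by
        have h3 : star (dec (x j)) F = 0 := hF j
        rw [SlC.dec_star (hDec j) (hDec' j)] at h3
        rw [h3]
        exact Lp.coeFn_zero _ _ _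
      filter_upwards [dec_coe (hDec' j) F, h2] with s h4 h5
      rw [← h4, h5]
      rfl
    ext1
    refine EventuallyEq.trans ?_ (Lp.coeFn_zero _ _ _).symm
    filter_upwards [h1] with s h2
    obtain ⟨u, _, hu, happ⟩ := happ s
    have h3 : ∀ v : H, ⟪F s, u v⟫_ℂ = 0 := by
      intro v
      by_contra hne
      have hpos : 0 < ‖⟪F s, u v⟫_ℂ‖ := norm_pos_iff.2 hne
      obtain ⟨j, hj⟩ := happ v (‖⟪F s, u v⟫_ℂ‖ / (‖F s‖ + 1)) (by (clear * - hne; positivity))
      have h4 : ⟪F s, x j s v⟫_ℂ = 0 := by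
        rw [← ContinuousLinearMap.adjoint_inner_left, ← ContinuousLinearMap.star_eq_adjoint, h2 j,
          inner_zero_left]
      have h5 : ‖⟪F s, u v⟫_ℂ‖ ≤ ‖F s‖ * ‖x j s v - u v‖ := by
        have h6 : ⟪F s, u v⟫_ℂ = -⟪F s, x j s v - u v⟫_ℂ := by
          rw [inner_sub_right, h4]
          ring
        rw [h6, norm_neg]
        exact norm_inner_le_norm _ _
      have h7 : ‖F s‖ * ‖x j s v - u v‖ ≤ ‖F s‖ * (‖⟪F s, u v⟫_ℂ‖ / (‖F s‖ + 1)) :=
        mul_le_mul_of_nonneg_left hj.le (norm_nonneg _)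
      have h8 : ‖F s‖ * (‖⟪F s, u v⟫_ℂ‖ / (‖F s‖ + 1)) < ‖⟪F s, u v⟫_ℂ‖ := by
        rw [← mul_div_assoc, div_lt_iff₀ (by (clear * -; positivity))]
        (clear * - hpos; nlinarith [norm_nonneg (F s)])
      linarith
    have h9 : ⟪F s, F s⟫_ℂ = 0 := by
      have h10 : (u * star u) (F s) = F s := by rw [hu]; rfl
      have h11 := h3 (star u (F s))
      have h12 : u (star u (F s)) = F s := h10
      rwa [h12] at h11
    exact inner_self_eq_zero.1 h9

end Pool.Agent.Helper23.ED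

end

section

open scoped InnerProductSpace Topology ENNReal BoundedContinuousFunction

open ContinuousLinearMap Filter MeasureTheory

namespace Pool.Agent.Helper23.ED

open Pool.Agent.Helper23 Pool.Agent.Helper23.RBF

open Pool.Agent.Helper78.BC.Transport (Sub r)

universe u

open TopologicalSpace

variable {H : Type*} [NormedAddCommGroup H] [InnerProductSpace ℂ H] [CompleteSpace H]

variable {N : VonNeumannAlgebra H} {ξ : H} {W : ℝ → H →L[ℂ] H}

namespace WuA

lemma UV_star (hW : UG W) (a : ℝ) : star (UV W a) = UV W (-a) := by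
  rw [UV, UV, star_mul, ← lift_star, hW.star, mulOp_star (ems_bm a), ems_conj]
  ext F : 1
  exact mulOp_lift (ems_bm (-a)) (W (-a)) F

section sums

variable {s : ℕ → H →L[ℂ] H} {Z : ℕ → L2R H →L[ℂ] L2R H}

lemma summable_term (h1 : ∀ i, star (s i) * s i = 1) (hZ : ∀ j, ‖Z j‖ ≤ 1) :
    Summable (term s Z) := by
  refine Summable.of_norm_bounded (g := fun j : ℕ => (1 / 2 : ℝ) ^ j)
    (summable_geometric_of_lt_one (by norm_num) (by norm_num)) fun j => ?_
  unfold term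
  rw [norm_smul, Complex.norm_real, Real.norm_of_nonneg (by positivity)]
  have h2 : ‖lift (s j) * Z j‖ ≤ 1 := by
    refine (norm_mul_le _ _).trans ?_
    calc ‖lift (s j)‖ * ‖Z j‖ ≤ 1 * 1 := by
          refine mul_le_mul ((lift_norm _).trans (norm_le_one (h1 j))) (hZ j) (norm_nonneg _)
            zero_le_one
      _ = 1 := one_mul 1
  exact mul_le_of_le_one_right (by (clear * -; positivity)) h2

lemma star_mul_B (h1 : ∀ i, star (s i) * s i = 1) (h2 : ∀ i j, i ≠ j → star (s i) * s j = 0)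
    (hZ : ∀ j, ‖Z j‖ ≤ 1) (k : ℕ) :
    star (lift (s k)) * B s Z = (((1 / 2 : ℝ) ^ k : ℝ) : ℂ) • Z k := by
  have h3 := (summable_term h1 hZ).hasSum.mul_left (star (lift (s k)))
  have h4 : HasSum (fun j => star (lift (s k)) * term s Z j)
      (star (lift (s k)) * term s Z k) := by
    refine hasSum_single k fun j hj => ?_
    unfold term
    rw [mul_smul_comm, ← mul_assoc, ← lift_star, ← lift_mul, h2 k j (Ne.symm hj), lift_zero',
      zero_mul, smul_zero]
  rw [B, h3.unique h4]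
  unfold term
  rw [mul_smul_comm, ← mul_assoc, ← lift_star, ← lift_mul, h1, lift_one, one_mul]

lemma B_comm (h1 : ∀ i, star (s i) * s i = 1) (hZ : ∀ j, ‖Z j‖ ≤ 1)
    {X Y : L2R H →L[ℂ] L2R H} (hXY : ∀ j, Z j * X = Y * Z j)
    (hY : ∀ j, lift (s j) * Y = Y * lift (s j)) : B s Z * X = Y * B s Z := by
  have h3 := (summable_term h1 hZ).hasSum.mul_right X
  have h4 := (summable_term h1 hZ).hasSum.mul_left Y
  have h5 : (fun j => term s Z j * X) = fun j => Y * term s Z j := by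
    funext j
    unfold term
    rw [smul_mul_assoc, mul_assoc, hXY, ← mul_assoc, hY, mul_assoc, mul_smul_comm]
  rw [h5] at h3
  exact h3.unique h4

lemma eq_zero_of_B (h1 : ∀ i, star (s i) * s i = 1) (h2 : ∀ i j, i ≠ j → star (s i) * s j = 0)
    (hZ : ∀ j, ‖Z j‖ ≤ 1) (hZ0 : ∀ F, (∀ j, Z j F = 0) → F = 0) {F : L2R H}
    (hF : B s Z F = 0) : F = 0 := by
  refine hZ0 F fun k => ?_
  have h3 := congrArg (fun T : L2R H →L[ℂ] L2R H => T F) (star_mul_B h1 h2 hZ k)
  change (star (lift (s k))) (B s Z F) = (((1 / 2 : ℝ) ^ k : ℝ) : ℂ) • Z k F at h3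
  rw [hF, map_zero] at h3
  have h4 : (((1 / 2 : ℝ) ^ k : ℝ) : ℂ) ≠ 0 := by
    rw [Complex.ofReal_ne_zero]
    positivity
  exact (smul_eq_zero.1 h3.symm).resolve_left h4

end sums

end WuA

open WuA in
theorem exists_W_UV [SeparableSpace H] (hW : UG W)
    (hd : Dense (orb N.commutant ξ : Set H))
    (hs : ∀ s, ∃ u ∈ N, star u * u = 1 ∧ u * star u = 1 ∧
      ∀ t, u * W t = ph t s • (W t * u))
    {v w : H →L[ℂ] H} (hv : v ∈ N) (hw : w ∈ N) (hvv : star v * v = 1) (hww : star w * w = 1)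
    (hvw : star v * w = 0) (hvW : ∀ t, v * W t = W t * v) (hwW : ∀ t, w * W t = W t * w) :
    ∃ V : H ≃ₗᵢ[ℂ] L2R H, (∀ a ∈ N.commutant, ∀ x, V (a x) = lift a (V x)) ∧
      ∀ t x, V (W t x) = UV W t (V x) := by
  obtain ⟨Z, hZN, hZ1, hZW, hZ0, hZ0'⟩ := exists_fam hW hd hs
  obtain ⟨h3, h4⟩ := pow_isom hvv hww hvw
  set s : ℕ → H →L[ℂ] H := fun n => v ^ n * w with hsdef
  have hsN : ∀ n, s n ∈ N := fun n => mul_mem (pow_mem hv n) hw
  have hsW : ∀ n t, s n * W t = W t * s n := by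
    intro n t
    have h5 : v ^ n * W t = W t * v ^ n := (Commute.pow_left (hvW t) n)
    rw [hsdef]
    change v ^ n * w * W t = W t * (v ^ n * w)
    rw [mul_assoc, hwW, ← mul_assoc, h5, mul_assoc]
  have hstarW : ∀ t, star (W t) = W (-t) := hW.star
  -- the algebra containing the isometries
  set P : VonNeumannAlgebra H := cvn ((N.commutant : Set (H →L[ℂ] H)) ∪ Set.range W) with hP
  have hsP : ∀ n, s n ∈ P := by
    intro n
    rw [hP, mem_cvn]
    rintro g (hg | ⟨t, rfl⟩)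
    · exact ⟨(mem_comm_iff.1 hg _ (hsN n)).symm, (mem_comm_iff.1 (star_mem hg) _ (hsN n)).symm⟩
    · exact ⟨(hsW n t).symm, by rw [hstarW]; exact (hsW n _).symm⟩
  have : Countable Pool.Agent.Helper23.hw := hw_countable
  obtain ⟨n, hn⟩ := exists_injective_nat Pool.Agent.Helper23.hw
  obtain ⟨J, hJ, hJa⟩ := exists_J (N := P) (s := fun i : Pool.Agent.Helper23.hw => s (n i))
    (fun i => hsP _) (fun i => h3 _) (fun i j hij => h4 _ _ (hn.ne hij))
  have hJN : ∀ a ∈ N.commutant, ∀ x, J (lift a x) = a (J x) := fun a ha =>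
    hJa a (mem_cvn_commutant (Or.inl ha))
  have hJW : ∀ t x, J (lift (W t) x) = W t (J x) := fun t =>
    hJa _ (mem_cvn_commutant (Or.inr ⟨t, rfl⟩))
  -- commutation with the lifts
  have hsa : ∀ j, ∀ a ∈ N.commutant, lift (s j) * lift a = lift a * lift (s j) := by
    intro j a ha
    rw [← lift_mul, ← lift_mul, mem_comm_iff.1 ha _ (hsN j)]
  have hsWl : ∀ j t, lift (s j) * lift (W t) = lift (W t) * lift (s j) := by
    intro j t
    rw [← lift_mul, ← lift_mul, hsW]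
  have hsUV : ∀ j t, lift (s j) * UV W t = UV W t * lift (s j) := by
    intro j t
    have h5 : mulOp H (ems t) * lift (s j) = lift (s j) * mulOp H (ems t) := by
      ext F : 1
      exact mulOp_lift (ems_bm t) (s j) F
    rw [UV, ← mul_assoc, hsWl, mul_assoc, ← h5, ← mul_assoc]
  have hZs1 : ∀ j, ‖star (Z j)‖ ≤ 1 := fun j => by
    rw [ContinuousLinearMap.star_eq_adjoint, LinearIsometryEquiv.norm_map]
    exact hZ1 j
  have hZs : ∀ j t, star (Z j) * UV W t = lift (W t) * star (Z j) := by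
    intro j t
    have h5 := congrArg star (hZW j (-t))
    rw [star_mul, star_mul, ← lift_star, hstarW, UV_star hW, neg_neg] at h5
    exact h5.symm
  -- the two intertwiners
  have hB1 : ∀ t, B s Z * lift (W t) = UV W t * B s Z := fun t =>
    B_comm h3 hZ1 (fun j => hZW j t) fun j => hsUV j t
  have hB1a : ∀ a ∈ N.commutant, B s Z * lift a = lift a * B s Z := fun a ha =>
    B_comm h3 hZ1 (fun j => (mem_amp.1 (hZN j) a ha).symm) fun j => hsa j a ha
  have hB2 : ∀ t, B s (fun j => star (Z j)) * UV W t =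
      lift (W t) * B s (fun j => star (Z j)) := fun t =>
    B_comm h3 hZs1 (fun j => hZs j t) fun j => hsWl j t
  have hB2a : ∀ a ∈ N.commutant, B s (fun j => star (Z j)) * lift a =
      lift a * B s (fun j => star (Z j)) := fun a ha =>
    B_comm h3 hZs1 (fun j => (mem_amp.1 (star_mem (hZN j)) a ha).symm) fun j => hsa j a ha
  have hap : ∀ {X Y X' Y' : L2R H →L[ℂ] L2R H}, X * Y = X' * Y' → ∀ F, X (Y F) = X' (Y' F) :=
    fun h F => congrArg (fun T : L2R H →L[ℂ] L2R H => T F) h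
  set A1 : H →L[ℂ] L2R H := (B s Z).comp (iot H e0) with hA1
  set A2 : L2R H →L[ℂ] H := J.comp (B s (fun j => star (Z j))) with hA2
  have hiot : ∀ (a : H →L[ℂ] H) x, iot H e0 (a x) = lift a (iot H e0 x) := by
    intro a x
    rw [iot_apply, iot_apply, lift_ten]
  have hA1a : ∀ a ∈ N.commutant, ∀ x, A1 (a x) = lift a (A1 x) := by
    intro a ha x
    change B s Z (iot H e0 (a x)) = lift a (B s Z (iot H e0 x))
    rw [hiot]
    exact hap (hB1a a ha) _
  have hA1W : ∀ t x, A1 (W t x) = UV W t (A1 x) := by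
    intro t x
    change B s Z (iot H e0 (W t x)) = UV W t (B s Z (iot H e0 x))
    rw [hiot]
    exact hap (hB1 t) _
  have hA2a : ∀ a ∈ N.commutant, ∀ F, A2 (lift a F) = a (A2 F) := by
    intro a ha F
    change J (B s (fun j => star (Z j)) (lift a F)) = a (J (B s (fun j => star (Z j)) F))
    rw [← hJN a ha]
    exact congrArg J (hap (hB2a a ha) F)
  have hA2W : ∀ t F, A2 (UV W t F) = W t (A2 F) := by
    intro t F
    change J (B s (fun j => star (Z j)) (UV W t F)) = W t (J (B s (fun j => star (Z j)) F))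
    rw [← hJW t]
    exact congrArg J (hap (hB2 t) F)
  have hA1i : ∀ x, A1 x = 0 → x = 0 := by
    intro x hx
    have h5 : iot H e0 x = 0 := eq_zero_of_B h3 h4 hZ1 hZ0 hx
    rw [iot_apply, ← norm_eq_zero, norm_ten, e0_norm, one_mul, norm_eq_zero] at h5
    exact h5
  have hA2i : ∀ F, A2 F = 0 → F = 0 := by
    intro F hF
    refine eq_zero_of_B h3 h4 hZs1 hZ0' ?_
    have h5 : J (B s (fun j => star (Z j)) F) = 0 := hF
    have h6 := hJ (B s (fun j => star (Z j)) F) (B s (fun j => star (Z j)) F)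
    rw [h5, inner_zero_left] at h6
    exact inner_self_eq_zero.1 h6.symm
  obtain ⟨I1, hI1, hI1c⟩ := exists_isom_of_inj A1 hA1i
  obtain ⟨I2, hI2, hI2c⟩ := exists_isom_of_inj A2 hA2i
  obtain ⟨V, hV⟩ := csb I1 I2 hI1 hI2
  refine ⟨V, fun a ha => ?_, fun t => ?_⟩
  · have h5 : star (lift a) = lift (star a) := (lift_star a).symm
    have ha' : star a ∈ N.commutant := star_mem ha
    refine hV a (lift a) ?_ ?_ ?_ ?_
    · exact hI1c a (lift a) (hA1a a ha) (by rw [h5]; exact hA1a _ ha')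
    · exact hI2c (lift a) a (hA2a a ha) (by rw [h5]; exact hA2a _ ha')
    · rw [h5]
      exact hI1c _ _ (hA1a _ ha') (by rw [← lift_star, star_star]; exact hA1a a ha)
    · rw [h5]
      exact hI2c _ _ (hA2a _ ha') (by rw [← lift_star, star_star]; exact hA2a a ha)
  · have h5 : star (UV W t) = UV W (-t) := UV_star hW t
    have h6 : star (W t) = W (-t) := hstarW t
    refine hV (W t) (UV W t) ?_ ?_ ?_ ?_
    · exact hI1c _ _ (hA1W t) (by rw [h5, h6]; exact hA1W _)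
    · exact hI2c _ _ (hA2W t) (by rw [h5, h6]; exact hA2W _)
    · rw [h5, h6]
      exact hI1c _ _ (hA1W _) (by rw [UV_star hW, hstarW, neg_neg]; exact hA1W t)
    · rw [h5, h6]
      exact hI2c _ _ (hA2W _) (by rw [UV_star hW, hstarW, neg_neg]; exact hA2W t)

end Pool.Agent.Helper23.ED

end

end
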