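import Pool.Agent.Helper23.FB.L00_a8
import Pool.Agent.Helper23.FB.L01_a0
import Pool.Agent.Helper23.FB.L01_a1
import Pool.Agent.Helper23.FB.L01_a12
import Pool.Agent.Helper23.FB.L01_a13
import Pool.Agent.Helper23.FB.L01_a2
import Pool.Agent.Helper23.FB.L01_a3
import Pool.Agent.Helper23.FB.L01_a5
import Pool.Agent.Helper23.FB.L01_a7
import Pool.Agent.Helper23.FB.L01_a9

/-!
Parts of Helper23.FA.L01_02, Helper23.FA.L01_04, Helper23.FA.L01_18, Helper23.FA.L02_02, Helper23.FA.L02_04, Helper23.FA.L01_05, Helper23.FA.L02_08, Helper23.FA.L02_11, Helper23.FA.L02_14, Helper23.FA.L02_01, Helper23.FA.L03_01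
-/

attribute [local instance 5000]
  Pool.Agent.Helper23.FB.Inst.rCharZero Pool.Agent.Helper23.FB.Inst.rALM
  Pool.Agent.Helper23.FB.Inst.rARM Pool.Agent.Helper23.FB.Inst.rALSM
  Pool.Agent.Helper23.FB.Inst.rARSM Pool.Agent.Helper23.FB.Inst.rARRLE
  Pool.Agent.Helper23.FB.Inst.rALRLE Pool.Agent.Helper23.FB.Inst.rARRLT
  Pool.Agent.Helper23.FB.Inst.rALRLT Pool.Agent.Helper23.FB.Inst.rPMRLT
  Pool.Agent.Helper23.FB.Inst.rMPRLT Pool.Agent.Helper23.FB.Inst.rPMM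
  Pool.Agent.Helper23.FB.Inst.rMPM Pool.Agent.Helper23.FB.Inst.rPMSM
  Pool.Agent.Helper23.FB.Inst.rMPSM Pool.Agent.Helper23.FB.Inst.rEAOL
  Pool.Agent.Helper23.FB.Inst.rIOR Pool.Agent.Helper23.FB.Inst.rISOR
  Pool.Agent.Helper23.FB.Inst.rFS Pool.Agent.Helper23.FB.Inst.rcCharZero
  Pool.Agent.Helper23.FB.Inst.rNZD Pool.Agent.Helper23.FB.Inst.rcNZD
  Pool.Agent.Helper23.FB.Inst.bSemiring Pool.Agent.Helper23.FB.Inst.bStar
  Pool.Agent.Helper23.FB.Inst.bAlg Pool.Agent.Helper23.FB.Inst.bSub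
  Pool.Agent.Helper23.FB.Inst.bMul Pool.Agent.Helper23.FB.Inst.bAdd
  Pool.Agent.Helper23.FB.Inst.iRing Pool.Agent.Helper23.FB.Inst.iSemiring
  Pool.Agent.Helper23.FB.Inst.iAlgC Pool.Agent.Helper23.FB.Inst.iSMulC
  Pool.Agent.Helper23.FB.Inst.iModC Pool.Agent.Helper23.FB.Inst.iAlgR
  Pool.Agent.Helper23.FB.Inst.iSMulR Pool.Agent.Helper23.FB.Inst.iModR
  Pool.Agent.Helper23.FB.Inst.iMonoid Pool.Agent.Helper23.FB.Inst.iSemigroup
  Pool.Agent.Helper23.FB.Inst.iMulOneClass Pool.Agent.Helper23.FB.Inst.iMul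
  Pool.Agent.Helper23.FB.Inst.iAdd Pool.Agent.Helper23.FB.Inst.iSub
  Pool.Agent.Helper23.FB.Inst.iNeg Pool.Agent.Helper23.FB.Inst.iAddCommMonoid
  Pool.Agent.Helper23.FB.Inst.iAddCommGroup Pool.Agent.Helper23.FB.Inst.iAddGroup
  Pool.Agent.Helper23.FB.Inst.iAddMonoid Pool.Agent.Helper23.FB.Inst.iSMulZeroC
  Pool.Agent.Helper23.FB.Inst.iMulActC Pool.Agent.Helper23.FB.Inst.iDSMulC
  Pool.Agent.Helper23.FB.Inst.iDSMulR Pool.Agent.Helper23.FB.Inst.iSNAG
  Pool.Agent.Helper23.FB.Inst.iSNACG Pool.Agent.Helper23.FB.Inst.iNorm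
  Pool.Agent.Helper23.FB.Inst.iNSC' Pool.Agent.Helper23.FB.Inst.iNSR'
  Pool.Agent.Helper23.FB.Inst.iTop Pool.Agent.Helper23.FB.Inst.iT2 Pool.Agent.Helper23.FB.Inst.iTR
  Pool.Agent.Helper23.FB.Inst.iSCC Pool.Agent.Helper23.FB.Inst.iIST
  Pool.Agent.Helper23.FB.Inst.iSCCR Pool.Agent.Helper23.FB.Inst.iISTR
  Pool.Agent.Helper23.FB.Inst.iZHC Pool.Agent.Helper23.FB.Inst.iAHC
  Pool.Agent.Helper23.FB.Inst.iAMHC Pool.Agent.Helper23.FB.Inst.iMAHC
  Pool.Agent.Helper23.FB.Inst.lTop Pool.Agent.Helper23.FB.Inst.lUnif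
  Pool.Agent.Helper23.FB.Inst.lACM Pool.Agent.Helper23.FB.Inst.lACG
  Pool.Agent.Helper23.FB.Inst.lSNAG Pool.Agent.Helper23.FB.Inst.lSNACG
  Pool.Agent.Helper23.FB.Inst.lNACG Pool.Agent.Helper23.FB.Inst.lNorm
  Pool.Agent.Helper23.FB.Inst.lIPS Pool.Agent.Helper23.FB.Inst.lMod
  Pool.Agent.Helper23.FB.Inst.lSMul Pool.Agent.Helper23.FB.Inst.lT2
  Pool.Agent.Helper23.FB.Inst.iStar Pool.Agent.Helper23.FB.Inst.iStarMul
  Pool.Agent.Helper23.FB.Inst.iStarAddMonoid Pool.Agent.Helper23.FB.Inst.iStarRing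
  Pool.Agent.Helper23.FB.Inst.iNSC Pool.Agent.Helper23.FB.Inst.iSOR
  Pool.Agent.Helper23.FB.Inst.iALM Pool.Agent.Helper23.FB.Inst.iARM
  Pool.Agent.Helper23.FB.Inst.iCFC Pool.Agent.Helper23.FB.Inst.iNCFC
  Pool.Agent.Helper23.FB.Inst.iStarModR Pool.Agent.Helper23.FB.Inst.iStarModC
  Pool.Agent.Helper23.FB.Inst.eStar Pool.Agent.Helper23.FB.Inst.eAdd
  Pool.Agent.Helper23.FB.Inst.eMul Pool.Agent.Helper23.FB.Inst.eOne
  Pool.Agent.Helper23.FB.Inst.eZero Pool.Agent.Helper23.FB.Inst.eMulAction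
  Pool.Agent.Helper23.FB.Inst.eAMHC2 Pool.Agent.Helper23.FB.Inst.eZHC2
  Pool.Agent.Helper23.FB.Inst.lAMHC

namespace Pool.Agent.Helper23
end Pool.Agent.Helper23
namespace Pool.Agent.Helper23.RBF
end Pool.Agent.Helper23.RBF
namespace Pool.Agent.Helper23.TTA
end Pool.Agent.Helper23.TTA
namespace Pool.Agent.Helper88.CS.ExhAux
end Pool.Agent.Helper88.CS.ExhAux
namespace Pool.Agent.Helper88.CS.InftyAux
end Pool.Agent.Helper88.CS.InftyAux

section

section

open scoped InnerProductSpace Topology BoundedContinuousFunction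

open ContinuousLinearMap Filter MeasureTheory

namespace Pool.Agent.Helper43.TTF

open Pool.Agent.Helper23 Pool.Agent.Helper23.TTA

variable {H : Type*} [NormedAddCommGroup H] [InnerProductSpace ℂ H] [CompleteSpace H]

/-- the Rieffel - van Daele operators satisfy the interface -/
theorem ttdata (A : VonNeumannAlgebra H) (ξ : H) (hcyc : Dense (orb A ξ : Set H))
    (hsep : ∀ a ∈ A, a ξ = 0 → a = 0) : TTData A ξ (Rop A ξ) (Dop A ξ) := by
  have hcyc' : Dense (orb A.commutant ξ : Set H) := dense_of_separating A ξ hsep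
  have hDconj : ∀ (c : ℂ) (v : H), Dop A ξ (c • v) = (starRingEnd ℂ) c • Dop A ξ v := by
    intro c v
    rw [smul_split c v, smul_split ((starRingEnd ℂ) c), map_add, map_smul, map_smul, Dop_I,
      Complex.conj_re, Complex.conj_im, smul_neg, neg_smul]
  refine ⟨?_, ?_, ?_, ?_, ?_, hDconj, ?_, ?_, ?_, ?_, ?_⟩
  · -- star R = R
    apply ContinuousLinearMap.ext
    intro v
    apply ext_inner_right ℂ
    intro w
    rw [inner_star_left]
    apply inner_ext_rho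
    · rw [rho_R]
    · rw [← rho_I_left, ← rho_I_left, rho_I_I, rho_I_I, rho_R, map_smul]
  · intro v
    rw [rho_R_self]; (clear * -; positivity)
  · intro v
    rw [rho_R_self]
    have h1 := norm_P_le A ξ v
    have h2 := norm_Q_le A ξ v
    (clear * - h1 h2; nlinarith [norm_nonneg (P A ξ v), norm_nonneg (Q A ξ v), norm_nonneg v])
  · intro v hv
    have h1 := rho_R_self A ξ v
    rw [hv, inner_zero_right, Complex.zero_re] at h1
    have hP : P A ξ v = 0 := by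
      have : ‖P A ξ v‖ ^ 2 = 0 := by (clear * - h1; nlinarith [sq_nonneg ‖P A ξ v‖, sq_nonneg ‖Q A ξ v‖])
      simpa using this
    have hQ : Q A ξ v = 0 := by
      have : ‖Q A ξ v‖ ^ 2 = 0 := by (clear * - h1; nlinarith [sq_nonneg ‖P A ξ v‖, sq_nonneg ‖Q A ξ v‖])
      simpa using this
    have hQ' : P A ξ (Complex.I • v) = 0 := by rw [← I_smul_Q, hQ, smul_zero]
    have hsa : ∀ b ∈ A, star b = b → ⟪b ξ, v⟫_ℂ = 0 := by
      intro b hb hb'
      have hbK := P_of_mem A ξ (mem_K_of A ξ hb hb')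
      apply inner_zero_of
      · rw [← hbK, rho_P, hP, rho, inner_zero_right, Complex.zero_re]
      · rw [← hbK, rho_P, hQ', rho, inner_zero_right, Complex.zero_re]
    apply zero_of_dense hcyc
    rintro _ ⟨a, ha, rfl⟩
    obtain ⟨a1, h1, a2, h2, hs1, hs2, hdec, -⟩ := sa_decomp ha
    rw [hdec, add_apply, inner_add_left, hsa a1 h1 hs1, smul_apply, inner_smul_left, hsa a2 h2 hs2,
      mul_zero, add_zero]
  · intro v hv
    have h1 := rho_R_self A ξ v
    rw [hv, inner_smul_right, inner_self_eq_norm_sq_to_K] at h1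
    have h2 : ((2 : ℂ) * ((‖v‖ : ℂ)) ^ 2).re = 2 * ‖v‖ ^ 2 := by norm_cast
    have h1' : 2 * ‖v‖ ^ 2 = ‖P A ξ v‖ ^ 2 + ‖Q A ξ v‖ ^ 2 := by rw [← h1, ← h2]; rfl
    have hP := norm_P_le A ξ v
    have hQ := norm_Q_le A ξ v
    have hPe : ‖P A ξ v‖ = ‖v‖ := by
      apply le_antisymm hP
      (clear * - h1' hP hQ; nlinarith [norm_nonneg (P A ξ v), norm_nonneg (Q A ξ v), norm_nonneg v])
    have hQe : ‖Q A ξ v‖ = ‖v‖ := by
      apply le_antisymm hQ
      (clear * - h1' hP hQ; nlinarith [norm_nonneg (P A ξ v), norm_nonneg (Q A ξ v), norm_nonneg v])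
    have hvK : v ∈ K A ξ := mem_K_of_norm A ξ hPe
    have hIvK : Complex.I • v ∈ K A ξ := by
      apply mem_K_of_norm
      rw [← I_smul_Q, norm_smul, norm_smul, hQe]
    have hsa : ∀ a' ∈ A.commutant, star a' = a' → ∀ k ∈ K A ξ, (⟪a' ξ, k⟫_ℂ).im = 0 := by
      intro a' ha ha' k hk
      have hcl : IsClosed {k : H | (⟪a' ξ, k⟫_ℂ).im = 0} :=
        isClosed_eq (Complex.continuous_im.comp (continuous_const.inner continuous_id))
          continuous_const
      have hsub : (Pool.Agent.Helper23.TTA.K0 A ξ : Set H) ⊆ {k : H | (⟪a' ξ, k⟫_ℂ).im = 0} := by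
        rintro _ ⟨b, hb, hb', rfl⟩
        change (⟪a' ξ, b ξ⟫_ℂ).im = 0
        rw [← inner_conj_symm, Complex.conj_im, inner_real A ξ ha ha' hb hb', neg_zero]
      exact closure_minimal hsub hcl hk
    have hsa' : ∀ a' ∈ A.commutant, star a' = a' → ⟪a' ξ, v⟫_ℂ = 0 := by
      intro a' ha ha'
      have e1 := hsa a' ha ha' v hvK
      have e2 := hsa a' ha ha' _ hIvK
      rw [inner_smul_right] at e2
      apply Complex.ext
      · simpa using e2
      · exact e1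
    apply zero_of_dense hcyc'
    rintro _ ⟨a, ha, rfl⟩
    obtain ⟨a1, h1, a2, h2, hs1, hs2, hdec, -⟩ := sa_decomp ha
    rw [hdec, add_apply, inner_add_left, hsa' a1 h1 hs1, smul_apply, inner_smul_left,
      hsa' a2 h2 hs2, mul_zero, add_zero]
  · -- D_symm
    intro v w
    apply inner_ext_rho
    · rw [← rho_D, rho_comm]
    · have h1 : (⟪v, Dop A ξ w⟫_ℂ).im = rho v (Dop A ξ (Complex.I • w)) := by
        rw [Dop_I, rho_neg_right, rho_I_right, neg_neg]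
      rw [h1, ← rho_D, rho_comm, rho_I_left]
  · -- D_sq
    intro v
    rw [map_sub, map_smul, two_smul, Rop_apply, Rop_apply, Dop_apply, Dop_apply, map_sub, Q_sub,
      map_add, Q_add, P_P, Q_Q]
    abel
  · -- D_R
    intro v
    rw [two_smul, Rop_apply, Rop_apply, Dop_apply, Dop_apply, map_add, Q_add, map_sub, Q_sub, P_P,
      Q_Q]
    abel
  · -- D_mem
    have hsa : ∀ b ∈ A, star b = b → Dop A ξ (b ξ) = (2 : ℂ) • b ξ - Rop A ξ (b ξ) := by
      intro b hb hb'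
      rw [Dop_apply, Rop_apply, P_of_mem A ξ (mem_K_of A ξ hb hb'), two_smul]
      abel
    intro a ha
    obtain ⟨a1, h1, a2, h2, hs1, hs2, hdec, hdec'⟩ := sa_decomp ha
    have e1 : a ξ = a1 ξ + Complex.I • a2 ξ := by rw [hdec]; rfl
    have e2 : (star a) ξ = a1 ξ - Complex.I • a2 ξ := by rw [hdec']; rfl
    rw [e1, e2, map_add, Dop_I, hsa a1 h1 hs1, hsa a2 h2 hs2, map_sub, map_smul, smul_sub, smul_sub,
      smul_comm (2 : ℂ) Complex.I]
    abel
  · -- D_comm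
    have hsa : ∀ b ∈ A.commutant, star b = b → Dop A ξ (b ξ) = Rop A ξ (b ξ) := by
      intro b hb hb'
      rw [Dop_apply, Rop_apply, Q_comm_zero A ξ hb hb', sub_zero, add_zero]
    intro a ha
    obtain ⟨a1, h1, a2, h2, hs1, hs2, hdec, hdec'⟩ := sa_decomp ha
    have e1 : a ξ = a1 ξ + Complex.I • a2 ξ := by rw [hdec]; rfl
    have e2 : (star a) ξ = a1 ξ - Complex.I • a2 ξ := by rw [hdec']; rfl
    rw [e1, e2, map_add, Dop_I, hsa a1 h1 hs1, hsa a2 h2 hs2, map_sub, map_smul]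
    abel

end Pool.Agent.Helper43.TTF

end

end

section

section

open scoped InnerProductSpace Topology ENNReal

open ContinuousLinearMap Filter MeasureTheory

set_option linter.unusedSectionVars false

set_option linter.unusedVariables false

namespace Pool.Agent.Helper23

variable {H : Type*} [NormedAddCommGroup H] [InnerProductSpace ℂ H] [CompleteSpace H]

variable {M N : VonNeumannAlgebra H} {ξ : H} {E : (H →L[ℂ] H) → (H →L[ℂ] H)}

namespace GKW

lemma Pn_hs (σ : ℝ) (n : ℕ) (f : L2R ℂ) : Pn n (mulOp ℂ (hs σ n) f) = mulOp ℂ (hs σ n) f := by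
  rw [Pn, mulOp_mulOp (ind_bm measurableSet_Ico) (hs_bm σ n)]
  congr 2
  funext s
  by_cases h : s ∈ Set.Ico (-(n : ℝ)) n
  · rw [ind_of_mem h, one_mul]
  · rw [hs_of_notMem h, mul_zero]

lemma Pns_apply (n : ℕ) (t : Finset hw) (F : L2R H) :
    Pns H n t F = mulOp H (hs 1 n) (∑ k ∈ t, ten (hb k) (sl (hb k) (mulOp H (hs (-1) n) F))) := by
  rw [Pns, fr_apply, map_sum]
  refine Finset.sum_congr rfl fun k _ => ?_
  rw [mulOp_ten (hs_bm 1 n), sl_mulOp (hs_bm (-1) n) (hs_conj (-1) n)]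

lemma Pns_tendsto (n : ℕ) (F : L2R H) :
    Tendsto (fun t => Pns H n t F) atTop (𝓝 (mulOp H (ind (Set.Ico (-(n : ℝ)) n)) F)) := by
  have h1 := (hasSum_hb (mulOp H (hs (-1) n) F))
  have h2 : Tendsto (fun t : Finset hw =>
      ∑ k ∈ t, ten (hb k) (sl (hb k) (mulOp H (hs (-1) n) F))) atTop
      (𝓝 (mulOp H (hs (-1) n) F)) := by
    simpa [HasSum] using h1
  have h3 := ((mulOp H (hs 1 n)).continuous.tendsto _).comp h2
  rw [mulOp_mulOp (hs_bm 1 n) (hs_bm (-1) n), hs_mul] at h3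
  refine h3.congr fun t => ?_
  rw [Pns_apply]
  rfl

end GKW

end Pool.Agent.Helper23

end

end

section

section

open scoped InnerProductSpace Topology ENNReal

open ContinuousLinearMap Filter MeasureTheory

set_option linter.unusedSectionVars false

set_option linter.unusedVariables false

namespace Pool.Agent.Helper23

variable {H : Type*} [NormedAddCommGroup H] [InnerProductSpace ℂ H] [CompleteSpace H]

variable {M N : VonNeumannAlgebra H} {ξ : H} {E : (H →L[ℂ] H) → (H →L[ℂ] H)}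

namespace GKW

lemma WkC.star {u : L2R H →L[ℂ] L2R H} (h : WkC N ξ u) : WkC N ξ (star u) := by
  intro n f f' hf hf' b hb
  have h1 := h n f' f hf' hf (Star.star b) (star_mem hb)
  rw [star_star] at h1
  have h2 := congrArg (starRingEnd ℂ) h1
  rw [inner_conj_symm, inner_conj_symm] at h2
  rw [inner_star_right, inner_star_right]
  exact h2.symm

end GKW

end Pool.Agent.Helper23

end

end

section

section

open scoped InnerProductSpace Topology ENNReal BoundedContinuousFunction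

open ContinuousLinearMap Filter MeasureTheory

namespace Pool.Agent.Helper23.ED

open Pool.Agent.Helper23 Pool.Agent.Helper23.RBF

open Pool.Agent.Helper78.BC.Transport (Sub r)

universe u

open Pool.Agent.Helper43.TTF (FT)

variable {K : Type*} [NormedAddCommGroup K] [InnerProductSpace ℂ K] [CompleteSpace K]

variable {A : VonNeumannAlgebra K} {κ : K} {R : K →L[ℂ] K} {D : K →L[ℝ] K}
  {Ψ : (ℝ →ᵇ ℂ) →⋆ₐ[ℂ] (K →L[ℂ] K)}

open Pool.Agent.Helper43.TTF in
/-- The common step. -/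
lemma smF_step (h : Modular A κ R D Ψ) (hFC : FC R D Ψ) {J : K →L[ℝ] K} (hJ : JD D Ψ J)
    {m : ℝ} (hm : 0 < m) (z : ℂ) {b : K →L[ℂ] K} (hb : b ∈ A) :
    Ψ (GZ m hm z) (J (b κ)) = Ψ (GZ m hm (z - Complex.I / 2)) ((star b) κ) := by
  rw [← sub_eq_zero]
  refine hFC.T_inj h.data _ ?_
  rw [map_sub, sub_eq_zero, psi_comm_apply, hJ.T_J, h.data.D_mem b hb]
  have h1 : (2 : ℂ) • (star b) κ - R ((star b) κ) = Ψ (2 - FR) ((star b) κ) := by
    rw [map_sub, psi_two, sub_apply, smul_apply, one_apply_eq_self, h.psi_FR]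
  rw [h1, ← psi_mul_apply, mul_comm, GZ_shift hm z, psi_mul_apply]

end Pool.Agent.Helper23.ED

end

end

section

section

open scoped InnerProductSpace Topology BoundedContinuousFunction

open ContinuousLinearMap Filter MeasureTheory

namespace Pool.Agent.Helper88.CS

open Pool.Agent.Helper23

open Pool.Agent.Helper78.BC (Std rm Fixed)

variable {H : Type*} [NormedAddCommGroup H] [InnerProductSpace ℂ H] [CompleteSpace H]

variable {A : VonNeumannAlgebra H} {ξ : H} {J : H →L[ℝ] H}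
  {Ψ : (ℝ →ᵇ ℂ) →⋆ₐ[ℂ] (H →L[ℂ] H)} {R : H →L[ℂ] H} {D : H →L[ℝ] H}

namespace FullAux

open ExhAux InftyAux

lemma norm_rm_le (h : St A ξ J Ψ R D) {v : H →L[ℂ] H} (hv : v * star v * v = v) (x : H) :
    ‖rm J v x‖ ≤ ‖x‖ := by
  unfold rm
  rw [h.J_norm]
  have hs : star v * star (star v) * star v = star v := by
    rw [star_star]; exact star_pi hv
  have := norm_pi_le hs (J x)
  rwa [h.J_norm] at this

end FullAux

end Pool.Agent.Helper88.CS

end

end

section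

section

open scoped InnerProductSpace Topology BoundedContinuousFunction

open ContinuousLinearMap Filter

namespace Pool.Agent.Helper23

universe u

variable {H : Type u} [NormedAddCommGroup H] [InnerProductSpace ℂ H] [CompleteSpace H]

variable {K : Type u} [NormedAddCommGroup K] [InnerProductSpace ℂ K] [CompleteSpace K]

variable {M N : VonNeumannAlgebra H} {ξ : H} {E : (H →L[ℂ] H) → (H →L[ℂ] H)}

lemma U11.const_mem_AppS (S : Setting M N E ξ) {a : H →L[ℂ] H} (ha : a ∈ M) :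
    (fun _ : ℕ => a) ∈ AppS M ξ :=
  ⟨AppR_const S.dense_comm ha, AppR_const S.dense_comm (star_mem ha)⟩

namespace Oc

variable {MT NT : VonNeumannAlgebra K} {ET : (K →L[ℂ] K) → (K →L[ℂ] K)} {ζ : K}
  {rep : (ℕ → H →L[ℂ] H) → (K →L[ℂ] K)} (O : Oc M N E ξ MT NT ET ζ rep)

include O

lemma u11_inner_const (S : Setting M N E ξ) {a b : H →L[ℂ] H} (ha : a ∈ M) (hb : b ∈ M) :
    ⟪rep (fun _ => a) ζ, rep (fun _ => b) ζ⟫_ℂ = ⟪a ξ, b ξ⟫_ℂ :=
  tendsto_nhds_unique (O.inner _ (U11.const_mem_AppS S ha) _ (U11.const_mem_AppS S hb))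
    tendsto_const_nhds

lemma u11_exists_iota (S : Setting M N E ξ) : ∃ ι : H →L[ℂ] K,
    (∀ a ∈ M, ι (a ξ) = rep (fun _ => a) ζ) ∧ ‖ι‖ ≤ 1 := by
  let f : M.toStarSubalgebra →ₗ[ℂ] K :=
    { toFun := fun a => rep (fun _ => (a : H →L[ℂ] H)) ζ
      map_add' := fun a b => by
        have := O.add _ (U11.const_mem_AppS S a.2) _ (U11.const_mem_AppS S b.2)
        exact congrArg (fun T : K →L[ℂ] K => T ζ) this
      map_smul' := fun c a => by
        have := O.smul c _ (U11.const_mem_AppS S a.2)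
        exact congrArg (fun T : K →L[ℂ] K => T ζ) this }
  have hd : DenseRange (evL M ξ) := by
    have : Set.range (evL M ξ) = (orb M ξ : Set H) := by
      ext x
      constructor
      · rintro ⟨a, rfl⟩
        exact ⟨a, a.2, rfl⟩
      · rintro ⟨a, ha, rfl⟩
        exact ⟨⟨a, ha⟩, rfl⟩
    rw [DenseRange, this]
    exact S.cyc
  obtain ⟨ι, hι, hι1⟩ := exists_ext' f (evL M ξ) hd (C := 1) zero_le_one (by
    intro a
    rw [one_mul]
    change ‖rep (fun _ => (a : H →L[ℂ] H)) ζ‖ ≤ ‖(a : H →L[ℂ] H) ξ‖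
    have h1 := O.u11_inner_const S a.2 a.2
    rw [inner_self_eq_norm_sq_to_K, inner_self_eq_norm_sq_to_K] at h1
    have h2 : ‖rep (fun _ => (a : H →L[ℂ] H)) ζ‖ ^ 2 = ‖(a : H →L[ℂ] H) ξ‖ ^ 2 := by
      exact_mod_cast h1
    exact ((pow_left_inj₀ (norm_nonneg _) (norm_nonneg _) two_ne_zero).1 h2).le)
  exact ⟨ι, fun a ha => hι ⟨a, ha⟩, hι1⟩

lemma u11_weak_aux (S : Setting M N E ξ) {ι : H →L[ℂ] K}
    (hι : ∀ a ∈ M, ι (a ξ) = rep (fun _ => a) ζ) {x : ℕ → H →L[ℂ] H} (hx : x ∈ AppS M ξ)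
    (v w : H) :
    Tendsto (fun n => ⟪v, x n w⟫_ℂ) (UU : Filter ℕ)
      (𝓝 ⟪v, ((adjoint ι).comp ((rep x).comp ι)) w⟫_ℂ) := by
  obtain ⟨C, hC⟩ := hx.1.2.1
  refine U11.weak_of_dense hC _ S.cyc ?_ v w
  rintro _ ⟨a, ha, rfl⟩ _ ⟨b, hb, rfl⟩
  have h1 := O.inner _ (U11.const_mem_AppS S ha) _ (U11.AppS_mul hx (U11.const_mem_AppS S hb))
  rw [O.mul x hx _ (U11.const_mem_AppS S hb)] at h1
  have e1 : ⟪a ξ, ((adjoint ι).comp ((rep x).comp ι)) (b ξ)⟫_ℂ =
      ⟪rep (fun _ => a) ζ, (rep x * rep fun _ => b) ζ⟫_ℂ := by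
    change ⟪a ξ, (adjoint ι) (rep x (ι (b ξ)))⟫_ℂ = _
    rw [adjoint_inner_right, hι a ha, hι b hb]
    rfl
  rw [e1]
  exact h1

lemma u11_exists_cc (S : Setting M N E ξ) : ∃ ι : H →L[ℂ] K,
    (∀ a ∈ M, ι (a ξ) = rep (fun _ => a) ζ) ∧ ‖ι‖ ≤ 1 ∧
    ∀ T ∈ MT, ccU M ξ rep ζ T = (adjoint ι).comp (T.comp ι) ∧ ccU M ξ rep ζ T ∈ M := by
  obtain ⟨ι, hι, hι1⟩ := O.u11_exists_iota S
  refine ⟨ι, hι, hι1, fun T hT => ?_⟩
  have hmem : (adjoint ι).comp (T.comp ι) ∈ M := by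
    obtain ⟨x, hx, -, rfl⟩ := O.surjM T hT
    exact U11.mem_of_weak (F := (UU : Filter ℕ)) M hx.1.1 (O.u11_weak_aux S hι hx)
  have hin : ∀ a ∈ M, ∀ b ∈ M, ⟪a ξ, ((adjoint ι).comp (T.comp ι)) (b ξ)⟫_ℂ =
      ⟪rep (fun _ => a) ζ, T (rep (fun _ => b) ζ)⟫_ℂ := by
    intro a ha b hb
    change ⟪a ξ, (adjoint ι) (T (ι (b ξ)))⟫_ℂ = _
    rw [adjoint_inner_right, hι a ha, hι b hb]
  have h : ∃ y ∈ M, ∀ a ∈ M, ∀ b ∈ M,
    ⟪a ξ, y (b ξ)⟫_ℂ = ⟪rep (fun _ => a) ζ, T (rep (fun _ => b) ζ)⟫_ℂ := ⟨_, hmem, hin⟩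
  have hc : ccU M ξ rep ζ T = h.choose := by rw [ccU, dif_pos h]
  obtain ⟨h1, h2⟩ := h.choose_spec
  rw [← hc] at h1 h2
  refine ⟨?_, h1⟩
  refine U11.op_ext_inner fun v w => ?_
  have hw : ∀ v ∈ (orb M ξ : Set H), ∀ w : H,
      ⟪v, ccU M ξ rep ζ T w⟫_ℂ = ⟪v, ((adjoint ι).comp (T.comp ι)) w⟫_ℂ := by
    rintro _ ⟨a, ha, rfl⟩ w
    have hcl : IsClosed {w : H | ⟪a ξ, ccU M ξ rep ζ T w⟫_ℂ =
        ⟪a ξ, ((adjoint ι).comp (T.comp ι)) w⟫_ℂ} :=
      isClosed_eq (by fun_prop) (by fun_prop)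
    refine closure_minimal ?_ hcl (S.cyc w)
    rintro _ ⟨b, hb, rfl⟩
    change ⟪a ξ, ccU M ξ rep ζ T (b ξ)⟫_ℂ = ⟪a ξ, ((adjoint ι).comp (T.comp ι)) (b ξ)⟫_ℂ
    rw [h2 a ha b hb, hin a ha b hb]
  have hcl : IsClosed {v : H | ⟪v, ccU M ξ rep ζ T w⟫_ℂ =
      ⟪v, ((adjoint ι).comp (T.comp ι)) w⟫_ℂ} :=
    isClosed_eq (by fun_prop) (by fun_prop)
  exact closure_minimal (fun v hv => hw v hv w) hcl (S.cyc v)

/-- U11a -/
theorem cc_spec (S : Setting M N E ξ) {T : K →L[ℂ] K} (hT : T ∈ MT) :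
    ccU M ξ rep ζ T ∈ M ∧ ∀ a ∈ M, ∀ b ∈ M,
      ⟪a ξ, ccU M ξ rep ζ T (b ξ)⟫_ℂ = ⟪rep (fun _ => a) ζ, T (rep (fun _ => b) ζ)⟫_ℂ := by
  obtain ⟨ι, hι, hι1, hc⟩ := O.u11_exists_cc S
  refine ⟨(hc T hT).2, fun a ha b hb => ?_⟩
  rw [(hc T hT).1]
  change ⟪a ξ, (adjoint ι) (T (ι (b ξ)))⟫_ℂ = _
  rw [adjoint_inner_right, hι a ha, hι b hb]

theorem cc_norm_xi (S : Setting M N E ξ) {T : K →L[ℂ] K} (hT : T ∈ MT) :
    ‖ccU M ξ rep ζ T ξ‖ ≤ ‖T ζ‖ := by
  obtain ⟨ι, hι, hι1, hc⟩ := O.u11_exists_cc S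
  rw [(hc T hT).1]
  have h1 : ι ξ = ζ := by
    have h := hι 1 (one_mem M)
    rw [O.one] at h
    exact h
  change ‖(adjoint ι) (T (ι ξ))‖ ≤ _
  rw [h1]
  calc ‖(adjoint ι) (T ζ)‖ ≤ ‖adjoint ι‖ * ‖T ζ‖ := le_opNorm _ _
    _ ≤ 1 * ‖T ζ‖ := by
        have : ‖adjoint ι‖ ≤ 1 := by rw [LinearIsometryEquiv.norm_map]; exact hι1
        gcongr
    _ = ‖T ζ‖ := one_mul _

/-- the compression of `rep x` is the weak limit of `x` -/
theorem cc_rep (S : Setting M N E ξ) {x : ℕ → H →L[ℂ] H} (hx : x ∈ AppS M ξ) (v w : H) :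
    Tendsto (fun n => ⟪v, x n w⟫_ℂ) (UU : Filter ℕ) (𝓝 ⟪v, ccU M ξ rep ζ (rep x) w⟫_ℂ) := by
  obtain ⟨ι, hι, hι1, hc⟩ := O.u11_exists_cc S
  rw [(hc (rep x) (O.memM x hx)).1]
  exact O.u11_weak_aux S hι hx v w

theorem cc_const (S : Setting M N E ξ) {x : H →L[ℂ] H} (hx : x ∈ M) :
    ccU M ξ rep ζ (rep fun _ => x) = x :=
  U11.op_ext_inner fun v w => tendsto_nhds_unique (O.cc_rep S (U11.const_mem_AppS S hx) v w)
    tendsto_const_nhds

theorem cc_sub (S : Setting M N E ξ) {T T' : K →L[ℂ] K} (hT : T ∈ MT) (hT' : T' ∈ MT) :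
    ccU M ξ rep ζ (T - T') = ccU M ξ rep ζ T - ccU M ξ rep ζ T' := by
  obtain ⟨ι, hι, hι1, hc⟩ := O.u11_exists_cc S
  rw [(hc T hT).1, (hc T' hT').1, (hc (T - T') (sub_mem hT hT')).1]
  ext w
  change (adjoint ι) (T (ι w) - T' (ι w)) = (adjoint ι) (T (ι w)) - (adjoint ι) (T' (ι w))
  rw [map_sub]

theorem cc_mul_left (S : Setting M N E ξ) {a : H →L[ℂ] H} (ha : a ∈ M) {T : K →L[ℂ] K}
    (hT : T ∈ MT) : ccU M ξ rep ζ (rep (fun _ => a) * T) = a * ccU M ξ rep ζ T := by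
  obtain ⟨x, hx, -, rfl⟩ := O.surjM T hT
  have hm := U11.AppS_mul (U11.const_mem_AppS S ha) hx
  rw [← O.mul _ (U11.const_mem_AppS S ha) x hx]
  refine U11.op_ext_inner fun v w => ?_
  have h1 := O.cc_rep S hm v w
  have h2 := O.cc_rep S hx ((Star.star a) v) w
  have e : ∀ n, ⟪(Star.star a) v, x n w⟫_ℂ = ⟪v, (a * x n) w⟫_ℂ := fun n => by
    rw [inner_star_left]; rfl
  simp only [e] at h2
  rw [tendsto_nhds_unique h1 h2, inner_star_left]
  rfl

theorem cc_mul_right (S : Setting M N E ξ) {a : H →L[ℂ] H} (ha : a ∈ M) {T : K →L[ℂ] K}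
    (hT : T ∈ MT) : ccU M ξ rep ζ (T * rep (fun _ => a)) = ccU M ξ rep ζ T * a := by
  obtain ⟨x, hx, -, rfl⟩ := O.surjM T hT
  have hm := U11.AppS_mul hx (U11.const_mem_AppS S ha)
  rw [← O.mul x hx _ (U11.const_mem_AppS S ha)]
  refine U11.op_ext_inner fun v w => ?_
  have h1 := O.cc_rep S hm v w
  have h2 := O.cc_rep S hx v (a w)
  exact tendsto_nhds_unique h1 h2

end Oc

end Pool.Agent.Helper23

end

section

open scoped InnerProductSpace Topology

open ContinuousLinearMap Filter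

namespace Pool.Agent.Helper23

universe u

variable {H : Type u} [NormedAddCommGroup H] [InnerProductSpace ℂ H] [CompleteSpace H]

variable {K : Type u} [NormedAddCommGroup K] [InnerProductSpace ℂ K] [CompleteSpace K]

variable {M N : VonNeumannAlgebra H} {ξ : H} {E : (H →L[ℂ] H) → (H →L[ℂ] H)}

namespace Oc

variable {MT NT : VonNeumannAlgebra K} {ET : (K →L[ℂ] K) → (K →L[ℂ] K)} {ζ : K}
  {rep : (ℕ → H →L[ℂ] H) → (K →L[ℂ] K)} (O : Oc M N E ξ MT NT ET ζ rep)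

include O

/-- `z ↦ rep (const z)` is injective on `M` -/
lemma u12_inj (S : Setting M N E ξ) {z z' : H →L[ℂ] H} (hz : z ∈ M) (hz' : z' ∈ M)
    (h : rep (fun _ => z) = rep (fun _ => z')) : z = z' := by
  rw [← O.cc_const S hz, ← O.cc_const S hz', h]

end Oc

end Pool.Agent.Helper23

end

end

section

section

open scoped InnerProductSpace Topology ENNReal

open ContinuousLinearMap Filter MeasureTheory

set_option linter.unusedSectionVars false

set_option linter.unusedVariables false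

namespace Pool.Agent.Helper23

variable {H : Type*} [NormedAddCommGroup H] [InnerProductSpace ℂ H] [CompleteSpace H]

variable {M N : VonNeumannAlgebra H} {ξ : H} {E : (H →L[ℂ] H) → (H →L[ℂ] H)}

namespace GKW

/-- the value of the weight for finite rank cut offs -/
lemma SX_fin {u : L2R H →L[ℂ] L2R H} (hu : u ∈ amp N) (h2 : u * star u = 1) (h : WkC N ξ u)
    {Y : L2R H →L[ℂ] L2R H} (hY : Y ∈ amp N) {ι : Type*} (t : Finset ι) (a c : ι → L2R ℂ) {n : ℕ}
    (hc : ∀ i, Pn n (c i) = c i) :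
    SX ξ (Y * fr H t a c * u) = ENNReal.ofReal (∑ i' ∈ t, ∑ i ∈ t,
      ⟪ten (mulOp ℂ (he n) (c i)) ξ, ten (c i') (slX (star Y * Y) (a i') (a i) ξ)⟫_ℂ).re := by
  have hYY : star Y * Y ∈ amp N := mul_mem (star_mem hY) hY
  -- one interval
  have e1 : ∀ m : ℤ, HasSum (fun k : hw => ((‖(Y * fr H t a c * u) (ten (gJ (m, k)) ξ)‖ ^ 2 : ℝ) : ℂ))
      (∑ i' ∈ t, ∑ i ∈ t, ⟪(star u) (ten (mulOp ℂ (he n) (c i)) ξ),
        mulOp H (ind (Set.Ico (m : ℝ) (m + 1)))
          ((star u) (ten (c i') (slX (star Y * Y) (a i') (a i) ξ)))⟫_ℂ) := by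
    intro m
    have e2 : ∀ k : hw, ((‖(Y * fr H t a c * u) (ten (gJ (m, k)) ξ)‖ ^ 2 : ℝ) : ℂ) =
        ∑ i' ∈ t, ∑ i ∈ t, ⟪u (ten (gJ (m, k)) ξ),
          rk (slX (star Y * Y) (a i') (a i)) (c i') (c i) (u (ten (gJ (m, k)) ξ))⟫_ℂ :=
      fun k => norm_fr Y t a c (u (ten (gJ (m, k)) ξ))
    simp only [e2]
    refine hasSum_sum fun i' _ => hasSum_sum fun i _ => ?_
    exact hasSum_fix hu h (hc i) (slX_mem hYY _ _) m
  have e3 : HasSum (fun m : ℤ => ∑ i' ∈ t, ∑ i ∈ t, ⟪(star u) (ten (mulOp ℂ (he n) (c i)) ξ),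
        mulOp H (ind (Set.Ico (m : ℝ) (m + 1)))
          ((star u) (ten (c i') (slX (star Y * Y) (a i') (a i) ξ)))⟫_ℂ)
      (∑ i' ∈ t, ∑ i ∈ t, ⟪ten (mulOp ℂ (he n) (c i)) ξ,
        ten (c i') (slX (star Y * Y) (a i') (a i) ξ)⟫_ℂ) := by
    refine hasSum_sum fun i' _ => hasSum_sum fun i _ => ?_
    have e4 := hasSum_int ((star u) (ten (mulOp ℂ (he n) (c i)) ξ))
      ((star u) (ten (c i') (slX (star Y * Y) (a i') (a i) ξ)))
    have e5 : ⟪(star u) (ten (mulOp ℂ (he n) (c i)) ξ),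
        (star u) (ten (c i') (slX (star Y * Y) (a i') (a i) ξ))⟫_ℂ =
        ⟪ten (mulOp ℂ (he n) (c i)) ξ, ten (c i') (slX (star Y * Y) (a i') (a i) ξ)⟫_ℂ := by
      rw [inner_star_left]
      change ⟪_, (u * star u) _⟫_ℂ = _
      rw [h2]
      rfl
    rw [e5] at e4
    exact e4
  rw [SX_def, ENNReal.tsum_prod']
  have e6 := fun m => tsum_ofReal_of_hasSum (fun k => by (clear * -; positivity)) (e1 m)
  simp only [fun m => (e6 m).1]
  refine (tsum_ofReal_of_hasSum (fun m => (e6 m).2) ?_).1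
  have e7 : ∀ m : ℤ, (((∑ i' ∈ t, ∑ i ∈ t, ⟪(star u) (ten (mulOp ℂ (he n) (c i)) ξ),
        mulOp H (ind (Set.Ico (m : ℝ) (m + 1)))
          ((star u) (ten (c i') (slX (star Y * Y) (a i') (a i) ξ)))⟫_ℂ).re : ℝ) : ℂ) =
      ∑ i' ∈ t, ∑ i ∈ t, ⟪(star u) (ten (mulOp ℂ (he n) (c i)) ξ),
        mulOp H (ind (Set.Ico (m : ℝ) (m + 1)))
          ((star u) (ten (c i') (slX (star Y * Y) (a i') (a i) ξ)))⟫_ℂ := by
    intro m
    have h3 := Complex.hasSum_im (e1 m)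
    simp only [Complex.ofReal_im] at h3
    have h4 := h3.unique hasSum_zero
    exact Complex.ext (Complex.ofReal_re _) (by rw [Complex.ofReal_im, h4])
  simp only [e7]
  exact e3

lemma SX_fin_eq {u : L2R H →L[ℂ] L2R H} (hu : u ∈ amp N) (h2 : u * star u = 1) (h : WkC N ξ u)
    {Y : L2R H →L[ℂ] L2R H} (hY : Y ∈ amp N) {ι : Type*} (t : Finset ι) (a c : ι → L2R ℂ) {n : ℕ}
    (hc : ∀ i, Pn n (c i) = c i) :
    SX ξ (Y * fr H t a c * u) = SX ξ (Y * fr H t a c) := by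
  have h3 := SX_fin (N := N) (ξ := ξ) (one_mem _) (by rw [star_one, mul_one]) WkC_one hY t a c hc
  rw [mul_one] at h3
  rw [SX_fin hu h2 h hY t a c hc, h3]

/-- one inequality -/
lemma SX_le {u : L2R H →L[ℂ] L2R H} (hu : u ∈ amp N) (h2 : u * star u = 1) (h : WkC N ξ u)
    {Y : L2R H →L[ℂ] L2R H} (hY : Y ∈ amp N) : SX ξ (Y * u) ≤ SX ξ Y := by
  rw [SX_def, ENNReal.tsum_eq_iSup_sum]
  refine iSup_le fun J => ?_
  have key : ∀ {ι : Type} (l : Filter ι) [l.NeBot] (T : ι → L2R H → L2R H) (T' : L2R H → L2R H),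
      (∀ F, Tendsto (fun i => T i F) l (𝓝 (T' F))) →
      (∀ i, ∑ j ∈ J, ENNReal.ofReal (‖Y (T i (u (ten (gJ j) ξ)))‖ ^ 2) ≤ SX ξ Y) →
      ∑ j ∈ J, ENNReal.ofReal (‖Y (T' (u (ten (gJ j) ξ)))‖ ^ 2) ≤ SX ξ Y := by
    intro ι l hne T T' hT hle
    have h5 : Tendsto (fun i => ∑ j ∈ J, ENNReal.ofReal (‖Y (T i (u (ten (gJ j) ξ)))‖ ^ 2)) l
        (𝓝 (∑ j ∈ J, ENNReal.ofReal (‖Y (T' (u (ten (gJ j) ξ)))‖ ^ 2))) := by
      refine tendsto_finsetSum J fun j _ => ?_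
      refine ENNReal.tendsto_ofReal ?_
      exact (((Y.continuous.tendsto _).comp (hT _)).norm).pow 2
    exact le_of_tendsto' h5 hle
  have k1 : ∀ n : ℕ, ∑ j ∈ J, ENNReal.ofReal
      (‖Y (mulOp H (ind (Set.Ico (-(n : ℝ)) n)) (u (ten (gJ j) ξ)))‖ ^ 2) ≤ SX ξ Y := by
    intro n
    refine key (atTop : Filter (Finset hw)) (fun t F => Pns H n t F)
      (fun F => mulOp H (ind (Set.Ico (-(n : ℝ)) n)) F) (Pns_tendsto n) fun t => ?_
    refine le_trans ?_ (SX_Pns_le (ξ := ξ) n t Y)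
    have h3 := SX_fin_eq hu h2 h hY t (fun k => mulOp ℂ (hs 1 n) (hb k))
      (fun k => mulOp ℂ (hs (-1) n) (hb k)) (n := n) (fun k => Pn_hs (-1) n (hb k))
    change SX ξ (Y * Pns H n t * u) = SX ξ (Y * Pns H n t) at h3
    rw [← h3, SX_def]
    exact ENNReal.sum_le_tsum J
  exact key (atTop : Filter ℕ) (fun n F => mulOp H (ind (Set.Ico (-(n : ℝ)) n)) F) (fun F => F)
    cut_tendsto k1

end GKW

open GKW in
/-- MODULE G2a : the weak form of the centralizer property implies the strong form. -/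
theorem GK_of_weak {u : L2R H →L[ℂ] L2R H} (hu : u ∈ amp N) (h1 : star u * u = 1)
    (h2 : u * star u = 1)
    (h : ∀ (n : ℕ) (f f' : L2R ℂ), Pn n f = f → Pn n f' = f' → ∀ b ∈ N,
      ⟪ten f' (b ξ), u (ten (mulOp ℂ (he n) f) ξ)⟫_ℂ =
        ⟪ten (mulOp ℂ (he n) f') ξ, u (ten f ((star b) ξ))⟫_ℂ) : u ∈ GK N ξ := by
  have hW : WkC N ξ u := h
  refine ⟨hu, h1, h2, fun Y hY => le_antisymm (SX_le hu h2 hW hY) ?_⟩
  have h3 := SX_le (ξ := ξ) (star_mem hu) (by rw [star_star]; exact h1) hW.star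
    (mul_mem hY hu)
  rwa [mul_assoc, h2, mul_one] at h3

end Pool.Agent.Helper23

end

end

section

section

open scoped InnerProductSpace Topology BoundedContinuousFunction

open ContinuousLinearMap Filter MeasureTheory

namespace Pool.Agent.Helper88.CS

open Pool.Agent.Helper23

open Pool.Agent.Helper78.BC (Std rm Fixed)

variable {H : Type*} [NormedAddCommGroup H] [InnerProductSpace ℂ H] [CompleteSpace H]

variable {A : VonNeumannAlgebra H} {J : H →L[ℝ] H} {κ : H}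

open Trick2Aux in
theorem cut_offdiag (hJ : Conj A J) (hκ : J κ = κ) (hsep : ∀ a ∈ A, a κ = 0 → a = 0)
    {e f : H →L[ℂ] H} (he : IsP A e) (hf : IsP A f) (hef : e + f = 1) (hJe : J (e κ) = e κ)
    {x : H →L[ℂ] H} (hx : x ∈ A) (hfx : f * x = x) (hxe : x * e = x) (hx0 : x ≠ 0)
    {δ : ℝ} (hδ : 0 < δ) (hδ1 : δ ≤ 1 / 100) (h : ‖x κ - rm J x κ‖ ≤ δ * ‖x κ‖) :
    ∃ w ∈ A, w * star w * w = w ∧ f * w = w ∧ w * e = w ∧ w ≠ 0 ∧
      ‖w κ - rm J w κ‖ ^ 2 ≤ 100 * δ * ‖w κ‖ ^ 2 := by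
  obtain ⟨heA, hes, hee⟩ := he
  obtain ⟨hfA, hfs, hff⟩ := hf
  have hef0 : e * f = 0 := by
    have h1 : e * (e + f) = e := by rw [hef, mul_one]
    rw [mul_add, hee] at h1
    exact left_eq_add.1 h1.symm
  have hfe0 : f * e = 0 := by
    have h1 := congrArg star hef0
    rw [star_mul, hes, hfs, star_zero] at h1
    exact h1
  have hex : e * x = 0 := by rw [← hfx, ← mul_assoc, hef0, zero_mul]
  have hxf : x * f = 0 := by rw [← hxe, mul_assoc, hef0, mul_zero]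
  have hxs : star x ∈ A := star_mem hx
  have hesx : e * star x = star x := by
    have h1 := congrArg star hxe
    rwa [star_mul, hes] at h1
  have hsxf : star x * f = star x := by
    have h1 := congrArg star hfx
    rwa [star_mul, hfs] at h1
  have hfsx : f * star x = 0 := by
    have h1 := congrArg star hxf
    rwa [star_mul, hfs, star_zero] at h1
  have hsxe : star x * e = 0 := by
    have h1 := congrArg star hex
    rwa [star_mul, hes, star_zero] at h1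
  -- the self-adjoint element
  have hXA : x + star x ∈ A := add_mem hx hxs
  have hXs : star (x + star x) = x + star x := by rw [star_add, star_star, add_comm]
  have hnX : ‖(x + star x) κ‖ ^ 2 = ‖x κ‖ ^ 2 + ‖(star x) κ‖ ^ 2 := by
    have e1 : x κ = f (x κ) := by
      have : (f * x) κ = x κ := by rw [hfx]
      exact this.symm
    have e2 : (star x) κ = e ((star x) κ) := by
      have : (e * star x) κ = (star x) κ := by rw [hesx]
      exact this.symm
    have h1 := pyth hes hef0 ((star x) κ) (x κ)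
    rw [← e1, ← e2] at h1
    have e3 : (x + star x) κ = (star x) κ + x κ := by
      rw [ContinuousLinearMap.add_apply, add_comm]
    rw [e3, h1, add_comm]
  have hxκ : x κ ≠ 0 := fun h0 => hx0 (hsep x hx h0)
  have hle : ‖x κ‖ ≤ ‖(x + star x) κ‖ := by
    have h1 : ‖x κ‖ ^ 2 ≤ ‖(x + star x) κ‖ ^ 2 := by
      rw [hnX]; (clear * -; nlinarith [sq_nonneg ‖(star x) κ‖])
    exact abs_le_of_sq_le_sq' h1 (norm_nonneg _) |>.2
  have hXκ : (x + star x) κ ≠ 0 := by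
    intro h0
    rw [h0, norm_zero] at hle
    exact hxκ (norm_le_zero_iff.1 hle)
  have hrm : ∀ y : H →L[ℂ] H, rm J y κ = J ((star y) κ) := by
    intro y
    unfold rm
    rw [hκ]
  have hflip : ∀ y : H →L[ℂ] H, ‖(star y) κ - J (y κ)‖ = ‖y κ - J ((star y) κ)‖ := by
    intro y
    have h1 : J (y κ - J ((star y) κ)) = -((star y) κ - J (y κ)) := by
      rw [map_sub, hJ.J_J]
      abel
    rw [← norm_neg, ← h1, hJ.J_norm]
  have hXd : ‖(x + star x) κ - J ((x + star x) κ)‖ ≤ (2 * δ) * ‖(x + star x) κ‖ := by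
    have e1 : (x + star x) κ - J ((x + star x) κ) =
        (x κ - J ((star x) κ)) + ((star x) κ - J (x κ)) := by
      rw [ContinuousLinearMap.add_apply, map_add]
      abel
    have h1 : ‖x κ - J ((star x) κ)‖ ≤ δ * ‖x κ‖ := by rw [← hrm]; exact h
    have h2 := norm_add_le (x κ - J ((star x) κ)) ((star x) κ - J (x κ))
    rw [hflip x] at h2
    rw [e1]
    have h3 : δ * ‖x κ‖ ≤ δ * ‖(x + star x) κ‖ := mul_le_mul_of_nonneg_left hle hδ.le
    (clear * - h1 h2 h3; linarith)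
  obtain ⟨F, hFA, hFs, hFFF, hFκ, hFd, hFU⟩ := cut hJ hκ hXA hXs (by positivity) hXκ hXd
  -- the symmetry `f - e`
  have hU := hFU (f - e) (by rw [star_sub, hes, hfs]) (by
    rw [mul_sub, sub_mul, sub_mul, hff, hee, hef0, hfe0]
    rw [← hef]
    abel) (by
    rw [mul_add, add_mul, sub_mul, sub_mul, mul_sub, mul_sub, hfx, hex, hfsx, hesx, hxf, hxe,
      hsxf, hsxe]
    abel)
  rw [sub_mul, mul_sub] at hU
  have heFe : e * F * e = 0 := by
    have h1 : e * (f * F - e * F) * e = e * -(F * f - F * e) * e := by rw [hU]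
    have h2 : e * (f * F - e * F) * e = -(e * F * e) := by
      rw [mul_sub, ← mul_assoc, ← mul_assoc, hef0, hee, zero_mul, zero_sub, neg_mul]
    have h3 : e * -(F * f - F * e) * e = e * F * e := by
      have : -(F * f - F * e) = F * e - F * f := by abel
      rw [this, mul_sub, sub_mul, mul_assoc e (F * e) e, mul_assoc F e e, hee,
        mul_assoc e (F * f) e, mul_assoc F f e, hfe0, mul_zero, mul_zero, sub_zero, mul_assoc]
    rw [h2, h3] at h1
    have h4 : (2 : ℂ) • (e * F * e) = 0 := by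
      rw [two_smul]
      nth_rewrite 1 [← h1]
      rw [neg_add_cancel]
    exact (smul_eq_zero.1 h4).resolve_left two_ne_zero
  have hfFf : f * F * f = 0 := by
    have h1 : f * (f * F - e * F) * f = f * -(F * f - F * e) * f := by rw [hU]
    have h2 : f * (f * F - e * F) * f = f * F * f := by
      rw [mul_sub, ← mul_assoc, ← mul_assoc, hfe0, hff, zero_mul, sub_zero]
    have h3 : f * -(F * f - F * e) * f = -(f * F * f) := by
      have : -(F * f - F * e) = F * e - F * f := by abel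
      rw [this, mul_sub, sub_mul, mul_assoc f (F * e) f, mul_assoc F e f, hef0,
        mul_assoc f (F * f) f, mul_assoc F f f, hff, mul_zero, mul_zero, zero_sub, mul_assoc]
    rw [h2, h3] at h1
    have h4 : (2 : ℂ) • (f * F * f) = 0 := by
      rw [two_smul]
      nth_rewrite 2 [h1]
      rw [add_neg_cancel]
    exact (smul_eq_zero.1 h4).resolve_left two_ne_zero
  have hws : star (f * F * e) = e * F * f := by
    rw [star_mul, star_mul, hes, hfs, hFs, mul_assoc]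
  have hFdec : F = f * F * e + e * F * f := by
    have h1 : F = (e + f) * F * (e + f) := by rw [hef, one_mul, mul_one]
    have h2 : (e + f) * F * (e + f) = e * F * e + e * F * f + (f * F * e + f * F * f) := by
      rw [add_mul, add_mul, mul_add, mul_add]
    rw [h2, heFe, hfFf, zero_add, add_zero] at h1
    rw [add_comm] at h1
    exact h1
  have hwww : f * F * e * (e * F * f) * (f * F * e) = f * F * e := by
    have h1 : f * (F * F * F) * e = f * F * e := by rw [hFFF]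
    have h2 : f * (F * F * F) * e = f * F * (e + f) * F * (e + f) * F * e := by
      rw [hef, mul_one, mul_one]
      simp only [mul_assoc]
    have h3 : f * F * (e + f) * F * (e + f) * F * e =
        f * F * e * (e * F * f) * (f * F * e) := by
      have a1 : f * F * (e + f) = f * F * e := by rw [mul_add, hfFf, add_zero]
      have a2 : (e + f) * F * e = f * F * e := by rw [add_mul, add_mul, heFe, zero_add]
      have a3 : f * F * (e + f) * F * (e + f) * F * e =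
          (f * F * (e + f)) * F * ((e + f) * F * e) := by simp only [mul_assoc]
      rw [a3, a1, a2]
      have a4 : f * F * e * (e * F * f) * (f * F * e) =
          f * F * (e * e) * F * (f * f) * F * e := by simp only [mul_assoc]
      have a5 : f * F * e * F * (f * F * e) = f * F * e * F * f * F * e := by
        simp only [mul_assoc]
      rw [a4, a5, hee, hff]
    rw [← h3, ← h2, h1]
  have hwA : f * F * e ∈ A := mul_mem (mul_mem hfA hFA) heA
  have hw0 : f * F * e ≠ 0 := by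
    intro h0
    have h1 : e * F * f = 0 := by rw [← hws, h0, star_zero]
    rw [h0, h1, add_zero] at hFdec
    exact hFκ (by rw [hFdec]; rfl)
  refine ⟨f * F * e, hwA, by rw [hws]; exact hwww, by rw [← mul_assoc, ← mul_assoc, hff],
    by rw [mul_assoc, hee], hw0, ?_⟩
  rw [hrm, hws]
  -- the vectors
  have hfκ : J (f κ) = f κ := by
    have h1 : f κ = κ - e κ := by
      have h2 : (e + f) κ = κ := by rw [hef]; rfl
      rw [ContinuousLinearMap.add_apply] at h2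
      exact eq_sub_of_add_eq (by rw [add_comm]; exact h2)
    rw [h1, map_sub, hκ, hJe]
  have v1 : (f * F * e) κ = f (J (e (J (F κ)))) := by
    have h1 : e κ = J (e (J κ)) := by rw [hκ, hJe]
    calc (f * F * e) κ = f (F (e κ)) := rfl
      _ = f (F (J (e (J κ)))) := by rw [← h1]
      _ = f (J (e (J (F κ)))) := by rw [hJ.J_comm e heA F hFA]
  have v2 : (e * F * f) κ = e (J (f (J (F κ)))) := by
    have h1 : f κ = J (f (J κ)) := by rw [hκ, hfκ]
    calc (e * F * f) κ = e (F (f κ)) := rfl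
      _ = e (F (J (f (J κ)))) := by rw [← h1]
      _ = e (J (f (J (F κ)))) := by rw [hJ.J_comm f hfA F hFA]
  have w1 : J ((e * F * f) κ) = f (J (e (F κ))) := by
    rw [v2, ← hJ.J_comm f hfA e heA, hJ.J_J]
  have w2 : J ((f * F * e) κ) = e (J (f (F κ))) := by
    rw [v1, ← hJ.J_comm e heA f hfA, hJ.J_J]
  have d1 : (f * F * e) κ - J ((e * F * f) κ) = f (J (e (J (F κ - J (F κ))))) := by
    rw [v1, w1, map_sub J, hJ.J_J, map_sub e, map_sub J, map_sub f]
  have d2 : (e * F * f) κ - J ((f * F * e) κ) = e (J (f (J (F κ - J (F κ))))) := by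
    rw [v2, w2, map_sub J, hJ.J_J, map_sub f, map_sub J, map_sub e]
  set D : H := F κ - J (F κ) with hD
  have hpy : ∀ v : H, ‖v‖ ^ 2 = ‖e v‖ ^ 2 + ‖f v‖ ^ 2 := by
    intro v
    have h1 : v = e v + f v := by
      have h2 : (e + f) v = v := by rw [hef]; rfl
      rw [ContinuousLinearMap.add_apply] at h2
      exact h2.symm
    have h3 := pyth hes hef0 v v
    rw [← h1] at h3
    exact h3
  have hn1 : ‖f (J (e (J D)))‖ ^ 2 ≤ ‖f D‖ ^ 2 := by
    have h1 : f (J (e (J D))) = J (e (J (f D))) := (hJ.J_comm e heA f hfA D).symm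
    rw [h1, hJ.J_norm]
    have h2 := hpy (J (f D))
    rw [hJ.J_norm] at h2
    (clear * - h2; nlinarith [sq_nonneg ‖f (J (f D))‖])
  have hn2 : ‖e (J (f (J D)))‖ ^ 2 ≤ ‖e D‖ ^ 2 := by
    have h1 : e (J (f (J D))) = J (f (J (e D))) := (hJ.J_comm f hfA e heA D).symm
    rw [h1, hJ.J_norm]
    have h2 := hpy (J (e D))
    rw [hJ.J_norm] at h2
    (clear * - h2; nlinarith [sq_nonneg ‖e (J (e D))‖])
  have hfl : ‖(e * F * f) κ - J ((f * F * e) κ)‖ = ‖(f * F * e) κ - J ((e * F * f) κ)‖ := by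
    have h1 := hflip (f * F * e)
    rwa [hws] at h1
  have hsum : 2 * ‖(f * F * e) κ - J ((e * F * f) κ)‖ ^ 2 ≤ ‖D‖ ^ 2 := by
    have h1 := hpy D
    rw [← d1] at hn1
    rw [← d2, hfl] at hn2
    linarith
  have hS2 : ‖F κ‖ ^ 2 = ‖(f * F * e) κ‖ ^ 2 + ‖(e * F * f) κ‖ ^ 2 := by
    have h1 : F κ = e ((F * f) κ) + f ((F * e) κ) := by
      conv_lhs => rw [hFdec]
      rw [ContinuousLinearMap.add_apply, add_comm]
      rfl
    have h2 := pyth hes hef0 ((F * f) κ) ((F * e) κ)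
    rw [← h1] at h2
    rw [h2, add_comm]
    rfl
  have hb : ‖(e * F * f) κ‖ ≤ ‖(f * F * e) κ‖ + ‖(f * F * e) κ - J ((e * F * f) κ)‖ := by
    have h1 : ‖J ((e * F * f) κ)‖ ≤ ‖(f * F * e) κ‖ + ‖(f * F * e) κ - J ((e * F * f) κ)‖ := by
      have h2 := norm_sub_le ((f * F * e) κ) ((f * F * e) κ - J ((e * F * f) κ))
      have h3 : (f * F * e) κ - ((f * F * e) κ - J ((e * F * f) κ)) = J ((e * F * f) κ) := by
        abel
      rwa [h3] at h2
    rwa [hJ.J_norm] at h1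
  refine arith (norm_nonneg _) (norm_nonneg _) (norm_pos_iff.2 hFκ) (norm_nonneg _) hδ1 hS2 hb
    ?_ hδ
  have h1 : ‖D‖ ^ 2 ≤ 32 * δ * ‖F κ‖ ^ 2 := by
    have h2 : 16 * (2 * δ) * ‖F κ‖ ^ 2 = 32 * δ * ‖F κ‖ ^ 2 := by ring
    rw [← h2]
    exact hFd
  exact hsum.trans h1

end Pool.Agent.Helper88.CS

end

end

section

section

open scoped InnerProductSpace Topology BoundedContinuousFunction

open ContinuousLinearMap Filter

namespace Pool.Agent.Helper23

universe u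

variable {H : Type u} [NormedAddCommGroup H] [InnerProductSpace ℂ H] [CompleteSpace H]

variable {K : Type u} [NormedAddCommGroup K] [InnerProductSpace ℂ K] [CompleteSpace K]

variable {M N : VonNeumannAlgebra H} {ξ : H} {E : (H →L[ℂ] H) → (H →L[ℂ] H)}

namespace Oc

variable {MT NT : VonNeumannAlgebra K} {ET : (K →L[ℂ] K) → (K →L[ℂ] K)} {ζ : K}
  {rep : (ℕ → H →L[ℂ] H) → (K →L[ℂ] K)} (O : Oc M N E ξ MT NT ET ζ rep)

include O

theorem cc_norm (S : Setting M N E ξ) {T : K →L[ℂ] K} (hT : T ∈ MT) :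
    ‖ccU M ξ rep ζ T‖ ≤ ‖T‖ := by
  obtain ⟨ι, hι, hι1, hc⟩ := O.u11_exists_cc S
  rw [(hc T hT).1]
  calc ‖(adjoint ι).comp (T.comp ι)‖ ≤ ‖adjoint ι‖ * (‖T‖ * ‖ι‖) :=
        (opNorm_comp_le _ _).trans (mul_le_mul_of_nonneg_left (opNorm_comp_le _ _)
          (norm_nonneg _))
    _ ≤ 1 * (‖T‖ * 1) := by
        have : ‖adjoint ι‖ ≤ 1 := by rw [LinearIsometryEquiv.norm_map]; exact hι1
        (clear * - this hι1; gcongr)
    _ = ‖T‖ := by ring

end Oc

end Pool.Agent.Helper23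

end

end

section

section

open scoped InnerProductSpace Topology BoundedContinuousFunction FourierTransform ENNReal

open ContinuousLinearMap Filter MeasureTheory

set_option linter.unusedSectionVars false

namespace Pool.Agent.Helper23

variable {H : Type*} [NormedAddCommGroup H] [InnerProductSpace ℂ H] [CompleteSpace H]

namespace Modular

variable {A : VonNeumannAlgebra H} {ξ : H} {R : H →L[ℂ] H} {D : H →L[ℝ] H}
  {Ψ : (ℝ →ᵇ ℂ) →⋆ₐ[ℂ] (H →L[ℂ] H)} (h : Modular A ξ R D Ψ)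

include h

/-- the key formula for the matrix coefficients of `W` -/
theorem key (f g : L2R ℂ) (v w : H) :
    ⟪ten f v, fco (fun t : ℝ => Ψ (expB (2 * Real.pi * t))) (ten g w)⟫_ℂ =
      ⟪v, Ψ (kap f g) w⟫_ℂ := by
  rw [inner_fco, Fo_ten, Fo_ten]
  have hk : Integrable (fun t : ℝ => ⟪Fo ℂ f t, Fo ℂ g t⟫_ℂ) := L2.integrable_inner _ _
  rw [← h.integral_psi hk (K := kap f g) ?_ v w]
  · rw [L2.inner_def]
    refine integral_congr_ae ?_
    filter_upwards [ten_coe (Fo ℂ f) v, dec_coe h.U_dec (ten (Fo ℂ g) w),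
      ten_coe (Fo ℂ g) w] with t h1 h2 h3
    rw [h1, h2, h3, map_smul, inner_smul_left, inner_smul_right, RCLike.inner_apply]
    ring
  · intro ρ
    rw [kap_apply, ← (Fo ℂ).inner_map_map, Fo_tr, L2.inner_def]
    refine integral_congr_ae ?_
    filter_upwards [mulOp_coe (chr_bm (-ρ)) (Fo ℂ g)] with t h1
    rw [h1, inner_smul_right]
    rw [mul_comm]
    congr 1
    rw [chr, expB_apply]
    congr 1
    push_cast
    ring

end Modular

end Pool.Agent.Helper23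

end

section

open scoped InnerProductSpace Topology ENNReal BoundedContinuousFunction

open ContinuousLinearMap Filter MeasureTheory

namespace Pool.Agent.Helper23

variable {H : Type*} [NormedAddCommGroup H] [InnerProductSpace ℂ H] [CompleteSpace H]

/-- the unitary on `L²(ℝ, H)` implementing the modular group: `t ↦ Δ^{2πit}` in the Fourier
picture -/
noncomputable def WW (Ψ : (ℝ →ᵇ ℂ) →⋆ₐ[ℂ] (H →L[ℂ] H)) : L2R H →L[ℂ] L2R H :=
  fco fun t : ℝ => Ψ (expB (2 * Real.pi * t))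

end Pool.Agent.Helper23

end

section

open scoped InnerProductSpace Topology ENNReal BoundedContinuousFunction

open ContinuousLinearMap Filter MeasureTheory

namespace Pool.Agent.Helper23

universe u

variable {H : Type u} [NormedAddCommGroup H] [InnerProductSpace ℂ H] [CompleteSpace H]

variable {K : Type u} [NormedAddCommGroup K] [InnerProductSpace ℂ K] [CompleteSpace K]

variable {M N : VonNeumannAlgebra H} {ξ : H} {E : (H →L[ℂ] H) → (H →L[ℂ] H)}

namespace Oc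

variable {MT NT : VonNeumannAlgebra K} {ET : (K →L[ℂ] K) → (K →L[ℂ] K)} {ζ : K}
  {rep : (ℕ → H →L[ℂ] H) → (K →L[ℂ] K)} (O : Oc M N E ξ MT NT ET ζ rep)

include O

lemma const_inj (S : Setting M N E ξ) {x y : H →L[ℂ] H} (hx : x ∈ M) (hy : y ∈ M)
    (h : rep (fun _ => x) = rep (fun _ => y)) : x = y := by
  rw [← O.cc_const S hx, h, O.cc_const S hy]

end Oc

end Pool.Agent.Helper23

end

section

open scoped InnerProductSpace Topology ENNReal BoundedContinuousFunction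

open ContinuousLinearMap Filter MeasureTheory

namespace Pool.Agent.Helper23.ED

open Pool.Agent.Helper23 Pool.Agent.Helper23.RBF

open Pool.Agent.Helper78.BC.Transport (Sub r)

universe u

variable {H : Type*} [NormedAddCommGroup H] [InnerProductSpace ℂ H] [CompleteSpace H]

variable {A : VonNeumannAlgebra H} {ξ : H} {R : H →L[ℂ] H} {D : H →L[ℝ] H}
  {Ψ : (ℝ →ᵇ ℂ) →⋆ₐ[ℂ] (H →L[ℂ] H)}

/-- the function `m(ρ + s)` of `log Δ ⊗ 1 + 1 ⊗ s` -/
noncomputable def PP (Ψ : (ℝ →ᵇ ℂ) →⋆ₐ[ℂ] (H →L[ℂ] H)) (m : ℝ → ℂ) : L2R H →L[ℂ] L2R H :=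
  WW Ψ * mulOp H m * star (WW Ψ)

end Pool.Agent.Helper23.ED

end

section

open scoped InnerProductSpace Topology ENNReal BoundedContinuousFunction

open ContinuousLinearMap Filter MeasureTheory

namespace Pool.Agent.Helper23.ED

open Pool.Agent.Helper23 Pool.Agent.Helper23.RBF

open Pool.Agent.Helper78.BC.Transport (Sub r)

universe u

variable {H : Type*} [NormedAddCommGroup H] [InnerProductSpace ℂ H] [CompleteSpace H]

variable {A : VonNeumannAlgebra H} {ξ : H} {R : H →L[ℂ] H} {D : H →L[ℝ] H}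
  {Ψ : (ℝ →ᵇ ℂ) →⋆ₐ[ℂ] (H →L[ℂ] H)}

lemma GgD_kap {m : ℕ} {f' : L2R ℂ} (hf' : Pn m f' = f') (g : L2R ℂ) (ρ : ℝ) :
    kap f' (mulOp ℂ (he m) g) ρ = ((Real.exp ρ : ℝ) : ℂ) *
      kap (mulOp ℂ (he m) f') (mulOp ℂ (ind (Set.Ico (-(m : ℝ)) m)) g) ρ := by
  rw [kap_apply, kap_apply, L2.inner_def, L2.inner_def, ← integral_const_mul]
  refine integral_congr_ae ?_
  filter_upwards [tr_coe (-ρ) (mulOp ℂ (he m) g), ae_tr (-ρ) (mulOp_coe (he_bm m) g),
    tr_coe (-ρ) (mulOp ℂ (ind (Set.Ico (-(m : ℝ)) m)) g),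
    ae_tr (-ρ) (mulOp_coe (ind_bm (measurableSet_Ico (a := -(m : ℝ)) (b := m))) g),
    mulOp_coe (he_bm m) f', supp_of_Pn hf'] with s h1 h2 h3 h4 h5 h6
  rw [h1, h2, h3, h4, h5, inner_smul_right, inner_smul_left, inner_smul_right]
  by_cases hs : s ∈ Set.Ico (-(m : ℝ)) m
  · by_cases hs' : s - -ρ ∈ Set.Ico (-(m : ℝ)) m
    · rw [he_of_mem hs, he_of_mem hs', ind_of_mem hs', Complex.conj_ofReal, one_mul,
        ← mul_assoc, ← Complex.ofReal_mul, ← Real.exp_add]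
      congr 3
      ring
    · rw [he_of_notMem hs', ind_of_notMem hs']
      ring
  · rw [h6 hs, inner_zero_left]
    ring

lemma GgD_rel {m : ℕ} {f' : L2R ℂ} (hf' : Pn m f' = f') (g : L2R ℂ) :
    star FR * kap f' (mulOp ℂ (he m) g) =
      star (2 - FR) * kap (mulOp ℂ (he m) f') (mulOp ℂ (ind (Set.Ico (-(m : ℝ)) m)) g) := by
  rw [star_two_sub]
  ext ρ
  rw [BoundedContinuousFunction.mul_apply, BoundedContinuousFunction.mul_apply,
    BoundedContinuousFunction.star_apply, two_sub_FR, FR_apply, GgD_kap hf', Complex.star_def,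
    Complex.conj_ofReal, ← mul_assoc, ← Complex.ofReal_mul]
  congr 2
  ring

lemma GgD_ten (hΨ : Modular A ξ R D Ψ) {m : ℕ} {f' : L2R ℂ} (hf' : Pn m f' = f') (v : H)
    (g : L2R ℂ) (w : H) : ⟪ten f' (R v), WW Ψ (mulOp H (he m) (ten g w))⟫_ℂ =
      ⟪ten (mulOp ℂ (he m) f') ((2 : ℂ) • v - R v),
        WW Ψ (mulOp H (ind (Set.Ico (-(m : ℝ)) m)) (ten g w))⟫_ℂ := by
  rw [mulOp_ten (he_bm m), mulOp_ten (ind_bm measurableSet_Ico), WW, hΨ.key, hΨ.key,
    ← hΨ.psi_two_sub, ← hΨ.psi_FR, psi_adj, psi_adj, ← psi_mul_apply, ← psi_mul_apply,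
    GgD_rel hf']

end Pool.Agent.Helper23.ED

end

end

section

section

open scoped InnerProductSpace Topology ENNReal BoundedContinuousFunction

open ContinuousLinearMap Filter MeasureTheory

namespace Pool.Agent.Helper23.ED

open Pool.Agent.Helper23 Pool.Agent.Helper23.RBF

open Pool.Agent.Helper78.BC.Transport (Sub r)

universe u

variable {H : Type*} [NormedAddCommGroup H] [InnerProductSpace ℂ H] [CompleteSpace H]

variable {A : VonNeumannAlgebra H} {ξ : H} {R : H →L[ℂ] H} {D : H →L[ℝ] H}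
  {Ψ : (ℝ →ᵇ ℂ) →⋆ₐ[ℂ] (H →L[ℂ] H)}

theorem PP_rel (hΨ : Modular A ξ R D Ψ) {m : ℕ} {f' : L2R ℂ} (hf' : Pn m f' = f') (v : H)
    (G : L2R H) : ⟪ten f' (R v), PP Ψ (he m) G⟫_ℂ =
      ⟪ten (mulOp ℂ (he m) f') ((2 : ℂ) • v - R v),
        PP Ψ (ind (Set.Ico (-(m : ℝ)) m)) G⟫_ℂ := by
  set X : L2R H →L[ℂ] L2R H := WW Ψ * mulOp H (he m) with hX
  set Y : L2R H →L[ℂ] L2R H := WW Ψ * mulOp H (ind (Set.Ico (-(m : ℝ)) m)) with hY
  have h0 : star X (ten f' (R v)) -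
      star Y (ten (mulOp ℂ (he m) f') ((2 : ℂ) • v - R v)) = 0 := by
    refine eq_zero_of_ten fun g w => ?_
    have h1 := GgD_ten hΨ hf' v g w
    change ⟪ten f' (R v), X (ten g w)⟫_ℂ =
      ⟪ten (mulOp ℂ (he m) f') ((2 : ℂ) • v - R v), Y (ten g w)⟫_ℂ at h1
    rw [inner_sub_right, inner_star_right, inner_star_right, sub_eq_zero,
      ← inner_conj_symm, h1, inner_conj_symm]
  change ⟪ten f' (R v), X (star (WW Ψ) G)⟫_ℂ =
    ⟪ten (mulOp ℂ (he m) f') ((2 : ℂ) • v - R v), Y (star (WW Ψ) G)⟫_ℂ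
  have h2 : ∀ G' : L2R H, ⟪ten f' (R v), X G'⟫_ℂ =
      ⟪ten (mulOp ℂ (he m) f') ((2 : ℂ) • v - R v), Y G'⟫_ℂ := fun G' => by
    have h3 : ⟪(star X) (ten f' (R v)), G'⟫_ℂ =
        ⟪(star Y) (ten (mulOp ℂ (he m) f') ((2 : ℂ) • v - R v)), G'⟫_ℂ := by
      rw [sub_eq_zero.1 h0]
    rwa [inner_star_left, inner_star_left] at h3
  exact h2 _

end Pool.Agent.Helper23.ED

end

end
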