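import Pool.Agent.Helper23.FB.L01_a0
import Pool.Agent.Helper23.FB.L01_a1
import Pool.Agent.Helper23.FB.L01_a11
import Pool.Agent.Helper23.FB.L01_a12
import Pool.Agent.Helper23.FB.L01_a13
import Pool.Agent.Helper23.FB.L01_a2
import Pool.Agent.Helper23.FB.L01_a3
import Pool.Agent.Helper23.FB.L01_a6
import Pool.Agent.Helper23.FB.L01_a7
import Pool.Agent.Helper23.FB.L01_a8
import Pool.Agent.Helper23.FB.L01_a9

/-!
Parts of Helper23.FA.L01_04, Helper23.FA.L00_03, Helper23.FA.L02_02, Helper23.FA.L02_11, Helper23.FA.L02_13, Helper23.FA.L02_05, Helper23.FA.L02_06, Helper23.FA.L02_10, Helper23.FA.L03_03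
-/

attribute [local instance 5000]
  Pool.Agent.Helper23.FB.Inst.rCharZero Pool.Agent.Helper23.FB.Inst.rALM
  Pool.Agent.Helper23.FB.Inst.rARM Pool.Agent.Helper23.FB.Inst.rALSM
  Pool.Agent.Helper23.FB.Inst.rARSM Pool.Agent.Helper23.FB.Inst.rARRLE
  Pool.Agent.Helper23.FB.Inst.rALRLE Pool.Agent.Helper23.FB.Inst.rARRLT
  Pool.Agent.Helper23.FB.Inst.rALRLT Pool.Agent.Helper23.FB.Inst.rPMRLT
  Pool.Agent.Helper23.FB.Inst.rMPRLT Pool.Agent.Helper23.FB.Inst.rPMM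
  Pool.Agent.Helper23.FB.Inst.rMPM Pool.Agent.Helper23.FB.Inst.rPMSM
  Pool.Agent.Helper23.FB.Inst.rMPSM Pool.Agent.Helper23.FB.Inst.rEAOL
  Pool.Agent.Helper23.FB.Inst.rIOR Pool.Agent.Helper23.FB.Inst.rISOR
  Pool.Agent.Helper23.FB.Inst.rFS Pool.Agent.Helper23.FB.Inst.rcCharZero
  Pool.Agent.Helper23.FB.Inst.rNZD Pool.Agent.Helper23.FB.Inst.rcNZD
  Pool.Agent.Helper23.FB.Inst.bSemiring Pool.Agent.Helper23.FB.Inst.bStar
  Pool.Agent.Helper23.FB.Inst.bAlg Pool.Agent.Helper23.FB.Inst.bSub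
  Pool.Agent.Helper23.FB.Inst.bMul Pool.Agent.Helper23.FB.Inst.bAdd
  Pool.Agent.Helper23.FB.Inst.iRing Pool.Agent.Helper23.FB.Inst.iSemiring
  Pool.Agent.Helper23.FB.Inst.iAlgC Pool.Agent.Helper23.FB.Inst.iSMulC
  Pool.Agent.Helper23.FB.Inst.iModC Pool.Agent.Helper23.FB.Inst.iAlgR
  Pool.Agent.Helper23.FB.Inst.iSMulR Pool.Agent.Helper23.FB.Inst.iModR
  Pool.Agent.Helper23.FB.Inst.iMonoid Pool.Agent.Helper23.FB.Inst.iSemigroup
  Pool.Agent.Helper23.FB.Inst.iMulOneClass Pool.Agent.Helper23.FB.Inst.iMul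
  Pool.Agent.Helper23.FB.Inst.iAdd Pool.Agent.Helper23.FB.Inst.iSub
  Pool.Agent.Helper23.FB.Inst.iNeg Pool.Agent.Helper23.FB.Inst.iAddCommMonoid
  Pool.Agent.Helper23.FB.Inst.iAddCommGroup Pool.Agent.Helper23.FB.Inst.iAddGroup
  Pool.Agent.Helper23.FB.Inst.iAddMonoid Pool.Agent.Helper23.FB.Inst.iSMulZeroC
  Pool.Agent.Helper23.FB.Inst.iMulActC Pool.Agent.Helper23.FB.Inst.iDSMulC
  Pool.Agent.Helper23.FB.Inst.iDSMulR Pool.Agent.Helper23.FB.Inst.iSNAG
  Pool.Agent.Helper23.FB.Inst.iSNACG Pool.Agent.Helper23.FB.Inst.iNorm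
  Pool.Agent.Helper23.FB.Inst.iNSC' Pool.Agent.Helper23.FB.Inst.iNSR'
  Pool.Agent.Helper23.FB.Inst.iTop Pool.Agent.Helper23.FB.Inst.iT2 Pool.Agent.Helper23.FB.Inst.iTR
  Pool.Agent.Helper23.FB.Inst.iSCC Pool.Agent.Helper23.FB.Inst.iIST
  Pool.Agent.Helper23.FB.Inst.iSCCR Pool.Agent.Helper23.FB.Inst.iISTR
  Pool.Agent.Helper23.FB.Inst.iZHC Pool.Agent.Helper23.FB.Inst.iAHC
  Pool.Agent.Helper23.FB.Inst.iAMHC Pool.Agent.Helper23.FB.Inst.iMAHC
  Pool.Agent.Helper23.FB.Inst.lTop Pool.Agent.Helper23.FB.Inst.lUnif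
  Pool.Agent.Helper23.FB.Inst.lACM Pool.Agent.Helper23.FB.Inst.lACG
  Pool.Agent.Helper23.FB.Inst.lSNAG Pool.Agent.Helper23.FB.Inst.lSNACG
  Pool.Agent.Helper23.FB.Inst.lNACG Pool.Agent.Helper23.FB.Inst.lNorm
  Pool.Agent.Helper23.FB.Inst.lIPS Pool.Agent.Helper23.FB.Inst.lMod
  Pool.Agent.Helper23.FB.Inst.lSMul Pool.Agent.Helper23.FB.Inst.lT2
  Pool.Agent.Helper23.FB.Inst.iStar Pool.Agent.Helper23.FB.Inst.iStarMul
  Pool.Agent.Helper23.FB.Inst.iStarAddMonoid Pool.Agent.Helper23.FB.Inst.iStarRing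
  Pool.Agent.Helper23.FB.Inst.iNSC Pool.Agent.Helper23.FB.Inst.iSOR
  Pool.Agent.Helper23.FB.Inst.iALM Pool.Agent.Helper23.FB.Inst.iARM
  Pool.Agent.Helper23.FB.Inst.iCFC Pool.Agent.Helper23.FB.Inst.iNCFC
  Pool.Agent.Helper23.FB.Inst.iStarModR Pool.Agent.Helper23.FB.Inst.iStarModC
  Pool.Agent.Helper23.FB.Inst.eStar Pool.Agent.Helper23.FB.Inst.eAdd
  Pool.Agent.Helper23.FB.Inst.eMul Pool.Agent.Helper23.FB.Inst.eOne
  Pool.Agent.Helper23.FB.Inst.eZero Pool.Agent.Helper23.FB.Inst.eMulAction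
  Pool.Agent.Helper23.FB.Inst.eAMHC2 Pool.Agent.Helper23.FB.Inst.eZHC2
  Pool.Agent.Helper23.FB.Inst.lAMHC

namespace Pool.Agent.Helper23
end Pool.Agent.Helper23
namespace Pool.Agent.Helper23.RBF
end Pool.Agent.Helper23.RBF
namespace Pool.Agent.Helper43.TTF
end Pool.Agent.Helper43.TTF
namespace Pool.Agent.Helper88.CS.CentAux
end Pool.Agent.Helper88.CS.CentAux

section

section

open scoped InnerProductSpace Topology ENNReal

open ContinuousLinearMap Filter MeasureTheory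

namespace Pool.Agent.Helper23

variable {H : Type*} [NormedAddCommGroup H] [InnerProductSpace ℂ H] [CompleteSpace H]

variable {G : Type*} [NormedAddCommGroup G] [InnerProductSpace ℂ G] [CompleteSpace G]

variable {M N : VonNeumannAlgebra H} {ξ : H} {E : (H →L[ℂ] H) → (H →L[ℂ] H)}

/-- the two Bessel inequalities together -/
lemma bessel_both {t : ℝ} (ht : 0 < t) (A : Finset ℤ) (B : Finset hw) {μ : ℤ → ℝ → ℂ}
    (hμ : ∀ i, BM (μ i)) (hμ0 : ∀ i s, s ∉ win t i → μ i s = 0) {c : ℝ} (hc : 0 ≤ c)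
    (hμc : ∀ i s, ‖μ i s‖ ≤ c) (V : L2R H) :
    ∑ i ∈ A, ∑ k ∈ B, ‖sl (mulOp ℂ (μ i) (hb k)) V‖ ^ 2 ≤ c ^ 2 * ‖V‖ ^ 2 := by
  have h1 : ∀ i ∈ A, ∑ k ∈ B, ‖sl (mulOp ℂ (μ i) (hb k)) V‖ ^ 2 ≤
      ‖mulOp H (fun s => (starRingEnd ℂ) (μ i s)) V‖ ^ 2 := by
    intro i _
    refine le_trans (le_of_eq (Finset.sum_congr rfl fun k _ => ?_)) (bessel_sq B _)
    rw [sl_mulOp' (hμ i)]
  refine (Finset.sum_le_sum h1).trans ?_
  exact bessel_mul ht A (fun i => (hμ i).conj) (fun i s h => by rw [hμ0 i s h, map_zero]) hc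
    (fun i s => by rw [RCLike.norm_conj]; exact hμc i s) V

end Pool.Agent.Helper23

end

section

open scoped InnerProductSpace Topology ENNReal

open ContinuousLinearMap Filter MeasureTheory

set_option linter.unusedSectionVars false

set_option linter.unusedVariables false

namespace Pool.Agent.Helper23

variable {H : Type*} [NormedAddCommGroup H] [InnerProductSpace ℂ H] [CompleteSpace H]

variable {M N : VonNeumannAlgebra H} {ξ : H} {E : (H →L[ℂ] H) → (H →L[ℂ] H)}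

lemma q0_eq_zero {f : L2R ℂ} (h : q0 f = 0) : f = 0 := by
  rw [q0, lintegral_eq_zero_iff'] at h
  · ext1
    filter_upwards [h, Lp.coeFn_zero ℂ 2 volume] with s e1 e2
    rw [e2]
    have e3 : Real.exp s * ‖f s‖ ^ 2 ≤ 0 := ENNReal.ofReal_eq_zero.1 e1
    have e4 : 0 < Real.exp s := Real.exp_pos s
    have e5 : ‖f s‖ ^ 2 ≤ 0 := by
      by_contra hcon
      push Not at hcon
      (clear * - e3 e4 hcon; nlinarith [mul_pos e4 hcon])
    have e6 : ‖f s‖ = 0 := by (clear * - e5; nlinarith [norm_nonneg (f s)])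
    exact norm_eq_zero.1 e6
  · refine ENNReal.measurable_ofReal.comp_aemeasurable ?_
    exact Real.measurable_exp.aemeasurable.mul
      ((Lp.aestronglyMeasurable f).norm.aemeasurable.pow_const 2)

lemma SX_eq_zero {Y : L2R H →L[ℂ] L2R H} (h : SX ξ Y = 0) (f : L2R ℂ) : Y (ten f ξ) = 0 := by
  rw [SX_def, ENNReal.tsum_eq_zero] at h
  have h1 : ∀ j : JJ, Y (ten (gJ j) ξ) = 0 := by
    intro j
    have := h j
    rw [ENNReal.ofReal_eq_zero] at this
    have h2 : ‖Y (ten (gJ j) ξ)‖ = 0 := by nlinarith [norm_nonneg (Y (ten (gJ j) ξ))]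
    exact norm_eq_zero.1 h2
  refine ext_inner_right ℂ fun k => ?_
  rw [inner_zero_left]
  have h3 : (adjoint (Y.comp (axi ξ))) k = 0 := by
    refine q0_eq_zero ?_
    rw [← frame]
    refine ENNReal.tsum_eq_zero.2 fun j => ?_
    rw [adjoint_inner_right]
    change ENNReal.ofReal (‖⟪Y (ten (gJ j) ξ), k⟫_ℂ‖ ^ 2) = 0
    rw [h1, inner_zero_left]
    simp
  have h4 : ⟪f, (adjoint (Y.comp (axi ξ))) k⟫_ℂ = ⟪Y (ten f ξ), k⟫_ℂ := by
    rw [adjoint_inner_right]; rfl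
  rw [← h4, h3, inner_zero_right]

end Pool.Agent.Helper23

end

end

section

section

open scoped InnerProductSpace Topology

open ContinuousLinearMap Filter

namespace Pool.Agent.Helper23

universe u

variable {H : Type u} [NormedAddCommGroup H] [InnerProductSpace ℂ H] [CompleteSpace H]

variable {K : Type u} [NormedAddCommGroup K] [InnerProductSpace ℂ K] [CompleteSpace K]

variable {M N : VonNeumannAlgebra H} {ξ : H} {E : (H →L[ℂ] H) → (H →L[ℂ] H)}

lemma u12_comp {l : ℝ} {a : ℕ → H →L[ℂ] H} (ha : LamSeq N ξ l a) {φ : ℕ → ℕ}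
    (hφ : Tendsto φ atTop atTop) : LamSeq N ξ l (fun n => a (φ n)) := by
  obtain ⟨C, hC⟩ := ha.2.1
  exact ⟨fun n => ha.1 _, ⟨C, fun n => hC _⟩, fun ε hε => hφ.eventually (ha.2.2 ε hε)⟩

end Pool.Agent.Helper23

end

end

section

section

open scoped InnerProductSpace Topology BoundedContinuousFunction

open ContinuousLinearMap Filter MeasureTheory

namespace Pool.Agent.Helper70.U8

open Pool.Agent.Helper23

variable {H : Type*} [NormedAddCommGroup H] [InnerProductSpace ℂ H] [CompleteSpace H]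

variable {A : VonNeumannAlgebra H} {ξ : H} {R : H →L[ℂ] H} {D : H →L[ℝ] H}
  {Ψ : (ℝ →ᵇ ℂ) →⋆ₐ[ℂ] (H →L[ℂ] H)} {J : H →L[ℝ] H}

open Pool.Agent.Helper43.TTF (FC JD FT FT_apply FR_apply)

lemma psi_D_norm (h' : TTData A ξ R D) (hF : FC R D Ψ) {ε : ℝ} (hε : 0 < ε) (v : H) :
    ‖Ψ (1 - GB ε hε 0) (D v)‖ ≤ 8 * ε * ‖v‖ := by
  have h1 : Ψ (1 - GB ε hε 0) (D v) = D (Ψ (1 - GB ε hε 0) v) := by
    refine (hF.psi_D _ _ (fun ρ => ?_) _).symm
    rw [BoundedContinuousFunction.sub_apply, BoundedContinuousFunction.sub_apply, map_sub,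
      GB_apply, GB_apply, Complex.conj_ofReal, Pool.Agent.Helper43.TTF.one_bcf,
      Pool.Agent.Helper43.TTF.one_bcf, map_one]
    congr 3
    ring
  rw [h1, hF.D_norm h', ← psi_mul_apply]
  refine ((Ψ _).le_opNorm v).trans ?_
  gcongr
  exact (psi_norm_le Ψ _).trans (FT_mul_norm hε)

lemma est (h' : TTData A ξ R D) (hF : FC R D Ψ) (hξ : ‖ξ‖ = 1) {ε : ℝ} (hε : 0 < ε)
    {a r : H →L[ℂ] H} (ha : a ∈ A) (hr : r ∈ A.commutant) :
    ‖Ψ (1 - GB ε hε 0) (a ξ)‖ ≤ 2 * ‖a ξ - r ξ‖ + 8 * ε * (‖a‖ + ‖r‖) := by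
  have e1 : D ((star a) ξ) = (2 : ℂ) • a ξ - R (a ξ) := by
    rw [h'.D_mem _ (star_mem ha), star_star]
  have e2 : D ((star r) ξ) = R (r ξ) := by
    rw [h'.D_comm _ (star_mem hr), star_star]
  have e3 : (2 : ℂ) • a ξ = D ((star a) ξ) + (R (a ξ - r ξ) + D ((star r) ξ)) := by
    rw [e1, e2, map_sub]
    abel
  have n1 : ‖(star a) ξ‖ ≤ ‖a‖ := by
    have := (star a).le_opNorm ξ
    rwa [hξ, mul_one, norm_star] at this
  have n2 : ‖(star r) ξ‖ ≤ ‖r‖ := by
    have := (star r).le_opNorm ξ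
    rwa [hξ, mul_one, norm_star] at this
  have e4 : (2 : ℂ) • Ψ (1 - GB ε hε 0) (a ξ) = Ψ (1 - GB ε hε 0) (D ((star a) ξ)) +
      (Ψ (1 - GB ε hε 0) (R (a ξ - r ξ)) + Ψ (1 - GB ε hε 0) (D ((star r) ξ))) := by
    rw [← map_smul, e3, map_add, map_add]
  have n3 : ‖FR‖ ≤ 2 := by
    refine (BoundedContinuousFunction.norm_le zero_le_two).2 fun ρ => ?_
    rw [Pool.Agent.Helper43.TTF.FR_apply, Complex.norm_real, Real.norm_of_nonneg (by positivity)]
    rw [div_le_iff₀ (by positivity)]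
    (clear * -; nlinarith [Real.exp_pos ρ])
  have n4 : ‖Ψ (1 - GB ε hε 0) (R (a ξ - r ξ))‖ ≤ 2 * ‖a ξ - r ξ‖ := by
    rw [← hF.psi_FR, ← psi_mul_apply]
    refine ((Ψ _).le_opNorm _).trans ?_
    gcongr
    refine (psi_norm_le Ψ _).trans ((norm_mul_le _ _).trans ?_)
    calc ‖(1 - GB ε hε 0 : ℝ →ᵇ ℂ)‖ * ‖FR‖ ≤ 1 * 2 :=
          mul_le_mul (one_sub_norm hε) n3 (norm_nonneg _) zero_le_one
      _ = 2 := one_mul 2
  have n5 := psi_D_norm h' hF hε ((star a) ξ)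
  have n6 := psi_D_norm h' hF hε ((star r) ξ)
  have n7 : 2 * ‖Ψ (1 - GB ε hε 0) (a ξ)‖ ≤ ‖Ψ (1 - GB ε hε 0) (D ((star a) ξ))‖ +
      (‖Ψ (1 - GB ε hε 0) (R (a ξ - r ξ))‖ + ‖Ψ (1 - GB ε hε 0) (D ((star r) ξ))‖) := by
    have h1 : 2 * ‖Ψ (1 - GB ε hε 0) (a ξ)‖ = ‖(2 : ℂ) • Ψ (1 - GB ε hε 0) (a ξ)‖ := by
      rw [norm_smul]
      norm_num
    rw [h1, e4]
    refine (norm_add_le _ _).trans ?_
    gcongr
    exact norm_add_le _ _
  have n8 : 8 * ε * ‖(star a) ξ‖ ≤ 8 * ε * ‖a‖ := by (clear * - n1 hε; gcongr)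
  have n9 : 8 * ε * ‖(star r) ξ‖ ≤ 8 * ε * ‖r‖ := by gcongr
  have n10 := norm_nonneg (a ξ - r ξ)
  have n11 : 0 ≤ 8 * ε * ‖a‖ := by (clear * - hε; positivity)
  have n12 : 0 ≤ 8 * ε * ‖r‖ := by (clear * - hε; positivity)
  (clear * - n4 n5 n6 n7 n8 n9 n10 n11 n12; linarith)

end Pool.Agent.Helper70.U8

end

section

open scoped InnerProductSpace Topology ENNReal

open ContinuousLinearMap Filter MeasureTheory

namespace Pool.Agent.Helper23

variable {H : Type*} [NormedAddCommGroup H] [InnerProductSpace ℂ H] [CompleteSpace H]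

variable {M N : VonNeumannAlgebra H} {ξ : H} {E : (H →L[ℂ] H) → (H →L[ℂ] H)}

/-- the total mass of the slices -/
lemma sum_sa {u : L2R H →L[ℂ] L2R H} (hu1 : star u * u = 1) (hξ : ‖ξ‖ = 1) {t : ℝ} (ht : 0 < t)
    (g : L2R ℂ) (A A' : Finset ℤ) (B : Finset hw) :
    ∑ j ∈ A', ∑ i ∈ A, ∑ k ∈ B, ‖sa u t g (i, k, j) ξ‖ ^ 2 ≤ ‖g‖ ^ 2 := by
  have h1 : ∀ j ∈ A', ∑ i ∈ A, ∑ k ∈ B, ‖sa u t g (i, k, j) ξ‖ ^ 2 ≤
      ‖mulOp ℂ (ind (win t j)) g‖ ^ 2 := by
    intro j _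
    have h2 := bessel_both ht A B (fun i => ind_bm (win_meas t i))
      (fun i s h => ind_of_notMem h) zero_le_one (fun i s => ind_norm_le _ s)
      (u (ten (mulOp ℂ (ind (win t j)) g) ξ))
    rw [one_pow, one_mul, norm_of_isom hu1, norm_ten, hξ, mul_one] at h2
    exact h2
  exact (Finset.sum_le_sum h1).trans (bessel_win ht A' g)

end Pool.Agent.Helper23

end

end

section

section

open scoped InnerProductSpace Topology

open ContinuousLinearMap Filter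

namespace Pool.Agent.Helper23

universe u

variable {H : Type u} [NormedAddCommGroup H] [InnerProductSpace ℂ H] [CompleteSpace H]
  {N : VonNeumannAlgebra H} {ξ : H}

theorem iii_step (hξ : ‖ξ‖ = 1) {l : ℝ} (hl : 0 < l) {α β ε : ℝ} (hα : α ^ 2 = 1 / (1 + l))
    (hβ : β ^ 2 = l / (1 + l)) (hε : 0 ≤ ε) {u v w : H →L[ℂ] H} (hu : u ∈ N) (hv : v ∈ N)
    (hw : w ∈ N) (hu1 : star u * u = 1) (hvv : star v * v = 1) (hww : star w * w = 1)
    (hwv : star w * v = 0)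
    (h : ∀ x ∈ N, ‖((α ^ 2 : ℝ) : ℂ) * ⟪ξ, (star (u * v) * x * (u * v)) ξ⟫_ℂ +
        ((β ^ 2 : ℝ) : ℂ) * ⟪ξ, (star (u * w) * x * (u * w)) ξ⟫_ℂ - ⟪ξ, x ξ⟫_ℂ‖ ≤
        ε * ‖x‖) :
    ∃ a ∈ N, ‖a‖ ≤ 1 ∧ Defect N ξ l ((1 + l) * ε) a ∧ l / (1 + l) ≤ ‖a ξ‖ ^ 2 + ε := by
  have haN : u * (v * star w) * star u ∈ N :=
    mul_mem (mul_mem hu (mul_mem hv (star_mem hw))) (star_mem hu)
  have hna : ‖u * (v * star w) * star u‖ ≤ 1 := by
    have hnu : ‖u‖ ≤ 1 := norm_le_one_of_isom hu1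
    have hnv : ‖v‖ ≤ 1 := norm_le_one_of_isom hvv
    have hnw : ‖w‖ ≤ 1 := norm_le_one_of_isom hww
    have h1 : ‖v * star w‖ ≤ 1 := (norm_mul_le _ _).trans
      (mul_le_one₀ hnv (norm_nonneg _) (by rw [norm_star]; exact hnw))
    have h2 : ‖u * (v * star w)‖ ≤ 1 :=
      (norm_mul_le _ _).trans (mul_le_one₀ hnu (norm_nonneg _) h1)
    exact (norm_mul_le _ _).trans (mul_le_one₀ h2 (norm_nonneg _) (by rw [norm_star]; exact hnu))
  have hE1 := fun z => iii_e1 (A := H →L[ℂ] H) hu1 hwv z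
  have hE2 := fun z => iii_e2 (A := H →L[ℂ] H) (v := v) hu1 hww z
  have hE3 := fun z => iii_e3 (A := H →L[ℂ] H) (w := w) hu1 hvv z
  have hE4 := fun z => iii_e4 (A := H →L[ℂ] H) hu1 hwv z
  have hss := iii_ss (A := H →L[ℂ] H) (w := w) hu1 hvv
  have hE5 := iii_e5 (A := H →L[ℂ] H) hu1 hwv
  have hE6 := iii_e6 (A := H →L[ℂ] H) hu1 hww
  generalize u * (v * star w) * star u = a at *
  have hl1 : (l : ℂ) * ((α ^ 2 : ℝ) : ℂ) = ((β ^ 2 : ℝ) : ℂ) := by
    rw [hα, hβ, ← Complex.ofReal_mul]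
    congr 1
    field_simp
  refine ⟨a, haN, hna, ?_, ?_⟩
  · intro z hz
    have h2 := h (z * a) (mul_mem hz haN)
    have h3 := h (a * z) (mul_mem haN hz)
    rw [hE1, hE2] at h2
    rw [hE3, hE4] at h3
    generalize hB : ⟪ξ, (star w * (star u * (z * (u * v)))) ξ⟫_ℂ = B at h2 h3
    have hz0 : ⟪ξ, (0 : H →L[ℂ] H) ξ⟫_ℂ = 0 := inner_zero_right ξ
    rw [hz0, mul_zero, zero_add] at h2
    rw [hz0, mul_zero, add_zero] at h3
    have a1 : (z * a) ξ = z (a ξ) := rfl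
    have a2 : (a * z) ξ = a (z ξ) := rfl
    rw [a1] at h2
    rw [a2] at h3
    have h4 : ‖z * a‖ ≤ ‖z‖ := by
      refine (norm_mul_le _ _).trans ?_
      have := mul_le_mul_of_nonneg_left hna (norm_nonneg z)
      rwa [mul_one] at this
    have h5 : ‖a * z‖ ≤ ‖z‖ := by
      refine (norm_mul_le _ _).trans ?_
      have := mul_le_mul_of_nonneg_right hna (norm_nonneg z)
      rwa [one_mul] at this
    have e5 : ⟪ξ, z (a ξ)⟫_ℂ - l * ⟪ξ, a (z ξ)⟫_ℂ =
        -(((β ^ 2 : ℝ) : ℂ) * B - ⟪ξ, z (a ξ)⟫_ℂ) +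
        (l : ℂ) * (((α ^ 2 : ℝ) : ℂ) * B - ⟪ξ, a (z ξ)⟫_ℂ) := by
      rw [← hl1]
      ring
    rw [e5]
    calc _ ≤ ‖-(((β ^ 2 : ℝ) : ℂ) * B - ⟪ξ, z (a ξ)⟫_ℂ)‖ +
          ‖(l : ℂ) * (((α ^ 2 : ℝ) : ℂ) * B - ⟪ξ, a (z ξ)⟫_ℂ)‖ := norm_add_le _ _
      _ = ‖((β ^ 2 : ℝ) : ℂ) * B - ⟪ξ, z (a ξ)⟫_ℂ‖ +
          l * ‖((α ^ 2 : ℝ) : ℂ) * B - ⟪ξ, a (z ξ)⟫_ℂ‖ := by
            rw [norm_neg, norm_mul, Complex.norm_real, Real.norm_eq_abs, abs_of_pos hl]
      _ ≤ ε * ‖z * a‖ + l * (ε * ‖a * z‖) := by (clear * - h2 h3 hl; gcongr)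
      _ ≤ ε * ‖z‖ + l * (ε * ‖z‖) := by (clear * - h4 hε h5 hl; gcongr)
      _ = (1 + l) * ε * ‖z‖ := by ring
  · have h2 := h (star a * a) (mul_mem (star_mem haN) haN)
    have e3 := inner_star_mul_self a ξ
    have e4 : ⟪ξ, (1 : H →L[ℂ] H) ξ⟫_ℂ = 1 := by
      have : (1 : H →L[ℂ] H) ξ = ξ := rfl
      rw [this, inner_self_eq_norm_sq_to_K, hξ]
      norm_num
    have h4 : ‖star a * a‖ ≤ 1 :=
      (norm_mul_le _ _).trans (mul_le_one₀ (by rw [norm_star]; exact hna)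
        (norm_nonneg _) hna)
    have hz0 : ⟪ξ, (0 : H →L[ℂ] H) ξ⟫_ℂ = 0 := inner_zero_right ξ
    rw [e3, hss, hE5, hE6, e4, hz0, mul_zero, zero_add, mul_one,
      ← Complex.ofReal_sub, Complex.norm_real, Real.norm_eq_abs, hβ, ← hss] at h2
    have h5 := (abs_le.1 h2).2
    have h6 := mul_le_mul_of_nonneg_left h4 hε
    (clear * - h5 h6; linarith)

theorem TypeIIIOne.exists_lamSeq (hN : TypeIIIOne N) (hξ : ‖ξ‖ = 1) {l : ℝ} (hl : 0 < l) :
    ∃ a, LamSeq N ξ l a ∧ ¬ Tendsto (fun n => a n ξ) atTop (𝓝 0) := by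
  obtain ⟨⟨v, hv, w, hw, hvv, hww, hvw⟩, hst⟩ := hN
  have hwv : star w * v = 0 := by
    have := congrArg star hvw
    rwa [star_mul, star_star, star_zero] at this
  obtain ⟨α, hα⟩ : ∃ α : ℝ, α ^ 2 = 1 / (1 + l) := ⟨Real.sqrt (1 / (1 + l)),
    Real.sq_sqrt (by (clear * - hl; positivity))⟩
  obtain ⟨β, hβ⟩ : ∃ β : ℝ, β ^ 2 = l / (1 + l) := ⟨Real.sqrt (l / (1 + l)),
    Real.sq_sqrt (by (clear * - hl; positivity))⟩
  have hnorm : ‖(α : ℂ) • v ξ‖ ^ 2 + ‖(β : ℂ) • w ξ‖ ^ 2 = 1 := by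
    rw [norm_smul, norm_smul, norm_isom_apply hvv, norm_isom_apply hww, hξ, Complex.norm_real,
      Complex.norm_real, mul_one, mul_one, Real.norm_eq_abs, Real.norm_eq_abs, sq_abs, sq_abs,
      hα, hβ]
    (clear * - hl; field_simp)
  have hζ : ‖ξ‖ ^ 2 + ‖(0 : H)‖ ^ 2 = 1 := by rw [hξ, norm_zero]; norm_num
  have hex : ∀ n : ℕ, ∃ a ∈ N, ‖a‖ ≤ 1 ∧ Defect N ξ l ((1 + l) * (1 / ((n : ℝ) + 1))) a ∧
      l / (1 + l) ≤ ‖a ξ‖ ^ 2 + 1 / ((n : ℝ) + 1) := by
    intro n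
    obtain ⟨u, hu, h1, -, h3⟩ := hst _ _ ξ 0 hnorm hζ (1 / ((n : ℝ) + 1)) (by (clear * -; positivity))
    refine iii_step hξ hl hα hβ (by (clear * -; positivity)) hu hv hw h1 hvv hww hwv fun x hx => ?_
    have h4 := h3 x hx
    rw [inner_conj_aux, inner_conj_aux, inner_zero_left, add_zero] at h4
    exact h4
  choose a haN hna haD hal using hex
  refine ⟨a, ⟨haN, ⟨1, hna⟩, ?_⟩, ?_⟩
  · intro ε hε
    have h1 : ∀ᶠ n : ℕ in atTop, (1 + l) * (1 / ((n : ℝ) + 1)) < ε := by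
      have h2 := (tendsto_one_div_add_atTop_nhds_zero_nat (𝕜 := ℝ)).const_mul (1 + l)
      rw [mul_zero] at h2
      exact h2.eventually (gt_mem_nhds hε)
    exact h1.mono fun n hn => (haD n).mono hn.le
  · intro hT
    have h2 : Tendsto (fun n : ℕ => ‖a n ξ‖ ^ 2 + 1 / ((n : ℝ) + 1)) atTop
        (𝓝 (‖(0 : H)‖ ^ 2 + 0)) :=
      (hT.norm.pow 2).add (tendsto_one_div_add_atTop_nhds_zero_nat (𝕜 := ℝ))
    have h3 := ge_of_tendsto' h2 hal
    rw [norm_zero] at h3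
    have h4 : 0 < l / (1 + l) := by (clear * - hl; positivity)
    norm_num at h3
    (clear * - h4 h3; linarith)

end Pool.Agent.Helper23

end

end

section

section

open scoped InnerProductSpace Topology BoundedContinuousFunction

open ContinuousLinearMap Filter MeasureTheory

namespace Pool.Agent.Helper88.CS

open Pool.Agent.Helper23

open Pool.Agent.Helper78.BC (Std rm Fixed)

variable {H : Type*} [NormedAddCommGroup H] [InnerProductSpace ℂ H] [CompleteSpace H]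

variable {A : VonNeumannAlgebra H} {ξ : H} {J : H →L[ℝ] H}
  {Ψ : (ℝ →ᵇ ℂ) →⋆ₐ[ℂ] (H →L[ℂ] H)} {R : H →L[ℂ] H} {D : H →L[ℝ] H}

open CentAux

open Pool.Agent.Helper78.BC (fixed_of J_of_fixed)

open Pool.Agent.Helper78.BC.FixAux (Pl Pl_apply plat plat_cont norm_Pl_le Pl_tendsto mm_zero mm_nonneg mm_le)

open Pool.Agent.Helper70.U8 (GB GB_apply)

theorem J_of_state (h : St A ξ J Ψ R D) {e : H →L[ℂ] H} (he : e ∈ A) (hs : star e = e)
    (hc : ∀ x ∈ A, ⟪e ξ, x ξ⟫_ℂ = ⟪(star x) ξ, e ξ⟫_ℂ) : J (e ξ) = e ξ := by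
  -- the state condition
  have key : ∀ G G' : ℝ →ᵇ ℂ, HasCompactSupport (G : ℝ → ℂ) →
      (∀ ρ, G' ρ = ((Real.exp (ρ / 2) : ℝ) : ℂ) * G ρ) → star G = G → star G' = G' →
      Ψ G (e ξ) = Ψ G' (J (e ξ)) := by
    intro G G' hG hGG hr hr'
    refine ext_inner_right ℂ fun θ => ?_
    rw [Pool.Agent.Helper43.TTF.psi_star, Pool.Agent.Helper43.TTF.psi_star, hr, hr']
    have hb : ∀ n : ℕ, ∃ b ∈ A, ‖b ξ - Ψ G θ‖ ≤ 1 / ((n : ℝ) + 1) ∧
        ‖J ((star b) ξ) - Ψ G' θ‖ ≤ 1 / ((n : ℝ) + 1) := fun n =>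
      h.core G G' hG hGG θ (1 / ((n : ℝ) + 1)) (by (clear * -; positivity))
    choose b hbA hb1 hb2 using hb
    have t1 : Tendsto (fun n => (b n) ξ) atTop (𝓝 (Ψ G θ)) := by
      rw [tendsto_iff_norm_sub_tendsto_zero]
      exact squeeze_zero (fun _ => norm_nonneg _) hb1 tendsto_one_div_add_atTop_nhds_zero_nat
    have t2 : Tendsto (fun n => J ((star (b n)) ξ)) atTop (𝓝 (Ψ G' θ)) := by
      rw [tendsto_iff_norm_sub_tendsto_zero]
      exact squeeze_zero (fun _ => norm_nonneg _) hb2 tendsto_one_div_add_atTop_nhds_zero_nat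
    have t3 : Tendsto (fun n => ⟪e ξ, (b n) ξ⟫_ℂ) atTop (𝓝 ⟪e ξ, Ψ G θ⟫_ℂ) :=
      tendsto_const_nhds.inner t1
    have t4 : Tendsto (fun n => ⟪J (e ξ), J ((star (b n)) ξ)⟫_ℂ) atTop
        (𝓝 ⟪J (e ξ), Ψ G' θ⟫_ℂ) := tendsto_const_nhds.inner t2
    refine tendsto_nhds_unique t3 ?_
    have e1 : (fun n => ⟪e ξ, (b n) ξ⟫_ℂ) = fun n => ⟪J (e ξ), J ((star (b n)) ξ)⟫_ℂ := by
      funext n
      rw [hc _ (hbA n), h.J_inner]
    rw [e1]
    exact t4
  rw [eq_comm, ← sub_eq_zero]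
  refine zero_of_Pl h.toStd fun n => ?_
  -- `G = Pl / (1 + e^{ρ/2})`
  have hden : ∀ ρ : ℝ, (0 : ℝ) < 1 + Real.exp (ρ / 2) := fun ρ => by positivity
  set g : ℝ → ℝ := fun ρ => plat n ρ / (1 + Real.exp (ρ / 2)) with hg
  have hgc : Continuous g := by
    refine (plat_cont n).div (by fun_prop) fun ρ => (hden ρ).ne'
  set g' : ℝ → ℝ := fun ρ => Real.exp (ρ / 2) * g ρ with hg'
  have hgc' : Continuous g' := by
    have : Continuous fun ρ : ℝ => Real.exp (ρ / 2) := by fun_prop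
    exact this.mul hgc
  have p0 : ∀ ρ, 0 ≤ plat n ρ := fun ρ => mm_nonneg _
  have p1 : ∀ ρ, plat n ρ ≤ 1 := fun ρ => mm_le _
  have g0 : ∀ ρ, 0 ≤ g ρ := fun ρ => div_nonneg (p0 ρ) (hden ρ).le
  have g1 : ∀ ρ, g ρ ≤ 1 := fun ρ => by
    rw [hg]
    simp only
    rw [div_le_one (hden ρ)]
    have := p1 ρ
    have := Real.exp_pos (ρ / 2)
    linarith
  have g0' : ∀ ρ, 0 ≤ g' ρ := fun ρ => mul_nonneg (Real.exp_pos _).le (g0 ρ)
  have hsum : ∀ ρ, g ρ + g' ρ = plat n ρ := fun ρ => by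
    rw [hg', hg]
    simp only
    have := (hden ρ).ne'
    field_simp
  have g1' : ∀ ρ, g' ρ ≤ 1 := fun ρ => by
    have := hsum ρ
    have := p1 ρ
    have := g0 ρ
    linarith
  set G : ℝ →ᵇ ℂ := BoundedContinuousFunction.ofNormedAddCommGroup
    (fun ρ : ℝ => ((g ρ : ℝ) : ℂ)) (Complex.continuous_ofReal.comp hgc) 1 (fun ρ => by
      rw [Complex.norm_real, Real.norm_of_nonneg (g0 ρ)]
      exact g1 ρ) with hG
  set G' : ℝ →ᵇ ℂ := BoundedContinuousFunction.ofNormedAddCommGroup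
    (fun ρ : ℝ => ((g' ρ : ℝ) : ℂ)) (Complex.continuous_ofReal.comp hgc') 1 (fun ρ => by
      rw [Complex.norm_real, Real.norm_of_nonneg (g0' ρ)]
      exact g1' ρ) with hG'
  have hGa : ∀ ρ, G ρ = ((g ρ : ℝ) : ℂ) := fun ρ => rfl
  have hGa' : ∀ ρ, G' ρ = ((g' ρ : ℝ) : ℂ) := fun ρ => rfl
  have hGG : ∀ ρ, G' ρ = ((Real.exp (ρ / 2) : ℝ) : ℂ) * G ρ := fun ρ => by
    rw [hGa, hGa', ← Complex.ofReal_mul]
  have hr : star G = G := by
    ext ρ
    rw [BoundedContinuousFunction.star_apply, hGa, Complex.star_def, Complex.conj_ofReal]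
  have hr' : star G' = G' := by
    ext ρ
    rw [BoundedContinuousFunction.star_apply, hGa', Complex.star_def, Complex.conj_ofReal]
  have hGs : HasCompactSupport (G : ℝ → ℂ) := by
    refine (Pl_supp n).mono ?_
    intro ρ hρ
    rw [Function.mem_support] at hρ ⊢
    intro h0
    apply hρ
    rw [hGa]
    rw [Pl_apply, Complex.ofReal_eq_zero] at h0
    rw [hg]
    simp only
    rw [h0, zero_div, Complex.ofReal_zero]
  have hPl : Pl n = G + G' := by
    ext ρ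
    rw [BoundedContinuousFunction.coe_add, Pi.add_apply, hGa, hGa', ← Complex.ofReal_add, hsum,
      Pl_apply]
  have k1 := key G G' hGs hGG hr hr'
  have k2 := h.psi_half G G' hGG e he
  rw [hs] at k2
  rw [hPl, map_add, ContinuousLinearMap.add_apply, map_sub, map_sub, k1, ← k2]
  abel

end Pool.Agent.Helper88.CS

end

section

open scoped InnerProductSpace Topology ENNReal BoundedContinuousFunction

open ContinuousLinearMap Filter MeasureTheory

namespace Pool.Agent.Helper23.ED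

open Pool.Agent.Helper23 Pool.Agent.Helper23.RBF

open Pool.Agent.Helper78.BC.Transport (Sub r)

universe u

variable {H : Type*} [NormedAddCommGroup H] [InnerProductSpace ℂ H] [CompleteSpace H]

theorem FCal.ug {R : H →L[ℂ] H} {Ψ : (ℝ →ᵇ ℂ) →⋆ₐ[ℂ] (H →L[ℂ] H)} (h : FCal R Ψ) :
    UG (fun t => Ψ (expB t)) := by
  refine ⟨?_, ?_, ?_, ?_⟩
  · intro v
    apply SeqContinuous.continuous
    intro s t hs
    refine h.psi_cont (fun n => expB (s n)) (expB t) 1
      (fun n => Pool.Agent.Helper43.TTF.expB_norm _) ?_ v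
    intro L
    rw [Metric.tendstoUniformlyOn_iff]
    intro ε hε
    have h1 := Metric.tendsto_atTop.1 hs (ε / (|L| + 1)) (by (clear * - hε; positivity))
    obtain ⟨m, hm⟩ := h1
    filter_upwards [eventually_ge_atTop m] with n hn ρ hρ
    have h2 := hm n hn
    rw [Real.dist_eq] at h2
    rw [dist_eq_norm, Pool.Agent.Helper43.TTF.expB_apply, Pool.Agent.Helper43.TTF.expB_apply]
    refine (Pool.Agent.Helper43.TTF.exp_sub _ _).trans_lt ?_
    rw [← sub_mul, abs_mul, abs_sub_comm]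
    have h3 : |ρ| ≤ |L| := by
      rw [Set.mem_Icc] at hρ
      rw [abs_le]
      constructor <;> (clear * - hρ; linarith [hρ.1, hρ.2, le_abs_self L])
    have h5 : 0 < |L| + 1 := by (clear * -; positivity)
    rw [lt_div_iff₀ h5] at h2
    have h4 : 0 ≤ |s n - t| := abs_nonneg _
    (clear * - h2 h4 h3; nlinarith)
  · change Ψ (expB 0) = 1
    have h3 : expB 0 = 1 := by
      ext ρ
      rw [Pool.Agent.Helper43.TTF.expB_apply]
      simp
    rw [h3, map_one]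
  · intro s t
    change Ψ (expB (s + t)) = Ψ (expB s) * Ψ (expB t)
    rw [← map_mul]
    congr 1
    ext ρ
    rw [BoundedContinuousFunction.mul_apply, Pool.Agent.Helper43.TTF.expB_apply,
      Pool.Agent.Helper43.TTF.expB_apply, Pool.Agent.Helper43.TTF.expB_apply, ← Complex.exp_add]
    congr 1
    push_cast
    ring
  · intro t
    change star (Ψ (expB t)) = Ψ (expB (-t))
    rw [← map_star, Pool.Agent.Helper43.TTF.expB_star]

end Pool.Agent.Helper23.ED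

end

section

open scoped InnerProductSpace Topology ENNReal BoundedContinuousFunction

open ContinuousLinearMap Filter MeasureTheory

namespace Pool.Agent.Helper23.ED

open Pool.Agent.Helper23 Pool.Agent.Helper23.RBF

open Pool.Agent.Helper78.BC.Transport (Sub r)

universe u

open Pool.Agent.Helper43.TTF (FT)

variable {K : Type*} [NormedAddCommGroup K] [InnerProductSpace ℂ K] [CompleteSpace K]

variable {A : VonNeumannAlgebra K} {κ : K} {R : K →L[ℂ] K} {D : K →L[ℝ] K}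
  {Ψ : (ℝ →ᵇ ℂ) →⋆ₐ[ℂ] (K →L[ℂ] K)}

theorem smear_xi (h : Modular A κ R D Ψ) {m : ℝ} (hm : 0 < m) (z : ℂ) (Y : K →L[ℂ] K) :
    smear (fun t => Ψ (expB t)) (gau m z) Y κ = Ψ (GZ m hm z) (Y κ) := by
  have hU : UG (fun t => Ψ (expB t)) := h.fcal.ug
  refine ext_inner_left ℂ fun v => ?_
  rw [smear_spec hU (gau_int hm z)]
  have h1 : ∀ t : ℝ, Ψ (expB (-t)) κ = κ := by
    intro t
    rw [h.psi_xi]
    have : expB (-t) 0 = 1 := by
      rw [Pool.Agent.Helper43.TTF.expB_apply]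
      simp
    rw [this, one_smul]
  simp only [h1]
  have hpi : (0 : ℝ) < 2 * Real.pi := by positivity
  set g : ℝ → ℂ := fun s => gau m z s * ⟪v, Ψ (expB s) (Y κ)⟫_ℂ with hg
  have hk : Integrable (fun t : ℝ => ((2 * Real.pi : ℝ) : ℂ) * gau m z (2 * Real.pi * t)) :=
    ((gau_int hm z).comp_mul_left' hpi.ne').const_mul _
  have h2 := h.integral_psi hk (K := GZ m hm z) ?_ v (Y κ)
  · rw [← h2]
    have h3 : (fun t : ℝ => ((2 * Real.pi : ℝ) : ℂ) * gau m z (2 * Real.pi * t) *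
        ⟪v, Ψ (expB (2 * Real.pi * t)) (Y κ)⟫_ℂ) =
        fun t : ℝ => ((2 * Real.pi : ℝ) : ℂ) * g (2 * Real.pi * t) := by
      funext t
      rw [hg]
      ring
    rw [h3, integral_const_mul, Measure.integral_comp_mul_left g (2 * Real.pi),
      abs_of_pos (inv_pos.2 hpi), Complex.real_smul, ← mul_assoc, ← Complex.ofReal_mul,
      mul_inv_cancel₀ hpi.ne', Complex.ofReal_one, one_mul]
  · intro ρ
    rw [← gau_fourier hm z ρ]
    set g' : ℝ → ℂ := fun s => gau m z s * expB s ρ with hg'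
    have h3 : (fun t : ℝ => ((2 * Real.pi : ℝ) : ℂ) * gau m z (2 * Real.pi * t) *
        expB (2 * Real.pi * t) ρ) =
        fun t : ℝ => ((2 * Real.pi : ℝ) : ℂ) * g' (2 * Real.pi * t) := by
      funext t
      rw [hg']
      ring
    rw [h3, integral_const_mul, Measure.integral_comp_mul_left g' (2 * Real.pi),
      abs_of_pos (inv_pos.2 hpi), Complex.real_smul, ← mul_assoc, ← Complex.ofReal_mul,
      mul_inv_cancel₀ hpi.ne', Complex.ofReal_one, one_mul]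

end Pool.Agent.Helper23.ED

end

section

open scoped InnerProductSpace Topology ENNReal BoundedContinuousFunction

open ContinuousLinearMap Filter MeasureTheory

namespace Pool.Agent.Helper23.ED

open Pool.Agent.Helper23 Pool.Agent.Helper23.RBF

open Pool.Agent.Helper78.BC.Transport (Sub r)

universe u

variable {H : Type*} [NormedAddCommGroup H] [InnerProductSpace ℂ H] [CompleteSpace H]

variable {A : VonNeumannAlgebra H} {ξ : H} {R : H →L[ℂ] H} {D : H →L[ℝ] H}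
  {Ψ : (ℝ →ᵇ ℂ) →⋆ₐ[ℂ] (H →L[ℂ] H)}

namespace GgE

open Pool.Agent.Helper43.TTF

lemma main (hΨ : Modular A ξ R D Ψ) {x y b : H →L[ℂ] H} (hy : y ∈ A)
    (hb : b ∈ A) (h : R (x ξ) = (2 : ℂ) • y ξ - R (y ξ)) (n : ℕ) :
    ⟪b ξ, Ψ (FT * FT * kB n) (x ξ)⟫_ℂ = ⟪(star y) ξ, Ψ (FT * FT * kB n) ((star b) ξ)⟫_ℂ := by
  have hd := hΨ.data
  have hK : ∀ v, D (Ψ (kB n) v) = Ψ (kB n) (D v) := hΨ.psi_D _ _ (kB_conj n)
  -- `Ψ (FT * FT) = R (2 - R)`
  have hTT : ∀ v, Ψ (FT * FT) v = R ((2 : ℂ) • v - R v) := by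
    intro v
    rw [FT_sq, psi_mul_apply, map_sub, hΨ.psi_FR, psi_two, sub_apply, smul_apply,
      one_apply_eq_self]
  have hTT' : ∀ v, D (D v) = Ψ (FT * FT) v := fun v => by rw [hTT, hd.D_sq]
  have e1 : ⟪b ξ, Ψ (FT * FT * kB n) (x ξ)⟫_ℂ = ⟪D (Ψ (kB n) (x ξ)), D (b ξ)⟫_ℂ := by
    rw [hd.D_symm, hTT', ← psi_mul_apply]
  have hself : ∀ v w : H, ⟪R v, w⟫_ℂ = ⟪v, R w⟫_ℂ := by
    intro v w
    rw [← inner_star_right, hd.R_star]
  have e2 : ⟪(star y) ξ, Ψ (FT * FT * kB n) ((star b) ξ)⟫_ℂ =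
      ⟪Ψ (kB n) (R ((star y) ξ)), (2 : ℂ) • (star b) ξ - R ((star b) ξ)⟫_ℂ := by
    rw [psi_star, kB_star, hself, ← hΨ.psi_FR]
    have h5 : (2 : ℂ) • (star b) ξ - Ψ FR ((star b) ξ) = Ψ (2 - FR) ((star b) ξ) := by
      rw [map_sub, psi_two, sub_apply, smul_apply, one_apply_eq_self]
    rw [h5, ← psi_mul_apply, ← psi_mul_apply, FT_sq]
    congr 3
    ring
  rw [e1, e2, hK, D_xi hd hy h, hd.D_mem b hb]

end GgE

/-- if `x ξ = Δ y ξ` then `φ(b* x) = φ(y b*)` -/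
theorem sesq (hΨ : Modular A ξ R D Ψ) {x y b : H →L[ℂ] H} (hx : x ∈ A) (hy : y ∈ A)
    (hb : b ∈ A) (h : R (x ξ) = (2 : ℂ) • y ξ - R (y ξ)) :
    ⟪b ξ, x ξ⟫_ℂ = ⟪(star y) ξ, (star b) ξ⟫_ℂ := by
  have h1 : ∀ v : H, Tendsto (fun n => Ψ (Pool.Agent.Helper43.TTF.FT *
      Pool.Agent.Helper43.TTF.FT * GgE.kB n) v) atTop (𝓝 v) := by
    intro v
    have h2 := hΨ.psi_cont _ 1 1 GgE.norm_le' GgE.tendsto' v
    rwa [map_one, one_apply_eq_self] at h2
  have h2 := (tendsto_const_nhds (x := b ξ)).inner (𝕜 := ℂ) (h1 (x ξ))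
  have h3 := (tendsto_const_nhds (x := (star y) ξ)).inner (𝕜 := ℂ) (h1 ((star b) ξ))
  refine tendsto_nhds_unique h2 (h3.congr fun n => ?_)
  exact (GgE.main hΨ hy hb h n).symm

end Pool.Agent.Helper23.ED

end

end

section

section

open scoped InnerProductSpace Topology

open ContinuousLinearMap Filter

namespace Pool.Agent.Helper23

variable {H : Type*} [NormedAddCommGroup H] [InnerProductSpace ℂ H] [CompleteSpace H]

variable {M N : VonNeumannAlgebra H} {ξ : H} {E : (H →L[ℂ] H) → (H →L[ℂ] H)}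

namespace AP

variable (S : AP M N E ξ)

include S

/-- averaging of a quadratic inequality over both sides of the compressions by an
eigenoperator. -/
lemma avg_compress {γ : ℝ} (hγ : 0 < γ) {v : H →L[ℂ] H} (hv : v ∈ eig N ξ γ) (hv0 : v ≠ 0)
    {ι : Type*} [Fintype ι] {X : ι → H →L[ℂ] H} (hX : ∀ i, X i ∈ M) (s : ι → ℝ)
    (h : ∀ w ∈ Ucent N ξ, ∀ w' ∈ Ucent N ξ,
      0 ≤ ∑ i, s i * ‖(star v * w * X i * w' * v) ξ‖ ^ 2) :
    0 ≤ ∑ i, s i * ‖X i ξ‖ ^ 2 := by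
  have hvv : v * star v ∈ eig N ξ 1 := mul_star_mem_eig_one hγ.ne' hv hv
  have hφ : ⟪ξ, (v * star v) ξ⟫_ℂ = ((‖(star v) ξ‖ ^ 2 : ℝ) : ℂ) := by
    rw [norm_sq_apply, star_star]; rfl
  have hns : γ * ‖(star v) ξ‖ ^ 2 = ‖v ξ‖ ^ 2 := (S.eig_norm_sq hv).symm
  have hvξ : v ξ ≠ 0 := fun h => hv0 (S.sep v (S.le v hv.1) h)
  have hvn : 0 < ‖v ξ‖ ^ 2 := by positivity
  have hvsn : 0 < ‖(star v) ξ‖ ^ 2 := by
    by_contra hcon
    push Not at hcon
    nlinarith
  -- step 1 : averaging on the left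
  have h1 : ∀ w' ∈ Ucent N ξ, 0 ≤ ∑ i, s i * ‖X i (w' (v ξ))‖ ^ 2 := by
    intro w' hw'
    have h2 := S.avgN_le (x := fun _ : ι => v * star v) (fun _ => hvv.1)
      (fun i => ((s i : ℝ) : ℂ) • X i (w' (v ξ))) (fun i => X i (w' (v ξ))) (c := 0) (by
        intro u hu
        refine (h u hu w' hw').trans_eq (Finset.sum_congr rfl fun i _ => ?_)
        have e1 : (star v * u * X i * w' * v) ξ = (star v) (u (X i (w' (v ξ)))) := rfl
        have e2 : ⟪X i (w' (v ξ)), (star u * (v * star v) * u) (X i (w' (v ξ)))⟫_ℂ =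
            ⟪(star v) (u (X i (w' (v ξ)))), (star v) (u (X i (w' (v ξ))))⟫_ℂ := by
          rw [inner_star_left]
          change ⟪X i (w' (v ξ)), (star u) ((v * star v) (u (X i (w' (v ξ)))))⟫_ℂ = _
          rw [inner_star_right]; rfl
        rw [e1, inner_smul_left, Complex.conj_ofReal, Complex.re_ofReal_mul, e2,
          inner_self_eq_norm_sq_to_K]
        norm_cast)
    have h3 : ∑ i, (⟪ξ, (v * star v) ξ⟫_ℂ *
        ⟪((s i : ℝ) : ℂ) • X i (w' (v ξ)), X i (w' (v ξ))⟫_ℂ).re =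
        ‖(star v) ξ‖ ^ 2 * ∑ i, s i * ‖X i (w' (v ξ))‖ ^ 2 := by
      rw [Finset.mul_sum]
      refine Finset.sum_congr rfl fun i _ => ?_
      rw [hφ, Complex.re_ofReal_mul, inner_smul_left, Complex.conj_ofReal,
        Complex.re_ofReal_mul, inner_self_eq_norm_sq_to_K]
      norm_cast
    rw [h3] at h2
    exact nonneg_of_mul_nonneg_right h2 hvsn
  -- step 2 : averaging on the right
  have h2 := S.avgN_le (x := fun _ : ι => v * star v) (fun _ => hvv.1)
    (fun i => ((s i : ℝ) : ℂ) • (star (X i)) (X i ξ)) (fun _ => ξ) (c := 0) (by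
      intro u hu
      have hus := Ucent_star hu
      have h3 := mul_nonneg (inv_nonneg.2 hγ.le) (h1 _ hus)
      refine h3.trans_eq ?_
      rw [Finset.mul_sum]
      refine Finset.sum_congr rfl fun i _ => ?_
      have h4 := S.norm_right_eig_sq (eig_mul_left hus.1 hv) (hX i)
      have h5 : star u * v * star (star u * v) = star u * (v * star v) * u := by
        rw [star_mul, star_star]; simp only [mul_assoc]
      rw [h5] at h4
      have h6 : ‖X i ((star u) (v ξ))‖ ^ 2 =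
          γ * (⟪(star (X i)) (X i ξ), (star u * (v * star v) * u) ξ⟫_ℂ).re := by
        have h7 := congrArg Complex.re h4
        rw [Complex.ofReal_re, Complex.re_ofReal_mul] at h7
        change ‖X i ((star u * v) ξ)‖ ^ 2 = _
        rw [h7, inner_star_left, ← inner_conj_symm, Complex.conj_re]
      rw [h6, inner_smul_left, Complex.conj_ofReal, Complex.re_ofReal_mul]
      field_simp)
  have h3 : ∑ i, (⟪ξ, (v * star v) ξ⟫_ℂ *
      ⟪((s i : ℝ) : ℂ) • (star (X i)) (X i ξ), ξ⟫_ℂ).re =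
      ‖(star v) ξ‖ ^ 2 * ∑ i, s i * ‖X i ξ‖ ^ 2 := by
    rw [Finset.mul_sum]
    refine Finset.sum_congr rfl fun i _ => ?_
    rw [hφ, Complex.re_ofReal_mul, inner_smul_left, Complex.conj_ofReal,
      Complex.re_ofReal_mul, inner_star_left, inner_self_eq_norm_sq_to_K]
    norm_cast
  rw [h3] at h2
  exact nonneg_of_mul_nonneg_right h2 hvsn

end AP

end Pool.Agent.Helper23

end

end

section

section

open scoped InnerProductSpace Topology ENNReal

open ContinuousLinearMap Filter MeasureTheory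

namespace Pool.Agent.Helper23

variable {H : Type*} [NormedAddCommGroup H] [InnerProductSpace ℂ H] [CompleteSpace H]

variable {M N : VonNeumannAlgebra H} {ξ : H} {E : (H →L[ℂ] H) → (H →L[ℂ] H)}

/-- the total defect of the slices -/
lemma sum_sb {u : L2R H →L[ℂ] L2R H} (hu1 : star u * u = 1) (hξ : ‖ξ‖ = 1) {t : ℝ} (ht : 0 < t)
    (ht1 : t ≤ 1 / 2) (g : L2R ℂ) (A A' : Finset ℤ) (B : Finset hw) :
    ∑ j ∈ A', ∑ i ∈ A, ∑ k ∈ B, ‖(sb u t g (i, k, j) - sa u t g (i, k, j)) ξ‖ ^ 2 ≤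
      25 * t ^ 2 * ‖g‖ ^ 2 := by
  have hexp : Real.exp t ^ 2 ≤ 3 := by
    have h1 : Real.exp t ^ 2 = Real.exp (2 * t) := by
      rw [← Real.exp_nat_mul]; norm_num
    rw [h1]
    have h2 : Real.exp (2 * t) ≤ Real.exp 1 := Real.exp_le_exp.2 (by (clear * - ht1; linarith))
    have := Real.exp_one_lt_d9
    (clear * - ht ht1 h2 this; linarith)
  have h1 : ∀ j ∈ A', ∑ i ∈ A, ∑ k ∈ B, ‖(sb u t g (i, k, j) - sa u t g (i, k, j)) ξ‖ ^ 2 ≤
      2 * t ^ 2 * ‖mulOp ℂ (ep t j) g‖ ^ 2 +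
        2 * ‖mulOp ℂ (fun s => ep t j s - ind (win t j) s) g‖ ^ 2 := by
    intro j _
    have hsub : ∀ i, BM (fun s => em t i s - ind (win t i) s) := fun i => by
      have := (em_bm t i).add ((ind_bm (win_meas t i)).constMul (-1))
      simpa [sub_eq_add_neg] using this
    have b1 := bessel_both ht A B hsub
      (fun i s h => by rw [em_of_notMem h, ind_of_notMem h, sub_zero]) ht.le
      (fun i s => em_sub_norm ht i s) (u (ten (mulOp ℂ (ep t j) g) ξ))
    rw [norm_of_isom hu1, norm_ten, hξ, mul_one] at b1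
    have b2 := bessel_both ht A B (fun i => ind_bm (win_meas t i))
      (fun i s h => ind_of_notMem h) zero_le_one (fun i s => ind_norm_le _ s)
      (u (ten (mulOp ℂ (fun s => ep t j s - ind (win t j) s) g) ξ))
    rw [one_pow, one_mul, norm_of_isom hu1, norm_ten, hξ, mul_one] at b2
    have hpt : ∀ i k, ‖(sb u t g (i, k, j) - sa u t g (i, k, j)) ξ‖ ^ 2 ≤
        2 * ‖sl (mulOp ℂ (fun s => em t i s - ind (win t i) s) (hb k))
          (u (ten (mulOp ℂ (ep t j) g) ξ))‖ ^ 2 +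
        2 * ‖sl (mulOp ℂ (ind (win t i)) (hb k))
          (u (ten (mulOp ℂ (fun s => ep t j s - ind (win t j) s) g) ξ))‖ ^ 2 := by
      intro i k
      have e1 : mulOp ℂ (fun s => em t i s - ind (win t i) s) (hb k) =
          mulOp ℂ (em t i) (hb k) - mulOp ℂ (ind (win t i)) (hb k) := by
        ext1
        filter_upwards [mulOp_coe (hsub i) (hb k : L2R ℂ), mulOp_coe (em_bm t i) (hb k : L2R ℂ),
          mulOp_coe (ind_bm (win_meas t i)) (hb k : L2R ℂ),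
          Lp.coeFn_sub (mulOp ℂ (em t i) (hb k)) (mulOp ℂ (ind (win t i)) (hb k))]
          with s e1 e2 e3 e4
        rw [e1, e4, Pi.sub_apply, e2, e3, sub_smul]
      have hsub' : BM (fun s => ep t j s - ind (win t j) s) := by
        have := (ep_bm ht j).add ((ind_bm (win_meas t j)).constMul (-1))
        simpa [sub_eq_add_neg] using this
      have e2 : mulOp ℂ (fun s => ep t j s - ind (win t j) s) g =
          mulOp ℂ (ep t j) g - mulOp ℂ (ind (win t j)) g := by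
        ext1
        filter_upwards [mulOp_coe hsub' g, mulOp_coe (ep_bm ht j) g,
          mulOp_coe (ind_bm (win_meas t j)) g,
          Lp.coeFn_sub (mulOp ℂ (ep t j) g) (mulOp ℂ (ind (win t j)) g)] with s e1 e2 e3 e4
        rw [e1, e4, Pi.sub_apply, e2, e3, sub_smul]
      have e3 : (sb u t g (i, k, j) - sa u t g (i, k, j)) ξ =
          sl (mulOp ℂ (fun s => em t i s - ind (win t i) s) (hb k))
          (u (ten (mulOp ℂ (ep t j) g) ξ)) +
          sl (mulOp ℂ (ind (win t i)) (hb k))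
          (u (ten (mulOp ℂ (fun s => ep t j s - ind (win t j) s) g) ξ)) := by
        rw [e1, e2, sl_sub_left, ten_sub_left, map_sub, map_sub]
        change sl _ (u (ten _ ξ)) - sl _ (u (ten _ ξ)) = _
        abel
      rw [e3]
      have n1 := norm_add_le (sl (mulOp ℂ (fun s => em t i s - ind (win t i) s) (hb k))
          (u (ten (mulOp ℂ (ep t j) g) ξ))) (sl (mulOp ℂ (ind (win t i)) (hb k))
          (u (ten (mulOp ℂ (fun s => ep t j s - ind (win t j) s) g) ξ)))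
      (clear * - ht ht1 n1; nlinarith [norm_nonneg (sl (mulOp ℂ (fun s => em t i s - ind (win t i) s) (hb k))
          (u (ten (mulOp ℂ (ep t j) g) ξ)) + sl (mulOp ℂ (ind (win t i)) (hb k))
          (u (ten (mulOp ℂ (fun s => ep t j s - ind (win t j) s) g) ξ))),
        sq_nonneg (‖sl (mulOp ℂ (fun s => em t i s - ind (win t i) s) (hb k))
          (u (ten (mulOp ℂ (ep t j) g) ξ))‖ - ‖sl (mulOp ℂ (ind (win t i)) (hb k))
          (u (ten (mulOp ℂ (fun s => ep t j s - ind (win t j) s) g) ξ))‖)])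
    calc ∑ i ∈ A, ∑ k ∈ B, ‖(sb u t g (i, k, j) - sa u t g (i, k, j)) ξ‖ ^ 2 ≤
        ∑ i ∈ A, ∑ k ∈ B, (2 * ‖sl (mulOp ℂ (fun s => em t i s - ind (win t i) s) (hb k))
          (u (ten (mulOp ℂ (ep t j) g) ξ))‖ ^ 2 +
        2 * ‖sl (mulOp ℂ (ind (win t i)) (hb k))
          (u (ten (mulOp ℂ (fun s => ep t j s - ind (win t j) s) g) ξ))‖ ^ 2) :=
          Finset.sum_le_sum fun i _ => Finset.sum_le_sum fun k _ => hpt i k
      _ = 2 * ∑ i ∈ A, ∑ k ∈ B, ‖sl (mulOp ℂ (fun s => em t i s - ind (win t i) s) (hb k))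
          (u (ten (mulOp ℂ (ep t j) g) ξ))‖ ^ 2 +
        2 * ∑ i ∈ A, ∑ k ∈ B, ‖sl (mulOp ℂ (ind (win t i)) (hb k))
          (u (ten (mulOp ℂ (fun s => ep t j s - ind (win t j) s) g) ξ))‖ ^ 2 := by
          simp only [Finset.sum_add_distrib, Finset.mul_sum]
      _ ≤ _ := by (clear * - b1 b2; linarith)
  refine (Finset.sum_le_sum h1).trans ?_
  rw [Finset.sum_add_distrib, ← Finset.mul_sum, ← Finset.mul_sum]
  have c1 := bessel_mul ht A' (fun j => ep_bm ht j) (fun j s h => ep_of_notMem h)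
    (Real.exp_pos t).le (fun j s => ep_norm ht j s) g
  have c2 := bessel_mul ht A' (μ := fun j s => ep t j s - ind (win t j) s) (fun j => by
      have := (ep_bm ht j).add ((ind_bm (win_meas t j)).constMul (-1))
      simpa [sub_eq_add_neg] using this)
    (fun j s h => by rw [ep_of_notMem h, ind_of_notMem h, sub_zero])
    (by positivity : 0 ≤ t * Real.exp t) (fun j s => ep_sub_norm ht j s) g
  have hg : 0 ≤ ‖g‖ ^ 2 := by (clear * -; positivity)
  have ht2 : 0 ≤ t ^ 2 := by positivity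
  have c3 : Real.exp t ^ 2 * ‖g‖ ^ 2 ≤ 3 * ‖g‖ ^ 2 := by gcongr
  have c4 : (t * Real.exp t) ^ 2 * ‖g‖ ^ 2 ≤ 3 * t ^ 2 * ‖g‖ ^ 2 := by
    rw [mul_pow]
    have : t ^ 2 * Real.exp t ^ 2 ≤ 3 * t ^ 2 := by (clear * - hexp; nlinarith)
    (clear * - this; gcongr)
  (clear * - c2 c4 ht2 hg c1; nlinarith [mul_nonneg ht2 hg])

end Pool.Agent.Helper23

end

section

open scoped InnerProductSpace Topology

open ContinuousLinearMap Filter

namespace Pool.Agent.Helper23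

universe u

variable {H : Type u} [NormedAddCommGroup H] [InnerProductSpace ℂ H] [CompleteSpace H]

variable {M N : VonNeumannAlgebra H} {ξ : H} {E : (H →L[ℂ] H) → (H →L[ℂ] H)}

lemma avK_conj {x z v : H →L[ℂ] H} {d e : ℝ} (hd : 0 ≤ d) (he : 0 ≤ e)
    (hz : z ∈ avK N ξ x d) (hv : v ∈ N) (h1 : star v * v = 1) (h2 : v * star v = 1)
    (h3 : Defect N ξ 1 e v) : star v * z * v ∈ avK N ξ x (d + e) := by
  have hconv : Convex ℝ {z : H →L[ℂ] H | star v * z * v ∈ avK N ξ x (d + e)} := by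
    intro a ha b hb s t hs ht hst
    have := (convex_convexHull ℝ (avG N ξ x (d + e))) ha hb hs ht hst
    change star v * (s • a + t • b) * v ∈ convexHull ℝ (avG N ξ x (d + e))
    convert this using 1
    rw [mul_add, add_mul, mul_smul_comm, mul_smul_comm, smul_mul_assoc, smul_mul_assoc]
  have hsub : avG N ξ x d ⊆ {z : H →L[ℂ] H | star v * z * v ∈ avK N ξ x (d + e)} := by
    rintro _ ⟨u, hu, g1, g2, g3, rfl⟩
    refine subset_convexHull _ _ ⟨u * v, mul_mem hu hv, ?_, ?_, ?_, ?_⟩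
    · rw [star_mul]
      calc star v * star u * (u * v) = star v * (star u * u) * v := by noncomm_ring
        _ = 1 := by rw [g1, mul_one, h1]
    · rw [star_mul]
      calc u * v * (star v * star u) = u * (v * star v) * star u := by noncomm_ring
        _ = 1 := by rw [h2, mul_one, g2]
    · have h4 := Defect.mul hu hv g3 h3 hd he
      rw [one_mul] at h4
      refine Defect.mono (by simpa using h4) ?_
      have n1 := norm_le_one_of_isom g1
      have n2 := norm_le_one_of_isom h1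
      have : e * ‖u‖ ≤ e * 1 := by (clear * - n1 he; gcongr)
      have : d * ‖v‖ ≤ d * 1 := by (clear * - n2 hd; gcongr)
      linarith
    · rw [star_mul]
      noncomm_ring
  exact convexHull_min hsub hconv hz

end Pool.Agent.Helper23

end

end

section

section

open scoped InnerProductSpace Topology ENNReal

open ContinuousLinearMap Filter MeasureTheory

set_option linter.unusedSectionVars false

set_option linter.unusedVariables false

namespace Pool.Agent.Helper23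

section SS

variable {K : Type*} [NormedAddCommGroup K] [InnerProductSpace ℂ K] [CompleteSpace K]

lemma q0_tr (t : ℝ) (f : L2R ℂ) : q0 (tr ℂ t f) = ENNReal.ofReal (Real.exp t) * q0 f := by
  rw [q0, q0, ← lintegral_const_mul'' _ (by
    refine ENNReal.measurable_ofReal.comp_aemeasurable ?_
    exact Real.measurable_exp.aemeasurable.mul
      ((Lp.aestronglyMeasurable f).norm.aemeasurable.pow_const 2))]
  have h1 : ∫⁻ s, ENNReal.ofReal (Real.exp s * ‖tr ℂ t f s‖ ^ 2) =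
      ∫⁻ s, (fun s => ENNReal.ofReal (Real.exp t) *
        ENNReal.ofReal (Real.exp s * ‖f s‖ ^ 2)) (s - t) := by
    refine lintegral_congr_ae ?_
    filter_upwards [tr_coe t f] with s hs
    rw [hs, ← ENNReal.ofReal_mul (by positivity), ← mul_assoc, ← Real.exp_add]
    congr 3
    ring_nf
  rw [h1]
  exact lintegral_sub_right_eq_self (μ := volume) (fun s => ENNReal.ofReal (Real.exp t) *
    ENNReal.ofReal (Real.exp s * ‖f s‖ ^ 2)) t

end SS

end Pool.Agent.Helper23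

end

end

section

section

open scoped InnerProductSpace Topology ENNReal

open ContinuousLinearMap Filter MeasureTheory

set_option linter.unusedSectionVars false

set_option linter.unusedVariables false

namespace Pool.Agent.Helper23

variable {G : Type*} [NormedAddCommGroup G] [InnerProductSpace ℂ G] [CompleteSpace G]

variable {G' : Type*} [NormedAddCommGroup G'] [InnerProductSpace ℂ G'] [CompleteSpace G']

variable {G'' : Type*} [NormedAddCommGroup G''] [InnerProductSpace ℂ G''] [CompleteSpace G'']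

lemma tr_star (t : ℝ) : star (tr G t) = tr G (-t) := by
  rw [ContinuousLinearMap.star_eq_adjoint]
  symm
  rw [ContinuousLinearMap.eq_adjoint_iff]
  intro x y
  rw [tr_adj, neg_neg]

end Pool.Agent.Helper23

end

section

open scoped InnerProductSpace Topology ENNReal

open ContinuousLinearMap Filter MeasureTheory

set_option linter.unusedSectionVars false

set_option linter.unusedVariables false

namespace Pool.Agent.Helper23

section SS

variable {K : Type*} [NormedAddCommGroup K] [InnerProductSpace ℂ K] [CompleteSpace K]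

lemma SS_tr (t : ℝ) (Θ : L2R ℂ →L[ℂ] K) :
    SS (Θ.comp (tr ℂ t)) = ENNReal.ofReal (Real.exp (-t)) * SS Θ := by
  obtain ⟨w, b, -⟩ := exists_hilbertBasis ℂ K
  rw [SS_eq b, SS_eq b, ← ENNReal.tsum_mul_left]
  refine tsum_congr fun i => ?_
  rw [adjoint_comp, ← ContinuousLinearMap.star_eq_adjoint (tr ℂ t), tr_star]
  change q0 (tr ℂ (-t) ((adjoint Θ) (b i))) = _
  rw [q0_tr]

end SS

end Pool.Agent.Helper23

end

section

open scoped InnerProductSpace Topology ENNReal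

open ContinuousLinearMap Filter MeasureTheory

set_option linter.unusedSectionVars false

set_option linter.unusedVariables false

namespace Pool.Agent.Helper23

variable {H : Type*} [NormedAddCommGroup H] [InnerProductSpace ℂ H] [CompleteSpace H]

variable {M N : VonNeumannAlgebra H} {ξ : H} {E : (H →L[ℂ] H) → (H →L[ℂ] H)}

lemma SX_tr (t : ℝ) (Y : L2R H →L[ℂ] L2R H) :
    SX ξ (Y * tr H t) = ENNReal.ofReal (Real.exp (-t)) * SX ξ Y := by
  have h2 : (Y * tr H t).comp (axi ξ) = (Y.comp (axi ξ)).comp (tr ℂ t) := by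
    ext f : 1
    change Y (tr H t (ten f ξ)) = Y (ten (tr ℂ t f) ξ)
    rw [tr_ten]
  rw [SX, h2, SS_tr]
  rfl

open RBF in
/-- the translations scale the weight -/
lemma tr_scaling {l : ℝ} (hl : 0 < l) :
    ScalingUnitary (amp N) (wK ξ) l (tr H (-Real.log l)) := by
  refine ⟨tr_mem_amp _, ?_, ?_, fun X hX hX0 => ?_⟩
  · rw [tr_star]
    ext F : 1
    exact tr_neg_tr _ F
  · rw [tr_star]
    ext F : 1
    exact tr_tr_neg _ F
  · obtain ⟨Y, hY, rfl⟩ := exists_sqrt_mem (amp N) hX hX0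
    have : star (tr H (-Real.log l)) * (star Y * Y) * tr H (-Real.log l) =
        star (Y * tr H (-Real.log l)) * (Y * tr H (-Real.log l)) := by
      rw [star_mul]; simp only [mul_assoc]
    rw [this, wK_star_mul, wK_star_mul, SX_tr, neg_neg, Real.exp_log hl]

end Pool.Agent.Helper23

end

end
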