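import Pool.Agent.Helper23.FB.L02_a0
import Pool.Agent.Helper23.FB.L02_a10
import Pool.Agent.Helper23.FB.L02_a2
import Pool.Agent.Helper23.FB.L02_a3
import Pool.Agent.Helper23.FB.L02_a4
import Pool.Agent.Helper23.FB.L02_a7
import Pool.Agent.Helper23.FB.L02_a8
import Pool.Agent.Helper23.FB.L02_a9

/-!
Parts of Helper23.FA.L02_02, Helper23.FA.L02_04, Helper23.FA.L03_00, Helper23.FA.L02_05, Helper23.FA.L04_00
-/

attribute [local instance 5000]
  Pool.Agent.Helper23.FB.Inst.rCharZero Pool.Agent.Helper23.FB.Inst.rALM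
  Pool.Agent.Helper23.FB.Inst.rARM Pool.Agent.Helper23.FB.Inst.rALSM
  Pool.Agent.Helper23.FB.Inst.rARSM Pool.Agent.Helper23.FB.Inst.rARRLE
  Pool.Agent.Helper23.FB.Inst.rALRLE Pool.Agent.Helper23.FB.Inst.rARRLT
  Pool.Agent.Helper23.FB.Inst.rALRLT Pool.Agent.Helper23.FB.Inst.rPMRLT
  Pool.Agent.Helper23.FB.Inst.rMPRLT Pool.Agent.Helper23.FB.Inst.rPMM
  Pool.Agent.Helper23.FB.Inst.rMPM Pool.Agent.Helper23.FB.Inst.rPMSM
  Pool.Agent.Helper23.FB.Inst.rMPSM Pool.Agent.Helper23.FB.Inst.rEAOL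
  Pool.Agent.Helper23.FB.Inst.rIOR Pool.Agent.Helper23.FB.Inst.rISOR
  Pool.Agent.Helper23.FB.Inst.rFS Pool.Agent.Helper23.FB.Inst.rcCharZero
  Pool.Agent.Helper23.FB.Inst.rNZD Pool.Agent.Helper23.FB.Inst.rcNZD
  Pool.Agent.Helper23.FB.Inst.bSemiring Pool.Agent.Helper23.FB.Inst.bStar
  Pool.Agent.Helper23.FB.Inst.bAlg Pool.Agent.Helper23.FB.Inst.bSub
  Pool.Agent.Helper23.FB.Inst.bMul Pool.Agent.Helper23.FB.Inst.bAdd
  Pool.Agent.Helper23.FB.Inst.iRing Pool.Agent.Helper23.FB.Inst.iSemiring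
  Pool.Agent.Helper23.FB.Inst.iAlgC Pool.Agent.Helper23.FB.Inst.iSMulC
  Pool.Agent.Helper23.FB.Inst.iModC Pool.Agent.Helper23.FB.Inst.iAlgR
  Pool.Agent.Helper23.FB.Inst.iSMulR Pool.Agent.Helper23.FB.Inst.iModR
  Pool.Agent.Helper23.FB.Inst.iMonoid Pool.Agent.Helper23.FB.Inst.iSemigroup
  Pool.Agent.Helper23.FB.Inst.iMulOneClass Pool.Agent.Helper23.FB.Inst.iMul
  Pool.Agent.Helper23.FB.Inst.iAdd Pool.Agent.Helper23.FB.Inst.iSub
  Pool.Agent.Helper23.FB.Inst.iNeg Pool.Agent.Helper23.FB.Inst.iAddCommMonoid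
  Pool.Agent.Helper23.FB.Inst.iAddCommGroup Pool.Agent.Helper23.FB.Inst.iAddGroup
  Pool.Agent.Helper23.FB.Inst.iAddMonoid Pool.Agent.Helper23.FB.Inst.iSMulZeroC
  Pool.Agent.Helper23.FB.Inst.iMulActC Pool.Agent.Helper23.FB.Inst.iDSMulC
  Pool.Agent.Helper23.FB.Inst.iDSMulR Pool.Agent.Helper23.FB.Inst.iSNAG
  Pool.Agent.Helper23.FB.Inst.iSNACG Pool.Agent.Helper23.FB.Inst.iNorm
  Pool.Agent.Helper23.FB.Inst.iNSC' Pool.Agent.Helper23.FB.Inst.iNSR'
  Pool.Agent.Helper23.FB.Inst.iTop Pool.Agent.Helper23.FB.Inst.iT2 Pool.Agent.Helper23.FB.Inst.iTR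
  Pool.Agent.Helper23.FB.Inst.iSCC Pool.Agent.Helper23.FB.Inst.iIST
  Pool.Agent.Helper23.FB.Inst.iSCCR Pool.Agent.Helper23.FB.Inst.iISTR
  Pool.Agent.Helper23.FB.Inst.iZHC Pool.Agent.Helper23.FB.Inst.iAHC
  Pool.Agent.Helper23.FB.Inst.iAMHC Pool.Agent.Helper23.FB.Inst.iMAHC
  Pool.Agent.Helper23.FB.Inst.lTop Pool.Agent.Helper23.FB.Inst.lUnif
  Pool.Agent.Helper23.FB.Inst.lACM Pool.Agent.Helper23.FB.Inst.lACG
  Pool.Agent.Helper23.FB.Inst.lSNAG Pool.Agent.Helper23.FB.Inst.lSNACG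
  Pool.Agent.Helper23.FB.Inst.lNACG Pool.Agent.Helper23.FB.Inst.lNorm
  Pool.Agent.Helper23.FB.Inst.lIPS Pool.Agent.Helper23.FB.Inst.lMod
  Pool.Agent.Helper23.FB.Inst.lSMul Pool.Agent.Helper23.FB.Inst.lT2
  Pool.Agent.Helper23.FB.Inst.iStar Pool.Agent.Helper23.FB.Inst.iStarMul
  Pool.Agent.Helper23.FB.Inst.iStarAddMonoid Pool.Agent.Helper23.FB.Inst.iStarRing
  Pool.Agent.Helper23.FB.Inst.iNSC Pool.Agent.Helper23.FB.Inst.iSOR
  Pool.Agent.Helper23.FB.Inst.iALM Pool.Agent.Helper23.FB.Inst.iARM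
  Pool.Agent.Helper23.FB.Inst.iCFC Pool.Agent.Helper23.FB.Inst.iNCFC
  Pool.Agent.Helper23.FB.Inst.iStarModR Pool.Agent.Helper23.FB.Inst.iStarModC
  Pool.Agent.Helper23.FB.Inst.eStar Pool.Agent.Helper23.FB.Inst.eAdd
  Pool.Agent.Helper23.FB.Inst.eMul Pool.Agent.Helper23.FB.Inst.eOne
  Pool.Agent.Helper23.FB.Inst.eZero Pool.Agent.Helper23.FB.Inst.eMulAction
  Pool.Agent.Helper23.FB.Inst.eAMHC2 Pool.Agent.Helper23.FB.Inst.eZHC2
  Pool.Agent.Helper23.FB.Inst.lAMHC

namespace Pool.Agent.Helper23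
end Pool.Agent.Helper23
namespace Pool.Agent.Helper23.TTA
end Pool.Agent.Helper23.TTA
namespace Pool.Agent.Helper43.TTF
end Pool.Agent.Helper43.TTF
namespace Pool.Agent.Helper70.U8
end Pool.Agent.Helper70.U8
namespace Pool.Agent.Helper88.CS.ExhAux
end Pool.Agent.Helper88.CS.ExhAux
namespace Pool.Agent.Helper88.CS.FinalAux
end Pool.Agent.Helper88.CS.FinalAux
namespace Pool.Agent.Helper88.CS.InftyAux
end Pool.Agent.Helper88.CS.InftyAux

section

section

open scoped InnerProductSpace Topology BoundedContinuousFunction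

open ContinuousLinearMap Filter MeasureTheory

namespace Pool.Agent.Helper88.CS

open Pool.Agent.Helper23

open Pool.Agent.Helper78.BC (Std rm Fixed)

variable {H : Type*} [NormedAddCommGroup H] [InnerProductSpace ℂ H] [CompleteSpace H]

variable {A : VonNeumannAlgebra H} {J : H →L[ℝ] H}

namespace JUniqAux

open Pool.Agent.Helper43.TTF Pool.Agent.Helper23.TTA Pool.Agent.Helper70.U8

variable {κ : H}

/-- all canonical data of a cyclic and separating unit vector -/
lemma st_all {Ψ : (ℝ →ᵇ ℂ) →⋆ₐ[ℂ] (H →L[ℂ] H)} {R : H →L[ℂ] H} {D : H →L[ℝ] H}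
    (hξ : ‖κ‖ = 1) (hcyc : Dense (orb A κ : Set H)) (hsep : ∀ a ∈ A, a κ = 0 → a = 0)
    (h' : TTData A κ R D) (hF : FC R D Ψ) (hJ : JD D Ψ J) : St A κ J Ψ R D := by
  have hcyc' : Dense (Pool.Agent.Helper23.orb A.commutant κ : Set H) :=
    Pool.Agent.Helper23.dense_of_separating A κ hsep
  have hmod := Pool.Agent.Helper43.TTF.modular_of h' hcyc hsep hF
  have happ : ∀ {B : VonNeumannAlgebra H}, Dense (Pool.Agent.Helper23.orb B κ : Set H) →
      ∀ v : H, ∀ ε : ℝ, 0 < ε → ∃ a ∈ B, ‖a κ - v‖ < ε := by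
    intro B hB v ε hε
    obtain ⟨w, ⟨a, ha, rfl⟩, hw⟩ := Metric.mem_closure_iff.1 (hB v) ε hε
    refine ⟨a, ha, ?_⟩
    rwa [dist_comm, dist_eq_norm] at hw
  have hcj : ∀ a ∈ A, hJ.cj a ∈ A.commutant := fun a ha =>
    Pool.Agent.Helper43.TTF.cj_mem h' hcyc hcyc' hF hJ ha
  have hcj' : ∀ b ∈ A.commutant, hJ.cj b ∈ A := by
    intro b hb
    have h1 := Pool.Agent.Helper43.TTF.cj_mem h'.symm hcyc'
      (by rwa [VonNeumannAlgebra.commutant_commutant]) hF.symm hJ.symm hb
    rw [VonNeumannAlgebra.commutant_commutant] at h1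
    exact h1
  refine ⟨⟨hξ, happ hcyc, happ hcyc', hsep, hJ.J_J, hJ.J_conj, hJ.J_norm, hJ.J_add_inner,
    Pool.Agent.Helper70.U8.J_xi h' hJ hmod, ?_, ?_,
    fun a ha => Pool.Agent.Helper78.BC.StdEx.J_pos' h' hF hJ ha,
    fun G G' hG v => Pool.Agent.Helper78.BC.StdEx.psi_J' h' hF hJ G G' hG v, hF.psi_cont,
    fun G G' hG a ha => Pool.Agent.Helper78.BC.StdEx.psi_half' h' hF hJ G G' hG ha,
    fun G G' hG hG' θ ε hε =>
      Pool.Agent.Helper78.BC.StdEx.core' hmod hF hJ (happ hcyc) G G' hG hG' θ ε hε⟩,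
    hmod, hJ, hcyc⟩
  · intro a ha y hy v
    have h1 : hJ.cj a * y = y * hJ.cj a :=
      (VonNeumannAlgebra.mem_commutant_iff.1 (hcj a ha) y hy).symm
    have h2 := congrArg (fun T : H →L[ℂ] H => T v) h1
    simp only [mul_apply_eq_comp, hJ.cj_apply] at h2
    exact h2
  · intro b hb
    refine ⟨hJ.cj b, hcj' b hb, fun v => ?_⟩
    rw [hJ.cj_apply, hJ.J_J, hJ.J_J]

end JUniqAux

open JUniqAux in
/-- existence of the standard form -/
theorem exists_st' {κ : H} (h1 : ‖κ‖ = 1) (hcyc : Dense (orb A κ : Set H))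
    (hsep : ∀ a ∈ A, a κ = 0 → a = 0) :
    ∃ (J : H →L[ℝ] H) (Ψ : (ℝ →ᵇ ℂ) →⋆ₐ[ℂ] (H →L[ℂ] H)) (R : H →L[ℂ] H) (D : H →L[ℝ] H),
      St A κ J Ψ R D := by
  have h' := Pool.Agent.Helper43.TTF.ttdata A κ hcyc hsep
  obtain ⟨Ψ, hF⟩ := Pool.Agent.Helper43.TTF.exists_FC h'
  obtain ⟨J, hJ⟩ := hF.exists_J h'
  exact ⟨J, Ψ, _, _, st_all h1 hcyc hsep h' hF hJ⟩

open JUniqAux in
/-- If `κ` is cyclic and separating, `J κ = κ` and `κ` is positive then `J` is the modular
conjugation of `κ`. -/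
theorem exists_st (hJ : Conj A J) {κ : H} (h1 : ‖κ‖ = 1) (hcyc : Dense (orb A κ : Set H))
    (hsep : ∀ a ∈ A, a κ = 0 → a = 0) (hκ : J κ = κ)
    (hpos : ∀ a ∈ A, 0 ≤ (⟪J (a κ), (star a) κ⟫_ℂ).re) :
    ∃ (Ψ : (ℝ →ᵇ ℂ) →⋆ₐ[ℂ] (H →L[ℂ] H)) (R : H →L[ℂ] H) (D : H →L[ℝ] H), St A κ J Ψ R D := by
  have h' := Pool.Agent.Helper43.TTF.ttdata A κ hcyc hsep
  obtain ⟨Ψ, hF⟩ := Pool.Agent.Helper43.TTF.exists_FC h'
  obtain ⟨J₀, hJ₀⟩ := hF.exists_J h'
  have hst := st_all h1 hcyc hsep h' hF hJ₀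
  have hJJ := J_eq hst hJ hκ hpos
  subst hJJ
  exact ⟨Ψ, _, _, hst⟩

end Pool.Agent.Helper88.CS

end

end

section

section

open scoped InnerProductSpace Topology BoundedContinuousFunction

open ContinuousLinearMap Filter MeasureTheory

namespace Pool.Agent.Helper88.CS

open Pool.Agent.Helper23

open Pool.Agent.Helper78.BC (Std rm Fixed)

variable {H : Type*} [NormedAddCommGroup H] [InnerProductSpace ℂ H] [CompleteSpace H]

variable {A : VonNeumannAlgebra H} {ξ : H}

/-- Cuntz pair -/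
theorem exists_cuntz (hA : FInf A) (hsep : ∀ a ∈ A, a ξ = 0 → a = 0) (hξ : ξ ≠ 0) :
    ∃ a ∈ A, ∃ b ∈ A, star a * a = 1 ∧ star b * b = 1 ∧ a * star a + b * star b = 1 ∧
      star a * b = 0 ∧ star b * a = 0 := by
  have h10 : (1 : H →L[ℂ] H) ≠ 0 := by
    intro h
    apply hξ
    have := congrArg (fun T : H →L[ℂ] H => T ξ) h
    simpa using this
  have h1P : IsP A (1 : H →L[ℂ] H) := ⟨one_mem A, star_one _, one_mul _⟩
  obtain ⟨v, hv, hv1, -, hv2⟩ := hA.infinite 1 h1P h10
  have heP : IsP A (v * star v) := by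
    refine ⟨mul_mem hv (star_mem hv), by rw [star_mul, star_star], ?_⟩
    calc v * star v * (v * star v) = v * (star v * v) * star v := by simp only [mul_assoc]
      _ = v * star v := by rw [hv1, mul_one]
  have he0 : v * star v ≠ 0 := by
    intro h
    apply h10
    calc (1 : H →L[ℂ] H) = star v * v * (star v * v) := by rw [hv1, mul_one]
      _ = star v * (v * star v) * v := by simp only [mul_assoc]
      _ = 0 := by rw [h]; simp
  have hfP : IsP A (1 - v * star v) := by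
    obtain ⟨a1, a2, a3⟩ := heP
    refine ⟨sub_mem (one_mem A) a1, by rw [star_sub, star_one, a2], ?_⟩
    rw [sub_mul, mul_sub, mul_sub, a3]; simp
  have hf0 : 1 - v * star v ≠ 0 := by
    intro h
    exact hv2 (sub_eq_zero.1 h).symm
  obtain ⟨a, ha, ha1, ha2⟩ := equiv_one hA hsep heP he0
  obtain ⟨b, hb, hb1, hb2⟩ := equiv_one hA hsep hfP hf0
  have hab : star a * b = 0 := by
    calc star a * b = (star a * a) * star a * (b * (star b * b)) := by rw [ha1, hb1]; simp
      _ = star a * (a * star a) * (b * star b) * b := by simp only [mul_assoc]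
      _ = star a * ((v * star v) * (1 - v * star v)) * b := by
          rw [ha2, hb2]; simp only [mul_assoc]
      _ = 0 := by rw [mul_sub, mul_one, heP.2.2]; simp
  refine ⟨a, ha, b, hb, ha1, hb1, by rw [ha2, hb2]; abel, hab, ?_⟩
  have := congrArg star hab
  simpa using this

end Pool.Agent.Helper88.CS

end

section

open scoped InnerProductSpace Topology BoundedContinuousFunction

open ContinuousLinearMap Filter MeasureTheory

namespace Pool.Agent.Helper88.CS

open Pool.Agent.Helper23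

open Pool.Agent.Helper78.BC (Std rm Fixed)

variable {H : Type*} [NormedAddCommGroup H] [InnerProductSpace ℂ H] [CompleteSpace H]

variable {A : VonNeumannAlgebra H} {ξ : H} {J : H →L[ℝ] H}
  {Ψ : (ℝ →ᵇ ℂ) →⋆ₐ[ℂ] (H →L[ℂ] H)} {R : H →L[ℂ] H} {D : H →L[ℝ] H}

namespace FullAux

open ExhAux InftyAux

/-- the first case -/
lemma case1 (h : St A ξ J Ψ R D) (hA : FInf A) {e f : H →L[ℂ] H} (he : IsP A e)
    (hf : IsP A f) (he0 : e ≠ 0) (hJe : J (e ξ) = e ξ) (hJf : J (f ξ) = f ξ)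
    (hm : ‖e ξ‖ = ‖f ξ‖) {δ : ℝ} (hδ : 0 < δ) {v : H →L[ℂ] H} (hvA : v ∈ A)
    (hv : v * star v * v = v) (hfv : f * v = v) (hve : star v * v = e)
    (hΦ : ‖v (rm J (star v * v) ξ) - (v * star v) (rm J v ξ)‖ ≤ δ) :
    ∃ u ∈ A, star u * u = e ∧ u * star u = f ∧
      ‖u (rm J (star u) ξ) - f ξ‖ ≤ 5 * δ + 4 * Real.sqrt (2 * δ) := by
  obtain ⟨heA, hes, hee⟩ := he
  obtain ⟨hfA, hfs, hff⟩ := hf
  have hone := h.norm_one
  have hef : rm J e ξ = e ξ := rm_fix h hes hJe
  have hff' : rm J f ξ = f ξ := rm_fix h hfs hJf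
  set r0 : H →L[ℂ] H := v * star v with hr0
  have hr0A : r0 ∈ A := mul_mem hvA (star_mem hvA)
  have hr0s : star r0 = r0 := by simp [hr0, star_mul]
  have hr02 : r0 * r0 = r0 := by rw [hr0, ← mul_assoc, hv]
  have hfr0 : f * r0 = r0 := by rw [hr0, ← mul_assoc, hfv]
  have hr0f : r0 * f = r0 := by
    have := congrArg star hfr0
    simpa [star_mul, hr0s, hfs] using this
  have hvs : star v * v * star v = star v := star_pi hv
  have hevs : e * star v = star v := by rw [← hve, hvs]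
  have hve' : v * e = v := by rw [← hve, ← mul_assoc, hv]
  rw [hve] at hΦ
  -- `v ξ v*` and `r0 ξ r0`
  have e1 : rm J (star v) (v (rm J e ξ)) = v (rm J (star v) ξ) := by
    rw [rm_comm h hvA (star_mem hvA), rm_mul h, hevs]
  have e2 : rm J (star v) (r0 (rm J v ξ)) = r0 (rm J r0 ξ) := by
    rw [rm_comm h hr0A (star_mem hvA), rm_mul h]
  have hvsp : star v * star (star v) * star v = star v := by rw [star_star]; exact hvs
  have k1 : ‖v (rm J (star v) ξ) - r0 (rm J r0 ξ)‖ ≤ δ := by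
    rw [← e1, ← e2, ← rm_sub]
    exact (norm_rm_le h hvsp _).trans hΦ
  have hvξ : v ξ = v (e ξ) := by rw [← apply_mul, hve']
  have k2 : ‖v (rm J (star v) ξ)‖ = ‖e ξ‖ := by
    rw [← rm_comm h hvA (star_mem hvA), norm_rm_eq h hve]
    · have h1 : ⟪v ξ, v ξ⟫_ℂ = ⟪e ξ, e ξ⟫_ℂ := by
        have h3 : ⟪v ξ, v ξ⟫_ℂ = ⟪ξ, (star v) (v ξ)⟫_ℂ := by
          rw [ContinuousLinearMap.star_eq_adjoint, ContinuousLinearMap.adjoint_inner_right]
        have h4 : ⟪e ξ, e ξ⟫_ℂ = ⟪ξ, (star e) (e ξ)⟫_ℂ := by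
          rw [ContinuousLinearMap.star_eq_adjoint, ContinuousLinearMap.adjoint_inner_right]
        rw [h3, h4, ← apply_mul, hve, hes, ← apply_mul, hee]
      rw [inner_self_eq_norm_sq_to_K, inner_self_eq_norm_sq_to_K] at h1
      have h2 : ‖v ξ‖ ^ 2 = ‖e ξ‖ ^ 2 := by exact_mod_cast h1
      exact (sq_eq_sq₀ (norm_nonneg _) (norm_nonneg _)).1 h2
    · rw [hes, hvξ, rm_comm h hvA heA, rm_comm h heA heA, hef, ← apply_mul e e, hee]
  -- the distance of `f ξ` and `r0 ξ r0`
  have hm1 : ‖f ξ‖ ≤ 1 := by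
    have := norm_proj_le hfs hff ξ
    rwa [hone] at this
  have hP : r0 (rm J r0 ξ) = r0 (rm J r0 (f ξ)) := by
    rw [rm_comm h hfA hr0A, ← apply_mul r0 f, hr0f]
  have k3 : ‖f ξ‖ ^ 2 - ‖r0 (rm J r0 ξ)‖ ^ 2 ≤ 2 * δ := by
    have a1 : ‖f ξ‖ - ‖r0 (rm J r0 ξ)‖ ≤ δ := by
      have := norm_sub_norm_le (v (rm J (star v) ξ)) (r0 (rm J r0 ξ))
      rw [k2, hm] at this
      (clear * - k1 this; linarith)
    have a2 : ‖r0 (rm J r0 ξ)‖ ≤ ‖f ξ‖ := by
      rw [hP]
      exact (norm_proj_le hr0s hr02 _).trans (norm_rm_le h (proj_pi hr0s hr02) _)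
    have a3 := norm_nonneg (r0 (rm J r0 ξ))
    (clear * - a1 hδ hm1 a2 a3; nlinarith)
  have hsq : ∀ x : ℝ, x ^ 2 ≤ 2 * δ → x ≤ Real.sqrt (2 * δ) := fun x hx => Real.le_sqrt_of_sq_le hx
  have k4 : ‖f ξ - r0 (rm J r0 ξ)‖ ≤ 2 * Real.sqrt (2 * δ) := by
    set y : H := rm J r0 (f ξ) with hy
    have hyle : ‖y‖ ≤ ‖f ξ‖ := norm_rm_le h (proj_pi hr0s hr02) _
    have a1 : ‖f ξ - y‖ ≤ Real.sqrt (2 * δ) := by
      apply hsq
      have b1 : ‖f ξ - y‖ ^ 2 = ‖f ξ‖ ^ 2 - ‖y‖ ^ 2 := by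
        have c1 := pyth hr0s hr02 (J (f ξ))
        have c2 : ‖J (f ξ) - r0 (J (f ξ))‖ = ‖f ξ - y‖ := by
          rw [← h.J_norm (J (f ξ) - r0 (J (f ξ))), map_sub, h.J_J, hy]
          unfold rm
          rw [hr0s]
        have c3 : ‖r0 (J (f ξ))‖ = ‖y‖ := by
          rw [hy]; unfold rm
          rw [h.J_norm, hr0s]
        rw [c2, c3, h.J_norm] at c1
        exact c1
      have b2 : ‖r0 (rm J r0 ξ)‖ ≤ ‖y‖ := by
        rw [hP]; exact norm_proj_le hr0s hr02 _
      have b3 := norm_nonneg (r0 (rm J r0 ξ))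
      (clear * - k3 b1 b2 b3; nlinarith)
    have a2 : ‖y - r0 y‖ ≤ Real.sqrt (2 * δ) := by
      apply hsq
      rw [pyth hr0s hr02 y]
      have b2 : ‖r0 y‖ = ‖r0 (rm J r0 ξ)‖ := by rw [hP]
      rw [b2]
      have b3 := norm_nonneg y
      (clear * - k3 hyle b3; nlinarith)
    have a3 : f ξ - r0 (rm J r0 ξ) = (f ξ - y) + (y - r0 y) := by
      rw [hP]; abel
    rw [a3]
    have := norm_add_le (f ξ - y) (y - r0 y)
    linarith
  have k5 : ‖v (rm J (star v) ξ) - f ξ‖ ≤ δ + 2 * Real.sqrt (2 * δ) := by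
    have a1 : v (rm J (star v) ξ) - f ξ =
        (v (rm J (star v) ξ) - r0 (rm J r0 ξ)) - (f ξ - r0 (rm J r0 ξ)) := by abel
    rw [a1]
    have := norm_sub_le (v (rm J (star v) ξ) - r0 (rm J r0 ξ)) (f ξ - r0 (rm J r0 ξ))
    linarith
  have hs0 := Real.sqrt_nonneg (2 * δ)
  by_cases hr0f' : r0 = f
  · refine ⟨v, hvA, hve, hr0f', ?_⟩
    (clear * - hδ k5 hs0; linarith)
  -- a small piece
  have hr00 : r0 ≠ 0 := by
    intro h0
    apply he0
    have : v = 0 := by rw [← hv, h0, zero_mul]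
    rw [← hve, this]; simp
  obtain ⟨r, ⟨hrA, hrs, hrr⟩, hrn, hr0r, hrδ⟩ := exists_small hA ξ ⟨hr0A, hr0s, hr02⟩ hr00 hδ
  have hrr0 : r * r0 = r := by
    have := congrArg star hr0r
    simpa [star_mul, hr0s, hrs] using this
  have hfr : f * r = r := by rw [← hr0r, ← mul_assoc, hfr0]
  have hrf : r * f = r := by
    have := congrArg star hfr
    simpa [star_mul, hfs, hrs] using this
  set t : H →L[ℂ] H := (f - r0) + r with ht
  have htA : t ∈ A := add_mem (sub_mem hfA hr0A) hrA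
  have hts : star t = t := by rw [ht, star_add, star_sub, hfs, hr0s, hrs]
  have htt : t * t = t := by
    rw [ht]
    have : (f - r0 + r) * (f - r0 + r) = f * f - f * r0 + f * r - r0 * f + r0 * r0 - r0 * r
        + r * f - r * r0 + r * r := by noncomm_ring
    rw [this, hff, hfr0, hfr, hr0f, hr02, hr0r, hrf, hrr0, hrr]; abel
  have hrt : r * t = r := by
    rw [ht, mul_add, mul_sub, hrf, hrr0, hrr]; abel
  have ht0 : t ≠ 0 := by
    intro h0
    apply hrn
    rw [← hrt, h0, mul_zero]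
  obtain ⟨z, hzA, hz1, hz2⟩ := equiv_pair hA h.sep ⟨hrA, hrs, hrr⟩ hrn ⟨htA, hts, htt⟩ ht0
  have hzr : z * r = z := mul_eq hrs hrr hz1
  have hzpi : z * star z * z = z := by rw [mul_assoc, hz1, hzr]
  have htz : t * z = z := by rw [← hz2, hzpi]
  have hrzs : r * star z = star z := by
    have := congrArg star hzr
    simpa [star_mul, hrs] using this
  have hzst : star z * t = star z := by
    have := congrArg star htz
    simpa [star_mul, hts] using this
  have hqt : (r0 - r) * t = 0 := by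
    rw [ht]
    have : (r0 - r) * (f - r0 + r) = r0 * f - r0 * r0 + r0 * r - r * f + r * r0 - r * r := by
      noncomm_ring
    rw [this, hr0f, hr02, hr0r, hrf, hrr0, hrr]; abel
  have htq : t * (r0 - r) = 0 := by
    rw [ht]
    have : (f - r0 + r) * (r0 - r) = f * r0 - f * r - r0 * r0 + r0 * r + r * r0 - r * r := by
      noncomm_ring
    rw [this, hfr0, hfr, hr02, hr0r, hrr0, hrr]; abel
  have hqr : r * (r0 - r) = 0 := by rw [mul_sub, hrr0, hrr, sub_self]
  have hrq : (r0 - r) * r = 0 := by rw [sub_mul, hr0r, hrr, sub_self]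
  have hqz : (r0 - r) * z = 0 := by rw [← htz, ← mul_assoc, hqt, zero_mul]
  have hzq : z * (r0 - r) = 0 := by rw [← hzr, mul_assoc, hqr, mul_zero]
  have hzsq : star z * (r0 - r) = 0 := by rw [← hzst, mul_assoc, htq, mul_zero]
  have hqzs : (r0 - r) * star z = 0 := by rw [← hrzs, ← mul_assoc, hrq, zero_mul]
  have hqq : (r0 - r) * (r0 - r) = r0 - r := by
    rw [mul_sub, sub_mul, hrq, hr02, hrr0, sub_zero]
  have hqs : star (r0 - r) = r0 - r := by rw [star_sub, hr0s, hrs]
  set g : H →L[ℂ] H := (r0 - r) + z with hg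
  have hgA : g ∈ A := add_mem (sub_mem hr0A hrA) hzA
  have hgs : star g = (r0 - r) + star z := by rw [hg, star_add, hqs]
  have hgg : star g * g = r0 := by
    rw [hgs, hg, add_mul, mul_add, mul_add, hqq, hqz, hzsq, hz1]; abel
  have hgg' : g * star g = f := by
    rw [hgs, hg, add_mul, mul_add, mul_add, hqq, hqzs, hzq, hz2, ht]; abel
  have hgpi : g * star g * g = g := by
    have : g * r0 = g := mul_eq hr0s hr02 hgg
    rw [mul_assoc, hgg, this]
  have hgr0 : g * r0 = g := mul_eq hr0s hr02 hgg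
  have hgf : g * f = g := by rw [← hgr0, mul_assoc, hr0f]
  have hr0gs : r0 * star g = star g := by
    have := congrArg star hgr0
    simpa [star_mul, hr0s] using this
  have hfgs : f * star g = star g := by
    have := congrArg star hgf
    simpa [star_mul, hfs] using this
  refine ⟨g * v, mul_mem hgA hvA, ?_, ?_, ?_⟩
  · rw [star_mul]
    calc star v * star g * (g * v) = star v * (star g * g) * v := by simp only [mul_assoc]
      _ = star v * (v * star v) * v := by rw [hgg]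
      _ = star v * (v * star v * v) := by simp only [mul_assoc]
      _ = e := by rw [hv, hve]
  · rw [star_mul]
    calc g * v * (star v * star g) = g * (v * star v) * star g := by simp only [mul_assoc]
      _ = g * star g := by rw [← hr0, hgr0]
      _ = f := hgg'
  · -- the estimate
    have hgspi : star g * star (star g) * star g = star g := by
      rw [star_star]; exact star_pi hgpi
    have m1 : (g * v) (rm J (star (g * v)) ξ) = rm J (star g) (g (v (rm J (star v) ξ))) := by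
      rw [star_mul, ← rm_mul h, rm_comm h hgA (star_mem hgA), rm_comm h hvA (star_mem hgA)]
      rfl
    have m2 : rm J (star g) (g (f ξ)) = g (rm J (star g) ξ) := by
      rw [← apply_mul, hgf, rm_comm h hgA (star_mem hgA)]
    have m3 : ‖g (rm J (star g) ξ) - f ξ‖ ≤ 4 * δ + 2 * Real.sqrt (2 * δ) := by
      have n0 : ‖(z - r) ξ‖ ≤ 2 * δ := by
        have : (z - r) ξ = z (r ξ) - r ξ := by
          rw [← apply_mul, hzr]; rfl
        rw [this]
        have p1 := norm_sub_le (z (r ξ)) (r ξ)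
        have p2 := norm_pi_le hzpi (r ξ)
        linarith
      have hzrA : z - r ∈ A := sub_mem hzA hrA
      have n1 : g (rm J (star g) ξ) = (z - r) (rm J (star g) ξ) + r0 (rm J (star g) ξ) := by
        have h7 : g = (z - r) + r0 := by rw [hg]; abel
        calc g (rm J (star g) ξ) = ((z - r) + r0) (rm J (star g) ξ) := by rw [← h7]
          _ = _ := rfl
      have n2 : r0 (rm J (star g) ξ) = r0 (rm J (star (z - r)) ξ) + r0 (rm J r0 ξ) := by
        have : star g = star (z - r) + r0 := by rw [hgs, star_sub, hrs]; abel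
        rw [this, rm_add_left, map_add]
      have n3 : ‖(z - r) (rm J (star g) ξ)‖ ≤ 2 * δ := by
        rw [← rm_comm h hzrA (star_mem hgA)]
        exact (norm_rm_le h hgspi _).trans n0
      have n4 : ‖r0 (rm J (star (z - r)) ξ)‖ ≤ 2 * δ := by
        rw [← h.J_norm, J_mul h hr0A (star_mem hzrA), star_star, hr0s,
          ← rm_comm h hzrA hr0A]
        exact (norm_rm_le h (proj_pi hr0s hr02) _).trans n0
      have n5 : g (rm J (star g) ξ) - f ξ = (z - r) (rm J (star g) ξ) +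
          r0 (rm J (star (z - r)) ξ) - (f ξ - r0 (rm J r0 ξ)) := by
        rw [n1, n2]; abel
      rw [n5]
      have q1 := norm_sub_le ((z - r) (rm J (star g) ξ) + r0 (rm J (star (z - r)) ξ))
        (f ξ - r0 (rm J r0 ξ))
      have q2 := norm_add_le ((z - r) (rm J (star g) ξ)) (r0 (rm J (star (z - r)) ξ))
      linarith
    have m4 : (g * v) (rm J (star (g * v)) ξ) - f ξ =
        rm J (star g) (g (v (rm J (star v) ξ) - f ξ)) + (g (rm J (star g) ξ) - f ξ) := by
      rw [m1, map_sub, rm_sub, m2]; abel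
    have m5 : ‖rm J (star g) (g (v (rm J (star v) ξ) - f ξ))‖ ≤ δ + 2 * Real.sqrt (2 * δ) :=
      ((norm_rm_le h hgspi _).trans (norm_pi_le hgpi _)).trans k5
    rw [m4]
    have := norm_add_le (rm J (star g) (g (v (rm J (star v) ξ) - f ξ)))
      (g (rm J (star g) ξ) - f ξ)
    (clear * - m3 m5 this; linarith)

end FullAux

end Pool.Agent.Helper88.CS

end

end

section

section

open scoped InnerProductSpace Topology BoundedContinuousFunction

open ContinuousLinearMap Filter MeasureTheory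

namespace Pool.Agent.Helper88.CS

open Pool.Agent.Helper23

open Pool.Agent.Helper78.BC (Std rm Fixed)

variable {H : Type*} [NormedAddCommGroup H] [InnerProductSpace ℂ H] [CompleteSpace H]

variable {A : VonNeumannAlgebra H} {ξ : H} {J : H →L[ℝ] H}
  {Ψ : (ℝ →ᵇ ℂ) →⋆ₐ[ℂ] (H →L[ℂ] H)} {R : H →L[ℂ] H} {D : H →L[ℝ] H}

open CornerAux in
theorem local_step (h : St A ξ J Ψ R D) (hA : III1V A) {e f s r : H →L[ℂ] H} (he : IsP A e)
    (hf : IsP A f) (hef : e + f = 1) (hJe : J (e ξ) = e ξ) (hs : IsP A s) (hr : IsP A r)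
    (hs0 : s ≠ 0) (hr0 : r ≠ 0) (hes : e * s = s) (hfr : f * r = r) {δ : ℝ} (hδ : 0 < δ) :
    ∃ w ∈ A, w * star w * w = w ∧ r * w = w ∧ w * s = w ∧ w ≠ 0 ∧
      ‖w (rm J s ξ) - r (rm J w ξ)‖ ^ 2 ≤ δ * ‖w ξ‖ ^ 2 := by
  obtain ⟨heA, hes', hee⟩ := he
  obtain ⟨hfA, hfs', hff⟩ := hf
  obtain ⟨hsA, hss', hss⟩ := hs
  obtain ⟨hrA, hrs', hrr⟩ := hr
  have hfe : f = 1 - e := by rw [← hef]; abel
  have hJf : J (f ξ) = f ξ := by
    rw [hfe, sub_apply, one_apply_eq_self, map_sub, hJe, h.J_xi]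
  have hef0 : e * f = 0 := by rw [hfe, mul_sub, mul_one, hee, sub_self]
  have hfe0 : f * e = 0 := by rw [hfe, sub_mul, one_mul, hee, sub_self]
  have hse : s * e = s := by
    have := congrArg star hes
    rwa [star_mul, hss', hes'] at this
  have hrf : r * f = r := by
    have := congrArg star hfr
    rwa [star_mul, hrs', hfs'] at this
  have hsf : s * f = 0 := by rw [← hse, mul_assoc, hef0, mul_zero]
  have hre : r * e = 0 := by rw [← hrf, mul_assoc, hfe0, mul_zero]
  have hsr : s * r = 0 := by rw [← hfr, ← mul_assoc, hsf, zero_mul]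
  have hrs : r * s = 0 := by rw [← hes, ← mul_assoc, hre, zero_mul]
  -- the isometry
  have hg : IsP A (s + r) := by
    refine ⟨add_mem hsA hrA, by rw [star_add, hss', hrs'], ?_⟩
    rw [add_mul, mul_add, mul_add, hss, hrr, hsr, hrs, add_zero, zero_add]
  have hg0 : s + r ≠ 0 := by
    intro h0
    have : (s + r) * s = 0 := by rw [h0, zero_mul]
    rw [add_mul, hss, hrs, add_zero] at this
    exact hs0 this
  obtain ⟨u, huA, hu1, hu2⟩ := equiv_one hA.toFInf h.sep hg hg0
  have huA' : star u ∈ A := star_mem huA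
  have hgs : (s + r) * s = s := by rw [add_mul, hss, hrs, add_zero]
  have hsg : s * (s + r) = s := by rw [mul_add, hss, hsr, add_zero]
  have hgr : (s + r) * r = r := by rw [add_mul, hrr, hsr, zero_add]
  have hrg : r * (s + r) = r := by rw [mul_add, hrr, hrs, zero_add]
  have hug : star u * (s + r) = star u := by rw [← hu2, ← mul_assoc, hu1, one_mul]
  have hgu : (s + r) * u = u := by rw [← hu2, mul_assoc, hu1, mul_one]
  -- vanishing of off-diagonal parts
  have hz1 : s (J (r ξ)) = 0 := by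
    have h1 := right_under h hfA hrA hJf hrf
    rw [← h1]
    show (s * f) (J (r ξ)) = 0
    rw [hsf]; rfl
  have hz2 : r (J (s ξ)) = 0 := by
    have h1 := right_under h heA hsA hJe hse
    rw [← h1]
    show (r * e) (J (s ξ)) = 0
    rw [hre]; rfl
  have hgJs : (s + r) (J (s ξ)) = s (J (s ξ)) := by rw [add_apply, hz2, add_zero]
  have hJss : J (s (J (s ξ))) = s (J (s ξ)) := by rw [h.J_comm s hsA s hsA, h.J_xi]
  -- the vector
  set k0 : H := kap J ξ u with hk0
  have hk0' : k0 = (star u) (J ((star u) ξ)) := rfl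
  have hJk0 : J k0 = k0 := kap_J h huA
  have hne : k0 ≠ 0 := by
    intro h0
    have h1 := kap_sep h huA hu1 1 (one_mem A) (by rw [← hk0, h0, map_zero])
    apply hs0
    rw [← mul_one s, h1, mul_zero]
  have hnpos : 0 < ‖k0‖ := norm_pos_iff.2 hne
  set c : ℝ := ‖k0‖⁻¹ with hc
  have hcpos : 0 < c := inv_pos.2 hnpos
  have hc0 : (c : ℂ) ≠ 0 := Complex.ofReal_ne_zero.2 hcpos.ne'
  set k : H := (c : ℂ) • k0 with hk
  have hk1 : ‖k‖ = 1 := by
    rw [hk, norm_smul, Complex.norm_real, Real.norm_eq_abs, abs_of_pos hcpos, hc,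
      inv_mul_cancel₀ hnpos.ne']
  have hJc : ∀ v : H, J ((c : ℂ) • v) = (c : ℂ) • J v := by
    intro v
    rw [h.J_conj, Complex.conj_ofReal]
  have hJk : J k = k := by rw [hk, hJc, hJk0]
  have hksep : ∀ a ∈ A, a k = 0 → a = 0 := by
    intro a ha h0
    apply kap_sep h huA hu1 a ha
    rw [hk, map_smul] at h0
    exact (smul_eq_zero.1 h0).resolve_left hc0
  have hkd : Dense (orb A k : Set H) := by
    have h1 := kap_dense h huA hu1
    rw [← hk0] at h1
    refine h1.mono ?_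
    rintro _ ⟨a, ha, rfl⟩
    refine ⟨((c : ℂ)⁻¹) • a, smul_mem' _ ha, ?_⟩
    rw [hk, smul_apply, map_smul, smul_smul, inv_mul_cancel₀ hc0, one_smul]
  have hkpos : ∀ a ∈ A, 0 ≤ (⟪J (a k), (star a) k⟫_ℂ).re := by
    intro a ha
    have h1 := kap_pos h huA a ha
    rw [← hk0] at h1
    have e1 : a k = (c : ℂ) • a k0 := by rw [hk, map_smul]
    have e2 : (star a) k = (c : ℂ) • (star a) k0 := by rw [hk, map_smul]
    rw [e1, e2, hJc, inner_smul_left, inner_smul_right, Complex.conj_ofReal,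
      ← mul_assoc, ← Complex.ofReal_mul, Complex.re_ofReal_mul]
    exact mul_nonneg (by (clear * - hne; positivity)) h1
  obtain ⟨Ψ', R', D', h'⟩ := exists_st h.conj hk1 hkd hksep hJk hkpos
  -- the corner projections
  set e' : H →L[ℂ] H := star u * s * u with he'
  set f' : H →L[ℂ] H := star u * r * u with hf'
  have hPe' : IsP A e' := by
    refine ⟨mul_mem (mul_mem huA' hsA) huA, ?_, ?_⟩
    · rw [he', star_mul, star_mul, star_star, hss', mul_assoc]
    · have : star u * s * u * (star u * s * u) = star u * (s * (u * star u) * s) * u := by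
        simp only [mul_assoc]
      rw [he', this, hu2, hsg, hss]
  have hPf' : IsP A f' := by
    refine ⟨mul_mem (mul_mem huA' hrA) huA, ?_, ?_⟩
    · rw [hf', star_mul, star_mul, star_star, hrs', mul_assoc]
    · have : star u * r * u * (star u * r * u) = star u * (r * (u * star u) * r) * u := by
        simp only [mul_assoc]
      rw [hf', this, hu2, hrg, hrr]
  have hef' : e' + f' = 1 := by
    rw [he', hf', ← add_mul, ← mul_add, hug, hu1]
  have hback : ∀ x : H →L[ℂ] H, u * (star u * x * u) * star u = (s + r) * x * (s + r) := by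
    intro x
    rw [← hu2]
    simp only [mul_assoc]
  have he'0 : e' ≠ 0 := by
    intro h0
    have h1 := hback s
    rw [← he', h0, mul_zero, zero_mul, hgs, hsg] at h1
    exact hs0 h1.symm
  have hf'0 : f' ≠ 0 := by
    intro h0
    have h1 := hback r
    rw [← hf', h0, mul_zero, zero_mul, hgr, hrg] at h1
    exact hr0 h1.symm
  -- `e'` commutes with `k0`
  have hJe'0 : J (e' k0) = e' k0 := by
    have h1 : e' k0 = (star u) (s (J ((star u) ξ))) := by
      rw [hk0', he']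
      show (star u * s * u * star u) (J ((star u) ξ)) = (star u * s) (J ((star u) ξ))
      have : star u * s * u * star u = star u * (s * (u * star u)) := by simp only [mul_assoc]
      rw [this, hu2, hsg]
    have h2 : J ((star u * s) (J ((star u) ξ))) = (star u) (J ((star u * s) ξ)) := by
      rw [h.J_comm _ (mul_mem huA' hsA) _ huA', h.J_xi]
    -- both equal `u* J u* s J s ξ`
    have h3 : (star u) (J ((star u * s) ξ)) = (star u) (J ((star u) (s (J (s ξ))))) := by
      have e1 : (star u) (J ((star u * s) ξ)) = (star u) ((s + r) (J ((star u * s) ξ))) := by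
        show _ = (star u * (s + r)) (J ((star u * s) ξ))
        rw [hug]
      have e2 : J ((star u * s) ξ) = J ((star u) (J (J (s ξ)))) := by
        rw [h.J_J]; rfl
      have e3 : (s + r) (J ((star u) (J (J (s ξ))))) = J ((star u) (J ((s + r) (J (s ξ))))) := by
        rw [h.J_comm _ huA' _ hg.1]
      rw [e1, e2, e3, hgJs, hJss]
    have h4 : (star u) (s (J ((star u) ξ))) = (star u) (J ((star u) (s (J (s ξ))))) := by
      have e1 : s (J ((star u) ξ)) = J ((star u) (J (s ξ))) := by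
        rw [h.J_comm _ huA' _ hsA, h.J_xi]
      have e2 : (star u) (J (s ξ)) = (star u) (s (J (s ξ))) := by
        have : (star u) (J (s ξ)) = (star u) ((s + r) (J (s ξ))) := by
          show _ = (star u * (s + r)) (J (s ξ))
          rw [hug]
        rw [this, hgJs]
      rw [e1, e2]
    rw [h1]
    have h5 : (star u) (s (J ((star u) ξ))) = (star u * s) (J ((star u) ξ)) := rfl
    rw [h5, h2, h3, ← h4, h5]
  have hJf'0 : J (f' k0) = f' k0 := by
    have : f' = 1 - e' := by rw [← hef']; abel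
    rw [this, sub_apply, one_apply_eq_self, map_sub, hJe'0, hJk0]
  have hJe' : J (e' k) = e' k := by rw [hk, map_smul, hJc, hJe'0]
  have hJf' : J (f' k) = f' k := by rw [hk, map_smul, hJc, hJf'0]
  -- small parameter
  set t : ℝ := min (1 / 100) (δ / 100) with ht
  have ht0 : 0 < t := lt_min (by norm_num) (by positivity)
  set η : ℝ := 2 * Real.log (1 + t) with hη
  have hη0 : 0 < η := by
    have := Real.log_pos (show (1 : ℝ) < 1 + t by (clear * - ht0; linarith))
    rw [hη]; linarith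
  have hexp : Real.exp (η / 2) - 1 = t := by
    rw [hη, mul_div_cancel_left₀ _ (two_ne_zero), Real.exp_log (by (clear * - ht0; linarith))]
    ring
  obtain ⟨x, hxA, hfx, hxe, hx0, hsupp⟩ :=
    exists_near_zero h' hA hPe' hPf' he'0 hf'0 hJe' hJf' hη0
  have hcomm := supp_comm h' hxA hη0 hsupp
  rw [hexp] at hcomm
  obtain ⟨w', hw'A, hw'1, hw'2, hw'3, hw'0, hw'4⟩ := cut_offdiag h.conj hJk hksep hPe' hPf' hef'
    hJe' hxA hfx hxe hx0 ht0 (min_le_left _ _) hcomm
  -- unscaled estimate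
  have hest : ‖w' k0 - rm J w' k0‖ ^ 2 ≤ δ * ‖w' k0‖ ^ 2 := by
    have h1 : w' k - rm J w' k = (c : ℂ) • (w' k0 - rm J w' k0) := by
      simp only [rm, hk, map_smul, hJc, smul_sub]
    have h2 : w' k = (c : ℂ) • w' k0 := by rw [hk, map_smul]
    rw [h1, h2, norm_smul, norm_smul, mul_pow, mul_pow] at hw'4
    have h3 : 0 < ‖(c : ℂ)‖ ^ 2 := by
      have := norm_pos_iff.2 hc0
      positivity
    have h4 : 100 * t ≤ δ := by
      have := min_le_right (1 / 100 : ℝ) (δ / 100)
      rw [ht]; linarith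
    have h5 : ‖(c : ℂ)‖ ^ 2 * ‖w' k0 - rm J w' k0‖ ^ 2 ≤ ‖(c : ℂ)‖ ^ 2 * (100 * t * ‖w' k0‖ ^ 2) := by
      calc _ ≤ 100 * t * (‖(c : ℂ)‖ ^ 2 * ‖w' k0‖ ^ 2) := hw'4
        _ = _ := by ring
    have h6 := le_of_mul_le_mul_left h5 h3
    exact h6.trans (mul_le_mul_of_nonneg_right h4 (by (clear * -; positivity)))
  -- the partial isometry
  set w : H →L[ℂ] H := u * w' * star u with hw
  have hwA : w ∈ A := mul_mem (mul_mem huA hw'A) huA'
  have hws : star w = u * star w' * star u := by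
    rw [hw, star_mul, star_mul, star_star, mul_assoc]
  have hrw : r * w = w := by
    have h1 : u * w' = r * (u * w') := by
      calc u * w' = u * (f' * w') := by rw [hw'2]
        _ = (u * star u) * r * (u * w') := by rw [hf']; simp only [mul_assoc]
        _ = r * (u * w') := by rw [hu2, hgr]
    rw [hw, ← mul_assoc, ← h1]
  have hwss : w * s = w := by
    have h1 : w' * star u = w' * star u * s := by
      calc w' * star u = w' * e' * star u := by rw [hw'3]
        _ = w' * star u * (s * (u * star u)) := by rw [he']; simp only [mul_assoc]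
        _ = w' * star u * s := by rw [hu2, hsg]
    rw [hw, mul_assoc, mul_assoc, ← mul_assoc w', ← h1, ← mul_assoc]
  have hw0 : w ≠ 0 := by
    intro h0
    apply hw'0
    have : star u * w * u = w' := by
      calc star u * w * u = (star u * u) * w' * (star u * u) := by
            rw [hw]; simp only [mul_assoc]
        _ = w' := by rw [hu1, one_mul, mul_one]
    rw [← this, h0, mul_zero, zero_mul]
  have hw3 : w * star w * w = w := by
    calc w * star w * w = u * (w' * (star u * u) * star w' * (star u * u) * w') * star u := by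
          rw [hws, hw]; simp only [mul_assoc]
      _ = w := by rw [hu1, mul_one, mul_one, hw'1]
  refine ⟨w, hwA, hw3, hrw, hwss, hw0, ?_⟩
  -- transport of the estimate
  have hrm1 : rm J s ξ = J (s ξ) := by rw [rm, hss', h.J_xi]
  have hrm2 : rm J w ξ = J ((star w) ξ) := by rw [rm, h.J_xi]
  have hwr : w (J (r ξ)) = 0 := by
    have : w (J (r ξ)) = (w * s) (J (r ξ)) := by rw [hwss]
    rw [this]
    show w (s (J (r ξ))) = 0
    rw [hz1, map_zero]
  have hT1 : u (J (u (J (w' k0)))) = w (J (s ξ)) := by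
    have e1 : J (u (J (w' k0))) = w' (J (u (J k0))) := h.J_comm u huA w' hw'A k0
    have e2 : J (u (J k0)) = (star u) (J ((s + r) ξ)) := by
      rw [hJk0, hk0']
      show J ((u * star u) (J ((star u) ξ))) = _
      rw [hu2, h.J_comm _ hg.1 _ huA', h.J_xi]
    rw [e1, e2]
    show w (J ((s + r) ξ)) = _
    rw [add_apply, map_add, map_add, hwr, add_zero]
  have hsw : s (J ((star w) ξ)) = 0 := by
    have h1 : star w * f = star w := by
      have e1 : star w * r = star w := by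
        have := congrArg star hrw
        rwa [star_mul, hrs'] at this
      calc star w * f = star w * r * f := by rw [e1]
        _ = star w := by rw [mul_assoc, hrf, e1]
    have h2 := right_under h hfA (star_mem hwA) hJf h1
    rw [← h2]
    show (s * f) (J ((star w) ξ)) = 0
    rw [hsf]; rfl
  have hT2 : u (J (u (J (rm J w' k0)))) = r (J ((star w) ξ)) := by
    have e1 : rm J w' k0 = (star u) (J ((star w' * star u) ξ)) := by
      rw [rm, hJk0, hk0']
      show J ((star w' * star u) (J ((star u) ξ))) = _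
      rw [h.J_comm _ (mul_mem (star_mem hw'A) huA') _ huA', h.J_xi]
    have e2 : J (u (J (rm J w' k0))) = (star u) (J ((star w) ξ)) := by
      rw [e1, h.J_comm u huA _ huA', h.J_J, hws]
      show (star u) (J ((u * (star w' * star u)) ξ)) = _
      rw [mul_assoc]
    rw [e2]
    show (u * star u) (J ((star w) ξ)) = _
    rw [hu2, add_apply, hsw, zero_add]
  have hiso : ∀ v : H, ‖u (J (u (J v)))‖ = ‖v‖ := by
    intro v
    rw [norm_isom hu1, h.J_norm, norm_isom hu1, h.J_norm]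
  have hfin1 : ‖w (J (s ξ)) - r (J ((star w) ξ))‖ = ‖w' k0 - rm J w' k0‖ := by
    rw [← hT1, ← hT2, ← map_sub, ← map_sub, ← map_sub, ← map_sub, hiso]
  have hfin2 : ‖w' k0‖ ≤ ‖w ξ‖ := by
    rw [← hiso (w' k0), hT1]
    have e1 : w (J (s ξ)) = J (s (J (w ξ))) := by rw [h.J_comm s hsA w hwA, h.J_xi]
    rw [e1, h.J_norm]
    exact (norm_proj_le hss' hss _).trans (le_of_eq (h.J_norm _))
  rw [hrm1, hrm2, hfin1]
  refine hest.trans ?_
  have := mul_self_le_mul_self (norm_nonneg (w' k0)) hfin2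
  (clear * - hδ this; nlinarith)

end Pool.Agent.Helper88.CS

end

section

open scoped InnerProductSpace Topology BoundedContinuousFunction

open ContinuousLinearMap Filter MeasureTheory

namespace Pool.Agent.Helper88.CS

open Pool.Agent.Helper23

open Pool.Agent.Helper78.BC (Std rm Fixed)

variable {H : Type*} [NormedAddCommGroup H] [InnerProductSpace ℂ H] [CompleteSpace H]

variable {A : VonNeumannAlgebra H} {ξ : H} {J : H →L[ℝ] H}
  {Ψ : (ℝ →ᵇ ℂ) →⋆ₐ[ℂ] (H →L[ℂ] H)} {R : H →L[ℂ] H} {D : H →L[ℝ] H}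

open ExhAux

theorem exists_maximal (h : St A ξ J Ψ R D) (hA : III1V A) {e f : H →L[ℂ] H} (he : IsP A e)
    (hf : IsP A f) (hef : e + f = 1) (hJe : J (e ξ) = e ξ) {δ : ℝ} (hδ : 0 < δ) :
    ∃ v ∈ A, v * star v * v = v ∧ f * v = v ∧ v * e = v ∧ Phi J ξ e f v ≤ δ ∧
      (star v * v = e ∨ v * star v = f) := by
  have hone := h.norm_one
  have hJxi : J ξ = ξ := h.J_xi
  -- the zero element
  have hPhi0 : Phi J ξ e f 0 = 0 := by
    simp [Phi, rm]
  let a0 : Adm A ξ J e f δ := ⟨0, zero_mem _, by simp, by simp, by simp, by simp [hPhi0]⟩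
  obtain ⟨b, -, hb⟩ := exists_max (α := Adm A ξ J e f δ) (fun v => ‖v.1 ξ‖ ^ 2) (C := 1)
    (fun v => by
      have := norm_pi_le v.2.2.1 ξ
      rw [hone] at this
      (clear * - this; nlinarith [norm_nonneg (v.1 ξ)]))
    (fun v w hvw => by
      have := Le.norm_le v.2.2.1 (show Le v.1 w.1 from hvw) ξ
      have h0 := norm_nonneg (v.1 ξ)
      show ‖v.1 ξ‖ ^ 2 ≤ ‖w.1 ξ‖ ^ 2
      (clear * - this h0; nlinarith))
    (fun s hs => by
      obtain ⟨V, hVA, hV, hle, t1, t2, t3, t4⟩ := exists_sup (A := A) (v := fun n => (s n).1)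
        (fun n => (s n).2.1) (fun n => (s n).2.2.1) (fun m n hmn => hs hmn)
      have hfV : f * V = V := by
        ext x
        refine tendsto_nhds_unique ((f.continuous.tendsto _).comp (t1 x)) ?_
        refine (t1 x).congr fun n => ?_
        have : f ((s n).1 x) = (f * (s n).1) x := rfl
        simp only [Function.comp]
        rw [this, (s n).2.2.2.1]
      have hVe : V * e = V := by
        ext x
        refine tendsto_nhds_unique (t1 (e x)) ?_
        refine (t1 x).congr fun n => ?_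
        have : (s n).1 (e x) = ((s n).1 * e) x := rfl
        rw [this, (s n).2.2.2.2.1]
      have hPhi : Phi J ξ e f V ≤ δ * ‖V ξ‖ ^ 2 := by
        have hnv : ∀ n x, ‖(s n).1 x‖ ≤ ‖x‖ := fun n x => norm_pi_le (s n).2.2.1 x
        have hnp : ∀ n x, ‖(star (s n).1 * (s n).1) x‖ ≤ ‖x‖ := fun n x =>
          norm_proj_le (by simp [star_mul])
            (by rw [mul_assoc, ← mul_assoc (s n).1, (s n).2.2.1]) x
        have hnq : ∀ n x, ‖((s n).1 * star (s n).1) x‖ ≤ ‖x‖ := fun n x =>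
          norm_proj_le (q_proj (s n).2.2.1).1 (q_proj (s n).2.2.1).2 x
        have r1 : Tendsto (fun n => rm J (star (s n).1 * (s n).1) ξ) atTop
            (𝓝 (rm J (star V * V) ξ)) := by
          have : Tendsto (fun n => J ((star (s n).1 * (s n).1) (J ξ))) atTop
              (𝓝 (J ((star V * V) (J ξ)))) := (J.continuous.tendsto _).comp (t3 (J ξ))
          simpa [rm, star_mul] using this
        have r2 : Tendsto (fun n => rm J (s n).1 ξ) atTop (𝓝 (rm J V ξ)) :=
          (J.continuous.tendsto _).comp (t2 (J ξ))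
        have r3 : Tendsto (fun n => rm J (e - star (s n).1 * (s n).1) ξ) atTop
            (𝓝 (rm J (e - star V * V) ξ)) := by
          have : Tendsto (fun n => J (star e (J ξ) - (star (s n).1 * (s n).1) (J ξ))) atTop
              (𝓝 (J (star e (J ξ) - (star V * V) (J ξ)))) :=
            (J.continuous.tendsto _).comp ((t3 (J ξ)).const_sub _)
          simpa [rm, star_mul] using this
        have r4 : Tendsto (fun n => rm J ((s n).1 * star (s n).1) ξ) atTop
            (𝓝 (rm J (V * star V) ξ)) := by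
          have : Tendsto (fun n => J (((s n).1 * star (s n).1) (J ξ))) atTop
              (𝓝 (J ((V * star V) (J ξ)))) := (J.continuous.tendsto _).comp (t4 (J ξ))
          simpa [rm, star_mul] using this
        have l1 := tendsto_apply hnv t1 r1
        have l2 := tendsto_apply hnq t4 r2
        have l3 := tendsto_apply hnp t3 r3
        have l4 := tendsto_apply hnq t4 r4
        have l5 : Tendsto (fun n => (f - (s n).1 * star (s n).1)
            (rm J ((s n).1 * star (s n).1) ξ)) atTop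
            (𝓝 ((f - V * star V) (rm J (V * star V) ξ))) := by
          have := ((f.continuous.tendsto _).comp r4).sub l4
          simpa [Function.comp_def] using this
        have lphi : Tendsto (fun n => Phi J ξ e f (s n).1) atTop (𝓝 (Phi J ξ e f V)) :=
          (((l1.sub l2).norm.pow 2).add ((l3.norm.pow 2).const_mul 4)).add
            ((l5.norm.pow 2).const_mul 4)
        have lr : Tendsto (fun n => δ * ‖(s n).1 ξ‖ ^ 2) atTop (𝓝 (δ * ‖V ξ‖ ^ 2)) :=
          ((t1 ξ).norm.pow 2).const_mul δ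
        exact le_of_tendsto_of_tendsto' lphi lr fun n => (s n).2.2.2.2.2
      exact ⟨⟨V, hVA, hV, hfV, hVe, hPhi⟩, fun n => hle n⟩) a0
  obtain ⟨v, hvb⟩ : ∃ v : H →L[ℂ] H, v = b.1 := ⟨_, rfl⟩
  have hvA : v ∈ A := hvb ▸ b.2.1
  have hv : v * star v * v = v := hvb ▸ b.2.2.1
  have hfv : f * v = v := hvb ▸ b.2.2.2.1
  have hve : v * e = v := hvb ▸ b.2.2.2.2.1
  have hPhi : Phi J ξ e f v ≤ δ * ‖v ξ‖ ^ 2 := hvb ▸ b.2.2.2.2.2
  have hvx : ‖v ξ‖ ≤ 1 := by
    have := norm_pi_le hv ξ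
    rwa [hone] at this
  refine ⟨v, hvA, hv, hfv, hve, ?_, ?_⟩
  · refine hPhi.trans ?_
    have : ‖v ξ‖ ^ 2 ≤ 1 := by (clear * - hvx; nlinarith [norm_nonneg (v ξ)])
    (clear * - hδ this; nlinarith)
  by_contra hcon
  push Not at hcon
  obtain ⟨hne, hnf⟩ := hcon
  have hsv : star v * f = star v := by
    have := congrArg star hfv
    simpa [star_mul, hf.2.1] using this
  have hev : e * star v = star v := by
    have := congrArg star hve
    simpa [star_mul, he.2.1] using this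
  have hpp : (star v * v) * (star v * v) = star v * v := by
    rw [mul_assoc, ← mul_assoc v, hv]
  have hqq := (q_proj hv).2
  set s : H →L[ℂ] H := e - star v * v with hsdef
  set r : H →L[ℂ] H := f - v * star v with hrdef
  have hep : e * (star v * v) = star v * v := by rw [← mul_assoc, hev]
  have hpe : (star v * v) * e = star v * v := by rw [mul_assoc, hve]
  have hfq : f * (v * star v) = v * star v := by rw [← mul_assoc, hfv]
  have hqf : (v * star v) * f = v * star v := by rw [mul_assoc, hsv]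
  have hsP : IsP A s := by
    refine ⟨sub_mem he.1 (mul_mem (star_mem hvA) hvA), by simp [hsdef, star_mul, he.2.1], ?_⟩
    rw [hsdef, sub_mul, mul_sub, mul_sub, he.2.2, hep, hpe, hpp]; abel
  have hrP : IsP A r := by
    refine ⟨sub_mem hf.1 (mul_mem hvA (star_mem hvA)), by simp [hrdef, star_mul, hf.2.1], ?_⟩
    rw [hrdef, sub_mul, mul_sub, mul_sub, hf.2.2, hfq, hqf, hqq]; abel
  have hs0 : s ≠ 0 := fun h0 => hne (sub_eq_zero.mp h0).symm
  have hr0 : r ≠ 0 := fun h0 => hnf (sub_eq_zero.mp h0).symm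
  have hes : e * s = s := by rw [hsdef, mul_sub, he.2.2, hep]
  have hse : s * e = s := by rw [hsdef, sub_mul, he.2.2, hpe]
  have hfr : f * r = r := by rw [hrdef, mul_sub, hf.2.2, hfq]
  obtain ⟨w, hwA, hw, hrw, hws, hw0, hwd⟩ := local_step h hA he hf hef hJe hsP hrP hs0 hr0 hes
    hfr (δ := δ / 4) (by (clear * - hδ; positivity))
  have hstep := phi_step h.conj hJxi he hf hef hvA hv hfv hve hwA hw hrw hws
  -- orthogonality of v and w
  have o1 : star v * w = 0 := by
    rw [← hrw, hrdef, ← mul_assoc, mul_sub, hsv, ss hv, sub_self, zero_mul]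
  have o2 : w * star v = 0 := by
    rw [← hws, hsdef, mul_assoc, sub_mul, hev, star_pi hv, sub_self, mul_zero]
  have o3 : star w * v = 0 := by
    have := congrArg star o1
    simpa [star_mul] using this
  have o4 : v * star w = 0 := by
    have := congrArg star o2
    simpa [star_mul] using this
  have hnorm : ‖(v + w) ξ‖ ^ 2 = ‖v ξ‖ ^ 2 + ‖w ξ‖ ^ 2 := by
    have horth : ⟪v ξ, w ξ⟫_ℂ = 0 := by
      have : ⟪v ξ, w ξ⟫_ℂ = ⟪ξ, (star v) (w ξ)⟫_ℂ := by
        rw [ContinuousLinearMap.star_eq_adjoint, ContinuousLinearMap.adjoint_inner_right]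
      rw [this]
      have : (star v) (w ξ) = (star v * w) ξ := rfl
      rw [this, o1]; simp
    have := @norm_add_sq ℂ H _ _ _ (v ξ) (w ξ)
    rw [horth] at this
    rw [ContinuousLinearMap.add_apply, this]
    simp
  have hvw : (v + w) * star (v + w) * (v + w) = v + w := by
    have : (v + w) * star (v + w) = v * star v + w * star w := by
      rw [star_add, add_mul, mul_add, mul_add, o2, o4]; abel
    rw [this, add_mul, mul_add, mul_add, hv, hw, mul_assoc v, o1, mul_assoc w, o3]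
    simp
  have hfvw : f * (v + w) = v + w := by
    rw [mul_add, hfv]
    have : f * w = w := by rw [← hrw, ← mul_assoc, hfr]
    rw [this]
  have hvwe : (v + w) * e = v + w := by
    rw [add_mul, hve]
    have : w * e = w := by rw [← hws, mul_assoc, hse]
    rw [this]
  have hphi' : Phi J ξ e f (v + w) ≤ δ * ‖(v + w) ξ‖ ^ 2 := by
    refine hstep.trans ?_
    rw [hnorm]
    have := hwd
    (clear * - hPhi hwd; nlinarith)
  let c : Adm A ξ J e f δ := ⟨v + w, add_mem hvA hwA, hvw, hfvw, hvwe, hphi'⟩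
  have hbc : b ≤ c := by
    show Le b.1 (v + w)
    rw [← hvb]
    constructor
    · rw [add_mul, ← mul_assoc, hv, ← mul_assoc, o2, zero_mul, add_zero]
    · rw [mul_add, hv, mul_assoc, o1, mul_zero, add_zero]
  have heq := hb c hbc
  have heq' : ‖(v + w) ξ‖ ^ 2 = ‖v ξ‖ ^ 2 := by
    have e1 : ‖c.1 ξ‖ ^ 2 = ‖b.1 ξ‖ ^ 2 := heq
    rw [← hvb] at e1
    exact e1
  rw [hnorm] at heq'
  have hwx : ‖w ξ‖ ^ 2 = 0 := by (clear * - heq'; linarith)
  have : w ξ = 0 := by
    have := pow_eq_zero_iff (two_ne_zero) |>.mp hwx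
    exact norm_eq_zero.mp this
  exact hw0 (h.sep w hwA this)

end Pool.Agent.Helper88.CS

end

section

open scoped InnerProductSpace Topology BoundedContinuousFunction

open ContinuousLinearMap Filter MeasureTheory

namespace Pool.Agent.Helper88.CS

open Pool.Agent.Helper23

open Pool.Agent.Helper78.BC (Std rm Fixed)

variable {H : Type*} [NormedAddCommGroup H] [InnerProductSpace ℂ H] [CompleteSpace H]

variable {A : VonNeumannAlgebra H} {ξ : H} {J : H →L[ℝ] H}
  {Ψ : (ℝ →ᵇ ℂ) →⋆ₐ[ℂ] (H →L[ℂ] H)} {R : H →L[ℂ] H} {D : H →L[ℝ] H}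

open FullAux ExhAux InftyAux in
theorem exists_full (h : St A ξ J Ψ R D) (hA : III1V A) {e f : H →L[ℂ] H} (he : IsP A e)
    (hf : IsP A f) (hef : e + f = 1) (hJe : J (e ξ) = e ξ) (hm : ‖e ξ‖ = ‖f ξ‖) {δ : ℝ}
    (hδ : 0 < δ) :
    ∃ v ∈ A, star v * v = e ∧ v * star v = f ∧
      ∀ x ∈ A, ‖⟪v ξ, x (v ξ)⟫_ℂ - ⟪f ξ, x (f ξ)⟫_ℂ‖ ≤ δ * ‖x‖ := by
  have hone := h.norm_one
  have hfe : f = 1 - e := by rw [← hef]; abel
  have hJf : J (f ξ) = f ξ := by
    have : f ξ = ξ - e ξ := by rw [hfe]; rfl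
    rw [this, map_sub, h.J_xi, hJe]
  obtain ⟨heA, hes, hee⟩ := he
  obtain ⟨hfA, hfs, hff⟩ := hf
  have hξ0 : ξ ≠ 0 := by
    intro h0; rw [h0, norm_zero] at hone; norm_num at hone
  have hξef : ξ = e ξ + f ξ := by
    have : (e + f) ξ = ξ := by rw [hef]; rfl
    exact this.symm
  have he0 : e ≠ 0 := by
    intro h0
    rw [h0] at hm
    have h1 : ‖f ξ‖ = 0 := by rw [← hm]; simp
    apply hξ0
    rw [hξef, h0, norm_eq_zero.1 h1]; simp
  have hf0 : f ≠ 0 := by
    intro h0
    rw [h0] at hm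
    have h1 : ‖e ξ‖ = 0 := by rw [hm]; simp
    apply hξ0
    rw [hξef, h0, norm_eq_zero.1 h1]; simp
  -- the parameter
  set t : ℝ := min 1 (δ / 22) with ht
  have ht0 : 0 < t := lt_min one_pos (by positivity)
  have ht1 : t ≤ 1 := min_le_left _ _
  have ht2 : 22 * t ≤ δ := by
    have : t ≤ δ / 22 := min_le_right _ _
    (clear * - this; linarith)
  have hd0 : 0 < t ^ 2 := by positivity
  have hfin : 5 * t ^ 2 + 4 * Real.sqrt (2 * t ^ 2) ≤ 11 * t := by
    have h1 : Real.sqrt (2 * t ^ 2) ≤ 3 / 2 * t := by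
      rw [Real.sqrt_le_left (by (clear * - hδ; positivity))]
      (clear * - hd0; nlinarith)
    (clear * - h1 ht0 ht1; nlinarith)
  obtain ⟨v, hvA, hv, hfv, hve, hΦ, hcase⟩ := exists_maximal h hA ⟨heA, hes, hee⟩
    ⟨hfA, hfs, hff⟩ hef hJe (δ := (t ^ 2) ^ 2) (by positivity)
  have hΦ1 : ‖v (rm J (star v * v) ξ) - (v * star v) (rm J v ξ)‖ ≤ t ^ 2 := by
    unfold Phi at hΦ
    have h1 : ‖v (rm J (star v * v) ξ) - (v * star v) (rm J v ξ)‖ ^ 2 ≤ (t ^ 2) ^ 2 := by
      have a1 := sq_nonneg ‖(star v * v) (rm J (e - star v * v) ξ)‖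
      have a2 := sq_nonneg ‖(f - v * star v) (rm J (v * star v) ξ)‖
      linarith
    exact (sq_le_sq₀ (norm_nonneg _) hd0.le).1 h1
  -- the full partial isometry
  obtain ⟨u, huA, hu1, hu2, hu⟩ : ∃ u ∈ A, star u * u = e ∧ u * star u = f ∧
      ‖u (rm J (star u) ξ) - f ξ‖ ≤ 11 * t := by
    rcases hcase with hc | hc
    · obtain ⟨u, huA, hu1, hu2, hu⟩ := case1 h hA.toFInf ⟨heA, hes, hee⟩ ⟨hfA, hfs, hff⟩ he0
        hJe hJf hm hd0 hvA hv hfv hc hΦ1
      exact ⟨u, huA, hu1, hu2, hu.trans hfin⟩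
    · have hsv : star v * star (star v) * star v = star v := by rw [star_star]; exact star_pi hv
      have hev : e * star v = star v := by
        have := congrArg star hve
        simpa [star_mul, hes] using this
      have hΦ2 : ‖(star v) (rm J (star (star v) * star v) ξ) -
          (star v * star (star v)) (rm J (star v) ξ)‖ ≤ t ^ 2 := by
        rw [star_star]
        have b1 : J ((star v) (rm J (v * star v) ξ)) = (v * star v) (rm J v ξ) := by
          rw [J_mul h (star_mem hvA) (mul_mem hvA (star_mem hvA)), star_star]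
          congr 1
          simp [star_mul]
        have b2 : J ((star v * v) (rm J (star v) ξ)) = v (rm J (star v * v) ξ) := by
          rw [J_mul h (mul_mem (star_mem hvA) hvA) (star_mem hvA), star_star]
          congr 2
          simp [star_mul]
        rw [← h.J_norm, map_sub, b1, b2, norm_sub_rev]
        exact hΦ1
      obtain ⟨u, huA, hu1, hu2, hu⟩ := case1 h hA.toFInf ⟨hfA, hfs, hff⟩ ⟨heA, hes, hee⟩ hf0
        hJf hJe hm.symm hd0 (star_mem hvA) hsv hev (by rw [star_star]; exact hc) hΦ2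
      refine ⟨star u, star_mem huA, by rw [star_star]; exact hu2, by rw [star_star]; exact hu1, ?_⟩
      rw [star_star]
      have huf : u * f = u := mul_eq hfs hff hu1
      have hupi : u * star u * u = u := by rw [mul_assoc, hu1, huf]
      have huspi : star u * star (star u) * star u = star u := by
        rw [star_star]; exact star_pi hupi
      have hfus : f * star u = star u := by
        have := congrArg star huf
        simpa [star_mul, hfs] using this
      have huse : star u * e = star u := by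
        rw [← hu2, ← mul_assoc]; exact star_pi hupi
      have c1 : rm J u ((star u) (u (rm J (star u) ξ))) = f ξ := by
        rw [← apply_mul (star u) u, hu1, rm_comm h hfA huA, rm_mul h, hu1, rm_fix h hfs hJf,
          ← apply_mul, hff]
      have c2 : rm J u ((star u) (e ξ)) = (star u) (rm J u ξ) := by
        rw [← apply_mul, huse, rm_comm h (star_mem huA) huA]
      have c3 : (star u) (rm J u ξ) - f ξ =
          - rm J u ((star u) (u (rm J (star u) ξ) - e ξ)) := by
        rw [map_sub, rm_sub, c1, c2]; abel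
      rw [c3, norm_neg]
      exact ((norm_rm_le h hupi _).trans (norm_pi_le huspi _)).trans (hu.trans hfin)
  refine ⟨u, huA, hu1, hu2, fun x hx => ?_⟩
  have hue : u * e = u := mul_eq hes hee hu1
  have hupi : u * star u * u = u := by rw [mul_assoc, hu1, hue]
  have huspi : star u * star (star u) * star u = star u := by
    rw [star_star]; exact star_pi hupi
  set p : H := u (rm J (star u) ξ) with hp
  set q : H := f ξ with hq
  have d1 : ⟪u ξ, x (u ξ)⟫_ℂ = ⟪p, x p⟫_ℂ := by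
    have a1 : rm J (star e) (u ξ) = u ξ := by
      have : u ξ = u (e ξ) := by rw [← apply_mul, hue]
      rw [hes, this, rm_comm h huA heA, rm_comm h heA heA, rm_fix h hes hJe, ← apply_mul e e, hee]
    rw [← inner_rm h hu1 a1, rm_comm h hx (star_mem huA), rm_comm h huA (star_mem huA)]
  rw [d1]
  have hp1 : ‖p‖ ≤ 1 := by
    have a1 := norm_pi_le hupi (rm J (star u) ξ)
    have a2 := norm_rm_le h huspi ξ
    rw [hone] at a2
    exact a1.trans a2
  have hq1 : ‖q‖ ≤ 1 := by
    have := norm_proj_le hfs hff ξ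
    rwa [hone] at this
  have d2 : ⟪p, x p⟫_ℂ - ⟪q, x q⟫_ℂ = ⟪p - q, x p⟫_ℂ + ⟪q, x (p - q)⟫_ℂ := by
    rw [inner_sub_left, map_sub, inner_sub_right]; ring
  rw [d2]
  have d3 : ‖⟪p - q, x p⟫_ℂ‖ ≤ 11 * t * ‖x‖ := by
    have a1 := norm_inner_le_norm (𝕜 := ℂ) (p - q) (x p)
    have a2 : ‖x p‖ ≤ ‖x‖ := by
      have := x.le_opNorm p
      have h3 := norm_nonneg x
      (clear * - this hp1 h3; nlinarith)
    have h4 := norm_nonneg (p - q)
    have h5 := norm_nonneg x
    have h6 := norm_nonneg (x p)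
    calc _ ≤ ‖p - q‖ * ‖x p‖ := a1
      _ ≤ ‖p - q‖ * ‖x‖ := by (clear * - a2; gcongr)
      _ ≤ 11 * t * ‖x‖ := by (clear * - hu; gcongr)
  have d4 : ‖⟪q, x (p - q)⟫_ℂ‖ ≤ 11 * t * ‖x‖ := by
    have a1 := norm_inner_le_norm (𝕜 := ℂ) q (x (p - q))
    have a2 := x.le_opNorm (p - q)
    have h5 := norm_nonneg x
    calc _ ≤ ‖q‖ * ‖x (p - q)‖ := a1
      _ ≤ 1 * (‖x‖ * ‖p - q‖) := by (clear * - hq1 a2; gcongr)
      _ ≤ 1 * (‖x‖ * (11 * t)) := by (clear * - hu; gcongr)
      _ = _ := by ring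
  have d5 := norm_add_le (⟪p - q, x p⟫_ℂ) (⟪q, x (p - q)⟫_ℂ)
  have h5 := norm_nonneg x
  (clear * - d3 d4 d5 ht2 h5; nlinarith)

end Pool.Agent.Helper88.CS

end

end

section

section

open scoped InnerProductSpace Topology

open ContinuousLinearMap Filter

namespace Pool.Agent.Helper23

variable {H : Type*} [NormedAddCommGroup H] [InnerProductSpace ℂ H] [CompleteSpace H]

variable {M N : VonNeumannAlgebra H} {ξ : H} {E : (H →L[ℂ] H) → (H →L[ℂ] H)}

namespace AP

variable (S : AP M N E ξ)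

include S

lemma al_add {γ : ℝ} (hγ : γ ∈ Gam N ξ) {x y : H →L[ℂ] H} (hx : x ∈ Qalg M N ξ)
    (hy : y ∈ Qalg M N ξ) : al M N ξ γ (x + y) = al M N ξ γ x + al M N ξ γ y :=
  S.al_unique hγ (add_mem hx hy) ((S.al_rel hγ hx).add (S.al_rel hγ hy))

lemma al_smul {γ : ℝ} (hγ : γ ∈ Gam N ξ) (c : ℂ) {x : H →L[ℂ] H} (hx : x ∈ Qalg M N ξ) :
    al M N ξ γ (c • x) = c • al M N ξ γ x :=
  S.al_unique hγ (smul_mem' c hx) ((S.al_rel hγ hx).smul c)

lemma al_state {γ : ℝ} (hγ : γ ∈ Gam N ξ) {x : H →L[ℂ] H} (hx : x ∈ Qalg M N ξ) :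
    ⟪ξ, al M N ξ γ x ξ⟫_ℂ = ⟪ξ, x ξ⟫_ℂ :=
  S.rel_state S.irr hγ.2 hx (S.al_mem hγ hx) (S.al_rel hγ hx)

end AP

end Pool.Agent.Helper23

end

end

section

section

open scoped InnerProductSpace Topology

open ContinuousLinearMap Filter

namespace Pool.Agent.Helper88.CS

open Pool.Agent.Helper23

universe u

variable {H : Type u} [NormedAddCommGroup H] [InnerProductSpace ℂ H] [CompleteSpace H]

open FinalAux

/-- Two normal states in one standard form. -/
theorem approx_equiv (N : VonNeumannAlgebra H) {ξ : H} (hξ : ‖ξ‖ = 1)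
    (hsep : ∀ a ∈ N, a ξ = 0 → a = 0) (hN : IsTypeIIIOne N) {η η' ζ ζ' : H}
    (h1 : ‖η‖ ^ 2 + ‖η'‖ ^ 2 = 1) (h2 : ‖ζ‖ ^ 2 + ‖ζ'‖ ^ 2 = 1) {ε : ℝ} (hε : 0 < ε) :
    ∃ u ∈ N, star u * u = 1 ∧ u * star u = 1 ∧ ∀ x ∈ N,
      ‖⟪u η, x (u η)⟫_ℂ + ⟪u η', x (u η')⟫_ℂ - (⟪ζ, x ζ⟫_ℂ + ⟪ζ', x ζ'⟫_ℂ)‖ ≤ ε * ‖x‖ := by
  -- parameters
  obtain ⟨e₁, he0, he1, heε⟩ : ∃ e₁ : ℝ, 0 < e₁ ∧ e₁ < 1 ∧ e₁ ≤ ε / 8 :=
    ⟨min (ε / 8) (1 / 2), lt_min (by (clear * - hε; linarith)) (by norm_num),
      lt_of_le_of_lt (min_le_right _ _) (by norm_num), min_le_left _ _⟩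
  set s : ℝ := Real.sqrt ((1 - e₁) / 2) with hs
  set t : ℝ := Real.sqrt (e₁ / 2) with ht
  have hs2 : s ^ 2 = (1 - e₁) / 2 := Real.sq_sqrt (by (clear * - he1; linarith))
  have ht2 : t ^ 2 = e₁ / 2 := Real.sq_sqrt (by (clear * - he0; linarith))
  have hst : s ^ 2 + t ^ 2 = 1 / 2 := by rw [hs2, ht2]; ring
  have ht0 : t ≠ 0 := (Real.sqrt_pos.2 (by (clear * - he0; linarith))).ne'
  -- Cuntz
  have hF : FInf N := ⟨hN.factor, fun e he h0 => hN.infinite e he.1 he.2.1 he.2.2 h0⟩
  have h0 : ξ ≠ 0 := by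
    rintro rfl
    rw [norm_zero] at hξ
    exact zero_ne_one hξ
  obtain ⟨a, ha, b, hb, haa, hbb, hab, hab0, hba0⟩ := exists_cuntz hF hsep h0
  have ha' : star a ∈ N := star_mem ha
  have hb' : star b ∈ N := star_mem hb
  set F : HS H 6 := vec s t a b η η' ζ ζ' ξ with hFdef
  have hF1 : ‖F‖ = 1 := vec_norm hst haa hbb hξ h1 h2
  obtain ⟨K, _, _, _, B, κ, π, hB, hκ, hcyc, hBsep, hπ, hst'⟩ :=
    exists_real N hN (by norm_num : 0 < 6) F hF1 (vec_sep N ht0 ha hb hab hsep)
  have hψ : ∀ x ∈ N, ⟪κ, π x κ⟫_ℂ =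
      Pool.Agent.Helper88.CS.FinalAux.fn s t η η' ξ (star a * x * a) + Pool.Agent.Helper88.CS.FinalAux.fn s t ζ ζ' ξ (star b * x * b) := fun x hx => by
    rw [hst' x hx, hFdef, vec_sum]
  obtain ⟨J, Ψ, R, D, hS⟩ := exists_st' hκ hcyc hBsep
  -- the two projections
  have hpa : a * star a ∈ N := mul_mem ha ha'
  have hpb : b * star b ∈ N := mul_mem hb hb'
  have hpaa : a * star a * (a * star a) = a * star a := by
    calc a * star a * (a * star a) = a * (star a * a) * star a := by simp only [mul_assoc]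
      _ = a * star a := by rw [haa, mul_one]
  have hpbb : b * star b * (b * star b) = b * star b := by
    calc b * star b * (b * star b) = b * (star b * b) * star b := by simp only [mul_assoc]
      _ = b * star b := by rw [hbb, mul_one]
  set e : K →L[ℂ] K := π (a * star a) with hedef
  set f : K →L[ℂ] K := π (b * star b) with hfdef
  have hes : star e = e := by
    rw [hedef, ← hπ.star _ hpa, star_mul, star_star]
  have hfs : star f = f := by
    rw [hfdef, ← hπ.star _ hpb, star_mul, star_star]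
  have hee : e * e = e := by rw [hedef, ← hπ.mul _ hpa _ hpa, hpaa]
  have hff : f * f = f := by rw [hfdef, ← hπ.mul _ hpb _ hpb, hpbb]
  have he : IsP B e := ⟨hπ.mem _ hpa, hes, hee⟩
  have hf : IsP B f := ⟨hπ.mem _ hpb, hfs, hff⟩
  have hef : e + f = 1 := by rw [hedef, hfdef, ← hπ.add _ hpa _ hpb, hab, hπ.one]
  -- `J e κ = e κ`
  have hJe : J (e κ) = e κ := by
    refine J_of_state hS he.1 hes fun x hx => ?_
    obtain ⟨y, hy, -, hyx⟩ := hπ.surj x hx
    have hl : ⟪e κ, x κ⟫_ℂ = ⟪κ, π (a * star a * y) κ⟫_ℂ := by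
      rw [hπ.mul _ hpa _ hy, hyx]
      exact (adj_sa hes κ (x κ)).symm
    have hr : ⟪(star x) κ, e κ⟫_ℂ = ⟪κ, π (y * (a * star a)) κ⟫_ℂ := by
      rw [hπ.mul _ hy _ hpa, hyx]
      show _ = ⟪κ, x (e κ)⟫_ℂ
      rw [← adj, star_star]
    rw [hl, hr, hψ _ (mul_mem hpa hy), hψ _ (mul_mem hy hpa)]
    have e1 : star a * (a * star a * y) * a = star a * y * a := by
      calc star a * (a * star a * y) * a = (star a * a) * star a * y * a := by
            simp only [mul_assoc]
        _ = star a * y * a := by rw [haa, one_mul]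
    have e2 : star b * (a * star a * y) * b = 0 := by
      calc star b * (a * star a * y) * b = (star b * a) * (star a * y * b) := by
            simp only [mul_assoc]
        _ = 0 := by rw [hba0, zero_mul]
    have e3 : star a * (y * (a * star a)) * a = star a * y * a := by
      calc star a * (y * (a * star a)) * a = star a * y * a * (star a * a) := by
            simp only [mul_assoc]
        _ = star a * y * a := by rw [haa, mul_one]
    have e4 : star b * (y * (a * star a)) * b = 0 := by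
      calc star b * (y * (a * star a)) * b = star b * y * a * (star a * b) := by
            simp only [mul_assoc]
        _ = 0 := by rw [hab0, mul_zero]
    rw [e1, e2, e3, e4]
  -- norms
  have hne : ‖e κ‖ ^ 2 = 1 / 2 := by
    have e1 : ⟪e κ, e κ⟫_ℂ = ⟪κ, e κ⟫_ℂ := by
      rw [← adj_sa hes]
      show ⟪κ, (e * e) κ⟫_ℂ = _
      rw [hee]
    rw [show ⟪κ, e κ⟫_ℂ = _ from hψ _ hpa] at e1
    have e2 : star a * (a * star a) * a = 1 := by
      calc star a * (a * star a) * a = (star a * a) * (star a * a) := by simp only [mul_assoc]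
        _ = 1 := by rw [haa, one_mul]
    have e3 : star b * (a * star a) * b = 0 := by
      calc star b * (a * star a) * b = (star b * a) * (star a * b) := by simp only [mul_assoc]
        _ = 0 := by rw [hba0, zero_mul]
    rw [e2, e3, fn_zero, add_zero, fn_one hξ h1, hst] at e1
    exact sq_of_inner e1
  have hnf : ‖f κ‖ ^ 2 = 1 / 2 := by
    have e1 : ⟪f κ, f κ⟫_ℂ = ⟪κ, f κ⟫_ℂ := by
      rw [← adj_sa hfs]
      show ⟪κ, (f * f) κ⟫_ℂ = _
      rw [hff]
    rw [show ⟪κ, f κ⟫_ℂ = _ from hψ _ hpb] at e1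
    have e2 : star b * (b * star b) * b = 1 := by
      calc star b * (b * star b) * b = (star b * b) * (star b * b) := by simp only [mul_assoc]
        _ = 1 := by rw [hbb, one_mul]
    have e3 : star a * (b * star b) * a = 0 := by
      calc star a * (b * star b) * a = (star a * b) * (star b * a) := by simp only [mul_assoc]
        _ = 0 := by rw [hab0, zero_mul]
    rw [e2, e3, fn_zero, zero_add, fn_one hξ h2, hst] at e1
    exact sq_of_inner e1
  have hm : ‖e κ‖ = ‖f κ‖ :=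
    (sq_eq_sq₀ (norm_nonneg _) (norm_nonneg _)).1 (by rw [hne, hnf])
  -- the partial isometry
  obtain ⟨v, hv, hv1, hv2, hv3⟩ := exists_full hS hB he hf hef hJe hm (δ := ε / 4) (by (clear * - he0 heε; linarith))
  obtain ⟨w, hw, -, hwv⟩ := hπ.surj v hv
  have hw' : star w ∈ N := star_mem hw
  have hinj : ∀ x ∈ N, ∀ y ∈ N, π x = π y → x = y := by
    intro x hx y hy hxy
    have e1 : x + (-1 : ℂ) • y ∈ N := add_mem hx (smul_mem' _ hy)
    have e2 := hπ.inj _ e1 (by
      rw [hπ.add _ hx _ (smul_mem' _ hy), hπ.smul _ _ hy, hxy]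
      simp)
    rw [neg_one_smul, ← sub_eq_add_neg, sub_eq_zero] at e2
    exact e2
  have hw1 : star w * w = a * star a := hinj _ (mul_mem hw' hw) _ hpa (by
    rw [hπ.mul _ hw' _ hw, hπ.star _ hw, hwv, hv1])
  have hw2 : w * star w = b * star b := hinj _ (mul_mem hw hw') _ hpb (by
    rw [hπ.mul _ hw _ hw', hπ.star _ hw, hwv, hv2])
  have hwww : w * (a * star a) = w := by
    have e1 : star (w - w * (a * star a)) * (w - w * (a * star a)) = 0 := by
      rw [star_sub, star_mul, star_mul, star_star]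
      calc (star w - a * star a * star w) * (w - w * (a * star a))
          = star w * w - star w * w * (a * star a) - a * star a * (star w * w) +
            a * star a * (star w * w) * (a * star a) := by noncomm_ring
        _ = 0 := by rw [hw1, hpaa, hpaa]; abel
    have e2 := CStarRing.star_mul_self_eq_zero_iff (w - w * (a * star a)) |>.1 e1
    exact (sub_eq_zero.1 e2).symm
  have hwb : w * b = 0 := by
    calc w * b = w * (a * star a) * b := by rw [hwww]
      _ = w * a * (star a * b) := by simp only [mul_assoc]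
      _ = 0 := by rw [hab0, mul_zero]
  set u : H →L[ℂ] H := star b * w * a with hudef
  have hu : u ∈ N := mul_mem (mul_mem hb' hw) ha
  have hus : star u = star a * star w * b := by
    rw [hudef, star_mul, star_mul, star_star, mul_assoc]
  have hu1 : star u * u = 1 := by
    rw [hus, hudef]
    calc star a * star w * b * (star b * w * a) = star a * star w * (b * star b) * w * a := by
          simp only [mul_assoc]
      _ = star a * (star w * w) * (star w * w) * a := by rw [← hw2]; simp only [mul_assoc]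
      _ = (star a * a) * (star a * a) * (star a * a) := by rw [hw1]; simp only [mul_assoc]
      _ = 1 := by rw [haa, one_mul, one_mul]
  have hu2 : u * star u = 1 := by
    rw [hus, hudef]
    calc star b * w * a * (star a * star w * b) = star b * w * (a * star a) * star w * b := by
          simp only [mul_assoc]
      _ = star b * (w * star w) * (w * star w) * b := by rw [← hw1]; simp only [mul_assoc]
      _ = (star b * b) * (star b * b) * (star b * b) := by rw [hw2]; simp only [mul_assoc]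
      _ = 1 := by rw [hbb, one_mul, one_mul]
  refine ⟨u, hu, hu1, hu2, fun x hx => ?_⟩
  -- the estimate
  have hyN : b * x * star b ∈ N := mul_mem (mul_mem hb hx) hb'
  have hmain : ‖Pool.Agent.Helper88.CS.FinalAux.fn s t η η' ξ (star u * x * u) - Pool.Agent.Helper88.CS.FinalAux.fn s t ζ ζ' ξ x‖ ≤ ε / 4 * ‖x‖ := by
    have g1 := hv3 (π (b * x * star b)) (hπ.mem _ hyN)
    have g2 : ⟪v κ, (π (b * x * star b)) (v κ)⟫_ℂ = Pool.Agent.Helper88.CS.FinalAux.fn s t η η' ξ (star u * x * u) := by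
      have e1 : ⟪v κ, (π (b * x * star b)) (v κ)⟫_ℂ =
          ⟪κ, π (star w * (b * x * star b) * w) κ⟫_ℂ := by
        rw [hπ.mul _ (mul_mem hw' hyN) _ hw, hπ.mul _ hw' _ hyN, hπ.star _ hw, hwv]
        exact (adj v κ _).symm
      rw [e1, hψ _ (mul_mem (mul_mem hw' hyN) hw)]
      have e2 : star a * (star w * (b * x * star b) * w) * a = star u * x * u := by
        rw [hus, hudef]
        simp only [mul_assoc]
      have e3 : star b * (star w * (b * x * star b) * w) * b = 0 := by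
        calc star b * (star w * (b * x * star b) * w) * b
            = star b * (star w * (b * x * star b)) * (w * b) := by simp only [mul_assoc]
          _ = 0 := by rw [hwb, mul_zero]
      rw [e2, e3, fn_zero, add_zero]
    have g3 : ⟪f κ, (π (b * x * star b)) (f κ)⟫_ℂ = Pool.Agent.Helper88.CS.FinalAux.fn s t ζ ζ' ξ x := by
      have e1 : ⟪f κ, (π (b * x * star b)) (f κ)⟫_ℂ =
          ⟪κ, π (b * star b * (b * x * star b) * (b * star b)) κ⟫_ℂ := by
        rw [hπ.mul _ (mul_mem hpb hyN) _ hpb, hπ.mul _ hpb _ hyN]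
        exact (adj_sa hfs κ _).symm
      rw [e1, hψ _ (mul_mem (mul_mem hpb hyN) hpb)]
      have e2 : star a * (b * star b * (b * x * star b) * (b * star b)) * a = 0 := by
        calc star a * (b * star b * (b * x * star b) * (b * star b)) * a
            = (star a * b) * (star b * (b * x * star b) * (b * star b) * a) := by
              simp only [mul_assoc]
          _ = 0 := by rw [hab0, zero_mul]
      have e3 : star b * (b * star b * (b * x * star b) * (b * star b)) * b = x := by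
        calc star b * (b * star b * (b * x * star b) * (b * star b)) * b
            = (star b * b) * (star b * b) * x * (star b * b) * (star b * b) := by
              simp only [mul_assoc]
          _ = x := by rw [hbb, one_mul, one_mul, mul_one, mul_one]
      rw [e2, e3, fn_zero, zero_add]
    rw [g2, g3] at g1
    refine g1.trans (mul_le_mul_of_nonneg_left ?_ (by (clear * - he0 heε; linarith)))
    refine (hπ.norm_le _ hyN).trans ?_
    have n1 : ‖b‖ ≤ 1 := op_le_one hbb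
    have n2 : ‖star b‖ ≤ 1 := by rwa [norm_star]
    calc ‖b * x * star b‖ ≤ ‖b * x‖ * ‖star b‖ := norm_mul_le _ _
      _ ≤ ‖b * x‖ * 1 := mul_le_mul_of_nonneg_left n2 (norm_nonneg _)
      _ ≤ ‖b‖ * ‖x‖ := by rw [mul_one]; exact norm_mul_le _ _
      _ ≤ 1 * ‖x‖ := mul_le_mul_of_nonneg_right n1 (norm_nonneg _)
      _ = ‖x‖ := one_mul _
  -- comparison
  set z : H →L[ℂ] H := star u * x * u with hz
  have hzn : ‖z‖ ≤ ‖x‖ := by
    have n1 : ‖u‖ ≤ 1 := op_le_one hu1
    have n2 : ‖star u‖ ≤ 1 := by rwa [norm_star]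
    calc ‖star u * x * u‖ ≤ ‖star u * x‖ * ‖u‖ := norm_mul_le _ _
      _ ≤ ‖star u * x‖ * 1 := mul_le_mul_of_nonneg_left n1 (norm_nonneg _)
      _ ≤ ‖star u‖ * ‖x‖ := by rw [mul_one]; exact norm_mul_le _ _
      _ ≤ 1 * ‖x‖ := mul_le_mul_of_nonneg_right n2 (norm_nonneg _)
      _ = ‖x‖ := one_mul _
  have hzi : ∀ θ : H, ⟪u θ, x (u θ)⟫_ℂ = ⟪θ, z θ⟫_ℂ := by
    intro θ
    show _ = ⟪θ, (star u) (x (u θ))⟫_ℂ
    rw [star_eq_adjoint, adjoint_inner_right]
  rw [hzi, hzi]
  have hφ : ∀ y : H →L[ℂ] H, ‖⟪ξ, y ξ⟫_ℂ‖ ≤ ‖y‖ := by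
    intro y
    have := (norm_inner_le_norm (𝕜 := ℂ) ξ (y ξ)).trans
      (mul_le_mul_of_nonneg_left (y.le_opNorm ξ) (norm_nonneg ξ))
    rwa [hξ, mul_one, one_mul] at this
  have i1 := st_le h1 z
  have i2 := st_le h2 x
  have i3 := hφ z
  have i4 := hφ x
  set α : ℂ := ⟪η, z η⟫_ℂ + ⟪η', z η'⟫_ℂ with hα
  set β : ℂ := ⟪ζ, x ζ⟫_ℂ + ⟪ζ', x ζ'⟫_ℂ with hβ
  have key : α - β = 2 * (Pool.Agent.Helper88.CS.FinalAux.fn s t η η' ξ z - Pool.Agent.Helper88.CS.FinalAux.fn s t ζ ζ' ξ x) +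
      (e₁ : ℂ) * ((α - ⟪ξ, z ξ⟫_ℂ) - (β - ⟪ξ, x ξ⟫_ℂ)) := by
    unfold Pool.Agent.Helper88.CS.FinalAux.fn
    rw [← hα, ← hβ, hs2, ht2]
    push_cast
    ring
  rw [key]
  have hx0 := norm_nonneg x
  have j1 : ‖(α - ⟪ξ, z ξ⟫_ℂ) - (β - ⟪ξ, x ξ⟫_ℂ)‖ ≤ 4 * ‖x‖ := by
    have a1 := norm_sub_le (α - ⟪ξ, z ξ⟫_ℂ) (β - ⟪ξ, x ξ⟫_ℂ)
    have a2 := norm_sub_le α ⟪ξ, z ξ⟫_ℂ
    have a3 := norm_sub_le β ⟪ξ, x ξ⟫_ℂ
    (clear * - hzn i3 i4 i1 i2 a1 a2 a3; linarith)
  calc ‖2 * (Pool.Agent.Helper88.CS.FinalAux.fn s t η η' ξ z - Pool.Agent.Helper88.CS.FinalAux.fn s t ζ ζ' ξ x) +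
        (e₁ : ℂ) * ((α - ⟪ξ, z ξ⟫_ℂ) - (β - ⟪ξ, x ξ⟫_ℂ))‖
      ≤ ‖2 * (Pool.Agent.Helper88.CS.FinalAux.fn s t η η' ξ z - Pool.Agent.Helper88.CS.FinalAux.fn s t ζ ζ' ξ x)‖ +
        ‖(e₁ : ℂ) * ((α - ⟪ξ, z ξ⟫_ℂ) - (β - ⟪ξ, x ξ⟫_ℂ))‖ := norm_add_le _ _
    _ = 2 * ‖Pool.Agent.Helper88.CS.FinalAux.fn s t η η' ξ z - Pool.Agent.Helper88.CS.FinalAux.fn s t ζ ζ' ξ x‖ +
        e₁ * ‖(α - ⟪ξ, z ξ⟫_ℂ) - (β - ⟪ξ, x ξ⟫_ℂ)‖ := by
        rw [norm_mul, norm_mul, Complex.norm_real, Real.norm_of_nonneg he0.le]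
        norm_num
    _ ≤ 2 * (ε / 4 * ‖x‖) + ε / 8 * (4 * ‖x‖) := by
        refine add_le_add (mul_le_mul_of_nonneg_left hmain (by norm_num)) ?_
        exact mul_le_mul heε j1 (norm_nonneg _) (by (clear * - he0 heε; linarith))
    _ = ε * ‖x‖ := by ring

/-- The Connes-Stoermer theorem. -/
theorem connes_stormer (N : VonNeumannAlgebra H) {ξ : H} (hξ : ‖ξ‖ = 1)
    (hsep : ∀ a ∈ N, a ξ = 0 → a = 0) (hN : IsTypeIIIOne N) :
    Pool.Agent.Helper23.RBF.TypeIIIOne N := by
  refine ⟨?_, fun η η' ζ ζ' h1 h2 ε hε => approx_equiv N hξ hsep hN h1 h2 hε⟩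
  have hF : FInf N := ⟨hN.factor, fun e he h0 => hN.infinite e he.1 he.2.1 he.2.2 h0⟩
  have h0 : ξ ≠ 0 := by
    rintro rfl
    rw [norm_zero] at hξ
    exact zero_ne_one hξ
  obtain ⟨a, ha, b, hb, h1, h2, h3, h4, h5⟩ := exists_cuntz hF hsep h0
  exact ⟨a, ha, b, hb, h1, h2, h4⟩

end Pool.Agent.Helper88.CS

end

end
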