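import Pool.Agent.Helper23.FB.L02_a0
import Pool.Agent.Helper23.FB.L02_a1
import Pool.Agent.Helper23.FB.L02_a10
import Pool.Agent.Helper23.FB.L02_a2
import Pool.Agent.Helper23.FB.L02_a3
import Pool.Agent.Helper23.FB.L02_a4
import Pool.Agent.Helper23.FB.L02_a6
import Pool.Agent.Helper23.FB.L02_a8
import Pool.Agent.Helper23.FB.L02_a9

/-!
Parts of Helper23.FA.L02_01, Helper23.FA.L02_05, Helper23.FA.L03_01, Helper23.FA.L03_02, Helper23.FA.L03_03, Helper23.FA.L04_00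
-/

attribute [local instance 5000]
  Pool.Agent.Helper23.FB.Inst.rCharZero Pool.Agent.Helper23.FB.Inst.rALM
  Pool.Agent.Helper23.FB.Inst.rARM Pool.Agent.Helper23.FB.Inst.rALSM
  Pool.Agent.Helper23.FB.Inst.rARSM Pool.Agent.Helper23.FB.Inst.rARRLE
  Pool.Agent.Helper23.FB.Inst.rALRLE Pool.Agent.Helper23.FB.Inst.rARRLT
  Pool.Agent.Helper23.FB.Inst.rALRLT Pool.Agent.Helper23.FB.Inst.rPMRLT
  Pool.Agent.Helper23.FB.Inst.rMPRLT Pool.Agent.Helper23.FB.Inst.rPMM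
  Pool.Agent.Helper23.FB.Inst.rMPM Pool.Agent.Helper23.FB.Inst.rPMSM
  Pool.Agent.Helper23.FB.Inst.rMPSM Pool.Agent.Helper23.FB.Inst.rEAOL
  Pool.Agent.Helper23.FB.Inst.rIOR Pool.Agent.Helper23.FB.Inst.rISOR
  Pool.Agent.Helper23.FB.Inst.rFS Pool.Agent.Helper23.FB.Inst.rcCharZero
  Pool.Agent.Helper23.FB.Inst.rNZD Pool.Agent.Helper23.FB.Inst.rcNZD
  Pool.Agent.Helper23.FB.Inst.bSemiring Pool.Agent.Helper23.FB.Inst.bStar
  Pool.Agent.Helper23.FB.Inst.bAlg Pool.Agent.Helper23.FB.Inst.bSub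
  Pool.Agent.Helper23.FB.Inst.bMul Pool.Agent.Helper23.FB.Inst.bAdd
  Pool.Agent.Helper23.FB.Inst.iRing Pool.Agent.Helper23.FB.Inst.iSemiring
  Pool.Agent.Helper23.FB.Inst.iAlgC Pool.Agent.Helper23.FB.Inst.iSMulC
  Pool.Agent.Helper23.FB.Inst.iModC Pool.Agent.Helper23.FB.Inst.iAlgR
  Pool.Agent.Helper23.FB.Inst.iSMulR Pool.Agent.Helper23.FB.Inst.iModR
  Pool.Agent.Helper23.FB.Inst.iMonoid Pool.Agent.Helper23.FB.Inst.iSemigroup
  Pool.Agent.Helper23.FB.Inst.iMulOneClass Pool.Agent.Helper23.FB.Inst.iMul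
  Pool.Agent.Helper23.FB.Inst.iAdd Pool.Agent.Helper23.FB.Inst.iSub
  Pool.Agent.Helper23.FB.Inst.iNeg Pool.Agent.Helper23.FB.Inst.iAddCommMonoid
  Pool.Agent.Helper23.FB.Inst.iAddCommGroup Pool.Agent.Helper23.FB.Inst.iAddGroup
  Pool.Agent.Helper23.FB.Inst.iAddMonoid Pool.Agent.Helper23.FB.Inst.iSMulZeroC
  Pool.Agent.Helper23.FB.Inst.iMulActC Pool.Agent.Helper23.FB.Inst.iDSMulC
  Pool.Agent.Helper23.FB.Inst.iDSMulR Pool.Agent.Helper23.FB.Inst.iSNAG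
  Pool.Agent.Helper23.FB.Inst.iSNACG Pool.Agent.Helper23.FB.Inst.iNorm
  Pool.Agent.Helper23.FB.Inst.iNSC' Pool.Agent.Helper23.FB.Inst.iNSR'
  Pool.Agent.Helper23.FB.Inst.iTop Pool.Agent.Helper23.FB.Inst.iT2 Pool.Agent.Helper23.FB.Inst.iTR
  Pool.Agent.Helper23.FB.Inst.iSCC Pool.Agent.Helper23.FB.Inst.iIST
  Pool.Agent.Helper23.FB.Inst.iSCCR Pool.Agent.Helper23.FB.Inst.iISTR
  Pool.Agent.Helper23.FB.Inst.iZHC Pool.Agent.Helper23.FB.Inst.iAHC
  Pool.Agent.Helper23.FB.Inst.iAMHC Pool.Agent.Helper23.FB.Inst.iMAHC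
  Pool.Agent.Helper23.FB.Inst.lTop Pool.Agent.Helper23.FB.Inst.lUnif
  Pool.Agent.Helper23.FB.Inst.lACM Pool.Agent.Helper23.FB.Inst.lACG
  Pool.Agent.Helper23.FB.Inst.lSNAG Pool.Agent.Helper23.FB.Inst.lSNACG
  Pool.Agent.Helper23.FB.Inst.lNACG Pool.Agent.Helper23.FB.Inst.lNorm
  Pool.Agent.Helper23.FB.Inst.lIPS Pool.Agent.Helper23.FB.Inst.lMod
  Pool.Agent.Helper23.FB.Inst.lSMul Pool.Agent.Helper23.FB.Inst.lT2
  Pool.Agent.Helper23.FB.Inst.iStar Pool.Agent.Helper23.FB.Inst.iStarMul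
  Pool.Agent.Helper23.FB.Inst.iStarAddMonoid Pool.Agent.Helper23.FB.Inst.iStarRing
  Pool.Agent.Helper23.FB.Inst.iNSC Pool.Agent.Helper23.FB.Inst.iSOR
  Pool.Agent.Helper23.FB.Inst.iALM Pool.Agent.Helper23.FB.Inst.iARM
  Pool.Agent.Helper23.FB.Inst.iCFC Pool.Agent.Helper23.FB.Inst.iNCFC
  Pool.Agent.Helper23.FB.Inst.iStarModR Pool.Agent.Helper23.FB.Inst.iStarModC
  Pool.Agent.Helper23.FB.Inst.eStar Pool.Agent.Helper23.FB.Inst.eAdd
  Pool.Agent.Helper23.FB.Inst.eMul Pool.Agent.Helper23.FB.Inst.eOne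
  Pool.Agent.Helper23.FB.Inst.eZero Pool.Agent.Helper23.FB.Inst.eMulAction
  Pool.Agent.Helper23.FB.Inst.eAMHC2 Pool.Agent.Helper23.FB.Inst.eZHC2
  Pool.Agent.Helper23.FB.Inst.lAMHC

namespace Pool.Agent.Helper23
end Pool.Agent.Helper23
namespace Pool.Agent.Helper23.RBF
end Pool.Agent.Helper23.RBF
namespace Pool.Agent.Helper43.TTF
end Pool.Agent.Helper43.TTF

section

section

open scoped InnerProductSpace Topology BoundedContinuousFunction FourierTransform ENNReal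

open ContinuousLinearMap Filter MeasureTheory

set_option linter.unusedSectionVars false

namespace Pool.Agent.Helper23

variable {H : Type*} [NormedAddCommGroup H] [InnerProductSpace ℂ H] [CompleteSpace H]

variable {M N : VonNeumannAlgebra H} {ξ : H} {E : (H →L[ℂ] H) → (H →L[ℂ] H)}

namespace Modular

variable {A : VonNeumannAlgebra H} {R : H →L[ℂ] H} {D : H →L[ℝ] H}
  {Ψ : (ℝ →ᵇ ℂ) →⋆ₐ[ℂ] (H →L[ℂ] H)} (h : Modular A ξ R D Ψ)

include h

/-- the weak centralizer identity -/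
theorem weak {c b : H →L[ℂ] H} (hc : c ∈ A) (hb : b ∈ A) {m : ℕ} {f f' : L2R ℂ}
    (hf : Pn m f = f) (hf' : Pn m f' = f') :
    ⟪ten f' (b ξ), fco (fun t : ℝ => Ψ (expB (2 * Real.pi * t)) * c *
        Ψ (expB (-(2 * Real.pi * t)))) (ten (mulOp ℂ (he m) f) ξ)⟫_ℂ =
      ⟪ten (mulOp ℂ (he m) f') ξ, fco (fun t : ℝ => Ψ (expB (2 * Real.pi * t)) * c *
        Ψ (expB (-(2 * Real.pi * t)))) (ten f ((star b) ξ))⟫_ℂ := by
  rw [h.conj_ten, h.key, h.weak_pre hc hb hf hf', h.conj_eq]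
  set W := fco fun t : ℝ => Ψ (expB (2 * Real.pi * t)) with hW
  set W' := fco fun t : ℝ => Ψ (expB (-(2 * Real.pi * t))) with hW'
  have hs : star W = W' := h.W_star
  have hs' : star W' = W := by rw [← hs, star_star]
  change _ = ⟪_, W (lift c (W' _))⟫_ℂ
  rw [← inner_star_left W, hs, h.W'_ten, ← inner_star_left (lift c), ← lift_star, lift_ten,
    ← inner_star_left W', hs', ← inner_conj_symm, ← h.key, inner_conj_symm]

end Modular

end Pool.Agent.Helper23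

end

section

open scoped InnerProductSpace Topology ENNReal BoundedContinuousFunction

open ContinuousLinearMap Filter MeasureTheory

namespace Pool.Agent.Helper23.ED

open Pool.Agent.Helper23 Pool.Agent.Helper23.RBF

open Pool.Agent.Helper78.BC.Transport (Sub r)

universe u

variable {H : Type*} [NormedAddCommGroup H] [InnerProductSpace ℂ H] [CompleteSpace H]

variable {M N : VonNeumannAlgebra H} {ξ : H} {E : (H →L[ℂ] H) → (H →L[ℂ] H)}

theorem Rk1_slX (S : BFlow M N E ξ) {R : H →L[ℂ] H} {D : H →L[ℝ] H}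
    {Ψ : (ℝ →ᵇ ℂ) →⋆ₐ[ℂ] (H →L[ℂ] H)} (hΨ : Modular M ξ R D Ψ)
    (hN : ∀ (t : ℝ), ∀ a ∈ N, Ψ (expB t) * a * Ψ (expB (-t)) ∈ N)
    {X : L2R H →L[ℂ] L2R H} (hX : X ∈ Rk1 M N Ψ) (f g : L2R ℂ) :
    slX X f g ∈ Bicent M N ξ ∧ ∀ l : ℝ, 0 < l →
      btU M N ξ l (slX X f g) = slX X (tr ℂ (Real.log l) f) (tr ℂ (Real.log l) g) := by
  have hsh : ∀ (f g : L2R ℂ) (l : ℝ), 0 < l → ∀ a : ℕ → H →L[ℂ] H, LamSeq N ξ l a → ∀ η : H,
      Tendsto (fun n => (a n * slX X f g -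
        slX X (tr ℂ (Real.log l) f) (tr ℂ (Real.log l) g) * a n) η) atTop (𝓝 0) :=
    fun f g l hl a ha η => RkA.shift_all1 S.toSetting hΨ hN hX f g ha
      (fun f => S.toSetting.lamSeq_conj hΨ hl ha f) η
  have hbic : ∀ f g : L2R ℂ, slX X f g ∈ Bicent M N ξ := by
    intro f g
    refine ⟨slX_mem hX.1 f g, fun a ha η => ?_⟩
    have h1 := (hsh f g 1 one_pos a ha η).neg
    rw [neg_zero, Real.log_one, tr_zero] at h1
    refine h1.congr fun n => ?_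
    rw [sub_apply, neg_sub]
    rfl
  refine ⟨hbic f g, fun l hl => ?_⟩
  symm
  exact S.flow_uniq _ (hbic f g) _ (hbic _ _).1 l hl fun a ha => hsh f g l hl a ha ξ

end Pool.Agent.Helper23.ED

end

section

open scoped InnerProductSpace Topology ENNReal BoundedContinuousFunction

open ContinuousLinearMap Filter MeasureTheory

namespace Pool.Agent.Helper23.ED

open Pool.Agent.Helper23 Pool.Agent.Helper23.RBF

open Pool.Agent.Helper78.BC.Transport (Sub r)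

universe u

variable {H : Type*} [NormedAddCommGroup H] [InnerProductSpace ℂ H] [CompleteSpace H]

variable {A : VonNeumannAlgebra H} {ξ : H} {R : H →L[ℂ] H} {D : H →L[ℝ] H}
  {Ψ : (ℝ →ᵇ ℂ) →⋆ₐ[ℂ] (H →L[ℂ] H)}

theorem WW_unit (hΨ : Modular A ξ R D Ψ) : WW Ψ * star (WW Ψ) = 1 ∧ star (WW Ψ) * WW Ψ = 1 := by
  unfold WW
  rw [hΨ.W_star]
  exact ⟨hΨ.W_mul, hΨ.W_mul'⟩

end Pool.Agent.Helper23.ED

end

end

section

section

open scoped InnerProductSpace Topology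

open ContinuousLinearMap Filter

namespace Pool.Agent.Helper23

variable {H : Type*} [NormedAddCommGroup H] [InnerProductSpace ℂ H] [CompleteSpace H]

variable {M N : VonNeumannAlgebra H} {ξ : H} {E : (H →L[ℂ] H) → (H →L[ℂ] H)}

namespace AP

variable (S : AP M N E ξ)

include S

lemma al_star {γ : ℝ} (hγ : γ ∈ Gam N ξ) {x : H →L[ℂ] H} (hx : x ∈ Qalg M N ξ) :
    al M N ξ γ (star x) = star (al M N ξ γ x) :=
  S.al_unique hγ (star_mem hx)
    ((S.al_rel hγ hx).star' S.irr hγ.1.ne' hγ.2 (S.al_mem hγ hx))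

end AP

end Pool.Agent.Helper23

end

end

section

section

open scoped InnerProductSpace Topology ENNReal BoundedContinuousFunction

open ContinuousLinearMap Filter MeasureTheory

namespace Pool.Agent.Helper23.ED

open Pool.Agent.Helper23 Pool.Agent.Helper23.RBF

open Pool.Agent.Helper78.BC.Transport (Sub r)

universe u

open Pool.Agent.Helper23.TTA (Rop Dop)

variable {H : Type u} [NormedAddCommGroup H] [InnerProductSpace ℂ H] [CompleteSpace H]

variable {K : Type u} [NormedAddCommGroup K] [InnerProductSpace ℂ K] [CompleteSpace K]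

variable {M N : VonNeumannAlgebra H} {E : (H →L[ℂ] H) → (H →L[ℂ] H)}

variable {ξ : H} {i : K →L[ℂ] H} {κ : K}

theorem exists_modular' (S : Setting M N E ξ) :
    ∃ Ψ : (ℝ →ᵇ ℂ) →⋆ₐ[ℂ] (H →L[ℂ] H), Modular M ξ (Rop M ξ) (Dop M ξ) Ψ ∧
      ∀ (t : ℝ), ∀ a ∈ N, Ψ (expB t) * a * Ψ (expB (-t)) ∈ N := by
  have h' := Pool.Agent.Helper43.TTF.ttdata M ξ S.cyc S.sep
  obtain ⟨Ψ, h⟩ := Pool.Agent.Helper43.TTF.exists_FC h'
  have hmod := Pool.Agent.Helper43.TTF.modular_of h' S.cyc S.sep h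
  refine ⟨Ψ, hmod, fun t a ha => ?_⟩
  set x := Ψ (expB t) * a * Ψ (expB (-t)) with hx
  have hxM : x ∈ M := hmod.mem t a (S.le a ha)
  have hcomm := h.psi_comm _ (Pool.Agent.Helper43.TTF.p0_R S)
  have hxξ : x ξ = Ψ (expB t) (a ξ) := by
    rw [hx, mul_apply_eq_comp, mul_apply_eq_comp, hmod.psi_xi,
      Pool.Agent.Helper43.TTF.expB_apply, mul_zero,
      Complex.ofReal_zero, zero_mul, Complex.exp_zero, one_smul]
  have h1 : Pool.Agent.Helper43.TTF.p0 N ξ (x ξ) = x ξ := by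
    have h2 := congrArg (fun T : H →L[ℂ] H => T (a ξ)) (hcomm (expB t))
    simp only [mul_apply_eq_comp] at h2
    rw [hxξ, h2, Pool.Agent.Helper43.TTF.p0_of_mem (mem_K0 ha)]
  have h3 : (E x - x) ξ = 0 := by
    rw [sub_apply, ← Pool.Agent.Helper43.TTF.E_apply S hxM, h1, sub_self]
  have h4 := S.sep _ (sub_mem (S.le _ (S.E_mem x hxM)) hxM) h3
  rw [← sub_eq_zero.1 h4]
  exact S.E_mem x hxM

end Pool.Agent.Helper23.ED

end

section

open scoped InnerProductSpace Topology ENNReal BoundedContinuousFunction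

open ContinuousLinearMap Filter MeasureTheory

namespace Pool.Agent.Helper23.ED

open Pool.Agent.Helper23 Pool.Agent.Helper23.RBF

open Pool.Agent.Helper78.BC.Transport (Sub r)

universe u

variable {H : Type*} [NormedAddCommGroup H] [InnerProductSpace ℂ H] [CompleteSpace H]

variable {A : VonNeumannAlgebra H} {ξ : H} {R : H →L[ℂ] H} {D : H →L[ℝ] H}
  {Ψ : (ℝ →ᵇ ℂ) →⋆ₐ[ℂ] (H →L[ℂ] H)}

open GgB in
theorem PP_ems (hΨ : Modular A ξ R D Ψ) (a : ℝ) :
    PP Ψ (ems a) = UV (fun t => Ψ (expB t)) a := by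
  have hp : (2 * Real.pi) ≠ 0 := by positivity
  have hU : ∀ t : ℝ, Dec fun s : ℝ => Ψ (expB (2 * Real.pi * (s - t))) := fun t =>
    Dec.of_cont zero_le_one (fun s => (psi_norm_le Ψ _).trans (expB_norm _))
      (fun v => (hΨ.U_cont v).comp (by fun_prop))
  have h1 : WW Ψ * mulOp H (ems a) = UV (fun t => Ψ (expB t)) a * WW Ψ := by
    ext F : 1
    refine (Fo H).injective ?_
    change Fo H (WW Ψ (mulOp H (ems a) F)) =
      Fo H (lift (Ψ (expB a)) (mulOp H (ems a) (WW Ψ F)))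
    unfold WW
    rw [Fo_fco, Fo_lift, Fo_ems, Fo_ems, Fo_fco, tr_dec hΨ.U_dec hU]
    have h2 := dec_comp (Dec.const (Ψ (expB a))) (hU (a / (2 * Real.pi)))
      (tr H (a / (2 * Real.pi)) (Fo H F))
    refine Eq.trans ?_ h2.symm
    congr 2
    funext s
    change _ = Ψ (expB a) * Ψ (expB (2 * Real.pi * (s - a / (2 * Real.pi))))
    rw [psi_expB_mul]
    congr 2
    field_simp
    ring
  unfold PP
  rw [h1, mul_assoc, (WW_unit hΨ).1, mul_one]

theorem PP_ten (hΨ : Modular A ξ R D Ψ) {m : ℝ → ℂ} (hm : BM m) (f : L2R ℂ) :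
    PP Ψ m (ten f ξ) = ten (mulOp ℂ m f) ξ := by
  have h1 : ∀ f : L2R ℂ, star (WW Ψ) (ten f ξ) = ten f ξ := by
    intro f
    unfold WW
    rw [hΨ.W_star]
    exact hΨ.W'_ten f
  have h2 : ∀ f : L2R ℂ, WW Ψ (ten f ξ) = ten f ξ := by
    intro f
    have h3 := DFunLike.congr_fun (WW_unit hΨ).1 (ten f ξ)
    change WW Ψ (star (WW Ψ) (ten f ξ)) = ten f ξ at h3
    rwa [h1] at h3
  change WW Ψ (mulOp H m (star (WW Ψ) (ten f ξ))) = _
  rw [h1, mulOp_ten hm, h2]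

theorem comm_PP (hΨ : Modular A ξ R D Ψ) {X : L2R H →L[ℂ] L2R H}
    (hc : ∀ a, X * UV (fun t => Ψ (expB t)) a = UV (fun t => Ψ (expB t)) a * X)
    {m : ℝ → ℂ} (hm : BM m) : X * PP Ψ m = PP Ψ m * X := by
  obtain ⟨hW1, hW2⟩ := WW_unit hΨ
  have h1 : ∀ a, (star (WW Ψ) * X * WW Ψ) * mulOp H (ems a) =
      mulOp H (ems a) * (star (WW Ψ) * X * WW Ψ) := by
    intro a
    have h2 := hc a
    rw [← PP_ems hΨ a] at h2
    unfold PP at h2
    calc (star (WW Ψ) * X * WW Ψ) * mulOp H (ems a)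
        = star (WW Ψ) * (X * (WW Ψ * mulOp H (ems a) * star (WW Ψ))) * WW Ψ := by
          simp only [mul_assoc, hW2, mul_one]
      _ = star (WW Ψ) * ((WW Ψ * mulOp H (ems a) * star (WW Ψ)) * X) * WW Ψ := by rw [h2]
      _ = (star (WW Ψ) * WW Ψ) * mulOp H (ems a) * (star (WW Ψ) * X * WW Ψ) := by
          simp only [mul_assoc]
      _ = _ := by rw [hW2, one_mul]
  have h3 := GgC.comm_mulOp h1 hm
  unfold PP
  calc X * (WW Ψ * mulOp H m * star (WW Ψ))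
      = (WW Ψ * star (WW Ψ)) * X * (WW Ψ * mulOp H m * star (WW Ψ)) := by
        rw [hW1, one_mul]
    _ = WW Ψ * ((star (WW Ψ) * X * WW Ψ) * mulOp H m) * star (WW Ψ) := by
        simp only [mul_assoc]
    _ = WW Ψ * (mulOp H m * (star (WW Ψ) * X * WW Ψ)) * star (WW Ψ) := by rw [h3]
    _ = (WW Ψ * mulOp H m * star (WW Ψ)) * X * (WW Ψ * star (WW Ψ)) := by
        simp only [mul_assoc]
    _ = _ := by rw [hW1, mul_one]

end Pool.Agent.Helper23.ED

end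

section

open scoped InnerProductSpace Topology ENNReal BoundedContinuousFunction

open ContinuousLinearMap Filter MeasureTheory

namespace Pool.Agent.Helper23.ED

open Pool.Agent.Helper23 Pool.Agent.Helper23.RBF

open Pool.Agent.Helper78.BC.Transport (Sub r)

universe u

variable {H : Type*} [NormedAddCommGroup H] [InnerProductSpace ℂ H] [CompleteSpace H]

variable {M N : VonNeumannAlgebra H} {ξ : H} {E : (H →L[ℂ] H) → (H →L[ℂ] H)}

theorem GK_of_comm (S : Setting M N E ξ) {R : H →L[ℂ] H} {D : H →L[ℝ] H}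
    {Ψ : (ℝ →ᵇ ℂ) →⋆ₐ[ℂ] (H →L[ℂ] H)} (hΨ : Modular M ξ R D Ψ) {X : L2R H →L[ℂ] L2R H}
    (hX : X ∈ amp N) (h1 : star X * X = 1) (h2 : X * star X = 1)
    (hc : ∀ a, X * UV (fun t => Ψ (expB t)) a = UV (fun t => Ψ (expB t)) a * X) :
    X ∈ GK N ξ := by
  refine GK_of_weak hX h1 h2 fun n f f' hf hf' b hb => ?_
  have hxN : slX X f' (mulOp ℂ (he n) f) ∈ N := slX_mem hX _ _
  have hyN : slX X (mulOp ℂ (he n) f') f ∈ N := slX_mem hX _ _
  have hbmI : BM (ind (Set.Ico (-(n : ℝ)) n)) := ind_bm measurableSet_Ico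
  -- the two vectors `X (h f ⊗ ξ)` and `X (f ⊗ ξ)` in terms of functions of `log Δ + s`
  have e1 : X (ten (mulOp ℂ (he n) f) ξ) = PP Ψ (he n) (X (ten f ξ)) := by
    rw [← PP_ten hΨ (he_bm n) f]
    exact congrArg (fun T : L2R H →L[ℂ] L2R H => T (ten f ξ)) (comm_PP hΨ hc (he_bm n))
  have e2 : PP Ψ (ind (Set.Ico (-(n : ℝ)) n)) (X (ten f ξ)) = X (ten f ξ) := by
    have h3 : X (PP Ψ (ind (Set.Ico (-(n : ℝ)) n)) (ten f ξ)) =
        PP Ψ (ind (Set.Ico (-(n : ℝ)) n)) (X (ten f ξ)) :=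
      congrArg (fun T : L2R H →L[ℂ] L2R H => T (ten f ξ)) (comm_PP hΨ hc hbmI)
    have h4 : mulOp ℂ (ind (Set.Ico (-(n : ℝ)) n)) f = f := hf
    rw [← h3, PP_ten hΨ hbmI f, h4]
  have hRsymm : ∀ v w : H, ⟪R v, w⟫_ℂ = ⟪v, R w⟫_ℂ := by
    intro v w
    rw [← ContinuousLinearMap.adjoint_inner_right, ← ContinuousLinearMap.star_eq_adjoint,
      hΨ.data.R_star]
  have hrel : R ((slX X f' (mulOp ℂ (he n) f)) ξ) =
      (2 : ℂ) • (slX X (mulOp ℂ (he n) f') f) ξ - R ((slX X (mulOp ℂ (he n) f') f) ξ) := by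
    refine ext_inner_left ℂ fun v => ?_
    have h5 := PP_rel hΨ hf' v (X (ten f ξ))
    rw [e2, ← e1, ← inner_slX, ← inner_slX] at h5
    rw [← hRsymm, h5, inner_sub_left, inner_sub_right, inner_smul_left, inner_smul_right, hRsymm,
      Complex.conj_ofNat]
  have h6 := sesq hΨ (S.le _ hxN) (S.le _ hyN) (S.le _ hb) hrel
  rw [inner_slX] at h6
  rw [h6, inner_star_left, inner_slX]

end Pool.Agent.Helper23.ED

end

end

section

section

open scoped InnerProductSpace Topology BoundedContinuousFunction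

open ContinuousLinearMap Filter MeasureTheory

namespace Pool.Agent.Helper23

open Pool.Agent.Helper43.TTF

variable {H : Type*} [NormedAddCommGroup H] [InnerProductSpace ℂ H] [CompleteSpace H]

variable {M N : VonNeumannAlgebra H} {ξ : H} {E : (H →L[ℂ] H) → (H →L[ℂ] H)}

/-- MODULE TT-F -/
theorem Setting.exists_modular (S : Setting M N E ξ) :
    ∃ (R : H →L[ℂ] H) (D : H →L[ℝ] H) (Ψ : (ℝ →ᵇ ℂ) →⋆ₐ[ℂ] (H →L[ℂ] H)), Modular M ξ R D Ψ ∧
      ∀ (t : ℝ), ∀ a ∈ N, Ψ (expB t) * a * Ψ (expB (-t)) ∈ N := by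
  have h' := ttdata M ξ S.cyc S.sep
  obtain ⟨Ψ, h⟩ := exists_FC h'
  have hmod := modular_of h' S.cyc S.sep h
  refine ⟨_, _, Ψ, hmod, fun t a ha => ?_⟩
  set x := Ψ (expB t) * a * Ψ (expB (-t)) with hx
  have hxM : x ∈ M := hmod.mem t a (S.le a ha)
  have hcomm := h.psi_comm _ (p0_R S)
  have hxξ : x ξ = Ψ (expB t) (a ξ) := by
    rw [hx, mul_apply_eq_comp, mul_apply_eq_comp, hmod.psi_xi, Pool.Agent.Helper43.TTF.expB_apply, mul_zero,
      Complex.ofReal_zero, zero_mul, Complex.exp_zero, one_smul]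
  have h1 : p0 N ξ (x ξ) = x ξ := by
    have h2 := congrArg (fun T : H →L[ℂ] H => T (a ξ)) (hcomm (expB t))
    simp only [mul_apply_eq_comp] at h2
    rw [hxξ, h2, p0_of_mem (mem_K0 ha)]
  have h3 : (E x - x) ξ = 0 := by
    rw [sub_apply, ← E_apply S hxM, h1, sub_self]
  have h4 := S.sep _ (sub_mem (S.le _ (S.E_mem x hxM)) hxM) h3
  rw [← sub_eq_zero.1 h4]
  exact S.E_mem x hxM

end Pool.Agent.Helper23

end

section

open scoped InnerProductSpace Topology BoundedContinuousFunction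

open ContinuousLinearMap Filter MeasureTheory

set_option linter.unusedSectionVars false

namespace Pool.Agent.Helper23

universe u

variable {H : Type u} [NormedAddCommGroup H] [InnerProductSpace ℂ H] [CompleteSpace H]

variable {M N : VonNeumannAlgebra H} {ξ : H} {E : (H →L[ℂ] H) → (H →L[ℂ] H)}

/-- unitaries of `N` give exact elements of `GK` -/
theorem Setting.fco_mem_GK (S : Setting M N E ξ) {R : H →L[ℂ] H} {D : H →L[ℝ] H}
    {Ψ : (ℝ →ᵇ ℂ) →⋆ₐ[ℂ] (H →L[ℂ] H)} (hΨ : Modular M ξ R D Ψ)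
    (hN : ∀ (t : ℝ), ∀ a ∈ N, Ψ (expB t) * a * Ψ (expB (-t)) ∈ N)
    {u : H →L[ℂ] H} (hu : u ∈ N) (hu1 : star u * u = 1) (hu2 : u * star u = 1) :
    fco (fun t : ℝ => Ψ (expB (2 * Real.pi * t)) * u * Ψ (expB (-(2 * Real.pi * t)))) ∈
      GK N ξ := by
  refine GK_of_weak ?_ ?_ ?_ ?_
  · exact fco_mem_amp (hΨ.conj_dec u) fun t => hN _ _ hu
  · rw [hΨ.conj_star]
    exact hΨ.conj_isom hu1
  · rw [hΨ.conj_star]
    exact hΨ.conj_isom hu2
  · intro n f f' hf hf' b hb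
    exact hΨ.weak (S.le _ hu) (S.le b hb) hf hf'

end Pool.Agent.Helper23

end

section

open scoped InnerProductSpace Topology BoundedContinuousFunction

open ContinuousLinearMap Filter MeasureTheory

namespace Pool.Agent.Helper23

variable {H : Type*} [NormedAddCommGroup H] [InnerProductSpace ℂ H] [CompleteSpace H]

variable {M N : VonNeumannAlgebra H} {ξ : H} {E : (H →L[ℂ] H) → (H →L[ℂ] H)}

/-- U14: the slices of an element of the relative commutant -/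
theorem Setting.slX_shift_all (S : Setting M N E ξ) {X : L2R H →L[ℂ] L2R H} (hX : X ∈ Rk M N ξ)
    (f g : L2R ℂ) {l : ℝ} (hl : 0 < l) {a : ℕ → H →L[ℂ] H} (ha : LamSeq N ξ l a) (η : H) :
    Tendsto (fun n => (a n * slX X f g -
      slX X (tr ℂ (Real.log l) f) (tr ℂ (Real.log l) g) * a n) η) atTop (𝓝 0) := by
  obtain ⟨R, D, Ψ, hΨ, hN⟩ := S.exists_modular
  exact U14.shift_all S hΨ hN (fun u hu h1 h2 => S.fco_mem_GK hΨ hN hu h1 h2) hX f g ha
    (fun f => S.lamSeq_conj hΨ hl ha f) η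

theorem Setting.slX_shift (S : Setting M N E ξ) {X : L2R H →L[ℂ] L2R H} (hX : X ∈ Rk M N ξ)
    (f g : L2R ℂ) {l : ℝ} (hl : 0 < l) {a : ℕ → H →L[ℂ] H} (ha : LamSeq N ξ l a) :
    Tendsto (fun n => (a n * slX X f g -
      slX X (tr ℂ (Real.log l) f) (tr ℂ (Real.log l) g) * a n) ξ) atTop (𝓝 0) :=
  S.slX_shift_all hX f g hl ha ξ

theorem Setting.slX_bicent (S : Setting M N E ξ) {X : L2R H →L[ℂ] L2R H} (hX : X ∈ Rk M N ξ)
    (f g : L2R ℂ) : slX X f g ∈ Bicent M N ξ := by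
  refine ⟨slX_mem hX.1 f g, fun a ha η => ?_⟩
  have h1 := (S.slX_shift_all hX f g one_pos ha η).neg
  rw [neg_zero, Real.log_one, tr_zero] at h1
  refine h1.congr fun n => ?_
  rw [sub_apply, neg_sub]
  rfl

end Pool.Agent.Helper23

end

section

open scoped InnerProductSpace Topology ENNReal BoundedContinuousFunction

open ContinuousLinearMap Filter MeasureTheory

namespace Pool.Agent.Helper23

universe u

variable {H : Type u} [NormedAddCommGroup H] [InnerProductSpace ℂ H] [CompleteSpace H]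

variable {M N : VonNeumannAlgebra H} {ξ : H} {E : (H →L[ℂ] H) → (H →L[ℂ] H)}

theorem Setting.conjGK (S : Setting M N E ξ) : ConjGK N ξ := by
  obtain ⟨R, D, Ψ, hΨ, hN⟩ := S.exists_modular
  refine ⟨fco fun t : ℝ => Ψ (expB (2 * Real.pi * t)),
    fco fun t : ℝ => Ψ (expB (-(2 * Real.pi * t))), hΨ.W_star, hΨ.W_mul, hΨ.W_mul',
    fun u hu hu1 hu2 => ?_⟩
  rw [← hΨ.conj_eq]
  exact S.fco_mem_GK hΨ hN hu hu1 hu2

end Pool.Agent.Helper23

end

section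

open scoped InnerProductSpace Topology ENNReal BoundedContinuousFunction

open ContinuousLinearMap Filter MeasureTheory

namespace Pool.Agent.Helper23.ED

open Pool.Agent.Helper23 Pool.Agent.Helper23.RBF

open Pool.Agent.Helper78.BC.Transport (Sub r)

universe u

variable {H : Type*} [NormedAddCommGroup H] [InnerProductSpace ℂ H] [CompleteSpace H]

variable {M N : VonNeumannAlgebra H} {ξ : H} {E : (H →L[ℂ] H) → (H →L[ℂ] H)}

lemma RkB_star {R : H →L[ℂ] H} {D : H →L[ℝ] H}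
    {Ψ : (ℝ →ᵇ ℂ) →⋆ₐ[ℂ] (H →L[ℂ] H)} (hΨ : Modular M ξ R D Ψ)
    (hN : ∀ (t : ℝ), ∀ a ∈ N, Ψ (expB t) * a * Ψ (expB (-t)) ∈ N)
    {X : L2R H →L[ℂ] L2R H} (hX : X ∈ Rk1 M N Ψ) : star X ∈ Rk1 M N Ψ := by
  refine ⟨star_mem hX.1, fun m hm h1 => ?_, fun u hu h1 h2 => ?_⟩
  · have hm1 := mulOp_mem_GK (ξ := ξ) M hm h1
    exact RkB_star_aux hm1.2.1 hm1.2.2.1 (hX.2.1 m hm h1)
  · have h3 := fcn_unit hΨ hN hu h1 h2
    exact RkB_star_aux h3.2.1 h3.2.2 (hX.2.2 u hu h1 h2)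

lemma RkB_piU (S : BFlow M N E ξ) {R : H →L[ℂ] H} {D : H →L[ℝ] H}
    {Ψ : (ℝ →ᵇ ℂ) →⋆ₐ[ℂ] (H →L[ℂ] H)} (hΨ : Modular M ξ R D Ψ)
    (hN : ∀ (t : ℝ), ∀ a ∈ N, Ψ (expB t) * a * Ψ (expB (-t)) ∈ N)
    {y : H →L[ℂ] H} (hy : y ∈ Bicent M N ξ) : piU M N ξ y ∈ Rk1 M N Ψ :=
  ⟨S.piU_mem hy, fun _ hm h1 => S.comm_of_bicent (mulOp_mem_GK N hm h1) hy,
    fun _ hu h1 h2 => S.comm_of_bicent (S.toSetting.fco_mem_GK hΨ hN hu h1 h2) hy⟩

section main

variable (S : BFlow M N E ξ) {R : H →L[ℂ] H} {D : H →L[ℝ] H}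
    {Ψ : (ℝ →ᵇ ℂ) →⋆ₐ[ℂ] (H →L[ℂ] H)} (hΨ : Modular M ξ R D Ψ)
    (hN : ∀ (t : ℝ), ∀ a ∈ N, Ψ (expB t) * a * Ψ (expB (-t)) ∈ N)

include S hΨ hN

lemma RkB_scalar {Z : L2R H →L[ℂ] L2R H} (hZ : Z ∈ Rk1 M N Ψ) : ∃ c : ℂ, ∀ f1 f2 : L2R ℂ,
    ⟪ten f1 ξ, Z (ten f2 ξ)⟫_ℂ = c * ⟪f1, f2⟫_ℂ := by
  obtain ⟨c, hc⟩ := scalar_of_comm (R := RR Z ξ ξ) (by
    intro m hm f
    refine ext_inner_left ℂ fun g => ?_
    rw [inner_RR, ← mulOp_adj hm, inner_RR, ← mulOp_ten hm, ← RkB_mulOp_apply' hZ hm,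
      ← mulOp_adj hm, mulOp_ten hm.conj]) (by
    intro t f
    refine ext_inner_left ℂ fun g => ?_
    have h1 : ⟪g, tr ℂ t (RR Z ξ ξ f)⟫_ℂ = ⟪tr ℂ (-t) g, RR Z ξ ξ f⟫_ℂ := by
      rw [tr_adj, neg_neg]
    rw [h1, inner_RR, inner_RR, ← inner_slX, ← inner_slX]
    have h2 := (Rk1_slX S hΨ hN hZ (tr ℂ (-t) g) f).2 _ (Real.exp_pos t)
    rw [Real.log_exp, tr_tr_neg] at h2
    rw [← h2, S.bt_state _ (Rk1_slX S hΨ hN hZ _ _).1 _ (Real.exp_pos t)])
  refine ⟨c, fun f1 f2 => ?_⟩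
  rw [← inner_RR, hc, smul_apply, inner_smul_right]
  rfl

lemma RkB_scalar' {Z : L2R H →L[ℂ] L2R H} (hZ : Z ∈ Rk1 M N Ψ) {f : L2R ℂ} (hf : ‖f‖ = 1)
    (f1 f2 : L2R ℂ) :
    ⟪ten f1 ξ, Z (ten f2 ξ)⟫_ℂ = ⟪ten f ξ, Z (ten f ξ)⟫_ℂ * ⟪f1, f2⟫_ℂ := by
  obtain ⟨c, hc⟩ := RkB_scalar S hΨ hN hZ
  rw [hc, hc, inner_self_eq_norm_sq_to_K (𝕜 := ℂ) f, hf]
  simp

lemma RkB_eq_zero {X : L2R H →L[ℂ] L2R H} (hX : X ∈ Rk1 M N Ψ)
    (h : ∀ y, y ∈ Bicent M N ξ → ∀ f1 f2 : L2R ℂ,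
      ⟪piU M N ξ y (ten f1 ξ), X (ten f2 ξ)⟫_ℂ = 0) : X = 0 := by
  refine amp_ext (ξ := ξ) S.dense_comm hX.1 (zero_mem _) fun f2 => ?_
  rw [zero_apply]
  refine eq_zero_of_ten fun f1 η => ?_
  have h1 := S.orthogonal_of_piU (fun y hy f => h y hy f f2) (Rk1_slX S hΨ hN hX f1 f2).1 f1
  rw [← inner_slX, inner_self_eq_zero] at h1
  rw [← inner_slX, h1, inner_zero_right]

end main

theorem Rk1_sur (S : BFlow M N E ξ) {R : H →L[ℂ] H} {D : H →L[ℝ] H}
    {Ψ : (ℝ →ᵇ ℂ) →⋆ₐ[ℂ] (H →L[ℂ] H)} (hΨ : Modular M ξ R D Ψ)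
    (hN : ∀ (t : ℝ), ∀ a ∈ N, Ψ (expB t) * a * Ψ (expB (-t)) ∈ N)
    {X : L2R H →L[ℂ] L2R H} (hX : X ∈ Rk1 M N Ψ) :
    ∃ x, x ∈ Bicent M N ξ ∧ X = piU M N ξ x := by
  -- the space of the bicentralizer
  set Bs : Submodule ℂ (H →L[ℂ] H) :=
    { carrier := {x | x ∈ Bicent M N ξ}
      add_mem' := fun hx hy => AP.bicent_add hx hy
      zero_mem' := bicent_zero
      smul_mem' := fun c x hx => AP.bicent_smul c hx } with hBs
  set V : Submodule ℂ H := (Bs.map (evξ ξ)).topologicalClosure with hV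
  have hVc : IsClosed (V : Set H) := Submodule.isClosed_topologicalClosure _
  have : CompleteSpace V := hVc.completeSpace_coe
  have hBV : ∀ y, y ∈ Bicent M N ξ → y ξ ∈ V := fun y hy =>
    Submodule.le_topologicalClosure _ ⟨y, hy, rfl⟩
  have hVcl : ∀ v ∈ V, v ∈ closure {v : H | ∃ y ∈ Bicent M N ξ, v = y ξ} := by
    intro v hv
    have h1 : (V : Set H) = closure ((Bs.map (evξ ξ) : Submodule ℂ H) : Set H) :=
      Submodule.topologicalClosure_coe _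
    have h2 : v ∈ closure ((Bs.map (evξ ξ) : Submodule ℂ H) : Set H) := by
      rw [← h1]; exact hv
    refine closure_mono ?_ h2
    rintro _ ⟨y, hy, rfl⟩
    exact ⟨y, hy, rfl⟩
  set e : Bs →ₗ[ℂ] V :=
    { toFun := fun y => ⟨(y : H →L[ℂ] H) ξ, hBV _ y.2⟩
      map_add' := fun _ _ => rfl
      map_smul' := fun _ _ => rfl } with he
  set f : Bs →ₗ[ℂ] L2R H :=
    { toFun := fun y => piU M N ξ (y : H →L[ℂ] H) (ten e0 ξ)
      map_add' := fun y z => by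
        change piU M N ξ ((y : H →L[ℂ] H) + z) _ = _
        rw [S.piU_add y.2 z.2]; rfl
      map_smul' := fun c y => by
        change piU M N ξ (c • (y : H →L[ℂ] H)) _ = _
        rw [S.piU_smul c y.2]; rfl } with hf
  have hed : DenseRange e := by
    intro v
    rw [Metric.mem_closure_iff]
    intro ε hε
    obtain ⟨w, ⟨y, hy, rfl⟩, hw⟩ := Metric.mem_closure_iff.1 (hVcl v.1 v.2) ε hε
    exact ⟨e ⟨y, hy⟩, ⟨_, rfl⟩, hw⟩
  have he0 : ⟪e0, e0⟫_ℂ = 1 := by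
    rw [inner_self_eq_norm_sq_to_K, e0_norm]; simp
  obtain ⟨z, hz, -⟩ := exists_ext' f e hed (C := 1) zero_le_one (by
    intro y
    rw [one_mul]
    have h1 := S.inner_piU_ten y.2 y.2 e0 e0
    rw [he0, mul_one, inner_self_eq_norm_sq_to_K, inner_self_eq_norm_sq_to_K] at h1
    have h2 : ‖piU M N ξ (y : H →L[ℂ] H) (ten e0 ξ)‖ ^ 2 = ‖(y : H →L[ℂ] H) ξ‖ ^ 2 := by
      exact_mod_cast h1
    exact ((pow_left_inj₀ (norm_nonneg _) (norm_nonneg _) two_ne_zero).1 h2).le)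
  set η₀ : H := (((adjoint z) (X (ten e0 ξ)) : V) : H) with hη₀
  have hη₀V : η₀ ∈ V := ((adjoint z) (X (ten e0 ξ))).2
  have hpair : ∀ y, y ∈ Bicent M N ξ → ⟪y ξ, η₀⟫_ℂ = ⟪piU M N ξ y (ten e0 ξ), X (ten e0 ξ)⟫_ℂ := by
    intro y hy
    have h1 : ⟪e ⟨y, hy⟩, (adjoint z) (X (ten e0 ξ))⟫_ℂ = ⟪z (e ⟨y, hy⟩), X (ten e0 ξ)⟫_ℂ :=
      adjoint_inner_right _ _ _
    rw [hz] at h1
    exact h1
  -- the approximating sequence
  set x : ℕ → H →L[ℂ] H := fun n => slX X (fn n) (fn n) with hx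
  have hxB : ∀ n, x n ∈ Bicent M N ξ := fun n => (Rk1_slX S hΨ hN hX _ _).1
  have hxn : ∀ n η, ‖x n η‖ ≤ ‖X‖ * ‖η‖ := by
    intro n η
    have h1 := slX_norm_sub X (fn n) (fn n) 0 0 η
    have h2 : slX X (0 : L2R ℂ) 0 η = 0 := by
      rw [slX_apply]
      have : ten (0 : L2R ℂ) η = 0 := map_zero (axi η)
      rw [this, map_zero, map_zero]
    rw [h2, sub_zero, sub_zero, norm_zero, zero_mul, add_zero, fn_norm, one_mul, mul_one] at h1
    exact h1
  -- weak convergence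
  have hw1 : ∀ y, y ∈ Bicent M N ξ → Tendsto (fun n => ⟪y ξ, x n ξ⟫_ℂ) atTop
      (𝓝 ⟪y ξ, η₀⟫_ℂ) := by
    intro y hy
    have hZ : star (piU M N ξ y) * X ∈ Rk1 M N Ψ :=
      RkB_mul (RkB_star hΨ hN (RkB_piU S hΨ hN hy)) hX
    have h1 : ∀ n, ⟪y ξ, x n ξ⟫_ℂ = ⟪y ξ, η₀⟫_ℂ +
        ⟪ten (fn n) (y ξ) - piU M N ξ y (ten (fn n) ξ), X (ten (fn n) ξ)⟫_ℂ := by
      intro n
      have h2 := RkB_scalar' S hΨ hN hZ e0_norm (fn n) (fn n)
      have h3 : ⟪fn n, fn n⟫_ℂ = 1 := by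
        rw [inner_self_eq_norm_sq_to_K, fn_norm]; simp
      rw [h3, mul_one] at h2
      change ⟪_, (star (piU M N ξ y)) (X (ten (fn n) ξ))⟫_ℂ =
        ⟪_, (star (piU M N ξ y)) (X (ten e0 ξ))⟫_ℂ at h2
      rw [inner_star_right, inner_star_right, ← hpair y hy] at h2
      rw [inner_sub_left, h2, hx]
      simp only [inner_slX]
      ring
    simp only [h1]
    have h4 : Tendsto (fun n => ⟪ten (fn n) (y ξ) - piU M N ξ y (ten (fn n) ξ),
        X (ten (fn n) ξ)⟫_ℂ) atTop (𝓝 0) := by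
      rw [tendsto_zero_iff_norm_tendsto_zero]
      have h5 := (S.piU_fn hy).mul_const (‖X‖ * ‖ξ‖)
      rw [zero_mul] at h5
      refine squeeze_zero (fun _ => norm_nonneg _) (fun n => ?_) h5
      refine (norm_inner_le_norm _ _).trans ?_
      gcongr
      refine (X.le_opNorm _).trans ?_
      rw [norm_ten, fn_norm, one_mul]
    have := h4.const_add ⟪y ξ, η₀⟫_ℂ
    rwa [add_zero] at this
  have hbd : ∀ n, ‖x n ξ - η₀‖ ≤ ‖X‖ * ‖ξ‖ + ‖η₀‖ := fun n =>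
    (norm_sub_le _ _).trans (add_le_add (hxn n ξ) le_rfl)
  have hw2 : ∀ v ∈ V, Tendsto (fun n => ⟪v, x n ξ - η₀⟫_ℂ) atTop (𝓝 0) := by
    intro v hv
    rw [Metric.tendsto_atTop]
    intro ε hε
    set K : ℝ := ‖X‖ * ‖ξ‖ + ‖η₀‖ + 1 with hK
    have hK0 : 0 < K := by (clear * -; positivity)
    obtain ⟨w, ⟨y, hy, rfl⟩, hw⟩ := Metric.mem_closure_iff.1 (hVcl v hv) (ε / (2 * K))
      (by (clear * - hε; positivity))
    have h1 := hw1 y hy
    rw [Metric.tendsto_atTop] at h1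
    obtain ⟨n0, hn0⟩ := h1 (ε / 2) (by positivity)
    refine ⟨n0, fun n hn => ?_⟩
    have h2 := hn0 n hn
    rw [dist_eq_norm, ← inner_sub_right] at h2
    rw [dist_zero_right]
    have h3 : ⟪v, x n ξ - η₀⟫_ℂ = ⟪v - y ξ, x n ξ - η₀⟫_ℂ + ⟪y ξ, x n ξ - η₀⟫_ℂ := by
      rw [inner_sub_left]; ring
    rw [h3]
    rw [dist_eq_norm] at hw
    calc _ ≤ ‖⟪v - y ξ, x n ξ - η₀⟫_ℂ‖ + ‖⟪y ξ, x n ξ - η₀⟫_ℂ‖ := norm_add_le _ _
      _ ≤ ‖v - y ξ‖ * ‖x n ξ - η₀‖ + ‖⟪y ξ, x n ξ - η₀⟫_ℂ‖ := by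
          gcongr
          exact norm_inner_le_norm _ _
      _ ≤ (ε / (2 * K)) * K + ‖⟪y ξ, x n ξ - η₀⟫_ℂ‖ := by
          gcongr
          exact (hbd n).trans (by rw [hK]; (clear * -; linarith))
      _ < (ε / (2 * K)) * K + ε / 2 := by (clear * - h2; linarith)
      _ = ε := by field_simp; ring
  have hw3 : ∀ ζ : H, Tendsto (fun n => ⟪ζ, x n ξ⟫_ℂ) atTop (𝓝 ⟪ζ, η₀⟫_ℂ) := by
    intro ζ
    have h1 := hw2 (V.starProjection ζ) (Submodule.starProjection_apply_mem _ _)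
    have h2 : ∀ n, ⟪ζ, x n ξ⟫_ℂ = ⟪ζ, η₀⟫_ℂ + ⟪V.starProjection ζ, x n ξ - η₀⟫_ℂ := by
      intro n
      rw [Submodule.inner_starProjection_left_eq_right,
        Submodule.starProjection_eq_self_iff.2 (V.sub_mem (hBV _ (hxB n)) hη₀V),
        inner_sub_right]
      ring
    simp only [h2]
    have := h1.const_add ⟪ζ, η₀⟫_ℂ
    rwa [add_zero] at this
  -- the limit operator
  have hbound : ∀ m ∈ M.commutant, ‖m η₀‖ ≤ ‖X‖ * ‖m ξ‖ := by
    intro m hm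
    have h1 := hw3 ((star m) (m η₀))
    have h2 : ∀ n, ‖⟪(star m) (m η₀), x n ξ⟫_ℂ‖ ≤ ‖m η₀‖ * (‖X‖ * ‖m ξ‖) := by
      intro n
      rw [inner_star_left, ← commute_apply (hxB n).1 hm]
      exact (norm_inner_le_norm _ _).trans (by gcongr; exact hxn n _)
    have h3 := le_of_tendsto h1.norm (Eventually.of_forall h2)
    rw [inner_star_left, inner_self_eq_norm_sq_to_K] at h3
    have h4 : ‖m η₀‖ ^ 2 ≤ ‖m η₀‖ * (‖X‖ * ‖m ξ‖) := by
      simpa using h3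
    by_contra hcon
    push Not at hcon
    have h5 : 0 ≤ ‖X‖ * ‖m ξ‖ := by (clear * -; positivity)
    (clear * - h4 hcon h5; nlinarith [norm_nonneg (m η₀)])
  obtain ⟨x₀, hx₀, hx₀eq, -⟩ := exists_op M.commutant (norm_nonneg X) S.dense_comm hbound
  rw [VonNeumannAlgebra.commutant_commutant] at hx₀
  have hx₀ξ : x₀ ξ = η₀ := by
    have := hx₀eq 1 (one_mem _)
    simpa using this
  have hB : x₀ ∈ Bicent M N ξ := S.bicent_of_closure hx₀ (by rw [hx₀ξ]; exact hVcl _ hη₀V)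
  refine ⟨x₀, hB, ?_⟩
  rw [← sub_eq_zero]
  refine RkB_eq_zero S hΨ hN (RkB_sub hX (RkB_piU S hΨ hN hB)) fun y hy f1 f2 => ?_
  have hZ : star (piU M N ξ y) * X ∈ Rk1 M N Ψ :=
      RkB_mul (RkB_star hΨ hN (RkB_piU S hΨ hN hy)) hX
  have h2 := RkB_scalar' S hΨ hN hZ e0_norm f1 f2
  change ⟪_, (star (piU M N ξ y)) (X (ten f2 ξ))⟫_ℂ =
    ⟪_, (star (piU M N ξ y)) (X (ten e0 ξ))⟫_ℂ * _ at h2
  rw [inner_star_right, inner_star_right, ← hpair y hy] at h2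
  rw [sub_apply, inner_sub_right, h2, S.inner_piU_ten hB hy, hx₀ξ, sub_self]

end Pool.Agent.Helper23.ED

end

end

section

section

open scoped InnerProductSpace Topology ENNReal

open ContinuousLinearMap Filter MeasureTheory

namespace Pool.Agent.Helper23

variable {H : Type*} [NormedAddCommGroup H] [InnerProductSpace ℂ H] [CompleteSpace H]

variable {M N : VonNeumannAlgebra H} {ξ : H} {E : (H →L[ℂ] H) → (H →L[ℂ] H)}

namespace BFlow

variable (S : BFlow M N E ξ)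

include S

lemma tr_piU {x : H →L[ℂ] H} (hx : x ∈ Bicent M N ξ) {l : ℝ} (hl : 0 < l) :
    tr H (-Real.log l) * piU M N ξ x * star (tr H (-Real.log l)) =
      piU M N ξ (btU M N ξ l x) := by
  rw [tr_star, neg_neg]
  ext F : 1
  change tr H (-Real.log l) (piU M N ξ x (tr H (Real.log l) F)) = _
  ext1
  filter_upwards [tr_coe (-Real.log l) (piU M N ξ x (tr H (Real.log l) F)),
    ae_tr (-Real.log l) (S.piU_coe hx (tr H (Real.log l) F)),
    ae_tr (-Real.log l) (tr_coe (Real.log l) F),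
    S.piU_coe (S.bt_mem _ hx _ hl) F] with s h1 h2 h3 h4
  rw [h1, h2, h3, h4, S.bt_bt _ hx _ (Real.exp_pos s) _ hl, sub_neg_eq_add, Real.exp_add,
    Real.exp_log hl, add_sub_cancel_right]

end BFlow

end Pool.Agent.Helper23

end

end

section

section

open scoped InnerProductSpace Topology ENNReal BoundedContinuousFunction

open ContinuousLinearMap Filter MeasureTheory

namespace Pool.Agent.Helper23.ED

open Pool.Agent.Helper23 Pool.Agent.Helper23.RBF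

open Pool.Agent.Helper78.BC.Transport (Sub r)

universe u

variable {H : Type*} [NormedAddCommGroup H] [InnerProductSpace ℂ H] [CompleteSpace H]

variable {M N : VonNeumannAlgebra H} {ξ : H} {E : (H →L[ℂ] H) → (H →L[ℂ] H)}

theorem main_of_W (S : BFlow M N E ξ) {R : H →L[ℂ] H} {D : H →L[ℝ] H}
    {Ψ : (ℝ →ᵇ ℂ) →⋆ₐ[ℂ] (H →L[ℂ] H)} (hΨ : Modular M ξ R D Ψ)
    (hN : ∀ (t : ℝ), ∀ a ∈ N, Ψ (expB t) * a * Ψ (expB (-t)) ∈ N)
    {ψ : (H →L[ℂ] H) → ℝ≥0∞} {c : ℝ → H →L[ℂ] H} (hc : Coc N (fun t => Ψ (expB t)) ψ c)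
    (W : H ≃ₗᵢ[ℂ] L2R H) (hW : ∀ a ∈ N.commutant, ∀ x, W (a x) = lift a (W x))
    (hWc : ∀ t x, W (c t (Ψ (expB t) x)) = UV (fun t => Ψ (expB t)) t (W x)) :
    ∃ π : (H →L[ℂ] H) → (H →L[ℂ] H), IsStarIso S.Balg (Calg M N ψ) π ∧
      BoundedStronglyContinuous S.Balg π ∧ IntertwinesFlows N ψ S.Balg (btU M N ξ) π ∧
      ∀ x ∈ S.Balg, E (π x) = ⟪ξ, x ξ⟫_ℂ • (1 : H →L[ℂ] H) := by
  classical
  set V : ℝ → H →L[ℂ] H := fun t => Ψ (expB t) with hV
  have hN' : ∀ x, x ∈ N ↔ W.conjStarAlgEquiv x ∈ amp N := conj_mem_amp hW fun a ha => ha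
  have hM : ∀ x, x ∈ M ↔ W.conjStarAlgEquiv x ∈ amp M := conj_mem_amp hW fun a ha => S.comm_le ha
  have hinj : Function.Injective ⇑W.conjStarAlgEquiv := EquivLike.injective _
  have e1 : ∀ X, W.conjStarAlgEquiv (W.conjStarAlgEquiv.symm X) = X :=
    W.conjStarAlgEquiv.apply_symm_apply
  have hcV : ∀ t, W.conjStarAlgEquiv (c t * V t) = UV V t := by
    intro t
    ext F : 1
    rw [LinearIsometryEquiv.conjStarAlgEquiv_apply_apply]
    have h1 := hWc t (W.symm F)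
    rw [W.apply_symm_apply] at h1
    exact h1
  -- scaling unitaries
  have hsc : ∀ l u, 0 < l → (ScalingUnitary N ψ l u ↔
      MnA.SU N V (Real.log l) (W.conjStarAlgEquiv u)) := by
    intro l u hl
    have h0 : u ∈ N → star u * u = 1 → u * star u = 1 → (ScalingUnitary N ψ l u ↔
        ∀ a, W.conjStarAlgEquiv u * UV V a = ph a (Real.log l) •
          (UV V a * W.conjStarAlgEquiv u)) := by
      intro h1 h2 h3
      rw [hc.scal u h1 h2 h3 l hl]
      refine forall_congr' fun t => ?_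
      rw [← hcV t, ← map_mul, ← map_mul, ← map_smul]
      exact hinj.eq_iff.symm
    constructor
    · intro h
      refine ⟨(hN' u).1 h.1, ?_, ?_, (h0 h.1 h.2.1 h.2.2.1).1 h⟩
      · rw [← map_star, ← map_mul, h.2.1, map_one]
      · rw [← map_star, ← map_mul, h.2.2.1, map_one]
    · rintro ⟨h1, h2, h3, h4⟩
      rw [← map_star, ← map_mul] at h2 h3
      exact (h0 ((hN' u).2 h1) (hinj (h2.trans (map_one _).symm))
        (hinj (h3.trans (map_one _).symm))).2 h4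
  have hGK : ∀ U, MnA.SU N V 0 U → U ∈ GK N ξ := by
    rintro U ⟨h1, h2, h3, h4⟩
    refine GK_of_comm S.toSetting hΨ h1 h2 h3 fun a => ?_
    have h5 := h4 a
    rw [MnA.ph_zero_right, one_smul] at h5
    exact h5
  have hC : ∀ x, x ∈ Calg M N ψ ↔ ∃ y, y ∈ Bicent M N ξ ∧ W.conjStarAlgEquiv x = piU M N ξ y := by
    intro x
    rw [mem_Calg x, hM x]
    constructor
    · rintro ⟨h1, h2⟩
      have h3 : ∀ U, MnA.SU N V 0 U → U * W.conjStarAlgEquiv x = W.conjStarAlgEquiv x * U := by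
        intro U hU
        have h3 := h2 (W.conjStarAlgEquiv.symm U) ((hsc 1 _ one_pos).2 (by
          rw [e1, Real.log_one]; exact hU))
        have h4 := congrArg W.conjStarAlgEquiv h3
        rwa [map_mul, map_mul, e1] at h4
      refine Rk1_sur S hΨ hN ⟨h1, fun m hm hm1 => ?_, fun u hu hu1 hu2 => ?_⟩
      · obtain ⟨h5, h6⟩ := MnA.mulOp_unit (H := H) hm hm1
        refine h3 _ ⟨mulOp_mem_amp hm, h5, h6, fun a => ?_⟩
        rw [MnA.ph_zero_right, one_smul]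
        exact mulOp_UV V hm a
      · obtain ⟨h4, h5, h6⟩ := fcn_unit hΨ hN hu hu1 hu2
        refine h3 _ ⟨h4, h5, h6, fun a => ?_⟩
        rw [MnA.ph_zero_right, one_smul]
        exact fcn_comm hΨ u a
    · rintro ⟨y, hy, hxy⟩
      refine ⟨by rw [hxy]; exact S.piU_mem hy, fun u hu => ?_⟩
      apply hinj
      rw [map_mul, map_mul, hxy]
      have h1 := (hsc 1 u one_pos).1 hu
      rw [Real.log_one] at h1
      exact S.comm_of_bicent (hGK _ h1) hy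
  have hmemC : ∀ x ∈ S.Balg, W.conjStarAlgEquiv.symm (piU M N ξ x) ∈ Calg M N ψ := by
    intro x hx
    rw [hC, e1]
    exact ⟨x, hx, rfl⟩
  refine ⟨fun x => W.conjStarAlgEquiv.symm (piU M N ξ x), ?_, ?_, ?_, ?_⟩
  · refine ⟨hmemC, fun x hx y hy hxy => ?_, fun X hX => ?_, fun x hx y hy => ?_,
      fun x hx y hy => ?_, fun c x hx => ?_, fun x hx => ?_⟩
    · refine S.piU_inj hx hy ?_
      have h1 := congrArg W.conjStarAlgEquiv hxy
      rwa [e1, e1] at h1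
    · obtain ⟨x, hx, hxX⟩ := (hC X).1 hX
      refine ⟨x, hx, ?_⟩
      apply hinj
      rw [e1]
      exact hxX.symm
    · change W.conjStarAlgEquiv.symm (piU M N ξ (x + y)) = _
      rw [S.piU_add hx hy, map_add]
    · change W.conjStarAlgEquiv.symm (piU M N ξ (x * y)) = _
      rw [S.piU_mul hx hy, map_mul]
    · change W.conjStarAlgEquiv.symm (piU M N ξ (c • x)) = _
      rw [S.piU_smul c hx, map_smul]
    · change W.conjStarAlgEquiv.symm (piU M N ξ (star x)) = _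
      rw [S.piU_star hx, map_star]
  · intro F x hx C hbd hcv η
    have hbd1 : ∀ᶠ y in F, y ∈ Bicent M N ξ := hbd.mono fun y hy => hy.1
    have hcongr : ∀ᶠ y in F, (if y ∈ Bicent M N ξ then y else x) = y :=
      hbd1.mono fun y hy => if_pos hy
    have h1 := S.piU_tendsto (F := F) (z := fun y => if y ∈ Bicent M N ξ then y else x) (x := x)
      (C := C) (fun y => by
        by_cases h : y ∈ Bicent M N ξ
        · simp only [if_pos h]; exact h
        · simp only [if_neg h]; exact hx) hx (by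
        filter_upwards [hbd, hcongr] with y h1 h2
        rw [h2]; exact h1.2) (by
        refine (hcv ξ).congr' ?_
        filter_upwards [hcongr] with y h2
        rw [h2]) (W η)
    simp only [LinearIsometryEquiv.symm_conjStarAlgEquiv_apply_apply]
    refine (W.symm.continuous.tendsto _).comp ?_
    refine h1.congr' ?_
    filter_upwards [hcongr] with y h2
    rw [h2]
  · intro l hl u hu x hx
    apply hinj
    rw [map_mul, map_mul, map_star, e1, e1, ← S.tr_piU hx hl]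
    set T := tr H (-Real.log l) with hT
    set U := W.conjStarAlgEquiv u with hU
    have hTs0 : ScalingUnitary (amp N) (wK ξ) l T := tr_scaling hl
    have hTs : MnA.SU N V (Real.log l) T :=
      ⟨hTs0.1, hTs0.2.1, hTs0.2.2.1, fun a => tr_UV V (Real.log l) a⟩
    have hUs : MnA.SU N V (Real.log l) U := (hsc l u hl).1 hu
    have hG : star T * U ∈ GK N ξ := by
      obtain ⟨h1, h2, h3⟩ := MnA.quot_unit hTs hUs
      exact GK_of_comm S.toSetting hΨ h1 h2 h3 fun a => MnA.quot_comm hTs hUs a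
    have hcomm := S.comm_of_bicent hG hx
    have hTU : T * (star T * U) = U := by rw [← mul_assoc, hTs.2.2.1, one_mul]
    have h1 : U * piU M N ξ x * star U =
        T * ((star T * U) * piU M N ξ x) * star U := by
      rw [← mul_assoc, hTU]
    rw [h1, hcomm]
    have h2 : star T * U * star U = star T := by rw [mul_assoc, hUs.2.2.1, mul_one]
    calc T * piU M N ξ x * star T =
        T * piU M N ξ x * (star T * U * star U) := by rw [h2]
      _ = _ := by simp only [mul_assoc]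
  · intro x hx
    set y := W.conjStarAlgEquiv.symm (piU M N ξ x) with hy
    have hyM : y ∈ M := ((mem_Calg y).1 (hmemC x hx)).1
    have hK : ∀ k ∈ K0 N ξ, ∀ᵐ s, W k s ∈ K0 N ξ := by
      intro k hk
      set P := (K0 N ξ).starProjection with hP
      have hPN : P ∈ N.commutant := proj_orb_mem N ξ
      have h1 : lift P (W k) = W k := by
        rw [← hW P hPN, Submodule.starProjection_eq_self_iff.2 hk]
      have h2 := lift_coe P (W k)
      rw [h1] at h2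
      filter_upwards [h2] with s hs
      rw [hs]
      exact Submodule.starProjection_apply_mem _ _
    have hin : ∀ k ∈ K0 N ξ, ∀ k' ∈ K0 N ξ, ⟪k, y k'⟫_ℂ =
        ⟪ξ, x ξ⟫_ℂ * ⟪k, k'⟫_ℂ := by
      intro k hk k' hk'
      have h1 := S.inner_piU hx AP.bicent_one (hK k hk) (hK k' hk')
      rw [S.piU_one, one_apply_eq_self, one_apply_eq_self, W.inner_map_map] at h1
      rw [← h1, hy, LinearIsometryEquiv.symm_conjStarAlgEquiv_apply_apply]
      have h2 := W.symm.inner_map_map (W k) (piU M N ξ x (W k'))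
      rw [W.symm_apply_apply] at h2
      exact h2
    have hxi : ξ ∈ K0 N ξ := S.xi_mem_K0
    set c : ℂ := ⟪ξ, x ξ⟫_ℂ with hc
    have hEN : E y ∈ N := S.E_mem y hyM
    have hz : E y - c • (1 : H →L[ℂ] H) ∈ N := sub_mem hEN (smul_mem' _ (one_mem N))
    set z := E y - c • (1 : H →L[ℂ] H) with hzdef
    have h0 : ⟪z ξ, z ξ⟫_ℂ = 0 := by
      have h1 : z ξ = E y ξ - c • ξ := rfl
      have h2 := S.E_inner hz (one_mem N) hyM
      rw [one_apply_eq_self] at h2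
      have h3 := hin (z ξ) (mem_K0 hz) ξ hxi
      calc ⟪z ξ, z ξ⟫_ℂ = ⟪z ξ, E y ξ - c • ξ⟫_ℂ := rfl
        _ = 0 := by rw [inner_sub_right, h2, h3, inner_smul_right, sub_self]
    have hz0 : z = 0 := S.sep z (S.le z hz) (inner_self_eq_zero.1 h0)
    exact sub_eq_zero.1 hz0

end Pool.Agent.Helper23.ED

end

end
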