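import Pool.Agent.Helper23.FB.L02_a0
import Pool.Agent.Helper23.FB.L02_a1
import Pool.Agent.Helper23.FB.L02_a10
import Pool.Agent.Helper23.FB.L02_a2
import Pool.Agent.Helper23.FB.L02_a3
import Pool.Agent.Helper23.FB.L02_a4
import Pool.Agent.Helper23.FB.L02_a5
import Pool.Agent.Helper23.FB.L02_a6
import Pool.Agent.Helper23.FB.L02_a7
import Pool.Agent.Helper23.FB.L02_a8
import Pool.Agent.Helper23.FB.L02_a9

/-!
Parts of Helper23.FA.L02_02, Helper23.FA.L02_11, Helper23.FA.L02_05, Helper23.FA.L03_01, Helper23.FA.L03_02, Helper23.FA.L03_04, Helper23.FA.L04_01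
-/

attribute [local instance 5000]
  Pool.Agent.Helper23.FB.Inst.rCharZero Pool.Agent.Helper23.FB.Inst.rALM
  Pool.Agent.Helper23.FB.Inst.rARM Pool.Agent.Helper23.FB.Inst.rALSM
  Pool.Agent.Helper23.FB.Inst.rARSM Pool.Agent.Helper23.FB.Inst.rARRLE
  Pool.Agent.Helper23.FB.Inst.rALRLE Pool.Agent.Helper23.FB.Inst.rARRLT
  Pool.Agent.Helper23.FB.Inst.rALRLT Pool.Agent.Helper23.FB.Inst.rPMRLT
  Pool.Agent.Helper23.FB.Inst.rMPRLT Pool.Agent.Helper23.FB.Inst.rPMM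
  Pool.Agent.Helper23.FB.Inst.rMPM Pool.Agent.Helper23.FB.Inst.rPMSM
  Pool.Agent.Helper23.FB.Inst.rMPSM Pool.Agent.Helper23.FB.Inst.rEAOL
  Pool.Agent.Helper23.FB.Inst.rIOR Pool.Agent.Helper23.FB.Inst.rISOR
  Pool.Agent.Helper23.FB.Inst.rFS Pool.Agent.Helper23.FB.Inst.rcCharZero
  Pool.Agent.Helper23.FB.Inst.rNZD Pool.Agent.Helper23.FB.Inst.rcNZD
  Pool.Agent.Helper23.FB.Inst.bSemiring Pool.Agent.Helper23.FB.Inst.bStar
  Pool.Agent.Helper23.FB.Inst.bAlg Pool.Agent.Helper23.FB.Inst.bSub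
  Pool.Agent.Helper23.FB.Inst.bMul Pool.Agent.Helper23.FB.Inst.bAdd
  Pool.Agent.Helper23.FB.Inst.iRing Pool.Agent.Helper23.FB.Inst.iSemiring
  Pool.Agent.Helper23.FB.Inst.iAlgC Pool.Agent.Helper23.FB.Inst.iSMulC
  Pool.Agent.Helper23.FB.Inst.iModC Pool.Agent.Helper23.FB.Inst.iAlgR
  Pool.Agent.Helper23.FB.Inst.iSMulR Pool.Agent.Helper23.FB.Inst.iModR
  Pool.Agent.Helper23.FB.Inst.iMonoid Pool.Agent.Helper23.FB.Inst.iSemigroup
  Pool.Agent.Helper23.FB.Inst.iMulOneClass Pool.Agent.Helper23.FB.Inst.iMul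
  Pool.Agent.Helper23.FB.Inst.iAdd Pool.Agent.Helper23.FB.Inst.iSub
  Pool.Agent.Helper23.FB.Inst.iNeg Pool.Agent.Helper23.FB.Inst.iAddCommMonoid
  Pool.Agent.Helper23.FB.Inst.iAddCommGroup Pool.Agent.Helper23.FB.Inst.iAddGroup
  Pool.Agent.Helper23.FB.Inst.iAddMonoid Pool.Agent.Helper23.FB.Inst.iSMulZeroC
  Pool.Agent.Helper23.FB.Inst.iMulActC Pool.Agent.Helper23.FB.Inst.iDSMulC
  Pool.Agent.Helper23.FB.Inst.iDSMulR Pool.Agent.Helper23.FB.Inst.iSNAG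
  Pool.Agent.Helper23.FB.Inst.iSNACG Pool.Agent.Helper23.FB.Inst.iNorm
  Pool.Agent.Helper23.FB.Inst.iNSC' Pool.Agent.Helper23.FB.Inst.iNSR'
  Pool.Agent.Helper23.FB.Inst.iTop Pool.Agent.Helper23.FB.Inst.iT2 Pool.Agent.Helper23.FB.Inst.iTR
  Pool.Agent.Helper23.FB.Inst.iSCC Pool.Agent.Helper23.FB.Inst.iIST
  Pool.Agent.Helper23.FB.Inst.iSCCR Pool.Agent.Helper23.FB.Inst.iISTR
  Pool.Agent.Helper23.FB.Inst.iZHC Pool.Agent.Helper23.FB.Inst.iAHC
  Pool.Agent.Helper23.FB.Inst.iAMHC Pool.Agent.Helper23.FB.Inst.iMAHC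
  Pool.Agent.Helper23.FB.Inst.lTop Pool.Agent.Helper23.FB.Inst.lUnif
  Pool.Agent.Helper23.FB.Inst.lACM Pool.Agent.Helper23.FB.Inst.lACG
  Pool.Agent.Helper23.FB.Inst.lSNAG Pool.Agent.Helper23.FB.Inst.lSNACG
  Pool.Agent.Helper23.FB.Inst.lNACG Pool.Agent.Helper23.FB.Inst.lNorm
  Pool.Agent.Helper23.FB.Inst.lIPS Pool.Agent.Helper23.FB.Inst.lMod
  Pool.Agent.Helper23.FB.Inst.lSMul Pool.Agent.Helper23.FB.Inst.lT2
  Pool.Agent.Helper23.FB.Inst.iStar Pool.Agent.Helper23.FB.Inst.iStarMul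
  Pool.Agent.Helper23.FB.Inst.iStarAddMonoid Pool.Agent.Helper23.FB.Inst.iStarRing
  Pool.Agent.Helper23.FB.Inst.iNSC Pool.Agent.Helper23.FB.Inst.iSOR
  Pool.Agent.Helper23.FB.Inst.iALM Pool.Agent.Helper23.FB.Inst.iARM
  Pool.Agent.Helper23.FB.Inst.iCFC Pool.Agent.Helper23.FB.Inst.iNCFC
  Pool.Agent.Helper23.FB.Inst.iStarModR Pool.Agent.Helper23.FB.Inst.iStarModC
  Pool.Agent.Helper23.FB.Inst.eStar Pool.Agent.Helper23.FB.Inst.eAdd
  Pool.Agent.Helper23.FB.Inst.eMul Pool.Agent.Helper23.FB.Inst.eOne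
  Pool.Agent.Helper23.FB.Inst.eZero Pool.Agent.Helper23.FB.Inst.eMulAction
  Pool.Agent.Helper23.FB.Inst.eAMHC2 Pool.Agent.Helper23.FB.Inst.eZHC2
  Pool.Agent.Helper23.FB.Inst.lAMHC

namespace Pool.Agent.Helper23
end Pool.Agent.Helper23
namespace Pool.Agent.Helper23.RBF
end Pool.Agent.Helper23.RBF
namespace Pool.Agent.Helper23.U10
end Pool.Agent.Helper23.U10
namespace Pool.Agent.Helper43.TTF
end Pool.Agent.Helper43.TTF
namespace Pool.Agent.Helper70.U8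
end Pool.Agent.Helper70.U8

section

section

open scoped InnerProductSpace Topology BoundedContinuousFunction

open ContinuousLinearMap Filter MeasureTheory

namespace Pool.Agent.Helper70.U8

open Pool.Agent.Helper23

variable {H : Type*} [NormedAddCommGroup H] [InnerProductSpace ℂ H] [CompleteSpace H]

variable {A : VonNeumannAlgebra H} {ξ : H} {R : H →L[ℂ] H} {D : H →L[ℝ] H}
  {Ψ : (ℝ →ᵇ ℂ) →⋆ₐ[ℂ] (H →L[ℂ] H)} {J : H →L[ℝ] H}

open Pool.Agent.Helper43.TTF (FC JD FT FT_apply FR_apply)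

/-- right boundedness of the smoothed vectors -/
lemma smooth_right (h : Modular A ξ R D Ψ) (hF : FC R D Ψ) (hJ : JD D Ψ J)
    (hcj : ∀ a ∈ A, hJ.cj a ∈ A.commutant) {ε : ℝ} (hε : 0 < ε)
    {z : H →L[ℂ] H} (hz : z ∈ A) :
    ∃ r ∈ A.commutant, ‖r‖ ≤ Real.exp ((1 / 2) ^ 2 / (4 * ε)) * ‖z‖ ∧
      r ξ = sm h (kg_int hε 0) z ξ := by
  refine ⟨hJ.cj (sm h (kg_int hε (1 / 2)) (star z)), hcj _ (sm_mem h _ h.mem (star_mem hz)),
    ?_, ?_⟩
  · refine (cj_norm hJ _).trans ((sm_norm h _ _).trans ?_)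
    rw [kg_integral_norm hε, norm_star]
  · rw [hJ.cj_apply, J_xi h.data hJ h, sm_xi h _ (K := GB ε hε (1 / 2))
      (fun ρ => by rw [GB_apply]; exact kg_fourier hε _ ρ),
      sm_xi h _ (K := GB ε hε 0) (fun ρ => by rw [GB_apply]; exact kg_fourier hε _ ρ),
      J_psi h.data hF hJ hε hz]

end Pool.Agent.Helper70.U8

end

end

section

section

open scoped InnerProductSpace Topology ENNReal BoundedContinuousFunction

open ContinuousLinearMap Filter MeasureTheory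

namespace Pool.Agent.Helper23

variable {H : Type*} [NormedAddCommGroup H] [InnerProductSpace ℂ H] [CompleteSpace H]

variable {M N : VonNeumannAlgebra H} {ξ : H} {E : (H →L[ℂ] H) → (H →L[ℂ] H)}

open RBF

namespace BFlow

variable (S : BFlow M N E ξ)

include S

theorem flow_strong {x : H →L[ℂ] H} (hb : x ∈ Bicent M N ξ) {l : ℝ} (hl : 0 < l)
    {a : ℕ → H →L[ℂ] H} (ha : LamSeq N ξ l a) (η : H) :
    Tendsto (fun n => (a n * x - btU M N ξ l x * a n) η) atTop (𝓝 0) := by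
  have h1 := S.flow x hb l hl a ha
  obtain ⟨haN, ⟨C, hC⟩, hD⟩ := ha
  refine tendsto_of_bounded M S.dense_comm (x := fun n => a n * x - btU M N ξ l x * a n)
    (C := C * ‖x‖ + ‖btU M N ξ l x‖ * C)
    (fun n => sub_mem (mul_mem (S.le _ (haN n)) hb.1)
      (mul_mem (S.bt_mem x hb l hl).1 (S.le _ (haN n))))
    (fun n => (norm_sub_le _ _).trans (add_le_add
      ((norm_mul_le _ _).trans (mul_le_mul_of_nonneg_right (hC n) (norm_nonneg _)))
      ((norm_mul_le _ _).trans (mul_le_mul_of_nonneg_left (hC n) (norm_nonneg _))))) h1 η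

theorem flow_strong_star {x : H →L[ℂ] H} (hb' : x ∈ Bicent M N ξ) {l : ℝ} (hl : 0 < l)
    {a : ℕ → H →L[ℂ] H} (ha : LamSeq N ξ l a) (η : H) :
    Tendsto (fun n => (star (a n * x - btU M N ξ l x * a n)) η) atTop (𝓝 0) := by
  have hb : LamSeq N ξ l⁻¹ (fun n => star (a n)) := by
    obtain ⟨haN, ⟨C, hC⟩, hD⟩ := ha
    exact ⟨fun n => star_mem (haN n), ⟨C, fun n => by rw [norm_star]; exact hC n⟩,
      Dseq.star hl hD⟩
  have hy := S.bicent_star (S.bt_mem x hb' l hl)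
  have h1 := S.flow_strong hy (inv_pos.2 hl) hb η
  have h2 : btU M N ξ l⁻¹ (star (btU M N ξ l x)) = star x := by
    rw [S.bt_star _ (S.bt_mem x hb' l hl) _ (inv_pos.2 hl), S.bt_bt x hb' _ (inv_pos.2 hl) _ hl,
      inv_mul_cancel₀ hl.ne', S.bt_one_act x hb']
  rw [h2] at h1
  have h3 := h1.neg
  rw [neg_zero] at h3
  refine h3.congr fun n => ?_
  rw [star_sub, star_mul, star_mul, ← neg_apply, neg_sub]

/-- the relative bicentralizer flow -/
theorem isRelativeBicentralizerFlow :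
    IsRelativeBicentralizerFlow N ξ S.Balg (btU M N ξ) where
  flow :=
    { automorphism := fun l hl =>
        { maps := fun x hx => S.bt_mem x hx l hl
          injective := fun x hx y hy h => by
            have h1 := congrArg (btU M N ξ l⁻¹) h
            rwa [S.bt_bt x hx _ (inv_pos.2 hl) _ hl, S.bt_bt y hy _ (inv_pos.2 hl) _ hl,
              inv_mul_cancel₀ hl.ne', S.bt_one_act x hx, S.bt_one_act y hy] at h1
          surjective := fun y hy => ⟨btU M N ξ l⁻¹ y, S.bt_mem y hy _ (inv_pos.2 hl), by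
            rw [S.bt_bt y hy _ hl _ (inv_pos.2 hl), mul_inv_cancel₀ hl.ne', S.bt_one_act y hy]⟩
          add := fun x hx y hy => S.bt_add x hx y hy l hl
          mul := fun x hx y hy => S.bt_mul x hx y hy l hl
          smul := fun c x hx => S.bt_smul c x hx l hl
          star := fun x hx => S.bt_star x hx l hl }
      action := fun l m hl hm x hx => (S.bt_bt x hx l hl m hm).symm
      continuous := fun x hx η => S.bt_cont x hx η }
  property := fun l hl a ha x hx η =>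
    ⟨S.flow_strong hx hl ha η, S.flow_strong_star hx hl ha η⟩
  unique := fun β' hβ' h l hl x hx =>
    S.flow_uniq x hx _ (hβ' l hl x hx).1 l hl fun a ha => (h l hl a ha x hx ξ).1

end BFlow

end Pool.Agent.Helper23

end

end

section

section

open scoped InnerProductSpace Topology BoundedContinuousFunction

open ContinuousLinearMap Filter

namespace Pool.Agent.Helper23

variable {H : Type*} [NormedAddCommGroup H] [InnerProductSpace ℂ H] [CompleteSpace H]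

variable {M N : VonNeumannAlgebra H} {ξ : H} {E : (H →L[ℂ] H) → (H →L[ℂ] H)}

namespace AP

variable (S : AP M N E ξ)

include S

lemma InB_of_bicent {x : H →L[ℂ] H} (hx : x ∈ Bicent M N ξ) : InB M N ξ x := by
  have hQ : x ∈ Qalg M N ξ := by
    rw [mem_Qalg]
    refine ⟨hx.1, fun a ha => ?_⟩
    have h1 : LamSeq N ξ 1 (fun _ => a) :=
      ⟨fun _ => ha.1, ⟨‖a‖, fun _ => le_rfl⟩,
        fun ε hε => Eventually.of_forall fun _ => Defect.of_eig hε.le ha⟩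
    ext η
    have h2 := hx.2 _ h1 η
    have h3 := tendsto_nhds_unique h2 tendsto_const_nhds
    exact (sub_eq_zero.1 h3.symm).symm
  refine ⟨hQ, tendsto_of_seq_tendsto fun u hu => ?_⟩
  -- replace `u` by a sequence in `Gam`
  classical
  set γ : ℕ → ℝ := fun n => if u n ∈ Gam N ξ then u n else 1 with hγ
  have hγG : ∀ n, γ n ∈ Gam N ξ := by
    intro n
    by_cases h : u n ∈ Gam N ξ
    · simp only [hγ, if_pos h]; exact h
    · simp only [hγ, if_neg h]; exact S.one_mem_Gam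
  have hev : ∀ᶠ n in atTop, γ n = u n := by
    have h1 : ∀ᶠ n in atTop, u n ∈ Gam N ξ := (tendsto_nhdsWithin_iff.1 hu).2
    filter_upwards [h1] with n hn
    simp only [hγ, if_pos hn]
  have hγ1 : Tendsto γ atTop (𝓝 1) :=
    ((tendsto_nhdsWithin_iff.1 hu).1).congr' (hev.mono fun n hn => hn.symm)
  suffices h : Tendsto (fun n => al M N ξ (γ n) x ξ) atTop (𝓝 (x ξ)) by
    refine h.congr' ?_
    filter_upwards [hev] with n hn
    rw [hn]
    rfl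
  choose v hv hv1 hvξ _ _ using fun n => S.exists_contr (hγG n)
  have h1 := hx.2 v (S.lamSeq_of_eig hγ1 hv hv1) ξ
  have h2 : Tendsto (fun n => ‖(al M N ξ (γ n) x - x) ξ‖ * ‖v n ξ‖) atTop (𝓝 0) := by
    refine (tendsto_zero_iff_norm_tendsto_zero.1 h1).congr fun n => ?_
    have h3 : v n (x ξ) = al M N ξ (γ n) x (v n ξ) :=
      congrArg (fun T : H →L[ℂ] H => T ξ) (S.al_rel (hγG n) hQ (v n) (hv n))
    rw [h3, ← S.norm_Q S.irr (sub_mem (S.al_mem (hγG n) hQ) hQ) (hv n).1, sub_apply,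
      norm_sub_rev]
  have h3 : ∀ᶠ n in atTop, (1 / 2 : ℝ) ≤ ‖v n ξ‖ := by
    have h4 : ∀ᶠ n in atTop, (1 / 2 : ℝ) < γ n := hγ1.eventually (lt_mem_nhds (by norm_num))
    filter_upwards [h4] with n hn
    have h5 := hvξ n
    have h6 : (1 / 2 : ℝ) ≤ min 1 (γ n) := le_min (by norm_num) hn.le
    (clear * - h5 h6; nlinarith [norm_nonneg (v n ξ)])
  rw [tendsto_iff_norm_sub_tendsto_zero]
  have h4 : Tendsto (fun n => 2 * (‖(al M N ξ (γ n) x - x) ξ‖ * ‖v n ξ‖)) atTop (𝓝 0) := by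
    have := h2.const_mul 2
    rwa [mul_zero] at this
  refine squeeze_zero' (Eventually.of_forall fun n => norm_nonneg _) ?_ h4
  filter_upwards [h3] with n hn
  rw [← sub_apply]
  (clear * - hn; nlinarith [norm_nonneg ((al M N ξ (γ n) x - x) ξ)])

lemma bicent_memQ {x : H →L[ℂ] H} (hx : x ∈ Bicent M N ξ) : x ∈ Qalg M N ξ :=
  (S.InB_of_bicent hx).1

end AP

end Pool.Agent.Helper23

end

section

open scoped InnerProductSpace Topology

open ContinuousLinearMap Filter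

namespace Pool.Agent.Helper23

variable {H : Type*} [NormedAddCommGroup H] [InnerProductSpace ℂ H] [CompleteSpace H]

variable {M N : VonNeumannAlgebra H} {ξ : H} {E : (H →L[ℂ] H) → (H →L[ℂ] H)}

namespace AP

variable (S : AP M N E ξ)

include S

/-- MODULE A2 : the constants are invariant under the transport maps. -/
theorem lb_al {y : H →L[ℂ] H} (hy : y ∈ Qalg M N ξ) {κ K : ℝ} (_hκ : 0 ≤ κ) (_hK : 0 ≤ K)
    (h : LB N ξ y κ K) {γ : ℝ} (hγ : γ ∈ Gam N ξ) : LB N ξ (al M N ξ γ y) κ K := by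
  have hzQ := S.al_mem hγ hy
  set z := al M N ξ γ y with hz
  obtain ⟨hγ0, v, hv, hv0⟩ := hγ
  have hγ : γ ∈ Gam N ξ := ⟨hγ0, v, hv, hv0⟩
  intro C C' hC
  have hCM : C ∈ M := S.le _ hC.1
  have hCM' : C' ∈ M := S.le _ hC.2.1
  have hzM : z ∈ M := (mem_Qalg.1 hzQ).1
  have hrel : v * y = z * v := S.al_rel hγ hy v hv
  have hrel' : star v * z = y * star v :=
    Rel.adj S.irr hγ0.ne' ⟨v, hv, hv0⟩ hzQ (S.al_rel hγ hy) (eig_star hγ0.ne' hv)
  have hkey := S.avg_compress hγ0 hv hv0 (ι := Fin 3)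
    (X := ![z * C - C * z, C, C' - C]) (s := ![-1, κ, K]) (by
      intro i
      fin_cases i
      · exact sub_mem (mul_mem hzM hCM) (mul_mem hCM hzM)
      · exact hCM
      · exact sub_mem hCM' hCM) (by
    intro w hw w' hw'
    have pv : Partner N ξ v (((γ⁻¹ : ℝ) : ℂ) • v) := Partner.of_eig hγ0.ne' hv
    have pvs : Partner N ξ (star v) (((γ⁻¹⁻¹ : ℝ) : ℂ) • star v) :=
      Partner.of_eig (inv_ne_zero hγ0.ne') (eig_star hγ0.ne' hv)
    have hp := (((pvs.mul (Partner.of_cent hw.1)).mul hC).mul (Partner.of_cent hw'.1)).mul pv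
    have hp' : Partner N ξ (star v * w * C * w' * v) (star v * w * C' * w' * v) := by
      have e : (((γ⁻¹⁻¹ : ℝ) : ℂ) • star v) * w * C' * w' * (((γ⁻¹ : ℝ) : ℂ) • v) =
          star v * w * C' * w' * v := by
        simp only [smul_mul_assoc, mul_smul_comm, smul_smul, ← Complex.ofReal_mul]
        rw [mul_inv_cancel₀ (inv_ne_zero hγ0.ne')]
        simp
      rwa [e] at hp
    have h1 := h _ _ hp'
    have c1 : w * z = z * w := (mem_Qalg.1 hzQ).2 _ hw.1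
    have c2 : w' * z = z * w' := (mem_Qalg.1 hzQ).2 _ hw'.1
    have e1 : star v * w * (z * C - C * z) * w' * v =
        y * (star v * w * C * w' * v) - (star v * w * C * w' * v) * y := by
      have e2 : star v * w * (z * C) * w' * v = y * (star v * w * C * w' * v) := by
        calc star v * w * (z * C) * w' * v = star v * (w * z) * C * w' * v := by
              simp only [mul_assoc]
          _ = (star v * z) * w * C * w' * v := by rw [c1]; simp only [mul_assoc]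
          _ = _ := by rw [hrel']; simp only [mul_assoc]
      have e3 : star v * w * (C * z) * w' * v = (star v * w * C * w' * v) * y := by
        calc star v * w * (C * z) * w' * v = star v * w * C * (z * w') * v := by
              simp only [mul_assoc]
          _ = star v * w * C * w' * (z * v) := by rw [← c2]; simp only [mul_assoc]
          _ = _ := by rw [← hrel]; simp only [mul_assoc]
      rw [mul_sub, sub_mul, sub_mul, e2, e3]
    have e4 : star v * w * (C' - C) * w' * v =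
        star v * w * C' * w' * v - star v * w * C * w' * v := by
      rw [mul_sub, sub_mul, sub_mul]
    simp only [Fin.sum_univ_three, Matrix.cons_val_zero, Matrix.cons_val_one,
      Matrix.cons_val_two, Matrix.head_cons, Matrix.tail_cons]
    rw [e1, e4]
    linarith)
  simp only [Fin.sum_univ_three, Matrix.cons_val_zero, Matrix.cons_val_one,
    Matrix.cons_val_two, Matrix.head_cons, Matrix.tail_cons] at hkey
  (clear * - hkey; linarith)

end AP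

end Pool.Agent.Helper23

end

end

section

section

open scoped InnerProductSpace Topology BoundedContinuousFunction

open ContinuousLinearMap Filter MeasureTheory

namespace Pool.Agent.Helper23

open Pool.Agent.Helper70.U8 Pool.Agent.Helper43.TTF

variable {H : Type*} [NormedAddCommGroup H] [InnerProductSpace ℂ H] [CompleteSpace H]

variable {M N : VonNeumannAlgebra H} {ξ : H} {E : (H →L[ℂ] H) → (H →L[ℂ] H)}

/-- the modular data of a setting, with the modular conjugation -/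
theorem Setting.exists_modular_J (S : Setting M N E ξ) :
    ∃ (R : H →L[ℂ] H) (D : H →L[ℝ] H) (Ψ : (ℝ →ᵇ ℂ) →⋆ₐ[ℂ] (H →L[ℂ] H)) (J : H →L[ℝ] H),
      Modular M ξ R D Ψ ∧ FC R D Ψ ∧ (∃ hJ : JD D Ψ J, ∀ a ∈ M, hJ.cj a ∈ M.commutant) ∧
      ∀ (t : ℝ), ∀ a ∈ N, Ψ (expB t) * a * Ψ (expB (-t)) ∈ N := by
  have h' := ttdata M ξ S.cyc S.sep
  obtain ⟨Ψ, h⟩ := exists_FC h'
  obtain ⟨J, hJ⟩ := h.exists_J h'
  have hmod := modular_of h' S.cyc S.sep h
  refine ⟨_, _, Ψ, J, hmod, h, ⟨hJ, fun a ha => cj_mem h' S.cyc S.dense_comm h hJ ha⟩,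
    fun t a ha => ?_⟩
  set x := Ψ (expB t) * a * Ψ (expB (-t)) with hx
  have hxM : x ∈ M := hmod.mem t a (S.le a ha)
  have hcomm := h.psi_comm _ (p0_R S)
  have hxξ : x ξ = Ψ (expB t) (a ξ) := by
    rw [hx, mul_apply_eq_comp, mul_apply_eq_comp, hmod.psi_xi,
      Pool.Agent.Helper43.TTF.expB_apply, mul_zero,
      Complex.ofReal_zero, zero_mul, Complex.exp_zero, one_smul]
  have h1 : p0 N ξ (x ξ) = x ξ := by
    have h2 := congrArg (fun T : H →L[ℂ] H => T (a ξ)) (hcomm (expB t))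
    simp only [mul_apply_eq_comp] at h2
    rw [hxξ, h2, p0_of_mem (mem_K0 ha)]
  have h3 : (E x - x) ξ = 0 := by
    rw [sub_apply, ← E_apply S hxM, h1, sub_self]
  have h4 := S.sep _ (sub_mem (S.le _ (S.E_mem x hxM)) hxM) h3
  rw [← sub_eq_zero.1 h4]
  exact S.E_mem x hxM

/-- U8: smoothing along the modular group -/
theorem Setting.exists_smooth (S : Setting M N E ξ) :
    ∃ (s : ℕ → (H →L[ℂ] H) → (H →L[ℂ] H)) (C ρ : ℕ → ℝ), Tendsto ρ atTop (𝓝 0) ∧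
      (∀ j, ∀ z ∈ N, s j z ∈ N ∧ ‖s j z‖ ≤ ‖z‖ ∧
        (∃ r ∈ M.commutant, ‖r‖ ≤ C j * ‖z‖ ∧ r ξ = s j z ξ) ∧
        (∃ r ∈ M.commutant, ‖r‖ ≤ C j * ‖z‖ ∧ r ξ = (star (s j z)) ξ)) ∧
      (∀ j, ∀ z ∈ N, ∀ a ∈ M, ∀ r ∈ M.commutant,
        ‖⟪ξ, (s j z) (a ξ)⟫_ℂ - ⟪ξ, z (a ξ)⟫_ℂ‖ ≤
          ‖z‖ * (2 * ‖a ξ - r ξ‖ + ρ j * (‖a‖ + ‖r‖))) ∧
      (∀ j, ∀ z ∈ N, ∀ a ∈ M, ∀ r ∈ M.commutant,
        ‖⟪ξ, a ((s j z) ξ)⟫_ℂ - ⟪ξ, a (z ξ)⟫_ℂ‖ ≤
          ‖z‖ * (2 * ‖(star a) ξ - r ξ‖ + ρ j * (‖a‖ + ‖r‖))) := by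
  obtain ⟨R, D, Ψ, J, h, hF, ⟨hJ, hcj⟩, hN⟩ := S.exists_modular_J
  have hε : ∀ j : ℕ, (0 : ℝ) < 1 / ((j : ℝ) + 1) := fun j => Nat.one_div_pos_of_nat
  refine ⟨fun j z => sm h (kg_int (hε j) 0) z,
    fun j => Real.exp ((1 / 2) ^ 2 / (4 * (1 / ((j : ℝ) + 1)))),
    fun j => 8 * (1 / ((j : ℝ) + 1)), ?_, ?_, ?_, ?_⟩
  · simpa using (tendsto_one_div_add_atTop_nhds_zero_nat (𝕜 := ℝ)).const_mul 8
  · intro j z hz
    refine ⟨sm_mem h _ hN hz, ?_, smooth_right h hF hJ hcj (hε j) (S.le z hz), ?_⟩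
    · have h1 := sm_norm h (kg_int (hε j) 0) z
      rw [kg_integral_norm (hε j)] at h1
      simpa using h1
    · obtain ⟨r, hr, hr1, hr2⟩ := smooth_right h hF hJ hcj (hε j) (star_mem (S.le z hz))
      refine ⟨r, hr, ?_, ?_⟩
      · rwa [norm_star] at hr1
      · rw [hr2, sm_star h _ (kg_real _)]
  · intro j z hz a ha r hr
    have e1 : ⟪ξ, (sm h (kg_int (hε j) 0) z) (a ξ)⟫_ℂ - ⟪ξ, z (a ξ)⟫_ℂ =
        -⟪(star z) ξ, Ψ (1 - Pool.Agent.Helper70.U8.GB _ (hε j) 0) (a ξ)⟫_ℂ := by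
      rw [← G_star, ← psi_adj, ← sub_eq h, ← sm_star h _ (kg_real _), inner_sub_left,
        inner_star_left, inner_star_left]
      ring
    change ‖⟪ξ, (sm h (kg_int (hε j) 0) z) (a ξ)⟫_ℂ - ⟪ξ, z (a ξ)⟫_ℂ‖ ≤ _
    rw [e1, norm_neg]
    refine (norm_inner_le_norm _ _).trans ?_
    refine mul_le_mul ?_ (est h.data hF S.norm_one (hε j) ha hr) (norm_nonneg _) (norm_nonneg _)
    have := (star z).le_opNorm ξ
    rwa [S.norm_one, mul_one, norm_star] at this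
  · intro j z hz a ha r hr
    have e1 : ⟪ξ, a ((sm h (kg_int (hε j) 0) z) ξ)⟫_ℂ - ⟪ξ, a (z ξ)⟫_ℂ =
        -⟪Ψ (1 - Pool.Agent.Helper70.U8.GB _ (hε j) 0) ((star a) ξ), z ξ⟫_ℂ := by
      rw [psi_adj, G_star, ← sub_eq h, inner_sub_right, inner_star_left, inner_star_left]
      ring
    change ‖⟪ξ, a ((sm h (kg_int (hε j) 0) z) ξ)⟫_ℂ - ⟪ξ, a (z ξ)⟫_ℂ‖ ≤ _
    rw [e1, norm_neg]
    refine (norm_inner_le_norm _ _).trans ?_
    rw [mul_comm]
    have h2 := est h.data hF S.norm_one (hε j) (star_mem ha) hr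
    rw [norm_star] at h2
    refine mul_le_mul ?_ h2 (norm_nonneg _) (norm_nonneg _)
    have := z.le_opNorm ξ
    rwa [S.norm_one, mul_one] at this

end Pool.Agent.Helper23

end

section

open scoped InnerProductSpace Topology BoundedContinuousFunction

open ContinuousLinearMap Filter

namespace Pool.Agent.Helper23

universe u

variable {H : Type u} [NormedAddCommGroup H] [InnerProductSpace ℂ H] [CompleteSpace H]

variable {K : Type u} [NormedAddCommGroup K] [InnerProductSpace ℂ K] [CompleteSpace K]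

variable {M N : VonNeumannAlgebra H} {ξ : H} {E : (H →L[ℂ] H) → (H →L[ℂ] H)}

namespace Oc

variable {MT NT : VonNeumannAlgebra K} {ET : (K →L[ℂ] K) → (K →L[ℂ] K)} {ζ : K}
  {rep : (ℕ → H →L[ℂ] H) → (K →L[ℂ] K)} (O : Oc M N E ξ MT NT ET ζ rep)

include O

/-- U9a -/
theorem eig_of_lamU (S : Setting M N E ξ) {l : ℝ} (hl : 0 < l) {a : ℕ → H →L[ℂ] H}
    (ha : LamU N ξ l a) : rep a ∈ eig NT ζ l := by
  have haS := S.lamU_appS hl ha
  refine ⟨O.memN a haS ha.1, fun X hX => ?_⟩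
  obtain ⟨x, hxS, hxN, hxb, rfl⟩ := O.surjN X hX
  have h1 := O.inner_one (AppS_mul hxS haS)
  have h2 := (O.inner_one (AppS_mul haS hxS)).const_mul (l : ℂ)
  rw [O.mul x hxS a haS] at h1
  rw [O.mul a haS x hxS] at h2
  have h3 : Tendsto (fun n => ⟪ξ, (x n * a n) ξ⟫_ℂ - (l : ℂ) * ⟪ξ, (a n * x n) ξ⟫_ℂ)
      (UU : Filter ℕ) (𝓝 0) := by
    rw [tendsto_zero_iff_norm_tendsto_zero, Metric.tendsto_nhds]
    intro ε hε
    have hC : 0 ≤ 2 * ‖rep x‖ := by (clear * -; positivity)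
    filter_upwards [ha.2.2 (ε / (2 * ‖rep x‖ + 1)) (by (clear * - hε; positivity))] with n hn
    rw [Real.dist_eq, sub_zero, abs_of_nonneg (norm_nonneg _)]
    refine lt_of_le_of_lt (hn (x n) (hxN n)) ?_
    calc ε / (2 * ‖rep x‖ + 1) * ‖x n‖ ≤ ε / (2 * ‖rep x‖ + 1) * (2 * ‖rep x‖) := by
          gcongr; exact hxb n
      _ < ε / (2 * ‖rep x‖ + 1) * (2 * ‖rep x‖ + 1) := by
          apply mul_lt_mul_of_pos_left _ (by (clear * - hε; positivity))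
          linarith
      _ = ε := by field_simp
  have h4 := tendsto_nhds_unique (h1.sub h2) h3
  exact sub_eq_zero.1 h4

/-- U9c -/
theorem mem_Gam (S : Setting M N E ξ)
    (NN : ∀ l : ℝ, 0 < l → ∃ a, LamSeq N ξ l a ∧ ¬ Tendsto (fun n => a n ξ) atTop (𝓝 0))
    {l : ℝ} (hl : 0 < l) : l ∈ Gam NT ζ := by
  obtain ⟨a, ha, hna⟩ := NN l hl
  rw [Metric.tendsto_atTop] at hna
  push Not at hna
  obtain ⟨ε, hε, hfr⟩ := hna
  have hfr' : ∃ᶠ n in atTop, ε ≤ ‖a n ξ‖ := by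
    rw [Filter.frequently_atTop]
    intro m
    obtain ⟨n, hn, h⟩ := hfr m
    exact ⟨n, hn, by simpa [dist_zero_right] using h⟩
  obtain ⟨φ, hφ, hφ'⟩ := Filter.extraction_of_frequently_atTop hfr'
  have hb := (ha.subseq hφ).lamU
  refine ⟨hl, rep (fun n => a (φ n)), O.eig_of_lamU S hl hb, ?_⟩
  intro h0
  have hbS := S.lamU_appS hl hb
  have h1 := O.inner _ hbS _ hbS
  rw [h0, zero_apply, inner_zero_left] at h1
  have h2 : ∀ n, ε ^ 2 ≤ ‖⟪a (φ n) ξ, a (φ n) ξ⟫_ℂ‖ := by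
    intro n
    rw [inner_self_eq_norm_sq_to_K]
    have : ‖((‖a (φ n) ξ‖ : ℂ)) ^ 2‖ = ‖a (φ n) ξ‖ ^ 2 := by
      rw [norm_pow, Complex.norm_real, norm_norm]
    refine le_trans ?_ (le_of_eq this.symm)
    exact pow_le_pow_left₀ hε.le (hφ' n) 2
  have h3 := h1.norm
  rw [norm_zero] at h3
  have h4 := ge_of_tendsto' h3 h2
  have : 0 < ε ^ 2 := by (clear * - hε; positivity)
  (clear * - h4 this; linarith)

end Oc

end Pool.Agent.Helper23

end

section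

open scoped InnerProductSpace Topology

open ContinuousLinearMap Filter

namespace Pool.Agent.Helper23

universe u

variable {H : Type u} [NormedAddCommGroup H] [InnerProductSpace ℂ H] [CompleteSpace H]

variable {K : Type u} [NormedAddCommGroup K] [InnerProductSpace ℂ K] [CompleteSpace K]

variable {M N : VonNeumannAlgebra H} {ξ : H} {E : (H →L[ℂ] H) → (H →L[ℂ] H)}

open U10

namespace Oc

variable {MT NT : VonNeumannAlgebra K} {ET : (K →L[ℂ] K) → (K →L[ℂ] K)} {ζ : K}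
  {rep : (ℕ → H →L[ℂ] H) → (K →L[ℂ] K)} (O : Oc M N E ξ MT NT ET ζ rep)

include O

/-- U10a -/
theorem defect (S : Setting M N E ξ) {l δ δ' : ℝ} (hl : 0 < l) (hδ0 : 0 ≤ δ) (hδ : δ < δ')
    {a : ℕ → H →L[ℂ] H} (ha : a ∈ AppS M ξ) (haN : ∀ n, a n ∈ N)
    (hD : Defect NT ζ l δ (rep a)) : ∀ᶠ n in (UU : Filter ℕ), Defect N ξ l δ' (a n) := by
  by_contra hcon
  have hcon' := not_eventually hcon
  -- the test elements
  have hz : ∀ n, ∃ z ∈ N, ‖z‖ ≤ 1 ∧ (¬ Defect N ξ l δ' (a n) →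
      δ' < ‖⟪ξ, z (a n ξ)⟫_ℂ - l * ⟪ξ, a n (z ξ)⟫_ℂ‖) := by
    intro n
    by_cases hn : Defect N ξ l δ' (a n)
    · exact ⟨0, zero_mem N, by simp, fun h => absurd hn h⟩
    · have hn2 := hn
      rw [Defect] at hn2
      push Not at hn2
      obtain ⟨z, hzN, hz⟩ := hn2
      have hz0 : 0 < ‖z‖ := by
        rw [norm_pos_iff]
        rintro rfl
        simp at hz
      refine ⟨((‖z‖⁻¹ : ℝ) : ℂ) • z, smul_mem' _ hzN, ?_, fun _ => ?_⟩
      · rw [norm_smul, Complex.norm_real, norm_inv, norm_norm, inv_mul_cancel₀ hz0.ne']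
      · have e1 : ⟪ξ, (((‖z‖⁻¹ : ℝ) : ℂ) • z) (a n ξ)⟫_ℂ -
            l * ⟪ξ, a n ((((‖z‖⁻¹ : ℝ) : ℂ) • z) ξ)⟫_ℂ =
            ((‖z‖⁻¹ : ℝ) : ℂ) * (⟪ξ, z (a n ξ)⟫_ℂ - l * ⟪ξ, a n (z ξ)⟫_ℂ) := by
          rw [smul_apply, smul_apply, map_smul, inner_smul_right, inner_smul_right]
          ring
        rw [e1, norm_mul, Complex.norm_real, norm_inv, norm_norm]
        rw [inv_mul_eq_div, lt_div_iff₀ hz0]
        exact hz
  choose z hzN hz1 hzd using hz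
  obtain ⟨s, C, ρ, hρ, hs, hs1, hs2⟩ := S.exists_smooth
  -- the smoothed sequences
  have hZ : ∀ j, (fun n => s j (z n)) ∈ AppS M ξ := by
    intro j
    have hb : ∀ n, ‖s j (z n)‖ ≤ 1 := fun n => ((hs j (z n) (hzN n)).2.1).trans (hz1 n)
    choose r hr hrn hrξ using fun n => (hs j (z n) (hzN n)).2.2.1
    choose r' hr' hrn' hrξ' using fun n => (hs j (z n) (hzN n)).2.2.2
    have bd : ∀ n, C j * ‖z n‖ ≤ |C j| := fun n => by
      calc C j * ‖z n‖ ≤ |C j| * ‖z n‖ := mul_le_mul_of_nonneg_right (le_abs_self _) (norm_nonneg _)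
        _ ≤ |C j| * 1 := mul_le_mul_of_nonneg_left (hz1 n) (abs_nonneg _)
        _ = |C j| := mul_one _
    refine ⟨⟨fun n => S.le _ (hs j (z n) (hzN n)).1, ⟨1, hb⟩, fun ε hε => ⟨r, hr,
      ⟨|C j|, fun n => (hrn n).trans (bd n)⟩, ?_⟩⟩,
      ⟨fun n => star_mem (S.le _ (hs j (z n) (hzN n)).1), ⟨1, fun n => ?_⟩, fun ε hε => ⟨r', hr',
      ⟨|C j|, fun n => (hrn' n).trans (bd n)⟩, ?_⟩⟩⟩
    · filter_upwards with n
      rw [hrξ, sub_self, norm_zero]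
      exact hε.le
    · rw [norm_star]; exact hb n
    · filter_upwards with n
      rw [hrξ', sub_self, norm_zero]
      exact hε.le
  -- constants
  obtain ⟨A, hA0, hA⟩ := U2.bdd_nonneg ha.1.2.1
  set g : ℝ := δ' - δ with hg
  have hg0 : 0 < g := sub_pos.2 hδ
  set e : ℝ := g / (16 * (1 + l)) with he
  have he0 : 0 < e := by (clear * - hδ hl; positivity)
  obtain ⟨r, hr, hrB, hre⟩ := ha.1.2.2 e he0
  obtain ⟨r', hr', hrB', hre'⟩ := ha.2.2.2 e he0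
  obtain ⟨B, hB0, hB⟩ := U2.bdd_nonneg hrB
  obtain ⟨B', hB0', hB'⟩ := U2.bdd_nonneg hrB'
  obtain ⟨j, hj⟩ : ∃ j, |ρ j| * ((A + B) + l * (A + B')) ≤ g / 8 := by
    have h1 : Tendsto (fun j => |ρ j| * ((A + B) + l * (A + B'))) atTop (𝓝 0) := by
      have := (hρ.abs).mul_const ((A + B) + l * (A + B'))
      simpa using this
    have h2 := (h1.eventually (gt_mem_nhds (by (clear * - hδ; positivity) : (0 : ℝ) < g / 8))).exists
    obtain ⟨j, hj⟩ := h2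
    exact ⟨j, hj.le⟩
  have hZj := hZ j
  set Z : ℕ → H →L[ℂ] H := fun n => s j (z n) with hZdef
  have hZN : ∀ n, Z n ∈ N := fun n => (hs j (z n) (hzN n)).1
  have hZn : ∀ n, ‖Z n‖ ≤ 1 := fun n => ((hs j (z n) (hzN n)).2.1).trans (hz1 n)
  have hrepZ : rep Z ∈ NT := O.memN Z hZj hZN
  have hrepZn : ‖rep Z‖ ≤ 1 := O.norm Z hZj 1 hZn
  have hD' := hD (rep Z) hrepZ
  have t1 := O.U10_state S (appS_mul hZj ha)
  have t2 := O.U10_state S (appS_mul ha hZj)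
  rw [O.mul _ hZj _ ha] at t1
  rw [O.mul _ ha _ hZj] at t2
  have t3 : Tendsto (fun n => ‖⟪ξ, (Z n * a n) ξ⟫_ℂ - l * ⟪ξ, (a n * Z n) ξ⟫_ℂ‖) (UU : Filter ℕ)
      (𝓝 ‖⟪ζ, (rep Z * rep a) ζ⟫_ℂ - l * ⟪ζ, (rep a * rep Z) ζ⟫_ℂ‖) :=
    (t1.sub (t2.const_mul _)).norm
  have t4 : ‖⟪ζ, (rep Z * rep a) ζ⟫_ℂ - l * ⟪ζ, (rep a * rep Z) ζ⟫_ℂ‖ < δ + g / 8 := by
    have h1 : ‖⟪ζ, (rep Z * rep a) ζ⟫_ℂ - l * ⟪ζ, (rep a * rep Z) ζ⟫_ℂ‖ ≤ δ * ‖rep Z‖ := hD'
    have h2 : δ * ‖rep Z‖ ≤ δ * 1 := mul_le_mul_of_nonneg_left hrepZn hδ0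
    (clear * - hδ h1 h2; linarith)
  have t5 := t3.eventually (gt_mem_nhds t4)
  have hUU : (UU : Filter ℕ).NeBot := Ultrafilter.neBot _
  obtain ⟨n, h1, h2, h3, h4⟩ := (hcon'.and (t5.and (hre.and hre'))).exists
  have k1 := hzd n h1
  have k2 := hs1 j (z n) (hzN n) (a n) (S.le _ (haN n)) (r n) (hr n)
  have k3 := hs2 j (z n) (hzN n) (a n) (S.le _ (haN n)) (r' n) (hr' n)
  have k4 : ‖⟪ξ, Z n (a n ξ)⟫_ℂ - ⟪ξ, z n (a n ξ)⟫_ℂ‖ ≤ 2 * e + |ρ j| * (A + B) := by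
    refine k2.trans ?_
    have h5 : 2 * ‖a n ξ - r n ξ‖ + ρ j * (‖a n‖ + ‖r n‖) ≤ 2 * e + |ρ j| * (A + B) := by
      have h6 : ρ j * (‖a n‖ + ‖r n‖) ≤ |ρ j| * (A + B) :=
        mul_le_mul (le_abs_self _) (add_le_add (hA n) (hB n)) (by (clear * -; positivity)) (abs_nonneg _)
      (clear * - h3 h6; linarith)
    calc ‖z n‖ * (2 * ‖a n ξ - r n ξ‖ + ρ j * (‖a n‖ + ‖r n‖))
        ≤ ‖z n‖ * (2 * e + |ρ j| * (A + B)) := mul_le_mul_of_nonneg_left h5 (norm_nonneg _)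
      _ ≤ 1 * (2 * e + |ρ j| * (A + B)) := mul_le_mul_of_nonneg_right (hz1 n) (by (clear * - hδ hl hA0 hB0; positivity))
      _ = _ := one_mul _
  have k5 : ‖⟪ξ, a n (Z n ξ)⟫_ℂ - ⟪ξ, a n (z n ξ)⟫_ℂ‖ ≤ 2 * e + |ρ j| * (A + B') := by
    refine k3.trans ?_
    have h5 : 2 * ‖(Star.star (a n)) ξ - r' n ξ‖ + ρ j * (‖a n‖ + ‖r' n‖) ≤
        2 * e + |ρ j| * (A + B') := by
      have h6 : ρ j * (‖a n‖ + ‖r' n‖) ≤ |ρ j| * (A + B') :=
        mul_le_mul (le_abs_self _) (add_le_add (hA n) (hB' n)) (by (clear * -; positivity)) (abs_nonneg _)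
      (clear * - h4 h6; linarith)
    calc ‖z n‖ * (2 * ‖(Star.star (a n)) ξ - r' n ξ‖ + ρ j * (‖a n‖ + ‖r' n‖))
        ≤ ‖z n‖ * (2 * e + |ρ j| * (A + B')) := mul_le_mul_of_nonneg_left h5 (norm_nonneg _)
      _ ≤ 1 * (2 * e + |ρ j| * (A + B')) := mul_le_mul_of_nonneg_right (hz1 n) (by (clear * - hδ hl hA0 hB0'; positivity))
      _ = _ := one_mul _
  have k6 : ‖⟪ξ, z n (a n ξ)⟫_ℂ - l * ⟪ξ, a n (z n ξ)⟫_ℂ‖ ≤
      ‖⟪ξ, Z n (a n ξ)⟫_ℂ - l * ⟪ξ, a n (Z n ξ)⟫_ℂ‖ +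
      ‖⟪ξ, Z n (a n ξ)⟫_ℂ - ⟪ξ, z n (a n ξ)⟫_ℂ‖ +
      l * ‖⟪ξ, a n (Z n ξ)⟫_ℂ - ⟪ξ, a n (z n ξ)⟫_ℂ‖ := by
    have e1 : ⟪ξ, z n (a n ξ)⟫_ℂ - l * ⟪ξ, a n (z n ξ)⟫_ℂ =
        (⟪ξ, Z n (a n ξ)⟫_ℂ - l * ⟪ξ, a n (Z n ξ)⟫_ℂ) -
        (⟪ξ, Z n (a n ξ)⟫_ℂ - ⟪ξ, z n (a n ξ)⟫_ℂ) +
        l * (⟪ξ, a n (Z n ξ)⟫_ℂ - ⟪ξ, a n (z n ξ)⟫_ℂ) := by ring
    have e2 : ‖(l : ℂ) * (⟪ξ, a n (Z n ξ)⟫_ℂ - ⟪ξ, a n (z n ξ)⟫_ℂ)‖ =
        l * ‖⟪ξ, a n (Z n ξ)⟫_ℂ - ⟪ξ, a n (z n ξ)⟫_ℂ‖ := by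
      rw [norm_mul, Complex.norm_real, Real.norm_of_nonneg hl.le]
    rw [e1]
    refine (norm_add_le _ _).trans ?_
    rw [e2]
    exact add_le_add (norm_sub_le _ _) le_rfl
  have k7 : ‖⟪ξ, Z n (a n ξ)⟫_ℂ - l * ⟪ξ, a n (Z n ξ)⟫_ℂ‖ < δ + g / 8 := h2
  have k8 : 2 * e * (1 + l) = g / 8 := by
    rw [he]
    field_simp
    ring
  have k9 : l * ‖⟪ξ, a n (Z n ξ)⟫_ℂ - ⟪ξ, a n (z n ξ)⟫_ℂ‖ ≤ l * (2 * e + |ρ j| * (A + B')) :=
    mul_le_mul_of_nonneg_left k5 hl.le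
  have : δ' < δ + g / 8 + (2 * e * (1 + l)) + |ρ j| * ((A + B) + l * (A + B')) := by
    (clear * - hδ hj k1 k4 k6 k7 k8 k9; linarith)
  rw [k8] at this
  (clear * - hδ hj k1 k4 k6 k7 k8 k9; linarith)

/-- U10a' -/
theorem exists_lamU (S : Setting M N E ξ) {l : ℝ} (hl : 0 < l) {A : K →L[ℂ] K}
    (hA : A ∈ eig NT ζ l) : ∃ a, LamU N ξ l a ∧ (∀ n, ‖a n‖ ≤ 2 * ‖A‖) ∧ A = rep a := by
  obtain ⟨a, ha, haN, han, rfl⟩ := O.surjN A hA.1
  refine ⟨a, ⟨haN, ⟨_, han⟩, fun ε hε => ?_⟩, han, rfl⟩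
  exact O.defect S hl le_rfl hε ha haN (Defect.of_eig le_rfl hA)

/-- U10b: saturation -/
theorem rel_approx (S : Setting M N E ξ) {l : ℝ} (hl : 0 < l) {x y : ℕ → H →L[ℂ] H}
    (hx : x ∈ AppS M ξ) (hy : y ∈ AppS M ξ)
    (h : ∀ A ∈ eig NT ζ l, A * rep x = rep y * A) (C : ℝ) {ε : ℝ} (hε : 0 < ε) :
    ∃ δ : ℝ, 0 < δ ∧ ∀ᶠ n in (UU : Filter ℕ), ∀ a ∈ N, ‖a‖ ≤ C → Defect N ξ l δ a →
      ‖(a * x n - y n * a) ξ‖ ≤ ε := by
  by_contra hcon
  push Not at hcon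
  have h1 : ∀ k : ℕ, ∀ᶠ n in (UU : Filter ℕ), ∃ a ∈ N, ‖a‖ ≤ C ∧
      Defect N ξ l (1 / ((k : ℝ) + 1)) a ∧ ε < ‖(a * x n - y n * a) ξ‖ := by
    intro k
    have h2 := hcon (1 / ((k : ℝ) + 1)) (by (clear * -; positivity))
    exact h2
  obtain ⟨k, hk, hk'⟩ := exists_diag h1
  classical
  set a : ℕ → H →L[ℂ] H := fun n => if hn : ∃ a ∈ N, ‖a‖ ≤ C ∧
      Defect N ξ l (1 / ((k n : ℝ) + 1)) a ∧ ε < ‖(a * x n - y n * a) ξ‖ then hn.choose else 0
    with ha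
  have haN : ∀ n, a n ∈ N := by
    intro n
    simp only [ha]
    split_ifs with hn
    · exact hn.choose_spec.1
    · exact zero_mem N
  have haB : Bdd a := by
    refine ⟨|C|, fun n => ?_⟩
    simp only [ha]
    split_ifs with hn
    · exact hn.choose_spec.2.1.trans (le_abs_self C)
    · rw [norm_zero]; exact abs_nonneg C
  have hev : ∀ᶠ n in (UU : Filter ℕ), Defect N ξ l (1 / ((k n : ℝ) + 1)) (a n) ∧
      ε < ‖(a n * x n - y n * a n) ξ‖ := by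
    filter_upwards [hk] with n hn
    simp only [ha]
    rw [dif_pos hn]
    exact hn.choose_spec.2.2
  have hLam : LamU N ξ l a := by
    refine ⟨haN, haB, fun η hη => ?_⟩
    obtain ⟨m, hm⟩ := exists_nat_one_div_lt hη
    filter_upwards [hev, hk' m] with n hn hmn
    refine hn.1.mono (le_trans ?_ hm.le)
    have : (m : ℝ) ≤ k n := by exact_mod_cast hmn
    exact one_div_le_one_div_of_le (by (clear * -; positivity)) (by (clear * - this; linarith))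
  have haS := S.lamU_appS hl hLam
  obtain ⟨hw, hrw⟩ := O.U10_comm hx hy haS
  have h5 : rep (fun n => a n * x n - y n * a n) = 0 := by
    rw [hrw, h _ (O.eig_of_lamU S hl hLam), sub_self]
  have h6 := O.U10_norm hw
  rw [h5] at h6
  simp only [zero_apply, norm_zero] at h6
  have h7 := h6.eventually (gt_mem_nhds hε)
  have hUU : (UU : Filter ℕ).NeBot := Ultrafilter.neBot _
  obtain ⟨n, h8, h9⟩ := (h7.and hev).exists
  (clear * - h8 h9; linarith [h9.2])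

/-- U10c -/
theorem bicent_of_Qalg (S : Setting M N E ξ) {z : K →L[ℂ] K} (hz : z ∈ Qalg MT NT ζ) :
    z ∈ Bicent MT NT ζ := by
  rw [mem_Qalg] at hz
  obtain ⟨hzM, hzc⟩ := hz
  refine ⟨hzM, fun A hA η => ?_⟩
  obtain ⟨hAN, ⟨C, hC⟩, hAD⟩ := hA
  have hC0 : 0 ≤ C := (norm_nonneg _).trans (hC 0)
  obtain ⟨x, hx, -, hzx⟩ := O.surjM z hzM
  have key : Tendsto (fun n => (z * A n - A n * z) ζ) atTop (𝓝 0) := by
    rw [tendsto_zero_iff_norm_tendsto_zero]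
    rw [Metric.tendsto_atTop]
    intro ε hε
    obtain ⟨δ, hδ, hev⟩ := O.rel_approx S one_pos hx hx (by rw [← hzx]; exact hzc) (2 * C)
      (half_pos hε)
    obtain ⟨n₀, hn₀⟩ := eventually_atTop.1 (hAD (δ / 2) (half_pos hδ))
    refine ⟨n₀, fun n hn => ?_⟩
    obtain ⟨a, ha, haN, han, hAa⟩ := O.surjN (A n) (hAN n)
    have hD := hn₀ n hn
    rw [hAa] at hD
    have h1 := O.defect S one_pos (half_pos hδ).le (half_lt_self hδ) ha haN hD
    obtain ⟨hw, hrw⟩ := O.U10_comm hx hx ha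
    have h2 := O.U10_norm hw
    have h3 : ‖rep (fun n => a n * x n - x n * a n) ζ‖ ≤ ε / 2 := by
      refine le_of_tendsto h2 ?_
      filter_upwards [hev, h1] with m hm1 hm2
      refine hm1 (a m) (haN m) ?_ hm2
      exact (han m).trans (mul_le_mul_of_nonneg_left (hC n) (by norm_num))
    rw [hrw, ← hAa, ← hzx] at h3
    rw [Real.dist_eq, sub_zero, abs_of_nonneg (norm_nonneg _)]
    have e1 : (z * A n - A n * z) ζ = -((A n * z - z * A n) ζ) := by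
      simp only [sub_apply]
      abel
    rw [e1, norm_neg]
    (clear * - hε h3; linarith)
  have h4 := tendsto_of_bounded MT O.set.dense_comm (x := fun n => z * A n - A n * z)
    (C := 2 * (‖z‖ * C)) (fun n => sub_mem (mul_mem hzM (O.set.le _ (hAN n)))
      (mul_mem (O.set.le _ (hAN n)) hzM)) (fun n => by
      refine (norm_sub_le _ _).trans ?_
      have h5 : ‖z * A n‖ ≤ ‖z‖ * C :=
        (norm_mul_le _ _).trans (mul_le_mul_of_nonneg_left (hC n) (norm_nonneg _))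
      have h6 : ‖A n * z‖ ≤ ‖z‖ * C := by
        refine (norm_mul_le _ _).trans ?_
        rw [mul_comm]
        exact mul_le_mul_of_nonneg_left (hC n) (norm_nonneg _)
      (clear * - h5 h6; linarith)) key η
  exact h4

/-- U10d -/
theorem const_mem_Qalg (S : Setting M N E ξ) {x : H →L[ℂ] H} (hx : x ∈ Bicent M N ξ) :
    rep (fun _ => x) ∈ Qalg MT NT ζ := by
  have hxM : x ∈ M := hx.1
  have hxS := appS_const S hxM
  have hrM := O.memM _ hxS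
  rw [mem_Qalg]
  refine ⟨hrM, fun A hA => ?_⟩
  obtain ⟨a, haL, han, hAa⟩ := O.exists_lamU S one_pos hA
  have haS := S.lamU_appS one_pos haL
  -- modulus of continuity
  have hmod : ∀ ε : ℝ, 0 < ε → ∃ δ : ℝ, 0 < δ ∧ ∀ b ∈ N, ‖b‖ ≤ 2 * ‖A‖ → Defect N ξ 1 δ b →
      ‖(b * x - x * b) ξ‖ ≤ ε := by
    intro ε hε
    by_contra hcon
    push Not at hcon
    choose b hbN hbn hbD hbε using fun k : ℕ => hcon (1 / ((k : ℝ) + 1)) (by (clear * -; positivity))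
    have hb : LamSeq N ξ 1 b := by
      refine ⟨hbN, ⟨_, hbn⟩, fun η hη => ?_⟩
      obtain ⟨m, hm⟩ := exists_nat_one_div_lt hη
      filter_upwards [eventually_ge_atTop m] with n hn
      refine (hbD n).mono (le_trans ?_ hm.le)
      have : (m : ℝ) ≤ n := by exact_mod_cast hn
      exact one_div_le_one_div_of_le (by (clear * -; positivity)) (by (clear * - this; linarith))
    have h1 := (hx.2 b hb ξ).norm
    rw [norm_zero] at h1
    obtain ⟨n, hn⟩ := (h1.eventually (gt_mem_nhds hε)).exists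
    have h2 := hbε n
    have e1 : (b n * x - x * b n) ξ = -(x (b n ξ) - b n (x ξ)) := by
      change b n (x ξ) - x (b n ξ) = _
      abel
    rw [e1, norm_neg] at h2
    (clear * - hn h2; linarith)
  obtain ⟨hw, hrw⟩ := O.U10_comm hxS hxS haS
  have h2 := O.U10_norm hw
  have h3 : ‖rep (fun n => a n * x - x * a n) ζ‖ = 0 := by
    refine le_antisymm (le_of_forall_pos_le_add fun ε hε => ?_) (norm_nonneg _)
    rw [zero_add]
    obtain ⟨δ, hδ, hb⟩ := hmod ε hε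
    refine le_of_tendsto h2 ?_
    filter_upwards [haL.2.2 δ hδ] with n hn
    exact hb (a n) (haL.1 n) (han n) hn
  rw [norm_eq_zero] at h3
  have h4 : rep (fun n => a n * x - x * a n) = 0 := O.set.sep _ (O.memM _ hw) h3
  rw [hrw, ← hAa, sub_eq_zero] at h4
  exact h4

end Oc

end Pool.Agent.Helper23

end

section

open scoped InnerProductSpace Topology BoundedContinuousFunction

open ContinuousLinearMap Filter

namespace Pool.Agent.Helper23

universe u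

variable {H : Type u} [NormedAddCommGroup H] [InnerProductSpace ℂ H] [CompleteSpace H]

variable {K : Type u} [NormedAddCommGroup K] [InnerProductSpace ℂ K] [CompleteSpace K]

variable {M N : VonNeumannAlgebra H} {ξ : H} {E : (H →L[ℂ] H) → (H →L[ℂ] H)}

namespace Oc

variable {MT NT : VonNeumannAlgebra K} {ET : (K →L[ℂ] K) → (K →L[ℂ] K)} {ζ : K}
  {rep : (ℕ → H →L[ℂ] H) → (K →L[ℂ] K)} (O : Oc M N E ξ MT NT ET ζ rep)

include O

/-- relations between elements of the ultrapower hold approximately for the compressions -/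
lemma cc_rel_approx (S : Setting M N E ξ) {l : ℝ} (hl : 0 < l) {z z' : K →L[ℂ] K}
    (hz : z ∈ MT) (hz' : z' ∈ MT) (h : ∀ A ∈ eig NT ζ l, A * z = z' * A) (C : ℝ) {ε : ℝ}
    (hε : 0 < ε) :
    ∃ δ : ℝ, 0 < δ ∧ ∀ a ∈ N, ‖a‖ ≤ C → Defect N ξ l δ a →
      ‖(a * ccU M ξ rep ζ z - ccU M ξ rep ζ z' * a) ξ‖ ≤ ε := by
  obtain ⟨x, hx, -, rfl⟩ := O.surjM z hz
  obtain ⟨y, hy, -, rfl⟩ := O.surjM z' hz'
  obtain ⟨δ, hδ, hev⟩ := O.rel_approx S hl hx hy h C hε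
  refine ⟨δ, hδ, fun a ha haC hD => ?_⟩
  refine U11.norm_le_of_weak (F := (UU : Filter ℕ)) (x := fun n => (a * x n - y n * a) ξ)
    (fun v => ?_) (hev.mono fun n hn => hn a ha haC hD)
  have h1 := O.cc_rep S hx ((Star.star a) v) ξ
  have h2 := O.cc_rep S hy v (a ξ)
  have h3 := h1.sub h2
  have e : ∀ n, ⟪(Star.star a) v, x n ξ⟫_ℂ - ⟪v, y n (a ξ)⟫_ℂ = ⟪v, (a * x n - y n * a) ξ⟫_ℂ := by
    intro n
    rw [inner_star_left, sub_apply, inner_sub_right]; rfl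
  have e' : ⟪(Star.star a) v, ccU M ξ rep ζ (rep x) ξ⟫_ℂ - ⟪v, ccU M ξ rep ζ (rep y) (a ξ)⟫_ℂ =
      ⟪v, (a * ccU M ξ rep ζ (rep x) - ccU M ξ rep ζ (rep y) * a) ξ⟫_ℂ := by
    rw [inner_star_left, sub_apply, inner_sub_right]; rfl
  simp only [e, e'] at h3
  exact h3

/-- U11b -/
theorem cc_bicent (S : Setting M N E ξ) {z : K →L[ℂ] K} (hz : z ∈ Qalg MT NT ζ) :
    ccU M ξ rep ζ z ∈ Bicent M N ξ := by
  obtain ⟨hzM, hzc⟩ := mem_Qalg.1 hz
  have hmem := (O.cc_spec S hzM).1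
  refine ⟨hmem, fun a ha η => ?_⟩
  obtain ⟨haN, ⟨C, hC⟩, hD⟩ := ha
  have h2 : Tendsto (fun n => (ccU M ξ rep ζ z * a n - a n * ccU M ξ rep ζ z) ξ) atTop
      (𝓝 0) := by
    rw [tendsto_zero_iff_norm_tendsto_zero, Metric.tendsto_atTop]
    intro ε hε
    obtain ⟨δ, hδ, h1⟩ := O.cc_rel_approx S one_pos hzM hzM hzc C (half_pos hε)
    obtain ⟨n0, hn0⟩ := eventually_atTop.1 (hD δ hδ)
    refine ⟨n0, fun n hn => ?_⟩
    rw [dist_zero_right, norm_norm]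
    have h3 := h1 (a n) (haN n) (hC n) (hn0 n hn)
    have h4 : (ccU M ξ rep ζ z * a n - a n * ccU M ξ rep ζ z) ξ =
        -((a n * ccU M ξ rep ζ z - ccU M ξ rep ζ z * a n) ξ) := by
      rw [← neg_apply, neg_sub]
    rw [h4, norm_neg]
    linarith
  exact tendsto_of_bounded M S.dense_comm
    (x := fun n => ccU M ξ rep ζ z * a n - a n * ccU M ξ rep ζ z)
    (C := ‖ccU M ξ rep ζ z‖ * C + C * ‖ccU M ξ rep ζ z‖)
    (fun n => sub_mem (mul_mem hmem (S.le _ (haN n))) (mul_mem (S.le _ (haN n)) hmem))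
    (fun n => (norm_sub_le _ _).trans (add_le_add
      ((norm_mul_le _ _).trans (mul_le_mul_of_nonneg_left (hC n) (norm_nonneg _)))
      ((norm_mul_le _ _).trans (mul_le_mul_of_nonneg_right (hC n) (norm_nonneg _))))) h2 η

/-- U11c -/
theorem al_cc (S : Setting M N E ξ) (hAP : AP MT NT ET ζ) {l : ℝ} (hl : 0 < l)
    (hG : l ∈ Gam NT ζ) {z : K →L[ℂ] K} (hz : z ∈ Qalg MT NT ζ) :
    rep (fun _ => ccU M ξ rep ζ (al MT NT ζ l z)) =
      al MT NT ζ l (rep fun _ => ccU M ξ rep ζ z) := by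
  have hz' : al MT NT ζ l z ∈ Qalg MT NT ζ := hAP.al_mem hG hz
  have hrel : Rel NT ζ l z (al MT NT ζ l z) := hAP.al_rel hG hz
  have hzM := (mem_Qalg.1 hz).1
  have hzM' := (mem_Qalg.1 hz').1
  have hy := (O.cc_spec S hzM).1
  have hy' := (O.cc_spec S hzM').1
  refine (hAP.al_unique hG (O.const_mem_Qalg S (O.cc_bicent S hz)) ?_).symm
  intro A hA
  obtain ⟨a, ha, haA, rfl⟩ := O.exists_lamU S hl hA
  have haS := S.lamU_appS hl ha
  have h1 := U11.AppS_mul haS (U11.const_mem_AppS S hy)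
  have h2 := U11.AppS_mul (U11.const_mem_AppS S hy') haS
  have h0 : rep (fun n => a n * ccU M ξ rep ζ z - ccU M ξ rep ζ (al MT NT ζ l z) * a n) = 0 := by
    refine O.u11_rep_eq_zero (U11.AppS_sub h1 h2) fun ε hε => ?_
    obtain ⟨δ, hδ, h3⟩ := O.cc_rel_approx S hl hzM hzM' hrel (2 * ‖rep a‖) hε
    filter_upwards [ha.2.2 δ hδ] with n hn
    exact h3 (a n) (ha.1 n) (haA n) hn
  rw [O.u11_rep_sub h1 h2, O.mul a haS _ (U11.const_mem_AppS S hy),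
    O.mul _ (U11.const_mem_AppS S hy') a haS, sub_eq_zero] at h0
  exact h0

end Oc

end Pool.Agent.Helper23

end

section

open scoped InnerProductSpace Topology

open ContinuousLinearMap Filter

namespace Pool.Agent.Helper23

universe u

variable {H : Type u} [NormedAddCommGroup H] [InnerProductSpace ℂ H] [CompleteSpace H]

variable {K : Type u} [NormedAddCommGroup K] [InnerProductSpace ℂ K] [CompleteSpace K]

variable {M N : VonNeumannAlgebra H} {ξ : H} {E : (H →L[ℂ] H) → (H →L[ℂ] H)}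

namespace Oc

variable {MT NT : VonNeumannAlgebra K} {ET : (K →L[ℂ] K) → (K →L[ℂ] K)} {ζ : K}
  {rep : (ℕ → H →L[ℂ] H) → (K →L[ℂ] K)} (O : Oc M N E ξ MT NT ET ζ rep)

include O

/-- an element of `M` which kills all asymptotic eigenoperators vanishes -/
lemma u12_zero (S : Setting M N E ξ) (hAP : AP MT NT ET ζ) {l : ℝ} (hG : l ∈ Gam NT ζ)
    {z : H →L[ℂ] H} (hz : z ∈ M)
    (h : ∀ a, LamSeq N ξ l a → Tendsto (fun n => z (a n ξ)) atTop (𝓝 0)) : z = 0 := by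
  have hl : 0 < l := hG.1
  have hzS := u12_AppS_const S hz
  have key : ∀ A ∈ eig NT ζ l, rep (fun _ => z) * A = 0 * A := by
    intro A hA
    obtain ⟨a, haU, -, rfl⟩ := O.exists_lamU S hl hA
    have haS := S.lamU_appS hl haU
    have hcS := u12_AppS_mul hzS haS
    rw [zero_mul, ← O.mul _ hzS _ haS]
    refine O.set.sep _ (O.memM _ hcS) ?_
    -- the norms tend to zero along the ultrafilter
    have h1 := O.u12_norm_sq hcS
    have h2 : Tendsto (fun n => ‖(z * a n) ξ‖ ^ 2) (UU : Filter ℕ) (𝓝 0) := by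
      have h3 : Tendsto (fun n => ‖(z * a n) ξ‖) (UU : Filter ℕ) (𝓝 0) := by
        rw [Metric.tendsto_nhds]
        intro ε hε
        by_contra hcon
        have hcon2 : ∀ᶠ n in (UU : Filter ℕ), ε ≤ ‖(z * a n) ξ‖ := by
          rw [Filter.not_eventually, Ultrafilter.frequently_iff_eventually] at hcon
          filter_upwards [hcon] with n hn
          rw [dist_zero_right, norm_norm, not_lt] at hn
          exact hn
        have hex : ∀ k : ℕ, ∃ n, ε ≤ ‖(z * a n) ξ‖ ∧ Defect N ξ l (1 / ((k : ℝ) + 1)) (a n) :=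
          fun k => (hcon2.and (haU.2.2 _ (by (clear * -; positivity)))).exists
        choose φ hφ hφ' using hex
        obtain ⟨C, hC⟩ := haU.2.1
        have hb : LamSeq N ξ l (fun k => a (φ k)) := by
          refine ⟨fun k => haU.1 _, ⟨C, fun k => hC _⟩, fun δ hδ => ?_⟩
          obtain ⟨k0, hk0⟩ := exists_nat_one_div_lt hδ
          filter_upwards [eventually_ge_atTop k0] with k hk
          refine (hφ' k).mono (le_trans ?_ hk0.le)
          have : (k0 : ℝ) ≤ k := by exact_mod_cast hk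
          exact one_div_le_one_div_of_le (by (clear * -; positivity)) (by (clear * - this; linarith))
        have h4 := (h _ hb).norm
        rw [norm_zero] at h4
        have h5 := (h4.eventually (gt_mem_nhds hε)).exists
        obtain ⟨k, hk⟩ := h5
        exact absurd (hφ k) (not_le.2 hk)
      have := h3.pow 2
      simpa using this
    have h6 := tendsto_nhds_unique h1 h2
    exact norm_eq_zero.1 (pow_eq_zero_iff (two_ne_zero)|>.1 h6)
  have h0 : rep (fun _ => z) = 0 := Rel.unique hAP.irr hl.ne' hG.2 key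
  exact O.u12_inj S hz (zero_mem M) (by rw [h0, O.u12_rep_zero_const])

lemma u12_unique (S : Setting M N E ξ) (hAP : AP MT NT ET ζ) {l : ℝ} (hG : l ∈ Gam NT ζ)
    {x y y' : H →L[ℂ] H} (hy : y ∈ M) (hy' : y' ∈ M)
    (h : ∀ a, LamSeq N ξ l a → Tendsto (fun n => a n (x ξ) - y (a n ξ)) atTop (𝓝 0))
    (h' : ∀ a, LamSeq N ξ l a → Tendsto (fun n => a n (x ξ) - y' (a n ξ)) atTop (𝓝 0)) :
    y = y' := by
  refine sub_eq_zero.1 (O.u12_zero S hAP hG (sub_mem hy hy') fun a ha => ?_)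
  have := (h' a ha).sub (h a ha)
  rw [sub_zero] at this
  refine this.congr fun n => ?_
  rw [sub_apply]
  abel

/-- existence of the flow -/
lemma u12_exists (S : Setting M N E ξ) (hAP : AP MT NT ET ζ) {l : ℝ} (hG : l ∈ Gam NT ζ)
    {x : H →L[ℂ] H} (hx : x ∈ Bicent M N ξ) :
    ∃ y ∈ Bicent M N ξ, (∀ a, LamSeq N ξ l a →
      Tendsto (fun n => a n (x ξ) - y (a n ξ)) atTop (𝓝 0)) ∧
      rep (fun _ => y) = al MT NT ζ l (rep fun _ => x) := by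
  have hl : 0 < l := hG.1
  have hX := O.const_mem_Qalg S hx
  have hY := hAP.al_mem hG hX
  have hyB := O.cc_bicent S hY
  have hrep : rep (fun _ => ccU M ξ rep ζ (al MT NT ζ l (rep fun _ => x))) =
      al MT NT ζ l (rep fun _ => x) := by
    rw [O.al_cc S hAP hl hG hX, O.cc_const S hx.1]
  refine ⟨_, hyB, fun a ha => ?_, hrep⟩
  generalize ccU M ξ rep ζ (al MT NT ζ l (rep fun _ => x)) = y at hyB hrep
  by_contra hcon
  have h1 : ∃ ε > 0, ∃ᶠ n in atTop, ε ≤ ‖a n (x ξ) - y (a n ξ)‖ := by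
    rw [Metric.tendsto_nhds] at hcon
    push Not at hcon
    obtain ⟨ε, hε, hf⟩ := hcon
    refine ⟨ε, hε, hf.mono fun n hn => ?_⟩
    rwa [dist_zero_right] at hn
  obtain ⟨ε, hε, hf⟩ := h1
  obtain ⟨φ, hφ, hφ'⟩ := Filter.extraction_of_frequently_atTop hf
  have hb := u12_comp ha hφ.tendsto_atTop
  have hbU := u12_lamU hb
  have hbS := S.lamU_appS hl hbU
  have hxS := u12_AppS_const S hx.1
  have hyS := u12_AppS_const S hyB.1
  have hbx := u12_AppS_mul hbS hxS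
  have hyb := u12_AppS_mul hyS hbS
  have hrel := hAP.al_rel hG hX _ (O.eig_of_lamU S hl hbU)
  rw [← hrep, ← O.mul _ hbS _ hxS, ← O.mul _ hyS _ hbS] at hrel
  have hdS : (fun n => a (φ n) * x - y * a (φ n)) ∈ AppS M ξ := by
    have := u12_AppS_add hbx (u12_AppS_smul (-1) hyb)
    simpa only [neg_one_smul, ← sub_eq_add_neg] using this
  have h2 := O.u12_norm_sq hdS
  rw [O.u12_sub hbx hyb, hrel, sub_self] at h2
  simp only [zero_apply, norm_zero, ne_eq, OfNat.ofNat_ne_zero, not_false_eq_true, zero_pow]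
    at h2
  have h3 : ∀ᶠ n in (UU : Filter ℕ), ‖(a (φ n) * x - y * a (φ n)) ξ‖ ^ 2 < ε ^ 2 :=
    h2.eventually (gt_mem_nhds (by (clear * - hε; positivity)))
  obtain ⟨n, hn⟩ := h3.exists
  have h4 : ε ≤ ‖(a (φ n) * x - y * a (φ n)) ξ‖ := hφ' n
  have h5 := pow_le_pow_left₀ hε.le h4 2
  (clear * - hn h5; linarith)

/-- U12a -/
theorem btU_spec (S : Setting M N E ξ) (hAP : AP MT NT ET ζ) (hG : ∀ l : ℝ, 0 < l → l ∈ Gam NT ζ)
    {l : ℝ} (hl : 0 < l) {x : H →L[ℂ] H} (hx : x ∈ Bicent M N ξ) :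
    btU M N ξ l x ∈ Bicent M N ξ ∧
    (∀ a, LamSeq N ξ l a → Tendsto (fun n => a n (x ξ) - btU M N ξ l x (a n ξ)) atTop (𝓝 0)) ∧
    rep (fun _ => btU M N ξ l x) = al MT NT ζ l (rep fun _ => x) := by
  obtain ⟨y, hy, hy1, hy2⟩ := O.u12_exists S hAP (hG l hl) hx
  have hex : ∃ y ∈ Bicent M N ξ, ∀ a, LamSeq N ξ l a →
      Tendsto (fun n => a n (x ξ) - y (a n ξ)) atTop (𝓝 0) := ⟨y, hy, hy1⟩
  have hb : btU M N ξ l x = hex.choose := dif_pos hex
  have h1 : btU M N ξ l x ∈ Bicent M N ξ := by rw [hb]; exact hex.choose_spec.1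
  have h2 : ∀ a, LamSeq N ξ l a →
      Tendsto (fun n => a n (x ξ) - btU M N ξ l x (a n ξ)) atTop (𝓝 0) := by
    rw [hb]; exact hex.choose_spec.2
  refine ⟨h1, h2, ?_⟩
  rw [O.u12_unique S hAP (hG l hl) h1.1 hy.1 h2 hy1, hy2]

/-- U12b -/
theorem btU_unique (S : Setting M N E ξ) (hAP : AP MT NT ET ζ)
    (hG : ∀ l : ℝ, 0 < l → l ∈ Gam NT ζ) {l : ℝ} (hl : 0 < l) {x y : H →L[ℂ] H}
    (hx : x ∈ Bicent M N ξ) (hy : y ∈ M)
    (h : ∀ a, LamSeq N ξ l a → Tendsto (fun n => (a n * x - y * a n) ξ) atTop (𝓝 0)) :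
    y = btU M N ξ l x := by
  obtain ⟨h1, h2, -⟩ := O.btU_spec S hAP hG hl hx
  exact O.u12_unique S hAP (hG l hl) hy h1.1 h h2

/-- U12c -/
theorem btU_cc (S : Setting M N E ξ) (hAP : AP MT NT ET ζ)
    (hG : ∀ l : ℝ, 0 < l → l ∈ Gam NT ζ) {l : ℝ} (hl : 0 < l) {z : K →L[ℂ] K}
    (hz : z ∈ Qalg MT NT ζ) :
    btU M N ξ l (ccU M ξ rep ζ z) = ccU M ξ rep ζ (al MT NT ζ l z) := by
  obtain ⟨h1, -, h3⟩ := O.btU_spec S hAP hG hl (O.cc_bicent S hz)
  have h4 := O.cc_bicent S (hAP.al_mem (hG l hl) hz)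
  refine O.u12_inj S h1.1 h4.1 ?_
  rw [h3, O.al_cc S hAP hl (hG l hl) hz]

end Oc

end Pool.Agent.Helper23

end

end

section

section

open scoped InnerProductSpace Topology

open ContinuousLinearMap Filter

namespace Pool.Agent.Helper23

variable {H : Type*} [NormedAddCommGroup H] [InnerProductSpace ℂ H] [CompleteSpace H]

variable {M N : VonNeumannAlgebra H} {ξ : H} {E : (H →L[ℂ] H) → (H →L[ℂ] H)}

namespace AP

variable (S : AP M N E ξ)

include S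

/-- STEP 2 -/
lemma spread_zero {y : H →L[ℂ] H} (hy : y ∈ Bicent M N ξ) {R κ : ℝ} (hR : 0 < R) (hκ : 0 < κ) :
    ∃ K1 : ℝ, 0 ≤ K1 ∧ ∀ T T', Partner N ξ T T' →
      ‖(y * T - T * y) ξ‖ ^ 2 ≤ 2 * κ + K1 * ‖(T' - T) ξ‖ ^ 2 +
        2 * ‖y ξ‖ ^ 2 / R ^ 2 * ‖(star T * T) ξ‖ ^ 2 := by
  have hyQ := S.bicent_memQ hy
  obtain ⟨K0, hK0, h0⟩ := bicent_modulus S.norm_one hy (k0 := 4 * κ / R ^ 2) (by (clear * - hκ hR; positivity))
  refine ⟨81 / 8 * K0, by (clear * - hK0; positivity), fun T T' hTT => ?_⟩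
  obtain ⟨g, hg, g1, g2, g3⟩ := exists_trunc (ξ := ξ) hTT.1 hR
  set d := ‖(T' - T) ξ‖ with hd
  have hd0 : 0 ≤ d := norm_nonneg _
  have hDg := g3 d hd0 (hTT.defect S.norm_one)
  set b : ℂ := ((2 / R : ℝ) : ℂ) with hb
  have hbn : ‖b‖ = 2 / R := by rw [hb, Complex.norm_real, Real.norm_of_nonneg (by positivity)]
  have h1 := h0 (b • g) (smul_mem' _ hg) (by
    rw [norm_smul, hbn]
    calc 2 / R * ‖g‖ ≤ 2 / R * (R / 2) := by (clear * - g1 hR; gcongr)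
      _ = 1 := by field_simp) (2 / R * (9 / 4 * d)) (by (clear * - hR; positivity)) (by
    have := hDg.smul b
    rwa [hbn] at this)
  have e1 : (y * (b • g) - (b • g) * y) ξ = b • ((y * g - g * y) ξ) := by
    rw [mul_smul_comm, smul_mul_assoc, ← smul_sub]; rfl
  rw [e1, norm_smul, hbn] at h1
  have h2 : ‖(y * g - g * y) ξ‖ ^ 2 ≤ κ + K0 * (81 / 16) * d ^ 2 := by
    have h3 : R ^ 2 / 4 * (2 / R * ‖(y * g - g * y) ξ‖) ^ 2 ≤
        R ^ 2 / 4 * (4 * κ / R ^ 2 + K0 * (2 / R * (9 / 4 * d)) ^ 2) := by (clear * - h1 hR; gcongr)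
    calc ‖(y * g - g * y) ξ‖ ^ 2 = R ^ 2 / 4 * (2 / R * ‖(y * g - g * y) ξ‖) ^ 2 := by
          field_simp; ring
      _ ≤ _ := h3
      _ = _ := by field_simp; ring
  have h3 : ‖(y * (T - g) - (T - g) * y) ξ‖ ≤ 2 * ‖y ξ‖ * ‖(T - g) ξ‖ := by
    change ‖y ((T - g) ξ) - (T - g) (y ξ)‖ ≤ _
    refine (norm_sub_le _ _).trans ?_
    rw [S.norm_Q S.irr hyQ (sub_mem hTT.1 hg), S.norm_NQ hyQ (sub_mem hTT.1 hg)]
    (clear * -; linarith)
  have h4 : ‖(y * (T - g) - (T - g) * y) ξ‖ ^ 2 ≤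
      ‖y ξ‖ ^ 2 / R ^ 2 * ‖(star T * T) ξ‖ ^ 2 := by
    calc ‖(y * (T - g) - (T - g) * y) ξ‖ ^ 2 ≤ (2 * ‖y ξ‖ * ‖(T - g) ξ‖) ^ 2 := by (clear * - h3; gcongr)
      _ ≤ (2 * ‖y ξ‖ * ((2 * R)⁻¹ * ‖(star T * T) ξ‖)) ^ 2 := by (clear * - g2; gcongr)
      _ = _ := by (clear * - hR; field_simp)
  have e2 : (y * T - T * y) ξ = (y * g - g * y) ξ + (y * (T - g) - (T - g) * y) ξ := by
    rw [← add_apply]
    congr 1
    noncomm_ring
  have h5 : ‖(y * T - T * y) ξ‖ ^ 2 ≤ 2 * ‖(y * g - g * y) ξ‖ ^ 2 +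
      2 * ‖(y * (T - g) - (T - g) * y) ξ‖ ^ 2 := by
    rw [e2]
    exact norm_add_sq_le_two _ _
  have e3 : 2 * ‖y ξ‖ ^ 2 / R ^ 2 = 2 * (‖y ξ‖ ^ 2 / R ^ 2) := by ring
  rw [e3]
  (clear * - h2 h4 h5; linarith)

end AP

end Pool.Agent.Helper23

end

end

section

section

open scoped InnerProductSpace Topology ENNReal

open ContinuousLinearMap Filter MeasureTheory

namespace Pool.Agent.Helper23

variable {H : Type*} [NormedAddCommGroup H] [InnerProductSpace ℂ H] [CompleteSpace H]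

variable {M N : VonNeumannAlgebra H} {ξ : H} {E : (H →L[ℂ] H) → (H →L[ℂ] H)}

namespace AP

variable (S : AP M N E ξ)

include S

/-- the core estimate -/
theorem core' {y : H →L[ℂ] H} (hy : y ∈ Qalg M N ξ)
    {κ K : ℝ} (hκ : 0 < κ) (hK : 0 ≤ K) (hLB : LB N ξ y κ K) {γ₀ : ℝ} (hγ : γ₀ ∈ Gam N ξ)
    (h1 : 1 < γ₀) (ht1 : Real.log γ₀ ≤ 1 / 2) (m : ℕ) {G : ℝ} (hG : 0 < G)
    (B : Finset hw) {a b : ℤ × hw × ℤ → H →L[ℂ] H} (haN : ∀ l, a l ∈ N) (hbN : ∀ l, b l ∈ N)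
    (hab : ∀ l, Partner N ξ (a l)
      (((Real.exp ((l.2.2 - l.1) * Real.log γ₀) : ℝ) : ℂ) • b l))
    (hsa : ∑ j ∈ Finset.Ico (-(m : ℤ)) m, ∑ i ∈ Finset.Ico (-(m : ℤ)) m, ∑ k ∈ B,
      ‖a (i, k, j) ξ‖ ^ 2 ≤ G)
    (hsb : ∑ j ∈ Finset.Ico (-(m : ℤ)) m, ∑ i ∈ Finset.Ico (-(m : ℤ)) m, ∑ k ∈ B,
      ‖(b (i, k, j) - a (i, k, j)) ξ‖ ^ 2 ≤ 25 * Real.log γ₀ ^ 2 * G)
    {n : ℕ} (hn : 0 < n)
    (hnδ : K * ((1 + 2 * Real.log γ₀ ^ 2) ^ n - 1) ≤ κ) :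
    ∃ z ∈ Qalg M N ξ, ‖(z - y) ξ‖ ^ 2 ≤ 2 * κ ∧
      ∑ j ∈ Finset.Ico (-(m : ℤ)) m, ∑ i ∈ Finset.Ico (-(m : ℤ)) m, ∑ k ∈ B,
        ‖(al M N ξ (γ₀ ^ (i - m)) z * a (i, k, j) -
          a (i, k, j) * al M N ξ (γ₀ ^ (j - m)) z) ξ‖ ^ 2 ≤
        96 * G * κ / n := by
  classical
  set t := Real.log γ₀ with ht
  have ht0 : 0 < t := Real.log_pos h1
  have hγ0 : 0 < γ₀ := hγ.1
  set ga : ℤ → ℝ := fun i => γ₀ ^ (i - m) with hga
  have hgaG : ∀ i, ga i ∈ Gam N ξ := fun i => S.Gam_zpow hγ _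
  have hga0 : ∀ i, 0 < ga i := fun i => (hgaG i).1
  choose v hv hv1 hvξ hvi hvc using fun i => S.exists_contr (hgaG i)
  set A := Finset.Ico (-(m : ℤ)) m with hA
  have hAle : ∀ i ∈ A, ga i ≤ 1 := by
    intro i hi
    rw [hA, Finset.mem_Ico] at hi
    exact zpow_le_one_of_nonpos₀ h1.le (by omega)
  have hco : ∀ i ∈ A, v i * star (v i) = 1 := fun i hi => hvc i (hAle i hi)
  -- the family
  set T : Finset (ℤ × hw × ℤ) := A ×ˢ B ×ˢ A with hT
  have hTmem : ∀ l ∈ T, l.1 ∈ A ∧ l.2.2 ∈ A := by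
    intro l hl
    rw [hT, Finset.mem_product, Finset.mem_product] at hl
    exact ⟨hl.1, hl.2.2⟩
  set c : ℤ × hw × ℤ → H →L[ℂ] H := fun l =>
    (((Real.sqrt (ga l.2.2))⁻¹ : ℝ) : ℂ) • (star (v l.1) * a l * v l.2.2) with hc
  set c' : ℤ × hw × ℤ → H →L[ℂ] H := fun l =>
    (((Real.sqrt (ga l.2.2))⁻¹ : ℝ) : ℂ) • (star (v l.1) * b l * v l.2.2) with hc'
  have hnorm : ∀ l ∈ T, ∀ x ∈ M, ‖((((Real.sqrt (ga l.2.2))⁻¹ : ℝ) : ℂ) •
      (star (v l.1) * x * v l.2.2)) ξ‖ ^ 2 = ‖x ξ‖ ^ 2 := by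
    intro l hl x hx
    rw [smul_apply, norm_smul, mul_pow, norm_comp S.toSetting (hco _ (hTmem l hl).1) (hv l.2.2)
      (hco _ (hTmem l hl).2) hx, Complex.norm_real, Real.norm_of_nonneg (by (clear * - h1; positivity)), inv_pow,
      Real.sq_sqrt (hga0 _).le, ← mul_assoc, inv_mul_cancel₀ (hga0 _).ne', one_mul]
  have hpart : ∀ l, Partner N ξ (c l) (c' l) := by
    intro l
    have p1 := Partner.of_eig (inv_ne_zero (hga0 l.1).ne') (eig_star (hga0 l.1).ne' (hv l.1))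
    have p2 := hab l
    have p3 := Partner.of_eig (hga0 l.2.2).ne' (hv l.2.2)
    have p4 := Partner.smul (((Real.sqrt (ga l.2.2))⁻¹ : ℝ) : ℂ) ((p1.mul p2).mul p3)
    have e1 : (((Real.sqrt (ga l.2.2))⁻¹ : ℝ) : ℂ) •
        (((((ga l.1)⁻¹)⁻¹ : ℝ) : ℂ) • star (v l.1) *
          (((Real.exp ((l.2.2 - l.1) * t) : ℝ) : ℂ) • b l) *
          ((((ga l.2.2)⁻¹ : ℝ) : ℂ) • v l.2.2)) = c' l := by
      rw [hc']
      simp only [smul_mul_assoc, mul_smul_comm, smul_smul]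
      congr 1
      rw [← Complex.ofReal_mul, ← Complex.ofReal_mul, ← Complex.ofReal_mul]
      congr 1
      have e2 : ga l.1 = Real.exp ((l.1 - m) * t) := by
        rw [hga, ht]
        simp only
        rw [← Real.rpow_intCast, Real.rpow_def_of_pos hγ0]
        push_cast
        ring_nf
      have e3 : ga l.2.2 = Real.exp ((l.2.2 - m) * t) := by
        rw [hga, ht]
        simp only
        rw [← Real.rpow_intCast, Real.rpow_def_of_pos hγ0]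
        push_cast
        ring_nf
      have e4 : (ga l.2.2)⁻¹ * (Real.exp ((l.2.2 - l.1) * t) * (ga l.1)⁻¹⁻¹) = 1 := by
        rw [inv_inv, e2, e3, ← Real.exp_neg, ← Real.exp_add, ← Real.exp_add]
        rw [Real.exp_eq_one_iff]
        ring
      calc _ = (Real.sqrt (ga l.2.2))⁻¹ *
            ((ga l.2.2)⁻¹ * (Real.exp ((l.2.2 - l.1) * t) * (ga l.1)⁻¹⁻¹)) := by ring
        _ = (Real.sqrt (ga l.2.2))⁻¹ := by rw [e4, mul_one]
    rw [e1] at p4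
    exact p4
  have hsum : ∀ f : ℤ × hw × ℤ → ℝ, ∑ l : T, f l =
      ∑ j ∈ A, ∑ i ∈ A, ∑ k ∈ B, f (i, k, j) := by
    intro f
    rw [Finset.sum_coe_sort T f, hT, Finset.sum_product, Finset.sum_comm (s := A) (t := A)]
    refine Finset.sum_congr rfl fun i _ => ?_
    rw [Finset.sum_product, Finset.sum_comm]
  have hm : ∑ l : T, ‖c l ξ‖ ^ 2 ≤ G := by
    have e1 : ∑ l : T, ‖c l ξ‖ ^ 2 = ∑ l : T, ‖a l ξ‖ ^ 2 :=
      Finset.sum_congr rfl fun l _ => hnorm l l.2 _ (S.le _ (haN l))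
    rw [e1, hsum (fun l => ‖a l ξ‖ ^ 2)]
    exact hsa
  have hδ : ∑ l : T, ‖(c' l - c l) ξ‖ ^ 2 ≤ 25 * t ^ 2 * G := by
    have e1 : ∑ l : T, ‖(c' l - c l) ξ‖ ^ 2 = ∑ l : T, ‖(b l - a l) ξ‖ ^ 2 := by
      refine Finset.sum_congr rfl fun l _ => ?_
      rw [← hnorm l l.2 _ (sub_mem (S.le _ (hbN l)) (S.le _ (haN l)))]
      congr 3
      rw [hc, hc', mul_sub, sub_mul, smul_sub]
    rw [e1, hsum (fun l => ‖(b l - a l) ξ‖ ^ 2)]
    exact hsb
  obtain ⟨z, hz, hzy, hzc⟩ := S.smoothing' hy hκ hK hLB (ι := T) (c := fun l => c l)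
    (c' := fun l => c' l) (fun l => hpart l) hG ht0 (by (clear * - ht1 ht0; linarith))
    hm hδ hn hnδ
  refine ⟨z, hz, hzy, ?_⟩
  have e1 : ∑ l : T, ‖(z * c l - c l * z) ξ‖ ^ 2 = ∑ l : T,
      ‖(al M N ξ (ga (l : ℤ × hw × ℤ).1) z * a l - a l * al M N ξ (ga (l : ℤ × hw × ℤ).2.2) z) ξ‖ ^ 2 := by
    refine Finset.sum_congr rfl fun l _ => ?_
    have hzi := (mem_Qalg.1 (S.al_mem (hgaG (l : ℤ × hw × ℤ).1) hz)).1
    have hzj := (mem_Qalg.1 (S.al_mem (hgaG (l : ℤ × hw × ℤ).2.2) hz)).1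
    rw [← hnorm l l.2 _ (sub_mem (mul_mem hzi (S.le _ (haN l))) (mul_mem (S.le _ (haN l)) hzj))]
    congr 3
    have r1 : star (v (l : ℤ × hw × ℤ).1) * al M N ξ (ga (l : ℤ × hw × ℤ).1) z =
        z * star (v (l : ℤ × hw × ℤ).1) :=
      Rel.adj S.irr (hga0 _).ne' (hgaG _).2 (S.al_mem (hgaG _) hz) (S.al_rel (hgaG _) hz)
        (eig_star (hga0 _).ne' (hv _))
    have r2 : v (l : ℤ × hw × ℤ).2.2 * z =
        al M N ξ (ga (l : ℤ × hw × ℤ).2.2) z * v (l : ℤ × hw × ℤ).2.2 :=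
      S.al_rel (hgaG _) hz _ (hv _)
    rw [hc]
    simp only
    rw [mul_smul_comm, smul_mul_assoc, ← smul_sub]
    congr 1
    rw [mul_sub, sub_mul]
    congr 1
    · rw [← mul_assoc, ← mul_assoc, ← r1]
      simp only [mul_assoc]
    · rw [mul_assoc, r2]
      simp only [mul_assoc]
  rw [e1, hsum (fun l => ‖(al M N ξ (ga l.1) z * a l - a l * al M N ξ (ga l.2.2) z) ξ‖ ^ 2)] at hzc
  exact hzc

end AP

end Pool.Agent.Helper23

end

end

section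

section

open scoped InnerProductSpace Topology

open ContinuousLinearMap Filter

namespace Pool.Agent.Helper23

variable {H : Type*} [NormedAddCommGroup H] [InnerProductSpace ℂ H] [CompleteSpace H]

variable {M N : VonNeumannAlgebra H} {ξ : H} {E : (H →L[ℂ] H) → (H →L[ℂ] H)}

namespace AP

variable (S : AP M N E ξ)

include S

/-- MODULE A1 : quantitative almost commutation of the elements of the bicentralizer with
(unbounded) partner pairs. -/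
theorem lb_of_bicent {y : H →L[ℂ] H} (hy : y ∈ Bicent M N ξ) {κ : ℝ} (hκ : 0 < κ) :
    ∃ K : ℝ, 0 ≤ K ∧ LB N ξ y κ K := by
  have hyQ := S.bicent_memQ hy
  set κ' : ℝ := κ / 3 with hκ'
  have hκ'0 : 0 < κ' := by (clear * - hκ; positivity)
  set R : ℝ := Real.sqrt (8 * ‖y ξ‖ ^ 2 / κ' + 1) with hR
  have hR2 : R ^ 2 = 8 * ‖y ξ‖ ^ 2 / κ' + 1 := Real.sq_sqrt (by (clear * - hκ; positivity))
  have hR0 : 0 < R := Real.sqrt_pos.2 (by positivity)
  obtain ⟨K1, hK1, h0⟩ := S.spread_zero hy hR0 hκ'0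
  set L : ℝ := 2 * ‖y ξ‖ ^ 2 / R ^ 2 with hL
  have hL0 : 0 ≤ L := by (clear * - hκ; positivity)
  have hL4 : 4 * L ≤ κ' := by
    have h1 : 4 * L = 8 * ‖y ξ‖ ^ 2 / R ^ 2 := by rw [hL]; ring
    rw [h1, div_le_iff₀ (by (clear * - hκ; positivity)), hR2, mul_add, mul_div_cancel₀ _ hκ'0.ne']
    (clear * - hκ'0; linarith)
  refine ⟨K1 + L, by (clear * - hK1 hκ; positivity), fun C C' hC => ?_⟩
  by_cases hC0 : ‖C ξ‖ = 0
  · have h1 : C = 0 := S.sep C (S.le _ hC.1) (norm_eq_zero.1 hC0)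
    rw [h1]
    have h2 : (y * (0 : H →L[ℂ] H) - 0 * y) ξ = 0 := by simp
    rw [h2, norm_zero, zero_pow two_ne_zero]
    (clear * - hκ hK1; positivity)
  have hCpos : 0 < ‖C ξ‖ := lt_of_le_of_ne (norm_nonneg _) (Ne.symm hC0)
  set t : ℝ := ‖C ξ‖⁻¹ with ht
  have ht0 : 0 < t := inv_pos.2 hCpos
  set D := (t : ℂ) • C with hD
  set D' := (t : ℂ) • C' with hD'
  have hDD : Partner N ξ D D' := hC.smul _
  have n1 : ‖D ξ‖ = 1 := by
    rw [hD, smul_apply, norm_smul_xi ht0.le, ht, inv_mul_cancel₀ hC0]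
  have n2 : ‖(y * D - D * y) ξ‖ = t * ‖(y * C - C * y) ξ‖ := by
    rw [hD, comm_smul_xi, norm_smul_xi ht0.le]
  have n3 : ‖(D' - D) ξ‖ = t * ‖(C' - C) ξ‖ := by
    rw [hD, hD', ← smul_sub, smul_apply, norm_smul_xi ht0.le]
  set d := ‖(D' - D) ξ‖ with hd
  have hd0 : 0 ≤ d := norm_nonneg _
  have hbe : ‖(star D) ξ‖ ^ 2 ≤ 1 + d := by
    have h1 := hDD.inner_self
    have h2 := congrArg norm h1
    rw [Complex.norm_real, Real.norm_of_nonneg (by (clear * -; positivity))] at h2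
    rw [← h2]
    refine (norm_inner_le_norm _ _).trans ?_
    rw [n1, one_mul]
    have h3 : D' ξ = D ξ + (D' - D) ξ := by rw [sub_apply]; abel
    rw [h3]
    refine (norm_add_le _ _).trans ?_
    rw [n1]
  have hlim : ‖(y * D - D * y) ξ‖ ^ 2 ≤ 2 * κ' + K1 * d ^ 2 +
      L * (‖(star D * D) ξ‖ ^ 2 * 0 +
        (‖D ξ‖ ^ 4 + 2 * (‖D ξ‖ ^ 2 * ‖(star D) ξ‖ ^ 2))) := by
    have h1 : Tendsto (fun m : ℕ => 2 * κ' + K1 * d ^ 2 +
      L * (‖(star D * D) ξ‖ ^ 2 * (1 / (m : ℝ)) +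
        (‖D ξ‖ ^ 4 + 2 * (‖D ξ‖ ^ 2 * ‖(star D) ξ‖ ^ 2)))) atTop (𝓝 (2 * κ' + K1 * d ^ 2 +
      L * (‖(star D * D) ξ‖ ^ 2 * 0 +
        (‖D ξ‖ ^ 4 + 2 * (‖D ξ‖ ^ 2 * ‖(star D) ξ‖ ^ 2))))) := by
      refine Tendsto.const_add _ (Tendsto.const_mul _ (Tendsto.add_const _
        (Tendsto.const_mul _ ?_)))
      exact tendsto_one_div_atTop_nhds_zero_nat
    refine ge_of_tendsto h1 ?_
    filter_upwards [eventually_gt_atTop 0] with m hm
    exact S.spread_m hyQ hL0 h0 hDD m hm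
  rw [n1] at hlim
  have hfin : ‖(y * D - D * y) ξ‖ ^ 2 ≤ κ + (K1 + L) * d ^ 2 := by
    have h1 : L * (1 + 2 * ‖(star D) ξ‖ ^ 2) ≤ L * (4 + d ^ 2) := by
      refine mul_le_mul_of_nonneg_left ?_ hL0
      (clear * - hbe; nlinarith [sq_nonneg (d - 1)])
    have h2 : κ = 3 * κ' := by rw [hκ']; ring
    rw [h2]
    (clear * - hL4 hlim h1; nlinarith)
  rw [n2, n3] at hfin
  have h1 : ‖C ξ‖ ^ 2 * (t * ‖(y * C - C * y) ξ‖) ^ 2 ≤
      ‖C ξ‖ ^ 2 * (κ + (K1 + L) * (t * ‖(C' - C) ξ‖) ^ 2) := by (clear * - hfin hC0; gcongr)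
  have htC : ‖C ξ‖ * t = 1 := mul_inv_cancel₀ hC0
  calc ‖(y * C - C * y) ξ‖ ^ 2 = (‖C ξ‖ * t) ^ 2 * ‖(y * C - C * y) ξ‖ ^ 2 := by
        rw [htC]; ring
    _ = ‖C ξ‖ ^ 2 * (t * ‖(y * C - C * y) ξ‖) ^ 2 := by ring
    _ ≤ _ := h1
    _ = κ * ‖C ξ‖ ^ 2 + (K1 + L) * ((‖C ξ‖ * t) ^ 2 * ‖(C' - C) ξ‖ ^ 2) := by ring
    _ = _ := by rw [htC]; ring

end AP

end Pool.Agent.Helper23

end

section

open scoped InnerProductSpace Topology ENNReal BoundedContinuousFunction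

open ContinuousLinearMap Filter MeasureTheory

namespace Pool.Agent.Helper23

universe u

variable {H : Type u} [NormedAddCommGroup H] [InnerProductSpace ℂ H] [CompleteSpace H]

variable {K : Type u} [NormedAddCommGroup K] [InnerProductSpace ℂ K] [CompleteSpace K]

variable {M N : VonNeumannAlgebra H} {ξ : H} {E : (H →L[ℂ] H) → (H →L[ℂ] H)}

namespace Oc

variable {MT NT : VonNeumannAlgebra K} {ET : (K →L[ℂ] K) → (K →L[ℂ] K)} {ζ : K}
  {rep : (ℕ → H →L[ℂ] H) → (K →L[ℂ] K)} (O : Oc M N E ξ MT NT ET ζ rep)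

include O

lemma coreAt (S : Setting M N E ξ) (hAP : AP MT NT ET ζ) (hG : ∀ l : ℝ, 0 < l → l ∈ Gam NT ζ)
    {u : L2R H →L[ℂ] L2R H} (hu : u ∈ GK N ξ) {y : H →L[ℂ] H} (hy : y ∈ Bicent M N ξ)
    {κ : ℝ} (hκ : 0 < κ) : CoreAt M N ξ u y κ := by
  have hyQ := O.const_mem_Qalg S hy
  obtain ⟨K₀, hK, hLB⟩ := hAP.lb_of_bicent (O.bicent_of_Qalg S hyQ) hκ
  refine ⟨K₀, hK, fun γ₀ h1 ht1 m g hg0 B n hn hnK => ?_⟩
  have hγ0 : 0 < γ₀ := by (clear * - h1; linarith)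
  have hγ : γ₀ ∈ Gam NT ζ := hG γ₀ hγ0
  set t := Real.log γ₀ with ht
  have ht0 : 0 < t := Real.log_pos h1
  have hm0 : 0 < γ₀ ^ m := pow_pos hγ0 m
  have hmG : γ₀ ^ m ∈ Gam NT ζ := hG _ hm0
  have haN : ∀ l, sa u t g l ∈ N := fun l => slX_mem hu.1 _ _
  have hbN : ∀ l, sb u t g l ∈ N := fun l => slX_mem hu.1 _ _
  have haM := fun l => S.le _ (haN l)
  have hbM := fun l => S.le _ (hbN l)
  have hsmul : ∀ l : ℤ × hw × ℤ, (((Real.exp ((l.2.2 - l.1) * t) : ℝ) : ℂ) •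
      (rep fun _ => sb u t g l)) =
        rep fun _ => (((Real.exp ((l.2.2 - l.1) * t) : ℝ) : ℂ) • sb u t g l) :=
    fun l => (O.const_smul S _ (hbM l)).symm
  obtain ⟨z, hz, hzy, hzc⟩ := hAP.core' (hAP.al_mem hmG hyQ) hκ hK
    (hAP.lb_al hyQ hκ.le hK hLB hmG) hγ h1 ht1 m (G := ‖g‖ ^ 2) (by (clear * - hg0; positivity)) B
    (a := fun l => rep fun _ => sa u t g l) (b := fun l => rep fun _ => sb u t g l)
    (fun l => O.const_memN S (haN l)) (fun l => O.const_memN S (hbN l))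
    (fun l => by
      rw [hsmul]
      exact O.partner S (partner_sa hu ht0 g l)) (by
      simp only [fun l => O.const_norm S (haM l)]
      exact sum_sa hu.2.1 S.norm_one ht0 g _ _ B) (by
      have e1 : ∀ l, ‖((rep fun _ => sb u t g l) - (rep fun _ => sa u t g l)) ζ‖ =
          ‖(sb u t g l - sa u t g l) ξ‖ := by
        intro l
        rw [← O.const_sub S (hbM l) (haM l), O.const_norm S (sub_mem (hbM l) (haM l))]
      simp only [e1]
      exact sum_sb hu.2.1 S.norm_one ht0 ht1 g _ _ B) hn hnK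
  have hzM : z ∈ MT := (mem_Qalg.1 hz).1
  have hspec := O.btU_spec S hAP hG hm0 hy
  refine ⟨ccU M ξ rep ζ z, O.cc_bicent S hz, ?_, ?_⟩
  · refine le_trans ?_ hzy
    refine pow_le_pow_left₀ (norm_nonneg _) ?_ 2
    have hbM' := hspec.1.1
    rw [← hspec.2.2]
    have e1 : ccU M ξ rep ζ z - btU M N ξ (γ₀ ^ m) y =
        ccU M ξ rep ζ (z - rep fun _ => btU M N ξ (γ₀ ^ m) y) := by
      rw [O.cc_sub S hzM (O.const_mem S hbM'), O.cc_const S hbM']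
    rw [e1]
    exact O.cc_norm_xi S (sub_mem hzM (O.const_mem S hbM'))
  · refine le_trans ?_ hzc
    refine Finset.sum_le_sum fun j _ => Finset.sum_le_sum fun i _ => Finset.sum_le_sum
      fun k _ => ?_
    refine pow_le_pow_left₀ (norm_nonneg _) ?_ 2
    have hi0 : 0 < γ₀ ^ (i - m) := zpow_pos hγ0 _
    have hj0 : 0 < γ₀ ^ (j - m) := zpow_pos hγ0 _
    have hzi := (mem_Qalg.1 (hAP.al_mem (hG _ hi0) hz)).1
    have hzj := (mem_Qalg.1 (hAP.al_mem (hG _ hj0) hz)).1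
    have hra := O.const_mem S (haM (i, k, j))
    rw [O.btU_cc S hAP hG hi0 hz, O.btU_cc S hAP hG hj0 hz,
      ← O.cc_mul_right S (haM (i, k, j)) hzi, ← O.cc_mul_left S (haM (i, k, j)) hzj,
      ← O.cc_sub S (mul_mem hzi hra) (mul_mem hra hzj)]
    exact O.cc_norm_xi S (sub_mem (mul_mem hzi hra) (mul_mem hra hzj))

end Oc

end Pool.Agent.Helper23

end

end
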