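import Pool.Agent.Helper23.FB.L02_a0
import Pool.Agent.Helper23.FB.L02_a1
import Pool.Agent.Helper23.FB.L02_a10
import Pool.Agent.Helper23.FB.L02_a2
import Pool.Agent.Helper23.FB.L02_a3
import Pool.Agent.Helper23.FB.L02_a4
import Pool.Agent.Helper23.FB.L02_a5
import Pool.Agent.Helper23.FB.L02_a7
import Pool.Agent.Helper23.FB.L02_a8
import Pool.Agent.Helper23.FB.L02_a9

/-!
Parts of Helper23.FA.L01_02, Helper23.FA.L02_02, Helper23.FA.L01_12, Helper23.FA.L02_13, Helper23.FA.L03_00, Helper23.FA.L02_05, Helper23.FA.L02_06, Helper23.FA.L03_01, Helper23.FA.L03_03, Helper23.FA.L03_04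
-/

attribute [local instance 5000]
  Pool.Agent.Helper23.FB.Inst.rCharZero Pool.Agent.Helper23.FB.Inst.rALM
  Pool.Agent.Helper23.FB.Inst.rARM Pool.Agent.Helper23.FB.Inst.rALSM
  Pool.Agent.Helper23.FB.Inst.rARSM Pool.Agent.Helper23.FB.Inst.rARRLE
  Pool.Agent.Helper23.FB.Inst.rALRLE Pool.Agent.Helper23.FB.Inst.rARRLT
  Pool.Agent.Helper23.FB.Inst.rALRLT Pool.Agent.Helper23.FB.Inst.rPMRLT
  Pool.Agent.Helper23.FB.Inst.rMPRLT Pool.Agent.Helper23.FB.Inst.rPMM
  Pool.Agent.Helper23.FB.Inst.rMPM Pool.Agent.Helper23.FB.Inst.rPMSM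
  Pool.Agent.Helper23.FB.Inst.rMPSM Pool.Agent.Helper23.FB.Inst.rEAOL
  Pool.Agent.Helper23.FB.Inst.rIOR Pool.Agent.Helper23.FB.Inst.rISOR
  Pool.Agent.Helper23.FB.Inst.rFS Pool.Agent.Helper23.FB.Inst.rcCharZero
  Pool.Agent.Helper23.FB.Inst.rNZD Pool.Agent.Helper23.FB.Inst.rcNZD
  Pool.Agent.Helper23.FB.Inst.bSemiring Pool.Agent.Helper23.FB.Inst.bStar
  Pool.Agent.Helper23.FB.Inst.bAlg Pool.Agent.Helper23.FB.Inst.bSub
  Pool.Agent.Helper23.FB.Inst.bMul Pool.Agent.Helper23.FB.Inst.bAdd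
  Pool.Agent.Helper23.FB.Inst.iRing Pool.Agent.Helper23.FB.Inst.iSemiring
  Pool.Agent.Helper23.FB.Inst.iAlgC Pool.Agent.Helper23.FB.Inst.iSMulC
  Pool.Agent.Helper23.FB.Inst.iModC Pool.Agent.Helper23.FB.Inst.iAlgR
  Pool.Agent.Helper23.FB.Inst.iSMulR Pool.Agent.Helper23.FB.Inst.iModR
  Pool.Agent.Helper23.FB.Inst.iMonoid Pool.Agent.Helper23.FB.Inst.iSemigroup
  Pool.Agent.Helper23.FB.Inst.iMulOneClass Pool.Agent.Helper23.FB.Inst.iMul
  Pool.Agent.Helper23.FB.Inst.iAdd Pool.Agent.Helper23.FB.Inst.iSub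
  Pool.Agent.Helper23.FB.Inst.iNeg Pool.Agent.Helper23.FB.Inst.iAddCommMonoid
  Pool.Agent.Helper23.FB.Inst.iAddCommGroup Pool.Agent.Helper23.FB.Inst.iAddGroup
  Pool.Agent.Helper23.FB.Inst.iAddMonoid Pool.Agent.Helper23.FB.Inst.iSMulZeroC
  Pool.Agent.Helper23.FB.Inst.iMulActC Pool.Agent.Helper23.FB.Inst.iDSMulC
  Pool.Agent.Helper23.FB.Inst.iDSMulR Pool.Agent.Helper23.FB.Inst.iSNAG
  Pool.Agent.Helper23.FB.Inst.iSNACG Pool.Agent.Helper23.FB.Inst.iNorm
  Pool.Agent.Helper23.FB.Inst.iNSC' Pool.Agent.Helper23.FB.Inst.iNSR'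
  Pool.Agent.Helper23.FB.Inst.iTop Pool.Agent.Helper23.FB.Inst.iT2 Pool.Agent.Helper23.FB.Inst.iTR
  Pool.Agent.Helper23.FB.Inst.iSCC Pool.Agent.Helper23.FB.Inst.iIST
  Pool.Agent.Helper23.FB.Inst.iSCCR Pool.Agent.Helper23.FB.Inst.iISTR
  Pool.Agent.Helper23.FB.Inst.iZHC Pool.Agent.Helper23.FB.Inst.iAHC
  Pool.Agent.Helper23.FB.Inst.iAMHC Pool.Agent.Helper23.FB.Inst.iMAHC
  Pool.Agent.Helper23.FB.Inst.lTop Pool.Agent.Helper23.FB.Inst.lUnif
  Pool.Agent.Helper23.FB.Inst.lACM Pool.Agent.Helper23.FB.Inst.lACG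
  Pool.Agent.Helper23.FB.Inst.lSNAG Pool.Agent.Helper23.FB.Inst.lSNACG
  Pool.Agent.Helper23.FB.Inst.lNACG Pool.Agent.Helper23.FB.Inst.lNorm
  Pool.Agent.Helper23.FB.Inst.lIPS Pool.Agent.Helper23.FB.Inst.lMod
  Pool.Agent.Helper23.FB.Inst.lSMul Pool.Agent.Helper23.FB.Inst.lT2
  Pool.Agent.Helper23.FB.Inst.iStar Pool.Agent.Helper23.FB.Inst.iStarMul
  Pool.Agent.Helper23.FB.Inst.iStarAddMonoid Pool.Agent.Helper23.FB.Inst.iStarRing
  Pool.Agent.Helper23.FB.Inst.iNSC Pool.Agent.Helper23.FB.Inst.iSOR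
  Pool.Agent.Helper23.FB.Inst.iALM Pool.Agent.Helper23.FB.Inst.iARM
  Pool.Agent.Helper23.FB.Inst.iCFC Pool.Agent.Helper23.FB.Inst.iNCFC
  Pool.Agent.Helper23.FB.Inst.iStarModR Pool.Agent.Helper23.FB.Inst.iStarModC
  Pool.Agent.Helper23.FB.Inst.eStar Pool.Agent.Helper23.FB.Inst.eAdd
  Pool.Agent.Helper23.FB.Inst.eMul Pool.Agent.Helper23.FB.Inst.eOne
  Pool.Agent.Helper23.FB.Inst.eZero Pool.Agent.Helper23.FB.Inst.eMulAction
  Pool.Agent.Helper23.FB.Inst.eAMHC2 Pool.Agent.Helper23.FB.Inst.eZHC2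
  Pool.Agent.Helper23.FB.Inst.lAMHC

namespace Pool.Agent.Helper23
end Pool.Agent.Helper23
namespace Pool.Agent.Helper23.ED.WuB
end Pool.Agent.Helper23.ED.WuB
namespace Pool.Agent.Helper23.RBF
end Pool.Agent.Helper23.RBF

section

section

open scoped InnerProductSpace Topology

open ContinuousLinearMap Filter

open Pool.Agent.Helper23 Pool.Agent.Helper23.RBF

namespace Pool.Agent.Helper78.BC

universe u

namespace Transport

variable {H : Type u} [NormedAddCommGroup H] [InnerProductSpace ℂ H] [CompleteSpace H]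

variable {K : Type u} [NormedAddCommGroup K] [InnerProductSpace ℂ K] [CompleteSpace K]

variable {A : VonNeumannAlgebra H} {ξ : H} {i : K →L[ℂ] H} {κ : K}

variable (S : Sub A ξ i κ)

include S

lemma typeIII (hsep : ∀ a ∈ A, a ξ = 0 → a = 0) (hA : Pool.Agent.Helper23.RBF.TypeIIIOne A) : Pool.Agent.Helper23.RBF.TypeIIIOne (B A i) := by
  obtain ⟨⟨v, hv, w, hw, hvv, hww, hvw⟩, h2⟩ := hA
  refine ⟨⟨r i v, r_mem S hsep hv, r i w, r_mem S hsep hw, ?_, ?_, ?_⟩, ?_⟩
  · rw [Sub.r_star, S.r_mul' hv, hvv, S.r_one]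
  · rw [Sub.r_star, S.r_mul' hw, hww, S.r_one]
  · rw [Sub.r_star, S.r_mul' hw, hvw]
    ext k
    change adjoint i ((0 : H →L[ℂ] H) (i k)) = (0 : K →L[ℂ] K) k
    simp
  · intro η η' ζ ζ' h3 h4 ε hε
    obtain ⟨u, hu, hu1, hu2, hu3⟩ := h2 (i η) (i η') (i ζ) (i ζ')
      (by rw [S.i_norm, S.i_norm]; exact h3) (by rw [S.i_norm, S.i_norm]; exact h4) ε hε
    refine ⟨r i u, r_mem S hsep hu, ?_, ?_, fun x hx => ?_⟩
    · rw [Sub.r_star, S.r_mul' hu, hu1, S.r_one]
    · rw [Sub.r_star, S.r_mul hu, hu2, S.r_one]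
    · obtain ⟨a, ha, ha1, rfl⟩ := exists_lift S hsep hx
      rw [inner_r S, inner_r S, inner_r S, inner_r S, S.i_r hu, S.i_r hu]
      exact (hu3 a ha).trans (mul_le_mul_of_nonneg_left ha1 hε.le)

end Transport

end Pool.Agent.Helper78.BC

end

section

open scoped InnerProductSpace Topology ENNReal BoundedContinuousFunction

open ContinuousLinearMap Filter MeasureTheory

namespace Pool.Agent.Helper23.ED

open Pool.Agent.Helper23 Pool.Agent.Helper23.RBF

open Pool.Agent.Helper78.BC.Transport (Sub r)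

universe u

variable {H : Type u} [NormedAddCommGroup H] [InnerProductSpace ℂ H] [CompleteSpace H]

variable {K : Type u} [NormedAddCommGroup K] [InnerProductSpace ℂ K] [CompleteSpace K]

variable {L : Type u} [NormedAddCommGroup L] [InnerProductSpace ℂ L] [CompleteSpace L]

variable {N : VonNeumannAlgebra H} {ψ : (H →L[ℂ] H) → ℝ≥0∞} {ξ : H} {i : K →L[ℂ] H} {κ : K}
  {Λ : (H →L[ℂ] H) → L} {ρ : (H →L[ℂ] H) → (L →L[ℂ] L)}

open Pool.Agent.Helper78.BC in
theorem n_rel' (Sb : Sub N ξ i κ) (hsep : ∀ a ∈ N, a ξ = 0 → a = 0) (hψ : IsNSFWeight N ψ)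
    (hG : Gns N ψ Λ ρ) {T : K →L[ℂ] K} {S : K →L[ℂ] L} (hT : GT (Gp N ψ ξ i Λ) T S)
    {X X' : K →L[ℂ] K} (hX : X ∈ (Transport.B N i).commutant)
    (hX' : X' ∈ (Transport.B N i).commutant) {p : H →L[ℂ] H} (hp : p ∈ N)
    (h1 : i (X κ) = p ξ) (h2 : i ((star X') κ) = (star p) ξ) (v : K) :
    X (T v) - T (X (T v)) = T (X' (v - T v)) := by
  obtain ⟨Γ, hΓ⟩ := Gp_sub Sb hψ hG
  have hT' : GT (Γ : Set (K × L)) T S := by rw [hΓ]; exact hT
  have hmem : ∀ q : K × L, q ∈ Γ → q ∈ Gp N ψ ξ i Λ := fun q hq => by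
    rw [← hΓ]
    exact hq
  refine hT'.rel X X' (ρ p) (fun q hq => ?_) (fun q hq => ?_) v
  · rw [hΓ]
    exact subset_closure (NgF_mem Sb hsep hψ hG hX hp h1 (hmem q hq))
  · rw [hΓ, hG.star p hp]
    exact subset_closure
      (NgF_mem Sb hsep hψ hG (star_mem hX') (star_mem hp) h2 (hmem q hq))

end Pool.Agent.Helper23.ED

end

end

section

section

open scoped InnerProductSpace Topology BoundedContinuousFunction

open ContinuousLinearMap Filter

namespace Pool.Agent.Helper78.BC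

variable {H : Type*} [NormedAddCommGroup H] [InnerProductSpace ℂ H] [CompleteSpace H]

theorem exists_std (A : VonNeumannAlgebra H) (ξ : H) (hξ : ‖ξ‖ = 1)
    (hcyc : Dense (Pool.Agent.Helper23.orb A ξ : Set H)) (hsep : ∀ a ∈ A, a ξ = 0 → a = 0) :
    ∃ (J : H →L[ℝ] H) (Ψ : (ℝ →ᵇ ℂ) →⋆ₐ[ℂ] (H →L[ℂ] H)), Std A ξ J Ψ := by
  have hcyc' : Dense (Pool.Agent.Helper23.orb A.commutant ξ : Set H) :=
    Pool.Agent.Helper23.dense_of_separating A ξ hsep
  have h' := Pool.Agent.Helper43.TTF.ttdata A ξ hcyc hsep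
  obtain ⟨Ψ, hF⟩ := Pool.Agent.Helper43.TTF.exists_FC h'
  obtain ⟨J, hJ⟩ := hF.exists_J h'
  have hmod := Pool.Agent.Helper43.TTF.modular_of h' hcyc hsep hF
  have happ : ∀ {B : VonNeumannAlgebra H}, Dense (Pool.Agent.Helper23.orb B ξ : Set H) →
      ∀ v : H, ∀ ε : ℝ, 0 < ε → ∃ a ∈ B, ‖a ξ - v‖ < ε := by
    intro B hB v ε hε
    obtain ⟨w, ⟨a, ha, rfl⟩, hw⟩ := Metric.mem_closure_iff.1 (hB v) ε hε
    refine ⟨a, ha, ?_⟩
    rwa [dist_comm, dist_eq_norm] at hw
  have hcj : ∀ a ∈ A, hJ.cj a ∈ A.commutant := fun a ha =>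
    Pool.Agent.Helper43.TTF.cj_mem h' hcyc hcyc' hF hJ ha
  have hcj' : ∀ b ∈ A.commutant, hJ.cj b ∈ A := by
    intro b hb
    have h1 := Pool.Agent.Helper43.TTF.cj_mem h'.symm hcyc'
      (by rwa [VonNeumannAlgebra.commutant_commutant]) hF.symm hJ.symm hb
    rw [VonNeumannAlgebra.commutant_commutant] at h1
    exact h1
  refine ⟨J, Ψ, ⟨hξ, happ hcyc, happ hcyc', hsep, hJ.J_J, hJ.J_conj, hJ.J_norm, hJ.J_add_inner,
    Pool.Agent.Helper70.U8.J_xi h' hJ hmod, ?_, ?_, fun a ha => StdEx.J_pos' h' hF hJ ha,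
    fun G G' hG v => StdEx.psi_J' h' hF hJ G G' hG v, hF.psi_cont,
    fun G G' hG a ha => StdEx.psi_half' h' hF hJ G G' hG ha,
    fun G G' hG hG' θ ε hε => StdEx.core' hmod hF hJ (happ hcyc) G G' hG hG' θ ε hε⟩⟩
  · intro a ha y hy v
    have h1 : hJ.cj a * y = y * hJ.cj a :=
      (VonNeumannAlgebra.mem_commutant_iff.1 (hcj a ha) y hy).symm
    have h2 := congrArg (fun T : H →L[ℂ] H => T v) h1
    simp only [mul_apply_eq_comp, hJ.cj_apply] at h2
    exact h2
  · intro b hb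
    refine ⟨hJ.cj b, hcj' b hb, fun v => ?_⟩
    rw [hJ.cj_apply, hJ.J_J, hJ.J_J]

end Pool.Agent.Helper78.BC

end

end

section

section

open scoped InnerProductSpace TensorProduct

open ContinuousLinearMap

namespace Pool.Agent.Helper23

variable {H : Type*} [NormedAddCommGroup H] [InnerProductSpace ℂ H] [CompleteSpace H]

variable {M N : VonNeumannAlgebra H} {ξ : H} {E : (H →L[ℂ] H) → (H →L[ℂ] H)}

lemma Rel.comp (hirr : TrivialRelComm N ξ) {γ δ : ℝ} (hγ : γ ≠ 0)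
    (hne : ∃ a ∈ eig N ξ γ, a ≠ 0) {y z w : H →L[ℂ] H} (hz : z ∈ Qalg M N ξ)
    (h : Rel N ξ γ y z) (h' : Rel N ξ δ z w) : Rel N ξ (δ * γ) y w := by
  intro c hc
  refine Rel.unique hirr (inv_ne_zero hγ) (star_ne hγ hne) fun b hb => ?_
  have h1 : c * b ∈ eig N ξ δ := by
    have := eig_mul hc hb
    rwa [mul_assoc, mul_inv_cancel₀ hγ, mul_one] at this
  have h2 := h' _ h1
  have h3 := h.adj hirr hγ hne hz hb
  rw [mul_assoc, ← h3, ← mul_assoc, h2, mul_assoc]

end Pool.Agent.Helper23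

end

section

open scoped InnerProductSpace BoundedContinuousFunction

open ContinuousLinearMap Filter

namespace Pool.Agent.Helper23

variable {H : Type*} [NormedAddCommGroup H] [InnerProductSpace ℂ H] [CompleteSpace H]

variable {M N : VonNeumannAlgebra H} {ξ : H} {E : (H →L[ℂ] H) → (H →L[ℂ] H)}

/-- continuity at `1` of the transports of `x`. -/
def ContAt (M N : VonNeumannAlgebra H) (ξ : H) (x : H →L[ℂ] H) : Prop :=
  ∀ ε : ℝ, 0 < ε → ∃ η : ℝ, 0 < η ∧ ∀ γ ∈ Gam N ξ, |γ - 1| < η →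
    ‖(al M N ξ γ x - x) ξ‖ ≤ ε

end Pool.Agent.Helper23

end

section

open scoped InnerProductSpace Topology

open ContinuousLinearMap Filter

namespace Pool.Agent.Helper23

variable {H : Type*} [NormedAddCommGroup H] [InnerProductSpace ℂ H] [CompleteSpace H]

variable {M N : VonNeumannAlgebra H} {ξ : H} {E : (H →L[ℂ] H) → (H →L[ℂ] H)}

namespace AP

variable (S : AP M N E ξ)

include S

omit S in
lemma InB.contAt {x : H →L[ℂ] H} (h : InB M N ξ x) : ContAt M N ξ x := by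
  intro ε hε
  have h1 := h.2
  rw [Metric.tendsto_nhdsWithin_nhds] at h1
  obtain ⟨η, hη, h2⟩ := h1 ε hε
  refine ⟨η, hη, fun γ hγ hγ' => ?_⟩
  have := h2 hγ (by rwa [Real.dist_eq])
  rw [dist_eq_norm] at this
  rw [sub_apply]
  exact this.le

end AP

end Pool.Agent.Helper23

end

end

section

section

open scoped InnerProductSpace Topology

open ContinuousLinearMap Filter

open Pool.Agent.Helper23 Pool.Agent.Helper23.RBF

namespace Pool.Agent.Helper78.BC

universe u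

namespace Transport

variable {H : Type u} [NormedAddCommGroup H] [InnerProductSpace ℂ H] [CompleteSpace H]

variable {K : Type u} [NormedAddCommGroup K] [InnerProductSpace ℂ K] [CompleteSpace K]

variable {A : VonNeumannAlgebra H} {ξ : H} {i : K →L[ℂ] H} {κ : K}

variable (S : Sub A ξ i κ)

include S

theorem main (hsep : ∀ a ∈ A, a ξ = 0 → a = 0) (hB : TrivialBicentralizer (B A i) κ) :
    TrivialBicentralizer A ξ := by
  intro x hx h
  obtain ⟨c, hc⟩ := hB (r i x) (r_mem S hsep hx) (by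
    rintro b ⟨hb1, ⟨C, hC⟩, hb3⟩ k
    have h1 : ∀ n, ∃ a ∈ A, ‖a‖ ≤ ‖b n‖ ∧ r i a = b n := fun n => exists_lift S hsep (hb1 n)
    choose a ha ha1 ha2 using h1
    have h2 : AsympEigen A ξ 1 a := by
      refine ⟨ha, ⟨C, fun n => (ha1 n).trans (hC n)⟩, fun ε hε => ?_⟩
      filter_upwards [hb3 ε hε] with n hn y hy
      have h3 := hn (r i y) (r_mem S hsep hy)
      rw [← ha2 n, S.r_mul hy, S.r_mul (ha n), inner_r S, inner_r S, S.vec] at h3
      exact h3.trans (mul_le_mul_of_nonneg_left (S.r_norm y) hε.le)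
    have h4 := h a h2 (i k)
    have h5 : (fun n => (r i x * b n - b n * r i x) k) =
        fun n => adjoint i ((x * a n - a n * x) (i k)) := by
      funext n
      rw [← ha2 n, S.r_mul hx, S.r_mul (ha n)]
      rw [sub_apply, sub_apply, map_sub]
      rfl
    rw [h5]
    have h6 := ((adjoint i).continuous.tendsto 0).comp h4
    rw [map_zero] at h6
    exact h6)
  refine ⟨c, ?_⟩
  have h1 : (x - c • (1 : H →L[ℂ] H)) ξ = 0 := by
    have h2 : i (r i x κ) = i (c • κ) := by rw [hc]; rfl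
    rw [S.i_r hx, map_smul, S.vec] at h2
    rw [sub_apply, smul_apply, one_apply_eq_self, h2, sub_self]
  exact sub_eq_zero.1 (hsep _ (sub_mem hx (smul_mem' c (one_mem A))) h1)

end Transport

open Transport in
/-- If the bicentralizer is trivial for cyclic and separating vectors, then it is trivial for
separating vectors. -/
theorem transport
    (hmain : ∀ (K : Type u) [NormedAddCommGroup K] [InnerProductSpace ℂ K] [CompleteSpace K]
      (B : VonNeumannAlgebra K) (κ : K), ‖κ‖ = 1 → Dense (orb B κ : Set K) →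
      (∀ b ∈ B, b κ = 0 → b = 0) → Pool.Agent.Helper23.RBF.TypeIIIOne B → TrivialBicentralizer B κ)
    {H : Type u} [NormedAddCommGroup H] [InnerProductSpace ℂ H] [CompleteSpace H]
    (A : VonNeumannAlgebra H) (ξ : H) (hξ : ‖ξ‖ = 1) (hsep : ∀ a ∈ A, a ξ = 0 → a = 0)
    (hA : Pool.Agent.Helper23.RBF.TypeIIIOne A) : TrivialBicentralizer A ξ := by
  set V : Submodule ℂ H := (orb A ξ).topologicalClosure with hV
  have hξV : ξ ∈ V := Submodule.le_topologicalClosure _ ⟨1, one_mem _, rfl⟩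
  have hadj : ∀ v : H, V.subtypeL (adjoint V.subtypeL v) = V.starProjection v := by
    intro v
    rw [Submodule.adjoint_subtypeL]
    rfl
  have S : Sub A ξ V.subtypeL (⟨ξ, hξV⟩ : V) := by
    refine ⟨fun k => ?_, fun x hx k => ?_, rfl, fun k ε hε => ?_⟩
    · refine Subtype.ext ?_
      change V.subtypeL (adjoint V.subtypeL (V.subtypeL k)) = k.1
      rw [hadj]
      exact Submodule.starProjection_eq_self_iff.2 k.2
    · rw [hadj]
      have h1 := mem_comm_iff.1 (proj_orb_mem A ξ) x hx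
      have h2 := congrArg (fun T : H →L[ℂ] H => T (V.subtypeL k)) h1
      have h3 : V.starProjection (V.subtypeL k) = V.subtypeL k :=
        Submodule.starProjection_eq_self_iff.2 k.2
      change x (V.starProjection (V.subtypeL k)) = V.starProjection (x (V.subtypeL k)) at h2
      rw [← h2, h3]
    · have h1 : (V.subtypeL k : H) ∈ closure (orb A ξ : Set H) := k.2
      obtain ⟨_, ⟨a, ha, rfl⟩, h2⟩ := Metric.mem_closure_iff.1 h1 ε hε
      refine ⟨a, ha, ?_⟩
      rw [dist_eq_norm] at h2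
      rw [norm_sub_rev]
      exact h2
  refine main S hsep (hmain V (B A V.subtypeL) ⟨ξ, hξV⟩ ?_ (dense_B S hsep) (sep_B S hsep)
    (typeIII S hsep hA))
  exact hξ

end Pool.Agent.Helper78.BC

end

end

section

section

open scoped InnerProductSpace Topology

open ContinuousLinearMap Filter

namespace Pool.Agent.Helper23

universe u

variable {H : Type u} [NormedAddCommGroup H] [InnerProductSpace ℂ H] [CompleteSpace H]

variable {L : Type u} [NormedAddCommGroup L] [InnerProductSpace ℂ L] [CompleteSpace L]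

variable {M N A : VonNeumannAlgebra H} {ξ : H} {E : (H →L[ℂ] H) → (H →L[ℂ] H)}

section

variable {mk : (ℕ → H) → L} (h : HUP mk)

include h

theorem HUP.oc (S : Setting M N E ξ) :
    Oc M N E ξ (Mt M ξ mk M) (Mt M ξ mk N) (Et M E ξ mk) (zt M ξ h) (rp M ξ mk) := by
  have hUU := UU_neBot
  have hmemM : ∀ x ∈ AppS M ξ, rp M ξ mk x ∈ Mt M ξ mk M := fun x hx =>
    oc_sub_genVN ⟨x, ⟨hx, fun n => ocS_mem hx n⟩, rfl⟩
  have hmemN : ∀ x ∈ AppS M ξ, (∀ n, x n ∈ N) → rp M ξ mk x ∈ Mt M ξ mk N := fun x hx hxN =>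
    oc_sub_genVN ⟨x, ⟨hx, hxN⟩, rfl⟩
  have hle : ∀ T ∈ Mt M ξ mk N, T ∈ Mt M ξ mk M := by
    intro T hT
    refine oc_genVN_mono (Set.image_mono ?_) hT
    rintro x ⟨h1, h2⟩
    exact ⟨h1, fun n => ocS_mem h1 n⟩
  have hS : Setting (Mt M ξ mk M) (Mt M ξ mk N) (Et M E ξ mk) (zt M ξ h) := by
    refine
      { le := hle
        norm_one := ?_
        cyc := ?_
        sep := fun T hT h0 => h.rp_sep hT h0
        E_mem := fun T hT => ?_
        E_bimod := fun a ha b hb T hT => ?_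
        E_fix := fun T hT => ?_
        E_state := fun T hT => ?_ }
    · have h1 := h.norm_tendsto (ocB_const ξ)
      rw [S.norm_one] at h1
      exact (tendsto_nhds_unique h1 tendsto_const_nhds)
    · rw [Metric.dense_iff]
      intro v ε hε
      obtain ⟨x, hx, h1⟩ := h.rp_cyclic v hε
      refine ⟨rp M ξ mk x (zt M ξ h), ?_, ⟨rp M ξ mk x, hmemM x hx, rfl⟩⟩
      rw [Metric.mem_ball, dist_comm, dist_eq_norm]
      exact h1
    · obtain ⟨x, hx, hxM, -, rfl⟩ := h.surjA S (fun x hx => hx) hT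
      rw [h.Et_rp S hx]
      exact hmemN _ (S.AppS_E hx) fun n => S.E_mem _ (hxM n)
    · obtain ⟨x, hx, hxM, -, rfl⟩ := h.surjA S (fun x hx => hx) hT
      obtain ⟨α, hα, hαN, -, rfl⟩ := h.surjA S S.le ha
      obtain ⟨β, hβ, hβN, -, rfl⟩ := h.surjA S S.le hb
      rw [← h.rp_mul hα hx, ← h.rp_mul (ocS_mul hα hx) hβ,
        h.Et_rp S (ocS_mul (ocS_mul hα hx) hβ), h.Et_rp S hx,
        ← h.rp_mul hα (S.AppS_E hx), ← h.rp_mul (ocS_mul hα (S.AppS_E hx)) hβ]
      congr 1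
      funext n
      exact S.E_bimod _ (hαN n) _ (hβN n) _ (hxM n)
    · obtain ⟨x, hx, hxN, -, rfl⟩ := h.surjA S S.le hT
      rw [h.Et_rp S hx]
      congr 1
      funext n
      exact S.E_fix _ (hxN n)
    · obtain ⟨x, hx, hxM, -, rfl⟩ := h.surjA S (fun x hx => hx) hT
      rw [h.Et_rp S hx]
      have h1 := h.rp_inner (M := M) (ξ := ξ) ocS_one (S.AppS_E hx)
      have h2 := h.rp_inner (M := M) (ξ := ξ) ocS_one hx
      rw [h.rp_one, one_apply_eq_self] at h1 h2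
      exact tendsto_nhds_unique h1 (h2.congr fun n => (S.E_state _ (hxM n)).symm)
  exact
    { set := hS
      add := fun x hx y hy => h.rp_add hx hy
      smul := fun c x hx => h.rp_smul c hx
      mul := fun x hx y hy => h.rp_mul hx hy
      star := fun x hx => h.rp_star hx
      one := h.rp_one
      norm := fun x _ C hC => h.rp_norm hC
      inner := fun x hx y hy => h.rp_inner hx hy
      memM := hmemM
      memN := hmemN
      surjM := fun T hT => by
        obtain ⟨x, hx, -, h1, h2⟩ := h.surjA S (fun x hx => hx) hT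
        exact ⟨x, hx, h1, h2.symm⟩
      surjN := fun T hT => by
        obtain ⟨x, hx, h0, h1, h2⟩ := h.surjA S S.le hT
        exact ⟨x, hx, h0, h1, h2.symm⟩
      expect := fun x hx => h.Et_rp S hx }

end

theorem Setting.exists_Oc (S : Setting M N E ξ) :
    ∃ (K : Type u) (_ : NormedAddCommGroup K) (_ : InnerProductSpace ℂ K) (_ : CompleteSpace K)
      (MT NT : VonNeumannAlgebra K) (ET : (K →L[ℂ] K) → (K →L[ℂ] K)) (ζ : K)
      (rep : (ℕ → H →L[ℂ] H) → (K →L[ℂ] K)), Oc M N E ξ MT NT ET ζ rep := by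
  obtain ⟨L, i1, i2, i3, mk, h⟩ := exists_HUP H
  exact ⟨Vs M ξ mk, inferInstance, inferInstance, inferInstance, _, _, _, _, _, h.oc S⟩

end Pool.Agent.Helper23

end

end

section

section

open scoped InnerProductSpace

open ContinuousLinearMap Filter

namespace Pool.Agent.Helper23

variable {H : Type*} [NormedAddCommGroup H] [InnerProductSpace ℂ H] [CompleteSpace H]

variable {M N : VonNeumannAlgebra H} {ξ : H} {E : (H →L[ℂ] H) → (H →L[ℂ] H)}

namespace AP

variable (S : AP M N E ξ)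

include S

lemma al_norm {γ : ℝ} (hγ : γ ∈ Gam N ξ) {x : H →L[ℂ] H} (hx : x ∈ Qalg M N ξ) :
    ‖al M N ξ γ x ξ‖ = ‖x ξ‖ :=
  S.rel_norm S.irr hγ.1.ne' hγ.2 hx (S.al_mem hγ hx) (S.al_rel hγ hx)

lemma al_opNorm {γ : ℝ} (hγ : γ ∈ Gam N ξ) {x : H →L[ℂ] H} (hx : x ∈ Qalg M N ξ) :
    ‖al M N ξ γ x‖ ≤ 2 * ‖x‖ := by
  obtain ⟨z, hz, hz', hn⟩ := exists_rel S.irr hγ.1.ne' hγ.2 S.le hx
  rw [S.al_unique hγ hx hz']
  exact hn

end AP

end Pool.Agent.Helper23

end

section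

open scoped InnerProductSpace Topology

open ContinuousLinearMap Filter

namespace Pool.Agent.Helper23

variable {H : Type*} [NormedAddCommGroup H] [InnerProductSpace ℂ H] [CompleteSpace H]

variable {M N : VonNeumannAlgebra H} {ξ : H} {E : (H →L[ℂ] H) → (H →L[ℂ] H)}

namespace AP

variable (S : AP M N E ξ)

include S

lemma al_mem' (γ : ℝ) {x : H →L[ℂ] H} (hx : x ∈ Qalg M N ξ) : al M N ξ γ x ∈ Qalg M N ξ := by
  by_cases hγ : γ ∈ Gam N ξ
  · exact S.al_mem hγ hx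
  · rw [al, dif_neg (fun h => hγ h.1)]
    exact zero_mem _

lemma al_opNorm' (γ : ℝ) {x : H →L[ℂ] H} (hx : x ∈ Qalg M N ξ) :
    ‖al M N ξ γ x‖ ≤ 2 * ‖x‖ := by
  by_cases hγ : γ ∈ Gam N ξ
  · exact S.al_opNorm hγ hx
  · rw [al, dif_neg (fun h => hγ h.1), norm_zero]
    (clear * -; positivity)

lemma al_sub {γ : ℝ} (hγ : γ ∈ Gam N ξ) {x y : H →L[ℂ] H} (hx : x ∈ Qalg M N ξ)
    (hy : y ∈ Qalg M N ξ) : al M N ξ γ (x - y) = al M N ξ γ x - al M N ξ γ y :=
  S.al_unique hγ (sub_mem hx hy) ((S.al_rel hγ hx).sub (S.al_rel hγ hy))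

lemma al_mul {γ : ℝ} (hγ : γ ∈ Gam N ξ) {x y : H →L[ℂ] H} (hx : x ∈ Qalg M N ξ)
    (hy : y ∈ Qalg M N ξ) : al M N ξ γ (x * y) = al M N ξ γ x * al M N ξ γ y :=
  S.al_unique hγ (mul_mem hx hy) ((S.al_rel hγ hx).mul (S.al_rel hγ hy))

lemma al_al {γ δ : ℝ} (hγ : γ ∈ Gam N ξ) (hδ : δ ∈ Gam N ξ) {x : H →L[ℂ] H}
    (hx : x ∈ Qalg M N ξ) : al M N ξ γ (al M N ξ δ x) = al M N ξ (γ * δ) x :=
  (S.al_unique (S.Gam_mul hγ hδ) hx (Rel.comp S.irr hδ.1.ne' hδ.2 (S.al_mem hδ hx)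
    (S.al_rel hδ hx) (S.al_rel hγ (S.al_mem hδ hx)))).symm

lemma al_id {x : H →L[ℂ] H} (hx : x ∈ Qalg M N ξ) : al M N ξ 1 x = x :=
  S.al_unique S.one_mem_Gam hx fun a ha => (mem_Qalg.1 hx).2 a ha

lemma al_norm_sub {γ : ℝ} (hγ : γ ∈ Gam N ξ) {x y : H →L[ℂ] H} (hx : x ∈ Qalg M N ξ)
    (hy : y ∈ Qalg M N ξ) : ‖al M N ξ γ x ξ - al M N ξ γ y ξ‖ = ‖x ξ - y ξ‖ := by
  rw [← sub_apply, ← S.al_sub hγ hx hy, S.al_norm hγ (sub_mem hx hy), sub_apply]

/-- existence of the limits defining the flow -/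
lemma exists_bet {x : H →L[ℂ] H} (h : InB M N ξ x) {l : ℝ} (hl : 0 < l) :
    ∃ y ∈ Qalg M N ξ, Tendsto (fun γ => al M N ξ γ x ξ) (𝓝[Gam N ξ] l) (𝓝 (y ξ)) := by
  have hne := S.neBot hl
  have hcau : Cauchy (map (fun γ => al M N ξ γ x ξ) (𝓝[Gam N ξ] l)) := by
    rw [Metric.cauchy_iff]
    refine ⟨hne.map _, fun ε hε => ?_⟩
    obtain ⟨η, hη, h1⟩ := InB.contAt h (ε / 2) (by (clear * - hε; positivity))
    set r := min (l / 2) (η * l / 8) with hr
    have hr0 : 0 < r := by (clear * - hl hη; positivity)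
    refine ⟨(fun γ => al M N ξ γ x ξ) '' (Gam N ξ ∩ Metric.ball l r), ?_, ?_⟩
    · exact image_mem_map (inter_mem_nhdsWithin _ (Metric.ball_mem_nhds l hr0))
    · rintro _ ⟨γ, ⟨hγ, hγ1⟩, rfl⟩ _ ⟨δ, ⟨hδ, hδ1⟩, rfl⟩
      rw [Metric.mem_ball, Real.dist_eq] at hγ1 hδ1
      have hq : γ⁻¹ * δ ∈ Gam N ξ := S.Gam_mul (Gam_inv hγ) hδ
      have h2 : al M N ξ δ x = al M N ξ γ (al M N ξ (γ⁻¹ * δ) x) := by
        rw [S.al_al hγ hq h.1, ← mul_assoc, mul_inv_cancel₀ hγ.1.ne', one_mul]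
      have h3 : |γ⁻¹ * δ - 1| < η := by
        have e1 : γ⁻¹ * δ - 1 = (δ - γ) / γ := by
          (clear * - hγ; field_simp [hγ.1.ne'])
        have e2 : |δ - γ| < η * l / 4 := by
          have e3 : |δ - γ| ≤ |δ - l| + |γ - l| := by
            have : δ - γ = (δ - l) - (γ - l) := by ring
            rw [this]; exact abs_sub _ _
          have e4 := min_le_right (l / 2) (η * l / 8)
          (clear * - hγ1 hδ1 e3 e4; linarith)
        have e3 : l / 2 ≤ γ := by
          have := min_le_left (l / 2) (η * l / 8)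
          have := (abs_lt.1 hγ1).1
          linarith
        rw [e1, abs_div, abs_of_pos hγ.1, div_lt_iff₀ hγ.1]
        have e4 : η * (l / 2) ≤ η * γ := mul_le_mul_of_nonneg_left e3 hη.le
        have e5 : 0 < η * l := by (clear * - hη hl; positivity)
        (clear * - e2 e4 e5; nlinarith)
      have h4 := h1 _ hq h3
      rw [sub_apply] at h4
      change dist (al M N ξ γ x ξ) (al M N ξ δ x ξ) < ε
      rw [dist_comm, dist_eq_norm, h2, S.al_norm_sub hγ (S.al_mem hq h.1) h.1]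
      (clear * - hε h4; linarith)
  obtain ⟨η, hη⟩ := CompleteSpace.complete hcau
  obtain ⟨y, hy, hyη, -⟩ := exists_limit (Qalg M N ξ) S.denseQ
    (C := 2 * ‖x‖) (l := 𝓝[Gam N ξ] l) (by (clear * -; positivity)) (fun γ => S.al_mem' γ h.1)
    (fun γ => S.al_opNorm' γ h.1) hη
  exact ⟨y, hy, by rw [hyη]; exact hη⟩

lemma bet_spec {x : H →L[ℂ] H} (h : InB M N ξ x) {l : ℝ} (hl : 0 < l) :
    bet M N ξ l x ∈ Qalg M N ξ ∧
      Tendsto (fun γ => al M N ξ γ x ξ) (𝓝[Gam N ξ] l) (𝓝 (bet M N ξ l x ξ)) := by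
  have h1 := S.exists_bet h hl
  rw [bet, dif_pos h1]
  exact h1.choose_spec

lemma bet_memQ {x : H →L[ℂ] H} (h : InB M N ξ x) {l : ℝ} (hl : 0 < l) :
    bet M N ξ l x ∈ Qalg M N ξ := (S.bet_spec h hl).1

/-- strong convergence -/
lemma bet_tendsto {x : H →L[ℂ] H} (h : InB M N ξ x) {l : ℝ} (hl : 0 < l) (ζ : H) :
    Tendsto (fun γ => al M N ξ γ x ζ) (𝓝[Gam N ξ] l) (𝓝 (bet M N ξ l x ζ)) := by
  have h1 := (S.bet_spec h hl).2
  have h2 : Tendsto (fun γ => (al M N ξ γ x - bet M N ξ l x) ζ) (𝓝[Gam N ξ] l) (𝓝 0) := by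
    refine tendsto_of_bounded (Qalg M N ξ) S.denseQ
      (x := fun γ => al M N ξ γ x - bet M N ξ l x) (C := 2 * ‖x‖ + ‖bet M N ξ l x‖)
      (fun γ => sub_mem (S.al_mem' γ h.1) (S.bet_memQ h hl))
      (fun γ => (norm_sub_le _ _).trans (add_le_add (S.al_opNorm' γ h.1) le_rfl)) ?_ ζ
    have h3 := h1.sub_const (bet M N ξ l x ξ)
    rw [sub_self] at h3
    exact h3
  have h3 := h2.add_const (bet M N ξ l x ζ)
  rw [zero_add] at h3
  refine h3.congr fun γ => ?_
  rw [sub_apply, sub_add_cancel]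

lemma bet_eq_al {x : H →L[ℂ] H} (h : InB M N ξ x) {γ : ℝ} (hγ : γ ∈ Gam N ξ) :
    bet M N ξ γ x = al M N ξ γ x := by
  have h1 := (S.bet_spec h hγ.1).2
  have h2 : Tendsto (fun γ => al M N ξ γ x ξ) (pure γ) (𝓝 (bet M N ξ γ x ξ)) :=
    h1.mono_left (pure_le_nhdsWithin hγ)
  have h3 := tendsto_nhds_unique h2 (tendsto_pure_nhds _ _)
  exact eq_of_dense (Qalg M N ξ) S.denseQ (S.bet_memQ h hγ.1) (S.al_mem hγ h.1) h3

lemma bet_opNorm {x : H →L[ℂ] H} (h : InB M N ξ x) {l : ℝ} (hl : 0 < l) :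
    ‖bet M N ξ l x‖ ≤ 2 * ‖x‖ := by
  have hne := S.neBot hl
  refine ContinuousLinearMap.opNorm_le_bound _ (by (clear * -; positivity)) fun ζ => ?_
  refine le_of_tendsto (S.bet_tendsto h hl ζ).norm (Eventually.of_forall fun γ => ?_)
  exact (al M N ξ γ x).le_of_opNorm_le (S.al_opNorm' γ h.1) ζ

end AP

end Pool.Agent.Helper23

end

section

open scoped InnerProductSpace Topology

open ContinuousLinearMap Filter

namespace Pool.Agent.Helper23

variable {H : Type*} [NormedAddCommGroup H] [InnerProductSpace ℂ H] [CompleteSpace H]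

variable {M N : VonNeumannAlgebra H} {ξ : H} {E : (H →L[ℂ] H) → (H →L[ℂ] H)}

namespace AP

variable (S : AP M N E ξ)

include S

/-- the flow as an extension by continuity -/
lemma bet_cont_xi {x : H →L[ℂ] H} (hx : InB M N ξ x) :
    ContinuousOn (fun l => bet M N ξ l x ξ) (Set.Ioi 0) := by
  have h1 : ContinuousOn (extendFrom (Gam N ξ) (fun γ => al M N ξ γ x ξ)) (Set.Ioi 0) :=
    continuousOn_extendFrom (fun l hl => S.mem_closure_Gam hl)
      (fun l hl => ⟨_, (S.bet_spec hx hl).2⟩)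
  refine h1.congr fun l hl => ?_
  exact (extendFrom_eq (S.mem_closure_Gam hl) (S.bet_spec hx hl).2).symm

lemma bet_cont {x : H →L[ℂ] H} (hx : InB M N ξ x) (ζ : H) :
    ContinuousOn (fun l => bet M N ξ l x ζ) (Set.Ioi 0) := by
  intro l hl
  have h1 := S.bet_cont_xi hx l hl
  have h2 : Tendsto (fun m => (bet M N ξ m x - bet M N ξ l x) ξ) (𝓝[Set.Ioi 0] l) (𝓝 0) := by
    have := h1.tendsto.sub_const (bet M N ξ l x ξ)
    rw [sub_self] at this
    exact this
  have h3 := tendsto_of_bounded_ev (Qalg M N ξ) S.denseQ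
    (x := fun m => bet M N ξ m x - bet M N ξ l x) (C := 2 * ‖x‖ + 2 * ‖x‖) (by
      filter_upwards [self_mem_nhdsWithin] with m hm
      exact ⟨sub_mem (S.bet_memQ hx hm) (S.bet_memQ hx hl),
        (norm_sub_le _ _).trans (add_le_add (S.bet_opNorm hx hm) (S.bet_opNorm hx hl))⟩)
    (by (clear * -; positivity)) h2 ζ
  have h4 := h3.add_const (bet M N ξ l x ζ)
  rw [zero_add] at h4
  refine h4.congr fun m => ?_
  rw [sub_apply, sub_add_cancel]

end AP

end Pool.Agent.Helper23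

end

end

section

section

open scoped InnerProductSpace Topology

open ContinuousLinearMap Filter

namespace Pool.Agent.Helper23

universe u

variable {H : Type u} [NormedAddCommGroup H] [InnerProductSpace ℂ H] [CompleteSpace H]

variable {M N : VonNeumannAlgebra H} {ξ : H} {E : (H →L[ℂ] H) → (H →L[ℂ] H)}

theorem Setting.avgA (S : Setting M N E ξ) (TB : ∀ x ∈ Bicent N N ξ, ∃ c : ℂ, x = c • 1)
    {x : H →L[ℂ] H} (hx : x ∈ N) (w w' : H) {c δ : ℝ} (hδ : 0 < δ)
    (h : ∀ u ∈ N, star u * u = 1 → u * star u = 1 → Defect N ξ 1 δ u →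
      c ≤ (⟪w, (star u * x * u) w'⟫_ℂ).re) :
    c ≤ (⟪ξ, x ξ⟫_ℂ * ⟪w, w'⟫_ℂ).re := by
  -- the minimal norms converge
  have hmono : Monotone fun n => avm N ξ x (avd n) := fun n k hnk =>
    avm_anti (avd_pos k).le (avd_anti hnk)
  have hbdd : BddAbove (Set.range fun n => avm N ξ x (avd n)) :=
    ⟨‖x ξ‖, by rintro _ ⟨n, rfl⟩; exact avm_le (self_mem_avK (avd_pos n).le)⟩
  set m0 : ℝ := ⨆ n, avm N ξ x (avd n) with hm0
  have hm : Tendsto (fun n => avm N ξ x (avd n)) atTop (𝓝 m0) := tendsto_atTop_ciSup hmono hbdd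
  choose z hz hzn using fun n => avm_exists (N := N) (ξ := ξ) (x := x) (avd_pos n).le (avd_pos n)
  have hzN : ∀ n, z n ∈ N := fun n => (avK_mem hx (hz n)).1
  have hzC : ∀ n, ‖z n‖ ≤ ‖x‖ := fun n => (avK_mem hx (hz n)).2
  have hzm : Tendsto (fun n => ‖z n ξ‖) atTop (𝓝 m0) := by
    have h2 : Tendsto (fun n => avm N ξ x (avd n) + avd n) atTop (𝓝 m0) := by
      have := hm.add avd_tendsto
      rwa [add_zero] at this
    exact tendsto_of_tendsto_of_tendsto_of_le_of_le hm h2 (fun n => avm_le (hz n))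
      (fun n => (hzn n).le)
  have hzm2 : Tendsto (fun n => ‖z n ξ‖ ^ 2) atTop (𝓝 (m0 ^ 2)) := hzm.pow 2
  have hm2 : Tendsto (fun n => avm N ξ x (avd n) ^ 2) atTop (𝓝 (m0 ^ 2)) := hm.pow 2
  -- Cauchy
  have hcau : CauchySeq fun n => z n ξ := by
    rw [Metric.cauchySeq_iff']
    intro ε hε
    have h1 : ∀ᶠ n in atTop, ‖z n ξ‖ ^ 2 < m0 ^ 2 + ε ^ 2 / 16 :=
      hzm2.eventually (gt_mem_nhds (by have : 0 < ε ^ 2 / 16 := by (clear * - hε; positivity)
                                       (clear * - this; linarith)))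
    have h2 : ∀ᶠ n in atTop, m0 ^ 2 - ε ^ 2 / 16 < avm N ξ x (avd n) ^ 2 :=
      hm2.eventually (lt_mem_nhds (by have : 0 < ε ^ 2 / 16 := by (clear * - hε; positivity)
                                      (clear * - this; linarith)))
    obtain ⟨n0, hn0⟩ := eventually_atTop.1 (h1.and h2)
    refine ⟨n0, fun n hn => ?_⟩
    have h3 := avK_par (avK_mono (avd_anti hn) (hz n)) (hz n0)
    have h4 := (hn0 n hn).1
    have h5 := hn0 n0 le_rfl
    rw [dist_eq_norm]
    refine lt_of_pow_lt_pow_left₀ 2 hε.le ?_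
    have h6 : 0 < ε ^ 2 := by positivity
    (clear * - h3 h4 h5; nlinarith [h5.1, h5.2])
  obtain ⟨η, hη⟩ := cauchySeq_tendsto_of_complete hcau
  obtain ⟨y, hyN, hyη, hyC⟩ := exists_limit N S.dense_commN (norm_nonneg x) hzN hzC hη
  -- `y` is in the bicentralizer
  have hyB : y ∈ Bicent M N ξ := by
    refine S.bicent_of_unitary (S.le y hyN) fun v hv => ?_
    obtain ⟨hvN, hv1, hv2, hvD⟩ := hv
    rw [Metric.tendsto_atTop]
    intro ε hε
    have hε2 : 0 < (ε / 4) ^ 2 := by positivity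
    -- choose `n`
    have h1 : ∀ᶠ n in atTop, ‖z n ξ - η‖ < ε / 8 := by
      have := (tendsto_iff_norm_sub_tendsto_zero.1 hη).eventually
        (gt_mem_nhds (show (0 : ℝ) < ε / 8 by positivity))
      exact this
    have h2 : ∀ᶠ n in atTop, ‖z (n + 1) ξ‖ ^ 2 < m0 ^ 2 + (ε / 4) ^ 2 / 16 :=
      (hzm2.comp (tendsto_add_atTop_nat 1)).eventually (gt_mem_nhds (by linarith))
    have h3 : ∀ᶠ n in atTop, m0 ^ 2 - (ε / 4) ^ 2 / 16 < avm N ξ x (avd n) ^ 2 :=
      hm2.eventually (lt_mem_nhds (by linarith))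
    obtain ⟨n1, hn1⟩ := eventually_atTop.1 h1
    obtain ⟨n2, hn2⟩ := eventually_atTop.1 (h2.and h3)
    set n := max n1 n2 with hn
    have k1 : ‖z (n + 1) ξ - η‖ < ε / 8 := hn1 _ ((le_max_left n1 n2).trans (Nat.le_succ _))
    have k2 : ‖z (n + 1) ξ‖ ^ 2 < m0 ^ 2 + (ε / 4) ^ 2 / 16 := (hn2 n (le_max_right _ _)).1
    have k3 : m0 ^ 2 - (ε / 4) ^ 2 / 16 < avm N ξ x (avd n) ^ 2 := (hn2 n (le_max_right _ _)).2
    -- choose the defect
    set R : ℝ := 4 * ‖x‖ ^ 2 + 1 with hR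
    have hRpos : 0 < R := by (clear * -; positivity)
    set e : ℝ := min (avd (n + 1)) ((ε / 8) ^ 2 / R) with he
    have hepos : 0 < e := lt_min (avd_pos _) (by (clear * - hε; positivity))
    have heR : e * R ≤ (ε / 8) ^ 2 := by
      have : e ≤ (ε / 8) ^ 2 / R := min_le_right _ _
      rwa [le_div_iff₀ hRpos] at this
    have hed : e ≤ avd (n + 1) := min_le_left _ _
    obtain ⟨k0, hk0⟩ := eventually_atTop.1 (hvD e hepos)
    refine ⟨k0, fun k hk => ?_⟩
    have hDk := hk0 k hk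
    rw [dist_zero_right]
    set u := v k with hu
    have hu1 : star u * u = 1 := hv1 k
    have hu2 : u * star u = 1 := hv2 k
    have huN : u ∈ N := hvN k
    set Z := z (n + 1) with hZ
    have hZN : Z ∈ N := hzN _
    -- first piece
    have p1 : ‖(y - Z) (u ξ)‖ ^ 2 ≤ (ε / 8) ^ 2 + (ε / 8) ^ 2 := by
      have q1 := norm_right_defect hepos.le (sub_mem hyN hZN) huN hu1 hu2 hDk
      have q2 : ‖y - Z‖ ^ 2 ≤ R := by
        have : ‖y - Z‖ ≤ ‖x‖ + ‖x‖ := (norm_sub_le _ _).trans (add_le_add hyC (hzC _))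
        have q3 : ‖y - Z‖ ^ 2 ≤ (‖x‖ + ‖x‖) ^ 2 := by (clear * - this; gcongr)
        rw [hR]; (clear * - q3; nlinarith)
      have q4 : ‖(y - Z) ξ‖ ^ 2 ≤ (ε / 8) ^ 2 := by
        have : ‖(y - Z) ξ‖ ≤ ε / 8 := by
          rw [sub_apply, hyη, norm_sub_rev]; exact k1.le
        (clear * - this; gcongr)
      have q5 : e * ‖y - Z‖ ^ 2 ≤ e * R := by (clear * - q2 hepos; gcongr)
      (clear * - heR q1 q4 q5; linarith)
    have p1' : ‖(y - Z) (u ξ)‖ < ε / 4 := by
      refine lt_of_pow_lt_pow_left₀ 2 (by (clear * - hε; positivity)) ?_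
      (clear * - hε2 p1; nlinarith)
    -- second piece
    have p2 : ‖(star u * Z * u) ξ - Z ξ‖ ^ 2 < (ε / 4) ^ 2 := by
      have q1 : star u * Z * u ∈ avK N ξ x (avd n) := by
        have := avK_conj (avd_pos (n + 1)).le hepos.le (hz (n + 1)) huN hu1 hu2 hDk
        refine avK_mono ?_ this
        rw [← avd_succ n]; (clear * - hed; linarith)
      have q2 : Z ∈ avK N ξ x (avd n) := avK_mono (avd_anti (Nat.le_succ n)) (hz (n + 1))
      have q3 := avK_par q1 q2
      have q4 : ‖(star u * Z * u) ξ‖ ^ 2 ≤ ‖Z ξ‖ ^ 2 + e * ‖Z‖ ^ 2 := by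
        have : ‖(star u * Z * u) ξ‖ = ‖Z (u ξ)‖ := by
          change ‖(star u) (Z (u ξ))‖ = _
          exact norm_of_isom (by rw [star_star]; exact hu2) _
        rw [this]
        exact norm_right_defect hepos.le hZN huN hu1 hu2 hDk
      have q5 : e * ‖Z‖ ^ 2 ≤ (ε / 8) ^ 2 / 4 := by
        have : ‖Z‖ ^ 2 ≤ ‖x‖ ^ 2 := by
          have := hzC (n + 1)
          (clear * - this; gcongr)
        have q6 : e * (4 * ‖Z‖ ^ 2) ≤ e * R := by
          gcongr
          rw [hR]; (clear * - this; linarith)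
        (clear * - heR q6; linarith)
      (clear * - hε2 k3 k2 q3 q4 q5; nlinarith)
    have p2' : ‖(star u * Z * u) ξ - Z ξ‖ < ε / 4 :=
      lt_of_pow_lt_pow_left₀ 2 (by (clear * - hε; positivity)) p2
    -- assemble
    have e1 : y (u ξ) - u (y ξ) =
        (y - Z) (u ξ) + u ((star u * Z * u) ξ - Z ξ) + u (Z ξ - y ξ) := by
      have e2 : u ((star u * Z * u) ξ) = Z (u ξ) :=
        congrArg (fun T : H →L[ℂ] H => T (Z (u ξ))) hu2
      rw [map_sub, map_sub, e2, sub_apply]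
      abel
    rw [e1]
    have n1 : ‖u ((star u * Z * u) ξ - Z ξ)‖ = ‖(star u * Z * u) ξ - Z ξ‖ := norm_of_isom hu1 _
    have n2 : ‖u (Z ξ - y ξ)‖ = ‖Z ξ - y ξ‖ := norm_of_isom hu1 _
    calc ‖(y - Z) (u ξ) + u ((star u * Z * u) ξ - Z ξ) + u (Z ξ - y ξ)‖
        ≤ ‖(y - Z) (u ξ)‖ + ‖u ((star u * Z * u) ξ - Z ξ)‖ + ‖u (Z ξ - y ξ)‖ :=
          norm_add₃_le
      _ < ε / 4 + ε / 4 + ε / 8 := by
          rw [n1, n2, hyη]
          (clear * - k1 p1' p2'; linarith)
      _ < ε := by (clear * - hε; linarith)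
  have hyBN : y ∈ Bicent N N ξ := ⟨hyN, hyB.2⟩
  obtain ⟨c0, hc0⟩ := TB y hyBN
  -- the scalar
  have hstate : Tendsto (fun n => ⟪ξ, z n ξ⟫_ℂ) atTop (𝓝 ⟪ξ, x ξ⟫_ℂ) := by
    rw [tendsto_iff_norm_sub_tendsto_zero]
    have h1 : Tendsto (fun n => avd n * ‖x‖) atTop (𝓝 0) := by
      have := avd_tendsto.mul_const ‖x‖
      rwa [zero_mul] at this
    exact squeeze_zero (fun n => norm_nonneg _) (fun n => avK_state hx (avd_pos n).le (hz n)) h1
  have hstate' : Tendsto (fun n => ⟪ξ, z n ξ⟫_ℂ) atTop (𝓝 ⟪ξ, η⟫_ℂ) :=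
    tendsto_const_nhds.inner hη
  have hc : c0 = ⟪ξ, x ξ⟫_ℂ := by
    have h1 := tendsto_nhds_unique hstate hstate'
    rw [h1, ← hyη, hc0]
    change c0 = ⟪ξ, c0 • ξ⟫_ℂ
    rw [inner_smul_right, S.inner_self, mul_one]
  -- strong convergence
  have hstrong : Tendsto (fun n => (z n - c0 • (1 : H →L[ℂ] H)) w') atTop (𝓝 0) := by
    refine tendsto_of_bounded N S.dense_commN (x := fun n => z n - c0 • (1 : H →L[ℂ] H))
      (C := ‖x‖ + ‖c0 • (1 : H →L[ℂ] H)‖)
      (fun n => sub_mem (hzN n) (smul_mem' _ (one_mem N)))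
      (fun n => (norm_sub_le _ _).trans (by gcongr; exact hzC n)) ?_ w'
    have h1 := hη.sub_const (c0 • ξ)
    have h2 : η - c0 • ξ = 0 := by
      rw [← hyη, hc0]
      exact sub_self _
    rw [h2] at h1
    exact h1
  have hw : Tendsto (fun n => (⟪w, z n w'⟫_ℂ).re) atTop (𝓝 (c0 * ⟪w, w'⟫_ℂ).re) := by
    have h1 : Tendsto (fun n => z n w') atTop (𝓝 (c0 • w')) := by
      have h2 := hstrong.add_const (c0 • w')
      rw [zero_add] at h2
      refine h2.congr fun n => ?_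
      change z n w' - c0 • w' + c0 • w' = z n w'
      abel
    have h3 : Tendsto (fun n => ⟪w, z n w'⟫_ℂ) atTop (𝓝 ⟪w, c0 • w'⟫_ℂ) :=
      tendsto_const_nhds.inner h1
    rw [inner_smul_right] at h3
    exact (Complex.continuous_re.tendsto _).comp h3
  rw [← hc]
  refine ge_of_tendsto hw ?_
  have h1 : ∀ᶠ n in atTop, avd n < δ := avd_tendsto.eventually (gt_mem_nhds hδ)
  filter_upwards [h1] with n hn
  exact avK_half w w' h (avK_mono hn.le (hz n))

end Pool.Agent.Helper23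

end

end

section

section

open scoped InnerProductSpace Topology BoundedContinuousFunction

open ContinuousLinearMap Filter

open Pool.Agent.Helper23.RBF

namespace Pool.Agent.Helper78.BC

universe u

variable {H : Type u} [NormedAddCommGroup H] [InnerProductSpace ℂ H] [CompleteSpace H]

/-- Bicentralizer theorem, cyclic case. -/
theorem trivial_cyclic (A : VonNeumannAlgebra H) (ξ : H) (hξ : ‖ξ‖ = 1)
    (hcyc : Dense (Pool.Agent.Helper23.orb A ξ : Set H)) (hsep : ∀ a ∈ A, a ξ = 0 → a = 0)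
    (hN : TypeIIIOne A) : TrivialBicentralizer A ξ := by
  obtain ⟨J, Ψ, h⟩ := exists_std A ξ hξ hcyc hsep
  have S : Pool.Agent.Helper23.Setting A A (fun x => x) ξ :=
    { le := fun x hx => hx
      norm_one := hξ
      cyc := hcyc
      sep := hsep
      E_mem := fun x hx => hx
      E_bimod := fun a _ b _ x _ => rfl
      E_fix := fun x _ => rfl
      E_state := fun x _ => rfl }
  have key : ∀ x, Bic A ξ x ↔ x ∈ S.Balg := fun x => Iff.rfl
  have hB := scalar_of_proj S.Balg fun p hp hpp hps => by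
    have hp' : Bic A ξ p := (key p).2 hp
    refine no_proj h hN hp' hpp hps ?_
    have := J_of_fixed h hp'.1 (fixed_bic h hN hp')
    rwa [hps] at this
  intro x hx hx'
  exact hB x ((key x).1 ⟨hx, hx'⟩)

/-- Connes' bicentralizer problem: the bicentralizer of a type III₁ algebra is trivial. -/
theorem trivialBicentralizer (A : VonNeumannAlgebra H) (ξ : H) (hξ : ‖ξ‖ = 1)
    (hsep : ∀ a ∈ A, a ξ = 0 → a = 0) (hA : TypeIIIOne A) : TrivialBicentralizer A ξ :=
  transport (fun K _ _ _ B κ h1 h2 h3 h4 => trivial_cyclic B κ h1 h2 h3 h4) A ξ hξ hsep hA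

end Pool.Agent.Helper78.BC

end

end

section

section

open scoped InnerProductSpace Topology ENNReal

open ContinuousLinearMap Filter MeasureTheory

set_option linter.unusedSectionVars false

set_option linter.unusedVariables false

namespace Pool.Agent.Helper23

variable {H : Type*} [NormedAddCommGroup H] [InnerProductSpace ℂ H] [CompleteSpace H]

variable {M N : VonNeumannAlgebra H} {ξ : H} {E : (H →L[ℂ] H) → (H →L[ℂ] H)}

open RBF in
lemma wK_nsf (hd : Dense (orb N.commutant ξ : Set H)) :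
    IsNSFWeight (amp N) (wK ξ) where
  add x hx y hy hx0 hy0 := by
    rw [wK, wK, wK, ← ENNReal.tsum_add]
    refine tsum_congr fun j => ?_
    rw [← ENNReal.ofReal_add (re_inner_nonneg hx0 _) (re_inner_nonneg hy0 _), add_apply,
      inner_add_right, Complex.add_re]
  smul x hx hx0 c hc := by
    rw [wK, wK, ← ENNReal.tsum_mul_left]
    refine tsum_congr fun j => ?_
    rw [← ENNReal.ofReal_mul hc, smul_apply, inner_smul_right, Complex.re_ofReal_mul]
  faithful x hx hx0 h := by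
    obtain ⟨Y, hY, rfl⟩ := exists_sqrt_mem (amp N) hx hx0
    rw [wK_star_mul] at h
    have hY0 : Y = 0 := amp_ext (ξ := ξ) hd hY (zero_mem _) fun f => by
      rw [SX_eq_zero h f]; rfl
    rw [hY0, mul_zero]
  normal D x hD hdir hDA hx hlub := by
    have h1 : ∀ j : JJ, ENNReal.ofReal (⟪ten (gJ j) ξ, x (ten (gJ j) ξ)⟫_ℂ).re =
        ⨆ d : D, ENNReal.ofReal (⟪ten (gJ j) ξ, (d : L2R H →L[ℂ] L2R H) (ten (gJ j) ξ)⟫_ℂ).re := by
      intro j
      refine isLUB_ofReal (fun r => ?_) (hlub (ten (gJ j) ξ))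
      constructor
      · rintro ⟨d, hd, rfl⟩
        exact ⟨⟨d, hd⟩, rfl⟩
      · rintro ⟨d, rfl⟩
        exact ⟨d, d.2, rfl⟩
    rw [wK]
    simp only [h1]
    rw [tsum_iSup_directed, iSup_subtype']
    · rfl
    · rintro ⟨d, hd⟩ ⟨d', hd'⟩
      obtain ⟨e, he, h2, h3⟩ := hdir d hd d' hd'
      exact ⟨⟨e, he⟩, fun a => ⟨ENNReal.ofReal_le_ofReal (le_re_inner h2 _),
        ENNReal.ofReal_le_ofReal (le_re_inner h3 _)⟩⟩
  semifinite F hF := by
    have h1 : ∀ n : ℕ, ∀ f : L2R ℂ, Pn n f = f → sl f F = 0 := by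
      intro n f hf
      have hm : rk (1 : H →L[ℂ] H) e0 f ∈ amp N := rk_mem_amp (one_mem N) _ _
      have h2 := hF (star (rk (1 : H →L[ℂ] H) e0 f) * rk (1 : H →L[ℂ] H) e0 f)
        (mul_mem (star_mem hm) hm) (star_mul_self_nonneg _) (by
          rw [wK_star_mul, SX_rk]
          exact ENNReal.mul_ne_top ENNReal.ofReal_ne_top (q0_lt_top hf))
      have h3 : ‖rk (1 : H →L[ℂ] H) e0 f F‖ = 0 := by
        have h4 := norm_sq_apply (rk (1 : H →L[ℂ] H) e0 f) F
        change _ = ⟪F, (star (rk (1 : H →L[ℂ] H) e0 f) * rk (1 : H →L[ℂ] H) e0 f) F⟫_ℂ at h4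
        rw [h2, inner_zero_right] at h4
        have h5 : ‖rk (1 : H →L[ℂ] H) e0 f F‖ ^ 2 = 0 := by exact_mod_cast h4
        exact pow_eq_zero_iff two_ne_zero |>.1 h5
      rw [rk_apply, norm_ten, e0_norm, one_mul, one_apply_eq_self] at h3
      exact norm_eq_zero.1 h3
    refine eq_zero_of_ten fun f η => ?_
    have h2 : (adjoint (axi η)) F = 0 := by
      refine eq_zero_of_Pn (n0 := 0) fun n _ => ?_
      refine ext_inner_left ℂ fun g => ?_
      rw [← inner_Pn, adjoint_inner_right, inner_zero_right]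
      change ⟪ten (Pn n g) η, F⟫_ℂ = 0
      rw [← inner_sl, h1 n _ (Pn_Pn n g), inner_zero_right]
    have h3 : ⟪f, (adjoint (axi η)) F⟫_ℂ = ⟪ten f η, F⟫_ℂ := by
      rw [adjoint_inner_right]; rfl
    rw [← h3, h2, inner_zero_right]

end Pool.Agent.Helper23

end

section

open scoped InnerProductSpace Topology ENNReal BoundedContinuousFunction

open ContinuousLinearMap Filter MeasureTheory

namespace Pool.Agent.Helper23

variable {H : Type*} [NormedAddCommGroup H] [InnerProductSpace ℂ H] [CompleteSpace H]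

variable {M N : VonNeumannAlgebra H} {ξ : H} {E : (H →L[ℂ] H) → (H →L[ℂ] H)}

open RBF

theorem wK_dominant_of (hd : Dense (orb N.commutant ξ : Set H)) (hN : TwoIsom N)
    (hV : ConjGK N ξ) : IsDominant (amp N) (wK ξ) where
  toIsNSFWeight := wK_nsf hd
  scale l hl := ⟨_, tr_scaling hl⟩
  properlyInfinite := by
    obtain ⟨v, hv, w, hw, hv1, hw1, hvw⟩ := hN
    obtain ⟨V, V', hVs, hVV, hVV', hVG⟩ := hV
    have hVs' : star V' = V := by rw [← hVs, star_star]
    have hstar : ∀ x y : H →L[ℂ] H, star (V * lift x * V') * (V * lift y * V') =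
        V * lift (star x * y) * V' := by
      intro x y
      rw [star_mul, star_mul, hVs, hVs', ← lift_star]
      calc V * (lift (star x) * V') * (V * lift y * V') =
            V * lift (star x) * (V' * V) * lift y * V' := by simp only [mul_assoc]
        _ = V * (lift (star x) * lift y) * V' := by
          rw [hVV', mul_one, mul_assoc V]
        _ = _ := by rw [← lift_mul]
    have hcomm : ∀ T : L2R H →L[ℂ] L2R H,
        (∀ u, ScalingUnitary (amp N) (wK ξ) 1 u → u * T = T * u) → ∀ a ∈ N,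
          V * lift a * V' * T = T * (V * lift a * V') := by
      intro T hT a ha
      obtain ⟨u, k, hk, hu⟩ := exists_unitaries N ha
      have hl : V * lift a * V' = ∑ i, k i • (V * lift (u i) * V') := by
        rw [hk, Fin.sum_univ_four, Fin.sum_univ_four, lift_add, lift_add, lift_add, lift_smul,
          lift_smul, lift_smul, lift_smul]
        simp only [mul_add, add_mul, mul_smul_comm, smul_mul_assoc]
      rw [hl, Finset.sum_mul, Finset.mul_sum]
      refine Finset.sum_congr rfl fun i _ => ?_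
      rw [smul_mul_assoc, mul_smul_comm, hT _ (GK_iff.1 (hVG _ (hu i).1 (hu i).2.1 (hu i).2.2))]
    refine ⟨V * lift v * V', V * lift w * V', ?_, ?_, ?_, fun T hT => ?_⟩
    · rw [hstar, hv1, lift_one, mul_one, hVV]
    · rw [hstar, hw1, lift_one, mul_one, hVV]
    · rw [hstar, hvw, lift_zero', mul_zero, zero_mul]
    · exact ⟨hcomm T hT v hv, hcomm T hT w hw⟩

end Pool.Agent.Helper23

end

end

section

section

open scoped InnerProductSpace Topology ENNReal BoundedContinuousFunction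

open ContinuousLinearMap Filter MeasureTheory

namespace Pool.Agent.Helper23.ED

open Pool.Agent.Helper23 Pool.Agent.Helper23.RBF

open Pool.Agent.Helper78.BC.Transport (Sub r)

universe u

open Pool.Agent.Helper43.TTF (FT)

variable {K : Type*} [NormedAddCommGroup K] [InnerProductSpace ℂ K] [CompleteSpace K]

variable {A : VonNeumannAlgebra K} {κ : K} {R : K →L[ℂ] K} {D : K →L[ℝ] K}
  {Ψ : (ℝ →ᵇ ℂ) →⋆ₐ[ℂ] (K →L[ℂ] K)}

open Pool.Agent.Helper43.TTF in
theorem smear_rel (h : Modular A κ R D Ψ) (hcyc : Dense (orb A κ : Set K))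
    (hsep : ∀ a ∈ A, a κ = 0 → a = 0) {Y : K →L[ℂ] K}
    (hY : Y ∈ A.commutant) {m : ℝ} (hm : 0 < m) (z : ℂ) :
    ∃ p ∈ A, smear (fun t => Ψ (expB t)) (gau m z) Y κ = p κ ∧
      (star (smear (fun t => Ψ (expB t)) (gau m (z - Complex.I)) Y)) κ = (star p) κ := by
  have hU : UG (fun t => Ψ (expB t)) := h.fcal.ug
  have hFC : FC R D Ψ := ⟨h.psi_FR, h.psi_comm, h.psi_D, h.psi_cont⟩
  obtain ⟨J, hJ⟩ := hFC.exists_J h.data
  have hcyc' : Dense (orb A.commutant κ : Set K) := dense_of_separating A κ hsep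
  set b := hJ.cj Y with hbdef
  have hb : b ∈ A := by
    have h1 := cj_mem h.data.symm hcyc' (by rwa [VonNeumannAlgebra.commutant_commutant])
      hFC.symm hJ.symm hY
    rw [VonNeumannAlgebra.commutant_commutant] at h1
    exact h1
  have hb' : star b ∈ A := star_mem hb
  have hYb : Y = hJ.cj b := by rw [hbdef, hJ.cj_cj]
  have hDκ : D κ = κ := by
    have h1 := h.data.D_comm 1 (one_mem _)
    rwa [star_one, one_apply_eq_self, R_xi h.data] at h1
  have hJκ : J κ = κ := by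
    have h1 := hJ.J_T κ
    rw [h.psi_xi, hDκ] at h1
    have h2 : FT 0 = 1 := by
      rw [FT_apply]
      simp
    rwa [h2, one_smul] at h1
  have hYκ : Y κ = J (b κ) := by
    rw [hYb, hJ.cj_apply, hJκ]
  have hYκ' : (star Y) κ = J ((star b) κ) := by
    refine ext_inner_left ℂ fun v => ?_
    rw [inner_star_right, hYb, hJ.cj_apply]
    have h1 : ⟪J (b (J v)), κ⟫_ℂ = ⟪J (b (J v)), J κ⟫_ℂ := by rw [hJκ]
    rw [h1, hJ.J_add_inner]
    have h2 : ⟪v, J ((star b) κ)⟫_ℂ = ⟪J (J v), J ((star b) κ)⟫_ℂ := by rw [hJ.J_J]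
    rw [h2, hJ.J_add_inner, inner_star_left]
  refine ⟨smear (fun t => Ψ (expB t)) (gau m (z - Complex.I / 2)) (star b),
    smear_mem hU (gau_int hm _) (fun t => h.mem t _ hb'), ?_, ?_⟩
  · rw [smear_xi h hm, smear_xi h hm, hYκ, smF_step h hFC hJ hm z hb]
  · rw [smear_star hU (gau_int hm _), smear_star hU (gau_int hm _), star_star]
    simp only [gau_conj]
    rw [smear_xi h hm, smear_xi h hm, hYκ', smF_step h hFC hJ hm _ hb', star_star]
    congr 2
    congr 1
    simp only [map_sub, Complex.conj_I, map_div₀, Complex.conj_ofNat]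
    ring

end Pool.Agent.Helper23.ED

end

section

open scoped InnerProductSpace Topology ENNReal BoundedContinuousFunction

open ContinuousLinearMap Filter MeasureTheory

namespace Pool.Agent.Helper23.ED

open Pool.Agent.Helper23 Pool.Agent.Helper23.RBF

open Pool.Agent.Helper78.BC.Transport (Sub r)

universe u

variable {H : Type u} [NormedAddCommGroup H] [InnerProductSpace ℂ H] [CompleteSpace H]

variable {K : Type u} [NormedAddCommGroup K] [InnerProductSpace ℂ K] [CompleteSpace K]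

variable {N : VonNeumannAlgebra H} {ξ : H} {i : K →L[ℂ] H} {κ : K}

open Pool.Agent.Helper78.BC in
theorem coc_mem' (Sb : Sub N ξ i κ) (hsep : ∀ a ∈ N, a ξ = 0 → a = 0)
    {R₀ : K →L[ℂ] K} {D₀ : K →L[ℝ] K} {Ψ₀ : (ℝ →ᵇ ℂ) →⋆ₐ[ℂ] (K →L[ℂ] K)}
    (h₀ : Modular (Transport.B N i) κ R₀ D₀ Ψ₀)
    {T : K →L[ℂ] K} {Ψ : (ℝ →ᵇ ℂ) →⋆ₐ[ℂ] (K →L[ℂ] K)} (hΨ : FCal ((2 : ℂ) • T) Ψ)
    (hrel : ∀ X ∈ (Transport.B N i).commutant, ∀ X' ∈ (Transport.B N i).commutant, ∀ p ∈ N,
      i (X κ) = p ξ → i ((star X') κ) = (star p) ξ →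
        ∀ v, X (T v) - T (X (T v)) = T (X' (v - T v))) (t : ℝ) :
    Ψ (expB t) * Ψ₀ (expB (-t)) ∈ Transport.B N i := by
  have hU : UG (fun s => Ψ₀ (expB s)) := h₀.fcal.ug
  have hV : UG (fun s => Ψ (expB s)) := hΨ.ug
  have hUU : ∀ s, Ψ₀ (expB s) * Ψ₀ (expB (-s)) = 1 := by
    intro s
    have h1 := hU.add s (-s)
    have h2 := hU.zero
    simp only [add_neg_cancel] at h1
    rw [← h1]
    exact h2
  have hVV : ∀ s, Ψ (expB (-s)) * Ψ (expB s) = 1 := by
    intro s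
    have h1 := hV.add (-s) s
    have h2 := hV.zero
    simp only [neg_add_cancel] at h1
    rw [← h1]
    exact h2
  have hUU' : ∀ s, Ψ₀ (expB (-s)) * Ψ₀ (expB s) = 1 := by
    intro s
    have h1 := hUU (-s)
    rwa [neg_neg] at h1
  -- the commutant is invariant
  have hinv : ∀ Y ∈ (Transport.B N i).commutant, ∀ s : ℝ,
      Ψ₀ (expB s) * Y * Ψ₀ (expB (-s)) ∈ (Transport.B N i).commutant := by
    intro Y hY s
    rw [mem_comm_iff]
    intro a ha
    have h1 := h₀.mem (-s) a ha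
    rw [neg_neg] at h1
    have h2 := mem_comm_iff.1 hY _ h1
    calc a * (Ψ₀ (expB s) * Y * Ψ₀ (expB (-s)))
        = (Ψ₀ (expB s) * Ψ₀ (expB (-s))) * a * (Ψ₀ (expB s) * Y * Ψ₀ (expB (-s))) := by
          rw [hUU, one_mul]
      _ = Ψ₀ (expB s) * ((Ψ₀ (expB (-s)) * a * Ψ₀ (expB s)) * Y) * Ψ₀ (expB (-s)) := by
          simp only [mul_assoc]
      _ = Ψ₀ (expB s) * (Y * (Ψ₀ (expB (-s)) * a * Ψ₀ (expB s))) * Ψ₀ (expB (-s)) := by
          rw [h2]
      _ = (Ψ₀ (expB s) * Y * Ψ₀ (expB (-s))) * a * (Ψ₀ (expB s) * Ψ₀ (expB (-s))) := by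
          simp only [mul_assoc]
      _ = (Ψ₀ (expB s) * Y * Ψ₀ (expB (-s))) * a := by rw [hUU, mul_one]
  have key : ∀ Y ∈ (Transport.B N i).commutant, ∀ s : ℝ,
      Ψ (expB (-s)) * (Ψ₀ (expB s) * Y * Ψ₀ (expB (-s))) * Ψ (expB s) = Y := by
    intro Y hY s
    refine unsmear hU (fun m hm => ?_)
    refine liou hΨ hU hm ?_ s
    intro z v
    obtain ⟨q, hq, h1, h2⟩ := smear_rel h₀ (Transport.dense_B Sb hsep)
      (Transport.sep_B Sb hsep) hY hm z
    obtain ⟨p, hp, -, rfl⟩ := Transport.exists_lift Sb hsep hq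
    refine hrel _ (smear_mem hU (gau_int hm z) (fun s => hinv Y hY s)) _
      (smear_mem hU (gau_int hm (z - Complex.I)) (fun s => hinv Y hY s)) p hp ?_ ?_ v
    · rw [h1, Sb.i_r hp, Sb.vec]
    · rw [h2, Transport.Sub.r_star, Sb.i_r (star_mem hp), Sb.vec]
  rw [mem_iff_commutes]
  intro Y hY
  have h3 := key Y hY (-t)
  rw [neg_neg] at h3
  have hVV' : Ψ (expB (-t)) * Ψ (expB t) = 1 := hVV t
  have hUt : Ψ₀ (expB t) * Ψ₀ (expB (-t)) = 1 := hUU t
  calc Y * (Ψ (expB t) * Ψ₀ (expB (-t)))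
      = (Ψ (expB t) * (Ψ₀ (expB (-t)) * Y * Ψ₀ (expB t)) * Ψ (expB (-t))) *
          (Ψ (expB t) * Ψ₀ (expB (-t))) := by rw [h3]
    _ = Ψ (expB t) * Ψ₀ (expB (-t)) * Y * (Ψ₀ (expB t) *
          (Ψ (expB (-t)) * Ψ (expB t)) * Ψ₀ (expB (-t))) := by simp only [mul_assoc]
    _ = Ψ (expB t) * Ψ₀ (expB (-t)) * Y := by rw [hVV', mul_one, hUt, mul_one]

end Pool.Agent.Helper23.ED

end

section

open scoped InnerProductSpace Topology ENNReal BoundedContinuousFunction

open ContinuousLinearMap Filter MeasureTheory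

namespace Pool.Agent.Helper23.ED

open Pool.Agent.Helper23 Pool.Agent.Helper23.RBF

open Pool.Agent.Helper78.BC.Transport (Sub r)

universe u

open Pool.Agent.Helper23.TTA (Rop Dop)

variable {H : Type u} [NormedAddCommGroup H] [InnerProductSpace ℂ H] [CompleteSpace H]

variable {M N : VonNeumannAlgebra H} {E : (H →L[ℂ] H) → (H →L[ℂ] H)} {ξ : H}

open Pool.Agent.Helper78.BC Pool.Agent.Helper43.TTF in
theorem exists_coc' (S : Setting M N E ξ) {Ψ : (ℝ →ᵇ ℂ) →⋆ₐ[ℂ] (H →L[ℂ] H)}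
    (hΨ : Modular M ξ (Rop M ξ) (Dop M ξ) Ψ)
    (hN : ∀ (t : ℝ), ∀ a ∈ N, Ψ (expB t) * a * Ψ (expB (-t)) ∈ N)
    {ψ : (H →L[ℂ] H) → ℝ≥0∞} (hψ : IsNSFWeight N ψ) :
    ∃ c, Coc N (fun t => Ψ (expB t)) ψ c := by
  have hsep : ∀ a ∈ N, a ξ = 0 → a = 0 := fun a ha h => S.sep a (S.le a ha) h
  obtain ⟨V, hVc, κ, Sb⟩ := CoE.exists_sub N ξ
  have h' := ttdata (Transport.B N V.subtypeL) κ (Transport.dense_B Sb hsep)
    (Transport.sep_B Sb hsep)
  obtain ⟨Ψ₀, h⟩ := exists_FC h'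
  have hmod := modular_of h' (Transport.dense_B Sb hsep) (Transport.sep_B Sb hsep) h
  have hi : ∀ (t : ℝ) (v : V), V.subtypeL (Ψ₀ (expB t) v) = Ψ (expB t) (V.subtypeL v) :=
    fun t v => FCal.int hmod.fcal hΨ.fcal V.subtypeL (i_Rop S Sb) (expB t) v
  obtain ⟨L, _, _, _, Λ, ρ, hG⟩ := exists_gns hψ
  obtain ⟨T, S', Ψ', hT, hΨ'⟩ := exists_T' Sb hsep hψ hG
  obtain ⟨c, h1, h2, h3, h4, h5, h6⟩ := transfer S Sb hΨ hN hmod.fcal.ug hi hΨ'.ug
    (coc_mem' Sb hsep hmod hΨ' fun X hX X' hX' p hp e1 e2 v =>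
      n_rel' Sb hsep hψ hG hT hX hX' hp e1 e2 v)
  refine ⟨c, h1, h2, h3, h4, fun u hu hu1 hu2 l hl => ?_⟩
  have h7 := scal_iff' Sb hsep hψ hG hT hΨ' hu hu1 hu2 hl
  have h8 : ScalingUnitary N ψ l u ↔
      ∀ x ∈ N, 0 ≤ x → ψ (star u * x * u) = ENNReal.ofReal l * ψ x :=
    ⟨fun h => h.2.2.2, fun h => ⟨hu, hu1, hu2, h⟩⟩
  rw [h8, h7]
  exact forall_congr' fun t => h6 u hu t _

end Pool.Agent.Helper23.ED

end

section

open scoped InnerProductSpace Topology ENNReal BoundedContinuousFunction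

open ContinuousLinearMap Filter MeasureTheory

namespace Pool.Agent.Helper23.ED

open Pool.Agent.Helper23 Pool.Agent.Helper23.RBF

open Pool.Agent.Helper78.BC.Transport (Sub r)

universe u

open TopologicalSpace

variable {H : Type*} [NormedAddCommGroup H] [InnerProductSpace ℂ H] [CompleteSpace H]

variable {N : VonNeumannAlgebra H} {ξ : H} {V c : ℝ → H →L[ℂ] H} {ψ : (H →L[ℂ] H) → ℝ≥0∞}

open WuB

/-- the unitary conjugating `c_a V_a ⊗ e^{ias}` into `V_a ⊗ e^{ias}` -/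
theorem exists_Cc (hV : UG V) (hc : Coc N V ψ c) : ∃ X ∈ amp N, star X * X = 1 ∧
    X * star X = 1 ∧ ∀ a, X * UV (fun t => c t * V t) a = UV V a * X := by
  have hU := coc_ug hV hc
  -- the adjoint field is strongly continuous
  have hstar : ∀ t, star (c t) = V t * star (c t * V t) := by
    intro t
    rw [star_mul, hV.star, ← mul_assoc, V_neg hV, one_mul]
  have hst : ∀ v, Continuous fun t => star (c t) v := by
    intro v
    have h1 : ∀ t, star (c t) v = V t ((c (-t) * V (-t)) v) := by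
      intro t
      rw [hstar, hU.star]
      rfl
    simp only [h1]
    refine cont_comp (fun t => norm_le_one_of_isom ?_) hV.cont (fun v => ?_) v
    · rw [hV.star, V_neg' hV]
    · exact (hU.cont v).comp continuous_neg
  have hn : ∀ t, ‖star (c t)‖ ≤ 1 := fun t =>
    norm_le_one_of_isom (by rw [star_star]; exact (hc.unit t).2)
  have hD : Dec (fun t : ℝ => star (c (2 * Real.pi * t))) :=
    Dec.of_cont zero_le_one (fun s => hn _) (fun v => (hst v).comp (by fun_prop))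
  have hD' : Dec (fun t : ℝ => c (2 * Real.pi * t)) :=
    Dec.of_cont zero_le_one (fun s => norm_le_one_of_isom (hc.unit _).1)
      (fun v => (hc.cont v).comp (by fun_prop))
  have hadj : star (fco fun t : ℝ => star (c (2 * Real.pi * t))) =
      fco fun t : ℝ => c (2 * Real.pi * t) :=
    fco_adj hD hD' fun s x y => by rw [inner_star_right]
  refine ⟨fco fun t : ℝ => star (c (2 * Real.pi * t)), ?_, ?_, ?_, fun a => ?_⟩
  · exact fco_mem_amp hD fun s => star_mem (hc.mem _)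
  · rw [hadj, fco_mul hD' hD]
    have : (fun s : ℝ => c (2 * Real.pi * s) * star (c (2 * Real.pi * s))) =
        fun _ => (1 : H →L[ℂ] H) := by
      funext s
      exact (hc.unit _).2
    rw [this, fco_const, lift_one]
  · rw [hadj, fco_mul hD hD']
    have : (fun s : ℝ => star (c (2 * Real.pi * s)) * c (2 * Real.pi * s)) =
        fun _ => (1 : H →L[ℂ] H) := by
      funext s
      exact (hc.unit _).1
    rw [this, fco_const, lift_one]
  · have hrel : ∀ t : ℝ, star (c t) * (c a * V a) = V a * star (c (t - a)) := by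
      intro t
      have h1 := hc.cocycle a (t - a)
      rw [add_sub_cancel] at h1
      have h2 : c t * V a = c a * V a * c (t - a) := by
        rw [h1]
        calc c a * (V a * c (t - a) * V (-a)) * V a
            = c a * V a * c (t - a) * (V (-a) * V a) := by simp only [mul_assoc]
          _ = _ := by rw [V_neg' hV, mul_one]
      calc star (c t) * (c a * V a)
          = star (c t) * (c a * V a) * (c (t - a) * star (c (t - a))) := by
            rw [(hc.unit _).2, mul_one]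
        _ = star (c t) * (c a * V a * c (t - a)) * star (c (t - a)) := by
            simp only [mul_assoc]
        _ = (star (c t) * c t) * V a * star (c (t - a)) := by
            rw [← h2]; simp only [mul_assoc]
        _ = _ := by rw [(hc.unit _).1, one_mul]
    ext F : 1
    refine (Fo H).injective ?_
    change Fo H (fco _ (lift (c a * V a) (mulOp H (ems a) F))) =
      Fo H (lift (V a) (mulOp H (ems a) (fco _ F)))
    rw [Fo_fco, Fo_lift, Fo_ems, Fo_lift, Fo_ems, Fo_fco]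
    set G := Fo H F with hG
    ext1
    filter_upwards [dec_coe hD (lift (c a * V a) (tr H (a / (2 * Real.pi)) G)),
      lift_coe (c a * V a) (tr H (a / (2 * Real.pi)) G), tr_coe (a / (2 * Real.pi)) G,
      lift_coe (V a) (tr H (a / (2 * Real.pi))
        (dec (fun t : ℝ => star (c (2 * Real.pi * t))) G)),
      tr_coe (a / (2 * Real.pi)) (dec (fun t : ℝ => star (c (2 * Real.pi * t))) G),
      ae_tr (a / (2 * Real.pi)) (dec_coe hD G)] with s h1 h2 h3 h4 h5 h6
    rw [h1, h2, h3, h4, h5, h6]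
    have h7 := congrArg (fun T : H →L[ℂ] H => T (G (s - a / (2 * Real.pi))))
      (hrel (2 * Real.pi * s))
    have h8 : 2 * Real.pi * (s - a / (2 * Real.pi)) = 2 * Real.pi * s - a := by
      have := Real.pi_pos
      field_simp
    rw [h8]
    exact h7

theorem exists_W_coc [SeparableSpace H] (hV : UG V) (hd : Dense (orb N.commutant ξ : Set H))
    (hc : Coc N V ψ c) (hψ : IsDominant N ψ) :
    ∃ W : H ≃ₗᵢ[ℂ] L2R H, (∀ a ∈ N.commutant, ∀ x, W (a x) = lift a (W x)) ∧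
      ∀ t x, W (c t (V t x)) = UV V t (W x) := by
  have hU := coc_ug hV hc
  have hs : ∀ s, ∃ u ∈ N, star u * u = 1 ∧ u * star u = 1 ∧
      ∀ t, u * (c t * V t) = ph t s • (c t * V t * u) := by
    intro s
    obtain ⟨u, hu⟩ := hψ.scale (Real.exp s) (Real.exp_pos s)
    refine ⟨u, hu.1, hu.2.1, hu.2.2.1, ?_⟩
    have h1 := (hc.scal u hu.1 hu.2.1 hu.2.2.1 (Real.exp s) (Real.exp_pos s)).1 hu
    intro t
    have h2 := h1 t
    rwa [Real.log_exp] at h2
  obtain ⟨v, w, hvv, hww, hvw, hT⟩ := hψ.properlyInfinite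
  have hv : v ∈ N := by
    rw [mem_iff_commutes]
    intro a ha
    exact ((hT a fun u hu => (mem_comm_iff.1 ha u hu.1)).1).symm
  have hw : w ∈ N := by
    rw [mem_iff_commutes]
    intro a ha
    exact ((hT a fun u hu => (mem_comm_iff.1 ha u hu.1)).2).symm
  have hcomm : ∀ t, v * (c t * V t) = c t * V t * v ∧ w * (c t * V t) = c t * V t * w := by
    intro t
    refine hT (c t * V t) fun u hu => ?_
    have h1 := (hc.scal u hu.1 hu.2.1 hu.2.2.1 1 one_pos).1 hu t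
    have h2 : ph t (Real.log 1) = 1 := by
      unfold ph
      simp
    rwa [h2, one_smul] at h1
  obtain ⟨V', hV'1, hV'2⟩ := exists_W_UV hU hd hs hv hw hvv hww hvw (fun t => (hcomm t).1)
    (fun t => (hcomm t).2)
  obtain ⟨X, hX, hX1, hX2, hXU⟩ := exists_Cc hV hc
  have hXn : ∀ x, ‖X x‖ = ‖x‖ := fun x => norm_of_isom hX1 x
  let XE : L2R H ≃ₗᵢ[ℂ] L2R H :=
    { toFun := X
      invFun := (star X : L2R H →L[ℂ] L2R H)
      map_add' := map_add X
      map_smul' := map_smul X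
      left_inv := fun x => congrArg (fun T : L2R H →L[ℂ] L2R H => T x) hX1
      right_inv := fun x => congrArg (fun T : L2R H →L[ℂ] L2R H => T x) hX2
      norm_map' := hXn }
  refine ⟨V'.trans XE, fun a ha x => ?_, fun t x => ?_⟩
  · change X (V' (a x)) = lift a (X (V' x))
    rw [hV'1 a ha, amp_comm hX ha]
  · change X (V' (c t (V t x))) = UV V t (X (V' x))
    have h1 := hV'2 t x
    have h2 : V' (c t (V t x)) = UV (fun t => c t * V t) t (V' x) := h1
    rw [h2]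
    exact congrArg (fun T : L2R H →L[ℂ] L2R H => T (V' x)) (hXU t)

end Pool.Agent.Helper23.ED

end

end
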