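import Pool.Agent.Helper23.FB.L03_a0
import Pool.Agent.Helper23.FB.L03_a1
import Pool.Agent.Helper23.FB.L03_a2
import Pool.Agent.Helper23.FB.L03_a3

/-!
Parts of Helper23.FA.L03_01, Helper23.FA.L04_01, Helper23.FA.L05_00
-/

attribute [local instance 5000]
  Pool.Agent.Helper23.FB.Inst.rCharZero Pool.Agent.Helper23.FB.Inst.rALM
  Pool.Agent.Helper23.FB.Inst.rARM Pool.Agent.Helper23.FB.Inst.rALSM
  Pool.Agent.Helper23.FB.Inst.rARSM Pool.Agent.Helper23.FB.Inst.rARRLE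
  Pool.Agent.Helper23.FB.Inst.rALRLE Pool.Agent.Helper23.FB.Inst.rARRLT
  Pool.Agent.Helper23.FB.Inst.rALRLT Pool.Agent.Helper23.FB.Inst.rPMRLT
  Pool.Agent.Helper23.FB.Inst.rMPRLT Pool.Agent.Helper23.FB.Inst.rPMM
  Pool.Agent.Helper23.FB.Inst.rMPM Pool.Agent.Helper23.FB.Inst.rPMSM
  Pool.Agent.Helper23.FB.Inst.rMPSM Pool.Agent.Helper23.FB.Inst.rEAOL
  Pool.Agent.Helper23.FB.Inst.rIOR Pool.Agent.Helper23.FB.Inst.rISOR
  Pool.Agent.Helper23.FB.Inst.rFS Pool.Agent.Helper23.FB.Inst.rcCharZero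
  Pool.Agent.Helper23.FB.Inst.rNZD Pool.Agent.Helper23.FB.Inst.rcNZD
  Pool.Agent.Helper23.FB.Inst.bSemiring Pool.Agent.Helper23.FB.Inst.bStar
  Pool.Agent.Helper23.FB.Inst.bAlg Pool.Agent.Helper23.FB.Inst.bSub
  Pool.Agent.Helper23.FB.Inst.bMul Pool.Agent.Helper23.FB.Inst.bAdd
  Pool.Agent.Helper23.FB.Inst.iRing Pool.Agent.Helper23.FB.Inst.iSemiring
  Pool.Agent.Helper23.FB.Inst.iAlgC Pool.Agent.Helper23.FB.Inst.iSMulC
  Pool.Agent.Helper23.FB.Inst.iModC Pool.Agent.Helper23.FB.Inst.iAlgR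
  Pool.Agent.Helper23.FB.Inst.iSMulR Pool.Agent.Helper23.FB.Inst.iModR
  Pool.Agent.Helper23.FB.Inst.iMonoid Pool.Agent.Helper23.FB.Inst.iSemigroup
  Pool.Agent.Helper23.FB.Inst.iMulOneClass Pool.Agent.Helper23.FB.Inst.iMul
  Pool.Agent.Helper23.FB.Inst.iAdd Pool.Agent.Helper23.FB.Inst.iSub
  Pool.Agent.Helper23.FB.Inst.iNeg Pool.Agent.Helper23.FB.Inst.iAddCommMonoid
  Pool.Agent.Helper23.FB.Inst.iAddCommGroup Pool.Agent.Helper23.FB.Inst.iAddGroup
  Pool.Agent.Helper23.FB.Inst.iAddMonoid Pool.Agent.Helper23.FB.Inst.iSMulZeroC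
  Pool.Agent.Helper23.FB.Inst.iMulActC Pool.Agent.Helper23.FB.Inst.iDSMulC
  Pool.Agent.Helper23.FB.Inst.iDSMulR Pool.Agent.Helper23.FB.Inst.iSNAG
  Pool.Agent.Helper23.FB.Inst.iSNACG Pool.Agent.Helper23.FB.Inst.iNorm
  Pool.Agent.Helper23.FB.Inst.iNSC' Pool.Agent.Helper23.FB.Inst.iNSR'
  Pool.Agent.Helper23.FB.Inst.iTop Pool.Agent.Helper23.FB.Inst.iT2 Pool.Agent.Helper23.FB.Inst.iTR
  Pool.Agent.Helper23.FB.Inst.iSCC Pool.Agent.Helper23.FB.Inst.iIST
  Pool.Agent.Helper23.FB.Inst.iSCCR Pool.Agent.Helper23.FB.Inst.iISTR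
  Pool.Agent.Helper23.FB.Inst.iZHC Pool.Agent.Helper23.FB.Inst.iAHC
  Pool.Agent.Helper23.FB.Inst.iAMHC Pool.Agent.Helper23.FB.Inst.iMAHC
  Pool.Agent.Helper23.FB.Inst.lTop Pool.Agent.Helper23.FB.Inst.lUnif
  Pool.Agent.Helper23.FB.Inst.lACM Pool.Agent.Helper23.FB.Inst.lACG
  Pool.Agent.Helper23.FB.Inst.lSNAG Pool.Agent.Helper23.FB.Inst.lSNACG
  Pool.Agent.Helper23.FB.Inst.lNACG Pool.Agent.Helper23.FB.Inst.lNorm
  Pool.Agent.Helper23.FB.Inst.lIPS Pool.Agent.Helper23.FB.Inst.lMod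
  Pool.Agent.Helper23.FB.Inst.lSMul Pool.Agent.Helper23.FB.Inst.lT2
  Pool.Agent.Helper23.FB.Inst.iStar Pool.Agent.Helper23.FB.Inst.iStarMul
  Pool.Agent.Helper23.FB.Inst.iStarAddMonoid Pool.Agent.Helper23.FB.Inst.iStarRing
  Pool.Agent.Helper23.FB.Inst.iNSC Pool.Agent.Helper23.FB.Inst.iSOR
  Pool.Agent.Helper23.FB.Inst.iALM Pool.Agent.Helper23.FB.Inst.iARM
  Pool.Agent.Helper23.FB.Inst.iCFC Pool.Agent.Helper23.FB.Inst.iNCFC
  Pool.Agent.Helper23.FB.Inst.iStarModR Pool.Agent.Helper23.FB.Inst.iStarModC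
  Pool.Agent.Helper23.FB.Inst.eStar Pool.Agent.Helper23.FB.Inst.eAdd
  Pool.Agent.Helper23.FB.Inst.eMul Pool.Agent.Helper23.FB.Inst.eOne
  Pool.Agent.Helper23.FB.Inst.eZero Pool.Agent.Helper23.FB.Inst.eMulAction
  Pool.Agent.Helper23.FB.Inst.eAMHC2 Pool.Agent.Helper23.FB.Inst.eZHC2
  Pool.Agent.Helper23.FB.Inst.lAMHC

namespace Pool.Agent.Helper23
end Pool.Agent.Helper23
namespace Pool.Agent.Helper23.RBF
end Pool.Agent.Helper23.RBF

section

section

open scoped InnerProductSpace Topology BoundedContinuousFunction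

open ContinuousLinearMap Filter

namespace Pool.Agent.Helper23

universe u

variable {H : Type u} [NormedAddCommGroup H] [InnerProductSpace ℂ H] [CompleteSpace H]

variable {K : Type u} [NormedAddCommGroup K] [InnerProductSpace ℂ K] [CompleteSpace K]

variable {M N : VonNeumannAlgebra H} {ξ : H} {E : (H →L[ℂ] H) → (H →L[ℂ] H)}

namespace Oc

variable {MT NT : VonNeumannAlgebra K} {ET : (K →L[ℂ] K) → (K →L[ℂ] K)} {ζ : K}
  {rep : (ℕ → H →L[ℂ] H) → (K →L[ℂ] K)} (O : Oc M N E ξ MT NT ET ζ rep)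

include O

/-- U9b -/
theorem ap (S : Setting M N E ξ) (TB : ∀ x ∈ Bicent N N ξ, ∃ c : ℂ, x = c • 1)
    (NN : ∀ l : ℝ, 0 < l → ∃ a, LamSeq N ξ l a ∧ ¬ Tendsto (fun n => a n ξ) atTop (𝓝 0)) :
    AP MT NT ET ζ where
  toSetting := O.set
  dns := by
    intro a b ha hab
    exact ⟨(a + b) / 2, O.mem_Gam S NN (by linarith), by (clear * - hab; linarith), by linarith⟩
  irr := by
    intro X hX hcomm
    obtain ⟨x, hxS, hxN, hxb, hXx⟩ := O.surjN X hX
    set c : ℕ → ℂ := fun n => -⟪ξ, x n ξ⟫_ℂ with hc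
    have hcb : Bdd c := by
      refine ⟨2 * ‖X‖, fun n => ?_⟩
      simp only [hc, norm_neg]
      calc ‖⟪ξ, x n ξ⟫_ℂ‖ ≤ ‖ξ‖ * ‖x n ξ‖ := norm_inner_le_norm _ _
        _ ≤ ‖ξ‖ * (‖x n‖ * ‖ξ‖) := by gcongr; exact le_opNorm _ _
        _ = ‖x n‖ := by rw [S.norm_one]; ring
        _ ≤ _ := hxb n
    obtain ⟨c', hc'⟩ := O.rep_scalar S hcb
    have hcS : (fun n => c n • (1 : H →L[ℂ] H)) ∈ AppS M ξ := AppS_scalar hcb
    set y : ℕ → H →L[ℂ] H := fun n => x n + c n • (1 : H →L[ℂ] H) with hy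
    have hyS : y ∈ AppS M ξ := AppS_add hxS hcS
    have hyN : ∀ n, y n ∈ N := fun n => add_mem (hxN n) (smul_mem' _ (one_mem N))
    have hyX : rep y = X + c' • 1 := by
      rw [hy, O.add x hxS _ hcS, ← hXx, hc']
    have hy0 : ∀ n, ⟪ξ, y n ξ⟫_ℂ = 0 := by
      intro n
      simp only [hy, hc, add_apply, inner_add_right]
      have : ((-⟪ξ, x n ξ⟫_ℂ) • (1 : H →L[ℂ] H)) ξ = (-⟪ξ, x n ξ⟫_ℂ) • ξ := rfl
      rw [this, inner_smul_right, S.inner_self]
      ring
    have hex : ∀ n : ℕ, ∃ u ∈ N, Star.star u * u = 1 ∧ u * Star.star u = 1 ∧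
        Defect N ξ 1 (1 / ((n : ℝ) + 1)) u ∧
        (⟪y n ξ, (Star.star u * y n * u) ξ⟫_ℂ).re < 1 / ((n : ℝ) + 1) := by
      intro n
      by_contra hcon
      push Not at hcon
      have hpos : (0 : ℝ) < 1 / ((n : ℝ) + 1) := by (clear * -; positivity)
      have := S.avgA TB (hyN n) (y n ξ) ξ hpos (c := 1 / ((n : ℝ) + 1))
        (fun u hu h1 h2 h3 => hcon u hu h1 h2 h3)
      rw [hy0 n, zero_mul, Complex.zero_re] at this
      (clear * - hpos this; linarith)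
    choose u huN hu1 hu2 huD hure using hex
    have huL : LamU N ξ 1 u := by
      refine ⟨huN, ⟨1, fun n => norm_le_one_of_isom (hu1 n)⟩, fun ε hε => ?_⟩
      have h1 : ∀ᶠ n : ℕ in atTop, 1 / ((n : ℝ) + 1) < ε :=
        (tendsto_one_div_add_atTop_nhds_zero_nat (𝕜 := ℝ)).eventually (gt_mem_nhds hε)
      exact (h1.filter_mono UU_le_atTop).mono fun n hn => (huD n).mono hn.le
    have huS := S.lamU_appS one_pos huL
    have hU := O.eig_of_lamU S one_pos huL
    have hUX := hcomm _ hU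
    have hUY : rep u * rep y = rep y * rep u := by
      rw [hyX, mul_add, add_mul, hUX, mul_smul_comm, smul_mul_assoc, mul_one, one_mul]
    have hUU : Star.star (rep u) * rep u = 1 := by
      rw [← O.star u huS, ← O.mul _ (AppS_star huS) _ huS]
      simp only [hu1]
      exact O.one
    -- the limit
    have h1 := O.inner y hyS _ (AppS_mul (AppS_mul (AppS_star huS) hyS) huS)
    rw [O.mul _ (AppS_mul (AppS_star huS) hyS) _ huS, O.mul _ (AppS_star huS) _ hyS,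
      O.star u huS] at h1
    have h2 : Star.star (rep u) * rep y * rep u = rep y := by
      rw [mul_assoc, ← hUY, ← mul_assoc, hUU, one_mul]
    rw [h2] at h1
    have h3 := (Complex.continuous_re.tendsto _).comp h1
    have h4 : Tendsto (fun n : ℕ => 1 / ((n : ℝ) + 1)) (UU : Filter ℕ) (𝓝 0) :=
      (tendsto_one_div_add_atTop_nhds_zero_nat (𝕜 := ℝ)).mono_left UU_le_atTop
    have h5 : (⟪rep y ζ, rep y ζ⟫_ℂ).re ≤ 0 :=
      le_of_tendsto_of_tendsto' h3 h4 fun n => (hure n).le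
    have h6 : rep y ζ = 0 := by
      have h7 : 0 ≤ (⟪rep y ζ, rep y ζ⟫_ℂ).re := inner_self_nonneg (𝕜 := ℂ)
      have h8 : (⟪rep y ζ, rep y ζ⟫_ℂ).re = ‖rep y ζ‖ ^ 2 := by
        rw [inner_self_eq_norm_sq_to_K]
        norm_cast
      have h9 : ‖rep y ζ‖ ^ 2 = 0 := by rw [← h8]; exact le_antisymm h5 h7
      exact norm_eq_zero.1 (pow_eq_zero_iff (two_ne_zero) |>.1 h9)
    have h7 := O.set.sep _ (O.memM _ hyS) h6
    refine ⟨-c', ?_⟩
    rw [hyX] at h7
    rw [neg_smul]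
    exact eq_neg_of_add_eq_zero_left h7

end Oc

end Pool.Agent.Helper23

end

end

section

section

open scoped InnerProductSpace Topology ENNReal BoundedContinuousFunction

open ContinuousLinearMap Filter MeasureTheory

namespace Pool.Agent.Helper23

universe u

variable {H : Type u} [NormedAddCommGroup H] [InnerProductSpace ℂ H] [CompleteSpace H]

variable {K : Type u} [NormedAddCommGroup K] [InnerProductSpace ℂ K] [CompleteSpace K]

variable {M N : VonNeumannAlgebra H} {ξ : H} {E : (H →L[ℂ] H) → (H →L[ℂ] H)}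

namespace Oc

variable {MT NT : VonNeumannAlgebra K} {ET : (K →L[ℂ] K) → (K →L[ℂ] K)} {ζ : K}
  {rep : (ℕ → H →L[ℂ] H) → (K →L[ℂ] K)} (O : Oc M N E ξ MT NT ET ζ rep)

include O

/-- the flow on the bicentralizer -/
theorem bflow (S : Setting M N E ξ) (hAP : AP MT NT ET ζ)
    (hG : ∀ l : ℝ, 0 < l → l ∈ Gam NT ζ) : BFlow M N E ξ := by
  -- notation
  have hsp : ∀ {x : H →L[ℂ] H}, x ∈ Bicent M N ξ → ∀ {l : ℝ}, 0 < l →
      btU M N ξ l x ∈ Bicent M N ξ ∧
      rep (fun _ => btU M N ξ l x) = al MT NT ζ l (rep fun _ => x) := fun hx _ hl =>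
    ⟨(O.btU_spec S hAP hG hl hx).1, (O.btU_spec S hAP hG hl hx).2.2⟩
  have hQ : ∀ {x : H →L[ℂ] H}, x ∈ Bicent M N ξ → rep (fun _ => x) ∈ Qalg MT NT ζ :=
    fun hx => O.const_mem_Qalg S hx
  have hnorm : ∀ {x : H →L[ℂ] H}, x ∈ Bicent M N ξ → ∀ {l : ℝ}, 0 < l →
      ‖btU M N ξ l x‖ ≤ 2 * ‖x‖ := by
    intro x hx l hl
    have h1 := (hsp hx hl).1.1
    calc ‖btU M N ξ l x‖ = ‖ccU M ξ rep ζ (rep fun _ => btU M N ξ l x)‖ := by
          rw [O.cc_const S h1]
      _ ≤ ‖rep fun _ => btU M N ξ l x‖ := O.cc_norm S (O.const_mem S h1)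
      _ = ‖al MT NT ζ l (rep fun _ => x)‖ := by rw [(hsp hx hl).2]
      _ ≤ 2 * ‖rep fun _ => x‖ := hAP.al_opNorm' l (hQ hx)
      _ ≤ 2 * ‖x‖ := by
          gcongr
          exact O.norm _ (ocS_const S.dense_comm hx.1) _ fun _ => le_rfl
  refine
    { toSetting := S
      scal := fun x hx => ?_
      bt_mem := fun x hx l hl => (hsp hx hl).1
      bt_add := fun x hx y hy l hl => ?_
      bt_smul := fun c x hx l hl => ?_
      bt_mul := fun x hx y hy l hl => ?_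
      bt_star := fun x hx l hl => ?_
      bt_bt := fun x hx l hl m hm => ?_
      bt_one_act := fun x hx => ?_
      bt_opNorm := fun x hx l hl => hnorm hx hl
      bt_state := fun x hx l hl => ?_
      bt_cont := fun x hx v => ?_
      flow := fun x hx l hl a ha => (O.btU_spec S hAP hG hl hx).2.1 a ha
      flow_uniq := fun x hx y hy l hl h => O.btU_unique S hAP hG hl hx hy h
      core := fun u hu y hy κ hκ => O.coreAt S hAP hG hu hy hκ
      sl_mem := fun X hX f g => S.slX_bicent hX f g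
      sl_bt := fun X hX f g l hl => ?_ }
  · -- scal
    have h1 := O.set.E_Q hAP.irr (hQ hx)
    rw [O.expect _ (ocS_const S.dense_comm hx.1)] at h1
    have h2 : ⟪ζ, (rep fun _ => x) ζ⟫_ℂ = ⟪ξ, x ξ⟫_ℂ := by
      have h3 := O.const_inner S (one_mem M) hx.1
      rw [O.one] at h3
      exact h3
    rw [h2, ← O.one, ← O.const_smul S _ (one_mem M)] at h1
    exact O.const_inj S (S.le _ (S.E_mem x hx.1)) (smul_mem' _ (one_mem M)) h1
  · -- add
    refine O.const_inj S (hsp (AP.bicent_add hx hy) hl).1.1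
      (add_mem (hsp hx hl).1.1 (hsp hy hl).1.1) ?_
    rw [(hsp (AP.bicent_add hx hy) hl).2, O.const_add S hx.1 hy.1,
      O.const_add S (hsp hx hl).1.1 (hsp hy hl).1.1, (hsp hx hl).2, (hsp hy hl).2,
      hAP.al_add (hG l hl) (hQ hx) (hQ hy)]
  · -- smul
    refine O.const_inj S (hsp (AP.bicent_smul c hx) hl).1.1
      (smul_mem' c (hsp hx hl).1.1) ?_
    rw [(hsp (AP.bicent_smul c hx) hl).2, O.const_smul S c hx.1,
      O.const_smul S c (hsp hx hl).1.1, (hsp hx hl).2, hAP.al_smul (hG l hl) c (hQ hx)]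
  · -- mul
    refine O.const_inj S (hsp (AP.bicent_mul hx hy) hl).1.1
      (mul_mem (hsp hx hl).1.1 (hsp hy hl).1.1) ?_
    rw [(hsp (AP.bicent_mul hx hy) hl).2, O.const_mul S hx.1 hy.1,
      O.const_mul S (hsp hx hl).1.1 (hsp hy hl).1.1, (hsp hx hl).2, (hsp hy hl).2,
      hAP.al_mul (hG l hl) (hQ hx) (hQ hy)]
  · -- star
    refine O.const_inj S (hsp (S.bicent_star hx) hl).1.1 (star_mem (hsp hx hl).1.1) ?_
    rw [(hsp (S.bicent_star hx) hl).2, O.const_star S hx.1,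
      O.const_star S (hsp hx hl).1.1, (hsp hx hl).2, hAP.al_star (hG l hl) (hQ hx)]
  · -- action
    have hmx := (hsp hx hm).1
    refine O.const_inj S (hsp hmx hl).1.1 (hsp hx (mul_pos hl hm)).1.1 ?_
    rw [(hsp hmx hl).2, (hsp hx hm).2, (hsp hx (mul_pos hl hm)).2,
      hAP.al_al (hG l hl) (hG m hm) (hQ hx)]
  · -- one
    refine O.const_inj S (hsp hx one_pos).1.1 hx.1 ?_
    rw [(hsp hx one_pos).2, hAP.al_id (hQ hx)]
  · -- state
    have h1 := hAP.al_state (hG l hl) (hQ hx)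
    rw [← (hsp hx hl).2] at h1
    have h3 := O.const_inner S (one_mem M) hx.1
    have h4 := O.const_inner S (one_mem M) (hsp hx hl).1.1
    rw [O.one] at h3 h4
    simp only [one_apply_eq_self] at h3 h4
    rw [← h3, ← h4]
    exact h1
  · -- continuity
    intro l hl
    have hl' : 0 < l := hl
    have hI := hAP.InB_of_bicent (O.bicent_of_Qalg S (hQ hx))
    have h1 := hAP.bet_cont hI ζ l hl
    have h2 : Tendsto (fun m => (btU M N ξ m x - btU M N ξ l x) ξ) (𝓝[Set.Ioi 0] l) (𝓝 0) := by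
      rw [tendsto_zero_iff_norm_tendsto_zero]
      have h3 := h1.tendsto.sub_const (bet MT NT ζ l (rep fun _ => x) ζ)
      rw [sub_self, tendsto_zero_iff_norm_tendsto_zero] at h3
      refine h3.congr' ?_
      filter_upwards [self_mem_nhdsWithin] with m hm
      have hm' : 0 < m := hm
      have ha := (hsp hx hm').1.1
      have hb := (hsp hx hl').1.1
      rw [hAP.bet_eq_al hI (hG m hm'), hAP.bet_eq_al hI (hG l hl'), ← (hsp hx hm').2,
        ← (hsp hx hl').2, ← O.const_norm S (sub_mem ha hb), O.const_sub S ha hb]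
      rfl
    have h3 := tendsto_of_bounded_ev M S.dense_comm
      (x := fun m => btU M N ξ m x - btU M N ξ l x) (C := 2 * ‖x‖ + 2 * ‖x‖) (by
        filter_upwards [self_mem_nhdsWithin] with m hm
        exact ⟨sub_mem (hsp hx hm).1.1 (hsp hx hl').1.1,
          (norm_sub_le _ _).trans (add_le_add (hnorm hx hm) (hnorm hx hl'))⟩)
      (by (clear * -; positivity)) h2 v
    have h4 := h3.add_const (btU M N ξ l x v)
    rw [zero_add] at h4
    refine h4.congr fun m => ?_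
    rw [sub_apply, sub_add_cancel]
  · -- slices
    symm
    exact O.btU_unique S hAP hG hl (S.slX_bicent hX f g) (S.slX_bicent hX _ _).1
      fun a ha => S.slX_shift hX f g hl ha

end Oc

end Pool.Agent.Helper23

end

section

open scoped InnerProductSpace Topology ENNReal BoundedContinuousFunction

open ContinuousLinearMap Filter MeasureTheory

namespace Pool.Agent.Helper23

universe u

variable {H : Type u} [NormedAddCommGroup H] [InnerProductSpace ℂ H] [CompleteSpace H]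

variable {M N : VonNeumannAlgebra H} {ξ : H} {E : (H →L[ℂ] H) → (H →L[ℂ] H)}

theorem Setting.bflow (S : Setting M N E ξ) (hN : TypeIIIOne N)
    (TB : ∀ x ∈ Bicent N N ξ, ∃ c : ℂ, x = c • 1) : BFlow M N E ξ := by
  have NN : ∀ l : ℝ, 0 < l → ∃ a, LamSeq N ξ l a ∧ ¬ Tendsto (fun n => a n ξ) atTop (𝓝 0) :=
    fun l hl => hN.exists_lamSeq S.norm_one hl
  obtain ⟨K, i1, i2, i3, MT, NT, ET, ζ, rep, O⟩ := S.exists_Oc
  exact O.bflow S (O.ap S TB NN) fun l hl => O.mem_Gam S NN hl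

end Pool.Agent.Helper23

end

section

open scoped InnerProductSpace Topology ENNReal BoundedContinuousFunction

open ContinuousLinearMap Filter MeasureTheory

namespace Pool.Agent.Helper23.ED

open Pool.Agent.Helper23 Pool.Agent.Helper23.RBF

open Pool.Agent.Helper78.BC.Transport (Sub r)

universe u

variable {H : Type*} [NormedAddCommGroup H] [InnerProductSpace ℂ H] [CompleteSpace H]

variable {M N : VonNeumannAlgebra H} {ξ : H} {E : (H →L[ℂ] H) → (H →L[ℂ] H)}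

theorem exists_dominant_wt (S : Setting M N E ξ) (hN : TwoIsom N) :
    ∃ ζ : ℕ → H, IsDominant N (wt ζ) := by
  classical
  obtain ⟨W, hW⟩ := exists_W_of hN
  have hN' : ∀ x, x ∈ N ↔ W.conjStarAlgEquiv x ∈ amp N := conj_mem_amp hW fun a ha => ha
  have h := transport_dominant W hN' (wK_dominant_of S.dense_commN hN S.conjGK)
  have : Countable hw := hw_countable
  obtain ⟨f, hf⟩ := exists_injective_nat JJ
  refine ⟨Function.extend f (fun j => W.symm (ten (gJ j) ξ)) 0, ?_⟩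
  have e : wt (Function.extend f (fun j => W.symm (ten (gJ j) ξ)) 0) =
      fun x : H →L[ℂ] H => wK ξ (W.conjStarAlgEquiv x) := by
    funext x
    rw [wt, wK, ← tsum_extend_zero hf]
    refine tsum_congr fun n => ?_
    by_cases hn : ∃ j, f j = n
    · obtain ⟨j, rfl⟩ := hn
      rw [hf.extend_apply, hf.extend_apply, inner_conj]
    · rw [Function.extend_apply' _ _ _ hn, Function.extend_apply' _ _ _ hn]
      simp
  rw [e]
  exact h

end Pool.Agent.Helper23.ED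

end

end

section

section

open scoped InnerProductSpace Topology ENNReal BoundedContinuousFunction

open ContinuousLinearMap Filter MeasureTheory

namespace Pool.Agent.Helper23.ED

open Pool.Agent.Helper23 Pool.Agent.Helper23.RBF

open Pool.Agent.Helper78.BC.Transport (Sub r)

universe u

open TopologicalSpace

variable {H : Type u} [NormedAddCommGroup H] [InnerProductSpace ℂ H] [CompleteSpace H]

variable {M N : VonNeumannAlgebra H} {ξ : H} {E : (H →L[ℂ] H) → (H →L[ℂ] H)}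

theorem main_every' [SeparableSpace H] (S : Setting M N E ξ) (hN : TypeIIIOne N)
    (TB : ∀ x ∈ Bicent N N ξ, ∃ c : ℂ, x = c • 1) :
    IsRelativeBicentralizerFlow N ξ S.Balg (btU M N ξ) ∧
    (∃ ψ : (H →L[ℂ] H) → ℝ≥0∞, IsDominant N ψ) ∧
    ∀ ψ : (H →L[ℂ] H) → ℝ≥0∞, IsDominant N ψ →
      ∃ π : (H →L[ℂ] H) → (H →L[ℂ] H), IsStarIso S.Balg (Calg M N ψ) π ∧
        BoundedStronglyContinuous S.Balg π ∧ IntertwinesFlows N ψ S.Balg (btU M N ξ) π ∧
        ∀ x ∈ S.Balg, E (π x) = ⟪ξ, x ξ⟫_ℂ • (1 : H →L[ℂ] H) := by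
  have B := S.bflow hN TB
  obtain ⟨Ψ, hΨ, hinv⟩ := exists_modular' S
  have hV : UG (fun t => Ψ (expB t)) := hΨ.fcal.ug
  obtain ⟨ζ, hζ⟩ := exists_dominant_wt S hN.1
  refine ⟨B.isRelativeBicentralizerFlow, ⟨_, hζ⟩, fun ψ hψ => ?_⟩
  obtain ⟨c, hc⟩ := exists_coc' S hΨ hinv hψ.toIsNSFWeight
  obtain ⟨W, hW, hWc⟩ := exists_W_coc hV S.dense_commN hc hψ
  exact main_of_W B hΨ hinv hc W hW hWc

end Pool.Agent.Helper23.ED

end

end
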